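import Mathlib

/-! Stream C3: transcendence degrees of quotients and heights, general lemmas -/

set_option autoImplicit false

namespace Pool.Agent.Lib.MP_463376_co

open Cardinal

/-- The transcendence degree drops along non-injective surjections of domains. -/
theorem C3_drop {k D E : Type} [Field k] [CommRing D] [IsDomain D] [Algebra k D] [CommRing E]
    [IsDomain E] [Algebra k E] (φ : D →ₐ[k] E) (hs : Function.Surjective φ)
    (hi : ¬ Function.Injective φ) : Algebra.trdeg k E + 1 ≤ Algebra.trdeg k D := by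
  obtain ⟨s, hs'⟩ := exists_isTranscendenceBasis k E
  choose g hg using hs
  have hy : AlgebraicIndependent k (fun i : s => g i) := by
    refine AlgebraicIndependent.of_comp φ ?_
    have : (φ ∘ fun i : s => g i) = ((↑) : s → E) := by
      funext i
      exact hg i
    rw [this]
    exact hs'.1
  obtain ⟨f, hf0, hfφ⟩ : ∃ f : D, f ≠ 0 ∧ φ f = 0 := by
    by_contra h
    push Not at h
    refine hi ((injective_iff_map_eq_zero φ).2 fun a ha => ?_)
    by_contra h0
    exact h a h0 ha
  have ht : Transcendental (Algebra.adjoin k (Set.range fun i : s => g i)) f := by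
    intro hal
    obtain ⟨q, hq0, hq⟩ := hal.exists_nonzero_coeff_and_aeval_eq_zero
      (mem_nonZeroDivisors_of_ne_zero hf0)
    apply hq0
    have h1 : f ∣ Polynomial.aeval f (q - Polynomial.C (q.coeff 0)) := by
      obtain ⟨r, hr⟩ := Polynomial.X_dvd_sub_C (p := q)
      rw [hr, map_mul, Polynomial.aeval_X]
      exact dvd_mul_right _ _
    obtain ⟨r, hr⟩ := h1
    rw [map_sub, hq, zero_sub, Polynomial.aeval_C] at hr
    have h2 : φ ((q.coeff 0 : Algebra.adjoin k (Set.range fun i : s => g i)) : D) = 0 := by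
      have h3 := congrArg φ hr
      rw [map_neg, map_mul, hfφ, zero_mul, neg_eq_zero] at h3
      exact h3
    have h3 : ((q.coeff 0 : Algebra.adjoin k (Set.range fun i : s => g i)) : D) ∈
        (MvPolynomial.aeval (R := k) (fun i : s => g i)).range := by
      rw [← Algebra.adjoin_range_eq_range_aeval]
      exact (q.coeff 0).2
    obtain ⟨p, hp⟩ := h3
    have h4 : MvPolynomial.aeval ((↑) : s → E) p = 0 := by
      rw [← h2, ← hp]
      have h5 : φ (MvPolynomial.aeval (fun i : s => g i) p) =
          MvPolynomial.aeval (fun i : s => φ (g i)) p := by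
        rw [← AlgHom.comp_apply, MvPolynomial.comp_aeval]
      refine Eq.trans ?_ h5.symm
      congr 1
      congr 1
      funext i
      exact (hg i).symm
    have h5 : p = 0 := by
      have h6 := hs'.1
      rw [algebraicIndependent_iff] at h6
      exact h6 p h4
    apply Subtype.ext
    rw [← hp, h5]
    simp
  have h1 := (hy.option_iff_transcendental f).2 ht
  have h2 := h1.cardinalMk_le_trdeg
  rw [Cardinal.mk_option, hs'.cardinalMk_eq_trdeg] at h2
  exact h2

/-- Strict inclusions of primes. -/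
theorem C3_lt {k A : Type} [Field k] [CommRing A] [Algebra k A] {p q : Ideal A} [p.IsPrime]
    [q.IsPrime] (h : p < q) : Algebra.trdeg k (A ⧸ q) + 1 ≤ Algebra.trdeg k (A ⧸ p) := by
  refine C3_drop (Ideal.Quotient.factorₐ k h.le) (Ideal.Quotient.factor_surjective h.le) ?_
  intro hi
  obtain ⟨x, hx, hxp⟩ := Set.exists_of_ssubset (show (p : Set A) ⊂ q from h)
  refine hxp ?_
  have h1 : Ideal.Quotient.factorₐ k h.le (Ideal.Quotient.mk p x) = 0 := by
    show Ideal.Quotient.mk q x = 0
    exact Ideal.Quotient.eq_zero_iff_mem.2 hx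
  have h2 := hi (h1.trans (map_zero _).symm)
  exact Ideal.Quotient.eq_zero_iff_mem.1 h2

/-- Algebraic extensions. -/
theorem C3_alg (k D E : Type) [Field k] [CommRing D] [IsDomain D] [Algebra k D] [CommRing E]
    [IsDomain E] [Algebra k E] [Algebra D E] [IsScalarTower k D E] [FaithfulSMul D E]
    [Algebra.IsAlgebraic D E] : Algebra.trdeg k D = Algebra.trdeg k E := by
  have h := _root_.trdeg_add_eq k D (A := E)
  rw [_root_.trdeg_eq_zero (R := D) (A := E), add_zero] at h
  exact h

/-- Height plus transcendence degree. -/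
theorem C3_height_add {k A : Type} [Field k] [CommRing A] [IsDomain A] [Algebra k A] {N : ℕ}
    (hN : Algebra.trdeg k A ≤ N) (p : Ideal A) [p.IsPrime] :
    p.height + (Algebra.trdeg k (A ⧸ p)).toENat ≤ (N : ℕ∞) := by
  have hle : ∀ P : Ideal A, Algebra.trdeg k (A ⧸ P) ≤ N := fun P =>
    (_root_.trdeg_le_of_surjective (Ideal.Quotient.mkₐ k P)
      (Ideal.Quotient.mkₐ_surjective k P)).trans hN
  have hnat : ∀ P : Ideal A, ∃ t : ℕ, Algebra.trdeg k (A ⧸ P) = t ∧ t ≤ N := by
    intro P
    obtain ⟨t, ht⟩ := Cardinal.lt_aleph0.1 ((hle P).trans_lt (Cardinal.natCast_lt_aleph0))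
    refine ⟨t, ht, ?_⟩
    have := hle P
    rw [ht] at this
    exact_mod_cast this
  choose t ht htN using hnat
  have hmono : StrictMono (fun P : PrimeSpectrum A => N - t P.asIdeal) := by
    intro P Q hPQ
    have h1 : Algebra.trdeg k (A ⧸ Q.asIdeal) + 1 ≤ Algebra.trdeg k (A ⧸ P.asIdeal) := C3_lt hPQ
    rw [ht, ht] at h1
    have h2 : t Q.asIdeal + 1 ≤ t P.asIdeal := by exact_mod_cast h1
    have h3 := htN P.asIdeal
    show N - t P.asIdeal < N - t Q.asIdeal
    omega
  have h1 := Order.height_le_height_apply_of_strictMono _ hmono ⟨p, inferInstance⟩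
  rw [Order.height_nat] at h1
  have h2 : p.height = Order.height (⟨p, inferInstance⟩ : PrimeSpectrum A) :=
    PrimeSpectrum.height_eq_orderHeight ⟨p, inferInstance⟩
  rw [h2, ht p]
  refine (add_le_add_left h1 _).trans ?_
  rw [Cardinal.toENat_nat]
  have h3 := htN p
  have h4 : (N - t p) + t p = N := by omega
  exact_mod_cast h4.le

/-- Hypersurfaces. -/
theorem C3_mv {k : Type} [Field k] {s : ℕ} {f : MvPolynomial (Fin s) k} (hf : Prime f) :
    Algebra.trdeg k (MvPolynomial (Fin s) k ⧸ Ideal.span {f}) + 1 = (s : Cardinal) := by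
  have hp : (Ideal.span {f}).IsPrime := (Ideal.span_singleton_prime hf.ne_zero).2 hf
  have htr : Algebra.trdeg k (MvPolynomial (Fin s) k) = (s : Cardinal) := by
    rw [MvPolynomial.trdeg_of_isDomain]
    simp
  refine le_antisymm ?_ ?_
  · rw [← htr]
    refine C3_drop (Ideal.Quotient.mkₐ k (Ideal.span {f}))
      (Ideal.Quotient.mkₐ_surjective k _) ?_
    intro hi
    have h1 : Ideal.Quotient.mkₐ k (Ideal.span {f}) f = 0 :=
      Ideal.Quotient.eq_zero_iff_mem.2 (Ideal.mem_span_singleton_self f)
    exact hf.ne_zero (hi (h1.trans (map_zero _).symm))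
  · obtain ⟨i, hi⟩ : ∃ i, MvPolynomial.degreeOf i f ≠ 0 := by
      by_contra h
      push Not at h
      have h1 : f.totalDegree = 0 := by
        rw [MvPolynomial.totalDegree_eq_zero_iff]
        intro m hm x
        exact Nat.le_zero.1 (MvPolynomial.degreeOf_le_iff.1 (h x).le m hm)
      rw [MvPolynomial.totalDegree_eq_zero_iff_eq_C] at h1
      refine hf.not_isUnit ?_
      rw [h1]
      have h2 : MvPolynomial.coeff 0 f ≠ 0 := by
        intro h3
        rw [h3, map_zero] at h1
        exact hf.ne_zero h1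
      exact (IsUnit.mk0 _ h2).map MvPolynomial.C
    have hind : AlgebraicIndependent k (fun j : {j : Fin s // j ≠ i} =>
        Ideal.Quotient.mkₐ k (Ideal.span {f}) (MvPolynomial.X (j : Fin s))) := by
      rw [algebraicIndependent_iff]
      intro p hp0
      have h1 : MvPolynomial.aeval (fun j : {j : Fin s // j ≠ i} =>
          Ideal.Quotient.mkₐ k (Ideal.span {f}) (MvPolynomial.X (j : Fin s))) p =
          Ideal.Quotient.mkₐ k (Ideal.span {f})
            (MvPolynomial.rename ((↑) : {j : Fin s // j ≠ i} → Fin s) p) := by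
        rw [MvPolynomial.rename_eq_aeval, ← AlgHom.comp_apply, MvPolynomial.comp_aeval]
        rfl
      rw [h1] at hp0
      have h2 := Ideal.mem_span_singleton.1 (Ideal.Quotient.eq_zero_iff_mem.1 hp0)
      obtain ⟨h, hh⟩ := h2
      by_contra hpne
      have h3 : MvPolynomial.rename ((↑) : {j : Fin s // j ≠ i} → Fin s) p ≠ 0 := by
        intro h4
        exact hpne ((MvPolynomial.rename_injective _ Subtype.val_injective)
          (h4.trans (map_zero _).symm))
      have h4 : h ≠ 0 := by
        rintro rfl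
        rw [mul_zero] at hh
        exact h3 hh
      have h5 : MvPolynomial.degreeOf i
          (MvPolynomial.rename ((↑) : {j : Fin s // j ≠ i} → Fin s) p) = 0 := by
        rw [← Nat.le_zero, MvPolynomial.degreeOf_le_iff]
        intro m hm
        classical
        obtain ⟨u, hu, -⟩ := MvPolynomial.coeff_rename_ne_zero _ p m
          (MvPolynomial.mem_support_iff.1 hm)
        rw [← hu, Finsupp.mapDomain_of_notMem_range]
        rintro ⟨j, hj⟩
        exact j.2 hj
      rw [hh, MvPolynomial.degreeOf_mul_eq hf.ne_zero h4] at h5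
      omega
    have h1 := hind.cardinalMk_le_trdeg
    have h2 : (s : Cardinal) = #{j : Fin s // j ≠ i} + 1 := by
      have h3 : Fintype.card {j : Fin s // j ≠ i} + 1 = s := by
        rw [Fintype.card_subtype_compl, Fintype.card_subtype_eq, Fintype.card_fin]
        have := i.pos
        omega
      rw [Cardinal.mk_fintype]
      exact_mod_cast h3.symm
    rw [h2]
    gcongr

/-- Primes of height one of finitely generated domains. -/
theorem C3_ht1 {k O : Type} [Field k] [CommRing O] [IsDomain O] [Algebra k O]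
    [Algebra.FiniteType k O] (q : Ideal O) [q.IsPrime] (hq : q.height = 1) :
    Algebra.trdeg k (O ⧸ q) + 1 = Algebra.trdeg k O := by
  obtain ⟨s, g, hinj, hint⟩ := exists_integral_inj_algHom_of_fg k O
  let alg : Algebra (MvPolynomial (Fin s) k) O := g.toRingHom.toAlgebra
  have tow : IsScalarTower k (MvPolynomial (Fin s) k) O :=
    IsScalarTower.of_algebraMap_eq (fun x => (g.commutes x).symm)
  have int : Algebra.IsIntegral (MvPolynomial (Fin s) k) O := ⟨hint⟩
  have fs : FaithfulSMul (MvPolynomial (Fin s) k) O :=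
    (faithfulSMul_iff_algebraMap_injective _ _).2 hinj
  have noeth : IsNoetherianRing O := Algebra.FiniteType.isNoetherianRing k O
  obtain ⟨q₀, hq₀⟩ : ∃ q₀ : Ideal (MvPolynomial (Fin s) k),
      q₀ = q.under (MvPolynomial (Fin s) k) := ⟨_, rfl⟩
  have pr : q₀.IsPrime := by rw [hq₀]; infer_instance
  have lo : q.LiesOver q₀ := ⟨hq₀⟩
  have h1 := Ideal.height_eq_height_add_of_liesOver_of_hasGoingDown q₀ q
  have h2 : q₀.height ≤ 1 := by
    rw [← hq, h1]
    exact le_self_add
  have h3 : q₀ ≠ ⊥ := by
    rw [hq₀]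
    exact Ideal.IsIntegral.comap_ne_bot _ (Ideal.ne_bot_of_height_eq_one hq)
  have h4 : q₀.height ≠ 0 := fun h => h3 (Ideal.height_eq_zero_iff_eq_bot.1 h)
  have h5 : q₀.height = 1 := le_antisymm h2 (Order.one_le_iff_ne_zero.2 h4)
  obtain ⟨f, hf, hfp⟩ := pr.exists_mem_prime_of_ne_bot h3
  have h6 : q₀ = Ideal.span {f} := Ideal.eq_span_singleton_of_height_eq_one h5 hf hfp
  have h7 : Algebra.trdeg k (MvPolynomial (Fin s) k ⧸ q₀) = Algebra.trdeg k (O ⧸ q) :=
    C3_alg k (MvPolynomial (Fin s) k ⧸ q₀) (O ⧸ q)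
  have h8 : Algebra.trdeg k (MvPolynomial (Fin s) k) = Algebra.trdeg k O :=
    C3_alg k (MvPolynomial (Fin s) k) O
  rw [← h7, ← h8, h6, C3_mv hfp, MvPolynomial.trdeg_of_isDomain]
  simp

/-- Localizations. -/
theorem C3_loc {k O A : Type} [Field k] [CommRing O] [Algebra k O] [CommRing A] [Algebra k A]
    [Algebra O A] [IsScalarTower k O A] (M : Submonoid O) [IsLocalization M A] (p : Ideal A)
    [p.IsPrime] :
    Algebra.trdeg k (O ⧸ p.under O) = Algebra.trdeg k (A ⧸ p) := by
  have alg : Algebra.IsAlgebraic (O ⧸ p.under O) (A ⧸ p) := by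
    constructor
    intro x
    obtain ⟨a, rfl⟩ := Ideal.Quotient.mk_surjective x
    obtain ⟨⟨b, c⟩, hbc⟩ := IsLocalization.surj M a
    have hc : (c : O) ∉ p.under O := by
      intro h
      exact (Ideal.IsPrime.ne_top ‹_›) (Ideal.eq_top_of_isUnit_mem p h (IsLocalization.map_units A c))
    refine ⟨Polynomial.C (Ideal.Quotient.mk _ (c : O)) * Polynomial.X -
      Polynomial.C (Ideal.Quotient.mk _ b), ?_, ?_⟩
    · intro h
      have h1 := congrArg (fun P => Polynomial.coeff P 1) h
      simp only [Polynomial.coeff_sub, Polynomial.coeff_C_mul, Polynomial.coeff_X_one, mul_one,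
        Polynomial.coeff_C_succ, sub_zero, Polynomial.coeff_zero] at h1
      exact hc (Ideal.Quotient.eq_zero_iff_mem.1 h1)
    · simp only [map_sub, map_mul, Polynomial.aeval_C, Polynomial.aeval_X]
      rw [sub_eq_zero]
      have h1 : ∀ y : O, algebraMap (O ⧸ p.under O) (A ⧸ p) (Ideal.Quotient.mk _ y) =
        Ideal.Quotient.mk p (algebraMap O A y) := fun y => rfl
      rw [h1, h1, ← map_mul, ← hbc, mul_comm]
  exact C3_alg k (O ⧸ p.under O) (A ⧸ p)

end Pool.Agent.Lib.MP_463376_co
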