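import Pool.Agent.Lib.MP_463376_co.A_Main

/-!
# Stream A: the basis
-/

set_option autoImplicit false

namespace Pool.Agent.Lib.MP_463376_co.StrA

open MvPolynomial

variable {k : Type} [Field k] {ι : Type} [DecidableEq ι] [Fintype ι]

/-- the first removal times -/
noncomputable def r0 (ι : Type) [Fintype ι] (i : ι) : ℕ :=
  Fintype.card ι - 1 - ((Fintype.equivFin ι i : Fin (Fintype.card ι)) : ℕ)

omit [DecidableEq ι] in
theorem r0_lt (i : ι) : r0 ι i < Fintype.card ι := by
  have := (Fintype.equivFin ι i).isLt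
  unfold r0
  omega

omit [DecidableEq ι] in
theorem r0_inj {i j : ι} (h : r0 ι i = r0 ι j) : i = j := by
  have h1 := (Fintype.equivFin ι i).isLt
  have h2 := (Fintype.equivFin ι j).isLt
  unfold r0 at h
  apply (Fintype.equivFin ι).injective
  apply Fin.ext
  omega

omit [DecidableEq ι] in
theorem good0 (d : ℕ) : Good d (Fintype.card ι) (Finset.univ : Finset ι) (fun _ _ => d) (r0 ι) := by
  refine ⟨fun _ _ => rfl, fun i _ i' _ hne => ⟨fun h => hne (r0_inj h), ?_⟩,
    fun i _ i' _ j hj => absurd (Finset.mem_univ j) hj, fun _ _ _ _ _ => rfl⟩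
  have := r0_lt i
  omega

/-- the order of the exponents at the beginning -/
def pr (l' l : ι →₀ ℕ) : Prop := prec (Fintype.card ι) Finset.univ (r0 ι) l' l

omit [DecidableEq ι] in
theorem pr_asymm {l' l : ι →₀ ℕ} (h : pr l' l) (h' : pr l l') : False := prec_asymm h h'

omit [DecidableEq ι] in
theorem RT_inj {l l' : ι →₀ ℕ} (h : ∀ t, RT (Fintype.card ι) Finset.univ (r0 ι) l t →
    RT (Fintype.card ι) Finset.univ (r0 ι) l' t) : l = l' := by
  ext i
  obtain ⟨i', -, hi'⟩ := h _ ⟨i, Finset.mem_univ i, rfl⟩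
  have h1 := r0_lt i
  have h2 := r0_lt i'
  have h3 : r0 ι i' = r0 ι i := by
    have h4 := congrArg (fun x => x % Fintype.card ι) hi'
    simp only [Nat.add_mul_mod_self_left] at h4
    rwa [Nat.mod_eq_of_lt h1, Nat.mod_eq_of_lt h2] at h4
  have h5 := r0_inj h3
  subst h5
  have h6 : Fintype.card ι * l' i' = Fintype.card ι * l i' := by omega
  exact (Nat.eq_of_mul_eq_mul_left (by omega) h6).symm

omit [DecidableEq ι] in
theorem pr_total {l l' : ι →₀ ℕ} (h : l ≠ l') : pr l' l ∨ pr l l' := by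
  classical
  have hex : ∃ t, ¬ (RT (Fintype.card ι) Finset.univ (r0 ι) l t ↔
      RT (Fintype.card ι) Finset.univ (r0 ι) l' t) := by
    by_contra hc
    push Not at hc
    exact h (RT_inj fun t ht => (hc t).1 ht)
  have h1 := Nat.find_spec hex
  have h2 := fun s (hs : s < Nat.find hex) => not_not.1 (Nat.find_min hex hs)
  by_cases h3 : RT (Fintype.card ι) Finset.univ (r0 ι) l (Nat.find hex)
  · left
    exact ⟨_, h3, fun h4 => h1 ⟨fun _ => h4, fun _ => h3⟩, h2⟩
  · right
    by_cases h4 : RT (Fintype.card ι) Finset.univ (r0 ι) l' (Nat.find hex)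
    · exact ⟨_, h4, h3, fun s hs => (h2 s hs).symm⟩
    · exact absurd ⟨fun h5 => absurd h5 h3, fun h5 => absurd h5 h4⟩ h1

omit [DecidableEq ι] in
theorem pr_trans {l₁ l₂ l₃ : ι →₀ ℕ} (h : pr l₁ l₂) (h' : pr l₂ l₃) : pr l₁ l₃ := by
  obtain ⟨t, a1, a2, a3⟩ := h
  obtain ⟨t', b1, b2, b3⟩ := h'
  rcases lt_trichotomy t t' with hlt | heq | hlt
  · exact ⟨t, (b3 t hlt).2 a1, a2, fun s hs => (b3 s (hs.trans hlt)).trans (a3 s hs)⟩
  · rw [heq] at a1
    exact absurd a1 b2
  · exact ⟨t', b1, fun h => b2 ((a3 t' hlt).2 h), fun s hs => (b3 s hs).trans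
      (a3 s (hs.trans hlt))⟩

omit [DecidableEq ι] in
theorem pr_irrefl (l : ι →₀ ℕ) : ¬ pr l l := fun h => pr_asymm h h

omit [DecidableEq ι] in
theorem exists_max (s : Finset (ι →₀ ℕ)) (hs : s.Nonempty) :
    ∃ m ∈ s, ∀ l ∈ s, l = m ∨ pr l m := by
  classical
  induction hs using Finset.Nonempty.cons_induction with
  | singleton a =>
    refine ⟨a, Finset.mem_singleton_self a, fun l hl => Or.inl (Finset.mem_singleton.1 hl)⟩
  | cons a s ha hs ih =>
    obtain ⟨m, hm, hmax⟩ := ih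
    have ham : a ≠ m := fun h => ha (by rw [h]; exact hm)
    rcases pr_total ham with h | h
    · refine ⟨a, Finset.mem_cons_self a s, fun l hl => ?_⟩
      rcases Finset.mem_cons.1 hl with rfl | hl
      · exact Or.inl rfl
      · rcases hmax l hl with rfl | h2
        · exact Or.inr h
        · exact Or.inr (pr_trans h2 h)
    · refine ⟨m, Finset.mem_cons_of_mem hm, fun l hl => ?_⟩
      rcases Finset.mem_cons.1 hl with rfl | hl
      · exact Or.inr h
      · exact hmax l hl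

/-- the leading coefficients -/
noncomputable def ldc (k : Type) [Field k] {ι : Type} [Fintype ι] [DecidableEq ι] (d : ℕ)
    (l : ι →₀ ℕ) : BB k ι := prd k (fn (Fintype.card ι) Finset.univ (fun _ _ => d) (r0 ι) l)

theorem ldc_ne_zero (d : ℕ) (l : ι →₀ ℕ) : ldc k d l ≠ 0 := prd_ne_zero _

theorem exists_el0 (k : Type) [Field k] (d : ℕ) (l : ι →₀ ℕ) :
    ∃ b ∈ NN k (Finset.univ : Finset ι) (fun _ _ => d) ⊓ HH k ι l.degree, coeff l b = ldc k d l ∧
      ∀ l', coeff l' b ≠ 0 → l' = l ∨ pr l' l :=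
  exists_el (fun _ => Fintype.card_pos) _ Finset.univ (fun _ _ => d) (r0 ι) l (good0 d)
    (fun i hi => absurd (Finset.mem_univ i) hi) le_rfl

theorem dvd_lead0 {d : ℕ} {l : ι →₀ ℕ} {f : WW k ι}
    (hf : f ∈ NN k (Finset.univ : Finset ι) (fun _ _ => d))
    (h : ∀ l', coeff l' f ≠ 0 → l' = l ∨ pr l' l) : ldc k d l ∣ coeff l f :=
  dvd_lead (fun _ => Fintype.card_pos) _ Finset.univ (fun _ _ => d) (r0 ι) l f (good0 d)
    (fun i hi => absurd (Finset.mem_univ i) hi) le_rfl hf h

section span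

variable {d : ℕ} {b : (ι →₀ ℕ) → WW k ι}
  (hb1 : ∀ l, b l ∈ NN k (Finset.univ : Finset ι) (fun _ _ => d) ⊓ HH k ι l.degree)
  (hb2 : ∀ l, coeff l (b l) = ldc k d l)
  (hb3 : ∀ l l', coeff l' (b l) ≠ 0 → l' = l ∨ pr l' l)

include hb2 hb3 in
theorem unique_aux (c : (ι →₀ ℕ) →₀ BB k ι) (h : (c.sum fun l a => a • b l) = 0) : c = 0 := by
  by_contra hc
  obtain ⟨m, hm, hmax⟩ := exists_max c.support (Finsupp.support_nonempty_iff.2 hc)
  have h1 := congrArg (coeff m) h
  rw [Finsupp.sum, coeff_sum, coeff_zero, Finset.sum_eq_single m] at h1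
  · rw [coeff_smul', hb2] at h1
    rcases mul_eq_zero.1 h1 with h2 | h2
    · exact Finsupp.mem_support_iff.1 hm h2
    · exact ldc_ne_zero d m h2
  · intro l hl hlm
    rw [coeff_smul']
    by_cases h0 : coeff m (b l) = 0
    · rw [h0, mul_zero]
    · exfalso
      have h2 := (hmax l hl).resolve_left hlm
      rcases hb3 l m h0 with h3 | h3
      · exact hlm h3.symm
      · exact pr_asymm h2 h3
  · intro h2
    exact absurd hm h2

include hb1 hb2 hb3 in
theorem span_aux (N : ℕ) {f : WW k ι} (hf : f ∈ NN k (Finset.univ : Finset ι) (fun _ _ => d))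
    (hN : ∀ l, coeff l f ≠ 0 → l.degree ≤ N) :
    ∃ c : (ι →₀ ℕ) →₀ BB k ι, f = c.sum fun l a => a • b l := by
  classical
  have hfin : Finite {l : ι →₀ ℕ // l.degree ≤ N} := (Finsupp.finite_of_degree_le N).to_subtype
  have hwf : WellFounded (fun l' l : {l : ι →₀ ℕ // l.degree ≤ N} => pr l'.1 l.1) := by
    have : Std.Irrefl (fun l' l : {l : ι →₀ ℕ // l.degree ≤ N} => pr l'.1 l.1) :=
      ⟨fun a => pr_irrefl a.1⟩
    have : IsTrans {l : ι →₀ ℕ // l.degree ≤ N} (fun l' l => pr l'.1 l.1) :=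
      ⟨fun a b c h1 h2 => pr_trans h1 h2⟩
    exact Finite.wellFounded_of_trans_of_irrefl _
  have key : ∀ l : {l : ι →₀ ℕ // l.degree ≤ N}, ∀ f ∈ NN k (Finset.univ : Finset ι)
      (fun _ _ => d), (∀ l, coeff l f ≠ 0 → l.degree ≤ N) →
      (∀ l', coeff l' f ≠ 0 → l' = l.1 ∨ pr l' l.1) →
      ∃ c : (ι →₀ ℕ) →₀ BB k ι, f = c.sum fun l a => a • b l := by
    intro l
    induction l using hwf.induction with
    | _ l ih =>
    intro f hf hN hl
    obtain ⟨c0, hc0⟩ := dvd_lead0 hf hl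
    set f' := f - c0 • b l.1 with hf'
    have hf'm : f' ∈ NN k (Finset.univ : Finset ι) (fun _ _ => d) :=
      Submodule.sub_mem _ hf (Submodule.smul_mem _ _ (hb1 l.1).1)
    have hcf : ∀ l', coeff l' f' = coeff l' f - c0 * coeff l' (b l.1) := by
      intro l'
      rw [hf', coeff_sub, coeff_smul']
    have hlt : ∀ l', coeff l' f' ≠ 0 → pr l' l.1 ∧ l'.degree ≤ N := by
      intro l' h
      have hne : l' ≠ l.1 := by
        rintro rfl
        apply h
        rw [hcf, hc0, hb2, mul_comm, sub_self]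
      rw [hcf] at h
      by_cases h1 : coeff l' f = 0
      · have h2 : coeff l' (b l.1) ≠ 0 := by
          intro h2
          rw [h1, h2, mul_zero, sub_zero] at h
          exact h rfl
        have h3 := mem_HH.1 (hb1 l.1).2 l' h2
        exact ⟨(hb3 _ _ h2).resolve_left hne, by rw [h3]; exact l.2⟩
      · exact ⟨(hl l' h1).resolve_left hne, hN l' h1⟩
    have hrec : ∃ c : (ι →₀ ℕ) →₀ BB k ι, f' = c.sum fun l a => a • b l := by
      by_cases h0 : f' = 0
      · exact ⟨0, by rw [h0]; simp⟩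
      · obtain ⟨m, hm, hmax⟩ := exists_max f'.support (support_nonempty.2 h0)
        have hm' := hlt m (mem_support_iff.1 hm)
        exact ih ⟨m, hm'.2⟩ hm'.1 f' hf'm (fun l' h => (hlt l' h).2)
          (fun l' h => hmax l' (mem_support_iff.2 h))
    obtain ⟨c, hc⟩ := hrec
    refine ⟨c + Finsupp.single l.1 c0, ?_⟩
    rw [Finsupp.sum_add_index' (fun l => by rw [zero_smul]) (fun l a a' => by rw [add_smul]),
      ← hc, Finsupp.sum_single_index (by rw [zero_smul]), hf', sub_add_cancel]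
  by_cases h0 : f = 0
  · exact ⟨0, by rw [h0]; simp⟩
  · obtain ⟨m, hm, hmax⟩ := exists_max f.support (support_nonempty.2 h0)
    exact key ⟨m, hN m (mem_support_iff.1 hm)⟩ f hf hN
      (fun l' h => hmax l' (mem_support_iff.2 h))

end span

/-! ### transfer -/

/-- the iterated polynomial ring -/
noncomputable def EE (k : Type) [Field k] (ι : Type) : RR k ι ≃ₐ[k] WW k ι := sumAlgEquiv k ι ι

omit [DecidableEq ι] [Fintype ι] in
theorem EE_xx (i : ι) : EE k ι (xx i) = X i := by simp [EE, xx]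

omit [DecidableEq ι] [Fintype ι] in
theorem EE_yy (i : ι) : EE k ι (yy i) = C (X i) := by simp [EE, yy]

omit [DecidableEq ι] [Fintype ι] in
theorem EE_yB (a : BB k ι) : EE k ι (yB a) = C a := by
  have h1 := DFunLike.congr_fun (sumAlgEquiv_comp_rename_inr (R := k) (S₁ := ι) (S₂ := ι)) a
  exact h1

theorem EE_pI (i j : ι) (d : ℕ) (f : RR k ι) :
    f ∈ (pI i j) ^ d ↔ EE k ι f ∈ PI k (Finset.univ : Finset ι) i j ^ d := by
  have h1 : (pI (k := k) i j).map (EE k ι : RR k ι →+* WW k ι) = PI k (Finset.univ : Finset ι) i j := by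
    unfold pI PI xp
    rw [if_pos (Finset.mem_univ i), if_pos (Finset.mem_univ j), Ideal.map_span, Set.image_pair]
    congr 2
    · show EE k ι (xx i - xx j) = _
      rw [map_sub, EE_xx, EE_xx]
    · show ({EE k ι (yy i - yy j)} : Set (WW k ι)) = _
      rw [map_sub, EE_yy, EE_yy, C_sub]
  rw [← h1, ← Ideal.map_pow]
  constructor
  · exact fun h => Ideal.mem_map_of_mem _ h
  · intro h
    obtain ⟨g, hg, he⟩ := (Ideal.mem_map_iff_of_surjective _ (EE k ι).surjective).1 h
    have : g = f := (EE k ι).injective he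
    rwa [← this]

theorem mem_Jd_iff (d : ℕ) (f : RR k ι) :
    f ∈ Jd k ι d ↔ EE k ι f ∈ NN k (Finset.univ : Finset ι) (fun _ _ => d) := by
  unfold Jd
  rw [mem_NN]
  simp only [Ideal.mem_iInf, EE_pI]
  constructor
  · intro h
    exact ⟨fun l _ i hi => absurd (Finset.mem_univ i) hi, h⟩
  · exact fun h => h.2

end Pool.Agent.Lib.MP_463376_co.StrA
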