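import Pool.Agent.Lib.MP_463376_co.A_Basis

/-!
# Stream A: the ring `P` and flatness over `k[y]`
-/

set_option autoImplicit false

namespace Pool.Agent.Lib.MP_463376_co.StrA

open MvPolynomial

variable {k : Type} [Field k] {ι : Type} [DecidableEq ι] [Fintype ι]

/-- An abstract criterion for freeness. -/
theorem free_of {R M κ : Type} [CommRing R] [AddCommGroup M] [Module R M] (N : Submodule R M)
    (b : κ → M) (hb : ∀ l, b l ∈ N)
    (huniq : ∀ c : κ →₀ R, (c.sum fun l a => a • b l) = 0 → c = 0)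
    (hspan : ∀ f ∈ N, ∃ c : κ →₀ R, f = c.sum fun l a => a • b l) : Module.Free R N := by
  have hlin : LinearIndependent R (fun l : κ => (⟨b l, hb l⟩ : N)) := by
    rw [linearIndependent_iff]
    intro c hc
    apply huniq c
    have h1 := congrArg N.subtype hc
    rw [Finsupp.linearCombination_apply, Finsupp.sum, map_sum, map_zero] at h1
    rw [Finsupp.sum]
    exact h1
  have hsp : ⊤ ≤ Submodule.span R (Set.range (fun l : κ => (⟨b l, hb l⟩ : N))) := by
    rintro ⟨f, hf⟩ -
    obtain ⟨c, hc⟩ := hspan f hf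
    rw [← Finsupp.range_linearCombination]
    refine ⟨c, ?_⟩
    apply N.subtype_injective
    rw [Finsupp.linearCombination_apply, Finsupp.sum, map_sum]
    show _ = f
    rw [hc, Finsupp.sum]
    rfl
  exact Module.Free.of_basis (Module.Basis.mk hlin hsp)

/-- An abstract criterion for flatness. -/
theorem flat_of {R P : Type} [CommRing R] [AddCommGroup P] [Module R P]
    (h : ∀ (n : ℕ) (x : Fin n → P), ∃ (N : Type) (_ : AddCommGroup N) (_ : Module R N)
      (φ : N →ₗ[R] P) (z : Fin n → N), Module.Flat R N ∧ Function.Injective φ ∧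
      ∀ i, φ (z i) = x i) : Module.Flat R P := by
  apply Module.Flat.of_forall_isTrivialRelation
  intro n c x hx
  obtain ⟨N, _, _, φ, z, hflat, hinj, hz⟩ := h n x
  have hrel : ∑ i, c i • z i = 0 := by
    apply hinj
    rw [map_sum, map_zero, ← hx]
    refine Finset.sum_congr rfl fun i _ => ?_
    rw [map_smul, hz]
  obtain ⟨κ, a, w, hw, ha⟩ := Module.Flat.isTrivialRelation_of_sum_smul_eq_zero hrel
  refine ⟨κ, a, fun j => φ (w j), fun i => ?_, ha⟩
  rw [← hz i, hw i, map_sum]
  refine Finset.sum_congr rfl fun j _ => ?_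
  rw [map_smul]

/-- `NN` is free over `k[y]`. -/
theorem NN_free (d : ℕ) :
    Module.Free (BB k ι) (NN k (Finset.univ : Finset ι) (fun _ _ => d)) := by
  choose bW hb1 hb2 hb3 using exists_el0 (ι := ι) k d
  refine free_of _ bW (fun l => (hb1 l).1) (unique_aux hb2 hb3) (fun f hf => ?_)
  exact span_aux hb1 hb2 hb3 (f.support.sup Finsupp.degree) hf
      (fun l hl => Finset.le_sup (f := Finsupp.degree) (mem_support_iff.2 hl))

/-! ### the alternant of the diagram -/

theorem alt_mem_pI (D : ι → ℕ × ℕ) {i j : ι} (hij : i ≠ j) : alt k D ∈ pI (k := k) i j := by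
  rw [← Ideal.Quotient.eq_zero_iff_mem]
  unfold alt
  rw [RingHom.map_det]
  apply Matrix.det_zero_of_row_eq hij
  have hx : Ideal.Quotient.mk (pI (k := k) i j) (xx i) = Ideal.Quotient.mk _ (xx j) := by
    rw [Ideal.Quotient.eq]
    exact Ideal.subset_span (Set.mem_insert _ _)
  have hy : Ideal.Quotient.mk (pI (k := k) i j) (yy i) = Ideal.Quotient.mk _ (yy j) := by
    rw [Ideal.Quotient.eq]
    exact Ideal.subset_span (Set.mem_insert_of_mem _ rfl)
  funext c
  simp only [RingHom.mapMatrix_apply, Matrix.map_apply, Matrix.of_apply, map_mul, map_pow, hx, hy]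

theorem alt_mem_Jd (D : ι → ℕ × ℕ) : alt k D ∈ Jd k ι 1 := by
  unfold Jd
  simp only [Ideal.mem_iInf, pow_one]
  exact fun i j hij => alt_mem_pI D hij

omit [DecidableEq ι] [Fintype ι] in
theorem mul_mem_Jd {d e : ℕ} {f g : RR k ι} (hf : f ∈ Jd k ι d) (hg : g ∈ Jd k ι e) :
    f * g ∈ Jd k ι (d + e) := by
  unfold Jd at *
  simp only [Ideal.mem_iInf] at *
  intro i j hij
  rw [pow_add]
  exact Ideal.mul_mem_mul (hf i j hij) (hg i j hij)

omit [DecidableEq ι] [Fintype ι] in
theorem mem_Jd_zero (f : RR k ι) : f ∈ Jd k ι 0 := by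
  unfold Jd
  simp

theorem pow_mem_Jd (D : ι → ℕ × ℕ) (e : ℕ) : alt k D ^ e ∈ Jd k ι e := by
  induction e with
  | zero => exact mem_Jd_zero _
  | succ e ih =>
    rw [pow_succ]
    exact mul_mem_Jd ih (alt_mem_Jd D)

/-- the exponent of a term of the alternant -/
noncomputable def ex (D : ι → ℕ × ℕ) (σ : Equiv.Perm ι) : ι ⊕ ι →₀ ℕ :=
  Finsupp.equivFunOnFinite.symm (Sum.elim (fun i => (D (σ.symm i)).1) (fun i => (D (σ.symm i)).2))

omit [DecidableEq ι] in
theorem ex_inj {D : ι → ℕ × ℕ} (hD : Function.Injective D) {σ τ : Equiv.Perm ι}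
    (h : ex D σ = ex D τ) : σ = τ := by
  have h1 : ∀ i, D (σ.symm i) = D (τ.symm i) := by
    intro i
    apply Prod.ext
    · have := DFunLike.congr_fun h (Sum.inl i)
      simpa [ex] using this
    · have := DFunLike.congr_fun h (Sum.inr i)
      simpa [ex] using this
  have h2 : σ.symm = τ.symm := Equiv.ext fun i => hD (h1 i)
  have h3 := congrArg Equiv.symm h2
  simpa using h3

omit [DecidableEq ι] in
theorem prod_eq_monomial (D : ι → ℕ × ℕ) (σ : Equiv.Perm ι) :
    (∏ i, (xx (k := k) (σ i) ^ (D i).1 * yy (σ i) ^ (D i).2)) = monomial (ex D σ) 1 := by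
  classical
  rw [← Equiv.prod_comp σ.symm]
  simp only [Equiv.apply_symm_apply]
  rw [monomial_eq, C_1, one_mul, Finsupp.prod_fintype _ _ (fun i => pow_zero _),
    Fintype.prod_sum_type, ← Finset.prod_mul_distrib]
  refine Finset.prod_congr rfl fun i _ => ?_
  simp [ex, xx, yy]

theorem alt_ne_zero {D : ι → ℕ × ℕ} (hD : Function.Injective D) : alt k D ≠ 0 := by
  intro h
  have h1 := congrArg (coeff (ex D 1)) h
  unfold alt at h1
  rw [Matrix.det_apply, coeff_sum, coeff_zero] at h1
  have h2 : ∀ σ : Equiv.Perm ι, coeff (ex D 1) (Equiv.Perm.sign σ • ∏ i, (Matrix.of fun i j : ι =>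
      xx (k := k) i ^ (D j).1 * yy i ^ (D j).2) (σ i) i) = if σ = 1 then 1 else 0 := by
    intro σ
    have h3 : ∏ i, (Matrix.of fun i j : ι => xx (k := k) i ^ (D j).1 * yy i ^ (D j).2) (σ i) i =
        monomial (ex D σ) 1 := by
      rw [← prod_eq_monomial]; rfl
    rw [h3, Units.smul_def, ← Int.cast_smul_eq_zsmul k, coeff_smul, coeff_monomial]
    split_ifs with h4 h5 h5
    · subst h5; simp
    · exact absurd (ex_inj hD h4) h5
    · subst h5; exact absurd rfl h4
    · simp
  rw [Finset.sum_congr rfl (fun σ _ => h2 σ), Finset.sum_ite_eq' Finset.univ (1 : Equiv.Perm ι),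
    if_pos (Finset.mem_univ _)] at h1
  exact one_ne_zero h1

theorem dl_ne_zero' (δ : Dia ι) : dl k δ ≠ 0 := alt_ne_zero δ.inj

/-! ### the ring `P` -/

section

variable (k) (L : Type) [Field L] [Algebra k L] [Algebra (RR k ι) L]
  [IsScalarTower k (RR k ι) L] (δ : Dia ι)

theorem mem_PP_iff' (g : L) :
    g ∈ PP k L δ ↔ ∃ d : ℕ, ∃ f ∈ Jd k ι d, g * toL k L (dl k δ) ^ d = toL k L f := by
  constructor
  · intro h
    unfold PP at h
    induction h using Algebra.adjoin_induction with
    | mem x hx => exact hx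
    | algebraMap r =>
      refine ⟨0, C r, mem_Jd_zero _, ?_⟩
      rw [pow_zero, mul_one]
      exact ((toL k L : RR k ι →ₐ[k] L).commutes r).symm
    | add x y _ _ hx hy =>
      obtain ⟨d, f, hf, h1⟩ := hx
      obtain ⟨e, g, hg, h2⟩ := hy
      refine ⟨d + e, f * dl k δ ^ e + dl k δ ^ d * g,
        Ideal.add_mem _ (mul_mem_Jd hf (pow_mem_Jd _ e)) (mul_mem_Jd (pow_mem_Jd _ d) hg), ?_⟩
      rw [map_add, map_mul, map_mul, map_pow, map_pow, ← h1, ← h2]
      ring
    | mul x y _ _ hx hy =>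
      obtain ⟨d, f, hf, h1⟩ := hx
      obtain ⟨e, g, hg, h2⟩ := hy
      refine ⟨d + e, f * g, mul_mem_Jd hf hg, ?_⟩
      rw [map_mul, ← h1, ← h2]
      ring
  · exact fun h => Algebra.subset_adjoin h

theorem common_denominator {n : ℕ} (x : Fin n → PP k L δ) :
    ∃ d : ℕ, ∃ f : Fin n → RR k ι, (∀ i, f i ∈ Jd k ι d) ∧
      ∀ i, (x i : L) * toL k L (dl k δ) ^ d = toL k L (f i) := by
  choose d f hf h using fun i => (mem_PP_iff' k L δ (x i : L)).1 (x i).2
  refine ⟨Finset.univ.sup d, fun i => f i * dl k δ ^ (Finset.univ.sup d - d i), fun i => ?_,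
    fun i => ?_⟩
  · have h1 := mul_mem_Jd (hf i) (pow_mem_Jd δ.c (Finset.univ.sup d - d i))
    rwa [Nat.add_sub_cancel' (Finset.le_sup (f := d) (Finset.mem_univ i))] at h1
  · rw [map_mul, map_pow, ← h i, mul_assoc, ← pow_add,
      Nat.add_sub_cancel' (Finset.le_sup (f := d) (Finset.mem_univ i))]

theorem coe_yP (a : BB k ι) : ((yP k L δ a : PP k L δ) : L) = toL k L (yB a) := rfl

omit [DecidableEq ι] [Fintype ι] in
theorem toL_inj [IsFractionRing (RR k ι) L] :
    Function.Injective (toL k L : RR k ι →ₐ[k] L) := IsFractionRing.injective (RR k ι) L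

theorem toL_dl_ne_zero [IsFractionRing (RR k ι) L] : toL k L (dl k δ) ≠ 0 := by
  intro h
  apply dl_ne_zero' (k := k) δ
  apply toL_inj k L
  rw [h, map_zero]

omit [DecidableEq ι] [Fintype ι] in
theorem EE_symm_smul (a : BB k ι) (z : WW k ι) :
    (EE k ι).symm (a • z) = yB a * (EE k ι).symm z := by
  apply (EE k ι).injective
  rw [map_mul, EE_yB, AlgEquiv.apply_symm_apply, AlgEquiv.apply_symm_apply, smul_eq_C_mul]

theorem phi_mem [IsFractionRing (RR k ι) L] (d : ℕ) {z : WW k ι}
    (hz : z ∈ NN k (Finset.univ : Finset ι) (fun _ _ => d)) :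
    toL k L ((EE k ι).symm z) / toL k L (dl k δ) ^ d ∈ PP k L δ := by
  rw [mem_PP_iff']
  refine ⟨d, (EE k ι).symm z, ?_, ?_⟩
  · rw [mem_Jd_iff, AlgEquiv.apply_symm_apply]
    exact hz
  · rw [div_mul_cancel₀ _ (pow_ne_zero _ (toL_dl_ne_zero k L δ))]

/-- the module structure of `P` over `k[y]` -/
noncomputable abbrev algP : Algebra (BB k ι) (PP k L δ) := (yP k L δ).toRingHom.toAlgebra

theorem algP_smul (a : BB k ι) (x : PP k L δ) :
    letI := algP k L δ
    ((a • x : PP k L δ) : L) = toL k L (yB a) * x := rfl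

/-- the inclusion `Δ^{-d} J^(d) → P` -/
noncomputable def phi [IsFractionRing (RR k ι) L] (d : ℕ) :
    letI := algP k L δ
    (NN k (Finset.univ : Finset ι) (fun _ _ => d)) →ₗ[BB k ι] PP k L δ :=
  letI := algP k L δ
  { toFun := fun z => ⟨toL k L ((EE k ι).symm z.1) / toL k L (dl k δ) ^ d, phi_mem k L δ d z.2⟩
    map_add' := fun z w => by
      apply Subtype.ext
      show toL k L ((EE k ι).symm (z.1 + w.1)) / toL k L (dl k δ) ^ d =
        toL k L ((EE k ι).symm z.1) / toL k L (dl k δ) ^ d +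
        toL k L ((EE k ι).symm w.1) / toL k L (dl k δ) ^ d
      rw [map_add, map_add, add_div]
    map_smul' := fun a z => by
      apply Subtype.ext
      show toL k L ((EE k ι).symm (a • z.1)) / toL k L (dl k δ) ^ d =
        toL k L (yB a) * (toL k L ((EE k ι).symm z.1) / toL k L (dl k δ) ^ d)
      rw [EE_symm_smul, map_mul, mul_div_assoc] }

theorem phi_injective [IsFractionRing (RR k ι) L] (d : ℕ) :
    Function.Injective (phi k L δ d) := by
  intro z w h
  have h1 : toL k L ((EE k ι).symm z.1) / toL k L (dl k δ) ^ d =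
      toL k L ((EE k ι).symm w.1) / toL k L (dl k δ) ^ d := congrArg Subtype.val h
  have h2 : toL k L ((EE k ι).symm z.1) = toL k L ((EE k ι).symm w.1) := by
    have h0 : toL k L (dl k δ) ^ d ≠ 0 := pow_ne_zero _ (toL_dl_ne_zero k L δ)
    exact (div_left_inj' h0).1 h1
  apply Subtype.ext
  exact (EE k ι).symm.injective (toL_inj k L h2)

theorem PP_flat [IsFractionRing (RR k ι) L] :
    letI := algP k L δ
    Module.Flat (BB k ι) (PP k L δ) := by
  let _ := algP k L δ
  apply flat_of
  intro n x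
  obtain ⟨d, f, hf, hfx⟩ := common_denominator k L δ x
  refine ⟨NN k (Finset.univ : Finset ι) (fun _ _ => d), inferInstance, inferInstance,
    phi k L δ d, fun i => ⟨EE k ι (f i), (mem_Jd_iff d _).1 (hf i)⟩, ?_, phi_injective k L δ d,
    fun i => ?_⟩
  · have := NN_free (k := k) (ι := ι) d
    infer_instance
  · apply Subtype.ext
    show toL k L ((EE k ι).symm (EE k ι (f i))) / toL k L (dl k δ) ^ d = (x i : L)
    rw [AlgEquiv.symm_apply_apply, div_eq_iff (pow_ne_zero _ (toL_dl_ne_zero k L δ))]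
    exact (hfx i).symm

theorem weaklyRegular_PP' [IsFractionRing (RR k ι) L] (rs : List (BB k ι))
    (h : RingTheory.Sequence.IsWeaklyRegular (BB k ι) rs) :
    RingTheory.Sequence.IsWeaklyRegular (PP k L δ) (rs.map (yP k L δ)) := by
  let _ := algP k L δ
  have := PP_flat k L δ
  exact RingTheory.Sequence.IsWeaklyRegular.of_flat (S := PP k L δ) h

end

end Pool.Agent.Lib.MP_463376_co.StrA
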