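import Pool.Agent.Lib.MP_463376_co.A_Prim

/-!
# Stream A: powers of the ideals `(x_i, y)` and `(x_i - x_j, y)`
-/

set_option autoImplicit false

namespace Pool.Agent.Lib.MP_463376_co.StrA

open MvPolynomial

variable {R : Type} [CommRing R] {ι : Type} [DecidableEq ι]

/-- The ideal of the polynomials whose coefficient at `l` is divisible by `y ^ (a - l i)`. -/
def cI (i : ι) (y : R) (a : ℕ) : Ideal (MvPolynomial ι R) where
  carrier := {f | ∀ l, y ^ (a - l i) ∣ coeff l f}
  zero_mem' := fun l => by simp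
  add_mem' := fun {f g} hf hg l => by
    rw [coeff_add]; exact dvd_add (hf l) (hg l)
  smul_mem' := fun g f hf l => by
    rw [smul_eq_mul, coeff_mul]
    refine Finset.dvd_sum fun x hx => ?_
    have h1 : x.2 i ≤ l i := by
      have := Finset.HasAntidiagonal.mem_antidiagonal.1 hx
      rw [← this, Finsupp.add_apply]
      exact Nat.le_add_left _ _
    refine dvd_mul_of_dvd_right (dvd_trans (pow_dvd_pow y ?_) (hf x.2)) _
    omega

theorem mem_cI {i : ι} {y : R} {a : ℕ} {f : MvPolynomial ι R} :
    f ∈ cI i y a ↔ ∀ l, y ^ (a - l i) ∣ coeff l f := Iff.rfl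

theorem span_pow_le_cI (i : ι) (y : R) (a : ℕ) :
    (Ideal.span {(X i : MvPolynomial ι R), C y}) ^ a ≤ cI i y a := by
  induction a with
  | zero =>
    intro f _ l
    simp
  | succ a ih =>
    rw [pow_succ, Ideal.mul_le]
    intro f hf g hg
    obtain ⟨p, q, rfl⟩ := Ideal.mem_span_pair.1 hg
    have h1 : f * (p * X i + q * C y) = (f * p) * X i + (f * q) * C y := by ring
    rw [h1]
    have h2 : f * p ∈ cI i y a := (cI i y a).mul_mem_right _ (ih hf)
    have h3 : f * q ∈ cI i y a := (cI i y a).mul_mem_right _ (ih hf)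
    apply Ideal.add_mem
    · intro l
      rw [coeff_mul_X']
      split_ifs with hl
      · have hl0 : l i ≠ 0 := Finsupp.mem_support_iff.1 hl
        have h4 := h2 (l - Finsupp.single i 1)
        rw [Finsupp.tsub_apply, Finsupp.single_eq_same] at h4
        exact (pow_dvd_pow y (by omega)).trans h4
      · exact dvd_zero _
    · intro l
      rw [mul_comm, coeff_C_mul]
      refine (pow_dvd_pow y (show a + 1 - l i ≤ (a - l i) + 1 by omega)).trans ?_
      rw [pow_succ, mul_comm]
      exact mul_dvd_mul_left _ (h3 l)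

omit [DecidableEq ι] in
theorem monomial_mem_pow (i : ι) (y : R) (a : ℕ) (l : ι →₀ ℕ) (b : R)
    (hb : y ^ (a - l i) ∣ b) :
    monomial l b ∈ (Ideal.span {(X i : MvPolynomial ι R), C y}) ^ a := by
  obtain ⟨c, rfl⟩ := hb
  have h1 : monomial l (y ^ (a - l i) * c) =
      monomial (l.erase i) c * ((X i : MvPolynomial ι R) ^ (l i) * (C y) ^ (a - l i)) := by
    rw [X_pow_eq_monomial, ← C_pow, mul_comm (monomial (Finsupp.single i (l i)) 1), C_mul_monomial,
      mul_one, monomial_mul, mul_comm c, Finsupp.erase_add_single]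
  rw [h1]
  apply Ideal.mul_mem_left
  have hX : (X i : MvPolynomial ι R) ∈ Ideal.span {(X i : MvPolynomial ι R), C y} :=
    Ideal.subset_span (Set.mem_insert _ _)
  have hC : (C y : MvPolynomial ι R) ∈ Ideal.span {(X i : MvPolynomial ι R), C y} :=
    Ideal.subset_span (Set.mem_insert_of_mem _ rfl)
  have h2 := Ideal.mul_mem_mul (Ideal.pow_mem_pow hX (l i)) (Ideal.pow_mem_pow hC (a - l i))
  rw [← pow_add] at h2
  exact Ideal.pow_le_pow_right (by omega) h2

/-- Description of the powers of `(x_i, y)`. -/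
theorem mem_span_pow_iff (i : ι) (y : R) (a : ℕ) (f : MvPolynomial ι R) :
    f ∈ (Ideal.span {(X i : MvPolynomial ι R), C y}) ^ a ↔ ∀ l, y ^ (a - l i) ∣ coeff l f := by
  constructor
  · intro h
    exact span_pow_le_cI i y a h
  · intro h
    rw [f.as_sum]
    exact Ideal.sum_mem _ fun l _ => monomial_mem_pow i y a l _ (h l)

omit [DecidableEq ι] in
/-- Description of the powers of `(y)`. -/
theorem mem_span_zero_pow_iff (y : R) (a : ℕ) (f : MvPolynomial ι R) :
    f ∈ (Ideal.span {(0 : MvPolynomial ι R), C y}) ^ a ↔ ∀ l, y ^ a ∣ coeff l f := by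
  rw [Ideal.span_insert_zero, Ideal.span_singleton_pow, Ideal.mem_span_singleton, ← C_pow,
    C_dvd_iff_dvd_coeff]

/-- the substitution `x_i := x_i + e x_j` -/
noncomputable def tr (e : R) (i j : ι) : MvPolynomial ι R →ₐ[R] MvPolynomial ι R :=
  aeval fun p => if p = i then X i + C e * X j else X p

theorem tr_X (e : R) (i j p : ι) :
    tr e i j (X p) = if p = i then X i + C e * X j else X p := by
  simp [tr]

theorem tr_tr {e e' : R} (he : e + e' = 0) {i j : ι} (hij : i ≠ j) (f : MvPolynomial ι R) :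
    tr e i j (tr e' i j f) = f := by
  have h1 : (tr e i j).comp (tr e' i j) = AlgHom.id R (MvPolynomial ι R) := by
    apply MvPolynomial.algHom_ext
    intro p
    rw [AlgHom.comp_apply, tr_X]
    split_ifs with hp
    · subst hp
      have h2 : (C e : MvPolynomial ι R) + C e' = 0 := by rw [← C_add, he, C_0]
      rw [map_add, map_mul, tr_X, tr_X, if_pos rfl, if_neg hij.symm, algHom_C]
      simp only [AlgHom.coe_id, id_eq]
      simp only [algebraMap_eq]
      linear_combination (X j) * h2
    · rw [tr_X, if_neg hp]; rfl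
  exact DFunLike.congr_fun h1 f

/-- Description of the powers of `(x_i - x_j, y)`. -/
theorem mem_span_sub_pow_iff {i j : ι} (hij : i ≠ j) (y : R) (a : ℕ) (f : MvPolynomial ι R) :
    f ∈ (Ideal.span {(X i - X j : MvPolynomial ι R), C y}) ^ a ↔
      ∀ l, y ^ (a - l i) ∣ coeff l (tr 1 i j f) := by
  rw [← mem_span_pow_iff]
  constructor
  · intro h
    have h1 := Ideal.mem_map_of_mem (tr (1 : R) i j) h
    rw [Ideal.map_pow, Ideal.map_span, Set.image_pair, map_sub, tr_X, tr_X, if_pos rfl,
      if_neg hij.symm, algHom_C] at h1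
    simpa using h1
  · intro h
    have h1 := Ideal.mem_map_of_mem (tr (-1 : R) i j) h
    rw [Ideal.map_pow, Ideal.map_span, Set.image_pair, tr_X, if_pos rfl, algHom_C,
      tr_tr (by ring) hij] at h1
    simpa [sub_eq_add_neg] using h1

end Pool.Agent.Lib.MP_463376_co.StrA
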