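import Pool.Agent.Lib.MP_463376_co.A_State

/-!
# Stream A: the Koszul property of submodules
-/

set_option autoImplicit false

namespace Pool.Agent.Lib.MP_463376_co.StrA

open MvPolynomial

variable {k : Type} [Field k] {ι : Type} [DecidableEq ι]

/-- three independent differences `y_{i_a} - y_{r_a}` -/
structure Ind3 (i₁ i₂ i₃ r₁ r₂ r₃ : ι) : Prop where
  h12 : i₁ ≠ i₂
  h13 : i₁ ≠ i₃
  h23 : i₂ ≠ i₃
  hr1 : r₁ ≠ i₁ ∧ r₁ ≠ i₂ ∧ r₁ ≠ i₃
  hr2 : r₂ ≠ i₁ ∧ r₂ ≠ i₂ ∧ r₂ ≠ i₃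
  hr3 : r₃ ≠ i₁ ∧ r₃ ≠ i₂ ∧ r₃ ≠ i₃

/-- the Koszul property -/
def Koz (M : Submodule (BB k ι) (WW k ι)) : Prop :=
  ∀ i₁ i₂ i₃ r₁ r₂ r₃ : ι, Ind3 i₁ i₂ i₃ r₁ r₂ r₃ → ∀ c12 ∈ M, ∀ c13 ∈ M, ∀ c23 ∈ M,
    (X i₁ - X r₁ : BB k ι) • c23 - (X i₂ - X r₂ : BB k ι) • c13 + (X i₃ - X r₃ : BB k ι) • c12 = 0 →
    ∃ d1 ∈ M, ∃ d2 ∈ M, ∃ d3 ∈ M,
      c12 = (X i₂ - X r₂ : BB k ι) • d1 - (X i₁ - X r₁ : BB k ι) • d2 ∧
      c13 = (X i₃ - X r₃ : BB k ι) • d1 - (X i₁ - X r₁ : BB k ι) • d3 ∧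
      c23 = (X i₃ - X r₃ : BB k ι) • d2 - (X i₂ - X r₂ : BB k ι) • d3

omit [DecidableEq ι] in
theorem koz_bot : Koz (⊥ : Submodule (BB k ι) (WW k ι)) := by
  intro i₁ i₂ i₃ r₁ r₂ r₃ _ c12 h1 c13 h2 c23 h3 _
  rw [Submodule.mem_bot] at h1 h2 h3
  subst h1 h2 h3
  exact ⟨0, zero_mem _, 0, zero_mem _, 0, zero_mem _, by simp, by simp, by simp⟩

omit [DecidableEq ι] in
theorem koz_map {M : Submodule (BB k ι) (WW k ι)} (φ : WW k ι →ₗ[BB k ι] WW k ι)
    (hφ : Function.Injective φ) (h : Koz M) : Koz (M.map φ) := by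
  rintro i₁ i₂ i₃ r₁ r₂ r₃ hI _ ⟨c12, h1, rfl⟩ _ ⟨c13, h2, rfl⟩ _ ⟨c23, h3, rfl⟩ hc
  rw [← map_smul, ← map_smul, ← map_smul, ← map_sub, ← map_add, map_eq_zero_iff φ hφ] at hc
  obtain ⟨d1, m1, d2, m2, d3, m3, e1, e2, e3⟩ := h _ _ _ _ _ _ hI c12 h1 c13 h2 c23 h3 hc
  refine ⟨φ d1, ⟨d1, m1, rfl⟩, φ d2, ⟨d2, m2, rfl⟩, φ d3, ⟨d3, m3, rfl⟩, ?_, ?_, ?_⟩
  · rw [e1, map_sub, map_smul, map_smul]
  · rw [e2, map_sub, map_smul, map_smul]
  · rw [e3, map_sub, map_smul, map_smul]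

omit [DecidableEq ι] in
theorem koz_ext {M : Submodule (BB k ι) (WW k ι)} (φ : WW k ι →ₗ[BB k ι] WW k ι)
    (h1 : Koz (M ⊓ LinearMap.ker φ)) (h2 : Koz (M.map φ)) : Koz M := by
  intro i₁ i₂ i₃ r₁ r₂ r₃ hI c12 m12 c13 m13 c23 m23 hc
  obtain ⟨_, ⟨d1, m1, rfl⟩, _, ⟨d2, m2, rfl⟩, _, ⟨d3, m3, rfl⟩, e1, e2, e3⟩ :=
    h2 _ _ _ _ _ _ hI (φ c12) ⟨c12, m12, rfl⟩ (φ c13) ⟨c13, m13, rfl⟩ (φ c23) ⟨c23, m23, rfl⟩ (by
      rw [← map_smul, ← map_smul, ← map_smul, ← map_sub, ← map_add, hc, map_zero])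
  set l1 : BB k ι := X i₁ - X r₁ with hl1
  set l2 : BB k ι := X i₂ - X r₂ with hl2
  set l3 : BB k ι := X i₃ - X r₃ with hl3
  obtain ⟨f1, n1, f2, n2, f3, n3, g1, g2, g3⟩ := h1 _ _ _ _ _ _ hI
    (c12 - (l2 • d1 - l1 • d2)) ⟨M.sub_mem m12 (M.sub_mem (M.smul_mem _ m1) (M.smul_mem _ m2)), by
      rw [SetLike.mem_coe, LinearMap.mem_ker, map_sub, map_sub, map_smul, map_smul, e1, sub_self]⟩
    (c13 - (l3 • d1 - l1 • d3)) ⟨M.sub_mem m13 (M.sub_mem (M.smul_mem _ m1) (M.smul_mem _ m3)), by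
      rw [SetLike.mem_coe, LinearMap.mem_ker, map_sub, map_sub, map_smul, map_smul, e2, sub_self]⟩
    (c23 - (l3 • d2 - l2 • d3)) ⟨M.sub_mem m23 (M.sub_mem (M.smul_mem _ m2) (M.smul_mem _ m3)), by
      rw [SetLike.mem_coe, LinearMap.mem_ker, map_sub, map_sub, map_smul, map_smul, e3, sub_self]⟩
    (by
      have : l1 • (c23 - (l3 • d2 - l2 • d3)) - l2 • (c13 - (l3 • d1 - l1 • d3)) +
          l3 • (c12 - (l2 • d1 - l1 • d2)) = l1 • c23 - l2 • c13 + l3 • c12 := by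
        simp only [smul_sub, smul_smul]
        rw [mul_comm l3 l2, mul_comm l1 l3, mul_comm l2 l1]
        abel
      rw [this, hc])
  refine ⟨d1 + f1, M.add_mem m1 n1.1, d2 + f2, M.add_mem m2 n2.1, d3 + f3, M.add_mem m3 n3.1,
    ?_, ?_, ?_⟩
  · rw [smul_add, smul_add]
    rw [sub_eq_iff_eq_add] at g1
    rw [g1]; abel
  · rw [smul_add, smul_add]
    rw [sub_eq_iff_eq_add] at g2
    rw [g2]; abel
  · rw [smul_add, smul_add]
    rw [sub_eq_iff_eq_add] at g3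
    rw [g3]; abel

/-! ### products of differences -/

variable [Fintype ι]

/-- the product of the powers of the differences -/
noncomputable def prd (k : Type) [Field k] {ι : Type} [Fintype ι] (a : ι → ι → ℕ) : BB k ι :=
  ∏ i : ι, ∏ j : ι, if Fintype.equivFin ι i < Fintype.equivFin ι j then (X i - X j) ^ (a i j) else 1

omit [DecidableEq ι] in
theorem prd_ne_zero (a : ι → ι → ℕ) : prd k a ≠ 0 := by
  unfold prd
  refine Finset.prod_ne_zero_iff.2 fun i _ => Finset.prod_ne_zero_iff.2 fun j _ => ?_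
  split_ifs with h
  · refine pow_ne_zero _ (sub_ne_zero' ?_)
    rintro rfl
    exact lt_irrefl _ h
  · exact one_ne_zero

omit [DecidableEq ι] in
theorem dvd_prd {a : ι → ι → ℕ} (ha : ∀ i j, a i j = a j i) {i j : ι} (hij : i ≠ j) :
    (X i - X j : BB k ι) ^ (a i j) ∣ prd k a := by
  have key : ∀ i j : ι, Fintype.equivFin ι i < Fintype.equivFin ι j →
      (X i - X j : BB k ι) ^ (a i j) ∣ prd k a := by
    intro i j h
    unfold prd
    refine dvd_trans ?_ (Finset.dvd_prod_of_mem _ (Finset.mem_univ i))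
    refine dvd_trans ?_ (Finset.dvd_prod_of_mem _ (Finset.mem_univ j))
    rw [if_pos h]
  rcases lt_trichotomy (Fintype.equivFin ι i) (Fintype.equivFin ι j) with h | h | h
  · exact key i j h
  · exact absurd ((Fintype.equivFin ι).injective h) hij
  · have h1 := key j i h
    rw [ha j i] at h1
    refine dvd_trans ?_ h1
    rw [← neg_sub, neg_pow]
    rcases neg_one_pow_eq_or (BB k ι) (a i j) with h2 | h2 <;> rw [h2]
    · rw [one_mul]
    · rw [neg_one_mul, neg_dvd]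

omit [Fintype ι] in
theorem isRelPrime_sub {i j p q : ι} (hij : i ≠ j) (hpq : p ≠ q) (h1 : ¬(p = i ∧ q = j))
    (h2 : ¬(p = j ∧ q = i)) (a b : ℕ) :
    IsRelPrime ((X i - X j : BB k ι) ^ a) ((X p - X q) ^ b) := by
  apply IsRelPrime.pow
  rw [(prime_sub (k := k) hij).irreducible.isRelPrime_iff_not_dvd]
  exact not_dvd_sub hpq h1 h2

theorem prd_dvd {a : ι → ι → ℕ} {b : BB k ι}
    (h : ∀ i j, i ≠ j → (X i - X j : BB k ι) ^ (a i j) ∣ b) : prd k a ∣ b := by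
  unfold prd
  rw [← Finset.prod_product']
  apply Finset.prod_dvd_of_isRelPrime
  · rintro ⟨i, j⟩ - ⟨p, q⟩ - hne
    show IsRelPrime (if Fintype.equivFin ι i < Fintype.equivFin ι j then _ else _)
      (if Fintype.equivFin ι p < Fintype.equivFin ι q then _ else _)
    split_ifs with h1 h2
    · apply isRelPrime_sub
      · exact fun h3 => absurd h1 (by rw [show i = j from h3]; exact lt_irrefl _)
      · exact fun h3 => absurd h2 (by rw [show p = q from h3]; exact lt_irrefl _)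
      · rintro ⟨h3, h4⟩
        exact hne (by rw [show p = i from h3, show q = j from h4])
      · rintro ⟨h3, h4⟩
        rw [show p = j from h3, show q = i from h4] at h2
        exact lt_asymm h1 h2
    · exact isRelPrime_one_right
    · exact isRelPrime_one_left
    · exact isRelPrime_one_left
  · rintro ⟨i, j⟩ -
    show (if Fintype.equivFin ι i < Fintype.equivFin ι j then _ else _) ∣ b
    split_ifs with h1
    · apply h
      exact fun h3 => absurd h1 (by rw [show i = j from h3]; exact lt_irrefl _)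
    · exact one_dvd _

/-- the state without alive indices -/
theorem mem_NN_empty {a : ι → ι → ℕ} (ha : ∀ i j, a i j = a j i) {f : WW k ι} :
    f ∈ NN k ∅ a ↔ (∀ l, coeff l f ≠ 0 → l = 0) ∧ prd k a ∣ coeff 0 f := by
  rw [mem_NN]
  constructor
  · rintro ⟨h1, h2⟩
    refine ⟨fun l hl => ?_, ?_⟩
    · ext i
      exact h1 l hl i (Finset.notMem_empty i)
    · apply prd_dvd
      intro i j hij
      have := h2 i j hij
      rw [mem_PI_RR (Finset.notMem_empty i) (Finset.notMem_empty j)] at this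
      exact this 0
  · rintro ⟨h1, h2⟩
    refine ⟨fun l hl i _ => by rw [h1 l hl]; rfl, fun i j hij => ?_⟩
    rw [mem_PI_RR (Finset.notMem_empty i) (Finset.notMem_empty j)]
    intro l
    by_cases hl : coeff l f = 0
    · rw [hl]; exact dvd_zero _
    · rw [h1 l hl]
      exact (dvd_prd ha hij).trans h2

theorem C_mem_NN_empty {a : ι → ι → ℕ} (ha : ∀ i j, a i j = a j i) (b : BB k ι) :
    (C (prd k a * b) : WW k ι) ∈ NN k ∅ a := by
  rw [mem_NN_empty ha]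
  refine ⟨fun l hl => ?_, ?_⟩
  · rw [coeff_C] at hl
    by_contra h
    rw [if_neg (fun h' => h h'.symm)] at hl
    exact hl rfl
  · rw [coeff_C, if_pos rfl]
    exact Dvd.intro _ rfl

theorem koz_empty {a : ι → ι → ℕ} (ha : ∀ i j, a i j = a j i) (e : ℕ) :
    Koz (NN k ∅ a ⊓ HH k ι e) := by
  rcases Nat.eq_zero_or_pos e with he | he
  · subst he
    intro i₁ i₂ i₃ r₁ r₂ r₃ hI c12 m12 c13 m13 c23 m23 hc
    have key : ∀ c ∈ NN k ∅ a ⊓ HH k ι 0, ∃ b : BB k ι, c = C (prd k a * b) := by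
      rintro c ⟨h1, -⟩
      rw [SetLike.mem_coe, mem_NN_empty ha] at h1
      obtain ⟨b, hb⟩ := h1.2
      refine ⟨b, ?_⟩
      ext1 l
      rw [coeff_C]
      split_ifs with hl
      · rw [← hl, hb]
      · by_contra h
        exact hl (h1.1 l h).symm
    obtain ⟨b12, rfl⟩ := key _ m12
    obtain ⟨b13, rfl⟩ := key _ m13
    obtain ⟨b23, rfl⟩ := key _ m23
    have hc' : (X i₁ - X r₁) * b23 - (X i₂ - X r₂) * b13 + (X i₃ - X r₃) * b12 = 0 := by
      have h1 := congrArg (coeff 0) hc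
      simp only [coeff_add, coeff_sub, coeff_smul', coeff_C, if_true, coeff_zero] at h1
      apply mul_left_cancel₀ (prd_ne_zero (k := k) a)
      rw [mul_zero, ← h1]
      ring
    obtain ⟨d1, d2, d3, e1, e2, e3⟩ := koszul_B hI.h12 hI.h13 hI.h23 hI.hr1 hI.hr2 hI.hr3 _ _ _ hc'
    have hm : ∀ b : BB k ι, (C (prd k a * b) : WW k ι) ∈ NN k ∅ a ⊓ HH k ι 0 := by
      intro b
      refine ⟨C_mem_NN_empty ha b, ?_⟩
      rw [SetLike.mem_coe, mem_HH]
      intro l hl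
      rw [coeff_C] at hl
      split_ifs at hl with h
      · rw [← h]; simp
      · exact absurd rfl hl
    refine ⟨_, hm d1, _, hm d2, _, hm d3, ?_, ?_, ?_⟩
    · rw [e1]; simp only [smul_eq_C_mul, ← C_mul, ← C_sub]; congr 1; ring
    · rw [e2]; simp only [smul_eq_C_mul, ← C_mul, ← C_sub]; congr 1; ring
    · rw [e3]; simp only [smul_eq_C_mul, ← C_mul, ← C_sub]; congr 1; ring
  · have : NN k ∅ a ⊓ HH k ι e = ⊥ := by
      rw [eq_bot_iff]
      rintro f ⟨h1, h2⟩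
      rw [SetLike.mem_coe, mem_NN_empty ha] at h1
      rw [SetLike.mem_coe, mem_HH] at h2
      rw [Submodule.mem_bot]
      ext1 l
      by_contra h
      have h3 := h1.1 l h
      have h4 := h2 l h
      rw [h3] at h4
      simp at h4
      omega
    rw [this]
    exact koz_bot

end Pool.Agent.Lib.MP_463376_co.StrA
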