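import Pool.Agent.Lib.MP_463376_co.A_Koz

/-!
# Stream A: local lifts
-/

set_option autoImplicit false

namespace Pool.Agent.Lib.MP_463376_co.StrA

open MvPolynomial

variable {k : Type} [Field k] {ι : Type} [DecidableEq ι]

/-- the local module: only the pairs in relation `r` -/
noncomputable def NL (k : Type) [Field k] {ι : Type} [DecidableEq ι] (S : Finset ι)
    (a : ι → ι → ℕ) (r : ι → ι → Prop) : Submodule (BB k ι) (WW k ι) where
  carrier := {f | (∀ l, coeff l f ≠ 0 → ∀ i ∉ S, l i = 0) ∧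
    ∀ i j, i ≠ j → r i j → f ∈ PI k S i j ^ (a i j)}
  zero_mem' := ⟨fun l h => absurd (coeff_zero l) h, fun i j _ _ => zero_mem _⟩
  add_mem' := by
    rintro f g ⟨h1, h2⟩ ⟨h3, h4⟩
    refine ⟨fun l hl => ?_, fun i j hij hr => add_mem (h2 i j hij hr) (h4 i j hij hr)⟩
    rw [coeff_add] at hl
    by_cases hf : coeff l f = 0
    · rw [hf, zero_add] at hl
      exact h3 l hl
    · exact h1 l hf
  smul_mem' := by
    rintro c f ⟨h1, h2⟩
    refine ⟨fun l hl => ?_, fun i j hij hr => ?_⟩
    · rw [coeff_smul'] at hl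
      exact h1 l (right_ne_zero_of_mul hl)
    · rw [smul_eq_C_mul]
      exact Ideal.mul_mem_left _ _ (h2 i j hij hr)

theorem mem_NL {S : Finset ι} {a : ι → ι → ℕ} {r : ι → ι → Prop} {f : WW k ι} :
    f ∈ NL k S a r ↔ (∀ l, coeff l f ≠ 0 → ∀ i ∉ S, l i = 0) ∧
    ∀ i j, i ≠ j → r i j → f ∈ PI k S i j ^ (a i j) := Iff.rfl

theorem kl_eq_self_iff {i : ι} {f : WW k ι} : kl i f = f ↔ ∀ l, coeff l f ≠ 0 → l i = 0 := by
  constructor
  · intro h l hl
    rw [← h, coeff_kl] at hl
    split_ifs at hl with h0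
    · exact h0
    · exact absurd rfl hl
  · intro h
    ext1 l
    rw [coeff_kl]
    split_ifs with h0
    · rfl
    · by_contra hc
      exact h0 (h l (fun h' => hc h'.symm))

theorem supp_iff {S : Finset ι} {f : WW k ι} :
    (∀ l, coeff l f ≠ 0 → ∀ i ∉ S, l i = 0) ↔ ∀ i ∉ S, kl i f = f := by
  constructor
  · intro h i hi
    rw [kl_eq_self_iff]
    exact fun l hl => h l hl i hi
  · intro h l hl i hi
    exact kl_eq_self_iff.1 (h i hi) l hl

theorem xp_erase {S : Finset ι} {m i : ι} (h : i ≠ m) : xp k (S.erase m) i = xp k S i := by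
  unfold xp
  by_cases hi : i ∈ S
  · rw [if_pos hi, if_pos (Finset.mem_erase.2 ⟨h, hi⟩)]
  · rw [if_neg hi, if_neg (fun h' => hi (Finset.mem_of_mem_erase h'))]

theorem xp_erase_self (S : Finset ι) (m : ι) : xp k (S.erase m) m = 0 := by
  unfold xp
  rw [if_neg (Finset.notMem_erase m S)]

theorem PI_erase {S : Finset ι} {m i j : ι} (hi : i ≠ m) (hj : j ≠ m) :
    PI k (S.erase m) i j = PI k S i j := by
  unfold PI
  rw [xp_erase hi, xp_erase hj]

theorem PI_erase_dead {S : Finset ι} {m j : ι} (hm : m ∈ S) (hj : j ∉ S) {a : ℕ} {v : WW k ι}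
    (h : v ∈ PI k (S.erase m) m j ^ a) : v ∈ PI k S m j ^ a := by
  rw [mem_PI_RR (Finset.notMem_erase m S) (fun h' => hj (Finset.mem_of_mem_erase h'))] at h
  rw [mem_PI_AR hm hj]
  intro l
  exact (pow_dvd_pow _ (Nat.sub_le _ _)).trans (h l)

/-- the class of `m` contains only removed indices -/
theorem lift_dead {S : Finset ι} {a : ι → ι → ℕ} {m : ι} (hm : m ∈ S)
    {ρ : ι → ι} (hρm : ρ m = m) (hB : ∀ p ∈ S, p ≠ m → ρ p ≠ m) {v : WW k ι}
    (hv : v ∈ NN k (S.erase m) a) : v ∈ NL k S a (fun i j => ρ i = ρ j) := by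
  rw [mem_NN] at hv
  refine ⟨fun l hl i hi => hv.1 l hl i (fun h => hi (Finset.mem_of_mem_erase h)), ?_⟩
  intro i j hij hr
  have hr' : ρ i = ρ j := hr
  have h1 := hv.2 i j hij
  by_cases hi : i = m
  · subst hi
    have hj : j ∉ S := fun hj => hB j hj hij.symm (by rw [← hr', hρm])
    exact PI_erase_dead hm hj h1
  by_cases hj : j = m
  · subst hj
    have hi' : i ∉ S := fun hi' => hB i hi' hi (by rw [hr', hρm])
    rw [PI_symm] at h1 ⊢
    exact PI_erase_dead hm hi' h1
  rwa [PI_erase hi hj] at h1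

/-- the class of `m` contains only alive indices -/
theorem lift_alive {S : Finset ι} {a : ι → ι → ℕ} {m : ι} (hm : m ∈ S)
    {ρ : ι → ι} (hρm : ρ m = m) (hB : ∀ p ∉ S, ρ p ≠ m) {v : WW k ι}
    (hv : v ∈ NN k (S.erase m) a) : ∃ w ∈ NL k S a (fun i j => ρ i = ρ j), kl m w = v := by
  rw [mem_NN] at hv
  obtain ⟨σ, hσ⟩ : ∃ σ : WW k ι →ₐ[BB k ι] WW k ι, σ = aeval fun p =>
    if ρ p = m ∧ p ≠ m then X p - X m else X p := ⟨_, rfl⟩
  have hσX : ∀ p, σ (X p) = if ρ p = m ∧ p ≠ m then X p - X m else X p := by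
    intro p; rw [hσ]; simp
  have hσC : ∀ b, σ (C b) = C b := by
    intro b; rw [algHom_C, algebraMap_eq]
  have hsupp := supp_iff.1 hv.1
  refine ⟨σ v, ⟨?_, ?_⟩, ?_⟩
  · rw [supp_iff]
    intro i hi
    have him : i ≠ m := fun h => hi (by rw [h]; exact hm)
    have h1 : (kl i).comp σ = σ.comp (kl i) := by
      apply MvPolynomial.algHom_ext
      intro p
      rw [AlgHom.comp_apply, AlgHom.comp_apply, hσX, kl_X]
      by_cases hp : p = i
      · subst hp
        rw [if_neg (fun h => hB p hi h.1), if_pos rfl, kl_X, if_pos rfl, map_zero]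
      · rw [if_neg hp, hσX]
        split_ifs with hc
        · rw [map_sub, kl_X, kl_X, if_neg hp, if_neg him.symm]
        · rw [kl_X, if_neg hp]
    have h2 := DFunLike.congr_fun h1 v
    rw [AlgHom.comp_apply, AlgHom.comp_apply,
      hsupp i (fun h => hi (Finset.mem_of_mem_erase h))] at h2
    exact h2
  · intro i j hij hr
    have hr' : ρ i = ρ j := hr
    have h1 := Ideal.mem_map_of_mem σ (hv.2 i j hij)
    have h2 : σ (xp k (S.erase m) i - xp k (S.erase m) j) = xp k S i - xp k S j := by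
      by_cases hc : ρ i = m
      · have hc' : ρ j = m := by rw [← hr', hc]
        have key : ∀ p, ρ p = m → σ (xp k (S.erase m) p) = xp k S p - X m := by
          intro p hp
          have hpS : p ∈ S := by
            by_contra h
            exact hB p h hp
          by_cases hpm : p = m
          · subst hpm
            rw [xp_erase_self, map_zero]
            unfold xp
            rw [if_pos hpS, sub_self]
          · rw [xp_erase hpm]
            unfold xp
            rw [if_pos hpS, hσX, if_pos ⟨hp, hpm⟩]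
        rw [map_sub, key i hc, key j hc', sub_sub_sub_cancel_right]
      · have hc' : ρ j ≠ m := by rw [← hr']; exact hc
        have key : ∀ p, ρ p ≠ m → σ (xp k (S.erase m) p) = xp k S p := by
          intro p hp
          have hpm : p ≠ m := fun h => hp (by rw [h, hρm])
          rw [xp_erase hpm]
          unfold xp
          split_ifs with h
          · rw [hσX, if_neg (fun h => hp h.1)]
          · rw [map_zero]
        rw [map_sub, key i hc, key j hc']
    unfold PI at h1
    rw [Ideal.map_pow, Ideal.map_span, Set.image_pair, h2, hσC] at h1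
    exact h1
  · have h1 : (kl m).comp σ = kl (k := k) m := by
      apply MvPolynomial.algHom_ext
      intro p
      rw [AlgHom.comp_apply, hσX]
      split_ifs with hc
      · rw [map_sub, kl_X, kl_X, if_pos rfl, if_neg hc.2, sub_zero]
      · rfl
    have h2 := DFunLike.congr_fun h1 v
    rw [AlgHom.comp_apply, hsupp m (Finset.notMem_erase m S)] at h2
    exact h2

/-- the class of `m` is `{m, i, j}` with `i` alive and `j` removed: lift of a monomial -/
theorem lift_mixed_monomial {S : Finset ι} {a : ι → ι → ℕ} {m i j : ι} (hm : m ∈ S) (hi : i ∈ S)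
    (hj : j ∉ S) (him : i ≠ m) (hstar : a i j ≤ a m j) (l : ι →₀ ℕ)
    (hl : ∀ p ∉ S.erase m, l p = 0) (h : BB k ι) :
    ∃ w : WW k ι, (∀ p ∉ S, kl p w = w) ∧ w ∈ PI k S m j ^ (a m j) ∧ w ∈ PI k S i m ^ (a i m) ∧
      w ∈ PI k S i j ^ (a i j) ∧
      kl m w = monomial l ((X m - X j) ^ (a m j) * (X i - X m) ^ (a i m - l i) *
        (X i - X j) ^ (a i j - l i) * h) := by
  obtain ⟨u, hu⟩ : ∃ u : WW k ι, u = C (X m - X j) * X i - C (X i - X j) * X m := ⟨_, rfl⟩
  set c := min (l i) (a i j) with hc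
  have hlm : l m = 0 := hl m (Finset.notMem_erase m S)
  obtain ⟨μ, hμ⟩ : ∃ μ : WW k ι, μ = monomial (l.erase i) 1 := ⟨_, rfl⟩
  have hμk : ∀ p, p = m ∨ p ∉ S → kl p μ = μ := by
    intro p hp
    rw [hμ, kl_monomial, if_pos]
    rcases hp with rfl | hp
    · rw [Finsupp.erase_ne him.symm, hlm]
    · have hpi : p ≠ i := fun h => hp (by rw [h]; exact hi)
      rw [Finsupp.erase_ne hpi]
      exact hl p (fun h => hp (Finset.mem_of_mem_erase h))
  have g1 : xp k S m - xp k S j = X m := by
    unfold xp; rw [if_pos hm, if_neg hj, sub_zero]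
  have g2 : xp k S i - xp k S m = X i - X m := by
    unfold xp; rw [if_pos hm, if_pos hi]
  have g3 : xp k S i - xp k S j = X i := by
    unfold xp; rw [if_pos hi, if_neg hj, sub_zero]
  have x1 : (X m : WW k ι) ∈ PI k S m j := by
    rw [← g1]; exact Ideal.subset_span (Set.mem_insert _ _)
  have x2 : (X i - X m : WW k ι) ∈ PI k S i m := by
    rw [← g2]; exact Ideal.subset_span (Set.mem_insert _ _)
  have x3 : (X i : WW k ι) ∈ PI k S i j := by
    rw [← g3]; exact Ideal.subset_span (Set.mem_insert _ _)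
  have c1 : (C (X m - X j) : WW k ι) ∈ PI k S m j :=
    Ideal.subset_span (Set.mem_insert_of_mem _ rfl)
  have c2 : (C (X i - X m) : WW k ι) ∈ PI k S i m :=
    Ideal.subset_span (Set.mem_insert_of_mem _ rfl)
  have c3 : (C (X i - X j) : WW k ι) ∈ PI k S i j :=
    Ideal.subset_span (Set.mem_insert_of_mem _ rfl)
  have u1 : u ∈ PI k S m j := by
    rw [hu]
    exact Ideal.sub_mem _ (Ideal.mul_mem_right _ _ c1) (Ideal.mul_mem_left _ _ x1)
  have u2 : u ∈ PI k S i m := by
    have : u = C (X m - X j) * (X i - X m) - C (X i - X m) * X m := by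
      rw [hu]; simp only [C_sub]; ring
    rw [this]
    exact Ideal.sub_mem _ (Ideal.mul_mem_left _ _ x2) (Ideal.mul_mem_right _ _ c2)
  have u3 : u ∈ PI k S i j := by
    rw [hu]
    exact Ideal.sub_mem _ (Ideal.mul_mem_left _ _ x3) (Ideal.mul_mem_right _ _ c3)
  have hC : ∀ p (b : BB k ι), kl p (C b : WW k ι) = C b := fun p b => kl_C p b
  refine ⟨u ^ c * C (X m - X j) ^ (a m j - c) * (X i - X m) ^ (l i - c) *
    C (X i - X m) ^ (a i m - l i) * C (X i - X j) ^ (a i j - l i) * C h * μ, ?_, ?_, ?_, ?_, ?_⟩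
  · intro p hp
    have hpi : i ≠ p := fun h => hp (by rw [← h]; exact hi)
    have hpm : m ≠ p := fun h => hp (by rw [← h]; exact hm)
    have hup : kl p u = u := by
      rw [hu, map_sub, map_mul, map_mul, hC, hC, kl_X, kl_X, if_neg hpi, if_neg hpm]
    have hxx : kl p (X i - X m : WW k ι) = X i - X m := by
      rw [map_sub, kl_X, kl_X, if_neg hpi, if_neg hpm]
    rw [map_mul, map_mul, map_mul, map_mul, map_mul, map_mul, map_pow, map_pow, map_pow, map_pow,
      map_pow, hup, hC, hC, hC, hC, hxx, hμk p (Or.inr hp)]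
  · have h1 := Ideal.mul_mem_mul (Ideal.pow_mem_pow u1 c) (Ideal.pow_mem_pow c1 (a m j - c))
    rw [← pow_add] at h1
    refine Ideal.mul_mem_right _ _ (Ideal.mul_mem_right _ _ (Ideal.mul_mem_right _ _
      (Ideal.mul_mem_right _ _ (Ideal.mul_mem_right _ _ (Ideal.pow_le_pow_right ?_ h1)))))
    omega
  · have h1 := Ideal.mul_mem_mul (Ideal.mul_mem_mul (Ideal.pow_mem_pow u2 c)
      (Ideal.pow_mem_pow x2 (l i - c))) (Ideal.pow_mem_pow c2 (a i m - l i))
    rw [← pow_add, ← pow_add] at h1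
    have h2 := Ideal.pow_le_pow_right (show a i m ≤ c + (l i - c) + (a i m - l i) by omega) h1
    have h3 : u ^ c * C (X m - X j) ^ (a m j - c) * (X i - X m) ^ (l i - c) *
      C (X i - X m) ^ (a i m - l i) * C (X i - X j) ^ (a i j - l i) * C h * μ =
      (u ^ c * (X i - X m) ^ (l i - c) * C (X i - X m) ^ (a i m - l i)) *
      (C (X m - X j) ^ (a m j - c) * C (X i - X j) ^ (a i j - l i) * C h * μ) := by ring
    rw [h3]
    exact Ideal.mul_mem_right _ _ h2
  · have h1 := Ideal.mul_mem_mul (Ideal.pow_mem_pow u3 c) (Ideal.pow_mem_pow c3 (a i j - l i))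
    rw [← pow_add] at h1
    have h2 := Ideal.pow_le_pow_right (show a i j ≤ c + (a i j - l i) by omega) h1
    have h3 : u ^ c * C (X m - X j) ^ (a m j - c) * (X i - X m) ^ (l i - c) *
      C (X i - X m) ^ (a i m - l i) * C (X i - X j) ^ (a i j - l i) * C h * μ =
      (u ^ c * C (X i - X j) ^ (a i j - l i)) *
      (C (X m - X j) ^ (a m j - c) * (X i - X m) ^ (l i - c) *
      C (X i - X m) ^ (a i m - l i) * C h * μ) := by ring
    rw [h3]
    exact Ideal.mul_mem_right _ _ h2
  · have hum : kl m u = C (X m - X j) * X i := by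
      rw [hu, map_sub, map_mul, map_mul, hC, hC, kl_X, kl_X, if_neg him, if_pos rfl, mul_zero,
        sub_zero]
    have hxx : kl m (X i - X m : WW k ι) = X i := by
      rw [map_sub, kl_X, kl_X, if_neg him, if_pos rfl, sub_zero]
    rw [map_mul, map_mul, map_mul, map_mul, map_mul, map_mul, map_pow, map_pow, map_pow, map_pow,
      map_pow, hum, hC, hC, hC, hC, hxx, hμk m (Or.inl rfl)]
    have h4 : (monomial l ((X m - X j) ^ (a m j) * (X i - X m) ^ (a i m - l i) *
        (X i - X j) ^ (a i j - l i) * h) : WW k ι) =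
        C (X m - X j) ^ (a m j) * C (X i - X m) ^ (a i m - l i) *
        C (X i - X j) ^ (a i j - l i) * C h * (X i ^ (l i) * μ) := by
      rw [hμ, X_pow_eq_monomial, monomial_mul, mul_one, add_comm, Finsupp.erase_add_single,
        ← C_pow, ← C_pow, ← C_pow, ← C_mul, ← C_mul, ← C_mul, C_mul_monomial, mul_one]
    rw [h4, mul_pow]
    have h5 : (X i : WW k ι) ^ (l i) = X i ^ c * X i ^ (l i - c) := by
      rw [← pow_add]; congr 1; omega
    have h6 : (C (X m - X j) : WW k ι) ^ (a m j) =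
        C (X m - X j) ^ c * C (X m - X j) ^ (a m j - c) := by
      rw [← pow_add]; congr 1; omega
    rw [h5, h6]
    ring

end Pool.Agent.Lib.MP_463376_co.StrA
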