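import Pool.Agent.Lib.MP_463376_co.A_Surj

/-!
# Stream A: the round robin
-/

set_option autoImplicit false

namespace Pool.Agent.Lib.MP_463376_co.StrA

open MvPolynomial

variable {k : Type} [Field k] {ι : Type} [DecidableEq ι]

/-- States of the round robin: `ρ i` is the time of the next treatment of `i`. -/
structure Good (d n : ℕ) (S : Finset ι) (a : ι → ι → ℕ) (ρ : ι → ℕ) : Prop where
  symm : ∀ i j, a i j = a j i
  win : ∀ i ∈ S, ∀ i' ∈ S, i ≠ i' → ρ i ≠ ρ i' ∧ ρ i < ρ i' + n
  col : ∀ i ∈ S, ∀ i' ∈ S, ∀ j ∉ S, ρ i < ρ i' → a i' j ≤ a i j ∧ a i j ≤ a i' j + 1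
  dd : ∀ i ∈ S, ∀ i' ∈ S, i ≠ i' → a i i' = d

omit [DecidableEq ι] in
theorem Good.exists_min {d n : ℕ} {S : Finset ι} {a : ι → ι → ℕ} {ρ : ι → ℕ}
    (h : Good d n S a ρ) (hS : S.Nonempty) : ∃ m ∈ S, ∀ i ∈ S, i ≠ m → ρ m < ρ i := by
  obtain ⟨m, hm, hmin⟩ := S.exists_min_image ρ hS
  exact ⟨m, hm, fun i hi him => lt_of_le_of_ne (hmin i hi) (h.win m hm i hi him.symm).1⟩

theorem Good.star {d n : ℕ} {S : Finset ι} {a : ι → ι → ℕ} {ρ : ι → ℕ} {m : ι}
    (h : Good d n S a ρ) (hm : m ∈ S) (hmin : ∀ i ∈ S, i ≠ m → ρ m < ρ i) :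
    ∀ i ∈ S, ∀ j ∉ S, a i j ≤ a m j := by
  intro i hi j hj
  by_cases him : i = m
  · rw [him]
  · exact (h.col m hm i hi j hj (hmin i hi him)).1

theorem Good.rem {d n : ℕ} {S : Finset ι} {a : ι → ι → ℕ} {ρ : ι → ℕ} {m : ι}
    (h : Good d n S a ρ) (hm : m ∈ S) : Good d n (S.erase m) a ρ := by
  refine ⟨h.symm, fun i hi i' hi' => h.win i (Finset.mem_of_mem_erase hi) i'
    (Finset.mem_of_mem_erase hi'), fun i hi i' hi' j hj hlt => ?_,
    fun i hi i' hi' => h.dd i (Finset.mem_of_mem_erase hi) i' (Finset.mem_of_mem_erase hi')⟩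
  have hiS := Finset.mem_of_mem_erase hi
  have hiS' := Finset.mem_of_mem_erase hi'
  by_cases hjm : j = m
  · subst hjm
    rw [h.dd i hiS j hm (Finset.ne_of_mem_erase hi), h.dd i' hiS' j hm (Finset.ne_of_mem_erase hi')]
    exact ⟨le_rfl, Nat.le_succ _⟩
  · exact h.col i hiS i' hiS' j (fun hj' => hj (Finset.mem_erase.2 ⟨hjm, hj'⟩)) hlt

theorem am_symm {S : Finset ι} {a : ι → ι → ℕ} (ha : ∀ i j, a i j = a j i) (m i j : ι) :
    am S a m i j = am S a m j i := by
  unfold am
  rw [ha i j]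
  by_cases h : (i = m ∧ j ∉ S) ∨ (j = m ∧ i ∉ S)
  · rw [if_pos h, if_pos h.symm]
  · rw [if_neg h, if_neg (fun h' => h h'.symm)]

theorem am_mem {S : Finset ι} {a : ι → ι → ℕ} {m i j : ι} (hi : i ∈ S) (hj : j ∈ S) :
    am S a m i j = a i j := by
  unfold am
  rw [if_neg]
  rintro (⟨-, h⟩ | ⟨-, h⟩)
  · exact h hj
  · exact h hi

theorem am_self {S : Finset ι} {a : ι → ι → ℕ} {m j : ι} (hj : j ∉ S) :
    am S a m m j = a m j - 1 := by
  unfold am
  rw [if_pos (Or.inl ⟨rfl, hj⟩)]

theorem am_of_ne {S : Finset ι} {a : ι → ι → ℕ} {m i j : ι} (hi : i ≠ m) (hj : j ≠ m) :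
    am S a m i j = a i j := by
  unfold am
  rw [if_neg]
  rintro (⟨h, -⟩ | ⟨h, -⟩)
  · exact hi h
  · exact hj h

theorem Good.div {d n : ℕ} {S : Finset ι} {a : ι → ι → ℕ} {ρ : ι → ℕ} {m : ι}
    (h : Good d n S a ρ) (hm : m ∈ S) (hmin : ∀ i ∈ S, i ≠ m → ρ m < ρ i) :
    Good d n S (am S a m) (Function.update ρ m (ρ m + n)) := by
  refine ⟨am_symm h.symm m, ?_, ?_, ?_⟩
  · intro i hi i' hi' hne
    by_cases him : i = m
    · subst him
      rw [Function.update_self, Function.update_of_ne hne.symm]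
      have h1 := (h.win i' hi' i hi hne.symm).2
      have h2 := hmin i' hi' hne.symm
      omega
    · by_cases him' : i' = m
      · subst him'
        rw [Function.update_self, Function.update_of_ne hne]
        have h1 := (h.win i hi i' hi' hne).2
        omega
      · rw [Function.update_of_ne him, Function.update_of_ne him']
        exact h.win i hi i' hi' hne
  · intro i hi i' hi' j hj hlt
    have hjm : j ≠ m := fun h' => hj (by rw [h']; exact hm)
    by_cases him : i = m
    · by_cases him' : i' = m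
      · rw [him, him'] at hlt
        exact absurd hlt (lt_irrefl _)
      · subst him
        rw [Function.update_self, Function.update_of_ne him'] at hlt
        have h1 := (h.win i' hi' i hi him').2
        omega
    · by_cases him' : i' = m
      · subst him'
        have h1 := h.col i' hi' i hi j hj (hmin i hi him)
        rw [am_self hj, am_of_ne him hjm]
        omega
      · rw [Function.update_of_ne him, Function.update_of_ne him'] at hlt
        rw [am_of_ne him hjm, am_of_ne him' hjm]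
        exact h.col i hi i' hi' j hj hlt
  · intro i hi i' hi' hne
    rw [am_mem hi hi']
    exact h.dd i hi i' hi' hne

/-- multiplication by `x_m` -/
noncomputable def mX (k : Type) [Field k] {ι : Type} (m : ι) : WW k ι →ₗ[BB k ι] WW k ι :=
  LinearMap.mulLeft (BB k ι) (X m)

omit [DecidableEq ι] in
theorem mX_apply (m : ι) (g : WW k ι) : mX k m g = X m * g := rfl

omit [DecidableEq ι] in
theorem mX_injective (m : ι) : Function.Injective (mX k m) := by
  intro f g h
  have h' : (X m : WW k ι) * f = X m * g := h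
  exact mul_left_cancel₀ (X_ne_zero m) h'

omit [DecidableEq ι] in
theorem degree_add_single (l : ι →₀ ℕ) (m : ι) :
    (l + Finsupp.single m 1).degree = l.degree + 1 := by
  rw [map_add, Finsupp.degree_single]

theorem X_mul_mem_HH {m : ι} {e : ℕ} {f : WW k ι} : X m * f ∈ HH k ι (e + 1) ↔ f ∈ HH k ι e := by
  rw [mem_HH, mem_HH]
  constructor
  · intro h l hl
    have := h (l + Finsupp.single m 1) (by rwa [coeff_X_mul_add])
    rw [degree_add_single] at this
    omega
  · intro h l hl
    rw [mul_comm, coeff_mul_X'] at hl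
    split_ifs at hl with hml
    · have h1 := h _ hl
      have hlm : l m ≠ 0 := Finsupp.mem_support_iff.1 hml
      have h2 : l - Finsupp.single m 1 + Finsupp.single m 1 = l := by
        apply tsub_add_cancel_of_le
        rw [Finsupp.single_le_iff]
        omega
      rw [← h2, degree_add_single, h1]
    · exact absurd rfl hl

theorem ker_eq {S : Finset ι} {a : ι → ι → ℕ} {m : ι} (hm : m ∈ S) (e : ℕ) :
    (NN k S a ⊓ HH k ι (e + 1)) ⊓ LinearMap.ker (kl (k := k) m).toLinearMap =
      (NN k S (am S a m) ⊓ HH k ι e).map (mX k m) := by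
  ext f
  rw [Submodule.mem_inf, Submodule.mem_inf, LinearMap.mem_ker, Submodule.mem_map]
  constructor
  · rintro ⟨⟨h1, h2⟩, h3⟩
    obtain ⟨g, rfl⟩ := exists_X_mul (k := k) (m := m) h3
    exact ⟨g, Submodule.mem_inf.2 ⟨(X_mul_mem_NN hm).1 h1, X_mul_mem_HH.1 h2⟩, mX_apply m g⟩
  · rintro ⟨g, hg, rfl⟩
    rw [Submodule.mem_inf] at hg
    rw [mX_apply]
    refine ⟨⟨(X_mul_mem_NN hm).2 hg.1, X_mul_mem_HH.2 hg.2⟩, ?_⟩
    show kl m (X m * g) = 0
    rw [map_mul, kl_X, if_pos rfl, zero_mul]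

theorem ker_eq_bot {S : Finset ι} {a : ι → ι → ℕ} {m : ι} :
    (NN k S a ⊓ HH k ι 0) ⊓ LinearMap.ker (kl (k := k) m).toLinearMap = ⊥ := by
  rw [eq_bot_iff]
  rintro f ⟨⟨-, h2⟩, h3⟩
  rw [Submodule.mem_bot]
  have h3' : kl m f = 0 := h3
  ext1 l
  by_contra h
  have h4 := mem_HH.1 h2 l h
  rw [Finsupp.degree_eq_zero_iff] at h4
  apply h
  have h5 := coeff_kl m f l
  rw [h3', h4, coeff_zero] at h5
  simp only [Finsupp.coe_zero, Pi.zero_apply, if_true] at h5
  rw [h4, ← h5, coeff_zero]

section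

variable [Fintype ι]

omit [Fintype ι] in
theorem koz_ker {S : Finset ι} {a : ι → ι → ℕ} {m : ι} (hm : m ∈ S) {e : ℕ}
    (h : ∀ e', e = e' + 1 → Koz (NN k S (am S a m) ⊓ HH k ι e')) :
    Koz ((NN k S a ⊓ HH k ι e) ⊓ LinearMap.ker (kl (k := k) m).toLinearMap) := by
  rcases e with _ | e
  · rw [ker_eq_bot]; exact koz_bot
  · rw [ker_eq hm]
    exact koz_map _ (mX_injective m) (h e rfl)

theorem map_eq {S : Finset ι} {a : ι → ι → ℕ} {m : ι} {e : ℕ} (hm : m ∈ S)
    (ha : ∀ i j, a i j = a j i) (hstar : ∀ i ∈ S, ∀ j ∉ S, a i j ≤ a m j)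
    (hK : Koz ((NN k S a ⊓ HH k ι e) ⊓ LinearMap.ker (kl (k := k) m).toLinearMap)) :
    (NN k S a ⊓ HH k ι e).map (kl (k := k) m).toLinearMap = NN k (S.erase m) a ⊓ HH k ι e := by
  apply le_antisymm
  · rintro _ ⟨f, ⟨h1, h2⟩, rfl⟩
    exact ⟨kl_mem_NN h1, kl_mem_HH h2⟩
  · exact surj hm ha hstar hK

theorem koz_NN {d n : ℕ} (K : ℕ) : ∀ (e : ℕ) (S : Finset ι) (a : ι → ι → ℕ) (ρ : ι → ℕ),
    e + S.card ≤ K → Good d n S a ρ → Koz (NN k S a ⊓ HH k ι e) := by
  induction K with
  | zero =>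
    intro e S a ρ hK hG
    have : S = ∅ := Finset.card_eq_zero.1 (by omega)
    subst this
    exact koz_empty hG.symm e
  | succ K ih =>
    intro e S a ρ hK hG
    rcases S.eq_empty_or_nonempty with hS | hS
    · subst hS
      exact koz_empty hG.symm e
    obtain ⟨m, hm, hmin⟩ := hG.exists_min hS
    have hker : Koz ((NN k S a ⊓ HH k ι e) ⊓ LinearMap.ker (kl (k := k) m).toLinearMap) := by
      apply koz_ker hm
      rintro e' rfl
      exact ih e' S _ _ (by omega) (hG.div hm hmin)
    apply koz_ext (kl (k := k) m).toLinearMap hker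
    rw [map_eq hm hG.symm (hG.star hm hmin) hker]
    have hc := Finset.card_erase_of_mem hm
    have hc' : 0 < S.card := Finset.card_pos.2 hS
    exact ih e _ a ρ (by omega) (hG.rem hm)

theorem Good.surj {d n : ℕ} {S : Finset ι} {a : ι → ι → ℕ} {ρ : ι → ℕ} {m : ι}
    (h : Good d n S a ρ) (hm : m ∈ S) (hmin : ∀ i ∈ S, i ≠ m → ρ m < ρ i) {e : ℕ} {v : WW k ι}
    (hv : v ∈ NN k (S.erase m) a ⊓ HH k ι e) : ∃ w ∈ NN k S a ⊓ HH k ι e, kl m w = v := by
  have hker : Koz ((NN k S a ⊓ HH k ι e) ⊓ LinearMap.ker (kl (k := k) m).toLinearMap) := by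
    apply koz_ker hm
    rintro e' rfl
    exact koz_NN _ e' S _ _ le_rfl (h.div hm hmin)
  have h1 := StrA.surj hm h.symm (h.star hm hmin) hker hv
  obtain ⟨w, h2, h3⟩ := h1
  exact ⟨w, h2, h3⟩

end

/-! ### the order -/

/-- `t` is a removal time -/
def RT (n : ℕ) (S : Finset ι) (ρ : ι → ℕ) (l : ι →₀ ℕ) (t : ℕ) : Prop :=
  ∃ i ∈ S, ρ i + n * l i = t

/-- the order of the exponents -/
def prec (n : ℕ) (S : Finset ι) (ρ : ι → ℕ) (l' l : ι →₀ ℕ) : Prop :=
  ∃ t, RT n S ρ l t ∧ ¬ RT n S ρ l' t ∧ ∀ s < t, (RT n S ρ l s ↔ RT n S ρ l' s)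

omit [DecidableEq ι] in
theorem prec_asymm {n : ℕ} {S : Finset ι} {ρ : ι → ℕ} {l' l : ι →₀ ℕ} (h : prec n S ρ l' l)
    (h' : prec n S ρ l l') : False := by
  obtain ⟨t, h1, h2, h3⟩ := h
  obtain ⟨t', h1', h2', h3'⟩ := h'
  rcases lt_trichotomy t t' with hlt | heq | hlt
  · exact h2 ((h3' t hlt).2 h1)
  · rw [heq] at h1
    exact h2' h1
  · exact h2' ((h3 t' hlt).2 h1')

theorem prec_of_zero {n : ℕ} {S : Finset ι} {ρ : ι → ℕ} {m : ι} (hm : m ∈ S)
    (hmin : ∀ i ∈ S, i ≠ m → ρ m < ρ i) (hn : 0 < n) {l' l : ι →₀ ℕ} (hl : l m = 0)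
    (hl' : l' m ≠ 0) : prec n S ρ l' l := by
  refine ⟨ρ m, ⟨m, hm, by rw [hl, mul_zero, add_zero]⟩, ?_, ?_⟩
  · rintro ⟨i, hi, h⟩
    by_cases him : i = m
    · subst him
      have : 0 < n * l' i := Nat.mul_pos hn (Nat.pos_of_ne_zero hl')
      omega
    · have := hmin i hi him
      omega
  · intro s hs
    constructor
    · rintro ⟨i, hi, h⟩
      exfalso
      by_cases him : i = m
      · subst him; omega
      · have := hmin i hi him
        omega
    · rintro ⟨i, hi, h⟩
      exfalso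
      by_cases him : i = m
      · subst him; omega
      · have := hmin i hi him
        omega

theorem RT_erase {n : ℕ} {S : Finset ι} {ρ : ι → ℕ} {m : ι} (hm : m ∈ S) {l : ι →₀ ℕ}
    (hl : l m = 0) (t : ℕ) : RT n S ρ l t ↔ t = ρ m ∨ RT n (S.erase m) ρ l t := by
  constructor
  · rintro ⟨i, hi, h⟩
    by_cases him : i = m
    · subst him
      rw [hl, mul_zero, add_zero] at h
      exact Or.inl h.symm
    · exact Or.inr ⟨i, Finset.mem_erase.2 ⟨him, hi⟩, h⟩
  · rintro (rfl | ⟨i, hi, h⟩)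
    · exact ⟨m, hm, by rw [hl, mul_zero, add_zero]⟩
    · exact ⟨i, Finset.mem_of_mem_erase hi, h⟩

theorem RT_erase_ne {n : ℕ} {S : Finset ι} {ρ : ι → ℕ} {m : ι}
    (hmin : ∀ i ∈ S, i ≠ m → ρ m < ρ i) {l : ι →₀ ℕ} {t : ℕ} (h : RT n (S.erase m) ρ l t) :
    t ≠ ρ m := by
  obtain ⟨i, hi, h⟩ := h
  have := hmin i (Finset.mem_of_mem_erase hi) (Finset.ne_of_mem_erase hi)
  omega

theorem prec_erase_iff {n : ℕ} {S : Finset ι} {ρ : ι → ℕ} {m : ι} (hm : m ∈ S)
    (hmin : ∀ i ∈ S, i ≠ m → ρ m < ρ i) {l' l : ι →₀ ℕ} (hl : l m = 0)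
    (hl' : l' m = 0) : prec n S ρ l' l ↔ prec n (S.erase m) ρ l' l := by
  constructor
  · rintro ⟨t, h1, h2, h3⟩
    rw [RT_erase hm hl] at h1
    rw [RT_erase hm hl'] at h2
    push Not at h2
    have h1' := h1.resolve_left h2.1
    refine ⟨t, h1', h2.2, fun s hs => ?_⟩
    have h4 := h3 s hs
    rw [RT_erase hm hl, RT_erase hm hl'] at h4
    constructor
    · intro h5
      exact (h4.1 (Or.inr h5)).resolve_left (RT_erase_ne hmin h5)
    · intro h5
      exact (h4.2 (Or.inr h5)).resolve_left (RT_erase_ne hmin h5)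
  · rintro ⟨t, h1, h2, h3⟩
    refine ⟨t, (RT_erase hm hl t).2 (Or.inr h1), ?_, fun s hs => ?_⟩
    · rw [RT_erase hm hl']
      rintro (h | h)
      · exact RT_erase_ne hmin h1 h
      · exact h2 h
    · rw [RT_erase hm hl, RT_erase hm hl', h3 s hs]

theorem RT_update {n : ℕ} {S : Finset ι} {ρ : ι → ℕ} {m : ι} {l : ι →₀ ℕ} (t : ℕ) :
    RT n S (Function.update ρ m (ρ m + n)) l t ↔ RT n S ρ (l + Finsupp.single m 1) t := by
  have key : ∀ i, Function.update ρ m (ρ m + n) i + n * l i =
      ρ i + n * (l + Finsupp.single m 1 : ι →₀ ℕ) i := by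
    intro i
    by_cases him : i = m
    · subst him
      rw [Function.update_self, Finsupp.add_apply, Finsupp.single_eq_same, mul_add, mul_one]
      ring
    · rw [Function.update_of_ne him, Finsupp.add_apply, Finsupp.single_eq_of_ne him, add_zero]
  unfold RT
  simp only [key]

theorem prec_update_iff {n : ℕ} {S : Finset ι} {ρ : ι → ℕ} {m : ι} {l' l : ι →₀ ℕ} :
    prec n S (Function.update ρ m (ρ m + n)) l' l ↔
      prec n S ρ (l' + Finsupp.single m 1) (l + Finsupp.single m 1) := by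
  unfold prec
  simp only [RT_update]

/-! ### the final exponents -/

/-- the final exponents -/
def fn (n : ℕ) (S : Finset ι) (a : ι → ι → ℕ) (ρ : ι → ℕ) (l : ι →₀ ℕ) (i j : ι) : ℕ :=
  if i ∈ S then
    if j ∈ S then
      a i j - (max (ρ i + n * l i) (ρ j + n * l j) - min (ρ i + n * l i) (ρ j + n * l j)) / n
    else a i j - l i
  else if j ∈ S then a i j - l j else a i j

omit [DecidableEq ι] in
theorem prd_congr [Fintype ι] {a b : ι → ι → ℕ} (h : ∀ i j, i ≠ j → a i j = b i j) :
    prd k a = prd k b := by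
  unfold prd
  refine Finset.prod_congr rfl fun i _ => Finset.prod_congr rfl fun j _ => ?_
  split_ifs with hlt
  · rw [h i j (fun h' => by rw [h'] at hlt; exact lt_irrefl _ hlt)]
  · rfl

theorem fn_rem {d n : ℕ} {S : Finset ι} {a : ι → ι → ℕ} {ρ : ι → ℕ} {m : ι}
    (h : Good d n S a ρ) (hm : m ∈ S) (hmin : ∀ i ∈ S, i ≠ m → ρ m < ρ i) {l : ι →₀ ℕ}
    (hl : l m = 0) {i j : ι} (hij : i ≠ j) :
    fn n (S.erase m) a ρ l i j = fn n S a ρ l i j := by
  have key : ∀ i ∈ S, i ≠ m → (max (ρ i + n * l i) (ρ m + n * l m) -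
      min (ρ i + n * l i) (ρ m + n * l m)) / n = l i := by
    intro i hi him
    have h1 := hmin i hi him
    have h2 := (h.win i hi m hm him).2
    rw [hl, mul_zero, add_zero]
    have h3 : max (ρ i + n * l i) (ρ m) - min (ρ i + n * l i) (ρ m) = (ρ i - ρ m) + n * l i := by
      rw [max_eq_left (by omega), min_eq_right (by omega)]
      omega
    rw [h3, Nat.add_mul_div_left _ _ (by omega), Nat.div_eq_of_lt (by omega), zero_add]
  unfold fn
  by_cases hi : i ∈ S <;> by_cases hj : j ∈ S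
  · by_cases him : i = m
    · subst him
      rw [if_neg (Finset.notMem_erase i S), if_pos (Finset.mem_erase.2 ⟨hij.symm, hj⟩), if_pos hi,
        if_pos hj, max_comm, min_comm, key j hj hij.symm]
    · by_cases hjm : j = m
      · subst hjm
        rw [if_pos (Finset.mem_erase.2 ⟨him, hi⟩), if_neg (Finset.notMem_erase j S), if_pos hi,
          if_pos hj, key i hi him]
      · rw [if_pos (Finset.mem_erase.2 ⟨him, hi⟩), if_pos (Finset.mem_erase.2 ⟨hjm, hj⟩), if_pos hi,
          if_pos hj]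
  · have hj' : j ∉ S.erase m := fun h' => hj (Finset.mem_of_mem_erase h')
    by_cases him : i = m
    · subst him
      rw [if_neg (Finset.notMem_erase i S), if_neg hj', if_pos hi, if_neg hj, hl, Nat.sub_zero]
    · rw [if_pos (Finset.mem_erase.2 ⟨him, hi⟩), if_neg hj', if_pos hi, if_neg hj]
  · have hi' : i ∉ S.erase m := fun h' => hi (Finset.mem_of_mem_erase h')
    by_cases hjm : j = m
    · subst hjm
      rw [if_neg hi', if_neg (Finset.notMem_erase j S), if_neg hi, if_pos hj, hl, Nat.sub_zero]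
    · rw [if_neg hi', if_pos (Finset.mem_erase.2 ⟨hjm, hj⟩), if_neg hi, if_pos hj]
  · have hi' : i ∉ S.erase m := fun h' => hi (Finset.mem_of_mem_erase h')
    have hj' : j ∉ S.erase m := fun h' => hj (Finset.mem_of_mem_erase h')
    rw [if_neg hi', if_neg hj', if_neg hi, if_neg hj]

theorem fn_div {n : ℕ} {S : Finset ι} {a : ι → ι → ℕ} {ρ : ι → ℕ} {m : ι}
    (ha : ∀ i j, a i j = a j i) (hm : m ∈ S) {l : ι →₀ ℕ} {i j : ι} :
    fn n S (am S a m) (Function.update ρ m (ρ m + n)) l i j =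
      fn n S a ρ (l + Finsupp.single m 1) i j := by
  have key : ∀ i, Function.update ρ m (ρ m + n) i + n * l i =
      ρ i + n * (l + Finsupp.single m 1 : ι →₀ ℕ) i := by
    intro i
    by_cases him : i = m
    · subst him
      rw [Function.update_self, Finsupp.add_apply, Finsupp.single_eq_same, mul_add, mul_one]
      ring
    · rw [Function.update_of_ne him, Finsupp.add_apply, Finsupp.single_eq_of_ne him, add_zero]
  have key2 : ∀ i j, i ∈ S → j ∉ S → am S a m i j - l i =
      a i j - (l + Finsupp.single m 1 : ι →₀ ℕ) i := by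
    intro i j hi hj
    have hjm : j ≠ m := fun h' => hj (by rw [h']; exact hm)
    by_cases him : i = m
    · subst him
      rw [am_self hj, Finsupp.add_apply, Finsupp.single_eq_same]
      omega
    · rw [am_of_ne him hjm, Finsupp.add_apply, Finsupp.single_eq_of_ne him, add_zero]
  unfold fn
  rw [key, key]
  by_cases hi : i ∈ S <;> by_cases hj : j ∈ S
  · simp only [if_pos hi, if_pos hj, am_mem hi hj]
  · simp only [if_pos hi, if_neg hj, key2 i j hi hj]
  · simp only [if_neg hi, if_pos hj]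
    rw [am_symm ha, key2 j i hj hi, ha]
  · have him : i ≠ m := fun h' => hi (by rw [h']; exact hm)
    have hjm : j ≠ m := fun h' => hj (by rw [h']; exact hm)
    simp only [if_neg hi, if_neg hj, am_of_ne him hjm]

section

variable [Fintype ι]

/-- existence of the basis elements -/
theorem exists_el {d n : ℕ} (hn : Nonempty ι → 0 < n) (K : ℕ) : ∀ (S : Finset ι) (a : ι → ι → ℕ) (ρ : ι → ℕ)
    (l : ι →₀ ℕ), Good d n S a ρ → (∀ i ∉ S, l i = 0) → l.degree + S.card ≤ K →
    ∃ b ∈ NN k S a ⊓ HH k ι l.degree, coeff l b = prd k (fn n S a ρ l) ∧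
      ∀ l', coeff l' b ≠ 0 → l' = l ∨ prec n S ρ l' l := by
  have hempty : ∀ (a : ι → ι → ℕ) (ρ : ι → ℕ) (l : ι →₀ ℕ), Good d n ∅ a ρ →
      (∀ i ∉ (∅ : Finset ι), l i = 0) →
      ∃ b ∈ NN k ∅ a ⊓ HH k ι l.degree, coeff l b = prd k (fn n ∅ a ρ l) ∧
      ∀ l', coeff l' b ≠ 0 → l' = l ∨ prec n ∅ ρ l' l := by
    intro a ρ l hG hl
    have hl0 : l = 0 := by
      ext i; exact hl i (Finset.notMem_empty i)
    subst hl0
    refine ⟨C (prd k a * 1), ⟨C_mem_NN_empty hG.symm 1, ?_⟩, ?_, ?_⟩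
    · rw [SetLike.mem_coe, mem_HH]
      intro l hl
      rw [coeff_C] at hl
      split_ifs at hl with h
      · rw [← h]
      · exact absurd rfl hl
    · rw [coeff_C, if_pos rfl, mul_one]
      apply prd_congr
      intro i j _
      unfold fn
      rw [if_neg (Finset.notMem_empty i), if_neg (Finset.notMem_empty j)]
    · intro l' hl'
      rw [coeff_C] at hl'
      split_ifs at hl' with h
      · exact Or.inl h.symm
      · exact absurd rfl hl'
  induction K with
  | zero =>
    intro S a ρ l hG hl hK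
    have : S = ∅ := Finset.card_eq_zero.1 (by omega)
    subst this
    exact hempty a ρ l hG hl
  | succ K ih =>
    intro S a ρ l hG hl hK
    rcases S.eq_empty_or_nonempty with hS | hS
    · subst hS
      exact hempty a ρ l hG hl
    obtain ⟨m, hm, hmin⟩ := hG.exists_min hS
    by_cases hlm : l m = 0
    · have hc := Finset.card_erase_of_mem hm
      have hc' : 0 < S.card := Finset.card_pos.2 hS
      obtain ⟨b', m1, m2, m3⟩ := ih (S.erase m) a ρ l (hG.rem hm) (by
        intro i hi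
        by_cases him : i = m
        · rw [him, hlm]
        · exact hl i (fun h => hi (Finset.mem_erase.2 ⟨him, h⟩))) (by omega)
      obtain ⟨b, h1, h2⟩ := hG.surj hm hmin m1
      have hcf : ∀ l', l' m = 0 → coeff l' b = coeff l' b' := by
        intro l' hl'
        rw [← h2, coeff_kl, if_pos hl']
      refine ⟨b, h1, ?_, ?_⟩
      · rw [hcf l hlm, m2]
        apply prd_congr
        intro i j hij
        exact fn_rem hG hm hmin hlm hij
      · intro l' hl'
        by_cases hlm' : l' m = 0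
        · rw [hcf l' hlm'] at hl'
          rcases m3 l' hl' with h | h
          · exact Or.inl h
          · exact Or.inr ((prec_erase_iff hm hmin hlm hlm').2 h)
        · exact Or.inr (prec_of_zero hm hmin (hn ⟨m⟩) hlm hlm')
    · obtain ⟨l1, rfl⟩ : ∃ l1, l = l1 + Finsupp.single m 1 := by
        refine ⟨l - Finsupp.single m 1, ?_⟩
        rw [tsub_add_cancel_of_le]
        rw [Finsupp.single_le_iff]
        omega
      rw [degree_add_single] at hK ⊢
      obtain ⟨b1, ⟨m1, m1'⟩, m2, m3⟩ := ih S (am S a m) (Function.update ρ m (ρ m + n)) l1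
        (hG.div hm hmin) (by
          intro i hi
          have := hl i hi
          rw [Finsupp.add_apply] at this
          omega) (by omega)
      refine ⟨X m * b1, ⟨(X_mul_mem_NN hm).2 m1, X_mul_mem_HH.2 m1'⟩, ?_, ?_⟩
      · rw [coeff_X_mul_add, m2]
        apply prd_congr
        intro i j _
        exact fn_div hG.symm hm
      · intro l' hl'
        rw [mul_comm, coeff_mul_X'] at hl'
        split_ifs at hl' with hml
        · have hlm2 : l' m ≠ 0 := Finsupp.mem_support_iff.1 hml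
          obtain ⟨l2, rfl⟩ : ∃ l2, l' = l2 + Finsupp.single m 1 := by
            refine ⟨l' - Finsupp.single m 1, ?_⟩
            rw [tsub_add_cancel_of_le]
            rw [Finsupp.single_le_iff]
            omega
          rw [add_tsub_cancel_right] at hl'
          rcases m3 l2 hl' with h | h
          · exact Or.inl (by rw [h])
          · exact Or.inr (prec_update_iff.1 h)
        · exact absurd rfl hl'

/-- divisibility of the leading coefficients -/
theorem dvd_lead {d n : ℕ} (hn : Nonempty ι → 0 < n) (K : ℕ) : ∀ (S : Finset ι) (a : ι → ι → ℕ) (ρ : ι → ℕ)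
    (l : ι →₀ ℕ) (f : WW k ι), Good d n S a ρ → (∀ i ∉ S, l i = 0) → l.degree + S.card ≤ K →
    f ∈ NN k S a → (∀ l', coeff l' f ≠ 0 → l' = l ∨ prec n S ρ l' l) →
    prd k (fn n S a ρ l) ∣ coeff l f := by
  have hempty : ∀ (a : ι → ι → ℕ) (ρ : ι → ℕ) (l : ι →₀ ℕ) (f : WW k ι), Good d n ∅ a ρ →
      (∀ i ∉ (∅ : Finset ι), l i = 0) → f ∈ NN k ∅ a → prd k (fn n ∅ a ρ l) ∣ coeff l f := by
    intro a ρ l f hG hl hf
    have hl0 : l = 0 := by
      ext i; exact hl i (Finset.notMem_empty i)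
    subst hl0
    have h1 : prd k (fn n ∅ a ρ 0) = prd k a := by
      apply prd_congr
      intro i j _
      unfold fn
      rw [if_neg (Finset.notMem_empty i), if_neg (Finset.notMem_empty j)]
    rw [h1]
    exact ((mem_NN_empty hG.symm).1 hf).2
  induction K with
  | zero =>
    intro S a ρ l f hG hl hK hf _
    have : S = ∅ := Finset.card_eq_zero.1 (by omega)
    subst this
    exact hempty a ρ l f hG hl hf
  | succ K ih =>
    intro S a ρ l f hG hl hK hf hlead
    rcases S.eq_empty_or_nonempty with hS | hS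
    · subst hS
      exact hempty a ρ l f hG hl hf
    obtain ⟨m, hm, hmin⟩ := hG.exists_min hS
    by_cases hlm : l m = 0
    · have hc := Finset.card_erase_of_mem hm
      have hc' : 0 < S.card := Finset.card_pos.2 hS
      have h1 := ih (S.erase m) a ρ l (kl m f) (hG.rem hm) (by
        intro i hi
        by_cases him : i = m
        · rw [him, hlm]
        · exact hl i (fun h => hi (Finset.mem_erase.2 ⟨him, h⟩))) (by omega) (kl_mem_NN hf) (by
        intro l' hl'
        rw [coeff_kl] at hl'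
        split_ifs at hl' with hlm'
        · rcases hlead l' hl' with h | h
          · exact Or.inl h
          · exact Or.inr ((prec_erase_iff hm hmin hlm hlm').1 h)
        · exact absurd rfl hl')
      rw [coeff_kl, if_pos hlm] at h1
      rwa [prd_congr (fun i j hij => fn_rem hG hm hmin hlm hij)] at h1
    · have hall : ∀ l', coeff l' f ≠ 0 → l' m ≠ 0 := by
        intro l' hl' h0
        rcases hlead l' hl' with h | h
        · rw [h] at h0; exact hlm h0
        · exact prec_asymm h (prec_of_zero hm hmin (hn ⟨m⟩) h0 hlm)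
      have hk : kl m f = 0 := by
        ext1 l'
        rw [coeff_kl, coeff_zero]
        split_ifs with h0
        · by_contra hc
          exact hall l' hc h0
        · rfl
      obtain ⟨g, rfl⟩ := exists_X_mul hk
      obtain ⟨l1, rfl⟩ : ∃ l1, l = l1 + Finsupp.single m 1 := by
        refine ⟨l - Finsupp.single m 1, ?_⟩
        rw [tsub_add_cancel_of_le]
        rw [Finsupp.single_le_iff]
        omega
      rw [degree_add_single] at hK
      have h1 := ih S (am S a m) (Function.update ρ m (ρ m + n)) l1 g (hG.div hm hmin) (by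
          intro i hi
          have := hl i hi
          rw [Finsupp.add_apply] at this
          omega) (by omega) ((X_mul_mem_NN hm).1 hf) (by
          intro l' hl'
          rcases hlead (l' + Finsupp.single m 1) (by rwa [coeff_X_mul_add]) with h | h
          · exact Or.inl (add_right_cancel h)
          · exact Or.inr (prec_update_iff.2 h))
      rw [coeff_X_mul_add]
      rwa [prd_congr (fun i j _ => fn_div hG.symm hm)] at h1

end

end Pool.Agent.Lib.MP_463376_co.StrA
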