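import Pool.Agent.Lib.MP_463376_co.Defs

/-!
# Stream A: differences of variables in `k[y]`
-/

set_option autoImplicit false

namespace Pool.Agent.Lib.MP_463376_co.StrA

open MvPolynomial

variable {k : Type} [Field k] {ι : Type} [DecidableEq ι]

omit [DecidableEq ι] in
/-- A substitution is the identity modulo the differences of the variables. -/
theorem sub_mem_of (σ : BB k ι →ₐ[k] BB k ι) (I : Ideal (BB k ι))
    (h : ∀ p, σ (X p) - X p ∈ I) (f : BB k ι) : σ f - f ∈ I := by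
  have h1 : (Ideal.Quotient.mkₐ k I).comp σ = Ideal.Quotient.mkₐ k I := by
    apply MvPolynomial.algHom_ext
    intro p
    rw [AlgHom.comp_apply, Ideal.Quotient.mkₐ_eq_mk, Ideal.Quotient.eq]
    exact h p
  have h2 := DFunLike.congr_fun h1 f
  rw [AlgHom.comp_apply, Ideal.Quotient.mkₐ_eq_mk, Ideal.Quotient.eq] at h2
  exact h2

/-- the substitution `y_i := y_j` -/
noncomputable def sb (i j : ι) : BB k ι →ₐ[k] BB k ι :=
  aeval fun p => if p = i then X j else X p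

theorem sb_X (i j p : ι) : sb (k := k) i j (X p) = if p = i then X j else X p := by
  simp [sb]

theorem dvd_iff_sb (i j : ι) (f : BB k ι) : (X i - X j) ∣ f ↔ sb i j f = 0 := by
  constructor
  · rintro ⟨g, rfl⟩
    rw [map_mul, map_sub, sb_X, sb_X, if_pos rfl]
    split_ifs <;> simp
  · intro h
    have h1 := sub_mem_of (sb i j) (Ideal.span {(X i - X j : BB k ι)}) (by
      intro p
      rw [sb_X]
      split_ifs with hp
      · subst hp
        rw [Ideal.mem_span_singleton, ← neg_sub (X p), dvd_neg]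
      · rw [sub_self]; exact zero_mem _) f
    rw [h, zero_sub, neg_mem_iff, Ideal.mem_span_singleton] at h1
    exact h1

omit [DecidableEq ι] in
theorem sub_ne_zero' {i j : ι} (h : i ≠ j) : (X i - X j : BB k ι) ≠ 0 := by
  rw [sub_ne_zero]
  exact fun h' => h (MvPolynomial.X_injective h')

theorem prime_sub {i j : ι} (h : i ≠ j) : Prime (X i - X j : BB k ι) := by
  refine ⟨sub_ne_zero' h, ?_, ?_⟩
  · intro hu
    have h1 : (X i - X j : BB k ι) ∣ 1 := isUnit_iff_dvd_one.1 hu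
    rw [dvd_iff_sb, map_one] at h1
    exact one_ne_zero h1
  · intro f g hfg
    rw [dvd_iff_sb] at hfg ⊢
    rw [dvd_iff_sb]
    rw [map_mul] at hfg
    exact mul_eq_zero.1 hfg

theorem not_dvd_sub {i j p q : ι} (hpq : p ≠ q) (h1 : ¬(p = i ∧ q = j)) (h2 : ¬(p = j ∧ q = i)) :
    ¬ (X i - X j : BB k ι) ∣ (X p - X q) := by
  rw [dvd_iff_sb, map_sub, sb_X, sb_X]
  intro h
  split_ifs at h with ha hb hb
  · exact hpq (ha.trans hb.symm)
  · rw [sub_eq_zero] at h
    exact h1 ⟨ha, (MvPolynomial.X_injective h).symm⟩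
  · rw [sub_eq_zero] at h
    exact h2 ⟨MvPolynomial.X_injective h, hb⟩
  · rw [sub_eq_zero] at h
    exact hpq (MvPolynomial.X_injective h)

/-- The Koszul property of three independent differences. -/
theorem koszul_B {i₁ i₂ i₃ r₁ r₂ r₃ : ι} (h12 : i₁ ≠ i₂) (h13 : i₁ ≠ i₃) (h23 : i₂ ≠ i₃)
    (hr1 : r₁ ≠ i₁ ∧ r₁ ≠ i₂ ∧ r₁ ≠ i₃) (hr2 : r₂ ≠ i₁ ∧ r₂ ≠ i₂ ∧ r₂ ≠ i₃)
    (hr3 : r₃ ≠ i₁ ∧ r₃ ≠ i₂ ∧ r₃ ≠ i₃) (c12 c13 c23 : BB k ι)
    (h : (X i₁ - X r₁) * c23 - (X i₂ - X r₂) * c13 + (X i₃ - X r₃) * c12 = 0) :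
    ∃ d1 d2 d3 : BB k ι, c12 = (X i₂ - X r₂) * d1 - (X i₁ - X r₁) * d2 ∧
      c13 = (X i₃ - X r₃) * d1 - (X i₁ - X r₁) * d3 ∧
      c23 = (X i₃ - X r₃) * d2 - (X i₂ - X r₂) * d3 := by
  set l1 : BB k ι := X i₁ - X r₁ with hl1
  set l2 : BB k ι := X i₂ - X r₂ with hl2
  set l3 : BB k ι := X i₃ - X r₃ with hl3
  -- the substitution killing `l1, l2`
  obtain ⟨σ, hσ⟩ : ∃ σ : BB k ι →ₐ[k] BB k ι, σ = aeval fun p =>
    if p = i₁ then X r₁ else if p = i₂ then X r₂ else X p := ⟨_, rfl⟩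
  have hσX : ∀ p, σ (X p) = if p = i₁ then X r₁ else if p = i₂ then X r₂ else X p := by
    intro p; rw [hσ]; simp
  have s1 : σ l1 = 0 := by
    rw [hl1, map_sub, hσX, hσX, if_pos rfl, if_neg hr1.1, if_neg hr1.2.1, sub_self]
  have s2 : σ l2 = 0 := by
    rw [hl2, map_sub, hσX, hσX, if_neg h12.symm, if_pos rfl, if_neg hr2.1, if_neg hr2.2.1, sub_self]
  have s3 : σ l3 = l3 := by
    rw [hl3, map_sub, hσX, hσX, if_neg h13.symm, if_neg h23.symm, if_neg hr3.1, if_neg hr3.2.1]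
  have hl3ne : l3 ≠ 0 := sub_ne_zero' hr3.2.2.symm
  have hc12 : σ c12 = 0 := by
    have := congrArg σ h
    rw [map_add, map_sub, map_mul, map_mul, map_mul, s1, s2, s3, zero_mul, zero_mul, sub_zero,
      zero_add, map_zero] at this
    exact (mul_eq_zero.1 this).resolve_left hl3ne
  have hmem : c12 ∈ Ideal.span {l1, l2} := by
    have h1 := sub_mem_of σ (Ideal.span {l1, l2}) (by
      intro p
      rw [hσX]
      split_ifs with hp hp'
      · subst hp
        rw [← neg_sub, neg_mem_iff]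
        exact Ideal.subset_span (Set.mem_insert _ _)
      · subst hp'
        rw [← neg_sub, neg_mem_iff]
        exact Ideal.subset_span (Set.mem_insert_of_mem _ rfl)
      · rw [sub_self]; exact zero_mem _) c12
    rwa [hc12, zero_sub, neg_mem_iff] at h1
  obtain ⟨u, v, huv⟩ := Ideal.mem_span_pair.1 hmem
  -- c12 = u * l1 + v * l2
  have h2 : l1 * (c23 + l3 * u) = l2 * (c13 - l3 * v) := by
    linear_combination h + l3 * huv
  have hp1 : Prime l1 := prime_sub hr1.1.symm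
  have hnd : ¬ l1 ∣ l2 := by
    apply not_dvd_sub hr2.2.1.symm
    · rintro ⟨h3, -⟩
      exact h12 h3.symm
    · rintro ⟨h3, -⟩
      exact hr1.2.1 h3.symm
  obtain ⟨w, hw⟩ : l1 ∣ c13 - l3 * v :=
    (hp1.dvd_or_dvd (Dvd.intro _ h2)).resolve_left hnd
  have h3 : c23 + l3 * u = l2 * w := by
    apply mul_left_cancel₀ hp1.ne_zero
    rw [h2, hw]; ring
  refine ⟨v, -u, -w, ?_, ?_, ?_⟩
  · linear_combination -huv
  · linear_combination hw
  · linear_combination h3

end Pool.Agent.Lib.MP_463376_co.StrA
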