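import Pool.Agent.Lib.MP_463376_co.A_Ideal

/-!
# Stream A: states
-/

set_option autoImplicit false

namespace Pool.Agent.Lib.MP_463376_co.StrA

open MvPolynomial

/-- polynomials in `x` with coefficients in `k[y]` -/
abbrev WW (k : Type) [Field k] (ι : Type) : Type := MvPolynomial ι (BB k ι)

variable {k : Type} [Field k] {ι : Type} [DecidableEq ι]

/-- `x_i` if `i` is alive and `0` otherwise -/
noncomputable def xp (k : Type) [Field k] {ι : Type} [DecidableEq ι] (S : Finset ι) (i : ι) :
    WW k ι := if i ∈ S then X i else 0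

/-- the ideal of a pair -/
noncomputable def PI (k : Type) [Field k] {ι : Type} [DecidableEq ι] (S : Finset ι) (i j : ι) :
    Ideal (WW k ι) := Ideal.span {xp k S i - xp k S j, C (X i - X j)}

theorem PI_symm (S : Finset ι) (i j : ι) : PI k S i j = PI k S j i := by
  have key : ∀ i j : ι, PI k S i j ≤ PI k S j i := by
    intro i j
    unfold PI
    rw [Ideal.span_le]
    rintro x (rfl | rfl)
    · rw [← neg_sub (xp k S j)]
      exact neg_mem (Ideal.subset_span (Set.mem_insert _ _))
    · rw [← neg_sub (X j : BB k ι), C_neg]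
      exact neg_mem (Ideal.subset_span (Set.mem_insert_of_mem _ rfl))
  exact le_antisymm (key i j) (key j i)

theorem mem_PI_AR {S : Finset ι} {i j : ι} (hi : i ∈ S) (hj : j ∉ S) (a : ℕ) (f : WW k ι) :
    f ∈ PI k S i j ^ a ↔ ∀ l, (X i - X j) ^ (a - l i) ∣ coeff l f := by
  unfold PI xp
  rw [if_pos hi, if_neg hj, sub_zero, mem_span_pow_iff]

theorem mem_PI_RR {S : Finset ι} {i j : ι} (hi : i ∉ S) (hj : j ∉ S) (a : ℕ) (f : WW k ι) :
    f ∈ PI k S i j ^ a ↔ ∀ l, (X i - X j) ^ a ∣ coeff l f := by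
  unfold PI xp
  rw [if_neg hi, if_neg hj, sub_zero, mem_span_zero_pow_iff]

theorem mem_PI_AA {S : Finset ι} {i j : ι} (hij : i ≠ j) (hi : i ∈ S) (hj : j ∈ S) (a : ℕ)
    (f : WW k ι) :
    f ∈ PI k S i j ^ a ↔ ∀ l, (X i - X j) ^ (a - l i) ∣ coeff l (tr 1 i j f) := by
  unfold PI xp
  rw [if_pos hi, if_pos hj, mem_span_sub_pow_iff hij]

omit [DecidableEq ι] in
theorem coeff_smul' (c : BB k ι) (f : WW k ι) (l : ι →₀ ℕ) : coeff l (c • f) = c * coeff l f := by
  rw [coeff_smul, smul_eq_mul]

/-- Cancellation of polynomials in `y` prime to `y_ij`. -/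
theorem PI_cancel {S : Finset ι} {i j : ι} (hij : i ≠ j) {a : ℕ} {c : BB k ι}
    (hc : ¬ (X i - X j) ∣ c) {f : WW k ι} (h : c • f ∈ PI k S i j ^ a) :
    f ∈ PI k S i j ^ a := by
  have hp := prime_sub (k := k) hij
  by_cases hi : i ∈ S <;> by_cases hj : j ∈ S
  · rw [mem_PI_AA hij hi hj] at h ⊢
    intro l
    have := h l
    rw [map_smul, coeff_smul'] at this
    exact hp.pow_dvd_of_dvd_mul_left _ hc this
  · rw [mem_PI_AR hi hj] at h ⊢
    intro l
    have := h l
    rw [coeff_smul'] at this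
    exact hp.pow_dvd_of_dvd_mul_left _ hc this
  · rw [PI_symm, mem_PI_AR hj hi] at h ⊢
    intro l
    have := h l
    rw [coeff_smul'] at this
    refine (prime_sub (k := k) hij.symm).pow_dvd_of_dvd_mul_left _ ?_ this
    rwa [← neg_sub, neg_dvd]
  · rw [mem_PI_RR hi hj] at h ⊢
    intro l
    have := h l
    rw [coeff_smul'] at this
    exact hp.pow_dvd_of_dvd_mul_left _ hc this

omit [DecidableEq ι] in
theorem coeff_X_mul_add (m : ι) (f : WW k ι) (l : ι →₀ ℕ) :
    coeff (l + Finsupp.single m 1) (X m * f) = coeff l f := by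
  rw [mul_comm, coeff_mul_X]

/-- Cancellation of `x_m` outside the ideals containing it. -/
theorem PI_X_cancel {S : Finset ι} {i j m : ι} (hij : i ≠ j)
    (h1 : ¬(i = m ∧ j ∉ S)) (h2 : ¬(j = m ∧ i ∉ S)) {a : ℕ} {f : WW k ι}
    (h : X m * f ∈ PI k S i j ^ a) : f ∈ PI k S i j ^ a := by
  have hAA : ∀ i j : ι, i ≠ j → i ∈ S → j ∈ S → i ≠ m → X m * f ∈ PI k S i j ^ a →
      f ∈ PI k S i j ^ a := by
    intro i j hij hi hj him h
    rw [mem_PI_AA hij hi hj] at h ⊢
    intro l
    have h3 := h (l + Finsupp.single m 1)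
    rw [map_mul, tr_X, if_neg him.symm, coeff_X_mul_add, Finsupp.add_apply,
      Finsupp.single_eq_of_ne him, add_zero] at h3
    exact h3
  have hAR : ∀ i j : ι, i ≠ j → i ∈ S → j ∉ S → i ≠ m → X m * f ∈ PI k S i j ^ a →
      f ∈ PI k S i j ^ a := by
    intro i j hij hi hj him h
    rw [mem_PI_AR hi hj] at h ⊢
    intro l
    have h3 := h (l + Finsupp.single m 1)
    rw [coeff_X_mul_add, Finsupp.add_apply, Finsupp.single_eq_of_ne him, add_zero] at h3
    exact h3
  by_cases hi : i ∈ S <;> by_cases hj : j ∈ S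
  · by_cases him : i = m
    · subst him
      rw [PI_symm] at h ⊢
      exact hAA j i hij.symm hj hi hij.symm h
    · exact hAA i j hij hi hj him h
  · exact hAR i j hij hi hj (fun h3 => h1 ⟨h3, hj⟩) h
  · rw [PI_symm] at h ⊢
    exact hAR j i hij.symm hj hi (fun h3 => h2 ⟨h3, hi⟩) h
  · rw [mem_PI_RR hi hj] at h ⊢
    intro l
    have h3 := h (l + Finsupp.single m 1)
    rw [coeff_X_mul_add] at h3
    exact h3

/-- Division by `x_m` inside the ideals containing it. -/
theorem PI_X_iff {S : Finset ι} {j m : ι} (hm : m ∈ S) (hj : j ∉ S) {a : ℕ} {f : WW k ι} :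
    X m * f ∈ PI k S m j ^ a ↔ f ∈ PI k S m j ^ (a - 1) := by
  constructor
  · intro h
    rw [mem_PI_AR hm hj] at h ⊢
    intro l
    have h3 := h (l + Finsupp.single m 1)
    rw [coeff_X_mul_add, Finsupp.add_apply, Finsupp.single_eq_same] at h3
    rwa [show a - 1 - l m = a - (l m + 1) by omega]
  · intro h
    rcases Nat.eq_zero_or_pos a with ha | ha
    · subst ha; simp
    · have h3 : (X m : WW k ι) ∈ PI k S m j := by
        have : xp k S m - xp k S j = X m := by
          unfold xp; rw [if_pos hm, if_neg hj, sub_zero]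
        rw [← this]
        exact Ideal.subset_span (Set.mem_insert _ _)
      have h4 := Ideal.mul_mem_mul h3 h
      rw [← pow_succ', Nat.sub_add_cancel ha] at h4
      exact h4

/-- setting `x_m = 0` -/
noncomputable def kl (m : ι) : WW k ι →ₐ[BB k ι] WW k ι :=
  aeval fun p => if p = m then 0 else X p

theorem kl_X (m p : ι) : kl (k := k) m (X p) = if p = m then 0 else X p := by
  simp [kl]

theorem kl_monomial (m : ι) (l : ι →₀ ℕ) (b : BB k ι) :
    kl m (monomial l b) = if l m = 0 then monomial l b else 0 := by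
  unfold kl
  rw [aeval_monomial]
  split_ifs with h
  · rw [monomial_eq, algebraMap_eq]
    congr 1
    refine Finsupp.prod_congr fun p hp => ?_
    have : p ≠ m := by
      rintro rfl
      exact (Finsupp.mem_support_iff.1 hp) h
    rw [if_neg this]
  · have hm : m ∈ l.support := Finsupp.mem_support_iff.2 h
    rw [Finsupp.prod, Finset.prod_eq_zero hm, mul_zero]
    rw [if_pos rfl, zero_pow h]

theorem coeff_kl (m : ι) (f : WW k ι) (l : ι →₀ ℕ) :
    coeff l (kl m f) = if l m = 0 then coeff l f else 0 := by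
  induction f using MvPolynomial.induction_on' with
  | monomial u b =>
    rw [kl_monomial]
    by_cases h : u = l
    · subst h
      split_ifs <;> simp
    · split_ifs <;> simp [coeff_monomial, h]
  | add p q hp hq =>
    rw [map_add, coeff_add, hp, hq, coeff_add]
    split_ifs <;> simp

theorem kl_xp (S : Finset ι) (m i : ι) : kl m (xp k S i) = xp k (S.erase m) i := by
  unfold xp
  by_cases hi : i ∈ S
  · rw [if_pos hi, kl_X]
    by_cases him : i = m
    · subst him
      simp
    · rw [if_neg him, if_pos (Finset.mem_erase.2 ⟨him, hi⟩)]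
  · rw [if_neg hi, map_zero, if_neg (fun h => hi (Finset.mem_of_mem_erase h))]

theorem kl_C (m : ι) (b : BB k ι) : kl m (C b : WW k ι) = C b := by
  unfold kl
  rw [algHom_C, algebraMap_eq]

theorem kl_PI {S : Finset ι} {i j m : ι} {a : ℕ} {f : WW k ι} (h : f ∈ PI k S i j ^ a) :
    kl m f ∈ PI k (S.erase m) i j ^ a := by
  have h1 := Ideal.mem_map_of_mem (kl (k := k) m) h
  unfold PI at h1 ⊢
  rw [Ideal.map_pow, Ideal.map_span, Set.image_pair, map_sub, kl_xp, kl_xp, kl_C] at h1
  exact h1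

theorem exists_X_mul {m : ι} {f : WW k ι} (h : kl m f = 0) : ∃ g, f = X m * g := by
  have h1 : (X m : WW k ι) ∣ f := by
    rw [X_dvd_iff_modMonomial_eq_zero]
    ext1 l
    by_cases hl : Finsupp.single m 1 ≤ l
    · rw [coeff_modMonomial_of_le _ hl, coeff_zero]
    · rw [coeff_modMonomial_of_not_le _ hl, coeff_zero]
      have hl0 : l m = 0 := by
        by_contra hcon
        apply hl
        intro p
        by_cases hp : p = m
        · subst hp
          rw [Finsupp.single_eq_same]; omega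
        · rw [Finsupp.single_eq_of_ne hp]; exact Nat.zero_le _
      have h2 := coeff_kl m f l
      rw [if_pos hl0, h, coeff_zero] at h2
      exact h2.symm
  exact h1

/-- The module of a state. -/
noncomputable def NN (k : Type) [Field k] {ι : Type} [DecidableEq ι] (S : Finset ι)
    (a : ι → ι → ℕ) : Submodule (BB k ι) (WW k ι) where
  carrier := {f | (∀ l, coeff l f ≠ 0 → ∀ i ∉ S, l i = 0) ∧
    ∀ i j, i ≠ j → f ∈ PI k S i j ^ (a i j)}
  zero_mem' := ⟨fun l h => absurd (coeff_zero l) h, fun i j _ => zero_mem _⟩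
  add_mem' := by
    rintro f g ⟨h1, h2⟩ ⟨h3, h4⟩
    refine ⟨fun l hl => ?_, fun i j hij => add_mem (h2 i j hij) (h4 i j hij)⟩
    rw [coeff_add] at hl
    by_cases hf : coeff l f = 0
    · rw [hf, zero_add] at hl
      exact h3 l hl
    · exact h1 l hf
  smul_mem' := by
    rintro c f ⟨h1, h2⟩
    refine ⟨fun l hl => ?_, fun i j hij => ?_⟩
    · rw [coeff_smul'] at hl
      exact h1 l (right_ne_zero_of_mul hl)
    · rw [smul_eq_C_mul]
      exact Ideal.mul_mem_left _ _ (h2 i j hij)

theorem mem_NN {S : Finset ι} {a : ι → ι → ℕ} {f : WW k ι} :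
    f ∈ NN k S a ↔ (∀ l, coeff l f ≠ 0 → ∀ i ∉ S, l i = 0) ∧
    ∀ i j, i ≠ j → f ∈ PI k S i j ^ (a i j) := Iff.rfl

/-- The module of the polynomials of degree `e` in the `x`. -/
noncomputable def HH (k : Type) [Field k] (ι : Type) (e : ℕ) : Submodule (BB k ι) (WW k ι) :=
  homogeneousSubmodule ι (BB k ι) e

omit [DecidableEq ι] in
theorem mem_HH {e : ℕ} {f : WW k ι} : f ∈ HH k ι e ↔ ∀ l, coeff l f ≠ 0 → l.degree = e := by
  unfold HH
  rw [mem_homogeneousSubmodule]
  unfold IsHomogeneous IsWeightedHomogeneous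
  have h : (Finsupp.weight (1 : ι → ℕ) : (ι →₀ ℕ) →+ ℕ) = Finsupp.degree :=
    Finsupp.degree_eq_weight_one.symm
  rw [h]

/-- The new exponents after a division by `x_m`. -/
def am (S : Finset ι) (a : ι → ι → ℕ) (m : ι) (i j : ι) : ℕ :=
  if (i = m ∧ j ∉ S) ∨ (j = m ∧ i ∉ S) then a i j - 1 else a i j

/-- Division by `x_m`. -/
theorem X_mul_mem_NN {S : Finset ι} {a : ι → ι → ℕ} {m : ι} (hm : m ∈ S) {f : WW k ι} :
    X m * f ∈ NN k S a ↔ f ∈ NN k S (am S a m) := by
  rw [mem_NN, mem_NN]
  constructor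
  · rintro ⟨h1, h2⟩
    constructor
    · intro l hl i hi
      have h3 := h1 (l + Finsupp.single m 1) (by rwa [coeff_X_mul_add]) i hi
      rw [Finsupp.add_apply] at h3
      omega
    · intro i j hij
      have h3 := h2 i j hij
      unfold am
      split_ifs with hc
      · rcases hc with ⟨rfl, hj⟩ | ⟨rfl, hi⟩
        · rwa [PI_X_iff hm hj] at h3
        · rw [PI_symm, PI_X_iff hm hi] at h3
          rwa [PI_symm]
      · push Not at hc
        exact PI_X_cancel hij (fun h => h.2 (hc.1 h.1)) (fun h => h.2 (hc.2 h.1)) h3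
  · rintro ⟨h1, h2⟩
    constructor
    · intro l hl i hi
      rw [mul_comm, coeff_mul_X'] at hl
      split_ifs at hl with hml
      · have h3 := h1 _ hl i hi
        have him : i ≠ m := fun h => hi (by rw [h]; exact hm)
        rw [Finsupp.tsub_apply, Finsupp.single_eq_of_ne him, Nat.sub_zero] at h3
        exact h3
      · exact absurd rfl hl
    · intro i j hij
      have h3 := h2 i j hij
      unfold am at h3
      split_ifs at h3 with hc
      · rcases hc with ⟨rfl, hj⟩ | ⟨rfl, hi⟩
        · rwa [PI_X_iff hm hj]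
        · rw [PI_symm] at h3
          rwa [PI_symm, PI_X_iff hm hi]
      · exact Ideal.mul_mem_left _ _ h3

theorem kl_mem_NN {S : Finset ι} {a : ι → ι → ℕ} {m : ι} {f : WW k ι} (h : f ∈ NN k S a) :
    kl m f ∈ NN k (S.erase m) a := by
  rw [mem_NN] at h ⊢
  refine ⟨fun l hl i hi => ?_, fun i j hij => kl_PI (h.2 i j hij)⟩
  rw [coeff_kl] at hl
  split_ifs at hl with h0
  · by_cases him : i = m
    · subst him; exact h0
    · exact h.1 l hl i (fun h3 => hi (Finset.mem_erase.2 ⟨him, h3⟩))
  · exact absurd rfl hl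

theorem kl_mem_HH {m : ι} {e : ℕ} {f : WW k ι} (h : f ∈ HH k ι e) : kl m f ∈ HH k ι e := by
  rw [mem_HH] at h ⊢
  intro l hl
  rw [coeff_kl] at hl
  split_ifs at hl with h0
  · exact h l hl
  · exact absurd rfl hl

end Pool.Agent.Lib.MP_463376_co.StrA
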