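import Pool.Agent.Lib.MP_463376_co.A_Lift

/-!
# Stream A: surjectivity
-/

set_option autoImplicit false

namespace Pool.Agent.Lib.MP_463376_co.StrA

open MvPolynomial

variable {k : Type} [Field k] {ι : Type} [DecidableEq ι]

/-- the class of `m` is `{m, i, j}` with `i` alive and `j` removed -/
theorem lift_mixed {S : Finset ι} {a : ι → ι → ℕ} {m i j : ι} (hm : m ∈ S)
    (ha : ∀ i j, a i j = a j i) (hi : i ∈ S) (hj : j ∉ S) (him : i ≠ m)
    (hstar : a i j ≤ a m j) {ρ : ι → ι} (hρi : ρ i = m) (hρj : ρ j = m)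
    (hfix : ∀ p, p ≠ i → p ≠ j → ρ p = p) {v : WW k ι} (hv : v ∈ NN k (S.erase m) a) :
    ∃ w ∈ NL k S a (fun i j => ρ i = ρ j), kl m w = v := by
  have hjm : j ≠ m := fun h => hj (by rw [h]; exact hm)
  have hij : i ≠ j := fun h => hj (by rw [← h]; exact hi)
  have hiE : i ∈ S.erase m := Finset.mem_erase.2 ⟨him, hi⟩
  have hjE : j ∉ S.erase m := fun h => hj (Finset.mem_of_mem_erase h)
  have hmE : m ∉ S.erase m := Finset.notMem_erase m S
  rw [mem_NN] at hv
  have key : v ∈ (NL k S a (fun i j => ρ i = ρ j)).map (kl m).toLinearMap := by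
    rw [v.as_sum]
    apply Submodule.sum_mem
    intro l hl
    have hl' : coeff l v ≠ 0 := mem_support_iff.1 hl
    have d1 : (X m - X j) ^ (a m j) ∣ coeff l v := by
      have := hv.2 m j hjm.symm
      rw [mem_PI_RR hmE hjE] at this
      exact this l
    have d2 : (X i - X m) ^ (a i m - l i) ∣ coeff l v := by
      have := hv.2 i m him
      rw [mem_PI_AR hiE hmE] at this
      exact this l
    have d3 : (X i - X j) ^ (a i j - l i) ∣ coeff l v := by
      have := hv.2 i j hij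
      rw [mem_PI_AR hiE hjE] at this
      exact this l
    have r12 : IsRelPrime ((X m - X j : BB k ι) ^ (a m j)) ((X i - X m) ^ (a i m - l i)) := by
      apply isRelPrime_sub hjm.symm him
      · rintro ⟨h, -⟩; exact him h
      · rintro ⟨h, -⟩; exact hij h
    have r13 : IsRelPrime ((X m - X j : BB k ι) ^ (a m j)) ((X i - X j) ^ (a i j - l i)) := by
      apply isRelPrime_sub hjm.symm hij
      · rintro ⟨h, -⟩; exact him h
      · rintro ⟨h, -⟩; exact hij h
    have r23 : IsRelPrime ((X i - X m : BB k ι) ^ (a i m - l i)) ((X i - X j) ^ (a i j - l i)) := by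
      apply isRelPrime_sub him hij
      · rintro ⟨-, h⟩; exact hjm h
      · rintro ⟨h, -⟩; exact him h
    obtain ⟨h, hh⟩ := (IsRelPrime.mul_left r13 r23).mul_dvd (r12.mul_dvd d1 d2) d3
    obtain ⟨w, w1, w2, w3, w4, w5⟩ := lift_mixed_monomial hm hi hj him hstar l
      (fun p hp => hv.1 l hl' p hp) h
    refine ⟨w, ⟨supp_iff.2 w1, ?_⟩, ?_⟩
    · intro p q hpq hr
      have hr' : ρ p = ρ q := hr
      have hcl : ∀ p, ρ p = m → p = m ∨ p = i ∨ p = j := by
        intro p hp
        by_contra hc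
        push Not at hc
        exact hc.1 (by rw [← hfix p hc.2.1 hc.2.2, hp])
      have hpm : ρ p = m := by
        by_contra hc
        have h1 : ρ p = p := hfix p (fun h => hc (by rw [h, hρi])) (fun h => hc (by rw [h, hρj]))
        have h2 : ρ q = q := hfix q (fun h => hc (by rw [hr', h, hρi]))
          (fun h => hc (by rw [hr', h, hρj]))
        exact hpq (by rw [← h1, ← h2, hr'])
      have hqm : ρ q = m := by rw [← hr', hpm]
      rcases hcl p hpm with h1 | h1 | h1 <;> rcases hcl q hqm with h2 | h2 | h2 <;>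
        rw [h1, h2]
      · exact absurd (by rw [h1, h2]) hpq
      · rw [PI_symm, ha]; exact w3
      · exact w2
      · exact w3
      · exact absurd (by rw [h1, h2]) hpq
      · exact w4
      · rw [PI_symm, ha]; exact w2
      · rw [PI_symm, ha]; exact w4
      · exact absurd (by rw [h1, h2]) hpq
    · show kl m w = _
      rw [w5, hh]
  obtain ⟨w, h1, h2⟩ := key
  exact ⟨w, h1, h2⟩

/-- Local lifts. -/
theorem lift_local {S : Finset ι} {a : ι → ι → ℕ} {m : ι} (hm : m ∈ S)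
    (ha : ∀ i j, a i j = a j i) (hstar : ∀ i ∈ S, ∀ j ∉ S, a i j ≤ a m j) {ρ : ι → ι}
    (hρm : ρ m = m)
    (h3 : ¬ ∃ i₁ i₂ i₃, i₁ ≠ i₂ ∧ i₁ ≠ i₃ ∧ i₂ ≠ i₃ ∧ ρ i₁ ≠ i₁ ∧ ρ i₂ ≠ i₂ ∧ ρ i₃ ≠ i₃)
    {v : WW k ι} (hv : v ∈ NN k (S.erase m) a) :
    ∃ w ∈ NL k S a (fun i j => ρ i = ρ j), kl m w = v := by
  by_cases hB1 : ∀ p ∈ S, p ≠ m → ρ p ≠ m
  · refine ⟨v, lift_dead hm hρm hB1 hv, ?_⟩
    exact supp_iff.1 hv.1 m (Finset.notMem_erase m S)
  by_cases hB2 : ∀ p ∉ S, ρ p ≠ m
  · exact lift_alive hm hρm hB2 hv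
  push Not at hB1 hB2
  obtain ⟨i, hi, him, hρi⟩ := hB1
  obtain ⟨j, hj, hρj⟩ := hB2
  have hjm : j ≠ m := fun h => hj (by rw [h]; exact hm)
  have hij : i ≠ j := fun h => hj (by rw [← h]; exact hi)
  refine lift_mixed hm ha hi hj him (hstar i hi j hj) hρi hρj ?_ hv
  intro p hpi hpj
  by_contra hc
  exact h3 ⟨i, j, p, hij, hpi.symm, hpj.symm, by rw [hρi]; exact him.symm,
    by rw [hρj]; exact hjm.symm, hc⟩

/-! ### homogeneous components -/

section
attribute [local instance] MvPolynomial.gradedAlgebra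

omit [DecidableEq ι] in
theorem isHomogeneous_pow {I : Ideal (WW k ι)}
    (h : I.IsHomogeneous (homogeneousSubmodule ι (BB k ι))) (n : ℕ) :
    (I ^ n).IsHomogeneous (homogeneousSubmodule ι (BB k ι)) := by
  induction n with
  | zero => rw [pow_zero, Ideal.one_eq_top]; exact Ideal.IsHomogeneous.top _
  | succ n ih => rw [pow_succ]; exact ih.mul h

theorem PI_homogeneous (S : Finset ι) (i j : ι) :
    (PI k S i j).IsHomogeneous (homogeneousSubmodule ι (BB k ι)) := by
  unfold PI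
  apply Ideal.homogeneous_span
  have hx : ∀ p, xp k S p ∈ homogeneousSubmodule ι (BB k ι) 1 := by
    intro p
    unfold xp
    split_ifs
    · exact isHomogeneous_X _ _
    · exact zero_mem _
  rintro x (rfl | rfl)
  · exact ⟨1, Submodule.sub_mem _ (hx i) (hx j)⟩
  · exact ⟨0, isHomogeneous_C _ _⟩

theorem component_mem_PI {S : Finset ι} {i j : ι} {n : ℕ} {f : WW k ι}
    (h : f ∈ PI k S i j ^ n) (e : ℕ) : homogeneousComponent e f ∈ PI k S i j ^ n :=
  homogeneousComponent_mem_of_mem (isHomogeneous_pow (PI_homogeneous S i j) n) h e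

end

theorem component_mem_NN {S : Finset ι} {a : ι → ι → ℕ} {f : WW k ι} (h : f ∈ NN k S a) (e : ℕ) :
    homogeneousComponent e f ∈ NN k S a ⊓ HH k ι e := by
  rw [mem_NN] at h
  refine ⟨⟨fun l hl => ?_, fun i j hij => component_mem_PI (h.2 i j hij) e⟩,
    homogeneousComponent_isHomogeneous e f⟩
  rw [coeff_homogeneousComponent] at hl
  split_ifs at hl with h0
  · exact h.1 l hl
  · exact absurd rfl hl

theorem kl_component (m : ι) (e : ℕ) (f : WW k ι) :
    kl m (homogeneousComponent e f) = homogeneousComponent e (kl m f) := by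
  ext1 l
  rw [coeff_kl, coeff_homogeneousComponent, coeff_homogeneousComponent, coeff_kl]
  split_ifs <;> rfl

omit [DecidableEq ι] in
theorem component_of_mem_HH {e : ℕ} {f : WW k ι} (h : f ∈ HH k ι e) :
    homogeneousComponent e f = f := by
  ext1 l
  rw [coeff_homogeneousComponent]
  split_ifs with h0
  · rfl
  · by_contra hc
    exact h0 (mem_HH.1 h l (fun h' => hc h'.symm))

/-- An element of `Q'` outside `Q` with prime annihilator modulo `Q`. -/
theorem exists_prime_ann {R M : Type} [CommRing R] [IsNoetherianRing R] [AddCommGroup M]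
    [Module R M] (Q Q' : Submodule R M) {v0 : M} (h0 : v0 ∈ Q') (h0' : v0 ∉ Q) :
    ∃ P : Ideal R, P.IsPrime ∧ ∃ v ∈ Q', ∀ b : R, b ∈ P ↔ b • v ∈ Q := by
  have hx : (Submodule.Quotient.mk ⟨v0, h0⟩ : Q' ⧸ (Q.comap Q'.subtype)) ≠ 0 := by
    intro h
    rw [Submodule.Quotient.mk_eq_zero] at h
    exact h0' h
  obtain ⟨P, hP, -⟩ := exists_le_isAssociatedPrime_of_isNoetherianRing R _ hx
  obtain ⟨hPp, x', hx'⟩ := (isAssociatedPrime_iff.1 hP)
  obtain ⟨⟨v, hv⟩, rfl⟩ := Submodule.Quotient.mk_surjective _ x'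
  refine ⟨P, hPp, v, hv, fun b => ?_⟩
  rw [hx', Submodule.mem_colon_singleton, Submodule.mem_bot, ← Submodule.Quotient.mk_smul,
    Submodule.Quotient.mk_eq_zero]
  rfl

/-- LEMMA 1 (surjectivity) -/
theorem surj [Fintype ι] {S : Finset ι} {a : ι → ι → ℕ} {m : ι} {e : ℕ} (hm : m ∈ S)
    (ha : ∀ i j, a i j = a j i) (hstar : ∀ i ∈ S, ∀ j ∉ S, a i j ≤ a m j)
    (hK : Koz ((NN k S a ⊓ HH k ι e) ⊓ LinearMap.ker (kl (k := k) m).toLinearMap)) :
    NN k (S.erase m) a ⊓ HH k ι e ≤ (NN k S a ⊓ HH k ι e).map (kl (k := k) m).toLinearMap := by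
  classical
  set Q := (NN k S a ⊓ HH k ι e).map (kl (k := k) m).toLinearMap with hQ
  set Q' := NN k (S.erase m) a ⊓ HH k ι e with hQ'
  have hQle : Q ≤ Q' := by
    rintro _ ⟨f, ⟨h1, h2⟩, rfl⟩
    exact ⟨kl_mem_NN h1, kl_mem_HH h2⟩
  by_contra hcon
  obtain ⟨v0, hv0, hv0'⟩ := Set.not_subset.1 hcon
  -- an element with prime annihilator
  obtain ⟨P, hPp, v, hv, hPmem⟩ := exists_prime_ann Q Q' hv0 hv0'
  have h1P : (1 : BB k ι) ∉ P := fun h => hPp.ne_top ((Ideal.eq_top_iff_one P).2 h)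
  -- the equivalence relation
  let s : Setoid ι :=
    { r := fun i j => (X i - X j : BB k ι) ∈ P
      iseqv := by
        refine ⟨fun i => by simp, fun {i j} h => ?_, fun {i j l} h h' => ?_⟩
        · rw [← neg_sub]; exact P.neg_mem h
        · have := P.add_mem h h'
          rwa [sub_add_sub_cancel] at this }
  obtain ⟨ρ, hρ⟩ : ∃ ρ : ι → ι, ρ = fun i => if (X i - X m : BB k ι) ∈ P then m
    else (Quotient.out (Quotient.mk s i)) := ⟨_, rfl⟩
  have hout : ∀ i, (X (Quotient.out (Quotient.mk s i)) - X i : BB k ι) ∈ P :=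
    fun i => Quotient.mk_out (s := s) i
  have hρP : ∀ i, (X i - X (ρ i) : BB k ι) ∈ P := by
    intro i
    rw [hρ]
    dsimp only
    split_ifs with h
    · exact h
    · rw [← neg_sub]; exact P.neg_mem (hout i)
  have hρm : ρ m = m := by
    rw [hρ]; dsimp only; rw [if_pos (by simp)]
  have hρiff : ∀ i j, ρ i = ρ j ↔ (X i - X j : BB k ι) ∈ P := by
    intro i j
    constructor
    · intro h
      have h1 := hρP i
      have h2 := hρP j
      rw [← h] at h2
      have := P.sub_mem h1 h2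
      rwa [sub_sub_sub_cancel_right] at this
    · intro h
      rw [hρ]
      dsimp only
      by_cases h1 : (X i - X m : BB k ι) ∈ P
      · have h2 : (X j - X m : BB k ι) ∈ P := by
          have := P.sub_mem h1 h
          rwa [sub_sub_sub_cancel_left] at this
        rw [if_pos h1, if_pos h2]
      · have h2 : (X j - X m : BB k ι) ∉ P := by
          intro h2
          apply h1
          have := P.add_mem h h2
          rwa [sub_add_sub_cancel] at this
        rw [if_neg h1, if_neg h2]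
        congr 1
        exact Quotient.sound (s := s) h
  have hρρ : ∀ i, ρ (ρ i) = ρ i := by
    intro i
    rw [hρiff, ← neg_sub]
    exact P.neg_mem (hρP i)
  by_cases h3 : ∃ i₁ i₂ i₃, i₁ ≠ i₂ ∧ i₁ ≠ i₃ ∧ i₂ ≠ i₃ ∧ ρ i₁ ≠ i₁ ∧ ρ i₂ ≠ i₂ ∧ ρ i₃ ≠ i₃
  · -- Case A
    obtain ⟨i₁, i₂, i₃, h12, h13, h23, n1, n2, n3⟩ := h3
    have hne : ∀ p q, ρ q ≠ q → ρ p ≠ q := by
      intro p q hq h
      apply hq
      rw [← h, hρρ]
    have hI : Ind3 i₁ i₂ i₃ (ρ i₁) (ρ i₂) (ρ i₃) :=
      ⟨h12, h13, h23, ⟨n1, hne _ _ n2, hne _ _ n3⟩, ⟨hne _ _ n1, n2, hne _ _ n3⟩,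
        ⟨hne _ _ n1, hne _ _ n2, n3⟩⟩
    set l1 : BB k ι := X i₁ - X (ρ i₁) with hl1
    set l2 : BB k ι := X i₂ - X (ρ i₂) with hl2
    set l3 : BB k ι := X i₃ - X (ρ i₃) with hl3
    obtain ⟨f1, m1, e1⟩ := (hPmem l1).1 (hρP i₁)
    obtain ⟨f2, m2, e2⟩ := (hPmem l2).1 (hρP i₂)
    obtain ⟨f3, m3, e3⟩ := (hPmem l3).1 (hρP i₃)
    set M := NN k S a ⊓ HH k ι e with hM
    set φ := (kl (k := k) m).toLinearMap with hφ
    obtain ⟨d1, q1, d2, q2, -, -, g1, -, -⟩ := hK _ _ _ _ _ _ hI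
      (l2 • f1 - l1 • f2) ⟨M.sub_mem (M.smul_mem _ m1) (M.smul_mem _ m2), by
        rw [SetLike.mem_coe, LinearMap.mem_ker, map_sub, map_smul, map_smul, e1, e2, smul_smul,
          smul_smul, mul_comm, sub_self]⟩
      (l3 • f1 - l1 • f3) ⟨M.sub_mem (M.smul_mem _ m1) (M.smul_mem _ m3), by
        rw [SetLike.mem_coe, LinearMap.mem_ker, map_sub, map_smul, map_smul, e1, e3, smul_smul,
          smul_smul, mul_comm, sub_self]⟩
      (l3 • f2 - l2 • f3) ⟨M.sub_mem (M.smul_mem _ m2) (M.smul_mem _ m3), by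
        rw [SetLike.mem_coe, LinearMap.mem_ker, map_sub, map_smul, map_smul, e2, e3, smul_smul,
          smul_smul, mul_comm, sub_self]⟩
      (by
        simp only [smul_sub, smul_smul]
        rw [mul_comm l3 l2, mul_comm l1 l3, mul_comm l2 l1]
        abel)
    have hcross : l2 • (f1 - d1) = l1 • (f2 - d2) := by
      rw [smul_sub, smul_sub]
      rw [← sub_eq_zero]
      have : l2 • f1 - l2 • d1 - (l1 • f2 - l1 • d2) =
          (l2 • f1 - l1 • f2) - (l2 • d1 - l1 • d2) := by abel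
      rw [this, ← g1, sub_self]
    have hp1 : Prime l1 := prime_sub hI.hr1.1.symm
    have hnd : ¬ l1 ∣ l2 := by
      apply not_dvd_sub hI.hr2.2.1.symm
      · rintro ⟨h, -⟩; exact h12 h.symm
      · rintro ⟨h, -⟩; exact hI.hr1.2.1 h.symm
    have hdv : C l1 ∣ (f1 - d1) := by
      rw [C_dvd_iff_dvd_coeff]
      intro l
      have h1 := congrArg (coeff l) hcross
      rw [coeff_smul', coeff_smul'] at h1
      exact (hp1.dvd_or_dvd (Dvd.intro _ h1.symm)).resolve_left hnd
    obtain ⟨w, hw⟩ := hdv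
    have hw1 : f1 - d1 = l1 • w := by rw [hw, smul_eq_C_mul]
    have hw2 : f2 - d2 = l2 • w := by
      have h1 : l1 • (f2 - d2) = l1 • (l2 • w) := by
        rw [← hcross, hw1, smul_smul, smul_smul, mul_comm]
      rw [smul_eq_C_mul, smul_eq_C_mul] at h1
      exact mul_left_cancel₀ (by rw [Ne, C_eq_zero]; exact hp1.ne_zero) h1
    have n1' : l1 • w ∈ M := by rw [← hw1]; exact M.sub_mem m1 q1.1
    have n2' : l2 • w ∈ M := by rw [← hw2]; exact M.sub_mem m2 q2.1
    have hwM : w ∈ M := by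
      refine ⟨⟨fun l hl => ?_, fun i j hij => ?_⟩, ?_⟩
      · apply n1'.1.1 l
        rw [coeff_smul']
        exact mul_ne_zero hp1.ne_zero hl
      · by_cases hd1 : (X i - X j) ∣ l1
        · have hd2 : ¬ (X i - X j) ∣ l2 := by
            intro hd2
            -- both equal `± (X i - X j)`
            have c1 : (i₁ = i ∧ ρ i₁ = j) ∨ (i₁ = j ∧ ρ i₁ = i) := by
              by_contra hc
              push Not at hc
              exact not_dvd_sub hI.hr1.1.symm (fun h => hc.1 h.1 h.2) (fun h => hc.2 h.1 h.2) hd1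
            have c2 : (i₂ = i ∧ ρ i₂ = j) ∨ (i₂ = j ∧ ρ i₂ = i) := by
              by_contra hc
              push Not at hc
              exact not_dvd_sub hI.hr2.2.1.symm (fun h => hc.1 h.1 h.2) (fun h => hc.2 h.1 h.2) hd2
            rcases c1 with ⟨c1, c1'⟩ | ⟨c1, c1'⟩ <;> rcases c2 with ⟨c2, c2'⟩ | ⟨c2, c2'⟩
            · exact h12 (by rw [c1, c2])
            · exact hI.hr1.2.1 (by rw [c1', c2])
            · exact hI.hr1.2.1 (by rw [c1', c2])
            · exact h12 (by rw [c1, c2])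
          exact PI_cancel hij hd2 (n2'.1.2 i j hij)
        · exact PI_cancel hij hd1 (n1'.1.2 i j hij)
      · rw [SetLike.mem_coe, mem_HH]
        intro l hl
        apply mem_HH.1 n1'.2 l
        rw [coeff_smul']
        exact mul_ne_zero hp1.ne_zero hl
    have hwv : φ w = v := by
      have h1 : l1 • φ w = l1 • v := by
        rw [← map_smul, ← hw1, map_sub, e1, LinearMap.mem_ker.1 q1.2, sub_zero]
      rw [smul_eq_C_mul, smul_eq_C_mul] at h1
      exact mul_left_cancel₀ (by rw [Ne, C_eq_zero]; exact hp1.ne_zero) h1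
    apply h1P
    rw [hPmem, one_smul]
    exact ⟨w, hwM, hwv⟩
  · -- Case B
    obtain ⟨w, hw, hwv⟩ := lift_local hm ha hstar hρm h3 hv.1
    obtain ⟨s0, hs0⟩ : ∃ s0 : BB k ι, s0 = ∏ i : ι, ∏ j : ι,
      if (X i - X j : BB k ι) ∈ P then 1 else (X i - X j) ^ (a i j) := ⟨_, rfl⟩
    have hs0P : s0 ∉ P := by
      rw [hs0]
      intro h
      obtain ⟨i, -, hi⟩ := (hPp.prod_mem_iff).1 h
      obtain ⟨j, -, hj⟩ := (hPp.prod_mem_iff).1 hi
      split_ifs at hj with hc
      · exact h1P hj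
      · exact hc (hPp.mem_of_pow_mem _ hj)
    have hs0w : s0 • w ∈ NN k S a := by
      refine ⟨fun l hl => ?_, fun i j hij => ?_⟩
      · rw [coeff_smul'] at hl
        exact hw.1 l (right_ne_zero_of_mul hl)
      · by_cases hc : (X i - X j : BB k ι) ∈ P
        · rw [smul_eq_C_mul]
          exact Ideal.mul_mem_left _ _ (hw.2 i j hij ((hρiff i j).2 hc))
        · have hd : (X i - X j : BB k ι) ^ (a i j) ∣ s0 := by
            rw [hs0]
            refine dvd_trans ?_ (Finset.dvd_prod_of_mem _ (Finset.mem_univ i))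
            refine dvd_trans ?_ (Finset.dvd_prod_of_mem _ (Finset.mem_univ j))
            rw [if_neg hc]
          obtain ⟨g, hg⟩ := hd
          have h1 : (C (X i - X j) : WW k ι) ∈ PI k S i j :=
            Ideal.subset_span (Set.mem_insert_of_mem _ rfl)
          rw [smul_eq_C_mul, hg, C_mul, C_pow, mul_assoc]
          exact Ideal.mul_mem_right _ _ (Ideal.pow_mem_pow h1 _)
    apply hs0P
    rw [hPmem]
    refine ⟨homogeneousComponent e (s0 • w), component_mem_NN hs0w e, ?_⟩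
    show kl m (homogeneousComponent e (s0 • w)) = s0 • v
    rw [kl_component, map_smul, hwv, component_of_mem_HH]
    exact (HH k ι e).smul_mem _ hv.2

end Pool.Agent.Lib.MP_463376_co.StrA
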