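import Pool.Agent.Lib.MP_463376_co.B_Win

/-!
# Stream B, job B_Alt: alternants with prescribed x-exponents

`coeffX l f = (sumAlgEquiv k ι ι f).coeff l`; `sumAlgEquiv` maps `xx i` to `X i` and `yy i` to `C (X i)`.
`coeffX_alt`: `alt k D = ∑ σ, sign σ * ∏ i, xx (σ i) ^ (D i).1 * yy (σ i) ^ (D i).2` (`Matrix.det_apply`); the coefficient of `x^p'` of the `σ`-term
is zero unless `p' (σ i) = (D i).1` for all `i`. So the coefficient of `x^p'` is the determinant over `BB k ι` of the matrix
`(i, j) ↦ if p' i = (D j).1 then X i ^ (D j).2 else 0`.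
`coeffX_alt_Dp`: for `D = Dp p`, `p' = p` this matrix is block triangular with respect to `p` (`Matrix.BlockTriangular.det`), and the block of
the class `{i : p i = a}` is a Vandermonde matrix: `(Dp p j).2` is the position of `j` in its class with respect to `Fintype.equivFin ι`
(`Matrix.det_vandermonde`, after reindexing the class by `Fin m` monotonically).
`alt_mem_Jd`: modulo `pI i j` the rows `i` and `j` of the matrix agree (`Matrix.det_zero_of_row_eq`, `RingHom.map_det`).
`piL_win`: compare the exponents of `X i - X j`, `idx i < idx j`. With `N = a.degree`, `l' = l + ∑ a_o P_o`: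
`tm l' i = tm l i + n ∑ a_o P_o i` (`tm_add`), so `bgap l' i j = bgap l i j + ∑ a_o |P_o i - P_o j|` (by `mono` the differences have the sign of
`tm l j - tm l i`). If the gap is `< n d`: `bgap l i j < d` and all `|P_o i - P_o j| ≤ 1`, so `d + N - bgap l' i j = d - bgap l i j + ∑_{o : P_o i = P_o j} a_o`.
If the gap is `≥ n d`: `bgap l i j ≥ d`, `bgap l' i j ≥ d + N`, and `P_o i ≠ P_o j` for all `o`.
-/

set_option autoImplicit false

namespace Pool.Agent.Lib.MP_463376_co.StreamB

open MvPolynomial

section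
variable {k : Type} [Field k] {ι : Type} [Fintype ι] [DecidableEq ι]

/-- exponents of the alternant with column heights `p` -/
noncomputable def Dp (p : ι →₀ ℕ) : ι → ℕ × ℕ := fun i =>
  (p i, (Finset.univ.filter fun j : ι =>
    p j = p i ∧ Fintype.equivFin ι j < Fintype.equivFin ι i).card)

/-- product of the differences inside the classes of `p` -/
noncomputable def Vp (k : Type) [Field k] {ι : Type} [Fintype ι] [DecidableEq ι] (p : ι →₀ ℕ) :
    BB k ι :=
  ∏ i : ι, ∏ j : ι, if Fintype.equivFin ι i < Fintype.equivFin ι j ∧ p i = p j then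
    X i - X j else 1

omit [DecidableEq ι] in
private theorem b_alt_entry (D : ι → ℕ × ℕ) (σ : Equiv.Perm ι) :
    sumAlgEquiv k ι ι (∏ i, xx (k := k) (σ i) ^ (D i).1 * yy (σ i) ^ (D i).2) =
      monomial (∑ i, Finsupp.single (σ i) (D i).1) (∏ i, (X (σ i) : BB k ι) ^ (D i).2) := by
  rw [map_prod]
  have h1 : ∀ i, sumAlgEquiv k ι ι (xx (k := k) (σ i) ^ (D i).1 * yy (σ i) ^ (D i).2) =
      monomial (Finsupp.single (σ i) (D i).1) ((X (σ i) : BB k ι) ^ (D i).2) := by
    intro i
    rw [map_mul, map_pow, map_pow]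
    unfold xx yy
    rw [sumAlgEquiv_X_inl, sumAlgEquiv_X_inr, ← map_pow, X_pow_eq_monomial, mul_comm, C_mul_monomial,
      mul_one]
  rw [Finset.prod_congr rfl fun i _ => h1 i]
  rw [monomial_sum_prod]

private theorem b_alt_cond (D : ι → ℕ × ℕ) (σ : Equiv.Perm ι) (p' : ι →₀ ℕ) :
    (∑ i, Finsupp.single (σ i) (D i).1) = p' ↔ ∀ i, p' (σ i) = (D i).1 := by
  have h1 : ∀ j, (∑ i, Finsupp.single (σ i) (D i).1) (σ j) = (D j).1 := by
    intro j
    rw [Finsupp.finsetSum_apply, Finset.sum_eq_single j]
    · rw [Finsupp.single_eq_same]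
    · intro i _ hij
      rw [Finsupp.single_apply, if_neg fun h => hij (σ.injective h)]
    · intro h
      exact absurd (Finset.mem_univ _) h
  constructor
  · rintro rfl i
    exact h1 i
  · intro h
    ext j
    obtain ⟨i, rfl⟩ := σ.surjective j
    rw [h1, h]

theorem coeffX_alt (D : ι → ℕ × ℕ) (p' : ι →₀ ℕ) :
    coeffX p' (alt k D) =
      Matrix.det (Matrix.of fun i j : ι => if p' i = (D j).1 then (X i : BB k ι) ^ (D j).2 else 0) := by
  unfold coeffX alt
  rw [Matrix.det_apply, Matrix.det_apply, map_sum, coeff_sum]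
  refine Finset.sum_congr rfl fun σ _ => ?_
  simp only [Matrix.of_apply]
  have h1 : ∀ (u : ℤˣ) (f : RR k ι), (sumAlgEquiv k ι ι (u • f)).coeff p' =
      u • (sumAlgEquiv k ι ι f).coeff p' := by
    intro u f
    rcases Int.units_eq_one_or u with h | h
    · rw [h, one_smul, one_smul]
    · rw [h, Units.neg_smul, one_smul, map_neg, coeff_neg, Units.neg_smul, one_smul]
  rw [h1, b_alt_entry, coeff_monomial]
  congr 1
  by_cases h : ∀ i, p' (σ i) = (D i).1
  · rw [if_pos ((b_alt_cond D σ p').mpr h)]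
    exact Finset.prod_congr rfl fun i _ => (if_pos (h i)).symm
  · rw [if_neg fun h' => h ((b_alt_cond D σ p').mp h')]
    obtain ⟨i, hi⟩ := not_forall.mp h
    exact (Finset.prod_eq_zero (Finset.mem_univ i) (if_neg hi)).symm

theorem coeffX_alt_supp (D : ι → ℕ × ℕ) (p' : ι →₀ ℕ) (h : coeffX p' (alt k D) ≠ 0) :
    ∃ σ : Equiv.Perm ι, ∀ i, p' i = (D (σ i)).1 := by
  by_contra hcon
  apply h
  rw [coeffX_alt, Matrix.det_apply]
  refine Finset.sum_eq_zero fun σ _ => ?_
  have h1 : ¬ ∀ i, p' (σ i) = (D i).1 := by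
    intro h2
    refine hcon ⟨σ.symm, fun i => ?_⟩
    have h3 := h2 (σ.symm i)
    rwa [Equiv.apply_symm_apply] at h3
  obtain ⟨i, hi⟩ := not_forall.mp h1
  rw [Finset.prod_eq_zero (Finset.mem_univ i), smul_zero]
  simp only [Matrix.of_apply]
  exact if_neg hi

private theorem b_alt_enum (T : Type) [Fintype T] (r : T → ℕ) (hr : Function.Injective r) :
    ∃ e : Fin (Fintype.card T) ≃ T, ∀ a b, r (e a) < r (e b) ↔ a < b := by
  let _ : LinearOrder T := LinearOrder.lift' r hr
  let e : Fin (Fintype.card T) ≃o T := Fintype.orderIsoFinOfCardEq T rfl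
  refine ⟨e.toEquiv, fun a b => ?_⟩
  have h1 : e a < e b ↔ a < b := e.lt_iff_lt
  exact h1

private theorem b_alt_vand {R : Type} [CommRing R] (T : Type) [Fintype T] [DecidableEq T]
    (r : T → ℕ) (hr : Function.Injective r) (x : T → R) :
    Matrix.det (Matrix.of fun i j : T =>
      x i ^ (Finset.univ.filter fun j' : T => r j' < r j).card) =
      ∏ i : T, ∏ j : T, if r i < r j then x j - x i else 1 := by
  obtain ⟨e, he⟩ := b_alt_enum T r hr
  rw [← Matrix.det_submatrix_equiv_self e]
  have h1 : (Matrix.of fun i j : T =>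
      x i ^ (Finset.univ.filter fun j' : T => r j' < r j).card).submatrix e e =
      Matrix.vandermonde (fun a => x (e a)) := by
    ext a b
    rw [Matrix.submatrix_apply, Matrix.of_apply, Matrix.vandermonde_apply]
    congr 1
    have h2 : (Finset.univ.filter fun j' : T => r j' < r (e b)) =
        (Finset.univ.filter fun a' : Fin (Fintype.card T) => a' < b).map e.toEmbedding := by
      ext j'
      simp only [Finset.mem_filter, Finset.mem_univ, true_and, Finset.mem_map,
        Equiv.coe_toEmbedding]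
      constructor
      · intro h
        refine ⟨e.symm j', ?_, e.apply_symm_apply j'⟩
        rw [← he, e.apply_symm_apply]
        exact h
      · rintro ⟨a', ha', rfl⟩
        rw [he]
        exact ha'
    rw [h2, Finset.card_map]
    have h3 : (Finset.univ.filter fun a' : Fin (Fintype.card T) => a' < b) = Finset.Iio b := by
      ext a'
      rw [Finset.mem_filter, Finset.mem_Iio]
      exact ⟨fun h => h.2, fun h => ⟨Finset.mem_univ _, h⟩⟩
    rw [h3, Fin.card_Iio]
  rw [h1, Matrix.det_vandermonde]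
  rw [← Equiv.prod_comp e]
  refine Finset.prod_congr rfl fun a _ => ?_
  rw [← Equiv.prod_comp e, ← Finset.prod_filter]
  refine Finset.prod_congr ?_ fun b _ => rfl
  ext b
  simp only [Finset.mem_Ioi, Finset.mem_filter, Finset.mem_univ, true_and]
  exact (he a b).symm

theorem coeffX_alt_Dp (p : ι →₀ ℕ) :
    ∃ s : k, (s = 1 ∨ s = -1) ∧ coeffX p (alt k (Dp p)) = C s * Vp k p := by
  classical
  rw [coeffX_alt]
  have htri : (Matrix.of fun i j : ι =>
      if p i = (Dp p j).1 then (X i : BB k ι) ^ (Dp p j).2 else 0).BlockTriangular p := by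
    intro i j hij
    rw [Matrix.of_apply]
    exact if_neg (ne_of_gt hij)
  rw [htri.det]
  have hblock : ∀ a : ℕ, ((Matrix.of fun i j : ι =>
      if p i = (Dp p j).1 then (X i : BB k ι) ^ (Dp p j).2 else 0).toSquareBlock p a).det =
      ∏ i : {i : ι // p i = a}, ∏ j : {j : ι // p j = a},
        if ((Fintype.equivFin ι i.1 : Fin (Fintype.card ι)) : ℕ) <
          ((Fintype.equivFin ι j.1 : Fin (Fintype.card ι)) : ℕ) then
          (X j.1 : BB k ι) - X i.1 else 1 := by
    intro a
    rw [← b_alt_vand {i : ι // p i = a}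
      (fun i => ((Fintype.equivFin ι i.1 : Fin (Fintype.card ι)) : ℕ))
      (fun i j h => Subtype.ext ((Fintype.equivFin ι).injective (Fin.ext h)))
      (fun i => (X i.1 : BB k ι))]
    congr 1
    ext1 i j
    rw [Matrix.toSquareBlock_def, Matrix.of_apply, Matrix.of_apply, Matrix.of_apply]
    rw [if_pos (show p i.1 = (Dp p j.1).1 from i.2.trans j.2.symm)]
    congr 1
    symm
    refine Finset.card_bij (fun j' _ => j'.1) ?_ ?_ ?_
    · intro j' hj'
      simp only [Finset.mem_filter, Finset.mem_univ, true_and] at hj' ⊢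
      exact ⟨j'.2.trans j.2.symm, hj'⟩
    · intro j' _ j'' _ h
      exact Subtype.ext h
    · intro j' hj'
      simp only [Finset.mem_filter, Finset.mem_univ, true_and] at hj'
      refine ⟨⟨j', hj'.1.trans j.2⟩, ?_, rfl⟩
      simp only [Finset.mem_filter, Finset.mem_univ, true_and]
      exact hj'.2
  rw [Finset.prod_congr rfl fun a _ => hblock a]
  have hfib : ∀ a : ℕ, (∏ i : {i : ι // p i = a}, ∏ j : {j : ι // p j = a},
        if ((Fintype.equivFin ι i.1 : Fin (Fintype.card ι)) : ℕ) <
          ((Fintype.equivFin ι j.1 : Fin (Fintype.card ι)) : ℕ) then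
          (X j.1 : BB k ι) - X i.1 else 1) =
      ∏ i ∈ Finset.univ.filter fun i => p i = a, ∏ j : ι,
        if Fintype.equivFin ι i < Fintype.equivFin ι j ∧ p i = p j then
          (X j : BB k ι) - X i else 1 := by
    intro a
    rw [Finset.prod_subtype (Finset.univ.filter fun i => p i = a) (p := fun i => p i = a)
      (fun i => by simp)]
    refine Finset.prod_congr rfl fun i _ => ?_
    rw [← Finset.prod_filter, ← Finset.prod_filter]
    refine Finset.prod_bij (fun j _ => j.1) ?_ ?_ ?_ ?_
    · intro j hj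
      simp only [Finset.mem_filter, Finset.mem_univ, true_and] at hj ⊢
      exact ⟨hj, i.2.trans j.2.symm⟩
    · intro j _ j' _ h
      exact Subtype.ext h
    · intro j hj
      simp only [Finset.mem_filter, Finset.mem_univ, true_and] at hj
      refine ⟨⟨j, hj.2.symm.trans i.2⟩, ?_, rfl⟩
      simp only [Finset.mem_filter, Finset.mem_univ, true_and]
      exact hj.1
    · intro j _
      rfl
  rw [Finset.prod_congr rfl fun a _ => hfib a]
  rw [Finset.prod_fiberwise_of_maps_to (g := fun i => p i)
    (fun i _ => Finset.mem_image_of_mem _ (Finset.mem_univ i))]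
  refine ⟨∏ i : ι, ∏ j : ι, if Fintype.equivFin ι i < Fintype.equivFin ι j ∧ p i = p j then
    (-1 : k) else 1, ?_, ?_⟩
  · have hs : ∀ (s : Finset ι) (f : ι → k), (∀ i, f i = 1 ∨ f i = -1) →
        (∏ i ∈ s, f i = 1 ∨ ∏ i ∈ s, f i = -1) := by
      intro s f hf
      induction s using Finset.induction_on with
      | empty => left; simp
      | insert i s hi ih =>
        rw [Finset.prod_insert hi]
        rcases hf i with h | h <;> rcases ih with h' | h' <;> rw [h, h'] <;> simp
    refine hs _ _ fun i => hs _ _ fun j => ?_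
    split_ifs
    · right; rfl
    · left; rfl
  · unfold Vp
    rw [map_prod, ← Finset.prod_mul_distrib]
    refine Finset.prod_congr rfl fun i _ => ?_
    rw [map_prod, ← Finset.prod_mul_distrib]
    refine Finset.prod_congr rfl fun j _ => ?_
    split_ifs
    · rw [map_neg, map_one]; ring
    · rw [map_one, mul_one]

omit [Fintype ι] [DecidableEq ι] in
private theorem balt_mem_Jd_iff {d : ℕ} {f : RR k ι} :
    f ∈ Jd k ι d ↔ ∀ i j : ι, i ≠ j → f ∈ (pI (k := k) i j) ^ d := by
  simp only [Jd, Ideal.mem_iInf]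

theorem alt_mem_Jd (D : ι → ℕ × ℕ) : alt k D ∈ Jd k ι 1 := by
  rw [balt_mem_Jd_iff]
  intro i j hij
  rw [pow_one, ← Ideal.Quotient.eq_zero_iff_mem]
  unfold alt
  rw [RingHom.map_det]
  refine Matrix.det_zero_of_row_eq hij ?_
  funext l
  have h1 : Ideal.Quotient.mk (pI (k := k) i j) (xx i) = Ideal.Quotient.mk (pI i j) (xx j) := by
    rw [Ideal.Quotient.mk_eq_mk_iff_sub_mem]
    exact Ideal.subset_span (Or.inl rfl)
  have h2 : Ideal.Quotient.mk (pI (k := k) i j) (yy i) = Ideal.Quotient.mk (pI i j) (yy j) := by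
    rw [Ideal.Quotient.mk_eq_mk_iff_sub_mem]
    exact Ideal.subset_span (Or.inr rfl)
  simp only [RingHom.mapMatrix_apply, Matrix.map_apply, Matrix.of_apply, map_mul, map_pow, h1, h2]

theorem mul_mem_Jd {f g : RR k ι} {d e : ℕ} (hf : f ∈ Jd k ι d) (hg : g ∈ Jd k ι e) :
    f * g ∈ Jd k ι (d + e) := by
  rw [balt_mem_Jd_iff] at hf hg ⊢
  intro i j hij
  rw [pow_add]
  exact Ideal.mul_mem_mul (hf i j hij) (hg i j hij)

omit [Fintype ι] [DecidableEq ι] in
private theorem balt_X_sub_ne_zero {i j : ι} (h : i ≠ j) : (X i - X j : BB k ι) ≠ 0 := by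
  intro h0
  exact h (MvPolynomial.X_injective (sub_eq_zero.1 h0))

omit [DecidableEq ι] in
private theorem balt_ne {i j : ι} (h : Fintype.equivFin ι i < Fintype.equivFin ι j) : i ≠ j := by
  rintro rfl
  exact lt_irrefl _ h

theorem piL_ne_zero (d : ℕ) (l : ι →₀ ℕ) : piL k d l ≠ 0 := by
  unfold piL
  refine Finset.prod_ne_zero_iff.2 fun i _ => Finset.prod_ne_zero_iff.2 fun j _ => ?_
  split_ifs with h
  · exact pow_ne_zero _ (balt_X_sub_ne_zero (balt_ne h))
  · exact one_ne_zero

private theorem balt_tm_sum (l : ι →₀ ℕ) (P : Option ι → ι →₀ ℕ) (a : Option ι →₀ ℕ) (i : ι) :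
    tm (l + a.sum fun o m => m • P o) i =
      tm l i + Fintype.card ι * ∑ o ∈ a.support, a o * P o i := by
  rw [tm_add]
  congr 2
  rw [Finsupp.sum, Finsupp.finsetSum_apply]
  refine Finset.sum_congr rfl fun o _ => ?_
  rw [Finsupp.smul_apply, smul_eq_mul]

omit [DecidableEq ι] in
private theorem balt_bgap_comm (l : ι →₀ ℕ) (i j : ι) : bgap l i j = bgap l j i := by
  unfold bgap
  rw [max_comm, min_comm]

omit [DecidableEq ι] in
private theorem balt_bgap_lt {l : ι →₀ ℕ} {u v : ι} (h : tm l u < tm l v) :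
    bgap l u v = (tm l v - tm l u) / Fintype.card ι := by
  unfold bgap
  rw [max_eq_right h.le, min_eq_left h.le]

private theorem balt_exp_lt {d : ℕ} {l : ι →₀ ℕ} {P : Option ι → ι →₀ ℕ} (hP : IsWin d l P)
    (a : Option ι →₀ ℕ) {u v : ι} (h : tm l u < tm l v) :
    d + a.degree - bgap (l + a.sum fun o m => m • P o) u v =
      (d - bgap l u v) + ∑ o ∈ a.support, if P o u = P o v then a o else 0 := by
  have hn : 0 < Fintype.card ι := Fintype.card_pos_iff.2 ⟨u⟩
  have hmono : ∀ o, P o u ≤ P o v := fun o => hP.mono o u v h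
  have hsum : ∑ o ∈ a.support, a o * P o v =
      (∑ o ∈ a.support, a o * P o u) + ∑ o ∈ a.support, a o * (P o v - P o u) := by
    rw [← Finset.sum_add_distrib]
    refine Finset.sum_congr rfl fun o _ => ?_
    rw [← mul_add, Nat.add_sub_cancel' (hmono o)]
  have h' : tm (l + a.sum fun o m => m • P o) u < tm (l + a.sum fun o m => m • P o) v := by
    rw [balt_tm_sum, balt_tm_sum, hsum, mul_add]
    omega
  have hb : bgap (l + a.sum fun o m => m • P o) u v =
      bgap l u v + ∑ o ∈ a.support, a o * (P o v - P o u) := by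
    rw [balt_bgap_lt h', balt_bgap_lt h, balt_tm_sum, balt_tm_sum, hsum, mul_add]
    have e1 : tm l v + (Fintype.card ι * ∑ o ∈ a.support, a o * P o u +
        Fintype.card ι * ∑ o ∈ a.support, a o * (P o v - P o u)) -
        (tm l u + Fintype.card ι * ∑ o ∈ a.support, a o * P o u) =
        (tm l v - tm l u) + Fintype.card ι * ∑ o ∈ a.support, a o * (P o v - P o u) := by
      omega
    rw [e1, Nat.add_mul_div_left _ _ hn]
  have hdeg : a.degree = ∑ o ∈ a.support, a o := by
    rw [Finsupp.degree_apply]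
  rw [hb, hdeg]
  by_cases hlt : tm l v < tm l u + Fintype.card ι * d
  · have h1 : bgap l u v < d := by
      rw [balt_bgap_lt h, Nat.div_lt_iff_lt_mul hn, mul_comm d]
      omega
    have h2 : ∑ o ∈ a.support, a o =
        (∑ o ∈ a.support, a o * (P o v - P o u)) +
          ∑ o ∈ a.support, if P o u = P o v then a o else 0 := by
      rw [← Finset.sum_add_distrib]
      refine Finset.sum_congr rfl fun o _ => ?_
      have h3 := hP.lt o u v h hlt
      have h4 := hmono o
      split_ifs with h5
      · rw [h5, Nat.sub_self, mul_zero, zero_add]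
      · have h6 : P o v - P o u = 1 := by omega
        rw [h6, mul_one, add_zero]
    omega
  · push Not at hlt
    have h1 : d ≤ bgap l u v := by
      rw [balt_bgap_lt h, Nat.le_div_iff_mul_le hn, mul_comm d]
      omega
    have h2 : ∑ o ∈ a.support, a o ≤ ∑ o ∈ a.support, a o * (P o v - P o u) := by
      refine Finset.sum_le_sum fun o _ => ?_
      have h3 := hP.ge o u v hlt
      exact Nat.le_mul_of_pos_right _ (by omega)
    have h3 : ∑ o ∈ a.support, (if P o u = P o v then a o else 0) = 0 := by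
      refine Finset.sum_eq_zero fun o _ => ?_
      have h3 := hP.ge o u v hlt
      rw [if_neg (by omega)]
    rw [h3]
    omega

private theorem balt_exp {d : ℕ} {l : ι →₀ ℕ} {P : Option ι → ι →₀ ℕ} (hP : IsWin d l P)
    (a : Option ι →₀ ℕ) {u v : ι} (h : u ≠ v) :
    d + a.degree - bgap (l + a.sum fun o m => m • P o) u v =
      (d - bgap l u v) + ∑ o ∈ a.support, if P o u = P o v then a o else 0 := by
  rcases lt_trichotomy (tm l u) (tm l v) with h1 | h1 | h1
  · exact balt_exp_lt hP a h1
  · exact absurd (tm_inj h1).1 h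
  · rw [balt_bgap_comm _ u v, balt_bgap_comm _ u v, balt_exp_lt hP a h1]
    congr 1
    refine Finset.sum_congr rfl fun o _ => ?_
    simp only [eq_comm]

private theorem balt_Vp_pow (p : ι →₀ ℕ) (m : ℕ) : Vp k p ^ m =
    ∏ i : ι, ∏ j : ι, (if Fintype.equivFin ι i < Fintype.equivFin ι j ∧ p i = p j then
      (X i - X j : BB k ι) else 1) ^ m := by
  unfold Vp
  rw [← Finset.prod_pow]
  refine Finset.prod_congr rfl fun i _ => ?_
  rw [← Finset.prod_pow]

theorem piL_win {d : ℕ} {l : ι →₀ ℕ} {P : Option ι → ι →₀ ℕ} (hP : IsWin d l P)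
    (a : Option ι →₀ ℕ) :
    piL k (d + a.degree) (l + a.sum fun o m => m • P o) =
      piL k d l * a.prod fun o m => Vp k (P o) ^ m := by
  have h1 : (a.prod fun o m => Vp k (P o) ^ m) = ∏ i : ι, ∏ j : ι, ∏ o ∈ a.support,
      (if Fintype.equivFin ι i < Fintype.equivFin ι j ∧ P o i = P o j then
        (X i - X j : BB k ι) else 1) ^ a o := by
    rw [Finsupp.prod]
    simp only [balt_Vp_pow]
    rw [Finset.prod_comm]
    refine Finset.prod_congr rfl fun i _ => ?_
    rw [Finset.prod_comm]
  rw [h1]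
  unfold piL
  rw [← Finset.prod_mul_distrib]
  refine Finset.prod_congr rfl fun i _ => ?_
  rw [← Finset.prod_mul_distrib]
  refine Finset.prod_congr rfl fun j _ => ?_
  by_cases h : Fintype.equivFin ι i < Fintype.equivFin ι j
  · rw [if_pos h, if_pos h, balt_exp hP a (balt_ne h), pow_add]
    congr 1
    rw [← Finset.prod_pow_eq_pow_sum]
    refine Finset.prod_congr rfl fun o _ => ?_
    by_cases h2 : P o i = P o j
    · rw [if_pos h2, if_pos ⟨h, h2⟩]
    · rw [if_neg h2, if_neg fun h3 => h2 h3.2, pow_zero, one_pow]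
  · rw [if_neg h, if_neg h, one_mul]
    refine (Finset.prod_eq_one fun o _ => ?_).symm
    rw [if_neg fun h3 => h h3.1, one_pow]

end

end Pool.Agent.Lib.MP_463376_co.StreamB
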