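import Pool.Agent.Lib.MP_463376_co.B_Alt

/-!
# Stream B: leading terms modulo a prime of `k[y]`
-/

set_option autoImplicit false

namespace Pool.Agent.Lib.MP_463376_co.StreamB

open MvPolynomial

section
variable {k : Type} [Field k] {ι : Type} [Fintype ι] [DecidableEq ι]

theorem BL_yB (a : BB k ι) : sumAlgEquiv k ι ι (yB a) = C a := by
  induction a using MvPolynomial.induction_on with
  | C a => simp [yB]
  | add p q hp hq => rw [map_add, map_add, hp, hq, map_add]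
  | mul_X p i hp =>
    rw [map_mul, map_mul, hp, map_mul]
    congr 1
    simp [yB]

theorem coeffX_add (l : ι →₀ ℕ) (f g : RR k ι) : coeffX l (f + g) = coeffX l f + coeffX l g := by
  simp [coeffX]

theorem coeffX_zero (l : ι →₀ ℕ) : coeffX l (0 : RR k ι) = 0 := by
  simp [coeffX]

theorem coeffX_sum {α : Type} (s : Finset α) (f : α → RR k ι) (l : ι →₀ ℕ) :
    coeffX l (∑ a ∈ s, f a) = ∑ a ∈ s, coeffX l (f a) := by
  simp [coeffX, MvPolynomial.coeff_sum]

theorem coeffX_yB_mul (l : ι →₀ ℕ) (a : BB k ι) (f : RR k ι) :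
    coeffX l (yB a * f) = a * coeffX l f := by
  unfold coeffX
  rw [map_mul, BL_yB, coeff_C_mul]

theorem coeffX_mul (l : ι →₀ ℕ) (f g : RR k ι) :
    coeffX l (f * g) = ∑ x ∈ Finset.HasAntidiagonal.antidiagonal l, coeffX x.1 f * coeffX x.2 g := by
  unfold coeffX
  rw [map_mul, coeff_mul]

/-- all exponents of `f` are at most `l` -/
def LEx (f : RR k ι) (l : ι →₀ ℕ) : Prop := ∀ l', coeffX l' f ≠ 0 → l' = l ∨ precE l' l

theorem LEx.trans {f : RR k ι} {l m : ι →₀ ℕ} (h : LEx f l) (hm : l = m ∨ precE l m) : LEx f m := by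
  intro l' hl'
  rcases h l' hl' with rfl | h1
  · exact hm
  · rcases hm with rfl | hm
    · exact Or.inr h1
    · exact Or.inr (precE_trans h1 hm)

theorem LEx_mul {A f : RR k ι} {p l : ι →₀ ℕ}
    (hA : ∀ p', coeffX p' A ≠ 0 → ∃ σ : Equiv.Perm ι, ∀ i, p' i = p (σ i))
    (hinc : ∀ i j, tm l i < tm l j → p i ≤ p j) (hf : LEx f l) :
    LEx (A * f) (l + p) ∧ coeffX (l + p) (A * f) = coeffX p A * coeffX l f := by
  have key : ∀ x : (ι →₀ ℕ) × (ι →₀ ℕ), coeffX x.1 A * coeffX x.2 f ≠ 0 →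
      (x.2 = l ∧ x.1 = p) ∨ precE (x.2 + x.1) (l + p) := by
    intro x hx
    exact precE_add (hf _ (right_ne_zero_of_mul hx)) hinc (hA _ (left_ne_zero_of_mul hx))
  constructor
  · intro m hm
    rw [coeffX_mul] at hm
    obtain ⟨x, hx, hne⟩ := Finset.exists_ne_zero_of_sum_ne_zero hm
    rw [Finset.HasAntidiagonal.mem_antidiagonal] at hx
    rcases key x hne with ⟨h1, h2⟩ | h
    · left; rw [← hx, h1, h2, add_comm]
    · right; rw [← hx, add_comm]; exact h
  · rw [coeffX_mul, Finset.sum_eq_single (p, l)]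
    · intro x hx hne
      by_contra h0
      rw [Finset.HasAntidiagonal.mem_antidiagonal] at hx
      rcases key x h0 with ⟨h1, h2⟩ | h
      · exact hne (Prod.ext h2 h1)
      · rw [add_comm x.2 x.1, hx] at h
        exact precE_irrefl _ h
    · intro h
      exact absurd (Finset.HasAntidiagonal.mem_antidiagonal.2 (add_comm p l)) h

theorem BL_ind {α : Type} {p : (α →₀ ℕ) → Prop} (h0 : p 0)
    (h1 : ∀ a o, p a → p (a + Finsupp.single o 1)) (a : α →₀ ℕ) : p a := by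
  classical
  rw [← Finsupp.toMultiset_toFinsupp a]
  generalize Finsupp.toMultiset a = s
  induction s using Multiset.induction_on with
  | empty => simpa using h0
  | cons o s ih =>
    have := h1 _ o ih
    rwa [← Multiset.toFinsupp_singleton, ← Multiset.toFinsupp_add, add_comm,
      Multiset.singleton_add] at this

theorem BL_sum_add (P : Option ι → ι →₀ ℕ) (a : Option ι →₀ ℕ) (o : Option ι) :
    ((a + Finsupp.single o 1).sum fun o m => m • P o) = (a.sum fun o m => m • P o) + P o := by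
  rw [Finsupp.sum_add_index' (by simp) (by intros; rw [add_smul]),
    Finsupp.sum_single_index (by simp), one_smul]

theorem BL_prod_add {M : Type} [CommMonoid M] (A : Option ι → M) (a : Option ι →₀ ℕ)
    (o : Option ι) :
    ((a + Finsupp.single o 1).prod fun o m => A o ^ m) = (a.prod fun o m => A o ^ m) * A o := by
  rw [Finsupp.prod_add_index' (by simp) (by intros; rw [pow_add]),
    Finsupp.prod_single_index (by simp), pow_one]

theorem BL_order {d : ℕ} {l : ι →₀ ℕ} {P : Option ι → ι →₀ ℕ} (hP : IsWin d l P)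
    (a : Option ι →₀ ℕ) {i j : ι}
    (h : tm (l + a.sum fun o m => m • P o) i < tm (l + a.sum fun o m => m • P o) j) :
    tm l i < tm l j := by
  by_contra hcon
  rcases lt_or_eq_of_le (not_lt.1 hcon) with h1 | h1
  · rw [tm_add, tm_add] at h
    have h2 : (a.sum fun o m => m • P o) j ≤ (a.sum fun o m => m • P o) i := by
      rw [Finsupp.sum_apply, Finsupp.sum_apply]
      refine Finset.sum_le_sum fun o _ => ?_
      simp only [Finsupp.smul_apply, smul_eq_mul]
      exact Nat.mul_le_mul_left _ (hP.mono o j i h1)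
    have h3 := Nat.mul_le_mul_left (Fintype.card ι) h2
    omega
  · have := (tm_inj h1).1
    subst this
    exact lt_irrefl _ h

theorem LEx_win {d : ℕ} {l : ι →₀ ℕ} {P : Option ι → ι →₀ ℕ} (hP : IsWin d l P) {f : RR k ι}
    (hf : LEx f l) (a : Option ι →₀ ℕ) :
    LEx ((a.prod fun o m => alt k (Dp (P o)) ^ m) * f) (l + a.sum fun o m => m • P o) ∧
      coeffX (l + a.sum fun o m => m • P o) ((a.prod fun o m => alt k (Dp (P o)) ^ m) * f) =
        (a.prod fun o m => coeffX (P o) (alt k (Dp (P o))) ^ m) * coeffX l f := by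
  refine BL_ind (p := fun a => LEx ((a.prod fun o m => alt k (Dp (P o)) ^ m) * f)
    (l + a.sum fun o m => m • P o) ∧
      coeffX (l + a.sum fun o m => m • P o) ((a.prod fun o m => alt k (Dp (P o)) ^ m) * f) =
        (a.prod fun o m => coeffX (P o) (alt k (Dp (P o))) ^ m) * coeffX l f) ?_ ?_ a
  · simpa using hf
  · rintro a o ⟨h1, h2⟩
    rw [BL_sum_add, BL_prod_add, BL_prod_add, ← add_assoc]
    have h3 := LEx_mul (A := alt k (Dp (P o))) (p := P o) (f := (a.prod fun o m => alt k (Dp (P o)) ^ m) * f)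
      (l := l + a.sum fun o m => m • P o)
      (fun p' hp' => by
        obtain ⟨σ, hσ⟩ := coeffX_alt_supp _ _ hp'
        exact ⟨σ, fun i => hσ i⟩)
      (fun i j hij => hP.mono o i j (BL_order hP a hij)) h1
    have e : (a.prod fun o m => alt k (Dp (P o)) ^ m) * alt k (Dp (P o)) * f =
        alt k (Dp (P o)) * ((a.prod fun o m => alt k (Dp (P o)) ^ m) * f) := by ring
    rw [e]
    refine ⟨h3.1, ?_⟩
    rw [h3.2, h2]
    ring

/-- leading term of a linear combination of the basis elements -/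
theorem BL_lead {d : ℕ} {b : (ι →₀ ℕ) → RR k ι} (hb2 : ∀ l, coeffX l (b l) = piL k d l)
    (hb3 : ∀ l l', coeffX l' (b l) ≠ 0 → l' = l ∨ precE l' l) (c : (ι →₀ ℕ) →₀ BB k ι)
    (m : ι →₀ ℕ) (hmax : ∀ x ∈ c.support, x = m ∨ precE x m) :
    LEx (c.sum fun l a => yB a * b l) m ∧
      coeffX m (c.sum fun l a => yB a * b l) = c m * piL k d m := by
  constructor
  · intro l' hl'
    rw [Finsupp.sum, coeffX_sum] at hl'
    obtain ⟨x, hx, hne⟩ := Finset.exists_ne_zero_of_sum_ne_zero hl'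
    rw [coeffX_yB_mul] at hne
    rcases hb3 x l' (right_ne_zero_of_mul hne) with rfl | h1
    · exact hmax _ hx
    · rcases hmax x hx with rfl | h2
      · exact Or.inr h1
      · exact Or.inr (precE_trans h1 h2)
  · rw [Finsupp.sum, coeffX_sum]
    simp only [coeffX_yB_mul]
    rw [Finset.sum_eq_single m]
    · rw [hb2]
    · intro x hx hne
      by_contra h0
      rcases hb3 x m (right_ne_zero_of_mul h0) with h1 | h1
      · exact hne h1.symm
      · rcases hmax x hx with h2 | h2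
        · exact hne h2
        · exact precE_irrefl _ (precE_trans h1 h2)
    · intro h
      rw [Finsupp.notMem_support_iff.1 h, zero_mul]

theorem BL_coords {I : Ideal (BB k ι)} {d : ℕ} {b : (ι →₀ ℕ) → RR k ι}
    (hb5 : ∀ f ∈ Jd k ι d, ∃ c : (ι →₀ ℕ) →₀ BB k ι, f = c.sum fun l a => yB a * b l)
    {F : RR k ι} (hF : F ∈ I.map (yB : BB k ι →ₐ[k] RR k ι) * Jd k ι d) :
    ∃ c : (ι →₀ ℕ) →₀ BB k ι, (∀ l, c l ∈ I) ∧ F = c.sum fun l a => yB a * b l := by
  have hadd : ∀ c c' : (ι →₀ ℕ) →₀ BB k ι, ((c + c').sum fun l a => yB a * b l) =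
      (c.sum fun l a => yB a * b l) + (c'.sum fun l a => yB a * b l) := by
    intro c c'
    exact Finsupp.sum_add_index' (by simp) (by intros; rw [map_add, add_mul])
  have h1 : ∀ s ∈ I.map (yB : BB k ι →ₐ[k] RR k ι), ∀ f ∈ Jd k ι d,
      ∃ c : (ι →₀ ℕ) →₀ BB k ι, (∀ l, c l ∈ I) ∧ s * f = c.sum fun l a => yB a * b l := by
    intro s hs
    refine Submodule.span_induction ?_ ?_ ?_ ?_ hs
    · rintro _ ⟨i, hi, rfl⟩ f hf
      obtain ⟨c, hc⟩ := hb5 f hf
      refine ⟨i • c, fun l => ?_, ?_⟩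
      · rw [Finsupp.smul_apply, smul_eq_mul]
        exact I.mul_mem_right _ hi
      · rw [Finsupp.sum_smul_index (by simp), hc, Finsupp.mul_sum]
        refine Finsupp.sum_congr fun l _ => ?_
        rw [map_mul, mul_assoc]
    · intro f _
      exact ⟨0, fun l => I.zero_mem, by simp⟩
    · intro x y _ _ hx hy f hf
      obtain ⟨c, hc, hc'⟩ := hx f hf
      obtain ⟨c2, hc2, hc2'⟩ := hy f hf
      refine ⟨c + c2, fun l => I.add_mem (hc l) (hc2 l), ?_⟩
      rw [hadd, add_mul, hc', hc2']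
    · intro r x _ hx f hf
      obtain ⟨c, hc, hc'⟩ := hx (r * f) ((Jd k ι d).mul_mem_left r hf)
      refine ⟨c, hc, ?_⟩
      rw [← hc', smul_eq_mul]
      ring
  refine Submodule.mul_induction_on hF (fun s hs f hf => h1 s hs f hf) ?_
  rintro x y ⟨c, hc, hc'⟩ ⟨c2, hc2, hc2'⟩
  exact ⟨c + c2, fun l => I.add_mem (hc l) (hc2 l), by rw [hadd, hc', hc2']⟩

theorem BL_prod_mem {P : Option ι → ι →₀ ℕ} (a : Option ι →₀ ℕ) :
    (a.prod fun o m => alt k (Dp (P o)) ^ m) ∈ Jd k ι a.degree := by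
  refine BL_ind (p := fun a => (a.prod fun o m => alt k (Dp (P o)) ^ m) ∈ Jd k ι a.degree)
    ?_ ?_ a
  · simp [Jd]
  · intro a o h
    rw [BL_prod_add, map_add, Finsupp.degree_single]
    exact mul_mem_Jd h (alt_mem_Jd _)

theorem BL_IJ_mul {I : Ideal (BB k ι)} {d e : ℕ} {F g : RR k ι}
    (hF : F ∈ I.map (yB : BB k ι →ₐ[k] RR k ι) * Jd k ι d) (hg : g ∈ Jd k ι e) :
    F * g ∈ I.map (yB : BB k ι →ₐ[k] RR k ι) * Jd k ι (d + e) := by
  refine Submodule.mul_induction_on hF (fun s hs f hf => ?_) ?_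
  · rw [mul_assoc]
    exact Ideal.mul_mem_mul hs (mul_mem_Jd hf hg)
  · intro x y hx hy
    rw [add_mul]
    exact Ideal.add_mem _ hx hy

/-- Reduction to the essential part. -/
theorem BL_red {R B σ : Type} [CommRing R] [CommRing B] (y : B →+* R) (A : σ → R) (I : Ideal B)
    (Θ : MvPolynomial σ B) (F1 F2 : R) (J : Ideal R)
    (h2 : ∀ a ∈ Θ.support, (a.prod fun o m => A o ^ m) * F2 ∈ J)
    (h3 : ∀ a ∈ Θ.support, Θ.coeff a ∈ I →
      y (Θ.coeff a) * ((a.prod fun o m => A o ^ m) * (F1 + F2)) ∈ J)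
    (hmem : eval₂ y A Θ * (F1 + F2) ∈ J) (s : Finset (σ →₀ ℕ))
    (hs : ∀ a, a ∈ s ↔ a ∈ Θ.support ∧ Θ.coeff a ∉ I) :
    ∑ a ∈ s, y (Θ.coeff a) * ((a.prod fun o m => A o ^ m) * F1) ∈ J := by
  classical
  have e0 : eval₂ y A Θ = ∑ a ∈ Θ.support, y (Θ.coeff a) * a.prod fun o m => A o ^ m := by
    rw [eval₂_eq]
    rfl
  have hs' : s ⊆ Θ.support := fun a ha => ((hs a).1 ha).1
  have e1 : ∑ a ∈ s, y (Θ.coeff a) * ((a.prod fun o m => A o ^ m) * F1) =
      eval₂ y A Θ * (F1 + F2) -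
      ∑ a ∈ Θ.support \ s, y (Θ.coeff a) * ((a.prod fun o m => A o ^ m) * (F1 + F2)) -
      ∑ a ∈ s, y (Θ.coeff a) * ((a.prod fun o m => A o ^ m) * F2) := by
    rw [e0, Finset.sum_mul, ← Finset.sum_sdiff hs']
    have e2 : ∀ a, y (Θ.coeff a) * (a.prod fun o m => A o ^ m) * (F1 + F2) =
        y (Θ.coeff a) * ((a.prod fun o m => A o ^ m) * F1) +
          y (Θ.coeff a) * ((a.prod fun o m => A o ^ m) * F2) := fun a => by ring
    have e3 : ∀ a, y (Θ.coeff a) * ((a.prod fun o m => A o ^ m) * (F1 + F2)) =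
        y (Θ.coeff a) * ((a.prod fun o m => A o ^ m) * F1) +
          y (Θ.coeff a) * ((a.prod fun o m => A o ^ m) * F2) := fun a => by ring
    simp only [e2, e3, Finset.sum_add_distrib]
    ring
  rw [e1]
  refine Ideal.sub_mem _ (Ideal.sub_mem _ hmem ?_) ?_
  · refine Ideal.sum_mem _ fun a ha => ?_
    rw [Finset.mem_sdiff] at ha
    refine h3 a ha.1 ?_
    by_contra h
    exact ha.2 ((hs a).2 ⟨ha.1, h⟩)
  · exact Ideal.sum_mem _ fun a ha => Ideal.mul_mem_left _ _ (h2 a (hs' ha))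

theorem BL_core2 [CharZero k] (I : Ideal (BB k ι)) [I.IsPrime] {d : ℕ} {l0 : ι →₀ ℕ}
    {P : Option ι → ι →₀ ℕ} (hP : IsWin d l0 P) {F1 : RR k ι} (hL1 : LEx F1 l0) {c0 : BB k ι}
    (hL2 : coeffX l0 F1 = c0 * piL k d l0) (hc0 : c0 ∉ I) (N : ℕ)
    (Θ : MvPolynomial (Option ι) (BB k ι)) (hdeg : ∀ a ∈ Θ.support, a.degree = N)
    (s : Finset (Option ι →₀ ℕ)) (hs : ∀ a, a ∈ s ↔ a ∈ Θ.support ∧ Θ.coeff a ∉ I)
    (hsne : s.Nonempty)
    (hGm : ∑ a ∈ s, ((yB : BB k ι →ₐ[k] RR k ι) : BB k ι →+* RR k ι) (Θ.coeff a) *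
      ((a.prod fun o m => alt k (Dp (P o)) ^ m) * F1) ∈
        I.map (yB : BB k ι →ₐ[k] RR k ι) * Jd k ι (d + N)) : False := by
  classical
  obtain ⟨G, hG⟩ : ∃ G, G = ∑ a ∈ s, yB (Θ.coeff a) *
      ((a.prod fun o m => alt k (Dp (P o)) ^ m) * F1) := ⟨_, rfl⟩
  replace hGm : G ∈ I.map (yB : BB k ι →ₐ[k] RR k ι) * Jd k ι (d + N) := by
    rw [hG]; exact hGm
  obtain ⟨μ, hμ⟩ : ∃ μ : (Option ι →₀ ℕ) → (ι →₀ ℕ), ∀ a, μ a = l0 + a.sum fun o m => m • P o :=
    ⟨_, fun _ => rfl⟩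
  obtain ⟨M, hM, hMmax⟩ := precE_max (s.image μ) (hsne.image μ)
  obtain ⟨a0, ha0, rfl⟩ := Finset.mem_image.1 hM
  have ha0' := (hs a0).1 ha0
  have hlex : ∀ a, LEx ((a.prod fun o m => alt k (Dp (P o)) ^ m) * F1) (μ a) ∧
      coeffX (μ a) ((a.prod fun o m => alt k (Dp (P o)) ^ m) * F1) =
      (a.prod fun o m => coeffX (P o) (alt k (Dp (P o))) ^ m) * coeffX l0 F1 := fun a => by
    rw [hμ]
    exact LEx_win hP hL1 a
  have hμinj : ∀ a ∈ s, a ≠ a0 → μ a ≠ μ a0 := by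
    intro a ha hne h
    apply hne
    rw [hμ, hμ] at h
    refine hP.inj a a0 ?_ (add_left_cancel h)
    rw [hdeg a ((hs a).1 ha).1, hdeg a0 ha0'.1]
  have hGLE : LEx G (μ a0) := by
    intro l' hl'
    rw [hG, coeffX_sum] at hl'
    obtain ⟨a, ha, hne⟩ := Finset.exists_ne_zero_of_sum_ne_zero hl'
    rw [coeffX_yB_mul] at hne
    exact (hlex a).1.trans (hMmax _ (Finset.mem_image_of_mem μ ha)) l' (right_ne_zero_of_mul hne)
  have hGc : coeffX (μ a0) G = Θ.coeff a0 *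
      ((a0.prod fun o m => coeffX (P o) (alt k (Dp (P o))) ^ m) * (c0 * piL k d l0)) := by
    rw [hG, coeffX_sum, Finset.sum_eq_single a0]
    · rw [coeffX_yB_mul, (hlex a0).2, hL2]
    · intro a ha hne
      rw [coeffX_yB_mul]
      by_contra h0
      have h1 := (hlex a).1 _ (right_ne_zero_of_mul h0)
      have h2 := hμinj a ha hne
      rcases h1 with h1 | h1
      · exact h2 h1.symm
      · rcases hMmax _ (Finset.mem_image_of_mem μ ha) with h3 | h3
        · exact h2 h3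
        · exact precE_irrefl _ (precE_trans h1 h3)
    · intro h; exact absurd ha0 h
  -- the unit
  choose sg hsg1 hsg2 using fun o : Option ι => coeffX_alt_Dp (k := k) (P o)
  have hprod : (a0.prod fun o m => coeffX (P o) (alt k (Dp (P o))) ^ m) =
      C (a0.prod fun o m => sg o ^ m) * a0.prod fun o m => Vp k (P o) ^ m := by
    simp only [hsg2]
    rw [Finsupp.prod, Finsupp.prod, Finsupp.prod, map_prod, ← Finset.prod_mul_distrib]
    refine Finset.prod_congr rfl fun o _ => ?_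
    rw [mul_pow, map_pow]
  have hu : (a0.prod fun o m => sg o ^ m) ≠ 0 := by
    rw [Finsupp.prod, Finset.prod_ne_zero_iff]
    intro o _
    apply pow_ne_zero
    rcases hsg1 o with h | h <;> rw [h]
    · exact one_ne_zero
    · exact neg_ne_zero.2 one_ne_zero
  have hGc' : coeffX (μ a0) G = (C (a0.prod fun o m => sg o ^ m) * Θ.coeff a0 * c0) *
      piL k (d + N) (μ a0) := by
    have h1 := piL_win (k := k) hP a0
    rw [hdeg a0 ha0'.1] at h1
    rw [hGc, hprod, hμ, h1]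
    ring
  have hunit : C (a0.prod fun o m => sg o ^ m) * Θ.coeff a0 * c0 ∉ I := by
    intro h
    rcases Ideal.IsPrime.mem_or_mem ‹_› h with h | h
    · rcases Ideal.IsPrime.mem_or_mem ‹_› h with h | h
      · exact (Ideal.IsPrime.ne_top ‹_›) (Ideal.eq_top_of_isUnit_mem _ h
          ((isUnit_iff_ne_zero.2 hu).map C))
      · exact ha0'.2 h
    · exact hc0 h
  have hGc0 : coeffX (μ a0) G ≠ 0 := by
    rw [hGc']
    refine mul_ne_zero (fun h => hunit (by rw [h]; exact I.zero_mem)) (piL_ne_zero _ _)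
  -- coordinates of `G`
  obtain ⟨b', -, hb2', hb3', -, hb5'', -⟩ := basis_theorem k ι (d + N)
  obtain ⟨e, heI, he⟩ := BL_coords (fun f hf => (hb5'' f hf).exists) hGm
  have hene : e.support.Nonempty := by
    rw [Finset.nonempty_iff_ne_empty]
    intro h0
    rw [Finsupp.support_eq_empty] at h0
    apply hGc0
    rw [he, h0, Finsupp.sum_zero_index, coeffX_zero]
  obtain ⟨m, hm, hmm⟩ := precE_max e.support hene
  obtain ⟨h5, h6⟩ := BL_lead hb2' hb3' e m hmm
  rw [← he] at h5 h6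
  have h7 : coeffX m G ≠ 0 := by
    rw [h6]
    exact mul_ne_zero (Finsupp.mem_support_iff.1 hm) (piL_ne_zero _ _)
  have h8 : m = μ a0 := by
    rcases hGLE m h7 with h | h
    · exact h
    · rcases h5 _ hGc0 with h' | h'
      · exact h'.symm
      · exact absurd (precE_trans h h') (precE_irrefl _)
  rw [h8, hGc'] at h6
  have h9 := mul_right_cancel₀ (piL_ne_zero _ _) h6
  exact hunit (h9 ▸ heI _)

/-- The main non-vanishing statement. -/
theorem BL_core [CharZero k] (I : Ideal (BB k ι)) [I.IsPrime] {d : ℕ} (hd : 1 ≤ d) {F : RR k ι}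
    (hFJ : F ∈ Jd k ι d) (hF : F ∉ I.map (yB : BB k ι →ₐ[k] RR k ι) * Jd k ι d) :
    ∃ P : Option ι → ι →₀ ℕ, (∀ o i, P o i ≤ 2 * Fintype.card ι) ∧
      ∀ (N : ℕ) (Θ : MvPolynomial (Option ι) (BB k ι)), Θ.IsHomogeneous N →
        (∃ a, Θ.coeff a ∉ I) →
        eval₂ ((yB : BB k ι →ₐ[k] RR k ι) : BB k ι →+* RR k ι) (fun o => alt k (Dp (P o))) Θ * F ∉
          I.map (yB : BB k ι →ₐ[k] RR k ι) * Jd k ι (d + N) := by
  classical
  obtain ⟨b, hb1, hb2, hb3, -, hb5, -⟩ := basis_theorem k ι d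
  have hb5' : ∀ f ∈ Jd k ι d, ∃ c : (ι →₀ ℕ) →₀ BB k ι, f = c.sum fun l a => yB a * b l :=
    fun f hf => (hb5 f hf).exists
  obtain ⟨c, hc⟩ := hb5' F hFJ
  set c1 : (ι →₀ ℕ) →₀ BB k ι := c.filter (fun l => c l ∉ I) with hc1
  set c2 : (ι →₀ ℕ) →₀ BB k ι := c.filter (fun l => ¬ c l ∉ I) with hc2
  have hcc : c1 + c2 = c := Finsupp.filter_add_filter_not c _
  obtain ⟨F1, hF1⟩ : ∃ F1, F1 = c1.sum fun l a => yB a * b l := ⟨_, rfl⟩
  obtain ⟨F2, hF2⟩ : ∃ F2, F2 = c2.sum fun l a => yB a * b l := ⟨_, rfl⟩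
  have hF12 : F = F1 + F2 := by
    rw [hc, ← hcc, hF1, hF2]
    exact Finsupp.sum_add_index' (by simp) (by intros; rw [map_add, add_mul])
  have hF2m : F2 ∈ I.map (yB : BB k ι →ₐ[k] RR k ι) * Jd k ι d := by
    rw [hF2]
    refine Ideal.sum_mem _ fun l hl => ?_
    refine Ideal.mul_mem_mul (Ideal.mem_map_of_mem _ ?_) (hb1 l)
    rw [hc2, Finsupp.support_filter, Finset.mem_filter] at hl
    rw [hc2, Finsupp.filter_apply_pos (fun l => ¬ c l ∉ I) c hl.2]
    exact not_not.1 hl.2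
  have hne : c1.support.Nonempty := by
    rw [Finset.nonempty_iff_ne_empty]
    intro h0
    rw [Finsupp.support_eq_empty] at h0
    apply hF
    rw [hF12, hF1, h0, Finsupp.sum_zero_index, zero_add]
    exact hF2m
  obtain ⟨l0, hl0, hmax⟩ := precE_max c1.support hne
  have hl0I : c1 l0 ∉ I := by
    rw [hc1, Finsupp.support_filter, Finset.mem_filter] at hl0
    rw [hc1, Finsupp.filter_apply_pos (fun l => c l ∉ I) c hl0.2]
    exact hl0.2
  obtain ⟨hL1, hL2⟩ := BL_lead hb2 hb3 c1 l0 hmax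
  rw [← hF1] at hL1 hL2
  obtain ⟨P, hP⟩ := exists_win d hd l0
  refine ⟨P, hP.bd, fun N Θ hΘ hΘI hmem => ?_⟩
  have hdeg : ∀ a ∈ Θ.support, a.degree = N := by
    intro a ha
    rw [Finsupp.degree_eq_weight_one]
    exact hΘ (mem_support_iff.1 ha)
  have hmonJ : ∀ a ∈ Θ.support, (a.prod fun o m => alt k (Dp (P o)) ^ m) ∈ Jd k ι N := by
    intro a ha
    have := BL_prod_mem (k := k) (P := P) a
    rwa [hdeg a ha] at this
  obtain ⟨s, hs⟩ : ∃ s : Finset (Option ι →₀ ℕ), ∀ a, a ∈ s ↔ a ∈ Θ.support ∧ Θ.coeff a ∉ I :=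
    ⟨Θ.support.filter (fun a => Θ.coeff a ∉ I), fun a => Finset.mem_filter⟩
  have hsne : s.Nonempty := by
    obtain ⟨a, ha⟩ := hΘI
    refine ⟨a, (hs a).2 ⟨?_, ha⟩⟩
    rw [mem_support_iff]
    exact fun h0 => ha (by rw [h0]; exact I.zero_mem)
  rw [hF12] at hmem
  have hA : ∀ a ∈ Θ.support, (a.prod fun o m => alt k (Dp (P o)) ^ m) * F2 ∈
      I.map (yB : BB k ι →ₐ[k] RR k ι) * Jd k ι (d + N) := fun a ha => by
    have := BL_IJ_mul hF2m (hmonJ a ha)
    rwa [mul_comm F2] at this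
  have hB : ∀ a ∈ Θ.support, Θ.coeff a ∈ I →
      ((yB : BB k ι →ₐ[k] RR k ι) : BB k ι →+* RR k ι) (Θ.coeff a) *
        ((a.prod fun o m => alt k (Dp (P o)) ^ m) * (F1 + F2)) ∈
      I.map (yB : BB k ι →ₐ[k] RR k ι) * Jd k ι (d + N) := fun a ha haI => by
    have h1 := mul_mem_Jd hFJ (hmonJ a ha)
    rw [mul_comm F, hF12] at h1
    exact Ideal.mul_mem_mul (Ideal.mem_map_of_mem _ haI) h1
  have hGm := BL_red ((yB : BB k ι →ₐ[k] RR k ι) : BB k ι →+* RR k ι)
    (fun o => alt k (Dp (P o))) I Θ F1 F2 (I.map (yB : BB k ι →ₐ[k] RR k ι) * Jd k ι (d + N))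
    hA hB hmem s hs
  exact BL_core2 I hP hL1 hL2 hl0I N Θ hdeg s hs hsne hGm

end

end Pool.Agent.Lib.MP_463376_co.StreamB
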