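import Pool.Agent.Lib.MP_463376_co.I1

/-!
# Stream B, job B_Ord: the order of exponents

Times `tm l i = n * l i + (n - 1 - idx i)` are distinct modulo `n` (`tm_inj`), so the set of times determines `l`.
`precE a b`: at the smallest time `t` which belongs to exactly one of the sets of times, `t` is a time of `b`.

Proof of `precE_add`. If `l' = l` and `p' = p` do not both hold, let `i0` be an index with `l' i0 ≠ l i0` or `p' i0 ≠ p i0`
with minimal `tm l i0`; `G = {i : tm l i < tm l i0}`, so `l' = l`, `p' = p` on `G`.
(1) `p' i ≥ p i0` for `i` not in `G`: otherwise let `c = p i0`; `{j : p j < c} ⊆ G` by `hinc`, so `{j : p j < c} ⊆ {j : p' j < c}`; both have the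
same cardinality (`p' = p ∘ σ`), hence they are equal, and `i` would be in `G`.
(2) `tm l' i ≥ tm l i0` for `i` not in `G`: clear if `l' = l`. If `precE l' l` with `t`: suppose `tm l' i < tm l i0`. If `tm l' i < t` then
`tm l' i` is a time of `l`, hence `tm l' i = tm l i` by `tm_inj`, contradiction. If `t ≤ tm l' i`: `t = tm l j < tm l i0`, so `j` is in `G` and
`t = tm l' j`, contradiction.
Put `T = tm l i0 + n * p i0 = tm (l + p) i0` (use `tm_add`). Times of `l' + p'` at `i` not in `G` are `≥ T`, and equality would give `tm l' i = tm l i0` and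
`p' i = p i0`, so `i = i0` by `tm_inj` and `l' i0 = l i0`, contradiction. Times at `G` agree for `l' + p'` and `l + p` and are `< T`.
So `T` witnesses `precE (l' + p') (l + p)`.
-/

set_option autoImplicit false

namespace Pool.Agent.Lib.MP_463376_co.StreamB

section
variable {ι : Type} [Fintype ι] [DecidableEq ι]

theorem tm_add (l p : ι →₀ ℕ) (i : ι) : tm (l + p) i = tm l i + Fintype.card ι * p i := by
  unfold tm
  rw [Finsupp.add_apply]
  ring

theorem tm_inj {l l' : ι →₀ ℕ} {i j : ι} (h : tm l i = tm l' j) : i = j ∧ l i = l' j := by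
  unfold tm at h
  have hi := (Fintype.equivFin ι i).isLt
  have hj := (Fintype.equivFin ι j).isLt
  have hn : 0 < Fintype.card ι := by omega
  have h1 := congrArg (· % Fintype.card ι) h
  simp only [Nat.mul_add_mod] at h1
  rw [Nat.mod_eq_of_lt (by omega), Nat.mod_eq_of_lt (by omega)] at h1
  have h2 : ((Fintype.equivFin ι i : Fin (Fintype.card ι)) : ℕ) = Fintype.equivFin ι j := by omega
  have h3 : i = j := (Fintype.equivFin ι).injective (Fin.ext h2)
  refine ⟨h3, ?_⟩
  rw [h1] at h
  have h4 := Nat.add_right_cancel h
  exact Nat.eq_of_mul_eq_mul_left hn h4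

theorem precE_irrefl (l : ι →₀ ℕ) : ¬ precE l l := by
  rintro ⟨t, h1, h2, _⟩
  exact h2 h1

theorem precE_trans {a b c : ι →₀ ℕ} (h1 : precE a b) (h2 : precE b c) : precE a c := by
  obtain ⟨t1, h1a, h1b, h1c⟩ := h1
  obtain ⟨t2, h2a, h2b, h2c⟩ := h2
  rcases lt_trichotomy t1 t2 with h | h | h
  · exact ⟨t1, (h2c t1 h).mpr h1a, h1b, fun s hs => (h2c s (hs.trans h)).trans (h1c s hs)⟩
  · subst h
    exact absurd h1a h2b
  · exact ⟨t2, h2a, fun h' => h2b ((h1c t2 h).mpr h'),
      fun s hs => (h2c s hs).trans (h1c s (hs.trans h))⟩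

theorem precE_tri (a b : ι →₀ ℕ) : a = b ∨ precE a b ∨ precE b a := by
  classical
  by_cases h : ∃ s, ¬ (s ∈ Set.range (tm a) ↔ s ∈ Set.range (tm b))
  · right
    have h1 := Nat.find_spec h
    have h2 : ∀ s < Nat.find h, (s ∈ Set.range (tm a) ↔ s ∈ Set.range (tm b)) := by
      intro s hs
      by_contra hc
      exact Nat.find_min h hs hc
    by_cases ha : Nat.find h ∈ Set.range (tm a)
    · right
      refine ⟨Nat.find h, ha, fun hb => h1 ⟨fun _ => hb, fun _ => ha⟩, h2⟩
    · left
      have hb : Nat.find h ∈ Set.range (tm b) := by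
        by_contra hb
        exact h1 ⟨fun h => absurd h ha, fun h => absurd h hb⟩
      exact ⟨Nat.find h, hb, ha, fun s hs => (h2 s hs).symm⟩
  · left
    push Not at h
    ext i
    obtain ⟨j, hj⟩ := (h (tm a i)).mp ⟨i, rfl⟩
    obtain ⟨h1, h2⟩ := tm_inj hj
    subst h1
    exact h2.symm

/-- A nonempty finite set of exponents has a largest element. -/
theorem precE_max (s : Finset (ι →₀ ℕ)) (hs : s.Nonempty) :
    ∃ m ∈ s, ∀ x ∈ s, x = m ∨ precE x m := by
  classical
  induction hs using Finset.Nonempty.cons_induction with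
  | singleton a => exact ⟨a, by simp, fun x hx => Or.inl (by simpa using hx)⟩
  | cons a s ha hs ih =>
    obtain ⟨m, hm, h⟩ := ih
    rcases precE_tri a m with h1 | h1 | h1
    · refine ⟨m, Finset.mem_cons_of_mem hm, fun x hx => ?_⟩
      rcases Finset.mem_cons.mp hx with rfl | hx
      · exact Or.inl h1
      · exact h x hx
    · refine ⟨m, Finset.mem_cons_of_mem hm, fun x hx => ?_⟩
      rcases Finset.mem_cons.mp hx with rfl | hx
      · exact Or.inr h1
      · exact h x hx
    · refine ⟨a, Finset.mem_cons_self _ _, fun x hx => ?_⟩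
      rcases Finset.mem_cons.mp hx with rfl | hx
      · exact Or.inl rfl
      · rcases h x hx with rfl | h2
        · exact Or.inr h1
        · exact Or.inr (precE_trans h2 h1)

theorem precE_add {l l' p p' : ι →₀ ℕ} (hl : l' = l ∨ precE l' l)
    (hinc : ∀ i j, tm l i < tm l j → p i ≤ p j) (hp : ∃ σ : Equiv.Perm ι, ∀ i, p' i = p (σ i)) :
    (l' = l ∧ p' = p) ∨ precE (l' + p') (l + p) := by
  classical
  by_cases heq : l' = l ∧ p' = p
  · exact Or.inl heq
  right
  obtain ⟨σ, hσ⟩ := hp
  -- a disagreement with minimal time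
  have hex : (Finset.univ.filter fun i : ι => l' i ≠ l i ∨ p' i ≠ p i).Nonempty := by
    by_contra hc
    rw [Finset.not_nonempty_iff_eq_empty] at hc
    have h1 : ∀ i : ι, l' i = l i ∧ p' i = p i := by
      intro i
      by_contra hi
      have : i ∈ (Finset.univ.filter fun i : ι => l' i ≠ l i ∨ p' i ≠ p i) := by
        simp only [Finset.mem_filter, Finset.mem_univ, true_and]
        by_contra h2
        push Not at h2
        exact hi h2
      rw [hc] at this
      simp at this
    exact heq ⟨Finsupp.ext fun i => (h1 i).1, Finsupp.ext fun i => (h1 i).2⟩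
  obtain ⟨i0, hi0, hmin⟩ := Finset.exists_min_image _ (tm l) hex
  simp only [Finset.mem_filter, Finset.mem_univ, true_and] at hi0 hmin
  have hG : ∀ i, tm l i < tm l i0 → l' i = l i ∧ p' i = p i := by
    intro i hi
    by_contra hc
    have : l' i ≠ l i ∨ p' i ≠ p i := by
      by_contra h2
      push Not at h2
      exact hc h2
    exact absurd (hmin i this) (by omega)
  -- (1)
  have h1 : ∀ i, ¬ tm l i < tm l i0 → p i0 ≤ p' i := by
    intro i hi
    by_contra hc
    push Not at hc
    have e1 : (Finset.univ.filter fun j : ι => p j < p i0) ⊆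
        (Finset.univ.filter fun j : ι => p' j < p i0) := by
      intro j hj
      simp only [Finset.mem_filter, Finset.mem_univ, true_and] at hj ⊢
      have h2 : tm l j < tm l i0 := by
        by_contra h3
        push Not at h3
        rcases h3.lt_or_eq with h4 | h4
        · exact absurd (hinc i0 j h4) (by omega)
        · have := (tm_inj h4).1
          subst this
          omega
      rw [(hG j h2).2]
      exact hj
    have e2 : (Finset.univ.filter fun j : ι => p' j < p i0).card =
        (Finset.univ.filter fun j : ι => p j < p i0).card := by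
      refine Finset.card_bij (fun j _ => σ j) ?_ ?_ ?_
      · intro j hj
        simp only [Finset.mem_filter, Finset.mem_univ, true_and] at hj ⊢
        rw [← hσ j]
        exact hj
      · intro a _ b _ h
        exact σ.injective h
      · intro b hb
        simp only [Finset.mem_filter, Finset.mem_univ, true_and] at hb
        refine ⟨σ.symm b, ?_, by simp⟩
        simp only [Finset.mem_filter, Finset.mem_univ, true_and]
        rw [hσ, Equiv.apply_symm_apply]
        exact hb
    have e3 := Finset.eq_of_subset_of_card_le e1 e2.le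
    have e4 : i ∈ (Finset.univ.filter fun j : ι => p' j < p i0) := by
      simp only [Finset.mem_filter, Finset.mem_univ, true_and]
      exact hc
    rw [← e3] at e4
    simp only [Finset.mem_filter, Finset.mem_univ, true_and] at e4
    push Not at hi
    rcases hi.lt_or_eq with h4 | h4
    · exact absurd (hinc i0 i h4) (by omega)
    · have := (tm_inj h4).1
      subst this
      omega
  -- (2)
  have h2 : ∀ i, ¬ tm l i < tm l i0 → tm l i0 ≤ tm l' i := by
    intro i hi
    rcases hl with rfl | ⟨t, ht1, ht2, ht3⟩
    · omega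
    · by_contra hc
      push Not at hc
      by_cases h3 : tm l' i < t
      · obtain ⟨j, hj⟩ := (ht3 _ h3).mpr ⟨i, rfl⟩
        have h4 := (tm_inj hj).1
        subst h4
        omega
      · obtain ⟨j, hj⟩ := ht1
        have h4 : tm l j < tm l i0 := by omega
        have h5 := (hG j h4).1
        apply ht2
        refine ⟨j, ?_⟩
        rw [← hj]
        unfold tm
        rw [h5]
  have hT : tm (l + p) i0 = tm l i0 + Fintype.card ι * p i0 := tm_add l p i0
  have hG' : ∀ i, tm l i < tm l i0 → tm (l' + p') i = tm (l + p) i ∧ tm (l + p) i < tm (l + p) i0 := by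
    intro i hi
    obtain ⟨e1, e2⟩ := hG i hi
    constructor
    · unfold tm
      rw [Finsupp.add_apply, Finsupp.add_apply, e1, e2]
    · rw [tm_add, tm_add]
      have := hinc i i0 hi
      have := Nat.mul_le_mul_left (Fintype.card ι) this
      omega
  have hnG : ∀ i, ¬ tm l i < tm l i0 → tm (l + p) i0 < tm (l' + p') i := by
    intro i hi
    have a1 := h1 i hi
    have a2 := h2 i hi
    have a3 := Nat.mul_le_mul_left (Fintype.card ι) a1
    have hle : tm (l + p) i0 ≤ tm (l' + p') i := by
      rw [tm_add, tm_add]; omega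
    rcases hle.lt_or_eq with h | h
    · exact h
    · exfalso
      have b1 := (tm_inj h).1
      subst b1
      rw [tm_add, tm_add] at h
      have b2 : tm l i0 = tm l' i0 := by omega
      have b3 : Fintype.card ι * p i0 = Fintype.card ι * p' i0 := by omega
      have hn : 0 < Fintype.card ι := Fintype.card_pos_iff.mpr ⟨i0⟩
      have b4 := Nat.eq_of_mul_eq_mul_left hn b3
      have b5 := (tm_inj b2).2
      rcases hi0 with h | h
      · exact h b5.symm
      · exact h b4.symm
  have hnG2 : ∀ i, ¬ tm l i < tm l i0 → tm (l + p) i0 ≤ tm (l + p) i := by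
    intro i hi
    push Not at hi
    rcases hi.lt_or_eq with h | h
    · rw [tm_add, tm_add]
      have := Nat.mul_le_mul_left (Fintype.card ι) (hinc i0 i h)
      omega
    · rw [(tm_inj h).1]
  refine ⟨tm (l + p) i0, ⟨i0, rfl⟩, ?_, ?_⟩
  · rintro ⟨i, hi⟩
    by_cases hh : tm l i < tm l i0
    · obtain ⟨c1, c2⟩ := hG' i hh
      omega
    · have := hnG i hh
      omega
  · intro s hs
    constructor
    · rintro ⟨i, rfl⟩
      by_cases hh : tm l i < tm l i0
      · exact ⟨i, (hG' i hh).1⟩
      · have := hnG2 i hh
        omega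
    · rintro ⟨i, rfl⟩
      by_cases hh : tm l i < tm l i0
      · exact ⟨i, (hG' i hh).1.symm⟩
      · have := hnG i hh
        omega

end

end Pool.Agent.Lib.MP_463376_co.StreamB
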