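import Mathlib

/-!
# Stream B: transcendence degree from homogeneous independence
-/

set_option autoImplicit false

namespace Pool.Agent.Lib.MP_463376_co.StreamB

open MvPolynomial

/-- exponent of the homogenization -/
noncomputable def hexp {σ : Type} (N : ℕ) (a : σ →₀ ℕ) : Option σ →₀ ℕ :=
  a.mapDomain some + Finsupp.single none (N - a.degree)

theorem hexp_some {σ : Type} (N : ℕ) (a : σ →₀ ℕ) (i : σ) : hexp N a (some i) = a i := by
  rw [hexp, Finsupp.add_apply, Finsupp.mapDomain_apply (Option.some_injective _),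
    Finsupp.single_eq_of_ne (by simp), add_zero]

theorem hexp_none {σ : Type} (N : ℕ) (a : σ →₀ ℕ) : hexp N a none = N - a.degree := by
  rw [hexp, Finsupp.add_apply, Finsupp.mapDomain_of_notMem_range _ _ (by simp),
    Finsupp.single_eq_same, zero_add]

theorem hexp_inj {σ : Type} (N : ℕ) {a b : σ →₀ ℕ} (h : hexp N a = hexp N b) : a = b := by
  ext i
  rw [← hexp_some N a, ← hexp_some N b, h]

theorem hexp_degree {σ : Type} (N : ℕ) (a : σ →₀ ℕ) (ha : a.degree ≤ N) :
    (hexp N a).degree = N := by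
  rw [hexp, map_add, Finsupp.degree_single]
  rw [Finsupp.degree_mapDomain]
  omega

/-- homogenization -/
noncomputable def homog {σ B : Type} [CommRing B] (ψ : MvPolynomial σ B) :
    MvPolynomial (Option σ) B :=
  ∑ a ∈ ψ.support, monomial (hexp ψ.totalDegree a) (ψ.coeff a)

theorem degree_le_totalDegree' {σ B : Type} [CommRing B] {ψ : MvPolynomial σ B} {a : σ →₀ ℕ}
    (ha : a ∈ ψ.support) : a.degree ≤ ψ.totalDegree := by
  rw [Finsupp.degree_apply]
  exact le_totalDegree ha

theorem homog_isHomogeneous {σ B : Type} [CommRing B] (ψ : MvPolynomial σ B) :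
    (homog ψ).IsHomogeneous ψ.totalDegree := by
  refine IsHomogeneous.sum _ _ _ fun a ha => ?_
  exact isHomogeneous_monomial _ (hexp_degree _ _ (degree_le_totalDegree' ha))

theorem homog_coeff {σ B : Type} [CommRing B] (ψ : MvPolynomial σ B) (a : σ →₀ ℕ) :
    (homog ψ).coeff (hexp ψ.totalDegree a) = ψ.coeff a := by
  classical
  rw [homog, coeff_sum]
  by_cases ha : a ∈ ψ.support
  · rw [Finset.sum_eq_single a]
    · rw [coeff_monomial, if_pos rfl]
    · intro b _ hb
      rw [coeff_monomial, if_neg (fun h => hb (hexp_inj _ h))]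
    · intro h; exact absurd ha h
  · rw [notMem_support_iff.1 ha]
    refine Finset.sum_eq_zero fun b hb => ?_
    rw [coeff_monomial, if_neg]
    intro h
    rw [hexp_inj _ h] at hb
    exact ha hb

theorem homog_eval {σ B K : Type} [CommRing B] [Field K] (φ : B →+* K) (t : Option σ → K)
    (ht : t none ≠ 0) (ψ : MvPolynomial σ B) :
    eval₂ φ t (homog ψ) =
      t none ^ ψ.totalDegree * eval₂ φ (fun i => t (some i) / t none) ψ := by
  rw [homog, eval₂_sum, eval₂_eq φ (fun i => t (some i) / t none) ψ, Finset.mul_sum]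
  refine Finset.sum_congr rfl fun a ha => ?_
  rw [eval₂_monomial]
  have hd := degree_le_totalDegree' ha
  have e1 : ((hexp ψ.totalDegree a).prod fun n e => t n ^ e) =
      (∏ i ∈ a.support, t (some i) ^ a i) * t none ^ (ψ.totalDegree - a.degree) := by
    rw [hexp, Finsupp.prod_add_index' (by simp) (by intros; rw [pow_add]),
      Finsupp.prod_single_index (by simp),
      Finsupp.prod_mapDomain_index (by simp) (by intros; rw [pow_add])]
    rfl
  rw [e1]
  have e2 : ∏ i ∈ a.support, (t (some i) / t none) ^ a i =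
      (∏ i ∈ a.support, t (some i) ^ a i) / t none ^ a.degree := by
    simp only [div_pow]
    rw [Finset.prod_div_distrib, Finset.prod_pow_eq_pow_sum, Finsupp.degree_apply]
  rw [e2]
  have e3 : t none ^ ψ.totalDegree = t none ^ (ψ.totalDegree - a.degree) * t none ^ a.degree := by
    rw [← pow_add]; congr 1; omega
  rw [e3]
  have h0 : t none ^ a.degree ≠ 0 := pow_ne_zero _ ht
  field_simp

theorem TR {k B O C : Type} [Field k] [CommRing B] [Algebra k B] [CommRing O] [Algebra k O]
    [CommRing C] [Algebra k C] {ι : Type} [Fintype ι] (y : B →ₐ[k] C) (j : O →ₐ[k] C)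
    (I : Ideal B) [I.IsPrime] (q : Ideal O) (cc : Ideal C) (t : Option ι → C)
    (h1 : ∀ i ∈ I, y i ∈ cc) (h2 : ∀ a ∈ q, j a ∈ cc)
    (h3 : ∀ (N : ℕ) (Θ : MvPolynomial (Option ι) B), Θ.IsHomogeneous N →
      (∃ a, Θ.coeff a ∉ I) → eval₂ (y : B →+* C) t Θ ∉ cc)
    (h4 : ∀ c : C, (j : O →+* C).IsIntegralElem c) :
    (Fintype.card ι : Cardinal) + Algebra.trdeg k (B ⧸ I) ≤ Algebra.trdeg k (O ⧸ q) := by
  classical
  have hmap : ∀ Θ : MvPolynomial (Option ι) B,
      (∃ a, Θ.coeff a ∉ I) ↔ map (Ideal.Quotient.mk I) Θ ≠ 0 := by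
    intro Θ
    rw [Ne, MvPolynomial.ext_iff, not_forall]
    refine exists_congr fun a => ?_
    rw [coeff_map, coeff_zero, Ideal.Quotient.eq_zero_iff_mem]
  let S : Submonoid C :=
    { carrier := {x | ∃ (N : ℕ) (Θ : MvPolynomial (Option ι) B), Θ.IsHomogeneous N ∧
        map (Ideal.Quotient.mk I) Θ ≠ 0 ∧ x = eval₂ (y : B →+* C) t Θ}
      one_mem' := ⟨0, 1, isHomogeneous_one _ _, by simp, by simp⟩
      mul_mem' := by
        rintro _ _ ⟨N, Θ, h, h', rfl⟩ ⟨N', Θ', g, g', rfl⟩
        refine ⟨N + N', Θ * Θ', h.mul g, ?_, by rw [eval₂_mul]⟩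
        rw [map_mul]
        exact mul_ne_zero h' g' }
  have hdisj : Disjoint (cc : Set C) S := by
    rw [Set.disjoint_left]
    rintro _ hx ⟨N, Θ, h, h', rfl⟩
    exact h3 N Θ h ((hmap Θ).2 h') hx
  obtain ⟨Q, hQ, hcc, hQS⟩ := Ideal.exists_le_prime_disjoint cc S hdisj
  rw [Set.disjoint_left] at hQS
  let K := FractionRing (C ⧸ Q)
  let π : C →ₐ[k] K := (IsScalarTower.toAlgHom k (C ⧸ Q) K).comp (Ideal.Quotient.mkₐ k Q)
  have hπ : ∀ c, π c = 0 ↔ c ∈ Q := by
    intro c
    show algebraMap (C ⧸ Q) K (Ideal.Quotient.mk Q c) = 0 ↔ _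
    rw [FaithfulSMul.algebraMap_eq_zero_iff, Ideal.Quotient.eq_zero_iff_mem]
  -- B / I → K
  have hI : ∀ i ∈ I, (π.comp y) i = 0 := fun i hi => (hπ _).2 (hcc (h1 i hi))
  let φB : (B ⧸ I) →ₐ[k] K := Ideal.Quotient.liftₐ I (π.comp y) hI
  have hφB : ∀ b, φB (Ideal.Quotient.mk I b) = π (y b) := fun b => rfl
  have hφBinj : Function.Injective φB := by
    rw [injective_iff_map_eq_zero]
    intro b hb
    obtain ⟨b, rfl⟩ := Ideal.Quotient.mk_surjective b
    rw [hφB, hπ] at hb
    by_contra hne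
    refine hQS hb ⟨0, MvPolynomial.C b, isHomogeneous_C _ _, ?_, by simp⟩
    rw [map_C]
    simpa using hne
  let algB : Algebra (B ⧸ I) K := (φB : (B ⧸ I) →+* K).toAlgebra
  have towB : IsScalarTower k (B ⧸ I) K := IsScalarTower.of_algebraMap_eq fun x =>
    (φB.commutes x).symm
  have faiB : FaithfulSMul (B ⧸ I) K := (faithfulSMul_iff_algebraMap_injective _ _).2 hφBinj
  have faik : FaithfulSMul k (B ⧸ I) := (faithfulSMul_iff_algebraMap_injective _ _).2
    (algebraMap k (B ⧸ I)).injective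
  -- O / q' → K
  let q' : Ideal O := RingHom.ker (π.comp j)
  let φO : (O ⧸ q') →ₐ[k] K := Ideal.kerLiftAlg (π.comp j)
  have hφO : ∀ a, φO (Ideal.Quotient.mk q' a) = π (j a) := fun a => rfl
  have hφOinj : Function.Injective φO := Ideal.kerLiftAlg_injective (π.comp j)
  have step1 : Algebra.trdeg k K ≤ Algebra.trdeg k (O ⧸ q) := by
    have : Nontrivial (O ⧸ q') := φO.toRingHom.domain_nontrivial
    let algO : Algebra (O ⧸ q') K := (φO : (O ⧸ q') →+* K).toAlgebra
    have towO : IsScalarTower k (O ⧸ q') K := IsScalarTower.of_algebraMap_eq fun x =>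
      (φO.commutes x).symm
    have faiO : FaithfulSMul (O ⧸ q') K :=
      (faithfulSMul_iff_algebraMap_injective _ _).2 hφOinj
    have faikO : FaithfulSMul k (O ⧸ q') := (faithfulSMul_iff_algebraMap_injective _ _).2
      (algebraMap k (O ⧸ q')).injective
    have : IsDomain (O ⧸ q') := hφOinj.isDomain φO.toRingHom
    have hint : ∀ c : C, IsAlgebraic (O ⧸ q') (π c) := by
      intro c
      obtain ⟨p, hp, hpc⟩ := h4 c
      refine IsIntegral.isAlgebraic ⟨p.map (Ideal.Quotient.mk q'), hp.map _, ?_⟩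
      rw [Polynomial.eval₂_map]
      have e : (algebraMap (O ⧸ q') K).comp (Ideal.Quotient.mk q') =
          (π : C →+* K).comp (j : O →+* C) := rfl
      rw [e]
      have h5 := congrArg π hpc
      rw [map_zero] at h5
      rw [← h5]
      exact (Polynomial.hom_eval₂ p (j : O →+* C) (π : C →+* K) c).symm
    have halg : Algebra.IsAlgebraic (O ⧸ q') K := by
      refine ⟨fun x => ?_⟩
      obtain ⟨a, b, hb, rfl⟩ := IsFractionRing.div_surjective (A := C ⧸ Q) x
      obtain ⟨a, rfl⟩ := Ideal.Quotient.mk_surjective a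
      obtain ⟨b, rfl⟩ := Ideal.Quotient.mk_surjective b
      rw [div_eq_mul_inv]
      exact (hint a).mul (hint b).inv
    have h6 := trdeg_add_eq k (O ⧸ q') (A := K)
    rw [trdeg_eq_zero (R := O ⧸ q') (A := K), add_zero] at h6
    rw [← h6]
    have hqq : q ≤ q' := fun a ha => (hπ _).2 (hcc (h2 a ha))
    exact trdeg_le_of_surjective (Ideal.Quotient.factorₐ k hqq)
      (Ideal.Quotient.factor_surjective hqq)
  have step2 : (Fintype.card ι : Cardinal) ≤ Algebra.trdeg (B ⧸ I) K := by
    rw [← Cardinal.mk_fintype]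
    have hn : π (t none) ≠ 0 := by
      rw [Ne, hπ]
      intro h
      refine hQS h ⟨1, X none, isHomogeneous_X _ _, ?_, by simp⟩
      rw [map_X]
      exact X_ne_zero _
    have hind : AlgebraicIndependent (B ⧸ I) (fun i : ι => π (t (some i)) / π (t none)) := by
      rw [algebraicIndependent_iff]
      intro p hp
      by_contra hne
      obtain ⟨ψ, rfl⟩ := map_surjective (Ideal.Quotient.mk I) Ideal.Quotient.mk_surjective p
      have h7 : eval₂ ((π : C →+* K).comp (y : B →+* C)) (fun i : ι => π (t (some i)) / π (t none)) ψ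
          = 0 := by
        rw [aeval_def, eval₂_map] at hp
        exact hp
      have h8 : π (eval₂ (y : B →+* C) t (homog ψ)) = 0 := by
        have h9 := homog_eval ((π : C →+* K).comp (y : B →+* C)) (fun o => π (t o)) hn ψ
        rw [h7, mul_zero] at h9
        rw [← h9]
        exact (eval₂_comp_left (π : C →+* K) (y : B →+* C) t (homog ψ))
      rw [hπ] at h8
      refine hQS h8 ⟨_, homog ψ, homog_isHomogeneous ψ, ?_, rfl⟩
      obtain ⟨a, ha⟩ : ∃ a, ψ.coeff a ∉ I := by
        by_contra hno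
        push Not at hno
        apply hne
        rw [MvPolynomial.ext_iff]
        intro a
        rw [coeff_map, coeff_zero, Ideal.Quotient.eq_zero_iff_mem]
        exact hno a
      rw [← hmap]
      exact ⟨hexp ψ.totalDegree a, by rwa [homog_coeff]⟩
    exact hind.cardinalMk_le_trdeg
  have step3 := trdeg_add_le (R := k) (S := B ⧸ I) (A := K)
  calc (Fintype.card ι : Cardinal) + Algebra.trdeg k (B ⧸ I)
      ≤ Algebra.trdeg (B ⧸ I) K + Algebra.trdeg k (B ⧸ I) := by gcongr
    _ = Algebra.trdeg k (B ⧸ I) + Algebra.trdeg (B ⧸ I) K := add_comm _ _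
    _ ≤ Algebra.trdeg k K := step3
    _ ≤ _ := step1

end Pool.Agent.Lib.MP_463376_co.StreamB
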