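import Pool.Agent.Lib.MP_463376_co.B_Lead
import Pool.Agent.Lib.MP_463376_co.B_TR

/-!
# Stream B: purity
-/

set_option autoImplicit false

namespace Pool.Agent.Lib.MP_463376_co.StreamB

open MvPolynomial

section
variable (k : Type) [Field k] {ι : Type} [Fintype ι] [DecidableEq ι]
  (L : Type) [Field L] [Algebra k L] [Algebra (RR k ι) L]
  [IsScalarTower k (RR k ι) L] [IsFractionRing (RR k ι) L] (δ : Dia ι)

omit [Fintype ι] [DecidableEq ι] in
theorem toL_inj : Function.Injective (toL k L : RR k ι →ₐ[k] L) :=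
  IsFractionRing.injective (RR k ι) L

theorem frac_mem {d : ℕ} {f : RR k ι} (hf : f ∈ Jd k ι d) {g : L}
    (h : g * toL k L (dl k δ) ^ d = toL k L f) : g ∈ PP k L δ :=
  Algebra.subset_adjoin ⟨d, f, hf, h⟩

theorem dl_pow_mem (e : ℕ) : dl k δ ^ e ∈ Jd k ι e := by
  induction e with
  | zero => simp [Jd]
  | succ e ih => rw [pow_succ]; exact mul_mem_Jd ih (alt_mem_Jd _)

theorem OO_le_PP' : OO k L δ ≤ PP k L δ := by
  refine Algebra.adjoin_le ?_
  rintro g ⟨D, hD⟩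
  exact frac_mem k L δ (alt_mem_Jd D) (by rw [pow_one]; exact hD)

variable [CharZero k]

theorem toL_dl_ne : toL k L (dl k δ) ≠ 0 := by
  intro h
  exact dl_ne_zero k δ (toL_inj k L (by rw [h, map_zero]))

theorem clearD {I : Ideal (BB k ι)} {h : PP k L δ} (hh : h ∈ I.map (yP k L δ)) :
    ∃ e0 : ℕ, ∀ e ≥ e0, ∃ H ∈ I.map (yB : BB k ι →ₐ[k] RR k ι) * Jd k ι e,
      (h : L) * toL k L (dl k δ) ^ e = toL k L H := by
  refine Submodule.span_induction ?_ ?_ ?_ ?_ hh
  · rintro _ ⟨i, hi, rfl⟩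
    refine ⟨0, fun e _ => ⟨yB i * dl k δ ^ e, Ideal.mul_mem_mul (Ideal.mem_map_of_mem _ hi)
      (dl_pow_mem k δ e), ?_⟩⟩
    rw [map_mul, map_pow]
    rfl
  · exact ⟨0, fun e _ => ⟨0, Ideal.zero_mem _, by simp⟩⟩
  · rintro x y _ _ ⟨e1, h1⟩ ⟨e2, h2⟩
    refine ⟨max e1 e2, fun e he => ?_⟩
    obtain ⟨H1, hH1, hH1'⟩ := h1 e (le_trans (le_max_left _ _) he)
    obtain ⟨H2, hH2, hH2'⟩ := h2 e (le_trans (le_max_right _ _) he)
    refine ⟨H1 + H2, Ideal.add_mem _ hH1 hH2, ?_⟩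
    rw [map_add, ← hH1', ← hH2', ← add_mul]
    rfl
  · rintro a x _ ⟨e0, h0⟩
    obtain ⟨d, f, hf, hf'⟩ := (mem_PP_iff k L δ (a : L)).1 a.2
    refine ⟨e0 + d, fun e he => ?_⟩
    obtain ⟨H, hH, hH'⟩ := h0 (e - d) (by omega)
    refine ⟨H * f, ?_, ?_⟩
    · have := BL_IJ_mul hH hf
      rwa [Nat.sub_add_cancel (by omega)] at this
    · rw [map_mul, ← hH', ← hf', smul_eq_mul]
      have e1 : toL k L (dl k δ) ^ e = toL k L (dl k δ) ^ (e - d) * toL k L (dl k δ) ^ d := by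
        rw [← pow_add]; congr 1; omega
      rw [e1]
      push_cast
      ring

theorem unclearD {I : Ideal (BB k ι)} {e : ℕ} {F : RR k ι}
    (hF : F ∈ I.map (yB : BB k ι →ₐ[k] RR k ι) * Jd k ι e) :
    ∃ G ∈ I.map (yP k L δ), (G : L) * toL k L (dl k δ) ^ e = toL k L F := by
  have hne : toL k L (dl k δ) ^ e ≠ 0 := pow_ne_zero _ (toL_dl_ne k L δ)
  refine Submodule.mul_induction_on hF (fun s hs f hf => ?_) ?_
  · let p : PP k L δ := ⟨toL k L f / toL k L (dl k δ) ^ e,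
      frac_mem k L δ hf (div_mul_cancel₀ _ hne)⟩
    have hp : (p : L) * toL k L (dl k δ) ^ e = toL k L f := div_mul_cancel₀ _ hne
    refine Submodule.span_induction ?_ ?_ ?_ ?_ hs
    · rintro _ ⟨i, hi, rfl⟩
      refine ⟨yP k L δ i * p, Ideal.mul_mem_right _ _ (Ideal.mem_map_of_mem _ hi), ?_⟩
      rw [map_mul, ← hp]
      show ((yP k L δ i : L) * (p : L)) * _ = _
      rw [mul_assoc]
      rfl
    · exact ⟨0, Ideal.zero_mem _, by simp⟩
    · rintro x y _ _ ⟨G1, h1, h1'⟩ ⟨G2, h2, h2'⟩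
      refine ⟨G1 + G2, Ideal.add_mem _ h1 h2, ?_⟩
      rw [add_mul, map_add, ← h1', ← h2', ← add_mul]
      rfl
    · rintro a x _ ⟨G1, h1, h1'⟩
      refine ⟨toP k L δ a * G1, Ideal.mul_mem_left _ _ h1, ?_⟩
      rw [smul_eq_mul, mul_assoc, map_mul, ← h1']
      show ((toP k L δ a : L) * (G1 : L)) * _ = _
      rw [mul_assoc]
      rfl
  · rintro x y ⟨G1, h1, h1'⟩ ⟨G2, h2, h2'⟩
    refine ⟨G1 + G2, Ideal.add_mem _ h1 h2, ?_⟩
    rw [map_add, ← h1', ← h2', ← add_mul]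
    rfl

omit [CharZero k] [IsFractionRing (RR k ι) L] [Fintype ι] [DecidableEq ι] in
theorem hom_scale {σ : Type} {N : ℕ} {Θ : MvPolynomial σ (BB k ι)} (hΘ : Θ.IsHomogeneous N)
    (φ : BB k ι →+* L) (t A : σ → L) (D : L) (ht : ∀ o, t o * D = A o) :
    eval₂ φ t Θ * D ^ N = eval₂ φ A Θ := by
  rw [eval₂_eq, eval₂_eq, Finset.sum_mul]
  refine Finset.sum_congr rfl fun a ha => ?_
  have hd : a.degree = N := by
    rw [Finsupp.degree_eq_weight_one]
    exact hΘ (mem_support_iff.1 ha)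
  rw [mul_assoc, ← hd, Finsupp.degree_apply, ← Finset.prod_pow_eq_pow_sum,
    ← Finset.prod_mul_distrib]
  congr 1
  refine Finset.prod_congr rfl fun o _ => ?_
  rw [← mul_pow, ht]

theorem nonvan (I : Ideal (BB k ι)) [I.IsPrime] (g : PP k L δ) (hg : g ∉ I.map (yP k L δ)) :
    ∃ P : Option ι → (ι →₀ ℕ), ∀ (N : ℕ) (Θ : MvPolynomial (Option ι) (BB k ι)),
      Θ.IsHomogeneous N → (∃ a, Θ.coeff a ∉ I) → ∀ x : PP k L δ,
      (x : L) = eval₂ (((toL k L : RR k ι →ₐ[k] L) : RR k ι →+* L).comp ((yB : BB k ι →ₐ[k] RR k ι) : BB k ι →+* RR k ι))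
        (fun o => toL k L (alt k (Dp (P o))) / toL k L (dl k δ)) Θ →
      x * g ∉ I.map (yP k L δ) := by
  classical
  obtain ⟨d0, f, hf, hf'⟩ := (mem_PP_iff k L δ (g : L)).1 g.2
  have hne := toL_dl_ne k L δ
  have hFJ : ∀ d : ℕ, f * dl k δ ^ (d + 1) ∈ Jd k ι (d0 + (d + 1)) := fun d =>
    mul_mem_Jd hf (dl_pow_mem k δ _)
  have hFg : ∀ d : ℕ, (g : L) * toL k L (dl k δ) ^ (d0 + (d + 1)) =
      toL k L (f * dl k δ ^ (d + 1)) := by
    intro d
    rw [map_mul, map_pow, ← hf', pow_add]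
    ring
  have hFI : ∀ d : ℕ, f * dl k δ ^ (d + 1) ∉
      I.map (yB : BB k ι →ₐ[k] RR k ι) * Jd k ι (d0 + (d + 1)) := by
    intro d h
    obtain ⟨G, hG, hG'⟩ := unclearD k L δ h
    rw [← hFg d] at hG'
    have h1 := mul_right_cancel₀ (pow_ne_zero _ hne) hG'
    have h2 : G = g := Subtype.ext h1
    rw [h2] at hG
    exact hg hG
  choose P hbd hP using fun d : ℕ => BL_core I (d := d0 + (d + 1)) (by omega) (hFJ d) (hFI d)
  let code : ℕ → (Option ι → ι → Fin (2 * Fintype.card ι + 1)) := fun d o i =>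
    ⟨P d o i, Nat.lt_succ_of_le (hbd d o i)⟩
  obtain ⟨y, hy⟩ := Finite.exists_infinite_fiber code
  have hinf : (code ⁻¹' {y}).Infinite := Set.infinite_coe_iff.1 hy
  obtain ⟨d1, hd1⟩ := hinf.nonempty
  refine ⟨P d1, fun N Θ hΘ hΘI x hx hmem => ?_⟩
  obtain ⟨e0, he0⟩ := clearD k L δ hmem
  obtain ⟨d, hd, hde⟩ := hinf.exists_gt e0
  have hPd : P d = P d1 := by
    have h1 : code d = code d1 := (Set.mem_singleton_iff.1 hd).trans (Set.mem_singleton_iff.1 hd1).symm
    funext o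
    ext i
    have := congrFun (congrFun h1 o) i
    exact congrArg Fin.val this
  obtain ⟨H, hH, hH'⟩ := he0 (d0 + (d + 1) + N) (by omega)
  have h2 := hom_scale k L hΘ
    (((toL k L : RR k ι →ₐ[k] L) : RR k ι →+* L).comp ((yB : BB k ι →ₐ[k] RR k ι) : BB k ι →+* RR k ι))
    (fun o => toL k L (alt k (Dp (P d1 o))) / toL k L (dl k δ))
    (fun o => toL k L (alt k (Dp (P d1 o)))) (toL k L (dl k δ))
    (fun o => div_mul_cancel₀ _ hne)
  rw [← hx] at h2
  have h3 : toL k L (eval₂ ((yB : BB k ι →ₐ[k] RR k ι) : BB k ι →+* RR k ι)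
      (fun o => alt k (Dp (P d1 o))) Θ * (f * dl k δ ^ (d + 1))) = toL k L H := by
    rw [← hH', map_mul, ← hFg d]
    have h4 : toL k L (eval₂ ((yB : BB k ι →ₐ[k] RR k ι) : BB k ι →+* RR k ι)
      (fun o => alt k (Dp (P d1 o))) Θ) = eval₂ (((toL k L : RR k ι →ₐ[k] L) : RR k ι →+* L).comp
        ((yB : BB k ι →ₐ[k] RR k ι) : BB k ι →+* RR k ι))
        (fun o => toL k L (alt k (Dp (P d1 o)))) Θ :=
      eval₂_comp_left ((toL k L : RR k ι →ₐ[k] L) : RR k ι →+* L) _ _ _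
    rw [h4, ← h2, pow_add _ (d0 + (d + 1)) N]
    push_cast
    ring
  have h5 := toL_inj k L h3
  refine hP d N Θ hΘ hΘI ?_
  rw [hPd, h5]
  exact hH

/-- Cramer's rule -/
theorem cramerO (m : ℕ × ℕ) (i : ι) :
    toL k L (xx i ^ m.1 * yy i ^ m.2) =
      ∑ h : ι, (cO k L δ m h : L) * toL k L (xx i ^ (δ.c h).1 * yy i ^ (δ.c h).2) := by
  have hne := toL_dl_ne k L δ
  let A : Matrix ι ι (RR k ι) := Matrix.of fun i j : ι => xx i ^ (δ.c j).1 * yy i ^ (δ.c j).2
  let b : ι → RR k ι := fun i => xx i ^ m.1 * yy i ^ m.2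
  have h1 := congrFun (Matrix.mulVec_cramer A b) i
  have h2 : ∀ j, A.cramer b j = alt k (Function.update δ.c j m) := by
    intro j
    rw [Matrix.cramer_apply, alt]
    congr 1
    ext1 i' j'
    rw [Matrix.updateCol_apply, Matrix.of_apply]
    by_cases hj : j' = j
    · subst hj
      rw [if_pos rfl, Function.update_self]
    · rw [if_neg hj, Function.update_of_ne hj]
      rfl
  have h3 : ∑ j, xx i ^ (δ.c j).1 * yy i ^ (δ.c j).2 * alt k (Function.update δ.c j m) =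
      dl k δ * (xx i ^ m.1 * yy i ^ m.2) := by
    have : (A.mulVec (A.cramer b)) i = ∑ j, A i j * A.cramer b j := rfl
    rw [this] at h1
    simp only [h2] at h1
    exact h1
  have h4 := congrArg (toL k L) h3
  rw [map_sum, map_mul (toL k L) (dl k δ)] at h4
  apply mul_left_cancel₀ hne
  rw [← h4, Finset.mul_sum]
  refine Finset.sum_congr rfl fun j _ => ?_
  rw [map_mul]
  show _ = _ * (toL k L (alt k (Function.update δ.c j m)) / toL k L (dl k δ) * _)
  field_simp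

theorem isIntegral_yy (i : ι) : IsIntegral (OO k L δ) (toL k L (yy i : RR k ι)) := by
  let v : ι → L := fun h => toL k L (xx i ^ (δ.c h).1 * yy i ^ (δ.c h).2)
  let N : Submodule (OO k L δ) L := Submodule.span (OO k L δ) (Set.range v)
  have hv : ∀ h, v h ∈ N := fun h => Submodule.subset_span ⟨h, rfl⟩
  refine isIntegral_of_smul_mem_submodule (M := L) N ?_ ?_ _ ?_
  · intro h0
    have h1 := hv i
    rw [h0, Submodule.mem_bot] at h1
    have h2 : (xx i ^ (δ.c i).1 * yy i ^ (δ.c i).2 : RR k ι) = 0 :=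
      toL_inj k L (by rw [map_zero]; exact h1)
    exact mul_ne_zero (pow_ne_zero _ (X_ne_zero _)) (pow_ne_zero _ (X_ne_zero _)) h2
  · exact Submodule.fg_span (Set.finite_range v)
  · intro n hn
    refine Submodule.span_induction ?_ ?_ ?_ ?_ hn
    · rintro _ ⟨h, rfl⟩
      have e1 : toL k L (yy i : RR k ι) • v h =
          toL k L (xx i ^ (δ.c h).1 * yy i ^ ((δ.c h).2 + 1)) := by
        rw [smul_eq_mul, ← map_mul]
        congr 1
        ring
      rw [e1, cramerO k L δ ((δ.c h).1, (δ.c h).2 + 1) i]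
      refine Submodule.sum_mem _ fun h' _ => ?_
      exact N.smul_mem (cO k L δ ((δ.c h).1, (δ.c h).2 + 1) h') (hv h')
    · rw [smul_zero]; exact N.zero_mem
    · intro x y _ _ hx hy
      rw [smul_add]; exact N.add_mem hx hy
    · intro a x _ hx
      rw [smul_comm]; exact N.smul_mem a hx

/-- the ring `O[y]` -/
noncomputable def CY : Subalgebra k L :=
  OO k L δ ⊔ ((toL k L).comp (yB : BB k ι →ₐ[k] RR k ι)).range

theorem CY_integral (c : CY k L δ) : IsIntegral (OO k L δ) (c : L) := by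
  let T : Subalgebra k L := (integralClosure (OO k L δ) L).restrictScalars k
  have h1 : CY k L δ ≤ T := by
    refine sup_le ?_ ?_
    · intro a ha
      exact (integralClosure (OO k L δ) L).algebraMap_mem (⟨a, ha⟩ : OO k L δ)
    · rintro _ ⟨b, rfl⟩
      show toL k L (yB b) ∈ T
      induction b using MvPolynomial.induction_on with
      | C a =>
        have : toL k L (yB (C a : BB k ι)) = algebraMap k L a := by
          simp [yB, ← MvPolynomial.algebraMap_eq]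
        rw [this]
        exact T.algebraMap_mem a
      | add p q hp hq => rw [map_add, map_add]; exact T.add_mem hp hq
      | mul_X p i hp =>
        rw [map_mul, map_mul]
        refine T.mul_mem hp ?_
        have : (yB (X i : BB k ι) : RR k ι) = yy i := by simp [yB, yy]
        rw [this]
        exact isIntegral_yy k L δ i
  exact h1 c.2

theorem purity (I : Ideal (BB k ι)) [I.IsPrime] (g : PP k L δ) (hg : g ∉ I.map (yP k L δ))
    (q : Ideal (OO k L δ))
    (hq : ∀ a ∈ q, ∃ h ∈ I.map (yP k L δ), (h : L) = a * g) :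
    (Fintype.card ι : Cardinal) + Algebra.trdeg k (BB k ι ⧸ I) ≤
      Algebra.trdeg k (OO k L δ ⧸ q) := by
  classical
  obtain ⟨P, hP⟩ := nonvan k L δ I g hg
  have hne := toL_dl_ne k L δ
  have hCP : CY k L δ ≤ PP k L δ := by
    refine sup_le (OO_le_PP' k L δ) ?_
    rintro _ ⟨b, rfl⟩
    exact toL_mem_PP k L δ (yB b)
  let j : OO k L δ →ₐ[k] CY k L δ := Subalgebra.inclusion le_sup_left
  let y : BB k ι →ₐ[k] CY k L δ :=
    (Subalgebra.inclusion (le_sup_right :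
      ((toL k L).comp (yB : BB k ι →ₐ[k] RR k ι)).range ≤ CY k L δ)).comp
      ((toL k L).comp (yB : BB k ι →ₐ[k] RR k ι)).rangeRestrict
  let t : Option ι → CY k L δ := fun o =>
    ⟨toL k L (alt k (Dp (P o))) / toL k L (dl k δ),
      (le_sup_left : OO k L δ ≤ CY k L δ) (Algebra.subset_adjoin ⟨Dp (P o), div_mul_cancel₀ _ hne⟩)⟩
  let cc : Ideal (CY k L δ) :=
    { carrier := {c | ∃ h ∈ I.map (yP k L δ), (h : L) = c * g}
      add_mem' := by
        rintro a b ⟨h, hh, h'⟩ ⟨h2, hh2, h2'⟩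
        refine ⟨h + h2, Ideal.add_mem _ hh hh2, ?_⟩
        push_cast
        rw [h', h2', add_mul]
      zero_mem' := ⟨0, Ideal.zero_mem _, by simp⟩
      smul_mem' := by
        rintro a b ⟨h, hh, h'⟩
        refine ⟨⟨(a : L), hCP a.2⟩ * h, Ideal.mul_mem_left _ _ hh, ?_⟩
        show (a : L) * (h : L) = (a : L) * (b : L) * _
        rw [h', mul_assoc] }
  refine TR y j I q cc t ?_ ?_ ?_ ?_
  · intro i hi
    refine ⟨yP k L δ i * g, Ideal.mul_mem_right _ _ (Ideal.mem_map_of_mem _ hi), rfl⟩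
  · intro a ha
    exact hq a ha
  · rintro N Θ hΘ hΘI ⟨h, hh, hh'⟩
    refine hP N Θ hΘ hΘI ⟨_, hCP (eval₂ (y : BB k ι →+* CY k L δ) t Θ).2⟩ ?_ ?_
    · show ((CY k L δ).val : CY k L δ →+* L) (eval₂ (y : BB k ι →+* CY k L δ) t Θ) = _
      rw [eval₂_comp_left]
      rfl
    · have : (⟨_, hCP (eval₂ (y : BB k ι →+* CY k L δ) t Θ).2⟩ : PP k L δ) * g = h :=
        Subtype.ext hh'.symm
      rw [this]
      exact hh
  · intro c
    obtain ⟨p, hp, hpc⟩ := CY_integral k L δ c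
    refine ⟨p, hp, ?_⟩
    apply Subtype.ext
    show ((CY k L δ).val : CY k L δ →+* L) (Polynomial.eval₂ (j : OO k L δ →+* CY k L δ) c p) = 0
    rw [Polynomial.hom_eval₂]
    exact hpc

end

end Pool.Agent.Lib.MP_463376_co.StreamB
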