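import Pool.Agent.Lib.MP_463376_co.B_Ord

/-!
# Stream B, job B_Win: windows

Let `n = card ι`, `D = n * d ≥ 1`.
`exists_compress`: induction on the finite set `S` of indices, adding the index `m` with the largest time. Let `j` be the index in the old set with
the largest time (if the old set is empty: `K m = t m / D`), `g = t m - t j`, `K m = K j + (g / D - 1)`.
If `t m - t i < D` then `g < D`, `t j - t i < D`, `K m = K j = K i`. If `t m - t i ≥ D` and `g < D`: `t* m = t* j + g`; if `t j - t i < D` then
`t* m - t* i = t m - t i`, otherwise `t* j - t* i ≥ D`. If `g ≥ D`: `t* m = t* j + D + g % D`, `t* j ≥ t* i`. Bound: `t* m < t* j + 2 D`.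
`exists_win`: let `s i = tm l i - D * K i` (`exists_compress` for `t = tm l`), `s i < 2 n D`. The numbers `s i % D` are distinct, because
`s i ≡ tm l i` modulo `n`, `n ∣ D` (`tm_inj` or directly: the residue of `tm l i` modulo `n` is `n - 1 - idx i`). Let `θ i = D - s i % D` (in `1 .. D`, distinct),
`θ none = 0`, `P o j = (s j + θ o) / D = s j / D + (if θ j ≤ θ o then 1 else 0)`.
`mono`, `lt`, `ge`: `tm l i < tm l j` implies `s i < s j`, with `s j < s i + D` if the gap is `< D`, and `s i + D ≤ s j` if the gap is `≥ D`.
`bd`: `s j + θ o < 2 n D + D`. `inj`: if `a ≠ a'` on some `some j`, take such `j` with `θ j` maximal and compare the coordinate `j` of the two sums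
(`∑_o a o * (s j / D) + ∑_{o : θ j ≤ θ o} a o`); so `a = a'` on all `some j`, and `a none = a' none` by the degree.
-/

set_option autoImplicit false

namespace Pool.Agent.Lib.MP_463376_co.StreamB

section
variable {ι : Type} [Fintype ι] [DecidableEq ι]

/-- compression of large gaps -/
theorem exists_compress (t : ι → ℕ) (D : ℕ) (hD : 1 ≤ D) (S : Finset ι) :
    ∃ K : ι → ℕ, (∀ i ∈ S, D * K i ≤ t i) ∧ (∀ i ∈ S, t i - D * K i < 2 * S.card * D) ∧
      (∀ i ∈ S, ∀ j ∈ S, t i ≤ t j → t j < t i + D → K j = K i) ∧
      (∀ i ∈ S, ∀ j ∈ S, t i + D ≤ t j → (t i - D * K i) + D ≤ t j - D * K j) := by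
  induction S using Finset.induction_on_max_value t with
  | empty => exact ⟨fun _ => 0, by simp, by simp, by simp, by simp⟩
  | insert m S hm hmax ih =>
    obtain ⟨K, h1, h2, h3, h4⟩ := ih
    rcases S.eq_empty_or_nonempty with hS | hS
    · subst hS
      refine ⟨fun _ => t m / D, ?_, ?_, ?_, ?_⟩
      · intro i hi
        rw [LawfulSingleton.insert_empty_eq, Finset.mem_singleton] at hi
        subst hi
        exact Nat.mul_div_le _ _
      · intro i hi
        rw [LawfulSingleton.insert_empty_eq, Finset.mem_singleton] at hi
        subst hi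
        have e1 := Nat.div_add_mod (t i) D
        have e2 := Nat.mod_lt (t i) (show 0 < D by omega)
        simp only [LawfulSingleton.insert_empty_eq, Finset.card_singleton]
        omega
      · intro i _ j _ _ _
        rfl
      · intro i hi j hj hij
        rw [LawfulSingleton.insert_empty_eq, Finset.mem_singleton] at hi hj
        subst hi
        subst hj
        omega
    · obtain ⟨j, hj, hjmax⟩ := Finset.exists_max_image S t hS
      have hjm : t j ≤ t m := hmax j hj
      -- the new value
      obtain ⟨v, hv1, hv2⟩ : ∃ v : ℕ, D * v ≤ t m ∧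
          ((t m < t j + D ∧ v = K j) ∨ (t j + D ≤ t m ∧
            (t j - D * K j) + D ≤ t m - D * v ∧ t m - D * v < (t j - D * K j) + 2 * D)) := by
        have e1 := Nat.div_add_mod (t m - t j) D
        have e2 := Nat.mod_lt (t m - t j) (show 0 < D by omega)
        have e3 := h1 j hj
        rcases hq : (t m - t j) / D with _ | q
        · rw [hq, mul_zero] at e1
          exact ⟨K j, by omega, Or.inl ⟨by omega, rfl⟩⟩
        · rw [hq, mul_add, mul_one] at e1
          refine ⟨K j + q, ?_, Or.inr ⟨by omega, ?_, ?_⟩⟩
          · rw [mul_add]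
            omega
          · rw [mul_add]
            omega
          · rw [mul_add]
            omega
      have hne : ∀ i ∈ S, i ≠ m := fun i hi h => hm (h ▸ hi)
      have hK : ∀ i ∈ S, Function.update K m v i = K i :=
        fun i hi => Function.update_of_ne (hne i hi) _ _
      have hKm : Function.update K m v m = v := Function.update_self _ _ _
      have hcard : (insert m S).card = S.card + 1 := Finset.card_insert_of_notMem hm
      -- comparison with the old maximum
      have hcmp : ∀ i ∈ S, t i - D * K i ≤ t j - D * K j := by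
        intro i hi
        by_cases hc : t j < t i + D
        · rw [h3 i hi j hj (hjmax i hi) hc]
          exact Nat.sub_le_sub_right (hjmax i hi) _
        · have := h4 i hi j hj (not_lt.1 hc)
          omega
      refine ⟨Function.update K m v, ?_, ?_, ?_, ?_⟩
      · intro i hi
        rcases Finset.mem_insert.1 hi with h | h
        · rw [h, hKm]
          exact hv1
        · rw [hK i h]
          exact h1 i h
      · intro i hi
        rw [hcard]
        have e0 : 2 * (S.card + 1) * D = 2 * S.card * D + 2 * D := by ring
        rw [e0]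
        rcases Finset.mem_insert.1 hi with h | h
        · rw [h, hKm]
          have e1 := h2 j hj
          have e2 := h1 j hj
          rcases hv2 with ⟨g1, g2⟩ | ⟨g1, g2, g3⟩
          · rw [g2]
            omega
          · omega
        · rw [hK i h]
          have := h2 i h
          omega
      · intro i hi i' hi' hle hlt
        rcases Finset.mem_insert.1 hi with h | h <;> rcases Finset.mem_insert.1 hi' with h' | h'
        · rw [h, h']
        · rw [h, hKm, hK i' h']
          rw [h] at hle hlt
          have e1 := hjmax i' h'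
          rcases hv2 with ⟨g1, g2⟩ | ⟨g1, g2, g3⟩
          · rw [g2]
            exact h3 j hj i' h' (by omega) (by omega)
          · omega
        · rw [h', hKm, hK i h]
          rw [h'] at hle hlt
          have e1 := hjmax i h
          rcases hv2 with ⟨g1, g2⟩ | ⟨g1, g2, g3⟩
          · rw [g2]
            exact h3 i h j hj e1 (by omega)
          · omega
        · rw [hK i h, hK i' h']
          exact h3 i h i' h' hle hlt
      · intro i hi i' hi' hle
        rcases Finset.mem_insert.1 hi with h | h <;> rcases Finset.mem_insert.1 hi' with h' | h'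
        · rw [h, h'] at hle
          omega
        · rw [h] at hle
          have := hmax i' h'
          omega
        · rw [h', hKm, hK i h]
          rw [h'] at hle
          have e1 := hcmp i h
          have e2 := hjmax i h
          have e3 := h1 j hj
          have e4 := h1 i h
          rcases hv2 with ⟨g1, g2⟩ | ⟨g1, g2, g3⟩
          · rw [g2]
            by_cases hc : t j < t i + D
            · have e5 := h3 i h j hj e2 hc
              rw [e5] at e3 ⊢
              omega
            · have e5 := h4 i h j hj (not_lt.1 hc)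
              omega
          · omega
        · rw [hK i h, hK i' h']
          exact h4 i h i' h' hle

/-- Windows for the exponent `l` in `J^(d)`. -/
structure IsWin (d : ℕ) (l : ι →₀ ℕ) (P : Option ι → ι →₀ ℕ) : Prop where
  mono : ∀ o i j, tm l i < tm l j → P o i ≤ P o j
  lt : ∀ o i j, tm l i < tm l j → tm l j < tm l i + Fintype.card ι * d → P o j ≤ P o i + 1
  ge : ∀ o i j, tm l i + Fintype.card ι * d ≤ tm l j → P o i + 1 ≤ P o j
  inj : ∀ a a' : Option ι →₀ ℕ, a.degree = a'.degree →
    (a.sum fun o m => m • P o) = (a'.sum fun o m => m • P o) → a = a'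
  bd : ∀ o i, P o i ≤ 2 * Fintype.card ι

omit [DecidableEq ι] in
private theorem b_win_mod {l : ι →₀ ℕ} {i j : ι}
    (h : tm l i % Fintype.card ι = tm l j % Fintype.card ι) : i = j := by
  unfold tm at h
  rw [Nat.mul_add_mod, Nat.mul_add_mod] at h
  have hi := (Fintype.equivFin ι i).isLt
  have hj := (Fintype.equivFin ι j).isLt
  rw [Nat.mod_eq_of_lt (by omega), Nat.mod_eq_of_lt (by omega)] at h
  have h' : Fintype.equivFin ι i = Fintype.equivFin ι j := Fin.ext (by omega)
  exact (Fintype.equivFin ι).injective h'

/-- the abstract injectivity argument -/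
private theorem b_win_inj (q : ι → ℕ) (θ : Option ι → ℕ) (P : Option ι → ι →₀ ℕ)
    (hP : ∀ o j, P o j = q j + if θ (some j) ≤ θ o then 1 else 0)
    (h0 : ∀ j, θ none < θ (some j)) (hinj : ∀ i j, θ (some i) = θ (some j) → i = j)
    (a a' : Option ι →₀ ℕ) (hdeg : a.degree = a'.degree)
    (hsum : (a.sum fun o m => m • P o) = (a'.sum fun o m => m • P o)) : a = a' := by
  have hd1 : ∀ b : Option ι →₀ ℕ, b.degree = ∑ o, b o := fun b => Finsupp.degree_eq_sum b
  rw [hd1, hd1] at hdeg
  have hs1 : ∀ (b : Option ι →₀ ℕ) (j : ι), (b.sum fun o m => m • P o) j =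
      q j * (∑ o, b o) + ∑ o, (if θ (some j) ≤ θ o then b o else 0) := by
    intro b j
    rw [Finsupp.sum_fintype _ _ (by simp), Finsupp.finsetSum_apply, Finset.mul_sum,
      ← Finset.sum_add_distrib]
    refine Finset.sum_congr rfl fun o _ => ?_
    rw [Finsupp.smul_apply, smul_eq_mul, hP]
    split_ifs
    · ring
    · ring
  have hA : ∀ j : ι, ∑ o, (if θ (some j) ≤ θ o then a o else 0) =
      ∑ o, (if θ (some j) ≤ θ o then a' o else 0) := by
    intro j
    have h : (a.sum fun o m => m • P o) j = (a'.sum fun o m => m • P o) j := by rw [hsum]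
    rw [hs1, hs1, hdeg] at h
    omega
  have hsome : ∀ j : ι, a (some j) = a' (some j) := by
    by_contra hn
    push Not at hn
    obtain ⟨j0, hj0⟩ := hn
    obtain ⟨j, hj, hjmax⟩ := Finset.exists_max_image
      (Finset.univ.filter fun j : ι => a (some j) ≠ a' (some j)) (fun j => θ (some j))
      ⟨j0, by simp [hj0]⟩
    have hj' : a (some j) ≠ a' (some j) := (Finset.mem_filter.1 hj).2
    have h1 := hA j
    rw [← Finset.add_sum_erase _ _ (Finset.mem_univ (some j)),
      ← Finset.add_sum_erase _ (fun o => if θ (some j) ≤ θ o then a' o else 0)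
        (Finset.mem_univ (some j))] at h1
    have h2 : ∑ o ∈ Finset.univ.erase (some j), (if θ (some j) ≤ θ o then a o else 0) =
        ∑ o ∈ Finset.univ.erase (some j), (if θ (some j) ≤ θ o then a' o else 0) := by
      refine Finset.sum_congr rfl fun o ho => ?_
      split_ifs with hθ
      · rcases o with _ | i
        · have := h0 j
          omega
        · by_contra hne
          have h3 := hjmax i (by simp [hne])
          have h4 := hinj i j (le_antisymm h3 hθ)
          exact Finset.ne_of_mem_erase ho (by rw [h4])
      · rfl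
    rw [h2, if_pos le_rfl, if_pos le_rfl] at h1
    exact hj' (by omega)
  refine Finsupp.ext fun o => ?_
  rcases o with _ | j
  · rw [Fintype.sum_option, Fintype.sum_option,
      Finset.sum_congr rfl fun j _ => hsome j] at hdeg
    omega
  · exact hsome j

theorem exists_win (d : ℕ) (hd : 1 ≤ d) (l : ι →₀ ℕ) : ∃ P : Option ι → ι →₀ ℕ, IsWin d l P := by
  rcases isEmpty_or_nonempty ι with hι | hι
  · refine ⟨fun _ => 0, fun _ i => (hι.false i).elim, fun _ i => (hι.false i).elim,
      fun _ i => (hι.false i).elim, ?_, fun _ i => (hι.false i).elim⟩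
    intro a a' hdeg _
    rw [Finsupp.degree_eq_sum, Finsupp.degree_eq_sum, Fintype.sum_option, Fintype.sum_option] at hdeg
    simp only [Finset.univ_eq_empty, Finset.sum_empty, add_zero] at hdeg
    refine Finsupp.ext fun o => ?_
    rcases o with _ | j
    · exact hdeg
    · exact (hι.false j).elim
  set n := Fintype.card ι with hn
  have hn1 : 1 ≤ n := Fintype.card_pos
  set D := n * d with hDdef
  have hD : 1 ≤ D := Nat.mul_pos hn1 hd
  obtain ⟨K, h1, h2, h3, h4⟩ := exists_compress (tm l) D hD Finset.univ
  rw [Finset.card_univ, ← hn] at h2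
  set s : ι → ℕ := fun i => tm l i - D * K i with hs
  have hs1 : ∀ i, s i + D * K i = tm l i := fun i => by
    have := h1 i (Finset.mem_univ i)
    simp only [hs]
    omega
  have hs2 : ∀ i, s i < 2 * n * D := fun i => h2 i (Finset.mem_univ i)
  have hsmod : ∀ i j, s i % D = s j % D → i = j := by
    intro i j hij
    apply b_win_mod (l := l)
    rw [← hn, ← hs1 i, ← hs1 j]
    have e1 : ∀ i, (s i + D * K i) % n = s i % n := by
      intro i
      rw [hDdef, mul_assoc, Nat.add_mul_mod_self_left]
    rw [e1, e1]
    have e2 : ∀ i, s i % n = (s i % D) % n := fun i =>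
      (Nat.mod_mod_of_dvd (s i) (Dvd.intro d rfl)).symm
    rw [e2 i, e2 j, hij]
  have hslt : ∀ i j, tm l i < tm l j → s i < s j := by
    intro i j hij
    have e1 := hs1 i
    have e2 := hs1 j
    by_cases hc : tm l j < tm l i + D
    · have e3 := h3 i (Finset.mem_univ i) j (Finset.mem_univ j) hij.le hc
      rw [e3] at e2
      omega
    · have e3 : s i + D ≤ s j := h4 i (Finset.mem_univ i) j (Finset.mem_univ j) (not_lt.1 hc)
      omega
  have hslt' : ∀ i j, tm l i < tm l j → tm l j < tm l i + D → s j < s i + D := by
    intro i j hij hc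
    have e1 := hs1 i
    have e2 := hs1 j
    have e3 := h3 i (Finset.mem_univ i) j (Finset.mem_univ j) hij.le hc
    rw [e3] at e2
    omega
  have hsge : ∀ i j, tm l i + D ≤ tm l j → s i + D ≤ s j := fun i j hij =>
    h4 i (Finset.mem_univ i) j (Finset.mem_univ j) hij
  set θ : Option ι → ℕ := fun o => o.elim 0 (fun i => D - s i % D) with hθ
  have hθn : θ none = 0 := rfl
  have hθs : ∀ i, θ (some i) = D - s i % D := fun i => rfl
  have hmod : ∀ i, s i % D < D := fun i => Nat.mod_lt _ (by omega)
  have hθD : ∀ o, θ o ≤ D := by
    intro o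
    rcases o with _ | i
    · rw [hθn]
      omega
    · rw [hθs]
      omega
  set P : Option ι → ι →₀ ℕ := fun o => Finsupp.equivFunOnFinite.symm fun j => (s j + θ o) / D
    with hPdef
  have hPa : ∀ o j, P o j = (s j + θ o) / D := fun o j => rfl
  have hP : ∀ o j, P o j = s j / D + if θ (some j) ≤ θ o then 1 else 0 := by
    intro o j
    rw [hPa]
    have e1 := Nat.div_add_mod (s j) D
    have e2 := hmod j
    have e3 := hθD o
    have e4 : s j + θ o = (s j % D + θ o) + D * (s j / D) := by omega
    rw [e4, Nat.add_mul_div_left _ _ (by omega : 0 < D), add_comm]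
    congr 1
    rw [hθs]
    split_ifs with hc
    · rw [Nat.div_eq_iff (by omega)]
      constructor <;> omega
    · exact Nat.div_eq_of_lt (by omega)
  refine ⟨P, ?_, ?_, ?_, ?_, ?_⟩
  · intro o i j hij
    rw [hPa, hPa]
    have := hslt i j hij
    exact Nat.div_le_div_right (by omega)
  · intro o i j hij hc
    rw [hPa, hPa]
    have e1 := hslt' i j hij hc
    have e2 : (s j + θ o) / D ≤ (s i + θ o + D) / D := Nat.div_le_div_right (by omega)
    rwa [Nat.add_div_right _ (by omega : 0 < D)] at e2
  · intro o i j hij
    rw [hPa, hPa]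
    have e1 := hsge i j hij
    have e2 : (s i + θ o + D) / D ≤ (s j + θ o) / D := Nat.div_le_div_right (by omega)
    rwa [Nat.add_div_right _ (by omega : 0 < D)] at e2
  · refine b_win_inj (fun j => s j / D) θ P hP ?_ ?_
    · intro j
      rw [hθn, hθs]
      have := hmod j
      omega
    · intro i j hij
      rw [hθs, hθs] at hij
      have e1 := hmod i
      have e2 := hmod j
      exact hsmod i j (by omega)
  · intro o i
    rw [hPa]
    have e1 := hs2 i
    have e2 := hθD o
    have e3 : (s i + θ o) / D < 2 * n + 1 := by
      rw [Nat.div_lt_iff_lt_mul (by omega)]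
      have : (2 * n + 1) * D = 2 * n * D + D := by ring
      rw [this]
      omega
    omega

end

end Pool.Agent.Lib.MP_463376_co.StreamB
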