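import Pool.Agent.Lib.MP_463376_co.I1

/-! PART 3: permutations, alternating polynomials (stream C1) -/

namespace Pool.Agent.Lib.MP_463376_co

open MvPolynomial

section

variable {k : Type} [Field k] {ι : Type}

theorem c1_permR_xx (w : Equiv.Perm ι) (i : ι) : permR (k := k) w (xx i) = xx (w i) := by
  simp [permR, xx]

theorem c1_permR_yy (w : Equiv.Perm ι) (i : ι) : permR (k := k) w (yy i) = yy (w i) := by
  simp [permR, yy]

theorem c1_permR_pI (w : Equiv.Perm ι) (i j : ι) (d : ℕ) (f : RR k ι) (hf : f ∈ (pI i j) ^ d) :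
    permR (k := k) w f ∈ (pI (w i) (w j)) ^ d := by
  have h1 : (pI i j : Ideal (RR k ι)).map (permR (k := k) w).toAlgHom.toRingHom ≤
      pI (w i) (w j) := by
    unfold pI
    rw [Ideal.map_span, Ideal.span_le]
    rintro _ ⟨g, hg, rfl⟩
    rcases hg with rfl | hg
    · have h2 : (permR (k := k) w).toAlgHom.toRingHom (xx i - xx j) = xx (w i) - xx (w j) := by
        show permR (k := k) w (xx i - xx j) = _
        rw [map_sub, c1_permR_xx, c1_permR_xx]
      rw [h2]
      exact Ideal.subset_span (Or.inl rfl)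
    · rw [Set.mem_singleton_iff] at hg
      subst hg
      have h2 : (permR (k := k) w).toAlgHom.toRingHom (yy i - yy j) = yy (w i) - yy (w j) := by
        show permR (k := k) w (yy i - yy j) = _
        rw [map_sub, c1_permR_yy, c1_permR_yy]
      rw [h2]
      exact Ideal.subset_span (Or.inr rfl)
  have h3 : permR (k := k) w f ∈ ((pI i j : Ideal (RR k ι)) ^ d).map
      (permR (k := k) w).toAlgHom.toRingHom := Ideal.mem_map_of_mem _ hf
  rw [Ideal.map_pow] at h3
  exact Ideal.pow_right_mono h1 d h3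

theorem c1_permR_Jd (w : Equiv.Perm ι) (d : ℕ) (f : RR k ι) (hf : f ∈ Jd k ι d) :
    permR (k := k) w f ∈ Jd k ι d := by
  unfold Jd at *
  simp only [Ideal.mem_iInf] at *
  intro i j hij
  have h1 := hf (w⁻¹ i) (w⁻¹ j) (fun h => hij (w⁻¹.injective h))
  have h2 := c1_permR_pI w _ _ d f h1
  simpa using h2

variable [Fintype ι] [DecidableEq ι]

theorem c1_permR_alt (w : Equiv.Perm ι) (D : ι → ℕ × ℕ) :
    permR (k := k) w (alt k D) = ((Equiv.Perm.sign w : ℤˣ) : ℤ) • alt k D := by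
  unfold alt
  have h1 : permR (k := k) w (Matrix.det (Matrix.of fun i j : ι =>
      xx i ^ (D j).1 * yy i ^ (D j).2)) = (permR (k := k) w).toAlgHom.toRingHom
        (Matrix.det (Matrix.of fun i j : ι => xx i ^ (D j).1 * yy i ^ (D j).2)) := rfl
  rw [h1, RingHom.map_det]
  have h2 := Matrix.det_permute w (Matrix.of fun i j : ι =>
      (xx i ^ (D j).1 * yy i ^ (D j).2 : RR k ι))
  have h3 : ((permR (k := k) w).toAlgHom.toRingHom.mapMatrix (Matrix.of fun i j : ι =>
      (xx i ^ (D j).1 * yy i ^ (D j).2 : RR k ι))) = (Matrix.of fun i j : ι =>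
      (xx i ^ (D j).1 * yy i ^ (D j).2 : RR k ι)).submatrix w id := by
    ext1 i j
    show permR (k := k) w (xx i ^ (D j).1 * yy i ^ (D j).2) = xx (w i) ^ (D j).1 * yy (w i) ^ (D j).2
    rw [map_mul, map_pow, map_pow, c1_permR_xx, c1_permR_yy]
  rw [h3, h2, zsmul_eq_mul]

/-- antisymmetrization -/
noncomputable def c1_Alt (k : Type) [Field k] (ι : Type) [Fintype ι] [DecidableEq ι] :
    RR k ι →ₗ[k] RR k ι :=
  ∑ w : Equiv.Perm ι, ((Equiv.Perm.sign w : ℤˣ) : ℤ) • (permR (k := k) w).toLinearMap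

theorem c1_Alt_apply (f : RR k ι) : c1_Alt k ι f =
    ∑ w : Equiv.Perm ι, ((Equiv.Perm.sign w : ℤˣ) : ℤ) • permR (k := k) w f := by
  unfold c1_Alt
  rw [LinearMap.sum_apply]
  rfl

theorem c1_Alt_monomial (m : ι ⊕ ι →₀ ℕ) (c : k) :
    c1_Alt k ι (monomial m c) = c • alt k (fun i => (m (Sum.inl i), m (Sum.inr i))) := by
  rw [c1_Alt_apply]
  unfold alt
  rw [Matrix.det_apply, Finset.smul_sum]
  refine Finset.sum_congr rfl fun w _ => ?_
  have h1 : (monomial m c : RR k ι) = c • ∏ i, (xx i ^ m (Sum.inl i) * yy i ^ m (Sum.inr i)) := by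
    rw [Finset.prod_mul_distrib, monomial_eq, Finsupp.prod_fintype _ _ (fun i => pow_zero _),
      Fintype.prod_sum_type, smul_eq_C_mul]
    rfl
  rw [h1, map_smul, map_prod]
  simp only [map_mul, map_pow, c1_permR_xx, c1_permR_yy, Matrix.of_apply]
  rw [smul_comm]
  rfl

variable {L : Type} [Field L] [Algebra k L] [Algebra (RR k ι) L]
  [IsScalarTower k (RR k ι) L] [IsFractionRing (RR k ι) L] (δ : Dia ι)

theorem c1_toL_injective : Function.Injective (toL k L : RR k ι →ₐ[k] L) :=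
  IsFractionRing.injective (RR k ι) L

theorem c1_dl_ne [CharZero k] : toL k L (dl k δ) ≠ 0 := by
  intro h
  exact dl_ne_zero k δ (c1_toL_injective (by rw [h, map_zero]))

theorem c1_Alt_mem (f : RR k ι) : ∃ u : OO k L δ, (u : L) * toL k L (dl k δ) =
    toL k L (c1_Alt k ι f) := by
  have h0 : toL k L (dl k δ) ≠ 0 := fun h => StrA.alt_ne_zero (k := k) δ.inj
    (c1_toL_injective (k := k) (L := L) (by rw [map_zero]; exact h))
  · induction f using MvPolynomial.induction_on' with
    | monomial m c =>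
      rw [c1_Alt_monomial]
      have h1 : toL k L (alt k (fun i => (m (Sum.inl i), m (Sum.inr i)))) / toL k L (dl k δ) ∈
          OO k L δ := Algebra.subset_adjoin ⟨_, div_mul_cancel₀ _ h0⟩
      refine ⟨⟨_, (OO k L δ).smul_mem h1 c⟩, ?_⟩
      rw [map_smul]
      show (c • (toL k L (alt k (fun i => (m (Sum.inl i), m (Sum.inr i)))) / toL k L (dl k δ))) *
        toL k L (dl k δ) = _
      rw [smul_mul_assoc, div_mul_cancel₀ _ h0]
    | add p q hp hq =>
      obtain ⟨u, hu⟩ := hp
      obtain ⟨v, hv⟩ := hq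
      refine ⟨u + v, ?_⟩
      show ((u : L) + (v : L)) * _ = _
      rw [add_mul, hu, hv, map_add, map_add]

theorem c1_alternating_div_mem [CharZero k] (f : RR k ι)
    (hf : ∀ w : Equiv.Perm ι, permR w f = ((Equiv.Perm.sign w : ℤˣ) : ℤ) • f) :
    ∃ u : OO k L δ, (u : L) * toL k L (dl k δ) = toL k L f := by
  obtain ⟨u, hu⟩ := c1_Alt_mem (L := L) δ f
  have h1 : c1_Alt k ι f = (((Fintype.card ι).factorial : ℕ) : k) • f := by
    rw [c1_Alt_apply]
    have h2 : ∀ w ∈ (Finset.univ : Finset (Equiv.Perm ι)),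
        ((Equiv.Perm.sign w : ℤˣ) : ℤ) • permR (k := k) w f = f := by
      intro w _
      rw [hf, smul_smul, ← Units.val_mul, Int.units_mul_self, Units.val_one, one_smul]
    rw [Finset.sum_congr rfl h2, Finset.sum_const, Finset.card_univ, Fintype.card_perm,
      Nat.cast_smul_eq_nsmul]
  have h3 : (((Fintype.card ι).factorial : ℕ) : k) ≠ 0 :=
    Nat.cast_ne_zero.2 (Nat.factorial_ne_zero _)
  refine ⟨((((Fintype.card ι).factorial : ℕ) : k))⁻¹ • u, ?_⟩
  show ((((((Fintype.card ι).factorial : ℕ) : k))⁻¹) • (u : L)) * _ = _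
  rw [smul_mul_assoc, hu, h1, map_smul, smul_smul, inv_mul_cancel₀ h3, one_smul]

theorem c1_symmetric_mem [CharZero k] (f : RR k ι) (hf : ∀ w : Equiv.Perm ι, permR w f = f) :
    toL k L f ∈ OO k L δ := by
  obtain ⟨u, hu⟩ := c1_alternating_div_mem (L := L) δ (f * dl k δ) (fun w => by
    rw [map_mul, hf, dl, c1_permR_alt, mul_smul_comm])
  rw [map_mul] at hu
  rw [← mul_right_cancel₀ (c1_dl_ne δ) hu]
  exact u.2

theorem c1_permL_OO [CharZero k] (w : Equiv.Perm ι) (g : L) (hg : g ∈ OO k L δ) :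
    permL (k := k) w g = g := by
  unfold OO at hg
  induction hg using Algebra.adjoin_induction with
  | mem g hg =>
    obtain ⟨D, hD⟩ := hg
    have h1 := congrArg (permL (k := k) w) hD
    rw [map_mul, permL_toL, permL_toL, dl, c1_permR_alt, c1_permR_alt, map_zsmul, map_zsmul,
      ← hD, mul_smul_comm] at h1
    have h2 : ((Equiv.Perm.sign w : ℤˣ) : ℤ) • ((Equiv.Perm.sign w : ℤˣ) : ℤ) •
        (permL (k := k) w g * toL k L (alt k δ.c)) = ((Equiv.Perm.sign w : ℤˣ) : ℤ) •
          ((Equiv.Perm.sign w : ℤˣ) : ℤ) • (g * toL k L (dl k δ)) := by rw [h1]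
    rw [smul_smul, smul_smul, ← Units.val_mul, Int.units_mul_self, Units.val_one, one_smul,
      one_smul] at h2
    exact mul_right_cancel₀ (c1_dl_ne δ) h2
  | algebraMap r => exact (permL (k := k) w).commutes r
  | add x y _ _ hx hy => rw [map_add, hx, hy]
  | mul x y _ _ hx hy => rw [map_mul, hx, hy]

theorem c1_permL_AA [CharZero k] (w : Equiv.Perm ι) (g : L) (hg : g ∈ AA k L δ) :
    permL (k := k) w g = g := by
  unfold AA at hg
  induction hg using Algebra.adjoin_induction with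
  | mem g hg =>
    rcases hg with hg | ⟨b, hb, hgb⟩
    · exact c1_permL_OO δ w g hg
    · have h1 := congrArg (permL (k := k) w) hgb
      rw [map_mul, map_one, c1_permL_OO δ w (b : L) b.2, ← hgb] at h1
      have h2 : (b : L) ≠ 0 := fun h => by
        rw [h, mul_zero] at hgb
        exact zero_ne_one hgb
      exact mul_right_cancel₀ h2 h1
  | algebraMap r => exact (permL (k := k) w).commutes r
  | add x y _ _ hx hy => rw [map_add, hx, hy]
  | mul x y _ _ hx hy => rw [map_mul, hx, hy]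

theorem c1_permL_PP [CharZero k] (w : Equiv.Perm ι) (g : L) (hg : g ∈ PP k L δ) :
    permL (k := k) w g ∈ PP k L δ := by
  unfold PP at hg
  induction hg using Algebra.adjoin_induction with
  | mem g hg =>
    obtain ⟨d, f, hf, hD⟩ := hg
    have h1 := congrArg (permL (k := k) w) hD
    rw [map_mul, map_pow, permL_toL, permL_toL, dl, c1_permR_alt, map_zsmul, smul_pow,
      mul_smul_comm] at h1
    refine Algebra.subset_adjoin ⟨d, ((((Equiv.Perm.sign w : ℤˣ) : ℤ)) ^ d) • permR (k := k) w f,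
      ?_, ?_⟩
    · exact (Jd k ι d).toAddSubgroup.zsmul_mem (c1_permR_Jd w d f hf) _
    · rw [map_zsmul, ← h1, smul_smul, ← mul_pow, ← Units.val_mul, Int.units_mul_self,
        Units.val_one, one_pow, one_smul]
      rfl
  | algebraMap r =>
    rw [AlgEquiv.commutes]
    exact (PP k L δ).algebraMap_mem r
  | add x y _ _ hx hy =>
    rw [map_add]
    exact (PP k L δ).add_mem hx hy
  | mul x y _ _ hx hy =>
    rw [map_mul]
    exact (PP k L δ).mul_mem hx hy

theorem c1_permL_CC [CharZero k] (w : Equiv.Perm ι) (g : L) (hg : g ∈ CC k L δ) :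
    permL (k := k) w g ∈ CC k L δ := by
  have h1 : CC k L δ ≤ (CC k L δ).comap (permL (k := k) w).toAlgHom := by
    refine sup_le (fun x hx => ?_) (fun x hx => ?_)
    · show permL (k := k) w x ∈ CC k L δ
      rw [c1_permL_AA δ w x hx]
      exact AA_le_CC k L δ hx
    · show permL (k := k) w x ∈ CC k L δ
      exact PP_le_CC k L δ (c1_permL_PP δ w x hx)
  exact h1 hg

theorem c1_OO_le_PP : OO k L δ ≤ PP k L δ := by
  refine Algebra.adjoin_le ?_
  rintro g ⟨D, hD⟩
  exact Algebra.subset_adjoin ⟨1, alt k D, StrA.alt_mem_Jd D, by rw [pow_one]; exact hD⟩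

theorem c1_ne_zero (b : OO k L δ) (hb : b ∉ nn k L δ) : (b : L) ≠ 0 := by
  intro h0
  apply hb
  have : b = 0 := Subtype.ext h0
  rw [this]
  exact (nn k L δ).zero_mem

theorem c1_inv_mem (b : OO k L δ) (hb : b ∉ nn k L δ) : (b : L)⁻¹ ∈ AA k L δ :=
  Algebra.subset_adjoin (Or.inr ⟨b, hb, inv_mul_cancel₀ (c1_ne_zero δ b hb)⟩)

theorem c1_OO_le_AA : OO k L δ ≤ AA k L δ := fun _ hx => Algebra.subset_adjoin (Or.inl hx)

theorem c1_mem_AA_iff (hn : (nn k L δ).IsPrime) (g : L) :
    g ∈ AA k L δ ↔ ∃ a b : OO k L δ, b ∉ nn k L δ ∧ g * b = a := by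
  constructor
  · intro hg
    unfold AA at hg
    induction hg using Algebra.adjoin_induction with
    | mem g hg =>
      rcases hg with hg | ⟨b, hb, hgb⟩
      · exact ⟨⟨g, hg⟩, 1, fun h => hn.ne_top ((Ideal.eq_top_iff_one _).2 h), by simp⟩
      · exact ⟨1, b, hb, by rw [hgb]; rfl⟩
    | algebraMap r =>
      exact ⟨algebraMap k _ r, 1, fun h => hn.ne_top ((Ideal.eq_top_iff_one _).2 h), by simp⟩
    | add x y _ _ hx hy =>
      obtain ⟨a, b, hb, hab⟩ := hx
      obtain ⟨a', b', hb', hab'⟩ := hy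
      refine ⟨a * b' + a' * b, b * b', fun h => (hn.mem_or_mem h).elim hb hb', ?_⟩
      push_cast
      rw [← hab, ← hab']
      ring
    | mul x y _ _ hx hy =>
      obtain ⟨a, b, hb, hab⟩ := hx
      obtain ⟨a', b', hb', hab'⟩ := hy
      refine ⟨a * a', b * b', fun h => (hn.mem_or_mem h).elim hb hb', ?_⟩
      push_cast
      rw [← hab, ← hab']
      ring
  · rintro ⟨a, b, hb, hab⟩
    have h1 : g = a * (b : L)⁻¹ := by
      rw [← hab, mul_assoc, mul_inv_cancel₀ (c1_ne_zero δ b hb), mul_one]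
    rw [h1]
    exact (AA k L δ).mul_mem (c1_OO_le_AA δ a.2) (c1_inv_mem δ b hb)

theorem c1_mem_CC_iff (hn : (nn k L δ).IsPrime) (g : L) :
    g ∈ CC k L δ ↔ ∃ b : OO k L δ, b ∉ nn k L δ ∧ g * b ∈ PP k L δ := by
  have h1n : (1 : OO k L δ) ∉ nn k L δ := fun h => hn.ne_top ((Ideal.eq_top_iff_one _).2 h)
  constructor
  · intro hg
    let T : Subalgebra k L :=
      { carrier := {g | ∃ b : OO k L δ, b ∉ nn k L δ ∧ g * b ∈ PP k L δ}
        mul_mem' := by
          rintro x y ⟨b, hb, hx⟩ ⟨b', hb', hy⟩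
          refine ⟨b * b', fun h => (hn.mem_or_mem h).elim hb hb', ?_⟩
          have : x * y * ((b * b' : OO k L δ) : L) = (x * b) * (y * b') := by push_cast; ring
          rw [this]
          exact (PP k L δ).mul_mem hx hy
        add_mem' := by
          rintro x y ⟨b, hb, hx⟩ ⟨b', hb', hy⟩
          refine ⟨b * b', fun h => (hn.mem_or_mem h).elim hb hb', ?_⟩
          have : (x + y) * ((b * b' : OO k L δ) : L) = (x * b) * b' + (y * b') * b := by
            push_cast; ring
          rw [this]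
          exact (PP k L δ).add_mem ((PP k L δ).mul_mem hx (c1_OO_le_PP δ b'.2))
            ((PP k L δ).mul_mem hy (c1_OO_le_PP δ b.2))
        algebraMap_mem' := fun r => ⟨1, h1n, by
          simpa using (PP k L δ).algebraMap_mem r⟩ }
    have h2 : CC k L δ ≤ T := by
      refine sup_le (fun x hx => ?_) (fun x hx => ?_)
      · obtain ⟨a, b, hb, hab⟩ := (c1_mem_AA_iff δ hn x).1 hx
        exact ⟨b, hb, by rw [hab]; exact c1_OO_le_PP δ a.2⟩
      · exact ⟨1, h1n, by simpa using hx⟩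
    exact h2 hg
  · rintro ⟨b, hb, h⟩
    have h1 : g = (g * b) * (b : L)⁻¹ := by
      rw [mul_assoc, mul_inv_cancel₀ (c1_ne_zero δ b hb), mul_one]
    rw [h1]
    exact (CC k L δ).mul_mem (PP_le_CC k L δ h) (AA_le_CC k L δ (c1_inv_mem δ b hb))

end

end Pool.Agent.Lib.MP_463376_co
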