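import Pool.Agent.Lib.MP_463376_co.GridDefs

/-!
# Stream C1: residue map and finite generation of `O`

`residue`: evaluation on the generic grid of the diagram. `OO_finiteType`: Cramer.
-/

namespace Pool.Agent.Lib.MP_463376_co.StreamC1h48

open MvPolynomial

section

variable (k : Type) [Field k] {ι : Type} [Fintype ι] [DecidableEq ι] (δ : Dia ι)

/-- the polynomial `∏_{j<n} (T - X (f j))` -/
private noncomputable def g3gam_pol (f : ℕ → ℕ ⊕ ℕ) (n : ℕ) : Polynomial (GG k) :=
  ∏ j ∈ Finset.range n, (Polynomial.X - Polynomial.C (X (f j) : GG k))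

private theorem g3gam_pol_natDegree (f : ℕ → ℕ ⊕ ℕ) (n : ℕ) :
    (g3gam_pol k f n).natDegree = n := by
  unfold g3gam_pol
  rw [Polynomial.natDegree_prod_of_monic _ _ (fun i _ => Polynomial.monic_X_sub_C _)]
  simp

private theorem g3gam_pol_eval (f : ℕ → ℕ ⊕ ℕ) (n a : ℕ) (h : a < n) :
    (g3gam_pol k f n).eval (X (f a) : GG k) = 0 := by
  unfold g3gam_pol
  rw [Polynomial.eval_prod]
  exact Finset.prod_eq_zero (Finset.mem_range.2 h) (by simp)

private theorem g3gam_pol_coeff_top (f : ℕ → ℕ ⊕ ℕ) (n : ℕ) :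
    (g3gam_pol k f n).coeff n = 1 := by
  have h : (g3gam_pol k f n).Monic :=
    Polynomial.monic_prod_of_monic _ _ (fun i _ => Polynomial.monic_X_sub_C _)
  have h2 := h.coeff_natDegree
  rwa [g3gam_pol_natDegree] at h2

private theorem g3gam_pol_const (f : ℕ → ℕ ⊕ ℕ) (n a : ℕ) (h : a ≠ n) :
    constantCoeff ((g3gam_pol k f n).coeff a) = 0 := by
  have h1 : (g3gam_pol k f n).map (constantCoeff : GG k →+* k) = Polynomial.X ^ n := by
    unfold g3gam_pol
    rw [Polynomial.map_prod]
    simp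
  have h2 := congrArg (fun p => Polynomial.coeff p a) h1
  simp only [Polynomial.coeff_map, Polynomial.coeff_X_pow, if_neg h] at h2
  exact h2

theorem exists_gam (m : ℕ × ℕ) : ∃ γ : ι → GG k,
    (∀ i : ι, (X (Sum.inl (δ.c i).1) : GG k) ^ m.1 * X (Sum.inr (δ.c i).2) ^ m.2 =
      ∑ h, γ h * (X (Sum.inl (δ.c i).1) ^ (δ.c h).1 * X (Sum.inr (δ.c i).2) ^ (δ.c h).2)) ∧
    ∀ h, constantCoeff (γ h) = if m = δ.c h then 1 else 0 := by
  classical
  obtain ⟨n, hn⟩ : ∃ n, m.1 + m.2 = n := ⟨_, rfl⟩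
  induction n using Nat.strong_induction_on generalizing m with
  | _ n ih =>
    by_cases hm : ∃ h0, δ.c h0 = m
    · obtain ⟨h0, rfl⟩ := hm
      refine ⟨fun h => if h = h0 then 1 else 0, fun i => ?_, fun h => ?_⟩
      · simp
      · by_cases e : h = h0
        · subst e; simp
        · have e2 : ¬ δ.c h0 = δ.c h := fun e' => e (δ.inj e'.symm)
          simp [e, e2]
    · have key : ∀ i : ι, (δ.c i).1 < m.1 ∨ (δ.c i).2 < m.2 := by
        intro i
        by_contra hcon
        push Not at hcon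
        exact hm (δ.low i m ⟨hcon.1, hcon.2⟩)
      have ih' : ∀ m' : ℕ × ℕ, m'.1 + m'.2 < n → ∃ γ : ι → GG k,
          (∀ i : ι, (X (Sum.inl (δ.c i).1) : GG k) ^ m'.1 * X (Sum.inr (δ.c i).2) ^ m'.2 =
            ∑ h, γ h * (X (Sum.inl (δ.c i).1) ^ (δ.c h).1 *
              X (Sum.inr (δ.c i).2) ^ (δ.c h).2)) ∧
          ∀ h, constantCoeff (γ h) = if m' = δ.c h then 1 else 0 :=
        fun m' hm' => ih _ hm' m' rfl
      choose! Γ hΓ1 _hΓ2 using ih'
      set P := g3gam_pol k Sum.inl m.1 with hP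
      set Q := g3gam_pol k Sum.inr m.2 with hQ
      set box : Finset (ℕ × ℕ) :=
        (Finset.range (m.1 + 1) ×ˢ Finset.range (m.2 + 1)).erase m with hbox
      have hlt : ∀ p ∈ box, p.1 + p.2 < n := by
        intro p hp
        rw [hbox, Finset.mem_erase, Finset.mem_product, Finset.mem_range, Finset.mem_range] at hp
        obtain ⟨h1, h2, h3⟩ := hp
        rcases Nat.lt_or_ge p.1 m.1 with h4 | h4
        · omega
        · rcases Nat.lt_or_ge p.2 m.2 with h5 | h5
          · omega
          · exact absurd (Prod.ext (by omega) (by omega)) h1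
      have hcc : ∀ p ∈ box, constantCoeff (P.coeff p.1 * Q.coeff p.2) = 0 := by
        intro p hp
        rw [hbox, Finset.mem_erase] at hp
        rw [map_mul]
        by_cases h1 : p.1 = m.1
        · have h2 : p.2 ≠ m.2 := fun h2 => hp.1 (Prod.ext h1 h2)
          rw [hQ, g3gam_pol_const k _ _ _ h2, mul_zero]
        · rw [hP, g3gam_pol_const k _ _ _ h1, zero_mul]
      have hexp : ∀ i : ι, (X (Sum.inl (δ.c i).1) : GG k) ^ m.1 * X (Sum.inr (δ.c i).2) ^ m.2 =
          - ∑ p ∈ box, P.coeff p.1 * Q.coeff p.2 *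
            (X (Sum.inl (δ.c i).1) ^ p.1 * X (Sum.inr (δ.c i).2) ^ p.2) := by
        intro i
        have h0 : P.eval (X (Sum.inl (δ.c i).1) : GG k) * Q.eval (X (Sum.inr (δ.c i).2) : GG k)
            = 0 := by
          rcases key i with h | h
          · rw [hP, g3gam_pol_eval k Sum.inl _ _ h, zero_mul]
          · rw [hQ, g3gam_pol_eval k Sum.inr _ _ h, mul_zero]
        rw [Polynomial.eval_eq_sum_range' (n := m.1 + 1)
            (by rw [hP, g3gam_pol_natDegree]; exact Nat.lt_succ_self _),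
          Polynomial.eval_eq_sum_range' (n := m.2 + 1)
            (by rw [hQ, g3gam_pol_natDegree]; exact Nat.lt_succ_self _),
          Finset.sum_mul_sum, ← Finset.sum_product'] at h0
        have hmem : m ∈ Finset.range (m.1 + 1) ×ˢ Finset.range (m.2 + 1) := by
          rw [Finset.mem_product, Finset.mem_range, Finset.mem_range]
          exact ⟨Nat.lt_succ_self _, Nat.lt_succ_self _⟩
        rw [← Finset.add_sum_erase _ _ hmem] at h0
        have e1 : P.coeff m.1 = 1 := g3gam_pol_coeff_top k _ _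
        have e2 : Q.coeff m.2 = 1 := g3gam_pol_coeff_top k _ _
        rw [e1, e2, one_mul, one_mul] at h0
        rw [eq_neg_iff_add_eq_zero, ← h0]
        congr 1
        refine Finset.sum_congr rfl fun p _ => ?_
        ring
      refine ⟨fun h => - ∑ p ∈ box, P.coeff p.1 * Q.coeff p.2 * Γ p h, fun i => ?_, fun h => ?_⟩
      · rw [hexp i]
        simp only [neg_mul, Finset.sum_neg_distrib, Finset.sum_mul]
        congr 1
        rw [Finset.sum_comm]
        refine Finset.sum_congr rfl fun p hp => ?_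
        rw [hΓ1 p (hlt p hp) i, Finset.mul_sum]
        refine Finset.sum_congr rfl fun h _ => ?_
        ring
      · rw [if_neg (fun e => hm ⟨h, e.symm⟩), map_neg, map_sum, neg_eq_zero]
        refine Finset.sum_eq_zero fun p hp => ?_
        rw [map_mul, hcc p hp, zero_mul]

theorem evG_alt (D : ι → ℕ × ℕ) : ∃ u : GG k,
    (∀ σ : Equiv.Perm ι, evG (δ.c ∘ σ) (alt k D) = u * evG (δ.c ∘ σ) (dl k δ)) ∧
    (Set.range D ≠ Set.range δ.c → constantCoeff u = 0) := by
  classical
  have hg := fun m => exists_gam k δ m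
  choose Γ hΓ1 hΓ2 using hg
  have hev : ∀ (σ : Equiv.Perm ι) (E : ι → ℕ × ℕ), evG (δ.c ∘ σ) (alt k E) =
      Matrix.det (Matrix.of fun i j : ι => (X (Sum.inl (δ.c (σ i)).1) : GG k) ^ (E j).1 *
        X (Sum.inr (δ.c (σ i)).2) ^ (E j).2) := by
    intro σ E
    unfold alt
    rw [AlgHom.map_det]
    congr 1
    ext i j
    simp [evG, xx, yy]
  refine ⟨Matrix.det (Matrix.of fun h j : ι => Γ (D j) h), fun σ => ?_, fun hne => ?_⟩
  · rw [dl, hev, hev, mul_comm, ← Matrix.det_mul]
    congr 1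
    ext i j
    rw [Matrix.mul_apply]
    simp only [Matrix.of_apply]
    rw [hΓ1 (D j) (σ i)]
    refine congrArg _ (Finset.sum_congr rfl fun h _ => ?_)
    ring
  · rw [RingHom.map_det]
    by_cases h1 : ∃ j, D j ∉ Set.range δ.c
    · obtain ⟨j, hj⟩ := h1
      refine Matrix.det_eq_zero_of_column_eq_zero j fun h => ?_
      simp only [RingHom.mapMatrix_apply, Matrix.map_apply, Matrix.of_apply]
      rw [hΓ2, if_neg (fun e => hj ⟨h, e.symm⟩)]
    · push Not at h1
      have h2 : ∃ h, δ.c h ∉ Set.range D := by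
        by_contra hcon
        push Not at hcon
        exact hne (Set.Subset.antisymm (by rintro _ ⟨j, rfl⟩; exact h1 j)
          (by rintro _ ⟨j, rfl⟩; exact hcon j))
      obtain ⟨h, hh⟩ := h2
      refine Matrix.det_eq_zero_of_row_eq_zero h fun j => ?_
      simp only [RingHom.mapMatrix_apply, Matrix.map_apply, Matrix.of_apply]
      rw [hΓ2, if_neg (fun e => hh ⟨j, e⟩)]

end

section G3_Disc_aux

variable {A : Type} [CommRing A] {ι : Type} [Fintype ι] [DecidableEq ι]

/-- the Newton polynomial `∏_{j<p} (X - z_j)` -/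
private noncomputable def G3_Disc_newt (z : ℕ → A) (p : ℕ) : Polynomial A :=
  ∏ j ∈ Finset.range p, (Polynomial.X - Polynomial.C (z j))

private theorem G3_Disc_newt_monic (z : ℕ → A) (p : ℕ) : (G3_Disc_newt z p).Monic :=
  Polynomial.monic_prod_of_monic _ _ fun j _ => Polynomial.monic_X_sub_C (z j)

private theorem G3_Disc_newt_natDegree [Nontrivial A] (z : ℕ → A) (p : ℕ) :
    (G3_Disc_newt z p).natDegree = p := by
  unfold G3_Disc_newt
  rw [Polynomial.natDegree_prod_of_monic _ _ fun j _ => Polynomial.monic_X_sub_C (z j)]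
  simp

private theorem G3_Disc_newt_eval (z : ℕ → A) (p : ℕ) (x : A) :
    (G3_Disc_newt z p).eval x = ∏ j ∈ Finset.range p, (x - z j) := by
  unfold G3_Disc_newt
  rw [Polynomial.eval_prod]
  simp

private theorem G3_Disc_newt_coeff_self [Nontrivial A] (z : ℕ → A) (p : ℕ) :
    (G3_Disc_newt z p).coeff p = 1 := by
  have h := (G3_Disc_newt_monic z p).coeff_natDegree
  rwa [G3_Disc_newt_natDegree] at h

private theorem G3_Disc_newt_coeff_gt [Nontrivial A] (z : ℕ → A) {p q : ℕ} (h : p < q) :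
    (G3_Disc_newt z p).coeff q = 0 :=
  Polynomial.coeff_eq_zero_of_natDegree_lt (by rwa [G3_Disc_newt_natDegree])

/-- the determinant of the monomials of a diagram on its grid -/
private theorem G3_Disc_det [Nontrivial A] (δ : Dia ι) (z w : ℕ → A) :
    Matrix.det (Matrix.of fun i h : ι =>
      z (δ.c i).1 ^ (δ.c h).1 * w (δ.c i).2 ^ (δ.c h).2) =
    ∏ i : ι, ((∏ j ∈ Finset.range (δ.c i).1, (z (δ.c i).1 - z j)) *
      ∏ j ∈ Finset.range (δ.c i).2, (w (δ.c i).2 - w j)) := by
  let _ : LinearOrder ι := LinearOrder.lift' (fun i => toLex (δ.c i)) fun a b h =>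
    δ.inj (toLex.injective h)
  have hle : ∀ a b : ι, δ.c a ≤ δ.c b → a ≤ b := fun a b h =>
    (Prod.Lex.toLex_mono h : toLex (δ.c a) ≤ toLex (δ.c b))
  let T : Matrix ι ι A := Matrix.of fun g h =>
    (G3_Disc_newt z (δ.c h).1).coeff (δ.c g).1 * (G3_Disc_newt w (δ.c h).2).coeff (δ.c g).2
  let N : Matrix ι ι A := Matrix.of fun i h =>
    (∏ j ∈ Finset.range (δ.c h).1, (z (δ.c i).1 - z j)) *
      ∏ j ∈ Finset.range (δ.c h).2, (w (δ.c i).2 - w j)
  have hT : T.det = 1 := by
    have h1 : T.IsUpperTriangular := by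
      intro g h hgh
      have hgh' : h < g := hgh
      change (G3_Disc_newt z (δ.c h).1).coeff (δ.c g).1 *
        (G3_Disc_newt w (δ.c h).2).coeff (δ.c g).2 = 0
      have h2 : ¬ (δ.c g ≤ δ.c h) := fun h3 => not_le_of_gt hgh' (hle _ _ h3)
      rw [Prod.le_def, not_and_or, not_le, not_le] at h2
      rcases h2 with h2 | h2
      · rw [G3_Disc_newt_coeff_gt z h2, zero_mul]
      · rw [G3_Disc_newt_coeff_gt w h2, mul_zero]
    rw [Matrix.det_of_isUpperTriangular h1]
    apply Finset.prod_eq_one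
    intro i _
    change (G3_Disc_newt z (δ.c i).1).coeff (δ.c i).1 *
        (G3_Disc_newt w (δ.c i).2).coeff (δ.c i).2 = 1
    rw [G3_Disc_newt_coeff_self, G3_Disc_newt_coeff_self, one_mul]
  have hN : N.det = ∏ i : ι, ((∏ j ∈ Finset.range (δ.c i).1, (z (δ.c i).1 - z j)) *
      ∏ j ∈ Finset.range (δ.c i).2, (w (δ.c i).2 - w j)) := by
    have h1 : N.IsLowerTriangular := by
      intro i h hih
      have hih' : i < h := hih
      change (∏ j ∈ Finset.range (δ.c h).1, (z (δ.c i).1 - z j)) *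
        ∏ j ∈ Finset.range (δ.c h).2, (w (δ.c i).2 - w j) = 0
      have h2 : ¬ (δ.c h ≤ δ.c i) := fun h3 => not_le_of_gt hih' (hle _ _ h3)
      rw [Prod.le_def, not_and_or, not_le, not_le] at h2
      rcases h2 with h2 | h2
      · rw [Finset.prod_eq_zero (Finset.mem_range.mpr h2) (sub_self _), zero_mul]
      · rw [mul_comm, Finset.prod_eq_zero (Finset.mem_range.mpr h2) (sub_self _), zero_mul]
    rw [Matrix.det_of_isLowerTriangular _ h1]
    rfl
  rw [← hN]
  have hMT : (Matrix.of fun i h : ι =>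
      z (δ.c i).1 ^ (δ.c h).1 * w (δ.c i).2 ^ (δ.c h).2) * T = N := by
    ext i h
    rw [Matrix.mul_apply]
    change ∑ g : ι, (z (δ.c i).1 ^ (δ.c g).1 * w (δ.c i).2 ^ (δ.c g).2) *
      ((G3_Disc_newt z (δ.c h).1).coeff (δ.c g).1 * (G3_Disc_newt w (δ.c h).2).coeff (δ.c g).2) =
      (∏ j ∈ Finset.range (δ.c h).1, (z (δ.c i).1 - z j)) *
      ∏ j ∈ Finset.range (δ.c h).2, (w (δ.c i).2 - w j)
    set x := z (δ.c i).1
    set y := w (δ.c i).2
    let F : ℕ × ℕ → A := fun q => ((G3_Disc_newt z (δ.c h).1).coeff q.1 * x ^ q.1) *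
      ((G3_Disc_newt w (δ.c h).2).coeff q.2 * y ^ q.2)
    have e1 : ∑ g : ι, (x ^ (δ.c g).1 * y ^ (δ.c g).2) *
      ((G3_Disc_newt z (δ.c h).1).coeff (δ.c g).1 * (G3_Disc_newt w (δ.c h).2).coeff (δ.c g).2) =
      ∑ q ∈ Finset.univ.image δ.c, F q := by
      rw [Finset.sum_image (fun a _ b _ hab => δ.inj hab)]
      apply Finset.sum_congr rfl
      intro g _
      change _ = ((G3_Disc_newt z (δ.c h).1).coeff (δ.c g).1 * x ^ (δ.c g).1) *
        ((G3_Disc_newt w (δ.c h).2).coeff (δ.c g).2 * y ^ (δ.c g).2)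
      ring
    have e2 : ∑ q ∈ Finset.univ.image δ.c, F q =
        ∑ q ∈ Finset.range ((δ.c h).1 + 1) ×ˢ Finset.range ((δ.c h).2 + 1), F q := by
      symm
      apply Finset.sum_subset
      · intro q hq
        rw [Finset.mem_product, Finset.mem_range, Finset.mem_range] at hq
        obtain ⟨b, hb⟩ := δ.low h q ⟨Nat.lt_succ_iff.mp hq.1, Nat.lt_succ_iff.mp hq.2⟩
        exact Finset.mem_image.mpr ⟨b, Finset.mem_univ _, hb⟩
      · intro q _ hq
        rw [Finset.mem_product, Finset.mem_range, Finset.mem_range, not_and_or, not_lt, not_lt] at hq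
        change ((G3_Disc_newt z (δ.c h).1).coeff q.1 * x ^ q.1) *
          ((G3_Disc_newt w (δ.c h).2).coeff q.2 * y ^ q.2) = 0
        rcases hq with hq | hq
        · rw [G3_Disc_newt_coeff_gt z hq, zero_mul, zero_mul]
        · rw [G3_Disc_newt_coeff_gt w hq, zero_mul, mul_zero]
    rw [e1, e2, Finset.sum_product, ← G3_Disc_newt_eval z, ← G3_Disc_newt_eval w,
      Polynomial.eval_eq_sum_range, Polynomial.eval_eq_sum_range, G3_Disc_newt_natDegree,
      G3_Disc_newt_natDegree, Finset.sum_mul_sum]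
  rw [← hMT, Matrix.det_mul, hT, mul_one]

end G3_Disc_aux

section

variable (k : Type) [Field k] {ι : Type} [Fintype ι] [DecidableEq ι] (δ : Dia ι)

theorem evG_dl_ne_zero (σ : Equiv.Perm ι) : evG (δ.c ∘ σ) (dl k δ) ≠ 0 := by
  have h1 : evG (δ.c ∘ σ) (dl k δ) = Matrix.det ((Matrix.of fun i h : ι =>
      (X (Sum.inl (δ.c i).1) : GG k) ^ (δ.c h).1 * X (Sum.inr (δ.c i).2) ^ (δ.c h).2).submatrix
        σ id) := by
    have := AlgHom.map_det (evG (k := k) (δ.c ∘ σ)) (Matrix.of fun i j : ι =>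
      (xx i ^ (δ.c j).1 * yy i ^ (δ.c j).2 : RR k ι))
    unfold dl alt
    rw [this]
    congr 1
    ext1 i j
    simp [evG, xx, yy]
  rw [h1, Matrix.det_permute,
    G3_Disc_det δ (fun a => (X (Sum.inl a) : GG k)) (fun a => (X (Sum.inr a) : GG k))]
  apply mul_ne_zero
  · intro h0
    have h3 : ((((Equiv.Perm.sign σ : ℤˣ) : ℤ) : GG k)) ^ 2 = 1 := by
      rw [← Int.cast_pow, ← Units.val_pow_eq_pow_val, Int.units_sq]
      simp
    rw [h0] at h3
    simp at h3
  · refine Finset.prod_ne_zero_iff.mpr fun i _ => mul_ne_zero ?_ ?_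
    · refine Finset.prod_ne_zero_iff.mpr fun j hj => ?_
      intro h0
      have h4 := Sum.inl_injective (X_injective (sub_eq_zero.mp h0))
      rw [Finset.mem_range] at hj
      omega
    · refine Finset.prod_ne_zero_iff.mpr fun j hj => ?_
      intro h0
      have h4 := Sum.inr_injective (X_injective (sub_eq_zero.mp h0))
      rw [Finset.mem_range] at hj
      omega

end

section

variable (k : Type) [Field k] {ι : Type} [Fintype ι] [DecidableEq ι]
  (L : Type) [Field L] [Algebra k L] [Algebra (RR k ι) L]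
  [IsScalarTower k (RR k ι) L] [IsFractionRing (RR k ι) L] (δ : Dia ι)

omit [Fintype ι] [DecidableEq ι] in
private theorem g3eo_toL_inj : Function.Injective (toL k L : RR k ι →ₐ[k] L) := by
  intro a b h
  exact IsFractionRing.injective (RR k ι) L h

/-- `u` is the value of `x` -/
private def G3eoR (x : L) (u : GG k) : Prop :=
  ∃ (d : ℕ) (f : RR k ι), x * toL k L (dl k δ) ^ d = toL k L f ∧
    ∀ σ : Equiv.Perm ι, evG (δ.c ∘ σ) f = u * evG (δ.c ∘ σ) (dl k δ) ^ d

omit [IsFractionRing (RR k ι) L] in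
private theorem g3eo_add {x y : L} {u v : GG k} (hx : G3eoR k L δ x u) (hy : G3eoR k L δ y v) :
    G3eoR k L δ (x + y) (u + v) := by
  obtain ⟨d, f, hf, hu⟩ := hx
  obtain ⟨e, g, hg, hv⟩ := hy
  refine ⟨d + e, f * dl k δ ^ e + g * dl k δ ^ d, ?_, ?_⟩
  · rw [map_add, map_mul, map_mul, map_pow, map_pow, ← hf, ← hg]
    ring
  · intro σ
    rw [map_add, map_mul, map_mul, map_pow, map_pow, hu, hv]
    ring

omit [IsFractionRing (RR k ι) L] in
private theorem g3eo_mul {x y : L} {u v : GG k} (hx : G3eoR k L δ x u) (hy : G3eoR k L δ y v) :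
    G3eoR k L δ (x * y) (u * v) := by
  obtain ⟨d, f, hf, hu⟩ := hx
  obtain ⟨e, g, hg, hv⟩ := hy
  refine ⟨d + e, f * g, ?_, ?_⟩
  · rw [map_mul, ← hf, ← hg]
    ring
  · intro σ
    rw [map_mul, hu, hv]
    ring

omit [IsFractionRing (RR k ι) L] in
private theorem g3eo_C (c : k) : G3eoR k L δ (algebraMap k L c) (C c) := by
  refine ⟨0, C c, ?_, ?_⟩
  · rw [pow_zero, mul_one]
    exact ((toL k L : RR k ι →ₐ[k] L).commutes c).symm
  · intro σ
    rw [pow_zero, mul_one]
    exact (evG (δ.c ∘ σ) : RR k ι →ₐ[k] GG k).commutes c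

private theorem g3eo_all {x : L} {u : GG k} (hx : G3eoR k L δ x u) (d : ℕ) (f : RR k ι)
    (hf : x * toL k L (dl k δ) ^ d = toL k L f) (σ : Equiv.Perm ι) :
    evG (δ.c ∘ σ) f = u * evG (δ.c ∘ σ) (dl k δ) ^ d := by
  obtain ⟨e, g, hg, hu⟩ := hx
  have h1 : f * dl k δ ^ e = g * dl k δ ^ d := by
    apply g3eo_toL_inj k L
    rw [map_mul, map_mul, map_pow, map_pow, ← hf, ← hg]
    ring
  have h2 := congrArg (evG (δ.c ∘ σ) : RR k ι →ₐ[k] GG k) h1
  rw [map_mul, map_mul, map_pow, map_pow, hu] at h2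
  have h3 : evG (δ.c ∘ σ) (dl k δ) ^ e ≠ 0 := pow_ne_zero _ (evG_dl_ne_zero k δ σ)
  apply mul_right_cancel₀ h3
  rw [h2]
  ring

private theorem g3eo_unique {x : L} {u v : GG k} (hx : G3eoR k L δ x u) (hy : G3eoR k L δ x v) :
    u = v := by
  obtain ⟨e, g, hg, hv⟩ := hy
  have h1 := g3eo_all k L δ hx e g hg 1
  rw [hv 1] at h1
  exact (mul_right_cancel₀ (pow_ne_zero _ (evG_dl_ne_zero k δ 1)) h1).symm

omit [IsFractionRing (RR k ι) L] in
private theorem g3eo_gen (x : L) (D : ι → ℕ × ℕ)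
    (h : x * toL k L (dl k δ) = toL k L (alt k D)) :
    ∃ u, G3eoR k L δ x u ∧ (Set.range D ≠ Set.range δ.c → constantCoeff u = 0) := by
  obtain ⟨u, hu, hu'⟩ := evG_alt k δ D
  exact ⟨u, ⟨1, alt k D, by rw [pow_one, h], fun σ => by rw [pow_one]; exact hu σ⟩, hu'⟩

omit [IsFractionRing (RR k ι) L] in
private theorem g3eo_exists (x : L) (hx : x ∈ OO k L δ) : ∃ u, G3eoR k L δ x u := by
  induction hx using Algebra.adjoin_induction with
  | mem y hy =>
    obtain ⟨D, hD⟩ := hy
    obtain ⟨u, hu, -⟩ := g3eo_gen k L δ y D hD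
    exact ⟨u, hu⟩
  | algebraMap c => exact ⟨C c, g3eo_C k L δ c⟩
  | add a b _ _ ha hb =>
    obtain ⟨u, hu⟩ := ha
    obtain ⟨v, hv⟩ := hb
    exact ⟨u + v, g3eo_add k L δ hu hv⟩
  | mul a b _ _ ha hb =>
    obtain ⟨u, hu⟩ := ha
    obtain ⟨v, hv⟩ := hb
    exact ⟨u * v, g3eo_mul k L δ hu hv⟩

theorem toL_dl_ne_zero : toL k L (dl k δ) ≠ 0 := by
  intro h
  have h1 : dl k δ = 0 := g3eo_toL_inj k L (h.trans (map_zero _).symm)
  exact evG_dl_ne_zero k δ 1 (by rw [h1, map_zero])

theorem residue : ∃ φ : OO k L δ →ₐ[k] k, RingHom.ker φ = nn k L δ := by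
  have hex : ∀ x : OO k L δ, ∃ u, G3eoR k L δ (x : L) u := fun x => g3eo_exists k L δ x x.2
  choose E hE using hex
  have hC : ∀ c : k, E (algebraMap k (OO k L δ) c) = algebraMap k (GG k) c := fun c =>
    g3eo_unique k L δ (hE _) (g3eo_C k L δ c)
  let E' : OO k L δ →ₐ[k] GG k :=
    { toFun := E
      map_one' := by
        have := hC 1
        rwa [map_one, map_one] at this
      map_mul' := fun x y => g3eo_unique k L δ (hE _) (g3eo_mul k L δ (hE x) (hE y))
      map_zero' := by
        have := hC 0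
        rwa [map_zero, map_zero] at this
      map_add' := fun x y => g3eo_unique k L δ (hE _) (g3eo_add k L δ (hE x) (hE y))
      commutes' := hC }
  let φ : OO k L δ →ₐ[k] k := (aeval (fun _ => (0 : k)) : GG k →ₐ[k] k).comp E'
  have hφ0 : ∀ f : GG k, (aeval (fun _ => (0 : k)) : GG k →ₐ[k] k) f = constantCoeff f := by
    intro f
    rw [aeval_zero']
    rfl
  refine ⟨φ, ?_⟩
  have hnn : nn k L δ ≤ RingHom.ker φ := by
    unfold nn
    rw [Ideal.span_le]
    rintro g ⟨D, hD, hg⟩
    obtain ⟨u, hu, hu'⟩ := g3eo_gen k L δ (g : L) D hg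
    have h1 : E g = u := g3eo_unique k L δ (hE g) hu
    change (aeval (fun _ => (0 : k)) : GG k →ₐ[k] k) (E g) = 0
    rw [hφ0, h1]
    exact hu' hD
  have hkey : ∀ (x : L) (hx : x ∈ OO k L δ), ∃ c : k,
      (⟨x, hx⟩ : OO k L δ) - algebraMap k (OO k L δ) c ∈ nn k L δ := by
    intro x hx
    induction hx using Algebra.adjoin_induction with
    | mem y hy =>
      obtain ⟨D, hD⟩ := hy
      by_cases hr : Set.range D = Set.range δ.c
      · -- a permutation
        have hinj : Function.Injective D := by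
          have h1 : (Finset.univ.image D).card = Fintype.card ι := by
            have h2 : Finset.univ.image D = Finset.univ.image δ.c := by
              apply Finset.coe_injective
              rw [Finset.coe_image, Finset.coe_image, Finset.coe_univ, Set.image_univ,
                Set.image_univ, hr]
            rw [h2, Finset.card_image_of_injective _ δ.inj, Finset.card_univ]
          rw [← Finset.card_univ] at h1
          exact fun a b h => Finset.card_image_iff.mp h1 (Finset.mem_coe.2 (Finset.mem_univ a))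
            (Finset.mem_coe.2 (Finset.mem_univ b)) h
        have hπ : ∀ i, ∃ j, δ.c j = D i := by
          intro i
          have : D i ∈ Set.range δ.c := hr ▸ ⟨i, rfl⟩
          exact this
        choose π hπ using hπ
        have hπi : Function.Injective π := by
          intro a b h
          apply hinj
          rw [← hπ, ← hπ, h]
        let w : Equiv.Perm ι := Equiv.ofBijective π ((Finite.injective_iff_bijective).1 hπi)
        have hw : D = δ.c ∘ w := by
          funext i
          exact (hπ i).symm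
        have halt : alt k D = ((Equiv.Perm.sign w : ℤˣ) : ℤ) • dl k δ := by
          unfold dl alt
          rw [hw]
          have := Matrix.det_permute' w (Matrix.of fun i j : ι =>
            (xx i ^ (δ.c j).1 * yy i ^ (δ.c j).2 : RR k ι))
          rw [zsmul_eq_mul, ← this]
          rfl
        refine ⟨(((Equiv.Perm.sign w : ℤˣ) : ℤ) : k), ?_⟩
        have hy : y = ((((Equiv.Perm.sign w : ℤˣ) : ℤ)) : L) := by
          apply mul_right_cancel₀ (toL_dl_ne_zero k L δ)
          rw [hD, halt, map_zsmul, zsmul_eq_mul]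
        have h0 : (⟨y, Algebra.subset_adjoin ⟨D, hD⟩⟩ : OO k L δ) -
            algebraMap k (OO k L δ) (((Equiv.Perm.sign w : ℤˣ) : ℤ) : k) = 0 := by
          apply Subtype.ext
          change y - algebraMap k L (((Equiv.Perm.sign w : ℤˣ) : ℤ) : k) = 0
          rw [hy, map_intCast, sub_self]
        rw [h0]
        exact Ideal.zero_mem _
      · refine ⟨0, ?_⟩
        rw [map_zero, sub_zero]
        exact Ideal.subset_span ⟨D, hr, hD⟩
    | algebraMap c =>
      refine ⟨c, ?_⟩
      have : (⟨algebraMap k L c, Subalgebra.algebraMap_mem _ c⟩ : OO k L δ) -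
          algebraMap k (OO k L δ) c = 0 := by
        apply Subtype.ext
        change algebraMap k L c - algebraMap k L c = 0
        rw [sub_self]
      rw [this]
      exact Ideal.zero_mem _
    | add a b ha' hb' ha hb =>
      obtain ⟨c, hc⟩ := ha
      obtain ⟨d, hd⟩ := hb
      refine ⟨c + d, ?_⟩
      have : (⟨a + b, (OO k L δ).add_mem ha' hb'⟩ : OO k L δ) - algebraMap k (OO k L δ) (c + d) =
          ((⟨a, ha'⟩ : OO k L δ) - algebraMap k (OO k L δ) c) +
          ((⟨b, hb'⟩ : OO k L δ) - algebraMap k (OO k L δ) d) := by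
        rw [map_add]
        apply Subtype.ext
        change (a + b) - (algebraMap k L c + algebraMap k L d) =
          (a - algebraMap k L c) + (b - algebraMap k L d)
        ring
      rw [this]
      exact Ideal.add_mem _ hc hd
    | mul a b ha' hb' ha hb =>
      obtain ⟨c, hc⟩ := ha
      obtain ⟨d, hd⟩ := hb
      refine ⟨c * d, ?_⟩
      have : (⟨a * b, (OO k L δ).mul_mem ha' hb'⟩ : OO k L δ) - algebraMap k (OO k L δ) (c * d) =
          (⟨b, hb'⟩ : OO k L δ) * ((⟨a, ha'⟩ : OO k L δ) - algebraMap k (OO k L δ) c) +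
          algebraMap k (OO k L δ) c * ((⟨b, hb'⟩ : OO k L δ) - algebraMap k (OO k L δ) d) := by
        rw [map_mul]
        apply Subtype.ext
        change (a * b) - (algebraMap k L c * algebraMap k L d) =
          b * (a - algebraMap k L c) + algebraMap k L c * (b - algebraMap k L d)
        ring
      rw [this]
      exact Ideal.add_mem _ (Ideal.mul_mem_left _ _ hc) (Ideal.mul_mem_left _ _ hd)
  apply le_antisymm _ hnn
  intro x hx
  obtain ⟨c, hc⟩ := hkey x x.2
  have h1 := hnn hc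
  rw [RingHom.mem_ker] at h1 hx
  have h2 : (x : OO k L δ) - algebraMap k (OO k L δ) c ∈ nn k L δ := hc
  have h3 : φ (x - algebraMap k (OO k L δ) c) = 0 := h1
  rw [map_sub, AlgHom.commutes] at h3
  have h4 : φ x = 0 := hx
  rw [h4, zero_sub, neg_eq_zero] at h3
  have h5 : c = 0 := h3
  rw [h5, map_zero, sub_zero] at h2
  exact h2

/-- the monomial with exponent `m` at the point `i`, in `L` -/
private noncomputable def mm (m : ℕ × ℕ) (i : ι) : L := toL k L (xx i ^ m.1 * yy i ^ m.2)

private noncomputable def cL (m : ℕ × ℕ) (h : ι) : L :=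
  toL k L (alt k (Function.update δ.c h m)) / toL k L (dl k δ)

omit [Fintype ι] [DecidableEq ι] [IsFractionRing (RR k ι) L] in
private theorem mm_x (m : ℕ × ℕ) (i : ι) :
    mm k L (m.1 + 1, m.2) i = toL k L (xx i) * mm k L m i := by
  unfold mm
  rw [← map_mul]
  congr 1
  ring

omit [Fintype ι] [DecidableEq ι] [IsFractionRing (RR k ι) L] in
private theorem mm_y (m : ℕ × ℕ) (i : ι) :
    mm k L (m.1, m.2 + 1) i = toL k L (yy i) * mm k L m i := by
  unfold mm
  rw [← map_mul]
  congr 1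
  ring

omit [IsFractionRing (RR k ι) L] in
private theorem toL_alt (D : ι → ℕ × ℕ) :
    toL k L (alt k D) = Matrix.det (Matrix.of fun i j : ι => mm k L (D j) i) := by
  unfold alt mm
  rw [AlgHom.map_det]
  rfl

private theorem cL_spec (m : ℕ × ℕ) (i : ι) :
    ∑ h, cL k L δ m h * mm k L (δ.c h) i = mm k L m i := by
  have h0 := toL_dl_ne_zero k L δ
  have h1 := congrFun (Matrix.mulVec_cramer (Matrix.of fun i j : ι => mm k L (δ.c j) i)
    (fun i => mm k L m i)) i
  rw [← toL_alt, Pi.smul_apply, smul_eq_mul] at h1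
  change ∑ h, mm k L (δ.c h) i * (Matrix.cramer (Matrix.of fun i j : ι => mm k L (δ.c j) i)
    (fun i => mm k L m i)) h = _ at h1
  have h2 : ∀ h, (Matrix.cramer (Matrix.of fun i j : ι => mm k L (δ.c j) i)
    (fun i => mm k L m i)) h = toL k L (alt k (Function.update δ.c h m)) := by
    intro h
    rw [Matrix.cramer_apply, toL_alt]
    congr 1
    ext i j
    rw [Matrix.updateCol_apply, Matrix.of_apply, Matrix.of_apply, Function.update_apply]
    split_ifs <;> rfl
  simp only [h2] at h1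
  apply mul_left_cancel₀ h0
  rw [Finset.mul_sum]
  change _ = toL k L (alt k δ.c) * _
  rw [← h1]
  refine Finset.sum_congr rfl fun h _ => ?_
  unfold cL
  field_simp

private theorem cL_unique (a b : ι → L)
    (h : ∀ i : ι, ∑ h, a h * mm k L (δ.c h) i = ∑ h, b h * mm k L (δ.c h) i) : a = b := by
  have h0 : (Matrix.of fun i j : ι => mm k L (δ.c j) i).det ≠ 0 := by
    rw [← toL_alt]
    exact toL_dl_ne_zero k L δ
  have h1 : (Matrix.of fun i j : ι => mm k L (δ.c j) i).mulVec (a - b) = 0 := by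
    funext i
    rw [Matrix.mulVec_sub, Pi.sub_apply, Pi.zero_apply, sub_eq_zero]
    change ∑ h, mm k L (δ.c h) i * a h = ∑ h, mm k L (δ.c h) i * b h
    have h3 : ∀ a : ι → L, ∑ h, mm k L (δ.c h) i * a h = ∑ h, a h * mm k L (δ.c h) i :=
      fun a => Finset.sum_congr rfl fun h _ => mul_comm _ _
    rw [h3, h3]
    exact h i
  exact sub_eq_zero.1 (Matrix.eq_zero_of_mulVec_eq_zero h0 h1)

/-- the finite generating set -/
private def gens : Set L :=
  Set.range (fun p : ι × ι => cL k L δ ((δ.c p.1).1 + 1, (δ.c p.1).2) p.2) ∪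
  Set.range (fun p : ι × ι => cL k L δ ((δ.c p.1).1, (δ.c p.1).2 + 1) p.2)

private theorem cL_cell (h h' : ι) : cL k L δ (δ.c h) h' = if h' = h then 1 else 0 := by
  have := cL_unique k L δ (cL k L δ (δ.c h)) (fun h' => if h' = h then 1 else 0) (by
    intro i
    rw [cL_spec]
    simp)
  exact congrFun this h'

private theorem cL_x (m : ℕ × ℕ) (h : ι) : cL k L δ (m.1 + 1, m.2) h =
    ∑ h', cL k L δ m h' * cL k L δ ((δ.c h').1 + 1, (δ.c h').2) h := by
  have := cL_unique k L δ (cL k L δ (m.1 + 1, m.2))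
    (fun h => ∑ h', cL k L δ m h' * cL k L δ ((δ.c h').1 + 1, (δ.c h').2) h) (by
    intro i
    rw [cL_spec, mm_x, ← cL_spec k L δ m i]
    simp only [Finset.sum_mul]
    rw [Finset.sum_comm, Finset.mul_sum]
    refine Finset.sum_congr rfl fun h' _ => ?_
    simp only [mul_assoc]
    rw [← Finset.mul_sum, cL_spec, mm_x]
    ring)
  exact congrFun this h

private theorem cL_y (m : ℕ × ℕ) (h : ι) : cL k L δ (m.1, m.2 + 1) h =
    ∑ h', cL k L δ m h' * cL k L δ ((δ.c h').1, (δ.c h').2 + 1) h := by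
  have := cL_unique k L δ (cL k L δ (m.1, m.2 + 1))
    (fun h => ∑ h', cL k L δ m h' * cL k L δ ((δ.c h').1, (δ.c h').2 + 1) h) (by
    intro i
    rw [cL_spec, mm_y, ← cL_spec k L δ m i]
    simp only [Finset.sum_mul]
    rw [Finset.sum_comm, Finset.mul_sum]
    refine Finset.sum_congr rfl fun h' _ => ?_
    simp only [mul_assoc]
    rw [← Finset.mul_sum, cL_spec, mm_y]
    ring)
  exact congrFun this h

private theorem cL_mem (m : ℕ × ℕ) (h : ι) : cL k L δ m h ∈ Algebra.adjoin k (gens k L δ) := by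
  obtain ⟨a, b⟩ := m
  induction b generalizing h with
  | succ b ih =>
    rw [cL_y k L δ (a, b)]
    refine Subalgebra.sum_mem _ fun h' _ => Subalgebra.mul_mem _ (ih h')
      (Algebra.subset_adjoin (Or.inr ⟨(h', h), rfl⟩))
  | zero =>
    induction a generalizing h with
    | succ a ih =>
      rw [cL_x k L δ (a, 0)]
      refine Subalgebra.sum_mem _ fun h' _ => Subalgebra.mul_mem _ (ih h')
        (Algebra.subset_adjoin (Or.inl ⟨(h', h), rfl⟩))
    | zero =>
      obtain ⟨h0, hh0⟩ := δ.low h (0, 0) ⟨Nat.zero_le _, Nat.zero_le _⟩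
      rw [← hh0, cL_cell]
      split_ifs
      · exact Subalgebra.one_mem _
      · exact Subalgebra.zero_mem _

private theorem OO_eq : OO k L δ = Algebra.adjoin k (gens k L δ) := by
  apply le_antisymm
  · unfold OO
    rw [Algebra.adjoin_le_iff]
    rintro g ⟨D, hD⟩
    have h1 : g = Matrix.det (Matrix.of fun h j : ι => cL k L δ (D j) h) := by
      apply mul_right_cancel₀ (toL_dl_ne_zero k L δ)
      rw [hD]
      change _ = _ * toL k L (alt k δ.c)
      rw [toL_alt, toL_alt, mul_comm, ← Matrix.det_mul]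
      congr 1
      ext i j
      rw [Matrix.mul_apply]
      change mm k L (D j) i = ∑ h, mm k L (δ.c h) i * cL k L δ (D j) h
      rw [← cL_spec k L δ (D j) i]
      refine Finset.sum_congr rfl fun h _ => mul_comm _ _
    rw [h1, Matrix.det_apply]
    refine Subalgebra.sum_mem _ fun w _ => ?_
    rw [Units.smul_def]
    refine Subalgebra.zsmul_mem _ (Subalgebra.prod_mem _ fun i _ => ?_) _
    exact cL_mem k L δ _ _
  · rw [Algebra.adjoin_le_iff]
    rintro g (⟨p, rfl⟩ | ⟨p, rfl⟩)
    · exact Algebra.subset_adjoin ⟨_, div_mul_cancel₀ _ (toL_dl_ne_zero k L δ)⟩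
    · exact Algebra.subset_adjoin ⟨_, div_mul_cancel₀ _ (toL_dl_ne_zero k L δ)⟩

theorem OO_finiteType : Algebra.FiniteType k (OO k L δ) := by
  rw [← Subalgebra.fg_iff_finiteType, OO_eq, Subalgebra.fg_def]
  exact ⟨gens k L δ, Set.Finite.union (Set.finite_range _) (Set.finite_range _), rfl⟩

end

end Pool.Agent.Lib.MP_463376_co.StreamC1h48
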