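import Pool.Agent.Lib.MP_463376_co.C2_OO

/-! Stream C2: the cotangent space is spanned by `2n` arrows -/

set_option autoImplicit false

namespace Pool.Agent.Lib.MP_463376_co

open MvPolynomial

section

variable (k : Type) [Field k] [CharZero k] {ι : Type} [Fintype ι] [DecidableEq ι]
  (L : Type) [Field L] [Algebra k L] [Algebra (RR k ι) L]
  [IsScalarTower k (RR k ι) L] [IsFractionRing (RR k ι) L] (δ : Dia ι)

omit [DecidableEq ι] in
theorem C2_bound : ∃ B : ℕ, ∀ i, (δ.c i).1 < B ∧ (δ.c i).2 < B := by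
  refine ⟨(∑ i, ((δ.c i).1 + (δ.c i).2)) + 1, fun i => ?_⟩
  have h := Finset.single_le_sum (f := fun i => (δ.c i).1 + (δ.c i).2) (fun _ _ => Nat.zero_le _)
    (Finset.mem_univ i)
  have h' : (δ.c i).1 + (δ.c i).2 ≤ ∑ i, ((δ.c i).1 + (δ.c i).2) := h
  omega

theorem C2_case1 (J : Ideal (OO k L δ)) (hJ : nn k L δ ^ 2 ≤ J)
    (h4 : ∀ s ∈ Set.range δ.c, ∀ h, δ.c h = C2_ct (Set.range δ.c) s →
      cO k L δ (C2_re (Set.range δ.c) s) h ∈ J) (m : ℕ × ℕ) (hm : m ∉ Set.range δ.c) (h : ι)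
    (hlt : (δ.c h).1 < m.1) : cO k L δ m h ∈ J := by
  obtain ⟨B, hB⟩ := C2_bound δ
  refine C2_slide (Set.range δ.c) ?_ B ?_ (fun m p => ∀ h, δ.c h = p → cO k L δ m h ∈ J)
    ?_ ?_ ?_ h4 _ m (δ.c h) hm ⟨h, rfl⟩ hlt rfl h rfl
  · rintro _ q hq ⟨a, rfl⟩
    exact δ.low a q hq
  · rintro _ ⟨i, rfl⟩
    exact (hB i).2
  · rintro m _ hm ⟨h', rfl⟩ _ hP i hi
    have h1 := C2_arrow k L δ m (1, 0) hm i h' (by rw [hi]; ext <;> simp)
    have h2 : cO k L δ (m + (1, 0)) i =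
        (cO k L δ (m + (1, 0)) i - cO k L δ m h') + cO k L δ m h' := by ring
    have h3 : m + (1, 0) = (m.1 + 1, m.2) := by ext <;> simp
    rw [← h3, h2]
    exact J.add_mem (hJ h1) (hP h' rfl)
  · rintro m _ hm ⟨h', rfl⟩ ⟨j, hj⟩ hP i hi
    have h1 := C2_arrow k L δ m (0, 1) hm j i (by rw [hj, ← hi]; ext <;> simp)
    have h2 : cO k L δ m i = cO k L δ (m + (0, 1)) j -
        (cO k L δ (m + (0, 1)) j - cO k L δ m i) := by ring
    have h3 : m + (0, 1) = (m.1, m.2 + 1) := by ext <;> simp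
    rw [h2]
    refine J.sub_mem ?_ (hJ h1)
    rw [h3]
    exact hP j hj
  · rintro m _ hm ⟨h', rfl⟩ h0 i hi
    have h3 : m + (1, 0) = (m.1 + 1, m.2) := by ext <;> simp
    rw [← h3]
    refine hJ (C2_arrow_zero k L δ m (1, 0) hm i ?_)
    intro hle
    rw [hi] at hle
    have h5 : 1 ≤ (δ.c h').1 := hle.1
    omega

theorem C2_case2 (J : Ideal (OO k L δ)) (hJ : nn k L δ ^ 2 ≤ J)
    (h4 : ∀ s ∈ Prod.swap ⁻¹' Set.range δ.c, ∀ h,
      δ.c h = (C2_ct (Prod.swap ⁻¹' Set.range δ.c) s).swap →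
      cO k L δ (C2_re (Prod.swap ⁻¹' Set.range δ.c) s).swap h ∈ J)
    (m : ℕ × ℕ) (hm : m ∉ Set.range δ.c) (h : ι)
    (hlt : (δ.c h).2 < m.2) : cO k L δ m h ∈ J := by
  obtain ⟨B, hB⟩ := C2_bound δ
  have key := C2_slide (Prod.swap ⁻¹' Set.range δ.c) ?_ B ?_
    (fun m p => ∀ h, δ.c h = p.swap → cO k L δ m.swap h ∈ J)
    ?_ ?_ ?_ h4 _ m.swap (δ.c h).swap (by simpa using hm) (by simp) hlt rfl h (by simp)
  · simpa using key
  · rintro p q hq ⟨a, ha⟩
    refine δ.low a q.swap ?_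
    rw [ha]
    exact ⟨hq.2, hq.1⟩
  · rintro p ⟨i, hi⟩
    have := (hB i).1
    rw [hi] at this
    exact this
  · rintro m p hm ⟨h', hh'⟩ _ hP i hi
    have hm' : m.swap ∉ Set.range δ.c := hm
    have h1 := C2_arrow k L δ m.swap (0, 1) hm' i h' (by rw [hi, hh']; ext <;> simp)
    have h2 : cO k L δ (m.swap + (0, 1)) i =
        (cO k L δ (m.swap + (0, 1)) i - cO k L δ m.swap h') + cO k L δ m.swap h' := by ring
    have h3 : m.swap + (0, 1) = (m.1 + 1, m.2).swap := by ext <;> simp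
    rw [← h3, h2]
    exact J.add_mem (hJ h1) (hP h' hh')
  · rintro m p hm ⟨h', hh'⟩ ⟨j, hj⟩ hP i hi
    have hm' : m.swap ∉ Set.range δ.c := hm
    have h1 := C2_arrow k L δ m.swap (1, 0) hm' j i (by rw [hj, hi]; ext <;> simp)
    have h2 : cO k L δ m.swap i = cO k L δ (m.swap + (1, 0)) j -
        (cO k L δ (m.swap + (1, 0)) j - cO k L δ m.swap i) := by ring
    have h3 : m.swap + (1, 0) = (m.1, m.2 + 1).swap := by ext <;> simp
    rw [h2]
    refine J.sub_mem ?_ (hJ h1)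
    rw [h3]
    exact hP j hj
  · rintro m p hm ⟨h', hh'⟩ h0 i hi
    have hm' : m.swap ∉ Set.range δ.c := hm
    have h3 : m.swap + (0, 1) = (m.1 + 1, m.2).swap := by ext <;> simp
    rw [← h3]
    refine hJ (C2_arrow_zero k L δ m.swap (0, 1) hm' i ?_)
    intro hle
    rw [hi] at hle
    have h5 : 1 ≤ p.1 := hle.2
    omega

/-- The cotangent space at the fixed point is spanned by `2n` elements. -/
theorem C2_cotangent : ∃ t : Finset (OO k L δ), t.card ≤ 2 * Fintype.card ι ∧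
    (∀ x ∈ t, x ∈ nn k L δ) ∧ nn k L δ ≤ Ideal.span (t : Set (OO k L δ)) ⊔ nn k L δ ^ 2 := by
  classical
  let ix : ℕ × ℕ → ι → ι := fun p h => if H : ∃ i, δ.c i = p then H.choose else h
  have hix : ∀ p h i, δ.c i = p → ix p h = i := by
    intro p h i hi
    have H : ∃ i, δ.c i = p := ⟨i, hi⟩
    have h1 : ix p h = H.choose := dif_pos H
    rw [h1]
    exact δ.inj (H.choose_spec.trans hi.symm)
  let f1 : ι → OO k L δ := fun s =>
    cO k L δ (C2_re (Set.range δ.c) (δ.c s)) (ix (C2_ct (Set.range δ.c) (δ.c s)) s)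
  let f2 : ι → OO k L δ := fun s =>
    cO k L δ (C2_re (Prod.swap ⁻¹' Set.range δ.c) (δ.c s).swap).swap
      (ix (C2_ct (Prod.swap ⁻¹' Set.range δ.c) (δ.c s).swap).swap s)
  obtain ⟨B, hB⟩ := C2_bound δ
  have hre1 : ∀ s, C2_re (Set.range δ.c) s ∉ Set.range δ.c := by
    intro s
    have h1 : sInf {a | (a, s.2) ∉ Set.range δ.c} ∈ {a | (a, s.2) ∉ Set.range δ.c} := by
      refine Nat.sInf_mem ⟨B, ?_⟩
      rintro ⟨i, hi⟩
      have := (hB i).1
      rw [hi] at this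
      exact lt_irrefl _ this
    exact h1
  have hre2 : ∀ s, (C2_re (Prod.swap ⁻¹' Set.range δ.c) s).swap ∉ Set.range δ.c := by
    intro s
    have h1 : sInf {a | (a, s.2) ∉ Prod.swap ⁻¹' Set.range δ.c} ∈
        {a | (a, s.2) ∉ Prod.swap ⁻¹' Set.range δ.c} := by
      refine Nat.sInf_mem ⟨B, ?_⟩
      rintro ⟨i, hi⟩
      have := (hB i).2
      rw [hi] at this
      exact lt_irrefl _ this
    exact h1
  refine ⟨Finset.univ.image f1 ∪ Finset.univ.image f2, ?_, ?_, ?_⟩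
  · refine (Finset.card_union_le _ _).trans ?_
    have h1 : (Finset.univ.image f1).card ≤ Fintype.card ι := Finset.card_image_le
    have h2 : (Finset.univ.image f2).card ≤ Fintype.card ι := Finset.card_image_le
    omega
  · intro x hx
    rcases Finset.mem_union.1 hx with hx | hx
    · obtain ⟨s, -, rfl⟩ := Finset.mem_image.1 hx
      exact C2_cO_mem k L δ _ (hre1 _) _
    · obtain ⟨s, -, rfl⟩ := Finset.mem_image.1 hx
      exact C2_cO_mem k L δ _ (hre2 _) _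
  · set J : Ideal (OO k L δ) :=
      Ideal.span ((Finset.univ.image f1 ∪ Finset.univ.image f2 : Finset (OO k L δ)) :
        Set (OO k L δ)) ⊔ nn k L δ ^ 2 with hJdef
    have hJ : nn k L δ ^ 2 ≤ J := le_sup_right
    have c1 := C2_case1 k L δ J hJ (by
      rintro _ ⟨s, rfl⟩ h hh
      refine (le_sup_left : _ ≤ J) (Ideal.subset_span ?_)
      rw [Finset.mem_coe]
      refine Finset.mem_union_left _ (Finset.mem_image.2 ⟨s, Finset.mem_univ _, ?_⟩)
      show cO k L δ _ (ix _ s) = _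
      rw [hix _ s h hh])
    have c2 := C2_case2 k L δ J hJ (by
      intro s hs h hh
      obtain ⟨s', hs'⟩ := hs
      obtain rfl : s = (δ.c s').swap := by rw [hs']; simp
      refine (le_sup_left : _ ≤ J) (Ideal.subset_span ?_)
      rw [Finset.mem_coe]
      refine Finset.mem_union_right _ (Finset.mem_image.2 ⟨s', Finset.mem_univ _, ?_⟩)
      show cO k L δ _ (ix _ s') = _
      rw [hix _ s' h hh])
    refine (C2_nn_le k L δ).trans ?_
    rw [Ideal.span_le]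
    rintro _ ⟨m, h, hm, rfl⟩
    by_cases h1 : (δ.c h).1 < m.1
    · exact c1 m hm h h1
    by_cases h2 : (δ.c h).2 < m.2
    · exact c2 m hm h h2
    exfalso
    push Not at h1 h2
    exact hm (δ.low h m ⟨h1, h2⟩)

end

end Pool.Agent.Lib.MP_463376_co
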