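import Mathlib
import Pool.Agent.Lib.MP_463376_co.C3_Gen

/-! Stream C2: heights of rational points, a regularity criterion -/

set_option autoImplicit false

namespace Pool.Agent.Lib.MP_463376_co

open Cardinal

/-- Rational points of affine space have height at least the dimension. -/
theorem C2_mv {k : Type} [Field k] : ∀ (s : ℕ) (ψ : MvPolynomial (Fin s) k →ₐ[k] k),
    (s : ℕ∞) ≤ (RingHom.ker ψ).height := by
  intro s
  induction s with
  | zero => intro ψ; simp
  | succ s ih =>
    intro ψ
    let e := MvPolynomial.finSuccEquiv k s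
    let ψ' : Polynomial (MvPolynomial (Fin s) k) →ₐ[k] k := ψ.comp e.symm.toAlgHom
    let ψ₀ : MvPolynomial (Fin s) k →ₐ[k] k :=
      ψ'.comp (IsScalarTower.toAlgHom k (MvPolynomial (Fin s) k) (Polynomial (MvPolynomial (Fin s) k)))
    have hs : Function.Surjective ψ' := fun a => ⟨algebraMap k _ a, ψ'.commutes a⟩
    have hmax : (RingHom.ker ψ').IsMaximal := RingHom.ker_isMaximal_of_surjective ψ' hs
    have hlo : (RingHom.ker ψ').LiesOver (RingHom.ker ψ₀) := ⟨by
      ext x
      rfl⟩
    have h1 := Polynomial.height_eq_height_add_one (RingHom.ker ψ₀) (RingHom.ker ψ')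
    have h2 : (RingHom.ker ψ).height = (RingHom.ker ψ').height := by
      have h3 : RingHom.ker ψ = (RingHom.ker ψ').comap (e : _ ≃+* _) := by
        ext x
        simp [ψ', RingHom.mem_ker, e]
      rw [h3, RingEquiv.height_comap]
    rw [h2, h1]
    have := ih ψ₀
    push_cast
    gcongr

/-- A rational point of an affine variety has height the dimension. -/
theorem C2_max {k O : Type} [Field k] [CommRing O] [IsDomain O] [Algebra k O]
    [Algebra.FiniteType k O] (φ : O →ₐ[k] k) {N : ℕ} (hN : Algebra.trdeg k O = (N : Cardinal)) :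
    (N : ℕ∞) ≤ (RingHom.ker φ).height := by
  obtain ⟨s, g, hinj, hint⟩ := exists_integral_inj_algHom_of_fg k O
  let alg : Algebra (MvPolynomial (Fin s) k) O := g.toRingHom.toAlgebra
  have tow : IsScalarTower k (MvPolynomial (Fin s) k) O :=
    IsScalarTower.of_algebraMap_eq (fun x => (g.commutes x).symm)
  have int : Algebra.IsIntegral (MvPolynomial (Fin s) k) O := ⟨hint⟩
  have fs : FaithfulSMul (MvPolynomial (Fin s) k) O :=
    (faithfulSMul_iff_algebraMap_injective _ _).2 hinj
  have noeth : IsNoetherianRing O := Algebra.FiniteType.isNoetherianRing k O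
  have hpr : (RingHom.ker φ).IsPrime := RingHom.ker_isPrime _
  obtain ⟨q₀, hq₀⟩ : ∃ q₀ : Ideal (MvPolynomial (Fin s) k),
      q₀ = (RingHom.ker φ).under (MvPolynomial (Fin s) k) := ⟨_, rfl⟩
  have pr : q₀.IsPrime := by rw [hq₀]; infer_instance
  have lo : (RingHom.ker φ).LiesOver q₀ := ⟨hq₀⟩
  have h1 := Ideal.height_eq_height_add_of_liesOver_of_hasGoingDown q₀ (RingHom.ker φ)
  have h8 : Algebra.trdeg k (MvPolynomial (Fin s) k) = Algebra.trdeg k O :=
    C3_alg k (MvPolynomial (Fin s) k) O
  have h9 : s = N := by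
    rw [hN, MvPolynomial.trdeg_of_isDomain] at h8
    simpa using h8
  subst h9
  have h2 : q₀ = RingHom.ker (φ.comp g) := by
    rw [hq₀]
    ext x
    rfl
  rw [h1]
  refine le_trans ?_ le_self_add
  rw [h2]
  exact C2_mv s (φ.comp g)

/-- Regularity from generators of the cotangent space. -/
theorem C2_regular (A : Type) [CommRing A] [IsLocalRing A] [IsNoetherianRing A]
    (t : Finset A) (htm : ∀ x ∈ t, x ∈ IsLocalRing.maximalIdeal A)
    (ht : IsLocalRing.maximalIdeal A ≤ Ideal.span (t : Set A) ⊔ (IsLocalRing.maximalIdeal A) ^ 2)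
    {N : ℕ} (hc : t.card ≤ N)
    (h : (N : ℕ∞) ≤ (IsLocalRing.maximalIdeal A).height) :
    IsRegularLocalRing A ∧ ringKrullDim A = (N : ℕ) := by
  have hs : Ideal.span (t : Set A) = IsLocalRing.maximalIdeal A := by
    apply le_antisymm
    · rw [Ideal.span_le]
      exact htm
    · refine Submodule.le_of_le_smul_of_le_jacobson_bot (I := IsLocalRing.maximalIdeal A)
        (IsLocalRing.maximalIdeal A).fg_of_isNoetherianRing ?_ ?_
      · rw [IsLocalRing.jacobson_eq_maximalIdeal _ bot_ne_top]
      · rw [smul_eq_mul, ← pow_two]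
        exact ht
  have h1 : (IsLocalRing.maximalIdeal A).spanFinrank ≤ t.card := by
    rw [← hs]
    refine (Submodule.spanFinrank_span_le_ncard_of_finite t.finite_toSet).trans ?_
    rw [Set.ncard_coe_finset]
  have h1' : (IsLocalRing.maximalIdeal A).spanFinrank ≤ N := h1.trans hc
  have h2 : ((IsLocalRing.maximalIdeal A).spanFinrank : ℕ∞) ≤
      (IsLocalRing.maximalIdeal A).height :=
    le_trans (by exact_mod_cast h1') h
  have h3 : (IsLocalRing.maximalIdeal A).height ≤
      ((IsLocalRing.maximalIdeal A).spanFinrank : ℕ∞) :=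
    Ideal.height_le_spanFinrank _ (Ideal.IsPrime.ne_top')
  constructor
  · apply IsRegularLocalRing.of_spanFinrank_maximalIdeal_le
    rw [← IsLocalRing.maximalIdeal_height_eq_ringKrullDim]
    exact_mod_cast h2
  · rw [← IsLocalRing.maximalIdeal_height_eq_ringKrullDim]
    have h4 : (IsLocalRing.maximalIdeal A).height = (N : ℕ∞) :=
      le_antisymm (h3.trans (by exact_mod_cast h1')) h
    rw [h4]
    rfl

/-- The local ring of a variety at a rational point. -/
theorem C2_local {k O A : Type} [Field k] [CommRing O] [IsDomain O] [Algebra k O]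
    [Algebra.FiniteType k O] [CommRing A] [Algebra O A] (n : Ideal O) [n.IsPrime]
    [IsLocalization.AtPrime A n] (φ : O →ₐ[k] k) (hφ : RingHom.ker φ = n) {N : ℕ}
    (hN : Algebra.trdeg k O = (N : Cardinal)) (t : Finset O) (htc : t.card ≤ N)
    (htn : ∀ x ∈ t, x ∈ n) (hts : n ≤ Ideal.span (t : Set O) ⊔ n ^ 2) :
    IsRegularLocalRing A ∧ ringKrullDim A = (N : ℕ) := by
  classical
  have hno : IsNoetherianRing O := Algebra.FiniteType.isNoetherianRing k O
  have hnoA : IsNoetherianRing A := IsLocalization.isNoetherianRing n.primeCompl _ hno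
  have hlocal : IsLocalRing A := IsLocalization.AtPrime.isLocalRing _ n
  have hmax : n.map (algebraMap O A) = IsLocalRing.maximalIdeal A :=
    IsLocalization.AtPrime.map_eq_maximalIdeal n A
  have hht : (N : ℕ∞) ≤ (IsLocalRing.maximalIdeal A).height := by
    have h1 := C2_max φ hN
    rw [hφ] at h1
    have h2 : (IsLocalRing.maximalIdeal A).under O = n :=
      IsLocalization.AtPrime.under_maximalIdeal A n
    have h3 := IsLocalization.height_under n.primeCompl (IsLocalRing.maximalIdeal A)
    rw [← h3, h2]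
    exact h1
  refine C2_regular A (t.image (algebraMap O A)) ?_ ?_ (Finset.card_image_le.trans htc) hht
  · intro x hx
    obtain ⟨y, hy, rfl⟩ := Finset.mem_image.1 hx
    rw [← hmax]
    exact Ideal.mem_map_of_mem _ (htn y hy)
  · rw [← hmax, Finset.coe_image, ← Ideal.map_span, ← Ideal.map_pow, ← Ideal.map_sup]
    exact Ideal.map_mono hts

/-- Localization inside a field. -/
theorem C2_isLoc {k L : Type} [Field k] [Field L] [Algebra k L] (O A : Subalgebra k L)
    [Algebra O A] (hcoe : ∀ x : O, ((algebraMap O A x : A) : L) = x) (n : Ideal O) [n.IsPrime]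
    (h1 : ∀ b : O, b ∉ n → (b : L)⁻¹ ∈ A)
    (h2 : ∀ g ∈ A, ∃ a b : O, b ∉ n ∧ g * b = a) : IsLocalization.AtPrime A n := by
  refine ⟨?_, ?_, ?_⟩
  · rintro ⟨b, hb⟩
    have hb' : b ∉ n := hb
    have hb0 : (b : L) ≠ 0 := by
      intro h
      apply hb'
      have : b = 0 := Subtype.ext h
      rw [this]
      exact n.zero_mem
    refine IsUnit.of_mul_eq_one ⟨_, h1 b hb'⟩ ?_
    apply Subtype.ext
    show ((algebraMap O A b : A) : L) * (b : L)⁻¹ = 1
    rw [hcoe]
    exact mul_inv_cancel₀ hb0
  · intro g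
    obtain ⟨a, b, hb, hab⟩ := h2 g g.2
    refine ⟨(a, ⟨b, hb⟩), Subtype.ext ?_⟩
    show (g : L) * ((algebraMap O A b : A) : L) = ((algebraMap O A a : A) : L)
    rw [hcoe, hcoe]
    exact hab
  · intro x y hxy
    refine ⟨1, ?_⟩
    have h : ((algebraMap O A x : A) : L) = ((algebraMap O A y : A) : L) :=
      congrArg (fun z : A => (z : L)) hxy
    rw [hcoe, hcoe] at h
    rw [Subtype.ext h]

end Pool.Agent.Lib.MP_463376_co
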