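import Mathlib

/-! Stream C2: sliding of arrows (combinatorics of Young diagrams) -/

set_option autoImplicit false

namespace Pool.Agent.Lib.MP_463376_co

/-- first cell outside of `M` in the row of `s` -/
noncomputable def C2_re (M : Set (ℕ × ℕ)) (s : ℕ × ℕ) : ℕ × ℕ := (sInf {a | (a, s.2) ∉ M}, s.2)

/-- last cell of `M` in the column of `s` -/
noncomputable def C2_ct (M : Set (ℕ × ℕ)) (s : ℕ × ℕ) : ℕ × ℕ := (s.1, sInf {b | (s.1, b + 1) ∉ M})

/-- Sliding of arrows. -/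
theorem C2_slide (M : Set (ℕ × ℕ)) (hM : ∀ p q, q ≤ p → p ∈ M → q ∈ M) (B : ℕ)
    (hB : ∀ p ∈ M, p.2 < B) (P : ℕ × ℕ → ℕ × ℕ → Prop)
    (h1 : ∀ m h, m ∉ M → h ∈ M → (h.1 + 1, h.2) ∈ M → P m h → P (m.1 + 1, m.2) (h.1 + 1, h.2))
    (h2 : ∀ m h, m ∉ M → h ∈ M → (h.1, h.2 + 1) ∈ M → P (m.1, m.2 + 1) (h.1, h.2 + 1) → P m h)
    (h3 : ∀ m h, m ∉ M → h ∈ M → h.1 = 0 → P (m.1 + 1, m.2) h)
    (h4 : ∀ s ∈ M, P (C2_re M s) (C2_ct M s)) :
    ∀ N : ℕ, ∀ m h, m ∉ M → h ∈ M → h.1 < m.1 → h.1 + (B - h.2) = N → P m h := by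
  intro N
  induction N with
  | zero =>
    intro m h _ hh _ hN
    have := hB h hh
    omega
  | succ N ih =>
    rintro ⟨a, b⟩ ⟨p, q⟩ hm hh hlt hN
    simp only at hlt hN
    obtain ⟨a, rfl⟩ : ∃ a', a = a' + 1 := ⟨a - 1, by omega⟩
    have hq := hB _ hh
    simp only at hq
    by_cases hc : (a, b) ∈ M
    · by_cases hu : (p, q + 1) ∈ M
      · refine h2 _ _ hm hh hu (ih _ _ ?_ hu hlt ?_)
        · intro h
          exact hm (hM _ _ (Prod.mk_le_mk.2 ⟨le_rfl, Nat.le_succ _⟩) h)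
        · have := hB _ hu
          simp only at this ⊢
          omega
      · have hs : (p, b) ∈ M := hM _ _ (Prod.mk_le_mk.2 ⟨by omega, le_rfl⟩) hc
        have e1 : C2_re M (p, b) = (a + 1, b) := by
          unfold C2_re
          simp only [Prod.mk.injEq, and_true]
          apply le_antisymm
          · exact Nat.sInf_le hm
          · have hmem : sInf {a | (a, b) ∉ M} ∈ {a | (a, b) ∉ M} := Nat.sInf_mem ⟨_, hm⟩
            by_contra hlt'
            push Not at hlt'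
            exact hmem (hM _ _ (Prod.mk_le_mk.2 ⟨by omega, le_rfl⟩) hc)
        have e2 : C2_ct M (p, b) = (p, q) := by
          unfold C2_ct
          simp only [Prod.mk.injEq, true_and]
          apply le_antisymm
          · exact Nat.sInf_le hu
          · have hmem : sInf {b | (p, b + 1) ∉ M} ∈ {b | (p, b + 1) ∉ M} := Nat.sInf_mem ⟨_, hu⟩
            by_contra hlt'
            push Not at hlt'
            exact hmem (hM _ _ (Prod.mk_le_mk.2 ⟨le_rfl, by omega⟩) hh)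
        have := h4 _ hs
        rwa [e1, e2] at this
    · rcases p with _ | p
      · exact h3 (a, b) (0, q) hc hh rfl
      · have hh' : (p, q) ∈ M := hM _ _ (Prod.mk_le_mk.2 ⟨Nat.le_succ _, le_rfl⟩) hh
        refine h1 (a, b) (p, q) hc hh' hh (ih _ _ hc hh' ?_ ?_)
        · simp only; omega
        · simp only; omega

end Pool.Agent.Lib.MP_463376_co
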