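import Pool.Agent.Lib.MP_463376_co.I3
import Pool.Agent.Lib.MP_463376_co.C2_Slide

/-! Stream C2: relations between the coefficients `c^m_h`, generators of the cotangent space -/

set_option autoImplicit false

namespace Pool.Agent.Lib.MP_463376_co

open MvPolynomial

section

variable (k : Type) [Field k] [CharZero k] {ι : Type} [Fintype ι] [DecidableEq ι]
  (L : Type) [Field L] [Algebra k L] [Algebra (RR k ι) L]
  [IsScalarTower k (RR k ι) L] [IsFractionRing (RR k ι) L] (δ : Dia ι)

/-- value of a monomial at the point `i` -/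
noncomputable def C2_mon (m : ℕ × ℕ) (i : ι) : L := toL k L (xx i ^ m.1 * yy i ^ m.2)

/-- matrix of the monomials of the diagram -/
noncomputable def C2_mat : Matrix ι ι L := Matrix.of fun i j => C2_mon k L (δ.c j) i

omit [CharZero k] [IsFractionRing (RR k ι) L] in
theorem C2_toL_alt (D : ι → ℕ × ℕ) :
    toL k L (alt k D) = Matrix.det (Matrix.of fun i j : ι => C2_mon k L (D j) i) := by
  unfold alt
  rw [AlgHom.map_det]
  rfl

theorem C2_det_ne : Matrix.det (C2_mat k L δ) ≠ 0 := by
  have h := C2_toL_alt k L δ.c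
  unfold C2_mat
  rw [← h]
  intro h0
  apply dl_ne_zero k δ
  have h1 : Function.Injective (toL k L : RR k ι →ₐ[k] L) := IsFractionRing.injective (RR k ι) L
  exact h1 (h0.trans (map_zero _).symm)

theorem C2_dl_ne : toL k L (dl k δ) ≠ 0 := by
  have h := C2_det_ne k L δ
  unfold C2_mat at h
  rw [← C2_toL_alt k L δ.c] at h
  exact h

theorem C2_cO (m : ℕ × ℕ) (h : ι) :
    (cO k L δ m h : L) * toL k L (dl k δ) = toL k L (alt k (Function.update δ.c h m)) :=
  div_mul_cancel₀ _ (C2_dl_ne k L δ)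

/-- the defining relation -/
theorem C2_rel (m : ℕ × ℕ) (i : ι) :
    ∑ h, C2_mon k L (δ.c h) i * (cO k L δ m h : L) = C2_mon k L m i := by
  have h1 := Matrix.mulVec_cramer (C2_mat k L δ) (fun i => C2_mon k L m i)
  have h2 := congrFun h1 i
  have h3 : ∀ h, Matrix.cramer (C2_mat k L δ) (fun i => C2_mon k L m i) h =
      (cO k L δ m h : L) * toL k L (dl k δ) := by
    intro h
    rw [C2_cO, C2_toL_alt, Matrix.cramer_apply]
    congr 1
    ext i j
    by_cases hj : j = h
    · subst hj
      simp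
    · simp [Matrix.updateCol_ne hj, Function.update_of_ne hj, C2_mat]
  have h4 : Matrix.det (C2_mat k L δ) = toL k L (dl k δ) := by
    unfold C2_mat dl
    rw [C2_toL_alt]
  simp only [Matrix.mulVec, dotProduct, Pi.smul_apply, smul_eq_mul] at h2
  have h5 := C2_dl_ne k L δ
  rw [h4] at h2
  simp only [h3] at h2
  have h6 : toL k L (dl k δ) * (∑ h, C2_mon k L (δ.c h) i * (cO k L δ m h : L)) =
      toL k L (dl k δ) * C2_mon k L m i := by
    rw [← h2, Finset.mul_sum]
    refine Finset.sum_congr rfl fun h _ => ?_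
    simp only [C2_mat, Matrix.of_apply]
    ring
  exact mul_left_cancel₀ h5 h6

/-- uniqueness of the coefficients -/
theorem C2_uniq (u v : ι → L)
    (h : ∀ i : ι, ∑ j, C2_mon k L (δ.c j) i * u j = ∑ j, C2_mon k L (δ.c j) i * v j) : u = v := by
  have h1 : (C2_mat k L δ).mulVec (u - v) = 0 := by
    rw [Matrix.mulVec_sub, sub_eq_zero]
    funext i
    exact h i
  have h2 := Matrix.eq_zero_of_mulVec_eq_zero (C2_det_ne k L δ) h1
  exact sub_eq_zero.1 h2

theorem C2_cO_self (h h' : ι) : cO k L δ (δ.c h') h = if h = h' then 1 else 0 := by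
  have h1 := C2_uniq k L δ (fun h => (cO k L δ (δ.c h') h : L)) (fun h => if h = h' then 1 else 0)
    (fun i => by
      rw [C2_rel]
      simp)
  have h2 := congrFun h1 h
  apply Subtype.ext
  rw [h2]
  split_ifs <;> rfl

omit [CharZero k] [IsFractionRing (RR k ι) L] [Fintype ι] [DecidableEq ι] in
theorem C2_mon_add (m e : ℕ × ℕ) (i : ι) :
    C2_mon k L (m + e) i = C2_mon k L m i * C2_mon k L e i := by
  unfold C2_mon
  rw [← map_mul]
  congr 1
  simp only [Prod.fst_add, Prod.snd_add, pow_add]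
  ring

theorem C2_cO_add (m e : ℕ × ℕ) (h : ι) :
    cO k L δ (m + e) h = ∑ h', cO k L δ m h' * cO k L δ (δ.c h' + e) h := by
  have h1 := C2_uniq k L δ (fun h => (cO k L δ (m + e) h : L))
    (fun h => ∑ h', (cO k L δ m h' : L) * (cO k L δ (δ.c h' + e) h : L))
    (fun i => by
      rw [C2_rel]
      simp only [Finset.mul_sum]
      rw [Finset.sum_comm]
      have : ∀ h', ∑ j, C2_mon k L (δ.c j) i * ((cO k L δ m h' : L) * (cO k L δ (δ.c h' + e) j : L))
          = (C2_mon k L (δ.c h') i * (cO k L δ m h' : L)) * C2_mon k L e i := by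
        intro h'
        have h2 := C2_rel k L δ (δ.c h' + e) i
        rw [C2_mon_add] at h2
        have h3 : ∑ j, C2_mon k L (δ.c j) i *
            ((cO k L δ m h' : L) * (cO k L δ (δ.c h' + e) j : L)) =
            (cO k L δ m h' : L) * ∑ j, C2_mon k L (δ.c j) i * (cO k L δ (δ.c h' + e) j : L) := by
          rw [Finset.mul_sum]
          exact Finset.sum_congr rfl fun j _ => by ring
        rw [h3, h2]
        ring
      simp only [this]
      rw [← Finset.sum_mul, C2_rel, C2_mon_add])
  have h2 := congrFun h1 h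
  apply Subtype.ext
  rw [h2]
  simp

/-- general alternants -/
theorem C2_alt (D : ι → ℕ × ℕ) (g : OO k L δ)
    (hg : (g : L) * toL k L (dl k δ) = toL k L (alt k D)) :
    g = Matrix.det (Matrix.of fun h j => cO k L δ (D j) h) := by
  have h1 : (Matrix.of fun i j : ι => C2_mon k L (D j) i) =
      C2_mat k L δ * Matrix.of (fun h j => (cO k L δ (D j) h : L)) := by
    ext i j
    rw [Matrix.mul_apply]
    simp only [Matrix.of_apply, C2_mat]
    rw [C2_rel]
  have h4 : Matrix.det (C2_mat k L δ) = toL k L (dl k δ) := by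
    unfold C2_mat dl
    rw [C2_toL_alt]
  rw [C2_toL_alt, h1, Matrix.det_mul, h4, mul_comm] at hg
  have h2 := mul_left_cancel₀ (C2_dl_ne k L δ) hg
  apply Subtype.ext
  rw [h2]
  have h5 := (OO k L δ).val.map_det (Matrix.of fun h j => cO k L δ (D j) h)
  refine Eq.trans ?_ h5.symm
  rfl

theorem C2_cO_mem (m : ℕ × ℕ) (hm : m ∉ Set.range δ.c) (h : ι) : cO k L δ m h ∈ nn k L δ := by
  refine Ideal.subset_span ⟨Function.update δ.c h m, ?_, C2_cO k L δ m h⟩
  intro hr
  apply hm
  rw [← hr]
  exact ⟨h, by simp⟩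

theorem C2_nn_le : nn k L δ ≤ Ideal.span {g | ∃ m h, m ∉ Set.range δ.c ∧ g = cO k L δ m h} := by
  unfold nn
  rw [Ideal.span_le]
  rintro g ⟨D, hD, hg⟩
  rw [C2_alt k L δ D g hg]
  by_cases hall : ∀ j, D j ∈ Set.range δ.c
  · have hni : ¬ Function.Injective D := by
      intro hi
      apply hD
      choose f hf using hall
      have hfi : Function.Injective f := by
        intro a b hab
        apply hi
        rw [← hf a, ← hf b, hab]
      have hfs : Function.Surjective f := Finite.surjective_of_injective hfi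
      apply Set.Subset.antisymm
      · rintro _ ⟨j, rfl⟩
        exact ⟨f j, hf j⟩
      · rintro _ ⟨j, rfl⟩
        obtain ⟨i, rfl⟩ := hfs j
        exact ⟨i, (hf i).symm⟩
    unfold Function.Injective at hni
    push Not at hni
    obtain ⟨a, b, hab, hne⟩ := hni
    have : Matrix.det (Matrix.of fun h j => cO k L δ (D j) h) = 0 := by
      refine Matrix.det_zero_of_column_eq hne fun i => ?_
      simp [hab]
    rw [this]
    exact Ideal.zero_mem _
  · push Not at hall
    obtain ⟨j, hj⟩ := hall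
    rw [Matrix.det_eq_sum_mul_adjugate_col _ j]
    refine Ideal.sum_mem _ fun i _ => Ideal.mul_mem_right _ _ (Ideal.subset_span ⟨D j, i, hj, rfl⟩)

/-- arrows can be moved -/
theorem C2_arrow (m e : ℕ × ℕ) (hm : m ∉ Set.range δ.c) (h h' : ι) (hh : δ.c h = δ.c h' + e) :
    cO k L δ (m + e) h - cO k L δ m h' ∈ nn k L δ ^ 2 := by
  rw [C2_cO_add, ← Finset.add_sum_erase _ _ (Finset.mem_univ h'), ← hh, C2_cO_self, if_pos rfl,
    mul_one, add_sub_cancel_left]
  refine Ideal.sum_mem _ fun l hl => ?_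
  by_cases hr : δ.c l + e ∈ Set.range δ.c
  · obtain ⟨r, hr⟩ := hr
    rw [← hr, C2_cO_self, if_neg, mul_zero]
    · exact Ideal.zero_mem _
    · rintro rfl
      rw [hh] at hr
      exact (Finset.ne_of_mem_erase hl) (δ.inj (add_right_cancel hr)).symm
  · rw [pow_two]
    exact Ideal.mul_mem_mul (C2_cO_mem k L δ m hm l) (C2_cO_mem k L δ _ hr h)

/-- arrows vanishing at the boundary -/
theorem C2_arrow_zero (m e : ℕ × ℕ) (hm : m ∉ Set.range δ.c) (h : ι) (hh : ¬ e ≤ δ.c h) :
    cO k L δ (m + e) h ∈ nn k L δ ^ 2 := by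
  rw [C2_cO_add]
  refine Ideal.sum_mem _ fun l hl => ?_
  by_cases hr : δ.c l + e ∈ Set.range δ.c
  · obtain ⟨r, hr⟩ := hr
    rw [← hr, C2_cO_self, if_neg, mul_zero]
    · exact Ideal.zero_mem _
    · rintro rfl
      apply hh
      rw [hr]
      exact le_add_self
  · rw [pow_two]
    exact Ideal.mul_mem_mul (C2_cO_mem k L δ m hm l) (C2_cO_mem k L δ _ hr h)

end

end Pool.Agent.Lib.MP_463376_co
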