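import Mathlib

/-!
# MP_463376_co: basic definitions (n! theorem side)

`RR k ι` = polynomials in `x_i` (`inl i`), `y_i` (`inr i`);  `L` its fraction field (any field with
`IsFractionRing (RR k ι) L`).
`Dia ι` = an enumeration by `ι` of the cells of a Young diagram, `c i = (x-exponent, y-exponent)`.
-/

namespace Pool.Agent.Lib.MP_463376_co

open MvPolynomial

/-- polynomials in `x_i = X (inl i)` and `y_i = X (inr i)` -/
abbrev RR (k : Type) [Field k] (ι : Type) : Type := MvPolynomial (ι ⊕ ι) k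

/-- polynomials in the `y_i` -/
abbrev BB (k : Type) [Field k] (ι : Type) : Type := MvPolynomial ι k

/-- An enumeration, by `ι`, of the cells of a Young diagram; `c i = (x-exponent, y-exponent)`. -/
structure Dia (ι : Type) where
  /-- the cell with index `i` -/
  c : ι → ℕ × ℕ
  inj : Function.Injective c
  low : ∀ a p, p ≤ c a → ∃ b, c b = p

section
variable {k : Type} [Field k] {ι : Type}

/-- the variable `x_i` -/
noncomputable def xx (i : ι) : RR k ι := X (Sum.inl i)
/-- the variable `y_i` -/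
noncomputable def yy (i : ι) : RR k ι := X (Sum.inr i)

/-- the inclusion `k[y] → k[x,y]` -/
noncomputable def yB : BB k ι →ₐ[k] RR k ι := rename Sum.inr

/-- the diagonal permutation action on polynomials: `x_i ↦ x_{w i}`, `y_i ↦ y_{w i}` -/
noncomputable def permR (w : Equiv.Perm ι) : RR k ι ≃ₐ[k] RR k ι :=
  renameEquiv k (Equiv.sumCongr w w)

/-- the ideal `(x_i - x_j, y_i - y_j)` -/
noncomputable def pI (i j : ι) : Ideal (RR k ι) := Ideal.span {xx i - xx j, yy i - yy j}

/-- `J^(d)` -/
noncomputable def Jd (k : Type) [Field k] (ι : Type) (d : ℕ) : Ideal (RR k ι) :=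
  ⨅ (i : ι) (j : ι) (_ : i ≠ j), (pI i j) ^ d

/-- the linear form `a x_i + b y_i` -/
noncomputable def lf (a b : k) (i : ι) : RR k ι := C a * xx i + C b * yy i

variable [Fintype ι] [DecidableEq ι]

/-- the alternant `det (x_i^{D_j.1} y_i^{D_j.2})` -/
noncomputable def alt (k : Type) [Field k] {ι : Type} [Fintype ι] [DecidableEq ι]
    (D : ι → ℕ × ℕ) : RR k ι :=
  Matrix.det (Matrix.of fun i j : ι => xx i ^ (D j).1 * yy i ^ (D j).2)

/-- the alternant of the diagram -/
noncomputable def dl (k : Type) [Field k] {ι : Type} [Fintype ι] [DecidableEq ι] (δ : Dia ι) :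
    RR k ι := alt k δ.c

/-- the Vandermonde determinant of the linear form `a x + b y` -/
noncomputable def vdl (ι : Type) [Fintype ι] [DecidableEq ι] (a b : k) : RR k ι :=
  Matrix.det (Matrix.of fun i j : ι => lf a b i ^ ((Fintype.equivFin ι j : Fin (Fintype.card ι)) : ℕ))

end

section
variable (k : Type) [Field k] {ι : Type} (L : Type) [Field L] [Algebra k L] [Algebra (RR k ι) L]
  [IsScalarTower k (RR k ι) L] 

/-- `k[x,y] → L` -/
noncomputable def toL : RR k ι →ₐ[k] L := IsScalarTower.toAlgHom k (RR k ι) L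

variable [Fintype ι] [DecidableEq ι] (δ : Dia ι)

/-- `P = { f / Δ^d : f ∈ J^(d) }` -/
noncomputable def PP : Subalgebra k L :=
  Algebra.adjoin k {g | ∃ d : ℕ, ∃ f ∈ Jd k ι d, g * toL k L (dl k δ) ^ d = toL k L f}

/-- `O = k[ Δ_D / Δ ]` -/
noncomputable def OO : Subalgebra k L :=
  Algebra.adjoin k {g | ∃ D : ι → ℕ × ℕ, g * toL k L (dl k δ) = toL k L (alt k D)}

/-- the maximal ideal of the torus fixed point -/
noncomputable def nn : Ideal (OO k L δ) :=
  Ideal.span {g | ∃ D : ι → ℕ × ℕ, Set.range D ≠ Set.range δ.c ∧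
    (g : L) * toL k L (dl k δ) = toL k L (alt k D)}

/-- the local ring of the chart at the torus fixed point -/
noncomputable def AA : Subalgebra k L :=
  Algebra.adjoin k ((OO k L δ : Set L) ∪ {g | ∃ b : OO k L δ, b ∉ nn k L δ ∧ g * b = 1})

/-- the localization of `P` over `A` -/
noncomputable def CC : Subalgebra k L := AA k L δ ⊔ PP k L δ

/-- the ring generated by `O` and `k[x,y]` -/
noncomputable def OR : Subalgebra k L := OO k L δ ⊔ (toL k L : RR k ι →ₐ[k] L).range

theorem AA_le_CC : AA k L δ ≤ CC k L δ := le_sup_left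

theorem PP_le_CC : PP k L δ ≤ CC k L δ := le_sup_right

theorem OO_le_OR : OO k L δ ≤ OR k L δ := le_sup_left

theorem range_le_OR : (toL k L : RR k ι →ₐ[k] L).range ≤ OR k L δ := le_sup_right

/-- `C` is an `A`-algebra by inclusion -/
noncomputable instance instAlgAACC : Algebra (AA k L δ) (CC k L δ) :=
  (Subalgebra.inclusion (AA_le_CC k L δ)).toRingHom.toAlgebra

theorem coe_algebraMap_AACC (a : AA k L δ) :
    ((algebraMap (AA k L δ) (CC k L δ) a : CC k L δ) : L) = a := 
  Subalgebra.coe_inclusion (AA_le_CC k L δ) a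

theorem algebraMap_AA_L (a : AA k L δ) : algebraMap (AA k L δ) L a = (a : L) := rfl

theorem algebraMap_CC_L (a : CC k L δ) : algebraMap (CC k L δ) L a = (a : L) := rfl

theorem algebraMap_AACC_L (a : AA k L δ) : algebraMap (AA k L δ) L a =
    algebraMap (CC k L δ) L (algebraMap (AA k L δ) (CC k L δ) a) := by
  rw [algebraMap_AA_L, algebraMap_CC_L, coe_algebraMap_AACC]

instance instTowerAACCL : IsScalarTower (AA k L δ) (CC k L δ) L :=
  IsScalarTower.of_algebraMap_eq (algebraMap_AACC_L k L δ)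

theorem algebraMap_kAACC (r : k) : algebraMap k (CC k L δ) r =
    algebraMap (AA k L δ) (CC k L δ) (algebraMap k (AA k L δ) r) := by
  apply Subtype.ext
  rw [coe_algebraMap_AACC, Subalgebra.coe_algebraMap, Subalgebra.coe_algebraMap]

instance instTowerkAACC : IsScalarTower k (AA k L δ) (CC k L δ) :=
  IsScalarTower.of_algebraMap_eq (algebraMap_kAACC k L δ)

theorem coe_smul_CC (a : AA k L δ) (c : CC k L δ) :
    ((a • c : CC k L δ) : L) = (a : L) * (c : L) := by
  rw [Algebra.smul_def]
  exact congrArg (· * (c : L)) (coe_algebraMap_AACC k L δ a)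

/-- polynomials lie in `P` -/
theorem toL_mem_PP (f : RR k ι) : toL k L f ∈ PP k L δ :=
  Algebra.subset_adjoin ⟨0, f, by simp [Jd], by simp⟩

/-- `k[x,y] → P` -/
noncomputable def toP : RR k ι →ₐ[k] PP k L δ := (toL k L).codRestrict (PP k L δ) (toL_mem_PP k L δ)

/-- `k[x,y] → C` -/
noncomputable def toC : RR k ι →ₐ[k] CC k L δ :=
  (Subalgebra.inclusion (PP_le_CC k L δ)).comp (toP k L δ)

theorem coe_toP (f : RR k ι) : ((toP k L δ f : PP k L δ) : L) = toL k L f := rfl

theorem coe_toC (f : RR k ι) : ((toC k L δ f : CC k L δ) : L) = toL k L f := by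
  unfold toC
  rw [AlgHom.comp_apply, Subalgebra.coe_inclusion, coe_toP]

/-- `k[y] → P` -/
noncomputable def yP : BB k ι →ₐ[k] PP k L δ := (toP k L δ).comp yB

/-- `k[y] → C` -/
noncomputable def yC : BB k ι →ₐ[k] CC k L δ := (toC k L δ).comp yB

theorem coe_yP (f : BB k ι) : ((yP k L δ f : PP k L δ) : L) = toL k L (yB f) := by
  unfold yP
  rw [AlgHom.comp_apply, coe_toP]

theorem coe_yC (f : BB k ι) : ((yC k L δ f : CC k L δ) : L) = toL k L (yB f) := by
  unfold yC
  rw [AlgHom.comp_apply, coe_toC]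

/-- the coefficient `c^m_h`: `m(x_i,y_i) = ∑_h c^m_h h(x_i,y_i)` -/
noncomputable def cO (m : ℕ × ℕ) (h : ι) : OO k L δ :=
  ⟨toL k L (alt k (Function.update δ.c h m)) / toL k L (dl k δ), by
    by_cases h0 : toL k L (dl k δ) = 0
    · rw [h0, div_zero]; exact (OO k L δ).zero_mem
    · exact Algebra.subset_adjoin ⟨Function.update δ.c h m, div_mul_cancel₀ _ h0⟩⟩

/-- `O → OR` -/
noncomputable def oR : OO k L δ →ₐ[k] OR k L δ := Subalgebra.inclusion (OO_le_OR k L δ)

theorem coe_oR (a : OO k L δ) : ((oR k L δ a : OR k L δ) : L) = a :=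
  Subalgebra.coe_inclusion (OO_le_OR k L δ) a

/-- `k[x,y] → OR` -/
noncomputable def toOR : RR k ι →ₐ[k] OR k L δ :=
  (Subalgebra.inclusion (range_le_OR k L δ)).comp (toL k L).rangeRestrict

theorem coe_toOR (f : RR k ι) : ((toOR k L δ f : OR k L δ) : L) = toL k L f := by
  unfold toOR
  rw [AlgHom.comp_apply, Subalgebra.coe_inclusion]
  rfl

/-- `a x + b y` is a good linear form at the prime `q` of `A`: `V(l)/Δ ∉ q` -/
def Good (q : Ideal (AA k L δ)) (a b : k) : Prop :=
  ∃ u : AA k L δ, u ∉ q ∧ (u : L) * toL k L (dl k δ) = toL k L (vdl ι a b)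

/-- indices whose points agree modulo an ideal of `k[x,y]` -/
def clusR {k : Type} [Field k] {ι : Type} (Q : Ideal (RR k ι)) : Setoid ι where
  r i j := xx i - xx j ∈ Q ∧ yy i - yy j ∈ Q
  iseqv := by
    refine ⟨fun i => by simp, fun {i j} h => ?_, fun {i j l} h h' => ?_⟩
    · exact ⟨by simpa using Q.neg_mem h.1, by simpa using Q.neg_mem h.2⟩
    · exact ⟨by simpa using Q.add_mem h.1 h'.1, by simpa using Q.add_mem h.2 h'.2⟩

/-- number of clusters at the prime `Q` of `C` -/
noncomputable def ncl (Q : Ideal (CC k L δ)) : ℕ :=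
  Nat.card (Quotient (clusR (Q.comap (toC k L δ))))

end

section
variable {k : Type} [Field k] {ι : Type} {L : Type} [Field L] [Algebra k L] [Algebra (RR k ι) L]
  [IsScalarTower k (RR k ι) L] [IsFractionRing (RR k ι) L]

/-- the diagonal permutation action on rational functions -/
noncomputable def permL (w : Equiv.Perm ι) : L ≃ₐ[k] L :=
  IsFractionRing.algEquivOfAlgEquiv (permR (k := k) w)

theorem permL_toL (w : Equiv.Perm ι) (f : RR k ι) :
    permL (k := k) (L := L) w (toL k L f) = toL k L (permR w f) := by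
  simp [permL, toL, IsFractionRing.algEquivOfAlgEquiv_algebraMap]

end

end Pool.Agent.Lib.MP_463376_co
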