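import Pool.Agent.Lib.MP_463376_co.I3

/-! Stream E2: the coefficients `c^m_h` -/

set_option linter.unusedSectionVars false

namespace Pool.Agent.Lib.MP_463376_co

open MvPolynomial

section

variable (k : Type) [Field k] [CharZero k] {ι : Type} [Fintype ι] [DecidableEq ι]
  (L : Type) [Field L] [Algebra k L] [Algebra (RR k ι) L]
  [IsScalarTower k (RR k ι) L] [IsFractionRing (RR k ι) L] (δ : Dia ι)

/-- the value of a monomial at the point `i` -/
noncomputable def e2mon (k : Type) [Field k] {ι : Type} (m : ℕ × ℕ) (i : ι) : RR k ι :=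
  xx i ^ m.1 * yy i ^ m.2

theorem e2_toL_inj : Function.Injective (toL k L : RR k ι →ₐ[k] L) :=
  IsFractionRing.injective (RR k ι) L

theorem e2_dl_ne : toL k L (dl k δ) ≠ 0 := by
  intro h
  exact dl_ne_zero k δ (e2_toL_inj k L (h.trans (map_zero _).symm))

/-- the matrix of the diagram, over `L` -/
noncomputable def e2A : Matrix ι ι L := Matrix.of fun i j => toL k L (e2mon k (δ.c j) i)

theorem e2A_eq : e2A k L δ =
    (toL k L : RR k ι →ₐ[k] L).mapMatrix (Matrix.of fun i j : ι => e2mon k (δ.c j) i) := rfl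

theorem e2A_det : (e2A k L δ).det = toL k L (dl k δ) := by
  rw [e2A_eq, ← AlgHom.map_det]
  rfl

theorem e2_unique (u v : ι → L)
    (h : ∀ i : ι, ∑ j, u j * toL k L (e2mon k (δ.c j) i) = ∑ j, v j * toL k L (e2mon k (δ.c j) i)) :
    u = v := by
  have h1 : (e2A k L δ).mulVec (u - v) = 0 := by
    ext i
    have h2 := h i
    simp only [Matrix.mulVec, dotProduct, e2A, Matrix.of_apply, Pi.sub_apply, Pi.zero_apply]
    rw [← sub_eq_zero, ← Finset.sum_sub_distrib] at h2
    rw [← h2]
    exact Finset.sum_congr rfl fun j _ => by ring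
  have h3 := Matrix.eq_zero_of_mulVec_eq_zero (M := e2A k L δ)
    (by rw [e2A_det]; exact e2_dl_ne k L δ) h1
  exact sub_eq_zero.1 h3

theorem e2_coe_cO (m : ℕ × ℕ) (h : ι) : ((cO k L δ m h : OO k L δ) : L) =
    toL k L (alt k (Function.update δ.c h m)) / toL k L (dl k δ) := rfl

/-- Cramer's rule. -/
theorem e2_expand (m : ℕ × ℕ) (i : ι) :
    ∑ h, ((cO k L δ m h : OO k L δ) : L) * toL k L (e2mon k (δ.c h) i) =
      toL k L (e2mon k m i) := by
  have h1 := congrFun (Matrix.mulVec_cramer (e2A k L δ) (fun i => toL k L (e2mon k m i))) i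
  have h2 : ∀ h, (e2A k L δ).cramer (fun i => toL k L (e2mon k m i)) h =
      toL k L (alt k (Function.update δ.c h m)) := by
    intro h
    rw [Matrix.cramer_apply]
    unfold alt
    rw [AlgHom.map_det]
    congr 1
    ext a b
    simp only [Matrix.updateCol_apply, AlgHom.mapMatrix_apply, Matrix.map_apply, Matrix.of_apply]
    by_cases hb : b = h
    · subst hb
      rw [if_pos rfl, Function.update_self]
      rfl
    · rw [if_neg hb, Function.update_of_ne hb]
      rfl
  simp only [Matrix.mulVec, dotProduct, h2, Pi.smul_apply, smul_eq_mul, e2A_det] at h1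
  simp only [e2A, Matrix.of_apply] at h1
  have h4 := e2_dl_ne k L δ
  have h5 : ∑ h, ((cO k L δ m h : OO k L δ) : L) * toL k L (e2mon k (δ.c h) i) =
      (toL k L (dl k δ))⁻¹ * ∑ h, toL k L (e2mon k (δ.c h) i) *
        toL k L (alt k (Function.update δ.c h m)) := by
    rw [Finset.mul_sum]
    refine Finset.sum_congr rfl fun h _ => ?_
    rw [e2_coe_cO]
    field_simp
  rw [h5, h1, ← mul_assoc, inv_mul_cancel₀ h4, one_mul]

theorem e2_cO_unit (j h : ι) : cO k L δ (δ.c j) h = if h = j then 1 else 0 := by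
  have h1 : (fun h => ((cO k L δ (δ.c j) h : OO k L δ) : L)) = fun h => if h = j then 1 else 0 := by
    refine e2_unique k L δ _ _ fun i => ?_
    rw [e2_expand]
    simp
  have h2 := congrFun h1 h
  apply Subtype.ext
  rw [h2]
  split_ifs <;> rfl

theorem e2_mon_x (m : ℕ × ℕ) (i : ι) : e2mon k (m.1 + 1, m.2) i = xx i * e2mon k m i := by
  unfold e2mon
  ring

theorem e2_mon_y (m : ℕ × ℕ) (i : ι) : e2mon k (m.1, m.2 + 1) i = yy i * e2mon k m i := by
  unfold e2mon
  ring

theorem e2_cO_mulX (m : ℕ × ℕ) (h : ι) : cO k L δ (m.1 + 1, m.2) h =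
    ∑ h', cO k L δ m h' * cO k L δ ((δ.c h').1 + 1, (δ.c h').2) h := by
  have h1 : (fun h => ((cO k L δ (m.1 + 1, m.2) h : OO k L δ) : L)) = fun h =>
      ∑ h', ((cO k L δ m h' : OO k L δ) : L) *
        ((cO k L δ ((δ.c h').1 + 1, (δ.c h').2) h : OO k L δ) : L) := by
    refine e2_unique k L δ _ _ fun i => ?_
    rw [e2_expand, e2_mon_x, map_mul, ← e2_expand k L δ m i]
    simp only [Finset.sum_mul, Finset.mul_sum]
    rw [Finset.sum_comm]
    refine Finset.sum_congr rfl fun h' _ => ?_
    have h2 := e2_expand k L δ ((δ.c h').1 + 1, (δ.c h').2) i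
    rw [e2_mon_x, map_mul] at h2
    have h3 : toL k L (xx i) * (((cO k L δ m h' : OO k L δ) : L) * toL k L (e2mon k (δ.c h') i)) =
        ((cO k L δ m h' : OO k L δ) : L) * (toL k L (xx i) * toL k L (e2mon k (δ.c h') i)) := by ring
    rw [h3, ← h2, Finset.mul_sum]
    exact Finset.sum_congr rfl fun j _ => by ring
  have h2 := congrFun h1 h
  apply Subtype.ext
  rw [h2]
  push_cast
  rfl

theorem e2_cO_mulY (m : ℕ × ℕ) (h : ι) : cO k L δ (m.1, m.2 + 1) h =
    ∑ h', cO k L δ m h' * cO k L δ ((δ.c h').1, (δ.c h').2 + 1) h := by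
  have h1 : (fun h => ((cO k L δ (m.1, m.2 + 1) h : OO k L δ) : L)) = fun h =>
      ∑ h', ((cO k L δ m h' : OO k L δ) : L) *
        ((cO k L δ ((δ.c h').1, (δ.c h').2 + 1) h : OO k L δ) : L) := by
    refine e2_unique k L δ _ _ fun i => ?_
    rw [e2_expand, e2_mon_y, map_mul, ← e2_expand k L δ m i]
    simp only [Finset.sum_mul, Finset.mul_sum]
    rw [Finset.sum_comm]
    refine Finset.sum_congr rfl fun h' _ => ?_
    have h2 := e2_expand k L δ ((δ.c h').1, (δ.c h').2 + 1) i
    rw [e2_mon_y, map_mul] at h2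
    have h3 : toL k L (yy i) * (((cO k L δ m h' : OO k L δ) : L) * toL k L (e2mon k (δ.c h') i)) =
        ((cO k L δ m h' : OO k L δ) : L) * (toL k L (yy i) * toL k L (e2mon k (δ.c h') i)) := by ring
    rw [h3, ← h2, Finset.mul_sum]
    exact Finset.sum_congr rfl fun j _ => by ring
  have h2 := congrFun h1 h
  apply Subtype.ext
  rw [h2]
  push_cast
  rfl

/-- `Δ_D / Δ = det (c^{D_j}_h)`. -/
theorem e2_alt (D : ι → ℕ × ℕ) :
    toL k L (alt k D) =
      ((Matrix.det (Matrix.of fun h j : ι => cO k L δ (D j) h) : OO k L δ) : L) *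
        toL k L (dl k δ) := by
  have h1 : (Matrix.of fun i j : ι => toL k L (e2mon k (D j) i)) =
      e2A k L δ * Matrix.of fun h j : ι => ((cO k L δ (D j) h : OO k L δ) : L) := by
    ext i j
    rw [Matrix.mul_apply]
    simp only [Matrix.of_apply, e2A]
    rw [← e2_expand k L δ (D j) i]
    exact Finset.sum_congr rfl fun h _ => mul_comm _ _
  have h2 : toL k L (alt k D) = (Matrix.of fun i j : ι => toL k L (e2mon k (D j) i)).det := by
    unfold alt
    rw [AlgHom.map_det]
    rfl
  have h3 : ((Matrix.det (Matrix.of fun h j : ι => cO k L δ (D j) h) : OO k L δ) : L) =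
      (Matrix.of fun h j : ι => ((cO k L δ (D j) h : OO k L δ) : L)).det := by
    have := (OO k L δ).val.map_det (Matrix.of fun h j : ι => cO k L δ (D j) h)
    exact this
  rw [h2, h1, Matrix.det_mul, e2A_det, h3, mul_comm]

/-- The coefficients generate `O`. -/
theorem e2_generate {K : Type} [Field K] [Algebra k K] (F : IntermediateField k K)
    (φ : OO k L δ →ₐ[k] K) (hφ : ∀ m h, φ (cO k L δ m h) ∈ F) (a : OO k L δ) : φ a ∈ F := by
  have key : ∀ g (hg : g ∈ OO k L δ), φ ⟨g, hg⟩ ∈ F := by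
    intro g hg
    unfold OO at hg
    induction hg using Algebra.adjoin_induction with
    | mem g hg =>
      obtain ⟨D, hD⟩ := hg
      rw [e2_alt k L δ D] at hD
      have h1 := mul_right_cancel₀ (e2_dl_ne k L δ) hD
      have h2 : (⟨g, Algebra.subset_adjoin ⟨D, by rw [e2_alt k L δ D, h1]⟩⟩ : OO k L δ) =
          Matrix.det (Matrix.of fun h j : ι => cO k L δ (D j) h) := Subtype.ext h1
      have h3 : φ (Matrix.det (Matrix.of fun h j : ι => cO k L δ (D j) h)) ∈ F := by
        rw [AlgHom.map_det, Matrix.det_apply]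
        refine F.sum_mem fun σ _ => ?_
        have h4 : ∏ i, (φ.mapMatrix (Matrix.of fun h j : ι => cO k L δ (D j) h)) (σ i) i ∈ F :=
          F.prod_mem fun i _ => hφ _ _
        rcases Int.units_eq_one_or (Equiv.Perm.sign σ) with h | h
        · rw [h, one_smul]; exact h4
        · rw [h, Units.neg_smul, one_smul]; exact F.neg_mem h4
      have h5 : φ (⟨g, Algebra.subset_adjoin ⟨D, by rw [e2_alt k L δ D, h1]⟩⟩ : OO k L δ) ∈ F := by
        rw [h2]; exact h3
      exact h5
    | algebraMap r =>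
      have : φ (algebraMap k (OO k L δ) r) ∈ F := by
        rw [AlgHom.commutes]
        exact F.algebraMap_mem r
      exact this
    | add x y hx hy ihx ihy =>
      have : φ ((⟨x, hx⟩ : OO k L δ) + ⟨y, hy⟩) ∈ F := by
        rw [map_add]; exact F.add_mem ihx ihy
      exact this
    | mul x y hx hy ihx ihy =>
      have : φ ((⟨x, hx⟩ : OO k L δ) * ⟨y, hy⟩) ∈ F := by
        rw [map_mul]; exact F.mul_mem ihx ihy
      exact this
  exact key a.1 a.2

end

end Pool.Agent.Lib.MP_463376_co
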