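import Mathlib

/-!
Part 6: ideals of `K[X,Y]` of colength `n` are defined by `n - J` parameters over the field
generated by the coordinates of the support.
-/

set_option autoImplicit false

namespace Pool.Agent.DM.P6

open Polynomial Module

section cm

variable {A B : Type*} [Ring A] [Ring B]

theorem cmAux_coeff (φ : A →+ B) (f : A[X]) (n : ℕ) :
    (∑ m ∈ f.support, monomial m (φ (f.coeff m))).coeff n = φ (f.coeff n) := by
  rw [finsetSum_coeff]
  simp only [coeff_monomial]
  rw [Finset.sum_ite_eq' f.support n]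
  split_ifs with h
  · rfl
  · rw [notMem_support_iff.1 h, map_zero]

/-- Apply an additive map to the coefficients. -/
noncomputable def cm1 (φ : A →+ B) : A[X] →+ B[X] where
  toFun f := ∑ m ∈ f.support, monomial m (φ (f.coeff m))
  map_zero' := by simp
  map_add' f g := by
    ext n
    rw [cmAux_coeff, coeff_add, coeff_add, cmAux_coeff, cmAux_coeff, map_add]

@[simp] theorem cm1_coeff (φ : A →+ B) (f : A[X]) (n : ℕ) :
    (cm1 φ f).coeff n = φ (f.coeff n) := cmAux_coeff φ f n

theorem cm1_mul (φ : A →+ A) (f g : A[X])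
    (h : ∀ a n, φ (a * g.coeff n) = φ a * g.coeff n) : cm1 φ (f * g) = cm1 φ f * g := by
  ext n
  rw [cm1_coeff, coeff_mul, coeff_mul, map_sum]
  exact Finset.sum_congr rfl fun x _ => by rw [cm1_coeff, h]

end cm

variable {K : Type*} [Field K]

/-- Apply an additive map to the coefficients of a polynomial in two variables. -/
noncomputable def cmap (φ : K →+ K) : K[X][X] →+ K[X][X] := cm1 (cm1 φ)

theorem cmap_coeff (φ : K →+ K) (f : K[X][X]) (i j : ℕ) :
    ((cmap φ f).coeff j).coeff i = φ ((f.coeff j).coeff i) := by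
  simp [cmap]

/-- The coefficients lie in `F`. -/
def CF (F : Set K) (f : K[X][X]) : Prop := ∀ i j, (f.coeff j).coeff i ∈ F

/-- `φ` is `F`-linear. -/
def Lin (F : Set K) (φ : K →+ K) : Prop := ∀ c ∈ F, ∀ x, φ (c * x) = c * φ x

/-- The ideal `I` is defined over `F`. -/
def Rat (F : Set K) (I : Ideal K[X][X]) : Prop :=
  ∀ φ : K →+ K, Lin F φ → ∀ f ∈ I, cmap φ f ∈ I

theorem Lin.mono {F F' : Set K} (h : F ⊆ F') {φ : K →+ K} (hφ : Lin F' φ) : Lin F φ :=
  fun c hc x => hφ c (h hc) x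

theorem Rat.mono {F F' : Set K} (h : F ⊆ F') {I : Ideal K[X][X]} (hI : Rat F I) : Rat F' I :=
  fun φ hφ f hf => hI φ (hφ.mono h) f hf

theorem cmap_mul {F : Set K} {φ : K →+ K} (hφ : Lin F φ) (f g : K[X][X]) (hg : CF F g) :
    cmap φ (f * g) = cmap φ f * g := by
  refine cm1_mul _ f g fun a n => ?_
  refine cm1_mul _ a (g.coeff n) fun c m => ?_
  rw [mul_comm c, hφ _ (hg m n), mul_comm]

theorem cmap_eq_self {F : Set K} {φ : K →+ K} (hφ : ∀ c ∈ F, φ c = c) {f : K[X][X]}
    (hf : CF F f) : cmap φ f = f := by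
  ext j i
  rw [cmap_coeff, hφ _ (hf i j)]

section CF

variable {k : Type*} [Field k] [Algebra k K] (F : IntermediateField k K)

theorem CF.add {f g : K[X][X]} (hf : CF (F : Set K) f) (hg : CF (F : Set K) g) :
    CF (F : Set K) (f + g) := by
  intro i j
  rw [coeff_add, coeff_add]
  exact F.add_mem (hf i j) (hg i j)

theorem CF.mul {f g : K[X][X]} (hf : CF (F : Set K) f) (hg : CF (F : Set K) g) :
    CF (F : Set K) (f * g) := by
  intro i j
  rw [coeff_mul, finsetSum_coeff]
  refine F.sum_mem fun x _ => ?_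
  rw [coeff_mul]
  exact F.sum_mem fun y _ => F.mul_mem (hf _ _) (hg _ _)

theorem CF.sum {τ : Type*} (s : Finset τ) (f : τ → K[X][X])
    (hf : ∀ t ∈ s, CF (F : Set K) (f t)) : CF (F : Set K) (∑ t ∈ s, f t) := by
  intro i j
  rw [finsetSum_coeff, finsetSum_coeff]
  exact F.sum_mem fun t ht => hf t ht i j

theorem CF.smul {c : K} (hc : c ∈ F) {f : K[X][X]} (hf : CF (F : Set K) f) :
    CF (F : Set K) (c • f) := by
  intro i j
  rw [coeff_smul, coeff_smul]
  exact F.mul_mem hc (hf i j)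

theorem CF.C {g : K[X]} (hg : ∀ i, g.coeff i ∈ F) : CF (F : Set K) (Polynomial.C g) := by
  intro i j
  rw [coeff_C]
  split_ifs
  · exact hg i
  · rw [coeff_zero]; exact F.zero_mem

theorem CF.X : CF (F : Set K) (Polynomial.X : K[X][X]) := by
  intro i j
  rw [coeff_X]
  split_ifs
  · rw [coeff_one]
    split_ifs
    · exact F.one_mem
    · exact F.zero_mem
  · rw [coeff_zero]; exact F.zero_mem

theorem CF.sub {f g : K[X][X]} (hf : CF (F : Set K) f) (hg : CF (F : Set K) g) :
    CF (F : Set K) (f - g) := by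
  intro i j
  rw [coeff_sub, coeff_sub]
  exact F.sub_mem (hf i j) (hg i j)

theorem CF.p {b : K} (hb : b ∈ F) :
    CF (F : Set K) (Polynomial.X - Polynomial.C (Polynomial.C b)) := by
  refine CF.sub F (CF.X F) (CF.C F fun i => ?_)
  rw [coeff_C]
  split_ifs
  · exact hb
  · exact F.zero_mem

theorem CF.mono {F F' : Set K} (h : F ⊆ F') {f : K[X][X]} (hf : CF F f) : CF F' f :=
  fun i j => h (hf i j)

/-- Monic divisors of a product of linear factors over `F` have coefficients in `F`. -/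
theorem coeff_mem_of_dvd (X0 : Finset K) (hX : (X0 : Set K) ⊆ F) (N : ℕ) {g : K[X]}
    (hg : g.Monic) (h : g ∣ (∏ a ∈ X0, (X - Polynomial.C a)) ^ N) (i : ℕ) :
    g.coeff i ∈ F := by
  have hP : (∏ a ∈ X0, (X - Polynomial.C a)) ^ N ≠ 0 :=
    pow_ne_zero _ (Finset.prod_ne_zero_iff.2 fun a _ => X_sub_C_ne_zero a)
  have hs : Splits ((∏ a ∈ X0, (X - Polynomial.C a)) ^ N) :=
    Splits.pow (Splits.prod fun a _ => Splits.X_sub_C a) N
  have hgs : Splits g := Splits.of_dvd hs hP h
  have hroots : ∀ r ∈ g.roots, r ∈ F := by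
    intro r hr
    have h1 : IsRoot g r := isRoot_of_mem_roots hr
    have h2 : IsRoot ((∏ a ∈ X0, (X - Polynomial.C a)) ^ N) r := h1.dvd h
    rw [IsRoot, eval_pow, eval_prod] at h2
    have h4 : ∏ a ∈ X0, eval r (X - Polynomial.C a) = 0 := eq_zero_of_pow_eq_zero h2
    obtain ⟨a, ha, ha'⟩ := Finset.prod_eq_zero_iff.1 h4
    rw [eval_sub, eval_X, eval_C, sub_eq_zero] at ha'
    rw [ha']
    exact hX ha
  have hlift : g ∈ lifts (algebraMap F K) := by
    rw [hgs.eq_prod_roots_of_monic hg]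
    refine Subsemiring.multiset_prod_mem _ _ fun q hq => ?_
    obtain ⟨a, ha, rfl⟩ := Multiset.mem_map.1 hq
    rw [lifts_iff_coeff_lifts]
    intro n
    rw [coeff_sub, coeff_X, coeff_C]
    have : (if 1 = n then (1 : K) else 0) - (if n = 0 then a else 0) ∈ F := by
      refine F.sub_mem ?_ ?_
      · split_ifs
        · exact F.one_mem
        · exact F.zero_mem
      · split_ifs
        · exact hroots a ha
        · exact F.zero_mem
    exact ⟨⟨_, this⟩, rfl⟩
  rw [lifts_iff_coeff_lifts] at hlift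
  obtain ⟨y, hy⟩ := hlift i
  rw [← hy]
  exact y.2

/-- There is an `F`-linear retraction onto `F`. -/
theorem exists_retraction : ∃ φ : K →+ K, Lin (F : Set K) φ ∧ (∀ c ∈ F, φ c = c) ∧
    ∀ x, φ x ∈ F := by
  obtain ⟨r, hr⟩ := LinearMap.exists_leftInverse_of_injective (Algebra.linearMap F K)
    (LinearMap.ker_eq_bot.2 (FaithfulSMul.algebraMap_injective F K))
  refine ⟨(F.toSubfield.subtype.toAddMonoidHom).comp r.toAddMonoidHom, ?_, ?_, ?_⟩
  · intro c hc x
    have h1 := r.map_smul (⟨c, hc⟩ : F) x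
    have h2 : (⟨c, hc⟩ : F) • x = c * x := rfl
    rw [h2] at h1
    change ((r (c * x) : F) : K) = c * ((r x : F) : K)
    rw [h1]
    rfl
  · intro c hc
    have h1 := LinearMap.congr_fun hr (⟨c, hc⟩ : F)
    change ((r c : F) : K) = c
    have h2 : r c = (⟨c, hc⟩ : F) := h1
    rw [h2]
  · intro x
    exact (r x).2

/-- An ideal defined over `F` is spanned by its elements with coefficients in `F`. -/
theorem rat_span {I : Ideal K[X][X]} (hI : Rat (F : Set K) I) {f : K[X][X]} (hf : f ∈ I) :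
    f ∈ Submodule.span K {e : K[X][X] | e ∈ I ∧ CF (F : Set K) e} := by
  classical
  let Bs := Basis.ofVectorSpace F K
  let φ : Basis.ofVectorSpaceIndex F K → K →+ K := fun j =>
    (F.toSubfield.subtype.toAddMonoidHom).comp (Bs.coord j).toAddMonoidHom
  have hφ : ∀ j x, φ j x = ((Bs.repr x j : F) : K) := fun j x => rfl
  have hlin : ∀ j, Lin (F : Set K) (φ j) := by
    intro j c hc x
    rw [hφ, hφ]
    have h1 := (Bs.coord j).map_smul (⟨c, hc⟩ : F) x
    have h2 : (⟨c, hc⟩ : F) • x = c * x := rfl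
    rw [h2] at h1
    change ((Bs.coord j (c * x) : F) : K) = c * ((Bs.coord j x : F) : K)
    rw [h1]
    rfl
  let J : Finset (Basis.ofVectorSpaceIndex F K) := f.support.biUnion fun n =>
    (f.coeff n).support.biUnion fun m => (Bs.repr ((f.coeff n).coeff m)).support
  have hJ : ∀ n m, (Bs.repr ((f.coeff n).coeff m)).support ⊆ J := by
    intro n m j hj
    have h1 : (f.coeff n).coeff m ≠ 0 := by
      intro h0
      rw [h0, map_zero] at hj
      simp at hj
    have h2 : f.coeff n ≠ 0 := by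
      intro h0
      rw [h0, coeff_zero] at h1
      exact h1 rfl
    exact Finset.mem_biUnion.2 ⟨n, mem_support_iff.2 h2,
      Finset.mem_biUnion.2 ⟨m, mem_support_iff.2 h1, hj⟩⟩
  have hsum : f = ∑ j ∈ J, (Bs j : K) • cmap (φ j) f := by
    ext n m
    rw [finsetSum_coeff, finsetSum_coeff]
    simp only [coeff_smul, cmap_coeff, hφ, smul_eq_mul]
    set a := (f.coeff n).coeff m with ha
    have h1 := Bs.linearCombination_repr a
    rw [Finsupp.linearCombination_apply,
      Finsupp.sum_of_support_subset (Bs.repr a) (hJ n m) (fun i c => c • Bs i)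
        (fun _ _ => zero_smul _ _)] at h1
    conv_lhs => rw [← h1]
    refine Finset.sum_congr rfl fun j _ => ?_
    rw [mul_comm]
    rfl
  rw [hsum]
  refine Submodule.sum_mem _ fun j _ => Submodule.smul_mem _ _ (Submodule.subset_span ⟨?_, ?_⟩)
  · exact hI _ (hlin j) f hf
  · intro i n
    rw [cmap_coeff, hφ]
    exact (Bs.repr _ j).2

end CF

/-! ### Dimensions -/

/-- Evaluation at `Y = b`. -/
noncomputable def ev (b : K) : K[X][X] →+* K[X] := evalRingHom (C b)

theorem ev_surj (b : K) : Function.Surjective (ev b) := fun q => ⟨C q, by simp [ev]⟩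

theorem ev_eq_zero {b : K} {f : K[X][X]} : ev b f = 0 ↔ (X - C (C b)) ∣ f := by
  rw [dvd_iff_isRoot]
  rfl

/-- The ideal quotient `(I : Y - b)`. -/
noncomputable def colon (b : K) (I : Ideal K[X][X]) : Ideal K[X][X] :=
  Submodule.comap (LinearMap.lsmul K[X][X] K[X][X] (X - C (C b))) I

theorem mem_colon {b : K} {I : Ideal K[X][X]} {f : K[X][X]} :
    f ∈ colon b I ↔ (X - C (C b)) * f ∈ I := Iff.rfl

theorem le_colon (b : K) (I : Ideal K[X][X]) : I ≤ colon b I := fun _ hf =>
  mem_colon.2 (I.mul_mem_left _ hf)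

/-- The number `dim K[X,Y]/(I, Y - b)`. -/
noncomputable def jd (b : K) (I : Ideal K[X][X]) : ℕ := finrank K (K[X] ⧸ I.map (ev b))

theorem mem_map_ev {b : K} {I : Ideal K[X][X]} {g : K[X]} :
    g ∈ I.map (ev b) ↔ ∃ f ∈ I, ev b f = g :=
  Ideal.mem_map_iff_of_surjective _ (ev_surj b)

/-- The map `K[X,Y]/I → K[X]/I_b`. -/
noncomputable def qev (b : K) (I : Ideal K[X][X]) :
    (K[X][X] ⧸ I) →ₗ[K] (K[X] ⧸ I.map (ev b)) where
  toFun := Ideal.quotientMap (I.map (ev b)) (ev b) Ideal.le_comap_map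
  map_add' := map_add _
  map_smul' c x := by
    obtain ⟨f, rfl⟩ := Ideal.Quotient.mk_surjective x
    rw [RingHom.id_apply]
    have h1 : c • (Ideal.Quotient.mk I f) = Ideal.Quotient.mk I (c • f) := rfl
    rw [h1, Ideal.quotientMap_mk, Ideal.quotientMap_mk]
    have h2 : ev b (c • f) = c • ev b f := by
      simp [ev, eval_smul]
    rw [h2]
    rfl

theorem qev_mk (b : K) (I : Ideal K[X][X]) (f : K[X][X]) :
    qev b I (Ideal.Quotient.mk I f) = Ideal.Quotient.mk _ (ev b f) := rfl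

theorem qev_surj (b : K) (I : Ideal K[X][X]) : Function.Surjective (qev b I) := by
  intro y
  obtain ⟨g, rfl⟩ := Ideal.Quotient.mk_surjective y
  obtain ⟨f, rfl⟩ := ev_surj b g
  exact ⟨Ideal.Quotient.mk I f, rfl⟩

/-- Multiplication by `Y - b` on `K[X,Y]/I`. -/
noncomputable def mulp (b : K) (I : Ideal K[X][X]) : (K[X][X] ⧸ I) →ₗ[K] (K[X][X] ⧸ I) :=
  LinearMap.mulLeft K (Ideal.Quotient.mk I (X - C (C b)))

theorem mulp_mk (b : K) (I : Ideal K[X][X]) (f : K[X][X]) :
    mulp b I (Ideal.Quotient.mk I f) = Ideal.Quotient.mk I ((X - C (C b)) * f) := by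
  simp [mulp]

theorem mulp_range (b : K) (I : Ideal K[X][X]) :
    LinearMap.range (mulp b I) = LinearMap.ker (qev b I) := by
  ext x
  obtain ⟨f, rfl⟩ := Ideal.Quotient.mk_surjective x
  rw [LinearMap.mem_range, LinearMap.mem_ker, qev_mk, Ideal.Quotient.eq_zero_iff_mem, mem_map_ev]
  constructor
  · rintro ⟨y, hy⟩
    obtain ⟨g, rfl⟩ := Ideal.Quotient.mk_surjective y
    rw [mulp_mk, Ideal.Quotient.eq] at hy
    refine ⟨f - (X - C (C b)) * g, ?_, ?_⟩
    · rw [← neg_sub]
      exact I.neg_mem hy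
    · rw [map_sub, ev_eq_zero.2 (dvd_mul_right _ _), sub_zero]
  · rintro ⟨g, hg, hfg⟩
    have h1 : ev b (f - g) = 0 := by rw [map_sub, hfg, sub_self]
    obtain ⟨h, hh⟩ := ev_eq_zero.1 h1
    refine ⟨Ideal.Quotient.mk I h, ?_⟩
    rw [mulp_mk, Ideal.Quotient.eq, ← hh]
    have : f - g - f = -g := by ring
    rw [this]
    exact I.neg_mem hg

theorem finrank_ker_mulp (b : K) (I : Ideal K[X][X]) [FiniteDimensional K (K[X][X] ⧸ I)] :
    finrank K (LinearMap.ker (mulp b I)) = jd b I := by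
  have h1 := LinearMap.finrank_range_add_finrank_ker (mulp b I)
  have h2 := LinearMap.finrank_range_add_finrank_ker (qev b I)
  rw [mulp_range] at h1
  rw [LinearMap.range_eq_top.2 (qev_surj b I), finrank_top] at h2
  unfold jd
  omega

/-- The injection `K[X,Y]/(I : Y - b) → K[X,Y]/I`. -/
noncomputable def qcol (b : K) (I : Ideal K[X][X]) :
    (K[X][X] ⧸ colon b I) →ₗ[K[X][X]] (K[X][X] ⧸ I) :=
  Submodule.mapQ _ _ (LinearMap.lsmul K[X][X] K[X][X] (X - C (C b))) le_rfl

theorem qcol_mk (b : K) (I : Ideal K[X][X]) (f : K[X][X]) :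
    qcol b I (Ideal.Quotient.mk _ f) = Ideal.Quotient.mk I ((X - C (C b)) * f) := rfl

theorem qcol_inj (b : K) (I : Ideal K[X][X]) : Function.Injective (qcol b I) := by
  rw [injective_iff_map_eq_zero]
  intro x hx
  obtain ⟨f, rfl⟩ := Ideal.Quotient.mk_surjective x
  rw [qcol_mk, Ideal.Quotient.eq_zero_iff_mem] at hx
  exact Ideal.Quotient.eq_zero_iff_mem.2 (mem_colon.2 hx)

theorem finrank_colon (b : K) (I : Ideal K[X][X]) [FiniteDimensional K (K[X][X] ⧸ I)] :
    finrank K (K[X][X] ⧸ colon b I) + jd b I = finrank K (K[X][X] ⧸ I) := by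
  have h1 := LinearMap.finrank_range_of_inj (f := (qcol b I).restrictScalars K) (qcol_inj b I)
  have h2 : LinearMap.range ((qcol b I).restrictScalars K) = LinearMap.range (mulp b I) := by
    ext x
    rw [LinearMap.mem_range, LinearMap.mem_range]
    constructor
    · rintro ⟨y, rfl⟩
      obtain ⟨f, rfl⟩ := Ideal.Quotient.mk_surjective y
      exact ⟨Ideal.Quotient.mk I f, mulp_mk b I f⟩
    · rintro ⟨y, rfl⟩
      obtain ⟨f, rfl⟩ := Ideal.Quotient.mk_surjective y
      exact ⟨Ideal.Quotient.mk _ f, (mulp_mk b I f).symm⟩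
  rw [h2] at h1
  have h3 := LinearMap.finrank_range_add_finrank_ker (mulp b I)
  rw [finrank_ker_mulp] at h3
  omega

/-- The colon ideal has the same restrictions to the other lines. -/
theorem map_ev_colon {b b' : K} (hb : b' ≠ b) (I : Ideal K[X][X]) :
    (colon b I).map (ev b') = I.map (ev b') := by
  refine le_antisymm ?_ (Ideal.map_mono (le_colon b I))
  rw [Ideal.map_le_iff_le_comap]
  intro f hf
  rw [Ideal.mem_comap]
  have h1 : ev b' ((X - C (C b)) * f) ∈ I.map (ev b') :=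
    Ideal.mem_map_of_mem _ (mem_colon.1 hf)
  have h2 : ev b' ((X - C (C b)) * f) = C (b' - b) * ev b' f := by
    rw [map_mul]
    simp [ev]
  rw [h2] at h1
  have h3 : ev b' f = C ((b' - b)⁻¹) * (C (b' - b) * ev b' f) := by
    rw [← mul_assoc, ← C_mul, inv_mul_cancel₀ (sub_ne_zero.2 hb), C_1, one_mul]
  rw [h3]
  exact Ideal.mul_mem_left _ _ h1

/-- A nonzero ideal of `K[X]` has a monic generator. -/
theorem exists_monic_gen {J : Ideal K[X]} (hJ : J ≠ ⊥) :
    ∃ g : K[X], g.Monic ∧ J = Ideal.span {g} := by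
  obtain ⟨g0, hg0⟩ : ∃ g0, J = Ideal.span {g0} :=
    ⟨Submodule.IsPrincipal.generator J, (Ideal.span_singleton_generator J).symm⟩
  have h0 : g0 ≠ 0 := by
    rintro rfl
    apply hJ
    rw [hg0]
    simp
  refine ⟨g0 * C g0.leadingCoeff⁻¹, monic_mul_leadingCoeff_inv h0, ?_⟩
  rw [hg0]
  have hu : IsUnit (C g0.leadingCoeff⁻¹ : K[X]) :=
    (IsUnit.mk0 _ (inv_ne_zero (leadingCoeff_ne_zero.2 h0))).map C
  exact (Ideal.span_singleton_mul_right_unit hu g0).symm

section main

variable {k : Type*} [Field k] [Algebra k K]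

/-- The step of the induction: parameters for `I` from parameters for `(I : Y - b)`. -/
theorem rat_step [DecidableEq K] (F : IntermediateField k K) (X0 : Finset K)
    (hX0 : (X0 : Set K) ⊆ F) (b : K) (hb : b ∈ F) (I : Ideal K[X][X])
    [FiniteDimensional K (K[X][X] ⧸ I)]
    (hX : ∃ N, C ((∏ a ∈ X0, (X - C a)) ^ N) ∈ I) (hcol : Rat (F : Set K) (colon b I)) :
    ∃ Ξ : Finset K, Ξ.card ≤ jd b (colon b I) ∧
      ∀ F' : IntermediateField k K, (F : Set K) ⊆ F' → (Ξ : Set K) ⊆ F' →
        Rat (F' : Set K) I := by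
  classical
  obtain ⟨N, hN⟩ := hX
  set P : K[X] := (∏ a ∈ X0, (X - C a)) ^ N with hP
  have hP0 : P ≠ 0 := pow_ne_zero _ (Finset.prod_ne_zero_iff.2 fun a _ => X_sub_C_ne_zero a)
  set I2 := colon b I with hI2
  have hle : I ≤ I2 := le_colon b I
  have hPI : P ∈ I.map (ev b) := mem_map_ev.2 ⟨C P, hN, by simp [ev]⟩
  have hPI2 : P ∈ I2.map (ev b) := Ideal.map_mono hle hPI
  have hne : I.map (ev b) ≠ ⊥ := by
    intro h0
    rw [h0, Ideal.mem_bot] at hPI
    exact hP0 hPI
  have hne2 : I2.map (ev b) ≠ ⊥ := by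
    intro h0
    rw [h0, Ideal.mem_bot] at hPI2
    exact hP0 hPI2
  obtain ⟨g, hgm, hg⟩ := exists_monic_gen hne
  obtain ⟨g2, hg2m, hg2⟩ := exists_monic_gen hne2
  have hgP : g ∣ P := by rw [hg] at hPI; exact Ideal.mem_span_singleton.1 hPI
  have hg2g : g2 ∣ g := by
    have h0 : g ∈ I.map (ev b) := by
      rw [hg]
      exact Ideal.mem_span_singleton_self g
    have h1 : g ∈ I2.map (ev b) := Ideal.map_mono hle h0
    rw [hg2] at h1
    exact Ideal.mem_span_singleton.1 h1
  obtain ⟨q, hq⟩ := hg2g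
  have hqm : q.Monic := Monic.of_mul_monic_left hg2m (hq ▸ hgm)
  have hqP : q ∣ P := (Dvd.intro_left g2 hq.symm).trans hgP
  have hg2P : g2 ∣ P := (Dvd.intro q hq.symm).trans hgP
  have hqF : ∀ i, q.coeff i ∈ F := coeff_mem_of_dvd F X0 hX0 N hqm hqP
  have hg2F : ∀ i, g2.coeff i ∈ F := coeff_mem_of_dvd F X0 hX0 N hg2m hg2P
  -- an element of `I2` with coefficients in `F` and restriction `g2`
  obtain ⟨r, hr1, hr2, hr3⟩ := exists_retraction F
  obtain ⟨f2, hf2I, hf2F, hf2e⟩ : ∃ f2 ∈ I2, CF (F : Set K) f2 ∧ ev b f2 = g2 := by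
    have h1 : g2 ∈ I2.map (ev b) := by rw [hg2]; exact Ideal.mem_span_singleton_self g2
    obtain ⟨f0, hf0, hf0e⟩ := mem_map_ev.1 h1
    have h2 : ev b (C g2 - f0) = 0 := by
      rw [map_sub, hf0e]
      simp [ev]
    obtain ⟨h, hh⟩ := ev_eq_zero.1 h2
    refine ⟨cmap r f0, hcol r hr1 f0 hf0, fun i j => ?_, ?_⟩
    · rw [cmap_coeff]; exact hr3 _
    · have h3 : cmap r (C g2) = C g2 := cmap_eq_self hr2 (CF.C F hg2F)
      have h4 : C g2 = f0 + h * (X - C (C b)) := by
        rw [mul_comm, ← hh]; ring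
      have h5 := congrArg (cmap r) h4
      rw [h3, map_add, cmap_mul hr1 _ _ (CF.p F hb)] at h5
      have h6 := congrArg (ev b) h5
      rw [map_add, map_mul] at h6
      simpa [ev] using h6.symm
  -- an element of `I` with restriction `g`
  obtain ⟨f1, hf1I, hf1e⟩ : ∃ f1 ∈ I, ev b f1 = g := by
    have h1 : g ∈ I.map (ev b) := by rw [hg]; exact Ideal.mem_span_singleton_self g
    exact mem_map_ev.1 h1
  have hdiff : ev b (f1 - C q * f2) = 0 := by
    rw [map_sub, map_mul, hf1e, hf2e, hq]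
    simp [ev, mul_comm]
  obtain ⟨u, hu⟩ := ev_eq_zero.1 hdiff
  have huI3 : u ∈ colon b I2 := by
    rw [mem_colon, ← hu]
    exact I2.sub_mem (hle hf1I) (I2.mul_mem_left _ hf2I)
  have hfin2 : FiniteDimensional K (K[X][X] ⧸ I2) :=
    Module.Finite.of_surjective ((Ideal.Quotient.factorₐ K hle).toLinearMap)
      (Ideal.Quotient.factor_surjective hle)
  have hcol2 : Rat (F : Set K) (colon b I2) := by
    intro φ hφ f hf
    rw [mem_colon] at hf ⊢
    have h1 := hcol φ hφ _ hf
    rw [mul_comm, cmap_mul hφ _ _ (CF.p F hb), mul_comm] at h1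
    exact h1
  set S : Set (K[X][X] ⧸ I2) :=
    {x | ∃ e ∈ colon b I2, CF (F : Set K) e ∧ Ideal.Quotient.mk I2 e = x} with hS
  have hspan : Submodule.span K S ≤ LinearMap.ker (mulp b I2) := by
    rw [Submodule.span_le]
    rintro x ⟨e, he, _, rfl⟩
    change mulp b I2 _ = 0
    rw [mulp_mk, Ideal.Quotient.eq_zero_iff_mem]
    exact mem_colon.1 he
  have huS : Ideal.Quotient.mk I2 u ∈ Submodule.span K S := by
    have h1 := rat_span F hcol2 huI3
    have h2 := Submodule.mem_map_of_mem (f := (Ideal.Quotient.mkₐ K I2).toLinearMap) h1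
    rw [Submodule.map_span] at h2
    refine Submodule.span_mono ?_ h2
    rintro x ⟨e, ⟨he1, he2⟩, rfl⟩
    exact ⟨e, he1, he2, rfl⟩
  obtain ⟨b0, hb0S, hb0span, hb0li⟩ := exists_linearIndependent K S
  have hb0fin : b0.Finite := hb0li.setFinite
  have : Fintype b0 := hb0fin.fintype
  have hcard : Fintype.card b0 ≤ jd b I2 := by
    rw [← finrank_ker_mulp]
    have h1 : Fintype.card b0 = finrank K (Submodule.span K (Set.range (Subtype.val : b0 → _))) :=
      (finrank_span_eq_card hb0li).symm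
    rw [h1, Subtype.range_coe, hb0span]
    exact Submodule.finrank_mono hspan
  rw [← hb0span] at huS
  have huS' : Ideal.Quotient.mk I2 u ∈ Submodule.span K
      (Set.range (Subtype.val : b0 → (K[X][X] ⧸ I2))) := by
    rw [Subtype.range_coe]; exact huS
  obtain ⟨c, hc⟩ := (Submodule.mem_span_range_iff_exists_fun K).1 huS'
  choose e he1 he2 he3 using fun v : b0 => hb0S v.2
  have hu2 : u - ∑ v, c v • e v ∈ I2 := by
    rw [← Ideal.Quotient.eq_zero_iff_mem, map_sub, ← hc, map_sum, sub_eq_zero]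
    refine Finset.sum_congr rfl fun v _ => ?_
    rw [← he3 v]
    rfl
  refine ⟨Finset.univ.image c, Finset.card_image_le.trans (by simpa using hcard), ?_⟩
  intro F' hFF' hΞ
  set f : K[X][X] := C q * f2 + (X - C (C b)) * ∑ v, c v • e v with hf
  have hfF : CF (F' : Set K) f := by
    refine CF.add F' (CF.mul F' (CF.C F' fun i => hFF' (hqF i)) (hf2F.mono hFF'))
      (CF.mul F' (CF.p F' (hFF' hb)) (CF.sum F' _ _ fun v _ => CF.smul F' ?_ ((he2 v).mono hFF')))
    exact hΞ (by simp)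
  have hfI : f ∈ I := by
    have h1 : f = f1 - (X - C (C b)) * (u - ∑ v, c v • e v) := by
      rw [hf, mul_sub, ← hu]
      ring
    rw [h1]
    exact I.sub_mem hf1I (mem_colon.1 hu2)
  have hfe : ev b f = g := by
    rw [hf, map_add, map_mul, map_mul, hf2e, hq]
    simp [ev, mul_comm]
  intro φ hφ h hh
  have h1 : ev b h ∈ I.map (ev b) := mem_map_ev.2 ⟨h, hh, rfl⟩
  rw [hg, Ideal.mem_span_singleton] at h1
  obtain ⟨w0, hw0⟩ := h1
  have h2 : ev b (h - C w0 * f) = 0 := by
    rw [map_sub, map_mul, hfe, hw0]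
    simp [ev, mul_comm]
  obtain ⟨u', hu'⟩ := ev_eq_zero.1 h2
  have hu'I2 : u' ∈ I2 := by
    rw [hI2, mem_colon, ← hu']
    exact I.sub_mem hh (I.mul_mem_left _ hfI)
  have h3 : h = C w0 * f + u' * (X - C (C b)) := by
    rw [mul_comm u', ← hu']
    ring
  rw [h3, map_add, cmap_mul hφ _ _ hfF, cmap_mul hφ _ _ (CF.p F' (hFF' hb))]
  refine I.add_mem (I.mul_mem_left _ hfI) ?_
  rw [mul_comm]
  exact mem_colon.1 (hcol φ (hφ.mono hFF') u' hu'I2)

/-- **Claim of Part 6.** -/
theorem exists_params [DecidableEq K] (X0 Y0 : Finset K) (n : ℕ) :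
    ∀ (I : Ideal K[X][X]) [FiniteDimensional K (K[X][X] ⧸ I)],
      finrank K (K[X][X] ⧸ I) = n →
      (∃ N, C ((∏ a ∈ X0, (X - C a)) ^ N) ∈ I) →
      (∃ N, (∏ b ∈ Y0, (X - C (C b))) ^ N ∈ I) →
      ∃ Ξ : Finset K, Ξ.card + ∑ b ∈ Y0, jd b I ≤ n ∧
        Rat (IntermediateField.adjoin k ((X0 ∪ Y0 ∪ Ξ : Finset K) : Set K) : Set K) I := by
  induction n using Nat.strong_induction_on with
  | _ n ih =>
    intro I hfin hn hX hY
    by_cases hI : I = ⊤
    · refine ⟨∅, ?_, ?_⟩
      · have h0 : ∀ b ∈ Y0, jd b I = 0 := by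
          intro b _
          unfold jd
          rw [hI, Ideal.map_top]
          exact finrank_zero_of_subsingleton
        rw [Finset.sum_eq_zero h0]
        simp
      · intro φ _ f _
        rw [hI]
        trivial
    · obtain ⟨M, hM, hIM⟩ := Ideal.exists_le_maximal I hI
      obtain ⟨N, hN⟩ := hY
      have h1 : (∏ b ∈ Y0, (X - C (C b))) ∈ M := hM.isPrime.mem_of_pow_mem _ (hIM hN)
      obtain ⟨b, hbY, hbM⟩ := (Ideal.IsPrime.prod_mem_iff (hp := hM.isPrime)).1 h1
      have hlt : 0 < jd b I := by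
        have hfb : FiniteDimensional K (K[X] ⧸ I.map (ev b)) :=
          Module.Finite.of_surjective (qev b I) (qev_surj b I)
        have hnt : Nontrivial (K[X] ⧸ I.map (ev b)) := by
          rw [Ideal.Quotient.nontrivial_iff]
          intro htop
          have h2 : (1 : K[X]) ∈ I.map (ev b) := by rw [htop]; trivial
          obtain ⟨f, hf, hfe⟩ := mem_map_ev.1 h2
          have h3 : ev b (1 - f) = 0 := by rw [map_sub, hfe, map_one, sub_self]
          obtain ⟨h, hh⟩ := ev_eq_zero.1 h3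
          apply hM.ne_top
          rw [Ideal.eq_top_iff_one]
          have h4 : (1 : K[X][X]) = f + (X - C (C b)) * h := by rw [← hh]; ring
          rw [h4]
          exact M.add_mem (hIM hf) (M.mul_mem_right _ hbM)
        exact finrank_pos
      have hle : I ≤ colon b I := le_colon b I
      have hfin2 : FiniteDimensional K (K[X][X] ⧸ colon b I) :=
        Module.Finite.of_surjective ((Ideal.Quotient.factorₐ K hle).toLinearMap)
          (Ideal.Quotient.factor_surjective hle)
      have hdim := finrank_colon b I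
      obtain ⟨Ξ2, hΞ2, hrat⟩ := ih (finrank K (K[X][X] ⧸ colon b I)) (by omega) (colon b I) rfl
        (by obtain ⟨N, hN⟩ := hX; exact ⟨N, hle hN⟩) ⟨N, hle hN⟩
      have hX0 : (X0 : Set K) ⊆ (IntermediateField.adjoin k
          ((X0 ∪ Y0 ∪ Ξ2 : Finset K) : Set K) : Set K) := by
        refine Set.Subset.trans ?_ (IntermediateField.subset_adjoin k _)
        intro x hx
        simp only [Finset.coe_union, Set.mem_union]
        exact Or.inl (Or.inl hx)
      have hbF : b ∈ IntermediateField.adjoin k ((X0 ∪ Y0 ∪ Ξ2 : Finset K) : Set K) := by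
        refine IntermediateField.subset_adjoin k _ ?_
        simp only [Finset.coe_union, Set.mem_union]
        exact Or.inl (Or.inr hbY)
      obtain ⟨Ξ1, hΞ1, hrat1⟩ := rat_step _ X0 hX0 b hbF I hX hrat
      refine ⟨Ξ2 ∪ Ξ1, ?_, ?_⟩
      · have h5 := Finset.card_union_le Ξ2 Ξ1
        have h6 : ∑ b' ∈ Y0, jd b' I = jd b I + ∑ b' ∈ Y0.erase b, jd b' I :=
          (Finset.add_sum_erase Y0 (fun b' => jd b' I) hbY).symm
        have h7 : ∑ b' ∈ Y0, jd b' (colon b I) =
            jd b (colon b I) + ∑ b' ∈ Y0.erase b, jd b' (colon b I) :=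
          (Finset.add_sum_erase Y0 (fun b' => jd b' (colon b I)) hbY).symm
        have h8 : ∑ b' ∈ Y0.erase b, jd b' (colon b I) = ∑ b' ∈ Y0.erase b, jd b' I := by
          refine Finset.sum_congr rfl fun b' hb' => ?_
          unfold jd
          rw [map_ev_colon (Finset.ne_of_mem_erase hb')]
        omega
      · refine hrat1 _ ?_ ?_
        · refine IntermediateField.adjoin.mono k _ _ ?_
          intro x hx
          simp only [Finset.coe_union, Set.mem_union] at hx ⊢
          tauto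
        · refine Set.Subset.trans ?_ (IntermediateField.subset_adjoin k _)
          intro x hx
          simp only [Finset.coe_union, Set.mem_union]
          exact Or.inr (Or.inr hx)

end main

end Pool.Agent.DM.P6
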