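import Pool.Agent.Lib.MP_463376_co.E2_P6

/-!
Part 6, continued: the version for a family `c m h` (coordinates of the monomial `m` in a
monomial basis), and transcendence degrees.
-/

set_option autoImplicit false
set_option linter.unusedSectionVars false

namespace Pool.Agent.DM.P6

open Polynomial Module

variable {K : Type*} [Field K] {H : Type*} [Fintype H] [DecidableEq H]

/-- The linear map `∑ a_m m ↦ ∑ a_m c^m`. -/
noncomputable def evc (c : ℕ × ℕ → H → K) : K[X][X] →ₗ[K] (H → K) where
  toFun f := f.sum fun j p => p.sum fun i a => a • c (i, j)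
  map_add' f g := by
    refine Polynomial.sum_add_index f g _ (fun j => by simp) fun j p q => ?_
    exact Polynomial.sum_add_index p q _ (fun i => zero_smul _ _) fun i a b => add_smul _ _ _
  map_smul' a f := by
    rw [RingHom.id_apply, Polynomial.smul_sum,
      Polynomial.sum_smul_index' f a (fun j (p : K[X]) => p.sum fun i b => b • c (i, j))
        (fun j => by simp)]
    refine Finset.sum_congr rfl fun j _ => ?_
    simp only
    rw [Polynomial.sum_smul_index' (f.coeff j) a (fun i (b : K) => b • c (i, j))
      (fun i => zero_smul _ _), Polynomial.smul_sum]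
    refine Finset.sum_congr rfl fun i _ => ?_
    simp only
    rw [smul_assoc]

theorem evc_monomial (c : ℕ × ℕ → H → K) (i j : ℕ) (a : K) :
    evc c (monomial j (monomial i a)) = a • c (i, j) := by
  change (monomial j (monomial i a)).sum (fun j (p : K[X]) => p.sum fun i b => b • c (i, j)) = _
  rw [Polynomial.sum_monomial_index (monomial i a)
      (fun j (p : K[X]) => p.sum fun i b => b • c (i, j)) (by simp),
    Polynomial.sum_monomial_index a (fun i (b : K) => b • c (i, j)) (by simp)]

/-- The structure satisfied by the coordinates of the monomials in a monomial basis. -/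
structure IsCoord (mon : H → ℕ × ℕ) (c : ℕ × ℕ → H → K) : Prop where
  unit : ∀ h, c (mon h) = Pi.single h 1
  mulX : ∀ m h, c (m.1 + 1, m.2) h = ∑ h', c m h' * c ((mon h').1 + 1, (mon h').2) h
  mulY : ∀ m h, c (m.1, m.2 + 1) h = ∑ h', c m h' * c ((mon h').1, (mon h').2 + 1) h

variable {mon : H → ℕ × ℕ} {c : ℕ × ℕ → H → K}

/-- Multiplication by `X` in coordinates. -/
noncomputable def opX (mon : H → ℕ × ℕ) (c : ℕ × ℕ → H → K) : (H → K) →ₗ[K] (H → K) where
  toFun v h := ∑ h', v h' * c ((mon h').1 + 1, (mon h').2) h
  map_add' v w := by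
    ext h
    simp only [Pi.add_apply, add_mul, Finset.sum_add_distrib]
  map_smul' a v := by
    ext h
    simp only [Pi.smul_apply, smul_eq_mul, RingHom.id_apply, Finset.mul_sum, mul_assoc]

/-- Multiplication by `Y` in coordinates. -/
noncomputable def opY (mon : H → ℕ × ℕ) (c : ℕ × ℕ → H → K) : (H → K) →ₗ[K] (H → K) where
  toFun v h := ∑ h', v h' * c ((mon h').1, (mon h').2 + 1) h
  map_add' v w := by
    ext h
    simp only [Pi.add_apply, add_mul, Finset.sum_add_distrib]
  map_smul' a v := by
    ext h
    simp only [Pi.smul_apply, smul_eq_mul, RingHom.id_apply, Finset.mul_sum, mul_assoc]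

theorem evc_X_mul (hc : IsCoord mon c) (f : K[X][X]) :
    evc c (X * f) = opY mon c (evc c f) := by
  induction f using Polynomial.induction_on' with
  | add f g hf hg => rw [mul_add, map_add, hf, hg, map_add, map_add]
  | monomial j p =>
    induction p using Polynomial.induction_on' with
    | add p q hp hq => rw [map_add, mul_add, map_add, hp, hq, map_add, map_add]
    | monomial i a =>
      rw [X_mul_monomial, evc_monomial, evc_monomial, map_smul]
      congr 1
      ext h
      exact hc.mulY (i, j) h

theorem evc_CX_mul (hc : IsCoord mon c) (f : K[X][X]) :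
    evc c (C X * f) = opX mon c (evc c f) := by
  induction f using Polynomial.induction_on' with
  | add f g hf hg => rw [mul_add, map_add, hf, hg, map_add, map_add]
  | monomial j p =>
    induction p using Polynomial.induction_on' with
    | add p q hp hq => rw [map_add, mul_add, map_add, hp, hq, map_add, map_add]
    | monomial i a =>
      rw [C_mul_monomial, X_mul_monomial, evc_monomial, evc_monomial, map_smul]
      congr 1
      ext h
      exact hc.mulX (i, j) h

theorem evc_mul_eq_zero (hc : IsCoord mon c) (g f : K[X][X]) (hf : evc c f = 0) :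
    evc c (g * f) = 0 := by
  induction g using Polynomial.induction_on' with
  | add p q hp hq => rw [add_mul, map_add, hp, hq, add_zero]
  | monomial j p =>
    induction j with
    | zero =>
      rw [monomial_zero_left]
      induction p using Polynomial.induction_on' with
      | add p q hp hq => rw [C_add, add_mul, map_add, hp, hq, add_zero]
      | monomial i a =>
        induction i with
        | zero =>
          have h1 : (C (monomial 0 a) : K[X][X]) * f = a • f := by
            rw [monomial_zero_left]
            ext j' i'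
            rw [coeff_C_mul, coeff_C_mul, coeff_smul, coeff_smul, smul_eq_mul]
          rw [h1, map_smul, hf, smul_zero]
        | succ i ih =>
          have h1 : (C (monomial (i + 1) a) : K[X][X]) * f = C X * (C (monomial i a) * f) := by
            rw [← mul_assoc, ← C_mul, X_mul_monomial]
          rw [h1, evc_CX_mul hc, ih, map_zero]
    | succ j ih =>
      have h1 : (monomial (j + 1) p : K[X][X]) * f = X * (monomial j p * f) := by
        rw [← mul_assoc, X_mul_monomial]
      rw [h1, evc_X_mul hc, ih, map_zero]

/-- The ideal of relations. -/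
noncomputable def idl (hc : IsCoord mon c) : Ideal K[X][X] where
  carrier := {f | evc c f = 0}
  zero_mem' := map_zero _
  add_mem' := by
    intro a b ha hb
    have ha' : evc c a = 0 := ha
    have hb' : evc c b = 0 := hb
    change evc c (a + b) = 0
    rw [map_add, ha', hb', add_zero]
  smul_mem' g f hf := evc_mul_eq_zero hc g f hf

theorem mem_idl (hc : IsCoord mon c) {f : K[X][X]} : f ∈ idl hc ↔ evc c f = 0 := Iff.rfl

/-- The section of `evc`. -/
noncomputable def sec (mon : H → ℕ × ℕ) : (H → K) →ₗ[K] K[X][X] where
  toFun v := ∑ h, monomial (mon h).2 (monomial (mon h).1 (v h))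
  map_add' v w := by
    rw [← Finset.sum_add_distrib]
    exact Finset.sum_congr rfl fun h _ => by rw [Pi.add_apply, map_add, map_add]
  map_smul' a v := by
    rw [RingHom.id_apply, Finset.smul_sum]
    refine Finset.sum_congr rfl fun h _ => ?_
    rw [Pi.smul_apply, smul_monomial, smul_monomial]

theorem evc_sec (hc : IsCoord mon c) (v : H → K) : evc c (sec mon v) = v := by
  change evc c (∑ h, monomial (mon h).2 (monomial (mon h).1 (v h))) = v
  rw [map_sum]
  simp only [evc_monomial]
  ext h
  rw [Finset.sum_apply, Finset.sum_eq_single h]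
  · rw [Pi.smul_apply, Prod.mk.eta, hc.unit, Pi.single_eq_same, smul_eq_mul, mul_one]
  · intro h' _ hne
    rw [Pi.smul_apply, Prod.mk.eta, hc.unit, Pi.single_eq_of_ne hne.symm, smul_zero]
  · intro hn
    exact absurd (Finset.mem_univ h) hn

/-- Coordinates of the quotient. -/
noncomputable def quotEquiv (hc : IsCoord mon c) : (H → K) ≃ₗ[K] (K[X][X] ⧸ idl hc) :=
  LinearEquiv.ofBijective ((Ideal.Quotient.mkₐ K (idl hc)).toLinearMap.comp (sec mon)) (by
    constructor
    · rw [injective_iff_map_eq_zero]
      intro v hv
      have h1 : Ideal.Quotient.mk (idl hc) (sec mon v) = 0 := hv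
      rw [Ideal.Quotient.eq_zero_iff_mem, mem_idl, evc_sec hc] at h1
      exact h1
    · intro x
      obtain ⟨f, rfl⟩ := Ideal.Quotient.mk_surjective x
      refine ⟨evc c f, ?_⟩
      change Ideal.Quotient.mk (idl hc) (sec mon (evc c f)) = _
      rw [Ideal.Quotient.eq, mem_idl, map_sub, evc_sec hc, sub_self])

instance finiteDimensional_quot (hc : IsCoord mon c) :
    FiniteDimensional K (K[X][X] ⧸ idl hc) :=
  Module.Finite.equiv (quotEquiv hc)

theorem finrank_quot (hc : IsCoord mon c) :
    finrank K (K[X][X] ⧸ idl hc) = Fintype.card H := by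
  rw [← (quotEquiv hc).finrank_eq, finrank_fintype_fun_eq_card]

/-- If the ideal is defined over `F`, the coordinates lie in `F`. -/
theorem coord_mem {k : Type*} [Field k] [Algebra k K] (F : IntermediateField k K)
    (hc : IsCoord mon c) (hR : Rat (F : Set K) (idl hc)) (m : ℕ × ℕ) (h : H) : c m h ∈ F := by
  obtain ⟨r, hr1, hr2, hr3⟩ := exists_retraction F
  set f : K[X][X] := monomial m.2 (monomial m.1 1) -
    ∑ h', monomial (mon h').2 (monomial (mon h').1 (c m h')) with hf
  have hev : ∀ v : H → K, evc c (∑ h', monomial (mon h').2 (monomial (mon h').1 (v h'))) = v :=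
    evc_sec hc
  have hfI : f ∈ idl hc := by
    rw [mem_idl, hf, map_sub, hev, evc_monomial, one_smul, Prod.mk.eta, sub_self]
  have h1 := hR r hr1 f hfI
  have hcm : ∀ (i j : ℕ) (a : K), cmap r (monomial j (monomial i a)) =
      monomial j (monomial i (r a)) := by
    intro i j a
    ext j' i'
    rw [cmap_coeff, coeff_monomial, coeff_monomial]
    split_ifs
    · rw [coeff_monomial, coeff_monomial]
      split_ifs
      · rfl
      · exact map_zero r
    · simp
  have h2 : cmap r f = monomial m.2 (monomial m.1 1) -
      ∑ h', monomial (mon h').2 (monomial (mon h').1 (r (c m h'))) := by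
    rw [hf, map_sub, map_sum, hcm, hr2 1 F.one_mem]
    simp only [hcm]
  rw [h2, mem_idl, map_sub, hev (fun h' => r (c m h')), evc_monomial, one_smul, Prod.mk.eta,
    sub_eq_zero] at h1
  rw [h1]
  exact hr3 _

/-- **Part 6 for coordinates.** The points are `(x i, y i)`. -/
theorem coord_params {k : Type*} [Field k] [Algebra k K] [DecidableEq K]
    (hc : IsCoord mon c) {ι : Type*} [Fintype ι] (x y : ι → K)
    (hx : evc c (C (∏ i, (X - C (x i)))) = 0) (hy : evc c (∏ i, (X - C (C (y i)))) = 0) :
    ∃ Ξ : Finset K,
      Ξ.card + ∑ b ∈ Finset.univ.image y, jd b (idl hc) ≤ Fintype.card H ∧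
      ∀ m h, c m h ∈ IntermediateField.adjoin k
        ((Finset.univ.image x ∪ Finset.univ.image y ∪ Ξ : Finset K) : Set K) := by
  classical
  have hX : ∃ N, C ((∏ a ∈ Finset.univ.image x, (X - C a)) ^ N) ∈ idl hc := by
    refine ⟨Fintype.card ι, ?_⟩
    have h1 : ∏ i, (X - C (x i)) ∣ (∏ a ∈ Finset.univ.image x, (X - C a)) ^ (Fintype.card ι) := by
      rw [← Finset.card_univ, ← Finset.prod_const]
      exact Finset.prod_dvd_prod_of_dvd _ _ fun i _ =>
        Finset.dvd_prod_of_mem (fun a : K => (X - C a : K[X]))
          (Finset.mem_image_of_mem x (Finset.mem_univ i))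
    exact Ideal.mem_of_dvd _ (map_dvd C h1) hx
  have hY : ∃ N, (∏ b ∈ Finset.univ.image y, (X - C (C b))) ^ N ∈ idl hc := by
    refine ⟨Fintype.card ι, ?_⟩
    have h1 : ∏ i, (X - C (C (y i))) ∣
        (∏ b ∈ Finset.univ.image y, (X - C (C b) : K[X][X])) ^ (Fintype.card ι) := by
      rw [← Finset.card_univ, ← Finset.prod_const]
      exact Finset.prod_dvd_prod_of_dvd _ _ fun i _ =>
        Finset.dvd_prod_of_mem (fun b : K => (X - C (C b) : K[X][X]))
          (Finset.mem_image_of_mem y (Finset.mem_univ i))
    exact Ideal.mem_of_dvd _ h1 hy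
  obtain ⟨Ξ, h1, h2⟩ := exists_params (k := k) (Finset.univ.image x) (Finset.univ.image y) _
    (idl hc) rfl hX hY
  rw [finrank_quot] at h1
  exact ⟨Ξ, h1, fun m h => coord_mem _ hc h2 m h⟩

/-! ### Transcendence degrees -/

/-- A field generated by `N` elements has transcendence degree at most `N`. -/
theorem trdeg_adjoin_le {k : Type*} [Field k] [Algebra k K] (S : Finset K) :
    Algebra.trdeg k (IntermediateField.adjoin k (S : Set K)) ≤ (S.card : Cardinal) := by
  set F := IntermediateField.adjoin k (S : Set K) with hF
  set s : Set F := Subtype.val ⁻¹' (S : Set K) with hs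
  have halg : Algebra.IsAlgebraic (Algebra.adjoin k s) F := by
    refine ⟨fun x => ?_⟩
    obtain ⟨r, hr, t, ht, hx⟩ := IntermediateField.mem_adjoin_iff_div.1 x.2
    have hmap : (Algebra.adjoin k s).map F.val = Algebra.adjoin k (S : Set K) := by
      rw [AlgHom.map_adjoin]
      congr 1
      ext z
      constructor
      · rintro ⟨w, hw, rfl⟩
        exact hw
      · intro hz
        exact ⟨⟨z, IntermediateField.subset_adjoin k _ hz⟩, hz, rfl⟩
    rw [← hmap] at hr ht
    obtain ⟨r', hr', rfl⟩ := hr
    obtain ⟨t', ht', rfl⟩ := ht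
    by_cases ht0 : t' = 0
    · have hx0 : x = 0 := by
        ext
        rw [hx, ht0]
        simp
      rw [hx0]
      exact isAlgebraic_zero
    · refine ⟨Polynomial.C (⟨t', ht'⟩ : Algebra.adjoin k s) * Polynomial.X -
        Polynomial.C (⟨r', hr'⟩ : Algebra.adjoin k s), ?_, ?_⟩
      · intro h0
        have h1 := congrArg (fun q => Polynomial.coeff q 1) h0
        simp only [Polynomial.coeff_sub, Polynomial.coeff_C_mul, Polynomial.coeff_X_one, mul_one,
          Polynomial.coeff_zero] at h1
        rw [Polynomial.coeff_C] at h1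
        simp only [one_ne_zero, if_false, sub_zero] at h1
        exact ht0 (congrArg Subtype.val h1)
      · simp only [map_sub, map_mul, Polynomial.aeval_C, Polynomial.aeval_X]
        have h2 : t' * x = r' := by
          ext
          have h3 : (x : K) = (r' : K) / (t' : K) := hx
          have h4 : (t' : K) ≠ 0 := fun h => ht0 (by ext; exact h)
          push_cast
          rw [h3]
          field_simp
        change t' * x - r' = 0
        rw [h2, sub_self]
  refine (Algebra.IsAlgebraic.trdeg_le_cardinalMk k s).trans ?_
  have h1 : Cardinal.mk s ≤ Cardinal.mk (S : Set K) :=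
    Cardinal.mk_le_of_injective (f := fun z => (⟨z.1.1, z.2⟩ : (S : Set K))) (by
      intro a b hab
      have := congrArg (Subtype.val) hab
      exact Subtype.ext (Subtype.ext this))
  refine h1.trans ?_
  simp

end Pool.Agent.DM.P6
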