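import Pool.Agent.Lib.MP_463376_co.E2_P6b

/-! Stream E2: the points of the support -/

set_option autoImplicit false
set_option linter.unusedSectionVars false

namespace Pool.Agent.DM.P6

open Polynomial Module

variable {K : Type*} [Field K] {H : Type*} [Fintype H] [DecidableEq H]
  {mon : H → ℕ × ℕ} {c : ℕ × ℕ → H → K} {ι : Type*} [Fintype ι]

/-- Evaluation at a point in coordinates. -/
theorem eval_evc (a b : K)
    (hab : ∀ m : ℕ × ℕ, a ^ m.1 * b ^ m.2 = ∑ h, c m h * (a ^ (mon h).1 * b ^ (mon h).2))
    (f : K[X][X]) : (ev b f).eval a = ∑ h, evc c f h * (a ^ (mon h).1 * b ^ (mon h).2) := by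
  induction f using Polynomial.induction_on' with
  | add f g hf hg =>
    rw [map_add, eval_add, hf, hg, map_add, ← Finset.sum_add_distrib]
    exact Finset.sum_congr rfl fun h _ => by rw [Pi.add_apply, add_mul]
  | monomial j p =>
    induction p using Polynomial.induction_on' with
    | add p q hp hq =>
      rw [map_add, map_add, eval_add, hp, hq, map_add, ← Finset.sum_add_distrib]
      exact Finset.sum_congr rfl fun h _ => by rw [Pi.add_apply, add_mul]
    | monomial i r =>
      rw [evc_monomial]
      have h1 : (ev b (monomial j (monomial i r))).eval a = r * (a ^ i * b ^ j) := by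
        simp only [ev, coe_evalRingHom, eval_monomial, eval_mul, eval_pow, eval_C]
        ring
      rw [h1, hab (i, j), Finset.mul_sum]
      exact Finset.sum_congr rfl fun h _ => by rw [Pi.smul_apply, smul_eq_mul]; ring

theorem eval_of_mem (hc : IsCoord mon c) (a b : K)
    (hab : ∀ m : ℕ × ℕ, a ^ m.1 * b ^ m.2 = ∑ h, c m h * (a ^ (mon h).1 * b ^ (mon h).2))
    {f : K[X][X]} (hf : f ∈ idl hc) : (ev b f).eval a = 0 := by
  rw [eval_evc a b hab, (mem_idl hc).1 hf]
  simp

/-- Each line contributes at least the number of its points. -/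
theorem card_le_jd (I : Ideal K[X][X]) [FiniteDimensional K (K[X][X] ⧸ I)] (b : K) (T : Finset K)
    (hT : ∀ a ∈ T, ∀ f ∈ I, (ev b f).eval a = 0) : T.card ≤ jd b I := by
  classical
  have hfb : FiniteDimensional K (K[X] ⧸ I.map (ev b)) :=
    Module.Finite.of_surjective (qev b I) (qev_surj b I)
  let F : K[X] →ₐ[K] (T → K) := AlgHom.pi fun a : T => Polynomial.aeval (a : K)
  have hF : ∀ p a, F p a = p.eval (a : K) := fun p a => by
    change Polynomial.aeval (a : K) p = _
    rw [Polynomial.aeval_def, Algebra.algebraMap_self, eval₂_id]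
  have hker : ∀ p ∈ I.map (ev b), F p = 0 := by
    intro p hp
    obtain ⟨f, hf, rfl⟩ := mem_map_ev.1 hp
    ext a
    rw [hF]
    exact hT a a.2 f hf
  let G := Ideal.Quotient.liftₐ (I.map (ev b)) F hker
  have hG : Function.Surjective G.toLinearMap := by
    intro v
    refine ⟨Ideal.Quotient.mk _ (Lagrange.interpolate T id fun a =>
      if h : a ∈ T then v ⟨a, h⟩ else 0), ?_⟩
    change F _ = v
    ext a
    rw [hF]
    have h1 := Lagrange.eval_interpolate_at_node (s := T) (v := id)
      (r := fun a => if h : a ∈ T then v ⟨a, h⟩ else 0) (Set.injOn_id _) a.2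
    simp only [id] at h1
    rw [h1, dif_pos a.2]
  have h1 := LinearMap.finrank_range_add_finrank_ker G.toLinearMap
  rw [LinearMap.range_eq_top.2 hG, finrank_top, finrank_fintype_fun_eq_card,
    Fintype.card_coe] at h1
  unfold jd
  omega

theorem card_points_le [DecidableEq K] (I : Ideal K[X][X]) [FiniteDimensional K (K[X][X] ⧸ I)]
    (x y : ι → K) (h : ∀ i, ∀ f ∈ I, (ev (y i) f).eval (x i) = 0) :
    (Finset.univ.image fun i => (x i, y i)).card ≤ ∑ b ∈ Finset.univ.image y, jd b I := by
  rw [Finset.card_eq_sum_card_fiberwise (f := Prod.snd) (t := Finset.univ.image y)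
    (by
      intro p hp
      obtain ⟨i, _, rfl⟩ := Finset.mem_image.1 hp
      exact Finset.mem_coe.2 (Finset.mem_image_of_mem y (Finset.mem_univ i)))]
  refine Finset.sum_le_sum fun b _ => ?_
  refine le_trans ?_ (card_le_jd I b ((Finset.univ.filter fun i => y i = b).image x) ?_)
  · refine Finset.card_le_card_of_injOn Prod.fst ?_ ?_
    · intro p hp
      obtain ⟨hp1, hp2⟩ := Finset.mem_filter.1 (Finset.mem_coe.1 hp)
      obtain ⟨i, _, rfl⟩ := Finset.mem_image.1 hp1
      exact Finset.mem_coe.2 (Finset.mem_image_of_mem x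
        (Finset.mem_filter.2 ⟨Finset.mem_univ i, hp2⟩))
    · intro p hp q hq hpq
      have hp2 := (Finset.mem_filter.1 (Finset.mem_coe.1 hp)).2
      have hq2 := (Finset.mem_filter.1 (Finset.mem_coe.1 hq)).2
      exact Prod.ext hpq (hp2.trans hq2.symm)
  · intro a ha f hf
    obtain ⟨i, hi, rfl⟩ := Finset.mem_image.1 ha
    have := h i f hf
    rwa [(Finset.mem_filter.1 hi).2] at this

variable {k : Type*} [Field k] [Algebra k K] [DecidableEq K]

theorem pts_bound (hc : IsCoord mon c) (x y : ι → K)
    (hx : evc c (C (∏ i, (X - C (x i)))) = 0) (hy : evc c (∏ i, (X - C (C (y i)))) = 0)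
    (hxy : ∀ i, ∀ m : ℕ × ℕ, x i ^ m.1 * y i ^ m.2 =
      ∑ h, c m h * (x i ^ (mon h).1 * y i ^ (mon h).2)) :
    ∃ S : Finset K, S.card ≤ Fintype.card H + (Finset.univ.image fun i => (x i, y i)).card ∧
      ∀ m h, c m h ∈ IntermediateField.adjoin k (S : Set K) := by
  obtain ⟨Ξ, h1, h2⟩ := coord_params (k := k) hc x y hx hy
  refine ⟨Finset.univ.image x ∪ Finset.univ.image y ∪ Ξ, ?_, h2⟩
  have h3 := card_points_le (idl hc) x y fun i f hf => eval_of_mem hc _ _ (hxy i) hf
  have h4 := Finset.card_union_le (Finset.univ.image x ∪ Finset.univ.image y) Ξ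
  have h5 := Finset.card_union_le (Finset.univ.image x) (Finset.univ.image y)
  have h6 : (Finset.univ.image x).card ≤ (Finset.univ.image fun i => (x i, y i)).card := by
    have : Finset.univ.image x = (Finset.univ.image fun i => (x i, y i)).image Prod.fst := by
      rw [Finset.image_image]; rfl
    rw [this]
    exact Finset.card_image_le
  have h7 : (Finset.univ.image y).card ≤ (Finset.univ.image fun i => (x i, y i)).card := by
    have : Finset.univ.image y = (Finset.univ.image fun i => (x i, y i)).image Prod.snd := by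
      rw [Finset.image_image]; rfl
    rw [this]
    exact Finset.card_image_le
  omega

theorem pts_bound_y0 (hc : IsCoord mon c) (x : ι → K)
    (hx : evc c (C (∏ i, (X - C (x i)))) = 0)
    (hy : evc c (∏ _i : ι, (X - C (C (0 : K)))) = 0) :
    ∃ S : Finset K, S.card + jd 0 (idl hc) ≤ Fintype.card H + (Finset.univ.image x).card ∧
      ∀ m h, c m h ∈ IntermediateField.adjoin k (S : Set K) := by
  obtain ⟨Ξ, h1, h2⟩ := coord_params (k := k) hc x (fun _ => 0) hx hy
  refine ⟨Finset.univ.image x ∪ Ξ, ?_, fun m h => ?_⟩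
  · have h3 := Finset.card_union_le (Finset.univ.image x) Ξ
    have h4 : jd 0 (idl hc) ≤ ∑ b ∈ Finset.univ.image (fun _ : ι => (0 : K)), jd b (idl hc) := by
      rcases isEmpty_or_nonempty ι with h | ⟨⟨i⟩⟩
      · have h5 : (1 : K[X][X]) ∈ idl hc := by
          have : (∏ _i : ι, (X - C (C (0 : K)))) = (1 : K[X][X]) := by simp
          rw [this] at hy
          exact hy
        have h6 : idl hc = ⊤ := (Ideal.eq_top_iff_one _).2 h5
        have h7 : jd 0 (idl hc) = 0 := by
          unfold jd
          rw [h6, Ideal.map_top]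
          exact finrank_zero_of_subsingleton
        rw [h7]
        exact Nat.zero_le _
      · exact Finset.single_le_sum (f := fun b => jd b (idl hc)) (fun _ _ => Nat.zero_le _)
          (Finset.mem_image_of_mem _ (Finset.mem_univ i))
    omega
  · refine IntermediateField.adjoin_le_iff.2 ?_ (h2 m h)
    intro z hz
    simp only [Finset.coe_union, Set.mem_union, Finset.coe_image, Set.mem_image] at hz
    rcases hz with (hz | ⟨_, _, rfl⟩) | hz
    · refine IntermediateField.subset_adjoin k _ ?_
      simp only [Finset.coe_union, Set.mem_union, Finset.coe_image, Set.mem_image]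
      exact Or.inl hz
    · exact zero_mem _
    · refine IntermediateField.subset_adjoin k _ ?_
      simp only [Finset.coe_union, Set.mem_union]
      exact Or.inr hz

end Pool.Agent.DM.P6
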