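import Pool.Agent.Lib.MP_463376_co.IAbs

/-! Stream E: derivations, abstract part -/

set_option linter.unusedSectionVars false

namespace Pool.Agent.Lib.MP_463376_co

open MvPolynomial TensorProduct

section stable

variable {k A C : Type} [Field k] [CommRing A] [CommRing C] [Algebra k A] [Algebra k C]
  [Algebra A C]

/-- a derivation of `C` compatible with a derivation of `A` -/
theorem E_smul {dA : Derivation k A A} {dC : Derivation k C C}
    (h : ∀ a, dC (algebraMap A C a) = algebraMap A C (dA a)) (a : A) (c : C) :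
    dC (a • c) = a • dC c + dA a • c := by
  rw [Algebra.smul_def, dC.leibniz, h]
  simp only [smul_eq_mul]
  rw [Algebra.smul_def, Algebra.smul_def, mul_comm c]

/-- the bracket of a derivation with an `A`-linear endomorphism -/
noncomputable def E_br (dA : Derivation k A A) (dC : Derivation k C C)
    (h : ∀ a, dC (algebraMap A C a) = algebraMap A C (dA a)) (T : C →ₗ[A] C) : C →ₗ[A] C where
  toFun c := dC (T c) - T (dC c)
  map_add' c c' := by simp only [map_add]; abel
  map_smul' a c := by
    simp only [map_smul, E_smul h, map_add, RingHom.id_apply, smul_sub]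
    abel

theorem E_freeIdeal_stable {dA : Derivation k A A} {dC : Derivation k C C}
    (h : ∀ a, dC (algebraMap A C a) = algebraMap A C (dA a)) {a : A}
    (ha : a ∈ freeIdeal A C) : dA a ∈ freeIdeal A C := by
  have key : ∀ t : Module.Dual A C ⊗[A] C,
      E_br dA dC h (dualTensorHom A C C t) ∈ LinearMap.range (dualTensorHom A C C) := by
    intro t
    induction t using TensorProduct.induction_on with
    | zero =>
      have : E_br dA dC h (dualTensorHom A C C 0) = 0 := by
        ext c; simp [E_br]
      rw [this]; exact zero_mem _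
    | add t s ht hs =>
      have : E_br dA dC h (dualTensorHom A C C (t + s)) =
          E_br dA dC h (dualTensorHom A C C t) + E_br dA dC h (dualTensorHom A C C s) := by
        ext c; simp only [E_br, map_add, LinearMap.add_apply, LinearMap.coe_mk, AddHom.coe_mk]
        abel
      rw [this]; exact add_mem ht hs
    | tmul φ m =>
      let ψ : Module.Dual A C :=
        { toFun := fun c => dA (φ c) - φ (dC c)
          map_add' := fun c c' => by simp only [map_add]; abel
          map_smul' := fun b c => by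
            simp only [map_smul, E_smul h, map_add, RingHom.id_apply, smul_eq_mul, dA.leibniz]
            ring }
      refine ⟨ψ ⊗ₜ m + φ ⊗ₜ dC m, ?_⟩
      ext c
      simp only [map_add, LinearMap.add_apply, dualTensorHom_apply, E_br, LinearMap.coe_mk,
        AddHom.coe_mk, E_smul h, ψ, sub_smul]
      abel
  obtain ⟨t, ht⟩ := ha
  have h1 := key t
  rw [ht] at h1
  have h2 : E_br dA dC h ((LinearMap.toSpanSingleton A (C →ₗ[A] C) LinearMap.id) a) =
      (LinearMap.toSpanSingleton A (C →ₗ[A] C) LinearMap.id) (dA a) := by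
    ext c
    simp only [E_br, LinearMap.toSpanSingleton_apply, LinearMap.smul_apply, LinearMap.id_apply,
      LinearMap.coe_mk, AddHom.coe_mk, E_smul h]
    abel
  rw [h2] at h1
  exact h1

end stable

section minimal

variable {k A : Type} [Field k] [CharZero k] [CommRing A] [Algebra k A]

theorem E_exists_pow {I p : Ideal A} (hp : p ∈ I.minimalPrimes) {a : A} (ha : a ∈ p) :
    ∃ N : ℕ, ∃ s ∉ p, s * a ^ N ∈ I := by
  by_contra hcon
  push Not at hcon
  have hpp : p.IsPrime := hp.1.1
  let S : Submonoid A :=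
    { carrier := {x | ∃ N : ℕ, ∃ s ∉ p, x = s * a ^ N}
      one_mem' := ⟨0, 1, fun h => hpp.ne_top ((Ideal.eq_top_iff_one p).2 h), by simp⟩
      mul_mem' := by
        rintro _ _ ⟨N, s, hs, rfl⟩ ⟨M, t, ht, rfl⟩
        exact ⟨N + M, s * t, fun h => (hpp.mem_or_mem h).elim hs ht, by ring⟩ }
  have hdis : Disjoint (I : Set A) (S : Set A) := by
    rw [Set.disjoint_left]
    rintro x hx ⟨N, s, hs, rfl⟩
    exact hcon N s hs hx
  obtain ⟨q, hq, hIq, hqS⟩ := Ideal.exists_le_prime_disjoint I S hdis
  have hqp : q ≤ p := by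
    intro x hx
    by_contra hxp
    exact Set.disjoint_left.1 hqS hx ⟨0, x, hxp, by simp⟩
  have haq : a ∉ q := by
    intro haq
    exact Set.disjoint_left.1 hqS haq
      ⟨1, 1, fun h => hpp.ne_top ((Ideal.eq_top_iff_one p).2 h), by simp⟩
  exact haq (hp.2 ⟨hq, hIq⟩ hqp ha)

/-- minimal primes over a stable ideal are stable -/
theorem E_min_stable (D : Derivation k A A) {I p : Ideal A} (hI : ∀ a ∈ I, D a ∈ I)
    (hp : p ∈ I.minimalPrimes) : ∀ a ∈ p, D a ∈ p := by
  classical
  intro a ha
  have hpp : p.IsPrime := hp.1.1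
  have hex := E_exists_pow hp ha
  obtain ⟨s, hs, hsI⟩ := Nat.find_spec hex
  have hmin := fun m => Nat.find_min hex (m := m)
  set N := Nat.find hex with hN
  have hN0 : N ≠ 0 := by
    intro h0
    rw [h0, pow_zero, mul_one] at hsI
    exact hs (hp.1.2 hsI)
  obtain ⟨M, hM⟩ := Nat.exists_eq_add_one_of_ne_zero hN0
  have h1 : s * D (s * a ^ N) ∈ I := I.mul_mem_left _ (hI _ hsI)
  rw [D.leibniz, D.leibniz_pow, hM, Nat.add_sub_cancel] at h1
  simp only [smul_eq_mul, nsmul_eq_mul] at h1
  have h2 : s * (a ^ (M + 1) * D s) ∈ I := by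
    have : s * (a ^ (M + 1) * D s) = (s * a ^ N) * D s := by rw [hM]; ring
    rw [this]; exact I.mul_mem_right _ hsI
  have h3 : ((M + 1 : ℕ) : A) * ((s * s * D a) * a ^ M) ∈ I := by
    have h4 := I.sub_mem h1 h2
    convert! h4 using 1
    ring
  have h5 : (s * s * D a) * a ^ M ∈ I := by
    have h6 := I.mul_mem_left (algebraMap k A ((M + 1 : ℕ) : k)⁻¹) h3
    have h7 : algebraMap k A ((M + 1 : ℕ) : k)⁻¹ * ((M + 1 : ℕ) : A) = 1 := by
      rw [← map_natCast (algebraMap k A) (M + 1), ← map_mul, inv_mul_cancel₀, map_one]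
      exact_mod_cast Nat.succ_ne_zero M
    rwa [← mul_assoc, h7, one_mul] at h6
  by_contra hDa
  refine hmin M (by omega) ⟨s * s * D a, ?_, h5⟩
  intro h
  rcases hpp.mem_or_mem h with h | h
  · exact (hpp.mem_or_mem h).elim hs hs
  · exact hDa h

end minimal

section poly

variable {k : Type} [Field k] [CharZero k] {σ : Type}

theorem E_pderiv_degree (F : MvPolynomial σ k) (i : σ) (n : ℕ) (h : F.totalDegree ≤ n + 1) :
    (pderiv i F).totalDegree ≤ n := by
  refine Finset.sup_le fun m hm => ?_
  rw [mem_support_iff, coeff_pderiv] at hm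
  have h1 : m + Finsupp.single i 1 ∈ F.support := by
    rw [mem_support_iff]
    intro h0
    rw [h0] at hm
    simp at hm
  have h2 := le_totalDegree h1
  have h3 : ((m + Finsupp.single i 1).sum fun _ e => e) = (m.sum fun _ e => e) + 1 := by
    rw [Finsupp.sum_add_index' (fun _ => rfl) (fun _ _ _ => rfl), Finsupp.sum_single_index rfl]
  omega

theorem E_const_of_pderiv (F : MvPolynomial σ k) (h : ∀ i, pderiv i F = 0) :
    F = C (F.coeff 0) := by
  classical
  ext m
  rw [coeff_C]
  split_ifs with h0
  · rw [← h0]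
  · obtain ⟨i, hi⟩ : ∃ i, m i ≠ 0 := by
      by_contra hcon
      push Not at hcon
      exact h0 (Finsupp.ext fun i => (hcon i).symm)
    have h1 : (m - Finsupp.single i 1) + Finsupp.single i 1 = m := by
      ext j
      by_cases hj : j = i
      · subst hj
        simp
        omega
      · simp [Ne.symm hj]
    have h2 := coeff_pderiv (i := i) F (m - Finsupp.single i 1)
    rw [h i, coeff_zero, h1] at h2
    have h3 : (((m - Finsupp.single i 1 : σ →₀ ℕ) i : ℕ) : k) + 1 ≠ 0 := by
      exact Nat.cast_add_one_ne_zero _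
    exact (mul_eq_zero.1 h2.symm).resolve_right h3

/-- an ideal stable under all partial derivatives is zero -/
theorem E_stable_ideal {J : Ideal (MvPolynomial σ k)} (hJ : J ≠ ⊤)
    (h : ∀ F ∈ J, ∀ i, pderiv i F ∈ J) : J = ⊥ := by
  rw [eq_bot_iff]
  have key : ∀ n, ∀ F ∈ J, F.totalDegree ≤ n → F = 0 := by
    intro n
    have hconst : ∀ F ∈ J, (∃ c, F = C c) → F = 0 := by
      rintro F hF ⟨c, rfl⟩
      by_contra hc
      have hc' : c ≠ 0 := fun h0 => hc (by rw [h0, map_zero])
      apply hJ
      rw [Ideal.eq_top_iff_one]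
      have := J.mul_mem_left (C c⁻¹) hF
      rwa [← C_mul, inv_mul_cancel₀ hc', C_1] at this
    induction n with
    | zero =>
      intro F hF hd
      exact hconst F hF ⟨_, totalDegree_eq_zero_iff_eq_C.1 (Nat.le_zero.1 hd)⟩
    | succ n ih =>
      intro F hF hd
      refine hconst F hF ⟨_, E_const_of_pderiv F fun i => ih _ (h F hF i) ?_⟩
      exact E_pderiv_degree F i n hd
  intro F hF
  exact key _ F hF le_rfl

theorem E_derivation_sum [Fintype σ] (D : Derivation k (MvPolynomial σ k) (MvPolynomial σ k))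
    (F : MvPolynomial σ k) : D F = ∑ i, D (X i) * pderiv i F := by
  classical
  have hs : ∀ f : σ → Derivation k (MvPolynomial σ k) (MvPolynomial σ k),
      ⇑(∑ i, f i) = ∑ i, ⇑(f i) := fun f => map_sum Derivation.coeFnAddMonoidHom f Finset.univ
  have h : D = ∑ i, D (X i) • (pderiv i : Derivation k (MvPolynomial σ k) (MvPolynomial σ k)) := by
    apply MvPolynomial.derivation_ext
    intro j
    rw [hs, Finset.sum_apply, Finset.sum_eq_single j]
    · simp
    · intro i _ hi
      simp [pderiv_X_of_ne hi.symm]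
    · intro h; exact absurd (Finset.mem_univ j) h
  conv_lhs => rw [h]
  rw [hs, Finset.sum_apply]
  rfl

end poly

section points

variable {k : Type} [Field k] [CharZero k] {κ : Type} [Fintype κ]

/-- the value of a polynomial in two variables at the generic point number `b` -/
noncomputable def E_at (b : κ) : MvPolynomial (Fin 2) k →ₐ[k] MvPolynomial (κ ⊕ κ) k :=
  aeval ![X (Sum.inl b), X (Sum.inr b)]

/-- the derivation given by a vector field -/
noncomputable def E_D (u v : MvPolynomial (Fin 2) k) :
    Derivation k (MvPolynomial (κ ⊕ κ) k) (MvPolynomial (κ ⊕ κ) k) :=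
  mkDerivation k (Sum.elim (fun b => E_at b u) (fun b => E_at b v))

theorem E_J {J : Ideal (MvPolynomial (κ ⊕ κ) k)} [J.IsPrime]
    (hst : ∀ u v : MvPolynomial (Fin 2) k, ∀ F ∈ J, E_D u v F ∈ J)
    (hdist : ∀ b b' : κ, (X (Sum.inl b) - X (Sum.inl b') : MvPolynomial (κ ⊕ κ) k) ∈ J →
      (X (Sum.inr b) - X (Sum.inr b') : MvPolynomial (κ ⊕ κ) k) ∈ J → b = b') : J = ⊥ := by
  classical
  refine E_stable_ideal (Ideal.IsPrime.ne_top ‹_›) ?_
  let χ : κ → (MvPolynomial (Fin 2) k →* (MvPolynomial (κ ⊕ κ) k ⧸ J)) := fun b =>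
    ((Ideal.Quotient.mk J).comp (E_at b).toRingHom).toMonoidHom
  have hχ : ∀ b u, χ b u = Ideal.Quotient.mk J (E_at b u) := fun b u => rfl
  have hinj : Function.Injective χ := by
    intro b b' hbb
    have h0 := congrArg (fun f => f (X 0)) hbb
    have h1 := congrArg (fun f => f (X 1)) hbb
    simp only [hχ] at h0 h1
    rw [Ideal.Quotient.eq] at h0 h1
    refine hdist b b' ?_ ?_
    · simpa [E_at] using h0
    · simpa [E_at] using h1
  have hli : LinearIndependent (MvPolynomial (κ ⊕ κ) k ⧸ J)
      (fun b : κ => (χ b : MvPolynomial (Fin 2) k → (MvPolynomial (κ ⊕ κ) k ⧸ J))) :=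
    (linearIndependent_monoidHom (MvPolynomial (Fin 2) k)
      (MvPolynomial (κ ⊕ κ) k ⧸ J)).comp χ hinj
  rw [Fintype.linearIndependent_iff] at hli
  intro F hF i
  rcases i with b | b
  · have h1 := hli (fun b => Ideal.Quotient.mk J (pderiv (Sum.inl b) F)) (by
      funext u
      have h2 := hst u 0 F hF
      rw [E_derivation_sum, ← Ideal.Quotient.eq_zero_iff_mem, map_sum, Fintype.sum_sum_type] at h2
      simp only [E_D, mkDerivation_X, Sum.elim_inl, Sum.elim_inr, map_zero, zero_mul,
        Finset.sum_const_zero, add_zero, map_mul] at h2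
      simp only [Finset.sum_apply, Pi.smul_apply, smul_eq_mul, Pi.zero_apply, hχ]
      rw [← h2]
      exact Finset.sum_congr rfl fun b _ => mul_comm _ _) b
    exact Ideal.Quotient.eq_zero_iff_mem.1 h1
  · have h1 := hli (fun b => Ideal.Quotient.mk J (pderiv (Sum.inr b) F)) (by
      funext u
      have h2 := hst 0 u F hF
      rw [E_derivation_sum, ← Ideal.Quotient.eq_zero_iff_mem, map_sum, Fintype.sum_sum_type] at h2
      simp only [E_D, mkDerivation_X, Sum.elim_inl, Sum.elim_inr, map_zero, zero_mul,
        Finset.sum_const_zero, zero_add, map_mul] at h2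
      simp only [Finset.sum_apply, Pi.smul_apply, smul_eq_mul, Pi.zero_apply, hχ]
      rw [← h2]
      exact Finset.sum_congr rfl fun b _ => mul_comm _ _) b
    exact Ideal.Quotient.eq_zero_iff_mem.1 h1

end points


section abs

variable {k A C ι : Type} [Field k] [CharZero k] [CommRing A] [CommRing C] [Algebra k A]
  [Algebra k C] [Algebra A C] [IsScalarTower k A C] [Algebra.IsIntegral A C]

theorem E_min_over {p : Ideal A} {Q : Ideal C} [Q.IsPrime]
    (hQ : Q.comap (algebraMap A C) = p) : Q ∈ (p.map (algebraMap A C)).minimalPrimes := by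
  refine ⟨⟨‹_›, Ideal.map_le_iff_le_comap.2 hQ.ge⟩, ?_⟩
  rintro Q' ⟨hQ', hpQ'⟩ hle
  by_contra hcon
  have hlt : Q' < Q := lt_of_le_not_ge hle hcon
  have h1 := Ideal.IsIntegral.comap_lt_comap (R := A) hlt
  rw [hQ] at h1
  exact absurd (Ideal.map_le_iff_le_comap.1 hpQ') (not_le_of_gt h1)

theorem E_map_stable {dA : Derivation k A A} {dC : Derivation k C C}
    (h : ∀ a, dC (algebraMap A C a) = algebraMap A C (dA a)) {p : Ideal A}
    (hp : ∀ a ∈ p, dA a ∈ p) : ∀ c ∈ p.map (algebraMap A C), dC c ∈ p.map (algebraMap A C) := by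
  intro c hc
  refine Submodule.span_induction ?_ ?_ ?_ ?_ hc
  · rintro _ ⟨a, ha, rfl⟩
    rw [h]
    exact Ideal.mem_map_of_mem _ (hp a ha)
  · rw [map_zero]; exact zero_mem _
  · intro a b _ _ ha hb
    rw [map_add]; exact add_mem ha hb
  · intro a b hb hb'
    rw [smul_eq_mul, dC.leibniz]
    exact add_mem (Ideal.mul_mem_left _ _ hb') (Ideal.mul_mem_right _ _ hb)

theorem E_abs (x y : ι → C)
    (H : ∀ u v : MvPolynomial (Fin 2) k, ∃ (dA : Derivation k A A) (dC : Derivation k C C),
      (∀ a, dC (algebraMap A C a) = algebraMap A C (dA a)) ∧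
      (∀ i, dC (x i) = aeval ![x i, y i] u) ∧ ∀ i, dC (y i) = aeval ![x i, y i] v)
    {p : Ideal A} (hp : p ∈ (freeIdeal A C).minimalPrimes) {Q : Ideal C} [hQp : Q.IsPrime]
    (hQ : Q.comap (algebraMap A C) = p) (κ : Type) [Fintype κ] (r : κ → ι)
    (hr : ∀ b b', x (r b) - x (r b') ∈ Q → y (r b) - y (r b') ∈ Q → b = b') :
    ((2 * Fintype.card κ : ℕ) : Cardinal) ≤ Algebra.trdeg k (A ⧸ p) := by
  classical
  set f : κ ⊕ κ → C := Sum.elim (fun b => x (r b)) (fun b => y (r b)) with hf
  set φ : MvPolynomial (κ ⊕ κ) k →ₐ[k] C := aeval f with hφ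
  have hJ : Q.comap φ = ⊥ := by
    refine E_J ?_ ?_
    · intro u v F hF
      obtain ⟨dA, dC, h1, h2, h3⟩ := H u v
      have hpst := E_min_stable dA (fun a ha => E_freeIdeal_stable h1 ha) hp
      have hQst := E_min_stable dC (E_map_stable h1 hpst) (E_min_over hQ)
      have hat : ∀ (b : κ) (w : MvPolynomial (Fin 2) k),
          φ (E_at b w) = aeval ![x (r b), y (r b)] w := by
        intro b w
        have : φ.comp (E_at b) = aeval ![x (r b), y (r b)] := by
          apply MvPolynomial.algHom_ext
          intro i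
          fin_cases i <;> simp [E_at, hφ, hf]
        exact congrArg (fun g => g w) this
      have hcomm : ∀ F, dC (φ F) = φ (E_D u v F) := by
        intro F
        induction F using MvPolynomial.induction_on with
        | C a =>
          rw [MvPolynomial.derivation_C, map_zero, ← MvPolynomial.algebraMap_eq, AlgHom.commutes,
            Derivation.map_algebraMap]
        | add F G hF hG => rw [map_add, map_add, hF, hG, map_add, map_add]
        | mul_X F i hF =>
          rw [map_mul, dC.leibniz, hF, Derivation.leibniz, map_add]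
          simp only [smul_eq_mul, map_mul]
          congr 2
          rcases i with b | b
          · rw [E_D, mkDerivation_X]
            simp only [Sum.elim_inl]
            rw [hat, ← h2 (r b)]
            simp [hφ, hf]
          · rw [E_D, mkDerivation_X]
            simp only [Sum.elim_inr]
            rw [hat, ← h3 (r b)]
            simp [hφ, hf]
      rw [Ideal.mem_comap] at hF ⊢
      rw [← hcomm]
      exact hQst _ hF
    · intro b b' hx hy
      rw [Ideal.mem_comap] at hx hy
      refine hr b b' ?_ ?_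
      · simpa [hφ, hf] using hx
      · simpa [hφ, hf] using hy
  have hai : AlgebraicIndependent k (fun c => Ideal.Quotient.mk Q (f c)) := by
    rw [algebraicIndependent_iff_injective_aeval]
    have h1 : (aeval fun c => Ideal.Quotient.mk Q (f c) : MvPolynomial (κ ⊕ κ) k →ₐ[k] C ⧸ Q) =
        (Ideal.Quotient.mkₐ k Q).comp φ := by
      apply MvPolynomial.algHom_ext
      intro i
      simp [hφ]
    rw [h1, injective_iff_map_eq_zero]
    intro F hF
    have h2 : F ∈ Q.comap φ := Ideal.mem_comap.2 (Ideal.Quotient.eq_zero_iff_mem.1 hF)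
    rw [hJ] at h2
    exact h2
  have h1 := hai.cardinalMk_le_trdeg
  have : Q.LiesOver p := ⟨hQ.symm⟩
  have hpp : p.IsPrime := hp.1.1
  have h2 : Algebra.trdeg k (A ⧸ p) = Algebra.trdeg k (C ⧸ Q) := by
    have h3 : Algebra.trdeg (A ⧸ p) (C ⧸ Q) = 0 := _root_.trdeg_eq_zero
    have h4 := _root_.trdeg_add_eq k (A ⧸ p) (A := C ⧸ Q)
    rw [h3, add_zero] at h4
    exact h4
  rw [h2]
  refine le_trans (le_of_eq ?_) h1
  rw [Cardinal.mk_fintype, Fintype.card_sum, two_mul]

end abs

end Pool.Agent.Lib.MP_463376_co
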