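import Pool.Agent.Lib.MP_463376_co.I3
import Pool.Agent.Lib.MP_463376_co.C3_Gen

/-! PART 5 (a),(b): heights and transcendence degrees (stream C3) -/

namespace Pool.Agent.Lib.MP_463376_co

open MvPolynomial

section

variable (k : Type) [Field k] [CharZero k] {ι : Type} [Fintype ι] [DecidableEq ι]
  (L : Type) [Field L] [Algebra k L] [Algebra (RR k ι) L]
  [IsScalarTower k (RR k ι) L] [IsFractionRing (RR k ι) L] (δ : Dia ι)

omit [CharZero k] [DecidableEq ι] in
private theorem c3_trdeg_L : Algebra.trdeg k L = ((2 * Fintype.card ι : ℕ) : Cardinal) := by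
  have h1 : FaithfulSMul (RR k ι) L :=
    (faithfulSMul_iff_algebraMap_injective _ _).2 (IsFractionRing.injective (RR k ι) L)
  have h2 : Algebra.IsAlgebraic (RR k ι) L := by
    constructor
    intro x
    obtain ⟨a, b, hb, rfl⟩ := IsFractionRing.div_surjective (A := RR k ι) x
    rw [div_eq_mul_inv]
    exact (isAlgebraic_algebraMap a).mul (isAlgebraic_algebraMap b).inv
  rw [← C3_alg k (RR k ι) L, MvPolynomial.trdeg_of_isDomain]
  simp [two_mul]

private theorem c3_int_aux (v : ι → RR k ι) (hv : ∀ (w : Equiv.Perm ι) i, permR w (v i) = v (w i))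
    (i : ι) : IsIntegral (OO k L δ) (toL k L (v i)) := by
  have hc : ∀ n, toL k L ((∏ j, (Polynomial.X - Polynomial.C (v j))).coeff n) ∈ OO k L δ := by
    intro n
    refine symmetric_mem k L δ _ fun w => ?_
    have h1 : (∏ j, (Polynomial.X - Polynomial.C (v j))).map ((permR w : RR k ι ≃ₐ[k] RR k ι).toAlgHom.toRingHom) =
        ∏ j, (Polynomial.X - Polynomial.C (v j)) := by
      rw [Polynomial.map_prod]
      simp only [Polynomial.map_sub, Polynomial.map_X, Polynomial.map_C]
      rw [← Equiv.prod_comp w (fun j => Polynomial.X - Polynomial.C (v j))]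
      refine Finset.prod_congr rfl fun j _ => ?_
      congr 2
      exact hv w j
    have h2 := congrArg (fun p => Polynomial.coeff p n) h1
    simp only [Polynomial.coeff_map] at h2
    exact h2
  have hl : (∏ j, (Polynomial.X - Polynomial.C (v j))).map ((toL k L : RR k ι →ₐ[k] L).toRingHom) ∈
      Polynomial.lifts (algebraMap (OO k L δ) L) := by
    rw [Polynomial.lifts_iff_coeff_lifts]
    intro n
    rw [Polynomial.coeff_map]
    exact ⟨⟨_, hc n⟩, rfl⟩
  have hm : ((∏ j, (Polynomial.X - Polynomial.C (v j))).map ((toL k L : RR k ι →ₐ[k] L).toRingHom)).Monic :=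
    (Polynomial.monic_prod_X_sub_C v Finset.univ).map _
  obtain ⟨q, hq, -, hqm⟩ := Polynomial.lifts_and_natDegree_eq_and_monic hl hm
  refine ⟨q, hqm, ?_⟩
  rw [← Polynomial.eval_map, hq, Polynomial.map_prod, Polynomial.eval_prod]
  refine Finset.prod_eq_zero (Finset.mem_univ i) ?_
  simp

private theorem c3_alg_OO : Algebra.IsAlgebraic (OO k L δ) L := by
  have hint : ∀ f : RR k ι, IsIntegral (OO k L δ) (toL k L f) := by
    intro f
    induction f using MvPolynomial.induction_on with
    | C a =>
      have : toL k L (C a : RR k ι) = algebraMap (OO k L δ) L (algebraMap k (OO k L δ) a) := by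
        rw [← IsScalarTower.algebraMap_apply]
        exact (toL k L).commutes a
      rw [this]
      exact isIntegral_algebraMap
    | add p q hp hq =>
      rw [map_add]
      exact hp.add hq
    | mul_X p j hp =>
      rw [map_mul]
      refine hp.mul ?_
      rcases j with j | j
      · exact c3_int_aux k L δ (fun i => xx i) (fun w i => by simp [permR, xx]) j
      · exact c3_int_aux k L δ (fun i => yy i) (fun w i => by simp [permR, yy]) j
  constructor
  intro x
  obtain ⟨a, b, hb, rfl⟩ := IsFractionRing.div_surjective (A := RR k ι) x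
  rw [div_eq_mul_inv]
  exact (hint a).isAlgebraic.mul (hint b).isAlgebraic.inv

private theorem c3_le : OO k L δ ≤ AA k L δ := fun _ hg => Algebra.subset_adjoin (Or.inl hg)

theorem height_add_trdeg (p : Ideal (AA k L δ)) [p.IsPrime] :
    p.height + (Algebra.trdeg k (AA k L δ ⧸ p)).toENat ≤ ((2 * Fintype.card ι : ℕ) : ℕ∞) := by
  refine C3_height_add ?_ p
  rw [← c3_trdeg_L k L]
  exact trdeg_le_of_injective (AA k L δ).val Subtype.val_injective

theorem trdeg_of_height_one (p : Ideal (AA k L δ)) [p.IsPrime] (hp : p.height = 1) :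
    Algebra.trdeg k (AA k L δ ⧸ p) + 1 = ((2 * Fintype.card ι : ℕ) : Cardinal) := by
  have hft : Algebra.FiniteType k (OO k L δ) := OO_finiteType k L δ
  have hnn : (nn k L δ).IsPrime := by
    obtain ⟨φ, hφ⟩ := residue k L δ
    rw [← hφ]
    exact RingHom.ker_isPrime _
  let alg : Algebra (OO k L δ) (AA k L δ) := (Subalgebra.inclusion (c3_le k L δ)).toAlgebra
  have tow : IsScalarTower k (OO k L δ) (AA k L δ) := IsScalarTower.of_algebraMap_eq fun x => rfl
  have hcoe : ∀ x : OO k L δ, ((algebraMap (OO k L δ) (AA k L δ) x : AA k L δ) : L) = x :=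
    fun x => rfl
  have hloc : IsLocalization (nn k L δ).primeCompl (AA k L δ) := by
    refine ⟨?_, ?_, ?_⟩
    · rintro ⟨b, hb⟩
      have hb' : b ∉ nn k L δ := hb
      have hb0 : (b : L) ≠ 0 := by
        intro h
        apply hb'
        have : b = 0 := Subtype.ext h
        rw [this]
        exact (nn k L δ).zero_mem
      have hinv : (b : L)⁻¹ ∈ AA k L δ :=
        Algebra.subset_adjoin (Or.inr ⟨b, hb', inv_mul_cancel₀ hb0⟩)
      refine IsUnit.of_mul_eq_one ⟨_, hinv⟩ ?_
      apply Subtype.ext
      show (b : L) * (b : L)⁻¹ = 1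
      exact mul_inv_cancel₀ hb0
    · intro g
      obtain ⟨a, b, hb, hab⟩ := (mem_AA_iff k L δ g).1 g.2
      exact ⟨(a, ⟨b, hb⟩), Subtype.ext hab⟩
    · intro x y hxy
      refine ⟨1, ?_⟩
      have : (x : L) = y := congrArg (fun z : AA k L δ => (z : L)) hxy
      rw [Subtype.ext this]
  have h1 : (p.under (OO k L δ)).height = 1 := by
    rw [IsLocalization.height_under (nn k L δ).primeCompl p, hp]
  have h2 := C3_ht1 (k := k) (p.under (OO k L δ)) h1
  rw [← C3_loc (k := k) (O := OO k L δ) (nn k L δ).primeCompl p, h2, ← c3_trdeg_L k L]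
  have h3 := c3_alg_OO k L δ
  have h4 : FaithfulSMul (OO k L δ) L :=
    (faithfulSMul_iff_algebraMap_injective _ _).2 Subtype.val_injective
  exact C3_alg k (OO k L δ) L

end

end Pool.Agent.Lib.MP_463376_co
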