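import Pool.Agent.Lib.MP_463376_co.E_Abs
import Pool.Agent.Lib.MP_463376_co.I5

/-! Stream E: the derivations of `L`, `O`, `A`, `P`, `C` -/

set_option linter.unusedSectionVars false

namespace Pool.Agent.Lib.MP_463376_co

open MvPolynomial TensorProduct

section general

variable {k R : Type} [CommRing k] [CommRing R] [Algebra k R]

theorem E_span_stable (D : Derivation k R R) {s : Set R} {I : Ideal R} (hs : Ideal.span s = I)
    (h : ∀ x ∈ s, D x ∈ I) : ∀ x ∈ I, D x ∈ I := by
  subst hs
  intro x hx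
  refine Submodule.span_induction h ?_ ?_ ?_ hx
  · rw [map_zero]; exact zero_mem _
  · intro a b _ _ ha hb
    rw [map_add]; exact add_mem ha hb
  · intro a b hb hb'
    rw [smul_eq_mul, D.leibniz]
    exact add_mem (Ideal.mul_mem_left _ _ hb') (Ideal.mul_mem_right _ _ hb)

theorem E_mul_stable (D : Derivation k R R) {I J : Ideal R} (hI : ∀ x ∈ I, D x ∈ I)
    (hJ : ∀ x ∈ J, D x ∈ J) : ∀ x ∈ I * J, D x ∈ I * J := by
  intro x hx
  refine Submodule.mul_induction_on hx ?_ ?_
  · intro a ha b hb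
    rw [D.leibniz, smul_eq_mul, smul_eq_mul]
    have h1 := Ideal.mul_mem_mul (hI a ha) hb
    rw [mul_comm (D a) b] at h1
    exact add_mem (Ideal.mul_mem_mul ha (hJ b hb)) h1
  · intro a b ha hb
    rw [map_add]; exact add_mem ha hb

theorem E_pow_stable (D : Derivation k R R) {I : Ideal R} (hI : ∀ x ∈ I, D x ∈ I) (d : ℕ) :
    ∀ x ∈ I ^ d, D x ∈ I ^ d := by
  induction d with
  | zero => intro x _; rw [pow_zero, Ideal.one_eq_top]; trivial
  | succ d ih => rw [pow_succ]; exact E_mul_stable D ih hI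

theorem E_adjoin_stable (D : Derivation k R R) {s : Set R}
    (h : ∀ x ∈ s, D x ∈ Algebra.adjoin k s) :
    ∀ x ∈ Algebra.adjoin k s, D x ∈ Algebra.adjoin k s := by
  intro x hx
  induction hx using Algebra.adjoin_induction with
  | mem x hx => exact h x hx
  | algebraMap r => rw [D.map_algebraMap]; exact zero_mem _
  | add x y _ _ hx hy => rw [map_add]; exact add_mem hx hy
  | mul x y hx' hy' hx hy =>
    rw [D.leibniz, smul_eq_mul, smul_eq_mul]
    exact add_mem (mul_mem hx' hy) (mul_mem hy' hx)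

/-- restriction of a derivation to a stable subalgebra -/
noncomputable def E_res (D : Derivation k R R) (S : Subalgebra k R) (h : ∀ x ∈ S, D x ∈ S) :
    Derivation k S S :=
  Derivation.mk'
    { toFun := fun s => ⟨D s, h s s.2⟩
      map_add' := fun s t => Subtype.ext (by simp)
      map_smul' := fun c s => Subtype.ext (by simp) }
    (fun s t => Subtype.ext (by simp [D.leibniz]))

theorem E_res_coe (D : Derivation k R R) (S : Subalgebra k R) (h : ∀ x ∈ S, D x ∈ S) (s : S) :
    (E_res D S h s : R) = D s := rfl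

end general

section lift

variable {k R : Type} [Field k] [CommRing R] [Algebra k R] (L : Type) [Field L] [Algebra k L]
  [Algebra R L] [IsScalarTower k R L] [IsFractionRing R L]

/-- extension of a derivation to the fraction field -/
theorem E_exists_lift [IsDomain R] (D : Derivation k R R) :
    ∃ D' : Derivation k L L, ∀ f : R, D' (algebraMap R L f) = algebraMap R L (D f) := by
  have : Algebra.FormallyEtale R L := Algebra.FormallyEtale.of_isLocalization (nonZeroDivisors R)
  let e := KaehlerDifferential.tensorKaehlerEquivOfFormallyEtale k R L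
  let f : Ω[R⁄k] →ₗ[R] L := (Algebra.linearMap R L) ∘ₗ D.liftKaehlerDifferential
  let g : Ω[L⁄k] →ₗ[L] L := (LinearMap.liftBaseChange L f) ∘ₗ e.symm.toLinearMap
  refine ⟨g.compDer (KaehlerDifferential.D k L), fun a => ?_⟩
  show g (KaehlerDifferential.D k L (algebraMap R L a)) = _
  simp only [g, LinearMap.comp_apply, LinearEquiv.coe_coe, e]
  rw [KaehlerDifferential.tensorKaehlerEquivOfFormallyEtale_symm_D_algebraMap]
  simp [f]

end lift


section R

variable {k : Type} [Field k] [CharZero k] {ι : Type}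

/-- the derivation of `k[x,y]` given by the vector field `(u, v)` on the plane -/
noncomputable def E_DR (ι : Type) (u v : MvPolynomial (Fin 2) k) :
    Derivation k (RR k ι) (RR k ι) :=
  mkDerivation k (Sum.elim (fun i => aeval ![xx i, yy i] u) (fun i => aeval ![xx i, yy i] v))

theorem E_DR_xx (u v : MvPolynomial (Fin 2) k) (i : ι) :
    E_DR ι u v (xx i) = aeval ![xx i, yy i] u := by
  rw [E_DR, xx, mkDerivation_X]; rfl

theorem E_DR_yy (u v : MvPolynomial (Fin 2) k) (i : ι) :
    E_DR ι u v (yy i) = aeval ![xx i, yy i] v := by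
  rw [E_DR, yy, mkDerivation_X]; rfl

theorem E_aeval_sub (u : MvPolynomial (Fin 2) k) (i j : ι) :
    (aeval ![xx i, yy i] u : RR k ι) - aeval ![xx j, yy j] u ∈ pI (k := k) i j := by
  rw [← Ideal.Quotient.eq]
  have hx : Ideal.Quotient.mk (pI (k := k) i j) (xx i) = Ideal.Quotient.mk _ (xx j) := by
    rw [Ideal.Quotient.eq]
    exact Ideal.subset_span (by simp)
  have hy : Ideal.Quotient.mk (pI (k := k) i j) (yy i) = Ideal.Quotient.mk _ (yy j) := by
    rw [Ideal.Quotient.eq]
    exact Ideal.subset_span (by simp)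
  have h : (Ideal.Quotient.mkₐ k (pI (k := k) i j)).comp (aeval ![xx i, yy i]) =
      (Ideal.Quotient.mkₐ k (pI (k := k) i j)).comp (aeval ![xx j, yy j]) := by
    apply MvPolynomial.algHom_ext
    intro l
    fin_cases l
    · simpa using hx
    · simpa using hy
  exact congrArg (fun g => g u) h

theorem E_pI_stable (u v : MvPolynomial (Fin 2) k) (i j : ι) :
    ∀ f ∈ pI (k := k) i j, E_DR ι u v f ∈ pI (k := k) i j := by
  refine E_span_stable (E_DR ι u v) (I := pI (k := k) i j) rfl ?_
  intro f hf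
  rcases hf with rfl | hf
  · rw [map_sub, E_DR_xx, E_DR_xx]
    exact E_aeval_sub u i j
  · rw [Set.mem_singleton_iff] at hf
    subst hf
    rw [map_sub, E_DR_yy, E_DR_yy]
    exact E_aeval_sub v i j

theorem E_mem_Jd {d : ℕ} {f : RR k ι} : f ∈ Jd k ι d ↔ ∀ i j, i ≠ j → f ∈ (pI i j) ^ d := by
  simp [Jd]

theorem E_Jd_stable (u v : MvPolynomial (Fin 2) k) (d : ℕ) :
    ∀ f ∈ Jd k ι d, E_DR ι u v f ∈ Jd k ι d := by
  intro f hf
  rw [E_mem_Jd] at hf ⊢
  intro i j hij
  exact E_pow_stable _ (E_pI_stable u v i j) d f (hf i j hij)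

theorem E_Jd_mul {d : ℕ} {f g : RR k ι} (hf : f ∈ Jd k ι 1) (hg : g ∈ Jd k ι d) :
    f * g ∈ Jd k ι (d + 1) := by
  rw [E_mem_Jd] at hf hg ⊢
  intro i j hij
  have h1 := Ideal.mul_mem_mul (hf i j hij) (hg i j hij)
  rwa [← pow_add, add_comm] at h1

theorem E_perm_comm (u v : MvPolynomial (Fin 2) k) (w : Equiv.Perm ι) (f : RR k ι) :
    permR w (E_DR ι u v f) = E_DR ι u v (permR w f) := by
  have hx : ∀ i, permR w (xx i : RR k ι) = xx (w i) := fun i => by simp [permR, xx]
  have hy : ∀ i, permR w (yy i : RR k ι) = yy (w i) := fun i => by simp [permR, yy]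
  have hu : ∀ (u : MvPolynomial (Fin 2) k) (i : ι), permR w (aeval ![xx i, yy i] u : RR k ι) =
      aeval ![xx (w i), yy (w i)] u := by
    intro u i
    have h : ((permR w : RR k ι ≃ₐ[k] RR k ι) : RR k ι →ₐ[k] RR k ι).comp
        (aeval ![xx i, yy i]) = aeval ![xx (w i), yy (w i)] := by
      apply MvPolynomial.algHom_ext
      intro l
      fin_cases l
      · simpa using hx i
      · simpa using hy i
    exact congrArg (fun g => g u) h
  induction f using MvPolynomial.induction_on with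
  | C a =>
    rw [MvPolynomial.derivation_C, map_zero, ← MvPolynomial.algebraMap_eq, AlgEquiv.commutes,
      Derivation.map_algebraMap]
  | add f g hf hg => rw [map_add, map_add, hf, hg, map_add, map_add]
  | mul_X f i hf =>
    have e1 : permR w (f * X i) = permR w f * permR w (X i) := map_mul (permR w) _ _
    rw [e1, Derivation.leibniz, Derivation.leibniz, map_add]
    simp only [smul_eq_mul]
    rw [map_mul (permR w), map_mul (permR w), hf]
    congr 2
    rcases i with i | i
    · change permR w (E_DR ι u v (xx i)) = E_DR ι u v (permR w (xx i))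
      rw [E_DR_xx, hx, E_DR_xx, hu]
    · change permR w (E_DR ι u v (yy i)) = E_DR ι u v (permR w (yy i))
      rw [E_DR_yy, hy, E_DR_yy, hu]

variable [Fintype ι] [DecidableEq ι]

theorem E_alt_perm (D : ι → ℕ × ℕ) (w : Equiv.Perm ι) :
    permR w (alt k D) = ((Equiv.Perm.sign w : ℤˣ) : ℤ) • alt k D := by
  have hx : ∀ i, permR w (xx i : RR k ι) = xx (w i) := fun i => by simp [permR, xx]
  have hy : ∀ i, permR w (yy i : RR k ι) = yy (w i) := fun i => by simp [permR, yy]
  have h1 : permR w (alt k D) = Matrix.det ((Matrix.of fun i j : ι =>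
      (xx i ^ (D j).1 * yy i ^ (D j).2 : RR k ι)).submatrix w id) := by
    rw [alt, AlgEquiv.map_det]
    congr 1
    ext1 i j
    simp [hx, hy]
  rw [h1, Matrix.det_permute, alt]
  simp

theorem E_D_alt_perm (u v : MvPolynomial (Fin 2) k) (D : ι → ℕ × ℕ) (w : Equiv.Perm ι) :
    permR w (E_DR ι u v (alt k D)) =
      ((Equiv.Perm.sign w : ℤˣ) : ℤ) • E_DR ι u v (alt k D) := by
  rw [E_perm_comm, E_alt_perm, map_zsmul]

theorem E_alt_mem (D : ι → ℕ × ℕ) : alt k D ∈ Jd k ι 1 := by
  rw [E_mem_Jd]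
  intro i j hij
  rw [pow_one, ← Ideal.Quotient.eq_zero_iff_mem, alt, RingHom.map_det]
  refine Matrix.det_zero_of_row_eq hij ?_
  have hx : Ideal.Quotient.mk (pI (k := k) i j) (xx i) = Ideal.Quotient.mk _ (xx j) := by
    rw [Ideal.Quotient.eq]
    exact Ideal.subset_span (by simp)
  have hy : Ideal.Quotient.mk (pI (k := k) i j) (yy i) = Ideal.Quotient.mk _ (yy j) := by
    rw [Ideal.Quotient.eq]
    exact Ideal.subset_span (by simp)
  funext l
  simp [hx, hy]

end R


section L

variable (k : Type) [Field k] [CharZero k] {ι : Type} [Fintype ι] [DecidableEq ι]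
  (L : Type) [Field L] [Algebra k L] [Algebra (RR k ι) L]
  [IsScalarTower k (RR k ι) L] [IsFractionRing (RR k ι) L] (δ : Dia ι)

theorem E_toL_inj : Function.Injective (toL k L : RR k ι →ₐ[k] L) :=
  IsFractionRing.injective (RR k ι) L

theorem E_dl_ne : toL k L (dl k δ) ≠ 0 := by
  intro h
  exact dl_ne_zero k δ (E_toL_inj k L (by rw [h, map_zero]))

variable {k L}
variable {u v : MvPolynomial (Fin 2) k} {D : Derivation k L L}
  (hD : ∀ f : RR k ι, D (toL k L f) = toL k L (E_DR ι u v f))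

include hD

theorem E_OO_stable : ∀ g ∈ OO k L δ, D g ∈ OO k L δ := by
  refine E_adjoin_stable D ?_
  rintro g ⟨E, hg⟩
  obtain ⟨u₁, h1⟩ := alternating_div_mem k L δ (E_DR ι u v (alt k E))
    (fun w => E_D_alt_perm u v E w)
  obtain ⟨u₂, h2⟩ := alternating_div_mem k L δ (E_DR ι u v (dl k δ))
    (fun w => E_D_alt_perm u v δ.c w)
  have h3 := congrArg D hg
  rw [D.leibniz, hD, hD, smul_eq_mul, smul_eq_mul, ← h1, ← h2] at h3
  have h4 : D g = u₁ - g * u₂ := by
    apply mul_right_cancel₀ (E_dl_ne k L δ)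
    linear_combination h3
  rw [h4]
  have hgO : g ∈ Algebra.adjoin k {g | ∃ D : ι → ℕ × ℕ,
      g * toL k L (dl k δ) = toL k L (alt k D)} := Algebra.subset_adjoin ⟨E, hg⟩
  exact sub_mem u₁.2 (mul_mem hgO u₂.2)

theorem E_AA_stable : ∀ g ∈ AA k L δ, D g ∈ AA k L δ := by
  refine E_adjoin_stable D ?_
  rintro g (hg | ⟨b, hb, hgb⟩)
  · exact Algebra.subset_adjoin (Or.inl (E_OO_stable δ hD g hg))
  · have h1 := congrArg D hgb
    rw [D.leibniz, D.map_one_eq_zero, smul_eq_mul, smul_eq_mul] at h1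
    have hb0 : (b : L) ≠ 0 := right_ne_zero_of_mul_eq_one hgb
    have h2 : D g = - (g * g * D b) := by
      have : g * ((b : L) * D g) = D g := by rw [← mul_assoc, hgb, one_mul]
      linear_combination g * h1 - this
    rw [h2]
    have hgA : g ∈ Algebra.adjoin k ((OO k L δ : Set L) ∪ {g | ∃ b : OO k L δ,
      b ∉ nn k L δ ∧ g * b = 1}) := Algebra.subset_adjoin (Or.inr ⟨b, hb, hgb⟩)
    have hDb : D b ∈ Algebra.adjoin k ((OO k L δ : Set L) ∪ {g | ∃ b : OO k L δ,
      b ∉ nn k L δ ∧ g * b = 1}) :=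
      Algebra.subset_adjoin (Or.inl (E_OO_stable δ hD b b.2))
    exact neg_mem (mul_mem (mul_mem hgA hgA) hDb)

theorem E_PP_stable : ∀ g ∈ PP k L δ, D g ∈ PP k L δ := by
  refine E_adjoin_stable D ?_
  rintro g ⟨d, f, hf, hg⟩
  refine Algebra.subset_adjoin ⟨d + 1, dl k δ * E_DR ι u v f - (d : RR k ι) *
    (E_DR ι u v (dl k δ) * f), ?_, ?_⟩
  · have h1 : dl k δ ∈ Jd k ι 1 := E_alt_mem δ.c
    refine sub_mem (E_Jd_mul h1 (E_Jd_stable u v d f hf)) ?_
    exact Ideal.mul_mem_left _ _ (E_Jd_mul (E_Jd_stable u v 1 _ h1) hf)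
  · have h3 := congrArg D hg
    rw [D.leibniz, D.leibniz_pow, hD, hD] at h3
    simp only [smul_eq_mul, nsmul_eq_mul] at h3
    rw [map_sub, map_mul, map_mul, map_mul, map_natCast, ← hg]
    rcases Nat.eq_zero_or_pos d with rfl | hd
    · simp at h3 ⊢
      rw [h3]; ring
    · obtain ⟨e, rfl⟩ := Nat.exists_eq_add_of_lt hd
      simp only [Nat.zero_add, Nat.add_sub_cancel] at h3 ⊢
      rw [← h3]
      push_cast
      ring

theorem E_CC_stable : ∀ g ∈ CC k L δ, D g ∈ CC k L δ := by
  have h : CC k L δ = Algebra.adjoin k ((AA k L δ : Set L) ∪ (PP k L δ : Set L)) := by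
    rw [CC, Algebra.sup_def]
  rw [h]
  refine E_adjoin_stable D ?_
  rintro g (hg | hg)
  · exact Algebra.subset_adjoin (Or.inl (E_AA_stable δ hD g hg))
  · exact Algebra.subset_adjoin (Or.inr (E_PP_stable δ hD g hg))

end L

section final

variable (k : Type) [Field k] [CharZero k] {ι : Type} [Fintype ι] [DecidableEq ι]
  (L : Type) [Field L] [Algebra k L] [Algebra (RR k ι) L]
  [IsScalarTower k (RR k ι) L] [IsFractionRing (RR k ι) L] (δ : Dia ι)

theorem E_coe_toC (f : RR k ι) : (toC k L δ f : L) = toL k L f :=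
  (Subalgebra.coe_inclusion (le_sup_right : PP k L δ ≤ AA k L δ ⊔ PP k L δ)
    (toP k L δ f)).trans (AlgHom.coe_codRestrict (toL k L) (PP k L δ) (toL_mem_PP k L δ) f)

theorem E_tower : IsScalarTower k (AA k L δ) (CC k L δ) := by
  refine IsScalarTower.of_algebraMap_eq fun c => ?_
  apply Subtype.ext
  rw [coe_algebraMap_AACC, Subalgebra.coe_algebraMap, Subalgebra.coe_algebraMap]

theorem E_H (u v : MvPolynomial (Fin 2) k) :
    ∃ (dA : Derivation k (AA k L δ) (AA k L δ)) (dC : Derivation k (CC k L δ) (CC k L δ)),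
      (∀ a, dC (algebraMap (AA k L δ) (CC k L δ) a) =
        algebraMap (AA k L δ) (CC k L δ) (dA a)) ∧
      (∀ i, dC (toC k L δ (xx i)) = aeval ![toC k L δ (xx i), toC k L δ (yy i)] u) ∧
      ∀ i, dC (toC k L δ (yy i)) = aeval ![toC k L δ (xx i), toC k L δ (yy i)] v := by
  obtain ⟨D, hD⟩ := E_exists_lift L (E_DR (k := k) ι u v)
  have hD' : ∀ f : RR k ι, D (toL k L f) = toL k L (E_DR ι u v f) := hD
  have hC : ∀ f : RR k ι, E_res D (CC k L δ) (E_CC_stable δ hD') (toC k L δ f) =
      toC k L δ (E_DR ι u v f) := by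
    intro f
    apply Subtype.ext
    rw [E_res_coe, E_coe_toC, E_coe_toC, hD']
  have hu : ∀ (u : MvPolynomial (Fin 2) k) (i : ι), toC k L δ (aeval ![xx i, yy i] u) =
      aeval ![toC k L δ (xx i), toC k L δ (yy i)] u := by
    intro u i
    have h : (toC k L δ).comp (aeval ![xx i, yy i]) =
        aeval ![toC k L δ (xx i), toC k L δ (yy i)] := by
      apply MvPolynomial.algHom_ext
      intro l
      fin_cases l <;> simp
    exact congrArg (fun g => g u) h
  refine ⟨E_res D (AA k L δ) (E_AA_stable δ hD'), E_res D (CC k L δ) (E_CC_stable δ hD'),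
    ?_, ?_, ?_⟩
  · intro a
    apply Subtype.ext
    rw [E_res_coe, coe_algebraMap_AACC, coe_algebraMap_AACC, E_res_coe]
  · intro i
    rw [hC, E_DR_xx, hu]
  · intro i
    rw [hC, E_DR_yy, hu]

theorem E_trdeg (hfin : Module.Finite (AA k L δ) (CC k L δ))
    (p : Ideal (AA k L δ)) (hp : p ∈ (freeIdeal (AA k L δ) (CC k L δ)).minimalPrimes)
    (Q : Ideal (CC k L δ)) [Q.IsPrime] (hQ : Q.comap (algebraMap (AA k L δ) (CC k L δ)) = p) :
    ((2 * ncl k L δ Q : ℕ) : Cardinal) ≤ Algebra.trdeg k (AA k L δ ⧸ p) := by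
  classical
  have := E_tower k L δ
  have hint : Algebra.IsIntegral (AA k L δ) (CC k L δ) := Algebra.IsIntegral.of_finite _ _
  have : Finite (Quotient (clusR (Q.comap (toC k L δ)))) := Quotient.finite _
  let _ : Fintype (Quotient (clusR (Q.comap (toC k L δ)))) := Fintype.ofFinite _
  rw [ncl, Nat.card_eq_fintype_card]
  refine E_abs (fun i => toC k L δ (xx i)) (fun i => toC k L δ (yy i)) (E_H k L δ) hp hQ
    (Quotient (clusR (Q.comap (toC k L δ)))) Quotient.out ?_
  intro b b' h1 h2
  rw [← Quotient.out_eq b, ← Quotient.out_eq b']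
  apply Quotient.sound
  constructor
  · rw [Ideal.mem_comap, map_sub]; exact h1
  · rw [Ideal.mem_comap, map_sub]; exact h2

end final

end Pool.Agent.Lib.MP_463376_co
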