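import Pool.Agent.Lib.MP_463376_co.I3

/-! Stream F: basic facts on the permutation action, Vandermonde determinants and Cramer's rule. -/

namespace Pool.Agent.Lib.MP_463376_co

open MvPolynomial

section

variable {k : Type} [Field k] {ι : Type}

theorem permR_xx (w : Equiv.Perm ι) (i : ι) : permR (k := k) w (xx i) = xx (w i) := by
  simp [permR, xx]

theorem permR_yy (w : Equiv.Perm ι) (i : ι) : permR (k := k) w (yy i) = yy (w i) := by
  simp [permR, yy]

theorem permR_C (w : Equiv.Perm ι) (a : k) : permR (k := k) w (C a) = C a := by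
  simp [permR]

theorem permR_lf (w : Equiv.Perm ι) (a b : k) (i : ι) : permR w (lf a b i) = lf a b (w i) := by
  simp only [lf, map_add, map_mul, permR_xx, permR_yy, permR_C]

variable [Fintype ι] [DecidableEq ι]

/-- a determinant of equivariant columns is alternating -/
theorem permR_det (w : Equiv.Perm ι) (M : ι → ι → RR k ι)
    (h : ∀ i j, permR w (M i j) = M (w i) j) :
    permR w (Matrix.det (Matrix.of M)) =
      ((Equiv.Perm.sign w : ℤˣ) : ℤ) • Matrix.det (Matrix.of M) := by
  have h1 : permR w (Matrix.det (Matrix.of M)) =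
      Matrix.det ((Matrix.of M).submatrix w id) := by
    have := AlgHom.map_det ((permR w : RR k ι ≃ₐ[k] RR k ι) : RR k ι →ₐ[k] RR k ι) (Matrix.of M)
    have h2 : permR w (Matrix.det (Matrix.of M)) =
      ((permR w : RR k ι ≃ₐ[k] RR k ι) : RR k ι →ₐ[k] RR k ι) (Matrix.det (Matrix.of M)) := rfl
    rw [h2, this]
    congr 1
    ext1 i j
    exact h i j
  rw [h1, Matrix.det_permute]
  simp [zsmul_eq_mul]

theorem permR_dl (δ : Dia ι) (w : Equiv.Perm ι) :
    permR w (dl k δ) = ((Equiv.Perm.sign w : ℤˣ) : ℤ) • dl k δ := by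
  apply permR_det
  intro i j
  simp [permR_xx, permR_yy]

theorem permR_vdl (a b : k) (w : Equiv.Perm ι) :
    permR w (vdl ι a b) = ((Equiv.Perm.sign w : ℤˣ) : ℤ) • vdl ι a b := by
  apply permR_det
  intro i j
  simp [permR_lf]

theorem vdl_eq (a b : k) : vdl ι a b = ∏ i : ι, ∏ j : ι,
    if Fintype.equivFin ι i < Fintype.equivFin ι j then lf a b j - lf a b i else 1 := by
  have h1 : vdl ι a b = Matrix.det ((Matrix.vandermonde
      (fun i : Fin (Fintype.card ι) => lf a b ((Fintype.equivFin ι).symm i))).submatrix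
      (Fintype.equivFin ι) (Fintype.equivFin ι)) := by
    unfold vdl
    congr 1
    ext1 i j
    simp [Matrix.vandermonde]
  rw [h1, Matrix.det_submatrix_equiv_self, Matrix.det_vandermonde,
    ← Equiv.prod_comp (Fintype.equivFin ι)]
  apply Finset.prod_congr rfl
  intro i _
  rw [← Finset.prod_filter]
  refine Finset.prod_equiv (Fintype.equivFin ι).symm ?_ ?_
  · intro j
    simp
  · intro j _
    simp

end

section

variable {k : Type} [Field k] {ι : Type} {L : Type} [Field L] [Algebra k L]
  [Algebra (RR k ι) L] [IsScalarTower k (RR k ι) L] [IsFractionRing (RR k ι) L]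

theorem toL_injective : Function.Injective (toL (ι := ι) k L) :=
  IsFractionRing.injective (RR k ι) L

theorem toL_ne_zero {f : RR k ι} (hf : f ≠ 0) : toL k L f ≠ 0 := by
  intro h
  apply hf
  apply toL_injective (k := k) (L := L)
  rw [h, map_zero]

/-- every element of `L` is a fraction -/
theorem exists_frac (g : L) : ∃ f h : RR k ι, h ≠ 0 ∧ g * toL k L h = toL k L f := by
  obtain ⟨⟨f, h⟩, hh⟩ := IsLocalization.surj (nonZeroDivisors (RR k ι)) g
  exact ⟨f, h, nonZeroDivisors.ne_zero h.2, hh⟩

theorem permL_one (g : L) : permL (k := k) (ι := ι) 1 g = g := by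
  obtain ⟨f, h, h0, hg⟩ := exists_frac (k := k) (ι := ι) g
  have h1 := congrArg (permL (k := k) (ι := ι) (L := L) 1) hg
  rw [map_mul, permL_toL, permL_toL] at h1
  have h2 : ∀ p : RR k ι, permR (1 : Equiv.Perm ι) p = p := by
    intro p
    simp [permR]
  rw [h2, h2, ← hg] at h1
  exact mul_right_cancel₀ (toL_ne_zero h0) h1

theorem permL_mul (w w' : Equiv.Perm ι) (g : L) :
    permL (k := k) (w * w') g = permL (k := k) w (permL (k := k) w' g) := by
  obtain ⟨f, h, h0, hg⟩ := exists_frac (k := k) (ι := ι) g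
  have h1 := congrArg (permL (k := k) (L := L) (w * w')) hg
  have h2 := congrArg (fun z => permL (k := k) (L := L) w (permL (k := k) (L := L) w' z)) hg
  simp only [map_mul, permL_toL] at h1 h2
  have h3 : ∀ p : RR k ι, permR (w * w') p = permR w (permR w' p) := by
    intro p
    simp only [permR, renameEquiv_apply, rename_rename]
    congr 2
    ext x
    cases x <;> simp
  rw [h3, h3] at h1
  rw [← h2] at h1
  refine mul_right_cancel₀ (toL_ne_zero ?_) h1
  intro h4
  apply h0
  have h5 := (permR (k := k) w).injective (h4.trans (map_zero _).symm)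
  exact (permR (k := k) w').injective (h5.trans (map_zero _).symm)

end

section

variable (k : Type) [Field k] [CharZero k] {ι : Type} [Fintype ι] [DecidableEq ι]
  (L : Type) [Field L] [Algebra k L] [Algebra (RR k ι) L]
  [IsScalarTower k (RR k ι) L] [IsFractionRing (RR k ι) L] (δ : Dia ι)

theorem toL_dl_ne_zero : toL k L (dl k δ) ≠ 0 := toL_ne_zero (dl_ne_zero k δ)

theorem permL_dl (w : Equiv.Perm ι) :
    permL (k := k) w (toL k L (dl k δ)) = ((Equiv.Perm.sign w : ℤˣ) : ℤ) • toL k L (dl k δ) := by
  rw [permL_toL, permR_dl, map_zsmul]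

/-- `u_l = V(l) / Δ` -/
theorem exists_uu (a b : k) : ∃ u : OO k L δ, (u : L) * toL k L (dl k δ) = toL k L (vdl ι a b) :=
  alternating_div_mem k L δ _ fun w => permR_vdl a b w

/-- Cramer's rule: an equivariant family is a combination of powers of `l_i` -/
theorem exists_cramer (a b : k) (h : ι → RR k ι) (hh : ∀ w i, permR w (h i) = h (w i)) :
    ∃ c : ι → OO k L δ, ∀ i, toL k L (vdl ι a b) * toL k L (h i) =
      toL k L (dl k δ) * ∑ r : ι, (c r : L) *
        toL k L (lf a b i) ^ ((Fintype.equivFin ι r : Fin (Fintype.card ι)) : ℕ) := by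
  have h1 : ∀ r : ι, ∃ c : OO k L δ, (c : L) * toL k L (dl k δ) =
      toL k L (Matrix.cramer (Matrix.of fun i j : ι =>
        lf a b i ^ ((Fintype.equivFin ι j : Fin (Fintype.card ι)) : ℕ)) h r) := by
    intro r
    apply alternating_div_mem
    intro w
    rw [Matrix.cramer_apply]
    have h2 : (Matrix.of fun i j : ι =>
        lf a b i ^ ((Fintype.equivFin ι j : Fin (Fintype.card ι)) : ℕ)).updateCol r h =
        Matrix.of fun i j : ι => if j = r then h i else
          lf a b i ^ ((Fintype.equivFin ι j : Fin (Fintype.card ι)) : ℕ) := by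
      ext1 i j
      simp [Matrix.updateCol_apply]
    rw [h2]
    apply permR_det
    intro i j
    split_ifs
    · exact hh w i
    · rw [map_pow, permR_lf]
  choose c hc using h1
  refine ⟨c, fun i => ?_⟩
  have h3 := congrFun (Matrix.mulVec_cramer (Matrix.of fun i j : ι =>
        lf a b i ^ ((Fintype.equivFin ι j : Fin (Fintype.card ι)) : ℕ)) h) i
  have h4 := congrArg (toL k L) h3
  simp only [Matrix.mulVec, dotProduct, Matrix.of_apply, map_sum, map_mul, map_pow,
    Pi.smul_apply, smul_eq_mul] at h4
  unfold vdl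
  rw [← h4, Finset.mul_sum]
  apply Finset.sum_congr rfl
  intro r _
  rw [← hc r]
  ring

end

end Pool.Agent.Lib.MP_463376_co
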