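import Pool.Agent.Lib.MP_463376_co.F_Mem

/-! Stream F, JOB F8: `C` is self-dual over `A`. -/

namespace Pool.Agent.Lib.MP_463376_co

open MvPolynomial

section

variable (k : Type) [Field k] [CharZero k] {ι : Type} [Fintype ι] [DecidableEq ι]
  (L : Type) [Field L] [Algebra k L] [Algebra (RR k ι) L]
  [IsScalarTower k (RR k ι) L] [IsFractionRing (RR k ι) L] (δ : Dia ι)

private theorem F_Dual_coe_smul (a : AA k L δ) (c : CC k L δ) :
    ((a • c : CC k L δ) : L) = (a : L) * (c : L) := by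
  rw [Algebra.smul_def]
  change ((algebraMap (AA k L δ) (CC k L δ) a : CC k L δ) : L) * (c : L) = _
  rw [coe_algebraMap_AACC]

private theorem F_Dual_exists_u (a b : k) :
    ∃ u : AA k L δ, (u : L) * toL k L (dl k δ) = toL k L (vdl ι a b) := by
  obtain ⟨u, hu⟩ := exists_uu k L δ a b
  exact ⟨⟨(u : L), Algebra.subset_adjoin (Or.inl u.2)⟩, hu⟩

private theorem F_Dual_vdl_ne : vdl ι (1 : k) 0 ≠ 0 := by
  rw [vdl_eq]
  refine Finset.prod_ne_zero_iff.mpr fun i _ => Finset.prod_ne_zero_iff.mpr fun j _ => ?_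
  by_cases h : Fintype.equivFin ι i < Fintype.equivFin ι j
  · rw [if_pos h]
    have hij : i ≠ j := by
      rintro rfl
      exact lt_irrefl _ h
    intro h0
    have h1 : (X (Sum.inl j) : RR k ι) = X (Sum.inl i) := by
      have h2 := sub_eq_zero.mp h0
      simpa [lf, xx, yy] using h2
    have h3 := X_injective h1
    exact hij (Sum.inl_injective h3).symm
  · rw [if_neg h]
    exact one_ne_zero

private theorem F_Dual_exists_u0 :
    ∃ u : AA k L δ, u ≠ 0 ∧ (u : L) * toL k L (dl k δ) = toL k L (vdl ι (1 : k) 0) := by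
  obtain ⟨u, hu⟩ := F_Dual_exists_u k L δ 1 0
  refine ⟨u, ?_, hu⟩
  rintro rfl
  have h1 : toL k L (vdl ι (1 : k) 0) = 0 := by
    rw [← hu]
    simp
  exact toL_ne_zero (F_Dual_vdl_ne k) h1

/-- nondegeneracy of the trace form -/
private theorem F_Dual_inj (T : CC k L δ →ₗ[AA k L δ] AA k L δ)
    (hT : ∀ c : CC k L δ, (T c : L) * toL k L (dl k δ) = Alt k ι (c : L))
    (g : CC k L δ) (hg : ∀ f : CC k L δ, T (f * g) = 0) : g = 0 := by
  obtain ⟨u, hu0, hu⟩ := F_Dual_exists_u0 k L δ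
  obtain ⟨N, β, γ, _, h⟩ := trace_formula_CC k L δ T hT 1 0 u hu
  have h1 := h g
  have h2 : u • g = 0 := by
    rw [h1]
    apply Finset.sum_eq_zero
    intro n _
    rw [hg, zero_smul]
  have h3 : (u : L) * (g : L) = 0 := by
    rw [← F_Dual_coe_smul, h2]
    rfl
  rcases mul_eq_zero.mp h3 with h4 | h4
  · exact absurd (Subtype.ext h4) hu0
  · exact Subtype.ext h4

/-- representation of functionals up to `u_l` -/
private theorem F_Dual_rep (T : CC k L δ →ₗ[AA k L δ] AA k L δ)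
    (hT : ∀ c : CC k L δ, (T c : L) * toL k L (dl k δ) = Alt k ι (c : L))
    (φ : CC k L δ →ₗ[AA k L δ] AA k L δ)
    (a b : k) (u : AA k L δ) (hu : (u : L) * toL k L (dl k δ) = toL k L (vdl ι a b)) :
    ∃ G : CC k L δ, ∀ f : CC k L δ, u * φ f = T (f * G) := by
  obtain ⟨N, β, γ, _, h⟩ := trace_formula_CC k L δ T hT a b u hu
  refine ⟨∑ n, φ (toC k L δ (β n)) • toC k L δ (γ n), fun f => ?_⟩
  have h1 : u * φ f = φ (u • f) := by
    rw [map_smul, smul_eq_mul]
  rw [h1, h f, map_sum, Finset.mul_sum, map_sum]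
  apply Finset.sum_congr rfl
  intro n _
  rw [map_smul, mul_smul_comm, map_smul, smul_eq_mul, smul_eq_mul, mul_comm f, mul_comm]

theorem CC_selfdual' :
    Nonempty (CC k L δ ≃ₗ[AA k L δ] (CC k L δ →ₗ[AA k L δ] AA k L δ)) := by
  obtain ⟨T, hT⟩ := exists_trace k L δ
  let Φ : CC k L δ →ₗ[AA k L δ] (CC k L δ →ₗ[AA k L δ] AA k L δ) :=
    (LinearMap.mul (AA k L δ) (CC k L δ)).compr₂ T
  have hΦ : ∀ g f, Φ g f = T (f * g) := by
    intro g f
    change T (g * f) = _
    rw [mul_comm]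
  have hinj : Function.Injective Φ := by
    rw [injective_iff_map_eq_zero]
    intro g hg
    apply F_Dual_inj k L δ T hT g
    intro f
    rw [← hΦ, hg]
    rfl
  have hsurj : Function.Surjective Φ := by
    intro φ
    obtain ⟨ux, hux0, hux⟩ := F_Dual_exists_u0 k L δ
    obtain ⟨Gx, hGx⟩ := F_Dual_rep k L δ T hT φ 1 0 ux hux
    have hux0' : (ux : L) ≠ 0 := fun h => hux0 (Subtype.ext h)
    have hmem : (Gx : L) / (ux : L) ∈ CC k L δ := by
      apply mem_CC_of_uu k L δ
      intro a b u hu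
      obtain ⟨G, hG⟩ := F_Dual_rep k L δ T hT φ a b u hu
      have h1 : u • Gx - ux • G = 0 := by
        apply F_Dual_inj k L δ T hT
        intro f
        rw [mul_sub, map_sub, mul_smul_comm, mul_smul_comm, map_smul, map_smul, ← hGx, ← hG,
          smul_eq_mul, smul_eq_mul]
        ring
      have h2 : (u : L) * (Gx : L) = (ux : L) * (G : L) := by
        rw [← F_Dual_coe_smul, ← F_Dual_coe_smul, sub_eq_zero.mp h1]
      have h3 : (u : L) * ((Gx : L) / (ux : L)) = (G : L) := by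
        rw [← mul_div_assoc, h2, mul_div_cancel_left₀ _ hux0']
      rw [h3]
      exact G.2
    refine ⟨⟨(Gx : L) / (ux : L), hmem⟩, ?_⟩
    apply LinearMap.ext
    intro f
    rw [hΦ]
    have h4 : ux • (⟨(Gx : L) / (ux : L), hmem⟩ : CC k L δ) = Gx := by
      apply Subtype.ext
      rw [F_Dual_coe_smul]
      exact mul_div_cancel₀ _ hux0'
    have h5 : ux * T (f * ⟨(Gx : L) / (ux : L), hmem⟩) = ux * φ f := by
      rw [hGx, ← smul_eq_mul, ← map_smul, ← mul_smul_comm, h4]
    exact mul_left_cancel₀ hux0 h5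
  exact ⟨LinearEquiv.ofBijective Φ ⟨hinj, hsurj⟩⟩

end

end Pool.Agent.Lib.MP_463376_co
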