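import Pool.Agent.Lib.MP_463376_co.F_Base

/-! Stream F, JOB F3: parity of the order of vanishing along `x_i = x_j, y_i = y_j`. -/

namespace Pool.Agent.Lib.MP_463376_co

open MvPolynomial

section

variable {k : Type} [Field k] [CharZero k] {ι : Type} [Fintype ι] [DecidableEq ι]

omit [CharZero k] [Fintype ι] in
private theorem F_Par_sub (i j : ι) (f : RR k ι) :
    permR (Equiv.swap i j) f - f ∈ pI (k := k) i j := by
  rw [← Ideal.Quotient.eq_zero_iff_mem, map_sub, sub_eq_zero]
  have hx : xx i - xx j ∈ pI (k := k) i j := Ideal.subset_span (by simp)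
  have hy : yy i - yy j ∈ pI (k := k) i j := Ideal.subset_span (by simp)
  have hx' : Ideal.Quotient.mk (pI (k := k) i j) (xx i) = Ideal.Quotient.mk (pI (k := k) i j) (xx j) := by
    rw [Ideal.Quotient.eq]
    exact hx
  have hy' : Ideal.Quotient.mk (pI (k := k) i j) (yy i) = Ideal.Quotient.mk (pI (k := k) i j) (yy j) := by
    rw [Ideal.Quotient.eq]
    exact hy
  have h : (Ideal.Quotient.mkₐ k (pI (k := k) i j)).comp
      ((permR (k := k) (Equiv.swap i j) : RR k ι ≃ₐ[k] RR k ι) : RR k ι →ₐ[k] RR k ι) =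
      Ideal.Quotient.mkₐ k (pI (k := k) i j) := by
    apply MvPolynomial.algHom_ext
    rintro (a | a)
    · show Ideal.Quotient.mk (pI (k := k) i j) (permR (Equiv.swap i j) (xx a)) =
        Ideal.Quotient.mk (pI (k := k) i j) (xx a)
      rw [permR_xx]
      by_cases h1 : a = i
      · rw [h1, Equiv.swap_apply_left, hx']
      · by_cases h2 : a = j
        · rw [h2, Equiv.swap_apply_right, hx']
        · rw [Equiv.swap_apply_of_ne_of_ne h1 h2]
    · show Ideal.Quotient.mk (pI (k := k) i j) (permR (Equiv.swap i j) (yy a)) =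
        Ideal.Quotient.mk (pI (k := k) i j) (yy a)
      rw [permR_yy]
      by_cases h1 : a = i
      · rw [h1, Equiv.swap_apply_left, hy']
      · by_cases h2 : a = j
        · rw [h2, Equiv.swap_apply_right, hy']
        · rw [Equiv.swap_apply_of_ne_of_ne h1 h2]
  exact congrArg (fun φ : RR k ι →ₐ[k] (RR k ι ⧸ pI (k := k) i j) => φ f) h

omit [CharZero k] [Fintype ι] in
private theorem F_Par_add (i j : ι) (a : RR k ι) (ha : a ∈ pI (k := k) i j) :
    permR (Equiv.swap i j) a + a ∈ (pI (k := k) i j) ^ 2 := by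
  have hx : xx i - xx j ∈ pI (k := k) i j := Ideal.subset_span (by simp)
  have hy : yy i - yy j ∈ pI (k := k) i j := Ideal.subset_span (by simp)
  unfold pI at ha
  rw [Ideal.mem_span_pair] at ha
  obtain ⟨p, q, rfl⟩ := ha
  have h1 : permR (Equiv.swap i j) (p * (xx i - xx j) + q * (yy i - yy j)) +
      (p * (xx i - xx j) + q * (yy i - yy j)) =
      -((permR (Equiv.swap i j) p - p) * (xx i - xx j)) -
      (permR (Equiv.swap i j) q - q) * (yy i - yy j) := by
    rw [map_add, map_mul, map_mul, map_sub, map_sub, permR_xx, permR_xx, permR_yy, permR_yy,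
      Equiv.swap_apply_left, Equiv.swap_apply_right]
    ring
  rw [h1, pow_two]
  exact sub_mem (neg_mem (Ideal.mul_mem_mul (F_Par_sub i j p) hx))
    (Ideal.mul_mem_mul (F_Par_sub i j q) hy)

omit [CharZero k] [Fintype ι] in
private theorem F_Par_mem (i j : ι) (a : RR k ι) (ha : a ∈ pI (k := k) i j) :
    permR (Equiv.swap i j) a ∈ pI (k := k) i j := by
  have h := add_mem (F_Par_sub i j a) ha
  rwa [sub_add_cancel] at h

theorem pI_parity {i j : ι} (hij : i ≠ j) (d : ℕ) {f : RR k ι} (hf : f ∈ (pI i j) ^ d) :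
    permR (Equiv.swap i j) f - (-1) ^ d * f ∈ (pI i j) ^ (d + 1) := by
  induction d generalizing f with
  | zero =>
    rw [pow_zero, one_mul, zero_add, pow_one]
    exact F_Par_sub i j f
  | succ d ih =>
    rw [pow_succ'] at hf
    refine Submodule.mul_induction_on hf ?_ ?_
    · intro a ha b hb
      have h1 : permR (Equiv.swap i j) (a * b) - (-1) ^ (d + 1) * (a * b) =
          permR (Equiv.swap i j) a * (permR (Equiv.swap i j) b - (-1) ^ d * b) +
          (-1) ^ d * ((permR (Equiv.swap i j) a + a) * b) := by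
        rw [map_mul, pow_succ]
        ring
      rw [h1]
      refine add_mem ?_ ?_
      · rw [pow_succ']
        exact Ideal.mul_mem_mul (F_Par_mem i j a ha) (ih hb)
      · refine Ideal.mul_mem_left _ _ ?_
        have h2 : (pI (k := k) i j) ^ (d + 1 + 1) = (pI (k := k) i j) ^ 2 * (pI (k := k) i j) ^ d := by
          rw [← pow_add]
          congr 1
          omega
        rw [h2]
        exact Ideal.mul_mem_mul (F_Par_add i j a ha) hb
    · intro a b ha hb
      have h1 : permR (Equiv.swap i j) (a + b) - (-1) ^ (d + 1) * (a + b) =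
          (permR (Equiv.swap i j) a - (-1) ^ (d + 1) * a) +
          (permR (Equiv.swap i j) b - (-1) ^ (d + 1) * b) := by
        rw [map_add]
        ring
      rw [h1]
      exact add_mem ha hb

theorem alt_Jd (d : ℕ) {f : RR k ι} (hf : f ∈ Jd k ι d)
    (hs : ∀ w : Equiv.Perm ι, permR w f = ((Equiv.Perm.sign w : ℤˣ) : ℤ) ^ (d + 1) • f) :
    f ∈ Jd k ι (d + 1) := by
  unfold Jd at hf ⊢
  simp only [Ideal.mem_iInf] at hf ⊢
  intro i j hij
  have h1 := pI_parity hij d (hf i j hij)
  rw [hs, Equiv.Perm.sign_swap hij] at h1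
  have h2 : (((-1 : ℤˣ) : ℤ) ^ (d + 1) • f - (-1) ^ d * f) = (C (-2 * (-1 : k) ^ d)) * f := by
    rw [Units.val_neg, Units.val_one, zsmul_eq_mul]
    push_cast
    simp only [map_mul, map_neg, map_pow, map_one, map_ofNat]
    ring
  rw [h2] at h1
  have h3 : f = C ((-2 * (-1 : k) ^ d)⁻¹) * (C (-2 * (-1 : k) ^ d) * f) := by
    rw [← mul_assoc, ← C_mul, inv_mul_cancel₀, C_1, one_mul]
    exact mul_ne_zero (by norm_num) (pow_ne_zero _ (by norm_num))
  rw [h3]
  exact Ideal.mul_mem_left _ _ h1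

end

section

variable (k : Type) [Field k] [CharZero k] {ι : Type} [Fintype ι] [DecidableEq ι]
  (L : Type) [Field L] [Algebra k L] [Algebra (RR k ι) L]
  [IsScalarTower k (RR k ι) L] [IsFractionRing (RR k ι) L] (δ : Dia ι)

/-- alternating elements of `C` are divisible by `Δ` -/
theorem alt_CC (h : L) (hh : h ∈ CC k L δ)
    (hs : ∀ w : Equiv.Perm ι, permL (k := k) w h = ((Equiv.Perm.sign w : ℤˣ) : ℤ) • h) :
    ∃ a ∈ CC k L δ, (∀ w : Equiv.Perm ι, permL (k := k) w a = a) ∧ a * toL k L (dl k δ) = h := by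
  have hΔ := toL_dl_ne_zero k L δ
  obtain ⟨b, hb, hhb⟩ := (mem_CC_iff k L δ h).1 hh
  obtain ⟨d, f, hf, hfe⟩ := (mem_PP_iff k L δ _).1 hhb
  have hsf : ∀ w : Equiv.Perm ι, permR w f = ((Equiv.Perm.sign w : ℤˣ) : ℤ) ^ (d + 1) • f := by
    intro w
    apply toL_injective (k := k) (L := L)
    rw [← permL_toL, ← hfe, map_mul, map_mul, map_pow, permL_dl, hs,
      permL_OO k L δ w b b.2, map_zsmul, ← hfe]
    simp only [zsmul_eq_mul, Int.cast_pow]
    ring
  have hf' := alt_Jd d hf hsf
  refine ⟨h / toL k L (dl k δ), ?_, ?_, div_mul_cancel₀ h hΔ⟩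
  · rw [mem_CC_iff]
    refine ⟨b, hb, ?_⟩
    rw [mem_PP_iff]
    refine ⟨d + 1, f, hf', ?_⟩
    rw [← hfe, pow_succ]
    field_simp
  · intro w
    rw [map_div₀, permL_dl, hs]
    rcases Int.units_eq_one_or (Equiv.Perm.sign w) with h1 | h1
    · rw [h1]
      simp
    · rw [h1]
      simp

end

end Pool.Agent.Lib.MP_463376_co
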