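import Pool.Agent.Lib.MP_463376_co.F_Base

/-! Stream F: the alternation operator and the trace formula. -/

namespace Pool.Agent.Lib.MP_463376_co

open MvPolynomial

section

variable (k : Type) [Field k] {ι : Type} [Fintype ι] [DecidableEq ι]
  {L : Type} [Field L] [Algebra k L] [Algebra (RR k ι) L]
  [IsScalarTower k (RR k ι) L] [IsFractionRing (RR k ι) L]

variable (ι) in
/-- `Alt g = ∑_w sgn(w) w(g)` -/
noncomputable def Alt (g : L) : L :=
  ∑ w : Equiv.Perm ι, ((Equiv.Perm.sign w : ℤˣ) : ℤ) • permL (k := k) w g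

theorem Alt_add (g h : L) : Alt k ι (g + h) = Alt k ι g + Alt k ι h := by
  simp only [Alt, map_add, smul_add, Finset.sum_add_distrib]

theorem Alt_mul (a g : L) (ha : ∀ w : Equiv.Perm ι, permL (k := k) w a = a) :
    Alt k ι (a * g) = a * Alt k ι g := by
  simp only [Alt, Finset.mul_sum]
  apply Finset.sum_congr rfl
  intro w _
  rw [map_mul, ha, mul_smul_comm]

theorem permL_Alt (w : Equiv.Perm ι) (g : L) :
    permL (k := k) w (Alt k ι g) = ((Equiv.Perm.sign w : ℤˣ) : ℤ) • Alt k ι g := by
  unfold Alt
  rw [map_sum, Finset.smul_sum]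
  rw [← Equiv.sum_comp (Equiv.mulLeft w) (fun v : Equiv.Perm ι =>
    ((Equiv.Perm.sign w : ℤˣ) : ℤ) • ((Equiv.Perm.sign v : ℤˣ) : ℤ) • permL (k := k) v g)]
  apply Finset.sum_congr rfl
  intro v _
  simp only [Equiv.coe_mulLeft, map_mul, Units.val_mul, permL_mul, map_zsmul, smul_smul]
  rw [← mul_assoc, ← Units.val_mul, Int.units_mul_self, Units.val_one, one_mul]

omit [DecidableEq ι] in
/-- a permutation which never decreases is the identity -/
theorem F_Tr_perm_eq_one (w : Equiv.Perm ι)
    (h : ∀ j, Fintype.equivFin ι j ≤ Fintype.equivFin ι (w j)) : w = 1 := by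
  have h1 : ∑ j : ι, ((Fintype.equivFin ι j : Fin (Fintype.card ι)) : ℕ) =
      ∑ j : ι, ((Fintype.equivFin ι (w j) : Fin (Fintype.card ι)) : ℕ) :=
    (Equiv.sum_comp w (fun j => ((Fintype.equivFin ι j : Fin (Fintype.card ι)) : ℕ))).symm
  have h2 := (Finset.sum_eq_sum_iff_of_le (fun j _ => Fin.le_def.1 (h j))).1 h1
  ext j
  have h3 := h2 j (Finset.mem_univ j)
  have h4 := (Fintype.equivFin ι).injective (Fin.ext h3)
  rw [Equiv.Perm.coe_one, id]
  exact h4.symm

/-- TRACE FORMULA. `V(l) g = ∑_n β_n(l) Alt(γ_n(l) g)` -/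
theorem trace_formula (a b : k) : ∃ (N : ℕ) (β γ : Fin N → RR k ι),
    (∀ n, β n ∈ Algebra.adjoin k (Set.range fun i : ι => lf a b i)) ∧
    ∀ g : L, toL k L (vdl ι a b) * g =
      ∑ n, toL k L (β n) * Alt k ι (toL k L (γ n) * g) := by
  classical
  set e := Fintype.equivFin ι with he
  let β : Finset (ι × ι) → RR k ι := fun t => ∏ p ∈ t, if e p.1 < e p.2 then -lf a b p.1 else 0
  let γ : Finset (ι × ι) → RR k ι := fun t =>
    ∏ p ∈ Finset.univ \ t, if e p.1 < e p.2 then lf a b p.2 else 1
  have key : ∀ g : L, toL k L (vdl ι a b) * g =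
      ∑ t, toL k L (β t) * Alt k ι (toL k L (γ t) * g) := by
    intro g
    have h1 : ∀ w : Equiv.Perm ι, ∑ t, toL k L (β t) * permL (k := k) w (toL k L (γ t)) =
        if w = 1 then toL k L (vdl ι a b) else 0 := by
      intro w
      have h2 : ∏ p : ι × ι, ((if e p.1 < e p.2 then -toL k L (lf a b p.1) else 0) +
          (if e p.1 < e p.2 then toL k L (lf a b (w p.2)) else 1)) =
          ∑ t, toL k L (β t) * permL (k := k) w (toL k L (γ t)) := by
        rw [Finset.prod_add, Finset.powerset_univ]
        apply Finset.sum_congr rfl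
        intro t _
        rw [permL_toL]
        simp only [β, γ, map_prod, apply_ite (permR w), apply_ite (toL k L), map_neg,
          map_zero, map_one, permR_lf]
      rw [← h2]
      split_ifs with hw
      · subst hw
        rw [vdl_eq, map_prod, Fintype.prod_prod_type]
        apply Finset.prod_congr rfl
        intro i _
        rw [map_prod]
        apply Finset.prod_congr rfl
        intro j _
        rw [← he]
        by_cases hij : e i < e j
        · simp only [hij, if_true, Equiv.Perm.coe_one, id, map_sub]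
          ring
        · simp [hij]
      · have h3 : ∃ j, e (w j) < e j := by
          by_contra hcon
          push Not at hcon
          exact hw (F_Tr_perm_eq_one w hcon)
        obtain ⟨j, hj⟩ := h3
        apply Finset.prod_eq_zero (Finset.mem_univ (w j, j))
        simp [hj]
    have h4 : ∑ t, toL k L (β t) * Alt k ι (toL k L (γ t) * g) =
        ∑ w : Equiv.Perm ι, ((Equiv.Perm.sign w : ℤˣ) : ℤ) •
          ((∑ t, toL k L (β t) * permL (k := k) w (toL k L (γ t))) * permL (k := k) w g) := by
      simp only [Alt, Finset.mul_sum, map_mul, Finset.sum_mul, Finset.smul_sum]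
      rw [Finset.sum_comm]
      apply Finset.sum_congr rfl
      intro w _
      apply Finset.sum_congr rfl
      intro t _
      rw [mul_smul_comm, mul_assoc]
    rw [h4, Finset.sum_eq_single 1]
    · rw [h1, if_pos rfl, permL_one]
      simp
    · intro w _ hw
      rw [h1, if_neg hw, zero_mul, smul_zero]
    · simp
  refine ⟨Fintype.card (Finset (ι × ι)), fun n => β ((Fintype.equivFin _).symm n),
    fun n => γ ((Fintype.equivFin _).symm n), ?_, ?_⟩
  · intro n
    apply Subalgebra.prod_mem
    intro p _
    split_ifs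
    · exact Subalgebra.neg_mem _ (Algebra.subset_adjoin ⟨_, rfl⟩)
    · exact Subalgebra.zero_mem _
  · intro g
    rw [key, ← Equiv.sum_comp (Fintype.equivFin (Finset (ι × ι))).symm]

end

end Pool.Agent.Lib.MP_463376_co
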