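import Pool.Agent.Lib.MP_463376_co.P4

/-! PART 4: homological toolkit (stream D) -/

namespace Pool.Agent.Lib.MP_463376_co

open RingTheory.Sequence CategoryTheory

section Abstract

/-- every finitely generated module has finite projective dimension -/
def FinPD (A : Type) [CommRing A] : Prop :=
  ∀ (M : ModuleCat.{0} A) [Module.Finite A M], ∃ n : ℕ, HasProjectiveDimensionLE M n

/-- the ideal of all `a` such that `a • id` lies in the image of `M* ⊗ M → End M` -/
def freeIdeal (A M : Type) [CommRing A] [AddCommGroup M] [Module A M] : Ideal A :=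
  Submodule.comap (LinearMap.toSpanSingleton A (M →ₗ[A] M) LinearMap.id)
    (LinearMap.range (dualTensorHom A M M))

/-- the elements of `freeIdeal` in coordinates -/
theorem freeIdeal_eq_nonfree (A M : Type) [CommRing A] [AddCommGroup M] [Module A M] :
    freeIdeal A M = MP463376.P4.nonfree A M := by
  have key : ∀ g : M →ₗ[A] M, g ∈ LinearMap.range (dualTensorHom A M M) ↔
      ∃ (r : ℕ) (φ : Fin r → M →ₗ[A] A) (m : Fin r → M), ∀ w, g w = ∑ i, φ i w • m i := by
    intro g
    constructor
    · rintro ⟨t, rfl⟩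
      induction t using TensorProduct.induction_on with
      | zero => exact ⟨0, fun _ => 0, fun _ => 0, fun w => by simp⟩
      | tmul φ m => exact ⟨1, fun _ => φ, fun _ => m, fun w => by simp [dualTensorHom_apply]⟩
      | add s t hs ht =>
        obtain ⟨r, φ, m, h⟩ := hs
        obtain ⟨r', φ', m', h'⟩ := ht
        refine ⟨r + r', Fin.append φ φ', Fin.append m m', fun w => ?_⟩
        rw [map_add, LinearMap.add_apply, h, h', Fin.sum_univ_add]
        simp
    · rintro ⟨r, φ, m, h⟩
      refine ⟨∑ i, (φ i) ⊗ₜ[A] (m i), ?_⟩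
      ext w
      rw [h, map_sum, LinearMap.sum_apply]
      simp [dualTensorHom_apply]
  ext a
  rw [freeIdeal, Submodule.mem_comap, key]
  rfl

/-- PART 4, T1 -/
theorem finPD_of_regular (A : Type) [CommRing A] [IsRegularLocalRing A] : FinPD A := by
  intro M hM
  exact MP463376.P4.regular_pd A M

theorem finPD_residue_localization (A : Type) [CommRing A] (hpd : FinPD A) (p : Ideal A)
    [p.IsPrime] : ∃ k, HasProjectiveDimensionLE
      (ModuleCat.of (Localization.AtPrime p)
        (Localization.AtPrime p ⧸ IsLocalRing.maximalIdeal (Localization.AtPrime p))) k :=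
  MP463376.P4.exists_pd_localization (fun M _ _ _ => hpd (ModuleCat.of A M)) p.primeCompl _

/-- PART 4, T3 -/
theorem codim_one (A : Type) [CommRing A] [IsDomain A] [IsNoetherianRing A] [IsLocalRing A]
    (hpd : FinPD A) (K : Type) [Field K] [Algebra A K] [FaithfulSMul A K] (x : K)
    (d : A) (hd : d ≠ 0) (hdx : algebraMap A K d * x ∈ (algebraMap A K).range)
    (hx : x ∉ (algebraMap A K).range) :
    ∃ a : A, ∃ q : Ideal A, q.IsPrime ∧ q.height = 1 ∧
      ∀ b : A, b ∈ q ↔ algebraMap A K b * (algebraMap A K a * x) ∈ (algebraMap A K).range := by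
  have hinj : Function.Injective (algebraMap A K) := FaithfulSMul.algebraMap_injective A K
  obtain ⟨c, hc⟩ := hdx
  have hdK : algebraMap A K d ≠ 0 := fun h => hd (hinj (by rw [h, map_zero]))
  let F := FractionRing A
  have hdF : algebraMap A F d ≠ 0 := fun h => hd (IsFractionRing.injective A F (by
    rw [h, map_zero]))
  -- the embedding of `F` in `K`
  let ι : F →+* K := IsFractionRing.lift hinj
  have hι : ∀ a, ι (algebraMap A F a) = algebraMap A K a := fun a => IsFractionRing.lift_algebraMap hinj a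
  let x' : F := algebraMap A F c / algebraMap A F d
  have hx' : ι x' = x := by
    rw [map_div₀, hι, hι, hc]
    field_simp
  have hrange : ∀ y : F, y ∈ (algebraMap A F).range ↔ ι y ∈ (algebraMap A K).range := by
    intro y
    constructor
    · rintro ⟨a, rfl⟩
      exact ⟨a, (hι a).symm⟩
    · rintro ⟨a, ha⟩
      refine ⟨a, ι.injective ?_⟩
      rw [hι, ha]
  obtain ⟨a, q, hq, hht, h⟩ := MP463376.P4.exists_height_one_prime
    (fun p _ => finPD_residue_localization A hpd p) x' (by rw [hrange, hx']; exact hx)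
  refine ⟨a, q, hq, hht, fun b => ?_⟩
  rw [h, hrange, map_mul, hx', hι, map_mul, mul_assoc]

/-- PART 4, the machine -/
theorem machine (A C : Type) [CommRing A] [IsNoetherianRing A] [IsLocalRing A] (hpd : FinPD A)
    [CommRing C] [Algebra A C] [Module.Finite A C] (hdual : Nonempty (C ≃ₗ[A] (C →ₗ[A] A)))
    (n : ℕ)
    (H : ∀ p : Ideal A, p ∈ (freeIdeal A C).minimalPrimes → ∃ s ≤ n,
      p.height ≤ ((2 * (n - s) : ℕ) : ℕ∞) ∧
      ∀ Q : Ideal C, Q.IsPrime → Q.comap (algebraMap A C) = p →
        ∃ rs : List C, rs.length = n - s ∧ (∀ r ∈ rs, r ∈ Q) ∧ IsWeaklyRegular C rs ∧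
          (Q ∈ associatedPrimes C (C ⧸ Ideal.ofList rs) → p.height ≤ ((n - s : ℕ) : ℕ∞))) :
    Module.Free A C := by
  obtain ⟨e⟩ := hdual
  refine MP463376.P4.machine (fun M _ _ _ => hpd (ModuleCat.of A M)) e n ?_
  intro p hp
  rw [← freeIdeal_eq_nonfree] at hp
  obtain ⟨s, hs, h1, h2⟩ := H p hp
  refine ⟨s, hs, h1, fun Q hQ hQp => ?_⟩
  obtain ⟨rs, hl, hm, hr, ha⟩ := h2 Q hQ hQp
  refine ⟨rs, hl, hm, hr, fun hass => ha ?_⟩
  have : (Ideal.ofList rs • ⊤ : Submodule C C) = Ideal.ofList rs := by simp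
  rw [this] at hass
  exact hass

end Abstract


end Pool.Agent.Lib.MP_463376_co
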