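import Pool.Agent.Lib.MP_463376_co.F_W2
import Pool.Agent.Lib.MP_463376_co.F_Par
import Pool.Agent.Lib.MP_463376_co.F_Tr
import Pool.Agent.Lib.MP_463376_co.IAbs
import Pool.Agent.Lib.MP_463376_co.I3r

/-! Stream F, JOB F5c: `A = C^{S_n}` and the trace map. -/

namespace Pool.Agent.Lib.MP_463376_co

open MvPolynomial

section

private theorem f_Inv_permR_mul {k : Type} [Field k] {ι : Type} (w w' : Equiv.Perm ι)
    (p : RR k ι) : permR (w * w') p = permR w (permR w' p) := by
  simp only [permR, renameEquiv_apply, rename_rename]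
  congr 2
  ext x
  cases x <;> simp

variable (k : Type) [Field k] [CharZero k] {ι : Type} [Fintype ι] [DecidableEq ι]
  (L : Type) [Field L] [Algebra k L] [Algebra (RR k ι) L]
  [IsScalarTower k (RR k ι) L] [IsFractionRing (RR k ι) L] (δ : Dia ι)

omit [CharZero k] [IsFractionRing (RR k ι) L] in
private theorem f_Inv_OO_le_AA : OO k L δ ≤ AA k L δ := by
  intro g hg
  exact Algebra.subset_adjoin (Or.inl hg)

omit [CharZero k] [IsFractionRing (RR k ι) L] in
private theorem f_Inv_AA_le_CC : AA k L δ ≤ CC k L δ := le_sup_left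

/-- invariant rational functions are fractions of elements of `O` -/
theorem inv_frac (g : L) (h : ∀ w : Equiv.Perm ι, permL (k := k) w g = g) :
    ∃ d : OO k L δ, d ≠ 0 ∧ (d : L) * g ∈ OO k L δ := by
  obtain ⟨f, e, he, hg⟩ := exists_frac (k := k) (ι := ι) g
  set s : RR k ι := ∏ w : Equiv.Perm ι, permR w e with hs
  have hsinv : ∀ v : Equiv.Perm ι, permR v s = s := by
    intro v
    rw [hs, map_prod]
    refine Eq.trans (Finset.prod_congr rfl fun w _ => (f_Inv_permR_mul v w e).symm) ?_
    exact Equiv.prod_comp (Equiv.mulLeft v) (fun w : Equiv.Perm ι => permR w e)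
  have hs0 : s ≠ 0 := by
    rw [hs, Finset.prod_ne_zero_iff]
    intro w _ h0
    exact he ((permR (k := k) w).injective (h0.trans (map_zero _).symm))
  have h1e : permR (1 : Equiv.Perm ι) e = e := by simp [permR]
  have hfac : s = e * ∏ w ∈ Finset.univ.erase (1 : Equiv.Perm ι), permR w e := by
    rw [hs, ← Finset.mul_prod_erase Finset.univ _ (Finset.mem_univ (1 : Equiv.Perm ι)), h1e]
  set p : RR k ι := f * ∏ w ∈ Finset.univ.erase (1 : Equiv.Perm ι), permR w e with hp
  have hgs : g * toL k L s = toL k L p := by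
    rw [hfac, hp, map_mul, map_mul, ← mul_assoc, hg]
  have hpinv : ∀ v : Equiv.Perm ι, permR v p = p := by
    intro v
    apply toL_injective (k := k) (L := L)
    rw [← permL_toL, ← hgs, map_mul, h, permL_toL, hsinv]
  refine ⟨⟨toL k L s, symmetric_mem k L δ s hsinv⟩, ?_, ?_⟩
  · intro h0
    exact toL_ne_zero (L := L) hs0 (congrArg Subtype.val h0)
  · rw [show ((⟨toL k L s, symmetric_mem k L δ s hsinv⟩ : OO k L δ) : L) = toL k L s from rfl,
      mul_comm, hgs]
    exact symmetric_mem k L δ p hpinv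

/-- symmetrisation of an element of `A[l_1,...,l_n]` -/
private theorem f_Inv_sym (a b : k) (z : L)
    (hz : z ∈ Algebra.adjoin (AA k L δ) (Set.range fun i : ι => toL k L (lf a b i))) :
    ∑ w : Equiv.Perm ι, permL (k := k) w z ∈ AA k L δ := by
  rw [Algebra.adjoin_range_eq_range_aeval] at hz
  obtain ⟨p, rfl⟩ := hz
  change ∑ w : Equiv.Perm ι, permL (k := k) w
    (aeval (fun i : ι => toL k L (lf a b i)) p) ∈ AA k L δ
  induction p using MvPolynomial.induction_on' with
  | monomial u c =>
    have h1 : aeval (fun i : ι => toL k L (lf a b i)) (monomial u c) =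
        (c : L) * toL k L (u.prod fun i e => lf a b i ^ e) := by
      rw [aeval_monomial]
      congr 1
      rw [Finsupp.prod, Finsupp.prod, map_prod]
      exact Finset.prod_congr rfl fun i _ => by rw [map_pow]
    set F : RR k ι := u.prod fun i e => lf a b i ^ e with hF
    have h2 : ∑ w : Equiv.Perm ι, permL (k := k) w
        (aeval (fun i : ι => toL k L (lf a b i)) (monomial u c)) =
        (c : L) * toL k L (∑ w : Equiv.Perm ι, permR w F) := by
      rw [h1, map_sum, Finset.mul_sum]
      refine Finset.sum_congr rfl fun w _ => ?_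
      rw [map_mul, permL_AA k L δ w c c.2, permL_toL]
    rw [h2]
    refine (AA k L δ).mul_mem c.2 (f_Inv_OO_le_AA k L δ ?_)
    refine symmetric_mem k L δ _ fun v => ?_
    rw [map_sum]
    refine Eq.trans (Finset.sum_congr rfl fun w _ => (f_Inv_permR_mul v w F).symm) ?_
    exact Equiv.sum_comp (Equiv.mulLeft v) (fun w : Equiv.Perm ι => permR w F)
  | add p q hp hq =>
    have h1 : ∑ w : Equiv.Perm ι, permL (k := k) w
        (aeval (fun i : ι => toL k L (lf a b i)) (p + q)) =
        ∑ w : Equiv.Perm ι, permL (k := k) w (aeval (fun i : ι => toL k L (lf a b i)) p) +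
        ∑ w : Equiv.Perm ι, permL (k := k) w (aeval (fun i : ι => toL k L (lf a b i)) q) := by
      rw [← Finset.sum_add_distrib]
      exact Finset.sum_congr rfl fun w _ => by rw [map_add, map_add]
    rw [h1]
    exact (AA k L δ).add_mem hp hq

theorem inv_mem_AA' (g : L) (hg : g ∈ CC k L δ)
    (h : ∀ w : Equiv.Perm ι, permL (k := k) w g = g) : g ∈ AA k L δ := by
  by_contra hgA
  have hreg := AA_regular k L δ (ι := ι)
  have hrange : ∀ x : L, x ∈ (algebraMap (AA k L δ) L).range ↔ x ∈ AA k L δ := by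
    intro x
    constructor
    · rintro ⟨y, rfl⟩
      exact y.2
    · intro hx
      exact ⟨⟨x, hx⟩, rfl⟩
  obtain ⟨d, hd0, hd⟩ := inv_frac k L δ g h
  obtain ⟨a, q, hq, hq1, hab⟩ := codim_one (AA k L δ) (finPD_of_regular (AA k L δ)) L g
    ⟨(d : L), f_Inv_OO_le_AA k L δ d.2⟩
    (by
      intro h0
      apply hd0
      have h5 : (d : L) = 0 := congrArg (fun y : AA k L δ => (y : L)) h0
      exact Subtype.ext h5)
    ((hrange _).mpr (f_Inv_OO_le_AA k L δ hd))
    (fun h1 => hgA ((hrange _).mp h1))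
  obtain ⟨a', b', hgood⟩ := exists_good k L δ q hq1
  have hag : (a : L) * g ∈ CC k L δ := (CC k L δ).mul_mem (f_Inv_AA_le_CC k L δ a.2) hg
  obtain ⟨u, hu, hug⟩ := CC_le_WW hq1 hgood hag
  apply hu
  rw [hab]
  rw [hrange]
  change (u : L) * ((a : L) * g) ∈ AA k L δ
  have hinv : ∀ w : Equiv.Perm ι, permL (k := k) w ((u : L) * ((a : L) * g)) =
      (u : L) * ((a : L) * g) := by
    intro w
    rw [map_mul, map_mul, permL_AA k L δ w u u.2, permL_AA k L δ w a a.2, h]
  have hsum := f_Inv_sym k L δ a' b' _ hug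
  simp only [hinv] at hsum
  rw [Finset.sum_const, Finset.card_univ, Fintype.card_perm, nsmul_eq_mul] at hsum
  have hfac : ((Fintype.card ι).factorial : k) ≠ 0 := by
    exact_mod_cast Nat.factorial_ne_zero _
  have h2 := (AA k L δ).smul_mem hsum (((Fintype.card ι).factorial : k)⁻¹)
  have h3 : (((Fintype.card ι).factorial : k)⁻¹) •
      (((Fintype.card ι).factorial : L) * ((u : L) * ((a : L) * g))) =
      (u : L) * ((a : L) * g) := by
    have h4 : ((Fintype.card ι).factorial : L) =
        algebraMap k L ((Fintype.card ι).factorial : k) := by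
      rw [map_natCast]
    rw [h4, ← Algebra.smul_def, smul_smul, inv_mul_cancel₀ hfac, one_smul]
  rwa [h3] at h2

private theorem f_Inv_Alt_mem (c : L) (hc : c ∈ CC k L δ) :
    Alt k ι c / toL k L (dl k δ) ∈ AA k L δ := by
  have h1 : Alt k ι c ∈ CC k L δ := by
    unfold Alt
    refine (CC k L δ).sum_mem fun w _ => ?_
    exact (CC k L δ).toSubring.zsmul_mem (permL_CC k L δ w c hc) _
  obtain ⟨a, ha, hinv, had⟩ := alt_CC k L δ (Alt k ι c) h1 (fun w => permL_Alt k w c)
  have h2 : Alt k ι c / toL k L (dl k δ) = a := by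
    rw [← had, mul_div_cancel_right₀ _ (toL_dl_ne_zero k L δ)]
  rw [h2]
  exact inv_mem_AA' k L δ a ha hinv

/-- the trace map `c ↦ Alt(c)/Δ` -/
theorem exists_trace : ∃ T : CC k L δ →ₗ[AA k L δ] AA k L δ,
    ∀ c : CC k L δ, (T c : L) * toL k L (dl k δ) = Alt k ι (c : L) := by
  refine ⟨{ toFun := fun c => ⟨Alt k ι (c : L) / toL k L (dl k δ), f_Inv_Alt_mem k L δ c c.2⟩
            map_add' := ?_
            map_smul' := ?_ }, ?_⟩
  · intro c c'
    apply Subtype.ext
    change Alt k ι ((c : L) + (c' : L)) / toL k L (dl k δ) =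
      Alt k ι (c : L) / toL k L (dl k δ) + Alt k ι (c' : L) / toL k L (dl k δ)
    rw [Alt_add, add_div]
  · intro r c
    apply Subtype.ext
    have h1 : ((r • c : CC k L δ) : L) = (r : L) * (c : L) := by
      rw [Algebra.smul_def]
      change ((algebraMap (AA k L δ) (CC k L δ) r : CC k L δ) : L) * (c : L) = _
      rw [coe_algebraMap_AACC]
    change Alt k ι ((r • c : CC k L δ) : L) / toL k L (dl k δ) =
      (r : L) * (Alt k ι (c : L) / toL k L (dl k δ))
    rw [h1, Alt_mul k (r : L) (c : L) (fun w => permL_AA k L δ w r r.2), mul_div_assoc]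
  · intro c
    exact div_mul_cancel₀ _ (toL_dl_ne_zero k L δ)

end

end Pool.Agent.Lib.MP_463376_co
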