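import Mathlib
import Pool.Agent.Lib.MP_463376_co.F_Inv

/-! Stream F, JOB F6a: finiteness of `C` over `A`, generators at good primes. -/

namespace Pool.Agent.Lib.MP_463376_co

open MvPolynomial

section

variable (k : Type) [Field k] [CharZero k] {ι : Type} [Fintype ι] [DecidableEq ι]
  (L : Type) [Field L] [Algebra k L] [Algebra (RR k ι) L]
  [IsScalarTower k (RR k ι) L] [IsFractionRing (RR k ι) L] (δ : Dia ι)

omit [CharZero k] [IsFractionRing (RR k ι) L] in
theorem F_Fin_coe_smul (u : AA k L δ) (g : CC k L δ) : ((u • g : CC k L δ) : L) = u * g := by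
  rw [Algebra.smul_def, MulMemClass.coe_mul, coe_algebraMap_AACC]

omit [CharZero k] [IsFractionRing (RR k ι) L] in
theorem F_Fin_coe_toC (f : RR k ι) : ((toC k L δ f : CC k L δ) : L) = toL k L f := rfl

/-- trace formula over `A` -/
theorem trace_formula_CC (T : CC k L δ →ₗ[AA k L δ] AA k L δ)
    (hT : ∀ c : CC k L δ, (T c : L) * toL k L (dl k δ) = Alt k ι (c : L))
    (a b : k) (u : AA k L δ) (hu : (u : L) * toL k L (dl k δ) = toL k L (vdl ι a b)) :
    ∃ (N : ℕ) (β γ : Fin N → RR k ι),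
      (∀ n, β n ∈ Algebra.adjoin k (Set.range fun i : ι => lf a b i)) ∧
      ∀ g : CC k L δ, u • g = ∑ n, T (toC k L δ (γ n) * g) • toC k L δ (β n) := by
  obtain ⟨N, β, γ, hβ, h⟩ := trace_formula (L := L) k (ι := ι) a b
  refine ⟨N, β, γ, hβ, fun g => ?_⟩
  apply Subtype.ext
  have h0 : toL k L (dl k δ) ≠ 0 := toL_dl_ne_zero k L δ
  apply mul_right_cancel₀ h0
  have h1 := h (g : L)
  rw [← hu] at h1
  have h2 : ((∑ n, T (toC k L δ (γ n) * g) • toC k L δ (β n) : CC k L δ) : L) =
      ∑ n, (T (toC k L δ (γ n) * g) : L) * toL k L (β n) := by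
    rw [AddSubmonoidClass.coe_finsetSum]
    exact Finset.sum_congr rfl fun n _ => F_Fin_coe_smul k L δ _ _
  rw [h2, F_Fin_coe_smul, Finset.sum_mul]
  calc (u : L) * (g : L) * toL k L (dl k δ) = (u : L) * toL k L (dl k δ) * g := by ring
    _ = _ := h1
    _ = _ := by
      refine Finset.sum_congr rfl fun n _ => ?_
      have h3 := hT (toC k L δ (γ n) * g)
      rw [MulMemClass.coe_mul, F_Fin_coe_toC] at h3
      rw [← h3]
      ring

theorem F_Fin_vdl_ne_zero : vdl ι (1 : k) 0 ≠ 0 := by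
  rw [vdl_eq]
  refine Finset.prod_ne_zero_iff.2 fun i _ => Finset.prod_ne_zero_iff.2 fun j _ => ?_
  split_ifs with h
  · have hij : i ≠ j := fun e => by subst e; exact lt_irrefl _ h
    simp only [lf, map_one, map_zero, one_mul, zero_mul, add_zero]
    intro h1
    rw [sub_eq_zero, xx, xx] at h1
    have := X_injective (R := k) h1
    exact hij (Sum.inl_injective this).symm
  · exact one_ne_zero

theorem CC_finite' : Module.Finite (AA k L δ) (CC k L δ) := by
  obtain ⟨T, hT⟩ := exists_trace k L δ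
  obtain ⟨u', hu'⟩ := exists_uu k L δ (1 : k) 0
  have hle : OO k L δ ≤ AA k L δ := fun x hx => Algebra.subset_adjoin (Or.inl hx)
  set u : AA k L δ := ⟨u', hle u'.2⟩ with hu
  have hu1 : (u : L) * toL k L (dl k δ) = toL k L (vdl ι (1 : k) 0) := hu'
  have hu0 : u ≠ 0 := by
    intro h
    rw [h] at hu1
    rw [ZeroMemClass.coe_zero, zero_mul] at hu1
    exact toL_ne_zero (k := k) (L := L) (F_Fin_vdl_ne_zero k (ι := ι)) hu1.symm
  obtain ⟨N, β, γ, -, h⟩ := trace_formula_CC k L δ T hT 1 0 u hu1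
  have hreg := AA_regular k L δ
  have hnoeth : IsNoetherianRing (AA k L δ) := inferInstance
  set M : Submodule (AA k L δ) (CC k L δ) :=
    Submodule.span (AA k L δ) (Set.range fun n => toC k L δ (β n)) with hM
  have hMfin : Module.Finite (AA k L δ) M := Module.Finite.span_of_finite _ (Set.finite_range _)
  have hmem : ∀ g : CC k L δ, u • g ∈ M := by
    intro g
    rw [h g]
    exact Submodule.sum_mem _ fun n _ => Submodule.smul_mem _ _ (Submodule.subset_span ⟨n, rfl⟩)
  let f : CC k L δ →ₗ[AA k L δ] M := LinearMap.codRestrict M (LinearMap.lsmul _ _ u) hmem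
  refine Module.Finite.of_injective f ?_
  intro x y hxy
  have h1 : u • x = u • y := congrArg Subtype.val hxy
  have h2 := congrArg (fun z : CC k L δ => (z : L)) h1
  simp only [F_Fin_coe_smul] at h2
  have h3 : (u : L) ≠ 0 := fun h4 => hu0 (Subtype.ext h4)
  exact Subtype.ext (mul_left_cancel₀ h3 h2)

omit [CharZero k] [IsFractionRing (RR k ι) L] in
theorem F_Fin_toC_adjoin (a b : k) (f : RR k ι)
    (hf : f ∈ Algebra.adjoin k (Set.range fun i : ι => lf a b i)) :
    toC k L δ f ∈ Algebra.adjoin (AA k L δ) (Set.range fun i : ι => toC k L δ (lf a b i)) := by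
  induction hf using Algebra.adjoin_induction with
  | mem x hx =>
    obtain ⟨i, rfl⟩ := hx
    exact Algebra.subset_adjoin ⟨i, rfl⟩
  | algebraMap c =>
    have h1 : toC k L δ (algebraMap k (RR k ι) c) =
        algebraMap (AA k L δ) (CC k L δ) (algebraMap k (AA k L δ) c) := by
      apply Subtype.ext
      rw [coe_algebraMap_AACC, AlgHom.commutes, Subalgebra.coe_algebraMap,
        Subalgebra.coe_algebraMap]
    rw [h1]
    exact Subalgebra.algebraMap_mem _ _
  | add x y _ _ hx hy => rw [map_add]; exact add_mem hx hy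
  | mul x y _ _ hx hy => rw [map_mul]; exact mul_mem hx hy

theorem good_generates' (q : Ideal (AA k L δ)) [q.IsPrime] (a b : k) (hg : Good k L δ q a b)
    (g : CC k L δ) : ∃ u : AA k L δ, u ∉ q ∧
      u • g ∈ Algebra.adjoin (AA k L δ) (Set.range fun i : ι => toC k L δ (lf a b i)) := by
  obtain ⟨T, hT⟩ := exists_trace k L δ
  obtain ⟨u, huq, hu⟩ := hg
  obtain ⟨N, β, γ, hβ, h⟩ := trace_formula_CC k L δ T hT a b u hu
  refine ⟨u, huq, ?_⟩
  rw [h g]
  exact sum_mem fun n _ => Subalgebra.smul_mem _ (F_Fin_toC_adjoin k L δ a b _ (hβ n)) _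

end

end Pool.Agent.Lib.MP_463376_co
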