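import Pool.Agent.Lib.MP_463376_co.F_Base

/-! Stream F, JOB F5a: lying over. -/

namespace Pool.Agent.Lib.MP_463376_co

open MvPolynomial

section

variable (k : Type) [Field k] [CharZero k] {ι : Type} [Fintype ι] [DecidableEq ι]
  (L : Type) [Field L] [Algebra k L] [Algebra (RR k ι) L]
  [IsScalarTower k (RR k ι) L] [IsFractionRing (RR k ι) L] (δ : Dia ι)

/-- an equivariant family consists of elements integral over `O` -/
private theorem pt_integral (h : ι → RR k ι) (hh : ∀ w i, permR w (h i) = h (w i)) (i : ι) :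
    IsIntegral (OO k L δ) (toL k L (h i)) := by
  classical
  set f : Polynomial (RR k ι) := ∏ j : ι, (Polynomial.X - Polynomial.C (h j)) with hf
  have hmonic : f.Monic := Polynomial.monic_prod_of_monic _ _ fun j _ => Polynomial.monic_X_sub_C _
  have hsymm : ∀ w : Equiv.Perm ι, f.map ((permR (k := k) w : RR k ι ≃ₐ[k] RR k ι) :
      RR k ι →+* RR k ι) = f := by
    intro w
    rw [hf, Polynomial.map_prod]
    rw [← Equiv.prod_comp w (fun j => Polynomial.X - Polynomial.C (h j))]
    apply Finset.prod_congr rfl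
    intro j _
    rw [Polynomial.map_sub, Polynomial.map_X, Polynomial.map_C]
    congr 2
    exact hh w j
  have hcoeff : ∀ n, toL k L (f.coeff n) ∈ OO k L δ := by
    intro n
    apply symmetric_mem
    intro w
    have := congrArg (fun p => Polynomial.coeff p n) (hsymm w)
    simp only [Polynomial.coeff_map] at this
    exact this
  have hlift : f.map ((toL k L : RR k ι →ₐ[k] L) : RR k ι →+* L) ∈
      Polynomial.lifts (algebraMap (OO k L δ) L) := by
    rw [Polynomial.lifts_iff_coeff_lifts]
    intro n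
    rw [Polynomial.coeff_map]
    exact ⟨⟨_, hcoeff n⟩, rfl⟩
  obtain ⟨q, hq, -, hqm⟩ := Polynomial.lifts_and_degree_eq_and_monic hlift (hmonic.map _)
  refine ⟨q, hqm, ?_⟩
  rw [← Polynomial.eval_map, hq, Polynomial.eval_map]
  have h1 : Polynomial.eval₂ ((toL k L : RR k ι →ₐ[k] L) : RR k ι →+* L)
      (toL k L (h i)) f = toL k L (Polynomial.eval (h i) f) := by
    have := Polynomial.eval₂_at_apply ((toL k L : RR k ι →ₐ[k] L) : RR k ι →+* L) (p := f) (h i)
    exact this
  rw [h1, hf, Polynomial.eval_prod, Finset.prod_eq_zero (Finset.mem_univ i) (by simp), map_zero]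

private theorem pt_integral_toL (f : RR k ι) : IsIntegral (OO k L δ) (toL k L f) := by
  induction f using MvPolynomial.induction_on with
  | C a =>
    have h1 : toL k L (C a : RR k ι) = algebraMap (OO k L δ) L (algebraMap k (OO k L δ) a) := by
      have := (toL k L : RR k ι →ₐ[k] L).commutes a
      exact this
    rw [h1]
    exact isIntegral_algebraMap
  | add p q hp hq =>
    rw [map_add]
    exact hp.add hq
  | mul_X p n hp =>
    rw [map_mul]
    refine hp.mul ?_
    cases n with
    | inl i => exact pt_integral k L δ xx (fun w i => permR_xx w i) i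
    | inr i => exact pt_integral k L δ yy (fun w i => permR_yy w i) i

private theorem pt_integral_OR (g : OR k L δ) : IsIntegral (OO k L δ) (g : L) := by
  have h1 : OR k L δ ≤ (integralClosure (OO k L δ) L).restrictScalars k := by
    refine sup_le ?_ ?_
    · intro x hx
      exact isIntegral_algebraMap (R := OO k L δ) (x := (⟨x, hx⟩ : OO k L δ))
    · rintro _ ⟨f, rfl⟩
      exact pt_integral_toL k L δ f
  exact h1 g.2

/-- lying over for `O ⊆ O[x,y]` -/
theorem exists_point (q : Ideal (OO k L δ)) [q.IsPrime] :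
    ∃ (K : Type) (_ : Field K) (_ : Algebra k K) (ψ : OR k L δ →ₐ[k] K),
      RingHom.ker (ψ.comp (oR k L δ)) = q := by
  let _ : Algebra (OO k L δ) (OR k L δ) := ((oR k L δ : OO k L δ →ₐ[k] OR k L δ) :
    OO k L δ →+* OR k L δ).toAlgebra
  have hint : Algebra.IsIntegral (OO k L δ) (OR k L δ) := by
    refine ⟨fun g => ?_⟩
    obtain ⟨p, hp, hp0⟩ := pt_integral_OR k L δ g
    refine ⟨p, hp, ?_⟩
    have h1 : ((Polynomial.eval₂ (algebraMap (OO k L δ) (OR k L δ)) g p : OR k L δ) : L) =
        Polynomial.eval₂ (algebraMap (OO k L δ) L) (g : L) p := by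
      have := Polynomial.hom_eval₂ p (algebraMap (OO k L δ) (OR k L δ))
        (((OR k L δ).val : OR k L δ →ₐ[k] L) : OR k L δ →+* L) g
      exact this
    apply Subtype.ext
    rw [h1, hp0]
    rfl
  have hinj : Function.Injective (algebraMap (OO k L δ) (OR k L δ)) :=
    Subalgebra.inclusion_injective (S := OO k L δ) (T := OR k L δ) le_sup_left
  obtain ⟨Q, -, hQ, hQq⟩ := Ideal.exists_ideal_over_prime_of_isIntegral q (⊥ : Ideal (OR k L δ))
    (by
      intro x hx
      have h1 : algebraMap (OO k L δ) (OR k L δ) x = 0 := Ideal.mem_bot.mp (Ideal.mem_comap.mp hx)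
      have h2 : x = 0 := hinj (h1.trans (map_zero _).symm)
      rw [h2]
      exact q.zero_mem)
  refine ⟨FractionRing (OR k L δ ⧸ Q), inferInstance, inferInstance,
    (IsScalarTower.toAlgHom k (OR k L δ ⧸ Q) (FractionRing (OR k L δ ⧸ Q))).comp
      (Ideal.Quotient.mkₐ k Q), ?_⟩
  ext x
  rw [← hQq, RingHom.mem_ker, Ideal.mem_comap]
  have h1 : Function.Injective (algebraMap (OR k L δ ⧸ Q) (FractionRing (OR k L δ ⧸ Q))) :=
    IsFractionRing.injective _ _
  have h2 : algebraMap (OR k L δ ⧸ Q) (FractionRing (OR k L δ ⧸ Q))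
      (Ideal.Quotient.mk Q (oR k L δ x)) = 0 ↔ Ideal.Quotient.mk Q (oR k L δ x) = 0 :=
    map_eq_zero_iff _ h1
  exact h2.trans Ideal.Quotient.eq_zero_iff_mem

end

end Pool.Agent.Lib.MP_463376_co
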