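import Pool.Agent.Lib.MP_463376_co.F_Pts
import Pool.Agent.Lib.MP_463376_co.F_Pt
import Pool.Agent.Lib.MP_463376_co.I5

/-! Stream F, JOB F5b: primes of height one. -/

namespace Pool.Agent.Lib.MP_463376_co

open MvPolynomial

/-- the transcendence degree of `A / q` is at most that of `O / (q ∩ O)` if `A` consists of
fractions of elements of `O` -/
private theorem fht_trdeg_abs (k : Type) [Field k] {O' A' : Type} [CommRing O'] [CommRing A']
    [Algebra k O'] [Algebra k A'] (i : O' →ₐ[k] A') (q : Ideal A') [q.IsPrime]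
    (H : ∀ v : A', ∃ a b : O', i b ∉ q ∧ i b * v = i a) :
    Algebra.trdeg k (A' ⧸ q) ≤ Algebra.trdeg k (O' ⧸ q.comap i) := by
  let f : (O' ⧸ q.comap i) →ₐ[k] (A' ⧸ q) := Ideal.quotientMapₐ q i le_rfl
  have hf : Function.Injective f := Ideal.quotientMap_injective
  let _ : Algebra (O' ⧸ q.comap i) (A' ⧸ q) := f.toRingHom.toAlgebra
  have : IsScalarTower k (O' ⧸ q.comap i) (A' ⧸ q) :=
    IsScalarTower.of_algebraMap_eq fun x => (f.commutes x).symm
  have : FaithfulSMul (O' ⧸ q.comap i) (A' ⧸ q) :=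
    (faithfulSMul_iff_algebraMap_injective _ _).2 hf
  have : Algebra.IsAlgebraic (O' ⧸ q.comap i) (A' ⧸ q) := by
    refine ⟨fun x => ?_⟩
    obtain ⟨v, rfl⟩ := Ideal.Quotient.mk_surjective x
    obtain ⟨a, b, hb, hab⟩ := H v
    refine ⟨Polynomial.C (Ideal.Quotient.mk _ b) * Polynomial.X -
      Polynomial.C (Ideal.Quotient.mk _ a), ?_, ?_⟩
    · intro h
      have h1 := congrArg (fun p => Polynomial.coeff p 1) h
      simp only [Polynomial.coeff_sub, Polynomial.coeff_C_mul, Polynomial.coeff_X_one, mul_one,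
        Polynomial.coeff_C_succ, sub_zero, Polynomial.coeff_zero] at h1
      rw [Ideal.Quotient.eq_zero_iff_mem] at h1
      exact hb h1
    · have e3 : algebraMap (O' ⧸ q.comap i) (A' ⧸ q) (Ideal.Quotient.mk _ b) =
        Ideal.Quotient.mk q (i b) := rfl
      have e4 : algebraMap (O' ⧸ q.comap i) (A' ⧸ q) (Ideal.Quotient.mk _ a) =
        Ideal.Quotient.mk q (i a) := rfl
      simp only [map_sub, map_mul, Polynomial.aeval_C, Polynomial.aeval_X]
      rw [e3, e4, ← map_mul, hab, sub_self]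
  have h3 := trdeg_add_eq k (O' ⧸ q.comap i) (A := A' ⧸ q)
  have h4 : Algebra.trdeg (O' ⧸ q.comap i) (A' ⧸ q) = 0 := trdeg_eq_zero
  rw [h4, add_zero] at h3
  exact h3.ge

section

variable (k : Type) [Field k] {ι : Type} [Fintype ι] [DecidableEq ι]
  (L : Type) [Field L] [Algebra k L] [Algebra (RR k ι) L]
  [IsScalarTower k (RR k ι) L] (δ : Dia ι)

private theorem fht_OO_le_AA : OO k L δ ≤ AA k L δ := fun _ hx =>
  Algebra.subset_adjoin (Or.inl hx)

/-- the inclusion `O → A` -/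
private noncomputable def fht_i : OO k L δ →ₐ[k] AA k L δ :=
  Subalgebra.inclusion (fht_OO_le_AA k L δ)

private theorem fht_i_coe (b : OO k L δ) : ((fht_i k L δ b : AA k L δ) : L) = b := by
  unfold fht_i
  exact Subalgebra.coe_inclusion (fht_OO_le_AA k L δ) b

end

section

variable (k : Type) [Field k] [CharZero k] {ι : Type} [Fintype ι] [DecidableEq ι]
  (L : Type) [Field L] [Algebra k L] [Algebra (RR k ι) L]
  [IsScalarTower k (RR k ι) L] [IsFractionRing (RR k ι) L] (δ : Dia ι)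

/-- elements of `O` outside `nn` are units of `A` -/
private theorem fht_inv (b : OO k L δ) (hb : b ∉ nn k L δ) :
    ∃ c : AA k L δ, c * fht_i k L δ b = 1 := by
  have hb0 : (b : L) ≠ 0 := by
    intro h0
    apply hb
    have h1 : b = 0 := Subtype.ext h0
    rw [h1]
    exact (nn k L δ).zero_mem
  have h1 : ((b : L))⁻¹ ∈ AA k L δ := (mem_AA_iff k L δ _).2 ⟨1, b, hb, by
    rw [OneMemClass.coe_one]
    exact inv_mul_cancel₀ hb0⟩
  refine ⟨⟨((b : L))⁻¹, h1⟩, Subtype.ext ?_⟩
  rw [MulMemClass.coe_mul, fht_i_coe, OneMemClass.coe_one]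
  exact inv_mul_cancel₀ hb0

/-- elements of `O` outside `nn` do not lie in a prime of `A` -/
private theorem fht_notMem (q : Ideal (AA k L δ)) [hq : q.IsPrime] (b : OO k L δ)
    (hb : b ∉ nn k L δ) : fht_i k L δ b ∉ q := by
  intro h
  obtain ⟨c, hc⟩ := fht_inv k L δ b hb
  apply hq.ne_top
  rw [Ideal.eq_top_iff_one, ← hc]
  exact q.mul_mem_left _ h

/-- the transcendence degree of `A / q` is at most that of `O / (q ∩ O)` -/
private theorem fht_trdeg (q : Ideal (AA k L δ)) [q.IsPrime] :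
    Algebra.trdeg k (AA k L δ ⧸ q) ≤ Algebra.trdeg k (OO k L δ ⧸ q.comap (fht_i k L δ)) := by
  apply fht_trdeg_abs
  intro v
  obtain ⟨a, b, hb, hab⟩ := (mem_AA_iff k L δ (v : L)).1 v.2
  refine ⟨a, b, fht_notMem k L δ q b hb, Subtype.ext ?_⟩
  rw [MulMemClass.coe_mul, fht_i_coe, fht_i_coe, mul_comm]
  exact hab

/-- over a prime of height one there are at least `n - 1` points -/
theorem points_of_height_one (q : Ideal (AA k L δ)) [q.IsPrime] (hq : q.height = 1)
    {K : Type} [Field K] [Algebra k K] (ψ : OR k L δ →ₐ[k] K)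
    (hψ : ∀ (u : OO k L δ) (v : AA k L δ), (v : L) = u → ψ (oR k L δ u) = 0 → v ∈ q) :
    Fintype.card ι ≤ Nat.card (Set.range fun i : ι =>
        (ψ (toOR k L δ (xx i)), ψ (toOR k L δ (yy i)))) + 1 := by
  have h1 := trdeg_of_height_one k L δ q hq
  have h2 := trdeg_le_points k L δ ψ
  have h3 := fht_trdeg k L δ q
  have h4 : RingHom.ker (ψ.comp (oR k L δ)) ≤ q.comap (fht_i k L δ) := by
    intro u hu
    exact hψ u _ (fht_i_coe k L δ u) hu
  have h5 : Algebra.trdeg k (OO k L δ ⧸ q.comap (fht_i k L δ)) ≤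
      Algebra.trdeg k (OO k L δ ⧸ RingHom.ker (ψ.comp (oR k L δ))) :=
    trdeg_le_of_surjective (Ideal.Quotient.factorₐ k h4)
      (Ideal.Quotient.factor_surjective h4)
  generalize Nat.card (Set.range fun i : ι =>
        (ψ (toOR k L δ (xx i)), ψ (toOR k L δ (yy i)))) = s at h2 ⊢
  have h8 := (h3.trans h5).trans h2
  generalize Algebra.trdeg k (AA k L δ ⧸ q) = c at h1 h8
  have h6 : ((2 * Fintype.card ι : ℕ) : Cardinal) ≤ ((Fintype.card ι + s + 1 : ℕ) : Cardinal) := by
    rw [← h1, Nat.cast_succ]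
    exact add_le_add_left h8 1
  have h7 : 2 * Fintype.card ι ≤ Fintype.card ι + s + 1 := by exact_mod_cast h6
  omega

theorem exists_good (q : Ideal (AA k L δ)) [q.IsPrime] (hq : q.height = 1) :
    ∃ a b : k, Good k L δ q a b := by
  obtain ⟨K, _, _, ψ, hψ⟩ := exists_point k L δ (q.comap (fht_i k L δ))
  have h1 : ∀ u : OO k L δ, ψ (oR k L δ u) = 0 ↔ fht_i k L δ u ∈ q := by
    intro u
    have h : u ∈ RingHom.ker (ψ.comp (oR k L δ)) ↔ u ∈ q.comap (fht_i k L δ) := by rw [hψ]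
    exact h
  have h2 := points_of_height_one k L δ q hq ψ (by
    intro u v huv h0
    have h3 := (h1 u).1 h0
    have h4 : v = fht_i k L δ u := Subtype.ext (huv.trans (fht_i_coe k L δ u).symm)
    rw [h4]
    exact h3)
  obtain ⟨a, b, u, hu, hu'⟩ := good_of_points' k L δ ψ h2
  exact ⟨a, b, fht_i k L δ u, fun h => hu ((h1 u).2 h), by rw [fht_i_coe]; exact hu'⟩

end

end Pool.Agent.Lib.MP_463376_co
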