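import Pool.Agent.Lib.MP_463376_co.I1
import Pool.Agent.Lib.MP_463376_co.B_Pur

/-! PART 2: purity (stream B) -/

namespace Pool.Agent.Lib.MP_463376_co

open MvPolynomial RingTheory.Sequence

section

variable (k : Type) [Field k] [CharZero k] {ι : Type} [Fintype ι] [DecidableEq ι]
  (L : Type) [Field L] [Algebra k L] [Algebra (RR k ι) L]
  [IsScalarTower k (RR k ι) L] [IsFractionRing (RR k ι) L] (δ : Dia ι)

/-- PART 1-2: purity -/
theorem purity_PP (I : Ideal (BB k ι)) [I.IsPrime] (g : PP k L δ) (hg : g ∉ I.map (yP k L δ))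
    (q : Ideal (OO k L δ)) [q.IsPrime]
    (hq : ∀ a : OO k L δ, a ∈ q ↔ ∃ h ∈ I.map (yP k L δ), (h : L) = a * g) :
    (Fintype.card ι : Cardinal) + Algebra.trdeg k (BB k ι ⧸ I) ≤
      Algebra.trdeg k (OO k L δ ⧸ q) :=
  StreamB.purity k L δ I g hg q (fun a ha => (hq a).1 ha)

end

end Pool.Agent.Lib.MP_463376_co
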