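import Pool.Agent.Lib.MP_463376_co.F_Base
import Pool.Agent.Lib.MP_463376_co.I2

/-! Stream F, JOB F1a: weak regularity for `C`. -/

namespace Pool.Agent.Lib.MP_463376_co

open MvPolynomial RingTheory.Sequence

section

variable (k : Type) [Field k] [CharZero k] {ι : Type} [Fintype ι] [DecidableEq ι]
  (L : Type) [Field L] [Algebra k L] [Algebra (RR k ι) L]
  [IsScalarTower k (RR k ι) L] [IsFractionRing (RR k ι) L] (δ : Dia ι)

theorem F_a1_nn_prime : (nn k L δ).IsPrime := by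
  obtain ⟨φ, hφ⟩ := residue k L δ
  rw [← hφ]
  exact RingHom.ker_isPrime φ

/-- the denominators, in `P` -/
noncomputable def F_a1_M : Submonoid (PP k L δ) where
  carrier := {p | ∃ b : OO k L δ, b ∉ nn k L δ ∧ (p : L) = b}
  mul_mem' := by
    rintro p p' ⟨b, hb, h⟩ ⟨b', hb', h'⟩
    refine ⟨b * b', fun h0 => ?_, ?_⟩
    · exact ((F_a1_nn_prime k L δ).mem_or_mem h0).elim hb hb'
    · rw [MulMemClass.coe_mul, MulMemClass.coe_mul, h, h']
  one_mem' := by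
    refine ⟨1, fun h0 => ?_, ?_⟩
    · exact (F_a1_nn_prime k L δ).ne_top (Ideal.eq_top_of_isUnit_mem _ h0 isUnit_one)
    · rw [OneMemClass.coe_one, OneMemClass.coe_one]

/-- `C` as a `P`-algebra -/
@[reducible] noncomputable def F_a1_alg : Algebra (PP k L δ) (CC k L δ) :=
  (Subalgebra.inclusion (le_sup_right : PP k L δ ≤ CC k L δ)).toRingHom.toAlgebra

theorem F_a1_coe (p : PP k L δ) :
    ((@algebraMap _ _ _ _ (F_a1_alg k L δ) p : CC k L δ) : L) = p :=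
  Subalgebra.coe_inclusion (le_sup_right : PP k L δ ≤ AA k L δ ⊔ PP k L δ) p

theorem F_a1_mem (b : OO k L δ) (hb : b ∉ nn k L δ) (p : PP k L δ) (hp : (p : L) = b) :
    p ∈ F_a1_M k L δ := ⟨b, hb, hp⟩

theorem F_a1_loc : @IsLocalization _ _ (F_a1_M k L δ) (CC k L δ) _ (F_a1_alg k L δ) := by
  letI := F_a1_alg k L δ
  refine ⟨?_, ?_, ?_⟩
  · rintro ⟨p, b, hb, hp⟩
    have hb0 : (b : L) ≠ 0 := by
      intro h0
      apply hb
      have : b = 0 := Subtype.ext h0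
      rw [this]
      exact Ideal.zero_mem _
    have hinv : (b : L)⁻¹ ∈ CC k L δ :=
      (le_sup_left : AA k L δ ≤ CC k L δ) (Algebra.subset_adjoin (Or.inr ⟨b, hb, by
        rw [inv_mul_cancel₀ hb0]⟩))
    refine IsUnit.of_mul_eq_one (⟨(b : L)⁻¹, hinv⟩ : CC k L δ) (Subtype.ext ?_)
    rw [MulMemClass.coe_mul, OneMemClass.coe_one, F_a1_coe, hp, mul_inv_cancel₀ hb0]
  · rintro ⟨g, hg⟩
    obtain ⟨b, hb, hgb⟩ := (mem_CC_iff k L δ g).1 hg
    obtain ⟨p, hp⟩ : ∃ p : PP k L δ, (p : L) = b := ⟨⟨b, OO_le_PP k L δ b.2⟩, rfl⟩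
    obtain ⟨r, hr⟩ : ∃ r : PP k L δ, (r : L) = g * b := ⟨⟨g * b, hgb⟩, rfl⟩
    refine ⟨(r, ⟨p, F_a1_mem k L δ b hb p hp⟩), ?_⟩
    apply Subtype.ext
    rw [MulMemClass.coe_mul, F_a1_coe, F_a1_coe, hr, hp]
  · intro x y h
    refine ⟨1, ?_⟩
    have h1 := congrArg (Subtype.val) h
    rw [F_a1_coe, F_a1_coe] at h1
    rw [Subtype.ext h1]

theorem weaklyRegular_CC' (rs : List (BB k ι)) (h : IsWeaklyRegular (BB k ι) rs) :
    IsWeaklyRegular (CC k L δ) (rs.map (yC k L δ)) := by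
  letI := F_a1_alg k L δ
  haveI := F_a1_loc k L δ
  have h1 := (weaklyRegular_PP k L δ rs h).of_isLocalization (T := F_a1_M k L δ)
    (S := CC k L δ)
  rw [List.map_map] at h1
  have h2 : (⇑(algebraMap (PP k L δ) (CC k L δ)) ∘ ⇑(yP k L δ)) = ⇑(yC k L δ) := by
    funext b
    apply Subtype.ext
    simp only [Function.comp_apply]
    rw [F_a1_coe]
    exact (Subalgebra.coe_inclusion (le_sup_right : PP k L δ ≤ AA k L δ ⊔ PP k L δ) _).symm
  rwa [h2] at h1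

end

end Pool.Agent.Lib.MP_463376_co
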