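import Pool.Agent.Lib.MP_463376_co.F_Fin
import Pool.Agent.Lib.MP_463376_co.F_a1

/-! Stream F, JOB F7: if `u_l g ∈ C` for all `l` then `g ∈ C`. -/

set_option linter.unusedSectionVars false

namespace Pool.Agent.Lib.MP_463376_co

open MvPolynomial RingTheory.Sequence
open scoped Pointwise

/-- Two different pairs with the same values. -/
private theorem F_Mem_pairs {ι α : Type} [Fintype ι] [DecidableEq ι] (f : ι → α)
    (h : Nat.card (Set.range f) + 2 ≤ Fintype.card ι) :
    ∃ i j i' j' : ι, i ≠ j ∧ i' ≠ j' ∧ i' ≠ j ∧ j' ≠ j ∧ f i = f j ∧ f i' = f j' := by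
  classical
  have hr : Nat.card (Set.range f) = (Finset.univ.image f).card := by
    rw [Nat.card_eq_fintype_card, ← Set.toFinset_card, Set.toFinset_range]
  rw [hr] at h
  obtain ⟨i, -, j, -, hij, he⟩ := Finset.exists_ne_map_eq_of_card_lt_of_maps_to
    (s := (Finset.univ : Finset ι)) (t := Finset.univ.image f) (f := f)
    (by rw [Finset.card_univ]; omega) (fun x _ => Finset.mem_image_of_mem f (Finset.mem_univ x))
  obtain ⟨i', hi', j', hj', hij', he'⟩ := Finset.exists_ne_map_eq_of_card_lt_of_maps_to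
    (s := (Finset.univ.erase j : Finset ι)) (t := Finset.univ.image f) (f := f)
    (by rw [Finset.card_erase_of_mem (Finset.mem_univ j), Finset.card_univ]; omega)
    (fun x _ => Finset.mem_image_of_mem f (Finset.mem_univ x))
  exact ⟨i, j, i', j', hij, hij', (Finset.mem_erase.1 hi').1, (Finset.mem_erase.1 hj').1, he, he'⟩

/-- `y_i - y_j`, `y_i' - y_j'` is a weakly regular sequence in `k[y]`. -/
private theorem F_Mem_reg {k : Type} [Field k] {ι : Type} [DecidableEq ι] {i j i' j' : ι}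
    (h1 : i ≠ j) (h2 : i' ≠ j') (h3 : i' ≠ j) (h4 : j' ≠ j) :
    IsWeaklyRegular (BB k ι) [(X i - X j : BB k ι), X i' - X j'] := by
  have hne : ∀ a b : ι, a ≠ b → (X a - X b : BB k ι) ≠ 0 := by
    intro a b hab h0
    exact hab (X_injective (sub_eq_zero.1 h0))
  rw [isWeaklyRegular_cons_iff, isWeaklyRegular_cons_iff]
  refine ⟨?_, ?_, IsWeaklyRegular.nil _ _⟩
  · exact IsSMulRegular.of_ne_zero (hne i j h1)
  · -- the substitution `y_j := y_i`
    let φ : BB k ι →ₐ[k] BB k ι := aeval (Function.update X j (X i))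
    have hφ1 : φ (X i - X j) = 0 := by
      simp [φ, Function.update_of_ne h1]
    have hφ2 : φ (X i' - X j') = X i' - X j' := by
      simp [φ, Function.update_of_ne h3, Function.update_of_ne h4]
    have hφ3 : ∀ f : BB k ι, f - φ f ∈ Ideal.span {(X i - X j : BB k ι)} := by
      intro f
      have e : (Ideal.Quotient.mkₐ k (Ideal.span {(X i - X j : BB k ι)})) =
          (Ideal.Quotient.mkₐ k (Ideal.span {(X i - X j : BB k ι)})).comp φ := by
        apply MvPolynomial.algHom_ext
        intro m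
        by_cases hm : m = j
        · subst hm
          simp only [AlgHom.comp_apply, φ, aeval_X, Function.update_self,
            Ideal.Quotient.mkₐ_eq_mk]
          rw [eq_comm, Ideal.Quotient.eq]
          exact Ideal.subset_span rfl
        · simp only [AlgHom.comp_apply, φ, aeval_X, Function.update_of_ne hm]
      have e' := DFunLike.congr_fun e f
      rw [AlgHom.comp_apply, Ideal.Quotient.mkₐ_eq_mk] at e'
      exact Ideal.Quotient.eq.1 e'
    change IsSMulRegular ((BB k ι) ⧸ ((X i - X j : BB k ι) • (⊤ : Submodule (BB k ι) (BB k ι))))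
      (X i' - X j' : BB k ι)
    rw [isSMulRegular_quotient_iff_mem_of_smul_mem]
    intro f hf
    obtain ⟨y, -, hy⟩ := Submodule.mem_smul_pointwise_iff_exists _ _ _ |>.1 hf
    have h5 : φ f = 0 := by
      have h6 := congrArg φ hy
      rw [smul_eq_mul, smul_eq_mul, map_mul, map_mul, hφ1, zero_mul, hφ2] at h6
      exact (mul_eq_zero.1 h6.symm).resolve_left (hne i' j' h2)
    have h6 := hφ3 f
    rw [h5, sub_zero, Ideal.mem_span_singleton'] at h6
    obtain ⟨z, hz⟩ := h6
    refine Submodule.mem_smul_pointwise_iff_exists _ _ _ |>.2 ⟨z, Submodule.mem_top, ?_⟩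
    rw [smul_eq_mul, mul_comm]
    exact hz

section

variable (k : Type) [Field k] [CharZero k] {ι : Type} [Fintype ι] [DecidableEq ι]
  (L : Type) [Field L] [Algebra k L] [Algebra (RR k ι) L]
  [IsScalarTower k (RR k ι) L] [IsFractionRing (RR k ι) L] (δ : Dia ι)

private theorem F_Mem_coe_toC (f : RR k ι) : ((toC k L δ f : CC k L δ) : L) = toL k L f := by
  exact (Subalgebra.coe_inclusion (le_sup_right : PP k L δ ≤ AA k L δ ⊔ PP k L δ)
    (toP k L δ f)).trans (AlgHom.coe_codRestrict (toL k L) (PP k L δ) (toL_mem_PP k L δ) f)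

private theorem F_Mem_coe_toOR (f : RR k ι) : ((toOR k L δ f : OR k L δ) : L) = toL k L f :=
  Subalgebra.coe_inclusion
    (le_sup_right : (toL k L : RR k ι →ₐ[k] L).range ≤ OO k L δ ⊔ (toL k L).range)
    ((toL k L).rangeRestrict f)

private theorem F_Mem_OO_le_AA : OO k L δ ≤ AA k L δ := by
  intro x hx
  exact Algebra.subset_adjoin (Or.inl hx)

private theorem F_Mem_OR_le_CC : OR k L δ ≤ CC k L δ := by
  unfold OR
  refine sup_le ?_ ?_
  · exact (F_Mem_OO_le_AA k L δ).trans le_sup_left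
  · rintro x ⟨f, rfl⟩
    exact (le_sup_right : PP k L δ ≤ AA k L δ ⊔ PP k L δ) (toL_mem_PP k L δ f)

/-- the ideal `{c ∈ C : c h ∈ C}` -/
private def F_Mem_col (h : L) : Ideal (CC k L δ) where
  carrier := {c | (c : L) * h ∈ CC k L δ}
  add_mem' := by
    intro a b ha hb
    have e : ((a + b : CC k L δ) : L) * h = a * h + b * h := by
      rw [Subalgebra.coe_add, add_mul]
    change ((a + b : CC k L δ) : L) * h ∈ CC k L δ
    rw [e]
    exact add_mem ha hb
  zero_mem' := by
    change ((0 : CC k L δ) : L) * h ∈ CC k L δ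
    rw [Subalgebra.coe_zero, zero_mul]
    exact zero_mem _
  smul_mem' := by
    intro c a ha
    change ((c • a : CC k L δ) : L) * h ∈ CC k L δ
    rw [smul_eq_mul, Subalgebra.coe_mul, mul_assoc]
    exact mul_mem c.2 ha

private theorem F_Mem_mem_col (h : L) (c : CC k L δ) :
    c ∈ F_Mem_col k L δ h ↔ (c : L) * h ∈ CC k L δ := Iff.rfl

private theorem F_Mem_noeth : IsNoetherianRing (CC k L δ) := by
  have h0 := AA_regular k L δ
  have h1 : IsNoetherianRing (AA k L δ) := inferInstance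
  have h2 := CC_finite' k L δ
  exact IsNoetherianRing.of_finite (AA k L δ) (CC k L δ)

theorem mem_CC_of_uu (g : L)
    (hg : ∀ (a b : k) (u : AA k L δ), (u : L) * toL k L (dl k δ) = toL k L (vdl ι a b) →
      (u : L) * g ∈ CC k L δ) : g ∈ CC k L δ := by
  by_contra hgC
  have hN := F_Mem_noeth k L δ
  -- a maximal colon ideal
  let S : Set (Ideal (CC k L δ)) := {I | ∃ c : CC k L δ, (c : L) * g ∉ CC k L δ ∧
    I = F_Mem_col k L δ ((c : L) * g)}
  have hS : S.Nonempty := ⟨F_Mem_col k L δ (((1 : CC k L δ) : L) * g), 1, by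
    rw [Subalgebra.coe_one, one_mul]; exact hgC, rfl⟩
  obtain ⟨Q, ⟨c₀, hc₀, hQ⟩, hmax⟩ := set_has_maximal_iff_noetherian.2 hN S hS
  have hQp : Ideal.IsPrime Q := by
    refine ⟨?_, ?_⟩
    · rw [Ideal.ne_top_iff_one, hQ, F_Mem_mem_col, Subalgebra.coe_one, one_mul]
      exact hc₀
    · intro x y hxy
      by_contra hcon
      rw [not_or] at hcon
      have hy : ((y * c₀ : CC k L δ) : L) * g ∉ CC k L δ := by
        have h1 := hcon.2
        rw [hQ, F_Mem_mem_col] at h1
        rwa [Subalgebra.coe_mul, mul_assoc]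
      have hle : Q ≤ F_Mem_col k L δ (((y * c₀ : CC k L δ) : L) * g) := by
        intro z hz
        rw [hQ, F_Mem_mem_col] at hz
        rw [F_Mem_mem_col]
        have e : (z : L) * (((y * c₀ : CC k L δ) : L) * g) = y * (z * (c₀ * g)) := by
          rw [Subalgebra.coe_mul]; ring
        rw [e]
        exact mul_mem y.2 hz
      have hnlt := hmax _ ⟨y * c₀, hy, rfl⟩
      have heq : Q = F_Mem_col k L δ (((y * c₀ : CC k L δ) : L) * g) := by
        by_contra hne
        exact hnlt (lt_of_le_of_ne hle hne)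
      apply hcon.1
      rw [heq, F_Mem_mem_col]
      rw [hQ, F_Mem_mem_col, Subalgebra.coe_mul] at hxy
      have e : (x : L) * (((y * c₀ : CC k L δ) : L) * g) = x * y * (c₀ * g) := by
        rw [Subalgebra.coe_mul]; ring
      rw [e]
      exact hxy
  -- the homomorphism to the residue field
  obtain ⟨K, _, _, π, hπ⟩ : ∃ (K : Type) (_ : Field K) (_ : Algebra k K)
      (π : CC k L δ →ₐ[k] K), ∀ c : CC k L δ, π c = 0 ↔ c ∈ Q := by
    refine ⟨FractionRing (CC k L δ ⧸ Q), inferInstance, inferInstance,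
      (IsScalarTower.toAlgHom k (CC k L δ ⧸ Q) (FractionRing (CC k L δ ⧸ Q))).comp
        (Ideal.Quotient.mkₐ k Q), fun c => ?_⟩
    change algebraMap (CC k L δ ⧸ Q) (FractionRing (CC k L δ ⧸ Q)) (Ideal.Quotient.mk Q c) = 0 ↔ _
    rw [map_eq_zero_iff _ (IsFractionRing.injective (CC k L δ ⧸ Q)
      (FractionRing (CC k L δ ⧸ Q))), Ideal.Quotient.eq_zero_iff_mem]
  let inc : OR k L δ →ₐ[k] CC k L δ := Subalgebra.inclusion (F_Mem_OR_le_CC k L δ)
  have hinc : ∀ x : OR k L δ, ((inc x : CC k L δ) : L) = x := fun x =>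
    Subalgebra.coe_inclusion _ x
  let ψ : OR k L δ →ₐ[k] K := π.comp inc
  have hinc2 : ∀ f : RR k ι, inc (toOR k L δ f) = toC k L δ f := by
    intro f
    apply Subtype.ext
    rw [hinc, F_Mem_coe_toC, F_Mem_coe_toOR]
  have hψ0 : ∀ (a b : k) (u : OO k L δ), (u : L) * toL k L (dl k δ) = toL k L (vdl ι a b) →
      ψ (oR k L δ u) = 0 := by
    intro a b u hu
    change π (inc (oR k L δ u)) = 0
    rw [hπ, hQ, F_Mem_mem_col, hinc]
    have e : ((oR k L δ u : OR k L δ) : L) = u := Subalgebra.coe_inclusion _ u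
    rw [e, mul_left_comm]
    exact mul_mem c₀.2 (hg a b ⟨u, F_Mem_OO_le_AA k L δ u.2⟩ hu)
  have hcard : Nat.card (Set.range fun i : ι =>
      (ψ (toOR k L δ (xx i)), ψ (toOR k L δ (yy i)))) + 2 ≤ Fintype.card ι := by
    by_contra hcon
    obtain ⟨a, b, u, hu0, hu⟩ := good_of_points' k L δ ψ (by omega)
    exact hu0 (hψ0 a b u hu)
  obtain ⟨i, j, i', j', h1, h2, h3, h4, h5, h6⟩ := F_Mem_pairs _ hcard
  have hyQ : ∀ m m' : ι, (ψ (toOR k L δ (xx m)), ψ (toOR k L δ (yy m))) =
      (ψ (toOR k L δ (xx m')), ψ (toOR k L δ (yy m'))) → yC k L δ (X m - X m') ∈ Q := by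
    intro m m' he
    have he' : ψ (toOR k L δ (yy m)) = ψ (toOR k L δ (yy m')) := (Prod.mk.inj he).2
    have h7 : ψ (toOR k L δ (yy m - yy m')) = 0 := by
      rw [map_sub, map_sub, he', sub_self]
    have h8 : yC k L δ (X m - X m') = toC k L δ (yy m - yy m') := by
      unfold yC yB
      rw [AlgHom.comp_apply, map_sub, rename_X, rename_X]
      rfl
    rw [h8, ← hinc2, ← hπ]
    exact h7
  have hq1 := hyQ i j h5
  have hq2 := hyQ i' j' h6
  have hreg := weaklyRegular_CC' k L δ _ (F_Mem_reg (k := k) h1 h2 h3 h4)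
  simp only [List.map_cons, List.map_nil] at hreg
  rw [isWeaklyRegular_cons_iff, isWeaklyRegular_cons_iff] at hreg
  obtain ⟨-, hreg, -⟩ := hreg
  have hreg' : ∀ x : CC k L δ, yC k L δ (X i' - X j') * x ∈
      (yC k L δ (X i - X j) • (⊤ : Submodule (CC k L δ) (CC k L δ))) →
      x ∈ (yC k L δ (X i - X j) • (⊤ : Submodule (CC k L δ) (CC k L δ))) :=
    (isSMulRegular_quotient_iff_mem_of_smul_mem _ _).1 hreg
  rw [hQ, F_Mem_mem_col] at hq1 hq2
  -- the contradiction
  have hr1 : ((yC k L δ (X i - X j) : CC k L δ) : L) ≠ 0 := by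
    have h8 : yC k L δ (X i - X j) = toC k L δ (yy i - yy j) := by
      unfold yC yB
      rw [AlgHom.comp_apply, map_sub, rename_X, rename_X]
      rfl
    rw [h8, F_Mem_coe_toC]
    apply toL_ne_zero
    intro h0
    have h9 : (Sum.inr i : ι ⊕ ι) = Sum.inr j := X_injective (sub_eq_zero.1 h0)
    exact h1 (Sum.inr_injective h9)
  set r1 : CC k L δ := yC k L δ (X i - X j) with hr1def
  set r2 : CC k L δ := yC k L δ (X i' - X j') with hr2def
  have hx := hreg' ⟨(r1 : L) * ((c₀ : L) * g), hq1⟩ (by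
    refine Submodule.mem_smul_pointwise_iff_exists _ _ _ |>.2
      ⟨⟨(r2 : L) * ((c₀ : L) * g), hq2⟩, Submodule.mem_top, ?_⟩
    apply Subtype.ext
    rw [smul_eq_mul, Subalgebra.coe_mul, Subalgebra.coe_mul]
    change (r1 : L) * ((r2 : L) * ((c₀ : L) * g)) = (r2 : L) * ((r1 : L) * ((c₀ : L) * g))
    ring)
  obtain ⟨c', -, hc'⟩ := Submodule.mem_smul_pointwise_iff_exists _ _ _ |>.1 hx
  have hc'' : (r1 : L) * (c' : L) = (r1 : L) * ((c₀ : L) * g) := by
    have := congrArg (fun z : CC k L δ => (z : L)) hc'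
    simpa [Subalgebra.coe_mul] using this
  have : (c₀ : L) * g = (c' : L) := (mul_left_cancel₀ hr1 hc'').symm
  exact hc₀ (this ▸ c'.2)

end

end Pool.Agent.Lib.MP_463376_co
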