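import Pool.Agent.Lib.MP_463376_co.F_Pts2

/-! Stream F, JOB F2c: counting points. -/

namespace Pool.Agent.Lib.MP_463376_co

open MvPolynomial

section

variable (k : Type) [Field k] [CharZero k] {ι : Type} [Fintype ι] [DecidableEq ι]
  (L : Type) [Field L] [Algebra k L] [Algebra (RR k ι) L]
  [IsScalarTower k (RR k ι) L] [IsFractionRing (RR k ι) L] (δ : Dia ι)

private theorem F_Pts3_cO (h h' : ι) : cO k L δ (δ.c h) h' = if h = h' then 1 else 0 := by
  apply Subtype.ext
  show toL k L (alt k (Function.update δ.c h' (δ.c h))) / toL k L (dl k δ) = _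
  by_cases hh : h = h'
  · rw [if_pos hh, hh, Function.update_eq_self]
    exact div_self (toL_dl_ne_zero k L δ)
  · rw [if_neg hh]
    have h1 : alt k (Function.update δ.c h' (δ.c h)) = 0 := by
      unfold alt
      refine Matrix.det_zero_of_column_eq hh fun i => ?_
      simp only [Matrix.of_apply]
      rw [Function.update_self, Function.update_of_ne hh]
    rw [h1, map_zero, zero_div]
    rfl

/-- the coordinates modulo the ideal -/
private noncomputable def F_Pts3_L {K : Type} [Field K] [Algebra k K] (φ : OO k L δ →ₐ[k] K)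
    (h : ι) : MvPolynomial (Fin 2) K →ₗ[K] K :=
  (MvPolynomial.basisMonomials (Fin 2) K).constr K
    (fun m : Fin 2 →₀ ℕ => φ (cO k L δ (m 0, m 1) h))

omit [CharZero k] [IsFractionRing (RR k ι) L] in
private theorem F_Pts3_L_apply {K : Type} [Field K] [Algebra k K] (φ : OO k L δ →ₐ[k] K)
    (h : ι) (f : MvPolynomial (Fin 2) K) : F_Pts3_L k L δ φ h f =
      ∑ m ∈ f.support, f.coeff m * φ (cO k L δ (m 0, m 1) h) := by
  unfold F_Pts3_L
  rw [Module.Basis.constr_apply]
  rfl

private theorem F_Pts3_mem {K : Type} [Field K] [Algebra k K] (φ : OO k L δ →ₐ[k] K)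
    (f : MvPolynomial (Fin 2) K) :
    f ∈ Ipt k L δ φ ↔ LinearMap.pi (F_Pts3_L k L δ φ) f = 0 := by
  rw [mem_Ipt_iff]
  constructor
  · intro h
    funext i
    rw [LinearMap.pi_apply, F_Pts3_L_apply, h i]
    rfl
  · intro h i
    have h1 := congrFun h i
    rw [LinearMap.pi_apply, F_Pts3_L_apply] at h1
    exact h1

private theorem F_Pts3_surj {K : Type} [Field K] [Algebra k K] (φ : OO k L δ →ₐ[k] K) :
    LinearMap.range (LinearMap.pi (F_Pts3_L k L δ φ)) = ⊤ := by
  rw [eq_top_iff]
  intro v _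
  rw [LinearMap.mem_range]
  refine ⟨∑ h, monomial (Finsupp.single 0 (δ.c h).1 + Finsupp.single 1 (δ.c h).2) (v h), ?_⟩
  rw [map_sum]
  have h1 : ∀ h, LinearMap.pi (F_Pts3_L k L δ φ)
      (monomial (Finsupp.single 0 (δ.c h).1 + Finsupp.single 1 (δ.c h).2) (v h)) =
      Pi.single h (v h) := by
    intro h
    funext h'
    have h2 : (monomial (Finsupp.single 0 (δ.c h).1 + Finsupp.single 1 (δ.c h).2) (v h) :
        MvPolynomial (Fin 2) K) = v h • MvPolynomial.basisMonomials (Fin 2) K
          (Finsupp.single 0 (δ.c h).1 + Finsupp.single 1 (δ.c h).2) := by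
      rw [MvPolynomial.coe_basisMonomials, smul_monomial, smul_eq_mul, mul_one]
    rw [LinearMap.pi_apply, h2, map_smul]
    unfold F_Pts3_L
    rw [Module.Basis.constr_basis]
    have h3 : (((Finsupp.single 0 (δ.c h).1 + Finsupp.single 1 (δ.c h).2 : Fin 2 →₀ ℕ) 0,
        (Finsupp.single 0 (δ.c h).1 + Finsupp.single 1 (δ.c h).2 : Fin 2 →₀ ℕ) 1)) = δ.c h := by
      simp
    rw [h3, F_Pts3_cO]
    by_cases hh : h = h'
    · subst hh
      rw [if_pos rfl, map_one, smul_eq_mul, mul_one, Pi.single_eq_same]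
    · rw [if_neg hh, map_zero, smul_zero, Pi.single_eq_of_ne (Ne.symm hh)]
  simp_rw [h1]
  exact Finset.univ_sum_single v

/-- Lagrange idempotents -/
private theorem F_Pts3_lag {K : Type} [Field K] (S : Finset (K × K)) (v : K × K → K)
    (hv : Set.InjOn v S) (hS : S.Nonempty) (I : Ideal (MvPolynomial (Fin 2) K))
    (l : MvPolynomial (Fin 2) K) (hI : ∏ p ∈ S, (l - C (v p)) ∈ I) :
    ∃ E : K × K → MvPolynomial (Fin 2) K, ∑ p ∈ S, E p = 1 ∧
      ∀ p ∈ S, (l - C (v p)) * E p ∈ I := by
  classical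
  refine ⟨fun p => Polynomial.aeval l (Lagrange.basis S v p), ?_, ?_⟩
  · rw [← map_sum, Lagrange.sum_basis hv hS, map_one]
  · intro p hp
    have h1 : Polynomial.aeval l (Lagrange.basis S v p) =
        (∏ q ∈ S.erase p, C ((v p - v q)⁻¹)) * ∏ q ∈ S.erase p, (l - C (v q)) := by
      unfold Lagrange.basis
      rw [map_prod, ← Finset.prod_mul_distrib]
      refine Finset.prod_congr rfl fun q _ => ?_
      unfold Lagrange.basisDivisor
      rw [map_mul, map_sub, Polynomial.aeval_C, Polynomial.aeval_X, Polynomial.aeval_C]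
      rfl
    have h2 : (l - C (v p)) * ∏ q ∈ S.erase p, (l - C (v q)) = ∏ q ∈ S, (l - C (v q)) :=
      Finset.mul_prod_erase S (fun q => l - C (v q)) hp
    simp only
    rw [h1, mul_left_comm, h2]
    exact Ideal.mul_mem_left _ _ hI

/-- linear algebra: if the product over the distinct points of `l - l(p)` lies in the ideal for two
independent separating linear forms then `n ≤ s` -/
theorem card_le_points {K : Type} [Field K] [Algebra k K] (ψ : OR k L δ →ₐ[k] K)
    (S : Finset (K × K))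
    (hS : ∀ i, (ψ (toOR k L δ (xx i)), ψ (toOR k L δ (yy i))) ∈ S)
    (hS' : ∀ p ∈ S, ∃ i, p = (ψ (toOR k L δ (xx i)), ψ (toOR k L δ (yy i))))
    (l : Fin 2 → k × k) (hdet : (l 0).1 * (l 1).2 ≠ (l 0).2 * (l 1).1)
    (hsep : ∀ e, Set.InjOn (fun p : K × K => algebraMap k K (l e).1 * p.1 +
      algebraMap k K (l e).2 * p.2) S)
    (hI : ∀ e, ∏ p ∈ S, (C (algebraMap k K (l e).1) * X 0 + C (algebraMap k K (l e).2) * X 1 -
      C (algebraMap k K (l e).1 * p.1 + algebraMap k K (l e).2 * p.2) :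
        MvPolynomial (Fin 2) K) ∈ Ipt k L δ (ψ.comp (oR k L δ))) :
    Fintype.card ι ≤ S.card := by
  classical
  rcases isEmpty_or_nonempty ι with hι | ⟨⟨i0⟩⟩
  · rw [Fintype.card_eq_zero]
    exact Nat.zero_le _
  have hne : S.Nonempty := ⟨_, hS i0⟩
  obtain ⟨I, hIdef⟩ : ∃ I : Ideal (MvPolynomial (Fin 2) K), I = Ipt k L δ (ψ.comp (oR k L δ)) :=
    ⟨_, rfl⟩
  rw [← hIdef] at hI
  obtain ⟨a0, ha0⟩ : ∃ a0 : K, a0 = algebraMap k K (l 0).1 := ⟨_, rfl⟩
  obtain ⟨b0, hb0⟩ : ∃ b0 : K, b0 = algebraMap k K (l 0).2 := ⟨_, rfl⟩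
  obtain ⟨a1, ha1⟩ : ∃ a1 : K, a1 = algebraMap k K (l 1).1 := ⟨_, rfl⟩
  obtain ⟨b1, hb1⟩ : ∃ b1 : K, b1 = algebraMap k K (l 1).2 := ⟨_, rfl⟩
  have hI0 := hI 0
  have hI1 := hI 1
  have hs0 := hsep 0
  have hs1 := hsep 1
  rw [← ha0, ← hb0] at hI0 hs0
  rw [← ha1, ← hb1] at hI1 hs1
  have hD : a0 * b1 - b0 * a1 ≠ 0 := by
    rw [ha0, hb0, ha1, hb1, ← map_mul, ← map_mul, ← map_sub]
    intro h
    have h2 := (algebraMap k K).injective (h.trans (map_zero _).symm)
    exact hdet (sub_eq_zero.1 h2)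
  obtain ⟨E, hE1, hE⟩ := F_Pts3_lag S (fun p => a0 * p.1 + b0 * p.2) hs0 hne I _ hI0
  obtain ⟨E', hE1', hE'⟩ := F_Pts3_lag S (fun p => a1 * p.1 + b1 * p.2) hs1 hne I _ hI1
  -- the intersection points
  obtain ⟨px, hpx⟩ : ∃ px : K × K → K × K → K, px = fun p p' =>
    ((a0 * p.1 + b0 * p.2) * b1 - b0 * (a1 * p'.1 + b1 * p'.2)) / (a0 * b1 - b0 * a1) := ⟨_, rfl⟩
  obtain ⟨py, hpy⟩ : ∃ py : K × K → K × K → K, py = fun p p' =>
    (a0 * (a1 * p'.1 + b1 * p'.2) - a1 * (a0 * p.1 + b0 * p.2)) / (a0 * b1 - b0 * a1) := ⟨_, rfl⟩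
  have hl0 : ∀ p p', a0 * px p p' + b0 * py p p' = a0 * p.1 + b0 * p.2 := by
    intro p p'
    rw [hpx, hpy]
    simp only
    rw [← mul_div_assoc, ← mul_div_assoc, ← add_div, div_eq_iff hD]
    ring
  have hl1 : ∀ p p', a1 * px p p' + b1 * py p p' = a1 * p'.1 + b1 * p'.2 := by
    intro p p'
    rw [hpx, hpy]
    simp only
    rw [← mul_div_assoc, ← mul_div_assoc, ← add_div, div_eq_iff hD]
    ring
  have hX : ∀ p ∈ S, ∀ p' ∈ S, (X 0 - C (px p p')) * (E p * E' p') ∈ I := by
    intro p hp p' hp'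
    have h1 : (X 0 - C (px p p')) * (E p * E' p') =
        C (b1 / (a0 * b1 - b0 * a1)) * E' p' *
          ((C a0 * X 0 + C b0 * X 1 - C (a0 * p.1 + b0 * p.2)) * E p) -
        C (b0 / (a0 * b1 - b0 * a1)) * E p *
          ((C a1 * X 0 + C b1 * X 1 - C (a1 * p'.1 + b1 * p'.2)) * E' p') := by
      rw [← hl0 p p', ← hl1 p p']
      have s2 : b1 / (a0 * b1 - b0 * a1) * a0 - b0 / (a0 * b1 - b0 * a1) * a1 = 1 := by
        rw [div_mul_eq_mul_div, div_mul_eq_mul_div, ← sub_div, div_eq_one_iff_eq hD]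
        ring
      have s3 : b1 / (a0 * b1 - b0 * a1) * b0 - b0 / (a0 * b1 - b0 * a1) * b1 = 0 := by
        ring
      have h2 : C (b1 / (a0 * b1 - b0 * a1)) * C a0 - C (b0 / (a0 * b1 - b0 * a1)) * C a1 =
          (1 : MvPolynomial (Fin 2) K) := by
        rw [← C_mul, ← C_mul, ← C_sub, s2, C_1]
      have h3 : C (b1 / (a0 * b1 - b0 * a1)) * C b0 - C (b0 / (a0 * b1 - b0 * a1)) * C b1 =
          (0 : MvPolynomial (Fin 2) K) := by
        rw [← C_mul, ← C_mul, ← C_sub, s3, C_0]
      simp only [C_add, C_mul]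
      linear_combination (-(X 0 - C (px p p')) * (E p * E' p')) * h2 -
        (X 1 - C (py p p')) * (E p * E' p') * h3
    rw [h1]
    exact sub_mem (Ideal.mul_mem_left _ _ (hE p hp)) (Ideal.mul_mem_left _ _ (hE' p' hp'))
  have hY : ∀ p ∈ S, ∀ p' ∈ S, (X 1 - C (py p p')) * (E p * E' p') ∈ I := by
    intro p hp p' hp'
    have h1 : (X 1 - C (py p p')) * (E p * E' p') =
        C (a0 / (a0 * b1 - b0 * a1)) * E p *
          ((C a1 * X 0 + C b1 * X 1 - C (a1 * p'.1 + b1 * p'.2)) * E' p') -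
        C (a1 / (a0 * b1 - b0 * a1)) * E' p' *
          ((C a0 * X 0 + C b0 * X 1 - C (a0 * p.1 + b0 * p.2)) * E p) := by
      rw [← hl0 p p', ← hl1 p p']
      have s2 : a0 / (a0 * b1 - b0 * a1) * b1 - a1 / (a0 * b1 - b0 * a1) * b0 = 1 := by
        rw [div_mul_eq_mul_div, div_mul_eq_mul_div, ← sub_div, div_eq_one_iff_eq hD]
        ring
      have s3 : a0 / (a0 * b1 - b0 * a1) * a1 - a1 / (a0 * b1 - b0 * a1) * a0 = 0 := by
        ring
      have h2 : C (a0 / (a0 * b1 - b0 * a1)) * C b1 - C (a1 / (a0 * b1 - b0 * a1)) * C b0 =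
          (1 : MvPolynomial (Fin 2) K) := by
        rw [← C_mul, ← C_mul, ← C_sub, s2, C_1]
      have h3 : C (a0 / (a0 * b1 - b0 * a1)) * C a1 - C (a1 / (a0 * b1 - b0 * a1)) * C a0 =
          (0 : MvPolynomial (Fin 2) K) := by
        rw [← C_mul, ← C_mul, ← C_sub, s3, C_0]
      simp only [C_add, C_mul]
      linear_combination (-(X 1 - C (py p p')) * (E p * E' p')) * h2 -
        (X 0 - C (px p p')) * (E p * E' p') * h3
    rw [h1]
    exact sub_mem (Ideal.mul_mem_left _ _ (hE' p' hp')) (Ideal.mul_mem_left _ _ (hE p hp))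
  have hf : ∀ p ∈ S, ∀ p' ∈ S, ∀ f : MvPolynomial (Fin 2) K,
      (f - C (eval ![px p p', py p p'] f)) * (E p * E' p') ∈ I := by
    intro p hp p' hp' f
    induction f using MvPolynomial.induction_on with
    | C a => simp
    | add f g hf hg =>
      have h1 : (f + g - C (eval ![px p p', py p p'] (f + g))) * (E p * E' p') =
          (f - C (eval ![px p p', py p p'] f)) * (E p * E' p') +
          (g - C (eval ![px p p', py p p'] g)) * (E p * E' p') := by
        rw [map_add, C_add]
        ring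
      rw [h1]
      exact add_mem hf hg
    | mul_X f v hf =>
      have h1 : (f * X v - C (eval ![px p p', py p p'] (f * X v))) * (E p * E' p') =
          X v * ((f - C (eval ![px p p', py p p'] f)) * (E p * E' p')) +
          C (eval ![px p p', py p p'] f) *
            ((X v - C (![px p p', py p p'] v)) * (E p * E' p')) := by
        rw [map_mul, eval_X, C_mul]
        ring
      rw [h1]
      refine add_mem (Ideal.mul_mem_left _ _ hf) (Ideal.mul_mem_left _ _ ?_)
      fin_cases v
      · exact hX p hp p' hp'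
      · exact hY p hp p' hp'
  -- nonzero products only on the diagonal
  have hdiag : ∀ p ∈ S, ∀ p' ∈ S, E p * E' p' ∉ I → p = p' := by
    intro p hp p' hp' hnot
    have hvan : ∀ f ∈ I, eval ![px p p', py p p'] f = 0 := by
      intro f hfI
      by_contra hne0
      apply hnot
      have h1 := sub_mem (Ideal.mul_mem_right (E p * E' p') I hfI) (hf p hp p' hp' f)
      have h2 : f * (E p * E' p') - (f - C (eval ![px p p', py p p'] f)) * (E p * E' p') =
          C (eval ![px p p', py p p'] f) * (E p * E' p') := by ring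
      rw [h2] at h1
      have h3 := Ideal.mul_mem_left I (C ((eval ![px p p', py p p'] f)⁻¹)) h1
      rw [← mul_assoc, ← C_mul, inv_mul_cancel₀ hne0, C_1, one_mul] at h3
      exact h3
    have hpt : (px p p', py p p') ∈ S := by
      by_contra hnotS
      have hcov : ∀ t : k, ∃ i : ι, (px p p' - ψ (toOR k L δ (xx i))) +
          algebraMap k K t * (py p p' - ψ (toOR k L δ (yy i))) = 0 := by
        intro t
        have h1 := hvan _ (hIdef ▸ Ipt_mem_points k L δ ψ 1 t)
        rw [map_prod, Finset.prod_eq_zero_iff] at h1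
        obtain ⟨i, -, h2⟩ := h1
        refine ⟨i, ?_⟩
        have h3 : ψ (toOR k L δ (lf 1 t i)) = ψ (toOR k L δ (xx i)) +
            algebraMap k K t * ψ (toOR k L δ (yy i)) := by
          unfold lf
          rw [map_add, map_mul, map_mul, C_1, map_one, one_mul, map_add, map_mul]
          congr 2
          have h4 : (C t : RR k ι) = algebraMap k (RR k ι) t := rfl
          rw [h4, AlgHom.commutes, AlgHom.commutes]
        rw [h3] at h2
        simp only [map_sub, map_add, map_mul, map_one, one_mul, eval_C, eval_X] at h2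
        have h5 : (![px p p', py p p'] : Fin 2 → K) 0 = px p p' := rfl
        have h6 : (![px p p', py p p'] : Fin 2 → K) 1 = py p p' := rfl
        rw [h5, h6] at h2
        linear_combination h2
      have hinj : ∀ i : ι, {t : k | (px p p' - ψ (toOR k L δ (xx i))) +
          algebraMap k K t * (py p p' - ψ (toOR k L δ (yy i))) = 0}.Subsingleton := by
        intro i t ht t' ht'
        by_contra htt
        apply hnotS
        simp only [Set.mem_ofPred_eq] at ht ht'
        have h1 : (algebraMap k K t - algebraMap k K t') *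
            (py p p' - ψ (toOR k L δ (yy i))) = 0 := by linear_combination ht - ht'
        have h2 : algebraMap k K t - algebraMap k K t' ≠ 0 := by
          intro h
          exact htt ((algebraMap k K).injective (sub_eq_zero.1 h))
        have h3 : py p p' = ψ (toOR k L δ (yy i)) :=
          sub_eq_zero.1 ((mul_eq_zero.1 h1).resolve_left h2)
        have h4 : px p p' = ψ (toOR k L δ (xx i)) := by
          rw [h3, sub_self, mul_zero, add_zero] at ht
          exact sub_eq_zero.1 ht
        rw [h3, h4]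
        exact hS i
      have huniv : (Set.univ : Set k) ⊆ ⋃ i : ι, {t : k | (px p p' - ψ (toOR k L δ (xx i))) +
          algebraMap k K t * (py p p' - ψ (toOR k L δ (yy i))) = 0} := by
        intro t _
        obtain ⟨i, hi⟩ := hcov t
        exact Set.mem_iUnion.2 ⟨i, hi⟩
      exact Set.infinite_univ ((Set.finite_iUnion fun i => (hinj i).finite).subset huniv)
    have h1 : (px p p', py p p') = p := hs0 hpt hp (hl0 p p')
    have h2 : (px p p', py p p') = p' := hs1 hpt hp' (hl1 p p')
    exact h1.symm.trans h2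
  -- the spanning set
  have hT := F_Pts3_surj k L δ (ψ.comp (oR k L δ))
  obtain ⟨T, hTdef⟩ : ∃ T : MvPolynomial (Fin 2) K →ₗ[K] (ι → K),
    T = LinearMap.pi (F_Pts3_L k L δ (ψ.comp (oR k L δ))) := ⟨_, rfl⟩
  rw [← hTdef] at hT
  have hTI : ∀ f ∈ I, T f = 0 := by
    intro f hfI
    rw [hTdef]
    rw [hIdef] at hfI
    exact (F_Pts3_mem k L δ _ f).1 hfI
  have hspan : (⊤ : Submodule K (ι → K)) ≤
      Submodule.span K ((S.image fun p => T (E p * E' p) : Finset (ι → K)) : Set (ι → K)) := by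
    rw [← hT]
    rintro _ ⟨f, rfl⟩
    have h1 : f = ∑ p ∈ S, ∑ p' ∈ S, f * (E p * E' p') := by
      have h2 : (∑ p ∈ S, E p) * (∑ p' ∈ S, E' p') = 1 := by rw [hE1, hE1', one_mul]
      calc f = f * ((∑ p ∈ S, E p) * (∑ p' ∈ S, E' p')) := by rw [h2, mul_one]
        _ = _ := by
          rw [Finset.sum_mul_sum, Finset.mul_sum]
          refine Finset.sum_congr rfl fun p _ => ?_
          rw [Finset.mul_sum]
    have h3 : T f = ∑ p ∈ S, eval ![px p p, py p p] f • T (E p * E' p) := by
      conv_lhs => rw [h1]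
      rw [map_sum]
      refine Finset.sum_congr rfl fun p hp => ?_
      rw [map_sum, Finset.sum_eq_single p]
      · have h4 := hTI _ (hf p hp p hp f)
        rw [sub_mul, map_sub, sub_eq_zero] at h4
        rw [h4, ← smul_eq_C_mul, map_smul]
      · intro p' hp' hne'
        apply hTI
        apply Ideal.mul_mem_left
        by_contra hc
        exact hne' (hdiag p hp p' hp' hc).symm
      · intro h
        exact absurd hp h
    rw [h3]
    refine Submodule.sum_mem _ fun p hp => Submodule.smul_mem _ _ (Submodule.subset_span ?_)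
    rw [Finset.coe_image]
    exact ⟨p, hp, rfl⟩
  have h1 := finrank_span_finset_le_card (R := K) (S.image fun p => T (E p * E' p))
  rw [Set.finrank, top_le_iff.1 hspan, finrank_top, Module.finrank_fintype_fun_eq_card] at h1
  exact h1.trans Finset.card_image_le

end

end Pool.Agent.Lib.MP_463376_co
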