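import Pool.Agent.Lib.MP_463376_co.F_Pts1
import Pool.Agent.Lib.MP_463376_co.F_Pts3

/-! Stream F, JOB F2d: good linear forms exist if there are at least `n-1` points. -/

namespace Pool.Agent.Lib.MP_463376_co

open MvPolynomial

section

variable (k : Type) [Field k] [CharZero k] {ι : Type} [Fintype ι] [DecidableEq ι]
  (L : Type) [Field L] [Algebra k L] [Algebra (RR k ι) L]
  [IsScalarTower k (RR k ι) L] [IsFractionRing (RR k ι) L] (δ : Dia ι)

/-- the linear functional `f ↦ ∑ f_m φ(c^m_h)` -/
noncomputable def F_Pts_ff {K : Type} [Field K] [Algebra k K] (φ : OO k L δ →ₐ[k] K) (h : ι) :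
    MvPolynomial (Fin 2) K →ₗ[K] K :=
  (MvPolynomial.basisMonomials (Fin 2) K).constr K (fun m => φ (cO k L δ (m 0, m 1) h))

omit [CharZero k] [IsFractionRing (RR k ι) L] in
theorem F_Pts_ff_monomial {K : Type} [Field K] [Algebra k K] (φ : OO k L δ →ₐ[k] K) (h : ι)
    (m : Fin 2 →₀ ℕ) (c : K) :
    F_Pts_ff k L δ φ h (monomial m c) = c * φ (cO k L δ (m 0, m 1) h) := by
  have h1 : (monomial m c : MvPolynomial (Fin 2) K) =
      c • MvPolynomial.basisMonomials (Fin 2) K m := by
    rw [MvPolynomial.coe_basisMonomials, MvPolynomial.smul_monomial, smul_eq_mul, mul_one]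
  rw [h1, map_smul, F_Pts_ff, Module.Basis.constr_basis, smul_eq_mul]

theorem F_Pts_mem {K : Type} [Field K] [Algebra k K] (φ : OO k L δ →ₐ[k] K)
    (f : MvPolynomial (Fin 2) K) :
    f ∈ Ipt k L δ φ ↔ ∀ h : ι, F_Pts_ff k L δ φ h f = 0 := by
  rw [mem_Ipt_iff]
  have h1 : ∀ h : ι, F_Pts_ff k L δ φ h f =
      ∑ m ∈ f.support, f.coeff m * φ (cO k L δ (m 0, m 1) h) := by
    intro h
    conv_lhs => rw [f.as_sum]
    rw [map_sum]
    exact Finset.sum_congr rfl fun m _ => F_Pts_ff_monomial k L δ φ h m _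
  simp only [h1]

omit [CharZero k] [IsFractionRing (RR k ι) L] in
theorem F_Pts_ff_map {K : Type} [Field K] [Algebra k K] (φ : OO k L δ →ₐ[k] K) (h : ι)
    (P : MvPolynomial (Fin 2) k) :
    F_Pts_ff k L δ φ h (map (algebraMap k K) P) =
      ∑ m ∈ P.support, algebraMap k K (coeff m P) * φ (cO k L δ (m 0, m 1) h) := by
  conv_lhs => rw [P.as_sum]
  rw [map_sum, map_sum]
  refine Finset.sum_congr rfl fun m _ => ?_
  rw [map_monomial, F_Pts_ff_monomial]

/-- if `u_l` vanishes at the point there is a nonzero polynomial of degree `< n` in `l` in the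
ideal -/
theorem F_Pts_key {K : Type} [Field K] [Algebra k K] (φ : OO k L δ →ₐ[k] K) (a b : k)
    (u : OO k L δ) (hu : (u : L) * toL k L (dl k δ) = toL k L (vdl ι a b)) (h0 : φ u = 0) :
    ∃ g : Polynomial K, g ≠ 0 ∧ g.degree < (Fintype.card ι : ℕ) ∧
      Polynomial.aeval (C (algebraMap k K a) * X 0 + C (algebraMap k K b) * X 1 :
        MvPolynomial (Fin 2) K) g ∈ Ipt k L δ φ := by
  rw [uu_det k L δ a b u hu] at h0
  have h1 := AlgHom.map_det φ (Matrix.of fun h j : ι =>
      ∑ m ∈ ((C a * X 0 + C b * X 1 : MvPolynomial (Fin 2) k) ^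
          ((Fintype.equivFin ι j : Fin (Fintype.card ι)) : ℕ)).support,
        algebraMap k (OO k L δ) (coeff m ((C a * X 0 + C b * X 1 : MvPolynomial (Fin 2) k) ^
          ((Fintype.equivFin ι j : Fin (Fintype.card ι)) : ℕ))) * cO k L δ (m 0, m 1) h)
  rw [h1] at h0
  obtain ⟨v, hv, hv0⟩ := Matrix.exists_mulVec_eq_zero_iff.2 h0
  set g : Polynomial K := ∑ j : ι, Polynomial.C (v j) *
    Polynomial.X ^ ((Fintype.equivFin ι j : Fin (Fintype.card ι)) : ℕ) with hg
  have hcoeff : ∀ i : ι, g.coeff ((Fintype.equivFin ι i : Fin (Fintype.card ι)) : ℕ) = v i := by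
    intro i
    rw [hg, Polynomial.finsetSum_coeff, Finset.sum_eq_single i]
    · simp
    · intro j _ hji
      rw [Polynomial.coeff_C_mul, Polynomial.coeff_X_pow, if_neg, mul_zero]
      intro h
      exact hji ((Fintype.equivFin ι).injective (Fin.ext h)).symm
    · intro h
      exact absurd (Finset.mem_univ i) h
  refine ⟨g, ?_, ?_, ?_⟩
  · intro hg0
    apply hv
    funext i
    rw [← hcoeff i, hg0]
    rfl
  · rw [hg]
    refine lt_of_le_of_lt (Polynomial.degree_sum_le _ _) ?_
    rw [Finset.sup_lt_iff (by exact WithBot.bot_lt_coe _)]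
    intro j _
    refine lt_of_le_of_lt (Polynomial.degree_C_mul_X_pow_le _ _) ?_
    exact_mod_cast (Fintype.equivFin ι j).2
  · rw [F_Pts_mem]
    intro h
    have h2 : Polynomial.aeval (C (algebraMap k K a) * X 0 + C (algebraMap k K b) * X 1 :
        MvPolynomial (Fin 2) K) g = ∑ j : ι, v j • map (algebraMap k K)
          ((C a * X 0 + C b * X 1 : MvPolynomial (Fin 2) k) ^
          ((Fintype.equivFin ι j : Fin (Fintype.card ι)) : ℕ)) := by
      rw [hg, map_sum]
      refine Finset.sum_congr rfl fun j _ => ?_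
      rw [map_mul, Polynomial.aeval_C, map_pow, Polynomial.aeval_X, map_pow, map_add, map_mul,
        map_mul, map_C, map_C, map_X, map_X, Algebra.smul_def]
    rw [h2, map_sum]
    have h3 := congrFun hv0 h
    simp only [Matrix.mulVec, dotProduct, AlgHom.mapMatrix_apply, Matrix.map_apply,
      Matrix.of_apply, map_sum, map_mul, Pi.zero_apply, AlgHom.commutes] at h3
    rw [← h3]
    refine Finset.sum_congr rfl fun j _ => ?_
    rw [map_smul, F_Pts_ff_map, smul_eq_mul, mul_comm]

/-- evaluation of a polynomial in a linear form -/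
theorem F_Pts_eval {K : Type} [Field K] (a b : K) (p : Fin 2 → K) (g : Polynomial K) :
    eval p (Polynomial.aeval (C a * X 0 + C b * X 1 : MvPolynomial (Fin 2) K) g) =
      g.eval (a * p 0 + b * p 1) := by
  have h1 : ∀ f : MvPolynomial (Fin 2) K, eval p f = aeval p f := fun f =>
    (RingHom.congr_fun (MvPolynomial.coe_aeval_eq_eval p) f).symm
  rw [h1, ← Polynomial.aeval_algHom_apply, Polynomial.coe_aeval_eq_eval]
  simp

/-- a nonzero polynomial of degree at most the number of roots is a product -/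
theorem F_Pts_prod {K : Type} [Field K] {τ : Type} (S : Finset τ) (r : τ → K)
    (hr : Set.InjOn r S) (g : Polynomial K) (hg : g ≠ 0) (hd : g.degree ≤ S.card)
    (h0 : ∀ p ∈ S, g.eval (r p) = 0) :
    ∃ c : K, c ≠ 0 ∧ g = Polynomial.C c * ∏ p ∈ S, (Polynomial.X - Polynomial.C (r p)) := by
  classical
  set Q : Polynomial K := ∏ p ∈ S, (Polynomial.X - Polynomial.C (r p)) with hQ
  have hm : Q.Monic := Polynomial.monic_prod_of_monic _ _ fun p _ => Polynomial.monic_X_sub_C _
  have hQd : Q.degree = (S.card : ℕ) := by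
    rw [hQ, Polynomial.degree_prod]
    simp
  have hQn : Q.natDegree = S.card := Polynomial.natDegree_eq_of_degree_eq_some hQd
  set c := g.coeff S.card with hc
  have hlt : (g - Polynomial.C c * Q).degree < (S.card : ℕ) := by
    rw [Polynomial.degree_lt_iff_coeff_zero]
    intro m hm'
    rw [Polynomial.coeff_sub, Polynomial.coeff_C_mul]
    rcases Nat.lt_or_ge S.card m with h | h
    · rw [Polynomial.coeff_eq_zero_of_degree_lt (lt_of_le_of_lt hd (by exact_mod_cast h)),
        Polynomial.coeff_eq_zero_of_degree_lt (lt_of_le_of_lt hQd.le (by exact_mod_cast h)),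
        mul_zero, sub_zero]
    · have : m = S.card := le_antisymm h (by exact_mod_cast hm')
      subst this
      have h1 : Q.coeff S.card = 1 := by
        rw [← hQn]
        exact hm.coeff_natDegree
      rw [h1, mul_one, hc, sub_self]
  have heq : g = Polynomial.C c * Q := by
    refine Polynomial.eq_of_degree_sub_lt_of_eval_finset_eq (S.image r) ?_ ?_
    · rwa [Finset.card_image_of_injOn hr]
    · intro x hx
      obtain ⟨p, hp, rfl⟩ := Finset.mem_image.1 hx
      rw [h0 p hp, Polynomial.eval_mul, hQ, Polynomial.eval_prod,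
        Finset.prod_eq_zero hp (by simp), mul_zero]
  refine ⟨c, ?_, heq⟩
  intro h
  apply hg
  rw [heq, h, Polynomial.C_0, zero_mul]

/-- separating linear forms -/
theorem F_Pts_sep {K : Type} [Field K] [Algebra k K] (S : Finset (K × K)) :
    ∃ t : Fin 2 → k, t 0 ≠ t 1 ∧ ∀ e, Set.InjOn (fun p : K × K =>
      algebraMap k K 1 * p.1 + algebraMap k K (t e) * p.2) S := by
  classical
  set bad : Set k := ⋃ p ∈ (S ×ˢ S : Finset ((K × K) × (K × K))),
    {t : k | p.1 ≠ p.2 ∧ p.1.1 + algebraMap k K t * p.1.2 =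
      p.2.1 + algebraMap k K t * p.2.2} with hbad
  have hfin : bad.Finite := by
    rw [hbad]
    refine Set.Finite.biUnion (Finset.finite_toSet _) fun p _ => ?_
    refine Set.Subsingleton.finite ?_
    rintro s ⟨hs1, hs2⟩ t ⟨_, ht2⟩
    have h1 : (algebraMap k K s - algebraMap k K t) * (p.1.2 - p.2.2) = 0 := by
      linear_combination hs2 - ht2
    rcases mul_eq_zero.1 h1 with h | h
    · exact (algebraMap k K).injective (sub_eq_zero.1 h)
    · exfalso
      apply hs1
      have h2 : p.1.2 = p.2.2 := sub_eq_zero.1 h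
      refine Prod.ext ?_ h2
      rw [h2] at hs2
      exact add_right_cancel hs2
  have hinf : badᶜ.Infinite := hfin.infinite_compl
  obtain ⟨t0, h0, t1, h1, hne⟩ := hinf.nontrivial
  have key : ∀ t ∈ badᶜ, Set.InjOn (fun p : K × K =>
      algebraMap k K 1 * p.1 + algebraMap k K t * p.2) S := by
    intro t ht p hp q hq hpq
    by_contra hne'
    apply ht
    rw [hbad]
    simp only [Set.mem_iUnion]
    refine ⟨(p, q), Finset.mem_product.2 ⟨hp, hq⟩, hne', ?_⟩
    simpa using hpq
  refine ⟨![t0, t1], by simpa using hne, ?_⟩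
  intro e
  fin_cases e
  · exact key t0 h0
  · exact key t1 h1

theorem good_of_points' {K : Type} [Field K] [Algebra k K] (ψ : OR k L δ →ₐ[k] K)
    (hs : Fintype.card ι ≤ Nat.card (Set.range fun i : ι =>
        (ψ (toOR k L δ (xx i)), ψ (toOR k L δ (yy i)))) + 1) :
    ∃ a b : k, ∃ u : OO k L δ, ψ (oR k L δ u) ≠ 0 ∧
      (u : L) * toL k L (dl k δ) = toL k L (vdl ι a b) := by
  classical
  by_contra hcon
  push Not at hcon
  set P : ι → K × K := fun i => (ψ (toOR k L δ (xx i)), ψ (toOR k L δ (yy i))) with hP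
  set S : Finset (K × K) := Finset.univ.image P with hSdef
  have hcard : Nat.card (Set.range P) = S.card := by
    have : Set.range P = (S : Set (K × K)) := by
      rw [hSdef]
      ext p
      simp
    rw [this]
    simp
  rw [hcard] at hs
  obtain ⟨t, ht01, hsep⟩ := F_Pts_sep k S
  -- the key polynomials
  have hkey : ∀ e : Fin 2, ∃ g : Polynomial K, g ≠ 0 ∧ g.degree < (Fintype.card ι : ℕ) ∧
      Polynomial.aeval (C (algebraMap k K 1) * X 0 + C (algebraMap k K (t e)) * X 1 :
        MvPolynomial (Fin 2) K) g ∈ Ipt k L δ (ψ.comp (oR k L δ)) := by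
    intro e
    obtain ⟨u, hu⟩ := exists_uu k L δ 1 (t e)
    refine F_Pts_key k L δ (ψ.comp (oR k L δ)) 1 (t e) u hu ?_
    by_contra h
    exact hcon 1 (t e) u h hu
  choose g hg0 hgd hgI using hkey
  have hroot : ∀ e, ∀ p ∈ S, (g e).eval (algebraMap k K 1 * p.1 + algebraMap k K (t e) * p.2) =
      0 := by
    intro e p hp
    obtain ⟨i, _, rfl⟩ := Finset.mem_image.1 hp
    have h1 := Ipt_eval k L δ ψ _ (hgI e) i
    rw [F_Pts_eval] at h1
    simpa [hP] using h1
  -- the number of points is less than `n`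
  have hlt : S.card < Fintype.card ι := by
    have h1 : ((S.image fun p : K × K => algebraMap k K 1 * p.1 +
        algebraMap k K (t 0) * p.2).card : WithBot ℕ) ≤ (g 0).degree := by
      by_contra h
      push Not at h
      apply hg0 0
      refine Polynomial.eq_zero_of_degree_lt_of_eval_finset_eq_zero _ h ?_
      intro x hx
      obtain ⟨p, hp, rfl⟩ := Finset.mem_image.1 hx
      exact hroot 0 p hp
    rw [Finset.card_image_of_injOn (hsep 0)] at h1
    exact_mod_cast lt_of_le_of_lt h1 (hgd 0)
  have hle : Fintype.card ι ≤ S.card := by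
    refine card_le_points k L δ ψ S (fun i => Finset.mem_image_of_mem P (Finset.mem_univ i)) ?_
      (fun e => (1, t e)) ?_ hsep ?_
    · intro p hp
      obtain ⟨i, _, hi⟩ := Finset.mem_image.1 hp
      exact ⟨i, hi.symm⟩
    · simpa using ht01.symm
    · intro e
      have hd : (g e).degree ≤ (S.card : ℕ) := by
        have h1 := hgd e
        have h2 : Fintype.card ι = S.card + 1 := by omega
        rw [h2, ← Polynomial.natDegree_lt_iff_degree_lt (hg0 e)] at h1
        exact Polynomial.degree_le_of_natDegree_le (Nat.lt_succ_iff.1 h1)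
      obtain ⟨c, hc, hgc⟩ := F_Pts_prod S (fun p : K × K => algebraMap k K 1 * p.1 +
        algebraMap k K (t e) * p.2) (hsep e) (g e) (hg0 e) hd (hroot e)
      have h3 := hgI e
      rw [hgc, map_mul, map_prod, Polynomial.aeval_C] at h3
      have h4 := Ideal.mul_mem_left _ (C c⁻¹ : MvPolynomial (Fin 2) K) h3
      rw [← mul_assoc, MvPolynomial.algebraMap_eq, ← C_mul, inv_mul_cancel₀ hc, C_1,
        one_mul] at h4
      have h5 : ∀ p : K × K, Polynomial.aeval (C (algebraMap k K 1) * X 0 +
          C (algebraMap k K (t e)) * X 1 : MvPolynomial (Fin 2) K)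
          (Polynomial.X - Polynomial.C (algebraMap k K 1 * p.1 +
            algebraMap k K (t e) * p.2)) = C (algebraMap k K 1) * X 0 +
          C (algebraMap k K (t e)) * X 1 - C (algebraMap k K 1 * p.1 +
            algebraMap k K (t e) * p.2) := by
        intro p
        rw [map_sub, Polynomial.aeval_X, Polynomial.aeval_C, MvPolynomial.algebraMap_eq]
      rw [Finset.prod_congr rfl fun p _ => h5 p] at h4
      exact h4
  omega

end

end Pool.Agent.Lib.MP_463376_co
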