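import Pool.Agent.Lib.MP_463376_co.I3
import Pool.Agent.Lib.MP_463376_co.E2_Coord
import Pool.Agent.Lib.MP_463376_co.E2_Pts

/-! PART 6 and 5(e): parameters (stream E2) -/

set_option linter.unusedSectionVars false

namespace Pool.Agent.Lib.MP_463376_co

open MvPolynomial

section e2model

open Pool.Agent.DM.P6

variable {K : Type} [Field K]

/-- the two models of `K[X,Y]` -/
noncomputable def e2tau (K : Type) [Field K] :
    MvPolynomial (Fin 2) K →ₐ[K] Polynomial (Polynomial K) :=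
  MvPolynomial.aeval ![Polynomial.C Polynomial.X, Polynomial.X]

/-- the inverse -/
noncomputable def e2tauInv (K : Type) [Field K] :
    Polynomial (Polynomial K) →+* MvPolynomial (Fin 2) K :=
  Polynomial.eval₂RingHom (Polynomial.aeval (X 0 : MvPolynomial (Fin 2) K)).toRingHom (X 1)

theorem e2tau_inv_left (f : MvPolynomial (Fin 2) K) : e2tauInv K (e2tau K f) = f := by
  have h : (e2tauInv K).comp (e2tau K : MvPolynomial (Fin 2) K →+* _) = RingHom.id _ := by
    refine MvPolynomial.ringHom_ext (fun r => ?_) (fun i => ?_)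
    · simp only [RingHom.comp_apply, RingHom.id_apply, RingHom.coe_coe, e2tau, e2tauInv]
      rw [MvPolynomial.aeval_C, Polynomial.algebraMap_apply, Polynomial.coe_eval₂RingHom,
        Polynomial.eval₂_C]
      simp
    · fin_cases i
      · simp [e2tau, e2tauInv]
      · simp [e2tau, e2tauInv]
  exact congrArg (fun g : MvPolynomial (Fin 2) K →+* _ => g f) h

theorem e2tau_inv_right (g : Polynomial (Polynomial K)) : e2tau K (e2tauInv K g) = g := by
  have h : (e2tau K : MvPolynomial (Fin 2) K →+* _).comp (e2tauInv K) = RingHom.id _ := by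
    refine Polynomial.ringHom_ext' ?_ ?_
    · refine Polynomial.ringHom_ext' ?_ ?_
      · ext1 a
        simp only [RingHom.comp_apply, RingHom.id_apply, RingHom.coe_coe, e2tau, e2tauInv]
        simp
      · simp [e2tau, e2tauInv]
    · simp [e2tau, e2tauInv]
  exact congrArg (fun g' : Polynomial (Polynomial K) →+* _ => g' g) h

theorem e2tau_mon (i j : ℕ) : e2tau K (X 0 ^ i * X 1 ^ j) =
    Polynomial.monomial j (Polynomial.monomial i 1) := by
  simp only [e2tau, map_mul, map_pow, MvPolynomial.aeval_X, Matrix.cons_val_zero,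
    Matrix.cons_val_one]
  rw [← Polynomial.C_mul_X_pow_eq_monomial, ← Polynomial.C_mul_X_pow_eq_monomial,
    Polynomial.C_1, one_mul, Polynomial.C_pow]

theorem e2tau_C_mon (a : K) (i j : ℕ) : e2tau K (C a * (X 0 ^ i * X 1 ^ j)) =
    Polynomial.monomial j (Polynomial.monomial i a) := by
  rw [map_mul, e2tau_mon]
  simp only [e2tau, MvPolynomial.aeval_C, Polynomial.algebraMap_apply, Algebra.algebraMap_self,
    RingHom.id_apply]
  rw [Polynomial.C_mul_monomial, Polynomial.C_mul_monomial, mul_one]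

theorem e2_as_sum (f : MvPolynomial (Fin 2) K) :
    f = ∑ m ∈ f.support, C (f.coeff m) * (X 0 ^ m 0 * X 1 ^ m 1) := by
  conv_lhs => rw [f.as_sum]
  refine Finset.sum_congr rfl fun m _ => ?_
  rw [MvPolynomial.monomial_eq, Finsupp.prod_fintype _ _ (by simp), Fin.prod_univ_two]

variable {ι : Type} [Fintype ι] [DecidableEq ι]

theorem e2_evc_tau (c : ℕ × ℕ → ι → K) (f : MvPolynomial (Fin 2) K) (h : ι) :
    evc c (e2tau K f) h = ∑ m ∈ f.support, f.coeff m * c (m 0, m 1) h := by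
  conv_lhs => rw [e2_as_sum f]
  rw [map_sum, map_sum, Finset.sum_apply]
  refine Finset.sum_congr rfl fun m _ => ?_
  rw [e2tau_C_mon, evc_monomial]
  rfl

theorem e2_evc_C (c : ℕ × ℕ → ι → K) (p : Polynomial K) (h : ι) :
    evc c (Polynomial.C p) h = ∑ r ∈ p.support, p.coeff r * c (r, 0) h := by
  conv_lhs => rw [p.as_sum_support, map_sum, map_sum]
  rw [Finset.sum_apply]
  refine Finset.sum_congr rfl fun r _ => ?_
  rw [← Polynomial.monomial_zero_left, evc_monomial]
  rfl

theorem e2_evc_map (c : ℕ × ℕ → ι → K) (p : Polynomial K) (h : ι) :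
    evc c (p.map Polynomial.C) h = ∑ r ∈ p.support, p.coeff r * c (0, r) h := by
  conv_lhs => rw [p.as_sum_support, Polynomial.map_sum, map_sum]
  rw [Finset.sum_apply]
  refine Finset.sum_congr rfl fun r _ => ?_
  rw [Polynomial.map_monomial, ← Polynomial.monomial_zero_left, evc_monomial]
  rfl

end e2model

section

variable (k : Type) [Field k] [CharZero k] {ι : Type} [Fintype ι] [DecidableEq ι]
  (L : Type) [Field L] [Algebra k L] [Algebra (RR k ι) L]
  [IsScalarTower k (RR k ι) L] [IsFractionRing (RR k ι) L] (δ : Dia ι)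

/-- the ideal of `K[X,Y]` defined by a point `φ : O → K` -/
noncomputable def Ipt {K : Type} [Field K] [Algebra k K] (φ : OO k L δ →ₐ[k] K) :
    Ideal (MvPolynomial (Fin 2) K) :=
  Ideal.span {f | ∃ m : ℕ × ℕ, f = X 0 ^ m.1 * X 1 ^ m.2 -
    ∑ h : ι, C (φ (cO k L δ m h)) * (X 0 ^ (δ.c h).1 * X 1 ^ (δ.c h).2)}

theorem e2_isCoord {K : Type} [Field K] [Algebra k K] (φ : OO k L δ →ₐ[k] K) :
    Pool.Agent.DM.P6.IsCoord δ.c (fun m h => φ (cO k L δ m h)) where
  unit := by
    intro h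
    funext h'
    simp only [e2_cO_unit, Pi.single_apply]
    split_ifs
    · exact map_one φ
    · exact map_zero φ
  mulX := by
    intro m h
    rw [e2_cO_mulX, map_sum]
    exact Finset.sum_congr rfl fun h' _ => map_mul φ _ _
  mulY := by
    intro m h
    rw [e2_cO_mulY, map_sum]
    exact Finset.sum_congr rfl fun h' _ => map_mul φ _ _

theorem e2_Ipt_le {K : Type} [Field K] [Algebra k K] (φ : OO k L δ →ₐ[k] K)
    (f : MvPolynomial (Fin 2) K) (hf : f ∈ Ipt k L δ φ) :
    e2tau K f ∈ Pool.Agent.DM.P6.idl (e2_isCoord k L δ φ) := by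
  have h1 : Ipt k L δ φ ≤ (Pool.Agent.DM.P6.idl (e2_isCoord k L δ φ)).comap
      (e2tau K : MvPolynomial (Fin 2) K →+* _) := by
    unfold Ipt
    rw [Ideal.span_le]
    rintro f ⟨m, rfl⟩
    change e2tau K _ ∈ Pool.Agent.DM.P6.idl (e2_isCoord k L δ φ)
    rw [Pool.Agent.DM.P6.mem_idl, map_sub, map_sum, e2tau_mon]
    simp only [e2tau_C_mon]
    rw [map_sub, map_sum]
    simp only [Pool.Agent.DM.P6.evc_monomial, one_smul, Prod.mk.eta]
    ext h
    rw [Pi.sub_apply, Finset.sum_apply, Finset.sum_eq_single h]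
    · have h2 := congrFun ((e2_isCoord k L δ φ).unit h) h
      simp only [Pi.single_eq_same] at h2
      simp only [Pi.smul_apply, smul_eq_mul, Pi.zero_apply]
      rw [h2, mul_one, sub_self]
    · intro h' _ hne
      have h2 := congrFun ((e2_isCoord k L δ φ).unit h') h
      rw [Pi.single_eq_of_ne hne.symm] at h2
      simp only [Pi.smul_apply, smul_eq_mul]
      rw [h2, mul_zero]
    · intro hn
      exact absurd (Finset.mem_univ h) hn
  exact h1 hf

theorem e2_mem_Ipt {K : Type} [Field K] [Algebra k K] (φ : OO k L δ →ₐ[k] K)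
    (f : MvPolynomial (Fin 2) K)
    (hf : ∀ h : ι, ∑ m ∈ f.support, f.coeff m * φ (cO k L δ (m 0, m 1) h) = 0) :
    f ∈ Ipt k L δ φ := by
  have h1 : f = ∑ m ∈ f.support, C (f.coeff m) * (X 0 ^ m 0 * X 1 ^ m 1 -
      ∑ h : ι, C (φ (cO k L δ (m 0, m 1) h)) * (X 0 ^ (δ.c h).1 * X 1 ^ (δ.c h).2)) := by
    simp only [mul_sub, Finset.sum_sub_distrib]
    have h2 : ∑ m ∈ f.support, C (f.coeff m) * ∑ h : ι, C (φ (cO k L δ (m 0, m 1) h)) *
        (X 0 ^ (δ.c h).1 * X 1 ^ (δ.c h).2 : MvPolynomial (Fin 2) K) = 0 := by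
      simp only [Finset.mul_sum]
      rw [Finset.sum_comm]
      refine Finset.sum_eq_zero fun h _ => ?_
      have h3 : ∀ m ∈ f.support, C (f.coeff m) * (C (φ (cO k L δ (m 0, m 1) h)) *
          (X 0 ^ (δ.c h).1 * X 1 ^ (δ.c h).2)) =
          C (f.coeff m * φ (cO k L δ (m 0, m 1) h)) *
          (X 0 ^ (δ.c h).1 * X 1 ^ (δ.c h).2 : MvPolynomial (Fin 2) K) := by
        intro m _
        rw [C_mul, mul_assoc]
      rw [Finset.sum_congr rfl h3, ← Finset.sum_mul, ← map_sum, hf h, map_zero, zero_mul]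
    rw [h2, sub_zero]
    exact e2_as_sum f
  rw [h1]
  refine Ideal.sum_mem _ fun m _ => Ideal.mul_mem_left _ _ (Ideal.subset_span ⟨(m 0, m 1), rfl⟩)

theorem mem_Ipt_iff {K : Type} [Field K] [Algebra k K] (φ : OO k L δ →ₐ[k] K)
    (f : MvPolynomial (Fin 2) K) :
    f ∈ Ipt k L δ φ ↔ ∀ h : ι, ∑ m ∈ f.support, f.coeff m * φ (cO k L δ (m 0, m 1) h) = 0 := by
  constructor
  · intro hf h
    have h1 := e2_Ipt_le k L δ φ f hf
    rw [Pool.Agent.DM.P6.mem_idl] at h1
    have h2 := congrFun h1 h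
    rw [e2_evc_tau] at h2
    exact h2
  · exact e2_mem_Ipt k L δ φ f

theorem e2_tau_mem_iff {K : Type} [Field K] [Algebra k K] (φ : OO k L δ →ₐ[k] K)
    (f : MvPolynomial (Fin 2) K) :
    e2tau K f ∈ Pool.Agent.DM.P6.idl (e2_isCoord k L δ φ) ↔ f ∈ Ipt k L δ φ := by
  refine ⟨fun h => e2_mem_Ipt k L δ φ f fun h' => ?_, e2_Ipt_le k L δ φ f⟩
  rw [Pool.Agent.DM.P6.mem_idl] at h
  have h2 := congrFun h h'
  rw [e2_evc_tau] at h2
  exact h2

/-- the dimension on the line `Y = 0` -/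
theorem e2_finrank {K : Type} [Field K] [Algebra k K] (φ : OO k L δ →ₐ[k] K) :
    Module.finrank K (MvPolynomial (Fin 2) K ⧸ (Ipt k L δ φ ⊔ Ideal.span {X 1})) =
      Pool.Agent.DM.P6.jd 0 (Pool.Agent.DM.P6.idl (e2_isCoord k L δ φ)) := by
  set I := Pool.Agent.DM.P6.idl (e2_isCoord k L δ φ) with hI
  set J := I.map (Pool.Agent.DM.P6.ev (0 : K)) with hJ
  let θ : MvPolynomial (Fin 2) K →ₐ[K] Polynomial K :=
    MvPolynomial.aeval ![Polynomial.X, 0]
  have hθ : ∀ f, θ f = Pool.Agent.DM.P6.ev 0 (e2tau K f) := by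
    intro f
    have h : (θ : MvPolynomial (Fin 2) K →+* _) = (Pool.Agent.DM.P6.ev (0 : K)).comp
        (e2tau K : MvPolynomial (Fin 2) K →+* _) := by
      refine MvPolynomial.ringHom_ext (fun r => ?_) (fun i => ?_)
      · simp [θ, e2tau, Pool.Agent.DM.P6.ev, Polynomial.algebraMap_apply]
      · fin_cases i
        · simp [θ, e2tau, Pool.Agent.DM.P6.ev]
        · simp [θ, e2tau, Pool.Agent.DM.P6.ev]
    exact congrArg (fun g : MvPolynomial (Fin 2) K →+* _ => g f) h
  have hmem : ∀ f, θ f ∈ J ↔ f ∈ Ipt k L δ φ ⊔ Ideal.span {X 1} := by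
    intro f
    constructor
    · intro hf
      rw [hθ] at hf
      obtain ⟨g, hg, hgf⟩ := Pool.Agent.DM.P6.mem_map_ev.1 hf
      have h1 : Pool.Agent.DM.P6.ev 0 (e2tau K f - g) = 0 := by rw [map_sub, hgf, sub_self]
      obtain ⟨u, hu⟩ := Pool.Agent.DM.P6.ev_eq_zero.1 h1
      have h2 : f = e2tauInv K g + X 1 * e2tauInv K u := by
        have h3 := congrArg (e2tauInv K) hu
        rw [map_sub, e2tau_inv_left, map_mul] at h3
        have h4 : e2tauInv K (Polynomial.X - Polynomial.C (Polynomial.C 0)) = X 1 := by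
          simp [e2tauInv]
        rw [h4] at h3
        rw [← h3]
        ring
      rw [h2]
      refine Ideal.add_mem _ (Ideal.mem_sup_left ?_) (Ideal.mem_sup_right
        (Ideal.mul_mem_right _ _ (Ideal.mem_span_singleton_self _)))
      rw [← e2_tau_mem_iff, e2tau_inv_right]
      exact hg
    · intro hf
      obtain ⟨g, hg, h, hh, rfl⟩ := Submodule.mem_sup.1 hf
      rw [map_add]
      refine J.add_mem ?_ ?_
      · rw [hθ]
        exact Pool.Agent.DM.P6.mem_map_ev.2 ⟨_, e2_Ipt_le k L δ φ g hg, rfl⟩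
      · obtain ⟨u, rfl⟩ := Ideal.mem_span_singleton'.1 hh
        have : θ (X 1) = 0 := by simp [θ]
        rw [map_mul, this, mul_zero]
        exact J.zero_mem
  have hsurj : Function.Surjective θ := by
    intro p
    obtain ⟨g, hg⟩ := Pool.Agent.DM.P6.ev_surj (0 : K) p
    exact ⟨e2tauInv K g, by rw [hθ, e2tau_inv_right, hg]⟩
  let G : (MvPolynomial (Fin 2) K ⧸ (Ipt k L δ φ ⊔ Ideal.span {X 1})) →ₐ[K]
      (Polynomial K ⧸ J) :=
    Ideal.Quotient.liftₐ _ ((Ideal.Quotient.mkₐ K J).comp θ) fun f hf =>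
      Ideal.Quotient.eq_zero_iff_mem.2 ((hmem f).2 hf)
  have hG : Function.Bijective G.toLinearMap := by
    constructor
    · rw [injective_iff_map_eq_zero]
      intro x hx
      obtain ⟨f, rfl⟩ := Ideal.Quotient.mk_surjective x
      have hx' : Ideal.Quotient.mk J (θ f) = 0 := hx
      exact Ideal.Quotient.eq_zero_iff_mem.2 ((hmem f).1 (Ideal.Quotient.eq_zero_iff_mem.1 hx'))
    · intro y
      obtain ⟨p, rfl⟩ := Ideal.Quotient.mk_surjective y
      obtain ⟨f, rfl⟩ := hsurj p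
      exact ⟨Ideal.Quotient.mk _ f, rfl⟩
  exact (LinearEquiv.ofBijective G.toLinearMap hG).finrank_eq

/-! ### Points -/

variable {K : Type} [Field K] [Algebra k K] (ψ : OR k L δ →ₐ[k] K)

theorem e2_coe_toOR (f : RR k ι) : ((toOR k L δ f : OR k L δ) : L) = toL k L f :=
  Subalgebra.coe_inclusion (le_sup_right : (toL k L : RR k ι →ₐ[k] L).range ≤
    OO k L δ ⊔ (toL k L : RR k ι →ₐ[k] L).range) ((toL k L).rangeRestrict f)

theorem e2_coe_oR (a : OO k L δ) : ((oR k L δ a : OR k L δ) : L) = (a : L) :=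
  Subalgebra.coe_inclusion (le_sup_left : OO k L δ ≤
    OO k L δ ⊔ (toL k L : RR k ι →ₐ[k] L).range) a

theorem e2_expand_OR (m : ℕ × ℕ) (i : ι) :
    ∑ h, oR k L δ (cO k L δ m h) * toOR k L δ (e2mon k (δ.c h) i) =
      toOR k L δ (e2mon k m i) := by
  apply Subtype.ext
  rw [e2_coe_toOR, ← e2_expand k L δ m i]
  push_cast
  rfl

theorem e2_point (i : ι) (m : ℕ × ℕ) :
    ψ (toOR k L δ (xx i)) ^ m.1 * ψ (toOR k L δ (yy i)) ^ m.2 =
      ∑ h, (ψ.comp (oR k L δ)) (cO k L δ m h) *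
        (ψ (toOR k L δ (xx i)) ^ (δ.c h).1 * ψ (toOR k L δ (yy i)) ^ (δ.c h).2) := by
  have h1 := congrArg ψ (e2_expand_OR k L δ m i)
  have h2 : ∀ m : ℕ × ℕ, ψ (toOR k L δ (e2mon k m i)) =
      ψ (toOR k L δ (xx i)) ^ m.1 * ψ (toOR k L δ (yy i)) ^ m.2 := by
    intro m
    unfold e2mon
    rw [map_mul, map_mul, map_pow, map_pow, map_pow, map_pow]
  rw [h2, map_sum] at h1
  rw [← h1]
  refine Finset.sum_congr rfl fun h _ => ?_
  rw [map_mul, h2]
  rfl

/-- If a polynomial over `OR` vanishes at all `x_j` (all `y_j`), its combination of the `c^m_h`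
vanishes. -/
theorem e2_char (f : ℕ → ℕ × ℕ) (z : ι → RR k ι) (hz : ∀ r i, e2mon k (f r) i = z i ^ r)
    (Q : Polynomial (OR k L δ)) (hQ : ∀ i, Q.eval (toOR k L δ (z i)) = 0) (h : ι) :
    ∑ r ∈ Q.support, Q.coeff r * oR k L δ (cO k L δ (f r) h) = 0 := by
  have h1 : (fun h => ((∑ r ∈ Q.support, Q.coeff r * oR k L δ (cO k L δ (f r) h) : OR k L δ) : L)) =
      fun _ => 0 := by
    refine e2_unique k L δ _ _ fun i => ?_
    have h2 : ∑ h, (∑ r ∈ Q.support, Q.coeff r * oR k L δ (cO k L δ (f r) h)) *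
        toOR k L δ (e2mon k (δ.c h) i) = 0 := by
      simp only [Finset.sum_mul]
      rw [Finset.sum_comm]
      have h3 : ∀ r ∈ Q.support, ∑ h, Q.coeff r * oR k L δ (cO k L δ (f r) h) *
          toOR k L δ (e2mon k (δ.c h) i) = Q.coeff r * toOR k L δ (z i) ^ r := by
        intro r _
        simp only [mul_assoc]
        rw [← Finset.mul_sum, e2_expand_OR, hz, map_pow]
      rw [Finset.sum_congr rfl h3]
      have h4 := hQ i
      rw [Polynomial.eval_eq_sum] at h4
      exact h4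
    have h5 := congrArg (fun a : OR k L δ => (a : L)) h2
    simp only [zero_mul, Finset.sum_const_zero]
    push_cast at h5 ⊢
    exact h5
  exact Subtype.ext (congrFun h1 h)

theorem e2_evcX : Pool.Agent.DM.P6.evc (fun m h => (ψ.comp (oR k L δ)) (cO k L δ m h))
    (Polynomial.C (∏ i, (Polynomial.X - Polynomial.C (ψ (toOR k L δ (xx i)))))) = 0 := by
  classical
  set Q : Polynomial (OR k L δ) := ∏ i, (Polynomial.X - Polynomial.C (toOR k L δ (xx i))) with hQ
  have h1 : ∏ i, (Polynomial.X - Polynomial.C (ψ (toOR k L δ (xx i)))) =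
      Q.map (ψ : OR k L δ →+* K) := by
    rw [hQ, Polynomial.map_prod]
    refine Finset.prod_congr rfl fun i _ => ?_
    rw [Polynomial.map_sub, Polynomial.map_X, Polynomial.map_C]
    rfl
  ext h
  rw [h1, e2_evc_C]
  have h2 := congrArg ψ (e2_char k L δ (fun r => (r, 0)) xx
    (fun r i => by simp [e2mon]) Q (fun i => by
      rw [hQ, Polynomial.eval_prod]
      exact Finset.prod_eq_zero (Finset.mem_univ i) (by simp)) h)
  rw [map_sum, map_zero] at h2
  rw [Pi.zero_apply, ← h2]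
  refine (Finset.sum_subset (Polynomial.support_map_subset _ Q) ?_).trans ?_
  · intro r _ hr
    rw [Polynomial.notMem_support_iff.1 hr, zero_mul]
  · refine Finset.sum_congr rfl fun r _ => ?_
    rw [Polynomial.coeff_map, map_mul]
    rfl

theorem e2_evcY : Pool.Agent.DM.P6.evc (fun m h => (ψ.comp (oR k L δ)) (cO k L δ m h))
    (∏ i, (Polynomial.X - Polynomial.C (Polynomial.C (ψ (toOR k L δ (yy i)))))) = 0 := by
  classical
  set Q : Polynomial (OR k L δ) := ∏ i, (Polynomial.X - Polynomial.C (toOR k L δ (yy i))) with hQ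
  have h1 : ∏ i, (Polynomial.X - Polynomial.C (Polynomial.C (ψ (toOR k L δ (yy i))))) =
      (Q.map (ψ : OR k L δ →+* K)).map Polynomial.C := by
    rw [hQ, Polynomial.map_prod, Polynomial.map_prod]
    refine Finset.prod_congr rfl fun i _ => ?_
    rw [Polynomial.map_sub, Polynomial.map_X, Polynomial.map_C, Polynomial.map_sub,
      Polynomial.map_X, Polynomial.map_C]
    rfl
  ext h
  rw [h1, e2_evc_map]
  have h2 := congrArg ψ (e2_char k L δ (fun r => (0, r)) yy
    (fun r i => by simp [e2mon]) Q (fun i => by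
      rw [hQ, Polynomial.eval_prod]
      exact Finset.prod_eq_zero (Finset.mem_univ i) (by simp)) h)
  rw [map_sum, map_zero] at h2
  rw [Pi.zero_apply, ← h2]
  refine (Finset.sum_subset (Polynomial.support_map_subset _ Q) ?_).trans ?_
  · intro r _ hr
    rw [Polynomial.notMem_support_iff.1 hr, zero_mul]
  · refine Finset.sum_congr rfl fun r _ => ?_
    rw [Polynomial.coeff_map, map_mul]
    rfl

theorem e2_trdeg (φ : OO k L δ →ₐ[k] K) (S : Finset K)
    (hS : ∀ m h, φ (cO k L δ m h) ∈ IntermediateField.adjoin k (S : Set K)) :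
    Algebra.trdeg k (OO k L δ ⧸ RingHom.ker φ) ≤ (S.card : Cardinal) := by
  set F := IntermediateField.adjoin k (S : Set K) with hF
  have h1 : ∀ a, φ a ∈ F := e2_generate k L δ F φ hS
  let φ' : OO k L δ →ₐ[k] F := φ.codRestrict F.toSubalgebra h1
  have hker : ∀ a, φ' a = 0 ↔ φ a = 0 := by
    intro a
    constructor
    · intro h
      exact congrArg (fun z : F => (z : K)) h
    · intro h
      exact Subtype.ext h
  let G : (OO k L δ ⧸ RingHom.ker φ) →ₐ[k] F :=
    Ideal.Quotient.liftₐ _ φ' fun a ha => (hker a).2 ha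
  have hG : Function.Injective G := by
    rw [injective_iff_map_eq_zero]
    intro x hx
    obtain ⟨a, rfl⟩ := Ideal.Quotient.mk_surjective x
    have hx' : φ' a = 0 := hx
    exact Ideal.Quotient.eq_zero_iff_mem.2 ((hker a).1 hx')
  exact (trdeg_le_of_injective G hG).trans (Pool.Agent.DM.P6.trdeg_adjoin_le S)

theorem e2_card_range {τ : Type} [DecidableEq τ] (f : ι → τ) :
    Nat.card (Set.range f) = (Finset.univ.image f).card := by
  have h1 : Set.range f = ((Finset.univ.image f : Finset τ) : Set τ) := by simp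
  rw [h1, Nat.card_eq_fintype_card]
  exact Fintype.card_coe _

theorem trdeg_le_points {K : Type} [Field K] [Algebra k K] (ψ : OR k L δ →ₐ[k] K) :
    Algebra.trdeg k (OO k L δ ⧸ RingHom.ker (ψ.comp (oR k L δ))) ≤
      ((Fintype.card ι + Nat.card (Set.range fun i : ι =>
        (ψ (toOR k L δ (xx i)), ψ (toOR k L δ (yy i)))) : ℕ) : Cardinal) := by
  classical
  obtain ⟨S, h1, h2⟩ := Pool.Agent.DM.P6.pts_bound (k := k)
    (e2_isCoord k L δ (ψ.comp (oR k L δ)))
    (fun i => ψ (toOR k L δ (xx i))) (fun i => ψ (toOR k L δ (yy i)))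
    (e2_evcX k L δ ψ) (e2_evcY k L δ ψ) (fun i m => e2_point k L δ ψ i m)
  refine (e2_trdeg k L δ _ S h2).trans ?_
  rw [e2_card_range]
  exact_mod_cast h1

theorem trdeg_le_points_y0 {K : Type} [Field K] [Algebra k K] (ψ : OR k L δ →ₐ[k] K)
    (h0 : ∀ i, ψ (toOR k L δ (yy i)) = 0) :
    Algebra.trdeg k (OO k L δ ⧸ RingHom.ker (ψ.comp (oR k L δ))) +
      ((Module.finrank K (MvPolynomial (Fin 2) K ⧸
        (Ipt k L δ (ψ.comp (oR k L δ)) ⊔ Ideal.span {X 1})) : ℕ) : Cardinal) ≤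
      ((Fintype.card ι + Nat.card (Set.range fun i : ι => ψ (toOR k L δ (xx i))) : ℕ) :
        Cardinal) := by
  classical
  have hy := e2_evcY k L δ ψ
  simp only [h0] at hy
  obtain ⟨S, h1, h2⟩ := Pool.Agent.DM.P6.pts_bound_y0 (k := k)
    (e2_isCoord k L δ (ψ.comp (oR k L δ)))
    (fun i => ψ (toOR k L δ (xx i))) (e2_evcX k L δ ψ) hy
  rw [e2_finrank, e2_card_range]
  refine (add_le_add_left (e2_trdeg k L δ _ S h2) _).trans ?_
  exact_mod_cast h1

end

end Pool.Agent.Lib.MP_463376_co
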