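import Pool.Agent.Lib.MP_463376_co.F_Base
import Pool.Agent.Lib.MP_463376_co.I6

/-! Stream F, JOB F2a: `u_l` as a determinant. -/

namespace Pool.Agent.Lib.MP_463376_co

open MvPolynomial

section

variable (k : Type) [Field k] [CharZero k] {ι : Type} [Fintype ι] [DecidableEq ι]
  (L : Type) [Field L] [Algebra k L] [Algebra (RR k ι) L]
  [IsScalarTower k (RR k ι) L] [IsFractionRing (RR k ι) L] (δ : Dia ι)

/-- the defining property of the coefficients `c^m_h` -/
theorem F_Pts1_cO (m : ℕ × ℕ) (i : ι) :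
    ∑ h : ι, toL k L (xx i ^ (δ.c h).1 * yy i ^ (δ.c h).2) * (cO k L δ m h : L) =
      toL k L (xx i ^ m.1 * yy i ^ m.2) := by
  have h1 := congrFun (Matrix.mulVec_cramer (Matrix.of fun i j : ι =>
    (xx i : RR k ι) ^ (δ.c j).1 * yy i ^ (δ.c j).2) (fun i => xx i ^ m.1 * yy i ^ m.2)) i
  have h2 := congrArg (toL k L) h1
  have h3 : ∀ h : ι, (cO k L δ m h : L) * toL k L (dl k δ) =
      toL k L (Matrix.cramer (Matrix.of fun i j : ι =>
        (xx i : RR k ι) ^ (δ.c j).1 * yy i ^ (δ.c j).2) (fun i => xx i ^ m.1 * yy i ^ m.2) h) := by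
    intro h
    have h4 : (cO k L δ m h : L) = toL k L (alt k (Function.update δ.c h m)) / toL k L (dl k δ) :=
      rfl
    rw [h4, div_mul_cancel₀ _ (toL_dl_ne_zero k L δ), Matrix.cramer_apply]
    unfold alt
    congr 2
    ext1 i j
    by_cases hj : j = h
    · subst hj
      simp
    · simp [hj]
  simp only [Matrix.mulVec, dotProduct, Matrix.of_apply, map_sum, Pi.smul_apply,
    smul_eq_mul] at h2
  have h5 : toL k L (Matrix.det (Matrix.of fun i j : ι =>
    (xx i : RR k ι) ^ (δ.c j).1 * yy i ^ (δ.c j).2)) = toL k L (dl k δ) := rfl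
  rw [map_mul, h5] at h2
  apply mul_left_cancel₀ (toL_dl_ne_zero k L δ)
  rw [← h2, Finset.mul_sum]
  apply Finset.sum_congr rfl
  intro h _
  rw [map_mul (toL k L) (_ * _) (Matrix.cramer _ _ h), ← h3 h]
  ring

/-- `u_l` as a determinant: powers of `l` in the basis `δ` -/
theorem uu_det (a b : k) (u : OO k L δ) (hu : (u : L) * toL k L (dl k δ) = toL k L (vdl ι a b)) :
    u = Matrix.det (Matrix.of fun h j : ι =>
      ∑ m ∈ ((C a * X 0 + C b * X 1 : MvPolynomial (Fin 2) k) ^
          ((Fintype.equivFin ι j : Fin (Fintype.card ι)) : ℕ)).support,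
        algebraMap k (OO k L δ) (coeff m ((C a * X 0 + C b * X 1 : MvPolynomial (Fin 2) k) ^
          ((Fintype.equivFin ι j : Fin (Fintype.card ι)) : ℕ))) * cO k L δ (m 0, m 1) h) := by
  have key : ∀ (F : MvPolynomial (Fin 2) k) (i : ι),
      ∑ h : ι, toL k L (xx i ^ (δ.c h).1 * yy i ^ (δ.c h).2) *
        ((∑ m ∈ F.support, algebraMap k (OO k L δ) (coeff m F) * cO k L δ (m 0, m 1) h :
          OO k L δ) : L) = toL k L (aeval ![xx i, yy i] F) := by
    intro F i
    have h1 : ∀ h : ι, ((∑ m ∈ F.support, algebraMap k (OO k L δ) (coeff m F) *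
        cO k L δ (m 0, m 1) h : OO k L δ) : L) =
        ∑ m ∈ F.support, algebraMap k L (coeff m F) * (cO k L δ (m 0, m 1) h : L) := by
      intro h
      rw [AddSubmonoidClass.coe_finsetSum]
      rfl
    simp only [h1, Finset.mul_sum]
    rw [Finset.sum_comm]
    have h2 : toL k L (aeval ![xx i, yy i] F) =
        ∑ m ∈ F.support, algebraMap k L (coeff m F) * toL k L (xx i ^ (m 0) * yy i ^ (m 1)) := by
      rw [MvPolynomial.aeval_def, MvPolynomial.eval₂_eq', map_sum]
      apply Finset.sum_congr rfl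
      intro m _
      rw [map_mul, Fin.prod_univ_two]
      congr 1
      exact (toL k L).commutes _
    rw [h2]
    apply Finset.sum_congr rfl
    intro m _
    rw [← F_Pts1_cO k L δ (m 0, m 1) i, Finset.mul_sum]
    apply Finset.sum_congr rfl
    intro h _
    ring
  apply Subtype.ext
  apply mul_right_cancel₀ (toL_dl_ne_zero k L δ)
  rw [hu]
  have h3 : ∀ M : Matrix ι ι (OO k L δ), ((M.det : OO k L δ) : L) =
      (M.map (fun z : OO k L δ => (z : L))).det := by
    intro M
    exact (OO k L δ).val.map_det M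
  rw [h3]
  have h4 : toL k L (dl k δ) = (Matrix.of fun i h : ι =>
      toL k L (xx i ^ (δ.c h).1 * yy i ^ (δ.c h).2)).det := by
    unfold dl alt
    rw [AlgHom.map_det]
    rfl
  have h5 : toL k L (vdl ι a b) = (Matrix.of fun i j : ι => toL k L (aeval ![xx i, yy i]
      ((C a * X 0 + C b * X 1 : MvPolynomial (Fin 2) k) ^
        ((Fintype.equivFin ι j : Fin (Fintype.card ι)) : ℕ)))).det := by
    unfold vdl
    rw [AlgHom.map_det]
    congr 1
    ext1 i j
    simp [lf, MvPolynomial.algebraMap_eq]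
  rw [h4, h5]
  refine Eq.trans ?_ (mul_comm _ _)
  rw [← Matrix.det_mul]
  congr 1
  ext1 i j
  rw [Matrix.mul_apply]
  exact (key _ i).symm

end

end Pool.Agent.Lib.MP_463376_co
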