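import Pool.Agent.Lib.MP_463376_co.F_Base
import Pool.Agent.Lib.MP_463376_co.I6

/-! Stream F, JOB F2b: the product over all points lies in the ideal. -/

namespace Pool.Agent.Lib.MP_463376_co

open MvPolynomial

/-- a polynomial which vanishes at all points has zero coordinates -/
theorem f_pts2_abs {O : Type} [CommRing O] [IsDomain O] {ι : Type} [Fintype ι] [DecidableEq ι]
    (x y : ι → O) (d : ι → ℕ × ℕ) (c : ℕ × ℕ → ι → O)
    (hc : ∀ m i, x i ^ m.1 * y i ^ m.2 = ∑ h, c m h * (x i ^ (d h).1 * y i ^ (d h).2))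
    (hdet : Matrix.det (Matrix.of fun i j : ι => x i ^ (d j).1 * y i ^ (d j).2) ≠ 0)
    (F : MvPolynomial (Fin 2) O) (hF : ∀ j, eval ![x j, y j] F = 0) (h : ι) :
    ∑ m ∈ F.support, coeff m F * c (m 0, m 1) h = 0 := by
  have key : Matrix.mulVec (Matrix.of fun i j : ι => x i ^ (d j).1 * y i ^ (d j).2)
      (fun h => ∑ m ∈ F.support, coeff m F * c (m 0, m 1) h) = 0 := by
    ext j
    have e1 := hF j
    rw [eval_eq'] at e1
    show ∑ h : ι, (x j ^ (d h).1 * y j ^ (d h).2) *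
      ∑ m ∈ F.support, coeff m F * c (m 0, m 1) h = 0
    rw [← e1]
    simp only [Finset.mul_sum]
    rw [Finset.sum_comm]
    apply Finset.sum_congr rfl
    intro m _
    rw [Fin.prod_univ_two]
    simp only [Matrix.cons_val_zero, Matrix.cons_val_one]
    rw [hc (m 0, m 1) j, Finset.mul_sum]
    apply Finset.sum_congr rfl
    intro h _
    ring
  exact congrFun (Matrix.eq_zero_of_mulVec_eq_zero hdet key) h

theorem f_pts2_fin {O K : Type} [CommRing O] [CommRing K] (ψ : O →+* K) {ι : Type} [Fintype ι]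
    (F : MvPolynomial (Fin 2) O) (c : (Fin 2 →₀ ℕ) → O)
    (h : ∑ m ∈ F.support, coeff m F * c m = 0) :
    ∑ m ∈ (MvPolynomial.map ψ F).support, coeff m (MvPolynomial.map ψ F) * ψ (c m) = 0 := by
  have hsub : (MvPolynomial.map ψ F).support ⊆ F.support := MvPolynomial.support_map_subset _ _
  rw [Finset.sum_subset hsub]
  · have e2 := congrArg ψ h
    rw [map_sum, map_zero] at e2
    rw [← e2]
    apply Finset.sum_congr rfl
    intro m _
    rw [coeff_map, map_mul]
  · intro m _ hm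
    rw [notMem_support_iff.1 hm, zero_mul]

theorem f_pts2_prod {O : Type} [CommRing O] {ι : Type} [Fintype ι]
    (x y : ι → O) (a b : O) (j : ι) :
    eval ![x j, y j] (∏ i : ι, (C a * X 0 + C b * X 1 - C (a * x i + b * y i))) = 0 := by
  rw [map_prod]
  apply Finset.prod_eq_zero (Finset.mem_univ j)
  simp

theorem f_pts2_map {O K : Type} [CommRing O] [CommRing K] (ψ : O →+* K) {ι : Type} [Fintype ι]
    (l : ι → O) (a b : O) :
    MvPolynomial.map ψ (∏ i : ι, (C a * X 0 + C b * X 1 - C (l i)) : MvPolynomial (Fin 2) O) =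
      ∏ i : ι, (C (ψ a) * X 0 + C (ψ b) * X 1 - C (ψ (l i))) := by
  rw [map_prod]
  apply Finset.prod_congr rfl
  intro i _
  simp

section

variable (k : Type) [Field k] [CharZero k] {ι : Type} [Fintype ι] [DecidableEq ι]
  (L : Type) [Field L] [Algebra k L] [Algebra (RR k ι) L]
  [IsScalarTower k (RR k ι) L] [IsFractionRing (RR k ι) L] (δ : Dia ι)

/-- Cramer's rule: the monomials in the basis given by the diagram -/
theorem f_pts2_cramer (m : ℕ × ℕ) (i : ι) :
    toL k L (xx i) ^ m.1 * toL k L (yy i) ^ m.2 =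
      ∑ h : ι, (cO k L δ m h : L) *
        (toL k L (xx i) ^ (δ.c h).1 * toL k L (yy i) ^ (δ.c h).2) := by
  have h0 := toL_dl_ne_zero k L δ
  have h1 := congrFun (Matrix.mulVec_cramer (Matrix.of fun i j : ι =>
    (xx i : RR k ι) ^ (δ.c j).1 * yy i ^ (δ.c j).2) fun i => xx i ^ m.1 * yy i ^ m.2) i
  have h2 : ∀ h : ι, Matrix.cramer (Matrix.of fun i j : ι =>
      (xx i : RR k ι) ^ (δ.c j).1 * yy i ^ (δ.c j).2) (fun i => xx i ^ m.1 * yy i ^ m.2) h =
      alt k (Function.update δ.c h m) := by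
    intro h
    rw [Matrix.cramer_apply]
    unfold alt
    congr 1
    ext1 i j
    by_cases hj : j = h
    · subst hj
      simp
    · simp [hj]
  have h3 := congrArg (toL k L) h1
  simp only [Matrix.mulVec, dotProduct, Matrix.of_apply, map_sum, map_mul, map_pow,
    Pi.smul_apply, smul_eq_mul, h2] at h3
  have h4 : Matrix.det (Matrix.of fun i j : ι =>
    (xx i : RR k ι) ^ (δ.c j).1 * yy i ^ (δ.c j).2) = dl k δ := rfl
  rw [h4] at h3
  have h5 : toL k L (xx i) ^ m.1 * toL k L (yy i) ^ m.2 = (toL k L (dl k δ))⁻¹ *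
      (toL k L (dl k δ) * (toL k L (xx i) ^ m.1 * toL k L (yy i) ^ m.2)) := by
    rw [inv_mul_cancel_left₀ h0]
  rw [h5, ← h3, Finset.mul_sum]
  apply Finset.sum_congr rfl
  intro h _
  have h6 : (cO k L δ m h : L) = toL k L (alt k (Function.update δ.c h m)) / toL k L (dl k δ) :=
    rfl
  rw [h6, div_eq_inv_mul]
  ring

omit [CharZero k] [IsFractionRing (RR k ι) L] in
theorem f_pts2_coe_toOR (f : RR k ι) : ((toOR k L δ f : OR k L δ) : L) = toL k L f := rfl

omit [CharZero k] [IsFractionRing (RR k ι) L] in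
theorem f_pts2_coe_oR (c : OO k L δ) : ((oR k L δ c : OR k L δ) : L) = c := by
  unfold oR
  exact Subalgebra.coe_inclusion _ c

theorem f_pts2_OR (m : ℕ × ℕ) (i : ι) :
    toOR k L δ (xx i) ^ m.1 * toOR k L δ (yy i) ^ m.2 =
      ∑ h : ι, oR k L δ (cO k L δ m h) *
        (toOR k L δ (xx i) ^ (δ.c h).1 * toOR k L δ (yy i) ^ (δ.c h).2) := by
  apply Subtype.ext
  have h1 := f_pts2_cramer k L δ m i
  rw [Subalgebra.coe_mul, Subalgebra.coe_pow, Subalgebra.coe_pow, f_pts2_coe_toOR,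
    f_pts2_coe_toOR, h1, AddSubmonoidClass.coe_finsetSum]
  apply Finset.sum_congr rfl
  intro h _
  rw [Subalgebra.coe_mul, Subalgebra.coe_mul, Subalgebra.coe_pow, Subalgebra.coe_pow,
    f_pts2_coe_toOR, f_pts2_coe_toOR, f_pts2_coe_oR]

theorem f_pts2_det : Matrix.det (Matrix.of fun i j : ι =>
    toOR k L δ (xx i) ^ (δ.c j).1 * toOR k L δ (yy i) ^ (δ.c j).2) ≠ 0 := by
  have e1 : Matrix.det (Matrix.of fun i j : ι =>
      toOR k L δ (xx i) ^ (δ.c j).1 * toOR k L δ (yy i) ^ (δ.c j).2) =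
        toOR k L δ (dl k δ) := by
    have := RingHom.map_det ((toOR k L δ : RR k ι →ₐ[k] OR k L δ) : RR k ι →+* OR k L δ)
      (Matrix.of fun i j : ι => (xx i : RR k ι) ^ (δ.c j).1 * yy i ^ (δ.c j).2)
    refine Eq.trans ?_ this.symm
    congr 1
    ext1 i j
    exact ((map_mul (toOR k L δ) _ _).trans (by rw [map_pow, map_pow]; rfl)).symm
  rw [e1]
  intro h
  apply toL_dl_ne_zero k L δ
  rw [← f_pts2_coe_toOR, h]
  rfl

omit [CharZero k] [IsFractionRing (RR k ι) L] in
theorem f_pts2_lf (a b : k) (i : ι) : toOR k L δ (lf a b i) =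
    algebraMap k (OR k L δ) a * toOR k L δ (xx i) +
      algebraMap k (OR k L δ) b * toOR k L δ (yy i) := by
  have e3 : ∀ a : k, toOR k L δ (C a : RR k ι) = algebraMap k (OR k L δ) a := by
    intro a
    exact AlgHom.commutes (toOR k L δ) a
  unfold lf
  rw [map_add, map_mul, map_mul, e3, e3]

/-- elements of the ideal vanish at the points -/
theorem Ipt_eval {K : Type} [Field K] [Algebra k K] (ψ : OR k L δ →ₐ[k] K)
    (f : MvPolynomial (Fin 2) K) (hf : f ∈ Ipt k L δ (ψ.comp (oR k L δ))) (i : ι) :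
    eval ![ψ (toOR k L δ (xx i)), ψ (toOR k L δ (yy i))] f = 0 := by
  have h1 : Ipt k L δ (ψ.comp (oR k L δ)) ≤
      RingHom.ker (eval ![ψ (toOR k L δ (xx i)), ψ (toOR k L δ (yy i))]) := by
    unfold Ipt
    rw [Ideal.span_le]
    rintro g ⟨m, rfl⟩
    rw [SetLike.mem_coe, RingHom.mem_ker]
    simp only [map_sub, map_mul, map_pow, map_sum, eval_X, eval_C, Matrix.cons_val_zero,
      Matrix.cons_val_one, AlgHom.comp_apply]
    have h2 := congrArg ψ (f_pts2_OR k L δ m i)
    simp only [map_mul, map_pow, map_sum] at h2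
    rw [h2, sub_self]
  exact h1 hf

/-- the product over all points of `l - l(p_i)` lies in the ideal -/
theorem Ipt_mem_points {K : Type} [Field K] [Algebra k K] (ψ : OR k L δ →ₐ[k] K)
    (a b : k) : ∏ i : ι, (C (algebraMap k K a) * X 0 + C (algebraMap k K b) * X 1 -
      C (ψ (toOR k L δ (lf a b i)))) ∈ Ipt k L δ (ψ.comp (oR k L δ)) := by
  rw [mem_Ipt_iff]
  intro h
  have h1 := f_pts2_abs (fun i => toOR k L δ (xx i)) (fun i => toOR k L δ (yy i)) δ.c
    (fun m h => oR k L δ (cO k L δ m h)) (f_pts2_OR k L δ) (f_pts2_det k L δ)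
    (∏ i : ι, (C (algebraMap k (OR k L δ) a) * X 0 + C (algebraMap k (OR k L δ) b) * X 1 -
        C (algebraMap k (OR k L δ) a * toOR k L δ (xx i) +
      algebraMap k (OR k L δ) b * toOR k L δ (yy i))))
    (f_pts2_prod _ _ _ _) h
  have h2 := f_pts2_fin (ι := ι) (ψ : OR k L δ →+* K) _ _ h1
  rw [f_pts2_map] at h2
  have h3 : ∏ i : ι, (C (algebraMap k K a) * X 0 + C (algebraMap k K b) * X 1 -
      C (ψ (toOR k L δ (lf a b i)))) = (∏ i : ι, (C ((ψ : OR k L δ →+* K)
        (algebraMap k (OR k L δ) a)) * X 0 + C ((ψ : OR k L δ →+* K)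
          (algebraMap k (OR k L δ) b)) * X 1 -
        C ((ψ : OR k L δ →+* K) (algebraMap k (OR k L δ) a * toOR k L δ (xx i) +
      algebraMap k (OR k L δ) b * toOR k L δ (yy i)))) : MvPolynomial (Fin 2) K) := by
    apply Finset.prod_congr rfl
    intro i _
    rw [f_pts2_lf]
    have e1 : ∀ a : k, (ψ : OR k L δ →+* K) (algebraMap k (OR k L δ) a) = algebraMap k K a :=
      fun a => AlgHom.commutes ψ a
    rw [e1, e1]
    rfl
  rw [h3]
  exact h2

end

end Pool.Agent.Lib.MP_463376_co
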