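import Pool.Agent.Lib.MP_463376_co.F_Base

/-! Stream F, JOB F5c: the ring `A_q[l_1,...,l_n]`. -/

namespace Pool.Agent.Lib.MP_463376_co

open MvPolynomial

section

variable (k : Type) [Field k] [CharZero k] {ι : Type} [Fintype ι] [DecidableEq ι]
  (L : Type) [Field L] [Algebra k L] [Algebra (RR k ι) L]
  [IsScalarTower k (RR k ι) L] [IsFractionRing (RR k ι) L] (δ : Dia ι)

/-- the subring `A_q[l_1,...,l_n]` of `L` -/
noncomputable def WW (q : Ideal (AA k L δ)) [hq : q.IsPrime] (a b : k) : Subalgebra k L where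
  carrier := {g | ∃ u : AA k L δ, u ∉ q ∧ (u : L) * g ∈
    Algebra.adjoin (AA k L δ) (Set.range fun i : ι => toL k L (lf a b i))}
  mul_mem' := by
    rintro g h ⟨u, hu, hug⟩ ⟨v, hv, hvh⟩
    refine ⟨u * v, fun h => (hq.mem_or_mem h).elim hu hv, ?_⟩
    have := Subalgebra.mul_mem _ hug hvh
    have h2 : ((u * v : AA k L δ) : L) * (g * h) = (u : L) * g * ((v : L) * h) := by
      push_cast; ring
    rwa [h2]
  add_mem' := by
    rintro g h ⟨u, hu, hug⟩ ⟨v, hv, hvh⟩
    refine ⟨u * v, fun h => (hq.mem_or_mem h).elim hu hv, ?_⟩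
    have h1 := Subalgebra.mul_mem _ hug (Subalgebra.algebraMap_mem _ v)
    have h3 := Subalgebra.mul_mem _ hvh (Subalgebra.algebraMap_mem _ u)
    have := Subalgebra.add_mem _ h1 h3
    have h2 : ((u * v : AA k L δ) : L) * (g + h) =
        (u : L) * g * algebraMap (AA k L δ) L v + (v : L) * h * algebraMap (AA k L δ) L u := by
      show ((u : L) * v) * (g + h) = (u : L) * g * (v : L) + (v : L) * h * (u : L)
      ring
    rwa [h2]
  algebraMap_mem' := by
    intro c
    refine ⟨1, fun h => hq.ne_top (q.eq_top_of_isUnit_mem h isUnit_one), ?_⟩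
    have h2 : ((1 : AA k L δ) : L) * algebraMap k L c =
        algebraMap (AA k L δ) L (algebraMap k (AA k L δ) c) := by
      show (1 : L) * algebraMap k L c = algebraMap k L c
      rw [one_mul]
    rw [h2]
    exact Subalgebra.algebraMap_mem _ _

variable {k L δ}

/-- `A_q ⊆ W` -/
theorem WW_div {q : Ideal (AA k L δ)} [q.IsPrime] {a b : k} {g : L} {u v : AA k L δ} (hu : u ∉ q)
    (h : (u : L) * g = v) : g ∈ WW k L δ q a b := by
  refine ⟨u, hu, ?_⟩
  rw [h]
  exact Subalgebra.algebraMap_mem (Algebra.adjoin (AA k L δ)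
    (Set.range fun i : ι => toL k L (lf a b i))) v

omit [CharZero k] [IsFractionRing (RR k ι) L] in
private theorem W_of_adjoin {q : Ideal (AA k L δ)} [hq : q.IsPrime] {a b : k} {g : L}
    {u : AA k L δ} (hu : u ∉ q) (h : (u : L) * g ∈
      Algebra.adjoin (AA k L δ) (Set.range fun i : ι => toL k L (lf a b i))) :
    g ∈ WW k L δ q a b := ⟨u, hu, h⟩

omit [CharZero k] [IsFractionRing (RR k ι) L] in
private theorem W_O_mem (a b : k) (c : OO k L δ) : (c : L) ∈
      Algebra.adjoin (AA k L δ) (Set.range fun i : ι => toL k L (lf a b i)) := by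
  have h1 : (c : L) ∈ AA k L δ := Algebra.subset_adjoin (Or.inl c.2)
  exact Subalgebra.algebraMap_mem (Algebra.adjoin (AA k L δ)
    (Set.range fun i : ι => toL k L (lf a b i))) ⟨(c : L), h1⟩

omit [CharZero k] [IsFractionRing (RR k ι) L] in
private theorem W_l_mem (a b : k) (i : ι) : toL k L (lf a b i) ∈
      Algebra.adjoin (AA k L δ) (Set.range fun i : ι => toL k L (lf a b i)) :=
  Algebra.subset_adjoin ⟨i, rfl⟩

private theorem W_cramer {q : Ideal (AA k L δ)} [hq : q.IsPrime] {a b : k}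
    (hg : Good k L δ q a b) (h : ι → RR k ι) (hh : ∀ w i, permR w (h i) = h (w i)) :
    (∀ i, toL k L (h i) ∈ WW k L δ q a b) ∧
    ∀ i j : ι, ∃ w ∈ WW k L δ q a b,
      toL k L (h i - h j) = w * toL k L (lf a b i - lf a b j) := by
  obtain ⟨u, hu, huΔ⟩ := hg
  obtain ⟨c, hc⟩ := exists_cramer k L δ a b h hh
  have hΔ := toL_dl_ne_zero k L δ
  have hu0 : (u : L) ≠ 0 := by
    intro h0
    apply hu
    have : u = 0 := Subtype.ext h0
    rw [this]
    exact q.zero_mem
  have h1 : ∀ i, (u : L) * toL k L (h i) = ∑ r : ι, (c r : L) *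
        toL k L (lf a b i) ^ ((Fintype.equivFin ι r : Fin (Fintype.card ι)) : ℕ) := by
    intro i
    have := hc i
    rw [← huΔ] at this
    apply mul_left_cancel₀ hΔ
    rw [← this]
    ring
  refine ⟨fun i => W_of_adjoin hu ?_, fun i j => ?_⟩
  · rw [h1]
    exact Subalgebra.sum_mem _ fun r _ => Subalgebra.mul_mem _ (W_O_mem a b (c r))
      (Subalgebra.pow_mem _ (W_l_mem a b i) _)
  · set x := toL k L (lf a b i) with hx
    set y := toL k L (lf a b j) with hy
    set S : L := ∑ r : ι, (c r : L) * ∑ s ∈ Finset.range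
      ((Fintype.equivFin ι r : Fin (Fintype.card ι)) : ℕ),
        x ^ s * y ^ (((Fintype.equivFin ι r : Fin (Fintype.card ι)) : ℕ) - 1 - s) with hS
    have hSm : S ∈ Algebra.adjoin (AA k L δ) (Set.range fun i : ι => toL k L (lf a b i)) :=
      Subalgebra.sum_mem _ fun r _ => Subalgebra.mul_mem _ (W_O_mem a b (c r))
        (Subalgebra.sum_mem _ fun s _ => Subalgebra.mul_mem _
          (Subalgebra.pow_mem _ (W_l_mem a b i) _) (Subalgebra.pow_mem _ (W_l_mem a b j) _))
    have h2 : (u : L) * toL k L (h i - h j) = S * toL k L (lf a b i - lf a b j) := by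
      rw [map_sub, mul_sub, h1 i, h1 j, ← Finset.sum_sub_distrib, map_sub, hS, Finset.sum_mul]
      apply Finset.sum_congr rfl
      intro r _
      rw [mul_assoc, ← hx, ← hy, geom_sum₂_mul]
      ring
    refine ⟨S / u, W_of_adjoin hu ?_, ?_⟩
    · rwa [mul_div_cancel₀ _ hu0]
    · rw [div_mul_eq_mul_div, ← h2, mul_div_cancel_left₀ _ hu0]

/-- differences of coordinates are multiples of differences of the good form; all polynomials
lie in `W` -/
theorem WW_good {q : Ideal (AA k L δ)} [q.IsPrime] {a b : k} (hg : Good k L δ q a b) :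
    (∀ f : RR k ι, toL k L f ∈ WW k L δ q a b) ∧
    ∀ i j : ι, ∀ f ∈ pI (k := k) i j, ∃ w ∈ WW k L δ q a b,
      toL k L f = w * toL k L (lf a b i - lf a b j) := by
  obtain ⟨hx1, hx2⟩ := W_cramer hg xx (fun w i => permR_xx w i)
  obtain ⟨hy1, hy2⟩ := W_cramer hg yy (fun w i => permR_yy w i)
  have h1 : ∀ f : RR k ι, toL k L f ∈ WW k L δ q a b := by
    intro f
    induction f using MvPolynomial.induction_on with
    | C c =>
      have h1 : toL k L (C c : RR k ι) = algebraMap k L c :=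
        (toL k L : RR k ι →ₐ[k] L).commutes c
      rw [h1]
      exact Subalgebra.algebraMap_mem _ _
    | add p q hp hq =>
      rw [map_add]
      exact Subalgebra.add_mem _ hp hq
    | mul_X p n hp =>
      rw [map_mul]
      refine Subalgebra.mul_mem _ hp ?_
      cases n with
      | inl i => exact hx1 i
      | inr i => exact hy1 i
  refine ⟨h1, fun i j f hf => ?_⟩
  obtain ⟨p, r, rfl⟩ := Ideal.mem_span_pair.mp hf
  obtain ⟨w, hw, hw2⟩ := hx2 i j
  obtain ⟨v, hv, hv2⟩ := hy2 i j
  refine ⟨toL k L p * w + toL k L r * v, Subalgebra.add_mem _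
    (Subalgebra.mul_mem _ (h1 p) hw) (Subalgebra.mul_mem _ (h1 r) hv), ?_⟩
  rw [map_add, map_mul, map_mul, hw2, hv2]
  ring

end

end Pool.Agent.Lib.MP_463376_co
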