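import Pool.Agent.Lib.MP_463376_co.F_W
import Pool.Agent.Lib.MP_463376_co.F_Ht

/-! Stream F, JOB F5d: `C_q = A_q[l_1,...,l_n]` in height one. -/

namespace Pool.Agent.Lib.MP_463376_co

open MvPolynomial

/-- two coincidences among `n` points leave at most `n - 2` points -/
theorem F_W2_card {ι T : Type} [Fintype ι] [DecidableEq ι] (P : ι → T) {i j i' j' : ι}
    (hij : i ≠ j) (hij' : i' ≠ j') (hne : ({i, j} : Finset ι) ≠ {i', j'})
    (h1 : P i = P j) (h2 : P i' = P j') : Nat.card (Set.range P) + 2 ≤ Fintype.card ι := by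
  classical
  have key : ∃ b c : ι, b ≠ i ∧ c ≠ i ∧ c ≠ b ∧ P b = P c := by
    by_cases hj : j' = i
    · subst hj
      refine ⟨i', j, hij', hij.symm, ?_, h2.trans h1⟩
      rintro rfl
      exact hne (Finset.pair_comm _ _)
    · by_cases hi : i' = i
      · subst hi
        refine ⟨j', j, hj, hij.symm, ?_, h2.symm.trans h1⟩
        rintro rfl
        exact hne rfl
      · exact ⟨j', i', hj, hi, hij', h2.symm⟩
  obtain ⟨b, c, hbi, hci, hcb, hbc⟩ := key
  have hsub : Set.range P ⊆ P '' ((Finset.univ \ {i, b} : Finset ι) : Set ι) := by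
    rintro _ ⟨m, rfl⟩
    by_cases hm : m = b
    · subst hm
      exact ⟨c, by simp [hci, hcb], hbc.symm⟩
    · by_cases hm' : m = i
      · subst hm'
        by_cases hjb : j = b
        · subst hjb
          exact ⟨c, by simp [hci, hcb], (h1.trans hbc).symm⟩
        · exact ⟨j, by simp [hij.symm, hjb], h1.symm⟩
      · exact ⟨m, by simp [hm, hm'], rfl⟩
  have h3 : (Set.range P).ncard ≤ ((Finset.univ \ {i, b} : Finset ι) : Set ι).ncard :=
    (Set.ncard_le_ncard hsub (Set.toFinite _)).trans (Set.ncard_image_le (Set.toFinite _))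
  rw [Set.ncard_coe_finset, Finset.card_sdiff_of_subset (Finset.subset_univ _),
    Finset.card_pair hbi.symm, Finset.card_univ] at h3
  have h4 : 2 ≤ Fintype.card ι := by
    have := Finset.card_le_univ ({i, b} : Finset ι)
    rwa [Finset.card_pair hbi.symm] at this
  rw [Nat.card_coe_set_eq]
  omega

/-- the residue field as a target of an algebra homomorphism -/
theorem F_W2_residue (k W : Type) [Field k] [CommRing W] [Algebra k W] (M : Ideal W)
    [hM : M.IsMaximal] : ∃ (K : Type) (_ : Field K) (_ : Algebra k K) (π : W →ₐ[k] K),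
      ∀ w, π w = 0 ↔ w ∈ M :=
  ⟨W ⧸ M, Ideal.Quotient.field M, inferInstance, Ideal.Quotient.mkₐ k M,
    fun _ => Ideal.Quotient.eq_zero_iff_mem⟩

section

variable (k : Type) [Field k] [CharZero k] {ι : Type} [Fintype ι] [DecidableEq ι]
  (L : Type) [Field L] [Algebra k L] [Algebra (RR k ι) L]
  [IsScalarTower k (RR k ι) L] [IsFractionRing (RR k ι) L] (δ : Dia ι)

variable {k L δ}

omit [CharZero k] [IsFractionRing (RR k ι) L] in
theorem F_W2_OO_le_AA : OO k L δ ≤ AA k L δ := fun _ hg =>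
  Algebra.subset_adjoin (Or.inl hg)

theorem F_W2_AA_le {q : Ideal (AA k L δ)} [hq : q.IsPrime] {a b : k} :
    AA k L δ ≤ WW k L δ q a b := by
  intro g hg
  refine WW_div (u := 1) (v := ⟨g, hg⟩) (fun h => hq.ne_top ((Ideal.eq_top_iff_one q).2 h)) ?_
  show (1 : L) * g = g
  rw [one_mul]

theorem F_W2_OR_le {q : Ideal (AA k L δ)} [hq : q.IsPrime] {a b : k}
    (hg : Good k L δ q a b) : OR k L δ ≤ WW k L δ q a b := by
  refine sup_le (F_W2_OO_le_AA.trans F_W2_AA_le) ?_
  rintro _ ⟨f, rfl⟩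
  exact (WW_good hg).1 f

omit [CharZero k] [IsFractionRing (RR k ι) L] in
theorem F_W2_coe_oR (u : OO k L δ) : ((oR k L δ u : OR k L δ) : L) = u :=
  Subalgebra.coe_inclusion _ _

omit [CharZero k] [IsFractionRing (RR k ι) L] in
theorem F_W2_coe_toOR (f : RR k ι) : ((toOR k L δ f : OR k L δ) : L) = toL k L f :=
  Subalgebra.coe_inclusion (le_sup_right : (toL k L : RR k ι →ₐ[k] L).range ≤
    OO k L δ ⊔ (toL k L : RR k ι →ₐ[k] L).range) ((toL k L).rangeRestrict f)

/-- comaximality for a general subalgebra -/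
theorem F_W2_comax {q : Ideal (AA k L δ)} [q.IsPrime] (hq : q.height = 1) {a b : k}
    (W : Subalgebra k L) (hOR : OR k L δ ≤ W)
    (h2 : ∀ i j : ι, ∀ f ∈ pI (k := k) i j, ∃ w ∈ W,
      toL k L f = w * toL k L (lf a b i - lf a b j))
    (h3 : ∀ u : AA k L δ, u ∉ q → ((u : L)⁻¹) ∈ W)
    {i j i' j' : ι} (hij : i ≠ j) (hij' : i' ≠ j')
    (hne : ({i, j} : Finset ι) ≠ {i', j'}) :
    ∃ u ∈ W, ∃ v ∈ W,
      u * toL k L (lf a b i - lf a b j) + v * toL k L (lf a b i' - lf a b j') = 1 := by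
  by_contra hcon
  have hR : ∀ f : RR k ι, toL k L f ∈ W := fun f => by
    rw [← F_W2_coe_toOR (δ := δ) f]
    exact hOR (toOR k L δ f).2
  obtain ⟨t1, ht1⟩ : ∃ t : W, (t : L) = toL k L (lf a b i - lf a b j) := ⟨⟨_, hR _⟩, rfl⟩
  obtain ⟨t2, ht2⟩ : ∃ t : W, (t : L) = toL k L (lf a b i' - lf a b j') := ⟨⟨_, hR _⟩, rfl⟩
  have hJ : Ideal.span {t1, t2} ≠ ⊤ := by
    intro h
    rw [Ideal.eq_top_iff_one, Ideal.mem_span_pair] at h
    obtain ⟨u, v, huv⟩ := h
    refine hcon ⟨u, u.2, v, v.2, ?_⟩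
    rw [← ht1, ← ht2, ← Subalgebra.coe_mul, ← Subalgebra.coe_mul, ← Subalgebra.coe_add, huv,
      Subalgebra.coe_one]
  obtain ⟨M, hM, hJM⟩ := Ideal.exists_le_maximal _ hJ
  have ht1M : t1 ∈ M := hJM (Ideal.subset_span (by simp))
  have ht2M : t2 ∈ M := hJM (Ideal.subset_span (by simp))
  obtain ⟨K, _, _, π, hπ⟩ := F_W2_residue k W M
  obtain ⟨ψ, hψ0⟩ : ∃ ψ : OR k L δ →ₐ[k] K, ∀ (z : OR k L δ) (w : W), (w : L) = z →
      (ψ z = 0 ↔ w ∈ M) := by
    refine ⟨π.comp (Subalgebra.inclusion hOR), fun z w hw => ?_⟩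
    rw [AlgHom.comp_apply, hπ]
    have : Subalgebra.inclusion hOR z = w := Subtype.ext (by rw [Subalgebra.coe_inclusion, hw])
    rw [this]
  have hψ : ∀ (u : OO k L δ) (v : AA k L δ), (v : L) = u → ψ (oR k L δ u) = 0 → v ∈ q := by
    intro u v huv h0
    by_contra hv
    have hv0 : (v : L) ≠ 0 := by
      intro h
      apply hv
      have : v = 0 := Subtype.ext h
      rw [this]
      exact q.zero_mem
    obtain ⟨w, hw⟩ : ∃ w : W, (w : L) = v := by
      refine ⟨⟨_, hOR (oR k L δ u).2⟩, ?_⟩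
      rw [huv]
      exact F_W2_coe_oR u
    obtain ⟨w', hw'⟩ : ∃ w : W, (w : L) = (v : L)⁻¹ := ⟨⟨_, h3 v hv⟩, rfl⟩
    rw [hψ0 _ w (by rw [hw, huv, F_W2_coe_oR])] at h0
    apply hM.ne_top
    rw [Ideal.eq_top_iff_one]
    have h1 : w' * w = 1 := Subtype.ext (by
      rw [Subalgebra.coe_mul, hw, hw', inv_mul_cancel₀ hv0, Subalgebra.coe_one])
    rw [← h1]
    exact M.mul_mem_left w' h0
  have hn := points_of_height_one k L δ q hq ψ hψ
  have hpt : ∀ (m m' : ι) (t : W), t ∈ M →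
      (t : L) = toL k L (lf a b m - lf a b m') → ∀ f ∈ pI (k := k) m m',
      ψ (toOR k L δ f) = 0 := by
    intro m m' t ht htl f hf
    obtain ⟨w, hw, hfw⟩ := h2 m m' f hf
    rw [hψ0 _ ((⟨w, hw⟩ : W) * t) (by
      rw [Subalgebra.coe_mul, F_W2_coe_toOR, hfw, htl])]
    exact M.mul_mem_left _ ht
  have hpt2 : ∀ (m m' : ι) (t : W), t ∈ M →
      (t : L) = toL k L (lf a b m - lf a b m') →
      (ψ (toOR k L δ (xx m)), ψ (toOR k L δ (yy m))) =
        (ψ (toOR k L δ (xx m')), ψ (toOR k L δ (yy m'))) := by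
    intro m m' t ht htl
    have h1 := hpt m m' t ht htl (xx m - xx m') (Ideal.subset_span (by simp))
    have h2 := hpt m m' t ht htl (yy m - yy m') (Ideal.subset_span (by simp))
    rw [map_sub, map_sub, sub_eq_zero] at h1 h2
    rw [h1, h2]
  have h3 := F_W2_card (fun i : ι => (ψ (toOR k L δ (xx i)), ψ (toOR k L δ (yy i)))) hij hij' hne
    (hpt2 i j t1 ht1M ht1) (hpt2 i' j' t2 ht2M ht2)
  omega

theorem F_W2_inv {q : Ideal (AA k L δ)} [q.IsPrime] {a b : k} (u : AA k L δ) (hu : u ∉ q) :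
    ((u : L)⁻¹) ∈ WW k L δ q a b := by
  have hu0 : (u : L) ≠ 0 := by
    intro h
    apply hu
    have : u = 0 := Subtype.ext h
    rw [this]
    exact q.zero_mem
  refine WW_div (u := u) (v := 1) hu ?_
  rw [mul_inv_cancel₀ hu0, Subalgebra.coe_one]

/-- comaximality -/
theorem WW_comax {q : Ideal (AA k L δ)} [q.IsPrime] (hq : q.height = 1) {a b : k}
    (hg : Good k L δ q a b) {i j i' j' : ι} (hij : i ≠ j) (hij' : i' ≠ j')
    (hne : ({i, j} : Finset ι) ≠ {i', j'}) :
    ∃ u ∈ WW k L δ q a b, ∃ v ∈ WW k L δ q a b,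
      u * toL k L (lf a b i - lf a b j) + v * toL k L (lf a b i' - lf a b j') = 1 :=
  F_W2_comax hq (WW k L δ q a b) (F_W2_OR_le hg) (WW_good hg).2 (fun u hu => F_W2_inv u hu)
    hij hij' hne

theorem CC_le_WW {q : Ideal (AA k L δ)} [q.IsPrime] (hq : q.height = 1) {a b : k}
    (hg : Good k L δ q a b) : CC k L δ ≤ WW k L δ q a b := by
  classical
  intro g hgC
  obtain ⟨c, hc, hgc⟩ := (mem_CC_iff k L δ g).1 hgC
  obtain ⟨d, f, hf, hfg⟩ := (mem_PP_iff k L δ _).1 hgc
  obtain ⟨u, hu, huV⟩ := hg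
  have hg : Good k L δ q a b := ⟨u, hu, huV⟩
  have hR := (WW_good hg).1
  -- the map to `W`
  set φ : RR k ι →ₐ[k] WW k L δ q a b := (toL k L).codRestrict (WW k L δ q a b) hR with hφ
  have hφL : ∀ p : RR k ι, ((φ p : WW k L δ q a b) : L) = toL k L p := fun p => rfl
  have hdiv : ∀ i j : ι, i ≠ j → φ (lf a b i - lf a b j) ^ d ∣ φ f := by
    intro i j hij
    have h1 : Ideal.map (φ : RR k ι →+* WW k L δ q a b) (pI i j) ≤
        Ideal.span {φ (lf a b i - lf a b j)} := by
      rw [Ideal.map_le_iff_le_comap]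
      intro p hp
      rw [Ideal.mem_comap, Ideal.mem_span_singleton]
      obtain ⟨w, hw, hpw⟩ := (WW_good hg).2 i j p hp
      refine ⟨⟨w, hw⟩, ?_⟩
      apply Subtype.ext
      show toL k L p = toL k L (lf a b i - lf a b j) * w
      rw [hpw, mul_comm]
    have h2 : f ∈ (pI (k := k) i j) ^ d := by
      have := hf
      simp only [Jd, Ideal.mem_iInf] at this
      exact this i j hij
    have h3 : (φ : RR k ι →+* WW k L δ q a b) f ∈
        Ideal.map (φ : RR k ι →+* WW k L δ q a b) ((pI (k := k) i j) ^ d) :=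
      Ideal.mem_map_of_mem _ h2
    rw [Ideal.map_pow] at h3
    have h4 := Ideal.pow_right_mono h1 d h3
    rw [Ideal.span_singleton_pow, Ideal.mem_span_singleton] at h4
    exact h4
  set s : Finset (ι × ι) := Finset.univ.filter
    (fun p : ι × ι => Fintype.equivFin ι p.1 < Fintype.equivFin ι p.2) with hs
  have hprod : ∏ p ∈ s, φ (lf a b p.2 - lf a b p.1) ^ d ∣ φ f := by
    apply Finset.prod_dvd_of_coprime
    · intro p hp p' hp' hpp'
      have h1 : Fintype.equivFin ι p.1 < Fintype.equivFin ι p.2 := by simpa [hs] using hp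
      have h2 : Fintype.equivFin ι p'.1 < Fintype.equivFin ι p'.2 := by simpa [hs] using hp'
      have n1 : p.2 ≠ p.1 := fun h => by rw [h] at h1; exact lt_irrefl _ h1
      have n2 : p'.2 ≠ p'.1 := fun h => by rw [h] at h2; exact lt_irrefl _ h2
      have hne : ({p.2, p.1} : Finset ι) ≠ {p'.2, p'.1} := by
        intro h
        apply hpp'
        have m1 : p.1 ∈ ({p'.2, p'.1} : Finset ι) := by rw [← h]; simp
        have m2 : p.2 ∈ ({p'.2, p'.1} : Finset ι) := by rw [← h]; simp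
        simp only [Finset.mem_insert, Finset.mem_singleton] at m1 m2
        rcases m1 with m1 | m1 <;> rcases m2 with m2 | m2
        · exact absurd (m2.trans m1.symm) n1
        · rw [m1, m2] at h1
          exact absurd h1 (not_lt.2 h2.le)
        · exact Prod.ext m1 m2
        · exact absurd (m2.trans m1.symm) n1
      obtain ⟨u', hu', v', hv', huv⟩ := WW_comax hq hg n1 n2 hne
      refine IsCoprime.pow ⟨⟨u', hu'⟩, ⟨v', hv'⟩, ?_⟩
      apply Subtype.ext
      exact huv
    · intro p hp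
      have h1 : Fintype.equivFin ι p.1 < Fintype.equivFin ι p.2 := by simpa [hs] using hp
      exact hdiv p.2 p.1 fun h => by rw [h] at h1; exact lt_irrefl _ h1
  have hV : φ (vdl ι a b) = ∏ p ∈ s, φ (lf a b p.2 - lf a b p.1) := by
    rw [vdl_eq, hs, Finset.prod_filter, ← Finset.univ_product_univ, Finset.prod_product,
      map_prod]
    refine Finset.prod_congr rfl fun i _ => ?_
    rw [map_prod]
    refine Finset.prod_congr rfl fun j _ => ?_
    split_ifs
    · rfl
    · exact map_one φ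
  rw [Finset.prod_pow, ← hV] at hprod
  obtain ⟨w, hw⟩ := hprod
  have hw' : toL k L f = toL k L (vdl ι a b) ^ d * (w : L) := by
    have := congrArg (Subtype.val) hw
    simpa [hφL] using this
  have hd := toL_dl_ne_zero k L δ
  have hgc' : g * (c : L) = (u : L) ^ d * w := by
    have h1 : g * (c : L) * toL k L (dl k δ) ^ d = (u : L) ^ d * w * toL k L (dl k δ) ^ d := by
      rw [hfg, hw', ← huV, mul_pow]
      ring
    exact mul_right_cancel₀ (pow_ne_zero d hd) h1
  have hc0 : (c : L) ≠ 0 := by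
    intro h
    apply hc
    have : c = 0 := Subtype.ext h
    rw [this]
    exact Ideal.zero_mem _
  have hcinv : ((c : L)⁻¹) ∈ AA k L δ :=
    Algebra.subset_adjoin (Or.inr ⟨c, hc, inv_mul_cancel₀ hc0⟩)
  have hge : g = (u : L) ^ d * w * (c : L)⁻¹ := by
    rw [← hgc', mul_assoc, mul_inv_cancel₀ hc0, mul_one]
  rw [hge]
  exact mul_mem (mul_mem (pow_mem (F_W2_AA_le u.2) d) w.2) (F_W2_AA_le hcinv)

end

end Pool.Agent.Lib.MP_463376_co
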