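import Pool.Agent.Lib.MP_463376_co.F_Base
import Pool.Agent.Lib.MP_463376_co.I2
import Pool.Agent.Lib.MP_463376_co.I3r

/-! Stream F, JOB F1b: purity for `C`. -/

namespace Pool.Agent.Lib.MP_463376_co

open MvPolynomial RingTheory.Sequence

section

variable (k : Type) [Field k] [CharZero k] {ι : Type} [Fintype ι] [DecidableEq ι]
  (L : Type) [Field L] [Algebra k L] [Algebra (RR k ι) L]
  [IsScalarTower k (RR k ι) L] [IsFractionRing (RR k ι) L] (δ : Dia ι)

private theorem a2_nn_prime : (nn k L δ).IsPrime := by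
  obtain ⟨φ, hφ⟩ := residue k L δ
  rw [← hφ]
  exact RingHom.ker_isPrime _

omit [CharZero k] [IsFractionRing (RR k ι) L] in
private theorem a2_coe_yP (i : BB k ι) :
    ((yC k L δ i : CC k L δ) : L) = ((yP k L δ i : PP k L δ) : L) :=
  Subalgebra.coe_inclusion (le_sup_right : PP k L δ ≤ AA k L δ ⊔ PP k L δ) (toP k L δ (yB i))

private theorem a2_mem_map_iff (I : Ideal (BB k ι)) (h : CC k L δ) :
    h ∈ I.map (yC k L δ) ↔ ∃ b : OO k L δ, b ∉ nn k L δ ∧
      ∃ p ∈ I.map (yP k L δ), ((p : PP k L δ) : L) = (b : L) * h := by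
  have hp := a2_nn_prime k L δ
  have hOP := OO_le_PP k L δ
  constructor
  · intro hh
    rw [Ideal.map] at hh
    induction hh using Submodule.span_induction with
    | mem x hx =>
      obtain ⟨i, hi, rfl⟩ := hx
      refine ⟨1, ?_, yP k L δ i, Ideal.mem_map_of_mem _ hi, ?_⟩
      · exact fun h1 => hp.ne_top ((Ideal.eq_top_iff_one _).2 h1)
      · rw [← a2_coe_yP]; simp
    | zero =>
      refine ⟨1, ?_, 0, Submodule.zero_mem _, ?_⟩
      · exact fun h1 => hp.ne_top ((Ideal.eq_top_iff_one _).2 h1)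
      · simp
    | add x y _ _ hx hy =>
      obtain ⟨b, hb, p, hpI, hpe⟩ := hx
      obtain ⟨c, hc, r, hrI, hre⟩ := hy
      refine ⟨b * c, fun h1 => (hp.mem_or_mem h1).elim hb hc,
        ⟨(c : L), hOP c.2⟩ * p + ⟨(b : L), hOP b.2⟩ * r,
        Ideal.add_mem _ (Ideal.mul_mem_left _ _ hpI) (Ideal.mul_mem_left _ _ hrI), ?_⟩
      push_cast
      rw [hpe, hre]
      ring
    | smul c x _ hx =>
      obtain ⟨b, hb, p, hpI, hpe⟩ := hx
      obtain ⟨d, hd, hdP⟩ := (mem_CC_iff k L δ (c : L)).1 c.2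
      refine ⟨d * b, fun h1 => (hp.mem_or_mem h1).elim hd hb,
        ⟨(c : L) * d, hdP⟩ * p, Ideal.mul_mem_left _ _ hpI, ?_⟩
      push_cast
      rw [hpe, smul_eq_mul]
      push_cast
      ring
  · rintro ⟨b, hb, p, hpI, hpe⟩
    have hb0 : (b : L) ≠ 0 := fun h0 => hb (by
      have h1 : b = 0 := Subtype.ext h0
      rw [h1]; exact (nn k L δ).zero_mem)
    have hbinv : ((b : L))⁻¹ ∈ AA k L δ := by
      rw [mem_AA_iff]
      exact ⟨1, b, hb, by simp [hb0]⟩
    let c : CC k L δ := ⟨(b : L)⁻¹, (le_sup_left : AA k L δ ≤ CC k L δ) hbinv⟩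
    let ic : PP k L δ →ₐ[k] CC k L δ :=
      Subalgebra.inclusion (le_sup_right : PP k L δ ≤ AA k L δ ⊔ PP k L δ)
    have hicp : ∀ p : PP k L δ, ((ic p : CC k L δ) : L) = p := fun p =>
      Subalgebra.coe_inclusion (le_sup_right : PP k L δ ≤ AA k L δ ⊔ PP k L δ) p
    have hic : yC k L δ = ic.comp (yP k L δ) :=
      AlgHom.ext fun i => Subtype.ext (by rw [AlgHom.comp_apply, a2_coe_yP, hicp])
    have h1 : ic p ∈ I.map (yC k L δ) := by
      have h2 : I.map (yC k L δ) = (I.map (yP k L δ)).map ic := by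
        rw [Ideal.map_mapₐ, hic]
      rw [h2]; exact Ideal.mem_map_of_mem _ hpI
    have h2 : h = c * ic p := by
      apply Subtype.ext
      rw [MulMemClass.coe_mul, hicp, hpe]
      change (h : L) = (b : L)⁻¹ * _
      field_simp
    rw [h2]
    exact Ideal.mul_mem_left _ _ h1

/-- common denominators -/
private theorem a2_finset (I : Ideal (BB k ι)) (g : L) (S : Finset (OO k L δ))
    (h : ∀ a ∈ S, ∃ b : OO k L δ, b ∉ nn k L δ ∧
      ∃ p ∈ I.map (yP k L δ), ((p : PP k L δ) : L) = (b : L) * (a * g)) :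
    ∃ b : OO k L δ, b ∉ nn k L δ ∧ ∀ a ∈ S,
      ∃ p ∈ I.map (yP k L δ), ((p : PP k L δ) : L) = (b : L) * (a * g) := by
  classical
  have hp := a2_nn_prime k L δ
  have hOP := OO_le_PP k L δ
  induction S using Finset.induction_on with
  | empty =>
    refine ⟨1, fun h1 => hp.ne_top ((Ideal.eq_top_iff_one _).2 h1), ?_⟩
    simp
  | insert a S ha ih =>
    obtain ⟨b, hb, hbS⟩ := ih fun a' ha' => h a' (Finset.mem_insert_of_mem ha')
    obtain ⟨c, hc, p, hpI, hpe⟩ := h a (Finset.mem_insert_self _ _)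
    refine ⟨b * c, fun h1 => (hp.mem_or_mem h1).elim hb hc, ?_⟩
    intro a' ha'
    rw [Finset.mem_insert] at ha'
    rcases ha' with rfl | ha'
    · refine ⟨⟨(b : L), hOP b.2⟩ * p, Ideal.mul_mem_left _ _ hpI, ?_⟩
      push_cast
      rw [hpe]
      ring
    · obtain ⟨r, hrI, hre⟩ := hbS a' ha'
      refine ⟨⟨(c : L), hOP c.2⟩ * r, Ideal.mul_mem_left _ _ hrI, ?_⟩
      push_cast
      rw [hre]
      ring

theorem purity_CC' (I : Ideal (BB k ι)) [I.IsPrime] (q : Ideal (AA k L δ))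
    (hq : q ∈ associatedPrimes (AA k L δ) (CC k L δ ⧸ I.map (yC k L δ))) :
    (Fintype.card ι : Cardinal) + Algebra.trdeg k (BB k ι ⧸ I) ≤
      Algebra.trdeg k (AA k L δ ⧸ q) := by
  classical
  have hreg := AA_regular k L δ
  have hnoeA : IsNoetherianRing (AA k L δ) := inferInstance
  have hft := OO_finiteType k L δ
  have hnoeO : IsNoetherianRing (OO k L δ) := Algebra.FiniteType.isNoetherianRing k (OO k L δ)
  have hp := a2_nn_prime k L δ
  have hOP := OO_le_PP k L δ
  have hOA : OO k L δ ≤ AA k L δ := fun g hg => Algebra.subset_adjoin (Or.inl hg)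
  obtain ⟨hqp, x, hx⟩ := (Submodule.isAssociatedPrime_iff).1 hq
  obtain ⟨g, rfl⟩ := Ideal.Quotient.mk_surjective x
  have hmem : ∀ a : AA k L δ, a ∈ q ↔
      (algebraMap (AA k L δ) (CC k L δ) a) * g ∈ I.map (yC k L δ) := by
    intro a
    rw [hx, Submodule.mem_colon_singleton, Submodule.mem_bot]
    rw [← Ideal.Quotient.eq_zero_iff_mem, ← Algebra.smul_def]
    rfl
  let inc : OO k L δ →ₐ[k] AA k L δ := Subalgebra.inclusion hOA
  have hinc : ∀ a : OO k L δ, ((inc a : AA k L δ) : L) = a := fun a => rfl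
  let q0 : Ideal (OO k L δ) := q.comap inc
  have hq0 : q0.IsPrime := Ideal.comap_isPrime inc q
  obtain ⟨S, hS⟩ := (isNoetherianRing_iff_ideal_fg _).1 inferInstance q0
  -- the elements of `S` kill `g` modulo `IC`
  have hSg : ∀ a ∈ S, ∃ b : OO k L δ, b ∉ nn k L δ ∧
      ∃ p ∈ I.map (yP k L δ), ((p : PP k L δ) : L) = (b : L) * (a * (g : L)) := by
    intro a ha
    have h1 : a ∈ q0 := by rw [← hS]; exact Ideal.subset_span ha
    have h2 : inc a ∈ q := h1
    rw [hmem, a2_mem_map_iff] at h2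
    obtain ⟨b, hb, p, hpI, hpe⟩ := h2
    refine ⟨b, hb, p, hpI, ?_⟩
    rw [hpe]
    push_cast
    rw [coe_algebraMap_AACC, hinc]
  obtain ⟨b1, hb1, hbS⟩ := a2_finset k L δ I (g : L) S hSg
  obtain ⟨b0, hb0, hb0P⟩ := (mem_CC_iff k L δ (g : L)).1 g.2
  set b : OO k L δ := b0 * b1 with hbdef
  have hb : b ∉ nn k L δ := fun h1 => (hp.mem_or_mem h1).elim hb0 hb1
  let g' : PP k L δ := ⟨(g : L) * b0, hb0P⟩ * ⟨(b1 : L), hOP b1.2⟩
  have hg' : (g' : L) = (b : L) * g := by
    change (g : L) * b0 * b1 = _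
    rw [hbdef]
    push_cast
    ring
  have key : ∀ a : OO k L δ, a ∈ q0 ↔ ∃ h ∈ I.map (yP k L δ), ((h : PP k L δ) : L) = a * g' := by
    intro a
    constructor
    · intro ha
      rw [← hS] at ha
      induction ha using Submodule.span_induction with
      | mem x hx =>
        obtain ⟨p, hpI, hpe⟩ := hbS x hx
        refine ⟨⟨(b0 : L), hOP b0.2⟩ * p, Ideal.mul_mem_left _ _ hpI, ?_⟩
        push_cast
        rw [hpe, hg', hbdef]
        push_cast
        ring
      | zero => exact ⟨0, Submodule.zero_mem _, by simp⟩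
      | add x y _ _ hx hy =>
        obtain ⟨p, hpI, hpe⟩ := hx
        obtain ⟨r, hrI, hre⟩ := hy
        refine ⟨p + r, Ideal.add_mem _ hpI hrI, ?_⟩
        push_cast
        rw [hpe, hre]
        ring
      | smul c x _ hx =>
        obtain ⟨p, hpI, hpe⟩ := hx
        refine ⟨⟨(c : L), hOP c.2⟩ * p, Ideal.mul_mem_left _ _ hpI, ?_⟩
        push_cast
        rw [hpe, smul_eq_mul]
        push_cast
        ring
    · rintro ⟨h, hhI, hhe⟩
      change inc a ∈ q
      rw [hmem, a2_mem_map_iff]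
      refine ⟨b, hb, h, hhI, ?_⟩
      rw [hhe, hg']
      push_cast
      rw [coe_algebraMap_AACC, hinc]
      ring
  have hgI : g' ∉ I.map (yP k L δ) := by
    intro h1
    apply hq0.ne_top
    rw [Ideal.eq_top_iff_one, key]
    exact ⟨g', h1, by simp⟩
  refine (purity_PP k L δ I g' hgI q0 key).trans ?_
  refine trdeg_le_of_injective (Ideal.quotientMapₐ q inc le_rfl) ?_
  exact Ideal.quotientMap_injective

end

end Pool.Agent.Lib.MP_463376_co
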