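import Pool.Agent.Lib.MP_463376_co.I11

/-! The bigraded characters of a graded system are class functions. -/

namespace Pool.Agent.Lib.MP_463376_co

open MvPolynomial

section
variable {m : ℕ} {G : Type} [Group G] (S : GSys ℚ m G)

/-- the graded pieces of `M σ` -/
noncomputable abbrev fa_W (σ : Setoid (Fin (m + 1))) (a c : ℕ) : Submodule ℚ S.V :=
  S.gr (a, c) ⊓ (Submodule.span (SB ℚ m) (Set.range (S.b σ))).restrictScalars ℚ

theorem fa_stable (σ : Setoid (Fin (m + 1))) (g : G) (a c : ℕ) :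
    ∀ w ∈ fa_W S σ a c, ((S.act g).restrictScalars ℚ : S.V →ₗ[ℚ] S.V) w ∈ fa_W S σ a c := by
  intro w hw
  refine ⟨S.act_gr g _ w hw.1, ?_⟩
  have h2 : w ∈ Submodule.span (SB ℚ m) (Set.range (S.b σ)) := hw.2
  change S.act g w ∈ Submodule.span (SB ℚ m) (Set.range (S.b σ))
  rw [S.b_span σ] at h2 ⊢
  exact S.act_M g σ w h2

/-- the action on the graded pieces -/
noncomputable def fa_R (σ : Setoid (Fin (m + 1))) (a c : ℕ) (g : G) :
    Module.End ℚ (fa_W S σ a c) :=
  ((S.act g).restrictScalars ℚ : S.V →ₗ[ℚ] S.V).restrict (fa_stable S σ g a c)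

theorem fa_R_mul (σ : Setoid (Fin (m + 1))) (a c : ℕ) (g h : G) :
    fa_R S σ a c (g * h) = fa_R S σ a c g * fa_R S σ a c h := by
  refine LinearMap.ext fun x => Subtype.ext ?_
  change S.act (g * h) x.1 = S.act g (S.act h x.1)
  rw [map_mul]
  rfl

theorem fa_R_one (σ : Setoid (Fin (m + 1))) (a c : ℕ) : fa_R S σ a c 1 = 1 := by
  refine LinearMap.ext fun x => Subtype.ext ?_
  change S.act 1 x.1 = x.1
  rw [map_one]
  rfl

theorem fa_trace_conj (σ : Setoid (Fin (m + 1))) (a c : ℕ) (g h : G) :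
    LinearMap.trace ℚ _ (fa_R S σ a c (g * h * g⁻¹)) = LinearMap.trace ℚ _ (fa_R S σ a c h) := by
  rw [fa_R_mul, LinearMap.trace_mul_comm, ← fa_R_mul, ← mul_assoc, inv_mul_cancel, one_mul]

theorem fa_trace (σ : Setoid (Fin (m + 1))) (a c : ℕ) (g : G) :
    LinearMap.trace ℚ _ (fa_R S σ a c g) =
      ∑ j ∈ Finset.range (a + 1), (Nat.choose (j + m - 1) j : ℚ) *
        (S.ch σ g).coeff (Finsupp.single 0 (a - j) + Finsupp.single 1 c) := by
  obtain ⟨A, hA, hA'⟩ := S.act_b σ g
  have key := j_trace_formula ℚ m S.V S.gr S.internal S.X_mem (S.B σ) (S.deg σ) (S.b σ) (S.b_gr σ)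
    (S.b_indep σ) ((S.act g).restrictScalars ℚ : S.V →ₗ[ℚ] S.V) A
    (fun s v => (S.act g).map_smul s v) hA a c (fa_stable S σ g a c)
  simp only [hA'] at key
  exact key

theorem GSys.ch_conj (σ : Setoid (Fin (m + 1))) (g h : G) :
    S.ch σ (g * h * g⁻¹) = S.ch σ h := by
  have key : ∀ (c a : ℕ), (S.ch σ (g * h * g⁻¹)).coeff (Finsupp.single 0 a + Finsupp.single 1 c) =
      (S.ch σ h).coeff (Finsupp.single 0 a + Finsupp.single 1 c) := by
    intro c a
    induction a using Nat.strong_induction_on with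
    | _ a ih =>
      have h1 := fa_trace S σ a c (g * h * g⁻¹)
      rw [fa_trace_conj, fa_trace, Finset.sum_range_succ', Finset.sum_range_succ'] at h1
      have h2 : ∀ j ∈ Finset.range a, (Nat.choose (j + 1 + m - 1) (j + 1) : ℚ) *
          (S.ch σ h).coeff (Finsupp.single 0 (a - (j + 1)) + Finsupp.single 1 c) =
          (Nat.choose (j + 1 + m - 1) (j + 1) : ℚ) *
          (S.ch σ (g * h * g⁻¹)).coeff (Finsupp.single 0 (a - (j + 1)) + Finsupp.single 1 c) := by
        intro j hj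
        rw [Finset.mem_range] at hj
        rw [ih (a - (j + 1)) (by omega)]
      rw [Finset.sum_congr rfl h2] at h1
      have h3 := add_left_cancel h1
      simpa using h3.symm
  ext n
  have hn : n = Finsupp.single 0 (n 0) + Finsupp.single 1 (n 1) := by
    ext i
    fin_cases i <;> simp
  rw [hn]
  exact key _ _

end

end Pool.Agent.Lib.MP_463376_co
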