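import Pool.Agent.Lib.MP_463376_co.I10

/-! Set partitions as `Finpartition` and as `Setoid`. -/

namespace Pool.Agent.Lib.MP_463376_co

open MvPolynomial

section
variable {r : ℕ}

open Classical in
/-- the finpartition of the classes -/
noncomputable def fbP (σ : Setoid (Fin r)) : Finpartition (Finset.univ : Finset (Fin r)) :=
  Finpartition.ofSetoid σ

theorem fbP_parts (σ : Setoid (Fin r)) : (fbP σ).parts = classesOf σ := by
  classical
  unfold fbP classesOf Finpartition.ofSetoid
  rw [Finpartition.ofSetSetoid_parts]

theorem fbP_bijective : Function.Bijective (fbP (r := r)) := by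
  classical
  constructor
  · intro σ τ h
    refine Setoid.ext fun a b => ?_
    have h1 : b ∈ (fbP σ).part a ↔ σ a b := Finpartition.mem_part_ofSetoid_iff_rel
    have h2 : b ∈ (fbP τ).part a ↔ τ a b := Finpartition.mem_part_ofSetoid_iff_rel
    rw [← h1, ← h2, h]
  · intro π
    refine ⟨Setoid.ker π.part, ?_⟩
    apply Finpartition.ext
    have hcl : ∀ a : Fin r, (Finset.univ.filter fun b => (Setoid.ker π.part) a b) = π.part a := by
      intro a
      ext b
      simp only [Finset.mem_filter, Finset.mem_univ, true_and, Setoid.ker_def]
      constructor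
      · intro h
        rw [h]
        exact π.mem_part (Finset.mem_univ b)
      · intro h
        exact (π.part_eq_of_mem (π.part_mem.2 (Finset.mem_univ a)) h).symm
    rw [fbP_parts]
    unfold classesOf
    ext B
    simp only [Finset.mem_image, Finset.mem_univ, true_and]
    constructor
    · rintro ⟨a, rfl⟩
      have := hcl a
      convert π.part_mem.2 (Finset.mem_univ a) using 1
    · intro hB
      obtain ⟨a, ha⟩ := π.nonempty_of_mem_parts hB
      refine ⟨a, ?_⟩
      have h1 := hcl a
      rw [π.part_eq_of_mem hB ha] at h1
      convert h1 using 1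

theorem card_classesOf (σ : Setoid (Fin r)) : (classesOf σ).card = Nat.card (Quotient σ) := by
  classical
  have h := prod_classesOf σ (M := ℕ) (fun _ => 2)
  rw [Finset.prod_const, Finset.prod_const, Finset.card_univ] at h
  have h2 := Nat.pow_right_injective (le_refl 2) h
  rw [h2, Nat.card_eq_fintype_card]

theorem sum_finpartition {M : Type} [AddCommMonoid M] (F : Finset (Finset (Fin r)) → M) :
    ∑ π : Finpartition (Finset.univ : Finset (Fin r)), F π.parts =
      ∑ σ : Setoid (Fin r), F (classesOf σ) := by
  symm
  refine Fintype.sum_bijective fbP fbP_bijective _ _ fun σ => ?_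
  rw [fbP_parts]

end

end Pool.Agent.Lib.MP_463376_co
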