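import Pool.Agent.Lib.MP_463376_co.G1_Sign

/-! Stream G1: `det (1 - t w)` as a sum over `w`-stable subsets -/

set_option autoImplicit false

namespace Pool.Agent.Lib.MP_463376_co

open Finset

section Det

theorem G1_sign_univ {κ : Type} [DecidableEq κ] [Fintype κ] (rk : κ → ℕ)
    (hrk : Function.Injective rk) (τ : Equiv.Perm κ) :
    ((Equiv.Perm.sign τ : ℤˣ) : ℤ) = G1e rk τ univ := by
  obtain ⟨n, e, he⟩ : ∃ (n : ℕ) (e : κ ≃ Fin n), ∀ a b, e a < e b ↔ rk a < rk b := by
    let _ : LinearOrder κ := LinearOrder.lift' rk hrk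
    let o : Fin (Fintype.card κ) ≃o κ := Fintype.orderIsoFinOfCardEq κ rfl
    refine ⟨Fintype.card κ, o.symm.toEquiv, fun a b => ?_⟩
    have h : o.symm a < o.symm b ↔ a < b := o.symm.lt_iff_lt
    exact h
  rw [← Equiv.Perm.sign_permCongr e τ, Equiv.Perm.sign_eq_prod_prod_Iio]
  unfold G1e G1F
  rw [Finset.prod_comm, Units.coe_prod, ← Equiv.prod_comp e]
  refine Finset.prod_congr rfl fun b _ => ?_
  rw [Units.coe_prod]
  have h1 : ∏ i ∈ Finset.Iio (e b), ((if (e.permCongr τ) i < (e.permCongr τ) (e b) then (1 : ℤˣ)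
      else -1 : ℤˣ) : ℤ) = ∏ i : Fin n, if i < e b then ((if (e.permCongr τ) i <
        (e.permCongr τ) (e b) then (1 : ℤˣ) else -1 : ℤˣ) : ℤ) else 1 := by
    rw [← Finset.prod_filter]
    congr 1
    ext i
    simp
  rw [h1, ← Equiv.prod_comp e]
  refine Finset.prod_congr rfl fun a _ => ?_
  rw [Equiv.permCongr_apply, Equiv.permCongr_apply, Equiv.symm_apply_apply,
    Equiv.symm_apply_apply]
  simp only [he]
  split_ifs <;> rfl

variable {ι : Type} [DecidableEq ι] [Fintype ι] (rk : ι → ℕ)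

theorem G1_stable (w : Equiv.Perm ι) (T : Finset ι) (hT : T.map w.toEmbedding = T) (x : ι) :
    w x ∈ T ↔ x ∈ T := by
  constructor
  · intro h
    rw [← hT] at h
    obtain ⟨a, ha, hax⟩ := Finset.mem_map.1 h
    have : a = x := w.injective hax
    rw [← this]
    exact ha
  · intro h
    rw [← hT]
    exact Finset.mem_map.2 ⟨x, h, rfl⟩

theorem G1_sign_stable (hrk : Function.Injective rk) (w : Equiv.Perm ι) (T : Finset ι)
    (hT : ∀ x, w x ∈ T ↔ x ∈ T) :
    ((Equiv.Perm.sign (Equiv.Perm.ofSubtype (w.subtypePerm hT)) : ℤˣ) : ℤ) = G1e rk w T := by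
  rw [Equiv.Perm.sign_ofSubtype, G1_sign_univ (fun x : {x // x ∈ T} => rk x)
    (fun a b h => Subtype.ext (hrk h))]
  unfold G1e
  rw [← Finset.prod_coe_sort T]
  refine Finset.prod_congr rfl fun a _ => ?_
  rw [← Finset.prod_coe_sort T]
  refine Finset.prod_congr rfl fun b _ => ?_
  rfl

theorem G1_det (hrk : Function.Injective rk) {R : Type} [CommRing R] (w : Equiv.Perm ι) (t : R) :
    (1 - t • (w.toPEquiv.toMatrix : Matrix ι ι R)).det =
      ∑ T : Finset ι, if T.map w.toEmbedding = T then ((G1e rk w T : ℤ) : R) * (-t) ^ T.card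
        else 0 := by
  rw [Matrix.det_apply']
  have h1 : ∀ σ : Equiv.Perm ι, ∏ i, (1 - t • (w.toPEquiv.toMatrix : Matrix ι ι R)) (σ i) i =
      ∑ T : Finset ι, (-t) ^ T.card * (if (∀ i ∈ T, w (σ i) = i) ∧ (∀ i, i ∉ T → σ i = i)
        then 1 else 0) := by
    intro σ
    have h2 : ∀ i, (1 - t • (w.toPEquiv.toMatrix : Matrix ι ι R)) (σ i) i =
        (-t) * (if w (σ i) = i then 1 else 0) + (if σ i = i then 1 else 0) := by
      intro i
      rw [Matrix.sub_apply, Matrix.smul_apply, Matrix.one_apply, PEquiv.toMatrix_apply,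
        smul_eq_mul]
      have h3 : (i ∈ w.toPEquiv (σ i)) ↔ w (σ i) = i := by
        simp [Equiv.toPEquiv_apply]
      simp only [h3]
      ring
    simp_rw [h2]
    rw [Fintype.prod_add]
    refine Finset.sum_congr rfl fun T _ => ?_
    rw [Finset.prod_mul_distrib, Finset.prod_const, mul_assoc]
    congr 1
    rw [Finset.prod_ite_zero, Finset.prod_ite_zero, Finset.prod_const_one, Finset.prod_const_one]
    simp only [Finset.mem_compl]
    by_cases ha : ∀ i ∈ T, w (σ i) = i
    · by_cases hb : ∀ i, i ∉ T → σ i = i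
      · rw [if_pos ha, if_pos hb, if_pos ⟨ha, hb⟩, one_mul]
      · rw [if_pos ha, if_neg hb, if_neg (fun h => hb h.2), one_mul]
    · rw [if_neg ha, zero_mul, if_neg (fun h => ha h.1)]
  simp_rw [h1, Finset.mul_sum]
  rw [Finset.sum_comm]
  refine Finset.sum_congr rfl fun T _ => ?_
  by_cases hT : T.map w.toEmbedding = T
  · rw [if_pos hT]
    have hst := G1_stable w T hT
    obtain ⟨τ, hτ⟩ : ∃ τ : Equiv.Perm ι, τ = Equiv.Perm.ofSubtype (w.subtypePerm hst) := ⟨_, rfl⟩
    have hτ1 : ∀ x ∈ T, τ x = w x := by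
      intro x hx
      rw [hτ, Equiv.Perm.ofSubtype_apply_of_mem _ hx]
      rfl
    have hτ2 : ∀ x, x ∉ T → τ x = x := by
      intro x hx
      rw [hτ, Equiv.Perm.ofSubtype_apply_of_not_mem _ hx]
    have hsig : ((Equiv.Perm.sign τ : ℤˣ) : ℤ) = G1e rk w T := by
      rw [hτ]
      exact G1_sign_stable rk hrk w T hst
    rw [Finset.sum_eq_single τ⁻¹]
    · rw [if_pos, Equiv.Perm.sign_inv, hsig, mul_one]
      constructor
      · intro i hi
        have h3 : w (w.symm i) = i := w.apply_symm_apply i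
        have h4 : w.symm i ∈ T := by
          rw [← hst, h3]
          exact hi
        have h5 : τ⁻¹ i = w.symm i := by
          rw [Equiv.Perm.inv_eq_iff_eq, hτ1 _ h4, h3]
        rw [h5, h3]
      · intro i hi
        rw [Equiv.Perm.inv_eq_iff_eq, hτ2 i hi]
    · intro σ _ hσ
      rw [if_neg, mul_zero, mul_zero]
      rintro ⟨h3, h4⟩
      apply hσ
      ext i
      by_cases hi : i ∈ T
      · have h5 : w (σ i) = i := h3 i hi
        have h6 : σ i ∈ T := by
          rw [← hst, h5]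
          exact hi
        symm
        rw [Equiv.Perm.inv_eq_iff_eq, hτ1 _ h6, h5]
      · rw [h4 i hi]
        symm
        rw [Equiv.Perm.inv_eq_iff_eq, hτ2 i hi]
    · intro h
      exact absurd (Finset.mem_univ _) h
  · rw [if_neg hT]
    refine Finset.sum_eq_zero fun σ _ => ?_
    rw [if_neg, mul_zero, mul_zero]
    rintro ⟨h3, h4⟩
    apply hT
    symm
    refine Finset.eq_of_subset_of_card_le ?_ (by rw [Finset.card_map])
    intro i hi
    have h5 : σ i ∈ T := by
      by_contra h6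
      have h7 := σ.injective (h4 _ h6)
      exact h6 (h7.symm ▸ hi)
    exact Finset.mem_map.2 ⟨σ i, h5, h3 i hi⟩

end Det

end Pool.Agent.Lib.MP_463376_co
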