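import Pool.Agent.Lib.MP_463376_co.G1_Sign

/-! Stream G1: Koszul differential, group action and homotopy as linear maps -/

set_option autoImplicit false

namespace Pool.Agent.Lib.MP_463376_co

open Finset

section Hom

variable {ι : Type} [DecidableEq ι] [Fintype ι] (rk : ι → ℕ) (A : Type) {C : Type} [CommRing A]
  [CommRing C] [Algebra A C] (y : ι → C)

/-- Koszul differential -/
noncomputable def G1d : (Finset ι → C) →ₗ[A] (Finset ι → C) where
  toFun φ T := G1D rk y univ φ T
  map_add' φ ψ := by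
    funext T
    simp only [G1D, Pi.add_apply, mul_add, smul_add, Finset.sum_add_distrib]
  map_smul' a φ := by
    funext T
    simp only [G1D, Pi.smul_apply, RingHom.id_apply, Finset.smul_sum]
    refine Finset.sum_congr rfl fun i _ => ?_
    rw [mul_smul_comm, smul_comm]

theorem G1d_apply (φ : Finset ι → C) (T : Finset ι) :
    G1d rk A y φ T = ∑ i ∈ univ \ T, G1s rk i T • (y i * φ (insert i T)) := rfl

theorem G1d_sq (hrk : Function.Injective rk) (φ : Finset ι → C) :
    G1d rk A y (G1d rk A y φ) = 0 := by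
  funext T
  rw [G1d_apply]
  simp_rw [G1d_apply, Finset.mul_sum, Finset.smul_sum]
  rw [Finset.sum_sigma']
  have hmem : ∀ a : (_ : ι) × ι, a ∈ (univ \ T).sigma (fun i => univ \ insert i T) ↔
      a.1 ∉ T ∧ a.2 ≠ a.1 ∧ a.2 ∉ T := by
    intro a
    simp only [Finset.mem_sigma, Finset.mem_sdiff, Finset.mem_univ, true_and, Finset.mem_insert,
      not_or, ne_eq]
  refine Finset.sum_involution (fun a _ => ⟨a.2, a.1⟩) ?_ ?_ ?_ ?_
  · intro a ha
    rw [hmem] at ha
    obtain ⟨h1, h2, h3⟩ := ha
    have h := G1s_anti rk hrk a.1 a.2 T h1 h3 (Ne.symm h2)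
    simp only
    rw [Finset.insert_comm a.1 a.2 T]
    simp only [mul_smul_comm, smul_smul]
    rw [h, mul_left_comm (y a.2), neg_smul, neg_add_cancel]
  · intro a ha _ hc
    rw [hmem] at ha
    exact ha.2.1 (congrArg Sigma.fst hc)
  · intro a ha
    rw [hmem] at ha ⊢
    exact ⟨ha.2.2, fun h => ha.2.1 h.symm, ha.1⟩
  · intro a _
    rfl

/-- the action of a permutation on the Koszul complex -/
noncomputable def G1W (w : Equiv.Perm ι) (f : C →ₗ[A] C) : (Finset ι → C) →ₗ[A] (Finset ι → C) where
  toFun φ T := G1e rk w (T.map (w⁻¹).toEmbedding) • f (φ (T.map (w⁻¹).toEmbedding))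
  map_add' φ ψ := by
    funext T
    simp only [Pi.add_apply, map_add, smul_add]
  map_smul' a φ := by
    funext T
    simp only [Pi.smul_apply, RingHom.id_apply, map_smul]
    rw [smul_comm]

theorem G1W_apply (w : Equiv.Perm ι) (f : C →ₗ[A] C) (φ : Finset ι → C) (T : Finset ι) :
    G1W rk A w f φ T = G1e rk w (T.map (w⁻¹).toEmbedding) • f (φ (T.map (w⁻¹).toEmbedding)) := rfl

theorem G1W_comm (hrk : Function.Injective rk) (w : Equiv.Perm ι) (f : C →ₗ[A] C)
    (hf : ∀ i c, f (y i * c) = y (w i) * f c) (φ : Finset ι → C) :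
    G1d rk A y (G1W rk A w f φ) = G1W rk A w f (G1d rk A y φ) := by
  funext T
  rw [G1d_apply, G1W_apply, G1d_apply, map_sum, Finset.smul_sum]
  symm
  have hTT : (T.map (w⁻¹).toEmbedding).map w.toEmbedding = T := by
    ext x
    rw [Finset.mem_map]
    constructor
    · rintro ⟨a, ha, rfl⟩
      obtain ⟨b, hb, rfl⟩ := Finset.mem_map.1 ha
      show w (w⁻¹ b) ∈ T
      have e : w (w⁻¹ b) = b := w.apply_symm_apply b
      rw [e]
      exact hb
    · intro hx
      exact ⟨w⁻¹ x, Finset.mem_map.2 ⟨x, hx, rfl⟩, w.apply_symm_apply x⟩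
  refine Finset.sum_equiv w ?_ ?_
  · intro j
    simp only [Finset.mem_sdiff, Finset.mem_univ, true_and]
    rw [not_iff_not, Finset.mem_map]
    constructor
    · rintro ⟨x, hx, rfl⟩
      simpa using hx
    · intro h
      exact ⟨w j, h, by simp⟩
  · intro j hj
    rw [Finset.mem_sdiff] at hj
    rw [G1W_apply, Finset.map_insert]
    have h1 : (w⁻¹).toEmbedding (w j) = j := by simp
    rw [h1, G1e_insert rk hrk w j _ hj.2, hTT, map_zsmul, hf, smul_smul, mul_smul_comm, smul_smul]
    congr 1
    have h2 := G1s_sq rk (w j) T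
    calc G1e rk w (T.map (w⁻¹).toEmbedding) * G1s rk j (T.map (w⁻¹).toEmbedding)
        = G1e rk w (T.map (w⁻¹).toEmbedding) * G1s rk j (T.map (w⁻¹).toEmbedding) *
          (G1s rk (w j) T * G1s rk (w j) T) := by rw [h2, mul_one]
      _ = _ := by ring

/-- truncation -/
noncomputable def G1P (C : Type) [CommRing C] [Algebra A C] (p : Finset ι → Prop)
    [DecidablePred p] : (Finset ι → C) →ₗ[A] (Finset ι → C) where
  toFun φ T := if p T then φ T else 0
  map_add' φ ψ := by
    funext T
    simp only [Pi.add_apply]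
    split_ifs <;> simp
  map_smul' a φ := by
    funext T
    simp only [Pi.smul_apply, RingHom.id_apply]
    split_ifs <;> simp

theorem G1P_apply (p : Finset ι → Prop) [DecidablePred p] (φ : Finset ι → C) (T : Finset ι) :
    G1P A C p φ T = if p T then φ T else 0 := rfl

theorem G1_homotopy (hrk : Function.Injective rk) [Module.Projective A (Finset ι → C)]
    (E : (Finset ι → C) →ₗ[A] (Finset ι → C)) (hE : ∀ φ, G1d rk A y (E φ) = E (G1d rk A y φ))
    (hE0 : ∀ φ, (E φ) ∅ ∈ Ideal.span (Set.range y))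
    (hex : ∀ φ : Finset ι → C, G1d rk A y φ = 0 → φ ∅ ∈ Ideal.span (Set.range y) →
      ∃ ψ, G1d rk A y ψ = φ) :
    ∃ H : (Finset ι → C) →ₗ[A] (Finset ι → C), ∀ φ, G1d rk A y (H φ) + H (G1d rk A y φ) = E φ := by
  classical
  have key : ∀ j : ℕ, ∃ H : (Finset ι → C) →ₗ[A] (Finset ι → C), (∀ φ, H φ ∅ = 0) ∧
      ∀ φ, (∀ T, j ≤ T.card → φ T = 0) → G1d rk A y (H φ) + H (G1d rk A y φ) = E φ := by
    intro j
    induction j with
    | zero =>
      refine ⟨0, fun φ => rfl, fun φ hφ => ?_⟩
      have h : φ = 0 := by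
        funext T
        exact hφ T (Nat.zero_le _)
      rw [h]
      simp
    | succ j ih =>
      obtain ⟨H, hH0, hH⟩ := ih
      have hDsupp : ∀ φ : Finset ι → C, (∀ T, j + 1 ≤ T.card → φ T = 0) →
          ∀ T, j ≤ T.card → G1d rk A y φ T = 0 := by
        intro φ hφ T hT
        rw [G1d_apply]
        refine Finset.sum_eq_zero fun i hi => ?_
        rw [Finset.mem_sdiff] at hi
        rw [hφ _ (by rw [Finset.card_insert_of_notMem hi.2]; omega), mul_zero, smul_zero]
      obtain ⟨Pj, hPj⟩ : ∃ Pj : (Finset ι → C) →ₗ[A] (Finset ι → C),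
          Pj = G1P A C (fun T => T.card = j) := ⟨_, rfl⟩
      obtain ⟨Pl, hPl⟩ : ∃ Pl : (Finset ι → C) →ₗ[A] (Finset ι → C),
          Pl = G1P A C (fun T => T.card < j) := ⟨_, rfl⟩
      obtain ⟨Z, hZ⟩ : ∃ Z : (Finset ι → C) →ₗ[A] (Finset ι → C),
          Z = G1P A C (fun T => T ≠ ∅) := ⟨_, rfl⟩
      have hPjs : ∀ φ : Finset ι → C, ∀ T, j + 1 ≤ T.card → Pj φ T = 0 := by
        intro φ T hT
        rw [hPj, G1P_apply, if_neg (by omega)]
      have hPls : ∀ φ : Finset ι → C, ∀ T, j ≤ T.card → Pl φ T = 0 := by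
        intro φ T hT
        rw [hPl, G1P_apply, if_neg (by omega)]
      have hPP : ∀ φ, Pj (Pj φ) = Pj φ := by
        intro φ
        funext T
        rw [hPj, G1P_apply, G1P_apply]
        split_ifs <;> rfl
      have hsplit : ∀ φ : Finset ι → C, (∀ T, j + 1 ≤ T.card → φ T = 0) → φ = Pl φ + Pj φ := by
        intro φ hφ
        funext T
        rw [Pi.add_apply, hPl, hPj, G1P_apply, G1P_apply]
        rcases lt_trichotomy T.card j with h | h | h
        · rw [if_pos h, if_neg (by omega), add_zero]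
        · rw [if_neg (by omega), if_pos h, zero_add]
        · rw [if_neg (by omega), if_neg (by omega), hφ T (by omega), add_zero]
      have hlow : ∀ φ : Finset ι → C, (∀ T, j ≤ T.card → φ T = 0) → Pl φ = φ ∧ Pj φ = 0 := by
        intro φ hφ
        constructor
        · funext T
          rw [hPl, G1P_apply]
          by_cases h : T.card < j
          · rw [if_pos h]
          · rw [if_neg h, hφ T (by omega)]
        · funext T
          rw [hPj, G1P_apply]
          by_cases h : T.card = j
          · rw [if_pos h, hφ T (by omega)]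
            rfl
          · rw [if_neg h]
            rfl
      have hDZ : ∀ φ, G1d rk A y (Z φ) = G1d rk A y φ := by
        intro φ
        funext T
        exact G1D_congr rk y univ T _ _ fun T' hT' => by rw [hZ, G1P_apply, if_pos hT']
      obtain ⟨R, hR⟩ : ∃ R : (Finset ι → C) →ₗ[A] (Finset ι → C),
          R = (E - H ∘ₗ G1d rk A y) ∘ₗ Pj := ⟨_, rfl⟩
      have hRapp : ∀ φ, R φ = E (Pj φ) - H (G1d rk A y (Pj φ)) := by
        intro φ
        rw [hR]
        rfl
      have hRmem : ∀ φ, R φ ∈ LinearMap.range (G1d rk A y) := by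
        intro φ
        rw [LinearMap.mem_range]
        apply hex
        · rw [hRapp, map_sub, hE]
          have h1 := hH (G1d rk A y (Pj φ)) (hDsupp _ (hPjs φ))
          rw [G1d_sq rk A y hrk, map_zero, add_zero] at h1
          rw [h1, sub_self]
        · rw [hRapp, Pi.sub_apply, hH0, sub_zero]
          exact hE0 _
      obtain ⟨h, hh⟩ := Module.projective_lifting_property (G1d rk A y).rangeRestrict
        (R.codRestrict (LinearMap.range (G1d rk A y)) hRmem) (LinearMap.surjective_rangeRestrict _)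
      have hh' : ∀ φ, G1d rk A y (h φ) = R φ := fun φ =>
        congrArg Subtype.val (LinearMap.congr_fun hh φ)
      refine ⟨H ∘ₗ Pl + Z ∘ₗ h ∘ₗ Pj, fun φ => ?_, fun φ hφ => ?_⟩
      · rw [LinearMap.add_apply, Pi.add_apply, LinearMap.comp_apply, hH0, zero_add,
          LinearMap.comp_apply, hZ, G1P_apply, if_neg (by simp)]
      · have hlow' := hlow _ (hDsupp φ hφ)
        simp only [LinearMap.add_apply, LinearMap.comp_apply]
        rw [hlow'.1, hlow'.2, map_zero, map_zero, add_zero, map_add, hDZ, hh', hRapp, hPP]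
        have h2 := hH (Pl φ) (hPls φ)
        have h3 : φ = Pl φ + Pj φ := hsplit φ hφ
        have h4 : H (G1d rk A y φ) = H (G1d rk A y (Pl φ)) + H (G1d rk A y (Pj φ)) := by
          rw [← map_add, ← map_add, ← h3]
        have h5 : E φ = E (Pl φ) + E (Pj φ) := by
          rw [← map_add, ← h3]
        rw [h4, h5, ← h2]
        abel
  obtain ⟨H, -, hH⟩ := key (Fintype.card ι + 1)
  refine ⟨H, fun φ => hH φ fun T hT => ?_⟩
  have := Finset.card_le_univ T
  omega

end Hom

end Pool.Agent.Lib.MP_463376_co
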