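import Mathlib

/-! Stream G1: signs of finite subsets and the exactness of the Koszul complex -/

set_option autoImplicit false

namespace Pool.Agent.Lib.MP_463376_co

open Finset

section Sign

variable {ι : Type} [DecidableEq ι] (rk : ι → ℕ)

/-- sign of `e_i` moved into `e_T` -/
def G1s (i : ι) (T : Finset ι) : ℤ := ∏ a ∈ T, if rk a < rk i then -1 else 1

/-- inversion sign of a pair -/
def G1F (w : Equiv.Perm ι) (a b : ι) : ℤ :=
  if rk a < rk b then (if rk (w a) < rk (w b) then 1 else -1) else 1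

/-- sign of `w e_T = ± e_{wT}` -/
def G1e (w : Equiv.Perm ι) (T : Finset ι) : ℤ := ∏ a ∈ T, ∏ b ∈ T, G1F rk w a b

theorem G1s_insert (i j : ι) (T : Finset ι) (hj : j ∉ T) :
    G1s rk i (insert j T) = (if rk j < rk i then -1 else 1) * G1s rk i T := by
  unfold G1s
  rw [Finset.prod_insert hj]

theorem G1s_sq (i : ι) (T : Finset ι) : G1s rk i T * G1s rk i T = 1 := by
  unfold G1s
  rw [← Finset.prod_mul_distrib]
  refine Finset.prod_eq_one fun a _ => ?_
  split_ifs <;> norm_num

theorem G1s_anti (hrk : Function.Injective rk) (i j : ι) (T : Finset ι) (hi : i ∉ T) (hj : j ∉ T)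
    (hij : i ≠ j) : G1s rk i T * G1s rk j (insert i T) = -(G1s rk j T * G1s rk i (insert j T)) := by
  rw [G1s_insert rk j i T hi, G1s_insert rk i j T hj]
  rcases lt_trichotomy (rk i) (rk j) with h | h | h
  · rw [if_pos h, if_neg (by omega)]
    ring
  · exact absurd (hrk h) hij
  · rw [if_neg (by omega), if_pos h]
    ring

theorem G1e_insert (hrk : Function.Injective rk) (w : Equiv.Perm ι) (i : ι) (T : Finset ι)
    (hi : i ∉ T) : G1e rk w (insert i T) =
      G1e rk w T * (G1s rk i T * G1s rk (w i) (T.map w.toEmbedding)) := by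
  unfold G1e
  rw [Finset.prod_insert hi, Finset.prod_insert hi]
  have h1 : ∀ a ∈ T, ∏ b ∈ insert i T, G1F rk w a b = G1F rk w a i * ∏ b ∈ T, G1F rk w a b :=
    fun a _ => Finset.prod_insert hi
  rw [Finset.prod_congr rfl h1, Finset.prod_mul_distrib]
  have h2 : G1F rk w i i = 1 := by simp [G1F]
  have h3 : (∏ b ∈ T, G1F rk w i b) * (∏ a ∈ T, G1F rk w a i) =
      G1s rk i T * G1s rk (w i) (T.map w.toEmbedding) := by
    unfold G1s
    rw [Finset.prod_map, ← Finset.prod_mul_distrib, ← Finset.prod_mul_distrib]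
    refine Finset.prod_congr rfl fun a ha => ?_
    have hai : a ≠ i := fun h => hi (h ▸ ha)
    have h4 : rk a ≠ rk i := fun h => hai (hrk h)
    have h5 : rk (w a) ≠ rk (w i) := fun h => hai (w.injective (hrk h))
    simp only [G1F, Equiv.coe_toEmbedding]
    rcases lt_or_gt_of_ne h4 with h | h <;> rcases lt_or_gt_of_ne h5 with h' | h'
    · rw [if_neg (by omega), if_pos h, if_pos h', if_pos h, if_pos h']; try norm_num
    · rw [if_neg (by omega), if_pos h, if_neg (by omega), if_pos h, if_neg (by omega)]; try norm_num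
    · rw [if_pos h, if_neg (by omega), if_neg (by omega), if_neg (by omega), if_pos h']; try norm_num
    · rw [if_pos h, if_pos h', if_neg (by omega), if_neg (by omega), if_neg (by omega)]; try norm_num
  rw [h2, one_mul, ← h3]
  ring

theorem G1s_max (m : ι) (T : Finset ι) (h : ∀ a ∈ T, rk a < rk m) : G1s rk m T = (-1) ^ T.card := by
  unfold G1s
  rw [Finset.prod_congr rfl fun a ha => if_pos (h a ha), Finset.prod_const]

end Sign

section Exact

variable {ι : Type} [DecidableEq ι] (rk : ι → ℕ) {C : Type} [CommRing C] (y : ι → C)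

/-- Koszul differential for the variables in `U` -/
def G1D (U : Finset ι) (φ : Finset ι → C) (T : Finset ι) : C :=
  ∑ i ∈ U \ T, G1s rk i T • (y i * φ (insert i T))

theorem G1D_insert_notMem (m : ι) (U T : Finset ι) (hm : m ∉ U) (hT : T ⊆ U) (φ : Finset ι → C) :
    G1D rk y (insert m U) φ T = G1s rk m T • (y m * φ (insert m T)) + G1D rk y U φ T := by
  unfold G1D
  have hmT : m ∉ T := fun h => hm (hT h)
  rw [Finset.insert_sdiff_of_notMem _ hmT, Finset.sum_insert (by simp [hm])]

theorem G1D_insert_mem (m : ι) (U T : Finset ι) (hm : m ∉ U) (hT : T ⊆ U)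
    (hmax : ∀ a ∈ U, rk a < rk m) (φ : Finset ι → C) :
    G1D rk y (insert m U) φ (insert m T) = G1D rk y U (fun T => φ (insert m T)) T := by
  unfold G1D
  have hmT : m ∉ T := fun h => hm (hT h)
  have h1 : insert m U \ insert m T = U \ T := by
    ext i
    simp only [Finset.mem_sdiff, Finset.mem_insert, not_or]
    constructor
    · rintro ⟨h1 | h1, h2, h3⟩
      · exact absurd h1 h2
      · exact ⟨h1, h3⟩
    · rintro ⟨h1, h2⟩
      exact ⟨Or.inr h1, fun h => hm (h ▸ h1), h2⟩
  rw [h1]
  refine Finset.sum_congr rfl fun i hi => ?_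
  rw [Finset.mem_sdiff] at hi
  have h2 : ¬ rk m < rk i := by
    have := hmax i hi.1
    omega
  rw [G1s_insert rk i m T hmT, if_neg h2, one_mul, Finset.insert_comm]

theorem G1D_congr (U T : Finset ι) (φ φ' : Finset ι → C) (h : ∀ T, T ≠ ∅ → φ T = φ' T) :
    G1D rk y U φ T = G1D rk y U φ' T := by
  unfold G1D
  refine Finset.sum_congr rfl fun i _ => ?_
  rw [h _ (Finset.insert_ne_empty _ _)]

theorem G1D_empty_mem (U : Finset ι) (φ : Finset ι → C) :
    G1D rk y U φ ∅ ∈ Ideal.span (y '' (U : Set ι)) := by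
  unfold G1D
  refine Submodule.sum_mem _ fun i hi => ?_
  rw [Finset.mem_sdiff] at hi
  refine Submodule.smul_of_tower_mem _ _ ?_
  exact Ideal.mul_mem_right _ _ (Ideal.subset_span ⟨i, hi.1, rfl⟩)

theorem G1_exact (hrk : Function.Injective rk)
    (hreg : ∀ (U : Finset ι) (m : ι), m ∉ U → ∀ c : C, y m * c ∈ Ideal.span (y '' (U : Set ι)) →
      c ∈ Ideal.span (y '' (U : Set ι))) (U : Finset ι) :
    ∀ φ : Finset ι → C, (∀ T ⊆ U, G1D rk y U φ T = 0) → φ ∅ ∈ Ideal.span (y '' (U : Set ι)) →
      ∃ ψ : Finset ι → C, ∀ T ⊆ U, φ T = G1D rk y U ψ T := by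
  induction U using Finset.induction_on_max_value rk with
  | empty =>
    intro φ _ h0
    refine ⟨0, fun T hT => ?_⟩
    have hT' : T = ∅ := Finset.subset_empty.1 hT
    subst hT'
    rw [Finset.coe_empty, Set.image_empty, Ideal.span_empty, Ideal.mem_bot] at h0
    rw [h0]
    simp [G1D]
  | insert m U hm hmax ih =>
    intro φ hφ h0
    have hmax' : ∀ a ∈ U, rk a < rk m := fun a ha => lt_of_le_of_ne (hmax a ha)
      fun h => hm (hrk h ▸ ha)
    have hs : ∀ T ⊆ U, G1s rk m T = (-1) ^ T.card := fun T hT =>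
      G1s_max rk m T fun a ha => hmax' a (hT ha)
    -- the equations
    have e1 : ∀ T ⊆ U, G1D rk y U (fun T => φ (insert m T)) T = 0 := by
      intro T hT
      rw [← G1D_insert_mem rk y m U T hm hT hmax' φ]
      exact hφ _ (Finset.insert_subset_insert m hT)
    have e2 : ∀ T ⊆ U, ((-1 : ℤ) ^ T.card) • (y m * φ (insert m T)) + G1D rk y U φ T = 0 := by
      intro T hT
      rw [← hs T hT, ← G1D_insert_notMem rk y m U T hm hT φ]
      exact hφ _ (hT.trans (Finset.subset_insert m U))
    have h1 : φ (insert m ∅) ∈ Ideal.span (y '' (U : Set ι)) := by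
      apply hreg U m hm
      have h2 := e2 ∅ (Finset.empty_subset U)
      rw [Finset.card_empty, pow_zero, one_smul, ← eq_neg_iff_add_eq_zero] at h2
      rw [h2]
      exact neg_mem (G1D_empty_mem rk y U φ)
    obtain ⟨ψ1, hψ1⟩ := ih _ e1 h1
    obtain ⟨c, z, hz, hcz⟩ : ∃ c z, z ∈ Ideal.span (y '' (U : Set ι)) ∧ φ ∅ = c * y m + z := by
      rw [Finset.coe_insert, Set.image_insert_eq, Ideal.mem_span_insert] at h0
      obtain ⟨c, z, hz, h⟩ := h0
      exact ⟨c, z, hz, h⟩
    obtain ⟨ψ2, hψ2⟩ : ∃ ψ2 : Finset ι → C, ψ2 = Function.update ψ1 ∅ c := ⟨_, rfl⟩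
    have hψ20 : ψ2 ∅ = c := by rw [hψ2, Function.update_self]
    have hψ2' : ∀ T, G1D rk y U ψ2 T = G1D rk y U ψ1 T := fun T =>
      G1D_congr rk y U T _ _ fun T' hT' => by rw [hψ2, Function.update_of_ne hT']
    obtain ⟨φ0, hφ0⟩ : ∃ φ0 : Finset ι → C, φ0 = fun T =>
      φ T - ((-1 : ℤ) ^ T.card) • (y m * ψ2 T) := ⟨_, rfl⟩
    have e3 : ∀ T ⊆ U, G1D rk y U φ0 T = 0 := by
      intro T hT
      have h3 : G1D rk y U φ0 T = G1D rk y U φ T +
          ((-1 : ℤ) ^ T.card) • (y m * G1D rk y U ψ2 T) := by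
        unfold G1D
        rw [Finset.mul_sum, Finset.smul_sum, ← Finset.sum_add_distrib]
        refine Finset.sum_congr rfl fun i hi => ?_
        rw [Finset.mem_sdiff] at hi
        rw [hφ0]
        simp only
        rw [Finset.card_insert_of_notMem hi.2, pow_succ]
        simp only [zsmul_eq_mul, Int.cast_mul, Int.cast_neg, Int.cast_one]
        ring
      rw [h3, hψ2', ← hψ1 T hT]
      have h4 := e2 T hT
      rw [add_comm] at h4
      exact h4
    have h00 : φ0 ∅ ∈ Ideal.span (y '' (U : Set ι)) := by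
      rw [hφ0]
      simp only [Finset.card_empty, pow_zero, one_smul, hψ20]
      rw [hcz]
      have : c * y m + z - y m * c = z := by ring
      rw [this]
      exact hz
    obtain ⟨ψ0, hψ0⟩ := ih φ0 e3 h00
    refine ⟨fun T => if m ∈ T then ψ2 (T.erase m) else ψ0 T, fun T hT => ?_⟩
    by_cases hmT : m ∈ T
    · obtain ⟨T', hT'⟩ : ∃ T', T' = T.erase m := ⟨_, rfl⟩
      have hins : T = insert m T' := by rw [hT', Finset.insert_erase hmT]
      have hT'U : T' ⊆ U := by
        rw [hT']
        intro a ha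
        rw [Finset.mem_erase] at ha
        exact (Finset.mem_insert.1 (hT ha.2)).resolve_left ha.1
      rw [hins, G1D_insert_mem rk y m U T' hm hT'U hmax', hψ1 T' hT'U, ← hψ2' T']
      unfold G1D
      refine Finset.sum_congr rfl fun i hi => ?_
      rw [Finset.mem_sdiff] at hi
      have hmi : m ∉ insert i T' := by
        rw [Finset.mem_insert, not_or]
        exact ⟨fun h => hm (h ▸ hi.1), fun h => hm (hT'U h)⟩
      simp only
      rw [if_pos (Finset.mem_insert_self _ _), Finset.erase_insert hmi]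
    · have hTU : T ⊆ U := fun a ha => (Finset.mem_insert.1 (hT ha)).resolve_left
        fun h => hmT (h ▸ ha)
      rw [G1D_insert_notMem rk y m U T hm hTU, hs T hTU]
      rw [if_pos (Finset.mem_insert_self _ _), Finset.erase_insert hmT]
      have h5 : G1D rk y U (fun T => if m ∈ T then ψ2 (T.erase m) else ψ0 T) T =
          G1D rk y U ψ0 T := by
        unfold G1D
        refine Finset.sum_congr rfl fun i hi => ?_
        rw [Finset.mem_sdiff] at hi
        have hmi : m ∉ insert i T := by
          rw [Finset.mem_insert, not_or]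
          exact ⟨fun h => hm (h ▸ hi.1), hmT⟩
        simp only
        rw [if_neg hmi]
      rw [h5, ← hψ0 T hTU, hφ0]
      simp only
      ring

/-- regularity of the last element -/
theorem G1_reg (hreg : ∀ l : List ι, l.Nodup → RingTheory.Sequence.IsWeaklyRegular C (l.map y))
    (U : Finset ι) (m : ι) (hm : m ∉ U) (c : C) (h : y m * c ∈ Ideal.span (y '' (U : Set ι))) :
    c ∈ Ideal.span (y '' (U : Set ι)) := by
  have h1 := hreg (U.toList ++ [m]) (by
    rw [List.nodup_append]
    refine ⟨U.nodup_toList, by simp, ?_⟩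
    intro a ha b hb hab
    rw [List.mem_singleton] at hb
    subst hb hab
    exact hm (Finset.mem_toList.1 ha))
  rw [List.map_append, RingTheory.Sequence.isWeaklyRegular_append_iff] at h1
  have h2 := h1.2
  rw [List.map_singleton, RingTheory.Sequence.isWeaklyRegular_singleton_iff] at h2
  have hI : (Ideal.ofList (U.toList.map y) • ⊤ : Submodule C C) = Ideal.span (y '' (U : Set ι)) := by
    rw [smul_eq_mul, Ideal.mul_top]
    unfold Ideal.ofList
    congr 1
    ext x
    simp
  rw [hI] at h2
  have h3 : (y m) • (Submodule.Quotient.mk c : C ⧸ Ideal.span (y '' (U : Set ι))) =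
      (y m) • (0 : C ⧸ Ideal.span (y '' (U : Set ι))) := by
    rw [smul_zero, ← Submodule.Quotient.mk_smul, Submodule.Quotient.mk_eq_zero]
    exact h
  have h4 := h2 h3
  exact (Submodule.Quotient.mk_eq_zero _).1 h4

end Exact

end Pool.Agent.Lib.MP_463376_co
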