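import Mathlib

/-! stream G2: abstract commutative algebra over a field -/

namespace Pool.Agent.Lib.MP_463376_co

open Polynomial

section
variable {K D : Type} [Field K] [CommRing D] [Algebra K D]

/-- an algebra of dimension at most `s` with `s` points separated by `x` -/
theorem G2_eq_zero [Module.Finite K D] {s : ℕ} (x : D) (α : Fin s → K)
    (hα : Function.Injective α) (χ : Fin s → D →ₐ[K] K) (hχ : ∀ b, χ b x = α b)
    (hs : Module.finrank K D ≤ s) (v : D) (hv : ∀ b, χ b v = 0) : v = 0 := by
  let Φ : D →ₗ[K] (Fin s → K) := LinearMap.pi fun b => (χ b).toLinearMap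
  have hsurj : Function.Surjective Φ := by
    intro g
    refine ⟨aeval x (Lagrange.interpolate Finset.univ α g), ?_⟩
    funext b
    have h1 : Φ (aeval x (Lagrange.interpolate Finset.univ α g)) b
        = χ b (aeval x (Lagrange.interpolate Finset.univ α g)) := rfl
    rw [h1, ← Polynomial.aeval_algHom_apply, hχ, Polynomial.coe_aeval_eq_eval,
      Lagrange.eval_interpolate_at_node _ hα.injOn (Finset.mem_univ b)]
  have hinj : Function.Injective Φ := by
    have h1 : Module.finrank K (Fin s → K) = s := by simp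
    have h2 : Module.finrank K (Fin s → K) ≤ Module.finrank K D :=
      LinearMap.finrank_le_finrank_of_surjective hsurj
    exact (LinearMap.injective_iff_surjective_of_finrank_eq_finrank (by omega)).mpr hsurj
  apply hinj
  rw [map_zero]
  funext b
  exact hv b

theorem G2_decomp (x y : D) (hgen : Algebra.adjoin K {x, y} = ⊤) (d : D) :
    ∃ (f : K[X]) (d' : D), d = aeval x f + y * d' := by
  have hd : d ∈ Algebra.adjoin K ({x, y} : Set D) := by rw [hgen]; trivial
  induction hd using Algebra.adjoin_induction with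
  | mem z hz =>
    rcases hz with rfl | rfl
    · exact ⟨X, 0, by simp⟩
    · exact ⟨0, 1, by simp⟩
  | algebraMap r => exact ⟨C r, 0, by simp⟩
  | add a b _ _ ha hb =>
    obtain ⟨f, d1, h1⟩ := ha
    obtain ⟨g, d2, h2⟩ := hb
    exact ⟨f + g, d1 + d2, by rw [h1, h2, map_add]; ring⟩
  | mul a b _ _ ha hb =>
    obtain ⟨f, d1, h1⟩ := ha
    obtain ⟨g, d2, h2⟩ := hb
    exact ⟨f * g, aeval x f * d2 + d1 * aeval x g + y * d1 * d2, by rw [h1, h2, map_mul]; ring⟩

theorem G2_isUnit (x y : D) (hgen : Algebra.adjoin K {x, y} = ⊤) (hy : IsNilpotent y)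
    {s : ℕ} (α : Fin s → K)
    (χ : Fin s → D →ₐ[K] K) (hχx : ∀ b, χ b x = α b) (hχy : ∀ b, χ b y = 0)
    (H : D) (hP : aeval x (Lagrange.nodal Finset.univ α) = y * H)
    (v : D) (hv : ∀ b, χ b v ≠ 0) : IsUnit v := by
  obtain ⟨f, d, hd⟩ := G2_decomp x y hgen v
  have h1 : ∀ b, f.eval (α b) ≠ 0 := by
    intro b h0
    apply hv b
    rw [hd, map_add, map_mul, hχy, zero_mul, add_zero, ← Polynomial.aeval_algHom_apply, hχx,
      Polynomial.coe_aeval_eq_eval, h0]
  have h2 : IsCoprime f (Lagrange.nodal Finset.univ α) := by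
    rw [Lagrange.nodal]
    apply IsCoprime.prod_right
    intro b _
    apply IsCoprime.symm
    rw [(irreducible_X_sub_C (α b)).coprime_iff_not_dvd, dvd_iff_isRoot]
    exact h1 b
  obtain ⟨a, b, hab⟩ := h2
  have h3 := congrArg (aeval x) hab
  rw [map_add, map_mul, map_mul, hP, map_one] at h3
  have h4 : IsUnit (aeval x f) := by
    have h5 : aeval x a * aeval x f = 1 - y * (H * aeval x b) := by
      rw [← h3]; ring
    have h6 : IsNilpotent (y * (H * aeval x b)) := Commute.isNilpotent_mul_right (Commute.all _ _) hy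
    have h7 : IsUnit (aeval x a * aeval x f) := by
      rw [h5]
      exact h6.isUnit_one_sub
    exact isUnit_of_mul_isUnit_right h7
  rw [hd]
  have h8 : IsNilpotent (y * d) := Commute.isNilpotent_mul_right (Commute.all _ _) hy
  exact h8.isUnit_add_left_of_commute h4 (Commute.all _ _)

/-- a good linear form exists -/
theorem G2_good_form {k : Type} [Field k] [CharZero k] [Algebra k K]
    (x y : D) (hgen : Algebra.adjoin K {x, y} = ⊤) (hy : IsNilpotent y) {s : ℕ} (α : Fin s → K)
    (hα : Function.Injective α) (χ : Fin s → D →ₐ[K] K) (hχx : ∀ b, χ b x = α b)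
    (hχy : ∀ b, χ b y = 0) (H : D) (hP : aeval x (Lagrange.nodal Finset.univ α) = y * H) :
    ∃ c : k, Algebra.adjoin K {x + algebraMap K D (algebraMap k K c) * y} = ⊤ := by
  set P := Lagrange.nodal Finset.univ α with hPdef
  have hp : ∀ b, (derivative P).eval (α b) ≠ 0 := by
    intro b
    rw [hPdef, Lagrange.eval_nodal_derivative_eval_node_eq (Finset.mem_univ b), Lagrange.eval_nodal,
      Finset.prod_ne_zero_iff]
    intro b' hb' h0
    rw [sub_eq_zero] at h0
    exact (Finset.mem_erase.mp hb').1 (hα h0).symm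
  have hinf : Infinite k := CharZero.infinite k
  obtain ⟨c, hc⟩ := (((Set.finite_range fun b => - χ b H / (derivative P).eval (α b)).preimage
    (f := algebraMap k K) (algebraMap k K).injective.injOn)).exists_notMem
  refine ⟨c, ?_⟩
  set c' := algebraMap K D (algebraMap k K c) with hc'
  set l := x + c' * y with hl
  have hχc : ∀ b, χ b c' = algebraMap k K c := by
    intro b
    rw [hc', AlgHom.commutes]
    rfl
  obtain ⟨k₀, hk₀⟩ := Polynomial.binomExpansion (P.map (algebraMap K D)) x (c' * y)
  have hPl : aeval l P = y * (H + aeval x (derivative P) * c' + k₀ * c' ^ 2 * y) := by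
    rw [← Polynomial.eval_map_algebraMap, hl, hk₀, Polynomial.eval_map_algebraMap, hP,
      Polynomial.derivative_map, Polynomial.eval_map_algebraMap]
    ring
  have hu : IsUnit (H + aeval x (derivative P) * c' + k₀ * c' ^ 2 * y) := by
    apply G2_isUnit x y hgen hy α χ hχx hχy H hP
    intro b h0
    rw [map_add, map_add, map_mul, map_mul, hχy, mul_zero, add_zero, hχc,
      ← Polynomial.aeval_algHom_apply, hχx, Polynomial.coe_aeval_eq_eval] at h0
    apply hc
    refine ⟨b, ?_⟩
    have := hp b
    rw [eq_comm, eq_div_iff (hp b)]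
    linear_combination h0
  obtain ⟨u, hu'⟩ := hu
  rw [← hu'] at hPl
  have hyz : y = aeval l P * (↑u⁻¹ : D) := by
    rw [hPl, mul_assoc, Units.mul_inv, mul_one]
  have hstep : ∀ d : D, ∃ a ∈ Algebra.adjoin K ({l} : Set D), ∃ d', d = a + aeval l P * d' := by
    intro d
    obtain ⟨f, d', hd⟩ := G2_decomp x y hgen d
    have h1 : (x - l) ∣ aeval x f - aeval l f := by
      rw [← Polynomial.eval_map_algebraMap, ← Polynomial.eval_map_algebraMap]
      exact Polynomial.sub_dvd_eval_sub _ _ _
    obtain ⟨r, hr⟩ := h1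
    refine ⟨aeval l f, ?_, (↑u⁻¹ : D) * (d' - c' * r), ?_⟩
    · rw [Algebra.adjoin_singleton_eq_range_aeval]
      exact ⟨f, rfl⟩
    · have h2 : x - l = - (c' * y) := by rw [hl]; ring
      rw [h2] at hr
      rw [← mul_assoc, ← hyz, hd]
      linear_combination hr
  have hz : aeval l P ∈ Algebra.adjoin K ({l} : Set D) := by
    rw [Algebra.adjoin_singleton_eq_range_aeval]
    exact ⟨P, rfl⟩
  have hN : ∀ N : ℕ, ∀ d : D, ∃ a ∈ Algebra.adjoin K ({l} : Set D), ∃ d',
      d = a + aeval l P ^ N * d' := by
    intro N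
    induction N with
    | zero => intro d; exact ⟨0, Subalgebra.zero_mem _, d, by simp⟩
    | succ N ih =>
      intro d
      obtain ⟨a, ha, d', hd⟩ := ih d
      obtain ⟨a', ha', d'', hd'⟩ := hstep d'
      refine ⟨a + aeval l P ^ N * a', Subalgebra.add_mem _ ha
        (Subalgebra.mul_mem _ (Subalgebra.pow_mem _ hz _) ha'), d'', ?_⟩
      rw [hd, hd']
      ring
  obtain ⟨N, hNy⟩ := hy
  rw [eq_top_iff]
  intro d _
  obtain ⟨a, ha, d', hd⟩ := hN N d
  rw [hPl, mul_pow, hNy, zero_mul, zero_mul, add_zero] at hd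
  rw [hd]
  exact ha

/-- kernel of the evaluation at a generator -/
theorem G2_dvd_of_aeval [Module.Finite K D] {n : ℕ} (hn : Module.finrank K D = n) (l : D)
    (hl : Algebra.adjoin K {l} = ⊤) (F : K[X]) (hF : F.Monic) (hFd : F.natDegree = n)
    (hF0 : aeval l F = 0) (G : K[X]) (hG : aeval l G = 0) : F ∣ G := by
  have hint : IsIntegral K l := Algebra.IsIntegral.isIntegral l
  have hsurj : Function.Surjective (aeval l : K[X] →ₐ[K] D) := by
    rw [← AlgHom.range_eq_top, ← Algebra.adjoin_singleton_eq_range_aeval, hl]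
  have h0 : ∀ p ∈ Ideal.span {minpoly K l}, (aeval l : K[X] →ₐ[K] D) p = 0 := by
    intro p hp
    obtain ⟨r, rfl⟩ := Ideal.mem_span_singleton'.mp hp
    rw [map_mul, minpoly.aeval, mul_zero]
  let g := Ideal.Quotient.liftₐ (Ideal.span {minpoly K l}) (aeval l : K[X] →ₐ[K] D) h0
  have hgs : Function.Surjective g := by
    intro d
    obtain ⟨p, hp⟩ := hsurj d
    exact ⟨Ideal.Quotient.mk _ p, hp⟩
  have hmne : minpoly K l ≠ 0 := minpoly.ne_zero hint
  have hfin : Module.Finite K (K[X] ⧸ Ideal.span {minpoly K l}) :=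
    (minpoly.monic hint).finite_quotient
  have h1 : Module.finrank K D ≤ (minpoly K l).natDegree := by
    rw [← finrank_quotient_span_eq_natDegree]
    exact LinearMap.finrank_le_finrank_of_surjective (f := g.toLinearMap) hgs
  have h2 : minpoly K l ∣ F := minpoly.dvd K l hF0
  have h3 : F = minpoly K l :=
    Polynomial.eq_of_monic_of_dvd_of_natDegree_le (minpoly.monic hint) hF h2 (by omega)
  rw [h3]
  exact minpoly.dvd K l hG

/-- lower bound for `dim D / y^m D` -/
theorem G2_dim_bound [Module.Finite K D] {ι : Type} [Fintype ι] [DecidableEq ι]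
    (hn : Module.finrank K D = Fintype.card ι) (l y : D)
    (hl : Algebra.adjoin K {l} = ⊤) {s : ℕ} (α : Fin s → K) (hα : Function.Injective α)
    (β : ι → Fin s) (hF : ∏ i, (l - algebraMap K D (α (β i))) = 0)
    (χ : Fin s → D →ₐ[K] K) (hχl : ∀ b, χ b l = α b) (hχy : ∀ b, χ b y = 0)
    (m : ℕ) (W : Finset D) (hW : ∀ d : D, ∃ d', d - y ^ m * d' ∈ Submodule.span K (W : Set D)) :
    ∑ b, min (Finset.univ.filter fun i => β i = b).card m ≤ W.card := by
  classical
  set F : K[X] := ∏ i, (X - C (α (β i))) with hFdef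
  set G : K[X] := ∏ b, (X - C (α b)) ^ (min (Finset.univ.filter fun i => β i = b).card m) with hGdef
  have hFm : F.Monic := monic_prod_of_monic _ _ fun i _ => monic_X_sub_C _
  have hFd : F.natDegree = Fintype.card ι := by
    rw [hFdef, natDegree_prod_of_monic _ _ (fun i _ => monic_X_sub_C _)]
    simp
  have hF0 : aeval l F = 0 := by
    rw [hFdef, map_prod, ← hF]
    apply Finset.prod_congr rfl
    intro i _
    simp
  have hGm : G.Monic := monic_prod_of_monic _ _ fun i _ => (monic_X_sub_C _).pow _
  have hGd : G.natDegree = ∑ b, min (Finset.univ.filter fun i => β i = b).card m := by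
    rw [hGdef, natDegree_prod_of_monic _ _ (fun i _ => (monic_X_sub_C _).pow _)]
    simp
  have hsurj : Function.Surjective (aeval l : K[X] →ₐ[K] D) := by
    rw [← AlgHom.range_eq_top, ← Algebra.adjoin_singleton_eq_range_aeval, hl]
  have hGF : G ∣ F := by
    have h1 : F = ∏ b, (X - C (α b)) ^ (Finset.univ.filter fun i => β i = b).card := by
      rw [hFdef, ← Finset.prod_fiberwise (s := Finset.univ) (g := β)]
      apply Finset.prod_congr rfl
      intro b _
      rw [← Finset.prod_const]
      apply Finset.prod_congr rfl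
      intro i hi
      rw [(Finset.mem_filter.mp hi).2]
    rw [h1, hGdef]
    apply Finset.prod_dvd_prod_of_dvd
    intro b _
    exact pow_dvd_pow _ (min_le_left _ _)
  obtain ⟨Y, hY⟩ := hsurj y
  have hGY : G ∣ Y ^ m := by
    rw [hGdef]
    apply Finset.prod_dvd_of_coprime
    · intro b _ b' _ hbb'
      apply IsCoprime.pow
      exact pairwise_coprime_X_sub_C hα hbb'
    · intro b _
      refine (pow_dvd_pow _ (min_le_right _ _)).trans ?_
      apply pow_dvd_pow_of_dvd
      rw [dvd_iff_isRoot]
      change Y.eval (α b) = 0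
      have h1 := hχy b
      rw [← hY, ← Polynomial.aeval_algHom_apply, hχl, Polynomial.coe_aeval_eq_eval] at h1
      exact h1
  have hdvd : ∀ p : K[X], aeval l p = 0 → G ∣ p := fun p hp =>
    hGF.trans (G2_dvd_of_aeval hn l hl F hFm hFd hF0 p hp)
  choose pr hpr using hsurj
  have hspan : Submodule.span K ((W.image fun w => Ideal.Quotient.mk (Ideal.span {G}) (pr w) :
      Finset (K[X] ⧸ Ideal.span {G})) : Set (K[X] ⧸ Ideal.span {G})) = ⊤ := by
    rw [eq_top_iff]
    intro q _
    obtain ⟨f, rfl⟩ := Ideal.Quotient.mk_surjective q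
    obtain ⟨d', hd'⟩ := hW (aeval l f)
    -- the span is the set of the images of all `p` with `aeval l p` in the span of `W`
    have key : ∀ w ∈ Submodule.span K (W : Set D), ∀ p : K[X], aeval l p = w →
        Ideal.Quotient.mk (Ideal.span {G}) p ∈ Submodule.span K
          ((W.image fun w => Ideal.Quotient.mk (Ideal.span {G}) (pr w) :
          Finset (K[X] ⧸ Ideal.span {G})) : Set (K[X] ⧸ Ideal.span {G})) := by
      intro w hw
      have hmk : ∀ p p' : K[X], aeval l p = aeval l p' →
          Ideal.Quotient.mk (Ideal.span {G}) p = Ideal.Quotient.mk (Ideal.span {G}) p' := by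
        intro p p' h
        rw [Ideal.Quotient.eq, Ideal.mem_span_singleton]
        apply hdvd
        rw [map_sub, h, sub_self]
      induction hw using Submodule.span_induction with
      | mem w hw =>
        intro p hp
        rw [hmk p (pr w) (by rw [hp, hpr])]
        apply Submodule.subset_span
        simp only [Finset.coe_image, Set.mem_image]
        exact ⟨w, hw, rfl⟩
      | zero =>
        intro p hp
        rw [hmk p 0 (by rw [hp, map_zero]), map_zero]
        exact Submodule.zero_mem _
      | add a b _ _ ha hb =>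
        intro p hp
        rw [hmk p (pr a + pr b) (by rw [hp, map_add, hpr, hpr]), map_add]
        exact Submodule.add_mem _ (ha _ (hpr a)) (hb _ (hpr b))
      | smul r a _ ha =>
        intro p hp
        rw [hmk p (r • pr a) (by rw [hp, map_smul, hpr])]
        exact Submodule.smul_mem _ r (ha _ (hpr a))
    have h1 : Ideal.Quotient.mk (Ideal.span {G}) f
        = Ideal.Quotient.mk (Ideal.span {G}) (f - Y ^ m * pr d') := by
      rw [Ideal.Quotient.eq, Ideal.mem_span_singleton]
      have : f - (f - Y ^ m * pr d') = Y ^ m * pr d' := by ring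
      rw [this]
      exact hGY.mul_right _
    rw [h1]
    apply key _ hd'
    rw [map_sub, map_mul, map_pow, hY, hpr]
  have h1 := finrank_span_finset_le_card (R := K) (W.image fun w =>
    Ideal.Quotient.mk (Ideal.span {G}) (pr w))
  unfold Set.finrank at h1
  rw [hspan, finrank_top, finrank_quotient_span_eq_natDegree, hGd] at h1
  exact h1.trans Finset.card_image_le

end

end Pool.Agent.Lib.MP_463376_co
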