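import Pool.Agent.Lib.MP_463376_co.G2_Fin

/-! stream G2: the core argument over a field -/

namespace Pool.Agent.Lib.MP_463376_co

open MvPolynomial RingTheory.Sequence TensorProduct

theorem G2_trdeg_abs {k A B : Type} [Field k] [CommRing A] [IsDomain A] [CommRing B] [IsDomain B]
    [Algebra k A] [Algebra k B] (f : A →ₐ[k] B) (hf : Function.Injective f)
    (halg : ∀ b : B, ∃ a c : A, c ≠ 0 ∧ b * f c = f a) :
    Algebra.trdeg k B ≤ Algebra.trdeg k A := by
  let _ : Algebra A B := f.toRingHom.toAlgebra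
  have hmap : ∀ a : A, algebraMap A B a = f a := fun _ => rfl
  have h1 : IsScalarTower k A B := IsScalarTower.of_algebraMap_eq fun r => (f.commutes r).symm
  have h2 : FaithfulSMul A B := (faithfulSMul_iff_algebraMap_injective A B).mpr hf
  have h3 : FaithfulSMul k A := (faithfulSMul_iff_algebraMap_injective k A).mpr
    (algebraMap k A).injective
  have h4 : Algebra.IsAlgebraic A B := by
    refine ⟨fun b => ?_⟩
    obtain ⟨a, c, hc, h⟩ := halg b
    refine ⟨Polynomial.C c * Polynomial.X - Polynomial.C a, ?_, ?_⟩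
    · intro h0
      have := congrArg (fun p => p.coeff 1) h0
      simp at this
      exact hc this
    · rw [map_sub, map_mul, Polynomial.aeval_C, Polynomial.aeval_X, Polynomial.aeval_C, hmap, hmap,
        ← h, mul_comm, sub_self]
  rw [← trdeg_add_eq k A (A := B), trdeg_eq_zero (R := A) (A := B), add_zero]

section

variable (k : Type) [Field k] [CharZero k] {ι : Type} [Fintype ι] [DecidableEq ι]
  (L : Type) [Field L] [Algebra k L] [Algebra (RR k ι) L]
  [IsScalarTower k (RR k ι) L] [IsFractionRing (RR k ι) L] (δ : Dia ι)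
  {K : Type} [Field K] [Algebra k K] (ψ : CC k L δ →ₐ[k] K)

theorem G2_OR_le_CC : OR k L δ ≤ CC k L δ := by
  unfold OR
  apply sup_le
  · exact (G2_OO_le_AA k L δ).trans le_sup_left
  · rintro _ ⟨f, rfl⟩
    have h1 : PP k L δ ≤ CC k L δ := le_sup_right
    exact h1 (toL_mem_PP k L δ f)

/-- the restriction of `ψ` to `OR` -/
noncomputable def G2psiR : OR k L δ →ₐ[k] K := ψ.comp (Subalgebra.inclusion (G2_OR_le_CC k L δ))

theorem G2psiR_apply (a : OR k L δ) (c : CC k L δ) (h : (a : L) = c) :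
    G2psiR k L δ ψ a = ψ c := by
  unfold G2psiR
  rw [AlgHom.comp_apply]
  congr 1
  apply Subtype.ext
  rw [Subalgebra.coe_inclusion, h]

theorem G2_coe_toOR (f : RR k ι) : ((toOR k L δ f : OR k L δ) : L) = toL k L f := by
  exact (Subalgebra.coe_inclusion (le_sup_right :
    (toL k L : RR k ι →ₐ[k] L).range ≤ OO k L δ ⊔ (toL k L : RR k ι →ₐ[k] L).range)
    ((toL k L).rangeRestrict f)).trans rfl

theorem G2_coe_oR (a : OO k L δ) : ((oR k L δ a : OR k L δ) : L) = a :=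
  Subalgebra.coe_inclusion (le_sup_left :
    OO k L δ ≤ OO k L δ ⊔ (toL k L : RR k ι →ₐ[k] L).range) a

theorem G2psiR_toOR (f : RR k ι) : G2psiR k L δ ψ (toOR k L δ f) = ψ (toC k L δ f) :=
  G2psiR_apply k L δ ψ _ _ (by rw [G2_coe_toOR, G2_coe_toC])

theorem G2psiR_comp : (G2psiR k L δ ψ).comp (oR k L δ) = ψ.comp (G2iOC k L δ) := by
  apply AlgHom.ext
  intro a
  rw [AlgHom.comp_apply, AlgHom.comp_apply]
  exact G2psiR_apply k L δ ψ _ _ (by rw [G2_coe_oR, G2_coe_iOC])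

/-- elements outside `nn` do not vanish -/
theorem G2_psi_ne (b : OO k L δ) (hb : b ∉ nn k L δ) : ψ (G2iOC k L δ b) ≠ 0 := by
  intro h0
  have hb0 : (b : L) ≠ 0 := by
    intro h
    apply hb
    have : b = 0 := Subtype.ext h
    rw [this]
    exact Ideal.zero_mem _
  have hg : (b : L)⁻¹ ∈ AA k L δ := Algebra.subset_adjoin (Or.inr ⟨b, hb, inv_mul_cancel₀ hb0⟩)
  have h1 : G2iAC k L δ ⟨(b : L)⁻¹, hg⟩ * G2iOC k L δ b = 1 := by
    apply Subtype.ext
    rw [← (CC k L δ).coe_val, map_mul, map_one, Subalgebra.coe_val, G2_coe_iAC, G2_coe_iOC]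
    exact inv_mul_cancel₀ hb0
  have h2 := congrArg ψ h1
  rw [map_mul, h0, mul_zero, map_one] at h2
  exact zero_ne_one h2

theorem G2_trdeg (q : Ideal (AA k L δ)) [q.IsPrime]
    (hker : ∀ a : AA k L δ, ψ (G2iAC k L δ a) = 0 ↔ a ∈ q) :
    Algebra.trdeg k (AA k L δ ⧸ q) ≤
      Algebra.trdeg k (OO k L δ ⧸ RingHom.ker (ψ.comp (G2iOC k L δ))) := by
  have hp : (RingHom.ker (ψ.comp (G2iOC k L δ))).IsPrime := RingHom.ker_isPrime _
  let f0 : OO k L δ →ₐ[k] (AA k L δ ⧸ q) := (Ideal.Quotient.mkₐ k q).comp (G2iOA k L δ)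
  have hf0 : ∀ a, f0 a = 0 ↔ (ψ.comp (G2iOC k L δ)) a = 0 := by
    intro a
    have h1 : f0 a = Ideal.Quotient.mk q (G2iOA k L δ a) := rfl
    rw [h1, Ideal.Quotient.eq_zero_iff_mem, ← hker]
    rfl
  let f : (OO k L δ ⧸ RingHom.ker (ψ.comp (G2iOC k L δ))) →ₐ[k] (AA k L δ ⧸ q) :=
    Ideal.Quotient.liftₐ _ f0 (fun a ha => (hf0 a).mpr ha)
  have hfmk : ∀ a, f (Ideal.Quotient.mk _ a) = f0 a := fun _ => rfl
  apply G2_trdeg_abs f
  · rw [injective_iff_map_eq_zero]
    intro z hz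
    obtain ⟨a, rfl⟩ := Ideal.Quotient.mk_surjective z
    rw [hfmk, hf0] at hz
    rw [Ideal.Quotient.eq_zero_iff_mem]
    exact hz
  · intro z
    obtain ⟨g, rfl⟩ := Ideal.Quotient.mk_surjective z
    obtain ⟨a, b, hb, hab⟩ := (mem_AA_iff k L δ (g : L)).mp g.2
    refine ⟨Ideal.Quotient.mk _ a, Ideal.Quotient.mk _ b, ?_, ?_⟩
    · rw [Ne, Ideal.Quotient.eq_zero_iff_mem]
      exact G2_psi_ne k L δ ψ b hb
    · rw [hfmk, hfmk]
      have h1 : ∀ a, f0 a = Ideal.Quotient.mk q (G2iOA k L δ a) := fun _ => rfl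
      rw [h1, h1, ← map_mul]
      congr 1
      apply Subtype.ext
      rw [← (AA k L δ).coe_val, map_mul, Subalgebra.coe_val, G2_coe_iOA, G2_coe_iOA]
      exact hab

end

end Pool.Agent.Lib.MP_463376_co
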