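import Pool.Agent.Lib.MP_463376_co.I7a
import Pool.Agent.Lib.MP_463376_co.I6

/-! stream G2: coordinates with respect to the monomials of the diagram -/

namespace Pool.Agent.Lib.MP_463376_co

open MvPolynomial

section

variable (k : Type) [Field k] [CharZero k] {ι : Type} [Fintype ι] [DecidableEq ι]
  (L : Type) [Field L] [Algebra k L] [Algebra (RR k ι) L]
  [IsScalarTower k (RR k ι) L] [IsFractionRing (RR k ι) L] (δ : Dia ι)

omit [CharZero k] [Fintype ι] [DecidableEq ι] in
theorem G2_toL_inj : Function.Injective (toL k L : RR k ι →ₐ[k] L) := by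
  intro f g h
  exact IsFractionRing.injective (RR k ι) L h

theorem G2_toL_dl_ne : toL k L (dl k δ) ≠ 0 := by
  intro h
  apply dl_ne_zero k δ
  apply G2_toL_inj k L
  rw [h, map_zero]

/-- the matrix of the monomials of the diagram at the points -/
noncomputable def G2mat : Matrix ι ι (RR k ι) :=
  Matrix.of fun i j : ι => xx i ^ (δ.c j).1 * yy i ^ (δ.c j).2

omit [CharZero k] in
theorem G2mat_det : (G2mat k δ).det = dl k δ := rfl

omit [CharZero k] in
theorem G2_alt_update (m : ℕ × ℕ) (h : ι) : alt k (Function.update δ.c h m)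
    = ((G2mat k δ).updateCol h (fun i => xx i ^ m.1 * yy i ^ m.2)).det := by
  unfold alt
  congr 1
  ext i j
  rw [Matrix.updateCol_apply, Matrix.of_apply]
  by_cases hj : j = h
  · subst hj
    rw [if_pos rfl, Function.update_self]
  · rw [if_neg hj, Function.update_of_ne hj]
    rfl

theorem G2_cO_mul (m : ℕ × ℕ) (h : ι) : (cO k L δ m h : L) * toL k L (dl k δ)
    = toL k L (alt k (Function.update δ.c h m)) :=
  div_mul_cancel₀ _ (G2_toL_dl_ne k L δ)

/-- Cramer's rule -/
theorem G2_cramer (m : ℕ × ℕ) (j : ι) :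
    ∑ h, (cO k L δ m h : L) * toL k L (xx j ^ (δ.c h).1 * yy j ^ (δ.c h).2)
      = toL k L (xx j ^ m.1 * yy j ^ m.2) := by
  have h1 := congrFun (Matrix.mulVec_cramer (G2mat k δ) (fun i => xx i ^ m.1 * yy i ^ m.2)) j
  rw [Matrix.mulVec_eq_sum] at h1
  simp only [Matrix.cramer_apply, ← G2_alt_update, Finset.sum_apply, Pi.smul_apply,
    G2mat_det, smul_eq_mul, MulOpposite.smul_eq_mul_unop, MulOpposite.unop_op] at h1
  have h2 := congrArg (toL k L) h1
  rw [map_sum, map_mul] at h2
  have h3 := G2_toL_dl_ne k L δ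
  apply mul_left_cancel₀ h3
  rw [← h2, Finset.mul_sum]
  refine Finset.sum_congr rfl fun h _ => ?_
  rw [← mul_assoc, mul_comm (toL k L (dl k δ)), G2_cO_mul, ← map_mul, mul_comm]
  rfl

theorem G2_cO_self (h' h : ι) : cO k L δ (δ.c h') h = if h = h' then 1 else 0 := by
  apply Subtype.ext
  apply mul_right_cancel₀ (G2_toL_dl_ne k L δ)
  rw [G2_cO_mul]
  split_ifs with hh
  · subst hh
    rw [Function.update_eq_self]
    simp [dl]
  · rw [show ((0 : OO k L δ) : L) = 0 from rfl, zero_mul]
    have : alt k (Function.update δ.c h (δ.c h')) = 0 := by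
      unfold alt
      apply Matrix.det_zero_of_column_eq (i := h) (j := h') hh
      intro i
      simp [Function.update_of_ne (Ne.symm hh)]
    rw [this, map_zero]

theorem G2_uniq (a : ι → L) (ha : ∀ j : ι, ∑ h, a h * toL k L (xx j ^ (δ.c h).1 * yy j ^ (δ.c h).2) = 0) :
    a = 0 := by
  have h1 : ((G2mat k δ).map (toL k L)).det ≠ 0 := by
    have := (RingHom.map_det (toL k L : RR k ι →ₐ[k] L).toRingHom (G2mat k δ)).symm
    intro h0
    apply G2_toL_dl_ne k L δ
    rw [← G2mat_det]
    exact this.symm.trans h0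
  apply Matrix.eq_zero_of_mulVec_eq_zero h1
  funext j
  rw [Matrix.mulVec_eq_sum]
  simp only [Finset.sum_apply, Pi.smul_apply, MulOpposite.smul_eq_mul_unop, MulOpposite.unop_op]
  have := ha j
  rw [Pi.zero_apply, ← this]
  refine Finset.sum_congr rfl fun h _ => ?_
  rw [mul_comm]
  rfl

end

end Pool.Agent.Lib.MP_463376_co
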