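import Pool.Agent.Lib.MP_463376_co.G2_Crd

/-! stream G2: coordinates with respect to the monomials of the diagram, over a field -/

namespace Pool.Agent.Lib.MP_463376_co

open MvPolynomial

section

variable (k : Type) [Field k] [CharZero k] {ι : Type} [Fintype ι] [DecidableEq ι]
  (L : Type) [Field L] [Algebra k L] [Algebra (RR k ι) L]
  [IsScalarTower k (RR k ι) L] [IsFractionRing (RR k ι) L] (δ : Dia ι)

/-- coordinates over `O` -/
noncomputable def G2crdO : MvPolynomial (Fin 2) k →ₗ[k] (ι → OO k L δ) :=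
  (basisMonomials (Fin 2) k).constr k fun m h => cO k L δ (m 0, m 1) h

theorem G2crdO_monomial (m : Fin 2 →₀ ℕ) (a : k) (h : ι) :
    G2crdO k L δ (monomial m a) h = a • cO k L δ (m 0, m 1) h := by
  have h1 : monomial m a = a • (basisMonomials (Fin 2) k) m := by
    rw [coe_basisMonomials, smul_monomial, smul_eq_mul, mul_one]
  rw [h1, map_smul, G2crdO, Module.Basis.constr_basis]
  rfl

theorem G2_monomial_two {S : Type} [CommSemiring S] (m : Fin 2 →₀ ℕ) (a : S) :
    (monomial m a : MvPolynomial (Fin 2) S) = C a * (X 0 ^ m 0 * X 1 ^ m 1) := by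
  rw [monomial_eq, Finsupp.prod_fintype _ _ (by intro i; simp), Fin.prod_univ_two]

theorem G2crdO_spec (f : MvPolynomial (Fin 2) k) (j : ι) :
    ∑ h, (G2crdO k L δ f h : L) * toL k L (xx j ^ (δ.c h).1 * yy j ^ (δ.c h).2)
      = toL k L (aeval ![xx j, yy j] f) := by
  induction f using MvPolynomial.induction_on' with
  | monomial m a =>
    simp only [G2crdO_monomial]
    have h1 : (aeval ![xx j, yy j] (C a * (X 0 ^ m 0 * X 1 ^ m 1) : MvPolynomial (Fin 2) k)
        : RR k ι) = a • (xx j ^ m 0 * yy j ^ m 1) := by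
      rw [map_mul, map_mul, map_pow, map_pow, aeval_X, aeval_X, MvPolynomial.algHom_C,
        ← Algebra.smul_def]
      rfl
    rw [G2_monomial_two, h1, map_smul]
    have h2 := G2_cramer k L δ (m 0, m 1) j
    simp only at h2
    rw [← h2, Finset.smul_sum]
    refine Finset.sum_congr rfl fun h _ => ?_
    rw [← smul_mul_assoc]
    rfl
  | add p q hp hq =>
    rw [map_add, map_add, map_add, ← hp, ← hq, ← Finset.sum_add_distrib]
    refine Finset.sum_congr rfl fun h _ => ?_
    rw [← add_mul]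
    rfl

variable {K : Type} [Field K] [Algebra k K] (φ : OO k L δ →ₐ[k] K)

/-- coordinates over `K` -/
noncomputable def G2crd : MvPolynomial (Fin 2) K →ₗ[K] (ι → K) :=
  (basisMonomials (Fin 2) K).constr K fun m h => φ (cO k L δ (m 0, m 1) h)

theorem G2crd_monomial (m : Fin 2 →₀ ℕ) (a : K) (h : ι) :
    G2crd k L δ φ (monomial m a) h = a * φ (cO k L δ (m 0, m 1) h) := by
  have h1 : monomial m a = a • (basisMonomials (Fin 2) K) m := by
    rw [coe_basisMonomials, smul_monomial, smul_eq_mul, mul_one]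
  rw [h1, map_smul, G2crd, Module.Basis.constr_basis]
  rfl

theorem G2crd_mem (f : MvPolynomial (Fin 2) K) : f ∈ Ipt k L δ φ ↔ G2crd k L δ φ f = 0 := by
  rw [mem_Ipt_iff]
  have h1 : ∀ h, G2crd k L δ φ f h = ∑ m ∈ f.support, f.coeff m * φ (cO k L δ (m 0, m 1) h) := by
    intro h
    conv_lhs => rw [f.as_sum]
    rw [map_sum, Finset.sum_apply]
    refine Finset.sum_congr rfl fun m _ => ?_
    rw [G2crd_monomial]
  simp only [← h1]
  rw [funext_iff]
  rfl

theorem G2crd_map (f : MvPolynomial (Fin 2) k) (h : ι) :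
    G2crd k L δ φ (map (algebraMap k K) f) h = φ (G2crdO k L δ f h) := by
  induction f using MvPolynomial.induction_on' with
  | monomial m a =>
    rw [map_monomial, G2crd_monomial, G2crdO_monomial, map_smul, Algebra.smul_def]
  | add p q hp hq =>
    rw [map_add, map_add, map_add, Pi.add_apply, Pi.add_apply, map_add, hp, hq]

/-- the monomial of a cell -/
noncomputable def G2cell (S : Type) [CommSemiring S] {ι : Type} (δ : Dia ι) (h : ι) :
    MvPolynomial (Fin 2) S := X 0 ^ (δ.c h).1 * X 1 ^ (δ.c h).2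

theorem G2_two_monomial {S : Type} [CommSemiring S] (a b : ℕ) :
    (X 0 ^ a * X 1 ^ b : MvPolynomial (Fin 2) S)
      = monomial (Finsupp.single 0 a + Finsupp.single 1 b) 1 := by
  rw [G2_monomial_two]
  simp

theorem G2crd_pow (a b : ℕ) (h : ι) : G2crd k L δ φ (X 0 ^ a * X 1 ^ b) h
    = φ (cO k L δ (a, b) h) := by
  rw [G2_two_monomial, G2crd_monomial, one_mul]
  simp

theorem G2crd_cell (h' : ι) : G2crd k L δ φ (G2cell K δ h') = Pi.single h' 1 := by
  funext h
  unfold G2cell
  rw [G2crd_pow, Prod.mk.eta, G2_cO_self, Pi.single_apply]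
  split_ifs <;> simp

theorem G2crd_surj : Function.Surjective (G2crd k L δ φ) := by
  intro v
  refine ⟨∑ h, v h • G2cell K δ h, ?_⟩
  rw [map_sum]
  simp only [map_smul, G2crd_cell]
  funext h
  rw [Finset.sum_apply]
  simp [Pi.single_apply]

/-- the quotient algebra has the cells as a basis -/
noncomputable def G2equiv : (MvPolynomial (Fin 2) K ⧸ Ipt k L δ φ) ≃ₗ[K] (ι → K) :=
  (Submodule.Quotient.restrictScalarsEquiv K (Ipt k L δ φ)).symm ≪≫ₗ
    (Submodule.quotEquivOfEq _ _ (by
      ext f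
      rw [Submodule.restrictScalars_mem, LinearMap.mem_ker, G2crd_mem]) :
      (MvPolynomial (Fin 2) K ⧸ (Submodule.restrictScalars K (Ipt k L δ φ))) ≃ₗ[K]
        (MvPolynomial (Fin 2) K ⧸ LinearMap.ker (G2crd k L δ φ))) ≪≫ₗ
    (LinearMap.quotKerEquivOfSurjective (G2crd k L δ φ) (G2crd_surj k L δ φ))

theorem G2_finite : Module.Finite K (MvPolynomial (Fin 2) K ⧸ Ipt k L δ φ) :=
  Module.Finite.equiv (G2equiv k L δ φ).symm

theorem G2_finrank : Module.finrank K (MvPolynomial (Fin 2) K ⧸ Ipt k L δ φ) = Fintype.card ι := by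
  rw [(G2equiv k L δ φ).finrank_eq, Module.finrank_fintype_fun_eq_card]

/-- reduction to the cells -/
theorem G2_reduce (f : MvPolynomial (Fin 2) K) :
    f - ∑ h, C (G2crd k L δ φ f h) * G2cell K δ h ∈ Ipt k L δ φ := by
  rw [G2crd_mem, map_sub, map_sum]
  have h1 : ∀ h, G2crd k L δ φ (C (G2crd k L δ φ f h) * G2cell K δ h)
      = G2crd k L δ φ f h • Pi.single h 1 := by
    intro h
    rw [← smul_eq_C_mul, map_smul, G2crd_cell]
  simp only [h1]
  rw [sub_eq_zero]
  funext h
  rw [Finset.sum_apply]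
  simp [Pi.single_apply]

end

end Pool.Agent.Lib.MP_463376_co
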