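import Pool.Agent.Lib.MP_463376_co.Defs

/-! stream G2: dominance order, conjugation -/

namespace Pool.Agent.Lib.MP_463376_co

open Finset

/-- choose the `m` largest parts -/
theorem G2_largest {s : ℕ} (nu : Fin s → ℕ) (m : ℕ) (hm : m ≤ s) :
    ∃ (T : Finset (Fin s)) (t : ℕ), T.card = m ∧ (∀ b ∈ T, t ≤ nu b) ∧ (∀ b, b ∉ T → nu b ≤ t) := by
  classical
  have hex : ∃ t, (univ.filter fun b => t < nu b).card ≤ m := by
    refine ⟨∑ b, nu b, ?_⟩
    rw [filter_eq_empty_iff.mpr]
    · simp
    · intro b _
      rw [not_lt]
      exact single_le_sum (f := nu) (fun _ _ => Nat.zero_le _) (mem_univ b)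
  set t := Nat.find hex with ht
  have h1 : (univ.filter fun b => t < nu b).card ≤ m := Nat.find_spec hex
  have h2 : m ≤ (univ.filter fun b => t ≤ nu b).card := by
    rcases Nat.eq_zero_or_pos t with h0 | h0
    · rw [h0]
      simpa using hm
    · have h3 := Nat.find_min hex (m := t - 1) (by omega)
      rw [not_le] at h3
      have h4 : (univ.filter fun b => t - 1 < nu b) = (univ.filter fun b => t ≤ nu b) := by
        ext b
        simp only [mem_filter, mem_univ, true_and]
        omega
      rw [h4] at h3
      exact h3.le
  obtain ⟨T, hT1, hT2, hT3⟩ := exists_subsuperset_card_eq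
    (s := univ.filter fun b => t < nu b) (t := univ.filter fun b => t ≤ nu b)
    (by intro b; simp only [mem_filter, mem_univ, true_and]; omega) h1 h2
  refine ⟨T, t, hT3, ?_, ?_⟩
  · intro b hb
    have := hT2 hb
    simpa using this
  · intro b hb
    by_contra hcon
    rw [not_le] at hcon
    exact hb (hT1 (by simpa using hcon))

theorem G2_conj {ι : Type} [Fintype ι] [DecidableEq ι] (δ : Dia ι) {s : ℕ} (nu : Fin s → ℕ)
    (hnu : ∑ b, nu b = Fintype.card ι)
    (h : ∀ m, ∑ b, min (nu b) m ≤ (univ.filter fun i : ι => (δ.c i).2 < m).card)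
    (r : ℕ → ℕ) (hT : ∀ T : Finset (Fin s), ∑ b ∈ T, nu b ≤ ∑ i ∈ range T.card, r i) (m : ℕ) :
    ∑ j ∈ range m, (univ.filter fun i : ι => (δ.c i).1 = j).card ≤ ∑ i ∈ range m, r i := by
  classical
  have hcol : ∑ j ∈ range m, (univ.filter fun i : ι => (δ.c i).1 = j).card
      = (univ.filter fun i : ι => (δ.c i).1 < m).card := by
    rw [card_eq_sum_card_fiberwise (s := univ.filter fun i : ι => (δ.c i).1 < m)
      (t := range m) (f := fun i => (δ.c i).1)]
    · refine sum_congr rfl fun j hj => ?_
      congr 1
      ext i
      simp only [mem_filter, mem_univ, true_and]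
      rw [mem_range] at hj
      constructor
      · rintro rfl
        exact ⟨hj, rfl⟩
      · exact fun h => h.2
    · intro i hi
      simpa using hi
  rw [hcol]
  rcases le_or_gt m s with hms | hms
  · obtain ⟨T, t, hTc, hT1, hT2⟩ := G2_largest nu m hms
    have h1 := hT T
    rw [hTc] at h1
    refine le_trans ?_ h1
    have h2 : (univ.filter fun i : ι => (δ.c i).1 < m).card
        ≤ (univ.filter fun i : ι => (δ.c i).1 < m ∧ (δ.c i).2 < t).card
          + (univ.filter fun i : ι => ¬ (δ.c i).2 < t).card := by
      rw [← card_union_of_disjoint]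
      · apply card_le_card
        intro i
        simp only [mem_filter, mem_univ, true_and, mem_union]
        tauto
      · rw [disjoint_left]
        intro i
        simp only [mem_filter, mem_univ, true_and]
        tauto
    have h3 : (univ.filter fun i : ι => (δ.c i).1 < m ∧ (δ.c i).2 < t).card ≤ m * t := by
      calc _ ≤ (range m ×ˢ range t).card := by
            apply card_le_card_of_injOn δ.c
            · intro i hi
              have hi' : (δ.c i).1 < m ∧ (δ.c i).2 < t := by simpa using hi
              simp only [coe_product, coe_range, Set.mem_prod, Set.mem_Iio]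
              exact hi'
            · exact δ.inj.injOn
        _ = m * t := by rw [card_product, card_range, card_range]
    have h4 : (univ.filter fun i : ι => (δ.c i).2 < t).card
        + (univ.filter fun i : ι => ¬ (δ.c i).2 < t).card = Fintype.card ι := by
      rw [card_filter_add_card_filter_not]
      rfl
    have h5 := h t
    have h6 : ∑ b, nu b = ∑ b, min (nu b) t + ∑ b, (nu b - t) := by
      rw [← sum_add_distrib]
      refine sum_congr rfl fun b _ => ?_
      omega
    have h7 : ∑ b, (nu b - t) = ∑ b ∈ T, (nu b - t) := by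
      symm
      apply sum_subset (subset_univ _)
      intro b _ hb
      have := hT2 b hb
      omega
    have h8 : ∑ b ∈ T, nu b = ∑ b ∈ T, (nu b - t) + m * t := by
      have : m * t = ∑ b ∈ T, t := by rw [sum_const, hTc, smul_eq_mul]
      rw [this, ← sum_add_distrib]
      refine sum_congr rfl fun b hb => ?_
      have := hT1 b hb
      omega
    omega
  · have h1 := hT univ
    rw [hnu, card_univ, Fintype.card_fin] at h1
    have h2 : ∑ i ∈ range s, r i ≤ ∑ i ∈ range m, r i :=
      sum_le_sum_of_subset (range_mono hms.le)
    have h3 : (univ.filter fun i : ι => (δ.c i).1 < m).card ≤ Fintype.card ι := card_le_univ _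
    omega

end Pool.Agent.Lib.MP_463376_co
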