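import Pool.Agent.Lib.MP_463376_co.G2_Crd2
import Pool.Agent.Lib.MP_463376_co.G2_Alg

/-! stream G2: evaluation at the points, good linear forms -/

namespace Pool.Agent.Lib.MP_463376_co

open MvPolynomial

section

variable (k : Type) [Field k] [CharZero k] {ι : Type} [Fintype ι] [DecidableEq ι]
  (L : Type) [Field L] [Algebra k L] [Algebra (RR k ι) L]
  [IsScalarTower k (RR k ι) L] [IsFractionRing (RR k ι) L] (δ : Dia ι)

omit [CharZero k] [IsFractionRing (RR k ι) L] in
theorem G2_OO_le_AA : OO k L δ ≤ AA k L δ := fun _ hx => Algebra.subset_adjoin (Or.inl hx)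

/-- `O → A` -/
noncomputable def G2iOA : OO k L δ →ₐ[k] AA k L δ := Subalgebra.inclusion (G2_OO_le_AA k L δ)

/-- `A → C` -/
noncomputable def G2iAC : AA k L δ →ₐ[k] CC k L δ := Subalgebra.inclusion le_sup_left

/-- `O → C` -/
noncomputable def G2iOC : OO k L δ →ₐ[k] CC k L δ := (G2iAC k L δ).comp (G2iOA k L δ)

omit [CharZero k] [IsFractionRing (RR k ι) L] in
theorem G2_coe_iOA (a : OO k L δ) : ((G2iOA k L δ a : AA k L δ) : L) = a :=
  Subalgebra.coe_inclusion (G2_OO_le_AA k L δ) a

omit [CharZero k] [IsFractionRing (RR k ι) L] in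
theorem G2_coe_iAC (a : AA k L δ) : ((G2iAC k L δ a : CC k L δ) : L) = a :=
  Subalgebra.coe_inclusion (le_sup_left : AA k L δ ≤ AA k L δ ⊔ PP k L δ) a

omit [CharZero k] [IsFractionRing (RR k ι) L] in
theorem G2_coe_iOC (a : OO k L δ) : ((G2iOC k L δ a : CC k L δ) : L) = a := by
  unfold G2iOC
  rw [AlgHom.comp_apply, G2_coe_iAC, G2_coe_iOA]

omit [CharZero k] [IsFractionRing (RR k ι) L] in
theorem G2_coe_toC (f : RR k ι) : ((toC k L δ f : CC k L δ) : L) = toL k L f := by
  exact (Subalgebra.coe_inclusion (le_sup_right : PP k L δ ≤ AA k L δ ⊔ PP k L δ)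
    (toP k L δ f)).trans rfl

omit [CharZero k] [IsFractionRing (RR k ι) L] in
theorem G2_iAC_eq (a : AA k L δ) : G2iAC k L δ a = algebraMap (AA k L δ) (CC k L δ) a := by
  apply Subtype.ext
  rw [G2_coe_iAC, coe_algebraMap_AACC]

theorem G2_cramerC (m : ℕ × ℕ) (j : ι) :
    ∑ h, G2iOC k L δ (cO k L δ m h) * (toC k L δ (xx j) ^ (δ.c h).1 * toC k L δ (yy j) ^ (δ.c h).2)
      = toC k L δ (xx j) ^ m.1 * toC k L δ (yy j) ^ m.2 := by
  apply Subtype.ext
  have h1 := G2_cramer k L δ m j
  rw [← (CC k L δ).coe_val, map_sum]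
  simp only [map_mul, map_pow] at h1 ⊢
  simp only [Subalgebra.coe_val, G2_coe_iOC, G2_coe_toC]
  exact h1

variable {K E : Type} [Field K] [Algebra k K] [CommRing E] [Algebra K E]

theorem G2_ev (φ : OO k L δ →ₐ[k] K) (θ : CC k L δ →+* E)
    (hθ : ∀ a : OO k L δ, θ (G2iOC k L δ a) = algebraMap K E (φ a)) (j : ι)
    (f : MvPolynomial (Fin 2) K) (hf : f ∈ Ipt k L δ φ) :
    aeval ![θ (toC k L δ (xx j)), θ (toC k L δ (yy j))] f = 0 := by
  have h1 : Ipt k L δ φ ≤ RingHom.ker (aeval ![θ (toC k L δ (xx j)), θ (toC k L δ (yy j))] :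
      MvPolynomial (Fin 2) K →ₐ[K] E) := by
    unfold Ipt
    rw [Ideal.span_le]
    rintro _ ⟨m, rfl⟩
    rw [SetLike.mem_coe, RingHom.mem_ker, map_sub, map_sum]
    have h0 : ∀ a b : ℕ, aeval ![θ (toC k L δ (xx j)), θ (toC k L δ (yy j))]
        (X 0 ^ a * X 1 ^ b : MvPolynomial (Fin 2) K)
        = θ (toC k L δ (xx j) ^ a * toC k L δ (yy j) ^ b) := by
      intro a b
      rw [map_mul, map_pow, map_pow, aeval_X, aeval_X, map_mul, map_pow, map_pow]
      rfl
    have h2 := congrArg θ (G2_cramerC k L δ m j)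
    rw [h0, ← h2, map_sum, sub_eq_zero]
    refine Finset.sum_congr rfl fun h _ => ?_
    have h3 : aeval ![θ (toC k L δ (xx j)), θ (toC k L δ (yy j))]
        (C (φ (cO k L δ m h)) * (X 0 ^ (δ.c h).1 * X 1 ^ (δ.c h).2) : MvPolynomial (Fin 2) K)
        = algebraMap K E (φ (cO k L δ m h)) * aeval ![θ (toC k L δ (xx j)), θ (toC k L δ (yy j))]
        (X 0 ^ (δ.c h).1 * X 1 ^ (δ.c h).2 : MvPolynomial (Fin 2) K) := by
      rw [map_mul, MvPolynomial.algHom_C]
    rw [map_mul, hθ, h3, h0]
  exact h1 hf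

/-- the linear form -/
noncomputable def G2ell (S : Type) [CommSemiring S] (a b : S) : MvPolynomial (Fin 2) S :=
  C a * X 0 + C b * X 1

theorem G2ell_map (a b : k) : map (algebraMap k K) (G2ell k a b)
    = G2ell K (algebraMap k K a) (algebraMap k K b) := by
  unfold G2ell
  simp

/-- the characteristic polynomial of the linear form -/
noncomputable def G2Phi (k : Type) [Field k] {ι : Type} [Fintype ι] (a b : k) :
    Polynomial (RR k ι) := ∏ i, (Polynomial.X - Polynomial.C (lf a b i))

omit [CharZero k] [DecidableEq ι] in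
theorem G2Phi_symm (a b : k) (r : ℕ) (w : Equiv.Perm ι) :
    permR w ((G2Phi k a b : Polynomial (RR k ι)).coeff r) = (G2Phi k a b).coeff r := by
  have h1 : (G2Phi k a b : Polynomial (RR k ι)).map (permR w : RR k ι ≃ₐ[k] RR k ι).toRingEquiv.toRingHom
      = G2Phi k a b := by
    unfold G2Phi
    rw [Polynomial.map_prod]
    refine Fintype.prod_equiv w _ _ fun i => ?_
    rw [Polynomial.map_sub, Polynomial.map_X, Polynomial.map_C]
    congr 2
    simp [lf, permR, xx, yy]
  have h2 := congrArg (fun p => p.coeff r) h1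
  simp only [Polynomial.coeff_map] at h2
  exact h2

/-- the coefficients in `O` -/
noncomputable def G2co (a b : k) (r : ℕ) : OO k L δ :=
  ⟨toL k L ((G2Phi k a b : Polynomial (RR k ι)).coeff r), symmetric_mem k L δ _ (G2Phi_symm k a b r)⟩

theorem G2_rel (a b : k) (h : ι) : ∑ r ∈ Finset.range (Fintype.card ι + 1),
    G2co k L δ a b r * G2crdO k L δ (G2ell k a b ^ r) h = 0 := by
  have hdeg : (G2Phi k a b : Polynomial (RR k ι)).natDegree < Fintype.card ι + 1 := by
    unfold G2Phi
    rw [Polynomial.natDegree_prod_of_monic _ _ (fun i _ => Polynomial.monic_X_sub_C _)]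
    simp
  have h1 := G2_uniq k L δ (fun h => ((∑ r ∈ Finset.range (Fintype.card ι + 1),
    G2co k L δ a b r * G2crdO k L δ (G2ell k a b ^ r) h : OO k L δ) : L)) (by
      intro j
      have h2 : ∀ h : ι, ((∑ r ∈ Finset.range (Fintype.card ι + 1),
          G2co k L δ a b r * G2crdO k L δ (G2ell k a b ^ r) h : OO k L δ) : L)
          = ∑ r ∈ Finset.range (Fintype.card ι + 1), toL k L ((G2Phi k a b : Polynomial (RR k ι)).coeff r) *
            (G2crdO k L δ (G2ell k a b ^ r) h : L) := by
        intro h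
        rw [← (OO k L δ).coe_val, map_sum]
        refine Finset.sum_congr rfl fun r _ => ?_
        rw [map_mul]
        rfl
      simp only [h2, Finset.sum_mul]
      rw [Finset.sum_comm]
      have h3 : ∀ r, ∑ h, toL k L ((G2Phi k a b : Polynomial (RR k ι)).coeff r) *
          (G2crdO k L δ (G2ell k a b ^ r) h : L) * toL k L (xx j ^ (δ.c h).1 * yy j ^ (δ.c h).2)
          = toL k L ((G2Phi k a b).coeff r * (lf a b j) ^ r) := by
        intro r
        rw [map_mul]
        have h4 := G2crdO_spec k L δ (G2ell k a b ^ r) j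
        have h5 : (aeval ![xx j, yy j] (G2ell k a b ^ r) : RR k ι) = lf a b j ^ r := by
          unfold G2ell lf
          rw [map_pow, map_add, map_mul, map_mul, aeval_X, aeval_X, MvPolynomial.algHom_C,
            MvPolynomial.algHom_C]
          rfl
        rw [← h5, ← h4, Finset.mul_sum]
        refine Finset.sum_congr rfl fun h _ => ?_
        rw [mul_assoc]
      simp only [h3]
      rw [← map_sum, ← Polynomial.eval_eq_sum_range' hdeg]
      have h6 : (G2Phi k a b).eval (lf a b j) = (0 : RR k ι) := by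
        unfold G2Phi
        rw [Polynomial.eval_prod]
        apply Finset.prod_eq_zero (Finset.mem_univ j)
        simp
      rw [h6, map_zero])
  apply Subtype.ext
  exact congrFun h1 h

theorem G2_toC_co (a b : k) (r : ℕ) :
    G2iOC k L δ (G2co k L δ a b r) = toC k L δ ((G2Phi k a b).coeff r) := by
  apply Subtype.ext
  rw [G2_coe_iOC, G2_coe_toC]
  rfl

theorem G2_F (ψ : CC k L δ →ₐ[k] K) (a b : k) :
    ∏ i, (G2ell K (algebraMap k K a) (algebraMap k K b) - C (ψ (toC k L δ (lf a b i))))
      ∈ Ipt k L δ (ψ.comp (G2iOC k L δ)) := by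
  set ℓ := G2ell K (algebraMap k K a) (algebraMap k K b) with hℓ
  set F : Polynomial K := ∏ i : ι, (Polynomial.X - Polynomial.C (ψ (toC k L δ (lf a b i)))) with hF
  have hdeg : F.natDegree < Fintype.card ι + 1 := by
    rw [hF, Polynomial.natDegree_prod_of_monic _ _ (fun i _ => Polynomial.monic_X_sub_C _)]
    simp
  have hFc : ∀ r, F.coeff r = ψ (toC k L δ ((G2Phi k a b).coeff r)) := by
    intro r
    have h1 : F = (G2Phi k a b : Polynomial (RR k ι)).map ((ψ.comp (toC k L δ)).toRingHom) := by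
      rw [hF]
      unfold G2Phi
      rw [Polynomial.map_prod]
      refine Finset.prod_congr rfl fun i _ => ?_
      rw [Polynomial.map_sub, Polynomial.map_X, Polynomial.map_C]
      rfl
    rw [h1, Polynomial.coeff_map]
    rfl
  have h1 : ∏ i : ι, (ℓ - C (ψ (toC k L δ (lf a b i)))) = Polynomial.aeval ℓ F := by
    rw [hF, map_prod]
    refine Finset.prod_congr rfl fun i _ => ?_
    rw [map_sub, Polynomial.aeval_X, Polynomial.aeval_C]
    rfl
  rw [h1, Polynomial.aeval_eq_sum_range' hdeg, G2crd_mem, map_sum]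
  funext h
  rw [Finset.sum_apply]
  have h2 : ∀ r, G2crd k L δ (ψ.comp (G2iOC k L δ)) (F.coeff r • ℓ ^ r) h
      = (ψ.comp (G2iOC k L δ)) (G2co k L δ a b r * G2crdO k L δ (G2ell k a b ^ r) h) := by
    intro r
    have h3 : (ψ.comp (G2iOC k L δ)) (G2co k L δ a b r)
        = ψ (toC k L δ ((G2Phi k a b).coeff r)) := by
      rw [AlgHom.comp_apply, G2_toC_co]
    rw [map_smul, Pi.smul_apply, hℓ, ← G2ell_map, ← map_pow, G2crd_map, map_mul, hFc,
      smul_eq_mul, h3]
  simp only [h2]
  rw [← map_sum, G2_rel, map_zero]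
  rfl

/-- the linear form is good if it generates the fibre algebra -/
theorem G2_good (ψ : CC k L δ →ₐ[k] K) (a b : k)
    (hgen : Algebra.adjoin K {Ideal.Quotient.mk (Ipt k L δ (ψ.comp (G2iOC k L δ)))
      (G2ell K (algebraMap k K a) (algebraMap k K b))} = ⊤) :
    ∃ u : OO k L δ, ψ (G2iOC k L δ u) ≠ 0 ∧ (u : L) * toL k L (dl k δ) = toL k L (vdl ι a b) := by
  set e : ι → ℕ := fun j => ((Fintype.equivFin ι j : Fin (Fintype.card ι)) : ℕ) with he
  set φ := ψ.comp (G2iOC k L δ) with hφ
  set ℓ := G2ell K (algebraMap k K a) (algebraMap k K b) with hℓ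
  let N : Matrix ι ι (OO k L δ) := Matrix.of fun h j => G2crdO k L δ (G2ell k a b ^ e j) h
  refine ⟨N.det, ?_, ?_⟩
  · intro h0
    have h1 : (N.map φ).det = 0 := by
      have := (RingHom.map_det φ.toRingHom N).symm
      exact this.trans h0
    obtain ⟨v, hv0, hv⟩ := Matrix.exists_mulVec_eq_zero_iff.mpr h1
    have h2 : ∑ j, v j • ℓ ^ e j ∈ Ipt k L δ φ := by
      rw [G2crd_mem, map_sum]
      funext h
      have h3 := congrFun hv h
      rw [Matrix.mulVec_eq_sum] at h3
      simp only [Finset.sum_apply, Pi.smul_apply, MulOpposite.smul_eq_mul_unop,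
        MulOpposite.unop_op] at h3
      rw [Finset.sum_apply]
      refine Eq.trans ?_ h3
      refine Finset.sum_congr rfl fun j _ => ?_
      rw [map_smul, Pi.smul_apply, hℓ, ← G2ell_map, ← map_pow, G2crd_map, smul_eq_mul, mul_comm]
      rfl
    let G : Polynomial K := ∑ j, Polynomial.C (v j) * Polynomial.X ^ e j
    have hG0 : Polynomial.aeval (Ideal.Quotient.mk (Ipt k L δ φ) ℓ) G = 0 := by
      have h3 : Polynomial.aeval (Ideal.Quotient.mk (Ipt k L δ φ) ℓ) G
          = Ideal.Quotient.mk (Ipt k L δ φ) (∑ j, v j • ℓ ^ e j) := by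
        rw [map_sum, map_sum]
        refine Finset.sum_congr rfl fun j _ => ?_
        rw [map_mul, Polynomial.aeval_C, map_pow, Polynomial.aeval_X, ← Algebra.smul_def,
          ← map_pow]
        rfl
      rw [h3, Ideal.Quotient.eq_zero_iff_mem]
      exact h2
    let F : Polynomial K := ∏ i : ι, (Polynomial.X - Polynomial.C (ψ (toC k L δ (lf a b i))))
    have hFm : F.Monic := Polynomial.monic_prod_of_monic _ _ fun i _ => Polynomial.monic_X_sub_C _
    have hFd : F.natDegree = Fintype.card ι := by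
      rw [Polynomial.natDegree_prod_of_monic _ _ (fun i _ => Polynomial.monic_X_sub_C _)]
      simp
    have hF0 : Polynomial.aeval (Ideal.Quotient.mk (Ipt k L δ φ) ℓ) F = 0 := by
      have h3 : Polynomial.aeval (Ideal.Quotient.mk (Ipt k L δ φ) ℓ) F
          = Ideal.Quotient.mk (Ipt k L δ φ) (∏ i, (ℓ - C (ψ (toC k L δ (lf a b i))))) := by
        rw [map_prod, map_prod]
        refine Finset.prod_congr rfl fun j _ => ?_
        rw [map_sub, Polynomial.aeval_X, Polynomial.aeval_C, map_sub]
        rfl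
      rw [h3, Ideal.Quotient.eq_zero_iff_mem]
      exact G2_F k L δ ψ a b
    have := G2_finite k L δ φ
    have hdvd := G2_dvd_of_aeval (G2_finrank k L δ φ) _ hgen F hFm hFd hF0 G hG0
    have hGc : ∀ m, G.coeff m = ∑ j, v j * (if m = e j then 1 else 0) := by
      intro m
      rw [Polynomial.finsetSum_coeff]
      refine Finset.sum_congr rfl fun j _ => ?_
      rw [Polynomial.coeff_C_mul, Polynomial.coeff_X_pow]
    have hGz : G = 0 := by
      apply Polynomial.eq_zero_of_dvd_of_degree_lt hdvd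
      rw [Polynomial.degree_eq_natDegree hFm.ne_zero, hFd, Polynomial.degree_lt_iff_coeff_zero]
      intro m hm
      rw [hGc]
      apply Finset.sum_eq_zero
      intro j _
      have : e j < Fintype.card ι := (Fintype.equivFin ι j).2
      rw [if_neg (by omega), mul_zero]
    apply hv0
    funext j
    have h3 := hGc (e j)
    rw [hGz, Polynomial.coeff_zero, Finset.sum_eq_single j] at h3
    · simpa using h3.symm
    · intro j' _ hj'
      rw [if_neg, mul_zero]
      intro h4
      apply hj'
      apply (Fintype.equivFin ι).injective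
      exact Fin.ext h4.symm
    · intro h; exact absurd (Finset.mem_univ _) h
  · have h1 : vdl ι a b = Matrix.det (Matrix.of fun i j : ι => lf a b i ^ e j) := rfl
    have h2 : toL k L (vdl ι a b) = ((Matrix.of fun i j : ι => lf a b i ^ e j).map (toL k L)).det := by
      rw [h1]
      exact RingHom.map_det (toL k L : RR k ι →ₐ[k] L).toRingHom _
    have h3 : ((Matrix.of fun i j : ι => lf a b i ^ e j).map (toL k L))
        = ((G2mat k δ).map (toL k L)) * (N.map (OO k L δ).val) := by
      ext i j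
      rw [Matrix.mul_apply]
      have h4 := G2crdO_spec k L δ (G2ell k a b ^ e j) i
      have h5 : (aeval ![xx i, yy i] (G2ell k a b ^ e j) : RR k ι) = lf a b i ^ e j := by
        unfold G2ell lf
        rw [map_pow, map_add, map_mul, map_mul, aeval_X, aeval_X, MvPolynomial.algHom_C,
          MvPolynomial.algHom_C]
        rfl
      rw [h5] at h4
      rw [Matrix.map_apply, Matrix.of_apply, ← h4]
      refine Finset.sum_congr rfl fun h _ => ?_
      rw [mul_comm]
      rfl
    have h6 : ((G2mat k δ).map (toL k L)).det = toL k L (dl k δ) :=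
      (RingHom.map_det (toL k L : RR k ι →ₐ[k] L).toRingHom _).symm
    have h7 : (N.map (OO k L δ).val).det = (N.det : L) :=
      (RingHom.map_det (OO k L δ).val.toRingHom _).symm
    rw [h2, h3, Matrix.det_mul, h6, h7, mul_comm]

end

end Pool.Agent.Lib.MP_463376_co
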