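import Pool.Agent.Lib.MP_463376_co.G2_Ev

/-! stream G2: the fibre algebra at a point of `C` where all `y_i` vanish -/

namespace Pool.Agent.Lib.MP_463376_co

open MvPolynomial

section

variable (k : Type) [Field k] [CharZero k] {ι : Type} [Fintype ι] [DecidableEq ι]
  (L : Type) [Field L] [Algebra k L] [Algebra (RR k ι) L]
  [IsScalarTower k (RR k ι) L] [IsFractionRing (RR k ι) L] (δ : Dia ι)
  {K : Type} [Field K] [Algebra k K] (ψ : CC k L δ →ₐ[k] K)

/-- the fibre ideal -/
noncomputable abbrev G2I : Ideal (MvPolynomial (Fin 2) K) := Ipt k L δ (ψ.comp (G2iOC k L δ))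

variable (hy : ∀ i, ψ (toC k L δ (yy i)) = 0)
  {s : ℕ} (α : Fin s → K) (hα : Function.Injective α) (β : ι → Fin s)
  (hβ : Function.Surjective β) (hx : ∀ i, ψ (toC k L δ (xx i)) = α (β i))

include hy in
theorem G2_Y_pow : (X 1 : MvPolynomial (Fin 2) K) ^ Fintype.card ι ∈ G2I k L δ ψ := by
  have h1 := G2_F k L δ ψ 0 1
  have h2 : ∏ i : ι, (G2ell K (algebraMap k K 0) (algebraMap k K 1)
      - C (ψ (toC k L δ (lf 0 1 i)))) = X 1 ^ Fintype.card ι := by
    rw [← Finset.card_univ, ← Finset.prod_const]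
    refine Finset.prod_congr rfl fun i _ => ?_
    have h3 : (lf 0 1 i : RR k ι) = yy i := by simp [lf]
    rw [h3, hy]
    simp [G2ell]
  rw [h2] at h1
  exact h1

theorem G2_evK (j : ι) (f : MvPolynomial (Fin 2) K) (hf : f ∈ G2I k L δ ψ) :
    aeval ![ψ (toC k L δ (xx j)), ψ (toC k L δ (yy j))] f = 0 :=
  G2_ev k L δ (ψ.comp (G2iOC k L δ)) ψ.toRingHom (fun _ => rfl) j f hf

include hy in
theorem G2_prod_mem (hα : Function.Injective α) (hβ : Function.Surjective β)
    (hx : ∀ i, ψ (toC k L δ (xx i)) = α (β i))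
    (hJ : Module.finrank K (MvPolynomial (Fin 2) K ⧸ (G2I k L δ ψ ⊔ Ideal.span {X 1})) ≤ s) :
    ∏ b, (X 0 - C (α b)) ∈ G2I k L δ ψ ⊔ Ideal.span {X 1} := by
  have hfin := G2_finite k L δ (ψ.comp (G2iOC k L δ))
  have hfin' : Module.Finite K (MvPolynomial (Fin 2) K ⧸ (G2I k L δ ψ ⊔ Ideal.span {X 1})) := by
    have hle : G2I k L δ ψ ≤ G2I k L δ ψ ⊔ Ideal.span {X 1} := le_sup_left
    exact Module.Finite.of_surjective (Ideal.Quotient.factorₐ K hle).toLinearMap
      (Ideal.Quotient.factor_surjective hle)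
  choose g hg using hβ
  have hkill : ∀ b : Fin s, ∀ f ∈ G2I k L δ ψ ⊔ Ideal.span {X 1},
      (aeval ![α b, (0 : K)] : MvPolynomial (Fin 2) K →ₐ[K] K) f = 0 := by
    intro b f hf
    have h1 : G2I k L δ ψ ⊔ Ideal.span {X 1} ≤ RingHom.ker
        (aeval ![α b, (0 : K)] : MvPolynomial (Fin 2) K →ₐ[K] K) := by
      apply sup_le
      · intro f hf
        have h2 := G2_evK k L δ ψ (g b) f hf
        rw [hx, hg, hy] at h2
        exact h2
      · rw [Ideal.span_le, Set.singleton_subset_iff, SetLike.mem_coe, RingHom.mem_ker, aeval_X]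
        rfl
    exact h1 hf
  have h1 := G2_eq_zero (K := K)
    (D := MvPolynomial (Fin 2) K ⧸ (G2I k L δ ψ ⊔ Ideal.span {X 1}))
    (Ideal.Quotient.mk _ (X 0)) α hα
    (fun b => Ideal.Quotient.liftₐ _ (aeval ![α b, (0 : K)]) (hkill b))
    (fun b => by
      have : (aeval ![α b, (0 : K)] : MvPolynomial (Fin 2) K →ₐ[K] K) (X 0) = α b := by
        rw [aeval_X]; rfl
      exact this)
    hJ (Ideal.Quotient.mk _ (∏ b, (X 0 - C (α b))))
    (fun b => by
      have : (aeval ![α b, (0 : K)] : MvPolynomial (Fin 2) K →ₐ[K] K)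
          (∏ b, (X 0 - C (α b))) = 0 := by
        rw [map_prod]
        apply Finset.prod_eq_zero (Finset.mem_univ b)
        rw [map_sub, aeval_X, MvPolynomial.algHom_C]
        simp
      exact this)
  rwa [Ideal.Quotient.eq_zero_iff_mem] at h1

/-- the points of the fibre algebra -/
noncomputable def G2pt (j : ι) : (MvPolynomial (Fin 2) K ⧸ G2I k L δ ψ) →ₐ[K] K :=
  Ideal.Quotient.liftₐ _ (aeval ![ψ (toC k L δ (xx j)), ψ (toC k L δ (yy j))])
    (G2_evK k L δ ψ j)

theorem G2pt_mk (j : ι) (f : MvPolynomial (Fin 2) K) :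
    G2pt k L δ ψ j (Ideal.Quotient.mk _ f)
      = aeval ![ψ (toC k L δ (xx j)), ψ (toC k L δ (yy j))] f := rfl

include hy in
theorem G2_exists_form (hα : Function.Injective α) (hβ : Function.Surjective β)
    (hx : ∀ i, ψ (toC k L δ (xx i)) = α (β i))
    (hP : ∏ b, (X 0 - C (α b)) ∈ G2I k L δ ψ ⊔ Ideal.span {X 1}) :
    ∃ c : k, Algebra.adjoin K {Ideal.Quotient.mk (G2I k L δ ψ)
      (G2ell K (algebraMap k K 1) (algebraMap k K c))} = ⊤ := by
  choose g hg using hβ
  obtain ⟨i0, hi0, r, hr, hir⟩ := Submodule.mem_sup.mp hP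
  obtain ⟨H, rfl⟩ := Ideal.mem_span_singleton'.mp hr
  have hgen : Algebra.adjoin K {Ideal.Quotient.mk (G2I k L δ ψ) (X 0),
      Ideal.Quotient.mk (G2I k L δ ψ) (X 1)} = ⊤ := by
    rw [eq_top_iff]
    intro d _
    obtain ⟨f, rfl⟩ := Ideal.Quotient.mk_surjective d
    induction f using MvPolynomial.induction_on with
    | C a =>
      exact Subalgebra.algebraMap_mem _ a
    | add p q hp hq =>
      rw [map_add]
      exact Subalgebra.add_mem _ (hp Algebra.mem_top) (hq Algebra.mem_top)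
    | mul_X p i hp =>
      rw [map_mul]
      refine Subalgebra.mul_mem _ (hp Algebra.mem_top) (Algebra.subset_adjoin ?_)
      fin_cases i
      · left; rfl
      · right; rfl
  have hnil : IsNilpotent (Ideal.Quotient.mk (G2I k L δ ψ) (X 1)) := by
    refine ⟨Fintype.card ι, ?_⟩
    rw [← map_pow, Ideal.Quotient.eq_zero_iff_mem]
    exact G2_Y_pow k L δ ψ hy
  obtain ⟨c, hc⟩ := G2_good_form (k := k) (K := K) (D := MvPolynomial (Fin 2) K ⧸ G2I k L δ ψ)
    (Ideal.Quotient.mk _ (X 0)) (Ideal.Quotient.mk _ (X 1)) hgen hnil α hα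
    (fun b => G2pt k L δ ψ (g b))
    (fun b => by
      rw [G2pt_mk, aeval_X, hx, hg]; rfl)
    (fun b => by
      rw [G2pt_mk, aeval_X, hy, hx]; rfl)
    (Ideal.Quotient.mk _ H)
    (by
      rw [Lagrange.nodal, map_prod]
      have h1 : (Ideal.Quotient.mk (G2I k L δ ψ)) (∏ b, (X 0 - C (α b)))
          = Ideal.Quotient.mk (G2I k L δ ψ) (X 1) * Ideal.Quotient.mk (G2I k L δ ψ) H := by
        rw [← hir, map_add, Ideal.Quotient.eq_zero_iff_mem.mpr hi0, zero_add, map_mul, mul_comm]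
      rw [← h1, map_prod]
      refine Finset.prod_congr rfl fun b _ => ?_
      rw [map_sub, Polynomial.aeval_X, Polynomial.aeval_C, map_sub]
      rfl)
  refine ⟨c, ?_⟩
  have h2 : Ideal.Quotient.mk (G2I k L δ ψ) (G2ell K (algebraMap k K 1) (algebraMap k K c))
      = Ideal.Quotient.mk _ (X 0) + algebraMap K (MvPolynomial (Fin 2) K ⧸ G2I k L δ ψ)
        (algebraMap k K c) * Ideal.Quotient.mk _ (X 1) := by
    unfold G2ell
    rw [map_one, C_1, one_mul, map_add, map_mul]
    rfl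
  rw [h2]
  exact hc

include hy in
theorem G2_min_bound (hα : Function.Injective α) (hβ : Function.Surjective β)
    (hx : ∀ i, ψ (toC k L δ (xx i)) = α (β i)) (c : k)
    (hc : Algebra.adjoin K {Ideal.Quotient.mk (G2I k L δ ψ)
      (G2ell K (algebraMap k K 1) (algebraMap k K c))} = ⊤) (m : ℕ) :
    ∑ b, min (Finset.univ.filter fun i => β i = b).card m
      ≤ (Finset.univ.filter fun i : ι => (δ.c i).2 < m).card := by
  classical
  choose g hg using hβ
  have hfin := G2_finite k L δ (ψ.comp (G2iOC k L δ))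
  have h := G2_dim_bound (K := K) (D := MvPolynomial (Fin 2) K ⧸ G2I k L δ ψ) (ι := ι)
    (G2_finrank k L δ (ψ.comp (G2iOC k L δ)))
    (Ideal.Quotient.mk (G2I k L δ ψ) (G2ell K (algebraMap k K 1) (algebraMap k K c)))
    (Ideal.Quotient.mk _ (X 1)) hc α hα β
    (by
      have h1 := G2_F k L δ ψ 1 c
      rw [← Ideal.Quotient.eq_zero_iff_mem, map_prod] at h1
      rw [← h1]
      refine Finset.prod_congr rfl fun i _ => ?_
      have h2 : ψ (toC k L δ (lf 1 c i)) = α (β i) := by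
        have h3 : (lf 1 c i : RR k ι) = xx i + C c * yy i := by simp [lf]
        rw [h3, map_add, map_mul, map_add, map_mul, hx, hy, mul_zero, add_zero]
      rw [h2, map_sub]
      rfl)
    (fun b => G2pt k L δ ψ (g b))
    (fun b => by
      rw [G2pt_mk]
      unfold G2ell
      rw [map_one, C_1, one_mul, map_add, map_mul, aeval_X, aeval_X, hx, hg, hy]
      simp)
    (fun b => by
      rw [G2pt_mk, aeval_X, hy, hx]; rfl)
    m ((Finset.univ.filter fun i : ι => (δ.c i).2 < m).image fun h =>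
      Ideal.Quotient.mk (G2I k L δ ψ) (G2cell K δ h))
    (by
      intro d
      obtain ⟨f, rfl⟩ := Ideal.Quotient.mk_surjective d
      have h1 := G2_reduce k L δ (ψ.comp (G2iOC k L δ)) f
      refine ⟨Ideal.Quotient.mk _ (∑ h ∈ Finset.univ.filter fun i : ι => ¬ (δ.c i).2 < m,
        C (G2crd k L δ (ψ.comp (G2iOC k L δ)) f h) * (X 0 ^ (δ.c h).1 * X 1 ^ ((δ.c h).2 - m))), ?_⟩
      have h2 : Ideal.Quotient.mk (G2I k L δ ψ) f = Ideal.Quotient.mk (G2I k L δ ψ)
          (∑ h, C (G2crd k L δ (ψ.comp (G2iOC k L δ)) f h) * G2cell K δ h) := by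
        rw [Ideal.Quotient.eq]
        exact h1
      rw [h2, ← map_pow, ← map_mul, ← map_sub,
        ← Finset.sum_filter_add_sum_filter_not Finset.univ (fun i : ι => (δ.c i).2 < m)]
      have h3 : (X 1 : MvPolynomial (Fin 2) K) ^ m *
          (∑ h ∈ Finset.univ.filter fun i : ι => ¬ (δ.c i).2 < m,
            C (G2crd k L δ (ψ.comp (G2iOC k L δ)) f h) * (X 0 ^ (δ.c h).1 * X 1 ^ ((δ.c h).2 - m)))
          = ∑ h ∈ Finset.univ.filter fun i : ι => ¬ (δ.c i).2 < m,
            C (G2crd k L δ (ψ.comp (G2iOC k L δ)) f h) * G2cell K δ h := by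
        rw [Finset.mul_sum]
        refine Finset.sum_congr rfl fun h hh => ?_
        have h4 : m ≤ (δ.c h).2 := not_lt.mp (Finset.mem_filter.mp hh).2
        unfold G2cell
        have h5 : (X 1 : MvPolynomial (Fin 2) K) ^ (δ.c h).2
            = X 1 ^ m * X 1 ^ ((δ.c h).2 - m) := by
          rw [← pow_add, Nat.add_sub_cancel' h4]
        rw [h5]
        ring
      rw [h3, add_sub_cancel_right, map_sum]
      apply Submodule.sum_mem
      intro h hh
      rw [← smul_eq_C_mul]
      have h4 : Ideal.Quotient.mk (G2I k L δ ψ)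
          (G2crd k L δ (ψ.comp (G2iOC k L δ)) f h • G2cell K δ h)
          = G2crd k L δ (ψ.comp (G2iOC k L δ)) f h • Ideal.Quotient.mk (G2I k L δ ψ)
            (G2cell K δ h) := rfl
      rw [h4]
      apply Submodule.smul_mem
      apply Submodule.subset_span
      simp only [Finset.coe_image, Set.mem_image]
      exact ⟨h, hh, rfl⟩)
  exact h.trans Finset.card_image_le

end

end Pool.Agent.Lib.MP_463376_co
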