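import Mathlib

/-! stream G2: a nonzero idempotent stays nonzero over the residue field of an associated prime -/

namespace Pool.Agent.Lib.MP_463376_co

open TensorProduct

theorem G2_tensor_nontrivial (A M K : Type) [CommRing A] [AddCommGroup M] [Module A M]
    [Module.Finite A M] [Field K] [Algebra A K] (q : Ideal A) [q.IsPrime]
    (hq : Module.annihilator A M ≤ q) (hker : RingHom.ker (algebraMap A K) = q) :
    Nontrivial (K ⊗[A] M) := by
  let p : PrimeSpectrum A := ⟨q, inferInstance⟩
  have h1 : p ∈ Module.support A M := Module.mem_support_iff_of_finite.mpr hq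
  rw [Module.mem_support_iff_nontrivial_residueField_tensorProduct] at h1
  let φ : q.ResidueField →+* K := Ideal.ResidueField.lift q (algebraMap A K) hker.ge (by
    intro a ha
    simp only [Submonoid.mem_comap, IsUnit.mem_submonoid_iff]
    rw [isUnit_iff_ne_zero]
    intro h0
    exact ha (by rw [← hker]; exact h0))
  let _ : Algebra q.ResidueField K := φ.toAlgebra
  have hφ : ∀ a : A, algebraMap q.ResidueField K (algebraMap A q.ResidueField a)
      = algebraMap A K a := fun a => Ideal.ResidueField.lift_algebraMap _ _ _ _ a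
  have _ : IsScalarTower A q.ResidueField K := IsScalarTower.of_algebraMap_eq fun a => (hφ a).symm
  let e := (TensorProduct.AlgebraTensorModule.cancelBaseChange A q.ResidueField K K M)
  have h2 : Nontrivial (q.ResidueField ⊗[A] M) := h1
  have h3 : Nontrivial (K ⊗[q.ResidueField] (q.ResidueField ⊗[A] M)) := inferInstance
  exact e.symm.toEquiv.nontrivial

theorem G2_nakayama (A M : Type) [CommRing A] [IsNoetherianRing A] [AddCommGroup M] [Module A M]
    [Module.Finite A M] (eb : M →ₗ[A] M) (hid : eb ∘ₗ eb = eb) (hne : eb ≠ 0) :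
    ∃ q : Ideal A, q ∈ associatedPrimes A M ∧ Module.annihilator A M ≤ q ∧
      ∀ (K : Type) [Field K] [Algebra A K], RingHom.ker (algebraMap A K) = q →
        eb.lTensor K ≠ 0 := by
  have hN : Nontrivial (LinearMap.range eb) := by
    rw [Submodule.nontrivial_iff_ne_bot]
    intro h
    exact hne (LinearMap.range_eq_bot.mp h)
  obtain ⟨q, hq⟩ := associatedPrimes.nonempty (R := A) (M := LinearMap.range eb)
  have hq1 : q.IsPrime := hq.1
  have hann : Module.annihilator A (LinearMap.range eb) ≤ q := by
    obtain ⟨_, x, hx⟩ := isAssociatedPrime_iff.mp hq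
    intro a ha
    rw [hx, Submodule.mem_colon_singleton]
    rw [Module.mem_annihilator] at ha
    rw [ha x]
    exact Submodule.zero_mem _
  refine ⟨q, IsAssociatedPrime.map_of_injective (LinearMap.range eb).subtype hq
    (LinearMap.range eb).injective_subtype, ?_, ?_⟩
  · refine le_trans ?_ hann
    intro a ha
    rw [Module.mem_annihilator] at ha ⊢
    intro m
    apply Subtype.ext
    exact ha m.1
  · intro K _ _ hker h0
    have h1 := G2_tensor_nontrivial A (LinearMap.range eb) K q hann hker
    have h2 : (eb.rangeRestrict ∘ₗ eb) ∘ₗ (LinearMap.range eb).subtype = LinearMap.id := by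
      ext m
      obtain ⟨_, m', rfl⟩ := m
      have h3 : ∀ m, eb (eb m) = eb m := fun m => LinearMap.congr_fun hid m
      simp [h3]
    have h3 : (LinearMap.id : K ⊗[A] (LinearMap.range eb) →ₗ[A] _) = 0 := by
      rw [← LinearMap.lTensor_id, ← h2, LinearMap.lTensor_comp, LinearMap.lTensor_comp, h0]
      simp
    obtain ⟨x, hx⟩ := exists_ne (0 : K ⊗[A] (LinearMap.range eb))
    apply hx
    have := LinearMap.congr_fun h3 x
    simpa using this

end Pool.Agent.Lib.MP_463376_co
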