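import Pool.Agent.Lib.MP_463376_co.G2_Perm
import Pool.Agent.Lib.MP_463376_co.G2_Nak

/-! stream G2: the trace over the residue field -/

namespace Pool.Agent.Lib.MP_463376_co

open TensorProduct Polynomial

theorem G2_ten {k A C K : Type} [Field k] [CharZero k] [CommRing A] [CommRing C] [Algebra A C]
    [Field K] [Algebra k K] [Algebra A K] [Algebra k A] [IsScalarTower k A K]
    {ι : Type} [Fintype ι] [DecidableEq ι] {s : ℕ}
    (x : ι → C) (act : Equiv.Perm ι → C →ₐ[A] C) (hact : ∀ w i, act w (x i) = x (w i))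
    (hgen : ∀ g : C, ∃ u : A, algebraMap A K u ≠ 0 ∧ u • g ∈ Algebra.adjoin A (Set.range x))
    (α : Fin s → K) (hα : Function.Injective α)
    (hP : ∀ i, ∏ b, (((1 : K) ⊗ₜ[A] x i) - algebraMap K (K ⊗[A] C) (α b)) = 0)
    (β : ι → Fin s)
    (hF : ∀ r, ∃ a : A, (∏ i, (X - Polynomial.C (x i)) : C[X]).coeff r = algebraMap A C a ∧
      (∏ i, (X - Polynomial.C (α (β i))) : K[X]).coeff r = algebraMap A K a)
    (e : Equiv.Perm ι → k) (he : ∀ g, ∑ h, e h * e (h⁻¹ * g) = e g)
    (hne : (∑ w, algebraMap k A (e w) • (act w).toLinearMap).lTensor K ≠ 0) :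
    ∑ w : Equiv.Perm ι, e w * ((Finset.univ.filter fun φ : ι → Fin s => φ ∘ w = φ ∧
        ∀ b, (Finset.univ.filter fun i => φ i = b).card
          = (Finset.univ.filter fun i => β i = b).card).card : k) ≠ 0 := by
  classical
  let actE : Equiv.Perm ι → K ⊗[A] C →ₐ[K] K ⊗[A] C :=
    fun w => Algebra.TensorProduct.map (AlgHom.id K K) (act w)
  have hactE : ∀ w (a : K) (c : C), actE w (a ⊗ₜ[A] c) = a ⊗ₜ[A] (act w c) := by
    intro w a c
    exact Algebra.TensorProduct.map_tmul _ _ _ _
  have hadj : ∀ g ∈ Algebra.adjoin A (Set.range x), (1 : K) ⊗ₜ[A] g ∈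
      Algebra.adjoin K (Set.range fun i => (1 : K) ⊗ₜ[A] x i) := by
    intro g hg
    induction hg using Algebra.adjoin_induction with
    | mem z hz =>
      obtain ⟨i, rfl⟩ := hz
      exact Algebra.subset_adjoin ⟨i, rfl⟩
    | algebraMap r =>
      have h1 : (1 : K) ⊗ₜ[A] (algebraMap A C r) = algebraMap K (K ⊗[A] C) (algebraMap A K r) := by
        rw [Algebra.TensorProduct.algebraMap_apply, Algebra.algebraMap_eq_smul_one (A := C),
          TensorProduct.tmul_smul, TensorProduct.smul_tmul', Algebra.smul_def, mul_one]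
        rfl
      rw [h1]
      exact Subalgebra.algebraMap_mem _ _
    | add a b _ _ ha hb =>
      rw [TensorProduct.tmul_add]
      exact Subalgebra.add_mem _ ha hb
    | mul a b _ _ ha hb =>
      have h1 : (1 : K) ⊗ₜ[A] (a * b) = ((1 : K) ⊗ₜ[A] a) * ((1 : K) ⊗ₜ[A] b) := by
        rw [Algebra.TensorProduct.tmul_mul_tmul, one_mul]
      rw [h1]
      exact Subalgebra.mul_mem _ ha hb
  have hgenE : Algebra.adjoin K (Set.range fun i => (1 : K) ⊗ₜ[A] x i) = ⊤ := by
    rw [eq_top_iff]
    intro z _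
    induction z using TensorProduct.induction_on with
    | zero => exact Subalgebra.zero_mem _
    | add a b ha hb => exact Subalgebra.add_mem _ (ha Algebra.mem_top) (hb Algebra.mem_top)
    | tmul a g =>
      obtain ⟨u, hu, hug⟩ := hgen g
      have h1 := hadj _ hug
      have h2 : a ⊗ₜ[A] g = (a * (algebraMap A K u)⁻¹) • ((1 : K) ⊗ₜ[A] (u • g)) := by
        rw [TensorProduct.tmul_smul, TensorProduct.smul_tmul', TensorProduct.smul_tmul',
          smul_eq_mul, Algebra.smul_def, mul_one, mul_assoc, inv_mul_cancel₀ hu, mul_one]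
      rw [h2]
      exact Subalgebra.smul_mem _ h1 _
  have hFE : ∏ i, (X - Polynomial.C ((1 : K) ⊗ₜ[A] x i)) = ∏ i, (X - Polynomial.C
      (algebraMap K (K ⊗[A] C) (α (β i)))) := by
    have h1 : ∏ i, (X - Polynomial.C ((1 : K) ⊗ₜ[A] x i))
        = (∏ i, (X - Polynomial.C (x i))).map
          (Algebra.TensorProduct.includeRight : C →ₐ[A] K ⊗[A] C).toRingHom := by
      rw [Polynomial.map_prod]
      refine Finset.prod_congr rfl fun i _ => ?_
      rw [Polynomial.map_sub, Polynomial.map_X, Polynomial.map_C]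
      rfl
    have h2 : ∏ i, (X - Polynomial.C (algebraMap K (K ⊗[A] C) (α (β i))))
        = (∏ i, (X - Polynomial.C (α (β i)))).map (algebraMap K (K ⊗[A] C)) := by
      rw [Polynomial.map_prod]
      refine Finset.prod_congr rfl fun i _ => ?_
      rw [Polynomial.map_sub, Polynomial.map_X, Polynomial.map_C]
    rw [h1, h2]
    ext r
    rw [Polynomial.coeff_map, Polynomial.coeff_map]
    obtain ⟨a, ha1, ha2⟩ := hF r
    rw [ha1, ha2]
    have h3 : (Algebra.TensorProduct.includeRight : C →ₐ[A] K ⊗[A] C).toRingHom (algebraMap A C a)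
        = algebraMap A (K ⊗[A] C) a := by
      exact (Algebra.TensorProduct.includeRight : C →ₐ[A] K ⊗[A] C).commutes a
    rw [h3, IsScalarTower.algebraMap_apply A K (K ⊗[A] C)]
  obtain ⟨v, hv⟩ : ∃ v, (∑ w, algebraMap k A (e w) • (act w).toLinearMap).lTensor K v ≠ 0 := by
    by_contra hcon
    push Not at hcon
    exact hne (LinearMap.ext hcon)
  have hlT : ∀ w v, (act w).toLinearMap.lTensor K v = actE w v := by
    intro w v
    induction v using TensorProduct.induction_on with
    | zero => rw [map_zero, map_zero]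
    | add a b ha hb => rw [map_add, map_add, ha, hb]
    | tmul a g => rw [LinearMap.lTensor_tmul, hactE]; rfl
  have hv' : ∑ w, algebraMap k K (e w) • actE w v ≠ 0 := by
    intro h0
    apply hv
    rw [← h0]
    have h1 : (∑ w, algebraMap k A (e w) • (act w).toLinearMap).lTensor K
        = ∑ w, algebraMap k A (e w) • (act w).toLinearMap.lTensor K := by
      have := map_sum (LinearMap.lTensorHom K (R := A) (N := C) (P := C))
        (fun w => algebraMap k A (e w) • (act w).toLinearMap) Finset.univ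
      simp only [LinearMap.coe_lTensorHom, LinearMap.lTensor_smul] at this
      exact this
    rw [h1, LinearMap.sum_apply]
    refine Finset.sum_congr rfl fun w _ => ?_
    rw [LinearMap.smul_apply, hlT, IsScalarTower.algebraMap_apply k A K]
    exact (algebraMap_smul K (algebraMap k A (e w)) (actE w v)).symm
  exact G2_perm_trace (fun i => (1 : K) ⊗ₜ[A] x i) actE
    (fun w i => by rw [hactE, hact]) hgenE α hα hP β hFE e he v hv'

theorem G2_ten' {k A C K : Type} [Field k] [CharZero k] [CommRing A] [CommRing C] [Algebra A C]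
    [Field K] [Algebra k K] [Algebra A K] [Algebra k A] [IsScalarTower k A K]
    {ι : Type} [Fintype ι] [DecidableEq ι] {s : ℕ}
    (x : ι → C) (act : Equiv.Perm ι → C →ₐ[A] C) (hact : ∀ w i, act w (x i) = x (w i))
    (hgen : ∀ g : C, ∃ u : A, algebraMap A K u ≠ 0 ∧ u • g ∈ Algebra.adjoin A (Set.range x))
    (α : Fin s → K) (hα : Function.Injective α)
    (hP : ∀ (E : Type) [CommRing E] [Algebra K E] [Algebra A E] [IsScalarTower A K E]
      (g : C →ₐ[A] E) (i : ι), ∏ b, (g (x i) - algebraMap K E (α b)) = 0)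
    (β : ι → Fin s)
    (hF : ∀ r, ∃ a : A, (∏ i, (X - Polynomial.C (x i)) : C[X]).coeff r = algebraMap A C a ∧
      (∏ i, (X - Polynomial.C (α (β i))) : K[X]).coeff r = algebraMap A K a)
    (e : Equiv.Perm ι → k) (he : ∀ g, ∑ h, e h * e (h⁻¹ * g) = e g)
    (hne : (∑ w, algebraMap k A (e w) • (act w).toLinearMap).lTensor K ≠ 0) :
    ∑ w : Equiv.Perm ι, e w * ((Finset.univ.filter fun φ : ι → Fin s => φ ∘ w = φ ∧
        ∀ b, (Finset.univ.filter fun i => φ i = b).card
          = (Finset.univ.filter fun i => β i = b).card).card : k) ≠ 0 :=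
  G2_ten x act hact hgen α hα
    (fun i => hP (K ⊗[A] C) (Algebra.TensorProduct.includeRight : C →ₐ[A] K ⊗[A] C) i) β hF e he hne

end Pool.Agent.Lib.MP_463376_co
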