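import Pool.Agent.Lib.MP_463376_co.I1
import Pool.Agent.Lib.MP_463376_co.C1_Alt
import Pool.Agent.Lib.MP_463376_co.C1h48

/-! PART 3: the rings O, A, C (stream C1) -/

namespace Pool.Agent.Lib.MP_463376_co

open MvPolynomial

section

variable (k : Type) [Field k] [CharZero k] {ι : Type} [Fintype ι] [DecidableEq ι]
  (L : Type) [Field L] [Algebra k L] [Algebra (RR k ι) L]
  [IsScalarTower k (RR k ι) L] [IsFractionRing (RR k ι) L] (δ : Dia ι)

theorem OO_le_PP : OO k L δ ≤ PP k L δ := c1_OO_le_PP δ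

theorem OO_finiteType : Algebra.FiniteType k (OO k L δ) := StreamC1h48.OO_finiteType k L δ

theorem residue : ∃ φ : OO k L δ →ₐ[k] k, RingHom.ker φ = nn k L δ :=
  StreamC1h48.residue k L δ

theorem nn_isPrime : (nn k L δ).IsPrime := by
  obtain ⟨φ, hφ⟩ := residue k L δ
  rw [← hφ]
  exact RingHom.ker_isPrime φ

theorem mem_AA_iff (g : L) :
    g ∈ AA k L δ ↔ ∃ a b : OO k L δ, b ∉ nn k L δ ∧ g * b = a :=
  c1_mem_AA_iff δ (nn_isPrime k L δ) g

theorem mem_CC_iff (g : L) :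
    g ∈ CC k L δ ↔ ∃ b : OO k L δ, b ∉ nn k L δ ∧ g * b ∈ PP k L δ :=
  c1_mem_CC_iff δ (nn_isPrime k L δ) g

theorem alternating_div_mem (f : RR k ι)
    (hf : ∀ w : Equiv.Perm ι, permR w f = ((Equiv.Perm.sign w : ℤˣ) : ℤ) • f) :
    ∃ u : OO k L δ, (u : L) * toL k L (dl k δ) = toL k L f :=
  c1_alternating_div_mem δ f hf

theorem symmetric_mem (f : RR k ι) (hf : ∀ w : Equiv.Perm ι, permR w f = f) :
    toL k L f ∈ OO k L δ := c1_symmetric_mem δ f hf

theorem permL_OO (w : Equiv.Perm ι) (g : L) (hg : g ∈ OO k L δ) :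
    permL (k := k) w g = g := c1_permL_OO δ w g hg

theorem permL_AA (w : Equiv.Perm ι) (g : L) (hg : g ∈ AA k L δ) :
    permL (k := k) w g = g := c1_permL_AA δ w g hg

theorem permL_PP (w : Equiv.Perm ι) (g : L) (hg : g ∈ PP k L δ) :
    permL (k := k) w g ∈ PP k L δ := c1_permL_PP δ w g hg

theorem permL_CC (w : Equiv.Perm ι) (g : L) (hg : g ∈ CC k L δ) :
    permL (k := k) w g ∈ CC k L δ := c1_permL_CC δ w g hg

end

end Pool.Agent.Lib.MP_463376_co
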