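import Pool.Agent.Lib.MP_463376_co.I2
import Pool.Agent.Lib.MP_463376_co.I3
import Pool.Agent.Lib.MP_463376_co.F_a1
import Pool.Agent.Lib.MP_463376_co.F_a2

/-! weak regularity and purity for C -/

namespace Pool.Agent.Lib.MP_463376_co

open MvPolynomial RingTheory.Sequence

section

variable (k : Type) [Field k] [CharZero k] {ι : Type} [Fintype ι] [DecidableEq ι]
  (L : Type) [Field L] [Algebra k L] [Algebra (RR k ι) L]
  [IsScalarTower k (RR k ι) L] [IsFractionRing (RR k ι) L] (δ : Dia ι)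

theorem weaklyRegular_CC (rs : List (BB k ι)) (h : IsWeaklyRegular (BB k ι) rs) :
    IsWeaklyRegular (CC k L δ) (rs.map (yC k L δ)) :=
  weaklyRegular_CC' k L δ rs h

theorem purity_CC (I : Ideal (BB k ι)) [I.IsPrime] (q : Ideal (AA k L δ)) 
    (hq : q ∈ associatedPrimes (AA k L δ) (CC k L δ ⧸ I.map (yC k L δ))) :
    (Fintype.card ι : Cardinal) + Algebra.trdeg k (BB k ι ⧸ I) ≤
      Algebra.trdeg k (AA k L δ ⧸ q) :=
  purity_CC' k L δ I q hq

end

end Pool.Agent.Lib.MP_463376_co
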