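import Pool.Agent.Lib.MP_463376_co.IAbs
import Pool.Agent.Lib.MP_463376_co.I3r
import Pool.Agent.Lib.MP_463376_co.I5
import Pool.Agent.Lib.MP_463376_co.I6
import Pool.Agent.Lib.MP_463376_co.I7a
import Pool.Agent.Lib.MP_463376_co.F_Dual

/-! PART 7: good linear forms, invariants, finiteness, self-duality (stream F) -/

namespace Pool.Agent.Lib.MP_463376_co

open MvPolynomial RingTheory.Sequence

section

variable (k : Type) [Field k] [CharZero k] {ι : Type} [Fintype ι] [DecidableEq ι]
  (L : Type) [Field L] [Algebra k L] [Algebra (RR k ι) L]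
  [IsScalarTower k (RR k ι) L] [IsFractionRing (RR k ι) L] (δ : Dia ι)

theorem good_of_points {K : Type} [Field K] [Algebra k K] (ψ : OR k L δ →ₐ[k] K)
    (hs : Fintype.card ι ≤ Nat.card (Set.range fun i : ι =>
        (ψ (toOR k L δ (xx i)), ψ (toOR k L δ (yy i)))) + 1) :
    ∃ a b : k, ∃ u : OO k L δ, ψ (oR k L δ u) ≠ 0 ∧
      (u : L) * toL k L (dl k δ) = toL k L (vdl ι a b) :=
  good_of_points' k L δ ψ hs

theorem inv_mem_AA (g : L) (hg : g ∈ CC k L δ)
    (h : ∀ w : Equiv.Perm ι, permL (k := k) w g = g) : g ∈ AA k L δ :=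
  inv_mem_AA' k L δ g hg h

theorem CC_finite : Module.Finite (AA k L δ) (CC k L δ) := CC_finite' k L δ

theorem CC_selfdual :
    Nonempty (CC k L δ ≃ₗ[AA k L δ] (CC k L δ →ₗ[AA k L δ] AA k L δ)) := CC_selfdual' k L δ

/-- at a prime with a good linear form, `C` is generated by the values of that form -/
theorem good_generates (q : Ideal (AA k L δ)) [q.IsPrime] (a b : k) (hg : Good k L δ q a b)
    (g : CC k L δ) : ∃ u : AA k L δ, u ∉ q ∧
      u • g ∈ Algebra.adjoin (AA k L δ) (Set.range fun i : ι => toC k L δ (lf a b i)) :=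
  good_generates' k L δ q a b hg g

end

end Pool.Agent.Lib.MP_463376_co
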