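import Pool.Agent.Lib.MP_463376_co.G2_Fib
import Pool.Agent.Lib.MP_463376_co.G2_Ten
import Pool.Agent.Lib.MP_463376_co.G2_Dom
import Pool.Agent.Lib.MP_463376_co.I7

/-! stream G2: assembly -/

namespace Pool.Agent.Lib.MP_463376_co

open MvPolynomial RingTheory.Sequence TensorProduct

section

theorem G2_smul_mk {A C : Type} [CommRing A] [CommRing C] [Algebra A C] (I : Ideal C) (a : A)
    (g : C) : a • (Ideal.Quotient.mk I g) = Ideal.Quotient.mk I (algebraMap A C a * g) := by
  rw [← Algebra.smul_def]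
  rfl

theorem G2_abs_idem {k A M Γ : Type} [Field k] [CommRing A] [Algebra k A] [AddCommGroup M]
    [Module A M] [Group Γ] [Fintype Γ] (act : Γ → M →ₗ[A] M)
    (e : Γ → k) (hact : ∀ w w' m, act w (act w' m) = act (w * w') m)
    (he : ∀ g, ∑ h, e h * e (h⁻¹ * g) = e g) :
    (∑ w, algebraMap k A (e w) • act w) ∘ₗ (∑ w, algebraMap k A (e w) • act w)
      = ∑ w, algebraMap k A (e w) • act w := by
  apply LinearMap.ext
  intro z
  have happ : ∀ m, (∑ w, algebraMap k A (e w) • act w) m = ∑ w, algebraMap k A (e w) • act w m := by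
    intro m
    rw [LinearMap.sum_apply]
    rfl
  rw [LinearMap.comp_apply, happ, happ]
  have h1 : ∀ w, algebraMap k A (e w) • act w
      (∑ w', algebraMap k A (e w') • act w' z)
      = ∑ g, (algebraMap k A (e w * e (w⁻¹ * g))) • act g z := by
    intro w
    rw [map_sum, Finset.smul_sum]
    refine Fintype.sum_equiv (Equiv.mulLeft w) _ _ fun w' => ?_
    rw [map_smul, smul_smul, ← map_mul, Equiv.coe_mulLeft, inv_mul_cancel_left, hact]
  simp only [h1]
  rw [Finset.sum_comm]
  refine Finset.sum_congr rfl fun g _ => ?_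
  rw [← Finset.sum_smul, ← map_sum, he]

/-- the ideal of the origin is prime -/
theorem G2_IB_prime (k : Type) [Field k] (ι : Type) :
    (Ideal.span (Set.range (X : ι → BB k ι))).IsPrime := by
  have h1 : Ideal.span (Set.range (X : ι → BB k ι))
      = RingHom.ker (MvPolynomial.constantCoeff : BB k ι →+* k) := by
    ext f
    rw [← Set.image_univ, MvPolynomial.mem_ideal_span_X_image, RingHom.mem_ker,
      MvPolynomial.constantCoeff_eq]
    constructor
    · intro h
      by_contra h0
      obtain ⟨i, _, hi⟩ := h 0 (MvPolynomial.mem_support_iff.mpr h0)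
      exact hi rfl
    · intro h m hm
      by_contra hcon
      push Not at hcon
      have : m = 0 := by
        ext i
        exact hcon i (Set.mem_univ i)
      rw [this, MvPolynomial.mem_support_iff] at hm
      exact hm h
  rw [h1]
  exact RingHom.ker_isPrime _

variable (k : Type) [Field k] [CharZero k] {ι : Type} [Fintype ι] [DecidableEq ι]
  (L : Type) [Field L] [Algebra k L] [Algebra (RR k ι) L]
  [IsScalarTower k (RR k ι) L] [IsFractionRing (RR k ι) L] (δ : Dia ι)

/-- the ideal `(y)` of `C` -/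
noncomputable def G2IY : Ideal (CC k L δ) := Ideal.span (Set.range fun i : ι => toC k L δ (yy i))

omit [CharZero k] [IsFractionRing (RR k ι) L] in
theorem G2_map_IB : (Ideal.span (Set.range (X : ι → BB k ι))).map (yC k L δ) = G2IY k L δ := by
  rw [Ideal.map_span, ← Set.range_comp]
  unfold G2IY
  congr 2
  funext i
  simp [yC, yB, yy]

/-- the permutation action on `C` -/
noncomputable def G2act (w : Equiv.Perm ι) : CC k L δ →ₐ[AA k L δ] CC k L δ where
  toFun c := ⟨permL (k := k) w (c : L), permL_CC k L δ w c c.2⟩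
  map_one' := Subtype.ext (map_one _)
  map_mul' a b := Subtype.ext (map_mul _ _ _)
  map_zero' := Subtype.ext (map_zero _)
  map_add' a b := Subtype.ext (map_add _ _ _)
  commutes' a := Subtype.ext (by
    change permL (k := k) w ((algebraMap (AA k L δ) (CC k L δ) a : CC k L δ) : L)
      = ((algebraMap (AA k L δ) (CC k L δ) a : CC k L δ) : L)
    rw [coe_algebraMap_AACC]
    exact permL_AA k L δ w a a.2)

theorem G2act_coe (w : Equiv.Perm ι) (c : CC k L δ) :
    ((G2act k L δ w c : CC k L δ) : L) = permL (k := k) w (c : L) := rfl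

theorem G2act_toC (w : Equiv.Perm ι) (f : RR k ι) :
    G2act k L δ w (toC k L δ f) = toC k L δ (permR w f) := by
  apply Subtype.ext
  rw [G2act_coe, G2_coe_toC, G2_coe_toC, permL_toL]

theorem G2act_mul (w w' : Equiv.Perm ι) (c : CC k L δ) :
    G2act k L δ w (G2act k L δ w' c) = G2act k L δ (w * w') c := by
  have h1 : ∀ g : L, permL (k := k) w (permL (k := k) w' g) = permL (k := k) (w * w') g := by
    intro g
    obtain ⟨a, b, hb, rfl⟩ := IsFractionRing.div_surjective (A := RR k ι) g
    have h2 : ∀ f : RR k ι, permL (k := k) w (permL (k := k) w' (algebraMap (RR k ι) L f))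
        = permL (k := k) (w * w') (algebraMap (RR k ι) L f) := by
      intro f
      have h3 : ∀ f : RR k ι, algebraMap (RR k ι) L f = toL k L f := fun _ => rfl
      rw [h3, permL_toL, permL_toL, permL_toL]
      congr 1
      induction f using MvPolynomial.induction_on with
      | C a => simp [permR]
      | add p q hp hq => rw [map_add, map_add, map_add, hp, hq]
      | mul_X p i hp =>
        rw [map_mul, map_mul, map_mul, hp]
        congr 1
        rcases i with i | i <;> simp [permR]
    rw [map_div₀, map_div₀, map_div₀, h2, h2]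
  apply Subtype.ext
  rw [G2act_coe, G2act_coe, G2act_coe, h1]

theorem G2act_IY (w : Equiv.Perm ι) : G2IY k L δ ≤ (G2IY k L δ).comap (G2act k L δ w) := by
  unfold G2IY
  rw [Ideal.span_le]
  rintro _ ⟨i, rfl⟩
  rw [SetLike.mem_coe, Ideal.mem_comap, G2act_toC]
  have h1 : permR w (yy i : RR k ι) = yy (w i) := by simp [permR, yy]
  rw [h1]
  exact Ideal.subset_span ⟨w i, rfl⟩

/-- the permutation action on `C/(y)` -/
noncomputable def G2actI (w : Equiv.Perm ι) :
    (CC k L δ ⧸ G2IY k L δ) →ₐ[AA k L δ] (CC k L δ ⧸ G2IY k L δ) :=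
  Ideal.quotientMapₐ (G2IY k L δ) (G2act k L δ w) (G2act_IY k L δ w)

theorem G2actI_mk (w : Equiv.Perm ι) (c : CC k L δ) :
    G2actI k L δ w (Ideal.Quotient.mk _ c) = Ideal.Quotient.mk _ (G2act k L δ w c) := rfl

/-- the idempotent on `C/(y)` -/
noncomputable def G2eb (e : Equiv.Perm ι → k) :
    (CC k L δ ⧸ G2IY k L δ) →ₗ[AA k L δ] (CC k L δ ⧸ G2IY k L δ) :=
  ∑ w, algebraMap k (AA k L δ) (e w) • (G2actI k L δ w).toLinearMap

theorem G2eb_apply (e : Equiv.Perm ι → k) (z : CC k L δ ⧸ G2IY k L δ) :
    G2eb k L δ e z = ∑ w, algebraMap k (AA k L δ) (e w) • G2actI k L δ w z := by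
  unfold G2eb
  rw [LinearMap.sum_apply]
  refine Finset.sum_congr rfl fun w _ => ?_
  rw [LinearMap.smul_apply, AlgHom.toLinearMap_apply]

theorem G2eb_idem (e : Equiv.Perm ι → k) (he : ∀ g, ∑ h, e h * e (h⁻¹ * g) = e g) :
    G2eb k L δ e ∘ₗ G2eb k L δ e = G2eb k L δ e := by
  unfold G2eb
  refine G2_abs_idem _ e ?_ he
  intro w w' z
  obtain ⟨c, rfl⟩ := Ideal.Quotient.mk_surjective z
  rw [AlgHom.toLinearMap_apply, AlgHom.toLinearMap_apply, AlgHom.toLinearMap_apply,
    G2actI_mk, G2actI_mk, G2actI_mk, G2act_mul]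

end

end Pool.Agent.Lib.MP_463376_co
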