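import Pool.Agent.Lib.MP_463376_co.G2_Core

/-! stream G2: the core argument over a field, conclusion -/

namespace Pool.Agent.Lib.MP_463376_co

open MvPolynomial RingTheory.Sequence TensorProduct

section

variable (k : Type) [Field k] [CharZero k] {ι : Type} [Fintype ι] [DecidableEq ι]
  (L : Type) [Field L] [Algebra k L] [Algebra (RR k ι) L]
  [IsScalarTower k (RR k ι) L] [IsFractionRing (RR k ι) L] (δ : Dia ι)
  {K : Type} [Field K] [Algebra k K] (ψ : CC k L δ →ₐ[k] K)

theorem G2_theta [Algebra (AA k L δ) K]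
    (hAK : ∀ a : AA k L δ, algebraMap (AA k L δ) K a = ψ (G2iAC k L δ a)) {s : ℕ}
    (α : Fin s → K) (hP : ∏ b, (X 0 - C (α b)) ∈ G2I k L δ ψ ⊔ Ideal.span {X 1})
    {E : Type} [CommRing E] [Algebra K E] [Algebra (AA k L δ) E] [IsScalarTower (AA k L δ) K E]
    (g : (CC k L δ ⧸ G2IY k L δ) →ₐ[AA k L δ] E) (i : ι) :
    ∏ b, (g (Ideal.Quotient.mk _ (toC k L δ (xx i))) - algebraMap K E (α b)) = 0 := by
  let θ : CC k L δ →+* E := g.toRingHom.comp (Ideal.Quotient.mk (G2IY k L δ))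
  have hθ1 : ∀ z, θ z = g (Ideal.Quotient.mk (G2IY k L δ) z) := fun _ => rfl
  have hθ : ∀ a : OO k L δ, θ (G2iOC k L δ a)
      = algebraMap K E ((ψ.comp (G2iOC k L δ)) a) := by
    intro a
    have h1 : G2iOC k L δ a = algebraMap (AA k L δ) (CC k L δ) (G2iOA k L δ a) := by
      rw [← G2_iAC_eq]
      rfl
    have h2 : (ψ.comp (G2iOC k L δ)) a = algebraMap (AA k L δ) K (G2iOA k L δ a) := by
      rw [hAK]
      rfl
    rw [h2, ← IsScalarTower.algebraMap_apply (AA k L δ) K, h1]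
    exact g.commutes (G2iOA k L δ a)
  have hkill : G2I k L δ ψ ⊔ Ideal.span {X 1} ≤ RingHom.ker
      (aeval ![θ (toC k L δ (xx i)), θ (toC k L δ (yy i))] : MvPolynomial (Fin 2) K →ₐ[K] E) := by
    apply sup_le
    · intro f hf
      exact G2_ev k L δ (ψ.comp (G2iOC k L δ)) θ hθ i f hf
    · rw [Ideal.span_le, Set.singleton_subset_iff, SetLike.mem_coe, RingHom.mem_ker, aeval_X]
      change θ (toC k L δ (yy i)) = 0
      have hmk0 : Ideal.Quotient.mk (G2IY k L δ) (toC k L δ (yy i)) = 0 := by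
        rw [Ideal.Quotient.eq_zero_iff_mem]
        exact Ideal.subset_span ⟨i, rfl⟩
      rw [hθ1, hmk0, map_zero]
  have h1 := hkill hP
  rw [RingHom.mem_ker, map_prod] at h1
  rw [← h1]
  refine Finset.prod_congr rfl fun b _ => ?_
  rw [map_sub, aeval_X, MvPolynomial.algHom_C]
  rfl

theorem G2_core [Algebra (AA k L δ) K] [IsScalarTower k (AA k L δ) K]
    (hAK : ∀ a : AA k L δ, algebraMap (AA k L δ) K a = ψ (G2iAC k L δ a))
    (q : Ideal (AA k L δ)) [q.IsPrime]
    (hker : ∀ a : AA k L δ, algebraMap (AA k L δ) K a = 0 ↔ a ∈ q)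
    (hy : ∀ i, ψ (toC k L δ (yy i)) = 0)
    (hq : (Fintype.card ι : Cardinal) ≤ Algebra.trdeg k (AA k L δ ⧸ q))
    (e : Equiv.Perm ι → k) (he : ∀ g, ∑ h, e h * e (h⁻¹ * g) = e g)
    (hne : (G2eb k L δ e).lTensor K ≠ 0) :
    ∃ (s : ℕ) (β : ι → Fin s),
      (∑ w : Equiv.Perm ι, e w * ((Finset.univ.filter fun φ : ι → Fin s => φ ∘ w = φ ∧
        ∀ b, (Finset.univ.filter fun i => φ i = b).card
          = (Finset.univ.filter fun i => β i = b).card).card : k) ≠ 0) ∧
      ∀ m, ∑ b, min (Finset.univ.filter fun i => β i = b).card m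
        ≤ (Finset.univ.filter fun i : ι => (δ.c i).2 < m).card := by
  classical
  -- the points
  set S := Set.range fun i : ι => ψ (toC k L δ (xx i)) with hS
  have hSf : Finite S := Set.finite_range _
  set s := Nat.card S with hs
  let ee : S ≃ Fin s := Finite.equivFin S
  let α : Fin s → K := fun b => (ee.symm b : K)
  have hα : Function.Injective α := fun b b' h => ee.symm.injective (Subtype.ext h)
  let β : ι → Fin s := fun i => ee ⟨_, ⟨i, rfl⟩⟩
  have hx : ∀ i, ψ (toC k L δ (xx i)) = α (β i) := by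
    intro i
    change _ = ((ee.symm (ee ⟨_, ⟨i, rfl⟩⟩) : S) : K)
    rw [Equiv.symm_apply_apply]
  have hβ : Function.Surjective β := by
    intro b
    obtain ⟨i, hi⟩ := (ee.symm b).2
    refine ⟨i, ?_⟩
    change ee ⟨_, ⟨i, rfl⟩⟩ = b
    rw [← Equiv.eq_symm_apply]
    exact Subtype.ext hi
  -- the dimension of `K[X,Y]/(I,Y)`
  have hJ : Module.finrank K (MvPolynomial (Fin 2) K ⧸ (G2I k L δ ψ ⊔ Ideal.span {X 1})) ≤ s := by
    have h1 := trdeg_le_points_y0 k L δ (G2psiR k L δ ψ) (fun i => by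
      rw [G2psiR_toOR]; exact hy i)
    rw [G2psiR_comp] at h1
    simp only [G2psiR_toOR] at h1
    have h2 := hq.trans (G2_trdeg k L δ ψ q (fun a => by rw [← hAK]; exact hker a))
    have h3 := (add_le_add_left h2 ((Module.finrank K (MvPolynomial (Fin 2) K ⧸
        (Ipt k L δ (ψ.comp (G2iOC k L δ)) ⊔ Ideal.span {X 1})) : ℕ) : Cardinal)).trans h1
    rw [← Nat.cast_add, Nat.cast_le] at h3
    exact Nat.le_of_add_le_add_left h3
  have hP := G2_prod_mem k L δ ψ hy α β hα hβ hx hJ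
  obtain ⟨c, hc⟩ := G2_exists_form k L δ ψ hy α β hα hβ hx hP
  refine ⟨s, β, ?_, fun m => G2_min_bound k L δ ψ hy α β hα hβ hx c hc m⟩
  have hgood : Good k L δ q 1 c := by
    obtain ⟨u, hu1, hu2⟩ := G2_good k L δ ψ 1 c hc
    refine ⟨G2iOA k L δ u, ?_, ?_⟩
    · rw [← hker, hAK]
      exact hu1
    · rw [G2_coe_iOA]
      exact hu2
  have hmk0 : ∀ i : ι, Ideal.Quotient.mk (G2IY k L δ) (toC k L δ (yy i)) = 0 := by
    intro i
    rw [Ideal.Quotient.eq_zero_iff_mem]
    exact Ideal.subset_span ⟨i, rfl⟩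
  refine G2_ten' (A := AA k L δ) (C := CC k L δ ⧸ G2IY k L δ) (K := K)
    (fun i => Ideal.Quotient.mk _ (toC k L δ (xx i))) (G2actI k L δ) ?_ ?_ α hα ?_ β ?_ e he hne
  · intro w i
    rw [G2actI_mk, G2act_toC]
    have h1 : permR w (xx i : RR k ι) = xx (w i) := by simp [permR, xx]
    rw [h1]
  · intro g
    obtain ⟨g, rfl⟩ := Ideal.Quotient.mk_surjective g
    obtain ⟨u, hu, hug⟩ := good_generates k L δ q 1 c hgood g
    refine ⟨u, fun h0 => hu ((hker u).mp h0), ?_⟩
    let f : CC k L δ →ₐ[AA k L δ] (CC k L δ ⧸ G2IY k L δ) := Ideal.Quotient.mkₐ _ _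
    have h1 : f (u • g) ∈ (Algebra.adjoin (AA k L δ)
        (Set.range fun i : ι => toC k L δ (lf 1 c i))).map f := ⟨_, hug, rfl⟩
    rw [AlgHom.map_adjoin, ← Set.range_comp] at h1
    have h2 : (f ∘ fun i : ι => toC k L δ (lf 1 c i))
        = fun i => Ideal.Quotient.mk _ (toC k L δ (xx i)) := by
      funext i
      have h3 : (lf 1 c i : RR k ι) = xx i + C c * yy i := by simp [lf]
      have h4 : f (toC k L δ (lf 1 c i)) = Ideal.Quotient.mk (G2IY k L δ) (toC k L δ (lf 1 c i)) :=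
        rfl
      rw [Function.comp_apply, h4, h3, map_add, map_add, map_mul, map_mul, hmk0, mul_zero, add_zero]
    rw [h2] at h1
    exact h1
  · intro E _ _ _ _ g i
    exact G2_theta k L δ ψ hAK α hP g i
  · intro r
    refine ⟨G2iOA k L δ (G2co k L δ 1 0 r), ?_, ?_⟩
    · have h1 : (∏ i : ι, (Polynomial.X - Polynomial.C (Ideal.Quotient.mk (G2IY k L δ)
          (toC k L δ (xx i)))) : Polynomial (CC k L δ ⧸ G2IY k L δ))
          = (G2Phi k 1 0 : Polynomial (RR k ι)).map
            ((Ideal.Quotient.mk (G2IY k L δ)).comp (toC k L δ).toRingHom) := by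
        unfold G2Phi
        rw [Polynomial.map_prod]
        refine Finset.prod_congr rfl fun i _ => ?_
        rw [Polynomial.map_sub, Polynomial.map_X, Polynomial.map_C]
        have h3 : (lf 1 0 i : RR k ι) = xx i := by simp [lf]
        rw [h3]
        rfl
      rw [h1, Polynomial.coeff_map]
      have h2 : toC k L δ ((G2Phi k 1 0).coeff r)
          = algebraMap (AA k L δ) (CC k L δ) (G2iOA k L δ (G2co k L δ 1 0 r)) := by
        rw [← G2_toC_co, ← G2_iAC_eq]
        rfl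
      have h4 : ((Ideal.Quotient.mk (G2IY k L δ)).comp (toC k L δ).toRingHom)
          ((G2Phi k 1 0 : Polynomial (RR k ι)).coeff r)
          = Ideal.Quotient.mk (G2IY k L δ) (toC k L δ ((G2Phi k 1 0).coeff r)) := rfl
      rw [h4, h2]
      rfl
    · have h1 : (∏ i : ι, (Polynomial.X - Polynomial.C (α (β i))) : Polynomial K)
          = (G2Phi k 1 0 : Polynomial (RR k ι)).map (ψ.comp (toC k L δ)).toRingHom := by
        unfold G2Phi
        rw [Polynomial.map_prod]
        refine Finset.prod_congr rfl fun i _ => ?_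
        rw [Polynomial.map_sub, Polynomial.map_X, Polynomial.map_C]
        have h3 : (lf 1 0 i : RR k ι) = xx i := by simp [lf]
        rw [h3, ← hx]
        rfl
      rw [h1, Polynomial.coeff_map, hAK]
      have h4 : (ψ.comp (toC k L δ)).toRingHom ((G2Phi k 1 0 : Polynomial (RR k ι)).coeff r)
          = ψ (toC k L δ ((G2Phi k 1 0).coeff r)) := rfl
      rw [h4, ← G2_toC_co]
      rfl

end

end Pool.Agent.Lib.MP_463376_co
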