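import Pool.Agent.Lib.MP_463376_co.G2_Fin

namespace Pool.Agent.Lib.MP_463376_co

open MvPolynomial

theorem G2_exists_K {k C : Type} [Field k] [CommRing C] [Algebra k C] (Q : Ideal C) [Q.IsPrime] :
    ∃ (K : Type) (_ : Field K) (_ : Algebra k K) (ψ : C →ₐ[k] K), ∀ c, ψ c = 0 ↔ c ∈ Q := by
  refine ⟨FractionRing (C ⧸ Q), inferInstance, inferInstance,
    (IsScalarTower.toAlgHom k (C ⧸ Q) (FractionRing (C ⧸ Q))).comp (Ideal.Quotient.mkₐ k Q), ?_⟩
  intro c
  rw [AlgHom.comp_apply, IsScalarTower.toAlgHom_apply, Ideal.Quotient.mkₐ_eq_mk,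
    IsFractionRing.to_map_eq_zero_iff, Ideal.Quotient.eq_zero_iff_mem]

theorem G2_ann_le {A C : Type} [CommRing A] [CommRing C] [Algebra A C] (I : Ideal C) (q : Ideal A)
    (h : Module.annihilator A (C ⧸ I) ≤ q) : I.comap (algebraMap A C) ≤ q := by
  intro a ha
  apply h
  rw [Module.mem_annihilator]
  intro z
  obtain ⟨g, rfl⟩ := Ideal.Quotient.mk_surjective z
  rw [G2_smul_mk, Ideal.Quotient.eq_zero_iff_mem]
  exact Ideal.mul_mem_right _ _ ha

theorem G2_fin_quot {A C : Type} [CommRing A] [CommRing C] [Algebra A C] [Module.Finite A C]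
    (I : Ideal C) : Module.Finite A (C ⧸ I) :=
  Module.Finite.of_surjective (Ideal.Quotient.mkₐ A I).toLinearMap
      Ideal.Quotient.mk_surjective

section

variable (k : Type) [Field k] [CharZero k] {ι : Type} [Fintype ι] [DecidableEq ι]
  (L : Type) [Field L] [Algebra k L] [Algebra (RR k ι) L]
  [IsScalarTower k (RR k ι) L] [IsFractionRing (RR k ι) L] (δ : Dia ι)

omit [CharZero k] [IsFractionRing (RR k ι) L] in
theorem G2_algMap (r : k) : algebraMap (AA k L δ) (CC k L δ) (algebraMap k (AA k L δ) r)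
    = algebraMap k (CC k L δ) r := by
  apply Subtype.ext
  rw [coe_algebraMap_AACC, Subalgebra.coe_algebraMap, Subalgebra.coe_algebraMap]

theorem G2_eb_mk (e : Equiv.Perm ι → k) (c : CC k L δ) :
    G2eb k L δ e (Ideal.Quotient.mk _ c) = Ideal.Quotient.mk (G2IY k L δ)
      (∑ w, algebraMap k (CC k L δ) (e w) * G2act k L δ w c) := by
  rw [G2eb_apply, map_sum]
  refine Finset.sum_congr rfl fun w _ => ?_
  rw [G2actI_mk, G2_smul_mk, G2_algMap]

theorem G2_coe_sum (e : Equiv.Perm ι → k) (c : CC k L δ) :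
    ((∑ w, algebraMap k (CC k L δ) (e w) * G2act k L δ w c : CC k L δ) : L)
      = ∑ w : Equiv.Perm ι, algebraMap k L (e w) * permL (k := k) w (c : L) := by
  rw [AddSubmonoidClass.coe_finsetSum]
  refine Finset.sum_congr rfl fun w _ => ?_
  rw [MulMemClass.coe_mul, Subalgebra.coe_algebraMap, G2act_coe]

theorem G2eb_ne (e : Equiv.Perm ι → k) (c : CC k L δ)
    (hcon : ∀ c' ∈ G2IY k L δ, (c' : L) ≠ ∑ w : Equiv.Perm ι, algebraMap k L (e w) *
      permL (k := k) w (c : L)) : G2eb k L δ e ≠ 0 := by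
  intro h0
  have h1 := LinearMap.congr_fun h0 (Ideal.Quotient.mk _ c)
  rw [G2_eb_mk, LinearMap.zero_apply, Ideal.Quotient.eq_zero_iff_mem] at h1
  exact hcon _ h1 (G2_coe_sum k L δ e c)

end

end Pool.Agent.Lib.MP_463376_co
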