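import Mathlib

/-! stream G2: traces of idempotents on permutation modules -/

namespace Pool.Agent.Lib.MP_463376_co

open Polynomial

section
variable {K : Type} [Field K] [CharZero K]

theorem G2_idem {S : Type} [Fintype S] [DecidableEq S] {Γ : Type} [Group Γ] [Fintype Γ]
    (T : Γ → S → S) (hT : ∀ w w' φ, T w' (T w φ) = T (w * w') φ)
    (a : Γ → K) (ha : ∀ g, ∑ h, a h * a (h⁻¹ * g) = a g)
    (htr : ∑ w, a w * ((Finset.univ.filter fun φ => T w φ = φ).card : K) = 0)
    (c : S → K) (φ : S) : ∑ w, a w * c (T w φ) = 0 := by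
  let f : (S → K) →ₗ[K] (S → K) :=
    { toFun := fun c φ => ∑ w, a w * c (T w φ)
      map_add' := by
        intro c c'
        funext φ
        simp only [Pi.add_apply, mul_add, Finset.sum_add_distrib]
      map_smul' := by
        intro r c
        funext φ
        simp only [Pi.smul_apply, smul_eq_mul, RingHom.id_apply, Finset.mul_sum]
        refine Finset.sum_congr rfl fun w _ => ?_
        ring }
  have hf : ∀ c φ, f c φ = ∑ w, a w * c (T w φ) := fun _ _ => rfl
  have hidem : IsIdempotentElem f := by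
    apply LinearMap.ext
    intro c
    funext φ
    rw [Module.End.mul_apply, hf, hf]
    simp only [hf, hT, Finset.mul_sum]
    have h1 : ∀ w, ∑ w', a w * (a w' * c (T (w * w') φ))
        = ∑ g, a w * a (w⁻¹ * g) * c (T g φ) := by
      intro w
      refine Fintype.sum_equiv (Equiv.mulLeft w) _ _ fun w' => ?_
      simp [mul_assoc]
    simp only [h1]
    rw [Finset.sum_comm]
    refine Finset.sum_congr rfl fun g _ => ?_
    rw [← Finset.sum_mul, ha]
  have htrace : LinearMap.trace K _ f = 0 := by
    rw [LinearMap.trace_eq_matrix_trace K (Pi.basisFun K S), LinearMap.toMatrix_eq_toMatrix',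
      Matrix.trace, ← htr]
    have h1 : ∀ φ : S, (LinearMap.toMatrix' f).diag φ = ∑ w, a w * (if T w φ = φ then 1 else 0) := by
      intro φ
      rw [Matrix.diag_apply, LinearMap.toMatrix'_apply, hf]
      refine Finset.sum_congr rfl fun w _ => ?_
      congr 1
      rw [Pi.single_apply]
    simp only [h1]
    rw [Finset.sum_comm]
    refine Finset.sum_congr rfl fun w _ => ?_
    rw [← Finset.mul_sum, Finset.sum_boole]
  have h0 : f = 0 := LinearMap.IsIdempotentElem.eq_zero_of_trace_eq_zero hidem htrace
  rw [← hf, h0]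
  rfl

end

section
variable {K E : Type} [Field K] [CommRing E] [Algebra K E]
  {ι : Type} [Fintype ι] [DecidableEq ι] {s : ℕ}

/-- the idempotent of a function -/
noncomputable def G2eps (α : Fin s → K) (x : ι → E) (φ : ι → Fin s) : E :=
  ∏ i, aeval (x i) (Lagrange.basis Finset.univ α (φ i))

variable (α : Fin s → K) (hα : Function.Injective α) (x : ι → E)

include hα in
theorem G2eps_sum (β : ι → Fin s) : ∑ φ, G2eps α x φ = 1 := by
  unfold G2eps
  have h1 := Finset.prod_univ_sum (ι := ι) (κ := fun _ => Fin s)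
    (t := fun _ : ι => (Finset.univ : Finset (Fin s)))
    (f := fun i b => aeval (x i) (Lagrange.basis Finset.univ α b))
  rw [Fintype.piFinset_univ] at h1
  rw [← h1]
  apply Finset.prod_eq_one
  intro i _
  rw [← map_sum, Lagrange.sum_basis hα.injOn ⟨β i, Finset.mem_univ _⟩, map_one]

theorem G2_basis_mul (b : Fin s) : (X - C (α b)) * Lagrange.basis Finset.univ α b
    = C (Lagrange.nodalWeight Finset.univ α b) * ∏ b, (X - C (α b)) := by
  rw [Lagrange.basis_eq_prod_sub_inv_mul_nodal_div (Finset.mem_univ b),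
    ← Lagrange.nodal_erase_eq_nodal_div (Finset.mem_univ b), ← Lagrange.nodal_eq,
    Lagrange.nodal_eq_mul_nodal_erase (Finset.mem_univ b)]
  ring

theorem G2eps_mul (hP : ∀ i, ∏ b, (x i - algebraMap K E (α b)) = 0) (φ : ι → Fin s) (i : ι) :
    x i * G2eps α x φ = α (φ i) • G2eps α x φ := by
  unfold G2eps
  rw [← Finset.mul_prod_erase _ _ (Finset.mem_univ i), ← mul_assoc, Algebra.smul_def, ← mul_assoc]
  congr 1
  have h1 := congrArg (aeval (x i)) (G2_basis_mul α (φ i))
  rw [map_mul, map_mul, map_prod] at h1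
  simp only [map_sub, aeval_X, aeval_C] at h1
  rw [hP i, mul_zero] at h1
  linear_combination h1

include hα in
theorem G2eps_zero (hP : ∀ i, ∏ b, (x i - algebraMap K E (α b)) = 0) (β : ι → Fin s)
    (hF : ∏ i, (X - C (x i)) = ∏ i, (X - C (algebraMap K E (α (β i))))) (φ : ι → Fin s)
    (h0 : G2eps α x φ ≠ 0) (b : Fin s) :
    (Finset.univ.filter fun i => φ i = b).card = (Finset.univ.filter fun i => β i = b).card := by
  classical
  set ε := G2eps α x φ with hε
  have h1 : ∀ S : Finset ι, (∏ i ∈ S, (X - C (x i))) * C ε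
      = (∏ i ∈ S, (X - C (algebraMap K E (α (φ i))))) * C ε := by
    intro S
    induction S using Finset.induction_on with
    | empty => simp
    | insert i S hi ih =>
      rw [Finset.prod_insert hi, Finset.prod_insert hi, mul_assoc, ih]
      have h2 : (X - C (x i)) * C ε = (X - C (algebraMap K E (α (φ i)))) * C ε := by
        rw [sub_mul, sub_mul, ← C_mul, ← C_mul, hε, G2eps_mul α x hP, Algebra.smul_def]
      calc (X - C (x i)) * ((∏ i ∈ S, (X - C (algebraMap K E (α (φ i))))) * C ε)
          = (∏ i ∈ S, (X - C (algebraMap K E (α (φ i))))) * ((X - C (x i)) * C ε) := by ring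
        _ = _ := by rw [h2]; ring
  have h2 := h1 Finset.univ
  rw [hF] at h2
  have h3 : ∀ g : ι → Fin s, ∏ i, (X - C (algebraMap K E (α (g i))))
      = (∏ i, (X - C (α (g i)))).map (algebraMap K E) := by
    intro g
    rw [Polynomial.map_prod]
    refine Finset.prod_congr rfl fun i _ => ?_
    simp
  rw [h3, h3] at h2
  have h4 : ∏ i, (X - C (α (β i))) = ∏ i, (X - C (α (φ i))) := by
    ext r
    have h5 := congrArg (fun p => p.coeff r) h2
    simp only [coeff_mul_C, coeff_map] at h5
    rw [← sub_eq_zero, ← sub_mul, ← map_sub, ← Algebra.smul_def] at h5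
    by_contra hne
    have hne := sub_ne_zero.mpr hne
    apply h0
    have h6 := congrArg (fun z => (((∏ i, (X - C (α (β i)))).coeff r
      - (∏ i, (X - C (α (φ i)))).coeff r))⁻¹ • z) h5
    simp only [smul_zero] at h6
    rw [smul_smul, inv_mul_cancel₀ hne, one_smul] at h6
    exact h6
  have h5 := congrArg (fun p => p.roots.count (α b)) h4
  have h6 : ∀ g : ι → Fin s, (∏ i, (X - C (α (g i)))).roots.count (α b)
      = (Finset.univ.filter fun i => g i = b).card := by
    intro g
    have h7 : (∏ i, (X - C (α (g i)))) = (Multiset.map (fun a => X - C a)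
        (Multiset.map (fun i => α (g i)) Finset.univ.val)).prod := by
      rw [Multiset.map_map]
      rfl
    rw [h7, roots_multiset_prod_X_sub_C, Multiset.count_map, Finset.card_def, Finset.filter_val]
    congr 1
    apply Multiset.filter_congr
    intro i _
    constructor
    · intro h; exact (hα h).symm
    · intro h; rw [h]
  simp only [h6] at h5
  exact h5.symm

end

section
variable {k K E : Type} [Field k] [CharZero k] [Field K] [Algebra k K] [CommRing E] [Algebra K E]
  {ι : Type} [Fintype ι] [DecidableEq ι] {s : ℕ}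

theorem G2_perm_trace (x : ι → E) (act : Equiv.Perm ι → E →ₐ[K] E)
    (hact : ∀ w i, act w (x i) = x (w i)) (hgen : Algebra.adjoin K (Set.range x) = ⊤)
    (α : Fin s → K) (hα : Function.Injective α)
    (hP : ∀ i, ∏ b, (x i - algebraMap K E (α b)) = 0) (β : ι → Fin s)
    (hF : ∏ i, (X - C (x i)) = ∏ i, (X - C (algebraMap K E (α (β i)))))
    (e : Equiv.Perm ι → k) (he : ∀ g, ∑ h, e h * e (h⁻¹ * g) = e g)
    (v : E) (hv : ∑ w, algebraMap k K (e w) • act w v ≠ 0) :
    ∑ w : Equiv.Perm ι, e w * ((Finset.univ.filter fun φ : ι → Fin s => φ ∘ w = φ ∧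
        ∀ b, (Finset.univ.filter fun i => φ i = b).card
          = (Finset.univ.filter fun i => β i = b).card).card : k) ≠ 0 := by
  classical
  intro htr
  have hK : CharZero K := charZero_of_injective_algebraMap (algebraMap k K).injective
  apply hv
  set pr : (ι → Fin s) → Prop := fun φ => ∀ b, (Finset.univ.filter fun i => φ i = b).card
          = (Finset.univ.filter fun i => β i = b).card with hpr
  -- the coefficients of `v`
  have hc : ∀ u ∈ Algebra.adjoin K (Set.range x), ∀ φ, ∃ c : K, u * G2eps α x φ = c • G2eps α x φ := by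
    intro u hu φ
    induction hu using Algebra.adjoin_induction with
    | mem z hz =>
      obtain ⟨i, rfl⟩ := hz
      exact ⟨_, G2eps_mul α x hP φ i⟩
    | algebraMap r => exact ⟨r, by rw [Algebra.smul_def]⟩
    | add a b _ _ ha hb =>
      obtain ⟨c, hc⟩ := ha
      obtain ⟨d, hd⟩ := hb
      exact ⟨c + d, by rw [add_mul, hc, hd, add_smul]⟩
    | mul a b _ _ ha hb =>
      obtain ⟨c, hc⟩ := ha
      obtain ⟨d, hd⟩ := hb
      exact ⟨c * d, by rw [mul_assoc, hd, mul_smul_comm, hc, smul_smul, mul_comm d c]⟩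
  choose c hc' using fun φ => hc v (by rw [hgen]; trivial) φ
  have hv1 : v = ∑ φ, c φ • G2eps α x φ := by
    calc v = v * ∑ φ, G2eps α x φ := by rw [G2eps_sum α hα x β, mul_one]
      _ = _ := by
        rw [Finset.mul_sum]
        exact Finset.sum_congr rfl fun φ _ => hc' φ
  have hae : ∀ w φ, act w (G2eps α x φ) = G2eps α x (φ ∘ (w⁻¹ : Equiv.Perm ι)) := by
    intro w φ
    unfold G2eps
    rw [map_prod]
    refine Fintype.prod_equiv w _ _ fun i => ?_
    rw [← Polynomial.aeval_algHom_apply, hact]
    simp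
  have hzero : ∀ φ, ¬ pr φ → G2eps α x φ = 0 := by
    intro φ hφ
    by_contra h0
    exact hφ fun b => G2eps_zero α hα x hP β hF φ h0 b
  have hprw : ∀ (w : Equiv.Perm ι) φ, pr φ → pr (φ ∘ w) := by
    intro w φ hφ b
    rw [← hφ b]
    apply Finset.card_bij (fun i _ => w i)
    · intro i hi
      simpa using hi
    · intro i _ j _ h
      exact w.injective h
    · intro j hj
      refine ⟨w⁻¹ j, ?_, by simp⟩
      simpa using hj
  -- the action on the subtype
  let T : Equiv.Perm ι → {φ // pr φ} → {φ // pr φ} := fun w φ => ⟨φ.1 ∘ w, hprw w _ φ.2⟩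
  have hT : ∀ w w' φ, T w' (T w φ) = T (w * w') φ := by
    intro w w' φ
    rfl
  have ha : ∀ g, ∑ h, algebraMap k K (e h) * algebraMap k K (e (h⁻¹ * g)) = algebraMap k K (e g) := by
    intro g
    rw [← he g, map_sum]
    exact Finset.sum_congr rfl fun h _ => (map_mul _ _ _).symm
  have htr' : ∑ w, algebraMap k K (e w) * ((Finset.univ.filter fun φ => T w φ = φ).card : K) = 0 := by
    have h1 := congrArg (algebraMap k K) htr
    rw [map_sum, map_zero] at h1
    rw [← h1]
    refine Finset.sum_congr rfl fun w _ => ?_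
    rw [map_mul, map_natCast]
    congr 2
    apply Finset.card_bij (fun φ _ => φ.1)
    · intro φ hφ
      simp only [Finset.mem_filter, Finset.mem_univ, true_and] at hφ ⊢
      exact ⟨congrArg Subtype.val hφ, φ.2⟩
    · intro φ _ φ' _ h
      exact Subtype.ext h
    · intro φ hφ
      simp only [Finset.mem_filter, Finset.mem_univ, true_and] at hφ
      refine ⟨⟨φ, hφ.2⟩, ?_, rfl⟩
      simp only [Finset.mem_filter, Finset.mem_univ, true_and]
      exact Subtype.ext hφ.1
  have hmain : ∀ φ : {φ // pr φ}, ∑ w, algebraMap k K (e w) * c (T w φ).1 = 0 := fun φ =>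
    G2_idem T hT (fun w => algebraMap k K (e w)) ha htr' (fun φ => c φ.1) φ
  have h1 : ∀ w, act w v = ∑ φ, c (φ ∘ w) • G2eps α x φ := by
    intro w
    rw [hv1, map_sum]
    refine Fintype.sum_equiv (Equiv.arrowCongr w (Equiv.refl (Fin s))) _ _ fun φ => ?_
    rw [map_smul, hae]
    have h2 : (Equiv.arrowCongr w (Equiv.refl (Fin s))) φ = φ ∘ (w⁻¹ : Equiv.Perm ι) := by
      funext i
      simp [Equiv.arrowCongr]
    rw [h2]
    have h3 : (φ ∘ (w⁻¹ : Equiv.Perm ι)) ∘ w = φ := by
      funext i
      simp
    rw [h3]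
  calc ∑ w, algebraMap k K (e w) • act w v
      = ∑ w, ∑ φ, (algebraMap k K (e w) * c (φ ∘ w)) • G2eps α x φ := by
        refine Finset.sum_congr rfl fun w _ => ?_
        rw [h1, Finset.smul_sum]
        refine Finset.sum_congr rfl fun φ _ => ?_
        rw [smul_smul]
    _ = ∑ φ, (∑ w, algebraMap k K (e w) * c (φ ∘ w)) • G2eps α x φ := by
        rw [Finset.sum_comm]
        refine Finset.sum_congr rfl fun φ _ => ?_
        rw [Finset.sum_smul]
    _ = 0 := by
        apply Finset.sum_eq_zero
        intro φ _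
        by_cases hφ : pr φ
        · have := hmain ⟨φ, hφ⟩
          have h2 : ∑ w, algebraMap k K (e w) * c (φ ∘ w) = 0 := this
          rw [h2, zero_smul]
        · rw [hzero φ hφ, smul_zero]

end

end Pool.Agent.Lib.MP_463376_co
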