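import Pool.Agent.Lib.MP_463376_co.G3_Tor

/-!
# Stream G3, job Bi: the ideals `J^(d)` are bihomogeneous

`Jd_decomp`: the ideal `pI i j` is generated by the linear forms `x_i - x_j` and `y_i - y_j`, so it is
homogeneous for the grading of `RR k ι` by `ℕ × ℕ` (Mathlib: `MvPolynomial.weightedGradedAlgebra` with the
weight `Sum.elim (fun _ => (1,0)) (fun _ => (0,1))`, `Ideal.homogeneous_span`, `Ideal.IsHomogeneous.mul`,
`Ideal.IsHomogeneous.iInf`), and so are its powers and their intersection.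
`dl_mem_Jd`: modulo `pI i j` the rows `i` and `j` of the matrix are equal.
-/

namespace Pool.Agent.Lib.MP_463376_co

open MvPolynomial

section
variable {k : Type} [Field k] {ι : Type}

private theorem mem_Jd_iff {d : ℕ} {f : RR k ι} :
    f ∈ Jd k ι d ↔ ∀ i j : ι, i ≠ j → f ∈ (pI (k := k) i j) ^ d := by
  simp only [Jd, Ideal.mem_iInf]

theorem Jd_mul {a b : ℕ} {f g : RR k ι} (hf : f ∈ Jd k ι a) (hg : g ∈ Jd k ι b) :
    f * g ∈ Jd k ι (a + b) := by
  rw [mem_Jd_iff] at hf hg ⊢
  intro i j hij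
  rw [pow_add]
  exact Ideal.mul_mem_mul (hf i j hij) (hg i j hij)

/-- the weight of the bigrading -/
private def bw (ι : Type) : ι ⊕ ι → ℕ × ℕ := Sum.elim (fun _ => (1, 0)) (fun _ => (0, 1))

private theorem weight_bw (m : ι ⊕ ι →₀ ℕ) : Finsupp.weight (bw ι) m = (dgx m, dgy m) := by
  rw [Finsupp.weight_apply]
  refine Prod.ext ?_ ?_
  · rw [Finsupp.sum, Prod.fst_sum]
    simp only [dgx, Finsupp.sum]
    refine Finset.sum_congr rfl fun v _ => ?_
    rcases v with v | v <;> simp [bw]
  · rw [Finsupp.sum, Prod.snd_sum]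
    simp only [dgy, Finsupp.sum]
    refine Finset.sum_congr rfl fun v _ => ?_
    rcases v with v | v <;> simp [bw]

attribute [local instance] MvPolynomial.weightedGradedAlgebra

private theorem pI_hom (i j : ι) :
    (pI (k := k) i j).IsHomogeneous (weightedHomogeneousSubmodule k (bw ι)) := by
  refine Ideal.homogeneous_span _ _ ?_
  intro x hx
  rcases hx with rfl | hx
  · refine ⟨(1, 0), ?_⟩
    rw [mem_weightedHomogeneousSubmodule]
    exact (weightedHomogeneousSubmodule k (bw ι) (1, 0)).sub_mem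
      (isWeightedHomogeneous_X k (bw ι) (Sum.inl i)) (isWeightedHomogeneous_X k (bw ι) (Sum.inl j))
  · rw [Set.mem_singleton_iff] at hx
    subst hx
    refine ⟨(0, 1), ?_⟩
    rw [mem_weightedHomogeneousSubmodule]
    exact (weightedHomogeneousSubmodule k (bw ι) (0, 1)).sub_mem
      (isWeightedHomogeneous_X k (bw ι) (Sum.inr i)) (isWeightedHomogeneous_X k (bw ι) (Sum.inr j))

private theorem pow_hom (I : Ideal (RR k ι))
    (h : I.IsHomogeneous (weightedHomogeneousSubmodule k (bw ι))) (d : ℕ) :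
    (I ^ d).IsHomogeneous (weightedHomogeneousSubmodule k (bw ι)) := by
  induction d with
  | zero => rw [pow_zero, Ideal.one_eq_top]; exact Ideal.IsHomogeneous.top _
  | succ d ih => rw [pow_succ]; exact ih.mul h

private theorem Jd_hom (d : ℕ) :
    (Jd k ι d).IsHomogeneous (weightedHomogeneousSubmodule k (bw ι)) := by
  unfold Jd
  exact Ideal.IsHomogeneous.iInf fun i => Ideal.IsHomogeneous.iInf fun j =>
    Ideal.IsHomogeneous.iInf fun _ => pow_hom _ (pI_hom i j) d

/-- bihomogeneous components of elements of `J^(d)` -/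
theorem Jd_decomp (d : ℕ) (f : RR k ι) (hf : f ∈ Jd k ι d) :
    ∃ (s : Finset (ℕ × ℕ)) (c : ℕ × ℕ → RR k ι),
      (∀ p, c p ∈ Jd k ι d ∧ IsBi (c p) p.1 p.2) ∧ f = ∑ p ∈ s, c p := by
  classical
  refine ⟨f.support.image (Finsupp.weight (bw ι)),
    fun p => weightedHomogeneousComponent (bw ι) p f, ?_, ?_⟩
  · intro p
    refine ⟨weightedHomogeneousComponent_mem_of_mem k (bw ι) (Jd_hom d) hf p, ?_⟩
    intro m hm
    have h1 := weightedHomogeneousComponent_isWeightedHomogeneous (w := bw ι) p f hm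
    rw [weight_bw] at h1
    rw [← h1]
    exact ⟨rfl, rfl⟩
  · ext m
    rw [coeff_sum]
    by_cases hm : coeff m f = 0
    · rw [hm, Finset.sum_eq_zero]
      intro p _
      rw [coeff_weightedHomogeneousComponent]
      split_ifs
      · exact hm
      · rfl
    · rw [Finset.sum_eq_single (Finsupp.weight (bw ι) m)]
      · rw [coeff_weightedHomogeneousComponent, if_pos rfl]
      · intro p _ hp
        rw [coeff_weightedHomogeneousComponent, if_neg (Ne.symm hp)]
      · intro h
        exact absurd (Finset.mem_image_of_mem _ (mem_support_iff.mpr hm)) h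

private theorem map_Jd (e : RR k ι →ₐ[k] RR k ι) (s t : k)
    (h1 : ∀ i, e (xx i) = C s * xx i) (h2 : ∀ i, e (yy i) = C t * yy i) (d : ℕ) (f : RR k ι)
    (hf : f ∈ Jd k ι d) : e f ∈ Jd k ι d := by
  rw [mem_Jd_iff] at hf ⊢
  intro i j hij
  have h3 : (pI (k := k) i j).map (e : RR k ι →+* RR k ι) ≤ pI i j := by
    unfold pI
    rw [Ideal.map_span, Ideal.span_le]
    rintro _ ⟨x, hx, rfl⟩
    rcases hx with rfl | hx
    · have h4 : e (xx i - xx j) = C s * (xx i - xx j) := by
        rw [map_sub, h1, h1]; ring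
      change e (xx i - xx j) ∈ _
      rw [h4]
      exact Ideal.mul_mem_left _ _ (Ideal.subset_span (Or.inl rfl))
    · rw [Set.mem_singleton_iff] at hx
      subst hx
      have h4 : e (yy i - yy j) = C t * (yy i - yy j) := by
        rw [map_sub, h2, h2]; ring
      change e (yy i - yy j) ∈ _
      rw [h4]
      exact Ideal.mul_mem_left _ _ (Ideal.subset_span (Or.inr rfl))
  have h5 := Ideal.mem_map_of_mem (e : RR k ι →+* RR k ι) (hf i j hij)
  rw [Ideal.map_pow] at h5
  exact Ideal.pow_right_mono h3 d h5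

theorem tau_Jd [CharZero k] (d : ℕ) (f : RR k ι) (hf : f ∈ Jd k ι d) :
    tau k ι f ∈ Jd k ι d := by
  rw [tau_apply]
  exact map_Jd (tor 2 3) 2 3 (fun i => by simp [tor, xx]) (fun i => by simp [tor, yy]) d f hf

theorem tau_symm_Jd [CharZero k] (d : ℕ) (f : RR k ι) (hf : f ∈ Jd k ι d) :
    (tau k ι).symm f ∈ Jd k ι d := by
  rw [tau_symm_apply]
  exact map_Jd (tor 2⁻¹ 3⁻¹) 2⁻¹ 3⁻¹ (fun i => by simp [tor, xx]) (fun i => by simp [tor, yy])
    d f hf

private theorem isBi_zero (a b : ℤ) : IsBi (0 : RR k ι) a b := by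
  intro m hm
  exact absurd (coeff_zero m) hm

private theorem isBi_one : IsBi (1 : RR k ι) 0 0 := by
  classical
  intro m hm
  rw [coeff_one] at hm
  by_cases h : 0 = m
  · subst h
    simp [dgx, dgy]
  · rw [if_neg h] at hm
    exact absurd rfl hm

private theorem isBi_xx (i : ι) : IsBi (xx (k := k) i) 1 0 := by
  classical
  intro m hm
  unfold xx at hm
  rw [coeff_X] at hm
  by_cases h : Finsupp.single (Sum.inl i) 1 = m
  · subst h
    simp [dgx, dgy]
  · rw [if_neg h] at hm
    exact absurd rfl hm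

private theorem isBi_yy (i : ι) : IsBi (yy (k := k) i) 0 1 := by
  classical
  intro m hm
  unfold yy at hm
  rw [coeff_X] at hm
  by_cases h : Finsupp.single (Sum.inr i) 1 = m
  · subst h
    simp [dgx, dgy]
  · rw [if_neg h] at hm
    exact absurd rfl hm

private theorem isBi_pow {f : RR k ι} {a b : ℤ} (hf : IsBi f a b) (n : ℕ) :
    IsBi (f ^ n) (n * a) (n * b) := by
  induction n with
  | zero => simpa using isBi_one
  | succ n ih =>
    rw [pow_succ]
    have := ih.mul hf
    have e1 : ((n + 1 : ℕ) : ℤ) * a = n * a + a := by push_cast; ring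
    have e2 : ((n + 1 : ℕ) : ℤ) * b = n * b + b := by push_cast; ring
    rw [e1, e2]
    exact this

private theorem isBi_prod {κ : Type} (s : Finset κ) (f : κ → RR k ι) (a b : κ → ℤ)
    (hf : ∀ i, IsBi (f i) (a i) (b i)) : IsBi (∏ i ∈ s, f i) (∑ i ∈ s, a i) (∑ i ∈ s, b i) := by
  classical
  induction s using Finset.induction_on with
  | empty => simpa using isBi_one
  | insert i s hi ih =>
    rw [Finset.prod_insert hi, Finset.sum_insert hi, Finset.sum_insert hi]
    exact (hf i).mul ih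

private theorem isBi_sum {κ : Type} (s : Finset κ) (f : κ → RR k ι) (a b : ℤ)
    (hf : ∀ i, IsBi (f i) a b) : IsBi (∑ i ∈ s, f i) a b := by
  classical
  induction s using Finset.induction_on with
  | empty => simpa using isBi_zero a b
  | insert i s hi ih =>
    rw [Finset.sum_insert hi]
    exact (hf i).add ih

variable [Fintype ι] [DecidableEq ι]

theorem alt_isBi (D : ι → ℕ × ℕ) :
    IsBi (alt k D) (∑ i, ((D i).1 : ℤ)) (∑ i, ((D i).2 : ℤ)) := by
  unfold alt
  rw [Matrix.det_apply]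
  refine isBi_sum _ _ _ _ fun σ => ?_
  have h1 : IsBi (∏ i, xx (k := k) (σ i) ^ (D i).1 * yy (σ i) ^ (D i).2)
      (∑ i, ((D i).1 : ℤ)) (∑ i, ((D i).2 : ℤ)) := by
    refine isBi_prod _ _ _ _ fun i => ?_
    have h2 := (isBi_pow (isBi_xx (k := k) (σ i)) (D i).1).mul
      (isBi_pow (isBi_yy (k := k) (σ i)) (D i).2)
    simpa using h2
  simp only [Matrix.of_apply]
  rcases Int.units_eq_one_or (Equiv.Perm.sign σ) with h | h
  · rw [h, one_smul]
    exact h1
  · rw [h]
    have h3 := h1.smul (-1 : k)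
    have h4 : ((-1 : ℤˣ) • ∏ i, xx (k := k) (σ i) ^ (D i).1 * yy (σ i) ^ (D i).2) =
        (-1 : k) • ∏ i, xx (k := k) (σ i) ^ (D i).1 * yy (σ i) ^ (D i).2 := by
      rw [neg_smul, one_smul, Units.neg_smul, one_smul]
    rw [h4]
    exact h3

theorem g3_alt_mem_Jd (D : ι → ℕ × ℕ) : alt k D ∈ Jd k ι 1 := by
  rw [mem_Jd_iff]
  intro i j hij
  rw [pow_one, ← Ideal.Quotient.eq_zero_iff_mem]
  unfold alt
  rw [RingHom.map_det]
  refine Matrix.det_zero_of_row_eq hij ?_
  funext l
  have h1 : Ideal.Quotient.mk (pI (k := k) i j) (xx i) = Ideal.Quotient.mk (pI i j) (xx j) := by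
    rw [Ideal.Quotient.mk_eq_mk_iff_sub_mem]
    exact Ideal.subset_span (Or.inl rfl)
  have h2 : Ideal.Quotient.mk (pI (k := k) i j) (yy i) = Ideal.Quotient.mk (pI i j) (yy j) := by
    rw [Ideal.Quotient.mk_eq_mk_iff_sub_mem]
    exact Ideal.subset_span (Or.inr rfl)
  simp only [RingHom.mapMatrix_apply, Matrix.map_apply, Matrix.of_apply, map_mul, map_pow, h1, h2]

theorem dl_pow_mem_Jd (δ : Dia ι) (d : ℕ) : dl k δ ^ d ∈ Jd k ι d := by
  induction d with
  | zero =>
    rw [mem_Jd_iff]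
    intro i j _
    rw [pow_zero, pow_zero, Ideal.one_eq_top]
    exact Submodule.mem_top
  | succ d ih =>
    rw [pow_succ]
    exact Jd_mul ih (g3_alt_mem_Jd δ.c)

end

end Pool.Agent.Lib.MP_463376_co
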