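import Pool.Agent.Lib.MP_463376_co.G3_Inj

/-!
# Stream G3, job Int: integrality of the values, homogeneous elements have polynomial values

`evC_int`: `c` is integral over `A` (`CC_finite`), the values of the coefficients are fractions with denominators
with nonzero constant term (`EA_frac`); multiply by the product `s` of the denominators (or use
`IsIntegral.map_of_comp_eq` and `IsIntegral.exists_multiple_integral_of_isLocalization` with
`Localization.subalgebra.ofField`).
`evC_hom`: `homK`, `evC_tau`. `neg_coord`: all values are zero (`IsBi.eq_zero`), so the values of the coordinates are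
zero by `evC_inj`, `evC_smul`; an element of `A` with value zero is not a unit.
-/

namespace Pool.Agent.Lib.MP_463376_co

open MvPolynomial

section

variable {k : Type} [Field k] [CharZero k] {ι : Type} [Fintype ι] [DecidableEq ι]
  {L : Type} [Field L] [Algebra k L] [Algebra (RR k ι) L]
  [IsScalarTower k (RR k ι) L] [IsFractionRing (RR k ι) L] {δ : Dia ι}

/-- the polynomials with nonzero constant term -/
private def g3int_S (k : Type) [Field k] : Submonoid (GG k) where
  carrier := {s | constantCoeff s ≠ 0}
  one_mem' := by simp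
  mul_mem' := fun {a b} ha hb => by
    simp only [Set.mem_setOf_eq, map_mul] at *
    exact mul_ne_zero ha hb

private theorem g3int_S_le (k : Type) [Field k] : g3int_S k ≤ nonZeroDivisors (GG k) := by
  intro s hs
  rw [mem_nonZeroDivisors_iff_ne_zero]
  rintro rfl
  exact hs (map_zero _)

private theorem g3int_EA_mem (a : AA k L δ) :
    EA k L δ a ∈ Localization.subalgebra.ofField (KG k) (g3int_S k) (g3int_S_le k) := by
  obtain ⟨u, v, hv, h1, -⟩ := EA_frac k L δ a
  have hv0 : algebraMap (GG k) (KG k) v ≠ 0 := by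
    rw [Ne, IsFractionRing.to_map_eq_zero_iff]
    rintro rfl
    exact hv (map_zero _)
  refine ⟨u, v, hv, ?_⟩
  rw [← h1, mul_inv_cancel_right₀ hv0]

theorem evC_int (σ : Equiv.Perm ι) (c : CC k L δ) : ∃ s : GG k, constantCoeff s ≠ 0 ∧
    IsIntegral (GG k) (algebraMap (GG k) (KG k) s * evC k L δ σ c) := by
  have _ := CC_finite k L δ
  have hc : IsIntegral (AA k L δ) c := Algebra.IsIntegral.isIntegral c
  let φ : AA k L δ →+* Localization.subalgebra.ofField (KG k) (g3int_S k) (g3int_S_le k) :=
    (EA k L δ : AA k L δ →+* KG k).codRestrict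
      (Localization.subalgebra.ofField (KG k) (g3int_S k) (g3int_S_le k)).toSubring
      (fun a => g3int_EA_mem a)
  have h1 : IsIntegral (Localization.subalgebra.ofField (KG k) (g3int_S k) (g3int_S_le k))
      (evC k L δ σ c) := by
    refine hc.map_of_comp_eq φ (evC k L δ σ : CC k L δ →+* KG k) ?_
    ext a
    change EA k L δ a = evC k L δ σ (algebraMap (AA k L δ) (CC k L δ) a)
    rw [evC_algebraMap]
  obtain ⟨⟨s, hs⟩, h2⟩ := h1.exists_multiple_integral_of_isLocalization (g3int_S k) _
  refine ⟨s, hs, ?_⟩
  rw [← Algebra.smul_def]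
  exact h2

theorem evC_hom (σ : Equiv.Perm ι) (c : CC k L δ) (a b : ℤ)
    (h : tauL k ι L (c : L) = evv k a b • (c : L)) :
    ∃ u : GG k, evC k L δ σ c = algebraMap (GG k) (KG k) u ∧ IsBihom u a b := by
  obtain ⟨s, hs, h1⟩ := evC_int σ c
  refine homK _ s hs h1 a b ?_
  have h2 := evC_tau k L δ σ c (evv k a b • c) h.symm
  rw [← h2, map_smul]

theorem neg_coord {V : Type} [Fintype V] (e : Module.Basis V (AA k L δ) (CC k L δ))
    (c : CC k L δ) {a b : ℤ} (hab : a < 0 ∨ b < 0)
    (h : tauL k ι L (c : L) = evv k a b • (c : L)) (v : V) : ¬ IsUnit (e.repr c v) := by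
  have h1 : ∀ σ : Equiv.Perm ι, ∑ v, EA k L δ (e.repr c v) * evC k L δ σ (e v) = 0 := fun σ => by
    obtain ⟨u, h2, h3⟩ := evC_hom σ c a b h
    have h4 : u = 0 := IsBi.eq_zero (g3_isBihom_iff.1 h3) hab
    rw [h4, map_zero] at h2
    rw [← h2]
    conv_rhs => rw [← e.sum_repr c, map_sum]
    exact Finset.sum_congr rfl fun v _ => (evC_smul σ _ _).symm
  have h5 := congrFun (evC_inj e (fun v => EA k L δ (e.repr c v)) h1) v
  intro hu
  exact (hu.map (EA k L δ)).ne_zero h5

end

end Pool.Agent.Lib.MP_463376_co
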