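import Pool.Agent.Lib.MP_463376_co.G3_Dec
import Pool.Agent.Lib.MP_463376_co.G3_Int

/-!
# Stream G3, job Coord: coordinates with respect to a homogeneous basis

`tauL_a_eq`: apply `tauL` to `c = ∑ v, a v * g v` and use the uniqueness in `B.basis`.
`coord_hom`: `EA_hom` for the `a v`, `evC_smul`.
-/

namespace Pool.Agent.Lib.MP_463376_co

open MvPolynomial

section

variable {k : Type} [Field k] [CharZero k] {ι : Type} [Fintype ι] [DecidableEq ι]
  {L : Type} [Field L] [Algebra k L] [Algebra (RR k ι) L]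
  [IsScalarTower k (RR k ι) L] [IsFractionRing (RR k ι) L] {δ : Dia ι}

private theorem g3coord_sum {V : Type} [Fintype V] (a : V → AA k L δ) (g : V → CC k L δ) :
    ((∑ v, a v • g v : CC k L δ) : L) = ∑ v, (a v : L) * (g v : L) := by
  rw [AddSubmonoidClass.coe_finsetSum]
  exact Finset.sum_congr rfl fun v _ => coe_smul_CC k L δ _ _

private theorem g3coord_PC : PP k L δ ≤ CC k L δ := le_sup_right

theorem HomBasis.exists_bas (B : HomBasis k L δ) :
    ∃ e : Module.Basis B.V (AA k L δ) (CC k L δ), ∀ v, ((e v : CC k L δ) : L) = B.g v := by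
  let g : B.V → CC k L δ := fun v => ⟨B.g v, g3coord_PC (B.g_mem v)⟩
  have hli : LinearIndependent (AA k L δ) g := by
    rw [Fintype.linearIndependent_iff]
    intro a ha v
    obtain ⟨a0, h0, hu⟩ := B.basis 0 (CC k L δ).zero_mem
    have h1 : a = a0 := hu a (by
      have h2 := congrArg Subtype.val ha
      rw [g3coord_sum] at h2
      exact h2.symm)
    have h2 : (0 : B.V → AA k L δ) = a0 := hu 0 (by
      change (0 : L) = ∑ v, ((0 : AA k L δ) : L) * B.g v
      simp)
    rw [h1, ← h2]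
    rfl
  have hsp : ⊤ ≤ Submodule.span (AA k L δ) (Set.range g) := by
    rintro c -
    obtain ⟨a, ha, -⟩ := B.basis (c : L) c.2
    have h1 : c = ∑ v, a v • g v := Subtype.ext (by rw [g3coord_sum]; exact ha)
    rw [h1]
    exact Submodule.sum_mem _ fun v _ => Submodule.smul_mem _ _ (Submodule.subset_span ⟨v, rfl⟩)
  refine ⟨Module.Basis.mk hli hsp, fun v => ?_⟩
  rw [Module.Basis.mk_apply]

/-- the basis of `C` over `A` -/
noncomputable def HomBasis.bas (B : HomBasis k L δ) : Module.Basis B.V (AA k L δ) (CC k L δ) :=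
  B.exists_bas.choose

theorem HomBasis.bas_coe (B : HomBasis k L δ) (v : B.V) : ((B.bas v : CC k L δ) : L) = B.g v :=
  B.exists_bas.choose_spec v

theorem HomBasis.tauL_g (B : HomBasis k L δ) (v : B.V) :
    tauL k ι L (B.g v) = evv k (B.deg v).1 (B.deg v).2 • B.g v :=
  (B.g_hom v).tauL_eq

theorem HomBasis.exists_G (B : HomBasis k L δ) : ∃ G : B.V → Equiv.Perm ι → GG k, ∀ v σ,
    evC k L δ σ (B.bas v) = algebraMap (GG k) (KG k) (G v σ) ∧
      IsBihom (G v σ) (B.deg v).1 (B.deg v).2 := by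
  have h : ∀ v σ, ∃ u : GG k, evC k L δ σ (B.bas v) = algebraMap (GG k) (KG k) u ∧
      IsBihom u (B.deg v).1 (B.deg v).2 := fun v σ =>
    evC_hom σ (B.bas v) _ _ (by rw [B.bas_coe]; exact B.tauL_g v)
  choose G hG using h
  exact ⟨G, hG⟩

/-- the values of the basis elements at the orderings of the grid -/
noncomputable def HomBasis.G (B : HomBasis k L δ) : B.V → Equiv.Perm ι → GG k :=
  B.exists_G.choose

theorem HomBasis.evC_bas (B : HomBasis k L δ) (v : B.V) (σ : Equiv.Perm ι) :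
    evC k L δ σ (B.bas v) = algebraMap (GG k) (KG k) (B.G v σ) :=
  (B.exists_G.choose_spec v σ).1

theorem HomBasis.G_hom (B : HomBasis k L δ) (v : B.V) (σ : Equiv.Perm ι) :
    IsBihom (B.G v σ) (B.deg v).1 (B.deg v).2 :=
  (B.exists_G.choose_spec v σ).2

/-- the coordinates of a homogeneous element are homogeneous -/
theorem HomBasis.tauL_a_eq (B : HomBasis k L δ) (c : L) (hcC : c ∈ CC k L δ) (p q : ℤ)
    (hc : tauL k ι L c = evv k p q • c) (a : B.V → AA k L δ)
    (ha : c = ∑ v, (a v : L) * B.g v) (v : B.V) :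
    tauL k ι L (a v : L) = evv k (p - (B.deg v).1) (q - (B.deg v).2) • (a v : L) := by
  obtain ⟨a0, h0, hu⟩ := B.basis c hcC
  have h1 : a = a0 := hu a ha
  let a' : B.V → AA k L δ := fun v =>
    (evv k p q)⁻¹ • evv k (B.deg v).1 (B.deg v).2 • (⟨tauL k ι L (a v : L), tauL_AA k L δ _ (a v).2⟩ : AA k L δ)
  have h2 : a' = a0 := hu a' (by
    have h3 : evv k p q • c = ∑ v, tauL k ι L (a v : L) * (evv k (B.deg v).1 (B.deg v).2 • B.g v) := by
      rw [← hc]
      conv_lhs => rw [ha, map_sum]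
      exact Finset.sum_congr rfl fun v _ => by rw [map_mul, B.tauL_g]
    have h4 : c = (evv k p q)⁻¹ • (evv k p q • c) := (inv_smul_smul₀ (evv_ne_zero p q) c).symm
    rw [h4, h3, Finset.smul_sum]
    refine Finset.sum_congr rfl fun v _ => ?_
    change _ = ((evv k p q)⁻¹ • (evv k (B.deg v).1 (B.deg v).2 • tauL k ι L (a v : L))) * B.g v
    rw [mul_smul_comm, smul_mul_assoc, smul_mul_assoc])
  have h5 : a v = a' v := congrFun (h1.trans h2.symm) v
  have h6 : (a v : L) = (evv k p q)⁻¹ • (evv k (B.deg v).1 (B.deg v).2 • tauL k ι L (a v : L)) :=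
    congrArg Subtype.val h5
  have h7 : evv k p q = evv k (p - (B.deg v).1) (q - (B.deg v).2) * evv k (B.deg v).1 (B.deg v).2 := by
    rw [← evv_add, sub_add_cancel, sub_add_cancel]
  have h8 : evv k p q • (a v : L) = evv k (B.deg v).1 (B.deg v).2 • tauL k ι L (a v : L) := by
    conv_lhs => rw [h6]
    rw [smul_inv_smul₀ (evv_ne_zero p q)]
  have h9 : evv k (B.deg v).1 (B.deg v).2 •
      (evv k (p - (B.deg v).1) (q - (B.deg v).2) • (a v : L)) =
      evv k (B.deg v).1 (B.deg v).2 • tauL k ι L (a v : L) := by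
    rw [← h8, smul_smul, h7, mul_comm]
  exact (smul_right_injective L (evv_ne_zero (k := k) ((B.deg v).1 : ℤ) ((B.deg v).2 : ℤ)) h9).symm

theorem HomBasis.coord_hom (B : HomBasis k L δ) (c : CC k L δ) (p q : ℤ)
    (hc : tauL k ι L (c : L) = evv k p q • (c : L)) (a : B.V → AA k L δ)
    (ha : (c : L) = ∑ v, (a v : L) * B.g v) :
    ∃ α : B.V → GG k,
      (∀ σ, evC k L δ σ c = algebraMap (GG k) (KG k) (∑ v, α v * B.G v σ)) ∧
      (∀ v, IsBihom (α v) (p - (B.deg v).1) (q - (B.deg v).2)) ∧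
      ∀ v (c : k), ¬ IsUnit (a v - algebraMap k (AA k L δ) c) → (α v).coeff 0 = c := by
  have h : ∀ v, ∃ u : GG k, EA k L δ (a v) = algebraMap (GG k) (KG k) u ∧
      IsBihom u (p - (B.deg v).1) (q - (B.deg v).2) ∧
      ∀ c : k, ¬ IsUnit (a v - algebraMap k (AA k L δ) c) → u.coeff 0 = c := fun v =>
    EA_hom k L δ (a v) _ _ (B.tauL_a_eq (c : L) c.2 p q hc a ha v)
  choose α h1 h2 h3 using h
  refine ⟨α, fun σ => ?_, h2, h3⟩
  have h4 : c = ∑ v, a v • B.bas v := Subtype.ext (by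
    rw [g3coord_sum, ha]
    exact Finset.sum_congr rfl fun v _ => by rw [B.bas_coe])
  rw [h4, map_sum, map_sum]
  exact Finset.sum_congr rfl fun v _ => by rw [evC_smul, B.evC_bas, h1, map_mul]

end

end Pool.Agent.Lib.MP_463376_co
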