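import Pool.Agent.Lib.MP_463376_co.G3_TorL

/-!
# Stream G3, job Dec: homogeneous decomposition of elements of `P`

`PP_decomp`: `g Δ^d = f` with `f ∈ J^(d)` (`mem_PP_iff`), decompose `f` (`Jd_decomp`) and divide by `Δ^d`; `Δ^d` is
bihomogeneous (`alt_isBi`, `dl_ne_zero`).
-/

namespace Pool.Agent.Lib.MP_463376_co

open MvPolynomial

section

variable {k : Type} [Field k] [CharZero k] {ι : Type} [Fintype ι] [DecidableEq ι]
  {L : Type} [Field L] [Algebra k L] [Algebra (RR k ι) L]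
  [IsScalarTower k (RR k ι) L] [IsFractionRing (RR k ι) L] {δ : Dia ι}

omit [CharZero k] [Fintype ι] [DecidableEq ι] in
private theorem g3dec_toL_inj : Function.Injective (toL k L : RR k ι →ₐ[k] L) := by
  intro a b h
  exact IsFractionRing.injective (RR k ι) L h

omit [CharZero k] [Fintype ι] [DecidableEq ι] in
private theorem g3dec_toL_ne {f : RR k ι} (hf : f ≠ 0) : toL k L f ≠ 0 := by
  intro h
  exact hf (g3dec_toL_inj (k := k) (L := L) (by rw [h, map_zero]))

private theorem g3dec_dl_isBi (δ : Dia ι) (d : ℕ) :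
    IsBi (dl k δ ^ d) ((d : ℤ) * ∑ i, ((δ.c i).1 : ℤ)) ((d : ℤ) * ∑ i, ((δ.c i).2 : ℤ)) := by
  have h1 : IsBi (dl k δ) (∑ i, ((δ.c i).1 : ℤ)) (∑ i, ((δ.c i).2 : ℤ)) := alt_isBi δ.c
  induction d with
  | zero =>
    rw [← tau_eigen_iff]
    simp [evv]
  | succ n ih =>
    have := ih.mul h1
    rw [pow_succ]
    convert this using 1
    · push_cast; ring
    · push_cast; ring

theorem PP_decomp (g : L) (hg : g ∈ PP k L δ) :
    ∃ (s : Finset (ℤ × ℤ)) (h : ℤ × ℤ → L),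
      (∀ p, h p ∈ PP k L δ ∧ tauL k ι L (h p) = evv k p.1 p.2 • h p) ∧ g = ∑ p ∈ s, h p := by
  obtain ⟨d, f, hf, hgf⟩ := (mem_PP_iff k L δ g).1 hg
  obtain ⟨s, c, hc, hfs⟩ := Jd_decomp d f hf
  set A : ℤ := (d : ℤ) * ∑ i, ((δ.c i).1 : ℤ) with hA
  set B : ℤ := (d : ℤ) * ∑ i, ((δ.c i).2 : ℤ) with hB
  have hD : IsBi (dl k δ ^ d) A B := g3dec_dl_isBi δ d
  have hDtau : tau k ι (dl k δ ^ d) = evv k A B • (dl k δ ^ d) := (tau_eigen_iff _ _ _).2 hD
  have hDne : toL k L (dl k δ) ^ d ≠ 0 := pow_ne_zero _ (g3dec_toL_ne (dl_ne_zero k δ))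
  have hevv : evv k A B ≠ 0 := evv_ne_zero _ _
  let h : ℤ × ℤ → L := fun p =>
    if 0 ≤ p.1 + A ∧ 0 ≤ p.2 + B then
      toL k L (c ((p.1 + A).toNat, (p.2 + B).toNat)) / toL k L (dl k δ) ^ d
    else 0
  let e : ℕ × ℕ → ℤ × ℤ := fun q => ((q.1 : ℤ) - A, (q.2 : ℤ) - B)
  have he : Function.Injective e := by
    intro q q' hq
    simp only [e, Prod.mk.injEq] at hq
    apply Prod.ext
    · have := hq.1; omega
    · have := hq.2; omega
  refine ⟨s.image e, h, ?_, ?_⟩
  · intro p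
    by_cases hp : 0 ≤ p.1 + A ∧ 0 ≤ p.2 + B
    · have hhp : h p = toL k L (c ((p.1 + A).toNat, (p.2 + B).toNat)) / toL k L (dl k δ) ^ d := by
        simp only [h, if_pos hp]
      set q : ℕ × ℕ := ((p.1 + A).toNat, (p.2 + B).toNat) with hq
      have hq1 : (q.1 : ℤ) = p.1 + A := by simp [hq, hp.1]
      have hq2 : (q.2 : ℤ) = p.2 + B := by simp [hq, hp.2]
      constructor
      · rw [mem_PP_iff]
        exact ⟨d, c q, (hc q).1, by rw [hhp, div_mul_cancel₀ _ hDne]⟩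
      · have hcq : tau k ι (c q) = evv k (p.1 + A) (p.2 + B) • c q := by
          rw [tau_eigen_iff, ← hq1, ← hq2]
          exact (hc q).2
        rw [hhp, map_div₀, map_pow, tauL_toL, tauL_toL, hcq, ← map_pow, ← map_pow, hDtau, map_smul,
          map_smul, evv_add, Algebra.smul_def, Algebra.smul_def, Algebra.smul_def, map_mul, map_pow]
        have h1 : algebraMap k L (evv k A B) ≠ 0 := by
          simpa using hevv
        field_simp
    · have hhp : h p = 0 := by simp only [h, if_neg hp]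
      rw [hhp]
      exact ⟨Subalgebra.zero_mem _, by simp⟩
  · rw [Finset.sum_image (fun x _ y _ hxy => he hxy)]
    have h2 : ∀ q ∈ s, h (e q) = toL k L (c q) / toL k L (dl k δ) ^ d := by
      intro q _
      simp [h, e]
    rw [Finset.sum_congr rfl h2, ← Finset.sum_div, ← map_sum, ← hfs, eq_div_iff hDne, hgf]

omit [Fintype ι] [DecidableEq ι] in
theorem IsHomL.tauL_eq {g : L} {a b : ℤ} (h : IsHomL k ι L g a b) :
    tauL k ι L g = evv k a b • g := by
  obtain ⟨f₁, f₂, c, d, hf₂, hg, h2, h1⟩ := h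
  have two : (2 : k) ≠ 0 := two_ne_zero
  have three : (3 : k) ≠ 0 := three_ne_zero
  have e2 : tau k ι f₂ = evv k c d • f₂ := h2 2 3 two three
  have e1 : tau k ι f₁ = evv k (c + a) (d + b) • f₁ := h1 2 3 two three
  have h3 : tauL k ι L (g * toL k L f₂) = tauL k ι L (toL k L f₁) := by rw [hg]
  rw [map_mul, tauL_toL, tauL_toL, e2, e1, map_smul, map_smul, ← hg, evv_add, Algebra.smul_def,
    Algebra.smul_def, map_mul] at h3
  have hne : toL k L f₂ ≠ 0 := g3dec_toL_ne hf₂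
  have hev : algebraMap k L (evv k c d) ≠ 0 := by
    simpa using evv_ne_zero (k := k) c d
  rw [Algebra.smul_def]
  have h4 : (algebraMap k L (evv k c d) * toL k L f₂) * (tauL k ι L g) =
      (algebraMap k L (evv k c d) * toL k L f₂) * (algebraMap k L (evv k a b) * g) := by
    linear_combination h3
  exact mul_left_cancel₀ (mul_ne_zero hev hne) h4

theorem isHomL_of_tauL {g : L} {a b : ℤ} (hg : g ∈ PP k L δ)
    (h : tauL k ι L g = evv k a b • g) : IsHomL k ι L g a b := by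
  obtain ⟨d, f, hf, hgf⟩ := (mem_PP_iff k L δ g).1 hg
  set A : ℤ := (d : ℤ) * ∑ i, ((δ.c i).1 : ℤ) with hA
  set B : ℤ := (d : ℤ) * ∑ i, ((δ.c i).2 : ℤ) with hB
  have hD : IsBi (dl k δ ^ d) A B := g3dec_dl_isBi δ d
  have hDtau : tau k ι (dl k δ ^ d) = evv k A B • (dl k δ ^ d) := (tau_eigen_iff _ _ _).2 hD
  have hft : tau k ι f = evv k (A + a) (B + b) • f := by
    apply g3dec_toL_inj (k := k) (L := L)
    rw [← tauL_toL, ← hgf, map_mul, h, ← map_pow, tauL_toL, hDtau, map_smul, map_smul, ← hgf,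
      evv_add, Algebra.smul_def, Algebra.smul_def, Algebra.smul_def, map_mul, map_pow]
    ring
  have hfB : IsBi f (A + a) (B + b) := (tau_eigen_iff _ _ _).1 hft
  refine ⟨f, dl k δ ^ d, A, B, pow_ne_zero _ (dl_ne_zero k δ), by rw [map_pow, hgf], ?_, ?_⟩
  · intro s t hs ht
    exact hD.tor_eq hs ht
  · intro s t hs ht
    exact hfB.tor_eq hs ht

end

end Pool.Agent.Lib.MP_463376_co
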