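import Pool.Agent.Lib.MP_463376_co.Defs

/-!
# MP_463376_co: evaluation on grids, the data exported by the n! theorem side
-/

namespace Pool.Agent.Lib.MP_463376_co

open MvPolynomial

/-- polynomials in the column coordinates `z_j = X (inl j)` and row coordinates `w_i = X (inr i)` -/
abbrev GG (k : Type) [Field k] : Type := MvPolynomial (ℕ ⊕ ℕ) k

section
variable {k : Type} [Field k] {ι : Type}

/-- evaluation at the points `(z_{(c i).1}, w_{(c i).2})` -/
noncomputable def evG (c : ι → ℕ × ℕ) : RR k ι →ₐ[k] GG k :=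
  aeval (Sum.elim (fun i => X (Sum.inl (c i).1)) (fun i => X (Sum.inr (c i).2)))

/-- bihomogeneous of bidegree `(a,b)` (`z` has degree `(1,0)`, `w` has degree `(0,1)`) -/
def IsBihom (f : GG k) (a b : ℤ) : Prop :=
  ∀ m : ℕ ⊕ ℕ →₀ ℕ, f.coeff m ≠ 0 →
    ((m.sum fun v e => Sum.elim (fun _ => e) (fun _ => 0) v : ℕ) : ℤ) = a ∧
    ((m.sum fun v e => Sum.elim (fun _ => 0) (fun _ => e) v : ℕ) : ℤ) = b

variable [Fintype ι] [DecidableEq ι]

/-- `± Δ(grid)^2`: product of all (ordered) differences along rows and along columns -/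
noncomputable def disc (k : Type) [Field k] {ι : Type} [Fintype ι] [DecidableEq ι] (δ : Dia ι) : GG k :=
  (∏ i : ι, ∏ j : ι, if i ≠ j ∧ (δ.c i).2 = (δ.c j).2 then
      X (Sum.inl (δ.c i).1) - X (Sum.inl (δ.c j).1) else 1) *
  (∏ i : ι, ∏ j : ι, if i ≠ j ∧ (δ.c i).1 = (δ.c j).1 then
      X (Sum.inr (δ.c i).2) - X (Sum.inr (δ.c j).2) else 1)

end

/-- a bigraded matrix representation of `Perm ι` over `k` -/
structure GRep (k : Type) [Field k] (ι : Type) where
  V : Type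
  [fin : Fintype V]
  [dec : DecidableEq V]
  deg : V → ℕ × ℕ
  ρ : Equiv.Perm ι → Matrix V V k
  one : ρ 1 = 1
  mul : ∀ w w', ρ (w * w') = ρ w * ρ w'
  hom : ∀ w v' v, ρ w v' v ≠ 0 → deg v' = deg v

attribute [instance] GRep.fin GRep.dec

/-- bigraded character -/
noncomputable def GRep.ch {k : Type} [Field k] {ι : Type} (F : GRep k ι) (w : Equiv.Perm ι) :
    MvPolynomial (Fin 2) k :=
  ∑ v : F.V, C (F.ρ w v v) * (X 0 ^ (F.deg v).1 * X 1 ^ (F.deg v).2)

/-- The structure theorem for the grid family of a diagram (export of the n! theorem). -/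
structure MainData (k : Type) [Field k] {ι : Type} [Fintype ι] [DecidableEq ι] (δ : Dia ι) extends
    GRep k ι where
  g : V → Equiv.Perm ι → GG k
  g_hom : ∀ v σ, IsBihom (g v σ) (deg v).1 (deg v).2
  g_mem : ∀ v, ∃ e : ℕ, ∃ f ∈ Jd k ι (2 * e), ∀ σ : Equiv.Perm ι,
    evG (δ.c ∘ σ) f = disc k δ ^ e * g v σ
  span : ∀ e : ℕ, ∀ f ∈ Jd k ι (2 * e), ∃ a : V → GG k, ∀ σ : Equiv.Perm ι,
    evG (δ.c ∘ σ) f = disc k δ ^ e * ∑ v, a v * g v σ
  dual : ∃ N : ℕ, ∃ b : Equiv.Perm ι → V → GG k, ∀ σ σ' : Equiv.Perm ι,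
    ∑ v, b σ v * g v σ' = if σ = σ' then disc k δ ^ N else 0
  card_V : Fintype.card V = (Fintype.card ι).factorial
  equiv : ∀ w : Equiv.Perm ι, ∃ a : V → V → GG k,
    (∀ v σ, g v (σ * w) = ∑ v', a v' v * g v' σ) ∧
    (∀ v' v, (a v' v).coeff 0 = ρ w v' v) ∧
    (∀ v' v, IsBihom (a v' v) ((deg v).1 - (deg v').1) ((deg v).2 - (deg v').2))

section
variable {ι : Type} [Fintype ι] [DecidableEq ι]

/-- the Young diagram of `δ` (rows = y-exponents, columns = x-exponents) -/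
def Dia.shape (δ : Dia ι) : YoungDiagram where
  cells := Finset.univ.image fun i => ((δ.c i).2, (δ.c i).1)
  isLowerSet := by
    intro p q hq hp
    simp only [Finset.coe_image, Finset.coe_univ, Set.image_univ, Set.mem_range] at hp ⊢
    obtain ⟨i, rfl⟩ := hp
    obtain ⟨b, hb⟩ := δ.low i (q.2, q.1) ⟨hq.2, hq.1⟩
    exact ⟨b, by rw [hb]⟩

end

end Pool.Agent.Lib.MP_463376_co
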