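import Pool.Agent.Lib.MP_463376_co.I8
import Pool.Agent.Lib.MP_463376_co.GridDefs

/-!
# Stream G3: definitions

`tau` is the torus element `(2,3)`: `x ↦ 2x`, `y ↦ 3y` (for `RR`) and `z ↦ 2z`, `w ↦ 3w` (for `GG`).
A polynomial is bihomogeneous of bidegree `(a,b)` iff it is an eigenvector of `tau` with eigenvalue
`evv a b = 2^a 3^b`.
-/

namespace Pool.Agent.Lib.MP_463376_co

open MvPolynomial RingTheory.Sequence

/-! ## definitions of the interface file I9h -/

section
variable (k : Type) [Field k] [CharZero k] {ι : Type} 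

/-- the torus action on polynomials `x_i ↦ a x_i`, `y_i ↦ b y_i` -/
noncomputable def torR (a b : k) : RR k ι →ₐ[k] RR k ι :=
  aeval (Sum.elim (fun i => C a * xx i) (fun i => C b * yy i))

variable [Fintype ι] [DecidableEq ι]
  (L : Type) [Field L] [Algebra k L] [Algebra (RR k ι) L]
  [IsScalarTower k (RR k ι) L] [IsFractionRing (RR k ι) L] (δ : Dia ι)

/-- an element of `L` is bihomogeneous of bidegree `(a,b)`:  `g = f₁/f₂` with `f₂ ≠ 0` and `f₁, f₂` bihomogeneous -/
def IsHomL (k : Type) [Field k] (ι : Type) (L : Type) [Field L] [Algebra k L] [Algebra (RR k ι) L]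
    [IsScalarTower k (RR k ι) L] (g : L) (a b : ℤ) : Prop :=
  ∃ f₁ f₂ : RR k ι, ∃ c d : ℤ, f₂ ≠ 0 ∧ g * toL k L f₂ = toL k L f₁ ∧
    (∀ s t : k, s ≠ 0 → t ≠ 0 → torR k s t f₂ = (s ^ c * t ^ d) • f₂) ∧
    (∀ s t : k, s ≠ 0 → t ≠ 0 → torR k s t f₁ = (s ^ (c + a) * t ^ (d + b)) • f₁)

/-- A homogeneous basis of `C` over `A` consisting of elements of `P`, and the reduced matrices of
the permutations. -/
structure HomBasis where
  V : Type
  [fin : Fintype V]
  [dec : DecidableEq V]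
  deg : V → ℕ × ℕ
  g : V → L
  g_mem : ∀ v, g v ∈ PP k L δ
  g_hom : ∀ v, IsHomL k ι L (g v) ((deg v).1 : ℤ) ((deg v).2 : ℤ)
  basis : ∀ c : L, c ∈ CC k L δ → ∃! a : V → AA k L δ, c = ∑ v, (a v : L) * g v
  ρ : Equiv.Perm ι → Matrix V V k
  one : ρ 1 = 1
  mul : ∀ w w', ρ (w * w') = ρ w * ρ w'
  hom : ∀ w v' v, ρ w v' v ≠ 0 → deg v' = deg v
  perm : ∀ w v, ∃ a : V → AA k L δ, permL (k := k) w (g v) = ∑ v', (a v' : L) * g v' ∧
    ∀ v', ¬ IsUnit (a v' - algebraMap k (AA k L δ) (ρ w v' v))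

attribute [instance] HomBasis.fin HomBasis.dec

variable {k L δ}

/-- the underlying bigraded representation -/
def HomBasis.toGRep (B : HomBasis k L δ) : GRep k ι where
  V := B.V
  deg := B.deg
  ρ := B.ρ
  one := B.one
  mul := B.mul
  hom := B.hom

end

/-- exchange of `x` and `y` -/
def Dia.swap {ι : Type} (δ : Dia ι) : Dia ι where
  c := fun i => ((δ.c i).2, (δ.c i).1)
  inj := fun i j h => δ.inj (Prod.ext (by simpa using congrArg Prod.snd h) (by simpa using congrArg Prod.fst h))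
  low := fun a p hp => by
    obtain ⟨b, hb⟩ := δ.low a (p.2, p.1) ⟨hp.2, hp.1⟩
    exact ⟨b, by rw [hb]⟩

/-! ## bidegrees and the torus element (2,3) -/

section
variable {k : Type} [Field k] {α : Type}

/-- degree of a monomial in the `inl` variables -/
def dgx (m : α ⊕ α →₀ ℕ) : ℕ := m.sum fun v e => Sum.elim (fun _ => e) (fun _ => 0) v
/-- degree of a monomial in the `inr` variables -/
def dgy (m : α ⊕ α →₀ ℕ) : ℕ := m.sum fun v e => Sum.elim (fun _ => 0) (fun _ => e) v

/-- bihomogeneous polynomials (`RR k ι` and `GG k` are special cases; `IsBihom` is the case `α = ℕ`) -/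
def IsBi (f : MvPolynomial (α ⊕ α) k) (a b : ℤ) : Prop :=
  ∀ m : α ⊕ α →₀ ℕ, f.coeff m ≠ 0 → (dgx m : ℤ) = a ∧ (dgy m : ℤ) = b

theorem g3_isBihom_iff {f : GG k} {a b : ℤ} : IsBihom f a b ↔ IsBi f a b := Iff.rfl

/-- the torus action on polynomials -/
noncomputable def tor (s t : k) : MvPolynomial (α ⊕ α) k →ₐ[k] MvPolynomial (α ⊕ α) k :=
  aeval (Sum.elim (fun i => C s * X (Sum.inl i)) (fun i => C t * X (Sum.inr i)))

theorem tor_eq_torR [CharZero k] (s t : k) (f : RR k α) : tor s t f = torR k s t f := rfl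

/-- the eigenvalue `2^a 3^b` -/
def evv (k : Type) [Field k] (a b : ℤ) : k := (2 : k) ^ a * (3 : k) ^ b

theorem tor_tor (s t s' t' : k) (f : MvPolynomial (α ⊕ α) k) :
    tor s t (tor s' t' f) = tor (s * s') (t * t') f := by
  have h : ((tor s t).comp (tor s' t') : MvPolynomial (α ⊕ α) k →ₐ[k] MvPolynomial (α ⊕ α) k) =
      tor (s * s') (t * t') := by
    apply MvPolynomial.algHom_ext
    rintro (i | i) <;> simp [tor] <;> ring
  exact DFunLike.congr_fun h f

theorem tor_one (f : MvPolynomial (α ⊕ α) k) : tor 1 1 f = f := by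
  have h : (tor 1 1 : MvPolynomial (α ⊕ α) k →ₐ[k] MvPolynomial (α ⊕ α) k) = AlgHom.id k _ := by
    apply MvPolynomial.algHom_ext
    rintro (i | i) <;> simp [tor]
  exact DFunLike.congr_fun h f

variable [CharZero k]

/-- the torus element `(2,3)` -/
noncomputable def tau (k : Type) [Field k] [CharZero k] (α : Type) :
    MvPolynomial (α ⊕ α) k ≃ₐ[k] MvPolynomial (α ⊕ α) k :=
  AlgEquiv.ofAlgHom (tor 2 3) (tor 2⁻¹ 3⁻¹)
    (by ext1 i; simp [tor_tor, tor_one]) (by ext1 i; simp [tor_tor, tor_one])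

theorem tau_apply (f : MvPolynomial (α ⊕ α) k) : tau k α f = tor 2 3 f := rfl

theorem tau_symm_apply (f : MvPolynomial (α ⊕ α) k) : (tau k α).symm f = tor 2⁻¹ 3⁻¹ f := rfl

end

section
variable {k : Type} [Field k] [CharZero k] {ι : Type} {L : Type} [Field L] [Algebra k L]
  [Algebra (RR k ι) L] [IsScalarTower k (RR k ι) L] [IsFractionRing (RR k ι) L]

/-- the torus element `(2,3)` on rational functions -/
noncomputable def tauL (k : Type) [Field k] [CharZero k] (ι : Type) (L : Type) [Field L]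
    [Algebra k L] [Algebra (RR k ι) L] [IsScalarTower k (RR k ι) L] [IsFractionRing (RR k ι) L] :
    L ≃ₐ[k] L :=
  IsFractionRing.algEquivOfAlgEquiv (tau k ι)

theorem tauL_toL (f : RR k ι) : tauL k ι L (toL k L f) = toL k L (tau k ι f) := by
  simp [tauL, toL, IsFractionRing.algEquivOfAlgEquiv_algebraMap]

theorem tauL_symm_toL (f : RR k ι) :
    (tauL k ι L).symm (toL k L f) = toL k L ((tau k ι).symm f) := by
  rw [AlgEquiv.symm_apply_eq, tauL_toL, AlgEquiv.apply_symm_apply]

/-- the fraction field of `GG` -/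
abbrev KG (k : Type) [Field k] : Type := FractionRing (GG k)

/-- the torus element `(2,3)` on `KG` -/
noncomputable def tauK (k : Type) [Field k] [CharZero k] : KG k ≃ₐ[k] KG k :=
  IsFractionRing.algEquivOfAlgEquiv (tau k ℕ)

theorem tauK_algebraMap (f : GG k) :
    tauK k (algebraMap (GG k) (KG k) f) = algebraMap (GG k) (KG k) (tau k ℕ f) := by
  simp [tauK, IsFractionRing.algEquivOfAlgEquiv_algebraMap]

end

end Pool.Agent.Lib.MP_463376_co
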