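import Pool.Agent.Lib.MP_463376_co.G3_Defs

/-!
# Stream G3, job Disc: the alternant of the diagram on its grid

`evG_dl_sq`.  For the Newton polynomials `N_h = ∏_{j < (c h).1} (x - z_j) * ∏_{i < (c h).2} (y - w_i)` (`h` a cell) the
matrix `(N_h (c i))_{i,h}` is `M * T` with `M` the matrix of monomials and `T` unitriangular for a linear
extension of the componentwise order of the cells (for example by the sum of the exponents), so it has
the same determinant as `M`; and it is itself triangular as `N_h (c i) ≠ 0` only if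
`c h ≤ c i` componentwise.  So `det M = ∏_i N_{c i} (c i)
= ∏_i (∏_{j < (c i).1} (z_{(c i).1} - z_j)) (∏_{l < (c i).2} (w_{(c i).2} - w_l))`, and `j < (c i).1` are exactly the first
coordinates of the cells left of `c i` in its row.  `evG (δ.c ∘ σ) (dl k δ) = sign σ * det M`.
(`disc` is the product over ordered pairs, so it is `±` the square of the product over unordered
pairs.)
`sub_dvd_disc_x`: with `a = (c i).1`, `b = (c j).1`, the cells `(a,0)`, `(b,0)` belong to the diagram (`δ.low`), and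
the pair occurs in `disc`.
-/

namespace Pool.Agent.Lib.MP_463376_co

open MvPolynomial

section G3_Disc_aux

variable {A : Type} [CommRing A] {ι : Type} [Fintype ι] [DecidableEq ι]

/-- the Newton polynomial `∏_{j<p} (X - z_j)` -/
private noncomputable def G3_Disc_newt (z : ℕ → A) (p : ℕ) : Polynomial A :=
  ∏ j ∈ Finset.range p, (Polynomial.X - Polynomial.C (z j))

private theorem G3_Disc_newt_monic (z : ℕ → A) (p : ℕ) : (G3_Disc_newt z p).Monic :=
  Polynomial.monic_prod_of_monic _ _ fun j _ => Polynomial.monic_X_sub_C (z j)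

private theorem G3_Disc_newt_natDegree [Nontrivial A] (z : ℕ → A) (p : ℕ) :
    (G3_Disc_newt z p).natDegree = p := by
  unfold G3_Disc_newt
  rw [Polynomial.natDegree_prod_of_monic _ _ fun j _ => Polynomial.monic_X_sub_C (z j)]
  simp

private theorem G3_Disc_newt_eval (z : ℕ → A) (p : ℕ) (x : A) :
    (G3_Disc_newt z p).eval x = ∏ j ∈ Finset.range p, (x - z j) := by
  unfold G3_Disc_newt
  rw [Polynomial.eval_prod]
  simp

private theorem G3_Disc_newt_coeff_self [Nontrivial A] (z : ℕ → A) (p : ℕ) :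
    (G3_Disc_newt z p).coeff p = 1 := by
  have h := (G3_Disc_newt_monic z p).coeff_natDegree
  rwa [G3_Disc_newt_natDegree] at h

private theorem G3_Disc_newt_coeff_gt [Nontrivial A] (z : ℕ → A) {p q : ℕ} (h : p < q) :
    (G3_Disc_newt z p).coeff q = 0 :=
  Polynomial.coeff_eq_zero_of_natDegree_lt (by rwa [G3_Disc_newt_natDegree])

/-- the determinant of the monomials of a diagram on its grid -/
private theorem G3_Disc_det [Nontrivial A] (δ : Dia ι) (z w : ℕ → A) :
    Matrix.det (Matrix.of fun i h : ι =>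
      z (δ.c i).1 ^ (δ.c h).1 * w (δ.c i).2 ^ (δ.c h).2) =
    ∏ i : ι, ((∏ j ∈ Finset.range (δ.c i).1, (z (δ.c i).1 - z j)) *
      ∏ j ∈ Finset.range (δ.c i).2, (w (δ.c i).2 - w j)) := by
  let _ : LinearOrder ι := LinearOrder.lift' (fun i => toLex (δ.c i)) fun a b h =>
    δ.inj (toLex.injective h)
  have hle : ∀ a b : ι, δ.c a ≤ δ.c b → a ≤ b := fun a b h =>
    (Prod.Lex.toLex_mono h : toLex (δ.c a) ≤ toLex (δ.c b))
  let T : Matrix ι ι A := Matrix.of fun g h =>
    (G3_Disc_newt z (δ.c h).1).coeff (δ.c g).1 * (G3_Disc_newt w (δ.c h).2).coeff (δ.c g).2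
  let N : Matrix ι ι A := Matrix.of fun i h =>
    (∏ j ∈ Finset.range (δ.c h).1, (z (δ.c i).1 - z j)) *
      ∏ j ∈ Finset.range (δ.c h).2, (w (δ.c i).2 - w j)
  have hT : T.det = 1 := by
    have h1 : T.IsUpperTriangular := by
      intro g h hgh
      have hgh' : h < g := hgh
      change (G3_Disc_newt z (δ.c h).1).coeff (δ.c g).1 *
        (G3_Disc_newt w (δ.c h).2).coeff (δ.c g).2 = 0
      have h2 : ¬ (δ.c g ≤ δ.c h) := fun h3 => not_le_of_gt hgh' (hle _ _ h3)
      rw [Prod.le_def, not_and_or, not_le, not_le] at h2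
      rcases h2 with h2 | h2
      · rw [G3_Disc_newt_coeff_gt z h2, zero_mul]
      · rw [G3_Disc_newt_coeff_gt w h2, mul_zero]
    rw [Matrix.det_of_isUpperTriangular h1]
    apply Finset.prod_eq_one
    intro i _
    change (G3_Disc_newt z (δ.c i).1).coeff (δ.c i).1 *
        (G3_Disc_newt w (δ.c i).2).coeff (δ.c i).2 = 1
    rw [G3_Disc_newt_coeff_self, G3_Disc_newt_coeff_self, one_mul]
  have hN : N.det = ∏ i : ι, ((∏ j ∈ Finset.range (δ.c i).1, (z (δ.c i).1 - z j)) *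
      ∏ j ∈ Finset.range (δ.c i).2, (w (δ.c i).2 - w j)) := by
    have h1 : N.IsLowerTriangular := by
      intro i h hih
      have hih' : i < h := hih
      change (∏ j ∈ Finset.range (δ.c h).1, (z (δ.c i).1 - z j)) *
        ∏ j ∈ Finset.range (δ.c h).2, (w (δ.c i).2 - w j) = 0
      have h2 : ¬ (δ.c h ≤ δ.c i) := fun h3 => not_le_of_gt hih' (hle _ _ h3)
      rw [Prod.le_def, not_and_or, not_le, not_le] at h2
      rcases h2 with h2 | h2
      · rw [Finset.prod_eq_zero (Finset.mem_range.mpr h2) (sub_self _), zero_mul]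
      · rw [mul_comm, Finset.prod_eq_zero (Finset.mem_range.mpr h2) (sub_self _), zero_mul]
    rw [Matrix.det_of_isLowerTriangular _ h1]
    rfl
  rw [← hN]
  have hMT : (Matrix.of fun i h : ι =>
      z (δ.c i).1 ^ (δ.c h).1 * w (δ.c i).2 ^ (δ.c h).2) * T = N := by
    ext i h
    rw [Matrix.mul_apply]
    change ∑ g : ι, (z (δ.c i).1 ^ (δ.c g).1 * w (δ.c i).2 ^ (δ.c g).2) *
      ((G3_Disc_newt z (δ.c h).1).coeff (δ.c g).1 * (G3_Disc_newt w (δ.c h).2).coeff (δ.c g).2) =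
      (∏ j ∈ Finset.range (δ.c h).1, (z (δ.c i).1 - z j)) *
      ∏ j ∈ Finset.range (δ.c h).2, (w (δ.c i).2 - w j)
    set x := z (δ.c i).1
    set y := w (δ.c i).2
    let F : ℕ × ℕ → A := fun q => ((G3_Disc_newt z (δ.c h).1).coeff q.1 * x ^ q.1) *
      ((G3_Disc_newt w (δ.c h).2).coeff q.2 * y ^ q.2)
    have e1 : ∑ g : ι, (x ^ (δ.c g).1 * y ^ (δ.c g).2) *
      ((G3_Disc_newt z (δ.c h).1).coeff (δ.c g).1 * (G3_Disc_newt w (δ.c h).2).coeff (δ.c g).2) =
      ∑ q ∈ Finset.univ.image δ.c, F q := by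
      rw [Finset.sum_image (fun a _ b _ hab => δ.inj hab)]
      apply Finset.sum_congr rfl
      intro g _
      change _ = ((G3_Disc_newt z (δ.c h).1).coeff (δ.c g).1 * x ^ (δ.c g).1) *
        ((G3_Disc_newt w (δ.c h).2).coeff (δ.c g).2 * y ^ (δ.c g).2)
      ring
    have e2 : ∑ q ∈ Finset.univ.image δ.c, F q =
        ∑ q ∈ Finset.range ((δ.c h).1 + 1) ×ˢ Finset.range ((δ.c h).2 + 1), F q := by
      symm
      apply Finset.sum_subset
      · intro q hq
        rw [Finset.mem_product, Finset.mem_range, Finset.mem_range] at hq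
        obtain ⟨b, hb⟩ := δ.low h q ⟨Nat.lt_succ_iff.mp hq.1, Nat.lt_succ_iff.mp hq.2⟩
        exact Finset.mem_image.mpr ⟨b, Finset.mem_univ _, hb⟩
      · intro q _ hq
        rw [Finset.mem_product, Finset.mem_range, Finset.mem_range, not_and_or, not_lt, not_lt] at hq
        change ((G3_Disc_newt z (δ.c h).1).coeff q.1 * x ^ q.1) *
          ((G3_Disc_newt w (δ.c h).2).coeff q.2 * y ^ q.2) = 0
        rcases hq with hq | hq
        · rw [G3_Disc_newt_coeff_gt z hq, zero_mul, zero_mul]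
        · rw [G3_Disc_newt_coeff_gt w hq, zero_mul, mul_zero]
    rw [e1, e2, Finset.sum_product, ← G3_Disc_newt_eval z, ← G3_Disc_newt_eval w,
      Polynomial.eval_eq_sum_range, Polynomial.eval_eq_sum_range, G3_Disc_newt_natDegree,
      G3_Disc_newt_natDegree, Finset.sum_mul_sum]
  rw [← hMT, Matrix.det_mul, hT, mul_one]

/-- the product over ordered pairs in the same row is `±` a square -/
private theorem G3_Disc_half (p q : ι → ℕ) (hinj : ∀ i j, p i = p j → q i = q j → i = j)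
    (hlow : ∀ i, ∀ a < p i, ∃ j, p j = a ∧ q j = q i) (u : ℕ → A) :
    ∃ n : ℕ, (∏ i : ι, ∏ j : ι, if i ≠ j ∧ q i = q j then u (p i) - u (p j) else 1) =
      (-1) ^ n * (∏ i : ι, ∏ a ∈ Finset.range (p i), (u (p i) - u a)) ^ 2 := by
  have hE : ∀ i : ι, ∏ a ∈ Finset.range (p i), (u (p i) - u a) =
      ∏ j : ι, if q i = q j ∧ p j < p i then u (p i) - u (p j) else 1 := by
    intro i
    rw [← Finset.prod_filter]
    symm
    apply Finset.prod_bij (fun j _ => p j)
    · intro j hj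
      exact Finset.mem_range.mpr (Finset.mem_filter.mp hj).2.2
    · intro j hj j' hj' h
      exact hinj _ _ h (((Finset.mem_filter.mp hj).2.1).symm.trans (Finset.mem_filter.mp hj').2.1)
    · intro a ha
      obtain ⟨j, hj1, hj2⟩ := hlow i a (Finset.mem_range.mp ha)
      exact ⟨j, Finset.mem_filter.mpr ⟨Finset.mem_univ _, hj2.symm,
        by rw [hj1]; exact Finset.mem_range.mp ha⟩, hj1⟩
    · intro j _
      rfl
  set E := ∏ i : ι, ∏ a ∈ Finset.range (p i), (u (p i) - u a) with hEdef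
  have hE2 : E = ∏ i : ι, ∏ j : ι, if q i = q j ∧ p j < p i then u (p i) - u (p j) else 1 := by
    rw [hEdef]
    exact Finset.prod_congr rfl fun i _ => hE i
  have h1 : (∏ i : ι, ∏ j : ι, if i ≠ j ∧ q i = q j then u (p i) - u (p j) else 1) =
      (∏ i : ι, ∏ j : ι, if q i = q j ∧ p j < p i then u (p i) - u (p j) else 1) *
      (∏ i : ι, ∏ j : ι, if q i = q j ∧ p i < p j then u (p i) - u (p j) else 1) := by
    rw [← Finset.prod_mul_distrib]
    apply Finset.prod_congr rfl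
    intro i _
    rw [← Finset.prod_mul_distrib]
    apply Finset.prod_congr rfl
    intro j _
    by_cases hq : q i = q j
    · rcases lt_trichotomy (p i) (p j) with h | h | h
      · have hij : i ≠ j := by
          rintro rfl
          exact lt_irrefl _ h
        rw [if_pos ⟨hij, hq⟩, if_neg (fun h' => lt_asymm h h'.2), if_pos ⟨hq, h⟩, one_mul]
      · have hij : i = j := hinj _ _ h hq
        rw [if_neg (fun h' => h'.1 hij), if_neg (fun h' => h'.2.ne' h),
          if_neg (fun h' => h'.2.ne h), one_mul]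
      · have hij : i ≠ j := by
          rintro rfl
          exact lt_irrefl _ h
        rw [if_pos ⟨hij, hq⟩, if_pos ⟨hq, h⟩, if_neg (fun h' => lt_asymm h h'.2), mul_one]
    · rw [if_neg (fun h' => hq h'.2), if_neg (fun h' => hq h'.1), if_neg (fun h' => hq h'.1),
        one_mul]
  have h2 : (∏ i : ι, ∏ j : ι, if q i = q j ∧ p i < p j then u (p i) - u (p j) else 1) =
      (∏ i : ι, ∏ j : ι, if q i = q j ∧ p j < p i then (-1 : A) else 1) * E := by
    rw [Finset.prod_comm, hE2, ← Finset.prod_mul_distrib]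
    apply Finset.prod_congr rfl
    intro i _
    rw [← Finset.prod_mul_distrib]
    apply Finset.prod_congr rfl
    intro j _
    by_cases h : q i = q j ∧ p j < p i
    · rw [if_pos ⟨h.1.symm, h.2⟩, if_pos h, if_pos h]
      ring
    · rw [if_neg (fun h' => h ⟨h'.1.symm, h'.2⟩), if_neg h, if_neg h, one_mul]
  have h3 : ∃ n : ℕ, (∏ i : ι, ∏ j : ι, if q i = q j ∧ p j < p i then (-1 : A) else 1) =
      (-1) ^ n := by
    refine ⟨∑ i : ι, ∑ j : ι, if q i = q j ∧ p j < p i then 1 else 0, ?_⟩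
    rw [← Finset.prod_pow_eq_pow_sum]
    apply Finset.prod_congr rfl
    intro i _
    rw [← Finset.prod_pow_eq_pow_sum]
    apply Finset.prod_congr rfl
    intro j _
    split_ifs
    · rw [pow_one]
    · rw [pow_zero]
  obtain ⟨n, hn⟩ := h3
  refine ⟨n, ?_⟩
  rw [h1, h2, ← hE2, hn]
  ring

end G3_Disc_aux

section

variable (k : Type) [Field k] {ι : Type} [Fintype ι] [DecidableEq ι] (δ : Dia ι)

theorem disc_ne_zero : disc k δ ≠ 0 := by
  unfold disc
  apply mul_ne_zero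
  · refine Finset.prod_ne_zero_iff.mpr fun i _ => Finset.prod_ne_zero_iff.mpr fun j _ => ?_
    split_ifs with h
    · intro h0
      have h1 := X_injective (sub_eq_zero.mp h0)
      exact h.1 (δ.inj (Prod.ext (Sum.inl_injective h1) h.2))
    · exact one_ne_zero
  · refine Finset.prod_ne_zero_iff.mpr fun i _ => Finset.prod_ne_zero_iff.mpr fun j _ => ?_
    split_ifs with h
    · intro h0
      have h1 := X_injective (sub_eq_zero.mp h0)
      exact h.1 (δ.inj (Prod.ext h.2 (Sum.inr_injective h1)))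
    · exact one_ne_zero

theorem evG_dl_sq : ∃ ε : k, (ε = 1 ∨ ε = -1) ∧
    ∀ σ : Equiv.Perm ι, evG (δ.c ∘ σ) (dl k δ) ^ 2 = C ε * disc k δ := by
  obtain ⟨n, hn⟩ := G3_Disc_half (fun i => (δ.c i).1) (fun i => (δ.c i).2)
    (fun i j h h' => δ.inj (Prod.ext h h'))
    (fun i a ha => by
      obtain ⟨j, hj⟩ := δ.low i (a, (δ.c i).2) ⟨le_of_lt ha, le_refl _⟩
      exact ⟨j, by rw [hj], by rw [hj]⟩) (fun a => (X (Sum.inl a) : GG k))
  obtain ⟨m, hm⟩ := G3_Disc_half (fun i => (δ.c i).2) (fun i => (δ.c i).1)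
    (fun i j h h' => δ.inj (Prod.ext h' h))
    (fun i a ha => by
      obtain ⟨j, hj⟩ := δ.low i ((δ.c i).1, a) ⟨le_refl _, le_of_lt ha⟩
      exact ⟨j, by rw [hj], by rw [hj]⟩) (fun a => (X (Sum.inr a) : GG k))
  refine ⟨(-1) ^ (n + m), neg_one_pow_eq_or k (n + m), fun σ => ?_⟩
  have h1 : evG (δ.c ∘ σ) (dl k δ) = Matrix.det ((Matrix.of fun i h : ι =>
      (X (Sum.inl (δ.c i).1) : GG k) ^ (δ.c h).1 * X (Sum.inr (δ.c i).2) ^ (δ.c h).2).submatrix
        σ id) := by
    have := AlgHom.map_det (evG (k := k) (δ.c ∘ σ)) (Matrix.of fun i j : ι =>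
      (xx i ^ (δ.c j).1 * yy i ^ (δ.c j).2 : RR k ι))
    unfold dl alt
    rw [this]
    congr 1
    ext1 i j
    simp [evG, xx, yy]
  have h2 : disc k δ = ((-1) ^ n * (∏ i : ι, ∏ a ∈ Finset.range (δ.c i).1,
      ((X (Sum.inl (δ.c i).1) : GG k) - X (Sum.inl a))) ^ 2) *
      ((-1) ^ m * (∏ i : ι, ∏ a ∈ Finset.range (δ.c i).2,
      ((X (Sum.inr (δ.c i).2) : GG k) - X (Sum.inr a))) ^ 2) := by
    rw [← hn, ← hm]
    rfl
  rw [h1, Matrix.det_permute, h2,
    G3_Disc_det δ (fun a => (X (Sum.inl a) : GG k)) (fun a => (X (Sum.inr a) : GG k)),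
    Finset.prod_mul_distrib, map_pow, map_neg, map_one, mul_pow, mul_pow]
  have h3 : ((((Equiv.Perm.sign σ : ℤˣ) : ℤ) : GG k)) ^ 2 = 1 := by
    rw [← Int.cast_pow, ← Units.val_pow_eq_pow_val, Int.units_sq]
    simp
  have h4 : ((-1 : GG k) ^ n) ^ 2 = 1 := by
    rw [← pow_mul, mul_comm, pow_mul, neg_one_sq, one_pow]
  have h5 : ((-1 : GG k) ^ m) ^ 2 = 1 := by
    rw [← pow_mul, mul_comm, pow_mul, neg_one_sq, one_pow]
  rw [h3, pow_add]
  linear_combination (-(((∏ i : ι, ∏ a ∈ Finset.range (δ.c i).1,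
      ((X (Sum.inl (δ.c i).1) : GG k) - X (Sum.inl a))) ^ 2) *
      ((∏ i : ι, ∏ a ∈ Finset.range (δ.c i).2,
      ((X (Sum.inr (δ.c i).2) : GG k) - X (Sum.inr a))) ^ 2)) * ((-1 : GG k) ^ m) ^ 2) * h4 -
      (((∏ i : ι, ∏ a ∈ Finset.range (δ.c i).1,
      ((X (Sum.inl (δ.c i).1) : GG k) - X (Sum.inl a))) ^ 2) *
      ((∏ i : ι, ∏ a ∈ Finset.range (δ.c i).2,
      ((X (Sum.inr (δ.c i).2) : GG k) - X (Sum.inr a))) ^ 2)) * h5

theorem evG_dl_ne_zero (σ : Equiv.Perm ι) : evG (δ.c ∘ σ) (dl k δ) ≠ 0 := by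
  obtain ⟨ε, hε, h⟩ := evG_dl_sq k δ
  intro h0
  have h1 := h σ
  rw [h0, zero_pow two_ne_zero] at h1
  have h2 := mul_eq_zero.1 h1.symm
  rcases h2 with h2 | h2
  · rw [C_eq_zero] at h2
    rcases hε with rfl | rfl
    · exact one_ne_zero h2
    · exact one_ne_zero (neg_eq_zero.1 h2)
  · exact disc_ne_zero k δ h2

theorem sub_dvd_disc_x (i j : ι) (h : (δ.c i).1 ≠ (δ.c j).1) :
    (X (Sum.inl (δ.c i).1) - X (Sum.inl (δ.c j).1) : GG k) ∣ disc k δ := by
  obtain ⟨i', hi⟩ := δ.low i ((δ.c i).1, 0) ⟨le_refl _, Nat.zero_le _⟩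
  obtain ⟨j', hj⟩ := δ.low j ((δ.c j).1, 0) ⟨le_refl _, Nat.zero_le _⟩
  have hij : i' ≠ j' := by
    rintro rfl
    rw [hi] at hj
    exact h (Prod.mk.inj hj).1
  unfold disc
  apply Dvd.dvd.mul_right
  refine dvd_trans ?_ (Finset.dvd_prod_of_mem _ (Finset.mem_univ i'))
  refine dvd_trans ?_ (Finset.dvd_prod_of_mem _ (Finset.mem_univ j'))
  rw [if_pos ⟨hij, by rw [hi, hj]⟩, hi, hj]

theorem sub_dvd_disc_y (i j : ι) (h : (δ.c i).2 ≠ (δ.c j).2) :
    (X (Sum.inr (δ.c i).2) - X (Sum.inr (δ.c j).2) : GG k) ∣ disc k δ := by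
  obtain ⟨i', hi⟩ := δ.low i (0, (δ.c i).2) ⟨Nat.zero_le _, le_refl _⟩
  obtain ⟨j', hj⟩ := δ.low j (0, (δ.c j).2) ⟨Nat.zero_le _, le_refl _⟩
  have hij : i' ≠ j' := by
    rintro rfl
    rw [hi] at hj
    exact h (Prod.mk.inj hj).2
  unfold disc
  apply Dvd.dvd.mul_left
  refine dvd_trans ?_ (Finset.dvd_prod_of_mem _ (Finset.mem_univ i'))
  refine dvd_trans ?_ (Finset.dvd_prod_of_mem _ (Finset.mem_univ j'))
  rw [if_pos ⟨hij, by rw [hi, hj]⟩, hi, hj]

end

end Pool.Agent.Lib.MP_463376_co
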