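import Pool.Agent.Lib.MP_463376_co.G3_Disc

/-!
# Stream G3, job Dual: Lagrange interpolation on the orderings of the grid (elementary)

`W = {F : Perm ι → GG k | ∃ a, ∀ σ, F σ = ∑ v, a v * G v σ}` is a `GG k`-submodule and contains the functions
`σ ↦ evG (δ.c ∘ σ) f`, `f ∈ RR k ι`.  Let `E` be the `GG k`-span of these functions: it is closed under products,
so it contains, for fixed `σ`, the function `F = ∏_{σ' ≠ σ} l_{σ'}` where `l_{σ'} = x_i - z_{(δ.c (σ' i)).1}` if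
`(δ.c (σ i)).1 ≠ (δ.c (σ' i)).1` for some `i`, and otherwise `l_{σ'} = y_i - w_{(δ.c (σ' i)).2}` with `i` such that
`(δ.c (σ i)).2 ≠ (δ.c (σ' i)).2` (some `i` has `σ i ≠ σ' i`, and `δ.c` is injective). `F` vanishes at all `σ' ≠ σ`, and
`F σ` divides `disc ^ N`, `N = (number of σ' ≠ σ)`, by `sub_dvd_disc_x`, `sub_dvd_disc_y`.
-/

namespace Pool.Agent.Lib.MP_463376_co

open MvPolynomial

section

variable {k : Type} [Field k] {ι : Type} [Fintype ι] [DecidableEq ι]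

/-- the point of the grid belonging to an ordering -/
private noncomputable def g3dual_pt (k : Type) [Field k] {ι : Type} (c : ι → ℕ × ℕ) :
    ι ⊕ ι → GG k :=
  Sum.elim (fun i => X (Sum.inl (c i).1)) (fun i => X (Sum.inr (c i).2))

private theorem g3dual_mem (δ : Dia ι) {V : Type} [Fintype V] (G : V → Equiv.Perm ι → GG k)
    (h : ∀ f : RR k ι, ∃ a : V → GG k, ∀ σ : Equiv.Perm ι,
      evG (δ.c ∘ σ) f = ∑ v, a v * G v σ) (F : MvPolynomial (ι ⊕ ι) (GG k)) :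
    ∃ a : V → GG k, ∀ σ : Equiv.Perm ι,
      MvPolynomial.eval (g3dual_pt k (δ.c ∘ σ)) F = ∑ v, a v * G v σ := by
  induction F using MvPolynomial.induction_on' with
  | monomial m c =>
    obtain ⟨a, ha⟩ := h (monomial m 1)
    refine ⟨fun v => c * a v, fun σ => ?_⟩
    have h1 := ha σ
    simp only [mul_assoc, ← Finset.mul_sum]
    rw [← h1, MvPolynomial.eval_monomial]
    congr 1
    rw [evG, aeval_monomial, map_one, one_mul]
    rfl
  | add p q hp hq =>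
    obtain ⟨a, ha⟩ := hp
    obtain ⟨b, hb⟩ := hq
    refine ⟨fun v => a v + b v, fun σ => ?_⟩
    rw [map_add, ha σ, hb σ, ← Finset.sum_add_distrib]
    exact Finset.sum_congr rfl fun v _ => by ring

private theorem g3dual_factor (δ : Dia ι) (σ σ' : Equiv.Perm ι) (hne : σ' ≠ σ) :
    ∃ l : MvPolynomial (ι ⊕ ι) (GG k),
      MvPolynomial.eval (g3dual_pt k (δ.c ∘ σ')) l = 0 ∧
      MvPolynomial.eval (g3dual_pt k (δ.c ∘ σ)) l ∣ disc k δ := by
  obtain ⟨i, hi⟩ : ∃ i, σ' i ≠ σ i := by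
    by_contra hcon
    push Not at hcon
    exact hne (Equiv.ext hcon)
  by_cases h1 : (δ.c (σ i)).1 = (δ.c (σ' i)).1
  · have h2 : (δ.c (σ i)).2 ≠ (δ.c (σ' i)).2 := fun h2 => hi (δ.inj (Prod.ext h1 h2)).symm
    refine ⟨X (Sum.inr i) - C (X (Sum.inr (δ.c (σ' i)).2)), ?_, ?_⟩
    · simp [g3dual_pt]
    · simpa [g3dual_pt] using sub_dvd_disc_y k δ _ _ h2
  · refine ⟨X (Sum.inl i) - C (X (Sum.inl (δ.c (σ' i)).1)), ?_, ?_⟩
    · simp [g3dual_pt]
    · simpa [g3dual_pt] using sub_dvd_disc_x k δ _ _ h1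

theorem exists_dual (δ : Dia ι) {V : Type} [Fintype V] (G : V → Equiv.Perm ι → GG k)
    (h : ∀ f : RR k ι, ∃ a : V → GG k, ∀ σ : Equiv.Perm ι,
      evG (δ.c ∘ σ) f = ∑ v, a v * G v σ) :
    ∃ N : ℕ, ∃ b : Equiv.Perm ι → V → GG k, ∀ σ σ' : Equiv.Perm ι,
      ∑ v, b σ v * G v σ' = if σ = σ' then disc k δ ^ N else 0 := by
  classical
  refine ⟨Fintype.card (Equiv.Perm ι) - 1, ?_⟩
  have key : ∀ σ : Equiv.Perm ι, ∃ b : V → GG k, ∀ σ' : Equiv.Perm ι,
      ∑ v, b v * G v σ' = if σ = σ' then disc k δ ^ (Fintype.card (Equiv.Perm ι) - 1) else 0 := by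
    intro σ
    have hl : ∀ σ' : Equiv.Perm ι, σ' ≠ σ → ∃ l : MvPolynomial (ι ⊕ ι) (GG k),
      MvPolynomial.eval (g3dual_pt k (δ.c ∘ σ')) l = 0 ∧
      MvPolynomial.eval (g3dual_pt k (δ.c ∘ σ)) l ∣ disc k δ :=
      fun σ' hne => g3dual_factor δ σ σ' hne
    choose! l hl1 hl2 using hl
    set F : MvPolynomial (ι ⊕ ι) (GG k) := ∏ τ ∈ Finset.univ.erase σ, l τ with hF
    obtain ⟨a, ha⟩ := g3dual_mem δ G h F
    have hdvd : MvPolynomial.eval (g3dual_pt k (δ.c ∘ σ)) F ∣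
        disc k δ ^ (Fintype.card (Equiv.Perm ι) - 1) := by
      rw [hF, map_prod]
      have h3 : ∏ τ ∈ Finset.univ.erase σ, MvPolynomial.eval (g3dual_pt k (δ.c ∘ σ)) (l τ) ∣
          ∏ _τ ∈ Finset.univ.erase σ, disc k δ :=
        Finset.prod_dvd_prod_of_dvd _ _ fun τ hτ => hl2 τ (Finset.ne_of_mem_erase hτ)
      rwa [Finset.prod_const, Finset.card_erase_of_mem (Finset.mem_univ _),
        Finset.card_univ] at h3
    obtain ⟨q, hq⟩ := hdvd
    refine ⟨fun v => q * a v, fun σ' => ?_⟩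
    have e1 : ∑ v, q * a v * G v σ' = q * MvPolynomial.eval (g3dual_pt k (δ.c ∘ σ')) F := by
      rw [ha σ', Finset.mul_sum]
      exact Finset.sum_congr rfl fun v _ => by ring
    rw [e1]
    by_cases hs : σ = σ'
    · subst hs
      rw [if_pos rfl, hq, mul_comm]
    · rw [if_neg hs, hF, map_prod,
        Finset.prod_eq_zero (Finset.mem_erase.2 ⟨fun e => hs e.symm, Finset.mem_univ σ'⟩)
          (hl1 σ' (fun e => hs e.symm)), mul_zero]
  choose b hb using key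
  exact ⟨b, hb⟩

end

end Pool.Agent.Lib.MP_463376_co
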