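import Pool.Agent.Lib.MP_463376_co.G3_Tor

/-!
# Stream G3, job HomK: homogeneous elements of `Frac (k[z,w])` which are integral at the origin are polynomials

`GG k` is a UFD, hence integrally closed (`MvPolynomial` over a field): `s * x = algebraMap p` for a polynomial `p`
(`IsIntegrallyClosed`). Write `x = num / den` in lowest terms (`IsFractionRing.num`, `IsFractionRing.den`, relatively
prime). From `den * p = s * num` we get `den ∣ s`, so the constant term of `den` is not zero. From
`tauK x = evv a b • x` we get `tau num * den = evv a b • (num * tau den)`, so `den ∣ tau den`, and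
(equal degrees / `tau⁻¹`) `tau den = c • den` with `c ∈ k`: comparing constant terms `c = 1`, so
`tau den = den = evv 0 0 • den`, `den` is bihomogeneous of bidegree `(0,0)`, i.e. a constant (`tau_eigen_iff`). For
`tau den = C c * den`: `den ∣ tau den` and `tau den`, `den` have the same total degree (same support).
-/

namespace Pool.Agent.Lib.MP_463376_co

open MvPolynomial

section

variable {k : Type} [Field k] [CharZero k]

private theorem g3homK_dgx_zero {α : Type} : dgx (0 : α ⊕ α →₀ ℕ) = 0 := by
  simp [dgx]

private theorem g3homK_dgy_zero {α : Type} : dgy (0 : α ⊕ α →₀ ℕ) = 0 := by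
  simp [dgy]

private theorem g3homK_eq_zero {α : Type} (m : α ⊕ α →₀ ℕ) (h1 : dgx m = 0) (h2 : dgy m = 0) :
    m = 0 := by
  classical
  ext v
  by_contra hv
  have hmem : v ∈ m.support := Finsupp.mem_support_iff.mpr hv
  rcases v with i | i
  · have : m (Sum.inl i) ≤ dgx m := by
      unfold dgx Finsupp.sum
      exact Finset.single_le_sum (f := fun v => Sum.elim (fun _ => m v) (fun _ => 0) v)
        (fun _ _ => Nat.zero_le _) hmem
    simp at hv
    omega
  · have : m (Sum.inr i) ≤ dgy m := by
      unfold dgy Finsupp.sum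
      exact Finset.single_le_sum (f := fun v => Sum.elim (fun _ => 0) (fun _ => m v) v)
        (fun _ _ => Nat.zero_le _) hmem
    simp at hv
    omega

private theorem g3homK_support (f : GG k) : (tau k ℕ f).support = f.support := by
  ext m
  rw [mem_support_iff, mem_support_iff, tau_coeff]
  have h2 : (2 : k) ^ dgx m * 3 ^ dgy m ≠ 0 := by
    apply mul_ne_zero <;> apply pow_ne_zero <;> norm_num
  constructor
  · intro h h0
    exact h (by rw [h0, mul_zero])
  · intro h
    exact mul_ne_zero h2 h

private theorem g3homK_const (f : GG k) : constantCoeff (tau k ℕ f) = constantCoeff f := by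
  rw [constantCoeff_eq, tau_coeff, g3homK_dgx_zero, g3homK_dgy_zero]
  simp

theorem homK (x : KG k) (s : GG k) (hs : constantCoeff s ≠ 0)
    (hint : IsIntegral (GG k) (algebraMap (GG k) (KG k) s * x)) (a b : ℤ)
    (hx : tauK k x = evv k a b • x) :
    ∃ u : GG k, x = algebraMap (GG k) (KG k) u ∧ IsBihom u a b := by
  obtain ⟨p, hp⟩ := IsIntegrallyClosed.isIntegral_iff.mp hint
  set N : GG k := IsFractionRing.num (GG k) x with hN
  set D : GG k := (IsFractionRing.den (GG k) x : GG k) with hD
  have hD0 : D ≠ 0 := nonZeroDivisors.ne_zero (IsFractionRing.den (GG k) x).2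
  have hinj : Function.Injective (algebraMap (GG k) (KG k)) := IsFractionRing.injective _ _
  have hD0' : algebraMap (GG k) (KG k) D ≠ 0 := fun h => hD0 (hinj (by rw [h, map_zero]))
  have hxD : x * algebraMap (GG k) (KG k) D = algebraMap (GG k) (KG k) N := by
    have h1 := IsFractionRing.mk'_num_den (GG k) x
    have h2 := IsLocalization.mk'_spec (KG k) (IsFractionRing.num (GG k) x) (IsFractionRing.den (GG k) x)
    rw [h1] at h2
    exact h2
  have hrel : IsRelPrime N D := IsFractionRing.num_den_reduced (GG k) x
  -- the constant term of the denominator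
  have h3 : s * N = p * D := by
    apply hinj
    rw [map_mul, map_mul, ← hxD, hp]
    ring
  have h4 : D ∣ s := by
    apply IsRelPrime.dvd_of_dvd_mul_right hrel.symm
    exact ⟨p, by rw [h3]; ring⟩
  have h5 : constantCoeff D ≠ 0 := by
    obtain ⟨q, hq⟩ := h4
    intro h
    apply hs
    rw [hq, map_mul, h, zero_mul]
  -- the eigenvalue equation
  have h6 : tau k ℕ N * D = N * (C (evv k a b) * tau k ℕ D) := by
    apply hinj
    have e1 := congrArg (tauK k) hxD
    rw [map_mul, tauK_algebraMap, tauK_algebraMap, hx] at e1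
    rw [map_mul, map_mul, map_mul, ← hxD, ← e1]
    have e2 : evv k a b • x = algebraMap (GG k) (KG k) (C (evv k a b)) * x := by
      rw [Algebra.smul_def]
      rfl
    rw [e2]
    ring
  have h7 : D ∣ tau k ℕ D := by
    have : D ∣ C (evv k a b) * tau k ℕ D := by
      apply IsRelPrime.dvd_of_dvd_mul_left hrel.symm
      exact ⟨tau k ℕ N, by rw [← h6]; ring⟩
    obtain ⟨q, hq⟩ := this
    refine ⟨C (evv k a b)⁻¹ * q, ?_⟩
    have : tau k ℕ D = C (evv k a b)⁻¹ * (C (evv k a b) * tau k ℕ D) := by
      rw [← mul_assoc, ← C_mul, inv_mul_cancel₀ (evv_ne_zero a b), C_1, one_mul]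
    rw [this, hq]
    ring
  obtain ⟨r, hr⟩ := h7
  have hT0 : tau k ℕ D ≠ 0 := by
    intro h
    exact hD0 ((tau k ℕ).injective (by rw [h, map_zero]))
  have hr0 : r ≠ 0 := by
    intro h
    exact hT0 (by rw [hr, h, mul_zero])
  have hdeg : r.totalDegree = 0 := by
    have e1 := totalDegree_mul_of_isDomain hD0 hr0
    rw [← hr] at e1
    have e2 : (tau k ℕ D).totalDegree = D.totalDegree := by
      unfold totalDegree
      rw [g3homK_support]
    omega
  have hrC : r = C (coeff 0 r) := totalDegree_eq_zero_iff_eq_C.mp hdeg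
  have hr1 : coeff 0 r = 1 := by
    have e1 := g3homK_const D
    rw [hr, map_mul, hrC, constantCoeff_C] at e1
    exact mul_left_cancel₀ h5 (by rw [e1, mul_one])
  have hDD : tau k ℕ D = D := by
    rw [hr, hrC, hr1, C_1, mul_one]
  have hDbi : IsBi D 0 0 := by
    rw [← tau_eigen_iff, evv_zero, one_smul, hDD]
  have hDC : D = C (constantCoeff D) := by
    ext m
    rw [coeff_C]
    split_ifs with hm
    · rw [← hm, constantCoeff_eq]
    · by_contra hne
      obtain ⟨e1, e2⟩ := hDbi m hne
      apply hm
      rw [g3homK_eq_zero m (by exact_mod_cast e1) (by exact_mod_cast e2)]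
  refine ⟨C (constantCoeff D)⁻¹ * N, ?_, ?_⟩
  · rw [map_mul, ← hxD]
    have e1 : algebraMap (GG k) (KG k) (C (constantCoeff D)⁻¹) * algebraMap (GG k) (KG k) D = 1 := by
      rw [← map_mul]
      conv_lhs => rw [hDC]
      rw [constantCoeff_C, ← C_mul, inv_mul_cancel₀ h5, C_1, map_one]
    calc x = x * 1 := (mul_one x).symm
      _ = _ := by rw [← e1]; ring
  · rw [g3_isBihom_iff, ← tau_eigen_iff]
    have e1 : tau k ℕ N = evv k a b • N := by
      rw [hDD] at h6
      have e2 : tau k ℕ N * D = (evv k a b • N) * D := by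
        rw [h6, smul_eq_C_mul]
        ring
      exact mul_right_cancel₀ hD0 e2
    have e3 : tau k ℕ (C (constantCoeff D)⁻¹) = (C (constantCoeff D)⁻¹ : GG k) := by
      exact (tau k ℕ).commutes _
    rw [map_mul, e1, e3, smul_eq_C_mul, smul_eq_C_mul]
    ring

end

end Pool.Agent.Lib.MP_463376_co
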