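import Pool.Agent.Lib.MP_463376_co.G3_Ev
import Pool.Agent.Lib.MP_463376_co.G3_HomK

/-!
# Stream G3, job EA: values of the elements of `A`

`a * y = x` with `x, y ∈ O`, `y ∉ nn` (`mem_AA_iff`); `ψ a = E x / E y` with `E` from `exists_EO`, and `evC σ` of an element
of `O` is its value `E` (`evC_spec`, `OO_frac`, `evG_dl_ne_zero`). `a` is not a unit iff `x ∈ nn`.
`EA_hom`: `homK` with `s = v`.
-/

namespace Pool.Agent.Lib.MP_463376_co

open MvPolynomial

section

variable (k : Type) [Field k] [CharZero k] {ι : Type} [Fintype ι] [DecidableEq ι]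
  (L : Type) [Field L] [Algebra k L] [Algebra (RR k ι) L]
  [IsScalarTower k (RR k ι) L] [IsFractionRing (RR k ι) L] (δ : Dia ι)

theorem g3ea_OO_le_AA : OO k L δ ≤ AA k L δ := fun _ hx => Algebra.subset_adjoin (Or.inl hx)

theorem g3ea_ne_zero (b : OO k L δ) (hb : b ∉ nn k L δ) : (b : L) ≠ 0 := by
  intro h0
  apply hb
  have : b = 0 := Subtype.ext h0
  rw [this]
  exact (nn k L δ).zero_mem

theorem g3ea_inv_mem (b : OO k L δ) (hb : b ∉ nn k L δ) : (b : L)⁻¹ ∈ AA k L δ :=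
  Algebra.subset_adjoin (Or.inr ⟨b, hb, inv_mul_cancel₀ (g3ea_ne_zero k L δ b hb)⟩)

theorem g3ea_not_isUnit_iff (a : AA k L δ) (x y : OO k L δ) (hy : y ∉ nn k L δ)
    (h : (a : L) * y = x) : ¬ IsUnit a ↔ x ∈ nn k L δ := by
  obtain ⟨φ, hφ⟩ := residue k L δ
  have mem : ∀ z : OO k L δ, z ∈ nn k L δ ↔ φ z = 0 := fun z => by rw [← hφ, RingHom.mem_ker]
  rw [not_iff_comm]
  constructor
  · intro hx
    have hx0 : (x : L) ≠ 0 := g3ea_ne_zero k L δ x hx
    refine IsUnit.of_mul_eq_one (⟨(y : L) * (x : L)⁻¹,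
      (AA k L δ).mul_mem (g3ea_OO_le_AA k L δ y.2) (g3ea_inv_mem k L δ x hx)⟩ : AA k L δ) ?_
    apply Subtype.ext
    change (a : L) * ((y : L) * (x : L)⁻¹) = 1
    rw [← mul_assoc, h, mul_inv_cancel₀ hx0]
  · intro ha hx
    obtain ⟨b, hb⟩ := ha.exists_right_inv
    obtain ⟨x', y', hy', h'⟩ := (mem_AA_iff k L δ (b : L)).1 b.2
    have hmul : x * x' = y * y' := by
      apply Subtype.ext
      change (x : L) * (x' : L) = (y : L) * (y' : L)
      have hab : (a : L) * (b : L) = 1 := congrArg (fun t : AA k L δ => (t : L)) hb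
      calc (x : L) * (x' : L) = (a * y) * (b * y') := by rw [h, h']
        _ = (a * b) * (y * y') := by ring
        _ = (y : L) * (y' : L) := by rw [hab, one_mul]
    have h1 : x * x' ∈ nn k L δ := Ideal.mul_mem_right _ _ hx
    rw [hmul, mem, map_mul] at h1
    rcases mul_eq_zero.1 h1 with h2 | h2
    · exact hy ((mem y).2 h2)
    · exact hy' ((mem y').2 h2)

theorem g3ea_evC_OO (E : OO k L δ →ₐ[k] GG k)
    (hE : ∀ (x : OO k L δ) (d : ℕ) (f : RR k ι), (x : L) * toL k L (dl k δ) ^ d = toL k L f →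
      ∀ σ : Equiv.Perm ι, evG (δ.c ∘ σ) f = E x * evG (δ.c ∘ σ) (dl k δ) ^ d)
    (σ : Equiv.Perm ι) (c : CC k L δ) (x : OO k L δ) (h : (c : L) = x) :
    evC k L δ σ c = algebraMap (GG k) (KG k) (E x) := by
  obtain ⟨d, f, hf⟩ := OO_frac k L δ x
  have h1 := evC_spec k L δ σ c f (dl k δ ^ d) (by rw [h, map_pow, hf])
  rw [map_pow, hE x d f hf σ, map_mul, map_pow] at h1
  have h2 : algebraMap (GG k) (KG k) (evG (δ.c ∘ σ) (dl k δ)) ≠ 0 := by
    intro h0
    exact evG_dl_ne_zero k δ σ ((IsFractionRing.injective (GG k) (KG k)) (by rw [h0, map_zero]))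
  exact mul_right_cancel₀ (pow_ne_zero d h2) h1

theorem exists_EA : ∃ ψ : AA k L δ →ₐ[k] KG k,
    (∀ (σ : Equiv.Perm ι) (a : AA k L δ),
      evC k L δ σ (algebraMap (AA k L δ) (CC k L δ) a) = ψ a) ∧
    ∀ a : AA k L δ, ∃ u v : GG k, constantCoeff v ≠ 0 ∧
      ψ a * algebraMap (GG k) (KG k) v = algebraMap (GG k) (KG k) u ∧
      (¬ IsUnit a ↔ constantCoeff u = 0) := by
  obtain ⟨E, hE, hE0⟩ := exists_EO k L δ
  have hinj := IsFractionRing.injective (GG k) (KG k)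
  obtain ⟨j, hj⟩ : ∃ j : AA k L δ →ₐ[k] CC k L δ,
      ∀ a, algebraMap (AA k L δ) (CC k L δ) a = j a :=
    ⟨Subalgebra.inclusion (le_sup_left : AA k L δ ≤ AA k L δ ⊔ PP k L δ), fun a =>
      Subtype.ext (by
        rw [coe_algebraMap_AACC]
        exact (Subalgebra.coe_inclusion (le_sup_left : AA k L δ ≤ AA k L δ ⊔ PP k L δ) a).symm)⟩
  have key : ∀ (σ : Equiv.Perm ι) (a : AA k L δ) (x y : OO k L δ), (a : L) * y = x →
      evC k L δ σ (algebraMap (AA k L δ) (CC k L δ) a) * algebraMap (GG k) (KG k) (E y) =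
        algebraMap (GG k) (KG k) (E x) := by
    intro σ a x y h
    have hle : AA k L δ ≤ CC k L δ := le_sup_left
    obtain ⟨cy, hcy⟩ : ∃ cy : CC k L δ, (cy : L) = y := ⟨⟨y, hle (g3ea_OO_le_AA k L δ y.2)⟩, rfl⟩
    obtain ⟨cx, hcx⟩ : ∃ cx : CC k L δ, (cx : L) = x := ⟨⟨x, hle (g3ea_OO_le_AA k L δ x.2)⟩, rfl⟩
    have hc : algebraMap (AA k L δ) (CC k L δ) a * cy = cx := by
      apply Subtype.ext
      rw [MulMemClass.coe_mul, coe_algebraMap_AACC, hcy, hcx, h]
    rw [← g3ea_evC_OO k L δ E hE σ cy y hcy, ← g3ea_evC_OO k L δ E hE σ cx x hcx, ← map_mul, hc]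
  refine ⟨(evC k L δ 1).comp j, ?_, ?_⟩
  · intro σ a
    obtain ⟨x, y, hy, h⟩ := (mem_AA_iff k L δ (a : L)).1 a.2
    have h1 := key σ a x y h
    have h2 := key 1 a x y h
    have h3 : algebraMap (GG k) (KG k) (E y) ≠ 0 := by
      intro h0
      have : E y = 0 := hinj (by rw [h0, map_zero])
      exact hy ((hE0 y).1 (by rw [this, map_zero]))
    rw [AlgHom.comp_apply, ← hj]
    exact mul_right_cancel₀ h3 (h1.trans h2.symm)
  · intro a
    obtain ⟨x, y, hy, h⟩ := (mem_AA_iff k L δ (a : L)).1 a.2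
    refine ⟨E x, E y, fun h0 => hy ((hE0 y).1 h0), ?_, ?_⟩
    · rw [AlgHom.comp_apply, ← hj]
      exact key 1 a x y h
    · rw [hE0]
      exact g3ea_not_isUnit_iff k L δ a x y hy h

/-- the value of an element of `A` (it does not depend on the ordering) -/
noncomputable def EA : AA k L δ →ₐ[k] KG k := (exists_EA k L δ).choose

theorem evC_algebraMap (σ : Equiv.Perm ι) (a : AA k L δ) :
    evC k L δ σ (algebraMap (AA k L δ) (CC k L δ) a) = EA k L δ a :=
  (exists_EA k L δ).choose_spec.1 σ a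

theorem EA_frac (a : AA k L δ) : ∃ u v : GG k, constantCoeff v ≠ 0 ∧
    EA k L δ a * algebraMap (GG k) (KG k) v = algebraMap (GG k) (KG k) u ∧
    (¬ IsUnit a ↔ constantCoeff u = 0) :=
  (exists_EA k L δ).choose_spec.2 a

theorem EA_tau (a a' : AA k L δ) (h : (a' : L) = tauL k ι L (a : L)) :
    EA k L δ a' = tauK k (EA k L δ a) := by
  rw [← evC_algebraMap k L δ 1 a', ← evC_algebraMap k L δ 1 a]
  exact evC_tau k L δ 1 _ _ (by rw [coe_algebraMap_AACC, coe_algebraMap_AACC, h])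

theorem EA_hom (a : AA k L δ) (p q : ℤ) (h : tauL k ι L (a : L) = evv k p q • (a : L)) :
    ∃ u : GG k, EA k L δ a = algebraMap (GG k) (KG k) u ∧ IsBihom u p q ∧
      ∀ c : k, ¬ IsUnit (a - algebraMap k (AA k L δ) c) → u.coeff 0 = c := by
  have hinj := IsFractionRing.injective (GG k) (KG k)
  have h1 : tauK k (EA k L δ a) = evv k p q • EA k L δ a := by
    rw [← EA_tau k L δ a (evv k p q • a) (by rw [h]; rfl), map_smul]
  obtain ⟨u, v, hv, huv, -⟩ := EA_frac k L δ a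
  obtain ⟨u', hu', hb⟩ := homK (EA k L δ a) v hv (by
    rw [mul_comm, huv]
    exact isIntegral_algebraMap) p q h1
  refine ⟨u', hu', hb, fun c hc => ?_⟩
  obtain ⟨u₁, v₁, hv₁, huv₁, hiff⟩ := EA_frac k L δ (a - algebraMap k (AA k L δ) c)
  have h2 : EA k L δ (a - algebraMap k (AA k L δ) c) = algebraMap (GG k) (KG k) (u' - C c) := by
    rw [map_sub, AlgHom.commutes, hu', map_sub]
    rw [IsScalarTower.algebraMap_apply k (GG k) (KG k), MvPolynomial.algebraMap_eq]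
  rw [h2, ← map_mul] at huv₁
  have h3 := hinj huv₁
  have h4 : constantCoeff ((u' - C c) * v₁) = 0 := by rw [h3, ← hiff]; exact hc
  rw [map_mul, map_sub, constantCoeff_C] at h4
  rcases mul_eq_zero.1 h4 with h5 | h5
  · exact sub_eq_zero.1 h5
  · exact absurd h5 hv₁

end

end Pool.Agent.Lib.MP_463376_co
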