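import Pool.Agent.Lib.MP_463376_co.G3_Gam
import Pool.Agent.Lib.MP_463376_co.G3_Disc

/-!
# Stream G3, job EO: evaluation of the elements of `O` on the grid

By `evG_alt` the generators of `O` have a polynomial value `u` (the same for all orderings `σ`), so all
elements of `O` do (`Algebra.adjoin_induction`); the value is unique as `evG (dl) ≠ 0`, so it defines an algebra
map `E : O → GG`. Elements of `nn` have value without constant term (`evG_alt`, ideal generated by).
Conversely let `φ` be the residue map (`residue`): `x = φ x + ν` with `ν ∈ nn`, so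
`constantCoeff (E x) = φ x`.
-/

namespace Pool.Agent.Lib.MP_463376_co

open MvPolynomial

section

variable (k : Type) [Field k] [CharZero k] {ι : Type} [Fintype ι] [DecidableEq ι]
  (L : Type) [Field L] [Algebra k L] [Algebra (RR k ι) L]
  [IsScalarTower k (RR k ι) L] [IsFractionRing (RR k ι) L] (δ : Dia ι)

omit [CharZero k] [Fintype ι] [DecidableEq ι] in
private theorem g3eo_toL_inj : Function.Injective (toL k L : RR k ι →ₐ[k] L) := by
  intro a b h
  exact IsFractionRing.injective (RR k ι) L h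

/-- `u` is the value of `x` -/
private def G3eoR (x : L) (u : GG k) : Prop :=
  ∃ (d : ℕ) (f : RR k ι), x * toL k L (dl k δ) ^ d = toL k L f ∧
    ∀ σ : Equiv.Perm ι, evG (δ.c ∘ σ) f = u * evG (δ.c ∘ σ) (dl k δ) ^ d

omit [CharZero k] [IsFractionRing (RR k ι) L] in
private theorem g3eo_add {x y : L} {u v : GG k} (hx : G3eoR k L δ x u) (hy : G3eoR k L δ y v) :
    G3eoR k L δ (x + y) (u + v) := by
  obtain ⟨d, f, hf, hu⟩ := hx
  obtain ⟨e, g, hg, hv⟩ := hy
  refine ⟨d + e, f * dl k δ ^ e + g * dl k δ ^ d, ?_, ?_⟩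
  · rw [map_add, map_mul, map_mul, map_pow, map_pow, ← hf, ← hg]
    ring
  · intro σ
    rw [map_add, map_mul, map_mul, map_pow, map_pow, hu, hv]
    ring

omit [CharZero k] [IsFractionRing (RR k ι) L] in
private theorem g3eo_mul {x y : L} {u v : GG k} (hx : G3eoR k L δ x u) (hy : G3eoR k L δ y v) :
    G3eoR k L δ (x * y) (u * v) := by
  obtain ⟨d, f, hf, hu⟩ := hx
  obtain ⟨e, g, hg, hv⟩ := hy
  refine ⟨d + e, f * g, ?_, ?_⟩
  · rw [map_mul, ← hf, ← hg]
    ring
  · intro σ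
    rw [map_mul, hu, hv]
    ring

omit [CharZero k] [IsFractionRing (RR k ι) L] in
private theorem g3eo_C (c : k) : G3eoR k L δ (algebraMap k L c) (C c) := by
  refine ⟨0, C c, ?_, ?_⟩
  · rw [pow_zero, mul_one]
    exact ((toL k L : RR k ι →ₐ[k] L).commutes c).symm
  · intro σ
    rw [pow_zero, mul_one]
    exact (evG (δ.c ∘ σ) : RR k ι →ₐ[k] GG k).commutes c

omit [CharZero k] in
private theorem g3eo_all {x : L} {u : GG k} (hx : G3eoR k L δ x u) (d : ℕ) (f : RR k ι)
    (hf : x * toL k L (dl k δ) ^ d = toL k L f) (σ : Equiv.Perm ι) :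
    evG (δ.c ∘ σ) f = u * evG (δ.c ∘ σ) (dl k δ) ^ d := by
  obtain ⟨e, g, hg, hu⟩ := hx
  have h1 : f * dl k δ ^ e = g * dl k δ ^ d := by
    apply g3eo_toL_inj k L
    rw [map_mul, map_mul, map_pow, map_pow, ← hf, ← hg]
    ring
  have h2 := congrArg (evG (δ.c ∘ σ) : RR k ι →ₐ[k] GG k) h1
  rw [map_mul, map_mul, map_pow, map_pow, hu] at h2
  have h3 : evG (δ.c ∘ σ) (dl k δ) ^ e ≠ 0 := pow_ne_zero _ (evG_dl_ne_zero k δ σ)
  apply mul_right_cancel₀ h3
  rw [h2]
  ring

omit [CharZero k] in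
private theorem g3eo_unique {x : L} {u v : GG k} (hx : G3eoR k L δ x u) (hy : G3eoR k L δ x v) :
    u = v := by
  obtain ⟨e, g, hg, hv⟩ := hy
  have h1 := g3eo_all k L δ hx e g hg 1
  rw [hv 1] at h1
  exact (mul_right_cancel₀ (pow_ne_zero _ (evG_dl_ne_zero k δ 1)) h1).symm

omit [CharZero k] [IsFractionRing (RR k ι) L] in
private theorem g3eo_gen (x : L) (D : ι → ℕ × ℕ)
    (h : x * toL k L (dl k δ) = toL k L (alt k D)) :
    ∃ u, G3eoR k L δ x u ∧ (Set.range D ≠ Set.range δ.c → constantCoeff u = 0) := by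
  obtain ⟨u, hu, hu'⟩ := evG_alt k δ D
  exact ⟨u, ⟨1, alt k D, by rw [pow_one, h], fun σ => by rw [pow_one]; exact hu σ⟩, hu'⟩

omit [CharZero k] [IsFractionRing (RR k ι) L] in
private theorem g3eo_exists (x : L) (hx : x ∈ OO k L δ) : ∃ u, G3eoR k L δ x u := by
  induction hx using Algebra.adjoin_induction with
  | mem y hy =>
    obtain ⟨D, hD⟩ := hy
    obtain ⟨u, hu, -⟩ := g3eo_gen k L δ y D hD
    exact ⟨u, hu⟩
  | algebraMap c => exact ⟨C c, g3eo_C k L δ c⟩
  | add a b _ _ ha hb =>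
    obtain ⟨u, hu⟩ := ha
    obtain ⟨v, hv⟩ := hb
    exact ⟨u + v, g3eo_add k L δ hu hv⟩
  | mul a b _ _ ha hb =>
    obtain ⟨u, hu⟩ := ha
    obtain ⟨v, hv⟩ := hb
    exact ⟨u * v, g3eo_mul k L δ hu hv⟩

theorem OO_frac (x : OO k L δ) : ∃ (d : ℕ) (f : RR k ι),
    (x : L) * toL k L (dl k δ) ^ d = toL k L f := by
  obtain ⟨u, d, f, h, -⟩ := g3eo_exists k L δ x x.2
  exact ⟨d, f, h⟩

theorem exists_EO : ∃ E : OO k L δ →ₐ[k] GG k,
    (∀ (x : OO k L δ) (d : ℕ) (f : RR k ι), (x : L) * toL k L (dl k δ) ^ d = toL k L f →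
      ∀ σ : Equiv.Perm ι, evG (δ.c ∘ σ) f = E x * evG (δ.c ∘ σ) (dl k δ) ^ d) ∧
    ∀ x : OO k L δ, constantCoeff (E x) = 0 ↔ x ∈ nn k L δ := by
  have hex : ∀ x : OO k L δ, ∃ u, G3eoR k L δ (x : L) u := fun x => g3eo_exists k L δ x x.2
  choose E hE using hex
  have hC : ∀ c : k, E (algebraMap k (OO k L δ) c) = algebraMap k (GG k) c := fun c =>
    g3eo_unique k L δ (hE _) (g3eo_C k L δ c)
  let E' : OO k L δ →ₐ[k] GG k :=
    { toFun := E
      map_one' := by
        have := hC 1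
        rwa [map_one, map_one] at this
      map_mul' := fun x y => g3eo_unique k L δ (hE _) (g3eo_mul k L δ (hE x) (hE y))
      map_zero' := by
        have := hC 0
        rwa [map_zero, map_zero] at this
      map_add' := fun x y => g3eo_unique k L δ (hE _) (g3eo_add k L δ (hE x) (hE y))
      commutes' := hC }
  refine ⟨E', fun x d f h σ => g3eo_all k L δ (hE x) d f h σ, ?_⟩
  let ψ : OO k L δ →+* k := (constantCoeff : GG k →+* k).comp (E' : OO k L δ →+* GG k)
  have hnn : nn k L δ ≤ RingHom.ker ψ := by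
    unfold nn
    rw [Ideal.span_le]
    rintro g ⟨D, hD, hg⟩
    obtain ⟨u, hu, hu'⟩ := g3eo_gen k L δ (g : L) D hg
    have h1 : E g = u := g3eo_unique k L δ (hE g) hu
    change constantCoeff (E g) = 0
    rw [h1]
    exact hu' hD
  obtain ⟨φ, hφ⟩ := residue k L δ
  have key : ∀ x : OO k L δ, constantCoeff (E' x) = φ x := by
    intro x
    have h1 : x - algebraMap k (OO k L δ) (φ x) ∈ nn k L δ := by
      rw [← hφ, RingHom.mem_ker, map_sub, AlgHom.commutes]
      simp
    have h2 := hnn h1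
    rw [RingHom.mem_ker] at h2
    have h3 : constantCoeff (E' (x - algebraMap k (OO k L δ) (φ x))) = 0 := h2
    rw [map_sub, map_sub, AlgHom.commutes, sub_eq_zero] at h3
    rw [h3]
    simp
  intro x
  rw [key, ← hφ, RingHom.mem_ker]

end

end Pool.Agent.Lib.MP_463376_co
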