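import Mathlib
import Pool.Agent.Lib.MP_463376_co.G3_Bi

/-!
# Stream G3, job TorL: the torus element `tauL` preserves the rings `P`, `O`, `A`, `C`

`tau (alt D) = c • alt D` with `c ≠ 0` (`alt_isBi`, `tau_eigen_iff`), so `tauL` multiplies the generators
`Δ_D / Δ` of `O` (and of `nn`) by nonzero constants. `P`: `mem_PP_iff` and `tau_Jd`.  `A`: `mem_AA_iff`.
`C`: `mem_CC_iff`.  `tauL_sub_not_isUnit`: let `φ` be the residue map of `O` (`residue`); for `x ∈ O` one has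
`x = φ x + ν` with `ν ∈ nn`, so `φ (tauL x) = φ x`.  For `a = x / y` the difference `tauL a - a` is `ν / y'` with
`ν ∈ nn`, `y' ∉ nn`, and such an element is not a unit of `A` (`mem_AA_iff`, `nn` is prime as the kernel of
`φ`).
-/

namespace Pool.Agent.Lib.MP_463376_co

open MvPolynomial

section

variable (k : Type) [Field k] [CharZero k] {ι : Type} [Fintype ι] [DecidableEq ι]
  (L : Type) [Field L] [Algebra k L] [Algebra (RR k ι) L]
  [IsScalarTower k (RR k ι) L] [IsFractionRing (RR k ι) L] (δ : Dia ι)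

theorem g3torl_dl_ne : toL k L (dl k δ) ≠ 0 := fun h =>
  dl_ne_zero k δ (IsFractionRing.injective (RR k ι) L (h.trans (map_zero (toL k L)).symm))

theorem g3torl_PP (σ : L ≃ₐ[k] L) (σR : RR k ι ≃ₐ[k] RR k ι)
    (h1 : ∀ f, σ (toL k L f) = toL k L (σR f))
    (h2 : ∀ d f, f ∈ Jd k ι d → σR f ∈ Jd k ι d)
    (h3 : ∀ D : ι → ℕ × ℕ, ∃ c : k, c ≠ 0 ∧ σR (alt k D) = c • alt k D)
    (g : L) (hg : g ∈ PP k L δ) : σ g ∈ PP k L δ := by
  rw [mem_PP_iff] at hg ⊢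
  obtain ⟨d, f, hf, hgf⟩ := hg
  obtain ⟨c, hc, hcd⟩ := h3 δ.c
  have h4 := congrArg σ hgf
  rw [map_mul, map_pow, h1, h1] at h4
  have h5 : σR (dl k δ) = c • dl k δ := hcd
  rw [h5, map_smul, smul_pow, mul_smul_comm] at h4
  refine ⟨d, (c ^ d)⁻¹ • σR f, ?_, ?_⟩
  · rw [MvPolynomial.smul_eq_C_mul]
    exact Ideal.mul_mem_left _ _ (h2 d f hf)
  · rw [map_smul, ← h4, smul_smul, inv_mul_cancel₀ (pow_ne_zero d hc), one_smul]

theorem g3torl_gen (σ : L ≃ₐ[k] L) (σR : RR k ι ≃ₐ[k] RR k ι)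
    (h1 : ∀ f, σ (toL k L f) = toL k L (σR f))
    (h3 : ∀ D : ι → ℕ × ℕ, ∃ c : k, c ≠ 0 ∧ σR (alt k D) = c • alt k D)
    (g : L) (D : ι → ℕ × ℕ) (hg : g * toL k L (dl k δ) = toL k L (alt k D)) :
    ∃ c : k, σ g = c • g := by
  obtain ⟨c, hc, hcd⟩ := h3 δ.c
  obtain ⟨c', hc', hcd'⟩ := h3 D
  have h4 := congrArg σ hg
  have h5 : σR (dl k δ) = c • dl k δ := hcd
  rw [map_mul, h1, h1, h5, hcd', map_smul, map_smul, ← hg, mul_smul_comm, ← smul_mul_assoc,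
    ← smul_mul_assoc] at h4
  have h6 := mul_right_cancel₀ (g3torl_dl_ne k L δ) h4
  refine ⟨c⁻¹ * c', ?_⟩
  rw [mul_smul, ← h6, smul_smul, inv_mul_cancel₀ hc, one_smul]

theorem g3torl_OO (σ : L ≃ₐ[k] L) (σR : RR k ι ≃ₐ[k] RR k ι)
    (h1 : ∀ f, σ (toL k L f) = toL k L (σR f))
    (h3 : ∀ D : ι → ℕ × ℕ, ∃ c : k, c ≠ 0 ∧ σR (alt k D) = c • alt k D)
    (g : L) (hg : g ∈ OO k L δ) : σ g ∈ OO k L δ := by
  unfold OO at hg
  induction hg using Algebra.adjoin_induction with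
  | mem x hx =>
    obtain ⟨D, hD⟩ := hx
    obtain ⟨c, hc⟩ := g3torl_gen k L δ σ σR h1 h3 x D hD
    rw [hc]
    have hx' : x ∈ OO k L δ := by
      unfold OO
      exact Algebra.subset_adjoin ⟨D, hD⟩
    exact Subalgebra.smul_mem _ hx' _
  | algebraMap c =>
    rw [AlgEquiv.commutes]
    exact Subalgebra.algebraMap_mem _ _
  | add x y _ _ hx hy => rw [map_add]; exact add_mem hx hy
  | mul x y _ _ hx hy => rw [map_mul]; exact mul_mem hx hy

theorem g3torl_nn (σ : L ≃ₐ[k] L) (σR : RR k ι ≃ₐ[k] RR k ι)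
    (h1 : ∀ f, σ (toL k L f) = toL k L (σR f))
    (h3 : ∀ D : ι → ℕ × ℕ, ∃ c : k, c ≠ 0 ∧ σR (alt k D) = c • alt k D)
    (u v : OO k L δ) (h : (v : L) = σ u) (hu : u ∈ nn k L δ) : v ∈ nn k L δ := by
  unfold nn at hu
  induction hu using Submodule.span_induction generalizing v with
  | mem x hx =>
    obtain ⟨D, hD, hxD⟩ := hx
    obtain ⟨c, hc⟩ := g3torl_gen k L δ σ σR h1 h3 x D hxD
    have e : v = algebraMap k (OO k L δ) c * x := by
      apply Subtype.ext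
      rw [h, hc, Algebra.smul_def, MulMemClass.coe_mul, Subalgebra.coe_algebraMap]
    rw [e]
    exact Ideal.mul_mem_left _ _ (Ideal.subset_span ⟨D, hD, hxD⟩)
  | zero =>
    have e : v = 0 := by
      apply Subtype.ext
      rw [h]
      simp
    rw [e]
    exact zero_mem _
  | add x y _ _ hx hy =>
    have e : v = ⟨σ x, g3torl_OO k L δ σ σR h1 h3 _ x.2⟩ + ⟨σ y, g3torl_OO k L δ σ σR h1 h3 _ y.2⟩ := by
      apply Subtype.ext
      rw [h, AddMemClass.coe_add, AddMemClass.coe_add, map_add]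
    rw [e]
    exact add_mem (hx _ rfl) (hy _ rfl)
  | smul a x _ hx =>
    have e : v = ⟨σ a, g3torl_OO k L δ σ σR h1 h3 _ a.2⟩ * ⟨σ x, g3torl_OO k L δ σ σR h1 h3 _ x.2⟩ := by
      apply Subtype.ext
      rw [h, smul_eq_mul, MulMemClass.coe_mul, MulMemClass.coe_mul, map_mul]
    rw [e]
    exact Ideal.mul_mem_left _ _ (hx _ rfl)

theorem g3torl_AA (σ : L ≃ₐ[k] L) (hO : ∀ g ∈ OO k L δ, σ g ∈ OO k L δ)
    (hn : ∀ u v : OO k L δ, (v : L) = σ u → (u ∈ nn k L δ ↔ v ∈ nn k L δ))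
    (g : L) (hg : g ∈ AA k L δ) : σ g ∈ AA k L δ := by
  rw [mem_AA_iff] at hg ⊢
  obtain ⟨a, b, hb, hab⟩ := hg
  refine ⟨⟨σ a, hO _ a.2⟩, ⟨σ b, hO _ b.2⟩, ?_, ?_⟩
  · rwa [← hn b ⟨σ b, hO _ b.2⟩ rfl]
  · have := congrArg σ hab
    rw [map_mul] at this
    exact this

theorem g3torl_CC (σ : L ≃ₐ[k] L) (hO : ∀ g ∈ OO k L δ, σ g ∈ OO k L δ)
    (hn : ∀ u v : OO k L δ, (v : L) = σ u → (u ∈ nn k L δ ↔ v ∈ nn k L δ))
    (hP : ∀ g ∈ PP k L δ, σ g ∈ PP k L δ)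
    (g : L) (hg : g ∈ CC k L δ) : σ g ∈ CC k L δ := by
  rw [mem_CC_iff] at hg ⊢
  obtain ⟨b, hb, hab⟩ := hg
  refine ⟨⟨σ b, hO _ b.2⟩, ?_, ?_⟩
  · rwa [← hn b ⟨σ b, hO _ b.2⟩ rfl]
  · have := hP _ hab
    rw [map_mul] at this
    exact this

theorem g3torl_alt (D : ι → ℕ × ℕ) : ∃ c : k, c ≠ 0 ∧ tau k ι (alt k D) = c • alt k D :=
  ⟨_, evv_ne_zero _ _, (tau_eigen_iff _ _ _).2 (alt_isBi D)⟩

theorem g3torl_alt_symm (D : ι → ℕ × ℕ) :
    ∃ c : k, c ≠ 0 ∧ (tau k ι).symm (alt k D) = c • alt k D := by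
  obtain ⟨c, hc, h⟩ := g3torl_alt k D
  refine ⟨c⁻¹, inv_ne_zero hc, ?_⟩
  rw [AlgEquiv.symm_apply_eq, map_smul, h, smul_smul, inv_mul_cancel₀ hc, one_smul]

theorem tauL_PP (g : L) (hg : g ∈ PP k L δ) : tauL k ι L g ∈ PP k L δ :=
  g3torl_PP k L δ (tauL k ι L) (tau k ι) tauL_toL tau_Jd (g3torl_alt k) g hg

theorem tauL_symm_PP (g : L) (hg : g ∈ PP k L δ) : (tauL k ι L).symm g ∈ PP k L δ :=
  g3torl_PP k L δ (tauL k ι L).symm (tau k ι).symm tauL_symm_toL tau_symm_Jd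
    (g3torl_alt_symm k) g hg

theorem tauL_OO (g : L) (hg : g ∈ OO k L δ) : tauL k ι L g ∈ OO k L δ :=
  g3torl_OO k L δ (tauL k ι L) (tau k ι) tauL_toL (g3torl_alt k) g hg

theorem tauL_symm_OO (g : L) (hg : g ∈ OO k L δ) : (tauL k ι L).symm g ∈ OO k L δ :=
  g3torl_OO k L δ (tauL k ι L).symm (tau k ι).symm tauL_symm_toL (g3torl_alt_symm k) g hg

theorem tauL_nn (u v : OO k L δ) (h : (v : L) = tauL k ι L u) :
    u ∈ nn k L δ ↔ v ∈ nn k L δ :=
  ⟨g3torl_nn k L δ (tauL k ι L) (tau k ι) tauL_toL (g3torl_alt k) u v h,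
    g3torl_nn k L δ (tauL k ι L).symm (tau k ι).symm tauL_symm_toL (g3torl_alt_symm k) v u
      (by rw [h, AlgEquiv.symm_apply_apply])⟩

theorem g3torl_symm_nn (u v : OO k L δ) (h : (v : L) = (tauL k ι L).symm u) :
    u ∈ nn k L δ ↔ v ∈ nn k L δ :=
  (tauL_nn k L δ v u (by rw [h, AlgEquiv.apply_symm_apply])).symm

theorem tauL_AA (g : L) (hg : g ∈ AA k L δ) : tauL k ι L g ∈ AA k L δ :=
  g3torl_AA k L δ _ (tauL_OO k L δ) (tauL_nn k L δ) g hg

theorem tauL_symm_AA (g : L) (hg : g ∈ AA k L δ) : (tauL k ι L).symm g ∈ AA k L δ :=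
  g3torl_AA k L δ _ (tauL_symm_OO k L δ) (g3torl_symm_nn k L δ) g hg

theorem tauL_CC (g : L) (hg : g ∈ CC k L δ) : tauL k ι L g ∈ CC k L δ :=
  g3torl_CC k L δ _ (tauL_OO k L δ) (tauL_nn k L δ) (tauL_PP k L δ) g hg

theorem tauL_symm_CC (g : L) (hg : g ∈ CC k L δ) : (tauL k ι L).symm g ∈ CC k L δ :=
  g3torl_CC k L δ _ (tauL_symm_OO k L δ) (g3torl_symm_nn k L δ) (tauL_symm_PP k L δ) g hg

omit [Fintype ι] [DecidableEq ι] in
theorem g3torl_tau_permR (w : Equiv.Perm ι) (f : RR k ι) :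
    tau k ι (permR w f) = permR w (tau k ι f) := by
  have h : ((tau k ι : RR k ι ≃ₐ[k] RR k ι) : RR k ι →ₐ[k] RR k ι).comp
      ((permR w : RR k ι ≃ₐ[k] RR k ι) : RR k ι →ₐ[k] RR k ι) =
      ((permR w : RR k ι ≃ₐ[k] RR k ι) : RR k ι →ₐ[k] RR k ι).comp
        ((tau k ι : RR k ι ≃ₐ[k] RR k ι) : RR k ι →ₐ[k] RR k ι) := by
    apply MvPolynomial.algHom_ext
    rintro (i | i) <;> simp [tau_apply, tor, permR]
  exact DFunLike.congr_fun h f

theorem tauL_permL (w : Equiv.Perm ι) (g : L) :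
    tauL k ι L (permL (k := k) w g) = permL (k := k) w (tauL k ι L g) := by
  obtain ⟨⟨f, h⟩, hh⟩ := IsLocalization.surj (nonZeroDivisors (RR k ι)) g
  have hh' : g * toL k L (h : RR k ι) = toL k L f := hh
  have h0 : (h : RR k ι) ≠ 0 := nonZeroDivisors.ne_zero h.2
  have e1 := congrArg (fun z => tauL k ι L (permL (k := k) w z)) hh'
  have e2 := congrArg (fun z => permL (k := k) w (tauL k ι L z)) hh'
  simp only [map_mul, permL_toL, tauL_toL] at e1 e2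
  rw [g3torl_tau_permR, g3torl_tau_permR, ← e2] at e1
  refine mul_right_cancel₀ (fun h1 => h0 ?_) e1
  have h2 := IsFractionRing.injective (RR k ι) L (h1.trans (map_zero (toL k L)).symm)
  have h3 := (permR (k := k) w).injective (h2.trans (map_zero _).symm)
  exact (tau k ι).injective (h3.trans (map_zero _).symm)

theorem tauL_sub_not_isUnit (a b : AA k L δ) (h : (b : L) = tauL k ι L a) :
    ¬ IsUnit (b - a) := by
  obtain ⟨φ, hφ⟩ := residue k L δ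
  have hk : ∀ x : OO k L δ, x ∈ nn k L δ ↔ φ x = 0 := fun x => by
    rw [← hφ]; exact RingHom.mem_ker
  let τ : OO k L δ → OO k L δ := fun x => ⟨tauL k ι L x, tauL_OO k L δ _ x.2⟩
  have hτ : ∀ x, φ (τ x) = φ x := by
    intro x
    have h1 : x - algebraMap k (OO k L δ) (φ x) ∈ nn k L δ := by
      rw [hk, map_sub, AlgHom.commutes]
      simp
    have h2 : τ x - algebraMap k (OO k L δ) (φ x) ∈ nn k L δ := by
      refine (tauL_nn k L δ _ _ ?_).1 h1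
      rw [AddSubgroupClass.coe_sub, AddSubgroupClass.coe_sub, map_sub, Subalgebra.coe_algebraMap,
        AlgEquiv.commutes]
    rw [hk, map_sub, AlgHom.commutes] at h2
    simpa [sub_eq_zero] using h2
  obtain ⟨x, y, hy, hxy⟩ := (mem_AA_iff k L δ _).1 a.2
  have hb : (b : L) * (τ y : L) = (τ x : L) := by
    have := congrArg (tauL k ι L) hxy
    rw [map_mul, ← h] at this
    exact this
  rintro hu
  obtain ⟨c, hc⟩ := hu.exists_right_inv
  obtain ⟨w, z, hz, hwz⟩ := (mem_AA_iff k L δ _).1 c.2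
  have hc' : ((b : L) - a) * c = 1 := by
    have := congrArg (fun t : AA k L δ => (t : L)) hc
    simpa using this
  have key : (τ x * y - x * τ y) * w = z * y * τ y := by
    apply Subtype.ext
    simp only [MulMemClass.coe_mul, AddSubgroupClass.coe_sub]
    rw [← hb, ← hxy, ← hwz]
    linear_combination (z : L) * y * (τ y : L) * hc'
  have h1 := congrArg φ key
  simp only [map_mul, map_sub, hτ] at h1
  rw [mul_comm (φ x) (φ y), sub_self, zero_mul] at h1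
  rw [hk] at hy hz
  have h2 := h1.symm
  rw [mul_eq_zero, mul_eq_zero] at h2
  tauto

end

end Pool.Agent.Lib.MP_463376_co
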