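import Pool.Agent.Lib.MP_463376_co.G3_EO
import Pool.Agent.Lib.MP_463376_co.G3_TorL

/-!
# Stream G3, job Ev: evaluation of the elements of `C` at an ordering of the grid

`CC_frac`: `c * b ∈ P` with `b ∈ O`, `b ∉ nn` (`mem_CC_iff`), write `c b Δ^d₁ = f`, `b Δ^d₂ = f'` (`mem_PP_iff`, `OO_frac`); then
`c * (f' Δ^d₁) = f Δ^d₂` and `evG f' = E b * evG Δ ^ d₂ ≠ 0` as `E b ≠ 0` (`exists_EO`).
`exists_evC`: `φ c = evG f₁ / evG f₂`, well defined by cross multiplication (`toL` is injective).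
`evC_perm`: `permL w c * toL (permR w f₂) = toL (permR w f₁)` and `evG (δ.c ∘ σ) (permR w f) = evG (δ.c ∘ (σ * w)) f`.
`evC_tau`: similarly, `evG c (tau f) = tau (evG c f)`.
-/

namespace Pool.Agent.Lib.MP_463376_co

open MvPolynomial

private theorem g3Ev_toL_injective {k : Type} [Field k] {ι : Type} {L : Type} [Field L]
    [Algebra k L] [Algebra (RR k ι) L] [IsScalarTower k (RR k ι) L] [IsFractionRing (RR k ι) L] :
    Function.Injective (toL (ι := ι) k L) :=
  IsFractionRing.injective (RR k ι) L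

private theorem g3Ev_am_ne_zero {k : Type} [Field k] {f : GG k} (hf : f ≠ 0) :
    algebraMap (GG k) (KG k) f ≠ 0 := by
  intro h
  exact hf (IsFractionRing.injective (GG k) (KG k) (h.trans (map_zero _).symm))

private theorem g3Ev_evG_permR {k : Type} [Field k] {ι : Type} (c : ι → ℕ × ℕ)
    (w : Equiv.Perm ι) (f : RR k ι) : evG c (permR w f) = evG (c ∘ w) f := by
  unfold evG permR
  rw [renameEquiv_apply, aeval_rename]
  congr 2
  funext x
  cases x <;> rfl

private theorem g3Ev_evG_tor {k : Type} [Field k] {ι : Type} (c : ι → ℕ × ℕ) (s t : k)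
    (f : RR k ι) : evG c (tor s t f) = tor s t (evG c f) := by
  have h : (evG c : RR k ι →ₐ[k] GG k).comp (tor s t) = (tor s t).comp (evG c) := by
    apply MvPolynomial.algHom_ext
    rintro (i | i) <;> simp [tor, evG]
  exact DFunLike.congr_fun h f

section

variable (k : Type) [Field k] [CharZero k] {ι : Type} [Fintype ι] [DecidableEq ι]
  (L : Type) [Field L] [Algebra k L] [Algebra (RR k ι) L]
  [IsScalarTower k (RR k ι) L] [IsFractionRing (RR k ι) L] (δ : Dia ι)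

theorem CC_frac (c : CC k L δ) : ∃ f₁ f₂ : RR k ι,
    (∀ σ : Equiv.Perm ι, evG (δ.c ∘ σ) f₂ ≠ 0) ∧ (c : L) * toL k L f₂ = toL k L f₁ := by
  obtain ⟨b, hb, hcb⟩ := (mem_CC_iff k L δ (c : L)).mp c.2
  obtain ⟨d₁, f, -, hf⟩ := (mem_PP_iff k L δ _).mp hcb
  obtain ⟨d₂, f', hf'⟩ := OO_frac k L δ b
  obtain ⟨E, hE, hE0⟩ := exists_EO k L δ
  refine ⟨f * dl k δ ^ d₂, f' * dl k δ ^ d₁, ?_, ?_⟩
  · intro σ
    rw [map_mul, map_pow, hE b d₂ f' hf' σ]
    have h1 : E b ≠ 0 := by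
      intro h0
      apply hb
      rw [← hE0, h0, map_zero]
    have h2 := evG_dl_ne_zero k δ σ
    exact mul_ne_zero (mul_ne_zero h1 (pow_ne_zero _ h2)) (pow_ne_zero _ h2)
  · rw [map_mul, map_pow, map_mul, map_pow, ← hf, ← hf']
    ring

/-- the value of the evaluation -/
private noncomputable def g3Ev_val (σ : Equiv.Perm ι) (c : CC k L δ) : KG k :=
  algebraMap (GG k) (KG k) (evG (δ.c ∘ σ) (CC_frac k L δ c).choose) /
    algebraMap (GG k) (KG k) (evG (δ.c ∘ σ) (CC_frac k L δ c).choose_spec.choose)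

private theorem g3Ev_val_spec (σ : Equiv.Perm ι) (c : CC k L δ) (f₁ f₂ : RR k ι)
    (h : (c : L) * toL k L f₂ = toL k L f₁) :
    g3Ev_val k L δ σ c * algebraMap (GG k) (KG k) (evG (δ.c ∘ σ) f₂) =
      algebraMap (GG k) (KG k) (evG (δ.c ∘ σ) f₁) := by
  unfold g3Ev_val
  set g₁ := (CC_frac k L δ c).choose
  set g₂ := (CC_frac k L δ c).choose_spec.choose
  obtain ⟨h2, h3⟩ : (∀ σ : Equiv.Perm ι, evG (δ.c ∘ σ) g₂ ≠ 0) ∧
    (c : L) * toL k L g₂ = toL k L g₁ := (CC_frac k L δ c).choose_spec.choose_spec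
  have h4 : f₁ * g₂ = g₁ * f₂ := by
    apply g3Ev_toL_injective (k := k) (L := L)
    rw [map_mul, map_mul, ← h, ← h3]
    ring
  have h5 := congrArg (fun p => algebraMap (GG k) (KG k) (evG (δ.c ∘ σ) p)) h4
  simp only [map_mul] at h5
  rw [div_mul_eq_mul_div, div_eq_iff (g3Ev_am_ne_zero (h2 σ)), h5]

private theorem g3Ev_val_unique (σ : Equiv.Perm ι) (c : CC k L δ) (f₁ f₂ : RR k ι)
    (h : (c : L) * toL k L f₂ = toL k L f₁) (h0 : evG (δ.c ∘ σ) f₂ ≠ 0) (x : KG k)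
    (hx : x * algebraMap (GG k) (KG k) (evG (δ.c ∘ σ) f₂) =
      algebraMap (GG k) (KG k) (evG (δ.c ∘ σ) f₁)) : g3Ev_val k L δ σ c = x := by
  have h1 := g3Ev_val_spec k L δ σ c f₁ f₂ h
  rw [← hx] at h1
  exact mul_right_cancel₀ (g3Ev_am_ne_zero h0) h1

theorem exists_evC (σ : Equiv.Perm ι) : ∃ φ : CC k L δ →ₐ[k] KG k,
    ∀ (c : CC k L δ) (f₁ f₂ : RR k ι), (c : L) * toL k L f₂ = toL k L f₁ →
      φ c * algebraMap (GG k) (KG k) (evG (δ.c ∘ σ) f₂) =
        algebraMap (GG k) (KG k) (evG (δ.c ∘ σ) f₁) := by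
  have hC : ∀ r : k, g3Ev_val k L δ σ (algebraMap k (CC k L δ) r) = algebraMap k (KG k) r := by
    intro r
    refine g3Ev_val_unique k L δ σ _ (C r) 1 ?_ ?_ _ ?_
    · have h1 : toL k L (C r : RR k ι) = algebraMap k L r := by
        rw [← algebraMap_eq]
        exact (toL k L).commutes r
      rw [map_one, mul_one, h1]
      rfl
    · rw [map_one]
      exact one_ne_zero
    · rw [map_one, map_one, mul_one, ← algebraMap_eq, AlgHom.commutes,
        ← IsScalarTower.algebraMap_apply k (GG k) (KG k)]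
  have hmul : ∀ c c' : CC k L δ, g3Ev_val k L δ σ (c * c') =
      g3Ev_val k L δ σ c * g3Ev_val k L δ σ c' := by
    intro c c'
    obtain ⟨f₁, f₂, h0, h1⟩ := CC_frac k L δ c
    obtain ⟨g₁, g₂, h0', h1'⟩ := CC_frac k L δ c'
    refine g3Ev_val_unique k L δ σ _ (f₁ * g₁) (f₂ * g₂) ?_ ?_ _ ?_
    · change ((c : L) * (c' : L)) * toL k L (f₂ * g₂) = toL k L (f₁ * g₁)
      rw [map_mul, map_mul, ← h1, ← h1']
      ring
    · rw [map_mul]
      exact mul_ne_zero (h0 σ) (h0' σ)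
    · rw [map_mul, map_mul, map_mul, map_mul, ← g3Ev_val_spec k L δ σ c f₁ f₂ h1,
        ← g3Ev_val_spec k L δ σ c' g₁ g₂ h1']
      ring
  have hadd : ∀ c c' : CC k L δ, g3Ev_val k L δ σ (c + c') =
      g3Ev_val k L δ σ c + g3Ev_val k L δ σ c' := by
    intro c c'
    obtain ⟨f₁, f₂, h0, h1⟩ := CC_frac k L δ c
    obtain ⟨g₁, g₂, h0', h1'⟩ := CC_frac k L δ c'
    refine g3Ev_val_unique k L δ σ _ (f₁ * g₂ + g₁ * f₂) (f₂ * g₂) ?_ ?_ _ ?_
    · change ((c : L) + (c' : L)) * toL k L (f₂ * g₂) = toL k L (f₁ * g₂ + g₁ * f₂)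
      rw [map_mul, map_add, map_mul, map_mul, ← h1, ← h1']
      ring
    · rw [map_mul]
      exact mul_ne_zero (h0 σ) (h0' σ)
    · rw [map_mul, map_mul, map_add, map_add, map_mul, map_mul, map_mul, map_mul,
        ← g3Ev_val_spec k L δ σ c f₁ f₂ h1, ← g3Ev_val_spec k L δ σ c' g₁ g₂ h1']
      ring
  refine ⟨{ toFun := g3Ev_val k L δ σ
            map_one' := by
              have h := hC 1
              rwa [map_one, map_one] at h
            map_mul' := hmul
            map_zero' := by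
              have h := hC 0
              rwa [map_zero, map_zero] at h
            map_add' := hadd
            commutes' := hC }, fun c f₁ f₂ h => g3Ev_val_spec k L δ σ c f₁ f₂ h⟩

/-- evaluation at the ordering `σ` of the grid -/
noncomputable def evC (σ : Equiv.Perm ι) : CC k L δ →ₐ[k] KG k := (exists_evC k L δ σ).choose

theorem evC_spec (σ : Equiv.Perm ι) (c : CC k L δ) (f₁ f₂ : RR k ι)
    (h : (c : L) * toL k L f₂ = toL k L f₁) :
    evC k L δ σ c * algebraMap (GG k) (KG k) (evG (δ.c ∘ σ) f₂) =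
      algebraMap (GG k) (KG k) (evG (δ.c ∘ σ) f₁) :=
  (exists_evC k L δ σ).choose_spec c f₁ f₂ h

theorem evC_toC (σ : Equiv.Perm ι) (f : RR k ι) :
    evC k L δ σ (toC k L δ f) = algebraMap (GG k) (KG k) (evG (δ.c ∘ σ) f) := by
  have h1 : ((toC k L δ f : CC k L δ) : L) * toL k L (1 : RR k ι) = toL k L f := by
    rw [map_one, mul_one]
    rfl
  have h := evC_spec k L δ σ (toC k L δ f) f 1 h1
  rwa [map_one, map_one, mul_one] at h

theorem evC_perm (w σ : Equiv.Perm ι) (c c' : CC k L δ)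
    (h : (c' : L) = permL (k := k) w (c : L)) : evC k L δ σ c' = evC k L δ (σ * w) c := by
  obtain ⟨f₁, f₂, h0, h1⟩ := CC_frac k L δ c
  have h2 : (c' : L) * toL k L (permR w f₂) = toL k L (permR w f₁) := by
    rw [h, ← permL_toL, ← permL_toL, ← map_mul, h1]
  have h3 := evC_spec k L δ σ c' _ _ h2
  have h4 := evC_spec k L δ (σ * w) c _ _ h1
  have hcomp : (δ.c ∘ σ) ∘ w = δ.c ∘ ((σ * w : Equiv.Perm ι) : ι → ι) := rfl
  rw [g3Ev_evG_permR, g3Ev_evG_permR, hcomp, ← h4] at h3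
  exact mul_right_cancel₀ (g3Ev_am_ne_zero (h0 (σ * w))) h3

theorem evC_tau (σ : Equiv.Perm ι) (c c' : CC k L δ) (h : (c' : L) = tauL k ι L (c : L)) :
    evC k L δ σ c' = tauK k (evC k L δ σ c) := by
  obtain ⟨f₁, f₂, h0, h1⟩ := CC_frac k L δ c
  have h2 : (c' : L) * toL k L (tau k ι f₂) = toL k L (tau k ι f₁) := by
    rw [h, ← tauL_toL, ← tauL_toL, ← map_mul, h1]
  have h3 := evC_spec k L δ σ c' _ _ h2
  have h4 := congrArg (tauK k) (evC_spec k L δ σ c _ _ h1)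
  rw [map_mul, tauK_algebraMap, tauK_algebraMap] at h4
  rw [tau_apply, tau_apply, g3Ev_evG_tor, g3Ev_evG_tor, ← tau_apply, ← tau_apply, ← h4] at h3
  refine mul_right_cancel₀ (g3Ev_am_ne_zero ?_) h3
  intro h5
  exact h0 σ ((tau k ℕ).injective (h5.trans (map_zero _).symm))

end

end Pool.Agent.Lib.MP_463376_co
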