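import Pool.Agent.Lib.MP_463376_co.G3_Defs

/-!
# Stream G3, job Gam: interpolation on the grid of a Young diagram

`exists_gam`: for a cell `m` take the indicator. If `m` is not a cell, then for every cell `c i` one has
`(c i).1 < m.1` or `(c i).2 < m.2` (`δ.low`), so the product
`∏_{j < m.1} (x - z_j) * ∏_{i < m.2} (y - w_i)` vanishes at all cells `(x, y) = (z_{(c i).1}, w_{(c i).2})`.
Expanding it, the monomial function with exponent `m` is a combination of monomial functions with exponents
`m' < m` (componentwise, so the sum of the exponents is smaller) with coefficients in the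
augmentation ideal (kernel of `constantCoeff`) of `GG k`: induction.

`evG_alt`: `evG (δ.c ∘ σ) (alt k D) = det (M_σ * Γ)` where `Γ h j = γ^{D_j}_h` and
`det M_σ = evG (δ.c ∘ σ) (dl k δ)`. If `D` is not injective, two columns of `Γ` are equal; if it is injective and its
range is not the range of `δ.c` then some `D j` is not a cell and the column `j` of the constant terms of `Γ`
is zero.
-/

namespace Pool.Agent.Lib.MP_463376_co

open MvPolynomial

section

variable (k : Type) [Field k] {ι : Type} [Fintype ι] [DecidableEq ι] (δ : Dia ι)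

/-- the polynomial `∏_{j<n} (T - X (f j))` -/
private noncomputable def g3gam_pol (f : ℕ → ℕ ⊕ ℕ) (n : ℕ) : Polynomial (GG k) :=
  ∏ j ∈ Finset.range n, (Polynomial.X - Polynomial.C (X (f j) : GG k))

private theorem g3gam_pol_natDegree (f : ℕ → ℕ ⊕ ℕ) (n : ℕ) :
    (g3gam_pol k f n).natDegree = n := by
  unfold g3gam_pol
  rw [Polynomial.natDegree_prod_of_monic _ _ (fun i _ => Polynomial.monic_X_sub_C _)]
  simp

private theorem g3gam_pol_eval (f : ℕ → ℕ ⊕ ℕ) (n a : ℕ) (h : a < n) :
    (g3gam_pol k f n).eval (X (f a) : GG k) = 0 := by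
  unfold g3gam_pol
  rw [Polynomial.eval_prod]
  exact Finset.prod_eq_zero (Finset.mem_range.2 h) (by simp)

private theorem g3gam_pol_coeff_top (f : ℕ → ℕ ⊕ ℕ) (n : ℕ) :
    (g3gam_pol k f n).coeff n = 1 := by
  have h : (g3gam_pol k f n).Monic :=
    Polynomial.monic_prod_of_monic _ _ (fun i _ => Polynomial.monic_X_sub_C _)
  have h2 := h.coeff_natDegree
  rwa [g3gam_pol_natDegree] at h2

private theorem g3gam_pol_const (f : ℕ → ℕ ⊕ ℕ) (n a : ℕ) (h : a ≠ n) :
    constantCoeff ((g3gam_pol k f n).coeff a) = 0 := by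
  have h1 : (g3gam_pol k f n).map (constantCoeff : GG k →+* k) = Polynomial.X ^ n := by
    unfold g3gam_pol
    rw [Polynomial.map_prod]
    simp
  have h2 := congrArg (fun p => Polynomial.coeff p a) h1
  simp only [Polynomial.coeff_map, Polynomial.coeff_X_pow, if_neg h] at h2
  exact h2

theorem exists_gam (m : ℕ × ℕ) : ∃ γ : ι → GG k,
    (∀ i : ι, (X (Sum.inl (δ.c i).1) : GG k) ^ m.1 * X (Sum.inr (δ.c i).2) ^ m.2 =
      ∑ h, γ h * (X (Sum.inl (δ.c i).1) ^ (δ.c h).1 * X (Sum.inr (δ.c i).2) ^ (δ.c h).2)) ∧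
    ∀ h, constantCoeff (γ h) = if m = δ.c h then 1 else 0 := by
  classical
  obtain ⟨n, hn⟩ : ∃ n, m.1 + m.2 = n := ⟨_, rfl⟩
  induction n using Nat.strong_induction_on generalizing m with
  | _ n ih =>
    by_cases hm : ∃ h0, δ.c h0 = m
    · obtain ⟨h0, rfl⟩ := hm
      refine ⟨fun h => if h = h0 then 1 else 0, fun i => ?_, fun h => ?_⟩
      · simp
      · by_cases e : h = h0
        · subst e; simp
        · have e2 : ¬ δ.c h0 = δ.c h := fun e' => e (δ.inj e'.symm)
          simp [e, e2]
    · have key : ∀ i : ι, (δ.c i).1 < m.1 ∨ (δ.c i).2 < m.2 := by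
        intro i
        by_contra hcon
        push Not at hcon
        exact hm (δ.low i m ⟨hcon.1, hcon.2⟩)
      have ih' : ∀ m' : ℕ × ℕ, m'.1 + m'.2 < n → ∃ γ : ι → GG k,
          (∀ i : ι, (X (Sum.inl (δ.c i).1) : GG k) ^ m'.1 * X (Sum.inr (δ.c i).2) ^ m'.2 =
            ∑ h, γ h * (X (Sum.inl (δ.c i).1) ^ (δ.c h).1 *
              X (Sum.inr (δ.c i).2) ^ (δ.c h).2)) ∧
          ∀ h, constantCoeff (γ h) = if m' = δ.c h then 1 else 0 :=
        fun m' hm' => ih _ hm' m' rfl
      choose! Γ hΓ1 _hΓ2 using ih'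
      set P := g3gam_pol k Sum.inl m.1 with hP
      set Q := g3gam_pol k Sum.inr m.2 with hQ
      set box : Finset (ℕ × ℕ) :=
        (Finset.range (m.1 + 1) ×ˢ Finset.range (m.2 + 1)).erase m with hbox
      have hlt : ∀ p ∈ box, p.1 + p.2 < n := by
        intro p hp
        rw [hbox, Finset.mem_erase, Finset.mem_product, Finset.mem_range, Finset.mem_range] at hp
        obtain ⟨h1, h2, h3⟩ := hp
        rcases Nat.lt_or_ge p.1 m.1 with h4 | h4
        · omega
        · rcases Nat.lt_or_ge p.2 m.2 with h5 | h5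
          · omega
          · exact absurd (Prod.ext (by omega) (by omega)) h1
      have hcc : ∀ p ∈ box, constantCoeff (P.coeff p.1 * Q.coeff p.2) = 0 := by
        intro p hp
        rw [hbox, Finset.mem_erase] at hp
        rw [map_mul]
        by_cases h1 : p.1 = m.1
        · have h2 : p.2 ≠ m.2 := fun h2 => hp.1 (Prod.ext h1 h2)
          rw [hQ, g3gam_pol_const k _ _ _ h2, mul_zero]
        · rw [hP, g3gam_pol_const k _ _ _ h1, zero_mul]
      have hexp : ∀ i : ι, (X (Sum.inl (δ.c i).1) : GG k) ^ m.1 * X (Sum.inr (δ.c i).2) ^ m.2 =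
          - ∑ p ∈ box, P.coeff p.1 * Q.coeff p.2 *
            (X (Sum.inl (δ.c i).1) ^ p.1 * X (Sum.inr (δ.c i).2) ^ p.2) := by
        intro i
        have h0 : P.eval (X (Sum.inl (δ.c i).1) : GG k) * Q.eval (X (Sum.inr (δ.c i).2) : GG k)
            = 0 := by
          rcases key i with h | h
          · rw [hP, g3gam_pol_eval k Sum.inl _ _ h, zero_mul]
          · rw [hQ, g3gam_pol_eval k Sum.inr _ _ h, mul_zero]
        rw [Polynomial.eval_eq_sum_range' (n := m.1 + 1)
            (by rw [hP, g3gam_pol_natDegree]; exact Nat.lt_succ_self _),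
          Polynomial.eval_eq_sum_range' (n := m.2 + 1)
            (by rw [hQ, g3gam_pol_natDegree]; exact Nat.lt_succ_self _),
          Finset.sum_mul_sum, ← Finset.sum_product'] at h0
        have hmem : m ∈ Finset.range (m.1 + 1) ×ˢ Finset.range (m.2 + 1) := by
          rw [Finset.mem_product, Finset.mem_range, Finset.mem_range]
          exact ⟨Nat.lt_succ_self _, Nat.lt_succ_self _⟩
        rw [← Finset.add_sum_erase _ _ hmem] at h0
        have e1 : P.coeff m.1 = 1 := g3gam_pol_coeff_top k _ _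
        have e2 : Q.coeff m.2 = 1 := g3gam_pol_coeff_top k _ _
        rw [e1, e2, one_mul, one_mul] at h0
        rw [eq_neg_iff_add_eq_zero, ← h0]
        congr 1
        refine Finset.sum_congr rfl fun p _ => ?_
        ring
      refine ⟨fun h => - ∑ p ∈ box, P.coeff p.1 * Q.coeff p.2 * Γ p h, fun i => ?_, fun h => ?_⟩
      · rw [hexp i]
        simp only [neg_mul, Finset.sum_neg_distrib, Finset.sum_mul]
        congr 1
        rw [Finset.sum_comm]
        refine Finset.sum_congr rfl fun p hp => ?_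
        rw [hΓ1 p (hlt p hp) i, Finset.mul_sum]
        refine Finset.sum_congr rfl fun h _ => ?_
        ring
      · rw [if_neg (fun e => hm ⟨h, e.symm⟩), map_neg, map_sum, neg_eq_zero]
        refine Finset.sum_eq_zero fun p hp => ?_
        rw [map_mul, hcc p hp, zero_mul]

theorem evG_alt (D : ι → ℕ × ℕ) : ∃ u : GG k,
    (∀ σ : Equiv.Perm ι, evG (δ.c ∘ σ) (alt k D) = u * evG (δ.c ∘ σ) (dl k δ)) ∧
    (Set.range D ≠ Set.range δ.c → constantCoeff u = 0) := by
  classical
  have hg := fun m => exists_gam k δ m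
  choose Γ hΓ1 hΓ2 using hg
  have hev : ∀ (σ : Equiv.Perm ι) (E : ι → ℕ × ℕ), evG (δ.c ∘ σ) (alt k E) =
      Matrix.det (Matrix.of fun i j : ι => (X (Sum.inl (δ.c (σ i)).1) : GG k) ^ (E j).1 *
        X (Sum.inr (δ.c (σ i)).2) ^ (E j).2) := by
    intro σ E
    unfold alt
    rw [AlgHom.map_det]
    congr 1
    ext i j
    simp [evG, xx, yy]
  refine ⟨Matrix.det (Matrix.of fun h j : ι => Γ (D j) h), fun σ => ?_, fun hne => ?_⟩
  · rw [dl, hev, hev, mul_comm, ← Matrix.det_mul]
    congr 1
    ext i j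
    rw [Matrix.mul_apply]
    simp only [Matrix.of_apply]
    rw [hΓ1 (D j) (σ i)]
    refine congrArg _ (Finset.sum_congr rfl fun h _ => ?_)
    ring
  · rw [RingHom.map_det]
    by_cases h1 : ∃ j, D j ∉ Set.range δ.c
    · obtain ⟨j, hj⟩ := h1
      refine Matrix.det_eq_zero_of_column_eq_zero j fun h => ?_
      simp only [RingHom.mapMatrix_apply, Matrix.map_apply, Matrix.of_apply]
      rw [hΓ2, if_neg (fun e => hj ⟨h, e.symm⟩)]
    · push Not at h1
      have h2 : ∃ h, δ.c h ∉ Set.range D := by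
        by_contra hcon
        push Not at hcon
        exact hne (Set.Subset.antisymm (by rintro _ ⟨j, rfl⟩; exact h1 j)
          (by rintro _ ⟨j, rfl⟩; exact hcon j))
      obtain ⟨h, hh⟩ := h2
      refine Matrix.det_eq_zero_of_row_eq_zero h fun j => ?_
      simp only [RingHom.mapMatrix_apply, Matrix.map_apply, Matrix.of_apply]
      rw [hΓ2, if_neg (fun e => hh ⟨j, e⟩)]

end

end Pool.Agent.Lib.MP_463376_co
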