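import Mathlib

/-!
# Stream G3, job LinA: lifting a basis modulo the maximal ideal (pure linear algebra)

`V` and `N` have the same number of elements. Reindex `g` by `N`; the matrix `e.toMatrix g` reduces under `r` to the
(invertible) matrix of `b`, so its determinant is a unit (`hr`), and `g` is a basis (`Module.Basis.mk`,
`is_basis_iff_det`).
-/

namespace Pool.Agent.Lib.MP_463376_co

theorem lift_basis {k A C V N : Type} [Field k] [CommRing A] [Algebra k A] [AddCommGroup C]
    [Module A C] (r : A →ₐ[k] k) (hr : ∀ a, r a ≠ 0 → IsUnit a) [Fintype V] [Fintype N]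
    (e : Module.Basis N A C) (b : Module.Basis V k (N → k)) (g : V → C)
    (hg : ∀ v n, r (e.repr (g v) n) = b v n) : ∃ f : Module.Basis V A C, ∀ v, f v = g v := by
  classical
  have hcard : Fintype.card V = Fintype.card N := by
    rw [← Module.finrank_eq_card_basis b, Module.finrank_fintype_fun_eq_card]
  let σ : V ≃ N := Fintype.equivOfCardEq hcard
  let g' : N → C := fun n => g (σ.symm n)
  have hdet : r (e.det g') = (Pi.basisFun k N).det (b.reindex σ) := by
    rw [Module.Basis.det_apply, Module.Basis.det_apply]
    have h := (AlgHom.map_det r (e.toMatrix g'))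
    rw [h]
    congr 1
    ext n n'
    simp only [AlgHom.mapMatrix_apply, Matrix.map_apply, Module.Basis.toMatrix_apply,
      Pi.basisFun_repr, Module.Basis.reindex_apply]
    exact hg _ _
  have hu : IsUnit (e.det g') := by
    apply hr
    rw [hdet]
    exact ((Pi.basisFun k N).isUnit_det (b.reindex σ)).ne_zero
  obtain ⟨li, sp⟩ := (e.is_basis_iff_det).2 hu
  refine ⟨(Module.Basis.mk li sp.ge).reindex σ.symm, fun v => ?_⟩
  rw [Module.Basis.reindex_apply, Module.Basis.mk_apply]
  simp [g']

end Pool.Agent.Lib.MP_463376_co
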