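import Pool.Agent.Lib.MP_463376_co.G3_Tor
import Pool.Agent.Lib.MP_463376_co.G3_LinA

/-!
# Stream G3, job LinB: an abstract homogeneous basis theorem (pure linear algebra)

Let `F = N → k` and `π : C → F`, `π c n = r (e.repr c n)`; `π` is surjective, `k`-linear and `π (a • c) = r a • π c`.
`semilin`: an additive map `φ` with `φ (a • c) = θ a • φ c`, `r ∘ θ = r`, induces a `k`-linear map of `F`.
Apply it to `T` (gives `Tbar`) and to `act w` (`θ = id`, gives `R w`).
`H q = π ({p ∈ P | T p = evv q • p})` for `q : ℕ × ℕ` is contained in the eigenspace of `Tbar` for `evv q`; the `evv q` are distinct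
(`evv_inj`), so the `H q` are independent (`Module.End.eigenspaces_iSupIndep`), and their sum is `F`
by `hP`, `hdec`, `hneg`. Take `V = Σ q, Fin (finrank (H q))`, the collected basis
(`DirectSum.IsInternal.collectedBasis`) `b`, `deg v = v.1`, lifts `g v ∈ P` of `b v` with `T (g v) = evv (deg v) • g v`, which are a
basis of `C` by `lift_basis`; `ρ w = LinearMap.toMatrix b b (R w)`. `R w` preserves every `H q`, so `ρ w` is
homogeneous (`DirectSum.IsInternal.collectedBasis_repr_of_mem_ne`). Finally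
`r (g.repr (act w (g v)) v') = ρ w v' v`: apply `π` to the expansion of `act w (g v)` in the basis `g`.
-/

namespace Pool.Agent.Lib.MP_463376_co

section
variable {k A C N : Type} [Field k] [CommRing A] [Algebra k A] [AddCommGroup C]
    [Module k C] [Module A C] [IsScalarTower k A C] [Fintype N]

/-- The reduction map. -/
private noncomputable def g3LinB_pi (r : A →ₐ[k] k) (e : Module.Basis N A C) : C →ₗ[k] (N → k) where
  toFun c n := r (e.repr c n)
  map_add' c d := by
    funext n
    simp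
  map_smul' a c := by
    funext n
    have h : a • c = algebraMap k A a • c := (algebraMap_smul A a c).symm
    rw [h, map_smul]
    simp

private theorem g3LinB_pi_apply (r : A →ₐ[k] k) (e : Module.Basis N A C) (c : C) (n : N) :
    g3LinB_pi r e c n = r (e.repr c n) := rfl

private theorem g3LinB_pi_smul (r : A →ₐ[k] k) (e : Module.Basis N A C) (a : A) (c : C) :
    g3LinB_pi r e (a • c) = r a • g3LinB_pi r e c := by
  funext n
  simp [g3LinB_pi_apply]

private noncomputable def g3LinB_s (e : Module.Basis N A C) : (N → k) →ₗ[k] C where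
  toFun f := ∑ n, f n • e n
  map_add' f g := by
    simp [add_smul, Finset.sum_add_distrib]
  map_smul' a f := by
    simp [Finset.smul_sum, mul_smul]

private theorem g3LinB_pi_s (r : A →ₐ[k] k) (e : Module.Basis N A C) (f : N → k) :
    g3LinB_pi r e (g3LinB_s e f) = f := by
  classical
  have h1 : g3LinB_s e f = ∑ n, algebraMap k A (f n) • e n := by
    show ∑ n, f n • e n = _
    refine Finset.sum_congr rfl fun n _ => ?_
    exact (algebraMap_smul A (f n) (e n)).symm
  rw [h1, map_sum]
  simp only [g3LinB_pi_smul]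
  funext m
  simp only [Finset.sum_apply, Pi.smul_apply, g3LinB_pi_apply, Module.Basis.repr_self,
    Finsupp.single_apply, smul_eq_mul]
  rw [Finset.sum_eq_single m]
  · simp
  · intro n _ hn
    simp [hn]
  · intro h
    exact absurd (Finset.mem_univ m) h

private theorem g3LinB_surj (r : A →ₐ[k] k) (e : Module.Basis N A C) :
    Function.Surjective (g3LinB_pi r e) := fun f => ⟨_, g3LinB_pi_s r e f⟩

end

theorem semilin {k A C N : Type} [Field k] [CommRing A] [Algebra k A] [AddCommGroup C]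
    [Module k C] [Module A C] [IsScalarTower k A C] (r : A →ₐ[k] k) [Fintype N]
    (e : Module.Basis N A C) (th : A →+* A) (hth : ∀ a, r (th a) = r a) (T : C →ₗ[k] C)
    (hT : ∀ (a : A) (c : C), T (a • c) = th a • T c) :
    ∃ S : (N → k) →ₗ[k] (N → k), ∀ c : C,
      (fun n => r (e.repr (T c) n)) = S (fun n => r (e.repr c n)) := by
  refine ⟨(g3LinB_pi r e) ∘ₗ T ∘ₗ (g3LinB_s e), fun c => ?_⟩
  show g3LinB_pi r e (T c) = g3LinB_pi r e (T (g3LinB_s e (g3LinB_pi r e c)))
  rw [← sub_eq_zero, ← map_sub, ← map_sub]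
  have key : ∀ d : C, g3LinB_pi r e d = 0 → g3LinB_pi r e (T d) = 0 := by
    intro d hd
    rw [← e.sum_repr d, map_sum, map_sum]
    refine Finset.sum_eq_zero fun n _ => ?_
    rw [hT, g3LinB_pi_smul, hth]
    have h : r (e.repr d n) = 0 := congrFun hd n
    rw [h, zero_smul]
  apply key
  rw [map_sub, g3LinB_pi_s, sub_self]

theorem abs_homBasis {k A C N G : Type} [Field k] [CharZero k] [CommRing A] [Algebra k A]
    [AddCommGroup C] [Module k C] [Module A C] [IsScalarTower k A C] [Group G]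
    (r : A →ₐ[k] k) (hr : ∀ a, r a ≠ 0 → IsUnit a) [Fintype N]
    (e : Module.Basis N A C) (act : G →* (C →ₗ[A] C)) (P : Submodule k C)
    (hP : ∀ c : C, ∃ p ∈ P, ∀ n, r (e.repr (c - p) n) = 0)
    (th : A →+* A) (hth : ∀ a, r (th a) = r a) (T : C →ₗ[k] C)
    (hT : ∀ (a : A) (c : C), T (a • c) = th a • T c)
    (hdec : ∀ p ∈ P, ∃ (s : Finset (ℤ × ℤ)) (h : ℤ × ℤ → C),
      (∀ q, h q ∈ P ∧ T (h q) = evv k q.1 q.2 • h q) ∧ p = ∑ q ∈ s, h q)
    (hneg : ∀ p ∈ P, ∀ a b : ℤ, (a < 0 ∨ b < 0) → T p = evv k a b • p →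
      ∀ n, r (e.repr p n) = 0)
    (hactP : ∀ w, ∀ p ∈ P, act w p ∈ P) (hactT : ∀ w c, act w (T c) = T (act w c)) :
    ∃ (V : Type) (_ : Fintype V) (_ : DecidableEq V) (deg : V → ℕ × ℕ) (g : Module.Basis V A C)
      (ρ : G → Matrix V V k),
      (∀ v, g v ∈ P ∧ T (g v) = evv k (deg v).1 (deg v).2 • g v) ∧ ρ 1 = 1 ∧
      (∀ w w', ρ (w * w') = ρ w * ρ w') ∧ (∀ w v' v, ρ w v' v ≠ 0 → deg v' = deg v) ∧
      ∀ w v v', r (g.repr (act w (g v)) v') = ρ w v' v := by
  classical
  set π := g3LinB_pi r e with hπ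
  have hsurj : Function.Surjective π := g3LinB_surj r e
  obtain ⟨Tb, hTb⟩ := semilin r e th hth T hT
  have hTb' : ∀ c, π (T c) = Tb (π c) := hTb
  have hRex : ∀ w : G, ∃ S : (N → k) →ₗ[k] (N → k), ∀ c : C, π (act w c) = S (π c) := by
    intro w
    obtain ⟨S, hS⟩ := semilin r e (RingHom.id A) (fun a => rfl) ((act w).restrictScalars k)
      (fun a c => (act w).map_smul a c)
    exact ⟨S, hS⟩
  choose R hR using hRex
  have hR1 : R 1 = LinearMap.id := by
    refine LinearMap.ext fun f => ?_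
    obtain ⟨c, rfl⟩ := hsurj f
    rw [← hR, map_one]
    rfl
  have hRm : ∀ w w', R (w * w') = R w ∘ₗ R w' := by
    intro w w'
    refine LinearMap.ext fun f => ?_
    obtain ⟨c, rfl⟩ := hsurj f
    rw [← hR, map_mul, LinearMap.comp_apply, ← hR, ← hR]
    rfl
  let H : ℕ × ℕ → Submodule k (N → k) := fun q =>
    (P ⊓ Module.End.eigenspace T (evv k q.1 q.2)).map π
  have memH : ∀ (q : ℕ × ℕ) (f : N → k), f ∈ H q ↔
      ∃ p ∈ P, T p = evv k q.1 q.2 • p ∧ π p = f := by
    intro q f
    constructor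
    · rintro ⟨p, ⟨h1, h2⟩, h3⟩
      exact ⟨p, h1, Module.End.mem_eigenspace_iff.1 h2, h3⟩
    · rintro ⟨p, h1, h2, h3⟩
      exact ⟨p, ⟨h1, Module.End.mem_eigenspace_iff.2 h2⟩, h3⟩
  have hind : iSupIndep H := by
    have h1 : iSupIndep (fun q : ℕ × ℕ => Module.End.eigenspace Tb (evv k q.1 q.2)) := by
      refine (Module.End.eigenspaces_iSupIndep Tb).comp ?_
      intro q q' h
      have := evv_inj (k := k) h
      exact Prod.ext (by exact_mod_cast this.1) (by exact_mod_cast this.2)
    refine h1.mono fun q => ?_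
    intro f hf
    obtain ⟨p, -, h2, rfl⟩ := (memH q f).1 hf
    rw [Module.End.mem_eigenspace_iff, ← hTb', h2, map_smul]
  have htop : iSup H = ⊤ := by
    rw [eq_top_iff]
    intro f _
    obtain ⟨c, rfl⟩ := hsurj f
    obtain ⟨p, hp, hp2⟩ := hP c
    have e1 : π c = π p := by
      rw [← sub_eq_zero, ← map_sub]
      funext n
      exact hp2 n
    rw [e1]
    obtain ⟨s, h, hh, hsum⟩ := hdec p hp
    rw [hsum, map_sum]
    refine Submodule.sum_mem _ fun q _ => ?_
    by_cases hq : q.1 < 0 ∨ q.2 < 0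
    · have : π (h q) = 0 := by
        funext n
        exact hneg (h q) (hh q).1 q.1 q.2 hq (hh q).2 n
      rw [this]
      exact Submodule.zero_mem _
    · push Not at hq
      refine Submodule.mem_iSup_of_mem (q.1.toNat, q.2.toNat) ?_
      rw [memH]
      refine ⟨h q, (hh q).1, ?_, rfl⟩
      have e1 : ((q.1.toNat : ℕ) : ℤ) = q.1 := Int.toNat_of_nonneg hq.1
      have e2 : ((q.2.toNat : ℕ) : ℤ) = q.2 := Int.toNat_of_nonneg hq.2
      rw [e1, e2]
      exact (hh q).2
  have hint : DirectSum.IsInternal H :=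
    (DirectSum.isInternal_submodule_iff_iSupIndep_and_iSup_eq_top H).2 ⟨hind, htop⟩
  let bb : ∀ q, Module.Basis (Fin (Module.finrank k (H q))) k (H q) := fun q =>
    Module.finBasis k (H q)
  let b := hint.collectedBasis bb
  haveI : Fintype (Σ q : ℕ × ℕ, Fin (Module.finrank k (H q))) :=
    FiniteDimensional.fintypeBasisIndex b
  have hbH : ∀ v, b v ∈ H v.1 := fun v => hint.collectedBasis_mem bb v
  have hlift : ∀ v, ∃ p ∈ P, T p = evv k (v.1.1 : ℤ) (v.1.2 : ℤ) • p ∧ π p = b v := fun v =>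
    (memH v.1 (b v)).1 (hbH v)
  choose g hgP hgT hgb using hlift
  obtain ⟨gB, hgB⟩ := lift_basis r hr e b g (fun v n => congrFun (hgb v) n)
  refine ⟨(Σ q : ℕ × ℕ, Fin (Module.finrank k (H q))), inferInstance, inferInstance,
    fun v => v.1, gB, fun w => LinearMap.toMatrix b b (R w), ?_, ?_, ?_, ?_, ?_⟩
  · intro v
    rw [hgB]
    exact ⟨hgP v, hgT v⟩
  · show LinearMap.toMatrix b b (R 1) = 1
    rw [hR1, LinearMap.toMatrix_id]
  · intro w w'
    show LinearMap.toMatrix b b (R (w * w')) = _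
    rw [hRm, LinearMap.toMatrix_comp b b b]
  · intro w v' v hne
    by_contra hcon
    apply hne
    show LinearMap.toMatrix b b (R w) v' v = 0
    rw [LinearMap.toMatrix_apply, ← hgb v, ← hR]
    have hm : π (act w (g v)) ∈ H v.1 := by
      rw [memH]
      refine ⟨act w (g v), hactP w _ (hgP v), ?_, rfl⟩
      rw [← hactT, hgT v]
      exact LinearMap.map_smul_of_tower (act w) _ _
    obtain ⟨i, a⟩ := v'
    exact hint.collectedBasis_repr_of_mem_ne bb (fun h => hcon h.symm) hm
  · intro w v v'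
    show _ = LinearMap.toMatrix b b (R w) v' v
    rw [LinearMap.toMatrix_apply, ← hgb v, ← hR, hgB]
    have h1 : π (act w (g v)) = ∑ u, r (gB.repr (act w (g v)) u) • b u := by
      conv_lhs => rw [← gB.sum_repr (act w (g v))]
      rw [map_sum]
      refine Finset.sum_congr rfl fun u _ => ?_
      rw [g3LinB_pi_smul, hgB, ← hgb u]
    rw [h1, map_sum, Finset.sum_apply']
    simp only [map_smul, Module.Basis.repr_self, Finsupp.smul_single, smul_eq_mul, mul_one,
      Finsupp.single_apply]
    rw [Finset.sum_eq_single v']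
    · simp
    · intro u _ hu
      simp [hu]
    · intro h
      exact absurd (Finset.mem_univ v') h

end Pool.Agent.Lib.MP_463376_co
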