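import Pool.Agent.Lib.MP_463376_co.G3_TorL

/-!
# Stream G3, job Res: the residue map of `A`

`a * y = x` with `x, y ∈ O`, `y ∉ nn` (`mem_AA_iff`), `r a = φ x / φ y` with `φ` from `residue` (alternatively: `A` is local by
`AA_regular`, and `k → A / m` is bijective). `CC_eq`: `c * b ∈ P` with `b = β + ν`, `β ∈ k` nonzero, `ν ∈ nn`
(`mem_CC_iff`): take `p = β⁻¹ c b`, `a = -β⁻¹ ν`.
-/

namespace Pool.Agent.Lib.MP_463376_co

open MvPolynomial

section

variable (k : Type) [Field k] [CharZero k] {ι : Type} [Fintype ι] [DecidableEq ι]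
  (L : Type) [Field L] [Algebra k L] [Algebra (RR k ι) L]
  [IsScalarTower k (RR k ι) L] [IsFractionRing (RR k ι) L] (δ : Dia ι)

omit [CharZero k] [IsFractionRing (RR k ι) L] in
private theorem g3res_ker {φ : OO k L δ →ₐ[k] k} (hφ : RingHom.ker φ = nn k L δ) (b : OO k L δ) :
    b ∉ nn k L δ ↔ φ b ≠ 0 := by
  rw [← hφ, RingHom.mem_ker]

private theorem g3res_frac (a : AA k L δ) : ∃ x y : OO k L δ, y ∉ nn k L δ ∧
    (a : L) * y = x := by
  obtain ⟨x, y, hy, h⟩ := (mem_AA_iff k L δ (a : L)).mp a.2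
  exact ⟨x, y, hy, h⟩

omit [CharZero k] [IsFractionRing (RR k ι) L] in
private theorem g3res_wd {φ : OO k L δ →ₐ[k] k} (g : L) (x y x' y' : OO k L δ)
    (h : g * y = x) (h' : g * y' = x') : φ x * φ y' = φ x' * φ y := by
  have h2 : x * y' = x' * y := by
    apply Subtype.ext
    push_cast
    rw [← h, ← h']
    ring
  rw [← map_mul, ← map_mul, h2]

private theorem g3res_unit {φ : OO k L δ →ₐ[k] k} (hφ : RingHom.ker φ = nn k L δ)
    (a : AA k L δ) (x y : OO k L δ) (hy : y ∉ nn k L δ) (h : (a : L) * y = x) :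
    IsUnit a ↔ φ x ≠ 0 := by
  have hy0 : φ y ≠ 0 := (g3res_ker k L δ hφ y).mp hy
  constructor
  · rintro hu
    obtain ⟨b, hb⟩ := hu.exists_right_inv
    obtain ⟨x', y', hy', h'⟩ := g3res_frac k L δ b
    have hy0' : φ y' ≠ 0 := (g3res_ker k L δ hφ y').mp hy'
    have hbL : (a : L) * (b : L) = 1 := by
      have := congrArg (fun z : AA k L δ => (z : L)) hb
      simpa using this
    have h2 : x * x' = y * y' := by
      apply Subtype.ext
      push_cast
      rw [← h, ← h']
      calc (a : L) * y * (b * y') = ((a : L) * b) * (y * y') := by ring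
        _ = y * y' := by rw [hbL, one_mul]
    intro hx
    have h3 : φ x * φ x' = φ y * φ y' := by rw [← map_mul, ← map_mul, h2]
    rw [hx, zero_mul] at h3
    exact mul_ne_zero hy0 hy0' h3.symm
  · intro hx
    have hxL : (x : L) ≠ 0 := fun h0 => hx (by
      have : x = 0 := Subtype.ext h0
      rw [this, map_zero])
    have hg : ((y : L) / (x : L)) ∈ AA k L δ := (mem_AA_iff k L δ _).mpr
      ⟨y, x, (g3res_ker k L δ hφ x).mpr hx, div_mul_cancel₀ _ hxL⟩
    refine IsUnit.of_mul_eq_one ⟨(y : L) / (x : L), hg⟩ (Subtype.ext ?_)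
    change (a : L) * ((y : L) / (x : L)) = 1
    rw [← mul_div_assoc, h, div_self hxL]

theorem exists_res : ∃ r : AA k L δ →ₐ[k] k, ∀ a, r a = 0 ↔ ¬ IsUnit a := by
  obtain ⟨φ, hφ⟩ := residue k L δ
  choose x y hy h using g3res_frac k L δ
  have hy0 : ∀ a, φ (y a) ≠ 0 := fun a => (g3res_ker k L δ hφ (y a)).mp (hy a)
  have key : ∀ (a : AA k L δ) (x' y' : OO k L δ), φ y' ≠ 0 → (a : L) * y' = x' →
      φ (x a) / φ (y a) = φ x' / φ y' := fun a x' y' hy' h' => by
    rw [div_eq_div_iff (hy0 a) hy']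
    exact g3res_wd k L δ (a : L) (x a) (y a) x' y' (h a) h'
  let r : AA k L δ →ₐ[k] k :=
    { toFun := fun a => φ (x a) / φ (y a)
      map_one' := by
        rw [key 1 1 1 (by rw [map_one]; exact one_ne_zero) (by simp)]
        simp
      map_mul' := fun a b => by
        rw [key (a * b) (x a * x b) (y a * y b) (by rw [map_mul]; exact mul_ne_zero (hy0 a) (hy0 b))
          (by push_cast; rw [← h a, ← h b]; ring)]
        rw [map_mul, map_mul, mul_div_mul_comm]
      map_zero' := by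
        rw [key 0 0 1 (by rw [map_one]; exact one_ne_zero) (by simp)]
        simp
      map_add' := fun a b => by
        rw [key (a + b) (x a * y b + x b * y a) (y a * y b)
          (by rw [map_mul]; exact mul_ne_zero (hy0 a) (hy0 b))
          (by push_cast; rw [← h a, ← h b]; ring)]
        rw [map_add, map_mul, map_mul, map_mul, div_add_div _ _ (hy0 a) (hy0 b)]
        ring
      commutes' := fun c => by
        rw [key (algebraMap k (AA k L δ) c) (algebraMap k (OO k L δ) c) 1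
          (by rw [map_one]; exact one_ne_zero) (by
            push_cast
            rw [mul_one])]
        rw [map_one, div_one, AlgHom.commutes] }
  refine ⟨r, fun a => ?_⟩
  have h1 := g3res_unit k L δ hφ a (x a) (y a) (hy a) (h a)
  change φ (x a) / φ (y a) = 0 ↔ _
  rw [h1, not_not, div_eq_zero_iff]
  exact ⟨fun h2 => h2.resolve_right (hy0 a), fun h2 => Or.inl h2⟩

/-- the residue map of `A` -/
noncomputable def resA : AA k L δ →ₐ[k] k := (exists_res k L δ).choose

theorem res_eq_zero_iff (a : AA k L δ) : resA k L δ a = 0 ↔ ¬ IsUnit a :=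
  (exists_res k L δ).choose_spec a

theorem res_eq_iff (a : AA k L δ) (c : k) :
    resA k L δ a = c ↔ ¬ IsUnit (a - algebraMap k (AA k L δ) c) := by
  rw [← res_eq_zero_iff, map_sub, AlgHom.commutes, Algebra.algebraMap_self, RingHom.id_apply,
    sub_eq_zero]

theorem res_tau (a b : AA k L δ) (h : (b : L) = tauL k ι L (a : L)) :
    resA k L δ b = resA k L δ a := by
  have h1 := tauL_sub_not_isUnit k L δ a b h
  rw [← res_eq_zero_iff, map_sub, sub_eq_zero] at h1
  exact h1

theorem CC_eq (c : CC k L δ) : ∃ (p : CC k L δ) (a : AA k L δ),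
    (p : L) ∈ PP k L δ ∧ ¬ IsUnit a ∧ (c : L) = p + a * c := by
  obtain ⟨φ, hφ⟩ := residue k L δ
  obtain ⟨b, hb, hcb⟩ := (mem_CC_iff k L δ (c : L)).mp c.2
  have hb0 : φ b ≠ 0 := (g3res_ker k L δ hφ b).mp hb
  have hOA : OO k L δ ≤ AA k L δ := fun g hg => Algebra.subset_adjoin (Or.inl hg)
  have hpP : ((φ b)⁻¹ • ((c : L) * b)) ∈ PP k L δ := (PP k L δ).smul_mem hcb _
  have hpC : ((φ b)⁻¹ • ((c : L) * b)) ∈ CC k L δ :=
    (le_sup_right : PP k L δ ≤ AA k L δ ⊔ PP k L δ) hpP
  let u : OO k L δ := 1 - (φ b)⁻¹ • b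
  have huA : (u : L) ∈ AA k L δ := hOA u.2
  refine ⟨⟨_, hpC⟩, ⟨(u : L), huA⟩, hpP, ?_, ?_⟩
  · rw [g3res_unit k L δ hφ ⟨(u : L), huA⟩ u 1
      ((g3res_ker k L δ hφ 1).mpr (by rw [map_one]; exact one_ne_zero)) (by simp)]
    rw [not_not]
    change φ (1 - (φ b)⁻¹ • b) = 0
    rw [map_sub, map_one, map_smul, smul_eq_mul, inv_mul_cancel₀ hb0, sub_self]
  · change (c : L) = (φ b)⁻¹ • ((c : L) * b) + (1 - (φ b)⁻¹ • (b : L)) * c
    rw [sub_mul, one_mul, smul_mul_assoc, mul_comm (b : L) (c : L)]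
    ring

end

end Pool.Agent.Lib.MP_463376_co
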