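import Pool.Agent.Lib.MP_463376_co.G3_Dec
import Pool.Agent.Lib.MP_463376_co.G3_Int
import Pool.Agent.Lib.MP_463376_co.G3_Res
import Pool.Agent.Lib.MP_463376_co.G3_LinB

/-!
# Stream G3, job HB: existence of a homogeneous basis

`abs_homBasis` with `r = res`, `e` a basis of the free module `C` (`CC_free`, `CC_rank`), `act w` = restriction of `permL w` to
`C` (`permL_CC`, `A`-linear by `permL_AA`), `P = {c | (c : L) ∈ PP}`, `th`, `T` = restrictions of `tauL` to `A`, `C`
(`tauL_AA`, `tauL_CC`), `hP` from `CC_eq`, `hdec` from `PP_decomp`, `hneg` from `neg_coord`, `hactP` from `permL_PP`,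
`hactT` from `tauL_permL`. (An instance `IsScalarTower k (AA k L δ) (CC k L δ)` is needed: proved by injectivity of `C → L`
and `coe_algebraMap_AACC`; never use `rfl` for these coercions.)
-/

namespace Pool.Agent.Lib.MP_463376_co

open MvPolynomial

section

variable (k : Type) [Field k] [CharZero k] {ι : Type} [Fintype ι] [DecidableEq ι]
  (L : Type) [Field L] [Algebra k L] [Algebra (RR k ι) L]
  [IsScalarTower k (RR k ι) L] [IsFractionRing (RR k ι) L] (δ : Dia ι)

/-- `tauL` on `A` -/
private noncomputable def g3hb_th : AA k L δ →ₐ[k] AA k L δ :=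
  ((tauL k ι L : L →ₐ[k] L).comp (AA k L δ).val).codRestrict (AA k L δ)
    (fun x => tauL_AA k L δ x x.2)

private theorem g3hb_th_coe (a : AA k L δ) : ((g3hb_th k L δ a : AA k L δ) : L) = tauL k ι L a := rfl

/-- `tauL` on `C` -/
private noncomputable def g3hb_T : CC k L δ →ₐ[k] CC k L δ :=
  ((tauL k ι L : L →ₐ[k] L).comp (CC k L δ).val).codRestrict (CC k L δ)
    (fun x => tauL_CC k L δ x x.2)

private theorem g3hb_T_coe (c : CC k L δ) : ((g3hb_T k L δ c : CC k L δ) : L) = tauL k ι L c := rfl

/-- `P` in `C` -/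
private noncomputable def g3hb_P : Submodule k (CC k L δ) :=
  (Subalgebra.toSubmodule (PP k L δ)).comap (CC k L δ).val.toLinearMap

private theorem g3hb_mem_P (c : CC k L δ) : c ∈ g3hb_P k L δ ↔ (c : L) ∈ PP k L δ := Iff.rfl

private theorem g3hb_tower : IsScalarTower k (AA k L δ) (CC k L δ) := by
  refine ⟨fun r a c => Subtype.ext ?_⟩
  rw [coe_smul_CC]
  have h1 : ((r • (a • c) : CC k L δ) : L) = r • ((a • c : CC k L δ) : L) := rfl
  have h2 : ((r • a : AA k L δ) : L) = r • (a : L) := rfl
  rw [h1, h2, coe_smul_CC, smul_mul_assoc]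

theorem exists_homBasis' : Nonempty (HomBasis k L δ) := by
  have _ := g3hb_tower k L δ
  have _ := CC_free k L δ
  have _ := CC_finite k L δ
  have hr : ∀ a : AA k L δ, resA k L δ a ≠ 0 → IsUnit a := fun a ha => by
    by_contra h
    exact ha ((res_eq_zero_iff k L δ a).2 h)
  let e := Module.Free.chooseBasis (AA k L δ) (CC k L δ)
  have hPC : PP k L δ ≤ CC k L δ := le_sup_right
  obtain ⟨V, hV1, hV2, deg, g, ρ, h1, h2, h3, h4, h5⟩ := abs_homBasis (k := k) (A := AA k L δ)
    (C := CC k L δ) (N := Module.Free.ChooseBasisIndex (AA k L δ) (CC k L δ))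
    (G := Equiv.Perm ι) (resA k L δ) hr e (DistribMulAction.toModuleEnd (AA k L δ) (CC k L δ))
    (g3hb_P k L δ)
    (fun c => by
      obtain ⟨p, a, hp, ha, hc⟩ := CC_eq k L δ c
      refine ⟨p, hp, fun n => ?_⟩
      have h : c - p = a • c := by
        apply Subtype.ext
        rw [coe_smul_CC]
        have h6 : ((c - p : CC k L δ) : L) = (c : L) - (p : L) := rfl
        rw [h6]
        linear_combination hc
      rw [h, map_smul, Finsupp.smul_apply, smul_eq_mul, map_mul,
        (res_eq_zero_iff k L δ a).2 ha, zero_mul])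
    (g3hb_th k L δ).toRingHom
    (fun a => res_tau k L δ a _ (g3hb_th_coe k L δ a))
    (g3hb_T k L δ).toLinearMap
    (fun a c => by
      apply Subtype.ext
      rw [coe_smul_CC]
      change tauL k ι L ((a • c : CC k L δ) : L) = tauL k ι L (a : L) * tauL k ι L (c : L)
      rw [coe_smul_CC, map_mul])
    (fun p hp => by
      obtain ⟨s, h, h6, h7⟩ := PP_decomp (p : L) ((g3hb_mem_P k L δ p).1 hp)
      refine ⟨s, fun q => ⟨h q, hPC (h6 q).1⟩, fun q => ⟨(h6 q).1, ?_⟩, ?_⟩
      · apply Subtype.ext
        exact (h6 q).2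
      · apply Subtype.ext
        have h8 : ((∑ q ∈ s, (⟨h q, hPC (h6 q).1⟩ : CC k L δ) : CC k L δ) : L) = ∑ q ∈ s, h q := by
          rw [AddSubmonoidClass.coe_finset_sum]
        exact h7.trans h8.symm)
    (fun p hp a b hab h n => by
      rw [res_eq_zero_iff]
      exact neg_coord e p hab (congrArg Subtype.val h) n)
    (fun w p hp => permL_PP k L δ w p hp)
    (fun w c => by
      apply Subtype.ext
      exact (tauL_permL k L w (c : L)).symm)
  letI := hV1
  letI := hV2
  refine ⟨{ V := V
            deg := deg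
            g := fun v => (g v : L)
            g_mem := fun v => (h1 v).1
            g_hom := fun v => isHomL_of_tauL (h1 v).1 (congrArg Subtype.val (h1 v).2)
            basis := fun c hc => ?_
            ρ := ρ
            one := h2
            mul := h3
            hom := h4
            perm := fun w v => ?_ }⟩
  · have hs : ∀ a : V → AA k L δ, ((∑ v, a v • g v : CC k L δ) : L) = ∑ v, (a v : L) * (g v : L) :=
      fun a => by
        rw [AddSubmonoidClass.coe_finset_sum]
        exact Finset.sum_congr rfl fun v _ => coe_smul_CC k L δ _ _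
    refine ⟨fun v => g.repr ⟨c, hc⟩ v, ?_, fun a ha => ?_⟩
    · have h6 := congrArg Subtype.val (g.sum_repr ⟨c, hc⟩)
      exact h6.symm.trans (hs _)
    · have h6 : (∑ v, a v • g v : CC k L δ) = ⟨c, hc⟩ := Subtype.ext ((hs a).trans ha.symm)
      funext v
      rw [← h6, g.repr_sum_self]
  · refine ⟨fun v' => g.repr (w • g v) v', ?_, fun v' => ?_⟩
    · have h6 := congrArg Subtype.val (g.sum_repr (w • g v))
      rw [AddSubmonoidClass.coe_finset_sum] at h6
      refine (Eq.trans ?_ h6.symm).trans (Finset.sum_congr rfl fun v' _ => coe_smul_CC k L δ _ _)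
      rfl
    · rw [← res_eq_iff]
      exact h5 w v v'

end

end Pool.Agent.Lib.MP_463376_co
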