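import Pool.Agent.Lib.MP_463376_co.G3_EA

/-!
# Stream G3, job Inj: the evaluations at the orderings separate `C`

The `n!` maps `evC σ : C → KG` are distinct (they differ on some `toC (xx i)` or `toC (yy i)` since `δ.c` is injective), so they are
linearly independent over `KG` (`linearIndependent_monoidHom`). If `∑ σ, l σ * evC σ (e v) = 0` for all `v` then, as
`evC σ (a • c) = EA a * evC σ c` (with `EA a` independent of `σ`), `∑ σ, l σ * evC σ c = 0` for all
`c`, so `l = 0`. The matrix `(evC σ (e v))` is square (`CC_rank`; `Fintype.card V = n!`), its rows are linearly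
independent, so its columns are.
-/

namespace Pool.Agent.Lib.MP_463376_co

open MvPolynomial

section

variable {k : Type} [Field k] [CharZero k] {ι : Type} [Fintype ι] [DecidableEq ι]
  {L : Type} [Field L] [Algebra k L] [Algebra (RR k ι) L]
  [IsScalarTower k (RR k ι) L] [IsFractionRing (RR k ι) L] {δ : Dia ι}

theorem card_basis {V : Type} [Fintype V] (e : Module.Basis V (AA k L δ) (CC k L δ)) :
    Fintype.card V = (Fintype.card ι).factorial := by
  rw [← CC_rank k L δ, Module.finrank_eq_card_basis e]

theorem evC_smul (σ : Equiv.Perm ι) (a : AA k L δ) (c : CC k L δ) :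
    evC k L δ σ (a • c) = EA k L δ a * evC k L δ σ c := by
  rw [Algebra.smul_def, map_mul, evC_algebraMap]

private theorem g3inj_distinct (σ σ' : Equiv.Perm ι)
    (h : ∀ c : CC k L δ, evC k L δ σ c = evC k L δ σ' c) : σ = σ' := by
  have hinj : Function.Injective (algebraMap (GG k) (KG k)) := IsFractionRing.injective _ _
  ext i
  apply δ.inj
  have h1 := h (toC k L δ (xx i))
  have h2 := h (toC k L δ (yy i))
  rw [evC_toC, evC_toC] at h1 h2
  have h1' := hinj h1
  have h2' := hinj h2
  simp only [evG, xx, yy, aeval_X, Sum.elim_inl, Sum.elim_inr, Function.comp] at h1' h2'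
  have h3 := X_injective h1'
  have h4 := X_injective h2'
  exact Prod.ext (Sum.inl_injective h3) (Sum.inr_injective h4)

theorem evC_inj {V : Type} [Fintype V] (e : Module.Basis V (AA k L δ) (CC k L δ)) (α : V → KG k)
    (h : ∀ σ : Equiv.Perm ι, ∑ v, α v * evC k L δ σ (e v) = 0) : α = 0 := by
  classical
  -- rows are independent
  have hli : LinearIndependent (KG k)
      (fun σ : Equiv.Perm ι => (fun c : CC k L δ => evC k L δ σ c)) := by
    have h0 := linearIndependent_monoidHom (CC k L δ) (KG k)
    have h1 := h0.comp (fun σ : Equiv.Perm ι => ((evC k L δ σ : CC k L δ →ₐ[k] KG k) :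
      CC k L δ →* KG k)) (fun σ σ' hσ => g3inj_distinct (δ := δ) σ σ' fun c => by
        have := DFunLike.congr_fun hσ c
        exact this)
    exact h1
  let M : Matrix (Equiv.Perm ι) V (KG k) := Matrix.of fun σ v => evC k L δ σ (e v)
  have hrow : LinearIndependent (KG k) M.row := by
    rw [Fintype.linearIndependent_iff] at hli ⊢
    intro l hl
    apply hli l
    funext c
    have hv : ∀ v, ∑ σ, l σ * evC k L δ σ (e v) = 0 := fun v => by
      have := congrFun hl v
      simpa [M, Matrix.row, Finset.sum_apply] using this
    rw [Finset.sum_apply]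
    have hc : ∀ σ : Equiv.Perm ι, evC k L δ σ c =
        ∑ v, EA k L δ (e.repr c v) * evC k L δ σ (e v) := fun σ => by
      conv_lhs => rw [← e.sum_repr c]
      rw [map_sum]
      exact Finset.sum_congr rfl fun v _ => evC_smul σ _ _
    calc ∑ σ, (l σ • fun c : CC k L δ => evC k L δ σ c) c
        = ∑ σ, l σ * ∑ v, EA k L δ (e.repr c v) * evC k L δ σ (e v) :=
          Finset.sum_congr rfl fun σ _ => by rw [Pi.smul_apply, smul_eq_mul, hc σ]
      _ = ∑ v, EA k L δ (e.repr c v) * ∑ σ, l σ * evC k L δ σ (e v) := by
          simp only [Finset.mul_sum]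
          rw [Finset.sum_comm]
          refine Finset.sum_congr rfl fun v _ => Finset.sum_congr rfl fun σ _ => ?_
          ring
      _ = 0 := by simp [hv]
  have hrank : M.rank = Fintype.card V := by
    rw [hrow.rank_matrix, card_basis e, Fintype.card_perm]
  have hcol : LinearIndependent (KG k) M.col := by
    rw [linearIndependent_iff_card_eq_finrank_span, ← hrank, Matrix.rank_eq_finrank_span_cols]
    rfl
  rw [Fintype.linearIndependent_iff] at hcol
  funext v
  refine hcol α ?_ v
  funext σ
  have := h σ
  simpa [M, Matrix.col, Finset.sum_apply, mul_comm] using this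

end

end Pool.Agent.Lib.MP_463376_co
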