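import Pool.Agent.Lib.MP_463376_co.G3_Coord
import Pool.Agent.Lib.MP_463376_co.G3_Res

/-!
# Stream G3, job Norm: the invariants of `F = C / m C` are the constants in degree `(0,0)`

Let `1 = ∑ v, a v * g v` (`B.basis`) and `u v = res (a v)`.  By `tauL_a_eq` and `res_tau`, `evv_inj`: `u v ≠ 0` only if `deg v = (0,0)`;
`u ≠ 0` since `g v * a v` with all `a v` nonunits cannot sum to `1` (`1 = ∑ a v g v` and ... use: if all `res (a v) = 0` then, with the
basis `B.bas`, `1 ∈ m C`; but `C` is free of positive rank: expand `g v₀ = g v₀ * 1`, or apply `res` to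
the coordinates of `bas v₀ = ∑ v, a v • (g v * g v₀)`).  For every `v`, `∑ w, permL w (g v)` is an invariant element of `C`, so it
is an element `c_v` of `A` (`inv_mem_AA`) and its coordinates are `c_v * a v'`; comparing with `B.perm`:
`∑ w, ρ w v' v = l v * u v'` with `l v = res c_v`. As `permL w 1 = 1`: `∑ v, ρ w v' v * u v = u v'`, so
`(∑ v, l v * u v) * u v' = n! * u v'`, hence `∑ v, l v * u v = n!`.  Finally
`∑ w, ch w = ∑ v, C (∑ w, ρ w v v) * X^deg v = ∑ v, C (l v * u v) * X ^ deg v = n!`.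
-/

namespace Pool.Agent.Lib.MP_463376_co

open MvPolynomial

section

variable {k : Type} [Field k] [CharZero k] {ι : Type} [Fintype ι] [DecidableEq ι]
  {L : Type} [Field L] [Algebra k L] [Algebra (RR k ι) L]
  [IsScalarTower k (RR k ι) L] [IsFractionRing (RR k ι) L] {δ : Dia ι}

theorem g3norm_coe_sum_smul (B : HomBasis k L δ) (a : B.V → AA k L δ) :
    ((∑ v, a v • B.bas v : CC k L δ) : L) = ∑ v, (a v : L) * B.g v := by
  rw [AddSubmonoidClass.coe_finsetSum]
  refine Finset.sum_congr rfl fun v _ => ?_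
  rw [coe_smul_CC, B.bas_coe]

theorem g3norm_repr_eq (B : HomBasis k L δ) (c : CC k L δ) (a : B.V → AA k L δ)
    (h : (c : L) = ∑ v, (a v : L) * B.g v) (v : B.V) : B.bas.repr c v = a v := by
  have h1 : c = ∑ v, a v • B.bas v := Subtype.ext (by rw [h, g3norm_coe_sum_smul])
  rw [h1, B.bas.repr_sum_self]

theorem g3norm_coe_repr (B : HomBasis k L δ) (c : CC k L δ) :
    (c : L) = ∑ v, (B.bas.repr c v : L) * B.g v := by
  rw [← g3norm_coe_sum_smul, B.bas.sum_repr]

theorem g3norm_res_smul (c : k) (a : AA k L δ) : resA k L δ (c • a) = c * resA k L δ a := by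
  rw [map_smul, smul_eq_mul]

theorem HomBasis.norm' (B : HomBasis k L δ) :
    ∑ w : Equiv.Perm ι, B.toGRep.ch w = ((Fintype.card ι).factorial : MvPolynomial (Fin 2) k) := by
  classical
  obtain ⟨r, hr⟩ : ∃ r : AA k L δ →ₐ[k] k, r = resA k L δ := ⟨_, rfl⟩
  obtain ⟨e, he⟩ : ∃ e : Module.Basis B.V (AA k L δ) (CC k L δ), e = B.bas := ⟨_, rfl⟩
  have hρ : ∀ w v' v, r (e.repr (w • e v) v') = B.ρ w v' v := by
    intro w v' v
    obtain ⟨a, ha, hu⟩ := B.perm w v
    rw [he, g3norm_repr_eq B (w • B.bas v) a (by rw [coe_perm_smul, B.bas_coe, ha]), hr]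
    exact (res_eq_iff k L δ _ _).2 (hu v')
  obtain ⟨a, ha⟩ : ∃ a : B.V → AA k L δ, a = fun v => e.repr (1 : CC k L δ) v := ⟨_, rfl⟩
  have ha1 : ∑ v, a v • e v = 1 := by
    rw [ha]; exact e.sum_repr 1
  obtain ⟨u, hu⟩ : ∃ u : B.V → k, u = fun v => r (a v) := ⟨_, rfl⟩
  -- (1)
  have hdeg : ∀ v, u v ≠ 0 → B.deg v = (0, 0) := by
    intro v hv
    have h1 := B.tauL_a_eq (1 : L) (CC k L δ).one_mem 0 0 (by rw [map_one, evv_zero, one_smul]) a
      (by
        have := g3norm_coe_repr B (1 : CC k L δ)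
        rw [ha, he]; exact this) v
    have h2 := res_tau k L δ (a v) (evv k (0 - (B.deg v).1) (0 - (B.deg v).2) • a v) (by
      rw [h1]; rfl)
    rw [g3norm_res_smul, ← hr] at h2
    have h3 : evv k (0 - (B.deg v).1) (0 - (B.deg v).2) = evv k 0 0 := by
      rw [evv_zero]
      have h4 : r (a v) ≠ 0 := by rw [hu] at hv; exact hv
      exact mul_right_cancel₀ h4 (by rw [h2, one_mul])
    obtain ⟨h5, h6⟩ := evv_inj h3
    ext
    · have : ((B.deg v).1 : ℤ) = 0 := by linarith
      exact_mod_cast this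
    · have : ((B.deg v).2 : ℤ) = 0 := by linarith
      exact_mod_cast this
  -- (2)
  have hne : ∃ v, u v ≠ 0 := by
    by_contra hcon
    push Not at hcon
    have hV : Nonempty B.V := by
      by_contra hV
      rw [not_nonempty_iff] at hV
      have h0 : (1 : CC k L δ) = 0 := by rw [← ha1]; exact Finset.sum_of_isEmpty _
      exact one_ne_zero h0
    obtain ⟨v0⟩ := hV
    have h1 : e v0 = ∑ v, a v • (e v * e v0) := by
      have : e v0 = 1 * e v0 := (one_mul _).symm
      rw [← ha1, Finset.sum_mul] at this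
      conv_lhs => rw [this]
      refine Finset.sum_congr rfl fun v _ => ?_
      rw [smul_mul_assoc]
    have h2 : r (e.repr (e v0) v0) = ∑ v, r (a v) * r (e.repr (e v * e v0) v0) := by
      conv_lhs => rw [h1]
      rw [map_sum, Finsupp.finsetSum_apply, map_sum]
      refine Finset.sum_congr rfl fun v _ => ?_
      rw [map_smul, Finsupp.smul_apply, smul_eq_mul, map_mul]
    rw [e.repr_self, Finsupp.single_eq_same, map_one] at h2
    have h3 : ∑ v, r (a v) * r (e.repr (e v * e v0) v0) = 0 := by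
      refine Finset.sum_eq_zero fun v _ => ?_
      have := hcon v
      rw [hu] at this
      rw [show r (a v) = 0 from this, zero_mul]
    rw [h3] at h2
    exact one_ne_zero h2
  -- (3)
  have hl : ∀ v, ∃ l : k, ∀ v', ∑ w : Equiv.Perm ι, B.ρ w v' v = l * u v' := by
    intro v
    have hinv : ∀ w' : Equiv.Perm ι, w' • (∑ w : Equiv.Perm ι, w • e v) = ∑ w : Equiv.Perm ι, w • e v := by
      intro w'
      rw [Finset.smul_sum]
      simp only [smul_smul]
      exact Fintype.sum_equiv (Equiv.mulLeft w') _ _ (fun w => rfl)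
    have hmem : ((∑ w : Equiv.Perm ι, w • e v : CC k L δ) : L) ∈ AA k L δ := by
      apply inv_mem_AA k L δ _ (∑ w : Equiv.Perm ι, w • e v : CC k L δ).2
      intro w'
      rw [← coe_perm_smul, hinv]
    obtain ⟨c, hc⟩ : ∃ c : AA k L δ, (c : L) = ((∑ w : Equiv.Perm ι, w • e v : CC k L δ) : L) :=
      ⟨⟨_, hmem⟩, rfl⟩
    have hc1 : (∑ w : Equiv.Perm ι, w • e v : CC k L δ) = c • (1 : CC k L δ) := by
      apply Subtype.ext
      rw [coe_smul_CC, ← hc]
      exact (mul_one _).symm
    refine ⟨r c, fun v' => ?_⟩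
    have h1 : r (e.repr (∑ w : Equiv.Perm ι, w • e v : CC k L δ) v') = r c * u v' := by
      rw [hc1, map_smul, Finsupp.smul_apply, smul_eq_mul, map_mul, hu, ha]
    rw [← h1, map_sum, Finsupp.finsetSum_apply, map_sum]
    exact Finset.sum_congr rfl fun w _ => (hρ w v' v).symm
  choose l hl using hl
  -- (4)
  have h4 : ∀ w v', ∑ v, u v * B.ρ w v' v = u v' := by
    intro w v'
    have h1 : (1 : CC k L δ) = ∑ v, a v • (w • e v) := by
      have : w • (1 : CC k L δ) = 1 := smul_one w
      rw [← this, ← ha1, Finset.smul_sum]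
      exact Finset.sum_congr rfl fun v _ => smul_comm w (a v) (e v)
    have h2 : u v' = r (e.repr (∑ v, a v • (w • e v)) v') := by
      rw [← h1, hu, ha]
    rw [h2, map_sum, Finsupp.finsetSum_apply, map_sum]
    refine Finset.sum_congr rfl fun v _ => ?_
    rw [map_smul, Finsupp.smul_apply, smul_eq_mul, map_mul, hρ, hu]
  -- (5)
  have h5 : ∑ v, l v * u v = (Fintype.card ι).factorial := by
    obtain ⟨v', hv'⟩ := hne
    have h6 : (∑ v, l v * u v) * u v' = ((Fintype.card ι).factorial : k) * u v' := by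
      have h7 : ∑ w : Equiv.Perm ι, ∑ v, u v * B.ρ w v' v = ((Fintype.card ι).factorial : k) * u v' := by
        rw [Finset.sum_congr rfl fun w _ => h4 w v', Finset.sum_const, Finset.card_univ,
          Fintype.card_perm, nsmul_eq_mul]
      rw [← h7, Finset.sum_comm, Finset.sum_mul]
      refine Finset.sum_congr rfl fun v _ => ?_
      rw [← Finset.mul_sum, hl]
      ring
    exact mul_right_cancel₀ hv' h6
  -- (6)
  have h6 : ∑ w : Equiv.Perm ι, B.toGRep.ch w =
      ∑ v : B.V, C (l v * u v) * ((X 0 : MvPolynomial (Fin 2) k) ^ (B.deg v).1 * X 1 ^ (B.deg v).2) := by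
    have h7 : ∀ w : Equiv.Perm ι, B.toGRep.ch w = ∑ v : B.V, C (B.ρ w v v) *
        ((X 0 : MvPolynomial (Fin 2) k) ^ (B.deg v).1 * X 1 ^ (B.deg v).2) := fun w => rfl
    rw [Finset.sum_congr rfl fun w _ => h7 w, Finset.sum_comm]
    refine Finset.sum_congr rfl fun v _ => ?_
    rw [← Finset.sum_mul, ← map_sum, hl]
  rw [h6]
  have h8 : ∀ v : B.V, C (l v * u v) * ((X 0 : MvPolynomial (Fin 2) k) ^ (B.deg v).1 *
      X 1 ^ (B.deg v).2) = C (l v * u v) := by
    intro v
    by_cases hv : u v = 0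
    · rw [hv, mul_zero, C_0, zero_mul]
    · rw [hdeg v hv, pow_zero, pow_zero, mul_one, mul_one]
  rw [Finset.sum_congr rfl fun v _ => h8 v, ← map_sum, h5, map_natCast]

end

end Pool.Agent.Lib.MP_463376_co
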