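import Pool.Agent.Lib.MP_463376_co.G3_Coord

/-!
# Stream G3, job Span: three properties of the values of a homogeneous basis

`exists_mem`: `g v * Δ^d = f₀` with `f₀ ∈ J^(d)` (`mem_PP_iff`), `e = d`, `f = ε^d • (f₀ Δ^d)` (`evC_spec`, `evG_dl_sq`, `Jd_mul`,
`dl_pow_mem_Jd`).
`exists_span`: decompose `f` (`Jd_decomp`); for a bihomogeneous `f ∈ J^(2e)` the element `f / Δ^(2e)` of `P` is homogeneous
(`alt_isBi`), use `coord_hom`, `evC_spec` and `evG Δ ^ (2e) = ε^e disc^e`.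
`exists_equiv`: `coord_hom` for `permL w (g v)` (homogeneous by `tauL_permL`, `tauL_g`) with the coefficients `a` of `B.perm`, and
`evC_perm`.
-/

namespace Pool.Agent.Lib.MP_463376_co

open MvPolynomial

section

variable {k : Type} [Field k] [CharZero k] {ι : Type} [Fintype ι] [DecidableEq ι]
  {L : Type} [Field L] [Algebra k L] [Algebra (RR k ι) L]
  [IsScalarTower k (RR k ι) L] [IsFractionRing (RR k ι) L] {δ : Dia ι}

omit [CharZero k] [Fintype ι] [DecidableEq ι] in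
private theorem g3span_toL_inj : Function.Injective (toL k L : RR k ι →ₐ[k] L) := by
  intro a b h
  exact IsFractionRing.injective (RR k ι) L h

omit [CharZero k] in
private theorem g3span_KG_inj : Function.Injective (algebraMap (GG k) (KG k)) :=
  IsFractionRing.injective (GG k) (KG k)

omit [CharZero k] in
private theorem g3span_sq {ε : k} (hε : ε = 1 ∨ ε = -1) : (C ε : GG k) ^ 2 = 1 := by
  rcases hε with rfl | rfl
  · simp
  · simp

omit [CharZero k] in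
/-- evaluation of the power of the alternant -/
private theorem g3span_pow {ε : k}
    (h : ∀ σ : Equiv.Perm ι, evG (δ.c ∘ σ) (dl k δ) ^ 2 = C ε * disc k δ) (σ : Equiv.Perm ι) (e : ℕ) :
    evG (δ.c ∘ σ) (dl k δ) ^ (2 * e) = C ε ^ e * disc k δ ^ e := by
  rw [pow_mul, h σ, mul_pow]

theorem HomBasis.exists_mem (B : HomBasis k L δ) (v : B.V) :
    ∃ e : ℕ, ∃ f ∈ Jd k ι (2 * e), ∀ σ : Equiv.Perm ι,
      evG (δ.c ∘ σ) f = disc k δ ^ e * B.G v σ := by
  obtain ⟨ε, hε, hd⟩ := evG_dl_sq k δ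
  obtain ⟨d, f₀, hf₀, h₀⟩ := (mem_PP_iff k L δ (B.g v)).1 (B.g_mem v)
  refine ⟨d, C (ε ^ d) * (f₀ * dl k δ ^ d), ?_, ?_⟩
  · refine Ideal.mul_mem_left _ _ ?_
    rw [two_mul]
    exact Jd_mul hf₀ (dl_pow_mem_Jd δ d)
  · intro σ
    have h1 := evC_spec k L δ σ (B.bas v) f₀ (dl k δ ^ d) (by
      rw [B.bas_coe, map_pow]; exact h₀)
    rw [B.evC_bas, ← map_mul] at h1
    have h2 := g3span_KG_inj h1
    rw [map_pow] at h2
    have h3 : evG (δ.c ∘ σ) (C (ε ^ d) : RR k ι) = C ε ^ d := by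
      rw [← MvPolynomial.algebraMap_eq, AlgHom.commutes, MvPolynomial.algebraMap_eq, map_pow]
    have h6 : evG (δ.c ∘ σ) (C (ε ^ d) * (f₀ * dl k δ ^ d)) =
        C ε ^ d * (B.G v σ * evG (δ.c ∘ σ) (dl k δ) ^ d * evG (δ.c ∘ σ) (dl k δ) ^ d) := by
      rw [map_mul, map_mul, h3, ← h2, map_pow]
    rw [h6]
    have h4 := g3span_pow hd σ d
    have h5 : (C ε : GG k) ^ d * C ε ^ d = 1 := by
      rw [← mul_pow, ← sq, g3span_sq hε, one_pow]
    calc C ε ^ d * (B.G v σ * evG (δ.c ∘ σ) (dl k δ) ^ d * evG (δ.c ∘ σ) (dl k δ) ^ d)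
        = C ε ^ d * B.G v σ * evG (δ.c ∘ σ) (dl k δ) ^ (2 * d) := by ring
      _ = C ε ^ d * B.G v σ * (C ε ^ d * disc k δ ^ d) := by rw [h4]
      _ = (C ε ^ d * C ε ^ d) * (disc k δ ^ d * B.G v σ) := by ring
      _ = disc k δ ^ d * B.G v σ := by rw [h5, one_mul]

private theorem g3span_hom (B : HomBasis k L δ) (e : ℕ) (f : RR k ι) (hf : f ∈ Jd k ι (2 * e))
    (a b : ℕ) (hab : IsBi f a b) : ∃ α : B.V → GG k, ∀ σ : Equiv.Perm ι,
      evG (δ.c ∘ σ) f = disc k δ ^ e * ∑ v, α v * B.G v σ := by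
  obtain ⟨ε, hε, hd⟩ := evG_dl_sq k δ
  have hdl : toL k L (dl k δ) ≠ 0 := by
    intro h
    exact dl_ne_zero k δ (g3span_toL_inj (k := k) (L := L) (by rw [h, map_zero]))
  set h : L := toL k L f / toL k L (dl k δ) ^ (2 * e) with hh
  have hmul : h * toL k L (dl k δ) ^ (2 * e) = toL k L f := by
    rw [hh]; exact div_mul_cancel₀ _ (pow_ne_zero _ hdl)
  have hP : h ∈ PP k L δ := (mem_PP_iff k L δ h).2 ⟨2 * e, f, hf, hmul⟩
  have hC : h ∈ CC k L δ := (le_sup_right : PP k L δ ≤ AA k L δ ⊔ PP k L δ) hP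
  set A : ℤ := ∑ i, ((δ.c i).1 : ℤ) with hA
  set A' : ℤ := ∑ i, ((δ.c i).2 : ℤ) with hA'
  have htdl : tauL k ι L (toL k L (dl k δ)) = evv k A A' • toL k L (dl k δ) := by
    rw [tauL_toL, (tau_eigen_iff (dl k δ) A A').2 (alt_isBi δ.c), map_smul]
  have htf : tauL k ι L (toL k L f) = evv k a b • toL k L f := by
    rw [tauL_toL, (tau_eigen_iff f a b).2 hab, map_smul]
  have hev : ∀ n : ℕ, evv k A A' ^ n = evv k (n * A) (n * A') := by
    intro n
    unfold evv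
    rw [mul_pow, ← zpow_natCast, ← zpow_natCast, ← zpow_mul, ← zpow_mul, mul_comm A, mul_comm A']
  have hth : tauL k ι L h = evv k (a - (2 * e : ℕ) * A) (b - (2 * e : ℕ) * A') • h := by
    have h1 : tauL k ι L h * tauL k ι L (toL k L (dl k δ)) ^ (2 * e) =
        tauL k ι L (toL k L f) := by
      rw [← map_pow, ← map_mul, hmul]
    rw [htdl, htf, smul_pow, hev, ← hmul] at h1
    have h2 : evv k (((2 * e : ℕ) : ℤ) * A) (((2 * e : ℕ) : ℤ) * A') ≠ 0 := evv_ne_zero _ _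
    have h3 : evv k (a : ℤ) (b : ℤ) =
        evv k (a - (2 * e : ℕ) * A) (b - (2 * e : ℕ) * A') *
          evv k (((2 * e : ℕ) : ℤ) * A) (((2 * e : ℕ) : ℤ) * A') := by
      rw [← evv_add]
      congr 1 <;> ring
    have h4 : toL k L (dl k δ) ^ (2 * e) ≠ 0 := pow_ne_zero _ hdl
    rw [h3, Algebra.smul_def, Algebra.smul_def, map_mul] at h1
    rw [Algebra.smul_def]
    have h2' : algebraMap k L (evv k (((2 * e : ℕ) : ℤ) * A) (((2 * e : ℕ) : ℤ) * A')) ≠ 0 :=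
      (map_ne_zero _).2 h2
    apply mul_right_cancel₀ (mul_ne_zero h2' h4)
    rw [h1]
    ring
  obtain ⟨c, hc, -⟩ := B.basis h hC
  obtain ⟨α, hα, -, -⟩ := B.coord_hom ⟨h, hC⟩ _ _ hth c hc
  refine ⟨fun v => C ε ^ e * α v, fun σ => ?_⟩
  have h1 := evC_spec k L δ σ ⟨h, hC⟩ f (dl k δ ^ (2 * e)) (by rw [map_pow]; exact hmul)
  rw [hα σ, ← map_mul] at h1
  have h2 := g3span_KG_inj h1
  rw [← h2, map_pow, g3span_pow hd, Finset.sum_mul, Finset.mul_sum]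
  refine Finset.sum_congr rfl fun v _ => ?_
  ring

theorem HomBasis.exists_span (B : HomBasis k L δ) (e : ℕ) (f : RR k ι) (hf : f ∈ Jd k ι (2 * e)) :
    ∃ a : B.V → GG k, ∀ σ : Equiv.Perm ι,
      evG (δ.c ∘ σ) f = disc k δ ^ e * ∑ v, a v * B.G v σ := by
  obtain ⟨s, c, hc, rfl⟩ := Jd_decomp (2 * e) f hf
  have h : ∀ p : ℕ × ℕ, ∃ α : B.V → GG k, ∀ σ : Equiv.Perm ι,
      evG (δ.c ∘ σ) (c p) = disc k δ ^ e * ∑ v, α v * B.G v σ := fun p =>
    g3span_hom B e (c p) (hc p).1 p.1 p.2 (hc p).2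
  choose α hα using h
  refine ⟨fun v => ∑ p ∈ s, α p v, fun σ => ?_⟩
  rw [map_sum, Finset.sum_congr rfl fun p _ => hα p σ, ← Finset.mul_sum, Finset.sum_comm]
  congr 1
  refine Finset.sum_congr rfl fun v _ => ?_
  rw [Finset.sum_mul]

theorem HomBasis.exists_equiv (B : HomBasis k L δ) (w : Equiv.Perm ι) :
    ∃ a : B.V → B.V → GG k,
      (∀ v σ, B.G v (σ * w) = ∑ v', a v' v * B.G v' σ) ∧
      (∀ v' v, (a v' v).coeff 0 = B.ρ w v' v) ∧
      (∀ v' v, IsBihom (a v' v) ((B.deg v).1 - (B.deg v').1) ((B.deg v).2 - (B.deg v').2)) := by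
  have h : ∀ v : B.V, ∃ α : B.V → GG k,
      (∀ σ, B.G v (σ * w) = ∑ v', α v' * B.G v' σ) ∧
      (∀ v', (α v').coeff 0 = B.ρ w v' v) ∧
      (∀ v', IsBihom (α v') ((B.deg v).1 - (B.deg v').1) ((B.deg v).2 - (B.deg v').2)) := by
    intro v
    obtain ⟨a, ha, hu⟩ := B.perm w v
    have hC : B.g v ∈ CC k L δ := by rw [← B.bas_coe v]; exact (B.bas v).2
    have hc : permL (k := k) w (B.g v) ∈ CC k L δ := permL_CC k L δ w _ hC
    have ht : tauL k ι L (permL (k := k) w (B.g v)) =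
        evv k (B.deg v).1 (B.deg v).2 • permL (k := k) w (B.g v) := by
      rw [tauL_permL k L w, B.tauL_g, map_smul]
    obtain ⟨α, hα, hb, h0⟩ := B.coord_hom ⟨_, hc⟩ _ _ ht a ha
    refine ⟨α, fun σ => ?_, fun v' => h0 v' _ (hu v'), hb⟩
    apply g3span_KG_inj
    rw [← B.evC_bas, ← hα σ]
    exact (evC_perm k L δ w σ (B.bas v) ⟨_, hc⟩ (by rw [B.bas_coe])).symm
  choose α h1 h2 h3 using h
  exact ⟨fun v' v => α v v', fun v σ => h1 v σ, fun v' v => h2 v v', fun v' v => h3 v v'⟩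

end

end Pool.Agent.Lib.MP_463376_co
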