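import Pool.Agent.Lib.MP_463376_co.G3_Defs

/-!
# Stream G3, job Swap: exchange of `x` and `y`

`sR : RR ≃ RR`, `x_i ↔ y_i` (`MvPolynomial.renameEquiv k (Equiv.sumComm ι ι)`) maps `alt k D` to `alt k (fun i => ((D i).2, (D i).1))`,
in particular `dl k δ` to `dl k δ.swap`, `pI i j` to itself and `J^(d)` to itself. `sL : L ≃ₐ[k] L`
(`IsFractionRing.algEquivOfAlgEquiv`) maps `PP k L δ`, `OO k L δ`, `nn`, `AA`, `CC` to the rings of `δ.swap` and commutes with
`permL`. `B'.g = sL ∘ B.g`, `e = Equiv.refl`.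
-/

namespace Pool.Agent.Lib.MP_463376_co

open MvPolynomial

section
variable {k : Type} [Field k] {ι : Type}

/-- exchange of `x` and `y` on polynomials -/
private noncomputable def g3Swap_sR (k : Type) [Field k] (ι : Type) : RR k ι ≃ₐ[k] RR k ι :=
  renameEquiv k (Equiv.sumComm ι ι)

private theorem g3Swap_sR_xx (i : ι) : g3Swap_sR k ι (xx i) = yy i := by
  simp [g3Swap_sR, xx, yy]

private theorem g3Swap_sR_yy (i : ι) : g3Swap_sR k ι (yy i) = xx i := by
  simp [g3Swap_sR, xx, yy]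

private theorem g3Swap_sR_sR (f : RR k ι) : g3Swap_sR k ι (g3Swap_sR k ι f) = f := by
  unfold g3Swap_sR
  rw [renameEquiv_apply, renameEquiv_apply, rename_rename]
  have h : ((Equiv.sumComm ι ι : ι ⊕ ι ≃ ι ⊕ ι) : ι ⊕ ι → ι ⊕ ι) ∘ (Equiv.sumComm ι ι) = id := by
    funext x
    cases x <;> rfl
  rw [h, rename_id_apply]

private theorem g3Swap_sR_permR (w : Equiv.Perm ι) (f : RR k ι) :
    g3Swap_sR k ι (permR w f) = permR w (g3Swap_sR k ι f) := by
  unfold g3Swap_sR permR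
  rw [renameEquiv_apply, renameEquiv_apply, renameEquiv_apply, renameEquiv_apply, rename_rename,
    rename_rename]
  congr 2
  funext x
  cases x <;> rfl

private theorem g3Swap_sR_torR [CharZero k] (s t : k) (f : RR k ι) :
    torR k s t (g3Swap_sR k ι f) = g3Swap_sR k ι (torR k t s f) := by
  have h : (torR k s t : RR k ι →ₐ[k] RR k ι).comp (g3Swap_sR k ι : RR k ι →ₐ[k] RR k ι) =
      (g3Swap_sR k ι : RR k ι →ₐ[k] RR k ι).comp (torR k t s) := by
    apply MvPolynomial.algHom_ext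
    rintro (i | i) <;> simp [torR, g3Swap_sR, xx, yy]
  exact DFunLike.congr_fun h f

private theorem g3Swap_sR_pI (i j : ι) (d : ℕ) {f : RR k ι} (hf : f ∈ (pI i j) ^ d) :
    g3Swap_sR k ι f ∈ (pI i j) ^ d := by
  have h1 : (pI i j : Ideal (RR k ι)) ≤ (pI i j).comap (g3Swap_sR k ι) := by
    unfold pI
    rw [Ideal.span_le]
    rintro p (rfl | rfl)
    · rw [SetLike.mem_coe, Ideal.mem_comap, map_sub, g3Swap_sR_xx, g3Swap_sR_xx]
      exact Ideal.subset_span (Or.inr rfl)
    · rw [SetLike.mem_coe, Ideal.mem_comap, map_sub, g3Swap_sR_yy, g3Swap_sR_yy]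
      exact Ideal.subset_span (Or.inl rfl)
  have h2 := Ideal.pow_right_mono h1 d hf
  exact Ideal.le_comap_pow (g3Swap_sR k ι) d h2

private theorem g3Swap_sR_Jd (d : ℕ) {f : RR k ι} (hf : f ∈ Jd k ι d) :
    g3Swap_sR k ι f ∈ Jd k ι d := by
  unfold Jd at hf ⊢
  simp only [Ideal.mem_iInf] at hf ⊢
  intro i j hij
  exact g3Swap_sR_pI i j d (hf i j hij)

variable [Fintype ι] [DecidableEq ι]

private theorem g3Swap_sR_alt (D : ι → ℕ × ℕ) :
    g3Swap_sR k ι (alt k D) = alt k (fun i => ((D i).2, (D i).1)) := by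
  unfold alt
  have h := AlgHom.map_det ((g3Swap_sR k ι : RR k ι ≃ₐ[k] RR k ι) : RR k ι →ₐ[k] RR k ι)
    (Matrix.of fun i j : ι => xx i ^ (D j).1 * yy i ^ (D j).2)
  refine Eq.trans h ?_
  congr 1
  ext1 i j
  simp only [AlgHom.mapMatrix_apply, Matrix.map_apply, Matrix.of_apply, AlgEquiv.coe_toAlgHom,
    map_mul, map_pow, g3Swap_sR_xx, g3Swap_sR_yy]
  ring

private theorem g3Swap_sR_dl (δ : Dia ι) : g3Swap_sR k ι (dl k δ) = dl k δ.swap :=
  g3Swap_sR_alt δ.c

end

private theorem g3Swap_swap {ι : Type} (δ : Dia ι) : δ.swap.swap = δ := rfl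

section

variable {k : Type} [Field k] [CharZero k] {ι : Type} [Fintype ι] [DecidableEq ι]
  {L : Type} [Field L] [Algebra k L] [Algebra (RR k ι) L]
  [IsScalarTower k (RR k ι) L] [IsFractionRing (RR k ι) L] {δ : Dia ι}

/-- exchange of `x` and `y` on rational functions -/
private noncomputable def g3Swap_sL (k : Type) [Field k] (ι : Type) (L : Type) [Field L]
    [Algebra k L] [Algebra (RR k ι) L] [IsScalarTower k (RR k ι) L] [IsFractionRing (RR k ι) L] :
    L ≃ₐ[k] L :=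
  IsFractionRing.algEquivOfAlgEquiv (g3Swap_sR k ι)

omit [CharZero k] [Fintype ι] [DecidableEq ι] in
private theorem g3Swap_sL_toL (f : RR k ι) :
    g3Swap_sL k ι L (toL k L f) = toL k L (g3Swap_sR k ι f) := by
  simp [g3Swap_sL, toL, IsFractionRing.algEquivOfAlgEquiv_algebraMap]

omit [CharZero k] [Fintype ι] [DecidableEq ι] in
private theorem g3Swap_sL_sL (g : L) : g3Swap_sL k ι L (g3Swap_sL k ι L g) = g := by
  obtain ⟨a, b, -, rfl⟩ := exists_toL_div (k := k) (ι := ι) g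
  simp only [map_div₀, g3Swap_sL_toL, g3Swap_sR_sR]

omit [CharZero k] [Fintype ι] [DecidableEq ι] in
private theorem g3Swap_sL_permL (w : Equiv.Perm ι) (g : L) :
    g3Swap_sL k ι L (permL (k := k) w g) = permL (k := k) w (g3Swap_sL k ι L g) := by
  obtain ⟨a, b, -, rfl⟩ := exists_toL_div (k := k) (ι := ι) g
  simp only [map_div₀, g3Swap_sL_toL, permL_toL, g3Swap_sR_permR]

omit [Fintype ι] [DecidableEq ι] in
private theorem g3Swap_hom {g : L} {a b : ℤ} (h : IsHomL k ι L g a b) :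
    IsHomL k ι L (g3Swap_sL k ι L g) b a := by
  obtain ⟨f₁, f₂, c, d, h0, h1, h2, h3⟩ := h
  refine ⟨g3Swap_sR k ι f₁, g3Swap_sR k ι f₂, d, c, ?_, ?_, ?_, ?_⟩
  · intro h4
    exact h0 ((g3Swap_sR k ι).injective (h4.trans (map_zero _).symm))
  · rw [← g3Swap_sL_toL, ← g3Swap_sL_toL, ← map_mul, h1]
  · intro s t hs ht
    rw [g3Swap_sR_torR, h2 t s ht hs, map_smul, mul_comm]
  · intro s t hs ht
    rw [g3Swap_sR_torR, h3 t s ht hs, map_smul, mul_comm]

omit [CharZero k] in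
private theorem g3Swap_PP (g : L) (hg : g ∈ PP k L δ) :
    g3Swap_sL k ι L g ∈ PP k L δ.swap := by
  have h1 : PP k L δ ≤ (PP k L δ.swap).comap (g3Swap_sL k ι L : L →ₐ[k] L) := by
    unfold PP
    rw [Algebra.adjoin_le_iff]
    rintro x ⟨d, f, hf, hx⟩
    rw [SetLike.mem_coe, Subalgebra.mem_comap]
    refine Algebra.subset_adjoin ⟨d, g3Swap_sR k ι f, g3Swap_sR_Jd d hf, ?_⟩
    rw [← g3Swap_sR_dl, ← g3Swap_sL_toL, ← g3Swap_sL_toL, ← hx, map_mul, map_pow]
    rfl
  exact h1 hg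

omit [CharZero k] in
private theorem g3Swap_OO (g : L) (hg : g ∈ OO k L δ) :
    g3Swap_sL k ι L g ∈ OO k L δ.swap := by
  have h1 : OO k L δ ≤ (OO k L δ.swap).comap (g3Swap_sL k ι L : L →ₐ[k] L) := by
    unfold OO
    rw [Algebra.adjoin_le_iff]
    rintro x ⟨D, hx⟩
    rw [SetLike.mem_coe, Subalgebra.mem_comap]
    refine Algebra.subset_adjoin ⟨fun i => ((D i).2, (D i).1), ?_⟩
    rw [← g3Swap_sR_dl, ← g3Swap_sR_alt, ← g3Swap_sL_toL, ← g3Swap_sL_toL, ← hx, map_mul]
    rfl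
  exact h1 hg

/-- exchange of `x` and `y` on `O` -/
private noncomputable def g3Swap_sO (k : Type) [Field k] {ι : Type} [Fintype ι] [DecidableEq ι]
    (L : Type) [Field L] [Algebra k L] [Algebra (RR k ι) L]
    [IsScalarTower k (RR k ι) L] [IsFractionRing (RR k ι) L] (δ : Dia ι) :
    OO k L δ →ₐ[k] OO k L δ.swap :=
  ((g3Swap_sL k ι L : L →ₐ[k] L).comp (OO k L δ).val).codRestrict (OO k L δ.swap)
    fun x => g3Swap_OO (x : L) x.2

omit [CharZero k] in
private theorem g3Swap_coe_sO (x : OO k L δ) :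
    ((g3Swap_sO k L δ x : OO k L δ.swap) : L) = g3Swap_sL k ι L x := rfl

private theorem g3Swap_range {ι : Type} (D E : ι → ℕ × ℕ)
    (h : Set.range (fun i => ((D i).2, (D i).1)) = Set.range (fun i => ((E i).2, (E i).1))) :
    Set.range D = Set.range E := by
  have key : ∀ (E : ι → ℕ × ℕ), Set.range E = Prod.swap '' Set.range
      (fun i => ((E i).2, (E i).1)) := by
    intro E
    rw [← Set.range_comp]
    rfl
  rw [key D, key E, h]

omit [CharZero k] in
private theorem g3Swap_gen (g : OO k L δ) (D : ι → ℕ × ℕ) (hD : Set.range D ≠ Set.range δ.c)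
    (hg : (g : L) * toL k L (dl k δ) = toL k L (alt k D)) :
    g3Swap_sO k L δ g ∈ nn k L δ.swap := by
  refine Ideal.subset_span ⟨fun i => ((D i).2, (D i).1), ?_, ?_⟩
  · intro h
    exact hD (g3Swap_range D δ.c h)
  · rw [g3Swap_coe_sO, ← g3Swap_sR_dl, ← g3Swap_sR_alt, ← g3Swap_sL_toL, ← g3Swap_sL_toL,
      ← hg, map_mul]

omit [CharZero k] in
private theorem g3Swap_nn (x : OO k L δ) (hx : x ∈ nn k L δ) :
    g3Swap_sO k L δ x ∈ nn k L δ.swap := by
  unfold nn at hx
  induction hx using Submodule.span_induction with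
  | mem g hg =>
    obtain ⟨D, hD, hg⟩ := hg
    exact g3Swap_gen g D hD hg
  | zero =>
    rw [map_zero]
    exact Ideal.zero_mem _
  | add x y _ _ hx hy =>
    rw [map_add]
    exact Ideal.add_mem _ hx hy
  | smul a x _ hx =>
    rw [smul_eq_mul, map_mul]
    exact Ideal.mul_mem_left _ _ hx

omit [CharZero k] in
private theorem g3Swap_nn' (x : OO k L δ) (hx : g3Swap_sO k L δ x ∈ nn k L δ.swap) :
    x ∈ nn k L δ := by
  have h1 := g3Swap_nn (g3Swap_sO k L δ x) hx
  have h2 : g3Swap_sO k L δ.swap (g3Swap_sO k L δ x) = x := by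
    apply Subtype.ext
    exact g3Swap_sL_sL (k := k) (x : L)
  rw [h2] at h1
  exact h1

private theorem g3Swap_AA (g : L) (hg : g ∈ AA k L δ) :
    g3Swap_sL k ι L g ∈ AA k L δ.swap := by
  rw [mem_AA_iff] at hg ⊢
  obtain ⟨a, b, hb, h⟩ := hg
  refine ⟨g3Swap_sO k L δ a, g3Swap_sO k L δ b, fun h1 => hb (g3Swap_nn' b h1), ?_⟩
  rw [g3Swap_coe_sO, g3Swap_coe_sO, ← h, map_mul]

private theorem g3Swap_CC (g : L) (hg : g ∈ CC k L δ) :
    g3Swap_sL k ι L g ∈ CC k L δ.swap := by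
  have h1 : CC k L δ ≤ (CC k L δ.swap).comap (g3Swap_sL k ι L : L →ₐ[k] L) := by
    unfold CC
    refine sup_le ?_ ?_
    · intro x hx
      rw [Subalgebra.mem_comap]
      exact (le_sup_left : AA k L δ.swap ≤ AA k L δ.swap ⊔ PP k L δ.swap) (g3Swap_AA x hx)
    · intro x hx
      rw [Subalgebra.mem_comap]
      exact (le_sup_right : PP k L δ.swap ≤ AA k L δ.swap ⊔ PP k L δ.swap) (g3Swap_PP x hx)
  exact h1 hg

/-- exchange of `x` and `y` on `A` -/
private noncomputable def g3Swap_sA (k : Type) [Field k] [CharZero k] {ι : Type} [Fintype ι]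
    [DecidableEq ι] (L : Type) [Field L] [Algebra k L] [Algebra (RR k ι) L]
    [IsScalarTower k (RR k ι) L] [IsFractionRing (RR k ι) L] (δ : Dia ι) :
    AA k L δ →ₐ[k] AA k L δ.swap :=
  ((g3Swap_sL k ι L : L →ₐ[k] L).comp (AA k L δ).val).codRestrict (AA k L δ.swap)
    fun x => g3Swap_AA (x : L) x.2

private theorem g3Swap_coe_sA (x : AA k L δ) :
    ((g3Swap_sA k L δ x : AA k L δ.swap) : L) = g3Swap_sL k ι L x := rfl

private theorem g3Swap_sA_sA (x : AA k L δ) :
    g3Swap_sA k L δ.swap (g3Swap_sA k L δ x) = x :=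
  Subtype.ext (g3Swap_sL_sL (k := k) (x : L))

private theorem g3Swap_unit (x : AA k L δ) (h : IsUnit (g3Swap_sA k L δ x)) : IsUnit x := by
  have h1 := h.map (g3Swap_sA k L δ.swap)
  rw [g3Swap_sA_sA] at h1
  exact h1

theorem HomBasis.exists_swap (B : HomBasis k L δ) : ∃ B' : HomBasis k L δ.swap,
    ∃ e : B'.V ≃ B.V, (∀ v, B'.deg v = ((B.deg (e v)).2, (B.deg (e v)).1)) ∧
      ∀ w v' v, B'.ρ w v' v = B.ρ w (e v') (e v) := by
  refine ⟨{ V := B.V
            fin := B.fin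
            dec := B.dec
            deg := fun v => ((B.deg v).2, (B.deg v).1)
            g := fun v => g3Swap_sL k ι L (B.g v)
            g_mem := fun v => g3Swap_PP _ (B.g_mem v)
            g_hom := fun v => g3Swap_hom (B.g_hom v)
            basis := ?_
            ρ := B.ρ
            one := B.one
            mul := B.mul
            hom := ?_
            perm := ?_ }, Equiv.refl _, fun v => rfl, fun w v' v => rfl⟩
  · intro c hc
    obtain ⟨a, ha, huniq⟩ := B.basis (g3Swap_sL k ι L c) (g3Swap_CC (δ := δ.swap) c hc)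
    refine ⟨fun v => g3Swap_sA k L δ (a v), ?_, ?_⟩
    · change c = ∑ v, ((g3Swap_sA k L δ (a v) : AA k L δ.swap) : L) * g3Swap_sL k ι L (B.g v)
      have h1 := congrArg (g3Swap_sL k ι L) ha
      rw [g3Swap_sL_sL, map_sum] at h1
      rw [h1]
      refine Finset.sum_congr rfl fun v _ => ?_
      rw [map_mul, g3Swap_coe_sA]
    · intro a' ha'
      have h1 : g3Swap_sL k ι L c = ∑ v, ((g3Swap_sA k L δ.swap (a' v) : AA k L δ) : L) * B.g v := by
        have h2 := congrArg (g3Swap_sL k ι L) ha'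
        rw [map_sum] at h2
        rw [h2]
        refine Finset.sum_congr rfl fun v _ => ?_
        rw [map_mul, g3Swap_sL_sL]
        rfl
      have h3 := huniq (fun v => g3Swap_sA k L δ.swap (a' v)) h1
      funext v
      rw [← h3]
      exact (g3Swap_sA_sA (δ := δ.swap) (a' v)).symm
  · intro w v' v h
    have h1 := B.hom w v' v h
    rw [h1]
  · intro w v
    obtain ⟨a, ha, hu⟩ := B.perm w v
    refine ⟨fun v' => g3Swap_sA k L δ (a v'), ?_, ?_⟩
    · rw [← g3Swap_sL_permL, ha, map_sum]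
      refine Finset.sum_congr rfl fun v' _ => ?_
      rw [map_mul]
      rfl
    · intro v' h
      apply hu v'
      apply g3Swap_unit
      rw [map_sub, AlgHom.commutes]
      exact h

end

end Pool.Agent.Lib.MP_463376_co
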