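import Pool.Agent.Lib.MP_463376_co.G3_Defs

/-!
# Stream G3, job Tor: bihomogeneous polynomials and the torus element `tau = (2,3)`

`tor s t` multiplies the monomial `m` by `s ^ dgx m * t ^ dgy m` (check it on monomials, both sides
are linear). `2^a 3^b` determines `(a,b)` in characteristic zero (clear denominators, cast to `ℕ`,
compare factorizations or divisibility).
-/

namespace Pool.Agent.Lib.MP_463376_co

open MvPolynomial

section
variable {k : Type} [Field k] {α : Type}

theorem dgx_add (m m' : α ⊕ α →₀ ℕ) : dgx (m + m') = dgx m + dgx m' := by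
  classical
  unfold dgx
  refine Finsupp.sum_add_index' (fun v => ?_) (fun v e e' => ?_)
  · rcases v with v | v <;> rfl
  · rcases v with v | v <;> rfl

theorem dgy_add (m m' : α ⊕ α →₀ ℕ) : dgy (m + m') = dgy m + dgy m' := by
  classical
  unfold dgy
  refine Finsupp.sum_add_index' (fun v => ?_) (fun v e e' => ?_)
  · rcases v with v | v <;> rfl
  · rcases v with v | v <;> rfl

private theorem g3tor_single_inl (i : α) :
    dgx (Finsupp.single (Sum.inl i) 1 : α ⊕ α →₀ ℕ) = 1 ∧
      dgy (Finsupp.single (Sum.inl i) 1 : α ⊕ α →₀ ℕ) = 0 := by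
  unfold dgx dgy
  rw [Finsupp.sum_single_index (by rfl), Finsupp.sum_single_index (by rfl)]
  exact ⟨rfl, rfl⟩

private theorem g3tor_single_inr (i : α) :
    dgx (Finsupp.single (Sum.inr i) 1 : α ⊕ α →₀ ℕ) = 0 ∧
      dgy (Finsupp.single (Sum.inr i) 1 : α ⊕ α →₀ ℕ) = 1 := by
  unfold dgx dgy
  rw [Finsupp.sum_single_index (by rfl), Finsupp.sum_single_index (by rfl)]
  exact ⟨rfl, rfl⟩

theorem tor_coeff (s t : k) (f : MvPolynomial (α ⊕ α) k) (m : α ⊕ α →₀ ℕ) :
    (tor s t f).coeff m = s ^ dgx m * t ^ dgy m * f.coeff m := by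
  classical
  induction f using MvPolynomial.induction_on generalizing m with
  | C a =>
    have h : tor s t (C a : MvPolynomial (α ⊕ α) k) = C a := by
      simp [tor, MvPolynomial.algebraMap_eq]
    rw [h, coeff_C]
    split_ifs with h0
    · subst h0
      simp [dgx, dgy]
    · simp
  | add p q hp hq => rw [map_add, coeff_add, coeff_add, hp, hq]; ring
  | mul_X p v hp =>
    rw [map_mul]
    rcases v with i | i
    · have h : tor s t (X (Sum.inl i) : MvPolynomial (α ⊕ α) k) = C s * X (Sum.inl i) := by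
        simp [tor]
      rw [h, ← mul_assoc, mul_comm _ (C s), mul_assoc, coeff_C_mul, coeff_mul_X', coeff_mul_X']
      split_ifs with hm
      · rw [hp]
        have e : m = (m - Finsupp.single (Sum.inl i) 1) + Finsupp.single (Sum.inl i) 1 := by
          rw [tsub_add_cancel_of_le]
          rw [Finsupp.single_le_iff]
          exact Nat.one_le_iff_ne_zero.2 (Finsupp.mem_support_iff.1 hm)
        have e1 : dgx m = dgx (m - Finsupp.single (Sum.inl i) 1) + 1 := by
          conv_lhs => rw [e]
          rw [dgx_add, (g3tor_single_inl i).1]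
        have e2 : dgy m = dgy (m - Finsupp.single (Sum.inl i) 1) := by
          conv_lhs => rw [e]
          rw [dgy_add, (g3tor_single_inl i).2, add_zero]
        rw [e1, e2, pow_succ]
        ring
      · simp
    · have h : tor s t (X (Sum.inr i) : MvPolynomial (α ⊕ α) k) = C t * X (Sum.inr i) := by
        simp [tor]
      rw [h, ← mul_assoc, mul_comm _ (C t), mul_assoc, coeff_C_mul, coeff_mul_X', coeff_mul_X']
      split_ifs with hm
      · rw [hp]
        have e : m = (m - Finsupp.single (Sum.inr i) 1) + Finsupp.single (Sum.inr i) 1 := by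
          rw [tsub_add_cancel_of_le]
          rw [Finsupp.single_le_iff]
          exact Nat.one_le_iff_ne_zero.2 (Finsupp.mem_support_iff.1 hm)
        have e1 : dgx m = dgx (m - Finsupp.single (Sum.inr i) 1) := by
          conv_lhs => rw [e]
          rw [dgx_add, (g3tor_single_inr i).1, add_zero]
        have e2 : dgy m = dgy (m - Finsupp.single (Sum.inr i) 1) + 1 := by
          conv_lhs => rw [e]
          rw [dgy_add, (g3tor_single_inr i).2]
        rw [e1, e2, pow_succ]
        ring
      · simp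

theorem IsBi.mul {f g : MvPolynomial (α ⊕ α) k} {a b a' b' : ℤ} (hf : IsBi f a b)
    (hg : IsBi g a' b') : IsBi (f * g) (a + a') (b + b') := by
  classical
  intro m hm
  rw [coeff_mul] at hm
  obtain ⟨⟨x, y⟩, hx, hxy⟩ := Finset.exists_ne_zero_of_sum_ne_zero hm
  replace hx : x + y = m := Finset.HasAntidiagonal.mem_antidiagonal.1 hx
  simp only at hxy
  have h1 := hf x (left_ne_zero_of_mul hxy)
  have h2 := hg y (right_ne_zero_of_mul hxy)
  rw [← hx, dgx_add, dgy_add]
  push_cast
  exact ⟨by rw [h1.1, h2.1], by rw [h1.2, h2.2]⟩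

theorem IsBi.add {f g : MvPolynomial (α ⊕ α) k} {a b : ℤ} (hf : IsBi f a b)
    (hg : IsBi g a b) : IsBi (f + g) a b := by
  intro m hm
  by_cases h : f.coeff m = 0
  · refine hg m fun h' => hm ?_
    rw [coeff_add, h, h', add_zero]
  · exact hf m h

theorem IsBi.smul {f : MvPolynomial (α ⊕ α) k} {a b : ℤ} (hf : IsBi f a b) (c : k) :
    IsBi (c • f) a b := by
  intro m hm
  rw [coeff_smul, smul_eq_mul] at hm
  exact hf m (right_ne_zero_of_mul hm)

theorem IsBi.eq_zero {f : MvPolynomial (α ⊕ α) k} {a b : ℤ} (hf : IsBi f a b)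
    (hab : a < 0 ∨ b < 0) : f = 0 := by
  ext m
  rw [coeff_zero]
  by_contra h
  have := hf m h
  omega

theorem IsBi.tor_eq {f : MvPolynomial (α ⊕ α) k} {a b : ℤ} (hf : IsBi f a b) {s t : k}
    (hs : s ≠ 0) (ht : t ≠ 0) : tor s t f = (s ^ a * t ^ b) • f := by
  ext m
  rw [tor_coeff, coeff_smul, smul_eq_mul]
  by_cases h : f.coeff m = 0
  · rw [h, mul_zero, mul_zero]
  · obtain ⟨h1, h2⟩ := hf m h
    rw [← h1, ← h2, zpow_natCast, zpow_natCast]

variable [CharZero k]

theorem tau_coeff (f : MvPolynomial (α ⊕ α) k) (m : α ⊕ α →₀ ℕ) :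
    (tau k α f).coeff m = 2 ^ dgx m * 3 ^ dgy m * f.coeff m := by
  rw [tau_apply, tor_coeff]

theorem evv_ne_zero (a b : ℤ) : evv k a b ≠ 0 :=
  mul_ne_zero (zpow_ne_zero _ two_ne_zero) (zpow_ne_zero _ three_ne_zero)

theorem evv_add (a b a' b' : ℤ) : evv k (a + a') (b + b') = evv k a b * evv k a' b' := by
  unfold evv
  rw [zpow_add₀ two_ne_zero, zpow_add₀ three_ne_zero]
  ring

theorem evv_zero : evv k 0 0 = 1 := by
  simp [evv]

theorem evv_inj {a b a' b' : ℤ} (h : evv k a b = evv k a' b') : a = a' ∧ b = b' := by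
  have hq : (2 : ℚ) ^ a * (3 : ℚ) ^ b = (2 : ℚ) ^ a' * (3 : ℚ) ^ b' := by
    have h' : (((2 : ℚ) ^ a * (3 : ℚ) ^ b : ℚ) : k) = (((2 : ℚ) ^ a' * (3 : ℚ) ^ b' : ℚ) : k) := by
      push_cast
      exact h
    exact_mod_cast h'
  have n2 : ∀ c : ℤ, (2 : ℚ) ^ c ≠ 0 := fun c => zpow_ne_zero _ two_ne_zero
  have n3 : ∀ c : ℤ, (3 : ℚ) ^ c ≠ 0 := fun c => zpow_ne_zero _ three_ne_zero
  have : Fact (Nat.Prime 2) := ⟨Nat.prime_two⟩
  have : Fact (Nat.Prime 3) := ⟨Nat.prime_three⟩
  have v22 : padicValRat 2 (2 : ℚ) = 1 := by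
    have := padicValRat.self (p := 2) (by norm_num)
    exact_mod_cast this
  have v33 : padicValRat 3 (3 : ℚ) = 1 := by
    have := padicValRat.self (p := 3) (by norm_num)
    exact_mod_cast this
  have v23 : padicValRat 2 (3 : ℚ) = 0 := by
    have h1 : padicValRat 2 ((3 : ℕ) : ℚ) = (padicValNat 2 3 : ℤ) := padicValRat.of_nat
    rw [padicValNat.eq_zero_of_not_dvd (by norm_num)] at h1
    exact_mod_cast h1
  have v32 : padicValRat 3 (2 : ℚ) = 0 := by
    have h1 : padicValRat 3 ((2 : ℕ) : ℚ) = (padicValNat 3 2 : ℤ) := padicValRat.of_nat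
    rw [padicValNat.eq_zero_of_not_dvd (by norm_num)] at h1
    exact_mod_cast h1
  constructor
  · have h1 := congrArg (padicValRat 2) hq
    rw [padicValRat.mul (n2 _) (n3 _), padicValRat.mul (n2 _) (n3 _), padicValRat.zpow,
      padicValRat.zpow, padicValRat.zpow, padicValRat.zpow, v22, v23] at h1
    simpa using h1
  · have h1 := congrArg (padicValRat 3) hq
    rw [padicValRat.mul (n2 _) (n3 _), padicValRat.mul (n2 _) (n3 _), padicValRat.zpow,
      padicValRat.zpow, padicValRat.zpow, padicValRat.zpow, v33, v32] at h1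
    simpa using h1

theorem tau_eigen_iff (f : MvPolynomial (α ⊕ α) k) (a b : ℤ) :
    tau k α f = evv k a b • f ↔ IsBi f a b := by
  constructor
  · intro h m hm
    have h1 : coeff m (tau k α f) = coeff m (evv k a b • f) := by rw [h]
    rw [tau_coeff, coeff_smul, smul_eq_mul] at h1
    have h2 := mul_right_cancel₀ hm h1
    have h3 : evv k (dgx m : ℤ) (dgy m : ℤ) = evv k a b := by
      rw [← h2, evv, zpow_natCast, zpow_natCast]
    exact evv_inj h3
  · intro h
    rw [tau_apply]
    exact h.tor_eq two_ne_zero three_ne_zero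

end

end Pool.Agent.Lib.MP_463376_co
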