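import Pool.Agent.Lib.MP_463376_co.H_Hall

/-!
# Stream H: evaluation of symmetric functions

`⟨f, h_{a_1} ⋯ h_{a_s}⟩` is the coefficient of `u^a` in `f(u_1, …, u_s)`.
-/

set_option autoImplicit false

namespace Pool.Agent.Lib.MP_463376_co.Hs

open MvPolynomial

/-- `f(u_0, …, u_{s-1})` -/
noncomputable def ev (K : Type) [Field K] (s : ℕ) : Sym K →ₐ[K] MvPolynomial (Fin s) K :=
  aeval fun i => ∑ b : Fin s, X b ^ (i + 1)

/-- exponent vectors -/
noncomputable def vec {s : ℕ} (a : Fin s → ℕ) : Fin s →₀ ℕ := Finsupp.equivFunOnFinite.symm a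

@[simp] theorem vec_apply {s : ℕ} (a : Fin s → ℕ) (b : Fin s) : vec a b = a b := rfl

section
variable {K : Type} [Field K] [CharZero K]

omit [CharZero K] in
private theorem hEv_hZ_nat (n : ℕ) : hZ K (n : ℤ) = hS K n := by
  unfold hZ
  rw [if_neg (by omega), Int.toNat_natCast]

omit [CharZero K] in
private theorem hEv_hZ_neg {m : ℤ} (h : m < 0) : hZ K m = 0 := if_pos h

private theorem hEv_rec (m : ℤ) (N : ℕ) (h : m ≤ N) :
    ∑ j ∈ Finset.range N, X j * hZ K (m - 1 - j) = C (m : K) * hZ K m := by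
  rcases lt_trichotomy m 0 with hm | rfl | hm
  · rw [hEv_hZ_neg hm, mul_zero]
    refine Finset.sum_eq_zero fun j _ => ?_
    rw [hEv_hZ_neg (by omega), mul_zero]
  · rw [Int.cast_zero, C_0, zero_mul]
    refine Finset.sum_eq_zero fun j _ => ?_
    rw [hEv_hZ_neg (by omega), mul_zero]
  · obtain ⟨n, rfl⟩ : ∃ n : ℕ, m = ((n + 1 : ℕ) : ℤ) := ⟨(m - 1).toNat, by omega⟩
    have hN : n + 1 ≤ N := by exact_mod_cast h
    have h1 : ∑ j ∈ Finset.range N, X j * hZ K (((n + 1 : ℕ) : ℤ) - 1 - j) =
        ∑ j ∈ Finset.range (n + 1), X j * hZ K (((n + 1 : ℕ) : ℤ) - 1 - j) := by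
      symm
      refine Finset.sum_subset (Finset.range_mono hN) ?_
      intro j _ hj
      rw [Finset.mem_range, not_lt] at hj
      rw [hEv_hZ_neg (by push_cast; omega), mul_zero]
    rw [h1, hEv_hZ_nat, hS, Fin.sum_univ_eq_sum_range (fun j => X j * hS K (n - j)), ← mul_assoc,
      ← C_mul]
    have h2 : (((n + 1 : ℕ) : ℤ) : K) * (((n + 1 : ℕ) : K))⁻¹ = 1 := by
      rw [Int.cast_natCast]
      exact mul_inv_cancel₀ (by exact_mod_cast Nat.succ_ne_zero n)
    rw [h2, C_1, one_mul]
    refine Finset.sum_congr rfl fun j hj => ?_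
    rw [Finset.mem_range] at hj
    have h3 : ((n + 1 : ℕ) : ℤ) - 1 - j = ((n - j : ℕ) : ℤ) := by omega
    rw [h3, hEv_hZ_nat]

/-- `(i+1) ∂/∂p_{i+1} h_n = h_{n-i-1}` -/
theorem pderiv_hS (i n : ℕ) :
    C ((i + 1 : ℕ) : K) * pderiv i (hS K n) = hZ K ((n : ℤ) - (i + 1 : ℕ)) := by
  induction n using Nat.strong_induction_on with
  | _ n ih =>
    rcases n with _ | n
    · rw [hS, pderiv_one, mul_zero, hEv_hZ_neg (by push_cast; omega)]
    · rw [hS, Fin.sum_univ_eq_sum_range (fun j => X j * hS K (n - j))]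
      rw [pderiv_C_mul, ← mul_assoc, mul_comm (C ((i + 1 : ℕ) : K)), mul_assoc, map_sum,
        Finset.mul_sum]
      have h1 : ∀ j ∈ Finset.range (n + 1),
          C ((i + 1 : ℕ) : K) * pderiv i (X j * hS K (n - j)) =
          (if j = i then C ((i + 1 : ℕ) : K) * hS K (n - i) else 0) +
            X j * hZ K (((n : ℤ) - i) - 1 - j) := by
        intro j hj
        rw [Finset.mem_range] at hj
        rw [pderiv_mul, mul_add]
        congr 1
        · by_cases hji : j = i
          · subst hji
            rw [if_pos rfl, pderiv_X_self, one_mul]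
          · rw [if_neg hji, pderiv_X_of_ne hji, zero_mul, mul_zero]
        · rw [← mul_assoc, mul_comm (C ((i + 1 : ℕ) : K)), mul_assoc, ih (n - j) (by omega)]
          congr 2
          push_cast [show j ≤ n by omega]
          ring
      rw [Finset.sum_congr rfl h1, Finset.sum_add_distrib, hEv_rec _ _ (by push_cast; omega),
        Finset.sum_ite_eq']
      by_cases hin : i ≤ n
      · rw [if_pos (Finset.mem_range.mpr (by omega))]
        have h2 : (n : ℤ) - i = ((n - i : ℕ) : ℤ) := by omega
        have h3 : ((n + 1 : ℕ) : ℤ) - (i + 1 : ℕ) = ((n - i : ℕ) : ℤ) := by omega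
        rw [h3, h2, hEv_hZ_nat, ← add_mul, ← C_add, ← mul_assoc, ← C_mul]
        have h4 : ((n + 1 : ℕ) : K)⁻¹ * (((i + 1 : ℕ) : K) + (((n - i : ℕ) : ℤ) : K)) = 1 := by
          have h5 : ((i + 1 : ℕ) : K) + (((n - i : ℕ) : ℤ) : K) = ((n + 1 : ℕ) : K) := by
            rw [Int.cast_natCast, ← Nat.cast_add]
            congr 1
            omega
          rw [h5]
          exact inv_mul_cancel₀ (by exact_mod_cast Nat.succ_ne_zero n)
        rw [h4, C_1, one_mul]
      · rw [if_neg (by rw [Finset.mem_range]; omega), hEv_hZ_neg (m := (n : ℤ) - i) (by omega),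
          hEv_hZ_neg (m := ((n + 1 : ℕ) : ℤ) - (i + 1 : ℕ)) (by push_cast; omega), mul_zero,
          add_zero, mul_zero]

omit [CharZero K] in
private theorem hEv_const (n : ℕ) : constantCoeff (hS K n) = if n = 0 then 1 else 0 := by
  rcases n with _ | n
  · rw [hS, map_one, if_pos rfl]
  · rw [if_neg (Nat.succ_ne_zero n), hS, map_mul, map_sum]
    rw [Finset.sum_eq_zero, mul_zero]
    intro j _
    rw [map_mul, constantCoeff_X, zero_mul]

omit [CharZero K] in
private theorem hEv_pderiv_prod (i : ℕ) {s : ℕ} (g : Fin s → Sym K) (t : Finset (Fin s)) :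
    pderiv i (∏ b ∈ t, g b) = ∑ b ∈ t, (∏ b' ∈ t.erase b, g b') * pderiv i (g b) := by
  induction t using Finset.induction_on with
  | empty => rw [Finset.prod_empty, Finset.sum_empty, pderiv_one]
  | insert c t hc ih =>
    rw [Finset.prod_insert hc, pderiv_mul, ih, Finset.sum_insert hc, Finset.erase_insert hc,
      mul_comm (pderiv i (g c)), Finset.mul_sum]
    congr 1
    refine Finset.sum_congr rfl fun b hb => ?_
    have hbc : b ≠ c := fun h => hc (h ▸ hb)
    rw [Finset.erase_insert_of_ne hbc.symm, Finset.prod_insert (fun h => hc (Finset.mem_of_mem_erase h)),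
      mul_assoc]

/-- **Duality.** -/
theorem hall_prod_hS (f : Sym K) {s : ℕ} (a : Fin s → ℕ) :
    hall f (∏ b, hS K (a b)) = (ev K s f).coeff (vec a) := by
  induction f using MvPolynomial.induction_on generalizing a with
  | C c =>
    have h1 : hall (C c : Sym K) (∏ b, hS K (a b)) = c * constantCoeff (∏ b, hS K (a b)) := by
      rw [← mul_one (C c), hall_C_mul_left, hall_comm, hall_one_right]
      rfl
    have h2 : ev K s (C c) = C c := by
      rw [ev, aeval_C]
      rfl
    rw [h1, h2, coeff_C, map_prod]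
    by_cases h : ∀ b, a b = 0
    · have h3 : (0 : Fin s →₀ ℕ) = vec a := by
        ext b
        rw [vec_apply, h b]
        rfl
      rw [if_pos h3, Finset.prod_eq_one, mul_one]
      intro b _
      rw [hEv_const, if_pos (h b)]
    · obtain ⟨b, hb⟩ := not_forall.mp h
      have h3 : ¬ (0 : Fin s →₀ ℕ) = vec a := by
        intro h4
        apply hb
        rw [← vec_apply a b, ← h4]
        rfl
      rw [if_neg h3, Finset.prod_eq_zero (Finset.mem_univ b), mul_zero]
      rw [hEv_const, if_neg hb]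
  | add f g hf hg =>
    rw [hall_add_left, hf, hg, map_add, coeff_add]
  | mul_X f i ih =>
    rw [mul_comm f, hall_X_mul, mul_comm (X i), map_mul]
    have h1 : C ((i + 1 : ℕ) : K) * pderiv i (∏ b, hS K (a b)) =
        ∑ b, if i + 1 ≤ a b then
          ∏ b', hS K (Function.update a b (a b - (i + 1)) b') else 0 := by
      rw [hEv_pderiv_prod, Finset.mul_sum]
      refine Finset.sum_congr rfl fun b _ => ?_
      rw [mul_comm (∏ b' ∈ Finset.univ.erase b, hS K (a b')), ← mul_assoc, pderiv_hS]
      by_cases h : i + 1 ≤ a b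
      · have h2 : ((a b : ℕ) : ℤ) - (i + 1 : ℕ) = ((a b - (i + 1) : ℕ) : ℤ) := by omega
        rw [if_pos h, h2, hEv_hZ_nat, ← Finset.mul_prod_erase Finset.univ _ (Finset.mem_univ b),
          Function.update_self]
        congr 1
        refine Finset.prod_congr rfl fun b' hb' => ?_
        rw [Function.update_of_ne (Finset.ne_of_mem_erase hb')]
      · rw [if_neg h, hEv_hZ_neg (by push_cast; omega), zero_mul]
    rw [h1, hall_sum_right]
    have h2 : ev K s (X i) = ∑ b : Fin s, monomial (Finsupp.single b (i + 1)) (1 : K) := by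
      rw [ev, aeval_X]
      exact Finset.sum_congr rfl fun b _ => X_pow_eq_monomial
    rw [h2, Finset.mul_sum, coeff_sum]
    refine Finset.sum_congr rfl fun b _ => ?_
    rw [coeff_mul_monomial', mul_one]
    by_cases h : i + 1 ≤ a b
    · have h3 : Finsupp.single b (i + 1) ≤ vec a := by
        rw [Finsupp.single_le_iff]
        exact h
      rw [if_pos h, if_pos h3, ih]
      congr 1
      ext b'
      rw [vec_apply, Finsupp.tsub_apply, vec_apply]
      by_cases hb : b' = b
      · subst hb
        rw [Function.update_self, Finsupp.single_eq_same]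
      · rw [Function.update_of_ne hb, Finsupp.single_eq_of_ne hb, tsub_zero]
    · have h3 : ¬ Finsupp.single b (i + 1) ≤ vec a := by
        rw [Finsupp.single_le_iff]
        exact h
      rw [if_neg h, if_neg h3, hall_zero_right]

theorem hall_prod_hZ (f : Sym K) {s : ℕ} (a : Fin s → ℤ) :
    hall f (∏ b, hZ K (a b)) =
      if ∀ b, 0 ≤ a b then (ev K s f).coeff (vec fun b => (a b).toNat) else 0 := by
  by_cases h : ∀ b, 0 ≤ a b
  · rw [if_pos h, ← hall_prod_hS]
    congr 1
    refine Finset.prod_congr rfl fun b _ => ?_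
    rw [← hEv_hZ_nat, Int.toNat_of_nonneg (h b)]
  · rw [if_neg h]
    obtain ⟨b, hb⟩ := not_forall.mp h
    rw [Finset.prod_eq_zero (Finset.mem_univ b) (hEv_hZ_neg (by omega)), hall_zero_right]

end

end Pool.Agent.Lib.MP_463376_co.Hs
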