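import Pool.Agent.Lib.MP_463376_co.H_Hall
import Pool.Agent.Lib.MP_463376_co.H_Ev

/-!
# Stream H: the bialternant formula
-/

set_option autoImplicit false

namespace Pool.Agent.Lib.MP_463376_co.Hs

open MvPolynomial

/-- the alternant `det (u_j^{a_i})` -/
noncomputable def alt (K : Type) [Field K] {r : ℕ} (a : Fin r → ℕ) : MvPolynomial (Fin r) K :=
  Matrix.det (Matrix.of fun i j : Fin r => (X j : MvPolynomial (Fin r) K) ^ a i)

/-- `ρ = (r-1, …, 1, 0)` -/
def rho (r : ℕ) (i : Fin r) : ℕ := r - 1 - i

section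
variable {K : Type} [Field K] [CharZero K]

omit [CharZero K] in
theorem hBialt_hS_zero : hS K 0 = 1 := by rw [hS]

theorem hBialt_rec (n : ℕ) :
    ((n : Sym K) + 1) * hS K (n + 1) = ∑ i : Fin (n + 1), X (i : ℕ) * hS K (n - i) := by
  rw [hS, ← mul_assoc]
  have h : ((n : Sym K) + 1) * C (((n + 1 : ℕ) : K)⁻¹) = 1 := by
    have h1 : ((n : Sym K) + 1) = C (((n + 1 : ℕ) : K)) := by simp
    rw [h1, ← C_mul, mul_inv_cancel₀ (Nat.cast_ne_zero.2 (Nat.succ_ne_zero n)), C_1]
  rw [h, one_mul]

/-- the generating function of the complete functions -/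
noncomputable def hBialt_H (K : Type) [Field K] (r : ℕ) : PowerSeries (MvPolynomial (Fin r) K) :=
  PowerSeries.mk fun n => ev K r (hS K n)

/-- `∑ u^k z^k` -/
noncomputable def hBialt_G (K : Type) [Field K] (r : ℕ) (l : Fin r) :
    PowerSeries (MvPolynomial (Fin r) K) :=
  PowerSeries.mk fun n => X l ^ n

/-- `1 - u z` -/
noncomputable def hBialt_L (K : Type) [Field K] (r : ℕ) (l : Fin r) :
    Polynomial (MvPolynomial (Fin r) K) :=
  1 - Polynomial.C (X l) * Polynomial.X

omit [CharZero K] in
theorem hBialt_LG (r : ℕ) (l : Fin r) :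
    (hBialt_L K r l : PowerSeries (MvPolynomial (Fin r) K)) * hBialt_G K r l = 1 := by
  unfold hBialt_L hBialt_G
  rw [Polynomial.coe_sub, Polynomial.coe_mul, Polynomial.coe_C, Polynomial.coe_X, Polynomial.coe_one]
  ext n
  rw [sub_mul, one_mul, map_sub, mul_assoc, PowerSeries.coeff_C_mul]
  cases n with
  | zero => simp
  | succ n =>
    rw [PowerSeries.coeff_succ_X_mul]
    simp [PowerSeries.coeff_one, pow_succ']

/-- the product of all `1 - u z` -/
noncomputable def hBialt_E (K : Type) [Field K] (r : ℕ) : PowerSeries (MvPolynomial (Fin r) K) :=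
  ∏ l : Fin r, (hBialt_L K r l : PowerSeries (MvPolynomial (Fin r) K))

omit [CharZero K] in
theorem hBialt_dL (r : ℕ) (l : Fin r) :
    PowerSeries.derivative (MvPolynomial (Fin r) K)
      (hBialt_L K r l : PowerSeries (MvPolynomial (Fin r) K)) =
      - PowerSeries.C (X l) := by
  unfold hBialt_L
  rw [PowerSeries.derivative_coe]
  simp

omit [CharZero K] in
theorem hBialt_dE (r : ℕ) (s : Finset (Fin r)) :
    PowerSeries.derivative (MvPolynomial (Fin r) K)
      (∏ l ∈ s, (hBialt_L K r l : PowerSeries (MvPolynomial (Fin r) K))) =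
      - (∑ l ∈ s, PowerSeries.C (X l) * hBialt_G K r l) *
        ∏ l ∈ s, (hBialt_L K r l : PowerSeries (MvPolynomial (Fin r) K)) := by
  classical
  induction s using Finset.induction_on with
  | empty => simp
  | insert a s ha ih =>
    rw [Finset.prod_insert ha, Finset.sum_insert ha, Derivation.leibniz, ih, hBialt_dL,
      smul_eq_mul, smul_eq_mul]
    have h := hBialt_LG (K := K) r a
    set Q := ∏ l ∈ s, (hBialt_L K r l : PowerSeries (MvPolynomial (Fin r) K))
    set S := ∑ l ∈ s, PowerSeries.C (X l) * hBialt_G K r l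
    set L := (hBialt_L K r a : PowerSeries (MvPolynomial (Fin r) K))
    set G := hBialt_G K r a
    linear_combination (PowerSeries.C (X a) * Q) * (h)

theorem hBialt_dH (r : ℕ) :
    PowerSeries.derivative (MvPolynomial (Fin r) K) (hBialt_H K r) =
      (∑ l : Fin r, PowerSeries.C (X l) * hBialt_G K r l) * hBialt_H K r := by
  ext1 n
  rw [PowerSeries.coeff_derivative, PowerSeries.coeff_mul,
    Finset.Nat.sum_antidiagonal_eq_sum_range_succ
      (fun i j => (PowerSeries.coeff i) (∑ l : Fin r, PowerSeries.C (X l) * hBialt_G K r l) *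
        (PowerSeries.coeff j) (hBialt_H K r)), Finset.sum_range]
  have h := congrArg (ev K r) (hBialt_rec (K := K) n)
  rw [map_mul, map_sum] at h
  have h1 : (ev K r) ((n : Sym K) + 1) = (n : MvPolynomial (Fin r) K) + 1 := by simp
  rw [h1] at h
  have h2 : (PowerSeries.coeff (n + 1)) (hBialt_H K r) = ev K r (hS K (n + 1)) := by
    simp [hBialt_H]
  rw [h2, mul_comm, h]
  refine Finset.sum_congr rfl fun i _ => ?_
  rw [map_mul]
  congr 1
  · unfold ev hBialt_G
    rw [aeval_X, map_sum]
    refine Finset.sum_congr rfl fun l _ => ?_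
    rw [PowerSeries.coeff_C_mul, PowerSeries.coeff_mk, pow_succ']
  · simp [hBialt_H]

theorem hBialt_HE (r : ℕ) : hBialt_H K r * hBialt_E K r = 1 := by
  apply PowerSeries.derivative.ext
  · rw [Derivation.leibniz, hBialt_dH, hBialt_E, hBialt_dE, PowerSeries.derivative_one,
      smul_eq_mul, smul_eq_mul]
    ring
  · rw [map_mul, map_one]
    have h1 : PowerSeries.constantCoeff (hBialt_H K r) = 1 := by
      rw [← PowerSeries.coeff_zero_eq_constantCoeff_apply]
      simp [hBialt_H, hBialt_hS_zero]
    have h2 : PowerSeries.constantCoeff (hBialt_E K r) = 1 := by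
      rw [hBialt_E, map_prod]
      refine Finset.prod_eq_one fun l _ => ?_
      rw [← PowerSeries.coeff_zero_eq_constantCoeff_apply, Polynomial.coeff_coe]
      simp [hBialt_L]
    rw [h1, h2, one_mul]

/-- the product of the other factors, a polynomial of degree `< r` -/
noncomputable def hBialt_P (K : Type) [Field K] (r : ℕ) (l : Fin r) :
    Polynomial (MvPolynomial (Fin r) K) :=
  ∏ l' ∈ Finset.univ.erase l, hBialt_L K r l'

omit [CharZero K] in
theorem hBialt_degP (r : ℕ) (l : Fin r) (n : ℕ) (hn : r ≤ n) : (hBialt_P K r l).coeff n = 0 := by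
  apply Polynomial.coeff_eq_zero_of_natDegree_lt
  have h1 : (hBialt_P K r l).natDegree ≤ ∑ l' ∈ Finset.univ.erase l, 1 := by
    refine (Polynomial.natDegree_prod_le _ _).trans (Finset.sum_le_sum fun l' _ => ?_)
    unfold hBialt_L
    refine (Polynomial.natDegree_sub_le _ _).trans ?_
    simp only [Polynomial.natDegree_one, zero_le, sup_of_le_right]
    refine Polynomial.natDegree_mul_le.trans ?_
    rw [Polynomial.natDegree_C, zero_add]
    exact Polynomial.natDegree_X_le
  rw [Finset.sum_const, Finset.card_erase_of_mem (Finset.mem_univ l), Finset.card_univ,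
    Fintype.card_fin, smul_eq_mul, mul_one] at h1
  have := l.isLt
  omega

theorem hBialt_HP (r : ℕ) (l : Fin r) :
    hBialt_H K r * (hBialt_P K r l : PowerSeries (MvPolynomial (Fin r) K)) = hBialt_G K r l := by
  have h1 : hBialt_E K r = (hBialt_L K r l : PowerSeries (MvPolynomial (Fin r) K)) *
      (hBialt_P K r l : PowerSeries (MvPolynomial (Fin r) K)) := by
    rw [hBialt_E, hBialt_P, ← Finset.mul_prod_erase _ _ (Finset.mem_univ l)]
    congr 1
    simp only [← Polynomial.coeToPowerSeries.ringHom_apply]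
    rw [map_prod]
  have h2 := hBialt_HE (K := K) r
  rw [h1] at h2
  have h3 := hBialt_LG (K := K) r l
  calc hBialt_H K r * (hBialt_P K r l : PowerSeries (MvPolynomial (Fin r) K))
      = (hBialt_H K r * ((hBialt_L K r l : PowerSeries (MvPolynomial (Fin r) K)) *
        (hBialt_P K r l : PowerSeries (MvPolynomial (Fin r) K)))) * hBialt_G K r l := by
        linear_combination (- hBialt_H K r *
          (hBialt_P K r l : PowerSeries (MvPolynomial (Fin r) K))) * h3
    _ = _ := by rw [h2, one_mul]

/-- the key identity -/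
theorem hBialt_key (r : ℕ) (l : Fin r) (a : ℕ) :
    ∑ j : Fin r, ev K r (hZ K ((a : ℤ) - ((r : ℤ) - 1) + (j : ℕ))) *
      (hBialt_P K r l).coeff (r - 1 - j) = (X l) ^ a := by
  have h := congrArg (PowerSeries.coeff a) (hBialt_HP (K := K) r l)
  have hr : (PowerSeries.coeff a) (hBialt_G K r l) = (X l) ^ a := by simp [hBialt_G]
  rw [hr, mul_comm, PowerSeries.coeff_mul,
    Finset.Nat.sum_antidiagonal_eq_sum_range_succ
      (fun i j => (PowerSeries.coeff i) (hBialt_P K r l : PowerSeries (MvPolynomial (Fin r) K)) *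
        (PowerSeries.coeff j) (hBialt_H K r))] at h
  rw [← h]
  -- both sides are sums over m < max
  have h1 : ∑ j : Fin r, ev K r (hZ K ((a : ℤ) - ((r : ℤ) - 1) + (j : ℕ))) *
      (hBialt_P K r l).coeff (r - 1 - j) =
      ∑ m ∈ Finset.range r, ev K r (hZ K ((a : ℤ) - m)) * (hBialt_P K r l).coeff m := by
    rw [← Finset.sum_range_reflect, Finset.sum_range]
    refine Finset.sum_congr rfl fun j _ => ?_
    have hj := j.isLt
    have e1 : ((r - 1 - (j : ℕ) : ℕ) : ℤ) = (r : ℤ) - 1 - (j : ℕ) := by omega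
    rw [e1]
    congr 3
    ring
  have h2 : ∀ m, m ∈ Finset.range r → a < m →
      ev K r (hZ K ((a : ℤ) - m)) * (hBialt_P K r l).coeff m = 0 := by
    intro m _ hm
    rw [hZ, if_pos (by omega), map_zero, zero_mul]
  have h3 : ∀ m ∈ Finset.range (a + 1),
      (PowerSeries.coeff m) (hBialt_P K r l : PowerSeries (MvPolynomial (Fin r) K)) *
        (PowerSeries.coeff (a - m)) (hBialt_H K r) =
      ev K r (hZ K ((a : ℤ) - m)) * (hBialt_P K r l).coeff m := by
    intro m hm
    have hm' : m ≤ a := Nat.lt_succ_iff.1 (Finset.mem_range.1 hm)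
    rw [Polynomial.coeff_coe, mul_comm]
    congr 1
    rw [hZ, if_neg (by omega)]
    have : ((a : ℤ) - m).toNat = a - m := by omega
    rw [this]
    simp [hBialt_H]
  rw [h1, Finset.sum_congr rfl h3]
  rcases le_total r (a + 1) with hra | hra
  · refine Finset.sum_subset (Finset.range_subset_range.2 hra) fun m _ hm => ?_
    rw [hBialt_degP r l m (by simpa using hm), mul_zero]
  · refine (Finset.sum_subset (Finset.range_subset_range.2 hra) fun m hm hm' => ?_).symm
    exact h2 m hm (by simpa using hm')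

theorem alt_eq {r : ℕ} (a : Fin r → ℕ) :
    alt K a = ev K r (Matrix.det (Matrix.of fun i j : Fin r =>
      hZ K ((a i : ℤ) - ((r : ℤ) - 1) + (j : ℕ)))) * alt K (rho r) := by
  let M : Matrix (Fin r) (Fin r) (MvPolynomial (Fin r) K) :=
    Matrix.of fun j l => (hBialt_P K r l).coeff (r - 1 - j)
  have key : ∀ a : Fin r → ℕ, alt K a = ev K r (Matrix.det (Matrix.of fun i j : Fin r =>
      hZ K ((a i : ℤ) - ((r : ℤ) - 1) + (j : ℕ)))) * M.det := by
    intro a
    have h1 : ev K r (Matrix.det (Matrix.of fun i j : Fin r =>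
        hZ K ((a i : ℤ) - ((r : ℤ) - 1) + (j : ℕ)))) =
        Matrix.det ((ev K r).mapMatrix (Matrix.of fun i j : Fin r =>
        hZ K ((a i : ℤ) - ((r : ℤ) - 1) + (j : ℕ)))) := AlgHom.map_det _ _
    rw [h1, ← Matrix.det_mul, alt]
    congr 1
    ext1 i l
    rw [Matrix.mul_apply]
    simp only [AlgHom.mapMatrix_apply, Matrix.map_apply, Matrix.of_apply, M]
    exact (hBialt_key r l (a i)).symm
  have hrho : Matrix.det (Matrix.of fun i j : Fin r =>
      hZ K ((rho r i : ℤ) - ((r : ℤ) - 1) + (j : ℕ))) = 1 := by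
    rw [Matrix.det_of_isUpperTriangular]
    · refine Finset.prod_eq_one fun i _ => ?_
      rw [Matrix.of_apply]
      have hi := i.isLt
      have : (rho r i : ℤ) - ((r : ℤ) - 1) + (i : ℕ) = 0 := by
        unfold rho; omega
      rw [this, hZ, if_neg (by omega)]
      exact hBialt_hS_zero
    · intro i j hij
      rw [Matrix.of_apply]
      have hi := i.isLt
      have hij' : (j : ℕ) < (i : ℕ) := hij
      have : (rho r i : ℤ) - ((r : ℤ) - 1) + (j : ℕ) < 0 := by
        unfold rho; omega
      rw [hZ, if_pos this]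
  have h2 := key (rho r)
  rw [hrho, map_one, one_mul] at h2
  rw [key a, h2]

theorem alt_rho_ne_zero (r : ℕ) : alt K (rho r) ≠ 0 := by
  have h1 : alt K (rho r) = Matrix.det ((Matrix.vandermonde
      (fun i : Fin r => (X i : MvPolynomial (Fin r) K))).transpose.submatrix Fin.revPerm id) := by
    unfold alt
    congr 1
    ext1 i j
    simp only [Matrix.of_apply, Matrix.submatrix_apply, Matrix.transpose_apply, id,
      Matrix.vandermonde_apply, Fin.revPerm_apply, Fin.val_rev]
    congr 1
    unfold rho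
    omega
  rw [h1, Matrix.det_permute, Matrix.det_transpose, Matrix.det_vandermonde]
  refine mul_ne_zero ?_ ?_
  · rcases Int.units_eq_one_or (Equiv.Perm.sign (Fin.revPerm : Equiv.Perm (Fin r))) with h | h <;>
      rw [h] <;> simp
  · refine Finset.prod_ne_zero_iff.2 fun i _ => Finset.prod_ne_zero_iff.2 fun j hj => ?_
    have hij : i ≠ j := (Finset.mem_Ioi.1 hj).ne
    exact sub_ne_zero.2 fun h => hij.symm (X_injective h)

/-- the Jacobi-Trudi determinant of larger size -/
theorem schur_eq_det (lam : YoungDiagram) {r : ℕ} (h : lam.colLen 0 ≤ r) :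
    schur K lam = Matrix.det (Matrix.of fun i j : Fin r =>
      hZ K ((lam.rowLen i : ℤ) - (i : ℕ) + (j : ℕ))) := by
  induction r, h using Nat.le_induction with
  | base => rfl
  | succ r hr ih =>
    rw [ih, Matrix.det_succ_row _ (Fin.last r)]
    have h0 : lam.rowLen r = 0 := by
      by_contra hne
      have h1 : (r, 0) ∈ lam := YoungDiagram.mem_iff_lt_rowLen.2 (Nat.pos_of_ne_zero hne)
      have h2 := YoungDiagram.mem_iff_lt_colLen.1 h1
      omega
    rw [Finset.sum_eq_single (Fin.last r)]
    · simp only [Matrix.of_apply, Fin.val_last, h0]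
      have e : ((0 : ℕ) : ℤ) - (r : ℕ) + (r : ℕ) = 0 := by simp
      rw [e]
      have e2 : hZ K 0 = 1 := by rw [hZ, if_neg (by omega)]; exact hBialt_hS_zero
      rw [e2, ← two_mul, pow_mul, neg_one_sq, one_pow, one_mul, one_mul]
      congr 1
      ext1 i j
      simp [Matrix.submatrix_apply, Fin.succAbove_last]
    · intro j _ hj
      have hj' : (j : ℕ) < r := by
        have := j.isLt
        rcases Nat.lt_succ_iff_lt_or_eq.1 this with h | h
        · exact h
        · exact absurd (Fin.ext h) hj
      simp only [Matrix.of_apply, Fin.val_last, h0]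
      rw [hZ, if_pos (by push_cast; omega)]
      ring
    · intro h
      exact absurd (Finset.mem_univ _) h

/-- **The bialternant formula.** -/
theorem alt_schur (lam : YoungDiagram) {r : ℕ} (h : lam.colLen 0 ≤ r) :
    alt K (fun i : Fin r => lam.rowLen i + rho r i) = ev K r (schur K lam) * alt K (rho r) := by
  rw [alt_eq, schur_eq_det lam h]
  congr 4
  funext i j
  congr 1
  have := i.isLt
  unfold rho
  omega

end

end Pool.Agent.Lib.MP_463376_co.Hs
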