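import Mathlib

/-!
# Stream H: idempotents in the group algebra
-/

set_option autoImplicit false

namespace Pool.Agent.Lib.MP_463376_co.Hs

section
variable {G : Type} [Group G] [Fintype G] [DecidableEq G]

/-- the character of the left ideal `A e`, `A = ℚ[G]` -/
noncomputable def tch (e : MonoidAlgebra ℚ G) (g : G) : ℚ := ∑ h : G, e.coeff (h⁻¹ * g⁻¹ * h)

/-- the dimension of `e A f` -/
noncomputable def dd (e f : MonoidAlgebra ℚ G) : ℚ := ∑ g : G, e.coeff g * tch f g

omit [DecidableEq G] in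
theorem hConv_left (x y : MonoidAlgebra ℚ G) (g : G) :
    (x * y).coeff g = ∑ a : G, x.coeff a * y.coeff (a⁻¹ * g) := by
  rw [MonoidAlgebra.coeff_mul_apply_left, Finsupp.sum_fintype _ _ (by simp)]

omit [DecidableEq G] in
theorem hConv_right (x y : MonoidAlgebra ℚ G) (g : G) :
    (x * y).coeff g = ∑ a : G, x.coeff (g * a⁻¹) * y.coeff a := by
  rw [MonoidAlgebra.coeff_mul_apply_right, Finsupp.sum_fintype _ _ (by simp)]

theorem tch_add (e f : MonoidAlgebra ℚ G) (g : G) : tch (e + f) g = tch e g + tch f g := by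
  unfold tch
  rw [← Finset.sum_add_distrib]
  exact Finset.sum_congr rfl fun h _ => by rw [MonoidAlgebra.coeff_add, Finsupp.add_apply]

theorem tch_sub (e f : MonoidAlgebra ℚ G) (g : G) : tch (e - f) g = tch e g - tch f g := by
  have h := tch_add (e - f) f g
  rw [sub_add_cancel] at h
  rw [h, add_sub_cancel_right]

omit [DecidableEq G] in
theorem hConv_regular (x : MonoidAlgebra ℚ G) : ∃ y, x * y * x = x := by
  obtain ⟨J, hJ⟩ := exists_isCompl (Submodule.span (MonoidAlgebra ℚ G) {x})
  have h1 : (1 : MonoidAlgebra ℚ G) ∈ Submodule.span (MonoidAlgebra ℚ G) {x} ⊔ J := by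
    rw [hJ.sup_eq_top]; exact Submodule.mem_top
  obtain ⟨i, hi, j, hj, hij⟩ := Submodule.mem_sup.1 h1
  obtain ⟨y, rfl⟩ := Submodule.mem_span_singleton.1 hi
  rw [smul_eq_mul] at hij
  refine ⟨y, ?_⟩
  have e1 : x * y * x + x * j = x := by
    rw [mul_assoc, ← mul_add, hij, mul_one]
  have h2 : x * j ∈ J := J.smul_mem x hj
  have h3 : x * j ∈ Submodule.span (MonoidAlgebra ℚ G) {x} := by
    refine Submodule.mem_span_singleton.2 ⟨1 - x * y, ?_⟩
    rw [smul_eq_mul, sub_mul, one_mul, sub_eq_iff_eq_add, add_comm]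
    exact e1.symm
  have h4 : x * j = 0 := by
    have := hJ.inf_eq_bot
    rw [Submodule.eq_bot_iff] at this
    exact this _ ⟨h3, h2⟩
  rw [h4, add_zero] at e1
  exact e1

/-- the group algebra is von Neumann regular -/
theorem exists_quasi_inverse (x : MonoidAlgebra ℚ G) : ∃ y, x * y * x = x ∧ y * x * y = y := by
  obtain ⟨y, hy⟩ := hConv_regular x
  refine ⟨y * x * y, ?_, ?_⟩
  · calc x * (y * x * y) * x = (x * y * x) * y * x := by simp only [mul_assoc]
      _ = x := by rw [hy, hy]
  · calc y * x * y * x * (y * x * y) = y * (x * y * x) * (y * x * y) := by simp only [mul_assoc]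
      _ = y * x * (y * x * y) := by rw [hy]
      _ = y * (x * y * x) * y := by simp only [mul_assoc]
      _ = y * x * y := by rw [hy]

theorem tch_mul_comm (x y : MonoidAlgebra ℚ G) (g : G) : tch (x * y) g = tch (y * x) g := by
  unfold tch
  simp only [hConv_left x y, hConv_right y x]
  rw [Finset.sum_comm, Finset.sum_comm (s := Finset.univ) (t := Finset.univ)
    (f := fun h a => y.coeff (h⁻¹ * g⁻¹ * h * a⁻¹) * x.coeff a)]
  refine Finset.sum_congr rfl fun a _ => ?_
  refine Fintype.sum_equiv (Equiv.mulRight a) _ _ fun h => ?_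
  rw [Equiv.coe_mulRight, mul_comm]
  congr 2
  group

theorem hConv_tch_conj (f : MonoidAlgebra ℚ G) (a g : G) : tch f (a * g * a⁻¹) = tch f g := by
  unfold tch
  refine Fintype.sum_equiv (Equiv.mulLeft a⁻¹) _ _ fun h => ?_
  rw [Equiv.coe_mulLeft]
  congr 1
  group

/-- `dim (e A f)` as an inner product -/
theorem dd_eq (e f : MonoidAlgebra ℚ G) :
    dd e f = (Fintype.card G : ℚ)⁻¹ * ∑ g : G, tch e g⁻¹ * tch f g := by
  have hc : (Fintype.card G : ℚ) ≠ 0 := by exact_mod_cast Fintype.card_ne_zero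
  rw [eq_inv_mul_iff_mul_eq₀ hc]
  have h1 : ∑ g : G, tch e g⁻¹ * tch f g =
      ∑ h : G, ∑ g : G, e.coeff (h⁻¹ * g * h) * tch f g := by
    rw [Finset.sum_comm]
    refine Finset.sum_congr rfl fun g _ => ?_
    rw [tch, Finset.sum_mul]
    refine Finset.sum_congr rfl fun h _ => ?_
    rw [inv_inv]
  have h2 : ∀ h : G, ∑ g : G, e.coeff (h⁻¹ * g * h) * tch f g = dd e f := by
    intro h
    unfold dd
    refine Fintype.sum_equiv (MulAut.conj h⁻¹).toEquiv _ _ fun g => ?_
    have e1 : (MulAut.conj h⁻¹).toEquiv g = h⁻¹ * g * h := by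
      simp
    rw [e1]
    have e2 := hConv_tch_conj f h (h⁻¹ * g * h)
    rw [show h * (h⁻¹ * g * h) * h⁻¹ = g by group] at e2
    rw [e2]
  rw [h1, Finset.sum_congr rfl fun h _ => h2 h, Finset.sum_const, Finset.card_univ, nsmul_eq_mul]

theorem hConv_trace (φ : MonoidAlgebra ℚ G →ₗ[ℚ] MonoidAlgebra ℚ G) (hφ : ∀ a, φ (φ a) = φ a) :
    (∑ a : G, (φ (MonoidAlgebra.single a 1)).coeff a) =
      (Module.finrank ℚ (LinearMap.range φ) : ℚ) := by
  have hp : LinearMap.IsProj (LinearMap.range φ) φ := by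
    refine ⟨fun a => LinearMap.mem_range_self φ a, ?_⟩
    rintro _ ⟨a, rfl⟩
    exact hφ a
  have : Module.Finite ℚ (MonoidAlgebra ℚ G) := Module.Finite.of_basis (MonoidAlgebra.basis G ℚ)
  rw [← hp.trace, LinearMap.trace_eq_matrix_trace ℚ (MonoidAlgebra.basis G ℚ) φ, Matrix.trace]
  refine Finset.sum_congr rfl fun a _ => ?_
  rw [Matrix.diag_apply, LinearMap.toMatrix_apply, MonoidAlgebra.basis_apply]
  rfl

/-- `dd e f` is the dimension of `e A f` -/
theorem dd_eq_finrank {e f : MonoidAlgebra ℚ G} (he : e * e = e) (hf : f * f = f) :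
    dd e f = (Module.finrank ℚ (LinearMap.range
      ((LinearMap.mulLeft ℚ e).comp (LinearMap.mulRight ℚ f))) : ℚ) := by
  rw [← hConv_trace]
  · unfold dd tch
    simp only [Finset.mul_sum]
    rw [Finset.sum_comm]
    refine Finset.sum_congr rfl fun a _ => ?_
    rw [LinearMap.comp_apply, LinearMap.mulLeft_apply, LinearMap.mulRight_apply, hConv_left]
    refine Finset.sum_congr rfl fun g _ => ?_
    rw [MonoidAlgebra.coeff_single_mul_apply, one_mul, mul_assoc]
  · intro a
    simp only [LinearMap.comp_apply, LinearMap.mulLeft_apply, LinearMap.mulRight_apply]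
    calc e * (e * (a * f) * f) = (e * e) * (a * (f * f)) := by simp only [mul_assoc]
      _ = e * (a * f) := by rw [he, hf]

/-- the dimension of `A e` -/
theorem tch_one_eq_finrank {e : MonoidAlgebra ℚ G} (he : e * e = e) :
    tch e 1 = (Module.finrank ℚ (LinearMap.range (LinearMap.mulRight ℚ e)) : ℚ) := by
  rw [← hConv_trace]
  · unfold tch
    refine Finset.sum_congr rfl fun a _ => ?_
    rw [LinearMap.mulRight_apply, MonoidAlgebra.coeff_single_mul_apply, one_mul, inv_one, mul_one]
  · intro a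
    simp only [LinearMap.mulRight_apply]
    rw [mul_assoc, he]

end

end Pool.Agent.Lib.MP_463376_co.Hs
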