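import Mathlib

/-!
# Stream H: orbits of a permutation
-/

set_option autoImplicit false

namespace Pool.Agent.Lib.MP_463376_co.Hs

section
variable {ι : Type} [Fintype ι] [DecidableEq ι]

/-- the product over the cycles of a permutation (including the fixed points) as a product over the
orbits; the orbits are the fibres of `q` -/
theorem parts_prod {M : Type} [CommMonoid M] (w : Equiv.Perm ι) (F : ℕ → M) {Q : Type}
    [Fintype Q] [DecidableEq Q] (q : ι → Q) (hq : Function.Surjective q)
    (h : ∀ i j, q i = q j ↔ w.SameCycle i j) :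
    (w.partition.parts.map F).prod = ∏ c : Q, F (Finset.univ.filter fun i => q i = c).card := by
  rw [Equiv.Perm.parts_partition, Multiset.map_add, Multiset.prod_add, Multiset.map_replicate,
    Multiset.prod_replicate, Equiv.Perm.cycleType_def, Multiset.map_map]
  set s : Q → ι := Function.surjInv hq with hs
  have hs1 : ∀ c, q (s c) = c := Function.surjInv_eq hq
  have hsame : ∀ c i, q i = c → w.SameCycle (s c) i := by
    intro c i hi
    rw [← h, hs1, hi]
  set A : Finset Q := w.support.image q with hA
  have hsup : ∀ c, c ∈ A ↔ s c ∈ w.support := by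
    intro c
    rw [hA, Finset.mem_image]
    constructor
    · rintro ⟨i, hi, hic⟩
      have h1 := hsame c i hic
      rw [Equiv.Perm.mem_support] at hi ⊢
      intro h2
      exact hi ((h1.eq_of_left h2) ▸ h2)
    · intro hc
      exact ⟨s c, hc, hs1 c⟩
  have h1 : (w.cycleFactorsFinset.val.map (F ∘ (Finset.card ∘ Equiv.Perm.support))).prod =
      ∏ c ∈ A, F (Finset.univ.filter fun i => q i = c).card := by
    change ∏ σ ∈ w.cycleFactorsFinset, F σ.support.card = _
    symm
    refine Finset.prod_bij (fun c _ => w.cycleOf (s c)) ?_ ?_ ?_ ?_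
    · intro c hc
      rw [Equiv.Perm.cycleOf_mem_cycleFactorsFinset_iff]
      exact (hsup c).1 hc
    · intro c hc d hd hcd
      have h2 := (Equiv.Perm.sameCycle_iff_cycleOf_eq_of_mem_support ((hsup c).1 hc)
        ((hsup d).1 hd)).2 hcd
      rw [← h, hs1, hs1] at h2
      exact h2
    · intro σ hσ
      have h2 := (Equiv.Perm.mem_cycleFactorsFinset_iff.1 hσ).1
      obtain ⟨i, hi⟩ := h2.nonempty_support
      have h3 : i ∈ w.support := Equiv.Perm.mem_cycleFactorsFinset_support_le hσ hi
      have h4 := Equiv.Perm.cycle_is_cycleOf hi hσ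
      refine ⟨q i, Finset.mem_image_of_mem q h3, ?_⟩
      rw [h4]
      exact ((hsame (q i) i rfl).cycleOf_eq)
    · intro c hc
      congr 2
      ext i
      rw [Finset.mem_filter, Equiv.Perm.mem_support_cycleOf_iff]
      constructor
      · rintro ⟨-, hi⟩
        exact ⟨hsame c i hi, (hsup c).1 hc⟩
      · rintro ⟨hi, -⟩
        refine ⟨Finset.mem_univ _, ?_⟩
        rw [← h, hs1] at hi
        exact hi.symm
  have h2 : ∀ c ∈ Finset.univ \ A, F (Finset.univ.filter fun i => q i = c).card = F 1 := by
    intro c hc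
    rw [Finset.mem_sdiff] at hc
    have h3 : w (s c) = s c := by
      by_contra h4
      exact hc.2 ((hsup c).2 (Equiv.Perm.mem_support.2 h4))
    congr 1
    rw [Finset.card_eq_one]
    refine ⟨s c, ?_⟩
    ext i
    rw [Finset.mem_filter, Finset.mem_singleton]
    constructor
    · rintro ⟨-, hi⟩
      exact ((hsame c i hi).eq_of_left h3).symm
    · intro hi
      exact ⟨Finset.mem_univ _, by rw [hi, hs1]⟩
  have h3 : (Finset.univ \ A).card = Fintype.card ι - w.support.card := by
    rw [← Finset.card_univ (α := ι), ← Finset.card_sdiff_of_subset (Finset.subset_univ _)]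
    refine Finset.card_bij (fun c _ => s c) ?_ ?_ ?_
    · intro c hc
      rw [Finset.mem_sdiff] at hc ⊢
      exact ⟨Finset.mem_univ _, fun h4 => hc.2 ((hsup c).2 h4)⟩
    · intro c _ d _ hcd
      rw [← hs1 c, ← hs1 d, hcd]
    · intro i hi
      rw [Finset.mem_sdiff] at hi
      have h4 : w i = i := by
        by_contra h5
        exact hi.2 (Equiv.Perm.mem_support.2 h5)
      have h5 : s (q i) = i := ((hsame (q i) i rfl).symm.eq_of_left h4).symm
      refine ⟨q i, ?_, h5⟩
      rw [Finset.mem_sdiff, hsup, h5]
      exact ⟨Finset.mem_univ _, hi.2⟩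
  rw [h1, ← Finset.prod_sdiff (Finset.subset_univ A), Finset.prod_congr rfl h2,
    Finset.prod_const, h3, mul_comm]

theorem exists_orbits (w : Equiv.Perm ι) : ∃ (Q : Type) (_ : Fintype Q) (_ : DecidableEq Q)
    (q : ι → Q), Function.Surjective q ∧ ∀ i j, q i = q j ↔ w.SameCycle i j := by
  classical
  refine ⟨Quotient (Equiv.Perm.SameCycle.setoid w), Fintype.ofFinite _, inferInstance,
    Quotient.mk _, Quotient.mk_surjective, ?_⟩
  intro i j
  exact Quotient.eq

end

end Pool.Agent.Lib.MP_463376_co.Hs
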