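import Pool.Agent.Lib.MP_463376_co.SymDefs
import Pool.Agent.Lib.MP_463376_co.H_Orbit

/-!
# Stream H: the determinant of `1 - u w`
-/

set_option autoImplicit false

namespace Pool.Agent.Lib.MP_463376_co.Hs

open MvPolynomial

section
variable {K : Type} [Field K]

private theorem hDet_apply {α : Type} [DecidableEq α] (u : K) (w : Equiv.Perm α) :
    (1 - u • (w.toPEquiv.toMatrix : Matrix α α K)) =
      Matrix.of fun i j => (if i = j then (1 : K) else 0) - u * (if w i = j then 1 else 0) := by
  ext i j
  rw [Matrix.sub_apply, Matrix.smul_apply, Matrix.one_apply, smul_eq_mul, PEquiv.toMatrix_apply]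
  simp only [Equiv.toPEquiv_apply, Option.mem_def, Option.some.injEq, Matrix.of_apply]

/-- a transitive permutation -/
theorem det_one_sub_transitive {α : Type} [Fintype α] [DecidableEq α] [Nonempty α] (u : K)
    (w : Equiv.Perm α) (h : ∀ i j, w.SameCycle i j) :
    (1 - u • (w.toPEquiv.toMatrix : Matrix α α K)).det = 1 - u ^ Fintype.card α := by
  classical
  rw [hDet_apply]
  by_cases hfix : ∃ i, w i = i
  · obtain ⟨i, hi⟩ := hfix
    have huniq : ∀ j, j = i := by
      intro j
      obtain ⟨n, hn⟩ := h i j
      rw [← hn]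
      exact Equiv.Perm.zpow_apply_eq_self_of_apply_eq_self hi n
    have : Subsingleton α := ⟨fun a b => by rw [huniq a, huniq b]⟩
    have hc : Fintype.card α = 1 := by
      rw [Fintype.card_eq_one_iff]
      exact ⟨i, huniq⟩
    rw [Matrix.det_eq_elem_of_subsingleton _ i, Matrix.of_apply, hc]
    simp [hi]
  · have hfix' : ∀ i, w i ≠ i := fun i hi => hfix ⟨i, hi⟩
    rw [Matrix.det_apply']
    simp only [Matrix.of_apply]
    have hterm : ∀ σ : Equiv.Perm α, σ ≠ 1 → σ ≠ w⁻¹ →
        (((Equiv.Perm.sign σ : ℤˣ) : ℤ) : K) *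
          ∏ i, ((if σ i = i then (1 : K) else 0) - u * (if w (σ i) = i then 1 else 0)) = 0 := by
      intro σ h1 h2
      by_contra hne
      have hall : ∀ i, ((if σ i = i then (1 : K) else 0) -
          u * (if w (σ i) = i then 1 else 0)) ≠ 0 := by
        intro i hi
        exact hne (by rw [Finset.prod_eq_zero (Finset.mem_univ i) hi, mul_zero])
      have hor : ∀ i, σ i = i ∨ σ i = w⁻¹ i := by
        intro i
        by_contra hcon
        rw [not_or] at hcon
        apply hall i
        rw [if_neg hcon.1, if_neg]
        · simp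
        · intro h3
          apply hcon.2
          rw [Equiv.Perm.eq_inv_iff_eq]
          exact h3
      obtain ⟨i, hi⟩ : ∃ i, σ i ≠ i := by
        by_contra hcon
        exact h1 (Equiv.ext fun i => by
          by_contra hi
          exact hcon ⟨i, hi⟩)
      have hstep : ∀ j, σ j ≠ j → σ (w⁻¹ j) ≠ w⁻¹ j := by
        intro j hj h3
        have h4 := (hor j).resolve_left hj
        rw [← h4] at h3
        exact hj (σ.injective h3)
      have hall2 : ∀ n : ℕ, σ ((w⁻¹ ^ n) i) ≠ (w⁻¹ ^ n) i := by
        intro n
        induction n with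
        | zero => simpa using hi
        | succ n ih =>
          have := hstep _ ih
          rw [pow_succ']
          exact this
      apply h2
      ext j
      have hs : w⁻¹.SameCycle i j := Equiv.Perm.sameCycle_inv.mpr (h i j)
      obtain ⟨n, -, hn⟩ := hs.exists_pow_eq'
      have := hall2 n
      rw [hn] at this
      exact (hor j).resolve_left this
    have hne : (1 : Equiv.Perm α) ≠ w⁻¹ := by
      intro h1
      obtain ⟨i⟩ := (inferInstance : Nonempty α)
      apply hfix' i
      have h2 : w = 1 := by rw [← inv_inv w, ← h1, inv_one]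
      rw [h2]
      rfl
    rw [← Finset.sum_subset (Finset.subset_univ {(1 : Equiv.Perm α), w⁻¹})]
    · rw [Finset.sum_pair hne]
      have hcyc : w.IsCycle := by
        obtain ⟨i⟩ := (inferInstance : Nonempty α)
        exact ⟨i, hfix' i, fun j _ => h i j⟩
      have hsupp : w.support = Finset.univ := by
        ext i
        simp [hfix' i]
      have hsign := hcyc.sign
      rw [hsupp, Finset.card_univ] at hsign
      have e1 : ∏ i : α, ((if (1 : Equiv.Perm α) i = i then (1 : K) else 0) -
          u * (if w ((1 : Equiv.Perm α) i) = i then 1 else 0)) = 1 := by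
        apply Finset.prod_eq_one
        intro i _
        simp [hfix' i]
      have e2 : ∏ i : α, ((if (w⁻¹ : Equiv.Perm α) i = i then (1 : K) else 0) -
          u * (if w ((w⁻¹ : Equiv.Perm α) i) = i then 1 else 0)) = (-u) ^ Fintype.card α := by
        rw [← Finset.card_univ, ← Finset.prod_const]
        apply Finset.prod_congr rfl
        intro i _
        have h1 : (w⁻¹ : Equiv.Perm α) i ≠ i := by
          intro h2
          apply hfix' i
          rw [Equiv.Perm.inv_eq_iff_eq] at h2
          exact h2.symm
        rw [if_neg h1, if_pos (by rw [← Equiv.Perm.eq_inv_iff_eq])]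
        ring
      rw [e1, e2, Equiv.Perm.sign_one, Equiv.Perm.sign_inv, hsign]
      push_cast
      rw [neg_pow u]
      have : ((-1 : K) ^ Fintype.card α) * ((-1 : K) ^ Fintype.card α) = 1 := by
        rw [← mul_pow]; simp
      linear_combination (-u ^ Fintype.card α) * this
    · intro σ _ hσ
      rw [Finset.mem_insert, Finset.mem_singleton, not_or] at hσ
      exact hterm σ hσ.1 hσ.2

theorem det_one_sub {ι : Type} [Fintype ι] [DecidableEq ι] (u : K) (w : Equiv.Perm ι) :
    (1 - u • (w.toPEquiv.toMatrix : Matrix ι ι K)).det =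
      (w.partition.parts.map fun m => 1 - u ^ m).prod := by
  classical
  obtain ⟨Q, hQ1, hQ2, q, hq, hqs⟩ := exists_orbits w
  set b : ι → Fin (Fintype.card Q) := fun i => Fintype.equivFin Q (q i) with hb
  have hbs : Function.Surjective b := (Fintype.equivFin Q).surjective.comp hq
  have hbq : ∀ i j, b i = b j ↔ w.SameCycle i j := by
    intro i j
    rw [← hqs i j]
    exact (Fintype.equivFin Q).injective.eq_iff
  rw [parts_prod w (fun m => 1 - u ^ m) b hbs hbq]
  have htri : Matrix.BlockTriangular (1 - u • (w.toPEquiv.toMatrix : Matrix ι ι K)) b := by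
    intro i j hij
    rw [hDet_apply, Matrix.of_apply]
    have h1 : i ≠ j := by
      rintro rfl
      exact lt_irrefl _ hij
    have h2 : w i ≠ j := by
      rintro rfl
      have : b i = b (w i) := (hbq _ _).mpr ⟨1, by simp⟩
      rw [this] at hij
      exact lt_irrefl _ hij
    rw [if_neg h1, if_neg h2]
    simp
  rw [htri.det_fintype]
  apply Finset.prod_congr rfl
  intro c _
  have hinv : ∀ x, b (w x) = c ↔ b x = c := by
    intro x
    have : b (w x) = b x := (hbq _ _).mpr ⟨-1, by simp⟩
    rw [this]
  obtain ⟨i0, hi0⟩ := hbs c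
  have : Nonempty {a // b a = c} := ⟨⟨i0, hi0⟩⟩
  have hblock : Matrix.toSquareBlock (1 - u • (w.toPEquiv.toMatrix : Matrix ι ι K)) b c =
      1 - u • ((w.subtypePerm hinv).toPEquiv.toMatrix :
        Matrix {a // b a = c} {a // b a = c} K) := by
    rw [hDet_apply, hDet_apply]
    ext i j
    simp only [Matrix.toSquareBlock_def, Matrix.of_apply, Subtype.ext_iff,
      Equiv.Perm.subtypePerm_apply]
  rw [hblock, det_one_sub_transitive, Fintype.card_subtype]
  intro i j
  have hs : w.SameCycle i j := (hbq _ _).mp (i.2.trans j.2.symm)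
  obtain ⟨n, hn⟩ := hs
  refine ⟨n, ?_⟩
  apply Subtype.ext
  rw [Equiv.Perm.subtypePerm_zpow]
  exact hn

theorem plethOne_pcyc' {ι : Type} [Fintype ι] [DecidableEq ι] (u : K) (w : Equiv.Perm ι) :
    plethOne u (pcyc K w) =
      C ((1 - u • (w.toPEquiv.toMatrix : Matrix ι ι K)).det) * pcyc K w := by
  rw [det_one_sub, pcyc, map_multiset_prod, Multiset.map_map, map_multiset_prod, Multiset.map_map,
    ← Multiset.prod_map_mul]
  congr 1
  apply Multiset.map_congr rfl
  intro m hm
  have h1 := w.partition.parts_pos hm
  simp only [Function.comp_apply, plethOne, aeval_X]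
  rw [Nat.sub_add_cancel h1]

end

end Pool.Agent.Lib.MP_463376_co.Hs
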