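import Pool.Agent.Lib.MP_463376_co.SymDefs

/-!
# Stream H: the dominance order
-/

set_option autoImplicit false

namespace Pool.Agent.Lib.MP_463376_co.Hs

theorem sum_rowLen (lam : YoungDiagram) {r : ℕ} (hr : lam.colLen 0 ≤ r) :
    ∑ i ∈ Finset.range r, lam.rowLen i = lam.card := by
  have h1 : ∀ x ∈ lam.cells, x.1 ∈ Finset.range r := by
    rintro ⟨i, j⟩ hx
    have h2 : (i, 0) ∈ lam := lam.up_left_mem le_rfl (Nat.zero_le j) ((YoungDiagram.mem_cells _).1 hx)
    rw [YoungDiagram.mem_iff_lt_colLen] at h2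
    exact Finset.mem_range.2 (lt_of_lt_of_le h2 hr)
  have h2 := Finset.card_eq_sum_card_fiberwise h1
  rw [YoungDiagram.card, h2]
  apply Finset.sum_congr rfl
  intro i _
  rw [YoungDiagram.rowLen_eq_card]
  rfl

theorem card_transpose (lam : YoungDiagram) : lam.transpose.card = lam.card := by
  unfold YoungDiagram.transpose YoungDiagram.card
  simp

theorem sum_rowLen_transpose (lam : YoungDiagram) {r : ℕ} (hr : lam.colLen 0 ≤ r) (m : ℕ) :
    ∑ i ∈ Finset.range m, lam.transpose.rowLen i =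
      ∑ j ∈ Finset.range r, min (lam.rowLen j) m := by
  set S : Finset (ℕ × ℕ) := lam.cells.filter (fun c => c.2 < m) with hS
  have h1 : ∀ x ∈ S, x.1 ∈ Finset.range r := by
    rintro ⟨i, j⟩ hx
    have hx1 := (Finset.mem_filter.1 hx).1
    have h2 : (i, 0) ∈ lam := lam.up_left_mem le_rfl (Nat.zero_le j) ((YoungDiagram.mem_cells _).1 hx1)
    rw [YoungDiagram.mem_iff_lt_colLen] at h2
    exact Finset.mem_range.2 (lt_of_lt_of_le h2 hr)
  have h2 : ∀ x ∈ S, x.2 ∈ Finset.range m := by
    intro x hx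
    exact Finset.mem_range.2 (Finset.mem_filter.1 hx).2
  have e1 := Finset.card_eq_sum_card_fiberwise h1
  have e2 := Finset.card_eq_sum_card_fiberwise h2
  have e3 : ∑ i ∈ Finset.range m, lam.transpose.rowLen i = S.card := by
    rw [e2]
    apply Finset.sum_congr rfl
    intro i hi
    rw [YoungDiagram.rowLen_transpose, YoungDiagram.colLen_eq_card]
    congr 1
    ext x
    rw [Finset.mem_filter, Finset.mem_filter, YoungDiagram.mem_col_iff, YoungDiagram.mem_cells]
    have := Finset.mem_range.1 hi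
    constructor
    · rintro ⟨a, b⟩
      exact ⟨⟨a, by omega⟩, b⟩
    · rintro ⟨⟨a, -⟩, b⟩
      exact ⟨a, b⟩
  rw [e3, e1]
  apply Finset.sum_congr rfl
  intro j _
  have e4 : S.filter (fun x => x.1 = j) = {j} ×ˢ Finset.range (min (lam.rowLen j) m) := by
    ext ⟨a, b⟩
    simp only [hS, Finset.mem_filter, Finset.mem_product, Finset.mem_singleton, Finset.mem_range,
      YoungDiagram.mem_cells, YoungDiagram.mem_iff_lt_rowLen, lt_min_iff]
    constructor
    · rintro ⟨⟨h1, h2⟩, h3⟩
      subst h3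
      exact ⟨rfl, h1, h2⟩
    · rintro ⟨h3, h1, h2⟩
      subst h3
      exact ⟨⟨h1, h2⟩, rfl⟩
  rw [e4, Finset.card_product, Finset.card_singleton, Finset.card_range, one_mul]

theorem hDom_filter (f : ℕ → ℕ) {l r : ℕ} (hl : l ≤ r) :
    ∑ j ∈ Finset.range r, (if j < l then f j else 0) = ∑ j ∈ Finset.range l, f j := by
  rw [← Finset.sum_filter]
  congr 1
  ext j
  rw [Finset.mem_filter, Finset.mem_range, Finset.mem_range]
  omega

/-- a composition which dominates `lam` has small truncated sums -/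
theorem sum_min_le (lam : YoungDiagram) {r : ℕ} (hr : lam.colLen 0 ≤ r) (b : Fin r → ℕ)
    (h : ∀ m ≤ r, ∑ i ∈ Finset.range m, lam.rowLen i ≤
      ∑ i ∈ Finset.univ.filter (fun i : Fin r => (i : ℕ) < m), b i)
    (hb : ∑ i, b i = lam.card) (m : ℕ) :
    ∑ j, min (b j) m ≤ ∑ i ∈ Finset.range m, lam.transpose.rowLen i := by
  rw [sum_rowLen_transpose lam hr]
  have hex : ∃ j, j = r ∨ lam.rowLen j < m := ⟨r, Or.inl rfl⟩
  obtain ⟨l, hl0, hlmin⟩ : ∃ l, (l = r ∨ lam.rowLen l < m) ∧
      ∀ j < l, ¬ (j = r ∨ lam.rowLen j < m) := ⟨Nat.find hex, Nat.find_spec hex,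
        fun j hj => Nat.find_min hex hj⟩
  have hlr : l ≤ r := by
    by_contra h1
    push Not at h1
    exact hlmin r h1 (Or.inl rfl)
  have hlt : ∀ j < l, m ≤ lam.rowLen j := by
    intro j hj
    have := hlmin j hj
    push Not at this
    exact this.2
  have hge : ∀ j, l ≤ j → j < r → lam.rowLen j ≤ m := by
    intro j hj hjr
    rcases hl0 with h1 | h1
    · omega
    · exact (lam.rowLen_anti l j hj).trans h1.le
  -- the left side
  have e1 : ∑ j : Fin r, min (b j) m + ∑ j : Fin r, (if (j : ℕ) < l then b j else 0) ≤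
      ∑ j : Fin r, (if (j : ℕ) < l then m else 0) + ∑ j : Fin r, b j := by
    rw [← Finset.sum_add_distrib, ← Finset.sum_add_distrib]
    apply Finset.sum_le_sum
    intro j _
    by_cases hj : (j : ℕ) < l
    · rw [if_pos hj, if_pos hj]
      have := min_le_right (b j) m
      omega
    · rw [if_neg hj, if_neg hj]
      have := min_le_left (b j) m
      omega
  have e2 : ∑ j ∈ Finset.range r, min (lam.rowLen j) m +
      ∑ j ∈ Finset.range r, (if j < l then lam.rowLen j else 0) =
      ∑ j ∈ Finset.range r, (if j < l then m else 0) + ∑ j ∈ Finset.range r, lam.rowLen j := by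
    rw [← Finset.sum_add_distrib, ← Finset.sum_add_distrib]
    apply Finset.sum_congr rfl
    intro j hj
    by_cases hjl : j < l
    · rw [if_pos hjl, if_pos hjl, min_eq_right (hlt j hjl)]
    · rw [if_neg hjl, if_neg hjl, min_eq_left (hge j (by omega) (Finset.mem_range.1 hj))]
      omega
  have e3 : ∑ j : Fin r, (if (j : ℕ) < l then m else 0) =
      ∑ j ∈ Finset.range r, (if j < l then m else 0) :=
    Fin.sum_univ_eq_sum_range (fun j => if j < l then m else 0) r
  have e4 := h l hlr
  rw [Finset.sum_filter] at e4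
  rw [hDom_filter _ hlr, sum_rowLen lam hr] at e2
  rw [e3, hb] at e1
  omega

theorem dom_transpose {lam mu : YoungDiagram} (h : Dom lam mu) :
    Dom mu.transpose lam.transpose := by
  obtain ⟨h1, h2⟩ := h
  refine ⟨by rw [card_transpose, card_transpose, h1], fun m => ?_⟩
  set r : ℕ := max (lam.colLen 0) (mu.colLen 0) with hr
  have hr1 : lam.colLen 0 ≤ r := le_max_left _ _
  have hr2 : mu.colLen 0 ≤ r := le_max_right _ _
  have h3 := sum_min_le mu hr2 (fun i : Fin r => lam.rowLen i) (by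
    intro k hk
    rw [Finset.sum_filter,
      Fin.sum_univ_eq_sum_range (fun j => if j < k then lam.rowLen j else 0) r,
      hDom_filter _ hk]
    exact h2 k) (by
    rw [Fin.sum_univ_eq_sum_range (fun j => lam.rowLen j) r, sum_rowLen lam hr1, h1]) m
  rw [Fin.sum_univ_eq_sum_range (fun j => min (lam.rowLen j) m) r,
    ← sum_rowLen_transpose lam hr1] at h3
  exact h3

theorem dom_antisymm {lam mu : YoungDiagram} (h : Dom lam mu) (h' : Dom mu lam) : lam = mu := by
  have h1 : ∀ m, ∑ i ∈ Finset.range m, lam.rowLen i = ∑ i ∈ Finset.range m, mu.rowLen i :=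
    fun m => le_antisymm (h'.2 m) (h.2 m)
  have h2 : ∀ i, lam.rowLen i = mu.rowLen i := by
    intro i
    have e1 := h1 (i + 1)
    rw [Finset.sum_range_succ, Finset.sum_range_succ, h1 i] at e1
    omega
  apply YoungDiagram.ext
  ext ⟨i, j⟩
  rw [YoungDiagram.mem_cells, YoungDiagram.mem_cells, YoungDiagram.mem_iff_lt_rowLen,
    YoungDiagram.mem_iff_lt_rowLen, h2]

theorem dom_trans {lam mu nu : YoungDiagram} (h : Dom lam mu) (h' : Dom mu nu) :
    Dom lam nu :=
  ⟨h.1.trans h'.1, fun m => (h'.2 m).trans (h.2 m)⟩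

end Pool.Agent.Lib.MP_463376_co.Hs
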