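import Pool.Agent.Lib.MP_463376_co.H_Ev
import Pool.Agent.Lib.MP_463376_co.H_Orbit

/-!
# Stream H: the power sums of a permutation
-/

set_option autoImplicit false

namespace Pool.Agent.Lib.MP_463376_co.Hs

open MvPolynomial

section
variable {ι : Type} [Fintype ι] [DecidableEq ι]

variable {K : Type} [Field K] [CharZero K]

omit [CharZero K] in
private theorem hEvP_congr {w w' : Equiv.Perm ι} (h : w.partition.parts = w'.partition.parts) :
    pcyc K w = pcyc K w' := by
  unfold pcyc
  rw [h]

theorem pcyc_inv (w : Equiv.Perm ι) : pcyc K w⁻¹ = pcyc K w := by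
  apply hEvP_congr
  rw [Equiv.Perm.parts_partition, Equiv.Perm.parts_partition, Equiv.Perm.cycleType_inv,
    Equiv.Perm.support_inv]

theorem pcyc_conj (w w' : Equiv.Perm ι) : pcyc K (w * w' * w⁻¹) = pcyc K w' := by
  apply hEvP_congr
  rw [Equiv.Perm.parts_partition, Equiv.Perm.parts_partition, Equiv.Perm.cycleType_conj,
    Equiv.Perm.card_support_conj]

omit [CharZero K] in
private theorem hEvP_wh (s : Multiset ℕ) : (∀ m ∈ s, 0 < m) →
    WH (s.map fun m => (X (m - 1) : Sym K)).prod s.sum := by
  induction s using Multiset.induction_on with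
  | empty =>
    intro _
    rw [Multiset.map_zero, Multiset.prod_zero, Multiset.sum_zero]
    exact isWeightedHomogeneous_one _ _
  | cons a s ih =>
    intro h
    rw [Multiset.map_cons, Multiset.prod_cons, Multiset.sum_cons]
    have h1 : WH (X (a - 1) : Sym K) a := by
      have h2 := isWeightedHomogeneous_X K (fun i : ℕ => i + 1) (a - 1)
      have h3 : 0 < a := h a (Multiset.mem_cons_self a s)
      have h4 : a - 1 + 1 = a := Nat.succ_pred_eq_of_pos h3
      simp only [h4] at h2
      exact h2
    exact h1.mul (ih fun m hm => h m (Multiset.mem_cons_of_mem hm))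

theorem pcyc_wh (w : Equiv.Perm ι) : WH (pcyc K w) (Fintype.card ι) := by
  have h1 := hEvP_wh (K := K) w.partition.parts (fun m hm => w.partition.parts_pos hm)
  rw [w.partition.parts_sum] at h1
  exact h1

theorem pcyc_map {K' : Type} [Field K'] (φ : K →+* K') (w : Equiv.Perm ι) :
    map φ (pcyc K w) = pcyc K' w := by
  unfold pcyc
  rw [map_multiset_prod, Multiset.map_map]
  congr 1
  refine Multiset.map_congr rfl fun m _ => ?_
  rw [Function.comp_apply, map_X]

/-- the value of `p_w` at the variables `u_b` -/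
theorem ev_pcyc {s : ℕ} (w : Equiv.Perm ι) :
    ev K s (pcyc K w) =
      ∑ φ ∈ Finset.univ.filter (fun φ : ι → Fin s => φ ∘ w = φ), ∏ i, X (φ i) := by
  classical
  obtain ⟨Q, hQ1, hQ2, q, hq, hqw⟩ := exists_orbits w
  have h1 : ev K s (pcyc K w) = (w.partition.parts.map fun m =>
      ∑ b : Fin s, (X b : MvPolynomial (Fin s) K) ^ (m - 1 + 1)).prod := by
    unfold pcyc
    rw [map_multiset_prod, Multiset.map_map]
    congr 1
    refine Multiset.map_congr rfl fun m _ => ?_
    rw [Function.comp_apply, ev, aeval_X]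
  rw [h1, parts_prod w (fun m => ∑ b : Fin s, (X b : MvPolynomial (Fin s) K) ^ (m - 1 + 1)) q hq hqw]
  have h2 : ∀ c : Q, (Finset.univ.filter fun i => q i = c).card - 1 + 1 =
      (Finset.univ.filter fun i => q i = c).card := by
    intro c
    obtain ⟨i, hi⟩ := hq c
    refine Nat.succ_pred_eq_of_pos (Finset.card_pos.2 ⟨i, ?_⟩)
    rw [Finset.mem_filter]
    exact ⟨Finset.mem_univ _, hi⟩
  rw [Finset.prod_congr rfl fun c _ => by rw [h2 c], Finset.prod_univ_sum, Fintype.piFinset_univ]
  refine Finset.sum_bij (fun ψ _ => ψ ∘ q) ?_ ?_ ?_ ?_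
  · intro ψ _
    rw [Finset.mem_filter]
    refine ⟨Finset.mem_univ _, ?_⟩
    funext i
    show ψ (q (w i)) = ψ (q i)
    congr 1
    rw [hqw]
    exact (Equiv.Perm.sameCycle_apply_left).2 (Equiv.Perm.SameCycle.refl w i)
  · intro ψ _ ψ' _ h
    exact hq.injective_comp_right h
  · intro φ hφ
    rw [Finset.mem_filter] at hφ
    have hφ1 : ∀ i, φ (w i) = φ i := fun i => congrFun hφ.2 i
    have hφ2 : ∀ (n : ℕ) i, φ ((w ^ n) i) = φ i := by
      intro n
      induction n with
      | zero => intro i; rfl
      | succ n ih =>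
        intro i
        rw [pow_succ, Equiv.Perm.mul_apply, ih, hφ1]
    have hφ3 : ∀ i j, w.SameCycle i j → φ i = φ j := by
      intro i j hij
      obtain ⟨n, -, hn⟩ := hij.exists_pow_eq'
      rw [← hn, hφ2]
    refine ⟨fun c => φ (Function.surjInv hq c), Finset.mem_univ _, ?_⟩
    funext i
    show φ (Function.surjInv hq (q i)) = φ i
    apply hφ3
    rw [← hqw]
    exact Function.surjInv_eq hq (q i)
  · intro ψ _
    show ∏ c, (X (ψ c) : MvPolynomial (Fin s) K) ^ (Finset.univ.filter fun i => q i = c).card =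
      ∏ i, X (ψ (q i))
    rw [Finset.prod_comp (fun c => (X (ψ c) : MvPolynomial (Fin s) K)) q,
      Finset.image_univ_of_surjective hq]

/-- number of maps with prescribed fibre sizes fixed by `w` -/
theorem hall_pcyc_hS {s : ℕ} (w : Equiv.Perm ι) (nu : Fin s → ℕ) :
    hall (pcyc K w) (∏ b, hS K (nu b)) =
      ((Finset.univ.filter fun φ : ι → Fin s => φ ∘ w = φ ∧
        ∀ b, (Finset.univ.filter fun i => φ i = b).card = nu b).card : K) := by
  classical
  rw [hall_prod_hS, ev_pcyc, coeff_sum]
  have h1 : ∀ φ : ι → Fin s, coeff (vec nu) (∏ i, (X (φ i) : MvPolynomial (Fin s) K)) =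
      if ∀ b, (Finset.univ.filter fun i => φ i = b).card = nu b then 1 else 0 := by
    intro φ
    have h2 : (∏ i, (X (φ i) : MvPolynomial (Fin s) K)) =
        monomial (∑ i, Finsupp.single (φ i) 1) 1 := by
      rw [monomial_sum_one]
      rfl
    have h3 : ∀ b, (∑ i, Finsupp.single (φ i) 1 : Fin s →₀ ℕ) b =
        (Finset.univ.filter fun i => φ i = b).card := by
      intro b
      rw [Finsupp.finsetSum_apply, Finset.card_filter]
      refine Finset.sum_congr rfl fun i _ => ?_
      rw [Finsupp.single_apply]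
    rw [h2, coeff_monomial]
    refine if_congr ?_ rfl rfl
    constructor
    · intro h b
      rw [← h3, h, vec_apply]
    · intro h
      ext b
      rw [h3, h, vec_apply]
  rw [Finset.sum_congr rfl fun φ _ => h1 φ, Finset.sum_boole, Finset.filter_filter]

end

end Pool.Agent.Lib.MP_463376_co.Hs
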