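import Pool.Agent.Lib.MP_463376_co.H_Ortho

/-!
# Stream H: Schur functions form a basis
-/

set_option autoImplicit false

namespace Pool.Agent.Lib.MP_463376_co.Hs

open MvPolynomial

section
variable {K : Type} [Field K] [CharZero K]

/-- the monoid of products of complete homogeneous functions -/
private def hExpandM (K : Type) [Field K] : Submonoid (Sym K) where
  carrier := {f : Sym K | ∃ (s : ℕ) (a : Fin s → ℕ), f = ∏ b, hS K (a b)}
  one_mem' := ⟨0, fun _ => 0, by simp⟩
  mul_mem' := by
    rintro f g ⟨s, a, rfl⟩ ⟨t, c, rfl⟩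
    refine ⟨s + t, Fin.append a c, ?_⟩
    rw [Fin.prod_univ_add]
    simp

private theorem hExpand_X_mem (n : ℕ) :
    (X n : Sym K) ∈ Algebra.adjoin K (hExpandM K : Set (Sym K)) := by
  induction n using Nat.strong_induction_on with
  | _ n ih =>
    have hh : ∀ m, hS K m ∈ Algebra.adjoin K (hExpandM K : Set (Sym K)) := by
      intro m
      apply Algebra.subset_adjoin
      exact ⟨1, fun _ => m, by simp⟩
    have h1 : C ((n + 1 : ℕ) : K) * hS K (n + 1) =
        ∑ i : Fin (n + 1), X (i : ℕ) * hS K (n - i) := by
      rw [hS, ← mul_assoc, ← C_mul, mul_inv_cancel₀ (by exact_mod_cast Nat.succ_ne_zero n), C_1,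
        one_mul]
    rw [Fin.sum_univ_castSucc] at h1
    have h2 : (X n : Sym K) = C ((n + 1 : ℕ) : K) * hS K (n + 1) -
        ∑ i : Fin n, X ((Fin.castSucc i : Fin (n + 1)) : ℕ) *
          hS K (n - (Fin.castSucc i : Fin (n + 1))) := by
      rw [h1]
      simp [hS]
    rw [h2]
    refine Subalgebra.sub_mem _ (Subalgebra.mul_mem _ (Subalgebra.algebraMap_mem _ _) (hh _)) ?_
    refine Subalgebra.sum_mem _ fun i _ => Subalgebra.mul_mem _ ?_ (hh _)
    exact ih _ i.2

/-- the products of complete homogeneous functions span everything -/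
theorem span_hS : Submodule.span K
    {f : Sym K | ∃ (s : ℕ) (a : Fin s → ℕ), f = ∏ b, hS K (a b)} = ⊤ := by
  have h1 : Submodule.span K {f : Sym K | ∃ (s : ℕ) (a : Fin s → ℕ), f = ∏ b, hS K (a b)} =
      Subalgebra.toSubmodule (Algebra.adjoin K (hExpandM K : Set (Sym K))) := by
    rw [Algebra.adjoin_eq_span, Submonoid.closure_eq]
    rfl
  have h2 : Algebra.adjoin K (hExpandM K : Set (Sym K)) = ⊤ := by
    rw [eq_top_iff, ← MvPolynomial.adjoin_range_X]
    apply Algebra.adjoin_le
    rintro _ ⟨n, rfl⟩
    exact hExpand_X_mem n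
  rw [h1, h2]
  rfl

/-- antisymmetric polynomials -/
theorem antisymm_eq_zero {r : ℕ} (F : MvPolynomial (Fin r) K)
    (hF : ∀ π : Equiv.Perm (Fin r), rename π F = C (((Equiv.Perm.sign π : ℤ) : K)) * F)
    (h : ∀ a : Fin r → ℕ, StrictAnti a → F.coeff (vec a) = 0) : F = 0 := by
  classical
  have key : ∀ (π : Equiv.Perm (Fin r)) (d : Fin r →₀ ℕ),
      F.coeff d = ((Equiv.Perm.sign π : ℤ) : K) * F.coeff (d.mapDomain π) := by
    intro π d
    rw [← coeff_rename_mapDomain π π.injective F d, hF, coeff_C_mul]
  ext d
  rw [coeff_zero]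
  by_cases hinj : Function.Injective d
  · set σ : Equiv.Perm (Fin r) := Fin.revPerm.trans (Tuple.sort d) with hσ
    have hmono : StrictMono (d ∘ Tuple.sort d) :=
      (Tuple.monotone_sort d).strictMono_of_injective (hinj.comp (Tuple.sort d).injective)
    have hanti : StrictAnti (d ∘ σ) := by
      intro i j hij
      have h1 : (Fin.rev j) < Fin.rev i := Fin.rev_lt_rev.mpr hij
      exact hmono h1
    have h2 : d.mapDomain ((σ⁻¹ : Equiv.Perm (Fin r)) : Fin r → Fin r) = vec (d ∘ σ) := by
      ext k
      rw [Finsupp.mapDomain_equiv_apply]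
      rfl
    rw [key σ⁻¹ d, h2, h _ hanti, mul_zero]
  · have hinj' : ∃ i j, d i = d j ∧ i ≠ j := by
      by_contra hcon
      apply hinj
      intro i j hij
      by_contra hne
      exact hcon ⟨i, j, hij, hne⟩
    obtain ⟨i, j, hij, hne⟩ := hinj'
    have h2 : d.mapDomain (Equiv.swap i j) = d := by
      ext k
      rw [Finsupp.mapDomain_equiv_apply, Equiv.symm_swap, Equiv.swap_apply_def]
      split_ifs with h3 h4
      · rw [h3, hij]
      · rw [h4, hij]
      · rfl
    have h3 := key (Equiv.swap i j) d
    rw [h2, Equiv.Perm.sign_swap hne] at h3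
    have h4 : F.coeff d = - F.coeff d := by
      refine h3.trans ?_
      simp
    exact self_eq_neg.mp h4

/-- the Young diagram with given row lengths -/
private theorem hExpand_diagram (g : ℕ → ℕ) (hg : Antitone g) (r : ℕ) (h0 : g r = 0) :
    ∃ lam : YoungDiagram, (∀ i, lam.rowLen i = g i) ∧ lam.colLen 0 ≤ r := by
  let lam : YoungDiagram :=
    { cells := (Finset.range r ×ˢ Finset.range (g 0)).filter fun c => c.2 < g c.1
      isLowerSet := by
        rintro ⟨i, j⟩ ⟨i', j'⟩ h h'
        simp only [Finset.coe_filter, Finset.mem_product, Finset.mem_range,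
          Set.mem_ofPred_eq] at h' ⊢
        exact ⟨⟨lt_of_le_of_lt h.1 h'.1.1, lt_of_le_of_lt h.2 h'.1.2⟩,
          lt_of_le_of_lt h.2 (lt_of_lt_of_le h'.2 (hg h.1))⟩ }
  have hmem : ∀ i j, (i, j) ∈ lam ↔ j < g i := by
    intro i j
    have : (i, j) ∈ lam ↔ (i, j) ∈ (Finset.range r ×ˢ Finset.range (g 0)).filter
        fun c => c.2 < g c.1 := Iff.rfl
    rw [this, Finset.mem_filter, Finset.mem_product, Finset.mem_range, Finset.mem_range]
    constructor
    · exact fun h => h.2
    · intro h
      refine ⟨⟨?_, lt_of_lt_of_le h (hg (Nat.zero_le i))⟩, h⟩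
      by_contra hcon
      have : g i ≤ g r := hg (not_lt.mp hcon)
      omega
  refine ⟨lam, fun i => ?_, ?_⟩
  · apply le_antisymm
    · by_contra hcon
      have h1 : (i, g i) ∈ lam := YoungDiagram.mem_iff_lt_rowLen.mpr (not_le.mp hcon)
      exact lt_irrefl _ ((hmem _ _).mp h1)
    · by_contra hcon
      have h1 : (i, lam.rowLen i) ∈ lam := (hmem _ _).mpr (not_le.mp hcon)
      exact lt_irrefl _ (YoungDiagram.mem_iff_lt_rowLen.mp h1)
  · by_contra hcon
    have h1 : (r, 0) ∈ lam := YoungDiagram.mem_iff_lt_colLen.mpr (not_le.mp hcon)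
    have := (hmem _ _).mp h1
    omega

omit [CharZero K] in
private theorem hExpand_ev_symm {r : ℕ} (f : Sym K) (π : Equiv.Perm (Fin r)) :
    rename π (ev K r f) = ev K r f := by
  have h1 : (rename π : MvPolynomial (Fin r) K →ₐ[K] MvPolynomial (Fin r) K).comp (ev K r) =
      ev K r := by
    ext i
    simp only [AlgHom.comp_apply, ev, aeval_X, map_sum, map_pow, rename_X]
    rw [Equiv.sum_comp π (fun b => (X b : MvPolynomial (Fin r) K) ^ (i + 1))]
  exact DFunLike.congr_fun h1 f

omit [CharZero K] in
private theorem hExpand_alt_antisymm {r : ℕ} (a : Fin r → ℕ) (π : Equiv.Perm (Fin r)) :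
    rename π (alt K a) = C (((Equiv.Perm.sign π : ℤ) : K)) * alt K a := by
  have h1 : rename π (alt K a) = Matrix.det ((Matrix.of fun i j : Fin r =>
      (X j : MvPolynomial (Fin r) K) ^ a i).submatrix id π) := by
    unfold alt
    rw [AlgHom.map_det]
    congr 1
    ext1 i j
    simp [Matrix.submatrix]
  rw [h1, Matrix.det_permute', alt]
  congr 1

theorem eq_zero_of_hall_schur (f : Sym K) (h : ∀ lam, hall f (schur K lam) = 0) : f = 0 := by
  have hev : ∀ r, ev K r f = 0 := by
    intro r
    have hF : ev K r f * alt K (rho r) = 0 := by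
      apply antisymm_eq_zero
      · intro π
        rw [map_mul, hExpand_ev_symm, hExpand_alt_antisymm]
        ring
      · intro b hb
        have hge : ∀ (m : ℕ) (i : Fin r), r = i + m + 1 → m ≤ b i := by
          intro m
          induction m with
          | zero => intro i _; exact Nat.zero_le _
          | succ m ih =>
            intro i hi
            have hlt : (i : ℕ) + 1 < r := by omega
            have h1 := ih ⟨i + 1, hlt⟩ (by simp only; omega)
            have h2 : b ⟨i + 1, hlt⟩ < b i := hb (by
              rw [Fin.lt_def]; simp)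
            omega
        have hge' : ∀ i : Fin r, rho r i ≤ b i := by
          intro i
          apply hge
          have := i.2
          simp only [rho]
          omega
        set g : ℕ → ℕ := fun i => if hi : i < r then b ⟨i, hi⟩ - rho r ⟨i, hi⟩ else 0 with hgdef
        have hg : Antitone g := by
          apply antitone_nat_of_succ_le
          intro i
          simp only [hgdef]
          split_ifs with h1 h2
          · have h3 : b ⟨i + 1, h1⟩ < b ⟨i, h2⟩ := hb (by
              rw [Fin.lt_def]; simp)
            simp only [rho]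
            omega
          · omega
          · exact Nat.zero_le _
          · exact le_refl _
        obtain ⟨lam, hlam, hcol⟩ := hExpand_diagram g hg r (by simp [hgdef])
        have h1 := hall_schur f lam hcol
        rw [h lam] at h1
        have h2 : (fun i : Fin r => lam.rowLen i + rho r i) = b := by
          ext i
          rw [hlam]
          simp only [hgdef, i.2, dif_pos, Fin.eta]
          exact Nat.sub_add_cancel (hge' i)
        rw [h2] at h1
        exact h1.symm
    exact (mul_eq_zero.mp hF).resolve_right (alt_rho_ne_zero r)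
  apply eq_of_hall
  intro u
  rw [hall_zero_left]
  have hu : u ∈ Submodule.span K
    {f : Sym K | ∃ (s : ℕ) (a : Fin s → ℕ), f = ∏ b, hS K (a b)} := by
    rw [span_hS]; trivial
  induction hu using Submodule.span_induction with
  | mem x hx =>
    obtain ⟨s, a, rfl⟩ := hx
    rw [hall_prod_hS, hev, coeff_zero]
  | zero => exact hall_zero_right f
  | add x y _ _ hx hy => rw [hall_add_right, hx, hy, add_zero]
  | smul c x _ hx => rw [hall_smul_right, hx, mul_zero]

/-- the finite set of all partitions of `n` -/
theorem exists_partitions (n : ℕ) : ∃ s : Finset YoungDiagram, ∀ lam, lam ∈ s ↔ lam.card = n := by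
  have hfin : {lam : YoungDiagram | lam.card = n}.Finite := by
    apply Set.Finite.of_finite_image (f := fun lam : YoungDiagram => lam.cells)
    · apply Set.Finite.subset (Finset.finite_toSet ((Finset.range n ×ˢ Finset.range n).powerset))
      rintro _ ⟨lam, hlam, rfl⟩
      rw [Finset.mem_coe, Finset.mem_powerset]
      rintro ⟨i, j⟩ hij
      have hlam' : lam.cells.card = n := hlam
      have hij' : (i, j) ∈ lam := hij
      rw [Finset.mem_product, Finset.mem_range, Finset.mem_range]
      constructor
      · have h1 : (Finset.range (i + 1)).image (fun a => (a, 0)) ⊆ lam.cells := by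
          intro c hc
          rw [Finset.mem_image] at hc
          obtain ⟨a, ha, rfl⟩ := hc
          have ha' := Finset.mem_range.mp ha
          exact lam.up_left_mem (by omega) (Nat.zero_le _) hij'
        have h2 := Finset.card_le_card h1
        rw [Finset.card_image_of_injective _ (fun a b hab => by simpa using hab),
          Finset.card_range, hlam'] at h2
        omega
      · have h1 : (Finset.range (j + 1)).image (fun a => (0, a)) ⊆ lam.cells := by
          intro c hc
          rw [Finset.mem_image] at hc
          obtain ⟨a, ha, rfl⟩ := hc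
          have ha' := Finset.mem_range.mp ha
          exact lam.up_left_mem (Nat.zero_le _) (by omega) hij'
        have h2 := Finset.card_le_card h1
        rw [Finset.card_image_of_injective _ (fun a b hab => by simpa using hab),
          Finset.card_range, hlam'] at h2
        omega
    · intro a _ b _ hab
      exact YoungDiagram.ext hab
  exact ⟨hfin.toFinset, fun lam => by rw [Set.Finite.mem_toFinset]; rfl⟩

theorem schur_expand' (f : Sym K) (n : ℕ) (hf : WH f n) (s : Finset YoungDiagram)
    (hs : ∀ lam, lam ∈ s ↔ lam.card = n) :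
    f = ∑ lam ∈ s, C (hall f (schur K lam)) * schur K lam := by
  classical
  rw [← sub_eq_zero]
  apply eq_zero_of_hall_schur
  intro mu
  rw [hall_sub_left, hall_sum_left]
  simp only [hall_C_mul_left, schur_orthonormal']
  by_cases hmu : mu ∈ s
  · rw [Finset.sum_eq_single mu]
    · simp
    · intro b _ hb
      rw [if_neg hb, mul_zero]
    · intro h
      exact absurd hmu h
  · rw [Finset.sum_eq_zero, sub_zero]
    · exact hall_eq_zero_of_wh hf (schur_wh mu) fun h => hmu ((hs mu).mpr h.symm)
    · intro b hb
      rw [if_neg, mul_zero]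
      rintro rfl
      exact hmu hb

end

end Pool.Agent.Lib.MP_463376_co.Hs
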