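import Pool.Agent.Lib.MP_463376_co.SymDefs

/-!
# Stream H: the Hall scalar product
-/

set_option autoImplicit false

namespace Pool.Agent.Lib.MP_463376_co.Hs

open MvPolynomial

/-- the number `z_m = ∏ (i+1)^{m_i} m_i!` -/
noncomputable def zz (K : Type) [Field K] (m : ℕ →₀ ℕ) : K :=
  m.prod fun i e => ((i + 1 : ℕ) : K) ^ e * ((e.factorial : ℕ) : K)

/-- homogeneous symmetric functions of degree `n` -/
abbrev WH {K : Type} [Field K] (f : Sym K) (n : ℕ) : Prop :=
  IsWeightedHomogeneous (fun i : ℕ => i + 1) f n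

section
variable {K : Type} [Field K]

theorem zz_ne_zero [CharZero K] (m : ℕ →₀ ℕ) : zz K m ≠ 0 := by
  unfold zz Finsupp.prod
  refine Finset.prod_ne_zero_iff.2 fun i _ => mul_ne_zero (pow_ne_zero _ ?_) ?_
  · exact Nat.cast_ne_zero.2 (Nat.succ_ne_zero i)
  · exact Nat.cast_ne_zero.2 (Nat.factorial_ne_zero _)

theorem hHall_zz_prod (m : ℕ →₀ ℕ) {s : Finset ℕ} (h : m.support ⊆ s) :
    zz K m = ∏ i ∈ s, ((i + 1 : ℕ) : K) ^ m i * (((m i).factorial : ℕ) : K) := by
  unfold zz
  rw [Finsupp.prod_of_support_subset m h]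
  intro i _
  simp

theorem zz_add_single (m : ℕ →₀ ℕ) (i : ℕ) :
    zz K (m + Finsupp.single i 1) = ((i + 1 : ℕ) : K) * ((m i + 1 : ℕ) : K) * zz K m := by
  classical
  have hi : i ∈ insert i m.support := Finset.mem_insert_self _ _
  rw [hHall_zz_prod (m + Finsupp.single i 1) (s := insert i m.support),
    hHall_zz_prod m (s := insert i m.support) (Finset.subset_insert _ _),
    ← Finset.mul_prod_erase _ _ hi, ← Finset.mul_prod_erase _ _ hi]
  · have h1 : ∀ j ∈ (insert i m.support).erase i,
        (m + (Finsupp.single i 1 : ℕ →₀ ℕ)) j = m j := by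
      intro j hj
      have hji : j ≠ i := Finset.ne_of_mem_erase hj
      rw [Finsupp.add_apply, Finsupp.single_apply, if_neg hji.symm, add_zero]
    rw [Finset.prod_congr rfl fun j hj => by rw [h1 j hj]]
    rw [Finsupp.add_apply, Finsupp.single_eq_same, Nat.factorial_succ]
    push_cast
    ring
  · intro j hj
    rw [Finsupp.mem_support_iff, Finsupp.add_apply] at hj
    by_cases hji : j = i
    · subst hji; exact Finset.mem_insert_self _ _
    · rw [Finsupp.single_apply, if_neg (Ne.symm hji), add_zero] at hj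
      exact Finset.mem_insert_of_mem (Finsupp.mem_support_iff.2 hj)

theorem zz_map {K' : Type} [Field K'] (φ : K →+* K') (m : ℕ →₀ ℕ) : zz K' m = φ (zz K m) := by
  unfold zz Finsupp.prod
  rw [map_prod]
  refine Finset.prod_congr rfl fun i _ => ?_
  rw [map_mul, map_pow, map_natCast, map_natCast]

theorem hHall_hall (f g : Sym K) :
    hall f g = ∑ m ∈ f.support, f.coeff m * g.coeff m * zz K m := rfl

theorem hall_eq_sum (f g : Sym K) {s : Finset (ℕ →₀ ℕ)} (h : f.support ⊆ s) :
    hall f g = ∑ m ∈ s, f.coeff m * g.coeff m * zz K m := by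
  rw [hHall_hall]
  refine Finset.sum_subset h fun m _ hm => ?_
  rw [notMem_support_iff] at hm
  rw [hm, zero_mul, zero_mul]

theorem hall_comm (f g : Sym K) : hall f g = hall g f := by
  classical
  rw [hall_eq_sum f g (s := f.support ∪ g.support) Finset.subset_union_left,
    hall_eq_sum g f (s := f.support ∪ g.support) Finset.subset_union_right]
  exact Finset.sum_congr rfl fun m _ => by ring

theorem hall_add_right (f g g' : Sym K) : hall f (g + g') = hall f g + hall f g' := by
  rw [hHall_hall, hHall_hall, hHall_hall, ← Finset.sum_add_distrib]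
  exact Finset.sum_congr rfl fun m _ => by rw [coeff_add]; ring

theorem hall_add_left (f f' g : Sym K) : hall (f + f') g = hall f g + hall f' g := by
  rw [hall_comm, hall_add_right, hall_comm g f, hall_comm g f']

theorem hall_C_mul_right (c : K) (f g : Sym K) : hall f (C c * g) = c * hall f g := by
  rw [hHall_hall, hHall_hall, Finset.mul_sum]
  exact Finset.sum_congr rfl fun m _ => by rw [coeff_C_mul]; ring

theorem hall_C_mul_left (c : K) (f g : Sym K) : hall (C c * f) g = c * hall f g := by
  rw [hall_comm, hall_C_mul_right, hall_comm]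

@[simp] theorem hall_zero_left (g : Sym K) : hall 0 g = 0 := by
  have h := hall_C_mul_left 0 (0 : Sym K) g
  rwa [mul_zero, zero_mul] at h

@[simp] theorem hall_zero_right (f : Sym K) : hall f 0 = 0 := by
  rw [hall_comm, hall_zero_left]

/-- the Hall scalar product as a bilinear form -/
noncomputable def hallB (K : Type) [Field K] : Sym K →ₗ[K] Sym K →ₗ[K] K :=
  LinearMap.mk₂ K hall hall_add_left
    (fun c f g => by rw [smul_eq_C_mul, hall_C_mul_left, smul_eq_mul]) hall_add_right
    (fun c f g => by rw [smul_eq_C_mul, hall_C_mul_right, smul_eq_mul])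

@[simp] theorem hallB_apply (f g : Sym K) : hallB K f g = hall f g := rfl

theorem hall_smul_left (c : K) (f g : Sym K) : hall (c • f) g = c * hall f g := by
  rw [smul_eq_C_mul, hall_C_mul_left]

theorem hall_smul_right (c : K) (f g : Sym K) : hall f (c • g) = c * hall f g := by
  rw [smul_eq_C_mul, hall_C_mul_right]

theorem hall_sum_right {α : Type} (s : Finset α) (f : Sym K) (g : α → Sym K) :
    hall f (∑ a ∈ s, g a) = ∑ a ∈ s, hall f (g a) := by
  have h := map_sum (hallB K f) g s
  exact h

theorem hall_sum_left {α : Type} (s : Finset α) (f : α → Sym K) (g : Sym K) :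
    hall (∑ a ∈ s, f a) g = ∑ a ∈ s, hall (f a) g := by
  rw [hall_comm, hall_sum_right]
  exact Finset.sum_congr rfl fun a _ => hall_comm _ _

theorem hall_neg_left (f g : Sym K) : hall (-f) g = -hall f g := by
  have h := hall_add_left (-f) f g
  rw [neg_add_cancel, hall_zero_left] at h
  linear_combination -h

theorem hall_neg_right (f g : Sym K) : hall f (-g) = -hall f g := by
  rw [hall_comm, hall_neg_left, hall_comm]

theorem hall_sub_left (f f' g : Sym K) : hall (f - f') g = hall f g - hall f' g := by
  rw [sub_eq_add_neg, hall_add_left, hall_neg_left, sub_eq_add_neg]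

theorem hall_sub_right (f g g' : Sym K) : hall f (g - g') = hall f g - hall f g' := by
  rw [sub_eq_add_neg, hall_add_right, hall_neg_right, sub_eq_add_neg]

theorem hall_monomial_right (f : Sym K) (m : ℕ →₀ ℕ) :
    hall f (monomial m 1) = f.coeff m * zz K m := by
  classical
  rw [hall_eq_sum f _ (s := insert m f.support) (Finset.subset_insert _ _)]
  rw [Finset.sum_eq_single m]
  · rw [coeff_monomial, if_pos rfl, mul_one]
  · intro m' _ hm'
    rw [coeff_monomial, if_neg (Ne.symm hm'), mul_zero, zero_mul]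
  · intro h
    exact absurd (Finset.mem_insert_self _ _) h

theorem hall_one_right (f : Sym K) : hall f 1 = f.coeff 0 := by
  have h := hall_monomial_right f 0
  rw [show (monomial (0 : ℕ →₀ ℕ) (1 : K)) = (1 : Sym K) from rfl] at h
  rw [h, zz, Finsupp.prod_zero_index, mul_one]

/-- multiplication by `p_{i+1}` is adjoint to `(i+1) ∂/∂p_{i+1}` -/
theorem hall_X_mul (i : ℕ) (f g : Sym K) :
    hall (X i * f) g = hall f (C ((i + 1 : ℕ) : K) * pderiv i g) := by
  classical
  induction f using MvPolynomial.induction_on' with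
  | add p q hp hq => rw [mul_add, hall_add_left, hall_add_left, hp, hq]
  | monomial m a =>
    have e1 : X i * monomial m a = C a * (monomial (m + Finsupp.single i 1) 1 : Sym K) := by
      rw [X, monomial_mul, C_mul_monomial, add_comm, one_mul, mul_one]
    have e2 : (monomial m a : Sym K) = C a * monomial m 1 := by
      rw [C_mul_monomial, mul_one]
    rw [e1, e2, hall_C_mul_left, hall_C_mul_left, hall_comm, hall_monomial_right, hall_comm,
      hall_monomial_right, zz_add_single, coeff_C_mul]
    have e3 : (pderiv i g).coeff m = g.coeff (m + Finsupp.single i 1) * ((m i + 1 : ℕ) : K) := by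
      rw [coeff_pderiv]
      push_cast
      ring
    rw [e3]
    ring

theorem eq_of_hall [CharZero K] {f g : Sym K} (h : ∀ u, hall f u = hall g u) : f = g := by
  ext m
  have h1 := h (monomial m 1)
  rw [hall_monomial_right, hall_monomial_right] at h1
  exact mul_right_cancel₀ (zz_ne_zero m) h1

/-- the Hall scalar product over the rationals is positive definite -/
theorem hall_self_pos {f : Sym ℚ} (h : hall f f = 0) : f = 0 := by
  rw [hHall_hall] at h
  have hz : ∀ m, 0 < zz ℚ m := by
    intro m
    unfold zz Finsupp.prod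
    refine Finset.prod_pos fun i _ => mul_pos (pow_pos ?_ _) ?_
    · exact Nat.cast_pos.2 (Nat.succ_pos i)
    · exact Nat.cast_pos.2 (Nat.factorial_pos _)
  have h1 := (Finset.sum_eq_zero_iff_of_nonneg (fun m _ =>
    mul_nonneg (mul_self_nonneg _) (hz m).le)).1 h
  ext m
  rw [coeff_zero]
  by_contra hm
  have h2 := h1 m (mem_support_iff.2 hm)
  rcases mul_eq_zero.1 h2 with h3 | h3
  · exact hm (mul_self_eq_zero.1 h3)
  · exact (hz m).ne' h3

/-! ### Base change -/

theorem hS_map {K' : Type} [Field K'] (φ : K →+* K') (n : ℕ) : map φ (hS K n) = hS K' n := by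
  induction n using Nat.strong_induction_on with
  | _ n ih =>
    cases n with
    | zero => simp [hS]
    | succ n =>
      rw [hS, hS, map_mul, map_C, map_inv₀, map_natCast, map_sum]
      congr 1
      refine Finset.sum_congr rfl fun i _ => ?_
      rw [map_mul, map_X, ih _ (by omega)]

theorem hZ_map {K' : Type} [Field K'] (φ : K →+* K') (m : ℤ) : map φ (hZ K m) = hZ K' m := by
  unfold hZ
  split_ifs
  · exact map_zero _
  · exact hS_map φ _

theorem schur_map {K' : Type} [Field K'] (φ : K →+* K') (lam : YoungDiagram) :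
    map φ (schur K lam) = schur K' lam := by
  unfold schur
  rw [RingHom.map_det]
  congr 1
  refine Matrix.ext fun i j => ?_
  exact hZ_map φ _

theorem hall_map {K' : Type} [Field K'] (φ : K →+* K') (f g : Sym K) :
    hall (map φ f) (map φ g) = φ (hall f g) := by
  rw [hall_eq_sum (map φ f) _ (support_map_subset _ _), hHall_hall, map_sum]
  refine Finset.sum_congr rfl fun m _ => ?_
  rw [coeff_map, coeff_map, map_mul, map_mul, ← zz_map φ]

/-! ### Homogeneity -/

theorem hS_wh (n : ℕ) : WH (hS K n) n := by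
  induction n using Nat.strong_induction_on with
  | _ n ih =>
    cases n with
    | zero =>
      rw [hS]
      exact isWeightedHomogeneous_one K _
    | succ n =>
      rw [hS]
      have h1 : WH (∑ i : Fin (n + 1), X (i : ℕ) * hS K (n - i)) (n + 1) := by
        refine IsWeightedHomogeneous.sum _ _ _ fun i _ => ?_
        have h2 := (isWeightedHomogeneous_X K (fun i : ℕ => i + 1) (i : ℕ)).mul
          (ih (n - i) (by omega))
        have h3 : (i : ℕ) + 1 + (n - i) = n + 1 := by have := i.2; omega
        rwa [h3] at h2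
      have h4 := (isWeightedHomogeneous_C (fun i : ℕ => i + 1) (((n + 1 : ℕ) : K)⁻¹)).mul h1
      rwa [zero_add] at h4

theorem hHall_hZ_wh (m : ℤ) (hm : hZ K m ≠ 0) : 0 ≤ m ∧ WH (hZ K m) m.toNat := by
  unfold hZ at hm ⊢
  split_ifs at hm ⊢ with h
  · exact absurd rfl hm
  · exact ⟨not_lt.1 h, hS_wh _⟩

theorem hHall_prod_wh {r : ℕ} (a : Fin r → ℤ) (n : ℕ) (h : ∑ i, a i = n) :
    WH (∏ i, hZ K (a i)) n := by
  by_cases h0 : ∏ i, hZ K (a i) = 0
  · rw [h0]; exact isWeightedHomogeneous_zero _ _ _
  · have h1 : ∀ i, hZ K (a i) ≠ 0 := fun i hi => h0 (Finset.prod_eq_zero (Finset.mem_univ i) hi)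
    have h2 := IsWeightedHomogeneous.prod Finset.univ (fun i => hZ K (a i))
      (fun i => (a i).toNat) (fun i _ => (hHall_hZ_wh _ (h1 i)).2)
    have h3 : ∑ i, (a i).toNat = n := by
      have : ((∑ i, (a i).toNat : ℕ) : ℤ) = n := by
        push_cast
        rw [← h]
        exact Finset.sum_congr rfl fun i _ => Int.toNat_of_nonneg (hHall_hZ_wh _ (h1 i)).1
      exact_mod_cast this
    rwa [h3] at h2

theorem hHall_sum_rowLen (lam : YoungDiagram) :
    ∑ i : Fin (lam.colLen 0), lam.rowLen i = lam.card := by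
  classical
  have h1 : lam.cells = (Finset.univ : Finset (Fin (lam.colLen 0))).biUnion
      fun i => lam.row i := by
    ext ⟨a, b⟩
    rw [Finset.mem_biUnion, YoungDiagram.mem_cells]
    constructor
    · intro h
      have h0 : (a, 0) ∈ lam := lam.up_left_mem le_rfl (Nat.zero_le _) h
      rw [YoungDiagram.mem_iff_lt_colLen] at h0
      exact ⟨⟨a, h0⟩, Finset.mem_univ _, YoungDiagram.mem_row_iff.2 ⟨h, rfl⟩⟩
    · rintro ⟨i, -, hi⟩
      exact (YoungDiagram.mem_row_iff.1 hi).1
  show _ = lam.cells.card
  rw [h1, Finset.card_biUnion]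
  · exact Finset.sum_congr rfl fun i _ => lam.rowLen_eq_card
  · intro i _ j _ hij
    rw [Function.onFun, Finset.disjoint_left]
    rintro c hc hc'
    rw [YoungDiagram.mem_row_iff] at hc hc'
    exact hij (Fin.ext (hc.2.symm.trans hc'.2))

theorem schur_wh (lam : YoungDiagram) : WH (schur K lam) lam.card := by
  unfold schur
  rw [Matrix.det_apply]
  refine IsWeightedHomogeneous.sum _ _ _ fun σ _ => ?_
  have h1 : WH (∏ i, Matrix.of (fun i j : Fin (lam.colLen 0) =>
      hZ K ((lam.rowLen i : ℤ) - (i : ℤ) + (j : ℤ))) (σ i) i) lam.card := by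
    refine hHall_prod_wh (fun i => (lam.rowLen (σ i) : ℤ) - ((σ i : ℕ) : ℤ) + ((i : ℕ) : ℤ)) _ ?_
    rw [Finset.sum_add_distrib, Finset.sum_sub_distrib,
      Equiv.sum_comp σ (fun i => (lam.rowLen i : ℤ)), Equiv.sum_comp σ (fun i => ((i : ℕ) : ℤ)),
      sub_add_cancel, ← hHall_sum_rowLen lam]
    push_cast
    rfl
  rcases Int.units_eq_one_or (Equiv.Perm.sign σ) with h | h
  · rw [h, one_smul]; exact h1
  · rw [h, Units.neg_smul, one_smul]
    have := (isWeightedHomogeneous_C (fun i : ℕ => i + 1) (-1 : K)).mul h1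
    rw [zero_add] at this
    convert this using 1
    rw [map_neg, map_one, neg_one_mul]

theorem hall_eq_zero_of_wh {f g : Sym K} {a b : ℕ} (hf : WH f a) (hg : WH g b) (hab : a ≠ b) :
    hall f g = 0 := by
  rw [hHall_hall]
  refine Finset.sum_eq_zero fun m _ => ?_
  by_cases h1 : f.coeff m = 0
  · rw [h1, zero_mul, zero_mul]
  by_cases h2 : g.coeff m = 0
  · rw [h2, mul_zero, zero_mul]
  exact absurd ((hf h1).symm.trans (hg h2)) hab

end

end Pool.Agent.Lib.MP_463376_co.Hs
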