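import Pool.Agent.Lib.MP_463376_co.H_Conv

/-!
# Stream H: virtual characters of norm one
-/

set_option autoImplicit false

namespace Pool.Agent.Lib.MP_463376_co.Hs

section
variable {G : Type} [Group G] [Fintype G] [DecidableEq G]

/-- dimension of the left ideal generated by `e` -/
private noncomputable def hIdem_r (e : MonoidAlgebra ℚ G) : ℕ :=
  Module.finrank ℚ (LinearMap.range (LinearMap.mulRight ℚ e))

private theorem hIdem_r_pos {e : MonoidAlgebra ℚ G} (he : e ≠ 0) : 1 ≤ hIdem_r e := by
  unfold hIdem_r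
  rw [Submodule.one_le_finrank_iff]
  intro h
  apply he
  have h1 : e ∈ LinearMap.range (LinearMap.mulRight ℚ e) := ⟨1, by simp⟩
  rw [h] at h1
  exact (Submodule.mem_bot ℚ).1 h1

private theorem hIdem_dd_nonneg {e f : MonoidAlgebra ℚ G} (he : e * e = e) (hf : f * f = f) :
    0 ≤ dd e f := by
  rw [dd_eq_finrank he hf]
  positivity

private theorem hIdem_dd_self {e : MonoidAlgebra ℚ G} (he : e * e = e) (h0 : e ≠ 0) :
    1 ≤ dd e e := by
  rw [dd_eq_finrank he he]
  have h2 : 1 ≤ Module.finrank ℚ (LinearMap.range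
      ((LinearMap.mulLeft ℚ e).comp (LinearMap.mulRight ℚ e))) := by
    rw [Submodule.one_le_finrank_iff]
    intro h
    apply h0
    have h1 : e ∈ LinearMap.range
      ((LinearMap.mulLeft ℚ e).comp (LinearMap.mulRight ℚ e)) := ⟨1, by simp [he]⟩
    rw [h] at h1
    exact (Submodule.mem_bot ℚ).1 h1
  exact_mod_cast h2

private theorem hIdem_dd_comm (e f : MonoidAlgebra ℚ G) : dd e f = dd f e := by
  rw [dd_eq, dd_eq]
  congr 1
  rw [← Equiv.sum_comp (Equiv.inv G)]
  refine Finset.sum_congr rfl fun g _ => ?_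
  simp only [Equiv.inv_apply, inv_inv]
  ring

private theorem hIdem_dd_ne {e f : MonoidAlgebra ℚ G} (he : e * e = e) (hf : f * f = f)
    (h : dd e f ≠ 0) : ∃ x : MonoidAlgebra ℚ G, x ≠ 0 ∧ e * x = x ∧ x * f = x := by
  by_contra hne
  push Not at hne
  apply h
  rw [dd_eq_finrank he hf]
  have h1 : LinearMap.range
      ((LinearMap.mulLeft ℚ e).comp (LinearMap.mulRight ℚ f)) = ⊥ := by
    rw [LinearMap.range_eq_bot]
    ext1 a
    have key : ∀ a : MonoidAlgebra ℚ G, e * (a * f) = 0 := by
      intro a
      by_contra hx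
      exact hne _ hx (by rw [← mul_assoc, he]) (by rw [mul_assoc, mul_assoc, hf])
    ext1
    simp [key]
  rw [h1]
  simp

/-- the pieces which can be cancelled -/
private theorem hIdem_split {e f : MonoidAlgebra ℚ G} (he : e * e = e) (hf : f * f = f)
    (h : dd e f ≠ 0) : ∃ e' f' : MonoidAlgebra ℚ G, (e - e') * (e - e') = e - e' ∧
      (f - f') * (f - f') = f - f' ∧ (∀ g, tch e' g = tch f' g) ∧
      hIdem_r (e - e') < hIdem_r e ∧ hIdem_r (f - f') < hIdem_r f := by
  obtain ⟨x, hx0, hex, hxf⟩ := hIdem_dd_ne he hf h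
  obtain ⟨y0, hy0, -⟩ := exists_quasi_inverse x
  have hx1 : x * (f * y0 * e) * x = x := by
    have : x * (f * y0 * e) * x = (x * f) * y0 * (e * x) := by noncomm_ring
    rw [this, hxf, hex, hy0]
  set y := f * y0 * e with hy
  have hfy : f * y = y := by
    rw [hy, ← mul_assoc, ← mul_assoc, hf]
  have hye : y * e = y := by
    rw [hy, mul_assoc, he]
  have a1 : (x * y) * (x * y) = x * y := by
    rw [← mul_assoc, hx1]
  have a2 : (y * x) * (y * x) = y * x := by
    have : (y * x) * (y * x) = y * (x * y * x) := by noncomm_ring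
    rw [this, hx1]
  have a3 : e * (x * y) = x * y := by rw [← mul_assoc, hex]
  have a4 : (x * y) * e = x * y := by rw [mul_assoc, hye]
  have a5 : f * (y * x) = y * x := by rw [← mul_assoc, hfy]
  have a6 : (y * x) * f = y * x := by rw [mul_assoc, hxf]
  have b1 : (e - x * y) * (e - x * y) = e - x * y := by
    have : (e - x * y) * (e - x * y) = e * e - e * (x * y) - (x * y) * e + (x * y) * (x * y) := by
      noncomm_ring
    rw [this, he, a3, a4, a1]
    abel
  have b2 : (f - y * x) * (f - y * x) = f - y * x := by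
    have : (f - y * x) * (f - y * x) = f * f - f * (y * x) - (y * x) * f + (y * x) * (y * x) := by
      noncomm_ring
    rw [this, hf, a5, a6, a2]
    abel
  have c1 : x * y ≠ 0 := by
    intro h0
    apply hx0
    rw [← hx1, h0, zero_mul]
  have c2 : y * x ≠ 0 := by
    intro h0
    apply hx0
    rw [← hx1, mul_assoc, h0, mul_zero]
  refine ⟨x * y, y * x, b1, b2, fun g => tch_mul_comm x y g, ?_, ?_⟩
  · have h1 := tch_one_eq_finrank b1
    have h2 := tch_one_eq_finrank he
    have h3 := tch_one_eq_finrank a1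
    have h4 := tch_sub e (x * y) 1
    rw [h1, h2, h3] at h4
    have h5 := hIdem_r_pos c1
    have h6 : (hIdem_r (e - x * y) : ℚ) = (hIdem_r e : ℚ) - (hIdem_r (x * y) : ℚ) := h4
    have h7 : (1 : ℚ) ≤ (hIdem_r (x * y) : ℚ) := by exact_mod_cast h5
    have h8 : (hIdem_r (e - x * y) : ℚ) < (hIdem_r e : ℚ) := by linarith
    exact_mod_cast h8
  · have h1 := tch_one_eq_finrank b2
    have h2 := tch_one_eq_finrank hf
    have h3 := tch_one_eq_finrank a2
    have h4 := tch_sub f (y * x) 1
    rw [h1, h2, h3] at h4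
    have h5 := hIdem_r_pos c2
    have h6 : (hIdem_r (f - y * x) : ℚ) = (hIdem_r f : ℚ) - (hIdem_r (y * x) : ℚ) := h4
    have h7 : (1 : ℚ) ≤ (hIdem_r (y * x) : ℚ) := by exact_mod_cast h5
    have h8 : (hIdem_r (f - y * x) : ℚ) < (hIdem_r f : ℚ) := by linarith
    exact_mod_cast h8

private theorem hIdem_tch_zero (g : G) : tch (0 : MonoidAlgebra ℚ G) g = 0 := by
  have := tch_sub (0 : MonoidAlgebra ℚ G) 0 g
  rw [sub_self] at this
  linarith

/-- sum of the characters of a list -/
private noncomputable def hIdem_ch (E : List (MonoidAlgebra ℚ G)) (g : G) : ℚ :=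
  (E.map fun e => tch e g).sum

/-- sum of the dimensions of a list of pairs -/
private noncomputable def hIdem_P (E F : List (MonoidAlgebra ℚ G)) : ℚ :=
  (E.map fun e => (F.map fun f => dd e f).sum).sum

private theorem hIdem_dd_sum (e f : MonoidAlgebra ℚ G) :
    ∑ g : G, tch e g⁻¹ * tch f g = (Fintype.card G : ℚ) * dd e f := by
  have hc : (Fintype.card G : ℚ) ≠ 0 := by
    have : 0 < Fintype.card G := Fintype.card_pos
    positivity
  rw [dd_eq, ← mul_assoc, mul_inv_cancel₀ hc, one_mul]

private theorem hIdem_B1 (e : MonoidAlgebra ℚ G) (F : List (MonoidAlgebra ℚ G)) :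
    ∑ g : G, tch e g⁻¹ * hIdem_ch F g =
      (Fintype.card G : ℚ) * (F.map fun f => dd e f).sum := by
  induction F with
  | nil => simp [hIdem_ch]
  | cons f F ih =>
    have h1 : ∀ g, hIdem_ch (f :: F) g = tch f g + hIdem_ch F g := by
      intro g; simp [hIdem_ch]
    simp only [h1, mul_add, Finset.sum_add_distrib, ih, List.map_cons, List.sum_cons,
      hIdem_dd_sum]

private theorem hIdem_B2 (E F : List (MonoidAlgebra ℚ G)) :
    ∑ g : G, hIdem_ch E g⁻¹ * hIdem_ch F g = (Fintype.card G : ℚ) * hIdem_P E F := by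
  induction E with
  | nil => simp [hIdem_ch, hIdem_P]
  | cons e E ih =>
    have h1 : ∀ g, hIdem_ch (e :: E) g = tch e g + hIdem_ch E g := by
      intro g; simp [hIdem_ch]
    have h2 : hIdem_P (e :: E) F = (F.map fun f => dd e f).sum + hIdem_P E F := by
      simp [hIdem_P]
    simp only [h1, h2, mul_add, add_mul, Finset.sum_add_distrib, ih, hIdem_B1]

private theorem hIdem_P_zero (E F : List (MonoidAlgebra ℚ G))
    (h : ∀ e ∈ E, ∀ f ∈ F, dd e f = 0) : hIdem_P E F = 0 := by
  unfold hIdem_P
  apply List.sum_eq_zero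
  intro x hx
  rw [List.mem_map] at hx
  obtain ⟨e, he, rfl⟩ := hx
  apply List.sum_eq_zero
  intro x hx
  rw [List.mem_map] at hx
  obtain ⟨f, hf, rfl⟩ := hx
  exact h e he f hf

private theorem hIdem_P_self (E : List (MonoidAlgebra ℚ G)) (hE : ∀ e ∈ E, e * e = e)
    (h0 : ∀ e ∈ E, e ≠ 0) : (E.length : ℚ) ≤ hIdem_P E E := by
  have h1 : (E.map fun _ => (1 : ℚ)).sum = E.length := by simp
  rw [← h1]
  unfold hIdem_P
  apply List.sum_le_sum
  intro e he
  refine (hIdem_dd_self (hE e he) (h0 e he)).trans ?_
  apply List.single_le_sum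
  · intro x hx
    rw [List.mem_map] at hx
    obtain ⟨f, hf, rfl⟩ := hx
    exact hIdem_dd_nonneg (hE e he) (hE f hf)
  · exact List.mem_map.2 ⟨e, he, rfl⟩

private theorem hIdem_case2 (E F : List (MonoidAlgebra ℚ G)) (hE : ∀ e ∈ E, e * e = e)
    (hF : ∀ f ∈ F, f * f = f) (hE0 : ∀ e ∈ E, e ≠ 0) (hF0 : ∀ f ∈ F, f ≠ 0)
    (hEF : ∀ e ∈ E, ∀ f ∈ F, dd e f = 0) (χ : G → ℚ)
    (hχ : ∀ g, χ g = hIdem_ch E g - hIdem_ch F g)
    (norm : ∑ g : G, χ g⁻¹ * χ g = Fintype.card G) (u : MonoidAlgebra ℚ G) (hu : u * u = u)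
    (pos : 0 < ∑ g : G, χ g⁻¹ * tch u g) : ∃ e : MonoidAlgebra ℚ G, e * e = e ∧
      ∀ g, tch e g = χ g := by
  have hc : (0 : ℚ) < (Fintype.card G : ℚ) := by
    have : 0 < Fintype.card G := Fintype.card_pos
    exact_mod_cast this
  have h1 : ∑ g : G, χ g⁻¹ * χ g = (Fintype.card G : ℚ) * (hIdem_P E E + hIdem_P F F) := by
    have h2 : ∀ g, χ g⁻¹ * χ g = hIdem_ch E g⁻¹ * hIdem_ch E g - hIdem_ch E g⁻¹ * hIdem_ch F g -
        hIdem_ch F g⁻¹ * hIdem_ch E g + hIdem_ch F g⁻¹ * hIdem_ch F g := by
      intro g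
      rw [hχ, hχ]
      ring
    simp only [h2, Finset.sum_add_distrib, Finset.sum_sub_distrib, hIdem_B2]
    rw [hIdem_P_zero E F hEF, hIdem_P_zero F E fun f hf e he => by
      rw [hIdem_dd_comm]; exact hEF e he f hf]
    ring
  rw [norm] at h1
  have h3 : hIdem_P E E + hIdem_P F F = 1 := by
    have : (Fintype.card G : ℚ) * (hIdem_P E E + hIdem_P F F) = (Fintype.card G : ℚ) * 1 := by
      rw [← h1, mul_one]
    exact mul_left_cancel₀ hc.ne' this
  have h4 := hIdem_P_self E hE hE0
  have h5 := hIdem_P_self F hF hF0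
  have h6 : ((E.length + F.length : ℕ) : ℚ) ≤ ((1 : ℕ) : ℚ) := by
    push_cast
    linarith
  have h7 : E.length + F.length ≤ 1 := by exact_mod_cast h6
  have h8 : 1 ≤ E.length + F.length := by
    by_contra hlt
    have e1 : E = [] := List.length_eq_zero_iff.1 (by omega)
    have e2 : F = [] := List.length_eq_zero_iff.1 (by omega)
    subst e1 e2
    simp [hIdem_P] at h3
  rcases E with _ | ⟨e, E⟩
  · -- the virtual character is negative
    rcases F with _ | ⟨f, F⟩
    · simp at h8
    · have e2 : F = [] := by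
        simp only [List.length_nil, List.length_cons] at h7
        exact List.length_eq_zero_iff.1 (by omega)
      subst e2
      exfalso
      have h9 : ∀ g, χ g = - tch f g := by
        intro g
        rw [hχ]
        simp [hIdem_ch]
      have h10 : ∑ g : G, χ g⁻¹ * tch u g = - ((Fintype.card G : ℚ) * dd f u) := by
        simp only [h9, neg_mul, Finset.sum_neg_distrib, hIdem_dd_sum]
      have h11 := hIdem_dd_nonneg (hF f (by simp)) hu
      rw [h10] at pos
      have h12 := mul_nonneg hc.le h11
      linarith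
  · simp only [List.length_cons] at h7
    have e1 : E = [] := List.length_eq_zero_iff.1 (by omega)
    have e2 : F = [] := List.length_eq_zero_iff.1 (by omega)
    subst e1 e2
    refine ⟨e, hE e (by simp), fun g => ?_⟩
    rw [hχ]
    simp [hIdem_ch]

/-- the measure of the induction -/
private noncomputable def hIdem_mu (E : List (MonoidAlgebra ℚ G)) : ℕ :=
  (E.map fun e => hIdem_r e + 1).sum

private theorem hIdem_main (N : ℕ) : ∀ (E F : List (MonoidAlgebra ℚ G)),
    hIdem_mu E + hIdem_mu F ≤ N → (∀ e ∈ E, e * e = e) →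
    (∀ f ∈ F, f * f = f) → ∀ (χ : G → ℚ)
    (_ : ∀ g, χ g = hIdem_ch E g - hIdem_ch F g)
    (_ : ∑ g : G, χ g⁻¹ * χ g = Fintype.card G) (u : MonoidAlgebra ℚ G) (_ : u * u = u)
    (_ : 0 < ∑ g : G, χ g⁻¹ * tch u g), ∃ e : MonoidAlgebra ℚ G, e * e = e ∧
      ∀ g, tch e g = χ g := by
  induction N with
  | zero =>
    intro E F hN hE hF χ hχ norm u hu pos
    have e1 : E = [] := by
      rcases E with _ | ⟨e, E⟩
      · rfl
      · simp [hIdem_mu] at hN
    have e2 : F = [] := by
      rcases F with _ | ⟨e, F⟩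
      · rfl
      · simp [hIdem_mu] at hN
    subst e1 e2
    exact hIdem_case2 [] [] (by simp) (by simp) (by simp) (by simp) (by simp) χ hχ norm u hu pos
  | succ N ih =>
    intro E F hN hE hF χ hχ norm u hu pos
    by_cases h1 : ∀ e ∈ E, e ≠ 0
    · by_cases h2 : ∀ f ∈ F, f ≠ 0
      · by_cases h3 : ∀ e ∈ E, ∀ f ∈ F, dd e f = 0
        · exact hIdem_case2 E F hE hF h1 h2 h3 χ hχ norm u hu pos
        · push Not at h3
          obtain ⟨e, he, f, hf, hd⟩ := h3
          obtain ⟨e', f', p1, p2, p3, p4, p5⟩ := hIdem_split (hE e he) (hF f hf) hd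
          obtain ⟨s, t, rfl⟩ := List.append_of_mem he
          obtain ⟨s', t', rfl⟩ := List.append_of_mem hf
          refine ih (s ++ (e - e') :: t) (s' ++ (f - f') :: t') ?_ ?_ ?_ χ ?_ norm u hu pos
          · simp only [hIdem_mu, List.map_append, List.map_cons, List.sum_append,
              List.sum_cons] at hN ⊢
            omega
          · intro x hx
            simp only [List.mem_append, List.mem_cons] at hx
            rcases hx with hx | rfl | hx
            · exact hE x (by simp [hx])
            · exact p1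
            · exact hE x (by simp [hx])
          · intro x hx
            simp only [List.mem_append, List.mem_cons] at hx
            rcases hx with hx | rfl | hx
            · exact hF x (by simp [hx])
            · exact p2
            · exact hF x (by simp [hx])
          · intro g
            rw [hχ]
            simp only [hIdem_ch, List.map_append, List.map_cons, List.sum_append,
              List.sum_cons, tch_sub, p3]
            ring
      · push Not at h2
        obtain ⟨f, hf, rfl⟩ := h2
        obtain ⟨s', t', rfl⟩ := List.append_of_mem hf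
        refine ih E (s' ++ t') ?_ hE ?_ χ ?_ norm u hu pos
        · simp only [hIdem_mu, List.map_append, List.map_cons, List.sum_append,
              List.sum_cons] at hN ⊢
          omega
        · intro x hx
          simp only [List.mem_append] at hx
          rcases hx with hx | hx
          · exact hF x (by simp [hx])
          · exact hF x (by simp [hx])
        · intro g
          rw [hχ]
          simp only [hIdem_ch, List.map_append, List.map_cons, List.sum_append,
              List.sum_cons, hIdem_tch_zero]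
          ring
    · push Not at h1
      obtain ⟨f, hf, rfl⟩ := h1
      obtain ⟨s', t', rfl⟩ := List.append_of_mem hf
      refine ih (s' ++ t') F ?_ ?_ hF χ ?_ norm u hu pos
      · simp only [hIdem_mu, List.map_append, List.map_cons, List.sum_append,
              List.sum_cons] at hN ⊢
        omega
      · intro x hx
        simp only [List.mem_append] at hx
        rcases hx with hx | hx
        · exact hE x (by simp [hx])
        · exact hE x (by simp [hx])
      · intro g
        rw [hχ]
        simp only [hIdem_ch, List.map_append, List.map_cons, List.sum_append,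
              List.sum_cons, hIdem_tch_zero]
        ring

/-- **A virtual character of norm one which is positive somewhere comes from an idempotent.** -/
theorem exists_idem (E F : List (MonoidAlgebra ℚ G)) (hE : ∀ e ∈ E, e * e = e)
    (hF : ∀ f ∈ F, f * f = f) (χ : G → ℚ)
    (hχ : ∀ g, χ g = (E.map fun e => tch e g).sum - (F.map fun f => tch f g).sum)
    (norm : ∑ g : G, χ g⁻¹ * χ g = Fintype.card G) (u : MonoidAlgebra ℚ G) (hu : u * u = u)
    (pos : 0 < ∑ g : G, χ g⁻¹ * tch u g) : ∃ e : MonoidAlgebra ℚ G, e * e = e ∧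
      ∀ g, tch e g = χ g := by
  exact hIdem_main _ E F le_rfl hE hF χ hχ norm u hu pos

end

end Pool.Agent.Lib.MP_463376_co.Hs
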