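import Pool.Agent.Lib.MP_463376_co.H_OmDef

/-!
# Stream H: extraction of leading coefficients
-/

set_option autoImplicit false

namespace Pool.Agent.Lib.MP_463376_co.Hs

open MvPolynomial

/-- the univariate polynomial `∏ (1 - T^{i+1})^{m_i}` -/
private noncomputable def hLead_p (m : ℕ →₀ ℕ) : Polynomial ℚ :=
  m.prod fun i e => (1 - Polynomial.X ^ (i + 1)) ^ e

/-- the same polynomial in the variable `j` -/
private noncomputable def hLead_P (j : Fin 2) (m : ℕ →₀ ℕ) : MvPolynomial (Fin 2) ℚ :=
  m.prod fun i e => (1 - X j ^ (i + 1)) ^ e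

private theorem hLead_P_eq (j : Fin 2) (m : ℕ →₀ ℕ) :
    hLead_P j m = Polynomial.aeval (X j) (hLead_p m) := by
  unfold hLead_P hLead_p
  rw [map_finsuppProd]
  refine Finsupp.prod_congr fun i _ => ?_
  rw [map_pow, map_sub, map_one, map_pow, Polynomial.aeval_X]

private theorem hLead_coeff_aeval (j : Fin 2) (p : Polynomial ℚ) (b : Fin 2 →₀ ℕ) :
    coeff b (Polynomial.aeval (X j : MvPolynomial (Fin 2) ℚ) p) =
      if b = Finsupp.single j (b j) then p.coeff (b j) else 0 := by
  induction p using Polynomial.induction_on' with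
  | add p q hp hq =>
    rw [map_add, coeff_add, hp, hq]
    split_ifs
    · rw [Polynomial.coeff_add]
    · rw [add_zero]
  | monomial n a =>
    rw [Polynomial.aeval_monomial, algebraMap_eq, coeff_C_mul, coeff_X_pow,
      Polynomial.coeff_monomial]
    by_cases h : b = Finsupp.single j (b j)
    · rw [if_pos h]
      by_cases h2 : n = b j
      · rw [if_pos h2, if_pos (by rw [h2]; exact h.symm), mul_one]
      · rw [if_neg h2, if_neg, mul_zero]
        intro h3
        apply h2
        rw [← h3, Finsupp.single_eq_same]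
    · rw [if_neg h, if_neg, mul_zero]
      intro h3
      apply h
      rw [← h3, Finsupp.single_eq_same]

private theorem hLead_natDegree (i : ℕ) :
    (1 - Polynomial.X ^ (i + 1) : Polynomial ℚ).natDegree = i + 1 := by
  rw [← neg_sub, Polynomial.natDegree_neg]
  exact Polynomial.natDegree_X_pow_sub_C (r := 1)

private theorem hLead_ne_zero (i : ℕ) : (1 - Polynomial.X ^ (i + 1) : Polynomial ℚ) ≠ 0 := by
  intro h
  have h1 := hLead_natDegree i
  rw [h, Polynomial.natDegree_zero] at h1
  omega

private theorem hLead_lead (i : ℕ) :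
    (1 - Polynomial.X ^ (i + 1) : Polynomial ℚ).leadingCoeff = -1 := by
  rw [← neg_sub, Polynomial.leadingCoeff_neg]
  congr 1
  exact Polynomial.leadingCoeff_X_pow_sub_C (Nat.succ_pos i)

private theorem hLead_p_natDegree (m : ℕ →₀ ℕ) :
    (hLead_p m).natDegree = Finsupp.weight (fun i : ℕ => i + 1) m := by
  unfold hLead_p
  rw [Finsupp.prod, Polynomial.natDegree_prod _ _ fun i _ => pow_ne_zero _ (hLead_ne_zero i),
    Finsupp.weight_apply, Finsupp.sum]
  refine Finset.sum_congr rfl fun i _ => ?_
  rw [Polynomial.natDegree_pow, hLead_natDegree, smul_eq_mul]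

private theorem hLead_p_lead (m : ℕ →₀ ℕ) :
    (hLead_p m).leadingCoeff = m.prod fun _ e => (-1 : ℚ) ^ e := by
  unfold hLead_p
  rw [Finsupp.prod, Polynomial.leadingCoeff_prod, Finsupp.prod]
  refine Finset.prod_congr rfl fun i _ => ?_
  rw [Polynomial.leadingCoeff_pow, hLead_lead]

private theorem hLead_p_zero (m : ℕ →₀ ℕ) : (hLead_p m).coeff 0 = 1 := by
  unfold hLead_p
  rw [Finsupp.prod, Polynomial.coeff_zero_prod]
  refine Finset.prod_eq_one fun i _ => ?_
  rw [Polynomial.coeff_zero_eq_eval_zero, Polynomial.eval_pow, Polynomial.eval_sub,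
    Polynomial.eval_one, Polynomial.eval_pow, Polynomial.eval_X, zero_pow (Nat.succ_ne_zero i),
    sub_zero, one_pow]

private theorem hLead_mul {f P : MvPolynomial (Fin 2) ℚ} {e b : Fin 2 →₀ ℕ}
    (h : ∀ a c, a + c = e + b → f.coeff a ≠ 0 → P.coeff c ≠ 0 → a = e) :
    coeff (e + b) (f * P) = f.coeff e * P.coeff b := by
  classical
  rw [coeff_mul, Finset.sum_eq_single (e, b)]
  · rintro ⟨a, c⟩ h1 h2
    rw [Finset.HasAntidiagonal.mem_antidiagonal] at h1
    by_contra h3
    have h4 : f.coeff a ≠ 0 := left_ne_zero_of_mul h3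
    have h5 : P.coeff c ≠ 0 := right_ne_zero_of_mul h3
    have h6 := h a c h1 h4 h5
    apply h2
    have h7 : a + c = e + b := h1
    rw [h6] at h7
    rw [h6, add_left_cancel h7]
  · intro h1
    exfalso
    apply h1
    rw [Finset.HasAntidiagonal.mem_antidiagonal]

private theorem hLead_alg (x : ℚ) : algebraMap ℚ Kqt x = toK (C x) :=
  IsScalarTower.algebraMap_apply ℚ (MvPolynomial (Fin 2) ℚ) Kqt x

private theorem hLead_toK_injective : Function.Injective toK :=
  IsFractionRing.injective (MvPolynomial (Fin 2) ℚ) Kqt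

private theorem hLead_common (D : Sym Kqt) : ∃ (d : MvPolynomial (Fin 2) ℚ)
    (D0 : (ℕ →₀ ℕ) → MvPolynomial (Fin 2) ℚ), d ≠ 0 ∧ ∀ m, toK (D0 m) = toK d * D.coeff m := by
  obtain ⟨d, hd⟩ := IsLocalization.exist_integer_multiples
    (nonZeroDivisors (MvPolynomial (Fin 2) ℚ)) D.support (fun m => D.coeff m)
  have h1 : ∀ m, ∃ x, toK x = toK (d : MvPolynomial (Fin 2) ℚ) * D.coeff m := by
    intro m
    by_cases hm : m ∈ D.support
    · obtain ⟨x, hx⟩ := hd m hm
      refine ⟨x, ?_⟩
      rw [Algebra.smul_def] at hx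
      exact hx
    · rw [notMem_support_iff] at hm
      exact ⟨0, by rw [map_zero, hm, mul_zero]⟩
  choose D0 hD0 using h1
  exact ⟨d, D0, nonZeroDivisors.coe_ne_zero d, hD0⟩

private theorem hLead_extract {D F : Sym Kqt} {d : MvPolynomial (Fin 2) ℚ}
    {D0 P : (ℕ →₀ ℕ) → MvPolynomial (Fin 2) ℚ}
    (hD0 : ∀ m, toK (D0 m) = toK d * D.coeff m)
    (hF : ∀ m, F.coeff m = toK (P m) * D.coeff m) {g : Sym ℚ}
    (h : hall F (map (algebraMap ℚ Kqt) g) = 0) (e : Fin 2 →₀ ℕ) :
    ∑ m ∈ D.support, coeff e (D0 m * P m) * (g.coeff m * zz ℚ m) = 0 := by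
  have hs : F.support ⊆ D.support := by
    intro m hm
    rw [mem_support_iff] at hm ⊢
    intro h1
    apply hm
    rw [hF, h1, mul_zero]
  rw [hall_eq_sum _ _ hs] at h
  have h1 : toK (∑ m ∈ D.support, D0 m * P m * C (g.coeff m * zz ℚ m)) = 0 := by
    rw [map_sum]
    have h2 : ∀ m ∈ D.support, toK (D0 m * P m * C (g.coeff m * zz ℚ m)) =
        toK d * (F.coeff m * (map (algebraMap ℚ Kqt) g).coeff m * zz Kqt m) := by
      intro m _
      rw [coeff_map, zz_map (algebraMap ℚ Kqt), hLead_alg, hLead_alg, hF, map_mul, map_mul, hD0,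
        C_mul, map_mul]
      ring
    rw [Finset.sum_congr rfl h2, ← Finset.mul_sum, h, mul_zero]
  have h3 : ∑ m ∈ D.support, D0 m * P m * C (g.coeff m * zz ℚ m) = 0 := by
    apply hLead_toK_injective
    rw [h1, map_zero]
  have h4 := congrArg (coeff e) h3
  rw [coeff_sum, coeff_zero] at h4
  rw [← h4]
  refine Finset.sum_congr rfl fun m _ => ?_
  rw [mul_comm (D0 m * P m) (C _), coeff_C_mul, mul_comm]

/-- extraction of the coefficients -/
theorem exists_leading (D : Sym Kqt) (hD : D ≠ 0) {n : ℕ} (hn : WH D n) :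
    ∃ D' : Sym ℚ, D' ≠ 0 ∧ WH D' n ∧
      (∀ g : Sym ℚ, hall D (map (algebraMap ℚ Kqt) g) = 0 → hall D' g = 0) ∧
      (∀ g : Sym ℚ, hall (plethOne tt D) (map (algebraMap ℚ Kqt) g) = 0 → hall D' g = 0) ∧
      (∀ g : Sym ℚ, hall (plethOne qq D) (map (algebraMap ℚ Kqt) g) = 0 →
        hall (omega ℚ D') g = 0) := by
  classical
  obtain ⟨d, D0, hd, hD0⟩ := hLead_common D
  have hd' : toK d ≠ 0 := fun h => hd (hLead_toK_injective (by rw [h, map_zero]))
  -- the support
  have hsupp : ∀ m, D0 m ≠ 0 → m ∈ D.support := by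
    intro m hm
    rw [mem_support_iff]
    intro h1
    apply hm
    apply hLead_toK_injective
    rw [hD0, h1, mul_zero, map_zero]
  have hT : (D.support.biUnion fun m => (D0 m).support).Nonempty := by
    obtain ⟨m, hm⟩ := MvPolynomial.ne_zero_iff.1 hD
    have h1 : D0 m ≠ 0 := by
      intro h2
      have h3 := hD0 m
      rw [h2, map_zero] at h3
      exact mul_ne_zero hd' hm h3.symm
    obtain ⟨e, he⟩ := MvPolynomial.ne_zero_iff.1 h1
    exact ⟨e, Finset.mem_biUnion.2 ⟨m, hsupp m h1, mem_support_iff.2 he⟩⟩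
  obtain ⟨e1, he1, hmax⟩ := Finset.exists_max_image _ (fun e : Fin 2 →₀ ℕ => e 0) hT
  obtain ⟨e0, he0, hmin⟩ := Finset.exists_min_image
    ((D.support.biUnion fun m => (D0 m).support).filter fun e => e 0 = e1 0)
    (fun e : Fin 2 →₀ ℕ => e 1) ⟨e1, Finset.mem_filter.2 ⟨he1, rfl⟩⟩
  rw [Finset.mem_filter] at he0
  have hT1 : ∀ m a, (D0 m).coeff a ≠ 0 → a ∈ D.support.biUnion fun m => (D0 m).support := by
    intro m a ha
    have h1 : D0 m ≠ 0 := by
      intro h2
      rw [h2, coeff_zero] at ha
      exact ha rfl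
    exact Finset.mem_biUnion.2 ⟨m, hsupp m h1, mem_support_iff.2 ha⟩
  have hmax' : ∀ m a, (D0 m).coeff a ≠ 0 → a 0 ≤ e0 0 := by
    intro m a ha
    rw [he0.2]
    exact hmax a (hT1 m a ha)
  have hmin' : ∀ m a, (D0 m).coeff a ≠ 0 → a 0 = e0 0 → e0 1 ≤ a 1 := by
    intro m a ha h1
    exact hmin a (Finset.mem_filter.2 ⟨hT1 m a ha, by rw [h1, he0.2]⟩)
  -- the leading part
  obtain ⟨D', hD'⟩ : ∃ D' : Sym ℚ, ∀ m, D'.coeff m = (D0 m).coeff e0 := by
    refine ⟨∑ m ∈ D.support, monomial m ((D0 m).coeff e0), ?_⟩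
    intro m
    rw [coeff_sum]
    simp only [coeff_monomial]
    rw [Finset.sum_ite_eq' D.support m]
    split_ifs with h1
    · rfl
    · have h2 : D0 m = 0 := by
        by_contra h3
        exact h1 (hsupp m h3)
      rw [h2, coeff_zero]
  have hs' : D'.support ⊆ D.support := by
    intro m hm
    rw [mem_support_iff, hD'] at hm
    apply hsupp
    intro h1
    rw [h1, coeff_zero] at hm
    exact hm rfl
  have hwt : ∀ m ∈ D.support, Finsupp.weight (fun i : ℕ => i + 1) m = n := by
    intro m hm
    exact hn (mem_support_iff.1 hm)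
  refine ⟨D', ?_, ?_, ?_, ?_, ?_⟩
  · obtain ⟨m, hm, hm2⟩ := Finset.mem_biUnion.1 he0.1
    rw [mem_support_iff] at hm2
    rw [MvPolynomial.ne_zero_iff]
    exact ⟨m, by rw [hD']; exact hm2⟩
  · intro m hm
    exact hwt m (hs' (mem_support_iff.2 hm))
  · intro g hg
    have h1 := hLead_extract (P := fun _ => 1) hD0
      (fun m => by rw [map_one, one_mul]) hg e0
    rw [hall_eq_sum _ _ hs', ← h1]
    refine Finset.sum_congr rfl fun m _ => ?_
    rw [hD', mul_one, mul_assoc]
  · intro g hg
    have h1 := hLead_extract (P := hLead_P 1) hD0 (F := plethOne tt D)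
      (fun m => by
        rw [plethOne_coeff]
        congr 1
        unfold hLead_P
        rw [map_finsuppProd]
        refine Finsupp.prod_congr fun i _ => ?_
        rw [map_pow, map_sub, map_one, map_pow]
        rfl) hg (e0 + 0)
    rw [hall_eq_sum _ _ hs', ← h1]
    refine Finset.sum_congr rfl fun m _ => ?_
    rw [hLead_mul, hD', hLead_P_eq, hLead_coeff_aeval, if_pos, Finsupp.coe_zero, Pi.zero_apply,
      hLead_p_zero, mul_one, mul_assoc]
    · rw [Finsupp.coe_zero, Pi.zero_apply, Finsupp.single_zero]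
    · intro a c hac ha hc
      rw [hLead_P_eq, hLead_coeff_aeval] at hc
      have h2 : c = Finsupp.single 1 (c 1) := by
        by_contra h3
        rw [if_neg h3] at hc
        exact hc rfl
      have h4 := DFunLike.congr_fun hac 0
      have h5 := DFunLike.congr_fun hac 1
      have h6 : c 0 = 0 := by
        rw [h2, Finsupp.single_apply, if_neg (by decide)]
      rw [Finsupp.add_apply, Finsupp.add_apply, Finsupp.coe_zero, Pi.zero_apply, h6] at h4
      rw [Finsupp.add_apply, Finsupp.add_apply, Finsupp.coe_zero, Pi.zero_apply] at h5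
      have h7 := hmin' m a ha (by omega)
      ext i
      fin_cases i
      · show a 0 = e0 0
        omega
      · show a 1 = e0 1
        omega
  · intro g hg
    have h1 := hLead_extract (P := hLead_P 0) hD0 (F := plethOne qq D)
      (fun m => by
        rw [plethOne_coeff]
        congr 1
        unfold hLead_P
        rw [map_finsuppProd]
        refine Finsupp.prod_congr fun i _ => ?_
        rw [map_pow, map_sub, map_one, map_pow]
        rfl) hg (e0 + Finsupp.single 0 n)
    have hs'' : (omega ℚ D').support ⊆ D.support := by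
      intro m hm
      apply hs'
      rw [mem_support_iff] at hm ⊢
      intro h2
      apply hm
      rw [coeff_omega, h2, mul_zero]
    have h8 : ((-1 : ℚ) ^ n) * hall (omega ℚ D') g = 0 := by
      rw [hall_eq_sum _ _ hs'', ← h1, Finset.mul_sum]
      refine Finset.sum_congr rfl fun m hm => ?_
      rw [hLead_mul, coeff_omega, hD', hLead_P_eq, hLead_coeff_aeval, if_pos,
        Finsupp.single_eq_same]
      · have h9 : (hLead_p m).coeff n = m.prod fun _ e => (-1 : ℚ) ^ e := by
          rw [← hLead_p_lead, ← hwt m hm, ← hLead_p_natDegree]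
          rfl
        have h10 : ((-1 : ℚ) ^ n) * (m.prod fun i e => (-1 : ℚ) ^ (i * e)) =
            m.prod fun _ e => (-1 : ℚ) ^ e := by
          rw [← hwt m hm, Finsupp.weight_apply, Finsupp.sum, ← Finset.prod_pow_eq_pow_sum,
            Finsupp.prod, Finsupp.prod, ← Finset.prod_mul_distrib]
          refine Finset.prod_congr rfl fun i _ => ?_
          rw [smul_eq_mul, ← pow_add]
          have h11 : m i * (i + 1) + i * m i = m i + 2 * (i * m i) := by ring
          rw [h11, pow_add, pow_mul, neg_one_sq, one_pow, mul_one]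
        rw [h9, ← h10]
        ring
      · rw [Finsupp.single_eq_same]
      · intro a c hac ha hc
        rw [hLead_P_eq, hLead_coeff_aeval] at hc
        have h2 : c = Finsupp.single 0 (c 0) := by
          by_contra h3
          rw [if_neg h3] at hc
          exact hc rfl
        rw [if_pos h2] at hc
        have h3 := Polynomial.le_natDegree_of_ne_zero hc
        rw [hLead_p_natDegree, hwt m hm] at h3
        have h4 := DFunLike.congr_fun hac 0
        have h5 := DFunLike.congr_fun hac 1
        have h6 : c 1 = 0 := by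
          rw [h2, Finsupp.single_apply, if_neg (by decide)]
        have h6' : (Finsupp.single (0 : Fin 2) n) 1 = 0 := by
          rw [Finsupp.single_apply, if_neg (by decide)]
        rw [Finsupp.add_apply, Finsupp.add_apply, Finsupp.single_eq_same] at h4
        rw [Finsupp.add_apply, Finsupp.add_apply, h6, h6'] at h5
        have h7 := hmax' m a ha
        ext i
        fin_cases i
        · show a 0 = e0 0
          omega
        · show a 1 = e0 1
          omega
    have h12 : ((-1 : ℚ) ^ n) ≠ 0 := pow_ne_zero _ (by norm_num)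
    exact (mul_eq_zero.1 h8).resolve_left h12

end Pool.Agent.Lib.MP_463376_co.Hs
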