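import Pool.Agent.Lib.MP_463376_co.H_Hall

/-!
# Stream H: diagonal maps: the involution and the plethysm
-/

set_option autoImplicit false

namespace Pool.Agent.Lib.MP_463376_co.Hs

open MvPolynomial

/-- the involution `ω`: `p_{i+1} ↦ (-1)^i p_{i+1}` -/
noncomputable def omega (K : Type) [Field K] : Sym K →ₐ[K] Sym K :=
  aeval fun i => C ((-1 : K) ^ i) * X i

theorem hOmDef_coeff {K : Type} [Field K] (c : ℕ → K) (f : Sym K) (m : ℕ →₀ ℕ) :
    ((aeval (fun i => C (c i) * X i) : Sym K →ₐ[K] Sym K) f).coeff m =
      (m.prod fun i e => c i ^ e) * f.coeff m := by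
  classical
  induction f using MvPolynomial.induction_on' with
  | monomial d r =>
    have h1 : (aeval (fun i => C (c i) * X i) : Sym K →ₐ[K] Sym K) (monomial d r) =
        C (d.prod fun i e => c i ^ e) * monomial d r := by
      rw [aeval_monomial, monomial_eq (s := d) (a := r)]
      simp only [mul_pow, Finsupp.prod_mul]
      rw [Finsupp.prod, Finsupp.prod, Finsupp.prod, map_prod]
      simp only [map_pow]
      rw [MvPolynomial.algebraMap_eq]
      ring
    rw [h1, coeff_C_mul, coeff_monomial]
    split_ifs with h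
    · rw [h]
    · rw [mul_zero, mul_zero]
  | add p q hp hq => rw [map_add, coeff_add, coeff_add, hp, hq, mul_add]

section
variable {K : Type} [Field K] [CharZero K]

theorem coeff_omega (f : Sym K) (m : ℕ →₀ ℕ) :
    (omega K f).coeff m = (m.prod fun i e => (-1 : K) ^ (i * e)) * f.coeff m := by
  rw [omega, hOmDef_coeff]
  simp only [← pow_mul]

theorem hall_omega (f g : Sym K) : hall (omega K f) g = hall f (omega K g) := by
  have hs : (omega K f).support ⊆ f.support := by
    intro m hm
    rw [mem_support_iff, coeff_omega] at hm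
    exact mem_support_iff.mpr (right_ne_zero_of_mul hm)
  rw [hall_eq_sum (omega K f) g hs, hall_eq_sum f (omega K g) (Finset.Subset.refl _)]
  refine Finset.sum_congr rfl fun m _ => ?_
  rw [coeff_omega, coeff_omega]
  ring

end

theorem plethOne_coeff {K : Type} [Field K] (u : K) (f : Sym K) (m : ℕ →₀ ℕ) :
    (plethOne u f).coeff m = (m.prod fun i e => (1 - u ^ (i + 1)) ^ e) * f.coeff m := by
  rw [plethOne, hOmDef_coeff]

end Pool.Agent.Lib.MP_463376_co.Hs
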