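import Pool.Agent.Lib.MP_463376_co.H_Ortho
import Pool.Agent.Lib.MP_463376_co.H_Dom
import Pool.Agent.Lib.MP_463376_co.H_OmDef

/-!
# Stream H: the involution
-/

set_option autoImplicit false

namespace Pool.Agent.Lib.MP_463376_co.Hs

open MvPolynomial

theorem hOmega_sum_le (s : Finset ℕ) : ∑ i ∈ Finset.range s.card, i ≤ ∑ x ∈ s, x := by
  induction s using Finset.induction_on_max with
  | empty => simp
  | insert a s ha ih =>
    have hna : a ∉ s := fun h => lt_irrefl _ (ha a h)
    rw [Finset.card_insert_of_notMem hna, Finset.sum_range_succ, Finset.sum_insert hna, add_comm]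
    have hc : s.card ≤ a := by
      have : s ⊆ Finset.range a := fun x hx => Finset.mem_range.2 (ha x hx)
      simpa using Finset.card_le_card this
    exact add_le_add hc ih

theorem hOmega_perm {r : ℕ} (σ : Equiv.Perm (Fin r)) (m : ℕ) :
    ∑ i ∈ Finset.univ.filter (fun i : Fin r => (i : ℕ) < m), ((i : ℕ) : ℤ) ≤
      ∑ i ∈ Finset.univ.filter (fun i : Fin r => (i : ℕ) < m), ((σ i : ℕ) : ℤ) := by
  classical
  set F := Finset.univ.filter (fun i : Fin r => (i : ℕ) < m) with hF
  have h1 : (F.image fun i => (σ i : ℕ)).card = F.card :=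
    Finset.card_image_of_injective _ (Fin.val_injective.comp σ.injective)
  have h2 : ∑ x ∈ F.image (fun i => (σ i : ℕ)), x = ∑ i ∈ F, (σ i : ℕ) :=
    Finset.sum_image fun _ _ _ _ h => σ.injective (Fin.val_injective h)
  have h3 := hOmega_sum_le (F.image fun i => (σ i : ℕ))
  rw [h1, h2] at h3
  have h4 : ∑ i ∈ F, (i : ℕ) = ∑ i ∈ Finset.range F.card, i := by
    have h5 : F.image (fun i : Fin r => (i : ℕ)) = Finset.range F.card := by
      have h6 : F.image (fun i : Fin r => (i : ℕ)) = Finset.range (min m r) := by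
        ext x
        simp only [hF, Finset.mem_image, Finset.mem_filter, Finset.mem_univ, true_and,
          Finset.mem_range, lt_min_iff]
        constructor
        · rintro ⟨i, hi, rfl⟩
          exact ⟨hi, i.isLt⟩
        · rintro ⟨h, h'⟩
          exact ⟨⟨x, h'⟩, h, rfl⟩
      have h7 : F.card = min m r := by
        rw [← Finset.card_image_of_injective F Fin.val_injective, h6, Finset.card_range]
      rw [h6, h7]
    rw [← h5, Finset.sum_image fun _ _ _ _ h => Fin.val_injective h]
  rw [← h4] at h3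
  exact_mod_cast h3

section
variable {K : Type} [Field K] [CharZero K]

theorem ev_omega_hS (s n : ℕ) : ev K s (omega K (hS K n)) = esymm (Fin s) K n := by
  induction n using Nat.strong_induction_on with
  | _ n ih =>
  rcases n with _ | n
  · rw [hBialt_hS_zero, map_one, map_one, esymm_zero]
  have h1 := congrArg (fun f => ev K s (omega K f)) (hBialt_rec (K := K) n)
  simp only [map_mul, map_add, map_one, map_natCast, map_sum] at h1
  have h2 := mul_esymm_eq_sum (Fin s) K (n + 1)
  rw [Finset.sum_filter, Finset.Nat.sum_antidiagonal_eq_sum_range_succ_mk,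
    Finset.sum_range_succ, if_neg (by simp), add_zero] at h2
  have h3 : ∑ i : Fin (n + 1), ev K s (omega K (X (i : ℕ))) * ev K s (omega K (hS K (n - i))) =
      ∑ i ∈ Finset.range (n + 1), ((-1) ^ i * psum (Fin s) K (i + 1)) * esymm (Fin s) K (n - i) := by
    rw [Finset.sum_range]
    refine Finset.sum_congr rfl fun i _ => ?_
    rw [ih (n - i) (by omega)]
    congr 1
    unfold omega ev psum
    rw [aeval_X, map_mul, aeval_X, map_pow]
    simp
  rw [h3] at h1
  have h4 : (((n + 1 : ℕ) : MvPolynomial (Fin s) K)) * esymm (Fin s) K (n + 1) =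
      ∑ i ∈ Finset.range (n + 1), ((-1) ^ i * psum (Fin s) K (i + 1)) * esymm (Fin s) K (n - i) := by
    rw [h2, ← Finset.sum_range_reflect, Finset.mul_sum]
    refine Finset.sum_congr rfl fun i hi => ?_
    have hi' := Finset.mem_range.1 hi
    rw [if_pos (by omega)]
    have e1 : n + 1 - 1 - i = n - i := by omega
    have e2 : n + 1 - (n - i) = i + 1 := by omega
    simp only [e1, e2]
    have e3 : ((-1 : MvPolynomial (Fin s) K)) ^ (n + 1 + 1) * (-1) ^ (n - i) = (-1) ^ i := by
      rw [← pow_add]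
      have : n + 1 + 1 + (n - i) = i + 2 * (n + 1 - i) := by omega
      rw [this, pow_add, pow_mul, neg_one_sq, one_pow, mul_one]
    rw [← e3]
    ring
  have h5 : ((n : MvPolynomial (Fin s) K) + 1) ≠ 0 := by
    exact_mod_cast (Nat.cast_ne_zero (R := MvPolynomial (Fin s) K)).2 (Nat.succ_ne_zero n)
  apply mul_left_cancel₀ h5
  rw [h1, ← h4]
  push_cast
  ring

/-- the easy part of the theorem of Gale and Ryser -/
theorem coeff_prod_esymm {s r : ℕ} (a : Fin s → ℕ) (b : Fin r → ℕ)
    (h : (∏ j, esymm (Fin s) K (b j)).coeff (vec a) ≠ 0) (T : Finset (Fin s)) :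
    ∑ i ∈ T, a i ≤ ∑ j, min (b j) T.card := by
  classical
  simp only [esymm_eq_sum_monomial] at h
  rw [Finset.prod_univ_sum, coeff_sum] at h
  obtain ⟨t, ht, hne⟩ := Finset.exists_ne_zero_of_sum_ne_zero h
  rw [← monomial_sum_one, coeff_monomial] at hne
  have heq : ∑ j, ∑ i ∈ t j, Finsupp.single i 1 = vec a := by
    by_contra hcon
    rw [if_neg hcon] at hne
    exact hne rfl
  have ha : ∀ i, a i = ∑ j, if i ∈ t j then 1 else 0 := by
    intro i
    have h1 := DFunLike.congr_fun heq i
    rw [vec_apply] at h1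
    rw [← h1, Finsupp.finsetSum_apply]
    refine Finset.sum_congr rfl fun j _ => ?_
    rw [Finsupp.finsetSum_apply]
    simp [Finsupp.single_apply]
  calc ∑ i ∈ T, a i = ∑ i ∈ T, ∑ j, (if i ∈ t j then 1 else 0) :=
        Finset.sum_congr rfl fun i _ => ha i
    _ = ∑ j, ∑ i ∈ T, (if i ∈ t j then 1 else 0) := Finset.sum_comm
    _ ≤ ∑ j, min (b j) T.card := by
        refine Finset.sum_le_sum fun j _ => ?_
        rw [← Finset.card_filter]
        refine le_min ?_ (Finset.card_filter_le _ _)
        have hj := (Finset.mem_powersetCard.1 (Fintype.mem_piFinset.1 ht j)).2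
        rw [← hj]
        exact Finset.card_le_card fun x hx => (Finset.mem_filter.1 hx).2

/-- the Jacobi-Trudi expansion is triangular -/
theorem schur_mem_span (lam : YoungDiagram) {r : ℕ} (hr : lam.colLen 0 ≤ r) :
    schur K lam ∈ Submodule.span K {f : Sym K | ∃ a : Fin r → ℕ,
      (∀ m ≤ r, ∑ i ∈ Finset.range m, lam.rowLen i ≤
        ∑ i ∈ Finset.univ.filter (fun i : Fin r => (i : ℕ) < m), a i) ∧
      ∑ i, a i = lam.card ∧ f = ∏ i, hS K (a i)} := by
  classical
  rw [schur_eq_det lam hr, ← Matrix.det_transpose, Matrix.det_apply]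
  refine Submodule.sum_mem _ fun σ _ => ?_
  have hsm : ∀ f : Sym K, f ∈ Submodule.span K {f : Sym K | ∃ a : Fin r → ℕ,
      (∀ m ≤ r, ∑ i ∈ Finset.range m, lam.rowLen i ≤
        ∑ i ∈ Finset.univ.filter (fun i : Fin r => (i : ℕ) < m), a i) ∧
      ∑ i, a i = lam.card ∧ f = ∏ i, hS K (a i)} → Equiv.Perm.sign σ • f ∈
      Submodule.span K {f : Sym K | ∃ a : Fin r → ℕ,
      (∀ m ≤ r, ∑ i ∈ Finset.range m, lam.rowLen i ≤
        ∑ i ∈ Finset.univ.filter (fun i : Fin r => (i : ℕ) < m), a i) ∧
      ∑ i, a i = lam.card ∧ f = ∏ i, hS K (a i)} := by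
    intro f hf
    rcases Int.units_eq_one_or (Equiv.Perm.sign σ) with h | h
    · rw [h, one_smul]; exact hf
    · rw [h, Units.neg_smul, one_smul]; exact Submodule.neg_mem _ hf
  apply hsm
  by_cases hneg : ∃ i : Fin r, (lam.rowLen i : ℤ) - (i : ℕ) + (σ i : ℕ) < 0
  · obtain ⟨i, hi⟩ := hneg
    rw [Finset.prod_eq_zero (Finset.mem_univ i)]
    · exact Submodule.zero_mem _
    · simp only [Matrix.transpose_apply, Matrix.of_apply]
      rw [hZ, if_pos hi]
  · push Not at hneg
    have hcast : ∀ i : Fin r, ((((lam.rowLen i : ℤ) - (i : ℕ) + (σ i : ℕ)).toNat : ℕ) : ℤ) =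
        (lam.rowLen i : ℤ) - (i : ℕ) + (σ i : ℕ) := fun i => Int.toNat_of_nonneg (hneg i)
    refine Submodule.subset_span ⟨fun i => ((lam.rowLen i : ℤ) - (i : ℕ) + (σ i : ℕ)).toNat, ?_, ?_, ?_⟩
    · intro m hm
      have h1 : ∑ i ∈ Finset.range m, lam.rowLen i =
          ∑ i ∈ Finset.univ.filter (fun i : Fin r => (i : ℕ) < m), lam.rowLen i := by
        rw [← Finset.sum_image (s := Finset.univ.filter (fun i : Fin r => (i : ℕ) < m))
          (g := fun i : Fin r => (i : ℕ)) (f := fun i => lam.rowLen i)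
          (fun _ _ _ _ h => Fin.val_injective h)]
        refine Finset.sum_congr ?_ fun _ _ => rfl
        ext x
        simp only [Finset.mem_image, Finset.mem_filter, Finset.mem_univ, true_and,
          Finset.mem_range]
        constructor
        · intro h
          exact ⟨⟨x, by omega⟩, h, rfl⟩
        · rintro ⟨i, hi, rfl⟩
          exact hi
      rw [h1]
      have h2 := hOmega_perm σ m
      apply Int.ofNat_le.1
      rw [Nat.cast_sum, Nat.cast_sum, Finset.sum_congr rfl fun i _ => hcast i,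
        Finset.sum_add_distrib, Finset.sum_sub_distrib]
      linarith
    · have h2 : ∑ i : Fin r, ((σ i : ℕ) : ℤ) = ∑ i : Fin r, ((i : ℕ) : ℤ) :=
        Equiv.sum_comp σ fun i : Fin r => ((i : ℕ) : ℤ)
      rw [← sum_rowLen lam hr, Finset.sum_range]
      zify
      rw [Finset.sum_congr rfl fun i _ => hcast i, Finset.sum_add_distrib, Finset.sum_sub_distrib, h2]
      ring
    · refine Finset.prod_congr rfl fun i _ => ?_
      simp only [Matrix.transpose_apply, Matrix.of_apply]
      rw [hZ, if_neg (not_lt.2 (hneg i))]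

omit [CharZero K] in
theorem hOmega_left {S : Set (Sym K)} {f : Sym K} (hf : f ∈ Submodule.span K S) (g : Sym K)
    (h : hall f g ≠ 0) : ∃ f' ∈ S, hall f' g ≠ 0 := by
  by_contra hcon
  push Not at hcon
  apply h
  have : Submodule.span K S ≤ LinearMap.ker ((hallB K).flip g) :=
    Submodule.span_le.2 fun x hx => hcon x hx
  exact this hf

omit [CharZero K] in
theorem hOmega_right {S : Set (Sym K)} {g : Sym K} (hg : g ∈ Submodule.span K S) (f : Sym K)
    (h : hall f (omega K g) ≠ 0) : ∃ g' ∈ S, hall f (omega K g') ≠ 0 := by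
  by_contra hcon
  push Not at hcon
  apply h
  have : Submodule.span K S ≤ LinearMap.ker ((hallB K f).comp (omega K).toLinearMap) :=
    Submodule.span_le.2 fun x hx => hcon x hx
  exact this hg

/-- `⟨s_λ, ω s_κ⟩ = 0` unless `λ ≤ κ'` -/
theorem schur_omega_schur (lam kap : YoungDiagram)
    (h : hall (schur K lam) (omega K (schur K kap)) ≠ 0) (m : ℕ) :
    ∑ i ∈ Finset.range m, lam.rowLen i ≤ ∑ i ∈ Finset.range m, kap.transpose.rowLen i := by
  set r := max (max (lam.colLen 0) (kap.colLen 0)) m with hr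
  have hr1 : lam.colLen 0 ≤ r := (le_max_left _ _).trans (le_max_left _ _)
  have hr2 : kap.colLen 0 ≤ r := (le_max_right _ _).trans (le_max_left _ _)
  have hr3 : m ≤ r := le_max_right _ _
  obtain ⟨f, ⟨a, ha1, _, rfl⟩, hf⟩ := hOmega_left (schur_mem_span lam hr1) _ h
  obtain ⟨g, ⟨b, hb1, hb2, rfl⟩, hg⟩ := hOmega_right (schur_mem_span kap hr2) _ hf
  rw [hall_comm, hall_prod_hS, map_prod, map_prod] at hg
  simp only [ev_omega_hS] at hg
  have h1 := coeff_prod_esymm a b hg (Finset.univ.filter (fun i : Fin r => (i : ℕ) < m))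
  have hc : (Finset.univ.filter (fun i : Fin r => (i : ℕ) < m)).card = m := by
    have : (Finset.univ.filter (fun i : Fin r => (i : ℕ) < m)).image (fun i : Fin r => (i : ℕ)) =
        Finset.range m := by
      ext x
      simp only [Finset.mem_image, Finset.mem_filter, Finset.mem_univ, true_and, Finset.mem_range]
      constructor
      · rintro ⟨i, hi, rfl⟩
        exact hi
      · intro h
        exact ⟨⟨x, by omega⟩, h, rfl⟩
    rw [← Finset.card_image_of_injective _ Fin.val_injective, this, Finset.card_range]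
  rw [hc] at h1
  exact (ha1 m hr3).trans (h1.trans (sum_min_le kap hr2 b hb1 hb2 m))

end

end Pool.Agent.Lib.MP_463376_co.Hs
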