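import Pool.Agent.Lib.MP_463376_co.H_Bialt

/-!
# Stream H: Schur functions are orthonormal
-/

set_option autoImplicit false

namespace Pool.Agent.Lib.MP_463376_co.Hs

open MvPolynomial

section
variable {K : Type} [Field K] [CharZero K]

omit [CharZero K] in
private theorem hOrtho_prod_pow {r : ℕ} (a : Fin r → ℕ) :
    ∏ j : Fin r, (X j : MvPolynomial (Fin r) K) ^ a j = monomial (vec a) 1 := by
  rw [monomial_eq, C_1, one_mul, Finsupp.prod_fintype]
  · rfl
  · intro i
    exact pow_zero _

omit [CharZero K] in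
private theorem hOrtho_alt {r : ℕ} (a : Fin r → ℕ) :
    alt K a = ∑ σ : Equiv.Perm (Fin r),
      C (((Equiv.Perm.sign σ : ℤˣ) : ℤ) : K) * monomial (vec fun j => a (σ j)) 1 := by
  unfold alt
  rw [Matrix.det_apply']
  refine Finset.sum_congr rfl fun σ _ => ?_
  rw [← hOrtho_prod_pow (fun j => a (σ j))]
  congr 1

/-- scalar product with a Schur function -/
theorem hall_schur (f : Sym K) (lam : YoungDiagram) {r : ℕ} (h : lam.colLen 0 ≤ r) :
    hall f (schur K lam) =
      (ev K r f * alt K (rho r)).coeff (vec fun i => lam.rowLen i + rho r i) := by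
  rw [schur_eq_det lam h, ← Matrix.det_transpose, Matrix.det_apply', hall_sum_right, hOrtho_alt,
    Finset.mul_sum, coeff_sum]
  refine Finset.sum_congr rfl fun σ _ => ?_
  have e1 : ((((Equiv.Perm.sign σ : ℤˣ) : ℤ) : Sym K)) =
      C (((Equiv.Perm.sign σ : ℤˣ) : ℤ) : K) := by simp
  rw [e1, hall_C_mul_right]
  have e2 : ev K r f * (C (((Equiv.Perm.sign σ : ℤˣ) : ℤ) : K) *
      monomial (vec fun j => rho r (σ j)) 1) = C (((Equiv.Perm.sign σ : ℤˣ) : ℤ) : K) *
      (ev K r f * monomial (vec fun j => rho r (σ j)) 1) := by ring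
  rw [e2, coeff_C_mul]
  congr 1
  rw [coeff_mul_monomial', mul_one]
  have e3 := hall_prod_hZ f (fun i : Fin r => (lam.rowLen i : ℤ) - (i : ℕ) + ((σ i : Fin r) : ℕ))
  refine Eq.trans (Eq.trans ?_ e3) ?_
  · rfl
  · have hiff : (∀ b : Fin r, 0 ≤ (lam.rowLen b : ℤ) - (b : ℕ) + ((σ b : Fin r) : ℕ)) ↔
        (vec fun j => rho r (σ j)) ≤ (vec fun i : Fin r => lam.rowLen i + rho r i) := by
      constructor
      · intro hb i
        have := hb i
        have h1 := i.2
        have h2 := (σ i).2
        simp only [vec_apply, rho]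
        omega
      · intro hb i
        have h0 := hb i
        have h1 := i.2
        have h2 := (σ i).2
        simp only [vec_apply, rho] at h0
        omega
    by_cases hc : ∀ b : Fin r, 0 ≤ (lam.rowLen b : ℤ) - (b : ℕ) + ((σ b : Fin r) : ℕ)
    · rw [if_pos hc, if_pos (hiff.mp hc)]
      congr 1
      ext i
      have := hc i
      have h1 := i.2
      have h2 := (σ i).2
      simp only [vec_apply, rho, Finsupp.tsub_apply]
      omega
    · rw [if_neg hc, if_neg (fun hh => hc (hiff.mpr hh))]

theorem coeff_alt {r : ℕ} {a b : Fin r → ℕ} (ha : StrictAnti a) (hb : StrictAnti b) :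
    (alt K a).coeff (vec b) = if a = b then 1 else 0 := by
  classical
  have hσ : ∀ σ : Equiv.Perm (Fin r), (vec fun j => a (σ j)) = vec b → σ = 1 := by
    intro σ h
    have h' : ∀ j, a (σ j) = b j := fun j => DFunLike.congr_fun h j
    have hm : StrictMono σ := by
      intro i j hij
      have := hb hij
      rw [← h' i, ← h' j] at this
      exact ha.lt_iff_gt.mp this
    have h1 : hm.orderIsoOfSurjective σ σ.surjective = OrderIso.refl (Fin r) :=
      Subsingleton.elim _ _
    ext i
    have := DFunLike.congr_fun h1 i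
    simpa using congrArg Fin.val this
  rw [hOrtho_alt, coeff_sum]
  rw [Finset.sum_eq_single (1 : Equiv.Perm (Fin r))]
  · rw [coeff_C_mul, coeff_monomial]
    simp only [Equiv.Perm.sign_one, Units.val_one, Int.cast_one, Equiv.Perm.coe_one, id, one_mul]
    by_cases hab : a = b
    · rw [if_pos hab, if_pos (by rw [hab])]
    · rw [if_neg hab, if_neg]
      intro h
      exact hab (funext fun j => DFunLike.congr_fun h j)
  · intro σ _ hne
    rw [coeff_C_mul, coeff_monomial, if_neg (fun h => hne (hσ σ h)), mul_zero]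
  · intro h
    exact absurd (Finset.mem_univ _) h

private theorem hOrtho_strictAnti (lam : YoungDiagram) (r : ℕ) :
    StrictAnti fun i : Fin r => lam.rowLen i + rho r i := by
  intro i j hij
  have h1 := lam.rowLen_anti (i : ℕ) (j : ℕ) (Fin.le_def.mp hij.le)
  have h2 := Fin.lt_def.mp hij
  have h3 := j.2
  simp only [rho]
  omega

private theorem hOrtho_rowLen_zero (lam : YoungDiagram) {r i : ℕ} (h : lam.colLen 0 ≤ r)
    (hi : r ≤ i) : lam.rowLen i = 0 := by
  by_contra hne
  have h1 : (i, 0) ∈ lam := YoungDiagram.mem_iff_lt_rowLen.mpr (Nat.pos_of_ne_zero hne)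
  have h2 := YoungDiagram.mem_iff_lt_colLen.mp h1
  omega

open Classical in
theorem schur_orthonormal' (lam mu : YoungDiagram) :
    hall (schur K lam) (schur K mu) = if lam = mu then 1 else 0 := by
  obtain ⟨r, hr⟩ : ∃ r, r = max (lam.colLen 0) (mu.colLen 0) := ⟨_, rfl⟩
  have hl : lam.colLen 0 ≤ r := by rw [hr]; exact le_max_left _ _
  have hm : mu.colLen 0 ≤ r := by rw [hr]; exact le_max_right _ _
  rw [hall_schur (schur K lam) mu hm, ← alt_schur lam hl,
    coeff_alt (hOrtho_strictAnti lam r) (hOrtho_strictAnti mu r)]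
  by_cases h : lam = mu
  · rw [if_pos h, if_pos (by rw [h])]
  · rw [if_neg h, if_neg]
    intro he
    apply h
    apply YoungDiagram.ext
    ext ⟨i, j⟩
    rw [YoungDiagram.mem_cells, YoungDiagram.mem_cells, YoungDiagram.mem_iff_lt_rowLen,
      YoungDiagram.mem_iff_lt_rowLen]
    have : lam.rowLen i = mu.rowLen i := by
      by_cases hi : i < r
      · have := congrFun he ⟨i, hi⟩
        simpa using this
      · rw [hOrtho_rowLen_zero lam hl (by omega), hOrtho_rowLen_zero mu hm (by omega)]
    rw [this]

theorem schur_linearIndependent' : LinearIndependent K (schur K) := by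
  classical
  rw [linearIndependent_iff']
  intro s g hg mu hmu
  have h1 : hall (∑ lam ∈ s, g lam • schur K lam) (schur K mu) = 0 := by
    rw [hg, hall_zero_left]
  rw [hall_sum_left, Finset.sum_eq_single mu] at h1
  · rw [hall_smul_left, schur_orthonormal', if_pos rfl, mul_one] at h1
    exact h1
  · intro lam _ hne
    rw [hall_smul_left, schur_orthonormal', if_neg hne, mul_zero]
  · intro h
    exact absurd hmu h

end

end Pool.Agent.Lib.MP_463376_co.Hs
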