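import Pool.Agent.Lib.MP_463376_co.H_EvP

/-!
# Stream H: the Frobenius characteristic
-/

set_option autoImplicit false

namespace Pool.Agent.Lib.MP_463376_co.Hs

open MvPolynomial

section
variable {K : Type} [Field K] [CharZero K] {ι : Type} [Fintype ι] [DecidableEq ι]

/-- the cycle type of `w` as an exponent vector: `m i` is the number of cycles of length `i + 1` -/
noncomputable def cyc (w : Equiv.Perm ι) : ℕ →₀ ℕ :=
  Finsupp.onFinset (Finset.range (Fintype.card ι)) (fun i => w.partition.parts.count (i + 1)) (by
    intro i hi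
    rw [Finset.mem_range]
    have h1 : i + 1 ∈ w.partition.parts := Multiset.count_ne_zero.1 hi
    have h2 := Multiset.single_le_sum (fun x _ => Nat.zero_le x) _ h1
    rw [w.partition.parts_sum] at h2
    omega)

theorem hPars_cyc_apply (w : Equiv.Perm ι) (i : ℕ) :
    cyc w i = w.partition.parts.count (i + 1) := rfl

theorem pcyc_eq (w : Equiv.Perm ι) : pcyc K w = monomial (cyc w) 1 := by
  classical
  have key : ∀ (s : Multiset ℕ), (∀ k ∈ s, 1 ≤ k) → ∀ m : ℕ →₀ ℕ,
      (∀ i, m i = s.count (i + 1)) →
      (s.map fun k => (X (k - 1) : Sym K)).prod = monomial m 1 := by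
    intro s
    induction s using Multiset.induction_on with
    | empty =>
      intro _ m hm
      have : m = 0 := by
        ext i
        simp [hm i]
      subst this
      simp
    | cons a s ih =>
      intro hs m hm
      have ha : 1 ≤ a := hs a (Multiset.mem_cons_self a s)
      obtain ⟨b, rfl⟩ : ∃ b, a = b + 1 := ⟨a - 1, by omega⟩
      have h1 : m = Finsupp.single b 1 + (m - Finsupp.single b 1) := by
        have : Finsupp.single b 1 ≤ m := by
          rw [Finsupp.single_le_iff, hm b, Multiset.count_cons_self]
          omega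
        rw [add_comm, tsub_add_cancel_of_le this]
      rw [Multiset.map_cons, Multiset.prod_cons, h1]
      rw [ih (fun k hk => hs k (Multiset.mem_cons_of_mem hk)) (m - Finsupp.single b 1)]
      · rw [Nat.add_sub_cancel]
        show (monomial (Finsupp.single b 1) 1 : Sym K) * _ = _
        rw [monomial_mul, one_mul]
      · intro i
        rw [Finsupp.tsub_apply, hm i, Multiset.count_cons]
        by_cases hi : i = b
        · subst hi
          simp
        · have h2 : ¬ i + 1 = b + 1 := by omega
          rw [Finsupp.single_eq_of_ne (by exact hi), if_neg h2]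
          simp
  refine key _ (fun k hk => ?_) _ (fun i => rfl)
  exact w.partition.parts_pos hk

/-- the number of permutations of a given cycle type -/
theorem card_cyc (m : ℕ →₀ ℕ) (hm : (m.sum fun i e => (i + 1) * e) = Fintype.card ι) :
    ((Finset.univ.filter fun w : Equiv.Perm ι => cyc w = m).card : K) * zz K m =
      ((Fintype.card ι).factorial : ℕ) := by
  classical
  set S : Finset ℕ := m.support.erase 0 with hS
  set ν : Multiset ℕ := ∑ i ∈ S, Multiset.replicate (m i) (i + 1) with hν
  have hcount : ∀ i, ν.count (i + 1) = if i ∈ S then m i else 0 := by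
    intro i
    rw [hν, Multiset.count_sum']
    simp_rw [Multiset.count_replicate]
    rw [← Finset.sum_ite_eq' S i (fun j => m j)]
    refine Finset.sum_congr rfl fun j _ => ?_
    by_cases hj : j = i
    · subst hj; simp
    · have : ¬ (j + 1 = i + 1) := by omega
      simp [hj]
  have hmem : ∀ a ∈ ν, 2 ≤ a := by
    intro a ha
    rw [hν, Multiset.mem_sum] at ha
    obtain ⟨i, hi, hai⟩ := ha
    have h1 := Multiset.eq_of_mem_replicate hai
    have h2 : i ≠ 0 := (Finset.mem_erase.1 hi).1
    omega
  have hsum : ν.sum = ∑ i ∈ S, (i + 1) * m i := by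
    have : ν.sum = ∑ i ∈ S, (Multiset.replicate (m i) (i + 1)).sum := by
      rw [hν]
      exact map_sum (Multiset.sumAddMonoidHom (M := ℕ)) _ _
    rw [this]
    refine Finset.sum_congr rfl fun i _ => ?_
    rw [Multiset.sum_replicate, smul_eq_mul, mul_comm]
  have hprod : ν.prod = ∏ i ∈ S, (i + 1) ^ m i := by
    have : ν.prod = ∏ i ∈ S, (Multiset.replicate (m i) (i + 1)).prod := by
      rw [hν]
      have gen : ∀ T : Finset ℕ, (∑ i ∈ T, Multiset.replicate (m i) (i + 1)).prod =
          ∏ i ∈ T, (Multiset.replicate (m i) (i + 1)).prod := by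
        intro T
        induction T using Finset.induction_on with
        | empty => simp
        | insert a s ha ih =>
          rw [Finset.sum_insert ha, Multiset.prod_add, ih, Finset.prod_insert ha]
      exact gen S
    rw [this]
    refine Finset.prod_congr rfl fun i _ => ?_
    rw [Multiset.prod_replicate]
  have hall : (m.sum fun i e => (i + 1) * e) = m 0 + ∑ i ∈ S, (i + 1) * m i := by
    rw [Finsupp.sum]
    by_cases h0 : 0 ∈ m.support
    · rw [← Finset.add_sum_erase _ _ h0]
      simp [hS]
    · have h1 : m 0 = 0 := by simpa using h0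
      rw [h1, hS, Finset.erase_eq_of_notMem h0]
      simp
  have hn : Fintype.card ι = m 0 + ν.sum := by rw [← hm, hall, hsum]
  have hsub : Fintype.card ι - ν.sum = m 0 := by omega
  have hiff : ∀ w : Equiv.Perm ι, cyc w = m ↔ w.cycleType = ν := by
    intro w
    constructor
    · intro h
      rw [← Equiv.Perm.filter_parts_partition_eq_cycleType]
      ext a
      by_cases ha : 2 ≤ a
      · rw [Multiset.count_filter_of_pos ha]
        obtain ⟨b, rfl⟩ : ∃ b, a = b + 1 := ⟨a - 1, by omega⟩
        rw [← hPars_cyc_apply, h, hcount]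
        have hb : b ≠ 0 := by omega
        by_cases hmb : m b = 0
        · simp [hS, hmb]
        · simp [hS, hmb, hb]
      · rw [Multiset.count_filter_of_neg ha]
        symm
        rw [Multiset.count_eq_zero]
        intro h'
        exact ha (hmem a h')
    · intro h
      ext i
      rw [hPars_cyc_apply, Equiv.Perm.parts_partition, Multiset.count_add, h, hcount,
        Multiset.count_replicate, ← Equiv.Perm.sum_cycleType, h, hsub]
      by_cases hi : i = 0
      · subst hi
        simp [hS]
      · by_cases hmb : m i = 0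
        · simp [hS, hmb, hi]
        · simp [hS, hmb, hi]
  have hcard := Equiv.Perm.card_of_cycleType_mul_eq ι ν
  rw [if_pos ⟨by omega, hmem⟩, hsub, hprod] at hcard
  have htf : ∏ n ∈ ν.toFinset, (ν.count n).factorial = ∏ i ∈ S, (m i).factorial := by
    have h1 : ν.toFinset = S.image (fun i => i + 1) := by
      ext a
      rw [Multiset.mem_toFinset, hν, Multiset.mem_sum, Finset.mem_image]
      constructor
      · rintro ⟨i, hi, h⟩
        exact ⟨i, hi, (Multiset.eq_of_mem_replicate h).symm⟩
      · rintro ⟨i, hi, rfl⟩
        refine ⟨i, hi, ?_⟩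
        rw [Multiset.mem_replicate]
        refine ⟨?_, rfl⟩
        exact Finsupp.mem_support_iff.1 (Finset.mem_of_mem_erase hi)
    rw [h1, Finset.prod_image (fun a _ b _ h => by simpa using h)]
    refine Finset.prod_congr rfl fun i hi => ?_
    rw [hcount, if_pos hi]
  rw [htf] at hcard
  have hzz : zz K m = (((m 0).factorial * (∏ i ∈ S, (i + 1) ^ m i) *
      ∏ i ∈ S, (m i).factorial : ℕ) : K) := by
    have h1 : zz K m = ((m 0).factorial : K) *
        ∏ i ∈ S, (((i + 1 : ℕ) : K) ^ m i * ((m i).factorial : K)) := by
      rw [zz, Finsupp.prod]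
      by_cases h0 : 0 ∈ m.support
      · rw [← Finset.mul_prod_erase _ _ h0]
        simp [hS]
      · have h1 : m 0 = 0 := by simpa using h0
        rw [h1, hS, Finset.erase_eq_of_notMem h0]
        simp
    rw [h1, Finset.prod_mul_distrib]
    push_cast
    ring
  rw [hzz, Finset.filter_congr (fun w _ => hiff w)]
  rw [← hcard]
  push_cast
  ring

theorem hall_frob (f : Equiv.Perm ι → K) (g : Sym K) :
    hall (frob f) g = (((Fintype.card ι).factorial : ℕ) : K)⁻¹ *
      ∑ w : Equiv.Perm ι, f w * hall (pcyc K w) g := by
  rw [frob, hall_C_mul_left, hall_sum_left]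
  simp_rw [hall_C_mul_left]

/-- **Parseval.** -/
theorem parseval (g : Sym K) (hg : WH g (Fintype.card ι)) :
    frob (fun w : Equiv.Perm ι => hall (pcyc K w) g) = g := by
  classical
  ext m
  have h1 : ∀ w : Equiv.Perm ι, hall (pcyc K w) g = g.coeff (cyc w) * zz K (cyc w) := by
    intro w
    rw [hall_comm, pcyc_eq, hall_monomial_right]
  have h2 : (frob (fun w : Equiv.Perm ι => hall (pcyc K w) g)).coeff m =
      (((Fintype.card ι).factorial : ℕ) : K)⁻¹ *
        (((Finset.univ.filter fun w : Equiv.Perm ι => cyc w = m).card : K) * zz K m *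
          g.coeff m) := by
    rw [frob, coeff_C_mul, coeff_sum]
    congr 1
    have h3 : ∀ w : Equiv.Perm ι, coeff m (C (hall (pcyc K w) g) * pcyc K w) =
        if cyc w = m then zz K m * g.coeff m else 0 := by
      intro w
      rw [coeff_C_mul, h1, pcyc_eq, coeff_monomial]
      by_cases h : cyc w = m
      · rw [if_pos h, if_pos h, h]
        ring
      · rw [if_neg h, if_neg h, mul_zero]
    rw [Finset.sum_congr rfl fun w _ => h3 w, ← Finset.sum_filter, Finset.sum_const,
      nsmul_eq_mul]
    ring
  rw [h2]
  by_cases hc : g.coeff m = 0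
  · rw [hc, mul_zero, mul_zero]
  · have h4 := hg hc
    have h5 : (m.sum fun i e => (i + 1) * e) = Fintype.card ι := by
      rw [← h4, Finsupp.weight_apply]
      refine Finsupp.sum_congr fun i _ => ?_
      rw [smul_eq_mul, mul_comm]
    rw [card_cyc m h5]
    have h6 : (((Fintype.card ι).factorial : ℕ) : K) ≠ 0 := by
      exact_mod_cast Nat.factorial_ne_zero _
    field_simp

theorem frob_perm' {s : ℕ} (nu : Fin s → ℕ) (h : ∑ b, nu b = Fintype.card ι) :
    frob (K := K) (fun w : Equiv.Perm ι =>
      ((Finset.univ.filter fun φ : ι → Fin s => φ ∘ w = φ ∧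
        ∀ b, (Finset.univ.filter fun i => φ i = b).card = nu b).card : K)) = ∏ b, hS K (nu b) := by
  have h1 : WH (∏ b, hS K (nu b)) (Fintype.card ι) := by
    rw [← h]
    exact IsWeightedHomogeneous.prod _ _ _ (fun b _ => hS_wh (nu b))
  have h2 := parseval (ι := ι) _ h1
  simp_rw [hall_pcyc_hS] at h2
  exact h2

end

end Pool.Agent.Lib.MP_463376_co.Hs
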