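import Pool.Agent.Lib.MP_463376_co.H_Conv

/-!
# Stream H: permutation characters of the symmetric group
-/

set_option autoImplicit false

namespace Pool.Agent.Lib.MP_463376_co.Hs

/-- the stabilizer of a colouring -/
private def hPerm_stab {ι : Type} {s : ℕ} (φ : ι → Fin s) : Subgroup (Equiv.Perm ι) where
  carrier := {h | ∀ i, φ (h i) = φ i}
  one_mem' := fun _ => rfl
  mul_mem' := by
    intro a b ha hb i
    rw [Equiv.Perm.mul_apply, ha, hb]
  inv_mem' := by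
    intro a ha i
    have h2 := ha (a⁻¹ i)
    have h3 : a (a⁻¹ i) = i := Equiv.apply_symm_apply a i
    rw [h3] at h2
    exact h2.symm

private theorem hPerm_mem {ι : Type} {s : ℕ} (φ : ι → Fin s) (h : Equiv.Perm ι) :
    h ∈ hPerm_stab φ ↔ ∀ i, φ (h i) = φ i := Iff.rfl

/-- the averaging idempotent of a subgroup -/
private theorem hPerm_idem {G : Type} [Group G] [Fintype G] [DecidableEq G] (H : Subgroup G) :
    ∃ e : MonoidAlgebra ℚ G, e * e = e ∧
      ∀ g, (Nat.card H : ℚ) * tch e g = (Nat.card {h : G // h⁻¹ * g⁻¹ * h ∈ H} : ℚ) := by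
  classical
  set c : ℚ := (Nat.card H : ℚ)⁻¹ with hc
  have hc0 : (Nat.card H : ℚ) ≠ 0 := by
    have : 0 < Nat.card H := Nat.card_pos
    exact_mod_cast this.ne'
  set e : MonoidAlgebra ℚ G :=
    MonoidAlgebra.ofCoeff (Finsupp.equivFunOnFinite.symm fun g => if g ∈ H then c else 0) with he
  have hcoef : ∀ g, e.coeff g = if g ∈ H then c else 0 := fun g => rfl
  have hcard : ((Finset.univ.filter fun g : G => g ∈ H).card : ℚ) = Nat.card H := by
    rw [Nat.card_eq_fintype_card, ← Fintype.card_subtype]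
  refine ⟨e, ?_, ?_⟩
  · ext g
    rw [hConv_left, hcoef g]
    have h1 : ∀ a : G, e.coeff a * e.coeff (a⁻¹ * g) =
        if a ∈ H then (if g ∈ H then c * c else 0) else 0 := by
      intro a
      rw [hcoef, hcoef]
      by_cases ha : a ∈ H
      · rw [if_pos ha, if_pos ha]
        by_cases hg : g ∈ H
        · rw [if_pos ((H.mul_mem_cancel_left (H.inv_mem ha)).2 hg), if_pos hg]
        · rw [if_neg (fun h => hg ((H.mul_mem_cancel_left (H.inv_mem ha)).1 h)), if_neg hg,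
            mul_zero]
      · rw [if_neg ha, if_neg ha, zero_mul]
    rw [Finset.sum_congr rfl fun a _ => h1 a, ← Finset.sum_filter, Finset.sum_const,
      nsmul_eq_mul, hcard]
    by_cases hg : g ∈ H
    · rw [if_pos hg, if_pos hg, hc]
      field_simp
    · rw [if_neg hg, if_neg hg, mul_zero]
  · intro g
    unfold tch
    simp only [hcoef]
    rw [← Finset.sum_filter, Finset.sum_const, nsmul_eq_mul,
      Nat.card_eq_fintype_card (α := {h : G // h⁻¹ * g⁻¹ * h ∈ H}), Fintype.card_subtype, hc]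
    field_simp

/-- the permutation character on the maps with fibre sizes `nu` comes from an idempotent -/
theorem exists_perm_idem {ι : Type} [Fintype ι] [DecidableEq ι] {s : ℕ} (nu : Fin s → ℕ)
    (h : ∑ b, nu b = Fintype.card ι) :
    ∃ e : MonoidAlgebra ℚ (Equiv.Perm ι), e * e = e ∧
      ∀ w, tch e w = ((Finset.univ.filter fun φ : ι → Fin s => φ ∘ w = φ ∧
        ∀ b, (Finset.univ.filter fun i => φ i = b).card = nu b).card : ℚ) := by
  classical
  have E : ι ≃ Σ b : Fin s, Fin (nu b) := Fintype.equivOfCardEq (by simp [h])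
  set φ0 : ι → Fin s := fun i => (E i).1 with hφ0
  have hfib0 : ∀ b, Fintype.card {i // φ0 i = b} = nu b := by
    intro b
    have e1 : {i // φ0 i = b} ≃ {x : Σ b : Fin s, Fin (nu b) // x.1 = b} :=
      E.subtypeEquiv fun i => Iff.rfl
    rw [Fintype.card_congr (e1.trans (Equiv.sigmaSubtype b)), Fintype.card_fin]
  obtain ⟨e, he, hch⟩ := hPerm_idem (hPerm_stab φ0)
  refine ⟨e, he, fun w => ?_⟩
  have hc0 : (Nat.card (hPerm_stab φ0) : ℚ) ≠ 0 := by
    have : 0 < Nat.card (hPerm_stab φ0) := Nat.card_pos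
    exact_mod_cast this.ne'
  apply mul_left_cancel₀ hc0
  rw [hch w]
  -- the fibre over a colouring
  have key : {h : Equiv.Perm ι // h⁻¹ * w⁻¹ * h ∈ hPerm_stab φ0} ≃
      (hPerm_stab φ0) × {φ : ι → Fin s // φ ∘ w = φ ∧
        ∀ b, (Finset.univ.filter fun i => φ i = b).card = nu b} := by
    have hex : ∀ φ : ι → Fin s, (∀ b, (Finset.univ.filter fun i => φ i = b).card = nu b) →
        ∃ g : Equiv.Perm ι, ∀ i, φ0 (g i) = φ i := by
      intro φ hφ
      have e2 : ∀ b, Fintype.card {i // φ i = b} = Fintype.card {i // φ0 i = b} := by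
        intro b
        rw [hfib0, Fintype.card_subtype, hφ]
      exact ⟨Equiv.ofFiberEquiv fun b => Fintype.equivOfCardEq (e2 b), fun i =>
        Equiv.ofFiberEquiv_map _ i⟩
    choose! g hg using hex
    have hA : ∀ h : Equiv.Perm ι, ∀ b,
        (Finset.univ.filter fun i => (φ0 ∘ ⇑h⁻¹) i = b).card = nu b := by
      intro h b
      rw [← Fintype.card_subtype, ← hfib0 b]
      exact Fintype.card_congr ((h⁻¹).subtypeEquiv fun i => Iff.rfl)
    have hB : ∀ h : Equiv.Perm ι, h⁻¹ * w⁻¹ * h ∈ hPerm_stab φ0 →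
        (φ0 ∘ ⇑h⁻¹) ∘ ⇑w = φ0 ∘ ⇑h⁻¹ := by
      intro h hh
      funext j
      have h1 := (hPerm_mem _ _).1 hh (h⁻¹ (w j))
      have h2 : (h⁻¹ * w⁻¹ * h) (h⁻¹ (w j)) = h⁻¹ j := by
        simp only [Equiv.Perm.mul_apply]
        have h3 : h (h⁻¹ (w j)) = w j := Equiv.apply_symm_apply h _
        have h4 : w⁻¹ (w j) = j := Equiv.symm_apply_apply w _
        rw [h3, h4]
      rw [h2] at h1
      exact h1.symm
    have hC : ∀ h : Equiv.Perm ι, h⁻¹ * (g (φ0 ∘ ⇑h⁻¹))⁻¹ ∈ hPerm_stab φ0 := by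
      intro h i
      have h1 := hg (φ0 ∘ ⇑h⁻¹) (hA h) ((g (φ0 ∘ ⇑h⁻¹))⁻¹ i)
      have h2 : g (φ0 ∘ ⇑h⁻¹) ((g (φ0 ∘ ⇑h⁻¹))⁻¹ i) = i := Equiv.apply_symm_apply _ _
      rw [h2] at h1
      rw [h1]
      rfl
    have hD : ∀ (k : Equiv.Perm ι) (φ : ι → Fin s), k ∈ hPerm_stab φ0 →
        (∀ b, (Finset.univ.filter fun i => φ i = b).card = nu b) →
        φ0 ∘ ⇑(((k * g φ)⁻¹)⁻¹) = φ := by
      intro k φ hk hφ
      funext i
      rw [inv_inv, Function.comp_apply, Equiv.Perm.mul_apply, (hPerm_mem _ _).1 hk, hg φ hφ]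
    refine ⟨fun h => (⟨h.1⁻¹ * (g (φ0 ∘ ⇑h.1⁻¹))⁻¹, hC h.1⟩, ⟨φ0 ∘ ⇑h.1⁻¹, hB h.1 h.2, hA h.1⟩),
      fun p => ⟨(p.1.1 * g p.2.1)⁻¹, ?_⟩, ?_, ?_⟩
    · have hd := hD p.1.1 p.2.1 p.1.2 p.2.2.2
      have hw : ∀ j, p.2.1 (w j) = p.2.1 j := fun j => congrFun p.2.2.1 j
      intro i
      set hh := (p.1.1 * g p.2.1)⁻¹ with hhdef
      have h1 : φ0 (hh⁻¹ (w⁻¹ (hh i))) = p.2.1 (w⁻¹ (hh i)) := congrFun hd _
      have h2 : w (w⁻¹ (hh i)) = hh i := Equiv.apply_symm_apply w _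
      have h3 : p.2.1 (w⁻¹ (hh i)) = p.2.1 (hh i) := by
        have := hw (w⁻¹ (hh i))
        rw [h2] at this
        exact this.symm
      have h4 : φ0 (hh⁻¹ (hh i)) = p.2.1 (hh i) := congrFun hd _
      have h5 : hh⁻¹ (hh i) = i := Equiv.symm_apply_apply hh _
      rw [h5] at h4
      rw [Equiv.Perm.mul_apply, Equiv.Perm.mul_apply, h1, h3, ← h4]
    · intro h
      apply Subtype.ext
      simp
    · intro p
      have hd := hD p.1.1 p.2.1 p.1.2 p.2.2.2
      refine Prod.ext (Subtype.ext ?_) (Subtype.ext hd)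
      change ((p.1.1 * g p.2.1)⁻¹)⁻¹ * (g (φ0 ∘ ⇑(((p.1.1 * g p.2.1)⁻¹)⁻¹)))⁻¹ = p.1.1
      rw [hd]
      simp
  rw [Nat.card_congr key, Nat.card_prod, Nat.cast_mul]
  congr 1
  rw [Nat.card_eq_fintype_card, Fintype.card_subtype]

end Pool.Agent.Lib.MP_463376_co.Hs
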