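import Pool.Agent.Lib.MP_463376_co.H_Ortho

/-!
# Stream H: Young's rule
-/

set_option autoImplicit false

namespace Pool.Agent.Lib.MP_463376_co.Hs

open MvPolynomial

section
variable {K : Type} [Field K]

/-- a sum of values of an antitone function is at most the sum of its first values -/
private theorem hYoung_sum_le (f : ℕ → ℕ) (hf : Antitone f) (S : Finset ℕ) :
    ∑ i ∈ S, f i ≤ ∑ i ∈ Finset.range S.card, f i := by
  induction S using Finset.induction_on_max with
  | empty => simp
  | insert m S hm ih =>
    have hmS : m ∉ S := fun h => lt_irrefl _ (hm m h)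
    rw [Finset.sum_insert hmS, Finset.card_insert_of_notMem hmS, Finset.sum_range_succ, add_comm]
    refine add_le_add ih (hf ?_)
    have : S ⊆ Finset.range m := fun x hx => Finset.mem_range.2 (hm x hx)
    simpa using Finset.card_le_card this

/-- the `T`-degree of an exponent -/
private def hYoung_w {r : ℕ} (T : Finset (Fin r)) (m : Fin r →₀ ℕ) : ℕ := ∑ b ∈ T, m b

/-- multiply the variables of `T` by the new variable -/
private noncomputable def hYoung_th (K : Type) [Field K] {r : ℕ} (T : Finset (Fin r)) :
    MvPolynomial (Fin r) K →ₐ[K] Polynomial (MvPolynomial (Fin r) K) :=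
  aeval fun b => Polynomial.C (X b) * if b ∈ T then Polynomial.X else 1

private theorem hYoung_th_monomial {r : ℕ} (T : Finset (Fin r)) (m : Fin r →₀ ℕ) (c : K) :
    hYoung_th K T (monomial m c) = Polynomial.monomial (hYoung_w T m) (monomial m c) := by
  unfold hYoung_th
  rw [aeval_monomial, Finsupp.prod_fintype _ _ (fun i => pow_zero _)]
  have e1 : ∀ b : Fin r, (Polynomial.C (X b : MvPolynomial (Fin r) K) *
      if b ∈ T then Polynomial.X else 1) ^ m b =
      Polynomial.C ((X b : MvPolynomial (Fin r) K) ^ m b) *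
        (if b ∈ T then (Polynomial.X : Polynomial (MvPolynomial (Fin r) K)) ^ m b else 1) := by
    intro b
    rw [mul_pow, ← map_pow]
    split_ifs
    · rfl
    · rw [one_pow]
  rw [Finset.prod_congr rfl fun b _ => e1 b, Finset.prod_mul_distrib, Finset.prod_ite_mem,
    Finset.univ_inter, Finset.prod_pow_eq_pow_sum, ← map_prod]
  have e2 : (algebraMap K (Polynomial (MvPolynomial (Fin r) K))) c =
      Polynomial.C (C c : MvPolynomial (Fin r) K) := rfl
  rw [e2, ← mul_assoc, ← Polynomial.C_mul, ← Polynomial.C_mul_X_pow_eq_monomial]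
  congr 2
  rw [monomial_eq, Finsupp.prod_fintype _ _ (fun i => pow_zero _)]

private theorem hYoung_th_coeff {r : ℕ} (T : Finset (Fin r)) (f : MvPolynomial (Fin r) K)
    (m : Fin r →₀ ℕ) : ((hYoung_th K T f).coeff (hYoung_w T m)).coeff m = f.coeff m := by
  classical
  conv_lhs => rw [← MvPolynomial.support_sum_monomial_coeff f]
  rw [map_sum, Polynomial.finsetSum_coeff, MvPolynomial.coeff_sum]
  have e1 : ∀ x ∈ f.support, coeff m ((hYoung_th K T (monomial x (coeff x f))).coeff
      (hYoung_w T m)) = if x = m then coeff m f else 0 := by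
    intro x _
    rw [hYoung_th_monomial, Polynomial.coeff_monomial]
    by_cases hx : x = m
    · subst hx
      rw [if_pos rfl, if_pos rfl, coeff_monomial, if_pos rfl]
    · rw [if_neg hx]
      split_ifs
      · rw [coeff_monomial, if_neg hx]
      · rw [coeff_zero]
  rw [Finset.sum_congr rfl e1, Finset.sum_ite_eq']
  split_ifs with h
  · rfl
  · exact (MvPolynomial.notMem_support_iff.1 h).symm

private theorem hYoung_le_natDegree {r : ℕ} (T : Finset (Fin r)) (f : MvPolynomial (Fin r) K)
    (m : Fin r →₀ ℕ) (h : f.coeff m ≠ 0) : hYoung_w T m ≤ (hYoung_th K T f).natDegree := by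
  refine Polynomial.le_natDegree_of_ne_zero fun h0 => h ?_
  rw [← hYoung_th_coeff T f m, h0, coeff_zero]

private theorem hYoung_natDegree_le {r : ℕ} (T : Finset (Fin r)) (f : MvPolynomial (Fin r) K)
    (N : ℕ) (h : ∀ m, f.coeff m ≠ 0 → hYoung_w T m ≤ N) :
    (hYoung_th K T f).natDegree ≤ N := by
  conv_lhs => rw [← MvPolynomial.support_sum_monomial_coeff f]
  rw [map_sum]
  refine Polynomial.natDegree_sum_le_of_forall_le _ _ fun m hm => ?_
  rw [hYoung_th_monomial]
  exact (Polynomial.natDegree_monomial_le _).trans (h m (MvPolynomial.mem_support_iff.1 hm))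

private theorem hYoung_ne_zero {r : ℕ} (T : Finset (Fin r)) {f : MvPolynomial (Fin r) K}
    (h : f ≠ 0) : hYoung_th K T f ≠ 0 := by
  obtain ⟨m, hm⟩ := MvPolynomial.ne_zero_iff.1 h
  intro h0
  apply hm
  rw [← hYoung_th_coeff T f m, h0, Polynomial.coeff_zero, coeff_zero]

/-- coefficients of an alternant -/
private theorem hYoung_alt_coeff {r : ℕ} (a : Fin r → ℕ) (y : Fin r →₀ ℕ) :
    (alt K a).coeff y =
      ∑ σ : Equiv.Perm (Fin r), ((Equiv.Perm.sign σ : ℤ) : K) *
        (if vec (fun i => a (σ i)) = y then 1 else 0) := by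
  classical
  unfold alt
  rw [Matrix.det_apply, MvPolynomial.coeff_sum]
  refine Finset.sum_congr rfl fun σ _ => ?_
  have e1 : ∏ i : Fin r, (Matrix.of fun i j : Fin r => (X j : MvPolynomial (Fin r) K) ^ a i)
      (σ i) i = monomial (vec fun i => a (σ i)) 1 := by
    rw [monomial_eq, C_1, one_mul, Finsupp.prod_fintype _ _ (fun i => pow_zero _)]
    rfl
  rw [e1]
  have e2 : (Equiv.Perm.sign σ • (monomial (vec fun i => a (σ i)) (1 : K)) :
      MvPolynomial (Fin r) K) = C (((Equiv.Perm.sign σ : ℤ) : K)) *
        monomial (vec fun i => a (σ i)) 1 := by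
    rcases Int.units_eq_one_or (Equiv.Perm.sign σ) with h | h
    · rw [h]
      simp
    · rw [h]
      simp
  rw [e2, coeff_C_mul, coeff_monomial]

private theorem hYoung_alt_supp {r : ℕ} (a : Fin r → ℕ) (y : Fin r →₀ ℕ)
    (h : (alt K a).coeff y ≠ 0) : ∃ σ : Equiv.Perm (Fin r), ∀ i, y i = a (σ i) := by
  rw [hYoung_alt_coeff] at h
  obtain ⟨σ, _, hσ⟩ := Finset.exists_ne_zero_of_sum_ne_zero h
  refine ⟨σ, fun i => ?_⟩
  have h1 : vec (fun i => a (σ i)) = y := by
    by_contra hn
    rw [if_neg hn, mul_zero] at hσ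
    exact hσ rfl
  rw [← h1]
  rfl

private theorem hYoung_alt_perm {r : ℕ} (a : Fin r → ℕ) (ha : Function.Injective a)
    (σ : Equiv.Perm (Fin r)) : (alt K a).coeff (vec fun i => a (σ i)) ≠ 0 := by
  rw [hYoung_alt_coeff, Finset.sum_eq_single σ]
  · rw [if_pos rfl, mul_one]
    rcases Int.units_eq_one_or (Equiv.Perm.sign σ) with h | h
    · rw [h]
      simp
    · rw [h]
      simp
  · intro τ _ hτ
    rw [if_neg, mul_zero]
    intro h
    apply hτ
    ext i
    have h1 : a (τ i) = a (σ i) := DFunLike.congr_fun h i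
    rw [ha h1]
  · intro h
    exact absurd (Finset.mem_univ σ) h

private theorem hYoung_rho_anti (r : ℕ) : StrictAnti (rho r) := by
  intro i j hij
  have h1 : (i : ℕ) < j := hij
  have h2 := j.isLt
  unfold rho
  omega

private theorem hYoung_sum_filter {r : ℕ} (g : ℕ → ℕ) {t : ℕ} (ht : t ≤ r) :
    ∑ i ∈ Finset.univ.filter (fun i : Fin r => (i : ℕ) < t), g i = ∑ i ∈ Finset.range t, g i := by
  refine Finset.sum_bij (fun i _ => (i : ℕ)) ?_ ?_ ?_ ?_
  · intro i hi
    exact Finset.mem_range.2 (Finset.mem_filter.1 hi).2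
  · intro i _ j _ h
    exact Fin.ext h
  · intro j hj
    have hj' := Finset.mem_range.1 hj
    exact ⟨⟨j, by omega⟩, by simpa using hj', rfl⟩
  · intro i _
    rfl

/-- a permutation which maps `T` onto an initial segment -/
private theorem hYoung_exists_perm {r : ℕ} (T : Finset (Fin r)) (g : ℕ → ℕ) :
    ∃ σ : Equiv.Perm (Fin r), ∑ b ∈ T, g (σ b) = ∑ i ∈ Finset.range T.card, g i := by
  classical
  have hT : T.card ≤ r := by simpa using Finset.card_le_univ T
  have hcard : Fintype.card {b : Fin r // b ∈ T} =
      Fintype.card {i : Fin r // (i : ℕ) < T.card} := by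
    rw [Fintype.card_coe, Fintype.card_subtype]
    have h := hYoung_sum_filter (r := r) (fun _ => 1) hT
    simpa using h.symm
  have e : {b : Fin r // b ∈ T} ≃ {i : Fin r // (i : ℕ) < T.card} :=
    Fintype.equivOfCardEq hcard
  refine ⟨e.extendSubtype, ?_⟩
  rw [← hYoung_sum_filter g hT]
  refine Finset.sum_bij (fun b _ => e.extendSubtype b) ?_ ?_ ?_ ?_
  · intro b hb
    exact Finset.mem_filter.2 ⟨Finset.mem_univ _, e.extendSubtype_mem b hb⟩
  · intro b _ b' _ h
    exact e.extendSubtype.injective h
  · intro i hi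
    refine ⟨e.extendSubtype.symm i, ?_, Equiv.apply_symm_apply _ _⟩
    by_contra hn
    have h1 := e.extendSubtype_not_mem _ hn
    rw [Equiv.apply_symm_apply] at h1
    exact h1 (Finset.mem_filter.1 hi).2
  · intro b _
    rfl

end

section
variable {K : Type} [Field K] [CharZero K]

/-- the monomials of a Schur polynomial -/
theorem coeff_ev_schur {r : ℕ} (lam : YoungDiagram) (hr : lam.colLen 0 ≤ r) (a : Fin r → ℕ)
    (h : (ev K r (schur K lam)).coeff (vec a) ≠ 0) (T : Finset (Fin r)) :
    ∑ b ∈ T, a b ≤ ∑ i ∈ Finset.range T.card, lam.rowLen i := by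
  classical
  have hT : T.card ≤ r := by simpa using Finset.card_le_univ T
  set F := ev K r (schur K lam) with hF
  have hF0 : F ≠ 0 := by
    intro h0
    rw [h0, coeff_zero] at h
    exact h rfl
  have hmul : (hYoung_th K T (alt K fun i : Fin r => lam.rowLen i + rho r i)).natDegree =
      (hYoung_th K T F).natDegree + (hYoung_th K T (alt K (rho r))).natDegree := by
    rw [alt_schur lam hr, map_mul, Polynomial.natDegree_mul (hYoung_ne_zero T hF0)
      (hYoung_ne_zero T (alt_rho_ne_zero r))]
  have h1 : ∑ b ∈ T, a b ≤ (hYoung_th K T F).natDegree := hYoung_le_natDegree T F (vec a) h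
  have h2 : ∑ i ∈ Finset.range T.card, (r - 1 - i) ≤
      (hYoung_th K T (alt K (rho r))).natDegree := by
    obtain ⟨σ, hσ⟩ := hYoung_exists_perm T (fun i => r - 1 - i)
    rw [← hσ]
    exact hYoung_le_natDegree T (alt K (rho r)) (vec fun i => rho r (σ i))
      (hYoung_alt_perm (rho r) (hYoung_rho_anti r).injective σ)
  have h3 : (hYoung_th K T (alt K fun i : Fin r => lam.rowLen i + rho r i)).natDegree ≤
      ∑ i ∈ Finset.range T.card, (lam.rowLen i + (r - 1 - i)) := by
    refine hYoung_natDegree_le T _ _ fun m hm => ?_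
    obtain ⟨σ, hσ⟩ := hYoung_alt_supp _ _ hm
    unfold hYoung_w
    rw [Finset.sum_congr rfl fun b _ => hσ b]
    have e1 : ∑ b ∈ T, (lam.rowLen (σ b) + rho r (σ b)) =
        ∑ i ∈ T.image (fun b => ((σ b : Fin r) : ℕ)), (lam.rowLen i + (r - 1 - i)) := by
      rw [Finset.sum_image]
      · rfl
      · intro x _ y _ hxy
        exact σ.injective (Fin.ext hxy)
    have e2 : (T.image (fun b => ((σ b : Fin r) : ℕ))).card = T.card :=
      Finset.card_image_of_injective _ fun x y hxy => σ.injective (Fin.ext hxy)
    rw [e1, ← e2]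
    refine hYoung_sum_le (fun i => lam.rowLen i + (r - 1 - i)) ?_ _
    intro i j hij
    have := lam.rowLen_anti _ _ hij
    simp only
    omega
  rw [Finset.sum_add_distrib] at h3
  omega

theorem young_rule' {s : ℕ} (nu : Fin s → ℕ) (lam : YoungDiagram)
    (h : hall (∏ b, hS K (nu b)) (schur K lam) ≠ 0) :
    (∑ b, nu b = lam.card) ∧
      ∀ T : Finset (Fin s), ∑ b ∈ T, nu b ≤ ∑ i ∈ Finset.range T.card, lam.rowLen i := by
  classical
  constructor
  · by_contra hne
    have h1 : WH (∏ b, hS K (nu b)) (∑ b, nu b) :=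
      IsWeightedHomogeneous.prod Finset.univ (fun b => hS K (nu b)) nu fun b _ => hS_wh (nu b)
    exact h (hall_eq_zero_of_wh h1 (schur_wh lam) hne)
  · intro T
    set r := max s (lam.colLen 0) with hr
    have hsr : s ≤ r := le_max_left _ _
    set nu' : Fin r → ℕ := fun i => if hi : (i : ℕ) < s then nu ⟨i, hi⟩ else 0 with hnu'
    have hcast : ∀ b : Fin s, nu' (Fin.castLE hsr b) = nu b := by
      intro b
      simp [hnu']
    have hprod : ∏ b, hS K (nu' b) = ∏ b, hS K (nu b) := by
      have e1 : ∏ b : Fin s, hS K (nu b) =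
          ∏ i ∈ Finset.univ.map (Fin.castLEEmb hsr), hS K (nu' i) := by
        rw [Finset.prod_map]
        refine Finset.prod_congr rfl fun b _ => ?_
        rw [← hcast b]
        rfl
      rw [e1]
      symm
      refine Finset.prod_subset (Finset.subset_univ _) fun i _ hi => ?_
      have h0 : nu' i = 0 := by
        simp only [hnu']
        split_ifs with h1
        · exfalso
          apply hi
          rw [Finset.mem_map]
          exact ⟨⟨i, h1⟩, Finset.mem_univ _, rfl⟩
        · rfl
      rw [h0, hS]
    rw [← hprod, hall_comm, hall_prod_hS] at h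
    have h2 := coeff_ev_schur lam (le_max_right _ _) nu' h (T.map (Fin.castLEEmb hsr))
    rw [Finset.sum_map, Finset.card_map] at h2
    refine le_trans (le_of_eq ?_) h2
    refine Finset.sum_congr rfl fun b _ => ?_
    rw [← hcast b]
    rfl

/-- `⟨s_λ, h_λ⟩ = 1` -/
theorem hall_schur_h_self (lam : YoungDiagram) :
    hall (schur K lam) (∏ b : Fin (lam.colLen 0), hS K (lam.rowLen b)) = 1 := by
  classical
  set r := lam.colLen 0 with hr
  rw [hall_prod_hS]
  have h1 := hall_schur (schur K lam) lam hr.ge
  rw [schur_orthonormal', if_pos rfl, coeff_mul,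
    Finset.sum_eq_single (vec fun i : Fin r => lam.rowLen i, vec (rho r))] at h1
  · have h2 : (alt K (rho r)).coeff (vec (rho r)) = 1 := by
      rw [coeff_alt (hYoung_rho_anti r) (hYoung_rho_anti r), if_pos rfl]
    simp only at h1
    rw [h2, mul_one] at h1
    exact h1.symm
  · rintro ⟨x, y⟩ hxy hne
    simp only
    by_contra hprod
    have hx : (ev K r (schur K lam)).coeff x ≠ 0 := left_ne_zero_of_mul hprod
    have hy : (alt K (rho r)).coeff y ≠ 0 := right_ne_zero_of_mul hprod
    have hsum : ∀ i : Fin r, x i + y i = lam.rowLen i + rho r i := by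
      intro i
      have h3 : x + y = vec fun i : Fin r => lam.rowLen i + rho r i :=
        Finset.HasAntidiagonal.mem_antidiagonal.1 hxy
      have h4 := DFunLike.congr_fun h3 i
      simpa using h4
    obtain ⟨σ, hσ⟩ := hYoung_alt_supp _ _ hy
    have hxv : x = vec fun i => x i := Finsupp.ext fun i => rfl
    rw [hxv] at hx
    -- `y j = ρ j` by strong induction
    have key : ∀ n : ℕ, ∀ j : Fin r, (j : ℕ) = n → y j = rho r j := by
      intro n
      induction n using Nat.strong_induction_on with
      | _ n ih =>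
        intro j hj
        have hprev : ∀ i : Fin r, i < j → y i = rho r i := fun i hi =>
          ih i (by rw [← hj]; exact hi) i rfl
        -- upper bound
        have hσj : ¬ σ j < j := by
          intro hlt
          have e1 := hprev _ hlt
          rw [hσ] at e1
          have e2 := (hYoung_rho_anti r).injective e1
          exact absurd (σ.injective e2) (ne_of_lt hlt)
        have hup : y j ≤ rho r j := by
          rw [hσ j]
          exact (hYoung_rho_anti r).antitone (not_lt.1 hσj)
        -- lower bound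
        have hlow := coeff_ev_schur lam hr.ge (fun i => x i) hx
          (Finset.univ.filter fun i : Fin r => (i : ℕ) < n + 1)
        have hn : n + 1 ≤ r := by
          rw [← hj]
          exact j.isLt
        have hc : (Finset.univ.filter fun i : Fin r => (i : ℕ) < n + 1).card = n + 1 := by
          have h := hYoung_sum_filter (r := r) (fun _ => 1) hn
          simpa using h
        rw [hc, ← hYoung_sum_filter (r := r) lam.rowLen hn] at hlow
        have hsum2 : ∑ i ∈ Finset.univ.filter (fun i : Fin r => (i : ℕ) < n + 1), x i +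
            ∑ i ∈ Finset.univ.filter (fun i : Fin r => (i : ℕ) < n + 1), y i =
            ∑ i ∈ Finset.univ.filter (fun i : Fin r => (i : ℕ) < n + 1), lam.rowLen i +
            ∑ i ∈ Finset.univ.filter (fun i : Fin r => (i : ℕ) < n + 1), rho r i := by
          rw [← Finset.sum_add_distrib, ← Finset.sum_add_distrib]
          exact Finset.sum_congr rfl fun i _ => hsum i
        have hjm : j ∈ Finset.univ.filter (fun i : Fin r => (i : ℕ) < n + 1) := by
          simp [hj]
        rw [← Finset.add_sum_erase _ y hjm, ← Finset.add_sum_erase _ (rho r) hjm] at hsum2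
        have herase : ∑ i ∈ (Finset.univ.filter (fun i : Fin r => (i : ℕ) < n + 1)).erase j, y i =
            ∑ i ∈ (Finset.univ.filter (fun i : Fin r => (i : ℕ) < n + 1)).erase j, rho r i := by
          refine Finset.sum_congr rfl fun i hi => hprev i ?_
          have h5 := Finset.ne_of_mem_erase hi
          have h6 : (i : ℕ) < n + 1 := (Finset.mem_filter.1 (Finset.mem_of_mem_erase hi)).2
          have h7 : (i : ℕ) ≠ j := fun h => h5 (Fin.ext h)
          exact Fin.lt_def.2 (by omega)
        rw [herase] at hsum2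
        omega
    apply hne
    have hy' : y = vec (rho r) := Finsupp.ext fun j => key j j rfl
    have hx' : x = vec fun i : Fin r => lam.rowLen i := Finsupp.ext fun j => by
      have h3 := hsum j
      have h4 := key j j rfl
      change x j = lam.rowLen j
      omega
    rw [← hx', ← hy']
  · intro hn
    exfalso
    apply hn
    rw [Finset.HasAntidiagonal.mem_antidiagonal]
    exact Finsupp.ext fun j => rfl

end

end Pool.Agent.Lib.MP_463376_co.Hs
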