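import Mathlib
import Pool.Agent.Lib.MP_463376_co.H_Idem
import Pool.Agent.Lib.MP_463376_co.H_Perm
import Pool.Agent.Lib.MP_463376_co.H_Pars
import Pool.Agent.Lib.MP_463376_co.H_Young

/-!
# Stream H: primitive idempotents of the symmetric group
-/

set_option autoImplicit false

namespace Pool.Agent.Lib.MP_463376_co.Hs

open MvPolynomial

theorem hprim_sum_rowLen (lam : YoungDiagram) :
    ∑ b : Fin (lam.colLen 0), lam.rowLen b = lam.card := by
  have h := hall_schur_h_self (K := ℚ) lam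
  rw [hall_comm] at h
  exact (young_rule' (K := ℚ) (fun b : Fin (lam.colLen 0) => lam.rowLen b) lam
    (by rw [h]; exact one_ne_zero)).1

theorem hprim_tch_zero {G : Type} [Group G] [Fintype G] [DecidableEq G] (g : G) :
    tch (0 : MonoidAlgebra ℚ G) g = 0 := by
  simp [tch]

/-- each term of the Jacobi-Trudi expansion is the character of an idempotent -/
theorem hprim_term {ι : Type} [Fintype ι] [DecidableEq ι] {r : ℕ} (a : Fin r → ℤ)
    (ha : ∑ b, a b = (Fintype.card ι : ℤ)) :
    ∃ e : MonoidAlgebra ℚ (Equiv.Perm ι), e * e = e ∧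
      ∀ w, tch e w = hall (pcyc ℚ w) (∏ b, hZ ℚ (a b)) := by
  by_cases h : ∀ b, 0 ≤ a b
  · obtain ⟨e, he, hw⟩ := exists_perm_idem (ι := ι) (fun b => (a b).toNat) (by
      have h1 : ((∑ b, (a b).toNat : ℕ) : ℤ) = (Fintype.card ι : ℤ) := by
        rw [← ha]
        push_cast
        exact Finset.sum_congr rfl fun b _ => Int.toNat_of_nonneg (h b)
      exact_mod_cast h1)
    refine ⟨e, he, fun w => ?_⟩
    have h2 : ∏ b, hZ ℚ (a b) = ∏ b, hS ℚ (a b).toNat := by
      refine Finset.prod_congr rfl fun b _ => ?_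
      rw [hZ, if_neg (not_lt.2 (h b))]
    rw [hw w, h2, hall_pcyc_hS]
  · refine ⟨0, by simp, fun w => ?_⟩
    rw [not_forall] at h
    obtain ⟨b, hb⟩ := h
    have h2 : ∏ b, hZ ℚ (a b) = 0 :=
      Finset.prod_eq_zero (Finset.mem_univ b) (by rw [hZ, if_pos (not_le.1 hb)])
    rw [h2, hall_zero_right, hprim_tch_zero]

/-- `⟨p_w, s_λ⟩` is the character of an idempotent -/
theorem exists_schur_idem {ι : Type} [Fintype ι] [DecidableEq ι] (lam : YoungDiagram)
    (hl : lam.card = Fintype.card ι) :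
    ∃ e : MonoidAlgebra ℚ (Equiv.Perm ι), e * e = e ∧
      ∀ w, tch e w = hall (pcyc ℚ w) (schur ℚ lam) := by
  classical
  have hfac : (((Fintype.card ι).factorial : ℕ) : ℚ) ≠ 0 := by
    exact_mod_cast (Nat.factorial_ne_zero _)
  have hcard : (Fintype.card (Equiv.Perm ι) : ℚ) = ((Fintype.card ι).factorial : ℕ) := by
    rw [Fintype.card_perm]
  -- the pairing of the character with a homogeneous symmetric function
  have hpair : ∀ g : Sym ℚ, ∑ w : Equiv.Perm ι, hall (pcyc ℚ w) (schur ℚ lam) * hall (pcyc ℚ w) g =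
      (((Fintype.card ι).factorial : ℕ) : ℚ) * hall (schur ℚ lam) g := by
    intro g
    have h1 := hall_frob (fun w : Equiv.Perm ι => hall (pcyc ℚ w) (schur ℚ lam)) g
    rw [parseval (schur ℚ lam) (by rw [← hl]; exact schur_wh lam)] at h1
    rw [h1, ← mul_assoc, mul_inv_cancel₀ hfac, one_mul]
  have hsum : ∀ σ : Equiv.Perm (Fin (lam.colLen 0)),
      ∑ i, ((lam.rowLen (σ i) : ℤ) - ((σ i : Fin (lam.colLen 0)) : ℕ) + ((i : Fin _) : ℕ)) =
        (Fintype.card ι : ℤ) := by
    intro σ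
    rw [Finset.sum_add_distrib, Finset.sum_sub_distrib,
      Equiv.sum_comp σ (fun i : Fin (lam.colLen 0) => (lam.rowLen i : ℤ)),
      Equiv.sum_comp σ (fun i : Fin (lam.colLen 0) => ((i : ℕ) : ℤ)), sub_add_cancel, ← hl,
      ← hprim_sum_rowLen lam]
    push_cast
    rfl
  choose e he hw using fun σ => hprim_term (ι := ι) _ (hsum σ)
  have hchi : ∀ w : Equiv.Perm ι, hall (pcyc ℚ w) (schur ℚ lam) =
      ∑ σ : Equiv.Perm (Fin (lam.colLen 0)), (((Equiv.Perm.sign σ : ℤˣ) : ℤ) : ℚ) *
        tch (e σ) w := by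
    intro w
    rw [schur, Matrix.det_apply, hall_sum_right]
    refine Finset.sum_congr rfl fun σ _ => ?_
    rw [hw σ w]
    have h1 : Equiv.Perm.sign σ • ∏ i, (Matrix.of fun i j : Fin (lam.colLen 0) =>
        hZ ℚ ((lam.rowLen i : ℤ) - (i : ℤ) + (j : ℤ))) (σ i) i =
        C (((Equiv.Perm.sign σ : ℤˣ) : ℤ) : ℚ) * ∏ i, hZ ℚ ((lam.rowLen (σ i) : ℤ) -
          ((σ i : Fin (lam.colLen 0)) : ℕ) + ((i : Fin _) : ℕ)) := by
      rw [Units.smul_def, zsmul_eq_mul]
      simp
    rw [h1, hall_C_mul_right]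
  have hsplit : ∀ w : Equiv.Perm ι, hall (pcyc ℚ w) (schur ℚ lam) =
      ((((Finset.univ.filter fun σ : Equiv.Perm (Fin (lam.colLen 0)) =>
        Equiv.Perm.sign σ = 1).toList.map e).map fun x => tch x w).sum) -
      ((((Finset.univ.filter fun σ : Equiv.Perm (Fin (lam.colLen 0)) =>
        ¬ Equiv.Perm.sign σ = 1).toList.map e).map fun x => tch x w).sum) := by
    intro w
    rw [hchi w, List.map_map, List.map_map, Finset.sum_map_toList, Finset.sum_map_toList,
      ← Finset.sum_filter_add_sum_filter_not Finset.univ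
        (fun σ : Equiv.Perm (Fin (lam.colLen 0)) => Equiv.Perm.sign σ = 1), sub_eq_add_neg,
      ← Finset.sum_neg_distrib]
    congr 1
    · refine Finset.sum_congr rfl fun σ hσ => ?_
      rw [(Finset.mem_filter.1 hσ).2]
      simp
    · refine Finset.sum_congr rfl fun σ hσ => ?_
      have h1 : Equiv.Perm.sign σ = -1 := by
        rcases Int.units_eq_one_or (Equiv.Perm.sign σ) with h | h
        · exact absurd h (Finset.mem_filter.1 hσ).2
        · exact h
      rw [h1]
      simp
  obtain ⟨u, hu, huw⟩ := exists_perm_idem (ι := ι)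
    (fun b : Fin (lam.colLen 0) => lam.rowLen b) ((hprim_sum_rowLen lam).trans hl)
  refine exists_idem _ _ ?_ ?_ (fun w => hall (pcyc ℚ w) (schur ℚ lam)) hsplit ?_ u hu ?_
  · intro x hx
    obtain ⟨σ, -, rfl⟩ := List.mem_map.1 hx
    exact he σ
  · intro x hx
    obtain ⟨σ, -, rfl⟩ := List.mem_map.1 hx
    exact he σ
  · simp only [pcyc_inv]
    rw [hpair, schur_orthonormal', if_pos rfl, mul_one, hcard]
  · simp only [pcyc_inv]
    have h1 : ∀ w : Equiv.Perm ι, tch u w =
        hall (pcyc ℚ w) (∏ b : Fin (lam.colLen 0), hS ℚ (lam.rowLen b)) := by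
      intro w
      rw [huw w, hall_pcyc_hS]
    simp only [h1]
    rw [hpair, hall_schur_h_self, mul_one]
    exact_mod_cast Nat.factorial_pos _

theorem hprim_coeff_mul {G : Type} [Group G] [Fintype G] [DecidableEq G]
    (x y : MonoidAlgebra ℚ G) (g : G) :
    (x * y).coeff g = ∑ h, x.coeff h * y.coeff (h⁻¹ * g) := by
  rw [MonoidAlgebra.coeff_mul_antidiag x y g
    (Finset.univ.map ⟨fun h => (h, h⁻¹ * g), fun a b hab => (Prod.ext_iff.1 hab).1⟩)]
  · rw [Finset.sum_map]
    rfl
  · rintro ⟨a, b⟩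
    rw [Finset.mem_map]
    constructor
    · rintro ⟨h, -, hh⟩
      have h1 : h = a := congrArg Prod.fst hh
      have h2 : h⁻¹ * g = b := congrArg Prod.snd hh
      rw [← h1, ← h2]
      simp
    · intro h
      have h' : a * b = g := h
      have h2 : a⁻¹ * g = b := by rw [← h', inv_mul_cancel_left]
      exact ⟨a, Finset.mem_univ _, Prod.ext rfl h2⟩

theorem exists_idempotent' (n : ℕ) (lam : YoungDiagram) (hl : lam.card = n) :
    ∃ e : Equiv.Perm (Fin n) → ℚ, (∀ g, ∑ h, e h * e (h⁻¹ * g) = e g) ∧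
      ∀ (K : Type) [Field K] [CharZero K] (f : Equiv.Perm (Fin n) → K),
        (∀ w w', f (w * w' * w⁻¹) = f w') →
        ∑ g : Equiv.Perm (Fin n), algebraMap ℚ K (e g) * f g = hall (frob f) (schur K lam) := by
  obtain ⟨e, he, hw⟩ := exists_schur_idem (ι := Fin n) lam (by rw [hl, Fintype.card_fin])
  refine ⟨fun g => e.coeff g, fun g => ?_, fun K _ _ f hf => ?_⟩
  · have h1 := congrArg (fun x : MonoidAlgebra ℚ (Equiv.Perm (Fin n)) => x.coeff g) he
    simp only [hprim_coeff_mul] at h1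
    exact h1
  · have hfac : (((Fintype.card (Fin n)).factorial : ℕ) : K) ≠ 0 := by
      exact_mod_cast (Nat.factorial_ne_zero _)
    rw [hall_frob, eq_inv_mul_iff_mul_eq₀ hfac]
    have h1 : ∀ w : Equiv.Perm (Fin n), hall (pcyc K w) (schur K lam) =
        algebraMap ℚ K (tch e w) := by
      intro w
      rw [hw w, ← hall_map, pcyc_map, schur_map]
    have h2 : ∀ w : Equiv.Perm (Fin n), tch e w = ∑ h, e.coeff (h⁻¹ * w * h) := by
      intro w
      have h3 : tch e w = tch e w⁻¹ := by rw [hw, hw, pcyc_inv]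
      rw [h3, tch]
      simp
    calc (((Fintype.card (Fin n)).factorial : ℕ) : K) *
          ∑ g : Equiv.Perm (Fin n), algebraMap ℚ K (e.coeff g) * f g
        = ∑ h : Equiv.Perm (Fin n), ∑ g : Equiv.Perm (Fin n),
            algebraMap ℚ K (e.coeff g) * f g := by
          rw [Finset.sum_const, Finset.card_univ, Fintype.card_perm, nsmul_eq_mul]
      _ = ∑ h : Equiv.Perm (Fin n), ∑ g : Equiv.Perm (Fin n),
            algebraMap ℚ K (e.coeff (h⁻¹ * g * h)) * f g := by
          refine Finset.sum_congr rfl fun h _ => ?_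
          refine Fintype.sum_equiv (MulAut.conj h).toEquiv _ _ fun g => ?_
          simp only [MulEquiv.toEquiv_eq_coe, EquivLike.coe_coe, MulAut.conj_apply]
          rw [hf h g]
          congr 3
          group
      _ = ∑ g : Equiv.Perm (Fin n), f g * hall (pcyc K g) (schur K lam) := by
          rw [Finset.sum_comm]
          refine Finset.sum_congr rfl fun g _ => ?_
          rw [h1, h2, map_sum, ← Finset.sum_mul, mul_comm]

end Pool.Agent.Lib.MP_463376_co.Hs
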