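import Pool.Agent.Lib.MP_463376_co.H_Omega
import Pool.Agent.Lib.MP_463376_co.H_Lead
import Pool.Agent.Lib.MP_463376_co.H_Expand

/-!
# Stream H: uniqueness of the modified Macdonald polynomials
-/

set_option autoImplicit false

namespace Pool.Agent.Lib.MP_463376_co.Hs

open MvPolynomial

theorem hUniq_wh_omega {K : Type} [Field K] [CharZero K] {f : Sym K} {n : ℕ} (hf : WH f n) :
    WH (omega K f) n := by
  intro m hm
  rw [coeff_omega] at hm
  exact hf (right_ne_zero_of_mul hm)

/-- the two triangularities at the limit point -/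
theorem limit_eq_zero (mu : YoungDiagram) (D : Sym ℚ) (hD : WH D mu.card)
    (h1 : ∀ lam, ¬ Dom lam mu → hall (omega ℚ D) (schur ℚ lam) = 0)
    (h2 : ∀ lam, ¬ Dom lam mu.transpose → hall D (schur ℚ lam) = 0)
    (h3 : hall D (schur ℚ mu.transpose) = 0) : D = 0 := by
  obtain ⟨s, hs⟩ := exists_partitions mu.card
  have e1 := schur_expand' D mu.card hD s hs
  have e2 := schur_expand' (omega ℚ D) mu.card (hUniq_wh_omega hD) s hs
  have hoo : omega ℚ (omega ℚ D) = D := by
    ext m
    rw [coeff_omega, coeff_omega, ← mul_assoc, ← Finsupp.prod_mul]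
    have : (m.prod fun i e => (-1 : ℚ) ^ (i * e) * (-1 : ℚ) ^ (i * e)) = 1 := by
      refine Finset.prod_eq_one fun i _ => ?_
      beta_reduce
      rw [← mul_pow]
      norm_num
    rw [this, one_mul]
  apply hall_self_pos
  have e3 : hall D D = ∑ lam ∈ s, ∑ kap ∈ s, hall D (schur ℚ lam) *
      (hall (omega ℚ D) (schur ℚ kap) * hall (schur ℚ lam) (omega ℚ (schur ℚ kap))) := by
    have h4 : hall D D = hall D (omega ℚ (omega ℚ D)) := by rw [hoo]
    rw [h4]
    have h5 : omega ℚ (omega ℚ D) =
        ∑ kap ∈ s, C (hall (omega ℚ D) (schur ℚ kap)) * omega ℚ (schur ℚ kap) := by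
      conv_lhs => rw [e2]
      rw [map_sum]
      refine Finset.sum_congr rfl fun kap _ => ?_
      rw [map_mul]
      congr 1
      exact (omega ℚ).commutes _
    rw [h5]
    refine (congrArg (fun z => hall z (∑ kap ∈ s, C (hall (omega ℚ D) (schur ℚ kap)) *
      omega ℚ (schur ℚ kap))) e1).trans ?_
    rw [hall_sum_left]
    refine Finset.sum_congr rfl fun lam _ => ?_
    rw [hall_C_mul_left, hall_sum_right, Finset.mul_sum]
    refine Finset.sum_congr rfl fun kap _ => ?_
    rw [hall_C_mul_right]
  rw [e3]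
  refine Finset.sum_eq_zero fun lam hlam => Finset.sum_eq_zero fun kap hkap => ?_
  by_contra hne
  have n1 := left_ne_zero_of_mul hne
  have n2 := left_ne_zero_of_mul (right_ne_zero_of_mul hne)
  have n3 := right_ne_zero_of_mul (right_ne_zero_of_mul hne)
  have d1 : Dom lam mu.transpose := by
    by_contra hc
    exact n1 (h2 lam hc)
  have d2 : Dom kap mu := by
    by_contra hc
    exact n2 (h1 kap hc)
  have d3 : Dom kap.transpose lam := by
    refine ⟨?_, fun m => schur_omega_schur lam kap n3 m⟩
    rw [card_transpose, (hs kap).1 hkap, (hs lam).1 hlam]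
  have d4 := dom_antisymm d1 (dom_trans (dom_transpose d2) d3)
  apply n1
  rw [d4]
  exact h3

theorem hUniq_span {K : Type} [Field K] [CharZero K] {nu lam : YoungDiagram} {x : Sym K}
    (hx : x ∈ Submodule.span K {f | ∃ lam, Dom lam nu ∧ f = schur K lam})
    (hlam : ¬ Dom lam nu) : hall x (schur K lam) = 0 := by
  classical
  induction hx using Submodule.span_induction with
  | mem f hf =>
    obtain ⟨kap, hk, rfl⟩ := hf
    rw [schur_orthonormal', if_neg]
    rintro rfl
    exact hlam hk
  | zero => exact hall_zero_left _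
  | add f g _ _ hf hg => rw [hall_add_left, hf, hg, add_zero]
  | smul c f _ hf => rw [hall_smul_left, hf, mul_zero]

theorem hUniq_span_wh {K : Type} [Field K] [CharZero K] {nu : YoungDiagram} {x : Sym K}
    (hx : x ∈ Submodule.span K {f | ∃ lam, Dom lam nu ∧ f = schur K lam}) :
    WH x nu.card := by
  have : Submodule.span K {f | ∃ lam, Dom lam nu ∧ f = schur K lam} ≤
      weightedHomogeneousSubmodule K (fun i : ℕ => i + 1) nu.card := by
    rw [Submodule.span_le]
    rintro _ ⟨lam, hl, rfl⟩
    have := schur_wh (K := K) lam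
    rw [hl.1] at this
    exact this
  exact this hx

theorem hUniq_q_ne (i : ℕ) : (1 : Kqt) - qq ^ (i + 1) ≠ 0 := by
  intro h
  have h1 : algebraMap (MvPolynomial (Fin 2) ℚ) Kqt (1 - X 0 ^ (i + 1)) = 0 := by
    rw [map_sub, map_pow, map_one]
    exact h
  rw [FaithfulSMul.algebraMap_eq_zero_iff] at h1
  have h2 := congrArg (eval (0 : Fin 2 → ℚ)) h1
  simp at h2

theorem hUniq_wh {D : Sym Kqt} {n : ℕ} (h : WH (plethOne qq D) n) : WH D n := by
  intro m hm
  refine h (d := m) ?_
  rw [plethOne_coeff]
  refine mul_ne_zero ?_ hm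
  exact Finset.prod_ne_zero_iff.2 fun i _ => pow_ne_zero _ (hUniq_q_ne i)

theorem hUniq_claim (mu : YoungDiagram) (D : Sym Kqt)
    (hq : plethOne qq D ∈ Submodule.span Kqt {f | ∃ lam, Dom lam mu ∧ f = schur Kqt lam})
    (ht : plethOne tt D ∈
      Submodule.span Kqt {f | ∃ lam, Dom lam mu.transpose ∧ f = schur Kqt lam})
    (h0 : hall D (schur Kqt mu.transpose) = 0) : D = 0 := by
  by_contra hD
  obtain ⟨D', hD', hwh, g1, g2, g3⟩ := exists_leading D hD (hUniq_wh (hUniq_span_wh hq))
  apply hD'
  refine limit_eq_zero mu D' hwh (fun lam hl => ?_) (fun lam hl => ?_) ?_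
  · apply g3
    rw [schur_map]
    exact hUniq_span hq hl
  · apply g2
    rw [schur_map]
    exact hUniq_span ht hl
  · apply g1
    rw [schur_map]
    exact h0

theorem hUniq_pleth (u c c' : Kqt) (H H' : Sym Kqt) {S : Submodule Kqt (Sym Kqt)}
    (h : plethOne u H ∈ S) (h' : plethOne u H' ∈ S) :
    plethOne u (C c * H - C c' * H') ∈ S := by
  have e : plethOne u (C c * H - C c' * H') = c • plethOne u H - c' • plethOne u H' := by
    rw [← smul_eq_C_mul, ← smul_eq_C_mul, map_sub, map_smul, map_smul]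
  rw [e]
  exact S.sub_mem (S.smul_mem _ h) (S.smul_mem _ h')

theorem isModMac_unique' (mu : YoungDiagram) (H H' : Sym Kqt) (h : IsModMac mu H)
    (h' : IsModMac mu H') : H = H' := by
  set c := hall H' (schur Kqt mu.transpose) with hc
  set c' := hall H (schur Kqt mu.transpose) with hc'
  have hD : C c * H - C c' * H' = 0 := by
    refine hUniq_claim mu _ (hUniq_pleth _ c c' H H' h.tri_q h'.tri_q)
      (hUniq_pleth _ c c' H H' h.tri_t h'.tri_t) ?_
    rw [hall_sub_left, hall_C_mul_left, hall_C_mul_left, ← hc, ← hc']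
    ring
  have hcc : c = c' := by
    have := congrArg (fun x => hall x (schur Kqt (rowD mu.card))) hD
    simp only [hall_sub_left, hall_C_mul_left, h.norm, h'.norm, hall_zero_left, mul_one] at this
    exact sub_eq_zero.1 this
  have hc0 : c ≠ 0 := by
    intro h0
    have hz : H' = 0 := hUniq_claim mu H' h'.tri_q h'.tri_t (by rw [← hc, h0])
    have := h'.norm
    rw [hz, hall_zero_left] at this
    exact zero_ne_one this
  rw [← hcc, ← mul_sub] at hD
  rcases mul_eq_zero.1 hD with h1 | h1
  · exact absurd (C_injective ℕ Kqt (h1.trans (map_zero C).symm)) hc0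
  · exact sub_eq_zero.1 h1

end Pool.Agent.Lib.MP_463376_co.Hs
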