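import Pool.Agent.Lib.MP_463376_co.Defs
import Pool.Agent.Lib.MP_463376_co.A_Flat

/-! PART 1: basis theorem and flatness over k[y] (stream A) -/

namespace Pool.Agent.Lib.MP_463376_co

open MvPolynomial RingTheory.Sequence

section
variable {k : Type} [Field k] {ι : Type} [Fintype ι] [DecidableEq ι]

/-- the removal time of `i` -/
noncomputable def tm (l : ι →₀ ℕ) (i : ι) : ℕ :=
  Fintype.card ι * l i + (Fintype.card ι - 1 - ((Fintype.equivFin ι i : Fin (Fintype.card ι)) : ℕ))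

/-- `b_{ij}(l)` -/
noncomputable def bgap (l : ι →₀ ℕ) (i j : ι) : ℕ :=
  (max (tm l i) (tm l j) - min (tm l i) (tm l j)) / Fintype.card ι

/-- the order of exponents: `l' ≺ l` -/
def precE (l' l : ι →₀ ℕ) : Prop :=
  ∃ t : ℕ, t ∈ Set.range (tm l) ∧ t ∉ Set.range (tm l') ∧
    ∀ s < t, (s ∈ Set.range (tm l) ↔ s ∈ Set.range (tm l'))

/-- leading coefficient of the basis element with index `l` of `J^(d)` -/
noncomputable def piL (k : Type) [Field k] {ι : Type} [Fintype ι] [DecidableEq ι]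
    (d : ℕ) (l : ι →₀ ℕ) : BB k ι :=
  ∏ i : ι, ∏ j : ι, if Fintype.equivFin ι i < Fintype.equivFin ι j then
    (X i - X j) ^ (d - bgap l i j) else 1

/-- the coefficient in `k[y]` of the monomial `x^l` -/
noncomputable def coeffX (l : ι →₀ ℕ) (f : RR k ι) : BB k ι :=
  (sumAlgEquiv k ι ι f).coeff l

/-- PART 1, Theorem 1 -/
theorem basis_theorem (k : Type) [Field k] [CharZero k] (ι : Type) [Fintype ι] [DecidableEq ι]
    (d : ℕ) :
    ∃ b : (ι →₀ ℕ) → RR k ι,
      (∀ l, b l ∈ Jd k ι d) ∧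
      (∀ l, coeffX l (b l) = piL k d l) ∧
      (∀ l l', coeffX l' (b l) ≠ 0 → l' = l ∨ precE l' l) ∧
      (∀ l l', coeffX l' (b l) ≠ 0 → ∑ i, l' i = ∑ i, l i) ∧
      (∀ f ∈ Jd k ι d, ∃! c : (ι →₀ ℕ) →₀ BB k ι, f = c.sum fun l a => yB a * b l) ∧
      (∀ f ∈ Jd k ι d, ∀ l, (∀ l', coeffX l' f ≠ 0 → l' = l ∨ precE l' l) →
        piL k d l ∣ coeffX l f) := by
  have htm : ∀ (l : ι →₀ ℕ) (i : ι), tm l i = StrA.r0 ι i + Fintype.card ι * l i := by
    intro l i
    unfold tm StrA.r0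
    rw [add_comm]
  have hpi : ∀ l : ι →₀ ℕ, piL k d l = StrA.ldc k d l := by
    intro l
    unfold piL StrA.ldc StrA.prd StrA.fn bgap
    simp only [htm, Finset.mem_univ, if_true]
  have hRT : ∀ (l : ι →₀ ℕ) (t : ℕ), t ∈ Set.range (tm l) ↔
      StrA.RT (Fintype.card ι) Finset.univ (StrA.r0 ι) l t := by
    intro l t
    unfold StrA.RT
    simp only [Set.mem_range, htm, Finset.mem_univ, true_and]
  have hpr : ∀ l' l : ι →₀ ℕ, precE l' l ↔ StrA.pr l' l := by
    intro l' l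
    unfold precE StrA.pr StrA.prec
    simp only [hRT]
  have hco : ∀ (l : ι →₀ ℕ) (f : RR k ι), coeffX l f = coeff l (StrA.EE k ι f) :=
    fun l f => rfl
  choose bW hb1 hb2 hb3 using StrA.exists_el0 (ι := ι) k d
  have hE : ∀ l, StrA.EE k ι ((StrA.EE k ι).symm (bW l)) = bW l :=
    fun l => (StrA.EE k ι).apply_symm_apply (bW l)
  have hsum : ∀ c : (ι →₀ ℕ) →₀ BB k ι,
      StrA.EE k ι (c.sum fun l a => yB a * (StrA.EE k ι).symm (bW l)) =
        c.sum fun l a => a • bW l := by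
    intro c
    rw [Finsupp.sum, map_sum, Finsupp.sum]
    refine Finset.sum_congr rfl fun l _ => ?_
    rw [map_mul, StrA.EE_yB, hE, smul_eq_C_mul]
  refine ⟨fun l => (StrA.EE k ι).symm (bW l), ?_, ?_, ?_, ?_, ?_, ?_⟩
  · intro l
    rw [StrA.mem_Jd_iff, hE]
    exact (hb1 l).1
  · intro l
    rw [hco, hE, hpi]
    exact hb2 l
  · intro l l' h
    rw [hco, hE] at h
    rw [hpr]
    exact hb3 l l' h
  · intro l l' h
    rw [hco, hE] at h
    rw [← Finsupp.degree_eq_sum, ← Finsupp.degree_eq_sum]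
    exact StrA.mem_HH.1 (hb1 l).2 l' h
  · intro f hf
    rw [StrA.mem_Jd_iff] at hf
    obtain ⟨c, hc⟩ := StrA.span_aux hb1 hb2 hb3
      ((StrA.EE k ι f).support.sup Finsupp.degree) hf
      (fun l hl => Finset.le_sup (f := Finsupp.degree) (mem_support_iff.2 hl))
    refine ⟨c, ?_, ?_⟩
    · apply (StrA.EE k ι).injective
      rw [hsum, hc]
    · intro c' hc'
      have h1 : StrA.EE k ι f = c'.sum fun l a => a • bW l := by
        rw [← hsum, ← hc']
      rw [hc] at h1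
      have h2 : ((c' - c).sum fun l a => a • bW l) = 0 := by
        rw [Finsupp.sum_sub_index (fun l a a' => by rw [sub_smul]), ← h1, sub_self]
      exact sub_eq_zero.1 (StrA.unique_aux hb2 hb3 _ h2)
  · intro f hf l h
    rw [StrA.mem_Jd_iff] at hf
    rw [hpi, hco]
    apply StrA.dvd_lead0 hf
    intro l' hl'
    rw [← hpr]
    exact h l' hl'

end

section

variable (k : Type) [Field k] [CharZero k] {ι : Type} [Fintype ι] [DecidableEq ι]
  (L : Type) [Field L] [Algebra k L] [Algebra (RR k ι) L]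
  [IsScalarTower k (RR k ι) L] [IsFractionRing (RR k ι) L] (δ : Dia ι)

omit [CharZero k] in
theorem mem_PP_iff (g : L) :
    g ∈ PP k L δ ↔ ∃ d : ℕ, ∃ f ∈ Jd k ι d, g * toL k L (dl k δ) ^ d = toL k L f :=
  StrA.mem_PP_iff' k L δ g

theorem dl_ne_zero : dl k δ ≠ 0 := StrA.dl_ne_zero' δ

/-- PART 1-2: flatness over `k[y]`, in the form needed -/
theorem weaklyRegular_PP (rs : List (BB k ι)) (h : IsWeaklyRegular (BB k ι) rs) :
    IsWeaklyRegular (PP k L δ) (rs.map (yP k L δ)) :=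
  StrA.weaklyRegular_PP' k L δ rs h

end

end Pool.Agent.Lib.MP_463376_co
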