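import Pool.Agent.Lib.MP_463376_co.J_GSys

/-!
# MP_463376_co: graded systems of modules indexed by set partitions

The definitions (`SB`, `zeta`, `crossH`, `moeb`, `GSys`, `GSys.ch`) are in `J_Defs.lean`.
-/

namespace Pool.Agent.Lib.MP_463376_co

open MvPolynomial

/-- PART 11 (complex on the partition lattice). -/
theorem complex_positivity (k : Type) [Field k] (m : ℕ) (V : Type) [AddCommGroup V]
    [Module (SB k m) V] [Module k V] [IsScalarTower k (SB k m) V]
    (gr : ℕ × ℕ → Submodule k V) (hdec : DirectSum.IsInternal gr)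
    (hfd : ∀ d, FiniteDimensional k (gr d))
    (hX : ∀ (i : Fin m) (d : ℕ × ℕ) (v : V), v ∈ gr d → (X i : SB k m) • v ∈ gr (d.1 + 1, d.2))
    (M : Setoid (Fin (m + 1)) → Submodule (SB k m) V)
    (hhom : ∀ σ, (M σ).restrictScalars k = ⨆ d, gr d ⊓ (M σ).restrictScalars k)
    (hanti : Antitone M)
    (hfin : ∀ σ, Module.Finite (SB k m) (M σ)) (hproj : ∀ σ, Module.Projective (SB k m) (M σ))
    (hloc : ∀ π σ, π ≤ σ → ∃ N : ℕ, ∀ v ∈ M π, crossH k σ π ^ N • v ∈ M σ)
    (P : Setoid (Fin (m + 1)) → MvPolynomial (Fin 2) ℤ)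
    (hP : ∀ σ (a b : ℕ), (Module.finrank k ↥(gr (a, b) ⊓ (M σ).restrictScalars k) : ℤ) =
      ∑ j ∈ Finset.range (a + 1), (Nat.choose (j + m - 1) j : ℤ) *
        (P σ).coeff (Finsupp.single 0 (a - j) + Finsupp.single 1 b)) :
    ∃ p : MvPolynomial (Fin 2) ℕ,
      (-1) ^ m * ∑ σ, C (moeb σ) * P σ = (1 - X 0) ^ m * MvPolynomial.map (Nat.castRingHom ℤ) p :=
  j_complex_positivity k m V gr hdec hfd hX M hhom hanti hfin hproj hloc P hP

/-- consequence: for every idempotent of `k[G]` the alternating sum is positive -/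
theorem GSys.positivity {m : ℕ} {G : Type} [Group G] [Fintype G] (S : GSys ℚ m G)
    (e : G → ℚ) (he : ∀ g, ∑ h, e h * e (h⁻¹ * g) = e g) :
    ∃ p : MvPolynomial (Fin 2) ℕ,
      (-1) ^ m * ∑ σ, C (moeb σ : ℚ) * ∑ g, C (e g) * S.ch σ g =
        (1 - X 0) ^ m * MvPolynomial.map (Nat.castRingHom ℚ) p :=
  j_gsys_positivity S e he

end Pool.Agent.Lib.MP_463376_co
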