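import Pool.Agent.Lib.MP_463376_co.H_Uniq
import Pool.Agent.Lib.MP_463376_co.H_Prim
import Pool.Agent.Lib.MP_463376_co.H_Det

/-! Interface theorems: symmetric functions and representations of the symmetric groups. -/

namespace Pool.Agent.Lib.MP_463376_co

open MvPolynomial

section
variable (K : Type) [Field K] [CharZero K]

/-- Schur functions are linearly independent -/
theorem schur_linearIndependent : LinearIndependent K (schur K) := Hs.schur_linearIndependent'

open Classical in
theorem schur_orthonormal (lam mu : YoungDiagram) :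
    hall (schur K lam) (schur K mu) = if lam = mu then 1 else 0 := Hs.schur_orthonormal' lam mu

/-- homogeneous of degree `n` (`X i = p_{i+1}` has degree `i+1`) -/
def HomDeg {K : Type} [Field K] (f : Sym K) (n : ℕ) : Prop :=
  ∀ m : ℕ →₀ ℕ, f.coeff m ≠ 0 → (m.sum fun i e => (i + 1) * e) = n

theorem homDeg_iff {K : Type} [Field K] (f : Sym K) (n : ℕ) : HomDeg f n ↔ Hs.WH f n := by
  have h : ∀ m : ℕ →₀ ℕ, Finsupp.weight (fun i : ℕ => i + 1) m = m.sum fun i e => (i + 1) * e := by
    intro m
    rw [Finsupp.weight_apply]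
    exact Finsupp.sum_congr fun i _ => by rw [smul_eq_mul, mul_comm]
  constructor
  · intro hf m hm
    rw [h]
    exact hf m hm
  · intro hf m hm
    rw [← h]
    exact hf hm

theorem schur_expand (f : Sym K) (n : ℕ) (hf : HomDeg f n) :
    ∃ s : Finset YoungDiagram, (∀ lam ∈ s, lam.card = n) ∧
      f = ∑ lam ∈ s, C (hall f (schur K lam)) * schur K lam := by
  obtain ⟨s, hs⟩ := Hs.exists_partitions n
  exact ⟨s, fun lam hlam => (hs lam).1 hlam, Hs.schur_expand' f n ((homDeg_iff f n).1 hf) s hs⟩

/-- Young's rule (vanishing part) -/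
theorem young_rule {s : ℕ} (nu : Fin s → ℕ) (lam : YoungDiagram)
    (h : hall (∏ b, hS K (nu b)) (schur K lam) ≠ 0) :
    (∑ b, nu b = lam.card) ∧
      ∀ T : Finset (Fin s), ∑ b ∈ T, nu b ≤ ∑ i ∈ Finset.range T.card, lam.rowLen i :=
  Hs.young_rule' nu lam h

/-- primitive idempotents -/
theorem exists_idempotent (n : ℕ) (lam : YoungDiagram) (hl : lam.card = n) :
    ∃ e : Equiv.Perm (Fin n) → ℚ, (∀ g, ∑ h, e h * e (h⁻¹ * g) = e g) ∧
      ∀ (K : Type) [Field K] [CharZero K] (f : Equiv.Perm (Fin n) → K),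
        (∀ w w', f (w * w' * w⁻¹) = f w') →
        ∑ g : Equiv.Perm (Fin n), algebraMap ℚ K (e g) * f g = hall (frob f) (schur K lam) :=
  Hs.exists_idempotent' n lam hl

/-- number of maps with prescribed fibre sizes fixed by `w` -/
theorem frob_perm {ι : Type} [Fintype ι] [DecidableEq ι] {s : ℕ} (nu : Fin s → ℕ)
    (h : ∑ b, nu b = Fintype.card ι) :
    frob (K := K) (fun w : Equiv.Perm ι =>
      ((Finset.univ.filter fun φ : ι → Fin s => φ ∘ w = φ ∧
        ∀ b, (Finset.univ.filter fun i => φ i = b).card = nu b).card : K)) = ∏ b, hS K (nu b) :=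
  Hs.frob_perm' nu h

theorem plethOne_pcyc {ι : Type} [Fintype ι] [DecidableEq ι] (u : K) (w : Equiv.Perm ι) :
    plethOne u (pcyc K w) =
      C ((1 - u • (w.toPEquiv.toMatrix : Matrix ι ι K)).det) * pcyc K w := Hs.plethOne_pcyc' u w

end

/-- uniqueness of the modified Macdonald polynomials -/
theorem isModMac_unique (mu : YoungDiagram) (H H' : Sym Kqt) (h : IsModMac mu H)
    (h' : IsModMac mu H') : H = H' := Hs.isModMac_unique' mu H H' h h'

end Pool.Agent.Lib.MP_463376_co
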