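import Pool.Agent.Lib.MP_463376_co.I_Defs

/-! Stream I, job HOM: bihomogeneous polynomials and the specialisation `sp` -/

namespace Pool.Agent.Lib.MP_463376_co

open MvPolynomial

section
variable {k : Type} [Field k] {α β : Type}

/-- both say that all monomials have bidegree `(a,b)` (`Finsupp.weight wt e = (∑ x-exponents, ∑ y-exponents)`) -/
theorem isBihom_iff (f : GG k) (a b : ℤ) : IsBihom f a b ↔ BH f a b := by
  have key : ∀ m : ℕ ⊕ ℕ →₀ ℕ, Finsupp.weight wt m =
      (((m.sum fun v e => Sum.elim (fun _ => e) (fun _ => 0) v : ℕ) : ℤ),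
       ((m.sum fun v e => Sum.elim (fun _ => 0) (fun _ => e) v : ℕ) : ℤ)) := by
    intro m
    rw [Finsupp.weight_apply, Finsupp.sum, Finsupp.sum, Finsupp.sum, Nat.cast_sum, Nat.cast_sum]
    apply Prod.ext
    · rw [Prod.fst_sum]
      refine Finset.sum_congr rfl fun v _ => ?_
      rcases v with v | v <;> simp [wt]
    · rw [Prod.snd_sum]
      refine Finset.sum_congr rfl fun v _ => ?_
      rcases v with v | v <;> simp [wt]
  unfold IsBihom BH IsWeightedHomogeneous
  constructor
  · intro h d hd
    rw [key d]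
    exact Prod.ext (h d hd).1 (h d hd).2
  · intro h d hd
    have h1 := h hd
    rw [key d] at h1
    exact ⟨congrArg Prod.fst h1, congrArg Prod.snd h1⟩

theorem BH_zero (a b : ℤ) : BH (0 : MvPolynomial (α ⊕ β) k) a b :=
  isWeightedHomogeneous_zero k wt (a, b)

theorem BH_mul {f g : MvPolynomial (α ⊕ β) k} {a b a' b' : ℤ} (hf : BH f a b) (hg : BH g a' b') :
    BH (f * g) (a + a') (b + b') :=
  IsWeightedHomogeneous.mul hf hg

theorem BH_prod {ι : Type} (s : Finset ι) (f : ι → MvPolynomial (α ⊕ β) k) (a b : ι → ℤ)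
    (h : ∀ i ∈ s, BH (f i) (a i) (b i)) : BH (∏ i ∈ s, f i) (∑ i ∈ s, a i) (∑ i ∈ s, b i) := by
  have h1 := IsWeightedHomogeneous.prod (R := k) s f (fun i => (a i, b i)) (w := wt)
    (fun i hi => h i hi)
  have h2 : (∑ i ∈ s, (a i, b i)) = (∑ i ∈ s, a i, ∑ i ∈ s, b i) :=
    Prod.ext (Prod.fst_sum ..) (Prod.snd_sum ..)
  rw [h2] at h1
  exact h1

theorem BH_sum {ι : Type} (s : Finset ι) (f : ι → MvPolynomial (α ⊕ β) k) (a b : ℤ)
    (h : ∀ i ∈ s, BH (f i) a b) : BH (∑ i ∈ s, f i) a b :=
  IsWeightedHomogeneous.sum (R := k) s f (a, b) (fun i hi => h i hi)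

/-- algebra maps that send variables to homogeneous elements of the same weight preserve weights -/
private theorem iHom_map {σ τ M : Type} [AddCommMonoid M] {w : σ → M} {w' : τ → M}
    (φ : MvPolynomial σ k →ₐ[k] MvPolynomial τ k)
    (hX : ∀ i, IsWeightedHomogeneous w' (φ (X i)) (w i)) {f : MvPolynomial σ k} {n : M}
    (h : IsWeightedHomogeneous w f n) : IsWeightedHomogeneous w' (φ f) n := by
  classical
  have e : φ f = ∑ d ∈ f.support, C (f.coeff d) * ∏ i ∈ d.support, φ (X i) ^ d i := by
    conv_lhs => rw [f.as_sum]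
    rw [map_sum]
    refine Finset.sum_congr rfl fun d _ => ?_
    rw [monomial_eq, map_mul, Finsupp.prod, map_prod]
    simp only [map_pow]
    congr 1
    exact φ.commutes _
  rw [e]
  refine IsWeightedHomogeneous.sum (R := k) _ _ n fun d hd => ?_
  have hw : Finsupp.weight w d = n := h (mem_support_iff.mp hd)
  refine IsWeightedHomogeneous.C_mul ?_ _
  have h2 := IsWeightedHomogeneous.prod (R := k) d.support (fun i => φ (X i) ^ d i)
    (fun i => d i • w i) (w := w') (fun i _ => (hX i).pow (d i))
  rw [← hw, Finsupp.weight_apply, Finsupp.sum]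
  exact h2

/-- algebra maps that send every variable to a variable of the same kind preserve bidegrees -/
theorem BH_map {α' β' : Type} (φ : MvPolynomial (α ⊕ β) k →ₐ[k] MvPolynomial (α' ⊕ β') k)
    (s : α → α') (r : β → β') (h1 : ∀ i, φ (X (Sum.inl i)) = X (Sum.inl (s i)))
    (h2 : ∀ i, φ (X (Sum.inr i)) = X (Sum.inr (r i))) (f : MvPolynomial (α ⊕ β) k) (a b : ℤ)
    (h : BH f a b) : BH (φ f) a b := by
  refine iHom_map φ (fun i => ?_) h
  rcases i with i | i
  · rw [h1]
    exact isWeightedHomogeneous_X k wt (Sum.inl (s i))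
  · rw [h2]
    exact isWeightedHomogeneous_X k wt (Sum.inr (r i))

private theorem iHom_comp_mul {σ M : Type} [AddCommGroup M] {w : σ → M}
    (c g : MvPolynomial σ k) (n m : M) (hg : IsWeightedHomogeneous w g m) :
    weightedHomogeneousComponent w n (c * g) = weightedHomogeneousComponent w (n - m) c * g := by
  classical
  induction c using MvPolynomial.induction_on' with
  | monomial d r =>
    have h1 : IsWeightedHomogeneous w (monomial d r) (Finsupp.weight w d) :=
      isWeightedHomogeneous_monomial w d r rfl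
    have h2 := h1.mul hg
    by_cases hn : n = Finsupp.weight w d + m
    · subst hn
      rw [h2.weightedHomogeneousComponent_same, add_sub_cancel_right,
        h1.weightedHomogeneousComponent_same]
    · rw [h2.weightedHomogeneousComponent_ne n hn,
        h1.weightedHomogeneousComponent_ne (n - m) (fun h => hn (by rw [← h]; abel)), zero_mul]
  | add p q hp hq =>
    rw [add_mul, map_add, map_add, hp, hq, add_mul]

/-- If a bihomogeneous `F` is a combination of bihomogeneous `g_v`, the coefficients can be chosen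
bihomogeneous: take the component of degree `(a,b) - (d v, e v)` of the coefficient `c v`
(`weightedHomogeneousComponent`; `comp_n (c * g) = comp_{n - deg g} c * g` for homogeneous `g`
because `ℤ × ℤ` is cancellative). -/
theorem BH_coeffs {V : Type} [Fintype V] {Ω : Type} (F : Ω → MvPolynomial (α ⊕ β) k) (a b : ℤ)
    (hF : ∀ τ, BH (F τ) a b) (g : V → Ω → MvPolynomial (α ⊕ β) k) (d e : V → ℤ)
    (hg : ∀ v τ, BH (g v τ) (d v) (e v)) (c : V → MvPolynomial (α ⊕ β) k)
    (h : ∀ τ, F τ = ∑ v, c v * g v τ) :
    ∃ c' : V → MvPolynomial (α ⊕ β) k, (∀ τ, F τ = ∑ v, c' v * g v τ) ∧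
      ∀ v, BH (c' v) (a - d v) (b - e v) := by
  classical
  refine ⟨fun v => weightedHomogeneousComponent wt ((a, b) - (d v, e v)) (c v), fun τ => ?_,
    fun v => ?_⟩
  · have h1 : weightedHomogeneousComponent wt (a, b) (F τ) = F τ :=
      (hF τ).weightedHomogeneousComponent_same
    rw [← h1, h τ, map_sum]
    exact Finset.sum_congr rfl fun v _ => iHom_comp_mul (c v) (g v τ) (a, b) (d v, e v) (hg v τ)
  · exact weightedHomogeneousComponent_isWeightedHomogeneous ((a, b) - (d v, e v)) (c v)

variable {m : ℕ}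

/-- `sp` sends `z_c` to `z_b` or `0` (weight `(1,0)`) and `w_i` to `0` -/
theorem BS_sp (f : ST k m) (a b : ℤ) (h : BH f a b) : BS (sp k m f) a b := by
  refine iHom_map (sp k m) (fun i => ?_) h
  rcases i with i | i
  · rw [sp, aeval_X, Sum.elim_inl]
    have hz : ∀ j : Fin (m + 1), IsWeightedHomogeneous (fun _ : Fin m => ((1 : ℤ), (0 : ℤ)))
        (zeta k m j) ((1 : ℤ), (0 : ℤ)) := by
      intro j
      refine Fin.cases ?_ (fun j' => ?_) j
      · exact isWeightedHomogeneous_zero k _ _
      · exact isWeightedHomogeneous_X k _ j'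
    exact hz i.1
  · rw [sp, aeval_X, Sum.elim_inr]
    exact isWeightedHomogeneous_zero k _ _

theorem constantCoeff_sp (f : ST k m) : constantCoeff (sp k m f) = constantCoeff f := by
  have hz : ∀ j : Fin (m + 1), constantCoeff (zeta k m j) = 0 := by
    intro j
    refine Fin.cases ?_ (fun j' => ?_) j
    · exact map_zero _
    · exact constantCoeff_X (R := k) j'
  induction f using MvPolynomial.induction_on with
  | C c =>
    rw [show (sp k m) (C c) = C c from (sp k m).commutes c, constantCoeff_C, constantCoeff_C]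
  | add p q hp hq => rw [map_add, map_add, map_add, hp, hq]
  | mul_X p i hp =>
    rw [map_mul, map_mul, map_mul, hp, constantCoeff_X]
    rcases i with i | i
    · rw [sp, aeval_X, Sum.elim_inl, hz]
    · rw [sp, aeval_X, Sum.elim_inr, map_zero]

end

end Pool.Agent.Lib.MP_463376_co
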