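import Pool.Agent.Lib.MP_463376_co.I_Glue
import Pool.Agent.Lib.MP_463376_co.I_Hom

/-! Stream I, job EQUIV: homogeneity and equivariance of the family -/

namespace Pool.Agent.Lib.MP_463376_co

open MvPolynomial

section
variable {k : Type} [Field k] {m : ℕ} {Γ : Type} [Fintype Γ] [DecidableEq Γ]
  {Q : Type} [Fintype Q] [DecidableEq Q] {col : Γ → Fin (m + 1) × ℕ} {row : Γ → ℕ} {κ : Γ → Q}

private theorem equiv_degF_fst (D : BDs k col row κ) (v : Idx D) :
    (((degF D v).1 : ℕ) : ℤ) = ∑ B, (((D B).deg (v.2 B)).1 : ℤ) := by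
  simp only [degF, Prod.fst_sum, Nat.cast_sum]

private theorem equiv_degF_snd (D : BDs k col row κ) (v : Idx D) :
    (((degF D v).2 : ℕ) : ℤ) = ∑ B, (((D B).deg (v.2 B)).2 : ℤ) := by
  simp only [degF, Prod.snd_sum, Nat.cast_sum]

theorem GF_hom (D : BDs k col row κ) (v : Idx D) (τ : Equiv.Perm Γ) :
    BH (GF D v τ) (degF D v).1 (degF D v).2 := by
  unfold GF
  split_ifs with h
  · rw [equiv_degF_fst, equiv_degF_snd]
    exact BH_prod _ _ _ _ fun B _ => (D B).g_hom (v.2 B) _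
  · exact BH_zero _ _

/-- `GF D ⟨I, v⟩ (τ * w)` is nonzero only if the pattern `I'` of `τ` satisfies `I' ∘ w = I`; then
`τ w (eI I)⁻¹ = (τ (eI I')⁻¹) * u` with `u = eI I' * w * (eI I)⁻¹`, which preserves `κ`; apply
`(D B).equiv (res κ u B)` for every block and multiply out (`sum_prod_pi`).
`a ⟨I',v'⟩ ⟨I,v⟩ = if I' ∘ w = I then ∏ B, a_B (v' B) (v B) else 0`. -/
theorem GF_equiv (D : BDs k col row κ) (w : Equiv.Perm Γ) : ∃ a : Idx D → Idx D → ST k m,
    (∀ v τ, GF D v (τ * w) = ∑ v', a v' v * GF D v' τ) ∧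
    (∀ v' v, constantCoeff (a v' v) = rhoF D w v' v) ∧
    (∀ v' v, BH (a v' v) (((degF D v).1 : ℤ) - (degF D v').1)
      (((degF D v).2 : ℤ) - (degF D v').2)) := by
  choose A hA1 hA2 hA3 using fun B => (D B).equiv
  refine ⟨fun v' v => if ∀ i, v'.1.1 (w i) = v.1.1 i then
    ∏ B, A B (res κ (eI v'.1 * w * (eI v.1)⁻¹) B) (v'.2 B) (v.2 B) else 0, ?_, ?_, ?_⟩
  · intro v τ
    let I0 : Pat κ := ⟨fun i => κ (τ i), τ, fun i => rfl⟩
    have hs : ∑ v' : Idx D, (if ∀ i, v'.1.1 (w i) = v.1.1 i then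
        ∏ B, A B (res κ (eI v'.1 * w * (eI v.1)⁻¹) B) (v'.2 B) (v.2 B) else 0) * GF D v' τ =
        ∑ x : (∀ B : Q, (D B).V), (if ∀ i, I0.1 (w i) = v.1.1 i then
        ∏ B, A B (res κ (eI I0 * w * (eI v.1)⁻¹) B) (x B) (v.2 B) else 0) *
          ∏ B, (D B).g (x B) (res κ (τ * (eI I0)⁻¹) B) := by
      rw [Fintype.sum_sigma]
      rw [Finset.sum_eq_single I0]
      · refine Finset.sum_congr rfl fun x _ => ?_
        have h0 : GF D (⟨I0, x⟩ : Idx D) τ = ∏ B, (D B).g (x B) (res κ (τ * (eI I0)⁻¹) B) := by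
          unfold GF
          rw [if_pos]
          exact fun i => rfl
        rw [h0]
      · intro I' _ hI'
        refine Finset.sum_eq_zero fun x _ => ?_
        have h0 : GF D (⟨I', x⟩ : Idx D) τ = 0 := by
          unfold GF
          rw [if_neg]
          intro hc
          apply hI'
          apply Subtype.ext
          funext i
          exact (hc i).symm
        rw [h0, mul_zero]
      · intro h
        exact absurd (Finset.mem_univ _) h
    rw [hs]
    have hcond : (∀ i, κ ((τ * w) i) = v.1.1 i) ↔ (∀ i, I0.1 (w i) = v.1.1 i) := Iff.rfl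
    by_cases hc : ∀ i, I0.1 (w i) = v.1.1 i
    · have hG : GF D v (τ * w) = ∏ B, (D B).g (v.2 B) (res κ (τ * w * (eI v.1)⁻¹) B) := by
        unfold GF
        rw [if_pos]
        exact hcond.2 hc
      rw [hG]
      have hu : ∀ x, κ ((eI I0 * w * (eI v.1)⁻¹) x) = κ x := by
        intro x
        rw [Equiv.Perm.mul_apply, Equiv.Perm.mul_apply, eI_spec I0, hc, ← eI_spec v.1]
        simp
      have ht : ∀ x, κ ((τ * (eI I0)⁻¹) x) = κ x := by
        intro x
        have h1 : κ ((τ * (eI I0)⁻¹) x) = I0.1 ((eI I0)⁻¹ x) := rfl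
        rw [h1, ← eI_spec I0]
        simp
      have hfac : ∀ B, res κ (τ * w * (eI v.1)⁻¹) B =
          res κ (τ * (eI I0)⁻¹) B * res κ (eI I0 * w * (eI v.1)⁻¹) B := by
        intro B
        rw [← res_mul κ _ _ ht hu B]
        congr 1
        group
      have h2 : ∀ B, (D B).g (v.2 B) (res κ (τ * w * (eI v.1)⁻¹) B) =
          ∑ v', A B (res κ (eI I0 * w * (eI v.1)⁻¹) B) v' (v.2 B) *
            (D B).g v' (res κ (τ * (eI I0)⁻¹) B) := by
        intro B
        rw [hfac, hA1]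
      rw [Finset.prod_congr rfl fun B _ => h2 B]
      rw [← sum_prod_pi (fun B v' => A B (res κ (eI I0 * w * (eI v.1)⁻¹) B) v' (v.2 B) *
            (D B).g v' (res κ (τ * (eI I0)⁻¹) B))]
      refine Finset.sum_congr rfl fun x _ => ?_
      rw [if_pos hc, Finset.prod_mul_distrib]
    · have hG : GF D v (τ * w) = 0 := by
        unfold GF
        rw [if_neg]
        exact fun h => hc (hcond.1 h)
      rw [hG]
      symm
      refine Finset.sum_eq_zero fun x _ => ?_
      rw [if_neg hc, zero_mul]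
  · intro v' v
    unfold rhoF
    dsimp only
    split_ifs with h
    · rw [map_prod]
      exact Finset.prod_congr rfl fun B _ => hA2 B _ _ _
    · exact map_zero _
  · intro v' v
    dsimp only
    split_ifs with h
    · have h1 : (((degF D v).1 : ℕ) : ℤ) - (((degF D v').1 : ℕ) : ℤ) =
          ∑ B, ((((D B).deg (v.2 B)).1 : ℤ) - (((D B).deg (v'.2 B)).1 : ℤ)) := by
        rw [equiv_degF_fst, equiv_degF_fst, Finset.sum_sub_distrib]
      have h2 : (((degF D v).2 : ℕ) : ℤ) - (((degF D v').2 : ℕ) : ℤ) =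
          ∑ B, ((((D B).deg (v.2 B)).2 : ℤ) - (((D B).deg (v'.2 B)).2 : ℤ)) := by
        rw [equiv_degF_snd, equiv_degF_snd, Finset.sum_sub_distrib]
      rw [h1, h2]
      exact BH_prod _ _ _ _ fun B _ => hA3 B _ _ _
    · exact BH_zero _ _

end

end Pool.Agent.Lib.MP_463376_co
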