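import Pool.Agent.Lib.MP_463376_co.I_Glue

/-! Stream I, job PCYC: cycle types of glued permutations -/

namespace Pool.Agent.Lib.MP_463376_co

open MvPolynomial

section
variable {Γ : Type} [Fintype Γ] [DecidableEq Γ] {Q : Type} [Fintype Q] [DecidableEq Q]

theorem i_pcyc_eq (K : Type) [Field K] (w : Equiv.Perm Γ) :
    pcyc K w = (w.cycleType.map fun m => (X (m - 1) : Sym K)).prod *
      X 0 ^ (Fintype.card Γ - w.support.card) := by
  unfold pcyc
  rw [Equiv.Perm.parts_partition, Multiset.map_add, Multiset.prod_add, Multiset.map_replicate,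
    Multiset.prod_replicate]

theorem i_pcyc_cycleType (κ : Γ → Q) (u : ∀ B : Q, Equiv.Perm {γ : Γ // κ γ = B}) (s : Finset Q) :
    (glue κ (fun B => if B ∈ s then u B else 1)).cycleType = ∑ B ∈ s, (u B).cycleType := by
  induction s using Finset.induction_on with
  | empty =>
    have h1 : glue κ (fun B => if B ∈ (∅ : Finset Q) then u B else 1) = 1 := by
      ext γ
      rw [glue_apply]
      simp
    rw [h1, Equiv.Perm.cycleType_one, Finset.sum_empty]
  | insert a s ha ih =>
    have h1 : ∀ γ, κ γ = a → glue κ (fun B => if B ∈ s then u B else 1) γ = γ := by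
      intro γ hγ
      have e0 : κ γ ∉ s := by rw [hγ]; exact ha
      rw [glue_apply, if_neg e0]
      rfl
    have h2 : glue κ (fun B => if B ∈ insert a s then u B else 1) =
        Equiv.Perm.ofSubtype (u a) * glue κ (fun B => if B ∈ s then u B else 1) := by
      ext γ
      rw [Equiv.Perm.mul_apply]
      by_cases hγ : κ γ = a
      · rw [h1 γ hγ, Equiv.Perm.ofSubtype_apply_of_mem (u a) hγ, glue_apply]
        subst hγ
        simp
      · have e0 : ¬ κ (glue κ (fun B => if B ∈ s then u B else 1) γ) = a := fun h =>
          hγ ((kappa_glue κ _ γ).symm.trans h)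
        rw [Equiv.Perm.ofSubtype_apply_of_not_mem (u a) e0, glue_apply, glue_apply]
        have e1 : κ γ ∈ insert a s ↔ κ γ ∈ s := by
          rw [Finset.mem_insert]
          tauto
        by_cases h3 : κ γ ∈ s
        · rw [if_pos h3, if_pos (e1.2 h3)]
        · rw [if_neg h3, if_neg (fun h => h3 (e1.1 h))]
    have h3 : (Equiv.Perm.ofSubtype (u a)).Disjoint
        (glue κ (fun B => if B ∈ s then u B else 1)) := by
      intro γ
      by_cases hγ : κ γ = a
      · right
        exact h1 γ hγ
      · left
        exact Equiv.Perm.ofSubtype_apply_of_not_mem (u a) hγ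
    rw [h2, Equiv.Perm.Disjoint.cycleType_mul h3, ih, Finset.sum_insert ha, Equiv.Perm.cycleType_ofSubtype]

/-- The cycles of a glued permutation are the cycles of the pieces. -/
theorem pcyc_glue (K : Type) [Field K] (κ : Γ → Q)
    (u : ∀ B : Q, Equiv.Perm {γ : Γ // κ γ = B}) : pcyc K (glue κ u) = ∏ B, pcyc K (u B) := by
  have h1 : (glue κ u).cycleType = ∑ B, (u B).cycleType := by
    have := i_pcyc_cycleType κ u Finset.univ
    simpa using this
  have h2 : Fintype.card Γ - (glue κ u).support.card =
      ∑ B, (Fintype.card {γ : Γ // κ γ = B} - (u B).support.card) := by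
    have e1 : (glue κ u).support.card = ∑ B, (u B).support.card := by
      rw [← Equiv.Perm.sum_cycleType, h1]
      have e2 : ∀ s : Finset Q, (∑ B ∈ s, (u B).cycleType).sum = ∑ B ∈ s, (u B).support.card := by
        intro s
        induction s using Finset.induction_on with
        | empty => simp
        | insert a s ha ih =>
          rw [Finset.sum_insert ha, Finset.sum_insert ha, Multiset.sum_add, ih,
            Equiv.Perm.sum_cycleType]
      exact e2 Finset.univ
    have e3 : Fintype.card Γ = ∑ B, Fintype.card {γ : Γ // κ γ = B} := by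
      rw [← Fintype.card_sigma]
      exact Fintype.card_congr (Equiv.sigmaFiberEquiv κ).symm
    rw [e1, e3]
    rw [Finset.sum_tsub_distrib]
    intro B _
    rw [← Finset.card_univ (α := {γ : Γ // κ γ = B})]
    exact Finset.card_le_univ _
  rw [i_pcyc_eq, h1, h2, ← Finset.prod_pow_eq_pow_sum]
  have h3 : ∀ s : Finset Q, ((∑ B ∈ s, (u B).cycleType).map fun m => (X (m - 1) : Sym K)).prod =
      ∏ B ∈ s, ((u B).cycleType.map fun m => (X (m - 1) : Sym K)).prod := by
    intro s
    induction s using Finset.induction_on with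
    | empty => simp
    | insert a s ha ih =>
      rw [Finset.sum_insert ha, Finset.prod_insert ha, Multiset.map_add, Multiset.prod_add, ih]
  rw [h3, ← Finset.prod_mul_distrib]
  apply Finset.prod_congr rfl
  intro B _
  rw [i_pcyc_eq]

/-- relabelling -/
theorem pcyc_permCongr (K : Type) [Field K] {Γ' : Type} [Fintype Γ'] [DecidableEq Γ'] (e : Γ' ≃ Γ)
    (w : Equiv.Perm Γ') : pcyc K (e.permCongr w) = pcyc K w := by
  have h1 : (e.permCongr w).cycleType = w.cycleType := by
    have h2 := Equiv.Perm.cycleType_extendDomain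
      (e.trans (Equiv.subtypeUnivEquiv (p := fun _ : Γ => True) (fun _ => trivial)).symm) (g := w)
    rw [← h2]
    congr 1
  have h3 : (e.permCongr w).support.card = w.support.card := by
    rw [← Equiv.Perm.sum_cycleType, h1, Equiv.Perm.sum_cycleType]
  rw [i_pcyc_eq, i_pcyc_eq, h1, h3, Fintype.card_congr e]

theorem frob_permCongr {K : Type} [Field K] {Γ' : Type} [Fintype Γ'] [DecidableEq Γ'] (e : Γ' ≃ Γ)
    (f : Equiv.Perm Γ → K) : frob (fun w : Equiv.Perm Γ' => f (e.permCongr w)) = frob f := by
  unfold frob
  rw [Fintype.card_congr e]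
  congr 1
  rw [← Equiv.sum_comp e.permCongr]
  apply Finset.sum_congr rfl
  intro w _
  rw [pcyc_permCongr]

end

end Pool.Agent.Lib.MP_463376_co
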