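import Pool.Agent.Lib.MP_463376_co.I_Glue
import Pool.Agent.Lib.MP_463376_co.I_Pcyc

/-! Stream I, job FROB: the Frobenius characteristic of the family is the product -/

namespace Pool.Agent.Lib.MP_463376_co

open MvPolynomial

section
variable {m : ℕ} {Γ : Type} [Fintype Γ] [DecidableEq Γ]
  {Q : Type} [Fintype Q] [DecidableEq Q] {col : Γ → Fin (m + 1) × ℕ} {row : Γ → ℕ} {κ : Γ → Q}

private theorem frobI_chF (D : BDs ℚ col row κ) (w : Equiv.Perm Γ) :
    chF D w = ∑ I : Pat κ, if ∀ i, I.1 (w i) = I.1 i then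
      ∏ B, (D B).toGRep.ch (res κ (eI I * w * (eI I)⁻¹) B) else 0 := by
  unfold chF
  rw [Fintype.sum_sigma]
  refine Finset.sum_congr rfl fun I _ => ?_
  by_cases hI : ∀ i, I.1 (w i) = I.1 i
  · simp only [rhoF, degF, hI, implies_true, if_true]
    rw [show (∏ B, (D B).toGRep.ch (res κ (eI I * w * (eI I)⁻¹) B)) =
      ∏ B, ∑ v : (D B).V, (C ((D B).ρ (res κ (eI I * w * (eI I)⁻¹) B) v v) *
        (X 0 ^ ((D B).deg v).1 * X 1 ^ ((D B).deg v).2) : MvPolynomial (Fin 2) ℚ) from rfl]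
    rw [← sum_prod_pi]
    refine Finset.sum_congr rfl fun v _ => ?_
    rw [Finset.prod_mul_distrib, Finset.prod_mul_distrib, Finset.prod_pow_eq_pow_sum,
      Finset.prod_pow_eq_pow_sum, map_prod, Prod.fst_sum, Prod.snd_sum]
  · simp only [rhoF, hI, if_false]
    simp

private theorem frobI_pcyc (I : Pat κ) (w : Equiv.Perm Γ) (hw : ∀ i, I.1 (w i) = I.1 i) :
    pcyc Kqt w = ∏ B, pcyc Kqt (res κ (eI I * w * (eI I)⁻¹) B) := by
  have h1 : ∀ x, κ ((eI I * w * (eI I)⁻¹ : Equiv.Perm Γ) x) = κ x := by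
    intro x
    have h2 := eI_spec I (w ((eI I)⁻¹ x))
    have h3 := eI_spec I ((eI I)⁻¹ x)
    simp only [Equiv.Perm.mul_apply]
    rw [h2, hw, ← h3]
    simp
  rw [← pcyc_glue, glue_res κ _ h1]
  have h4 : (eI I * w * (eI I)⁻¹ : Equiv.Perm Γ) = (eI I).permCongr w := by
    ext x
    simp
  rw [h4, pcyc_permCongr]

/-- `chF D w = ∑_{I : I ∘ w = I} ∏ B, (D B).ch (res κ (eI I * w * (eI I)⁻¹) B)` (`sum_prod_pi`).
For fixed `I` the map `w ↦ (res κ (eI I * w * (eI I)⁻¹) B)_B` is a bijection from `{w | I ∘ w = I}` to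
`∏_B Perm`, and `pcyc w = ∏_B pcyc (res ...)` (conjugation + `pcyc_glue`).  So the sum over `w` is
`∏_B |κ⁻¹B|! frob_B` for each `I`; the number of `I` is `|Γ|! / ∏ |κ⁻¹B|!` (`card_pat`). -/
theorem frob_family (D : BDs ℚ col row κ) : frob (fun w => toK (chF D w)) =
    ∏ B : Q, frob (fun u => toK ((D B).toGRep.ch u)) := by
  have hsum : ∑ w : Equiv.Perm Γ, (C (toK (chF D w)) * pcyc Kqt w : Sym Kqt) =
      ∑ I : Pat κ, ∏ B : Q, ∑ u : Equiv.Perm {γ : Γ // κ γ = B},
        C (toK ((D B).toGRep.ch u)) * pcyc Kqt u := by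
    have h1 : ∀ w : Equiv.Perm Γ, (C (toK (chF D w)) * pcyc Kqt w : Sym Kqt) =
        ∑ I : Pat κ, if ∀ i, κ ((eI I * w) i) = I.1 i then
          ∏ B, (C (toK ((D B).toGRep.ch (res κ (eI I * w * (eI I)⁻¹) B))) *
            pcyc Kqt (res κ (eI I * w * (eI I)⁻¹) B)) else 0 := by
      intro w
      rw [frobI_chF, map_sum, map_sum, Finset.sum_mul]
      refine Finset.sum_congr rfl fun I _ => ?_
      have hiff : (∀ i, κ ((eI I * w) i) = I.1 i) ↔ (∀ i, I.1 (w i) = I.1 i) := by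
        constructor
        · intro h i
          exact (eI_spec I (w i)).symm.trans (h i)
        · intro h i
          exact (eI_spec I (w i)).trans (h i)
      by_cases hI : ∀ i, I.1 (w i) = I.1 i
      · rw [if_pos hI, if_pos (hiff.mpr hI), frobI_pcyc I w hI, map_prod, map_prod,
          ← Finset.prod_mul_distrib]
      · rw [if_neg hI, if_neg (fun h => hI (hiff.mp h)), map_zero, map_zero, zero_mul]
    simp only [h1]
    rw [Finset.sum_comm]
    refine Finset.sum_congr rfl fun I _ => ?_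
    rw [← sum_prod_pi (fun B (u : Equiv.Perm {γ : Γ // κ γ = B}) =>
      (C (toK ((D B).toGRep.ch u)) * pcyc Kqt u : Sym Kqt))]
    rw [← sum_pattern κ I (fun u => ∏ B, (C (toK ((D B).toGRep.ch (u B))) *
      pcyc Kqt (u B) : Sym Kqt))]
    exact Fintype.sum_equiv (Equiv.mulLeft (eI I)) _ _ (fun w => rfl)
  unfold frob
  rw [hsum, Finset.sum_const, Finset.card_univ, Finset.prod_mul_distrib, nsmul_eq_mul,
    ← mul_assoc]
  congr 1
  rw [← map_prod, ← map_natCast (C : Kqt →+* Sym Kqt), ← map_mul]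
  congr 1
  have hcard := card_pat κ
  have h2 : ((Fintype.card (Pat κ) : ℕ) : Kqt) *
      ∏ B : Q, (((Fintype.card {γ : Γ // κ γ = B}).factorial : ℕ) : Kqt) =
      (((Fintype.card Γ).factorial : ℕ) : Kqt) := by
    rw [← hcard]
    push_cast
    rfl
  have h3 : (((Fintype.card Γ).factorial : ℕ) : Kqt) ≠ 0 := by
    exact_mod_cast (Fintype.card Γ).factorial_ne_zero
  have h4 : ∏ B : Q, (((Fintype.card {γ : Γ // κ γ = B}).factorial : ℕ) : Kqt) ≠ 0 := by
    intro h
    rw [h, mul_zero] at h2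
    exact h3 h2.symm
  rw [Finset.prod_inv_distrib, ← h2]
  have h5 : ((Fintype.card (Pat κ) : ℕ) : Kqt) ≠ 0 := by
    intro h
    rw [h, zero_mul] at h2
    exact h3 h2.symm
  field_simp

end

end Pool.Agent.Lib.MP_463376_co
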