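import Pool.Agent.Lib.MP_463376_co.I_Defs

/-! Stream I, job CROSS: discriminants for a coarser partition; cross differences -/

namespace Pool.Agent.Lib.MP_463376_co

open MvPolynomial

section aux

/-- a difference of two different variables is prime -/
private theorem i_cross_prime {k : Type} [Field k] {σ : Type} [DecidableEq σ] (a b : σ)
    (h : a ≠ b) : Prime (X a - X b : MvPolynomial σ k) := by
  let f : MvPolynomial σ k →ₐ[k] MvPolynomial σ k := aeval fun i => if i = a then X a + X b else X i
  let g : MvPolynomial σ k →ₐ[k] MvPolynomial σ k := aeval fun i => if i = a then X a - X b else X i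
  have hfg : f.comp g = AlgHom.id k _ := by
    ext i
    by_cases hi : i = a
    · subst hi
      simp [f, g, Ne.symm h]
    · simp [f, g, hi]
  have hgf : g.comp f = AlgHom.id k _ := by
    ext i
    by_cases hi : i = a
    · subst hi
      simp [f, g, Ne.symm h]
    · simp [f, g, hi]
  let e : MvPolynomial σ k ≃ₐ[k] MvPolynomial σ k := AlgEquiv.ofAlgHom g f hgf hfg
  have h1 : e (X a) = X a - X b := by simp [e, g]
  rw [← h1, MulEquiv.prime_iff]
  exact X_prime

/-- differences of different pairs of variables are relatively prime -/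
private theorem i_cross_relprime {k : Type} [Field k] {σ : Type} [DecidableEq σ] (a b c d : σ)
    (hab : a ≠ b) (hcd : c ≠ d) (h1 : ¬ (c = a ∧ d = b)) (h2 : ¬ (c = b ∧ d = a)) :
    IsRelPrime (X a - X b : MvPolynomial σ k) (X c - X d) := by
  rw [(i_cross_prime a b hab).irreducible.isRelPrime_iff_not_dvd]
  intro hdvd
  let φ : MvPolynomial σ k →ₐ[k] MvPolynomial σ k := aeval fun i => if i = b then X a else X i
  have h3 : φ (X a - X b) ∣ φ (X c - X d) := map_dvd φ hdvd
  have h4 : φ (X a - X b) = 0 := by simp [φ]
  rw [h4, zero_dvd_iff, map_sub, sub_eq_zero] at h3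
  simp only [φ, aeval_X] at h3
  by_cases hc : c = b
  · by_cases hd : d = b
    · exact hcd (hc.trans hd.symm)
    · rw [if_pos hc, if_neg hd] at h3
      exact h2 ⟨hc, (X_injective h3).symm⟩
  · by_cases hd : d = b
    · rw [if_neg hc, if_pos hd] at h3
      exact h1 ⟨X_injective h3, hd⟩
    · rw [if_neg hc, if_neg hd] at h3
      exact hcd (X_injective h3)

/-- product over pairs in the same fibre -/
private theorem i_cross_fiber {M : Type} [CommMonoid M] {Γ Q : Type} [Fintype Γ] [Fintype Q]
    [DecidableEq Q] (κ : Γ → Q) (F : Γ → Γ → M) :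
    ∏ B : Q, ∏ i : {γ : Γ // κ γ = B}, ∏ j : {γ : Γ // κ γ = B}, F i.1 j.1 =
      ∏ γ, ∏ γ', if κ γ = κ γ' then F γ γ' else 1 := by
  rw [← Fintype.prod_fiberwise κ]
  refine Finset.prod_congr rfl fun B _ => Finset.prod_congr rfl fun i _ => ?_
  rw [← Finset.prod_filter]
  rw [Finset.prod_subtype (Finset.univ.filter fun γ' => κ i.1 = κ γ') (p := fun γ => κ γ = B)]
  intro x
  simp only [Finset.mem_filter, Finset.mem_univ, true_and, i.2]
  exact eq_comm

end aux

section
variable {k : Type} [Field k] {m : ℕ} {Γ : Type} [Fintype Γ] [DecidableEq Γ]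
  {Q Q' : Type} [Fintype Q] [DecidableEq Q] [Fintype Q'] [DecidableEq Q']
  {col : Γ → Fin (m + 1) × ℕ} {row : Γ → ℕ}

/-- the discriminant of a partition as a product over all pairs of cells -/
private theorem i_cross_DT (κ : Γ → Q) : DT k col row κ =
    (∏ γ, ∏ γ', if κ γ = κ γ' then (if γ ≠ γ' ∧ row γ = row γ' then
      (X (Sum.inl (col γ)) - X (Sum.inl (col γ')) : ST k m) else 1) else 1) *
    (∏ γ, ∏ γ', if κ γ = κ γ' then (if γ ≠ γ' ∧ col γ = col γ' then
      (X (Sum.inr (row γ)) - X (Sum.inr (row γ')) : ST k m) else 1) else 1) := by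
  rw [← i_cross_fiber κ, ← i_cross_fiber κ, ← Finset.prod_mul_distrib]
  unfold DT discT
  refine Finset.prod_congr rfl fun B _ => ?_
  congr 1
  · refine Finset.prod_congr rfl fun i _ => Finset.prod_congr rfl fun j _ => ?_
    refine if_congr ?_ rfl rfl
    rw [Ne, Ne, Subtype.ext_iff]
  · refine Finset.prod_congr rfl fun i _ => Finset.prod_congr rfl fun j _ => ?_
    refine if_congr ?_ rfl rfl
    rw [Ne, Ne, Subtype.ext_iff]

/-- `H` = product of `z_γ - z_γ'` over the pairs in the same row, same block of `κ'`, different blocks of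
`κ`.  All factors of `H` and of `DT κ` are differences of two variables, and no factor of `H` is
associated to a factor of `DT κ` (`X a - X b` is prime; a common prime factor would force the same pair of
variables; but pairs of columns in `H` are in different blocks, those in `DT κ` are in the same block;
`hcol` says that the block depends only on the column). -/
theorem DT_cross (κ : Γ → Q) (κ' : Γ → Q') (s : Q → Q') (hs : ∀ γ, κ' γ = s (κ γ))
    (hcol : ∀ γ γ', col γ = col γ' → κ γ = κ γ')
    (hinj : Function.Injective fun γ => (col γ, row γ)) :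
    ∃ H : ST k m, DT k col row κ' = H * DT k col row κ ∧ H ≠ 0 ∧ IsRelPrime H (DT k col row κ) := by
  have hκ : ∀ γ γ', κ γ = κ γ' → κ' γ = κ' γ' := fun γ γ' h => by rw [hs, hs, h]
  have hne : ∀ γ γ', κ γ ≠ κ γ' → col γ ≠ col γ' := fun γ γ' h h' => h (hcol _ _ h')
  refine ⟨∏ γ, ∏ γ', if κ' γ = κ' γ' ∧ κ γ ≠ κ γ' ∧ row γ = row γ' then
      X (Sum.inl (col γ)) - X (Sum.inl (col γ')) else 1, ?_, ?_, ?_⟩
  · rw [i_cross_DT, i_cross_DT, ← mul_assoc]
    congr 1
    · rw [← Finset.prod_mul_distrib]
      refine Finset.prod_congr rfl fun γ _ => ?_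
      rw [← Finset.prod_mul_distrib]
      refine Finset.prod_congr rfl fun γ' _ => ?_
      by_cases h1 : κ γ = κ γ'
      · simp [h1, hκ γ γ' h1]
      · have h2 : γ ≠ γ' := fun h => h1 (by rw [h])
        by_cases h3 : κ' γ = κ' γ' <;> by_cases h4 : row γ = row γ' <;> simp [h1, h2, h3, h4]
    · refine Finset.prod_congr rfl fun γ _ => Finset.prod_congr rfl fun γ' _ => ?_
      by_cases h1 : col γ = col γ'
      · simp [hcol _ _ h1, hκ _ _ (hcol _ _ h1)]
      · simp [h1]
  · refine Finset.prod_ne_zero_iff.2 fun γ _ => Finset.prod_ne_zero_iff.2 fun γ' _ => ?_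
    split_ifs with h
    · rw [sub_ne_zero]
      intro h'
      exact hne _ _ h.2.1 (Sum.inl_injective (X_injective h'))
    · exact one_ne_zero
  · refine IsRelPrime.prod_left fun γ _ => IsRelPrime.prod_left fun γ' _ => ?_
    split_ifs with h
    · rw [i_cross_DT]
      refine IsRelPrime.mul_right ?_ ?_
      · refine IsRelPrime.prod_right fun δ _ => IsRelPrime.prod_right fun δ' _ => ?_
        split_ifs with h1 h2
        · refine i_cross_relprime _ _ _ _ ?_ ?_ ?_ ?_
          · exact fun e => hne _ _ h.2.1 (Sum.inl_injective e)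
          · intro e
            have e1 := Sum.inl_injective e
            exact h2.1 (hinj (Prod.ext e1 h2.2))
          · rintro ⟨e1, e2⟩
            have e1 := hcol _ _ (Sum.inl_injective e1)
            have e2 := hcol _ _ (Sum.inl_injective e2)
            exact h.2.1 (e1.symm.trans (h1.trans e2))
          · rintro ⟨e1, e2⟩
            have e1 := hcol _ _ (Sum.inl_injective e1)
            have e2 := hcol _ _ (Sum.inl_injective e2)
            exact h.2.1 (e2.symm.trans (h1.symm.trans e1))
        · exact isRelPrime_one_right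
        · exact isRelPrime_one_right
      · refine IsRelPrime.prod_right fun δ _ => IsRelPrime.prod_right fun δ' _ => ?_
        split_ifs with h1 h2
        · refine i_cross_relprime _ _ _ _ ?_ ?_ ?_ ?_
          · exact fun e => hne _ _ h.2.1 (Sum.inl_injective e)
          · intro e
            have e1 := Sum.inr_injective e
            exact h2.1 (hinj (Prod.ext h2.2 e1))
          · rintro ⟨e1, e2⟩
            cases e1
          · rintro ⟨e1, e2⟩
            cases e1
        · exact isRelPrime_one_right
        · exact isRelPrime_one_right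
    · exact isRelPrime_one_left

/-- If `H F` and `D F` are combinations of linearly independent `g_v`, and `H`, `D` are relatively prime
elements of a factorial ring, then `F` is a combination of the `g_v`:  `H F = ∑ a_v g_v`,
`D F = ∑ c_v g_v`, so `H c_v = D a_v`, so `H ∣ a_v`. -/
theorem mem_of_relprime {R : Type} [CommRing R] [IsDomain R] [UniqueFactorizationMonoid R]
    {V Ω : Type} [Fintype V] (g : V → Ω → R) (hg : ∀ x : V → R, (∀ τ, ∑ v, x v * g v τ = 0) → x = 0)
    (F : Ω → R) (H D : R) (hH : H ≠ 0) (hrel : IsRelPrime H D) (a c : V → R)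
    (ha : ∀ τ, H * F τ = ∑ v, a v * g v τ) (hc : ∀ τ, D * F τ = ∑ v, c v * g v τ) :
    ∃ b : V → R, ∀ τ, F τ = ∑ v, b v * g v τ := by
  have h1 : (fun v => D * a v - H * c v) = 0 := by
    refine hg _ fun τ => ?_
    simp only [sub_mul, Finset.sum_sub_distrib]
    have e1 : ∑ v, D * a v * g v τ = D * (H * F τ) := by
      rw [ha, Finset.mul_sum]
      exact Finset.sum_congr rfl fun v _ => mul_assoc _ _ _
    have e2 : ∑ v, H * c v * g v τ = H * (D * F τ) := by
      rw [hc, Finset.mul_sum]
      exact Finset.sum_congr rfl fun v _ => mul_assoc _ _ _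
    rw [e1, e2]
    ring
  have h2 : ∀ v, ∃ b, a v = H * b := fun v => by
    have e : D * a v = H * c v := sub_eq_zero.1 (congrFun h1 v)
    exact hrel.dvd_of_dvd_mul_left ⟨c v, e⟩
  choose b hb using h2
  refine ⟨b, fun τ => mul_left_cancel₀ hH ?_⟩
  rw [ha, Finset.mul_sum]
  exact Finset.sum_congr rfl fun v _ => by rw [hb, mul_assoc]

/-- the cross differences specialise to cross differences: every factor `z_{(b,j)} - z_{(b',j')}` of
`crossT` with `σ b b'`, `¬ π b b'` goes to `ζ_b - ζ_b'`, which divides `crossH k σ π` -/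
theorem sp_crossT (σ π : Setoid (Fin (m + 1))) [DecidableEq (Quotient π)]
    [DecidableEq (Quotient σ)] : ∃ N : ℕ,
    sp k m (crossT k col (fun γ => Quotient.mk π (col γ).1) (fun γ => Quotient.mk σ (col γ).1)) ∣
      crossH k σ π ^ N := by
  refine ⟨Fintype.card Γ * Fintype.card Γ, ?_⟩
  unfold crossT
  rw [map_prod, pow_mul]
  have h : ∀ γ : Γ, sp k m (∏ γ' : Γ, if Quotient.mk σ (col γ).1 = Quotient.mk σ (col γ').1 ∧
      Quotient.mk π (col γ).1 ≠ Quotient.mk π (col γ').1 then
      X (Sum.inl (col γ)) - X (Sum.inl (col γ')) else 1) ∣ crossH k σ π ^ Fintype.card Γ := by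
    intro γ
    rw [map_prod]
    have h1 : ∀ γ' : Γ, sp k m (if Quotient.mk σ (col γ).1 = Quotient.mk σ (col γ').1 ∧
      Quotient.mk π (col γ).1 ≠ Quotient.mk π (col γ').1 then
      X (Sum.inl (col γ)) - X (Sum.inl (col γ')) else 1) ∣ crossH k σ π := by
      intro γ'
      split_ifs with h
      · have e1 : σ (col γ).1 (col γ').1 := Quotient.exact h.1
        have e2 : ¬ π (col γ).1 (col γ').1 := fun e => h.2 (Quotient.sound e)
        have e3 : sp k m (X (Sum.inl (col γ)) - X (Sum.inl (col γ'))) =
            zeta k m (col γ).1 - zeta k m (col γ').1 := by simp [sp]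
        rw [e3]
        unfold crossH
        refine Dvd.dvd.trans ?_ (Finset.dvd_prod_of_mem _ (Finset.mem_univ (col γ).1))
        refine Dvd.dvd.trans ?_ (Finset.dvd_prod_of_mem _ (Finset.mem_univ (col γ').1))
        rw [if_pos ⟨e1, e2⟩]
      · rw [map_one]
        exact one_dvd _
    refine (Finset.prod_dvd_prod_of_dvd _ _ fun γ' _ => h1 γ').trans ?_
    rw [Finset.prod_const, Finset.card_univ]
  refine (Finset.prod_dvd_prod_of_dvd _ _ fun γ _ => h γ).trans ?_
  rw [Finset.prod_const, Finset.card_univ]

private theorem i_cross_zeta_injective : Function.Injective (zeta k m) := by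
  intro i j h
  induction i using Fin.cases with
  | zero =>
    induction j using Fin.cases with
    | zero => rfl
    | succ j => simp only [zeta, Fin.cases_zero, Fin.cases_succ] at h; exact absurd h.symm (X_ne_zero j)
  | succ i =>
    induction j using Fin.cases with
    | zero => simp only [zeta, Fin.cases_zero, Fin.cases_succ] at h; exact absurd h (X_ne_zero i)
    | succ j => simp only [zeta, Fin.cases_succ] at h; rw [X_injective h]

theorem crossH_ne_zero (σ π : Setoid (Fin (m + 1))) : crossH k σ π ≠ 0 := by
  classical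
  refine Finset.prod_ne_zero_iff.2 fun b _ => Finset.prod_ne_zero_iff.2 fun b' _ => ?_
  split_ifs with h
  · rw [sub_ne_zero]
    intro h'
    have e := i_cross_zeta_injective h'
    subst e
    exact h.2 (π.refl _)
  · exact one_ne_zero

end

end Pool.Agent.Lib.MP_463376_co
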