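import Pool.Agent.Lib.MP_463376_co.I_Defs

/-! Stream I, job RAISE: the square of the diagram alternant on the grid -/

namespace Pool.Agent.Lib.MP_463376_co

open MvPolynomial

section aux

variable {R : Type*} [CommRing R] {ι : Type} [Fintype ι] [DecidableEq ι]

theorem raise_fiber (a b : ι → ℕ) (hlow : ∀ i, ∀ a' < a i, ∃ j, a j = a' ∧ b j = b i)
    (hinj : ∀ i j, a i = a j → b i = b j → i = j) (φ : ℕ → R) (i : ι) :
    (∏ j, if b i = b j ∧ a j < a i then φ (a j) else 1) = ∏ a' ∈ Finset.range (a i), φ a' := by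
  rw [← Finset.prod_filter]
  apply Finset.prod_nbij a
  · intro j hj
    exact Finset.mem_range.2 (Finset.mem_filter.1 hj).2.2
  · intro j hj j' hj' h
    have h1 := (Finset.mem_filter.1 (Finset.mem_coe.1 hj)).2.1
    have h2 := (Finset.mem_filter.1 (Finset.mem_coe.1 hj')).2.1
    exact hinj j j' h (h1.symm.trans h2)
  · intro a' ha'
    have h1 := Finset.mem_range.1 (Finset.mem_coe.1 ha')
    obtain ⟨j, hj, hj'⟩ := hlow i a' h1
    refine ⟨j, Finset.mem_coe.2 (Finset.mem_filter.2 ⟨Finset.mem_univ _, hj'.symm, ?_⟩), hj⟩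
    rw [hj]; exact h1
  · intro j _
    rfl

theorem raise_disc (z : ℕ → R) (a b : ι → ℕ)
    (hlow : ∀ i, ∀ a' < a i, ∃ j, a j = a' ∧ b j = b i)
    (hinj : ∀ i j, a i = a j → b i = b j → i = j) :
    (∏ i, ∏ j, if i ≠ j ∧ b i = b j then z (a i) - z (a j) else 1) =
      (-1) ^ (∑ i, a i) * (∏ i, ∏ a' ∈ Finset.range (a i), (z (a i) - z a')) ^ 2 := by
  have h1 : ∀ i j : ι, (if i ≠ j ∧ b i = b j then z (a i) - z (a j) else 1) =
      (if b i = b j ∧ a j < a i then z (a i) - z (a j) else 1) *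
      (if b j = b i ∧ a i < a j then -(z (a j) - z (a i)) else 1) := by
    intro i j
    by_cases hb : b i = b j
    · rcases lt_trichotomy (a i) (a j) with h | h | h
      · have hij : i ≠ j := by rintro rfl; exact lt_irrefl _ h
        rw [if_pos ⟨hij, hb⟩, if_neg (fun h' => absurd h'.2 (not_lt.2 h.le)),
          if_pos ⟨hb.symm, h⟩]
        ring
      · have hij : i = j := hinj i j h hb
        rw [if_neg (fun h' => h'.1 hij), if_neg (fun h' => absurd h'.2 (h ▸ lt_irrefl _)),
          if_neg (fun h' => absurd h'.2 (h ▸ lt_irrefl _)), one_mul]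
      · have hij : i ≠ j := by rintro rfl; exact lt_irrefl _ h
        rw [if_pos ⟨hij, hb⟩, if_pos ⟨hb, h⟩, if_neg (fun h' => absurd h'.2 (not_lt.2 h.le)),
          mul_one]
    · rw [if_neg (fun h' => hb h'.2), if_neg (fun h' => hb h'.1),
        if_neg (fun h' => hb h'.1.symm), one_mul]
  simp_rw [h1, Finset.prod_mul_distrib]
  have h2 : (∏ i, ∏ j, if b i = b j ∧ a j < a i then z (a i) - z (a j) else 1) =
      ∏ i, ∏ a' ∈ Finset.range (a i), (z (a i) - z a') :=
    Finset.prod_congr rfl fun i _ =>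
      raise_fiber a b hlow hinj (fun a' => z (a i) - z a') i
  have h3 : (∏ i, ∏ j, if b j = b i ∧ a i < a j then -(z (a j) - z (a i)) else 1) =
      ∏ j, ∏ a' ∈ Finset.range (a j), (-(z (a j) - z a')) := by
    rw [Finset.prod_comm]
    exact Finset.prod_congr rfl fun i _ =>
      raise_fiber a b hlow hinj (fun a' => -(z (a i) - z a')) i
  have h4 : (∏ j, ∏ a' ∈ Finset.range (a j), (-(z (a j) - z a'))) =
      (-1) ^ (∑ i, a i) * ∏ i, ∏ a' ∈ Finset.range (a i), (z (a i) - z a') := by
    rw [← Finset.prod_pow_eq_pow_sum, ← Finset.prod_mul_distrib]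
    apply Finset.prod_congr rfl
    intro i _
    rw [Finset.prod_neg, Finset.card_range]
  rw [h2, h3, h4]
  ring

open Polynomial in
/-- The Newton polynomial. -/
noncomputable def raiseN (z : ℕ → R) (a : ℕ) : Polynomial R :=
  ∏ j ∈ Finset.range a, (Polynomial.X - Polynomial.C (z j))

theorem raiseN_monic (z : ℕ → R) (a : ℕ) : (raiseN z a).Monic :=
  Polynomial.monic_prod_of_monic _ _ fun j _ => Polynomial.monic_X_sub_C (z j)

theorem raiseN_natDegree_le (z : ℕ → R) (a : ℕ) : (raiseN z a).natDegree ≤ a := by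
  refine (Polynomial.natDegree_prod_le _ _).trans ?_
  refine (Finset.sum_le_sum (fun j _ => Polynomial.natDegree_X_sub_C_le (z j))).trans ?_
  simp

theorem raiseN_coeff_self (z : ℕ → R) (a : ℕ) : (raiseN z a).coeff a = 1 := by
  rcases subsingleton_or_nontrivial R with h | h
  · exact Subsingleton.elim _ _
  · have h1 : (raiseN z a).natDegree = a := by
      rw [raiseN, Polynomial.natDegree_prod_of_monic _ _ fun j _ => Polynomial.monic_X_sub_C (z j)]
      simp
    have h2 := raiseN_monic z a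
    rw [Polynomial.Monic, Polynomial.leadingCoeff, h1] at h2
    exact h2

theorem raiseN_coeff_gt (z : ℕ → R) {a a' : ℕ} (h : a < a') : (raiseN z a).coeff a' = 0 :=
  Polynomial.coeff_eq_zero_of_natDegree_lt (lt_of_le_of_lt (raiseN_natDegree_le z a) h)

theorem raiseN_eval (z : ℕ → R) (a : ℕ) (x : R) :
    (raiseN z a).eval x = ∏ j ∈ Finset.range a, (x - z j) := by
  rw [raiseN, Polynomial.eval_prod]
  simp

theorem raiseN_eval_zero (z : ℕ → R) {a a' : ℕ} (h : a' < a) : (raiseN z a).eval (z a') = 0 := by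
  rw [raiseN_eval]
  exact Finset.prod_eq_zero (Finset.mem_range.2 h) (sub_self _)

/-- the determinant of the monomials of the diagram at the points of the grid -/
theorem raise_det (z w : ℕ → R) (δ : Dia ι) :
    Matrix.det (Matrix.of fun i h : ι => z (δ.c i).1 ^ (δ.c h).1 * w (δ.c i).2 ^ (δ.c h).2) =
      (∏ i, ∏ a' ∈ Finset.range (δ.c i).1, (z (δ.c i).1 - z a')) *
      (∏ i, ∏ a' ∈ Finset.range (δ.c i).2, (w (δ.c i).2 - w a')) := by
  classical
  set M : Matrix ι ι R :=
    Matrix.of fun i h : ι => z (δ.c i).1 ^ (δ.c h).1 * w (δ.c i).2 ^ (δ.c h).2 with hM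
  set U : Matrix ι ι R := Matrix.of fun h' h : ι =>
    (raiseN z (δ.c h).1).coeff (δ.c h').1 * (raiseN w (δ.c h).2).coeff (δ.c h').2 with hU
  set N : Matrix ι ι R := Matrix.of fun i h : ι =>
    (raiseN z (δ.c h).1).eval (z (δ.c i).1) * (raiseN w (δ.c h).2).eval (w (δ.c i).2) with hN
  have hMU : M * U = N := by
    ext i h
    rw [Matrix.mul_apply]
    simp only [hM, hU, hN, Matrix.of_apply]
    set F : ℕ × ℕ → R := fun p => z (δ.c i).1 ^ p.1 * w (δ.c i).2 ^ p.2 *
      ((raiseN z (δ.c h).1).coeff p.1 * (raiseN w (δ.c h).2).coeff p.2) with hF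
    have e1 : (∑ h', z (δ.c i).1 ^ (δ.c h').1 * w (δ.c i).2 ^ (δ.c h').2 *
        ((raiseN z (δ.c h).1).coeff (δ.c h').1 * (raiseN w (δ.c h).2).coeff (δ.c h').2)) =
        ∑ p ∈ Finset.univ.image δ.c, F p := by
      rw [Finset.sum_image (fun x _ y _ hxy => δ.inj hxy)]
    have e2 : ∑ p ∈ Finset.range ((δ.c h).1 + 1) ×ˢ Finset.range ((δ.c h).2 + 1), F p =
        ∑ p ∈ Finset.univ.image δ.c, F p := by
      apply Finset.sum_subset
      · intro p hp
        rw [Finset.mem_product, Finset.mem_range, Finset.mem_range] at hp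
        obtain ⟨b, hb⟩ := δ.low h p ⟨by omega, by omega⟩
        exact Finset.mem_image.2 ⟨b, Finset.mem_univ _, hb⟩
      · intro p _ hp
        rw [Finset.mem_product, Finset.mem_range, Finset.mem_range, not_and_or] at hp
        simp only [hF]
        rcases hp with hp | hp
        · rw [raiseN_coeff_gt z (by omega : (δ.c h).1 < p.1), zero_mul, mul_zero]
        · rw [raiseN_coeff_gt w (by omega : (δ.c h).2 < p.2), mul_zero, mul_zero]
    have e3 : (raiseN z (δ.c h).1).eval (z (δ.c i).1) =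
        ∑ p ∈ Finset.range ((δ.c h).1 + 1), (raiseN z (δ.c h).1).coeff p * z (δ.c i).1 ^ p :=
      Polynomial.eval_eq_sum_range' (Nat.lt_succ_of_le (raiseN_natDegree_le z _)) _
    have e4 : (raiseN w (δ.c h).2).eval (w (δ.c i).2) =
        ∑ p ∈ Finset.range ((δ.c h).2 + 1), (raiseN w (δ.c h).2).coeff p * w (δ.c i).2 ^ p :=
      Polynomial.eval_eq_sum_range' (Nat.lt_succ_of_le (raiseN_natDegree_le w _)) _
    rw [e1, ← e2, e3, e4, Finset.sum_mul_sum, Finset.sum_product]
    apply Finset.sum_congr rfl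
    intro p _
    apply Finset.sum_congr rfl
    intro q _
    simp only [hF]
    ring
  letI ord : LinearOrder ι := LinearOrder.lift' (fun i => toLex (δ.c i))
    (fun i j hij => δ.inj (toLex.injective hij))
  have hlt : ∀ i j : ι, i < j → ¬ (δ.c j ≤ δ.c i) := by
    intro i j hij hle
    have h1 : toLex (δ.c i) < toLex (δ.c j) := hij
    have h2 : toLex (δ.c j) ≤ toLex (δ.c i) := Prod.Lex.toLex_mono hle
    exact absurd h1 (not_lt.2 h2)
  have hdU : U.det = 1 := by
    rw [Matrix.det_of_upperTriangular (M := U)]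
    · apply Finset.prod_eq_one
      intro i _
      simp only [hU, Matrix.of_apply, raiseN_coeff_self, mul_one]
    · intro i j hij
      -- j < i
      have h1 := hlt j i hij
      have h2 : ¬ ((δ.c i).1 ≤ (δ.c j).1 ∧ (δ.c i).2 ≤ (δ.c j).2) := fun h => h1 ⟨h.1, h.2⟩
      simp only [hU, Matrix.of_apply]
      rcases not_and_or.1 h2 with h3 | h3
      · rw [raiseN_coeff_gt z (not_le.1 h3), zero_mul]
      · rw [raiseN_coeff_gt w (not_le.1 h3), mul_zero]
  have hdN : N.det = ∏ i, N i i := by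
    apply Matrix.det_of_lowerTriangular
    intro i j hij
    have hij' : i < j := hij
    have h1 := hlt i j hij'
    have h2 : ¬ ((δ.c j).1 ≤ (δ.c i).1 ∧ (δ.c j).2 ≤ (δ.c i).2) := fun h => h1 ⟨h.1, h.2⟩
    simp only [hN, Matrix.of_apply]
    rcases not_and_or.1 h2 with h3 | h3
    · rw [raiseN_eval_zero z (not_le.1 h3), zero_mul]
    · rw [raiseN_eval_zero w (not_le.1 h3), mul_zero]
  have h5 : M.det = N.det := by
    rw [← hMU, Matrix.det_mul, hdU, mul_one]
  rw [h5, hdN, ← Finset.prod_mul_distrib]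
  apply Finset.prod_congr rfl
  intro i _
  simp only [hN, Matrix.of_apply, raiseN_eval]

end aux

section
variable {k : Type} [Field k] {ι : Type} [Fintype ι] [DecidableEq ι]

theorem raise_mem (D : ι → ℕ × ℕ) {i j : ι} (hij : i ≠ j) : alt k D ∈ pI (k := k) i j := by
  rw [← Ideal.Quotient.eq_zero_iff_mem, alt, RingHom.map_det]
  apply Matrix.det_zero_of_row_eq hij
  funext l
  have hx : Ideal.Quotient.mk (pI (k := k) i j) (xx i) = Ideal.Quotient.mk (pI i j) (xx j) := by
    rw [Ideal.Quotient.eq]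
    exact Ideal.subset_span (Set.mem_insert _ _)
  have hy : Ideal.Quotient.mk (pI (k := k) i j) (yy i) = Ideal.Quotient.mk (pI i j) (yy j) := by
    rw [Ideal.Quotient.eq]
    exact Ideal.subset_span (Set.mem_insert_of_mem _ rfl)
  simp only [RingHom.mapMatrix_apply, Matrix.map_apply, Matrix.of_apply, map_mul, map_pow, hx, hy]

/-- `Δ = dl k δ` lies in every `pI i j` (rows `i`, `j` of the matrix are congruent mod `pI i j`), so
`Δ² ∈ Jd k ι 2`.  The value of `Δ` at the ordering `σ` of the grid is `sign σ` times the determinant of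
the matrix of the monomials at the grid points `(z_{c_i.1}, w_{c_i.2})`.  With the Newton basis
`N_h = ∏_{j < h.1} (x - z_j) ∏_{i < h.2} (y - w_i)` (unitriangular over the monomials of the diagram,
because the diagram is a lower set; `N_h` vanishes at the point of `c` unless `h ≤ c`) this determinant is
`∏_h ∏_{j < h.1} (z_{h.1} - z_j) ∏_{i < h.2} (w_{h.2} - w_i)` (triangular matrix), whose square is
`±  disc k δ` with a sign that depends only on `δ`.  Take `f = ± Δ²`. -/
theorem raise_dia (δ : Dia ι) :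
    ∃ f ∈ Jd k ι 2, ∀ σ : Equiv.Perm ι, evG (δ.c ∘ σ) f = disc k δ := by
  refine ⟨((-1) ^ (∑ i, (δ.c i).1) * (-1) ^ (∑ i, (δ.c i).2)) * dl k δ ^ 2, ?_, ?_⟩
  · apply Ideal.mul_mem_left
    rw [Jd]
    simp only [Ideal.mem_iInf]
    intro i j hij
    exact Ideal.pow_mem_pow (raise_mem δ.c hij) 2
  · intro σ
    have h1 : evG (k := k) (δ.c ∘ σ) (dl k δ) = (Equiv.Perm.sign σ : ℤ) *
        Matrix.det (Matrix.of fun i h : ι =>
          (X (Sum.inl (δ.c i).1) : GG k) ^ (δ.c h).1 * X (Sum.inr (δ.c i).2) ^ (δ.c h).2) := by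
      rw [← Matrix.det_permute, dl, alt]
      have := RingHom.map_det (evG (k := k) (δ.c ∘ σ)).toRingHom (Matrix.of fun i j : ι =>
        xx (k := k) i ^ (δ.c j).1 * yy i ^ (δ.c j).2)
      refine this.trans ?_
      congr 1
      ext1 i j
      simp only [RingHom.mapMatrix_apply, Matrix.map_apply, Matrix.of_apply, map_mul, map_pow,
        Matrix.submatrix_apply, id]
      simp only [AlgHom.toRingHom_eq_coe, RingHom.coe_coe, evG, xx, yy, aeval_X, Sum.elim_inl,
        Sum.elim_inr, Function.comp_apply]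
    have h2 : ((Equiv.Perm.sign σ : ℤ) : GG k) ^ 2 = 1 := by
      rcases Int.units_eq_one_or (Equiv.Perm.sign σ) with h | h <;> rw [h] <;> simp
    rw [map_mul, map_mul, map_pow, map_pow, map_pow, map_neg, map_one, h1, mul_pow, h2, one_mul,
      raise_det (fun j => (X (Sum.inl j) : GG k)) (fun j => X (Sum.inr j)) δ, disc]
    have d1 := raise_disc (fun j => (X (Sum.inl j) : GG k)) (fun i => (δ.c i).1)
      (fun i => (δ.c i).2)
      (fun i a' ha' => by
        obtain ⟨b, hb⟩ := δ.low i (a', (δ.c i).2) ⟨ha'.le, le_rfl⟩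
        exact ⟨b, by rw [hb], by rw [hb]⟩)
      (fun i j h h' => δ.inj (Prod.ext h h'))
    have d2 := raise_disc (fun j => (X (Sum.inr j) : GG k)) (fun i => (δ.c i).2)
      (fun i => (δ.c i).1)
      (fun i a' ha' => by
        obtain ⟨b, hb⟩ := δ.low i ((δ.c i).1, a') ⟨le_rfl, ha'.le⟩
        exact ⟨b, by rw [hb], by rw [hb]⟩)
      (fun i j h h' => δ.inj (Prod.ext h' h))
    rw [d1, d2]
    ring

end

end Pool.Agent.Lib.MP_463376_co
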