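import Pool.Agent.Lib.MP_463376_co.I_Hom
import Pool.Agent.Lib.MP_463376_co.I_Raise

/-! Stream I, job PULL: block data over `ST k m` from the main theorem -/

namespace Pool.Agent.Lib.MP_463376_co

open MvPolynomial

/-- square matrices over a domain: a left inverse up to a nonzero scalar is a right inverse -/
theorem right_dual {R : Type} [CommRing R] [IsDomain R] {V Ω : Type} [Fintype V] [Fintype Ω]
    [DecidableEq V] [DecidableEq Ω] (hc : Fintype.card V = Fintype.card Ω) (g : V → Ω → R)
    (b : Ω → V → R) (D : R) (hD : D ≠ 0)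
    (h : ∀ τ τ', ∑ v, b τ v * g v τ' = if τ = τ' then D else 0) :
    ∀ v v', ∑ τ, g v τ * b τ v' = if v = v' then D else 0 := by
  classical
  let e : V ≃ Ω := Fintype.equivOfCardEq hc
  let B : Matrix V V R := Matrix.of fun v1 v2 => b (e v1) v2
  let G : Matrix V V R := Matrix.of fun v1 v2 => g v1 (e v2)
  have hBG : B * G = D • (1 : Matrix V V R) := by
    ext v1 v2
    rw [Matrix.mul_apply, Matrix.smul_apply, Matrix.one_apply]
    show ∑ v, b (e v1) v * g v (e v2) = _
    rw [h]
    simp only [EmbeddingLike.apply_eq_iff_eq, smul_eq_mul, mul_ite, mul_one, mul_zero]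
  have hdet : B.det ≠ 0 := by
    intro h0
    have h1 : (B * G).det = 0 := by rw [Matrix.det_mul, h0, zero_mul]
    rw [hBG, Matrix.det_smul, Matrix.det_one, mul_one] at h1
    exact pow_ne_zero _ hD h1
  have hGB : G * B = D • (1 : Matrix V V R) := by
    have h1 : B * (G * B - D • (1 : Matrix V V R)) = 0 := by
      rw [mul_sub, ← mul_assoc, hBG]
      simp
    have h2 : B.det • (G * B - D • (1 : Matrix V V R)) = 0 := by
      have h3 : B.adjugate * (B * (G * B - D • (1 : Matrix V V R))) = 0 := by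
        rw [h1, mul_zero]
      rw [← mul_assoc, Matrix.adjugate_mul, smul_mul_assoc, one_mul] at h3
      exact h3
    have h3 : G * B - D • (1 : Matrix V V R) = 0 := by
      ext v1 v2
      have h4 := congrFun (congrFun h2 v1) v2
      rw [Matrix.smul_apply, smul_eq_mul, Matrix.zero_apply] at h4
      exact (mul_eq_zero.1 h4).resolve_left hdet
    exact sub_eq_zero.1 h3
  intro v v'
  have h1 := congrFun (congrFun hGB v) v'
  rw [Matrix.mul_apply, Matrix.smul_apply, Matrix.one_apply] at h1
  rw [← Equiv.sum_comp e (fun τ => g v τ * b τ v')]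
  refine Eq.trans h1 ?_
  simp only [smul_eq_mul, mul_ite, mul_one, mul_zero]

section
variable {k : Type} [Field k] {m : ℕ} {Δ : Type} [Fintype Δ] [DecidableEq Δ]

theorem discT_ne_zero (c : Δ → Fin (m + 1) × ℕ) (r : Δ → ℕ)
    (h : Function.Injective fun i => (c i, r i)) : discT k c r ≠ 0 := by
  unfold discT
  refine mul_ne_zero ?_ ?_
  · refine Finset.prod_ne_zero_iff.2 fun i _ => Finset.prod_ne_zero_iff.2 fun j _ => ?_
    split_ifs with hij
    · rw [sub_ne_zero]
      intro hX
      have h1 := X_injective hX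
      have h2 : c i = c j := Sum.inl_injective h1
      exact hij.1 (h (Prod.ext h2 hij.2))
    · exact one_ne_zero
  · refine Finset.prod_ne_zero_iff.2 fun i _ => Finset.prod_ne_zero_iff.2 fun j _ => ?_
    split_ifs with hij
    · rw [sub_ne_zero]
      intro hX
      have h1 := X_injective hX
      have h2 : r i = r j := Sum.inr_injective h1
      exact hij.1 (h (Prod.ext hij.2 h2))
    · exact one_ne_zero

/-- the ring map -/
private noncomputable def pullPhi (k : Type) [Field k] {m : ℕ} (s : ℕ → Fin (m + 1) × ℕ) :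
    GG k →ₐ[k] ST k m := rename (Sum.map s id)

private theorem pullPhi_inl (s : ℕ → Fin (m + 1) × ℕ) (i : ℕ) :
    pullPhi k s (X (Sum.inl i)) = X (Sum.inl (s i)) := by
  unfold pullPhi
  rw [rename_X]
  rfl

private theorem pullPhi_inr (s : ℕ → Fin (m + 1) × ℕ) (i : ℕ) :
    pullPhi k s (X (Sum.inr i)) = X (Sum.inr i) := by
  unfold pullPhi
  rw [rename_X]
  rfl

/-- Apply the algebra map `φ : GG k → ST k m`, `z_p ↦ z_{s p}`, `w_i ↦ w_i` to everything:
`φ ∘ evG (δ.c ∘ τ) = evT (c ∘ τ) (r ∘ τ)` and `φ (disc k δ) = discT k c r` (as `t` is injective on the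
columns of the cells).  `raise` comes from `raise_dia`, the second half of `dual` from `right_dual`
(`M.card_V`, `Fintype.card (Perm Δ) = (card Δ)!`). -/
theorem BD.ofMain (δ : Dia Δ) (M : MainData k δ) (c : Δ → Fin (m + 1) × ℕ) (r : Δ → ℕ)
    (s : ℕ → Fin (m + 1) × ℕ) (t : Fin (m + 1) × ℕ → ℕ) (h1 : ∀ i, δ.c i = (t (c i), r i))
    (h2 : ∀ i, s (t (c i)) = c i) : ∃ D : BD k m c r, D.toGRep = M.toGRep := by
  classical
  have hev : ∀ (τ : Equiv.Perm Δ) (f : RR k Δ),
      pullPhi k s (evG (δ.c ∘ τ) f) = evT (c ∘ τ) (r ∘ τ) f := by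
    intro τ f
    have h : (pullPhi k s).comp (evG (δ.c ∘ τ)) = evT (c ∘ τ) (r ∘ τ) := by
      refine MvPolynomial.algHom_ext fun v => ?_
      rw [AlgHom.comp_apply]
      unfold evG evT
      rw [aeval_X, aeval_X]
      rcases v with i | i
      · rw [Sum.elim_inl, Sum.elim_inl, pullPhi_inl]
        simp only [Function.comp_apply, h1, h2]
      · rw [Sum.elim_inr, Sum.elim_inr, pullPhi_inr]
        simp only [Function.comp_apply, h1]
    exact congrArg (fun ψ : RR k Δ →ₐ[k] ST k m => ψ f) h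
  have hc : ∀ i j, (δ.c i).1 = (δ.c j).1 ↔ c i = c j := by
    intro i j
    rw [h1, h1]
    constructor
    · intro h
      have h3 := congrArg s h
      simp only [h2] at h3
      exact h3
    · intro h
      rw [h]
  have hr : ∀ i j, (δ.c i).2 = (δ.c j).2 ↔ r i = r j := by
    intro i j
    rw [h1, h1]
  have hdisc : pullPhi k s (disc k δ) = discT k c r := by
    unfold disc discT
    rw [map_mul, map_prod, map_prod]
    congr 1
    · refine Finset.prod_congr rfl fun i _ => ?_
      rw [map_prod]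
      refine Finset.prod_congr rfl fun j _ => ?_
      by_cases hij : i ≠ j ∧ r i = r j
      · rw [if_pos (show i ≠ j ∧ (δ.c i).2 = (δ.c j).2 from ⟨hij.1, (hr i j).2 hij.2⟩),
          if_pos hij, map_sub, pullPhi_inl, pullPhi_inl, h1, h1, h2, h2]
      · rw [if_neg (show ¬ (i ≠ j ∧ (δ.c i).2 = (δ.c j).2) from
          fun h => hij ⟨h.1, (hr i j).1 h.2⟩), if_neg hij, map_one]
    · refine Finset.prod_congr rfl fun i _ => ?_
      rw [map_prod]
      refine Finset.prod_congr rfl fun j _ => ?_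
      by_cases hij : i ≠ j ∧ c i = c j
      · rw [if_pos (show i ≠ j ∧ (δ.c i).1 = (δ.c j).1 from ⟨hij.1, (hc i j).2 hij.2⟩),
          if_pos hij, map_sub, pullPhi_inr, pullPhi_inr, h1, h1]
      · rw [if_neg (show ¬ (i ≠ j ∧ (δ.c i).1 = (δ.c j).1) from
          fun h => hij ⟨h.1, (hc i j).1 h.2⟩), if_neg hij, map_one]
  have hinj : Function.Injective fun i => (c i, r i) := by
    intro i j h
    have h3 : c i = c j := congrArg Prod.fst h
    have h4 : r i = r j := congrArg Prod.snd h
    apply δ.inj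
    rw [h1, h1, h3, h4]
  have hne : discT k c r ≠ 0 := discT_ne_zero c r hinj
  obtain ⟨N, b, hb⟩ := M.dual
  have hb1 : ∀ τ τ' : Equiv.Perm Δ, ∑ v, pullPhi k s (b τ v) * pullPhi k s (M.g v τ') =
      if τ = τ' then discT k c r ^ N else 0 := by
    intro τ τ'
    have h3 := congrArg (pullPhi k s) (hb τ τ')
    rw [map_sum] at h3
    simp only [map_mul] at h3
    rw [h3]
    split_ifs
    · rw [map_pow, hdisc]
    · rw [map_zero]
  refine ⟨{
    toGRep := M.toGRep
    g := fun v τ => pullPhi k s (M.g v τ)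
    g_hom := fun v τ => BH_map (pullPhi k s) s id (pullPhi_inl s) (pullPhi_inr s) _ _ _
      ((isBihom_iff _ _ _).1 (M.g_hom v τ))
    g_mem := ?_
    span := ?_
    dual := ⟨N, fun τ v => pullPhi k s (b τ v), hb1, ?_⟩
    raise := ?_
    equiv := ?_ }, rfl⟩
  · intro v
    obtain ⟨e, f, hf, hfv⟩ := M.g_mem v
    refine ⟨e, f, hf, fun τ => ?_⟩
    rw [← hev, hfv, map_mul, map_pow, hdisc]
  · intro e f hf
    obtain ⟨a, ha⟩ := M.span e f hf
    refine ⟨fun v => pullPhi k s (a v), fun τ => ?_⟩
    rw [← hev, ha, map_mul, map_pow, hdisc, map_sum]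
    simp only [map_mul]
  · exact right_dual (by rw [M.card_V, Fintype.card_perm]) (fun v τ => pullPhi k s (M.g v τ))
      (fun τ v => pullPhi k s (b τ v)) (discT k c r ^ N) (pow_ne_zero _ hne) hb1
  · obtain ⟨f, hf, hf2⟩ := raise_dia (k := k) δ
    refine ⟨f, hf, fun τ => ?_⟩
    rw [← hev, hf2, hdisc]
  · intro w
    obtain ⟨a, ha1, ha2, ha3⟩ := M.equiv w
    refine ⟨fun v' v => pullPhi k s (a v' v), fun v τ => ?_, fun v' v => ?_, fun v' v => ?_⟩
    · rw [ha1, map_sum]
      simp only [map_mul]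
    · rw [← ha2]
      unfold pullPhi
      rw [constantCoeff_rename]
      rfl
    · exact BH_map (pullPhi k s) s id (pullPhi_inl s) (pullPhi_inr s) _ _ _
        ((isBihom_iff _ _ _).1 (ha3 v' v))

end

end Pool.Agent.Lib.MP_463376_co
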