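import Pool.Agent.Lib.MP_463376_co.I_Glue
import Pool.Agent.Lib.MP_463376_co.I_Pull

/-! Stream I, job DUAL: independence and conductor of the family -/

namespace Pool.Agent.Lib.MP_463376_co

open MvPolynomial

section
variable {k : Type} [Field k] {m : ℕ} {Γ : Type} [Fintype Γ] [DecidableEq Γ]
  {Q : Type} [Fintype Q] [DecidableEq Q] {col : Γ → Fin (m + 1) × ℕ} {row : Γ → ℕ} {κ : Γ → Q}

theorem DT_ne_zero (κ : Γ → Q) (hinj : Function.Injective fun γ => (col γ, row γ)) :
    DT k col row κ ≠ 0 := by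
  refine Finset.prod_ne_zero_iff.mpr fun B _ => discT_ne_zero _ _ fun x y h => ?_
  simp only [Prod.mk.injEq] at h
  exact Subtype.ext (hinj (by simp only [Prod.mk.injEq]; exact h))

private theorem i_dual_res_eq_iff {τ τ' : Equiv.Perm Γ} (I : Pat κ)
    (h : ∀ i, κ (τ i) = I.1 i) (h' : ∀ i, κ (τ' i) = I.1 i) :
    (∀ B, res κ (τ * (eI I)⁻¹) B = res κ (τ' * (eI I)⁻¹) B) ↔ τ = τ' := by
  have key : ∀ σ : Equiv.Perm Γ, (∀ i, κ (σ i) = I.1 i) → ∀ x, κ ((σ * (eI I)⁻¹) x) = κ x := by
    intro σ hσ x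
    rw [Equiv.Perm.mul_apply, hσ, ← eI_spec I ((eI I)⁻¹ x)]
    exact congrArg κ ((eI I).apply_symm_apply x)
  constructor
  · intro hB
    have h1 := glue_res κ (τ * (eI I)⁻¹) (key τ h)
    have h2 := glue_res κ (τ' * (eI I)⁻¹) (key τ' h')
    have h3 : (fun B => res κ (τ * (eI I)⁻¹) B) = fun B => res κ (τ' * (eI I)⁻¹) B := funext hB
    rw [h3, h2] at h1
    exact (mul_right_cancel h1).symm
  · rintro rfl B
    rfl

/-- With the dual elements `b_B` of the blocks put, for `τ` with pattern `I` (as an element of `Pat κ`),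
`c τ ⟨I', v⟩ = if I' = I then ∏ B, b_B (res κ (τ * (eI I)⁻¹) B) (v B) else 0`.
Then `∑ v, c τ v * GF D v τ' = if τ = τ' then ∏ B, disc_B ^ N_B else 0` and
`∑ τ, GF D v τ * c τ v' = if v = v' then ∏ B, disc_B ^ N_B else 0`  (`sum_prod_pi`, `sum_pattern`).
`∏ B, disc_B ^ N_B` divides `DT ^ N`, `N = ∑ N_B`. -/
theorem GF_dual (D : BDs k col row κ) : ∃ (N : ℕ) (c : Equiv.Perm Γ → Idx D → ST k m),
    (∀ τ τ' : Equiv.Perm Γ, ∑ v, c τ v * GF D v τ' = if τ = τ' then DT k col row κ ^ N else 0) ∧
    (∀ v v' : Idx D, ∑ τ, GF D v τ * c τ v' = if v = v' then DT k col row κ ^ N else 0) := by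
  classical
  choose NB bB hB using fun B => (D B).dual
  have hB1 := fun B => (hB B).1
  have hB2 := fun B => (hB B).2
  let E : ST k m := ∏ B : Q, discT k (fun γ : {γ : Γ // κ γ = B} => col γ.1) (fun γ => row γ.1) ^ NB B
  let E' : ST k m := ∏ B : Q,
    discT k (fun γ : {γ : Γ // κ γ = B} => col γ.1) (fun γ => row γ.1) ^ ((∑ B, NB B) - NB B)
  have hE : E' * E = DT k col row κ ^ (∑ B, NB B) := by
    simp only [E, E', DT]
    rw [← Finset.prod_mul_distrib, ← Finset.prod_pow]
    refine Finset.prod_congr rfl fun B _ => ?_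
    rw [← pow_add]
    congr 1
    have : NB B ≤ ∑ B, NB B := Finset.single_le_sum (fun _ _ => Nat.zero_le _) (Finset.mem_univ B)
    omega
  let c0 : Equiv.Perm Γ → Idx D → ST k m := fun τ v =>
    if ∀ i, κ (τ i) = v.1.1 i then ∏ B, bB B (res κ (τ * (eI v.1)⁻¹) B) (v.2 B) else 0
  have h1 : ∀ τ τ' : Equiv.Perm Γ, ∑ v, c0 τ v * GF D v τ' = if τ = τ' then E else 0 := by
    intro τ τ'
    rw [Fintype.sum_sigma]
    have hin : ∀ I : Pat κ, ∑ v : (∀ B, (D B).V), c0 τ ⟨I, v⟩ * GF D ⟨I, v⟩ τ' =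
        if (∀ i, κ (τ i) = I.1 i) ∧ τ = τ' then E else 0 := by
      intro I
      by_cases hp : ∀ i, κ (τ i) = I.1 i
      · by_cases hp' : ∀ i, κ (τ' i) = I.1 i
        · have e1 : ∀ v : (∀ B, (D B).V), c0 τ ⟨I, v⟩ * GF D ⟨I, v⟩ τ' =
              ∏ B, (bB B (res κ (τ * (eI I)⁻¹) B) (v B) *
                (D B).g (v B) (res κ (τ' * (eI I)⁻¹) B)) := by
            intro v
            simp only [c0, GF]
            rw [if_pos hp, if_pos hp', Finset.prod_mul_distrib]
          rw [Finset.sum_congr rfl fun v _ => e1 v]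
          rw [sum_prod_pi (fun B v => bB B (res κ (τ * (eI I)⁻¹) B) v *
            (D B).g v (res κ (τ' * (eI I)⁻¹) B))]
          rw [Finset.prod_congr rfl fun B _ => hB1 B _ _]
          by_cases ht : τ = τ'
          · rw [if_pos ⟨hp, ht⟩]
            refine Finset.prod_congr rfl fun B _ => ?_
            rw [if_pos ((i_dual_res_eq_iff I hp hp').mpr ht B)]
          · rw [if_neg fun h => ht h.2]
            have h3 : ¬ ∀ B, res κ (τ * (eI I)⁻¹) B = res κ (τ' * (eI I)⁻¹) B :=
              fun h => ht ((i_dual_res_eq_iff I hp hp').mp h)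
            obtain ⟨B, hne⟩ := not_forall.mp h3
            exact Finset.prod_eq_zero (Finset.mem_univ B) (if_neg hne)
        · rw [if_neg]
          · refine Finset.sum_eq_zero fun v _ => ?_
            simp only [GF]
            rw [if_neg hp', mul_zero]
          · rintro ⟨_, rfl⟩
            exact hp' hp
      · rw [if_neg fun h => hp h.1]
        refine Finset.sum_eq_zero fun v _ => ?_
        simp only [c0]
        rw [if_neg hp, zero_mul]
    rw [Finset.sum_congr rfl fun I _ => hin I]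
    by_cases ht : τ = τ'
    · rw [if_pos ht]
      refine (Finset.sum_eq_single (⟨fun i => κ (τ i), τ, fun _ => rfl⟩ : Pat κ) ?_ ?_).trans ?_
      · intro I _ hI
        refine if_neg ?_
        rintro ⟨h, _⟩
        exact hI (Subtype.ext (funext fun i => (h i).symm))
      · intro h
        exact absurd (Finset.mem_univ _) h
      · exact if_pos ⟨fun _ => rfl, ht⟩
    · rw [if_neg ht]
      exact Finset.sum_eq_zero fun I _ => if_neg fun h => ht h.2
  have h2 : ∀ v v' : Idx D, ∑ τ, GF D v τ * c0 τ v' = if v = v' then E else 0 := by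
    rintro ⟨I, v⟩ ⟨I', v'⟩
    by_cases hI : I = I'
    · subst hI
      have e1 : ∀ τ : Equiv.Perm Γ, GF D ⟨I, v⟩ τ * c0 τ ⟨I, v'⟩ =
          if ∀ i, κ (τ i) = I.1 i then
            (fun u : (∀ B : Q, Equiv.Perm {γ : Γ // κ γ = B}) =>
              ∏ B, ((D B).g (v B) (u B) * bB B (u B) (v' B)))
              (fun B => res κ (τ * (eI I)⁻¹) B) else 0 := by
        intro τ
        simp only [c0, GF]
        by_cases hp : ∀ i, κ (τ i) = I.1 i
        · rw [if_pos hp, if_pos hp, if_pos hp, Finset.prod_mul_distrib]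
        · rw [if_neg hp, if_neg hp, if_neg hp, zero_mul]
      refine (Finset.sum_congr rfl fun τ _ => e1 τ).trans ((sum_pattern κ I
        (fun u : (∀ B : Q, Equiv.Perm {γ : Γ // κ γ = B}) =>
          ∏ B, ((D B).g (v B) (u B) * bB B (u B) (v' B)))).trans ?_)
      rw [sum_prod_pi (fun B u => (D B).g (v B) u * bB B u (v' B))]
      rw [Finset.prod_congr rfl fun B _ => hB2 B _ _]
      by_cases hv : v = v'
      · subst hv
        rw [if_pos rfl]
        exact Finset.prod_congr rfl fun B _ => if_pos rfl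
      · rw [if_neg]
        · obtain ⟨B, hne⟩ := Function.ne_iff.mp hv
          exact Finset.prod_eq_zero (Finset.mem_univ B) (if_neg hne)
        · intro h
          exact hv (eq_of_heq (Sigma.mk.inj_iff.mp h).2)
    · rw [if_neg fun h => hI (Sigma.mk.inj_iff.mp h).1]
      refine Finset.sum_eq_zero fun τ _ => ?_
      simp only [c0, GF]
      by_cases hp : ∀ i, κ (τ i) = I.1 i
      · by_cases hp' : ∀ i, κ (τ i) = I'.1 i
        · exact absurd (Subtype.ext (funext fun i => (hp i).symm.trans (hp' i))) hI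
        · rw [if_neg hp', mul_zero]
      · rw [if_neg hp, zero_mul]
  refine ⟨∑ B, NB B, fun τ v => E' * c0 τ v, ?_, ?_⟩
  · intro τ τ'
    have : ∑ v, E' * c0 τ v * GF D v τ' = E' * ∑ v, c0 τ v * GF D v τ' := by
      rw [Finset.mul_sum]
      exact Finset.sum_congr rfl fun v _ => mul_assoc _ _ _
    rw [this, h1]
    by_cases ht : τ = τ'
    · rw [if_pos ht, if_pos ht, hE]
    · rw [if_neg ht, if_neg ht, mul_zero]
  · intro v v'
    have : ∑ τ, GF D v τ * (E' * c0 τ v') = E' * ∑ τ, GF D v τ * c0 τ v' := by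
      rw [Finset.mul_sum]
      exact Finset.sum_congr rfl fun τ _ => by ring
    rw [this, h2]
    by_cases ht : v = v'
    · rw [if_pos ht, if_pos ht, hE]
    · rw [if_neg ht, if_neg ht, mul_zero]

theorem GF_indep (hinj : Function.Injective fun γ => (col γ, row γ)) (D : BDs k col row κ)
    (x : Idx D → ST k m) (hx : ∀ τ, ∑ v, x v * GF D v τ = 0) : x = 0 := by
  obtain ⟨N, c, _, h2⟩ := GF_dual D
  funext v'
  have h3 : ∑ τ, (∑ v, x v * GF D v τ) * c τ v' = x v' * DT k col row κ ^ N := by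
    calc ∑ τ, (∑ v, x v * GF D v τ) * c τ v'
        = ∑ τ, ∑ v, x v * (GF D v τ * c τ v') := by
          refine Finset.sum_congr rfl fun τ _ => ?_
          rw [Finset.sum_mul]
          exact Finset.sum_congr rfl fun v _ => mul_assoc _ _ _
      _ = ∑ v, x v * ∑ τ, GF D v τ * c τ v' := by
          rw [Finset.sum_comm]
          exact Finset.sum_congr rfl fun v _ => (Finset.mul_sum _ _ _).symm
      _ = ∑ v, x v * (if v = v' then DT k col row κ ^ N else 0) := by
          exact Finset.sum_congr rfl fun v _ => by rw [h2]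
      _ = x v' * DT k col row κ ^ N := by
          rw [Finset.sum_eq_single v']
          · rw [if_pos rfl]
          · intro v _ hv
            rw [if_neg hv, mul_zero]
          · intro h
            exact absurd (Finset.mem_univ _) h
  have h4 : ∑ τ, (∑ v, x v * GF D v τ) * c τ v' = 0 :=
    Finset.sum_eq_zero fun τ _ => by rw [hx, zero_mul]
  rw [h3] at h4
  exact (mul_eq_zero.mp h4).resolve_right (pow_ne_zero _ (DT_ne_zero κ hinj))

/-- every function becomes a combination after multiplication by a power of the discriminant -/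
theorem GF_conductor (D : BDs k col row κ) : ∃ N : ℕ, ∀ F : Equiv.Perm Γ → ST k m,
    ∃ a : Idx D → ST k m, ∀ τ, DT k col row κ ^ N * F τ = ∑ v, a v * GF D v τ := by
  obtain ⟨N, c, h1, _⟩ := GF_dual D
  refine ⟨N, fun F => ⟨fun v => ∑ τ', F τ' * c τ' v, fun τ => ?_⟩⟩
  symm
  calc ∑ v, (∑ τ', F τ' * c τ' v) * GF D v τ
      = ∑ v, ∑ τ', F τ' * (c τ' v * GF D v τ) := by
        refine Finset.sum_congr rfl fun v _ => ?_
        rw [Finset.sum_mul]
        exact Finset.sum_congr rfl fun τ' _ => mul_assoc _ _ _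
    _ = ∑ τ', F τ' * ∑ v, c τ' v * GF D v τ := by
        rw [Finset.sum_comm]
        exact Finset.sum_congr rfl fun τ' _ => (Finset.mul_sum _ _ _).symm
    _ = ∑ τ', F τ' * (if τ' = τ then DT k col row κ ^ N else 0) := by
        exact Finset.sum_congr rfl fun τ' _ => by rw [h1]
    _ = DT k col row κ ^ N * F τ := by
        rw [Finset.sum_eq_single τ]
        · rw [if_pos rfl, mul_comm]
        · intro τ' _ h
          rw [if_neg h, mul_zero]
        · intro h
          exact absurd (Finset.mem_univ _) h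

end

end Pool.Agent.Lib.MP_463376_co
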