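import Pool.Agent.Lib.MP_463376_co.I_Defs

/-! Stream I, job TENSOR: the intersection of the ideals `p_ij^d` over pairs in the same block is the
tensor product of the ideals of the blocks -/

set_option linter.unusedSectionVars false

namespace Pool.Agent.Lib.MP_463376_co

open MvPolynomial

section
variable {k : Type} [Field k] {Γ : Type} [Fintype Γ] [DecidableEq Γ] {Q : Type} [Fintype Q]
  [DecidableEq Q]

private theorem i_tensor_coeff {σ S : Type} [CommRing S] [Algebra k S] (P : S →ₗ[k] S)
    (F : MvPolynomial σ S) (m : σ →₀ ℕ) :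
    coeff m (∑ m' ∈ F.support, monomial m' (P (coeff m' F))) = P (coeff m F) := by
  classical
  rw [coeff_sum]
  simp only [coeff_monomial]
  rw [Finset.sum_ite_eq']
  split_ifs with h
  · rfl
  · rw [notMem_support_iff.1 h, map_zero]

/-- Apply a linear map to the coefficients. -/
private noncomputable def i_tensor_cw {σ S : Type} [CommRing S] [Algebra k S] (P : S →ₗ[k] S) :
    MvPolynomial σ S →ₗ[k] MvPolynomial σ S where
  toFun F := ∑ m ∈ F.support, monomial m (P (coeff m F))
  map_add' F G := by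
    ext1 m
    rw [coeff_add, i_tensor_coeff, i_tensor_coeff, i_tensor_coeff, coeff_add, map_add]
  map_smul' c F := by
    ext1 m
    rw [RingHom.id_apply, coeff_smul, i_tensor_coeff, i_tensor_coeff, coeff_smul, map_smul]

private theorem i_tensor_coeff_cw {σ S : Type} [CommRing S] [Algebra k S] (P : S →ₗ[k] S)
    (F : MvPolynomial σ S) (m : σ →₀ ℕ) : coeff m (i_tensor_cw P F) = P (coeff m F) :=
  i_tensor_coeff P F m

private theorem i_tensor_cw_C {σ S : Type} [CommRing S] [Algebra k S] (P : S →ₗ[k] S) (u : S) :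
    i_tensor_cw P (C u : MvPolynomial σ S) = C (P u) := by
  classical
  ext1 m
  rw [i_tensor_coeff_cw, coeff_C, coeff_C]
  split_ifs
  · rfl
  · exact map_zero P

private theorem i_tensor_cw_mul {σ S : Type} [CommRing S] [Algebra k S] (P : S →ₗ[k] S)
    (g : MvPolynomial σ k) (F : MvPolynomial σ S) :
    i_tensor_cw P (map (algebraMap k S) g * F) = map (algebraMap k S) g * i_tensor_cw P F := by
  classical
  ext1 m
  rw [i_tensor_coeff_cw, coeff_mul, coeff_mul, map_sum]
  refine Finset.sum_congr rfl fun x _ => ?_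
  rw [i_tensor_coeff_cw, coeff_map, ← Algebra.smul_def, ← Algebra.smul_def, map_smul]

/-- The inclusion of the polynomials of a block. -/
private noncomputable def i_tensor_io (k : Type) [Field k] {Γ Q : Type} (κ : Γ → Q) (B : Q) :
    RR k {γ : Γ // κ γ = B} →ₐ[k] RR k Γ := rename (Sum.map Subtype.val Subtype.val)

/-- Separate the variables of the block `B`. -/
private noncomputable def i_tensor_phi (k : Type) [Field k] {Γ Q : Type} [DecidableEq Q]
    (κ : Γ → Q) (B : Q) :
    RR k Γ →ₐ[k] MvPolynomial (Γ ⊕ Γ) (RR k {γ : Γ // κ γ = B}) :=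
  aeval (Sum.elim (fun γ => if h : κ γ = B then C (X (Sum.inl ⟨γ, h⟩)) else X (Sum.inl γ))
    (fun γ => if h : κ γ = B then C (X (Sum.inr ⟨γ, h⟩)) else X (Sum.inr γ)))

private noncomputable def i_tensor_psi (k : Type) [Field k] {Γ Q : Type} (κ : Γ → Q) (B : Q) :
    MvPolynomial (Γ ⊕ Γ) (RR k {γ : Γ // κ γ = B}) →+* RR k Γ :=
  eval₂Hom (i_tensor_io k κ B).toRingHom X

private theorem i_tensor_psi_phi (κ : Γ → Q) (B : Q) (f : RR k Γ) :
    i_tensor_psi k κ B (i_tensor_phi k κ B f) = f := by
  have h : (i_tensor_psi k κ B).comp (i_tensor_phi k κ B).toRingHom = RingHom.id _ := by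
    apply MvPolynomial.ringHom_ext
    · intro r
      simp [i_tensor_psi, i_tensor_phi, i_tensor_io, MvPolynomial.algebraMap_apply]
    · rintro (γ | γ)
      · by_cases hγ : κ γ = B
        · simp [i_tensor_psi, i_tensor_phi, i_tensor_io, hγ]
        · simp [i_tensor_psi, i_tensor_phi, i_tensor_io, hγ]
      · by_cases hγ : κ γ = B
        · simp [i_tensor_psi, i_tensor_phi, i_tensor_io, hγ]
        · simp [i_tensor_psi, i_tensor_phi, i_tensor_io, hγ]
  exact congrArg (fun φ => φ f) h

private theorem i_tensor_psi_C (κ : Γ → Q) (B : Q) (u : RR k {γ : Γ // κ γ = B}) :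
    i_tensor_psi k κ B (C u) = i_tensor_io k κ B u := by
  simp [i_tensor_psi]

private theorem i_tensor_phi_same (κ : Γ → Q) (B : Q) (u : RR k {γ : Γ // κ γ = B}) :
    i_tensor_phi k κ B (i_tensor_io k κ B u) = C u := by
  have h : (i_tensor_phi k κ B).comp (i_tensor_io k κ B) =
      (IsScalarTower.toAlgHom k (RR k {γ : Γ // κ γ = B})
        (MvPolynomial (Γ ⊕ Γ) (RR k {γ : Γ // κ γ = B}))) := by
    apply MvPolynomial.algHom_ext
    rintro (⟨γ, hγ⟩ | ⟨γ, hγ⟩)
    · simp [i_tensor_phi, i_tensor_io, hγ, MvPolynomial.algebraMap_eq]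
    · simp [i_tensor_phi, i_tensor_io, hγ, MvPolynomial.algebraMap_eq]
  exact congrArg (fun φ => φ u) h

private theorem i_tensor_phi_ne (κ : Γ → Q) (B B' : Q) (hB : B' ≠ B)
    (u : RR k {γ : Γ // κ γ = B'}) :
    i_tensor_phi k κ B (i_tensor_io k κ B' u) =
      map (algebraMap k (RR k {γ : Γ // κ γ = B})) (i_tensor_io k κ B' u) := by
  have h : (i_tensor_phi k κ B).comp (i_tensor_io k κ B') =
      (mapAlgHom (Algebra.ofId k (RR k {γ : Γ // κ γ = B}))).comp (i_tensor_io k κ B') := by
    apply MvPolynomial.algHom_ext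
    rintro (⟨γ, hγ⟩ | ⟨γ, hγ⟩)
    · have h' : κ γ ≠ B := fun h => hB (hγ.symm.trans h)
      simp [i_tensor_phi, i_tensor_io, h']
    · have h' : κ γ ≠ B := fun h => hB (hγ.symm.trans h)
      simp [i_tensor_phi, i_tensor_io, h']
  exact congrArg (fun φ => φ u) h

private theorem i_tensor_phi_mem (κ : Γ → Q) (B : Q) {f : RR k Γ} {d : ℕ}
    (hf : ∀ i j, i ≠ j → κ i = B → κ j = B → f ∈ (pI i j : Ideal (RR k Γ)) ^ d)
    (m : (Γ ⊕ Γ) →₀ ℕ) :
    coeff m (i_tensor_phi k κ B f) ∈ Jd k {γ : Γ // κ γ = B} d := by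
  rw [Jd]
  simp only [Ideal.mem_iInf]
  rintro ⟨i, hi⟩ ⟨j, hj⟩ hij
  have hij' : i ≠ j := fun h => hij (Subtype.ext h)
  have h1 := hf i j hij' hi hj
  have h2 : i_tensor_phi k κ B f ∈ Ideal.map (i_tensor_phi k κ B) ((pI i j : Ideal (RR k Γ)) ^ d) :=
    Ideal.mem_map_of_mem _ h1
  have h3 : Ideal.map (i_tensor_phi k κ B) (pI i j : Ideal (RR k Γ)) =
      Ideal.map (C : RR k {γ : Γ // κ γ = B} →+* _)
        (pI (⟨i, hi⟩ : {γ : Γ // κ γ = B}) ⟨j, hj⟩) := by
    rw [pI, pI, Ideal.map_span, Ideal.map_span]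
    congr 1
    rw [Set.image_pair, Set.image_pair]
    have e1 : i_tensor_phi k κ B (xx i - xx j) =
        C (xx (⟨i, hi⟩ : {γ : Γ // κ γ = B}) - xx ⟨j, hj⟩) := by
      simp [i_tensor_phi, xx, hi, hj]
    have e2 : i_tensor_phi k κ B (yy i - yy j) =
        C (yy (⟨i, hi⟩ : {γ : Γ // κ γ = B}) - yy ⟨j, hj⟩) := by
      simp [i_tensor_phi, yy, hi, hj]
    rw [e1, e2]
  rw [Ideal.map_pow, h3, ← Ideal.map_pow] at h2
  exact MvPolynomial.mem_map_C_iff.1 h2 m

/-- Products. -/
private noncomputable def i_tensor_E (k : Type) [Field k] {Γ Q : Type} [Fintype Q] (κ : Γ → Q) (d : Q → ℕ)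
    (S : Set Q) : Submodule k (RR k Γ) :=
  Submodule.span k {g : RR k Γ | ∃ h : ∀ B : Q, RR k {γ : Γ // κ γ = B},
      (∀ B ∈ S, h B ∈ Jd k {γ : Γ // κ γ = B} (d B)) ∧ g = ∏ B, i_tensor_io k κ B (h B)}

private theorem i_tensor_base (κ : Γ → Q) (d : Q → ℕ) (f : RR k Γ) :
    f ∈ i_tensor_E k κ d ∅ := by
  induction f using MvPolynomial.induction_on with
  | C a =>
    have h1 : (C a : RR k Γ) = a • (1 : RR k Γ) := by rw [smul_eq_C_mul, mul_one]
    rw [h1]
    refine Submodule.smul_mem _ _ (Submodule.subset_span ⟨fun _ => 1, ?_, ?_⟩)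
    · intro B hB; exact absurd hB (Set.notMem_empty B)
    · simp
  | add p q hp hq => exact Submodule.add_mem _ hp hq
  | mul_X p i hp =>
    have key : ∀ (B0 : Q) (u : RR k {γ : Γ // κ γ = B0}) (x : RR k Γ),
        x ∈ i_tensor_E k κ d ∅ → x * i_tensor_io k κ B0 u ∈ i_tensor_E k κ d ∅ := by
      intro B0 u x hx
      refine Submodule.span_induction ?_ ?_ ?_ ?_ hx
      · rintro _ ⟨h, -, rfl⟩
        refine Submodule.subset_span ⟨Function.update h B0 (h B0 * u), ?_, ?_⟩
        · intro B hB; exact absurd hB (Set.notMem_empty B)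
        · rw [← Finset.mul_prod_erase Finset.univ _ (Finset.mem_univ B0),
            ← Finset.mul_prod_erase Finset.univ (fun B => i_tensor_io k κ B
              (Function.update h B0 (h B0 * u) B)) (Finset.mem_univ B0),
            Function.update_self, map_mul]
          have : ∀ B ∈ Finset.univ.erase B0, i_tensor_io k κ B
              (Function.update h B0 (h B0 * u) B) = i_tensor_io k κ B (h B) := by
            intro B hB
            rw [Function.update_of_ne (Finset.ne_of_mem_erase hB)]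
          rw [Finset.prod_congr rfl this]
          ring
      · rw [zero_mul]; exact Submodule.zero_mem _
      · intro x y _ _ hx hy
        rw [add_mul]; exact Submodule.add_mem _ hx hy
      · intro a x _ hx
        rw [smul_mul_assoc]; exact Submodule.smul_mem _ _ hx
    rcases i with γ | γ
    · have e : (X (Sum.inl γ) : RR k Γ) = i_tensor_io k κ (κ γ) (X (Sum.inl ⟨γ, rfl⟩)) := by
        simp [i_tensor_io]
      rw [e]
      exact key _ _ _ hp
    · have e : (X (Sum.inr γ) : RR k Γ) = i_tensor_io k κ (κ γ) (X (Sum.inr ⟨γ, rfl⟩)) := by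
        simp [i_tensor_io]
      rw [e]
      exact key _ _ _ hp

private theorem i_tensor_step (κ : Γ → Q) (d : Q → ℕ) (f : RR k Γ)
    (hf : ∀ i j, i ≠ j → κ i = κ j → f ∈ (pI i j : Ideal (RR k Γ)) ^ d (κ i)) (S : Set Q) (B : Q)
    (hfS : f ∈ i_tensor_E k κ d S) : f ∈ i_tensor_E k κ d (insert B S) := by
  classical
  set W : Submodule k (RR k {γ : Γ // κ γ = B}) := (Jd k {γ : Γ // κ γ = B} (d B)).restrictScalars k
    with hW
  obtain ⟨g, hg⟩ := LinearMap.exists_leftInverse_of_injective W.subtype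
    (LinearMap.ker_eq_bot.2 W.injective_subtype)
  set P0 : RR k {γ : Γ // κ γ = B} →ₗ[k] RR k {γ : Γ // κ γ = B} := W.subtype.comp g with hP0
  have hP1 : ∀ v, P0 v ∈ Jd k {γ : Γ // κ γ = B} (d B) := fun v => (g v).2
  have hP2 : ∀ v ∈ Jd k {γ : Γ // κ γ = B} (d B), P0 v = v := by
    intro v hv
    have h1 : g (W.subtype ⟨v, hv⟩) = ⟨v, hv⟩ := congrArg (fun φ => φ (⟨v, hv⟩ : W)) hg
    show ((g v : W) : RR k {γ : Γ // κ γ = B}) = v
    have h2 : g v = ⟨v, hv⟩ := h1
    rw [h2]
  set P : RR k Γ → RR k Γ := fun x => i_tensor_psi k κ B (i_tensor_cw P0 (i_tensor_phi k κ B x))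
    with hP
  have hPf : P f = f := by
    have h1 : i_tensor_cw P0 (i_tensor_phi k κ B f) = i_tensor_phi k κ B f := by
      ext1 m
      rw [i_tensor_coeff_cw]
      refine hP2 _ (i_tensor_phi_mem κ B ?_ m)
      intro i j hij hi hj
      have := hf i j hij (hi.trans hj.symm)
      rwa [hi] at this
    show i_tensor_psi k κ B (i_tensor_cw P0 (i_tensor_phi k κ B f)) = f
    rw [h1, i_tensor_psi_phi]
  have hpsi_smul : ∀ (c : k) (F : MvPolynomial (Γ ⊕ Γ) (RR k {γ : Γ // κ γ = B})),
      i_tensor_psi k κ B (c • F) = c • i_tensor_psi k κ B F := by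
    intro c F
    rw [Algebra.smul_def, Algebra.smul_def, map_mul]
    congr 1
    rw [IsScalarTower.algebraMap_apply k (RR k {γ : Γ // κ γ = B})
      (MvPolynomial (Γ ⊕ Γ) (RR k {γ : Γ // κ γ = B})), MvPolynomial.algebraMap_eq,
      i_tensor_psi_C, AlgHom.commutes]
  have key : ∀ x ∈ i_tensor_E k κ d S, P x ∈ i_tensor_E k κ d (insert B S) := by
    intro x hx
    refine Submodule.span_induction ?_ ?_ ?_ ?_ hx
    · rintro _ ⟨h, hh, rfl⟩
      refine Submodule.subset_span ⟨Function.update h B (P0 (h B)), ?_, ?_⟩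
      · intro B' hB'
        by_cases e : B' = B
        · subst e
          rw [Function.update_self]
          exact hP1 _
        · rw [Function.update_of_ne e]
          exact hh B' (hB'.resolve_left e)
      · rw [← Finset.prod_erase_mul Finset.univ (fun B' => i_tensor_io k κ B' (h B'))
            (Finset.mem_univ B),
          ← Finset.prod_erase_mul Finset.univ (fun B' => i_tensor_io k κ B'
            (Function.update h B (P0 (h B)) B')) (Finset.mem_univ B), Function.update_self]
        have e1 : ∀ B' ∈ Finset.univ.erase B, i_tensor_io k κ B'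
            (Function.update h B (P0 (h B)) B') = i_tensor_io k κ B' (h B') := by
          intro B' hB'
          rw [Function.update_of_ne (Finset.ne_of_mem_erase hB')]
        rw [Finset.prod_congr rfl e1]
        set G : RR k Γ := ∏ B' ∈ Finset.univ.erase B, i_tensor_io k κ B' (h B') with hG
        have e2 : i_tensor_phi k κ B G = map (algebraMap k (RR k {γ : Γ // κ γ = B})) G := by
          rw [hG, map_prod, map_prod]
          exact Finset.prod_congr rfl fun B' hB' =>
            i_tensor_phi_ne κ B B' (Finset.ne_of_mem_erase hB') _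
        show i_tensor_psi k κ B (i_tensor_cw P0 (i_tensor_phi k κ B (G * i_tensor_io k κ B (h B)))) =
          G * i_tensor_io k κ B (P0 (h B))
        rw [map_mul, i_tensor_phi_same, e2, i_tensor_cw_mul, i_tensor_cw_C, map_mul,
          i_tensor_psi_C, ← e2, i_tensor_psi_phi]
    · show i_tensor_psi k κ B (i_tensor_cw P0 (i_tensor_phi k κ B 0)) ∈ _
      rw [map_zero, map_zero, map_zero]
      exact Submodule.zero_mem _
    · intro x y _ _ hx hy
      show i_tensor_psi k κ B (i_tensor_cw P0 (i_tensor_phi k κ B (x + y))) ∈ _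
      rw [map_add, map_add, map_add]
      exact Submodule.add_mem _ hx hy
    · intro a x _ hx
      show i_tensor_psi k κ B (i_tensor_cw P0 (i_tensor_phi k κ B (a • x))) ∈ _
      rw [map_smul, map_smul, hpsi_smul]
      exact Submodule.smul_mem _ _ hx
  rw [← hPf]
  exact key f hfS

/-- Suggested proof.  `R = RR k Γ`, `R_B = RR k {γ // κ γ = B}`, `ι_B : R_B → R` the renaming,
`W_B = Jd k _ (d B)` (a `k`-subspace of `R_B`).  Split exponents `e : Γ ⊕ Γ →₀ ℕ` into the parts
`e_B`.  For a block `B` and an exponent `e'` vanishing on `B` let `slice_{B,e'} : R →ₗ[k] R_B`,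
`coeff e_B (slice f) = coeff (e_B + e') f`; it is `R_B`-linear (`slice (ι_B g * f) = g * slice f`), so it
maps the ideal `(ι_B p_ij)^d` of `R` to `p_ij^d`, hence `slice f ∈ W_B` for our `f`.
Choose `k`-linear projections `P_B : R_B → R_B` onto `W_B` (`P_B` is the identity on `W_B` and has range
in `W_B`; `Submodule.exists_isCompl` / `LinearMap.exists_leftInverse_of_injective`).
For a finite set `S` of blocks let `T_S : R →ₗ[k] R` be defined on monomials by
`T_S (monomial e 1) = ∏_B ι_B (if B ∈ S then P_B (monomial e_B 1) else monomial e_B 1)`.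
`T_∅ = id`; `T_{insert B S} = T_S ∘ T_{B}`; `T_{B} f = f` if all slices of `f` at `B` are in `W_B`;
so `T_univ f = f` for our `f`, and `T_univ f` is visibly in the span.
(Any other proof is welcome, e.g. by induction on the number of blocks.) -/
theorem tensor_decomp (κ : Γ → Q) (d : Q → ℕ) (f : RR k Γ)
    (hf : ∀ i j, i ≠ j → κ i = κ j → f ∈ (pI i j : Ideal (RR k Γ)) ^ d (κ i)) :
    f ∈ Submodule.span k {g : RR k Γ | ∃ h : ∀ B : Q, RR k {γ : Γ // κ γ = B},
      (∀ B, h B ∈ Jd k {γ : Γ // κ γ = B} (d B)) ∧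
      g = ∏ B, rename (Sum.map Subtype.val Subtype.val) (h B)} := by
  classical
  have h1 : ∀ S : Finset Q, f ∈ i_tensor_E k κ d (S : Set Q) := by
    intro S
    induction S using Finset.induction_on with
    | empty =>
      rw [Finset.coe_empty]
      exact i_tensor_base κ d f
    | insert B S _ ih =>
      rw [Finset.coe_insert]
      exact i_tensor_step κ d f hf _ B ih
  have h2 := h1 Finset.univ
  refine Submodule.span_mono ?_ h2
  rintro g ⟨h, hh, rfl⟩
  exact ⟨h, fun B => hh B (Finset.mem_coe.2 (Finset.mem_univ B)), rfl⟩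

end

end Pool.Agent.Lib.MP_463376_co
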