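import Pool.Agent.Lib.MP_463376_co.I_Glue
import Pool.Agent.Lib.MP_463376_co.I_Tensor

/-! Stream I, job SPAN: polynomials in the ideals are combinations of the basis functions -/

namespace Pool.Agent.Lib.MP_463376_co

open MvPolynomial

section

/-- renaming along an equivalence maps `J^(d)` to `J^(d)` -/
private theorem i_span_rename {k : Type} [Field k] {ι ι' : Type} (φ : ι ≃ ι') (d : ℕ) (f : RR k ι)
    (hf : f ∈ Jd k ι d) : rename (Sum.map φ φ) f ∈ Jd k ι' d := by
  simp only [Jd, Ideal.mem_iInf] at hf ⊢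
  intro i j hij
  have h1 := hf (φ.symm i) (φ.symm j) (fun h => hij (φ.symm.injective h))
  have h2 : rename (Sum.map φ φ) f ∈ Ideal.map (rename (Sum.map φ φ) : RR k ι →ₐ[k] RR k ι').toRingHom
      ((pI (φ.symm i) (φ.symm j) : Ideal (RR k ι)) ^ d) := Ideal.mem_map_of_mem _ h1
  rw [Ideal.map_pow] at h2
  have h3 : Ideal.map (rename (Sum.map φ φ) : RR k ι →ₐ[k] RR k ι').toRingHom
      (pI (φ.symm i) (φ.symm j) : Ideal (RR k ι)) = pI i j := by
    unfold pI
    rw [Ideal.map_span]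
    congr 1
    rw [Set.image_pair]
    simp [xx, yy]
  rwa [h3] at h2

/-- evaluation of a renamed polynomial -/
private theorem i_span_ev {k : Type} [Field k] {m : ℕ} {Δ Δ' : Type} (s : Δ → Δ')
    (c : Δ' → Fin (m + 1) × ℕ) (r : Δ' → ℕ) (f : RR k Δ) :
    evT c r (rename (Sum.map s s) f) = evT (c ∘ s) (r ∘ s) f := by
  unfold evT
  rw [aeval_rename]
  congr 1
  congr 1
  funext x
  cases x <;> rfl

variable {k : Type} [Field k] {m : ℕ} {Γ : Type} [Fintype Γ] [DecidableEq Γ]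
  {Q : Type} [Fintype Q] [DecidableEq Q] {col : Γ → Fin (m + 1) × ℕ} {row : Γ → ℕ} {κ : Γ → Q}

/-- the case of a product -/
private theorem i_span_prod (D : BDs k col row κ) (I : Pat κ) (e : ℕ)
    (h : ∀ B : Q, RR k {i : Γ // I.1 i = B}) (hh : ∀ B, h B ∈ Jd k {i : Γ // I.1 i = B} (2 * e)) :
    ∃ a : Idx D → ST k m, ∀ τ : Equiv.Perm Γ,
      (if ∀ i, κ (τ i) = I.1 i then evT (col ∘ τ) (row ∘ τ)
        (∏ B, rename (Sum.map Subtype.val Subtype.val) (h B)) else 0) =
        DT k col row κ ^ e * ∑ v, a v * GF D v τ := by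
  have hw : ∀ B : Q, ∀ i : Γ, I.1 i = B ↔ κ (eI I i) = B := fun B i => by rw [eI_spec I i]
  let φ : ∀ B : Q, {i : Γ // I.1 i = B} ≃ {γ : Γ // κ γ = B} := fun B =>
    (eI I).subtypeEquiv (fun i => hw B i)
  have hφ : ∀ B (i : {i : Γ // I.1 i = B}), (φ B i).1 = eI I i.1 := fun B i => rfl
  have h' : ∀ B, ∃ a : (D B).V → ST k m, ∀ τ : Equiv.Perm {γ : Γ // κ γ = B},
      evT ((fun γ : {γ : Γ // κ γ = B} => col γ.1) ∘ τ) ((fun γ : {γ : Γ // κ γ = B} => row γ.1) ∘ τ)
        (rename (Sum.map (φ B) (φ B)) (h B)) =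
      discT k (fun γ : {γ : Γ // κ γ = B} => col γ.1) (fun γ => row γ.1) ^ e *
        ∑ v, a v * (D B).g v τ := fun B => (D B).span e _ (i_span_rename (φ B) _ _ (hh B))
  choose a ha using h'
  refine ⟨fun v => if v.1 = I then ∏ B, a B (v.2 B) else 0, fun τ => ?_⟩
  have hsum : ∑ v : Idx D, (if v.1 = I then ∏ B, a B (v.2 B) else 0) * GF D v τ =
      ∑ v : (∀ B : Q, (D B).V), (∏ B, a B (v B)) * GF D ⟨I, v⟩ τ := by
    rw [Fintype.sum_sigma]
    rw [Finset.sum_eq_single I]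
    · simp
    · intro J _ hJ
      simp [hJ]
    · intro hI
      exact absurd (Finset.mem_univ I) hI
  rw [hsum]
  by_cases hτ : ∀ i, κ (τ i) = I.1 i
  · rw [if_pos hτ]
    have hu : ∀ x, κ ((τ * (eI I)⁻¹) x) = κ x := by
      intro x
      rw [Equiv.Perm.mul_apply, hτ, ← eI_spec I,
        show eI I ((eI I)⁻¹ x) = x from (eI I).apply_symm_apply x]
    rw [map_prod]
    have hfac : ∀ B : Q, evT (k := k) (col ∘ τ) (row ∘ τ)
        (rename (Sum.map Subtype.val Subtype.val) (h B)) =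
        discT k (fun γ : {γ : Γ // κ γ = B} => col γ.1) (fun γ => row γ.1) ^ e *
        ∑ v, a B v * (D B).g v (res κ (τ * (eI I)⁻¹) B) := by
      intro B
      rw [← ha B, i_span_ev, i_span_ev]
      congr 1
      have hpt : ∀ i : {i : Γ // I.1 i = B},
          ((res κ (τ * (eI I)⁻¹) B (φ B i) : {γ : Γ // κ γ = B}) : Γ) = τ i.1 := by
        intro i
        rw [res_apply κ _ hu, hφ, Equiv.Perm.mul_apply,
          show (eI I)⁻¹ (eI I i.1) = i.1 from (eI I).symm_apply_apply i.1]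
      congr 1
      · funext i
        simp only [Function.comp_apply, hpt]
      · funext i
        simp only [Function.comp_apply, hpt]
    rw [Finset.prod_congr rfl fun B _ => hfac B, Finset.prod_mul_distrib, Finset.prod_pow]
    have hDT : (∏ B : Q, discT k (fun γ : {γ : Γ // κ γ = B} => col γ.1) (fun γ => row γ.1)) =
        DT k col row κ := rfl
    rw [hDT]
    congr 1
    rw [← sum_prod_pi]
    refine Finset.sum_congr rfl fun v _ => ?_
    rw [Finset.prod_mul_distrib]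
    congr 1
    unfold GF
    rw [if_pos hτ]
  · rw [if_neg hτ]
    have h0 : ∀ v : (∀ B : Q, (D B).V), (∏ B, a B (v B)) * GF D ⟨I, v⟩ τ = 0 := by
      intro v
      have : GF D ⟨I, v⟩ τ = 0 := by
        unfold GF
        rw [if_neg hτ]
      rw [this, mul_zero]
    rw [Finset.sum_congr rfl fun v _ => h0 v]
    simp

/-- If no ordering has the pattern `I` take `a = 0`.  Otherwise let `I : Pat κ`; by `tensor_decomp` (for
the map `I : Γ → Q` and `d B = 2 e`) and linearity assume `f = ∏ B, rename (Sum.map val val) (h B)` with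
`h B ∈ Jd k {i // I i = B} (2 e)`.  Rename `h B` along the bijection `{i // I i = B} ≃ {γ // κ γ = B}`,
`i ↦ eI I i`, to get `h' B ∈ Jd k {γ // κ γ = B} (2 e)` with
`evT (col ∘ τ) (row ∘ τ) (rename _ (h B)) = evT (col ∘ τ_B) (row ∘ τ_B) (h' B)`,
`τ_B = res κ (τ * (eI I)⁻¹) B`, for `τ` with pattern `I`; apply `(D B).span` and `sum_prod_pi`; the
coefficients are supported on the indices `⟨I, _⟩`. -/
theorem GF_span (D : BDs k col row κ) (I : Γ → Q) (e : ℕ) (f : RR k Γ)
    (hf : ∀ i j, i ≠ j → I i = I j → f ∈ (pI i j : Ideal (RR k Γ)) ^ (2 * e)) :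
    ∃ a : Idx D → ST k m, ∀ τ : Equiv.Perm Γ,
      (if ∀ i, κ (τ i) = I i then evT (col ∘ τ) (row ∘ τ) f else 0) =
        DT k col row κ ^ e * ∑ v, a v * GF D v τ := by
  by_cases hI : ∃ τ : Equiv.Perm Γ, ∀ i, κ (τ i) = I i
  · have key := tensor_decomp I (fun _ => 2 * e) f hf
    refine Submodule.span_induction (p := fun f _ => ∃ a : Idx D → ST k m, ∀ τ : Equiv.Perm Γ,
      (if ∀ i, κ (τ i) = I i then evT (col ∘ τ) (row ∘ τ) f else 0) =
        DT k col row κ ^ e * ∑ v, a v * GF D v τ) ?_ ?_ ?_ ?_ key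
    · rintro g ⟨h, hh, rfl⟩
      exact i_span_prod D ⟨I, hI⟩ e h hh
    · exact ⟨0, fun τ => by simp⟩
    · rintro g g' _ _ ⟨a, ha⟩ ⟨a', ha'⟩
      refine ⟨a + a', fun τ => ?_⟩
      have h1 : ∑ v, (a + a') v * GF D v τ = ∑ v, a v * GF D v τ + ∑ v, a' v * GF D v τ := by
        rw [← Finset.sum_add_distrib]
        exact Finset.sum_congr rfl fun v _ => by rw [Pi.add_apply, add_mul]
      rw [h1, mul_add, ← ha τ, ← ha' τ]
      by_cases hτ : ∀ i, κ (τ i) = I i
      · rw [if_pos hτ, if_pos hτ, if_pos hτ, map_add]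
      · rw [if_neg hτ, if_neg hτ, if_neg hτ, add_zero]
    · rintro c g _ ⟨a, ha⟩
      refine ⟨fun v => c • a v, fun τ => ?_⟩
      have h1 : ∑ v, (c • a v) * GF D v τ = c • ∑ v, a v * GF D v τ := by
        rw [Finset.smul_sum]
        exact Finset.sum_congr rfl fun v _ => by rw [smul_mul_assoc]
      rw [h1, mul_smul_comm, ← ha τ]
      by_cases hτ : ∀ i, κ (τ i) = I i
      · rw [if_pos hτ, if_pos hτ, map_smul]
      · rw [if_neg hτ, if_neg hτ, smul_zero]
  · refine ⟨0, fun τ => ?_⟩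
    rw [if_neg (fun h => hI ⟨τ, h⟩)]
    simp

end

end Pool.Agent.Lib.MP_463376_co
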