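import Pool.Agent.Lib.MP_463376_co.I_Mem
import Pool.Agent.Lib.MP_463376_co.I_Span
import Pool.Agent.Lib.MP_463376_co.I_Dual
import Pool.Agent.Lib.MP_463376_co.I_Cross

/-! Stream I, job INCL: the family of a coarser partition is contained in the family of a finer one -/

namespace Pool.Agent.Lib.MP_463376_co

open MvPolynomial

section
variable {k : Type} [Field k] {m : ℕ} {Γ : Type} [Fintype Γ] [DecidableEq Γ]
  {Q Q' : Type} [Fintype Q] [DecidableEq Q] [Fintype Q'] [DecidableEq Q']
  {col : Γ → Fin (m + 1) × ℕ} {row : Γ → ℕ} {κ : Γ → Q} {κ' : Γ → Q'}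

/-- Let `(e, f)` be as in `GF_mem D' v`, `I = v.1.1 : Γ → Q'`.  For every `I' : Γ → Q` with `s ∘ I' = I`
apply `GF_span D I' e f` and add up (for each `τ` exactly one `I'`, namely `κ ∘ τ`, contributes, and only if
`κ' ∘ τ = I`): `DT κ ^ e * ∑ ... = DT κ' ^ e * GF D' v τ = H ^ e * DT κ ^ e * GF D' v τ`; cancel `DT κ ^ e`.
So `H ^ e * GF D' v` is a combination of the `GF D`; so is `DT κ ^ N * GF D' v` (`GF_conductor`);
conclude with `mem_of_relprime`, `GF_indep`, `DT_cross`. -/
theorem GF_incl (s : Q → Q') (hs : ∀ γ, κ' γ = s (κ γ))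
    (hcol : ∀ γ γ', col γ = col γ' → κ γ = κ γ')
    (hinj : Function.Injective fun γ => (col γ, row γ)) (D : BDs k col row κ)
    (D' : BDs k col row κ') (v : Idx D') :
    ∃ a : Idx D → ST k m, ∀ τ, GF D' v τ = ∑ v', a v' * GF D v' τ := by
  classical
  obtain ⟨e, f, hf, hfv⟩ := GF_mem D' v
  obtain ⟨H, hH, hH0, hrel⟩ := DT_cross (k := k) (col := col) (row := row) κ κ' s hs hcol hinj
  obtain ⟨N, hN⟩ := GF_conductor D
  obtain ⟨c, hc⟩ := hN (fun τ => GF D' v τ)
  have hspan : ∀ I' : Γ → Q, (∀ i, s (I' i) = v.1.1 i) → ∃ a : Idx D → ST k m,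
      ∀ τ : Equiv.Perm Γ, (if ∀ i, κ (τ i) = I' i then evT (col ∘ τ) (row ∘ τ) f else 0) =
        DT k col row κ ^ e * ∑ v, a v * GF D v τ := by
    intro I' hI'
    refine GF_span D I' e f fun i j hij hI => hf i j hij ?_
    rw [← hI' i, ← hI' j, hI]
  choose! a ha using hspan
  set S : Finset (Γ → Q) := Finset.univ.filter fun I' => ∀ i, s (I' i) = v.1.1 i with hS
  have key : ∀ τ : Equiv.Perm Γ, DT k col row κ' ^ e * GF D' v τ =
      DT k col row κ ^ e * ∑ w, (∑ I' ∈ S, a I' w) * GF D w τ := by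
    intro τ
    rw [hfv τ]
    have h1 : (if ∀ i, κ' (τ i) = v.1.1 i then evT (col ∘ τ) (row ∘ τ) f else 0) =
        ∑ I' ∈ S, (if ∀ i, κ (τ i) = I' i then evT (col ∘ τ) (row ∘ τ) f else 0) := by
      by_cases h : ∀ i, κ' (τ i) = v.1.1 i
      · rw [if_pos h, Finset.sum_eq_single (fun i => κ (τ i))]
        · rw [if_pos fun i => rfl]
        · intro I' _ hI'
          rw [if_neg]
          intro h'
          exact hI' (funext fun i => (h' i).symm)
        · intro h'
          exfalso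
          apply h'
          rw [hS, Finset.mem_filter]
          exact ⟨Finset.mem_univ _, fun i => by rw [← hs, h i]⟩
      · rw [if_neg h, Finset.sum_eq_zero]
        intro I' hI'
        rw [if_neg]
        intro h'
        apply h
        intro i
        rw [hS, Finset.mem_filter] at hI'
        rw [hs, h' i, hI'.2 i]
    rw [h1, Finset.sum_congr rfl fun I' hI' => ha I' (by
      rw [hS, Finset.mem_filter] at hI'
      exact hI'.2) τ, ← Finset.mul_sum, Finset.sum_comm]
    congr 1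
    exact Finset.sum_congr rfl fun w _ => (Finset.sum_mul _ _ _).symm
  have hDT : DT k col row κ ^ e ≠ 0 := pow_ne_zero e (DT_ne_zero κ hinj)
  refine mem_of_relprime (GF D) (GF_indep hinj D) (fun τ => GF D' v τ) (H ^ e)
    (DT k col row κ ^ N) (pow_ne_zero e hH0) (hrel.pow) (fun w => ∑ I' ∈ S, a I' w) c
    (fun τ => ?_) hc
  have h2 := key τ
  rw [hH, mul_pow] at h2
  apply mul_left_cancel₀ hDT
  rw [← h2]
  ring

end

end Pool.Agent.Lib.MP_463376_co
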