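import Pool.Agent.Lib.MP_463376_co.I_Mem
import Pool.Agent.Lib.MP_463376_co.I_Span
import Pool.Agent.Lib.MP_463376_co.I_Dual
import Pool.Agent.Lib.MP_463376_co.I_Cross

/-! Stream I, job LOC: cross differences carry the finer family into the coarser one -/

namespace Pool.Agent.Lib.MP_463376_co

open MvPolynomial

section
variable {k : Type} [Field k] {m : ℕ} {Γ : Type} [Fintype Γ] [DecidableEq Γ]
  {Q Q' : Type} [Fintype Q] [DecidableEq Q] [Fintype Q'] [DecidableEq Q']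
  {col : Γ → Fin (m + 1) × ℕ} {row : Γ → ℕ} {κ : Γ → Q} {κ' : Γ → Q'}

/-- the span of the family is stable under multiplication by the functions `τ ↦ z_{col (τ i)}`:
for `F = GF D v` take `(e, f)` from `GF_mem` and apply `GF_span` to `xx i * f`; cancel `DT ^ e` -/
theorem GF_mul_x (hinj : Function.Injective fun γ => (col γ, row γ)) (D : BDs k col row κ) (i : Γ)
    (F : Equiv.Perm Γ → ST k m) (hF : ∃ a : Idx D → ST k m, ∀ τ, F τ = ∑ v, a v * GF D v τ) :
    ∃ a : Idx D → ST k m, ∀ τ, X (Sum.inl (col (τ i))) * F τ = ∑ v, a v * GF D v τ := by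
  have hDT := DT_ne_zero (k := k) κ hinj
  have key : ∀ v : Idx D, ∃ b : Idx D → ST k m, ∀ τ,
      X (Sum.inl (col (τ i))) * GF D v τ = ∑ v', b v' * GF D v' τ := by
    intro v
    obtain ⟨e, f, hf, h1⟩ := GF_mem D v
    obtain ⟨a, ha⟩ := GF_span D v.1.1 e (xx i * f)
      (fun i' j hij hI => Ideal.mul_mem_left _ _ (hf i' j hij hI))
    refine ⟨a, fun τ => mul_left_cancel₀ (pow_ne_zero e hDT) ?_⟩
    rw [← ha τ, mul_left_comm, h1 τ]
    split_ifs with h
    · rw [map_mul]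
      congr 1
      simp [evT, xx]
    · rw [mul_zero]
  choose b hb using key
  obtain ⟨a, ha⟩ := hF
  refine ⟨fun v' => ∑ v, a v * b v v', fun τ => ?_⟩
  rw [ha τ, Finset.mul_sum]
  calc ∑ v, X (Sum.inl (col (τ i))) * (a v * GF D v τ)
      = ∑ v, ∑ v', a v * b v v' * GF D v' τ := by
        refine Finset.sum_congr rfl fun v _ => ?_
        rw [mul_left_comm, hb v τ, Finset.mul_sum]
        exact Finset.sum_congr rfl fun v' _ => (mul_assoc _ _ _).symm
    _ = ∑ v', (∑ v, a v * b v v') * GF D v' τ := by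
        rw [Finset.sum_comm]
        exact Finset.sum_congr rfl fun v' _ => (Finset.sum_mul _ _ _).symm

/-- multiplication by a difference -/
private theorem i_loc_factor (hinj : Function.Injective fun γ => (col γ, row γ))
    (D : BDs k col row κ) (p : Prop) [Decidable p] (i γ : Γ)
    (F : Equiv.Perm Γ → ST k m) (hF : ∃ a : Idx D → ST k m, ∀ τ, F τ = ∑ v, a v * GF D v τ) :
    ∃ a : Idx D → ST k m, ∀ τ, (if p then X (Sum.inl (col (τ i))) - X (Sum.inl (col γ)) else 1) *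
      F τ = ∑ v, a v * GF D v τ := by
  by_cases hp : p
  · obtain ⟨a, ha⟩ := GF_mul_x hinj D i F hF
    obtain ⟨b, hb⟩ := hF
    refine ⟨fun v => a v - X (Sum.inl (col γ)) * b v, fun τ => ?_⟩
    rw [if_pos hp, sub_mul, ha τ, hb τ, Finset.mul_sum, ← Finset.sum_sub_distrib]
    exact Finset.sum_congr rfl fun v _ => by ring
  · simp only [if_neg hp, one_mul]
    exact hF

private theorem i_loc_prod (hinj : Function.Injective fun γ => (col γ, row γ))
    (D : BDs k col row κ) {T : Type} [DecidableEq T] (S : Finset T)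
    (c : T → Equiv.Perm Γ → ST k m)
    (hc : ∀ t ∈ S, ∀ F : Equiv.Perm Γ → ST k m,
      (∃ a : Idx D → ST k m, ∀ τ, F τ = ∑ v, a v * GF D v τ) →
      ∃ a : Idx D → ST k m, ∀ τ, c t τ * F τ = ∑ v, a v * GF D v τ)
    (F : Equiv.Perm Γ → ST k m) (hF : ∃ a : Idx D → ST k m, ∀ τ, F τ = ∑ v, a v * GF D v τ) :
    ∃ a : Idx D → ST k m, ∀ τ, (∏ t ∈ S, c t τ) * F τ = ∑ v, a v * GF D v τ := by
  induction S using Finset.induction_on with
  | empty => simpa using hF
  | insert t S ht ih =>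
    obtain ⟨a, ha⟩ := ih fun t ht => hc t (Finset.mem_insert_of_mem ht)
    obtain ⟨b, hb⟩ := hc t (Finset.mem_insert_self t S) (fun τ => (∏ t ∈ S, c t τ) * F τ) ⟨a, ha⟩
    refine ⟨b, fun τ => ?_⟩
    rw [Finset.prod_insert ht, mul_assoc]
    exact hb τ

/-- Let `(e, f)` be as in `GF_mem D v`, `I' = v.1.1 : Γ → Q`, `I = s ∘ I'`.
`q = ∏_{i,j : I i = I j, I' i ≠ I' j} (x_i - x_j)^(2e)`; `f q` satisfies the hypothesis of `GF_span D' I e`,
so there is a combination `F1` of the `GF D'` with `DT κ' ^ e * F1 τ = [κ' ∘ τ = I] ev_τ (f q)`.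
Multiply `F1` by `E τ = ∏_i ∏_{γ : κ' γ = I i, κ γ ≠ I' i} (z_{col (τ i)} - z_{col γ})` (`GF_mul_x`
repeatedly): `E τ = 0` if `κ' ∘ τ = I` but `κ ∘ τ ≠ I'`; if `κ ∘ τ = I'`, reindexing by `τ` gives
`E τ = crossT κ κ'` and `ev_τ q = crossT κ κ' ^ (2e)`.  With `DT κ' = H * DT κ` (`DT_cross`), after
cancelling `DT κ ^ e`:  `H ^ e * E * F1 = crossT ^ (2e+1) * GF D v`. -/
theorem GF_loc (s : Q → Q') (hs : ∀ γ, κ' γ = s (κ γ))
    (hcol : ∀ γ γ', col γ = col γ' → κ γ = κ γ')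
    (hinj : Function.Injective fun γ => (col γ, row γ)) (D : BDs k col row κ)
    (D' : BDs k col row κ') (v : Idx D) :
    ∃ (N : ℕ) (a : Idx D' → ST k m), ∀ τ,
      crossT k col κ κ' ^ N * GF D v τ = ∑ v', a v' * GF D' v' τ := by
  classical
  have hDT := DT_ne_zero (k := k) κ hinj
  have hDT' := DT_ne_zero (k := k) κ' hinj
  obtain ⟨e, f, hf, h1⟩ := GF_mem D v
  obtain ⟨H, hH, -, -⟩ := DT_cross (k := k) κ κ' s hs hcol hinj
  set I' : Γ → Q := v.1.1 with hI'
  set I : Γ → Q' := fun i => s (I' i) with hI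
  set q : RR k Γ := ∏ i, ∏ j, if I i = I j ∧ I' i ≠ I' j then (xx i - xx j) ^ (2 * e) else 1
    with hq
  obtain ⟨a1, ha1⟩ := GF_span D' I e (f * q) (by
    intro i j hij hIij
    by_cases h : I' i = I' j
    · exact Ideal.mul_mem_right _ _ (hf i j hij h)
    · refine Ideal.mul_mem_left _ _ ?_
      rw [hq, ← Finset.mul_prod_erase _ _ (Finset.mem_univ i)]
      refine Ideal.mul_mem_right _ _ ?_
      rw [← Finset.mul_prod_erase _ _ (Finset.mem_univ j)]
      refine Ideal.mul_mem_right _ _ ?_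
      rw [if_pos ⟨hIij, h⟩]
      exact Ideal.pow_mem_pow (Ideal.subset_span (by simp)) _)
  obtain ⟨a2, ha2⟩ := i_loc_prod hinj D' (Finset.univ : Finset Γ)
    (fun i τ => ∏ γ : Γ, if κ' γ = I i ∧ κ γ ≠ I' i then
      X (Sum.inl (col (τ i))) - X (Sum.inl (col γ)) else 1)
    (fun i _ F hF => i_loc_prod hinj D' (Finset.univ : Finset Γ)
      (fun γ τ => if κ' γ = I i ∧ κ γ ≠ I' i then
        X (Sum.inl (col (τ i))) - X (Sum.inl (col γ)) else 1)
      (fun γ _ F hF => i_loc_factor hinj D' _ i γ F hF) F hF)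
    (fun τ => ∑ v', a1 v' * GF D' v' τ) ⟨a1, fun τ => rfl⟩
  refine ⟨2 * e + 1, fun v' => H ^ e * a2 v', fun τ => ?_⟩
  have hsum : ∑ v', H ^ e * a2 v' * GF D' v' τ = H ^ e * ∑ v', a2 v' * GF D' v' τ := by
    rw [Finset.mul_sum]
    exact Finset.sum_congr rfl fun v' _ => mul_assoc _ _ _
  rw [hsum, ← ha2 τ]
  by_cases hc : ∀ i, κ (τ i) = I' i
  · have hE : (∏ i : Γ, ∏ γ : Γ, if κ' γ = I i ∧ κ γ ≠ I' i then
        (X (Sum.inl (col (τ i))) - X (Sum.inl (col γ)) : ST k m) else 1) = crossT k col κ κ' := by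
      rw [crossT]
      refine Eq.trans ?_ (Equiv.prod_comp τ (fun γ => ∏ γ', if κ' γ = κ' γ' ∧ κ γ ≠ κ γ' then
        (X (Sum.inl (col γ)) - X (Sum.inl (col γ')) : ST k m) else 1))
      refine Finset.prod_congr rfl fun i _ => Finset.prod_congr rfl fun γ _ => ?_
      have e1 : I i = κ' (τ i) := by rw [hs, hc i]
      rw [e1, ← hc i]
      have e2 : (κ' γ = κ' (τ i) ∧ κ γ ≠ κ (τ i)) ↔ (κ' (τ i) = κ' γ ∧ κ (τ i) ≠ κ γ) := by
        constructor <;> rintro ⟨h1, h2⟩ <;> exact ⟨h1.symm, h2.symm⟩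
      simp only [e2]
    have hqe : evT (col ∘ τ) (row ∘ τ) q = crossT k col κ κ' ^ (2 * e) := by
      rw [hq, map_prod, crossT, ← Finset.prod_pow]
      refine Eq.trans ?_ (Equiv.prod_comp τ (fun γ => (∏ γ', if κ' γ = κ' γ' ∧ κ γ ≠ κ γ' then
        (X (Sum.inl (col γ)) - X (Sum.inl (col γ')) : ST k m) else 1) ^ (2 * e)))
      refine Finset.prod_congr rfl fun i _ => ?_
      rw [map_prod, ← Finset.prod_pow]
      refine Eq.trans ?_ (Equiv.prod_comp τ (fun γ' => (if κ' (τ i) = κ' γ' ∧ κ (τ i) ≠ κ γ' then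
        (X (Sum.inl (col (τ i))) - X (Sum.inl (col γ')) : ST k m) else 1) ^ (2 * e)))
      refine Finset.prod_congr rfl fun j _ => ?_
      have e1 : ∀ i, I i = κ' (τ i) := fun i => by rw [hs, hc i]
      simp only [e1, ← hc]
      split_ifs with h
      · simp [evT, xx]
      · simp
    have h2 := ha1 τ
    rw [if_pos (fun i => by rw [hs, hc i]), map_mul, hqe] at h2
    have h3 := h1 τ
    rw [if_pos hc] at h3
    rw [← h3, hH, mul_pow] at h2
    have h4 : crossT k col κ κ' ^ (2 * e) * GF D v τ = H ^ e * ∑ v', a1 v' * GF D' v' τ := by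
      apply mul_left_cancel₀ (pow_ne_zero e hDT)
      linear_combination h2
    rw [hE, pow_succ]
    linear_combination crossT k col κ κ' * h4
  · have h3 : GF D v τ = 0 := by
      have h3 := h1 τ
      rw [if_neg hc] at h3
      exact (mul_eq_zero.1 h3).resolve_left (pow_ne_zero e hDT)
    rw [h3, mul_zero]
    by_cases hc' : ∀ i, κ' (τ i) = I i
    · push Not at hc
      obtain ⟨i, hi⟩ := hc
      have hE : (∏ i : Γ, ∏ γ : Γ, if κ' γ = I i ∧ κ γ ≠ I' i then
        (X (Sum.inl (col (τ i))) - X (Sum.inl (col γ)) : ST k m) else 1) = 0 := by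
        refine Finset.prod_eq_zero (Finset.mem_univ i) ?_
        refine Finset.prod_eq_zero (Finset.mem_univ (τ i)) ?_
        rw [if_pos ⟨hc' i, hi⟩, sub_self]
      rw [hE, zero_mul, mul_zero]
    · have h2 := ha1 τ
      rw [if_neg hc'] at h2
      have h4 := (mul_eq_zero.1 h2.symm).resolve_left (pow_ne_zero e hDT')
      rw [h4, mul_zero, mul_zero]

end

end Pool.Agent.Lib.MP_463376_co
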