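import Pool.Agent.Lib.MP_463376_co.I_Defs

/-! Stream I, job SORT: the cells over a block form a Young diagram of shape `oplus B lam` -/

namespace Pool.Agent.Lib.MP_463376_co

/-- all cells of all the diagrams -/
abbrev Cells {m : ℕ} (lam : Fin (m + 1) → YoungDiagram) : Type :=
  Σ b : Fin (m + 1), {p : ℕ × ℕ // p ∈ (lam b).cells}

section
variable {m : ℕ} {lam : Fin (m + 1) → YoungDiagram}

/-- column of a cell -/
def colC (γ : Cells lam) : Fin (m + 1) × ℕ := (γ.1, γ.2.1.2)

/-- row of a cell -/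
def rowC (γ : Cells lam) : ℕ := γ.2.1.1

theorem cells_inj : Function.Injective fun γ : Cells lam => (colC γ, rowC γ) := by
  rintro ⟨b, ⟨⟨i, j⟩, h⟩⟩ ⟨b', ⟨⟨i', j'⟩, h'⟩⟩ hh
  simp only [colC, rowC, Prod.mk.injEq] at hh
  obtain ⟨⟨rfl, rfl⟩, rfl⟩ := hh
  rfl

theorem card_cells : Fintype.card (Cells lam) = ∑ b, (lam b).card := by
  rw [Fintype.card_sigma]
  refine Finset.sum_congr rfl fun b _ => ?_
  rw [Fintype.card_coe]

/-- lower sets of `Fin n` are initial segments -/
theorem sort_lower {n : ℕ} (P : Fin n → Prop) [DecidablePred P]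
    (hP : ∀ x y : Fin n, y ≤ x → P x → P y) (x : Fin n) :
    P x ↔ (x : ℕ) < (Finset.univ.filter P).card := by
  constructor
  · intro h
    have h1 : Finset.Iic x ⊆ Finset.univ.filter P := by
      intro y hy
      exact Finset.mem_filter.2 ⟨Finset.mem_univ _, hP x y (Finset.mem_Iic.1 hy) h⟩
    have h2 := Finset.card_le_card h1
    rw [Fin.card_Iic] at h2
    omega
  · intro h
    by_contra hn
    have h1 : Finset.univ.filter P ⊆ Finset.Iio x := by
      intro y hy
      rw [Finset.mem_Iio]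
      by_contra hy'
      exact hn (hP y x (not_lt.1 hy') (Finset.mem_filter.1 hy).2)
    have h2 := Finset.card_le_card h1
    rw [Fin.card_Iio] at h2
    omega

/-- the columns over the block `B` of height more than `i` (equivalently: `j < rowLen i`) -/
def sort_K {Q : Type} [DecidableEq Q] (lam : Fin (m + 1) → YoungDiagram)
    (κ : Fin (m + 1) → Q) (B : Q) (i : ℕ) : Finset (Fin (m + 1) × ℕ) :=
  (Finset.univ.filter fun b => κ b = B).biUnion fun b =>
    (Finset.range ((lam b).rowLen i)).image fun j => (b, j)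

theorem sort_mem_K {Q : Type} [DecidableEq Q] (κ : Fin (m + 1) → Q) (B : Q) (i : ℕ)
    (c : Fin (m + 1) × ℕ) :
    c ∈ sort_K lam κ B i ↔ κ c.1 = B ∧ c.2 < (lam c.1).rowLen i := by
  obtain ⟨b, j⟩ := c
  simp only [sort_K, Finset.mem_biUnion, Finset.mem_filter, Finset.mem_univ, true_and,
    Finset.mem_image, Finset.mem_range, Prod.mk.injEq]
  constructor
  · rintro ⟨b', hb', j', hj', rfl, rfl⟩
    exact ⟨hb', hj'⟩
  · rintro ⟨h1, h2⟩
    exact ⟨b, h1, j, h2, rfl, rfl⟩

theorem sort_card_K {Q : Type} [DecidableEq Q] (κ : Fin (m + 1) → Q) (B : Q) (i : ℕ) :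
    (sort_K lam κ B i).card = ∑ b ∈ Finset.univ.filter (fun b => κ b = B), (lam b).rowLen i := by
  unfold sort_K
  rw [Finset.card_biUnion]
  · refine Finset.sum_congr rfl fun b _ => ?_
    rw [Finset.card_image_of_injective _ (Prod.mk_right_injective b), Finset.card_range]
  · intro b _ b' _ hbb'
    rw [Function.onFun, Finset.disjoint_left]
    intro c hc hc'
    obtain ⟨j, _, rfl⟩ := Finset.mem_image.1 hc
    obtain ⟨j', _, hj'⟩ := Finset.mem_image.1 hc'
    exact hbb' (Prod.ext_iff.1 hj').1.symm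

theorem sort_K_sub {Q : Type} [DecidableEq Q] (κ : Fin (m + 1) → Q) (B : Q) (i : ℕ)
    (c : Fin (m + 1) × ℕ) :
    c ∈ sort_K lam κ B i ↔ c ∈ sort_K lam κ B 0 ∧ i < (lam c.1).colLen c.2 := by
  rw [sort_mem_K, sort_mem_K, ← YoungDiagram.mem_iff_lt_rowLen, ← YoungDiagram.mem_iff_lt_rowLen,
    ← YoungDiagram.mem_iff_lt_colLen]
  constructor
  · rintro ⟨h1, h2⟩
    exact ⟨⟨h1, (lam c.1).up_left_mem (Nat.zero_le i) le_rfl h2⟩, h2⟩
  · rintro ⟨⟨h1, _⟩, h2⟩
    exact ⟨h1, h2⟩

/-- sorting by decreasing height -/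
theorem sort_exists {α : Type} (K : Finset α) (h : α → ℕ) :
    ∃ e : Fin K.card ≃ {c : α // c ∈ K}, ∀ x y, x ≤ y → h (e y).1 ≤ h (e x).1 := by
  set e0 : Fin K.card ≃ {c : α // c ∈ K} := K.equivFin.symm
  set f : Fin K.card → ℕᵒᵈ := fun x => OrderDual.toDual (h (e0 x).1) with hf
  refine ⟨(Tuple.sort f).trans e0, ?_⟩
  intro x y hxy
  have h1 := Tuple.monotone_sort f hxy
  exact h1

theorem sort_cell_mem {Q : Type} [DecidableEq Q] (κ : Fin (m + 1) → Q) (B : Q)
    (γ : Cells lam) (hγ : κ (colC γ).1 = B) :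
    colC γ ∈ sort_K lam κ B (rowC γ) := by
  rw [sort_mem_K]
  refine ⟨hγ, ?_⟩
  rw [← YoungDiagram.mem_iff_lt_rowLen]
  exact γ.2.2

/-- Sort the columns over the block `B` (pairs `(b,j)` with `κ b = B`, `j < (lam b).rowLen 0`) by
decreasing height `(lam b).colLen j`: `t` = position (`0,1,2,...`) of a column, `s` its inverse.  The cell
`γ` of the diagram `b`, column `j`, row `i` gets the place `(t (b,j), i)`.  Lower set: columns further left
are at least as high.  Shape: the number of columns of height `> i` is `∑_{b ∈ B} (lam b).rowLen i`. -/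
theorem exists_dia {Q : Type} [Fintype Q] [DecidableEq Q] (κ : Fin (m + 1) → Q) (B : Q) :
    ∃ (δ : Dia {γ : Cells lam // κ (colC γ).1 = B}) (s : ℕ → Fin (m + 1) × ℕ)
      (t : Fin (m + 1) × ℕ → ℕ),
      δ.shape = oplus (Finset.univ.filter fun b => κ b = B) lam ∧
      (∀ i, δ.c i = (t (colC i.1), rowC i.1)) ∧
      (∀ i : {γ : Cells lam // κ (colC γ).1 = B}, s (t (colC i.1)) = colC i.1) := by
  classical
  set K := sort_K lam κ B 0 with hK
  obtain ⟨e, he⟩ := sort_exists K fun c => (lam c.1).colLen c.2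
  set t : Fin (m + 1) × ℕ → ℕ := fun c => if hc : c ∈ K then (e.symm ⟨c, hc⟩ : ℕ) else 0 with ht
  set s : ℕ → Fin (m + 1) × ℕ := fun p => if hp : p < K.card then (e ⟨p, hp⟩).1 else (0, 0)
    with hs
  have hcK : ∀ γ : {γ : Cells lam // κ (colC γ).1 = B}, colC γ.1 ∈ K := fun γ =>
    ((sort_K_sub κ B _ _).1 (sort_cell_mem κ B γ.1 γ.2)).1
  have htval : ∀ (c : Fin (m + 1) × ℕ) (hc : c ∈ K), t c = (e.symm ⟨c, hc⟩ : ℕ) := by
    intro c hc
    simp only [ht, dif_pos hc]
  have hst : ∀ (c : Fin (m + 1) × ℕ), c ∈ K → s (t c) = c := by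
    intro c hc
    have h1 : t c < K.card := by rw [htval c hc]; exact (e.symm ⟨c, hc⟩).2
    simp only [hs, dif_pos h1]
    have h2 : (⟨t c, h1⟩ : Fin K.card) = e.symm ⟨c, hc⟩ := Fin.ext (htval c hc)
    rw [h2, Equiv.apply_symm_apply]
  have hts : ∀ (p : Fin K.card), t (e p).1 = p := by
    intro p
    rw [htval _ (e p).2]
    simp
  -- the cell in a given place
  have hplace : ∀ (p : Fin K.card) (i : ℕ), i < (lam (e p).1.1).colLen (e p).1.2 →
      ∃ γ : {γ : Cells lam // κ (colC γ).1 = B}, colC γ.1 = (e p).1 ∧ rowC γ.1 = i := by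
    intro p i hi
    rw [← YoungDiagram.mem_iff_lt_colLen] at hi
    have h1 := ((sort_mem_K κ B 0 (e p).1).1 (e p).2).1
    exact ⟨⟨⟨(e p).1.1, ⟨(i, (e p).1.2), hi⟩⟩, h1⟩, rfl, rfl⟩
  have hheight : ∀ γ : {γ : Cells lam // κ (colC γ).1 = B},
      rowC γ.1 < (lam (colC γ.1).1).colLen (colC γ.1).2 := fun γ =>
    ((sort_K_sub κ B _ _).1 (sort_cell_mem κ B γ.1 γ.2)).2
  set δ : Dia {γ : Cells lam // κ (colC γ).1 = B} :=
    { c := fun i => (t (colC i.1), rowC i.1)
      inj := by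
        intro x y hxy
        have h1 : t (colC x.1) = t (colC y.1) := (Prod.ext_iff.1 hxy).1
        have h2 : rowC x.1 = rowC y.1 := (Prod.ext_iff.1 hxy).2
        have h3 : colC x.1 = colC y.1 := by
          rw [← hst _ (hcK x), ← hst _ (hcK y), h1]
        exact Subtype.ext (cells_inj (Prod.ext h3 h2))
      low := by
        rintro a ⟨p, i⟩ ⟨hp, hi⟩
        simp only at hp hi
        have h1 : t (colC a.1) < K.card := by
          rw [htval _ (hcK a)]; exact (e.symm _).2
        have h2 := he ⟨p, lt_of_le_of_lt hp h1⟩ (e.symm ⟨colC a.1, hcK a⟩) (by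
          rw [Fin.le_def, ← htval _ (hcK a)]
          exact hp)
        rw [Equiv.apply_symm_apply] at h2
        obtain ⟨γ, hγ1, hγ2⟩ := hplace ⟨p, lt_of_le_of_lt hp h1⟩ i
          (lt_of_le_of_lt hi (lt_of_lt_of_le (hheight a) h2))
        refine ⟨γ, ?_⟩
        rw [hγ1, hγ2, hts] } with hδ
  refine ⟨δ, s, t, ?_, fun i => rfl, fun i => hst _ (hcK i)⟩
  -- the shape
  have hcell : ∀ i x : ℕ, (i, x) ∈ δ.shape.cells ↔
      x < ∑ b ∈ Finset.univ.filter (fun b => κ b = B), (lam b).rowLen i := by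
    intro i x
    rw [← sort_card_K]
    have hcard : (Finset.univ.filter fun y : Fin K.card =>
        i < (lam (e y).1.1).colLen (e y).1.2).card = (sort_K lam κ B i).card := by
      refine Finset.card_bij (fun y _ => (e y).1) ?_ ?_ ?_
      · intro y hy
        rw [sort_K_sub]
        exact ⟨(e y).2, (Finset.mem_filter.1 hy).2⟩
      · intro y _ y' _ h
        exact e.injective (Subtype.ext h)
      · intro c hc
        rw [sort_K_sub] at hc
        refine ⟨e.symm ⟨c, hc.1⟩, ?_, ?_⟩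
        · rw [Finset.mem_filter, Equiv.apply_symm_apply]
          exact ⟨Finset.mem_univ _, hc.2⟩
        · rw [Equiv.apply_symm_apply]
    have hlow := sort_lower (fun y : Fin K.card => i < (lam (e y).1.1).colLen (e y).1.2)
      (fun y y' hyy' h => lt_of_lt_of_le h (he y' y hyy'))
    rw [hcard] at hlow
    have hle : (sort_K lam κ B i).card ≤ K.card := Finset.card_le_card fun c hc =>
      ((sort_K_sub κ B i c).1 hc).1
    constructor
    · intro h
      obtain ⟨γ, _, hγ⟩ := Finset.mem_image.1 h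
      have h1 : rowC γ.1 = i := (Prod.ext_iff.1 hγ).1
      have h2 : t (colC γ.1) = x := (Prod.ext_iff.1 hγ).2
      have h3 := (hlow (e.symm ⟨colC γ.1, hcK γ⟩)).1 (by
        rw [Equiv.apply_symm_apply, ← h1]
        exact hheight γ)
      rwa [← htval _ (hcK γ), h2] at h3
    · intro h
      obtain ⟨γ, hγ1, hγ2⟩ := hplace ⟨x, lt_of_lt_of_le h hle⟩ i ((hlow _).2 h)
      refine Finset.mem_image.2 ⟨γ, Finset.mem_univ _, ?_⟩
      change (rowC γ.1, t (colC γ.1)) = (i, x)
      rw [hγ1, hγ2, hts]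
  apply YoungDiagram.ext
  ext ⟨i, x⟩
  rw [hcell]
  simp only [oplus, Finset.mem_filter, Finset.mem_product, Finset.mem_range]
  constructor
  · intro h
    refine ⟨⟨?_, ?_⟩, h⟩
    · have h1 : 0 < ∑ b ∈ Finset.univ.filter (fun b => κ b = B), (lam b).rowLen i := by omega
      obtain ⟨b, _, hb⟩ := Finset.exists_ne_zero_of_sum_ne_zero h1.ne'
      have h2 : (i, 0) ∈ lam b := YoungDiagram.mem_iff_lt_rowLen.2 (Nat.pos_of_ne_zero hb)
      rw [YoungDiagram.mem_iff_lt_colLen] at h2
      exact lt_of_lt_of_le h2 (Finset.single_le_sum (f := fun b => (lam b).colLen 0)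
        (fun _ _ => Nat.zero_le _) (Finset.mem_univ b))
    · refine lt_of_lt_of_le h ((Finset.sum_le_sum fun b _ =>
        (lam b).rowLen_anti 0 i (Nat.zero_le i)).trans ?_)
      exact Finset.sum_le_sum_of_subset (Finset.filter_subset _ _)
  · rintro ⟨_, h⟩
    exact h

end

end Pool.Agent.Lib.MP_463376_co
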