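import Pool.Agent.Lib.MP_463376_co.I_GSys
import Pool.Agent.Lib.MP_463376_co.I_Incl
import Pool.Agent.Lib.MP_463376_co.I_Loc
import Pool.Agent.Lib.MP_463376_co.I_Equiv
import Pool.Agent.Lib.MP_463376_co.I_Frob
import Pool.Agent.Lib.MP_463376_co.I_Pull
import Pool.Agent.Lib.MP_463376_co.I_Sort

/-! Stream I: the family of all set partitions -/

namespace Pool.Agent.Lib.MP_463376_co

open MvPolynomial

noncomputable instance instFintypeQuotientSetoidFin {r : ℕ} (σ : Setoid (Fin r)) :
    Fintype (Quotient σ) := Fintype.ofFinite _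

noncomputable instance instDecidableEqQuotientSetoidFin {r : ℕ} (σ : Setoid (Fin r)) :
    DecidableEq (Quotient σ) := Classical.decEq _

section
variable {k : Type} [Field k] {m : ℕ} {lam : Fin (m + 1) → YoungDiagram}

/-- the blocks of the cells for a set partition of the diagrams -/
abbrev kapC {lam : Fin (m + 1) → YoungDiagram} (σ : Setoid (Fin (m + 1))) (γ : Cells lam) :
    Quotient σ := Quotient.mk σ (colC γ).1

theorem exists_bd (σ : Setoid (Fin (m + 1)))
    (H : YoungDiagram → Sym Kqt)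
    (hH : ∀ (ι : Type) [Fintype ι] [DecidableEq ι] (δ : Dia ι),
      ∃ M : MainData ℚ δ, frob (fun w => toK (M.toGRep.ch w)) = H δ.shape) (B : Quotient σ) :
    ∃ D : BD ℚ m (fun γ : {γ : Cells lam // kapC σ γ = B} => colC γ.1) (fun γ => rowC γ.1),
      frob (fun w => toK (D.toGRep.ch w)) =
        H (oplus (Finset.univ.filter fun b => Quotient.mk σ b = B) lam) := by
  obtain ⟨δ, s, t, h1, h2, h3⟩ := exists_dia (lam := lam) (fun b => Quotient.mk σ b) B
  obtain ⟨M, hM⟩ := hH _ δ
  obtain ⟨D, hD⟩ := BD.ofMain δ M (fun γ => colC γ.1) (fun γ => rowC γ.1) s t h2 h3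
  refine ⟨D, ?_⟩
  rw [hD, hM, h1]

/-- the family -/
noncomputable def famOf (D : ∀ σ : Setoid (Fin (m + 1)), BDs k (m := m) colC rowC
    (kapC (lam := lam) σ)) : Fam k m (Cells lam) where
  B := fun σ => Idx (D σ)
  fB := fun σ => inferInstance
  dB := fun σ => inferInstance
  deg := fun σ => degF (D σ)
  G := fun σ => GF (D σ)
  G_hom := fun σ v τ => GF_hom (D σ) v τ
  indep := fun σ x hx => GF_indep cells_inj (D σ) x hx
  incl := fun π σ h v => GF_incl (κ := kapC π) (κ' := kapC σ)
    (Quotient.map' (s₁ := π) (s₂ := σ) id (fun a b hab => h hab)) (fun γ => rfl)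
    (fun γ γ' hγ => by simp only [kapC, hγ]) cells_inj (D π) (D σ) v
  loc := fun π σ h => by
    have h1 := fun v : Idx (D π) => GF_loc (κ := kapC π) (κ' := kapC σ)
      (Quotient.map' (s₁ := π) (s₂ := σ) id (fun a b hab => h hab)) (fun γ => rfl)
      (fun γ γ' hγ => by simp only [kapC, hγ]) cells_inj (D π) (D σ) v
    choose N a ha using h1
    obtain ⟨M, hM⟩ := sp_crossT (k := k) (col := colC (lam := lam)) σ π
    refine ⟨crossT k (colC (lam := lam)) (kapC π) (kapC σ) ^ (∑ v, N v), ⟨M * ∑ v, N v, ?_⟩,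
      fun v => ⟨fun v' => crossT k (colC (lam := lam)) (kapC π) (kapC σ) ^ ((∑ v, N v) - N v) *
        a v v', fun τ => ?_⟩⟩
    · rw [map_pow, pow_mul]
      exact pow_dvd_pow_of_dvd hM _
    · have hN : N v ≤ ∑ v, N v := Finset.single_le_sum (fun _ _ => Nat.zero_le _) (Finset.mem_univ v)
      have h2 : crossT k (colC (lam := lam)) (kapC π) (kapC σ) ^ (∑ v, N v) =
          crossT k (colC (lam := lam)) (kapC π) (kapC σ) ^ ((∑ v, N v) - N v) *
            crossT k (colC (lam := lam)) (kapC π) (kapC σ) ^ (N v) := by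
        rw [← pow_add, Nat.sub_add_cancel hN]
      rw [h2, mul_assoc, ha v τ, Finset.mul_sum]
      exact Finset.sum_congr rfl fun v' _ => by ring
  ρ := fun σ => rhoF (D σ)
  equiv := fun σ w => GF_equiv (D σ) w

end

end Pool.Agent.Lib.MP_463376_co
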