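import Pool.Agent.Lib.MP_463376_co.GridDefs
import Pool.Agent.Lib.MP_463376_co.ISym
import Pool.Agent.Lib.MP_463376_co.I11
import Pool.Agent.Lib.MP_463376_co.I_Fam

/-! PART 10: families (stream I) -/

namespace Pool.Agent.Lib.MP_463376_co

open MvPolynomial

open Classical in
/-- the classes of a set partition -/
noncomputable def classesOf {r : ℕ} (σ : Setoid (Fin r)) : Finset (Finset (Fin r)) :=
  Finset.univ.image fun b => Finset.univ.filter fun b' => σ b b'

theorem prod_classesOf {r : ℕ} (σ : Setoid (Fin r)) {M : Type} [CommMonoid M]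
    (f : Finset (Fin r) → M) : ∏ B ∈ classesOf σ, f B =
      ∏ q : Quotient σ, f (Finset.univ.filter fun b => Quotient.mk σ b = q) := by
  classical
  symm
  refine Finset.prod_bij (fun q _ => Finset.univ.filter fun b => Quotient.mk σ b = q) ?_ ?_ ?_ ?_
  · intro q _
    obtain ⟨b, rfl⟩ := Quotient.exists_rep q
    refine Finset.mem_image.mpr ⟨b, Finset.mem_univ b, ?_⟩
    ext b'
    simp only [Finset.mem_filter, Finset.mem_univ, true_and]
    constructor
    · intro h
      exact Quotient.sound (σ.symm' h)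
    · intro h
      exact σ.symm' (Quotient.exact h)
  · intro q _ q' _ h
    obtain ⟨b, rfl⟩ := Quotient.exists_rep q
    have h1 : b ∈ Finset.univ.filter fun b' => Quotient.mk σ b' = Quotient.mk σ b := by simp
    rw [h] at h1
    simpa using h1
  · intro B hB
    obtain ⟨b, _, rfl⟩ := Finset.mem_image.mp hB
    refine ⟨Quotient.mk σ b, Finset.mem_univ _, ?_⟩
    ext b'
    simp only [Finset.mem_filter, Finset.mem_univ, true_and]
    constructor
    · intro h
      exact σ.symm' (Quotient.exact h)
    · intro h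
      exact Quotient.sound (σ.symm' h)
  · intro q _
    rfl

/-- PART 10 -/
theorem families {m : ℕ} (lam : Fin (m + 1) → YoungDiagram) (H : YoungDiagram → Sym Kqt)
    (hH : ∀ (ι : Type) [Fintype ι] [DecidableEq ι] (δ : Dia ι),
      ∃ M : MainData ℚ δ, frob (fun w => toK (M.toGRep.ch w)) = H δ.shape) :
    ∃ S : GSys ℚ m (Equiv.Perm (Fin (∑ b, (lam b).card))),
      ∀ σ : Setoid (Fin (m + 1)), frob (fun w => toK (S.ch σ w)) =
        ∏ B ∈ classesOf σ, H (oplus B lam) := by
  have h1 := fun σ : Setoid (Fin (m + 1)) => exists_bd (lam := lam) σ H hH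
  choose D hD using h1
  obtain ⟨S, hS⟩ := (famOf D).exists_gsys
  let e : Fin (∑ b, (lam b).card) ≃ Cells lam := (Fintype.equivFinOfCardEq card_cells).symm
  obtain ⟨S', hS'⟩ := GSys.transfer (Equiv.permCongrHom e) S
  refine ⟨S', fun σ => ?_⟩
  have h2 : frob (fun w => toK (S'.ch σ w)) = frob (fun w => toK (S.ch σ w)) := by
    rw [← frob_permCongr e (fun w => toK (S.ch σ w))]
    congr 1
    funext w
    rw [hS']
    rfl
  have h3 : (fun w => toK (S.ch σ w)) = fun w => toK (chF (D σ) w) := by
    funext w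
    rw [hS]
    rfl
  rw [h2, h3, frob_family, prod_classesOf]
  exact Finset.prod_congr rfl fun B _ => hD σ B

end Pool.Agent.Lib.MP_463376_co
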