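import Pool.Agent.Lib.MP_463376_co.IAbs
import Pool.Agent.Lib.MP_463376_co.I5
import Pool.Agent.Lib.MP_463376_co.E_Der

/-! PART 5 (d): derivations (stream E) -/

namespace Pool.Agent.Lib.MP_463376_co

open MvPolynomial

section

variable (k : Type) [Field k] [CharZero k] {ι : Type} [Fintype ι] [DecidableEq ι]
  (L : Type) [Field L] [Algebra k L] [Algebra (RR k ι) L]
  [IsScalarTower k (RR k ι) L] [IsFractionRing (RR k ι) L] (δ : Dia ι)

/-- derivations -/
theorem height_le_of_minimalPrimes (hfin : Module.Finite (AA k L δ) (CC k L δ))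
    (p : Ideal (AA k L δ)) (hp : p ∈ (freeIdeal (AA k L δ) (CC k L δ)).minimalPrimes)
    (Q : Ideal (CC k L δ)) [Q.IsPrime] (hQ : Q.comap (algebraMap (AA k L δ) (CC k L δ)) = p) :
    p.height ≤ ((2 * (Fintype.card ι - ncl k L δ Q) : ℕ) : ℕ∞) := by
  have hpp : p.IsPrime := hp.1.1
  have h1 := height_add_trdeg k L δ p
  have h2 := E_trdeg k L δ hfin p hp Q hQ
  have h3 : ((2 * ncl k L δ Q : ℕ) : ℕ∞) ≤ (Algebra.trdeg k (AA k L δ ⧸ p)).toENat := by
    have h4 := Cardinal.toENat.monotone' h2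
    simpa using h4
  have h5 : p.height + ((2 * ncl k L δ Q : ℕ) : ℕ∞) ≤ ((2 * Fintype.card ι : ℕ) : ℕ∞) :=
    (add_le_add le_rfl h3).trans h1
  have h6 : p.height ≠ ⊤ := by
    intro h
    rw [h, top_add] at h5
    exact absurd h5 (not_le_of_gt (ENat.natCast_lt_top _))
  obtain ⟨m, hm⟩ := ENat.ne_top_iff_exists.1 h6
  rw [← hm] at h5 ⊢
  have h7 : m + 2 * ncl k L δ Q ≤ 2 * Fintype.card ι := by exact_mod_cast h5
  have h8 : m ≤ 2 * (Fintype.card ι - ncl k L δ Q) := by omega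
  exact_mod_cast h8

end

end Pool.Agent.Lib.MP_463376_co
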