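import Pool.Agent.Lib.MP_463376_co.F_Base

/-! The action of the symmetric group on `L` and `C`. -/

namespace Pool.Agent.Lib.MP_463376_co

open MvPolynomial

section PermC

variable {k : Type} [Field k] {ι : Type} 

theorem permR_one (f : RR k ι) : permR (k := k) (1 : Equiv.Perm ι) f = f := by
  have : (Equiv.sumCongr (1 : Equiv.Perm ι) (1 : Equiv.Perm ι)) = Equiv.refl _ := by
    ext x; cases x <;> rfl
  simp [permR, this]

theorem permR_mul (w w' : Equiv.Perm ι) (f : RR k ι) :
    permR (k := k) (w * w') f = permR (k := k) w (permR (k := k) w' f) := by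
  simp only [permR, renameEquiv_apply, rename_rename]
  congr 2
  funext x
  cases x <;> rfl

variable {L : Type} [Field L] [Algebra k L] [Algebra (RR k ι) L]
  [IsScalarTower k (RR k ι) L] [IsFractionRing (RR k ι) L] 

theorem exists_toL_div (g : L) : ∃ a b : RR k ι, b ≠ 0 ∧ g = toL k L a / toL k L b := by
  obtain ⟨a, b, hb, h⟩ := IsFractionRing.div_surjective (A := RR k ι) g
  exact ⟨a, b, nonZeroDivisors.ne_zero hb, h.symm⟩

variable [CharZero k] [Fintype ι] [DecidableEq ι] (δ : Dia ι)

/-- the action on `C` -/
noncomputable instance instMulSemiringActionCC : MulSemiringAction (Equiv.Perm ι) (CC k L δ) where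
  smul w c := ⟨permL (k := k) w c, permL_CC k L δ w c c.2⟩
  one_smul c := Subtype.ext (permL_one (k := k) (c : L))
  mul_smul w w' c := Subtype.ext (permL_mul (k := k) w w' (c : L))
  smul_zero w := Subtype.ext (map_zero (permL (k := k) w))
  smul_add w c c' := Subtype.ext (map_add (permL (k := k) w) (c : L) (c' : L))
  smul_one w := Subtype.ext (map_one (permL (k := k) w))
  smul_mul w c c' := Subtype.ext (map_mul (permL (k := k) w) (c : L) (c' : L))

theorem coe_perm_smul (w : Equiv.Perm ι) (c : CC k L δ) :
    ((w • c : CC k L δ) : L) = permL (k := k) w (c : L) := rfl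

theorem perm_smul_toC (w : Equiv.Perm ι) (f : RR k ι) :
    w • toC k L δ f = toC k L δ (permR w f) := by
  apply Subtype.ext
  rw [coe_perm_smul]
  exact permL_toL w f

instance instSMulCommClassCC : SMulCommClass (Equiv.Perm ι) (AA k L δ) (CC k L δ) where
  smul_comm w a c := by
    apply Subtype.ext
    rw [coe_perm_smul, coe_smul_CC, coe_smul_CC, coe_perm_smul, map_mul,
      permL_AA k L δ w (a : L) a.2]

end PermC

end Pool.Agent.Lib.MP_463376_co
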