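import Pool.Agent.Lib.MP_463376_co.PermAct

/-! The generic rank of `C` over `A` is `n!`. -/

namespace Pool.Agent.Lib.MP_463376_co

open MvPolynomial

section

theorem finrank_of_fixed {G L : Type} [Group G] [Fintype G] [Field L] [MulSemiringAction G L]
    [FaithfulSMul G L] (A C : Type) [CommRing A] [CommRing C] [Algebra A C] [Algebra A L]
    [Algebra C L] [IsScalarTower A C L] [IsFractionRing C L] [FaithfulSMul A L]
    (hfix : ∀ (w : G) (a : A), w • algebraMap A L a = algebraMap A L a)
    (hdiv : ∀ z : L, (∀ w : G, w • z = z) → ∃ a b : A, z = algebraMap A L a / algebraMap A L b) :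
    Module.finrank A C = Fintype.card G := by
  let F := FixedPoints.subfield G L
  let φ : A →+* F := (algebraMap A L).codRestrict F.toSubring (fun a w => hfix w a)
  letI : Algebra A F := φ.toAlgebra
  have hcoe : ∀ a : A, ((algebraMap A F a : F) : L) = algebraMap A L a := fun a => rfl
  haveI : FaithfulSMul A F := by
    rw [faithfulSMul_iff_algebraMap_injective]
    intro a b h
    exact (FaithfulSMul.algebraMap_injective A L) (by rw [← hcoe a, ← hcoe b, h])
  haveI : IsFractionRing A F := IsFractionRing.of_field _ _ fun z => by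
    obtain ⟨a, b, h⟩ := hdiv (z : L) (fun w => z.2 w)
    exact ⟨a, b, Subtype.ext h⟩
  haveI : IsScalarTower A F L := IsScalarTower.of_algebraMap_eq fun a => rfl
  have h1 := IsFractionRing.finrank_eq A F C L
  rw [← h1, FixedPoints.finrank_eq_card G L]

end

section

variable (k : Type) [Field k] [CharZero k] {ι : Type} [Fintype ι] [DecidableEq ι]
  (L : Type) [Field L] [Algebra k L] [Algebra (RR k ι) L]
  [IsScalarTower k (RR k ι) L] [IsFractionRing (RR k ι) L] (δ : Dia ι)

/-- the action on `L` -/
noncomputable abbrev actL : MulSemiringAction (Equiv.Perm ι) L where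
  smul w c := permL (k := k) w c
  one_smul c := permL_one (k := k) c
  mul_smul w w' c := permL_mul (k := k) w w' c
  smul_zero w := map_zero (permL (k := k) w)
  smul_add w c c' := map_add (permL (k := k) w) c c'
  smul_one w := map_one (permL (k := k) w)
  smul_mul w c c' := map_mul (permL (k := k) w) c c'

omit [CharZero k] [Fintype ι] [DecidableEq ι] in
theorem faithful_actL : letI := actL k (ι := ι) L; FaithfulSMul (Equiv.Perm ι) L := by
  letI := actL k (ι := ι) L
  refine ⟨fun {w w'} h => ?_⟩
  ext i
  have h1 : permL (k := k) w (toL k L (xx i)) = permL (k := k) w' (toL k L (xx i)) := h _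
  rw [permL_toL, permL_toL, permR_xx, permR_xx] at h1
  have h2 := toL_injective (k := k) (L := L) h1
  exact Sum.inl_injective (MvPolynomial.X_injective h2)

/-- a fixed element of `L` is a quotient of elements of `A` -/
theorem fixed_eq_div (z : L) (hz : ∀ w : Equiv.Perm ι, permL (k := k) w z = z) :
    ∃ a b : AA k L δ, z = (a : L) / (b : L) := by
  obtain ⟨a, b, hb, rfl⟩ := exists_toL_div (k := k) (ι := ι) z
  set z : L := toL k L a / toL k L b with hzdef
  set B : RR k ι := ∏ w : Equiv.Perm ι, permR w b with hB
  have hB0 : B ≠ 0 := Finset.prod_ne_zero_iff.mpr fun w _ => by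
    simpa using hb
  have hBs : ∀ w : Equiv.Perm ι, permR w B = B := fun w => by
    rw [hB, map_prod]
    simp_rw [← permR_mul]
    exact Fintype.prod_equiv (Equiv.mulLeft w) _ _ fun v => rfl
  have hmemB : toL k L B ∈ AA k L δ :=
    Algebra.subset_adjoin (Or.inl (symmetric_mem k L δ B hBs))
  set N : RR k ι := a * ∏ w ∈ Finset.univ.erase (1 : Equiv.Perm ι), permR w b with hN
  have hzB : z * toL k L B = toL k L N := by
    rw [hzdef, hB, ← Finset.mul_prod_erase _ _ (Finset.mem_univ (1 : Equiv.Perm ι)), permR_one,
      map_mul, hN, map_mul]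
    have : toL k L b ≠ 0 := by
      intro h; exact hb (toL_injective (k := k) (L := L) (by rw [h, map_zero]))
    field_simp
  have hNs : ∀ w : Equiv.Perm ι, permR w N = N := fun w => by
    apply toL_injective (k := k) (L := L)
    rw [← permL_toL, ← hzB, map_mul, hz w, permL_toL, hBs]
  have hmemN : toL k L N ∈ AA k L δ :=
    Algebra.subset_adjoin (Or.inl (symmetric_mem k L δ N hNs))
  refine ⟨⟨_, hmemN⟩, ⟨_, hmemB⟩, ?_⟩
  have : toL k L B ≠ 0 := by
    intro h; exact hB0 (toL_injective (k := k) (L := L) (by rw [h, map_zero]))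
  exact (eq_div_iff this).mpr hzB

theorem isFractionRing_CC : IsFractionRing (CC k L δ) L := IsFractionRing.of_field _ _ fun z => by
    obtain ⟨a, b, -, h⟩ := exists_toL_div (k := k) (ι := ι) z
    refine ⟨toC k L δ a, toC k L δ b, ?_⟩
    rw [Subalgebra.algebraMap_apply, Subalgebra.algebraMap_apply, coe_toC, coe_toC]
    exact h

theorem CC_rank' : Module.finrank (AA k L δ) (CC k L δ) = (Fintype.card ι).factorial := by
  haveI := isFractionRing_CC k L δ
  rw [← Fintype.card_perm]
  exact @finrank_of_fixed (Equiv.Perm ι) L _ _ _ (actL k L) (faithful_actL k L)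
    (AA k L δ) (CC k L δ) _ _ _ _ _ _ _
    ((faithfulSMul_iff_algebraMap_injective _ _).mpr Subtype.val_injective)
    (fun w a => permL_AA k L δ w (a : L) a.2)
    (fun z hz => fixed_eq_div k L δ z hz)

end

end Pool.Agent.Lib.MP_463376_co
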