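import Pool.Agent.Lib.MP_463376_co.Defs

/-! Regular sequences of differences of variables. -/

namespace Pool.Agent.Lib.MP_463376_co

open MvPolynomial RingTheory.Sequence

section YDiff

variable {k : Type} [Field k] {ι : Type} [Fintype ι] [DecidableEq ι]

private noncomputable def phiS (rep : ι → ι) (s : ι → Prop) [DecidablePred s] : BB k ι →ₐ[k] BB k ι :=
  aeval fun i => if s i then X (rep i) else X i

private theorem ker_phiS (rep : ι → ι) (l : List ι) (h : ∀ i ∈ l, rep i ∉ l) :
    RingHom.ker (phiS (k := k) rep (fun i => i ∈ l)) =
      Ideal.ofList (l.map fun i => (X i - X (rep i) : BB k ι)) := by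
  apply le_antisymm
  · intro f hf
    set I := Ideal.ofList (l.map fun i => (X i - X (rep i) : BB k ι)) with hI
    have key : (Ideal.Quotient.mkₐ k I).comp (phiS (k := k) rep (fun i => i ∈ l)) =
        Ideal.Quotient.mkₐ k I := by
      apply MvPolynomial.algHom_ext
      intro i
      simp only [AlgHom.comp_apply, phiS, aeval_X]
      split_ifs with hi
      · symm
        simp only [Ideal.Quotient.mkₐ_eq_mk]
        rw [Ideal.Quotient.eq]
        apply Ideal.subset_span
        simp only [Set.mem_ofPred_eq, List.mem_map]
        exact ⟨i, hi, rfl⟩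
      · rfl
    have h1 : (Ideal.Quotient.mkₐ k I) f = 0 := by
      rw [← key, AlgHom.comp_apply, (RingHom.mem_ker).mp hf, map_zero]
    simpa [Ideal.Quotient.eq_zero_iff_mem] using h1
  · unfold Ideal.ofList
    rw [Ideal.span_le]
    intro f hf
    simp only [Set.mem_ofPred_eq, List.mem_map] at hf
    obtain ⟨i, hi, rfl⟩ := hf
    simp only [SetLike.mem_coe, RingHom.mem_ker]
    simp [phiS, hi, h i hi]

theorem ydiff (k : Type) [Field k] (ι : Type) [Fintype ι] [DecidableEq ι] (r : Setoid ι) :
    ∃ rs : List (BB k ι), rs.length + Nat.card (Quotient r) = Fintype.card ι ∧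
      (∀ f ∈ rs, ∃ i j, r i j ∧ f = X i - X j) ∧ IsWeaklyRegular (BB k ι) rs ∧
      (Ideal.ofList rs).IsPrime ∧
      Algebra.trdeg k (BB k ι ⧸ Ideal.ofList rs) = (Nat.card (Quotient r) : Cardinal) := by
  classical
  set rep : ι → ι := fun i => (Quotient.mk r i).out with hrep
  have hrel : ∀ i, r (rep i) i := fun i => Quotient.mk_out i
  have hidem : ∀ i, rep (rep i) = rep i := fun i => by
    simp only [hrep]
    rw [Quotient.out_eq]
  set l : List ι := (Finset.univ.filter fun i => rep i ≠ i).toList with hl
  have hmem : ∀ i, i ∈ l ↔ rep i ≠ i := fun i => by simp [hl]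
  have hnod : l.Nodup := Finset.nodup_toList _
  have hnot : ∀ i, rep i ∉ l := fun i => by rw [hmem, hidem]; simp
  refine ⟨l.map fun i => (X i - X (rep i) : BB k ι), ?_, ?_, ?_, ?_, ?_⟩
  · rw [List.length_map, hl, Finset.length_toList]
    have h1 : Nat.card (Quotient r) = (Finset.univ.filter fun i => rep i = i).card := by
      rw [Nat.card_eq_fintype_card, ← Fintype.card_coe]
      refine Fintype.card_congr ⟨fun q => ⟨q.out, by simp [hrep]⟩, fun i => Quotient.mk r i.1,
        fun q => by simp, fun i => ?_⟩
      have := i.2
      simp only [Finset.mem_filter, Finset.mem_univ, true_and] at this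
      exact Subtype.ext this
    rw [h1, add_comm, Finset.card_filter_add_card_filter_not]
    rfl
  · intro f hf
    obtain ⟨i, -, rfl⟩ := List.mem_map.mp hf
    exact ⟨i, rep i, r.symm' (hrel i), rfl⟩
  · constructor
    intro n hn
    rw [← List.map_take]
    set I := Ideal.ofList ((l.take n).map fun i => (X i - X (rep i) : BB k ι)) with hI
    have hk := ker_phiS (k := k) rep (l.take n) (fun i _ h => hnot i (List.mem_of_mem_take h))
    have hn' : n < l.length := by simpa using hn
    rw [List.getElem_map]
    have hX : phiS (k := k) rep (fun i => i ∈ l.take n) (X l[n] - X (rep l[n])) =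
        X l[n] - X (rep l[n]) := by
      have h1 : l[n] ∉ l.take n := by
        intro hh
        obtain ⟨m, hm, hm'⟩ := List.getElem_of_mem hh
        rw [List.getElem_take] at hm'
        have := (List.Nodup.getElem_inj_iff hnod).mp hm'
        rw [List.length_take] at hm
        omega
      have h2 : rep l[n] ∉ l.take n := fun h => hnot _ (List.mem_of_mem_take h)
      simp [phiS, h1, h2]
    have hne : (X l[n] - X (rep l[n]) : BB k ι) ≠ 0 := by
      rw [sub_ne_zero]
      intro h
      exact (hmem l[n]).mp (List.getElem_mem hn') (MvPolynomial.X_injective h).symm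
    intro x y hxy
    induction x using Submodule.Quotient.induction_on with | _ x => ?_
    induction y using Submodule.Quotient.induction_on with | _ y => ?_
    simp only [← Submodule.Quotient.mk_smul] at hxy
    rw [Submodule.Quotient.eq] at hxy ⊢
    rw [smul_eq_mul, Ideal.mul_top] at hxy ⊢
    rw [hI, ← hk, RingHom.mem_ker] at hxy ⊢
    rw [← smul_sub, smul_eq_mul, map_mul, hX] at hxy
    exact (mul_eq_zero.mp hxy).resolve_left hne
  · rw [← ker_phiS rep l (fun i _ => hnot i)]
    exact RingHom.ker_isPrime _
  · have hker : RingHom.ker (rename (Quotient.mk r) : BB k ι →ₐ[k] MvPolynomial (Quotient r) k) =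
        Ideal.ofList (l.map fun i => (X i - X (rep i) : BB k ι)) := by
      rw [← ker_phiS rep l (fun i _ => hnot i)]
      have h1 : phiS (k := k) rep (fun i => i ∈ l) =
          (rename (fun q : Quotient r => q.out)).comp (rename (Quotient.mk r)) := by
        apply MvPolynomial.algHom_ext
        intro i
        simp only [phiS, aeval_X, AlgHom.comp_apply, rename_X]
        split_ifs with hi
        · rfl
        · rw [hmem, not_not] at hi
          exact congrArg X hi.symm
      ext f
      rw [RingHom.mem_ker, RingHom.mem_ker, h1, AlgHom.comp_apply]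
      constructor
      · intro h; rw [h, map_zero]
      · intro h
        exact (rename_injective _ Quotient.out_injective) (by rw [h, map_zero])
    have hsurj : Function.Surjective
        (rename (Quotient.mk r) : BB k ι →ₐ[k] MvPolynomial (Quotient r) k) :=
      rename_surjective _ Quotient.mk_surjective
    rw [← hker]
    rw [(Ideal.quotientKerAlgEquivOfSurjective hsurj).trdeg_eq, MvPolynomial.trdeg_of_isDomain]
    simp

end YDiff

end Pool.Agent.Lib.MP_463376_co
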