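import Pool.Agent.Lib.MP_463376_co.I7a
import Pool.Agent.Lib.MP_463376_co.I7
import Pool.Agent.Lib.MP_463376_co.I5d
import Pool.Agent.Lib.MP_463376_co.YDiff
import Pool.Agent.Lib.MP_463376_co.PermAct
import Pool.Agent.Lib.MP_463376_co.Rank

/-! PART 8: the n! theorem -/

namespace Pool.Agent.Lib.MP_463376_co

open MvPolynomial RingTheory.Sequence
open scoped Pointwise

section

variable (k : Type) [Field k] [CharZero k] {ι : Type} [Fintype ι] [DecidableEq ι]
  (L : Type) [Field L] [Algebra k L] [Algebra (RR k ι) L]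
  [IsScalarTower k (RR k ι) L] [IsFractionRing (RR k ι) L] (δ : Dia ι)

theorem isInvariant_CC : Algebra.IsInvariant (AA k L δ) (CC k L δ) (Equiv.Perm ι) where
  isInvariant c hc := by
    have h : (c : L) ∈ AA k L δ := inv_mem_AA k L δ c c.2 fun w => by
      rw [← coe_perm_smul (δ := δ) w c, hc w]
    exact ⟨⟨c, h⟩, Subtype.ext (coe_algebraMap_AACC k L δ ⟨c, h⟩)⟩

theorem mem_smul_iff (w : Equiv.Perm ι) (Q : Ideal (CC k L δ)) (i j : ι) :
    clusR ((w • Q).comap (toC k L δ)) (w i) (w j) ↔ clusR (Q.comap (toC k L δ)) i j := by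
  have key : ∀ f : RR k ι, toC k L δ (permR w f) ∈ w • Q ↔ toC k L δ f ∈ Q := fun f => by
    rw [← perm_smul_toC (L := L) δ w f, Ideal.smul_mem_pointwise_smul_iff]
  have h1 := key (xx i - xx j)
  have h2 := key (yy i - yy j)
  rw [map_sub, permR_xx, permR_xx] at h1
  rw [map_sub, permR_yy, permR_yy] at h2
  exact and_congr h1 h2

theorem ncl_smul (w : Equiv.Perm ι) (Q : Ideal (CC k L δ)) : ncl k L δ (w • Q) = ncl k L δ Q := by
  unfold ncl
  refine (Nat.card_congr (Quotient.congr w fun i j => ?_)).symm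
  exact (mem_smul_iff k L δ w Q i j).symm

theorem CC_free : Module.Free (AA k L δ) (CC k L δ) := by
  have := AA_regular k L δ
  have := CC_finite k L δ
  have := isInvariant_CC k L δ
  refine machine (AA k L δ) (CC k L δ) (finPD_of_regular _) (CC_selfdual k L δ)
    (Fintype.card ι) ?_
  intro p hp
  have hpp : p.IsPrime := hp.1.1
  have hinj : Function.Injective (algebraMap (AA k L δ) (CC k L δ)) := fun a b h => by
    apply Subtype.ext
    rw [← coe_algebraMap_AACC k L δ a, ← coe_algebraMap_AACC k L δ b, h]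
  have : Algebra.IsIntegral (AA k L δ) (CC k L δ) := inferInstance
  obtain ⟨Q₀, hQ₀p, hQ₀⟩ := Ideal.exists_ideal_over_prime_of_isIntegral_of_isDomain p
    (by rw [(RingHom.injective_iff_ker_eq_bot _).mp hinj]; exact bot_le)
  have := hQ₀p
  have hle : ∀ Q : Ideal (CC k L δ), ncl k L δ Q ≤ Fintype.card ι := fun Q => by
    unfold ncl
    rw [← Nat.card_eq_fintype_card]
    exact Nat.card_le_card_of_surjective _ Quotient.mk_surjective
  refine ⟨ncl k L δ Q₀, hle Q₀, height_le_of_minimalPrimes k L δ inferInstance p hp Q₀ hQ₀, ?_⟩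
  intro Q hQ hQp
  have := hQ
  obtain ⟨w, hw⟩ := Algebra.IsInvariant.exists_smul_of_under_eq (AA k L δ) (CC k L δ)
    (Equiv.Perm ι) Q₀ Q (hQ₀.trans hQp.symm)
  have hn : ncl k L δ Q = ncl k L δ Q₀ := by rw [hw, ncl_smul]
  rw [← hn]
  obtain ⟨rs, hlen, hmem, hreg, hprime, htr⟩ := ydiff k ι (clusR (Q.comap (toC k L δ)))
  have hlen' : rs.length + ncl k L δ Q = Fintype.card ι := hlen
  refine ⟨rs.map (yC k L δ), ?_, ?_, weaklyRegular_CC k L δ rs hreg, ?_⟩
  · rw [List.length_map]; omega
  · intro f hf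
    obtain ⟨g, hg, rfl⟩ := List.mem_map.mp hf
    obtain ⟨i, j, hij, rfl⟩ := hmem g hg
    have h2 : toC k L δ (yy i - yy j) ∈ Q := hij.2
    simpa [yC, yB, yy] using h2
  · intro hass
    have hmap : Ideal.ofList (rs.map (yC k L δ)) = (Ideal.ofList rs).map (yC k L δ) := by
      exact (Ideal.map_ofList (yC k L δ).toRingHom rs).symm
    rw [hmap] at hass
    have := hprime
    have hpa : p ∈ associatedPrimes (AA k L δ) (CC k L δ ⧸ (Ideal.ofList rs).map (yC k L δ)) := by
      have hnC : IsNoetherianRing (CC k L δ) := IsNoetherianRing.of_finite (AA k L δ) (CC k L δ)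
      obtain ⟨-, x, hx⟩ := (isAssociatedPrime_iff (R := CC k L δ)).mp hass
      refine (isAssociatedPrime_iff (R := AA k L δ)).mpr ⟨hpp, x, ?_⟩
      ext a
      rw [← hQp, Ideal.mem_comap, hx, Submodule.mem_colon_singleton, Submodule.mem_colon_singleton,
        Submodule.mem_bot, Submodule.mem_bot, algebraMap_smul]
    have h1 := purity_CC k L δ (Ideal.ofList rs) p hpa
    have h2 := height_add_trdeg k L δ p
    rw [htr] at h1
    have h3 : ((Fintype.card ι + ncl k L δ Q : ℕ) : ℕ∞) ≤
        (Algebra.trdeg k (AA k L δ ⧸ p)).toENat := by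
      rw [Cardinal.natCast_le_toENat]
      push_cast
      exact h1
    have h4 : p.height + ((Fintype.card ι + ncl k L δ Q : ℕ) : ℕ∞) ≤ ((2 * Fintype.card ι : ℕ) : ℕ∞) :=
      (add_le_add_right h3 _).trans h2
    have h5 : p.height ≠ ⊤ := by
      rintro h; rw [h, top_add] at h4; exact (ENat.natCast_ne_top _) (top_le_iff.mp h4)
    lift p.height to ℕ using h5 with a ha
    have h6 : a + (Fintype.card ι + ncl k L δ Q) ≤ 2 * Fintype.card ι := by exact_mod_cast h4
    have : a ≤ Fintype.card ι - ncl k L δ Q := by omega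
    exact_mod_cast this

theorem CC_rank : Module.finrank (AA k L δ) (CC k L δ) = (Fintype.card ι).factorial :=
  CC_rank' k L δ

end

end Pool.Agent.Lib.MP_463376_co
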