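import Pool.Agent.Lib.MP_463376_co.I9c

/-! PART 9: export of the n! theorem side (assembly) -/

namespace Pool.Agent.Lib.MP_463376_co

open MvPolynomial RingTheory.Sequence

section
variable {ι : Type} [Fintype ι] [DecidableEq ι]

theorem transpose_shape_swap (δ : Dia ι) : δ.swap.shape.transpose = δ.shape := by
  apply YoungDiagram.ext
  ext p
  rw [YoungDiagram.mem_cells, YoungDiagram.mem_transpose, ← YoungDiagram.mem_cells]
  simp only [Dia.shape, Dia.swap, Finset.mem_image, Finset.mem_univ, true_and]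
  constructor
  · rintro ⟨i, hi⟩
    refine ⟨i, ?_⟩
    have h1 := congrArg Prod.fst hi
    have h2 := congrArg Prod.snd hi
    simp only [Prod.fst_swap, Prod.snd_swap] at h1 h2
    exact Prod.ext h2 h1
  · rintro ⟨i, rfl⟩
    exact ⟨i, rfl⟩

/-- exchange of `q` and `t` -/
noncomputable def swapQT : MvPolynomial (Fin 2) ℚ →+* MvPolynomial (Fin 2) ℚ :=
  (rename (Equiv.swap (0 : Fin 2) 1)).toRingHom

theorem swapQT_X0 : swapQT (X 0) = X 1 := by
  show rename (Equiv.swap (0 : Fin 2) 1) (X 0) = X 1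
  rw [rename_X]
  simp

theorem swapQT_X1 : swapQT (X 1) = X 0 := by
  show rename (Equiv.swap (0 : Fin 2) 1) (X 1) = X 0
  rw [rename_X]
  simp

theorem swapQT_C (a : ℚ) : swapQT (C a) = C a := by
  show rename (Equiv.swap (0 : Fin 2) 1) (C a) = C a
  rw [rename_C]

variable {L : Type} [Field L] [Algebra ℚ L] [Algebra (RR ℚ ι) L]
  [IsScalarTower ℚ (RR ℚ ι) L] [IsFractionRing (RR ℚ ι) L] {δ : Dia ι}

theorem HomBasis.isModMac (B : HomBasis ℚ L δ) :
    IsModMac δ.shape (frob fun w => toK (B.toGRep.ch w)) where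
  tri_t := tri_gen B Kqt toK
  tri_q := by
    obtain ⟨B', e, hdeg, hρ⟩ := B.swap
    have h1 := tri_gen B' Kqt (toK.comp swapQT)
    rw [transpose_shape_swap] at h1
    have h2 : (toK.comp swapQT) (X 1) = qq := by
      rw [RingHom.comp_apply, swapQT_X1]
      rfl
    have h3 : (fun w => (toK.comp swapQT) (B'.toGRep.ch w)) = fun w => toK (B.toGRep.ch w) := by
      funext w
      rw [RingHom.comp_apply]
      congr 1
      unfold GRep.ch
      rw [map_sum]
      refine Fintype.sum_equiv e _ _ fun v => ?_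
      rw [map_mul, map_mul, map_pow, map_pow, swapQT_C, swapQT_X0, swapQT_X1]
      have h4 : B'.toGRep.deg v = ((B.deg (e v)).2, (B.deg (e v)).1) := hdeg v
      have h5 : B'.toGRep.ρ w v v = B.ρ w (e v) (e v) := hρ w v v
      rw [h4, h5]
      show C (B.ρ w (e v) (e v)) * (X 1 ^ (B.deg (e v)).2 * X 0 ^ (B.deg (e v)).1) =
        C (B.ρ w (e v) (e v)) * (X 0 ^ (B.deg (e v)).1 * X 1 ^ (B.deg (e v)).2)
      rw [mul_comm (X 1 ^ (B.deg (e v)).2)]
    rw [h2, h3] at h1
    exact h1
  norm := by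
    rw [card_shape, hall_frob_row, ← map_sum, B.norm, map_natCast]
    exact inv_mul_cancel₀ (Nat.cast_ne_zero.2 (Nat.factorial_ne_zero _))

/-- EXPORT of the n! theorem side -/
theorem main_export (δ : Dia ι) :
    ∃ M : MainData ℚ δ, IsModMac δ.shape (frob fun w => toK (M.toGRep.ch w)) := by
  obtain ⟨B⟩ := exists_homBasis ℚ (FractionRing (RR ℚ ι)) δ
  obtain ⟨M, hM⟩ := B.mainData
  refine ⟨M, ?_⟩
  rw [hM]
  exact B.isModMac

end

end Pool.Agent.Lib.MP_463376_co
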