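import Pool.Agent.Lib.MP_463376_co.ISym

/-! Transport of Frobenius characteristics and idempotents along bijections. -/

namespace Pool.Agent.Lib.MP_463376_co

open MvPolynomial

section

variable {ι κ : Type} [Fintype ι] [DecidableEq ι] [Fintype κ] [DecidableEq κ]

theorem tr_cycleType (e : ι ≃ κ) (w : Equiv.Perm ι) :
    (e.permCongr w).cycleType = w.cycleType := by
  let f : ι ≃ Subtype (fun _ : κ => True) := e.trans (Equiv.subtypeUnivEquiv fun _ => trivial).symm
  have h : e.permCongr w = w.extendDomain f := by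
    ext x
    have : x = ((f (e.symm x) : Subtype (fun _ : κ => True)) : κ) := by simp [f]
    conv_rhs => rw [this]
    rw [Equiv.Perm.extendDomain_apply_image]
    simp [f, Equiv.permCongr_apply]
  rw [h, Equiv.Perm.cycleType_extendDomain]

theorem tr_parts (e : ι ≃ κ) (w : Equiv.Perm ι) :
    (e.permCongr w).partition.parts = w.partition.parts := by
  rw [Equiv.Perm.parts_partition, Equiv.Perm.parts_partition, tr_cycleType,
    ← Equiv.Perm.sum_cycleType, ← Equiv.Perm.sum_cycleType, tr_cycleType,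
    Fintype.card_congr e]

variable {K : Type} [Field K]

theorem tr_pcyc (e : ι ≃ κ) (w : Equiv.Perm ι) :
    pcyc K (e.permCongr w) = pcyc K w := by
  unfold pcyc
  rw [tr_parts]

theorem tr_frob (e : ι ≃ κ) (f : Equiv.Perm κ → K) :
    frob (fun w : Equiv.Perm ι => f (e.permCongr w)) = frob f := by
  unfold frob
  rw [Fintype.card_congr e]
  congr 1
  refine Fintype.sum_equiv e.permCongr _ _ fun w => ?_
  rw [tr_pcyc]

theorem tr_permCongr_mul (e : ι ≃ κ) (w w' : Equiv.Perm ι) :
    e.permCongr (w * w') = e.permCongr w * e.permCongr w' := by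
  ext x; simp [Equiv.permCongr_apply]

theorem tr_permCongr_inv (e : ι ≃ κ) (w : Equiv.Perm ι) :
    e.permCongr w⁻¹ = (e.permCongr w)⁻¹ := by
  rw [eq_inv_iff_mul_eq_one, ← tr_permCongr_mul, inv_mul_cancel]
  ext x; simp [Equiv.permCongr_apply]

theorem exists_idempotent_gen (ι : Type) [Fintype ι] [DecidableEq ι] (lam : YoungDiagram)
    (hl : lam.card = Fintype.card ι) :
    ∃ e : Equiv.Perm ι → ℚ, (∀ g, ∑ h, e h * e (h⁻¹ * g) = e g) ∧
      ∀ (K : Type) [Field K] [CharZero K] (f : Equiv.Perm ι → K),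
        (∀ w w', f (w * w' * w⁻¹) = f w') →
        ∑ g : Equiv.Perm ι, algebraMap ℚ K (e g) * f g = hall (frob f) (schur K lam) := by
  obtain ⟨e0, he0, h0⟩ := exists_idempotent (Fintype.card ι) lam hl
  let E : ι ≃ Fin (Fintype.card ι) := Fintype.equivFin ι
  refine ⟨fun w => e0 (E.permCongr w), fun g => ?_, fun K _ _ f hf => ?_⟩
  · refine Eq.trans ?_ (he0 (E.permCongr g))
    refine Fintype.sum_equiv E.permCongr _ _ fun h => ?_
    show e0 (E.permCongr h) * e0 (E.permCongr (h⁻¹ * g)) = _
    rw [tr_permCongr_mul, tr_permCongr_inv]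
  · have h1 := h0 K (fun w => f (E.symm.permCongr w)) (fun w w' => by
      rw [tr_permCongr_mul, tr_permCongr_mul, tr_permCongr_inv, hf])
    rw [tr_frob] at h1
    rw [← h1]
    refine Fintype.sum_equiv E.permCongr _ _ fun g => ?_
    congr 2
    ext x; simp [Equiv.permCongr_apply]

end

end Pool.Agent.Lib.MP_463376_co
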