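import Pool.Agent.Lib.MP_463376_co.ISym
import Pool.Agent.Lib.MP_463376_co.H_Pars
import Pool.Agent.Lib.MP_463376_co.GridDefs
import Pool.Agent.Lib.MP_463376_co.Transport

/-! Auxiliary facts on characters for the export theorem. -/

namespace Pool.Agent.Lib.MP_463376_co

open MvPolynomial Hs

section
variable {k : Type} [Field k] {ι : Type}

theorem GRep.ch_eq_trace (F : GRep k ι) (w : Equiv.Perm ι) :
    F.ch w = Matrix.trace ((F.ρ w).map (C : k → MvPolynomial (Fin 2) k) *
      Matrix.diagonal fun v => (X 0 : MvPolynomial (Fin 2) k) ^ (F.deg v).1 * X 1 ^ (F.deg v).2) := by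
  unfold GRep.ch Matrix.trace
  refine Finset.sum_congr rfl fun v _ => ?_
  rw [Matrix.diag_apply, Matrix.mul_diagonal, Matrix.map_apply]

theorem GRep.comm_diag (F : GRep k ι) (w : Equiv.Perm ι) :
    (F.ρ w).map (C : k → MvPolynomial (Fin 2) k) *
      Matrix.diagonal (fun v => (X 0 : MvPolynomial (Fin 2) k) ^ (F.deg v).1 * X 1 ^ (F.deg v).2) =
    Matrix.diagonal (fun v => (X 0 : MvPolynomial (Fin 2) k) ^ (F.deg v).1 * X 1 ^ (F.deg v).2) *
      (F.ρ w).map (C : k → MvPolynomial (Fin 2) k) := by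
  ext1 v v'
  rw [Matrix.mul_diagonal, Matrix.diagonal_mul, Matrix.map_apply]
  by_cases h : F.ρ w v v' = 0
  · rw [h, C_0, zero_mul, mul_zero]
  · rw [F.hom w v v' h, mul_comm]

theorem GRep.ch_conj (F : GRep k ι) (w w' : Equiv.Perm ι) :
    F.ch (w * w' * w⁻¹) = F.ch w' := by
  have hmul : ∀ a b : Equiv.Perm ι, (F.ρ (a * b)).map (C : k → MvPolynomial (Fin 2) k) =
      (F.ρ a).map (C : k → MvPolynomial (Fin 2) k) * (F.ρ b).map (C : k → MvPolynomial (Fin 2) k) := by
    intro a b
    rw [F.mul]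
    exact Matrix.map_mul (f := (C : k →+* MvPolynomial (Fin 2) k))
  have hone : (F.ρ w⁻¹).map (C : k → MvPolynomial (Fin 2) k) *
      (F.ρ w).map (C : k → MvPolynomial (Fin 2) k) = 1 := by
    rw [← hmul, inv_mul_cancel, F.one]
    exact Matrix.map_one _ C_0 C_1
  rw [GRep.ch_eq_trace, GRep.ch_eq_trace, hmul, Matrix.mul_assoc, F.comm_diag w⁻¹,
    ← Matrix.mul_assoc, Matrix.trace_mul_comm, ← Matrix.mul_assoc, hmul, ← Matrix.mul_assoc, hone,
    Matrix.one_mul]

end

section
variable {K : Type} [Field K] [CharZero K] {ι : Type} [Fintype ι] [DecidableEq ι]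

theorem frob_wh (f : Equiv.Perm ι → K) : WH (frob f) (Fintype.card ι) := by
  unfold frob
  have h1 : WH (∑ w : Equiv.Perm ι, C (f w) * pcyc K w) (Fintype.card ι) := by
    refine IsWeightedHomogeneous.sum _ _ _ fun w _ => ?_
    have := (isWeightedHomogeneous_C (fun i : ℕ => i + 1) (f w)).mul (pcyc_wh (K := K) w)
    rwa [zero_add] at this
  have := (isWeightedHomogeneous_C (fun i : ℕ => i + 1)
    ((((Fintype.card ι).factorial : ℕ) : K)⁻¹)).mul h1
  rwa [zero_add] at this

theorem homDeg_of_wh {f : Sym K} {n : ℕ} (h : WH f n) : HomDeg f n := (homDeg_iff f n).2 h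

theorem frob_homDeg (f : Equiv.Perm ι → K) : HomDeg (frob f) (Fintype.card ι) :=
  homDeg_of_wh (frob_wh f)

theorem plethOne_frob (u : K) (f : Equiv.Perm ι → K) :
    plethOne u (frob f) = frob fun w =>
      f w * (1 - u • (w.toPEquiv.toMatrix : Matrix ι ι K)).det := by
  have hC : ∀ c : K, plethOne u (C c) = C c := fun c => by
    simp [plethOne, MvPolynomial.algebraMap_eq]
  unfold frob
  rw [map_mul, hC, map_sum]
  congr 1
  refine Finset.sum_congr rfl fun w _ => ?_
  rw [map_mul, hC, plethOne_pcyc, C_mul, mul_assoc]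

theorem pcyc_ne_zero (w : Equiv.Perm ι) : pcyc K w ≠ 0 := by
  rw [pcyc_eq]
  exact fun h => one_ne_zero ((monomial_eq_zero).1 h)

theorem det_conj (u : K) (w w' : Equiv.Perm ι) :
    (1 - u • ((w * w' * w⁻¹).toPEquiv.toMatrix : Matrix ι ι K)).det =
      (1 - u • (w'.toPEquiv.toMatrix : Matrix ι ι K)).det := by
  have h1 := plethOne_pcyc K u (w * w' * w⁻¹)
  rw [pcyc_conj, plethOne_pcyc] at h1
  exact (C_injective _ _ (mul_right_cancel₀ (pcyc_ne_zero w') h1)).symm

theorem colLen_rowD (n : ℕ) : (rowD n).colLen 0 = if n = 0 then 0 else 1 := by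
  split_ifs with h
  · subst h
    by_contra h1
    have h2 : (0, 0) ∈ rowD 0 := YoungDiagram.mem_iff_lt_colLen.2 (Nat.pos_of_ne_zero h1)
    have h3 : (0, 0) ∈ (rowD 0).cells := h2
    simp [rowD] at h3
  · apply le_antisymm
    · by_contra h1
      push Not at h1
      have h2 : (1, 0) ∈ rowD n := YoungDiagram.mem_iff_lt_colLen.2 h1
      have h3 : (1, 0) ∈ (rowD n).cells := h2
      simp [rowD] at h3
    · have h3 : (0, 0) ∈ (rowD n).cells := by
        simp [rowD]
        omega
      exact YoungDiagram.mem_iff_lt_colLen.1 h3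

theorem rowLen_rowD (n : ℕ) : (rowD n).rowLen 0 = n := by
  apply le_antisymm
  · by_contra h1
    push Not at h1
    have h2 : (0, n) ∈ rowD n := YoungDiagram.mem_iff_lt_rowLen.2 h1
    have h3 : (0, n) ∈ (rowD n).cells := h2
    simp [rowD] at h3
  · by_contra h1
    push Not at h1
    have h3 : (0, (rowD n).rowLen 0) ∈ (rowD n).cells := by
      have h4 : (rowD n).cells = {0} ×ˢ Finset.range n := rfl
      rw [h4, Finset.mem_product, Finset.mem_singleton, Finset.mem_range]
      exact ⟨rfl, h1⟩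
    exact lt_irrefl _ (YoungDiagram.mem_iff_lt_rowLen.1 h3)

theorem schur_rowD (n : ℕ) : schur K (rowD n) = hS K n := by
  unfold schur
  rcases Nat.eq_zero_or_pos n with h | h
  · subst h
    have h1 : (rowD 0).colLen 0 = 0 := by rw [colLen_rowD, if_pos rfl]
    have : IsEmpty (Fin ((rowD 0).colLen 0)) := by rw [h1]; infer_instance
    rw [Matrix.det_isEmpty]
    simp [hS]
  · have h1 : (rowD n).colLen 0 = 1 := by rw [colLen_rowD, if_neg (by omega)]
    have : Unique (Fin ((rowD n).colLen 0)) := by rw [h1]; infer_instance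
    rw [Matrix.det_unique]
    have h2 : ((default : Fin ((rowD n).colLen 0)) : ℕ) = 0 := by
      have := (default : Fin ((rowD n).colLen 0)).2
      omega
    rw [Matrix.of_apply, h2, rowLen_rowD]
    simp [hZ]

theorem hall_frob_row (f : Equiv.Perm ι → K) :
    hall (frob f) (schur K (rowD (Fintype.card ι))) =
      (((Fintype.card ι).factorial : ℕ) : K)⁻¹ * ∑ w : Equiv.Perm ι, f w := by
  rw [schur_rowD, hall_frob]
  congr 1
  refine Finset.sum_congr rfl fun w _ => ?_
  have h1 := hall_pcyc_hS (K := K) (s := 1) w (fun _ => Fintype.card ι)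
  rw [Fin.prod_univ_one] at h1
  rw [h1]
  have h2 : (Finset.univ.filter fun φ : ι → Fin 1 => φ ∘ w = φ ∧
      ∀ b, (Finset.univ.filter fun i => φ i = b).card = Fintype.card ι) = Finset.univ := by
    ext φ
    simp only [Finset.mem_filter, Finset.mem_univ, true_and, iff_true]
    refine ⟨Subsingleton.elim _ _, fun b => ?_⟩
    rw [Finset.filter_true_of_mem (fun i _ => Subsingleton.elim _ _), Finset.card_univ]
  rw [h2, Finset.card_univ]
  simp

/-- criterion for membership in the span of Schur functions -/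
theorem frob_mem_span (f : Equiv.Perm ι → K) (S : YoungDiagram → Prop)
    (h : ∀ lam, lam.card = Fintype.card ι → ¬ S lam → hall (frob f) (schur K lam) = 0) :
    frob f ∈ Submodule.span K {g | ∃ lam, S lam ∧ g = schur K lam} := by
  obtain ⟨s, hs, he⟩ := schur_expand K (frob f) _ (frob_homDeg f)
  rw [he]
  refine Submodule.sum_mem _ fun lam hlam => ?_
  by_cases hS : S lam
  · rw [← smul_eq_C_mul]
    exact Submodule.smul_mem _ _ (Submodule.subset_span ⟨lam, hS, rfl⟩)
  · rw [h lam (hs lam hlam) hS, C_0, zero_mul]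
    exact Submodule.zero_mem _

end

end Pool.Agent.Lib.MP_463376_co
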