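import Pool.Agent.Lib.MP_463376_co.G1_Hom
import Pool.Agent.Lib.MP_463376_co.G1_Det

/-! PART 9: abstract Koszul argument (stream G1) -/

namespace Pool.Agent.Lib.MP_463376_co

open MvPolynomial RingTheory.Sequence

section aux

theorem G1_residue (k A : Type) [Field k] [CommRing A] [IsLocalRing A] [Algebra k A]
    (hres : ∀ a : A, ∃ c : k, a - algebraMap k A c ∈ IsLocalRing.maximalIdeal A) :
    ∃ r : A →+* k, (∀ c, r (algebraMap k A c) = c) ∧
      ∀ a ∈ IsLocalRing.maximalIdeal A, r a = 0 := by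
  obtain ⟨φ, hφ⟩ : ∃ φ : k →+* IsLocalRing.ResidueField A,
    φ = (IsLocalRing.residue A).comp (algebraMap k A) := ⟨_, rfl⟩
  have hφ' : ∀ c, φ c = IsLocalRing.residue A (algebraMap k A c) := fun c => by
    rw [hφ]
    rfl
  have hb : Function.Bijective φ := by
    refine ⟨φ.injective, fun x => ?_⟩
    obtain ⟨a, rfl⟩ := IsLocalRing.residue_surjective x
    obtain ⟨c, hc⟩ := hres a
    refine ⟨c, ?_⟩
    rw [← IsLocalRing.residue_eq_zero_iff, map_sub, sub_eq_zero] at hc
    rw [hφ', hc]
  let e := RingEquiv.ofBijective φ hb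
  have he : ∀ c, e.symm (φ c) = c := fun c => e.symm_apply_apply c
  refine ⟨e.symm.toRingHom.comp (IsLocalRing.residue A), fun c => ?_, fun a ha => ?_⟩
  · show e.symm (IsLocalRing.residue A (algebraMap k A c)) = c
    rw [← hφ', he]
  · show e.symm (IsLocalRing.residue A a) = 0
    rw [(IsLocalRing.residue_eq_zero_iff a).2 ha, map_zero]

theorem G1_coord {k A C V : Type} [Field k] [CommRing A] [IsLocalRing A] [Algebra k A]
    [CommRing C] [Algebra A C] [Fintype V] (g : Module.Basis V A C)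
    (r : A →+* k) (hr : ∀ c, r (algebraMap k A c) = c)
    (hr0 : ∀ a ∈ IsLocalRing.maximalIdeal A, r a = 0) (c : C) (x : V → k)
    (h : c - ∑ v', algebraMap k A (x v') • g v' ∈
      (IsLocalRing.maximalIdeal A) • (⊤ : Submodule A C)) (v : V) : r (g.repr c v) = x v := by
  have h0 : ∀ z ∈ (IsLocalRing.maximalIdeal A) • (⊤ : Submodule A C), r (g.repr z v) = 0 := by
    intro z hz
    refine Submodule.smul_induction_on hz ?_ ?_
    · intro a ha n _
      rw [map_smul, Finsupp.smul_apply, smul_eq_mul, map_mul, hr0 a ha, zero_mul]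
    · intro z z' hz hz'
      rw [map_add, Finsupp.add_apply, map_add, hz, hz', add_zero]
  have h1 := h0 _ h
  rw [map_sub, Finsupp.sub_apply, map_sub, sub_eq_zero,
    g.repr_sum_self (fun v' => algebraMap k A (x v')), hr] at h1
  exact h1

/-- the trace argument: if `M` anticommutes with `D` and `E = D H + H D` then `tr (M E) = 0` -/
theorem G1_trace_zero {B P : Type} [Fintype B] [DecidableEq B] [CommRing P]
    (M D H E : Matrix B B P) (hMD : M * D = -(D * M)) (hE : E = D * H + H * D) :
    Matrix.trace (M * E) = 0 := by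
  rw [hE, mul_add, Matrix.trace_add, ← mul_assoc, hMD, ← mul_assoc M H D,
    Matrix.trace_mul_comm (M * H) D, neg_mul, Matrix.trace_neg, mul_assoc, neg_add_cancel]

end aux

section Koszul

/-- PART 9, abstract Koszul argument. `A` local with residue field `k`, `C` free over `A` with basis
`g`, `y` a regular sequence (in any order) permuted by the group; if the idempotent `e` kills
`C/(y)` then the corresponding coefficient of the character of `C/mC` times `det(1 - t w)` is zero. -/
theorem koszul_trace (k A C ι V : Type) [Field k] [CharZero k] [CommRing A] [IsLocalRing A]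
    [IsNoetherianRing A] [Algebra k A] (hres : ∀ a : A, ∃ c : k, a - algebraMap k A c ∈ IsLocalRing.maximalIdeal A)
    [CommRing C] [Algebra A C] [Fintype ι] [DecidableEq ι] [Fintype V] [DecidableEq V]
    (g : Module.Basis V A C) (y : ι → C)
    (hreg : ∀ l : List ι, l.Nodup → IsWeaklyRegular C (l.map y))
    (act : Equiv.Perm ι →* (C →ₗ[A] C)) (hact : ∀ w i c, act w (y i * c) = y (w i) * act w c)
    (e : Equiv.Perm ι → k) (he : ∀ g, ∑ h, e h * e (h⁻¹ * g) = e g)
    (hz : ∀ c : C, ∑ w, algebraMap k A (e w) • act w c ∈ Ideal.span (Set.range y))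
    (deg : V → ℕ × ℕ) (ρ : Equiv.Perm ι → Matrix V V k) (η : ι → Matrix V V k)
    (hρ : ∀ w v, act w (g v) - ∑ v', algebraMap k A (ρ w v' v) • g v' ∈
      (IsLocalRing.maximalIdeal A) • (⊤ : Submodule A C))
    (hρd : ∀ w v' v, ρ w v' v ≠ 0 → deg v' = deg v)
    (hη : ∀ i v, y i * g v - ∑ v', algebraMap k A (η i v' v) • g v' ∈
      (IsLocalRing.maximalIdeal A) • (⊤ : Submodule A C))
    (hηd : ∀ i v' v, η i v' v ≠ 0 → deg v' = ((deg v).1, (deg v).2 + 1)) :
    ∑ w : Equiv.Perm ι, MvPolynomial.C (e w) *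
      (∑ v, MvPolynomial.C (ρ w v v) * (X 0 ^ (deg v).1 * X 1 ^ (deg v).2)) *
      ((1 - (X 1 : MvPolynomial (Fin 2) k) •
        (w.toPEquiv.toMatrix : Matrix ι ι (MvPolynomial (Fin 2) k))).det) = 0 := by
  obtain ⟨rk, hrk⟩ : ∃ rk : ι → ℕ, Function.Injective rk :=
    ⟨fun i => (Fintype.equivFin ι i : ℕ), fun i j h =>
      (Fintype.equivFin ι).injective (Fin.ext h)⟩
  obtain ⟨r, hr, hr0⟩ := G1_residue k A hres
  have hrρ : ∀ w v' v, r (g.repr (act w (g v)) v') = ρ w v' v := fun w v' v =>
    G1_coord g r hr hr0 _ (fun v' => ρ w v' v) (hρ w v) v'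
  have hrη : ∀ i v' v, r (g.repr (y i * g v) v') = η i v' v := fun i v' v =>
    G1_coord g r hr hr0 _ (fun v' => η i v' v) (hη i v) v'
  -- the homotopy
  have hfree : Module.Free A (Finset ι → C) :=
    Module.Free.of_basis (Pi.basis (fun _ : Finset ι => g))
  obtain ⟨E, hEdef⟩ : ∃ E : (Finset ι → C) →ₗ[A] (Finset ι → C),
      E = ∑ w, algebraMap k A (e w) • G1W rk A w (act w) := ⟨_, rfl⟩
  have hEapp : ∀ φ, E φ = ∑ w, algebraMap k A (e w) • G1W rk A w (act w) φ := by
    intro φ
    rw [hEdef, LinearMap.sum_apply]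
    rfl
  have hEc : ∀ φ, G1d rk A y (E φ) = E (G1d rk A y φ) := by
    intro φ
    rw [hEapp, hEapp, map_sum]
    refine Finset.sum_congr rfl fun w _ => ?_
    rw [map_smul, G1W_comm rk A y hrk w (act w) (hact w)]
  have hE0 : ∀ φ, (E φ) ∅ ∈ Ideal.span (Set.range y) := by
    intro φ
    have h1 : (E φ) ∅ = ∑ w, algebraMap k A (e w) • act w (φ ∅) := by
      rw [hEapp, Finset.sum_apply]
      refine Finset.sum_congr rfl fun w _ => ?_
      rw [Pi.smul_apply, G1W_apply, Finset.map_empty]
      have h2 : G1e rk w ∅ = 1 := by simp [G1e]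
      rw [h2, one_smul]
    rw [h1]
    exact hz _
  have hspan : (y '' ((Finset.univ : Finset ι) : Set ι)) = Set.range y := by
    rw [Finset.coe_univ, Set.image_univ]
  have hex : ∀ φ : Finset ι → C, G1d rk A y φ = 0 → φ ∅ ∈ Ideal.span (Set.range y) →
      ∃ ψ, G1d rk A y ψ = φ := by
    intro φ hφ h0
    obtain ⟨ψ, hψ⟩ := G1_exact rk y hrk (fun U m hm c h => G1_reg y hreg U m hm c h) Finset.univ φ
      (fun T _ => congrFun hφ T) (by rw [hspan]; exact h0)
    exact ⟨ψ, funext fun T => (hψ T (Finset.subset_univ T)).symm⟩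
  obtain ⟨H, hH⟩ := G1_homotopy rk A y hrk E hEc hE0 hex
  -- matrices
  obtain ⟨bK, hbK⟩ : ∃ bK : Module.Basis (Σ _ : Finset ι, V) A (Finset ι → C),
      bK = Pi.basis (fun _ : Finset ι => g) := ⟨_, rfl⟩
  obtain ⟨Θ, hΘ⟩ : ∃ Θ : Module.End A (Finset ι → C) →+*
      Matrix (Σ _ : Finset ι, V) (Σ _ : Finset ι, V) (MvPolynomial (Fin 2) k),
      Θ = ((MvPolynomial.C : k →+* MvPolynomial (Fin 2) k).comp r).mapMatrix.comp
        ((LinearMap.toMatrixAlgEquiv bK : Module.End A (Finset ι → C) ≃ₐ[A]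
          Matrix (Σ _ : Finset ι, V) (Σ _ : Finset ι, V) A) : Module.End A (Finset ι → C) →+*
          Matrix (Σ _ : Finset ι, V) (Σ _ : Finset ι, V) A) := ⟨_, rfl⟩
  have hΘapp : ∀ (f : Module.End A (Finset ι → C)) (b' b : Σ _ : Finset ι, V),
      Θ f b' b = MvPolynomial.C (r (g.repr (f (Pi.single b.1 (g b.2)) b'.1) b'.2)) := by
    intro f b' b
    rw [hΘ]
    show MvPolynomial.C (r (LinearMap.toMatrixAlgEquiv bK f b' b)) = _
    rw [LinearMap.toMatrixAlgEquiv_apply, hbK, Pi.basis_apply, Pi.basis_repr]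
  obtain ⟨N, hN⟩ : ∃ N : (Σ _ : Finset ι, V) → MvPolynomial (Fin 2) k,
      N = fun b => (-1) ^ b.1.card * (X 0 ^ (deg b.2).1 * X 1 ^ ((deg b.2).2 + b.1.card)) := ⟨_, rfl⟩
  have hE' : Θ E = Θ (G1d rk A y) * Θ H + Θ H * Θ (G1d rk A y) := by
    rw [← map_mul, ← map_mul, ← map_add]
    congr 1
    refine LinearMap.ext fun φ => ?_
    exact (hH φ).symm
  have hMD : Matrix.diagonal N * Θ (G1d rk A y) = -(Θ (G1d rk A y) * Matrix.diagonal N) := by
    ext1 b' b
    rw [Matrix.diagonal_mul, Matrix.neg_apply, Matrix.mul_diagonal]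
    by_cases hzero : Θ (G1d rk A y) b' b = 0
    · rw [hzero, mul_zero, zero_mul, neg_zero]
    · have h1 : r (g.repr (G1d rk A y (Pi.single b.1 (g b.2)) b'.1) b'.2) ≠ 0 := by
        intro h
        apply hzero
        rw [hΘapp, h, map_zero]
      rw [G1d_apply, map_sum, Finsupp.finsetSum_apply, map_sum] at h1
      obtain ⟨i, hi, h2⟩ := Finset.exists_ne_zero_of_sum_ne_zero h1
      rw [Finset.mem_sdiff] at hi
      have h3 : insert i b'.1 = b.1 := by
        by_contra h3
        apply h2
        rw [Pi.single_eq_of_ne h3, mul_zero, smul_zero, map_zero, Finsupp.zero_apply, map_zero]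
      have h4 : η i b'.2 b.2 ≠ 0 := by
        intro h4
        apply h2
        rw [h3, Pi.single_eq_same, map_zsmul, Finsupp.smul_apply, map_zsmul, hrη, h4, smul_zero]
      have h5 := hηd i _ _ h4
      have h6 : b.1.card = b'.1.card + 1 := by
        rw [← h3, Finset.card_insert_of_notMem hi.2]
      rw [hN]
      simp only
      rw [h5, h6]
      simp only
      ring
  have htr := G1_trace_zero (Matrix.diagonal N) (Θ (G1d rk A y)) (Θ H) (Θ E) hMD hE'
  -- compute the trace
  have hEdiag : ∀ b : Σ _ : Finset ι, V, Θ E b b = ∑ w, MvPolynomial.C (e w) *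
      (if b.1.map w.toEmbedding = b.1 then ((G1e rk w b.1 : ℤ) : MvPolynomial (Fin 2) k) *
        MvPolynomial.C (ρ w b.2 b.2) else 0) := by
    intro b
    rw [hΘapp, hEapp, Finset.sum_apply, map_sum, Finsupp.finsetSum_apply, map_sum, map_sum]
    refine Finset.sum_congr rfl fun w _ => ?_
    rw [Pi.smul_apply, map_smul, Finsupp.smul_apply, smul_eq_mul, map_mul, hr, map_mul, G1W_apply]
    congr 1
    by_cases hb : b.1.map w.toEmbedding = b.1
    · have hb' : b.1.map (w⁻¹).toEmbedding = b.1 := by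
        ext x
        have h3 := G1_stable w b.1 hb
        constructor
        · intro hx
          obtain ⟨a, ha, rfl⟩ := Finset.mem_map.1 hx
          have h4 : w (w.symm a) = a := w.apply_symm_apply a
          show w.symm a ∈ b.1
          rw [← h3, h4]
          exact ha
        · intro hx
          exact Finset.mem_map.2 ⟨w x, (h3 x).2 hx, w.symm_apply_apply x⟩
      rw [if_pos hb, hb', Pi.single_eq_same, map_zsmul, Finsupp.smul_apply, map_zsmul, hrρ,
        zsmul_eq_mul, map_mul, map_intCast]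
    · have hb' : b.1.map (w⁻¹).toEmbedding ≠ b.1 := by
        intro hb'
        apply hb
        have h3 := G1_stable w⁻¹ b.1 hb'
        ext x
        constructor
        · intro hx
          obtain ⟨a, ha, rfl⟩ := Finset.mem_map.1 hx
          have h4 : w.symm (w a) = a := w.symm_apply_apply a
          have h5 := h3 (w a)
          have h6 : w⁻¹ (w a) = a := h4
          rw [h6] at h5
          exact h5.1 ha
        · intro hx
          exact Finset.mem_map.2 ⟨w.symm x, (h3 x).2 hx, w.apply_symm_apply x⟩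
      rw [if_neg hb, Pi.single_eq_of_ne hb', map_zero, smul_zero, map_zero, Finsupp.zero_apply,
        map_zero, map_zero]
  rw [← htr]
  unfold Matrix.trace
  simp only [Matrix.diag_apply, Matrix.diagonal_mul]
  simp_rw [hEdiag, Finset.mul_sum]
  rw [Finset.sum_comm]
  refine Finset.sum_congr rfl fun w _ => ?_
  rw [G1_det rk hrk w (X 1), Finset.mul_sum, Fintype.sum_sigma]
  refine Finset.sum_congr rfl fun T _ => ?_
  rw [Finset.sum_mul]
  refine Finset.sum_congr rfl fun v _ => ?_
  rw [hN]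
  simp only
  split_ifs with hT
  · rw [pow_add, neg_pow (X 1 : MvPolynomial (Fin 2) k)]
    ring
  · ring

end Koszul


end Pool.Agent.Lib.MP_463376_co
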