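import Pool.Agent.Lib.MP_463376_co.Defs

/-! A list of distinct variables is weakly regular. -/

namespace Pool.Agent.Lib.MP_463376_co

open MvPolynomial RingTheory.Sequence

section YVar

variable {k : Type} [Field k] {ι : Type} [DecidableEq ι]

private noncomputable def phiV (l : List ι) : BB k ι →ₐ[k] BB k ι :=
  aeval fun i => if i ∈ l then 0 else X i

private theorem ker_phiV (l : List ι) :
    RingHom.ker (phiV (k := k) l) = Ideal.ofList (l.map fun i => (X i : BB k ι)) := by
  apply le_antisymm
  · intro f hf
    set I := Ideal.ofList (l.map fun i => (X i : BB k ι)) with hI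
    have key : (Ideal.Quotient.mkₐ k I).comp (phiV (k := k) l) = Ideal.Quotient.mkₐ k I := by
      apply MvPolynomial.algHom_ext
      intro i
      simp only [AlgHom.comp_apply, phiV, aeval_X]
      split_ifs with hi
      · symm
        rw [map_zero, Ideal.Quotient.mkₐ_eq_mk, Ideal.Quotient.eq_zero_iff_mem]
        apply Ideal.subset_span
        simp only [Set.mem_ofPred_eq, List.mem_map]
        exact ⟨i, hi, rfl⟩
      · rfl
    have h1 : (Ideal.Quotient.mkₐ k I) f = 0 := by
      rw [← key, AlgHom.comp_apply, (RingHom.mem_ker).mp hf, map_zero]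
    simpa [Ideal.Quotient.eq_zero_iff_mem] using h1
  · unfold Ideal.ofList
    rw [Ideal.span_le]
    intro f hf
    simp only [Set.mem_ofPred_eq, List.mem_map] at hf
    obtain ⟨i, hi, rfl⟩ := hf
    simp only [SetLike.mem_coe, RingHom.mem_ker]
    simp [phiV, hi]

theorem yvar_regular (l : List ι) (hnod : l.Nodup) :
    IsWeaklyRegular (BB k ι) (l.map fun i => (X i : BB k ι)) := by
  constructor
  intro n hn
  rw [← List.map_take]
  set I := Ideal.ofList ((l.take n).map fun i => (X i : BB k ι)) with hI
  have hk := ker_phiV (k := k) (l.take n)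
  have hn' : n < l.length := by simpa using hn
  rw [List.getElem_map]
  have hX : phiV (k := k) (l.take n) (X l[n]) = X l[n] := by
    have h1 : l[n] ∉ l.take n := by
      intro hh
      obtain ⟨m, hm, hm'⟩ := List.getElem_of_mem hh
      rw [List.getElem_take] at hm'
      have := (List.Nodup.getElem_inj_iff hnod).mp hm'
      rw [List.length_take] at hm
      omega
    simp [phiV, h1]
  intro x y hxy
  induction x using Submodule.Quotient.induction_on with | _ x => ?_
  induction y using Submodule.Quotient.induction_on with | _ y => ?_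
  simp only [← Submodule.Quotient.mk_smul] at hxy
  rw [Submodule.Quotient.eq] at hxy ⊢
  rw [smul_eq_mul, Ideal.mul_top] at hxy ⊢
  rw [hI, ← hk, RingHom.mem_ker] at hxy ⊢
  rw [← smul_sub, smul_eq_mul, map_mul, hX] at hxy
  exact (mul_eq_zero.mp hxy).resolve_left (X_ne_zero _)

end YVar

end Pool.Agent.Lib.MP_463376_co
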