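import Pool.Agent.Lib.MP_463376_co.I9h
import Pool.Agent.Lib.MP_463376_co.I9k
import Pool.Agent.Lib.MP_463376_co.YVar

/-! The Koszul argument for a homogeneous basis. -/

namespace Pool.Agent.Lib.MP_463376_co

open MvPolynomial RingTheory.Sequence

section
variable {k : Type} [Field k] [CharZero k] {ι : Type} [Fintype ι] [DecidableEq ι]
  {L : Type} [Field L] [Algebra k L] [Algebra (RR k ι) L]
  [IsScalarTower k (RR k ι) L] [IsFractionRing (RR k ι) L] {δ : Dia ι}

theorem yregular_CC (l : List ι) (hl : l.Nodup) :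
    IsWeaklyRegular (CC k L δ) (l.map fun i => toC k L δ (yy i)) := by
  have h1 := weaklyRegular_CC k L δ (l.map fun i => (X i : BB k ι)) (yvar_regular l hl)
  rw [List.map_map] at h1
  have h2 : (⇑(yC k L δ) ∘ fun i => (X i : BB k ι)) = fun i => toC k L δ (yy i) := by
    funext i
    show toC k L δ (yB (X i)) = toC k L δ (yy i)
    rw [yB, rename_X]
    rfl
  rw [← h2]
  exact h1

theorem koszul_HomBasis (B : HomBasis k L δ) (e : Equiv.Perm ι → k)
    (he : ∀ g, ∑ h, e h * e (h⁻¹ * g) = e g)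
    (hz : ∀ c : L, c ∈ CC k L δ → ∃ c' ∈ Ideal.span (Set.range fun i : ι => toC k L δ (yy i)),
      (c' : L) = ∑ w : Equiv.Perm ι, algebraMap k L (e w) * permL (k := k) w c) :
    ∑ w : Equiv.Perm ι, MvPolynomial.C (e w) * B.toGRep.ch w *
      ((1 - (X 1 : MvPolynomial (Fin 2) k) •
        (w.toPEquiv.toMatrix : Matrix ι ι (MvPolynomial (Fin 2) k))).det) = 0 := by
  have _ := AA_regular k L δ
  have hmax : ∀ a : AA k L δ, a ∈ IsLocalRing.maximalIdeal (AA k L δ) ↔ resA k L δ a = 0 := by
    intro a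
    rw [res_eq_zero_iff, IsLocalRing.mem_maximalIdeal, mem_nonunits_iff]
  have hmem : ∀ (c : CC k L δ) (x : B.V → k), (∀ v', resA k L δ (B.bas.repr c v') = x v') →
      c - ∑ v', algebraMap k (AA k L δ) (x v') • B.bas v' ∈
        (IsLocalRing.maximalIdeal (AA k L δ)) • (⊤ : Submodule (AA k L δ) (CC k L δ)) := by
    intro c x hx
    have h1 : c - ∑ v', algebraMap k (AA k L δ) (x v') • B.bas v' =
        ∑ v', (B.bas.repr c v' - algebraMap k (AA k L δ) (x v')) • B.bas v' := by
      conv_lhs => rw [← B.bas.sum_repr c]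
      rw [← Finset.sum_sub_distrib]
      exact Finset.sum_congr rfl fun v' _ => (sub_smul _ _ _).symm
    rw [h1]
    refine Submodule.sum_mem _ fun v' _ => Submodule.smul_mem_smul ?_ Submodule.mem_top
    rw [hmax, map_sub, hx, AlgHom.commutes]
    exact sub_self _
  refine koszul_trace k (AA k L δ) (CC k L δ) ι B.V ?_ B.bas (fun i => toC k L δ (yy i))
    (fun l hl => yregular_CC l hl) (DistribMulAction.toModuleEnd (AA k L δ) (CC k L δ)) ?_ e he ?_
    B.deg B.ρ (fun i v' v => resA k L δ (B.bas.repr (toC k L δ (yy i) * B.bas v) v')) ?_ B.hom ?_ ?_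
  · intro a
    refine ⟨resA k L δ a, ?_⟩
    rw [hmax, map_sub, AlgHom.commutes]
    exact sub_self _
  · intro w i c
    show w • (toC k L δ (yy i) * c) = toC k L δ (yy (w i)) * (w • c)
    rw [smul_mul', perm_smul_toC, permR_yy]
  · intro c
    obtain ⟨c', hc', h⟩ := hz (c : L) c.2
    have h1 : ∑ w : Equiv.Perm ι, algebraMap k (AA k L δ) (e w) •
        (DistribMulAction.toModuleEnd (AA k L δ) (CC k L δ) w) c = c' := by
      apply Subtype.ext
      rw [h, AddSubmonoidClass.coe_finsetSum]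
      refine Finset.sum_congr rfl fun w _ => ?_
      rw [coe_smul_CC]
      rfl
    rw [h1]
    exact hc'
  · intro w v
    refine hmem _ _ fun v' => ?_
    obtain ⟨a, ha, hu⟩ := B.perm w v
    have h2 := g3norm_repr_eq B (w • B.bas v) a (by rw [coe_perm_smul, B.bas_coe, ha]) v'
    have h3 := (res_eq_iff k L δ _ _).2 (hu v')
    rw [← h2] at h3
    exact h3
  · intro i v
    exact hmem _ _ fun v' => rfl
  · intro i v' v hne
    have hc : tauL k ι L ((toC k L δ (yy i) * B.bas v : CC k L δ) : L) =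
        evv k ((B.deg v).1 : ℤ) ((B.deg v).2 + 1 : ℤ) •
          ((toC k L δ (yy i) * B.bas v : CC k L δ) : L) := by
      rw [MulMemClass.coe_mul, map_mul, B.bas_coe, B.tauL_g, coe_toC, tauL_toL]
      have h4 : tau k ι (yy i) = C 3 * yy i := by
        rw [tau_apply]
        simp [tor, yy]
      rw [h4, map_mul]
      have h5 : toL k L (C 3 : RR k ι) = algebraMap k L 3 := (toL k L).commutes 3
      rw [h5]
      simp only [Algebra.smul_def, evv]
      have h6 : ((3 : k)) ^ ((B.deg v).2 + 1 : ℤ) = 3 ^ ((B.deg v).2 : ℤ) * 3 := by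
        rw [zpow_add₀ (by norm_num), zpow_one]
      rw [h6]
      simp only [map_mul]
      ring
    have h1 := B.tauL_a_eq ((toC k L δ (yy i) * B.bas v : CC k L δ) : L)
      (toC k L δ (yy i) * B.bas v : CC k L δ).2 _ _ hc
      (fun v' => B.bas.repr (toC k L δ (yy i) * B.bas v) v') (g3norm_coe_repr B _) v'
    have h2 := res_tau k L δ (B.bas.repr (toC k L δ (yy i) * B.bas v) v')
      (evv k ((B.deg v).1 - (B.deg v').1 : ℤ) ((B.deg v).2 + 1 - (B.deg v').2 : ℤ) •
        (B.bas.repr (toC k L δ (yy i) * B.bas v) v')) (by rw [h1]; rfl)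
    rw [g3norm_res_smul] at h2
    have h3 : evv k ((B.deg v).1 - (B.deg v').1 : ℤ) ((B.deg v).2 + 1 - (B.deg v').2 : ℤ) =
        evv k 0 0 := by
      rw [evv_zero]
      exact mul_right_cancel₀ hne (by rw [h2, one_mul])
    obtain ⟨h5, h6⟩ := evv_inj h3
    ext
    · have : ((B.deg v').1 : ℤ) = (B.deg v).1 := by linarith
      exact_mod_cast this
    · have : ((B.deg v').2 : ℤ) = (B.deg v).2 + 1 := by linarith
      exact_mod_cast this

end

end Pool.Agent.Lib.MP_463376_co
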