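import Pool.Agent.Lib.MP_463376_co.I8
import Pool.Agent.Lib.MP_463376_co.G2_Main
import Pool.Agent.Lib.MP_463376_co.G2_Ne

/-! PART 9 (ii): the vanishing e(C/(y)C)=0 (stream G2) -/

namespace Pool.Agent.Lib.MP_463376_co

open MvPolynomial RingTheory.Sequence

section

variable (k : Type) [Field k] [CharZero k] {ι : Type} [Fintype ι] [DecidableEq ι]
  (L : Type) [Field L] [Algebra k L] [Algebra (RR k ι) L]
  [IsScalarTower k (RR k ι) L] [IsFractionRing (RR k ι) L] (δ : Dia ι)

/-- `ν` (column heights of the diagram) -/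
theorem claimZ (lam : YoungDiagram) (hl : lam.card = Fintype.card ι)
    (hdom : ∃ m : ℕ, ∑ i ∈ Finset.range m, lam.rowLen i <
      ∑ j ∈ Finset.range m, (Finset.univ.filter fun i : ι => (δ.c i).1 = j).card)
    (e : Equiv.Perm ι → k) (he : ∀ g, ∑ h, e h * e (h⁻¹ * g) = e g)
    (htr : ∀ (s : ℕ) (nu : Fin s → ℕ), ∑ b, nu b = Fintype.card ι →
      ∑ w : Equiv.Perm ι, e w * ((Finset.univ.filter fun φ : ι → Fin s => φ ∘ w = φ ∧
        ∀ b, (Finset.univ.filter fun i => φ i = b).card = nu b).card : k) ≠ 0 →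
        ∀ T : Finset (Fin s), ∑ b ∈ T, nu b ≤ ∑ i ∈ Finset.range T.card, lam.rowLen i)
    (c : L) (hc : c ∈ CC k L δ) :
    ∃ c' ∈ Ideal.span (Set.range fun i : ι => toC k L δ (yy i)),
      (c' : L) = ∑ w : Equiv.Perm ι, algebraMap k L (e w) * permL (k := k) w c := by
  classical
  by_contra hcon
  push Not at hcon
  have hne : G2eb k L δ e ≠ 0 := G2eb_ne k L δ e ⟨c, hc⟩ hcon
  have hreg := AA_regular k L δ
  have hnoe : IsNoetherianRing (AA k L δ) := inferInstance
  have hfin := CC_finite k L δ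
  have hfinI : Module.Finite (AA k L δ) (CC k L δ ⧸ G2IY k L δ) := G2_fin_quot _
  obtain ⟨q, hqass, hqann, hqK⟩ := G2_nakayama (AA k L δ) (CC k L δ ⧸ G2IY k L δ)
    (G2eb k L δ e) (G2eb_idem k L δ e he) hne
  have hqp : q.IsPrime := hqass.1
  have hIB := G2_IB_prime k ι
  have hpur := purity_CC k L δ (Ideal.span (Set.range (X : ι → BB k ι))) q
    (by rw [G2_map_IB]; exact hqass)
  have hqt : (Fintype.card ι : Cardinal) ≤ Algebra.trdeg k (AA k L δ ⧸ q) :=
    le_trans (self_le_add_right _ _) hpur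
  have hint : Algebra.IsIntegral (AA k L δ) (CC k L δ) := inferInstance
  obtain ⟨Q, hQI, hQp, hQq⟩ := Ideal.exists_ideal_over_prime_of_isIntegral q (G2IY k L δ)
    (G2_ann_le _ _ hqann)
  obtain ⟨K, instF, instA, ψ, hψ⟩ := G2_exists_K (k := k) Q
  let _ : Algebra (AA k L δ) K := (ψ.comp (G2iAC k L δ)).toRingHom.toAlgebra
  have hAK : ∀ a : AA k L δ, algebraMap (AA k L δ) K a = ψ (G2iAC k L δ a) := fun _ => rfl
  have hST : IsScalarTower k (AA k L δ) K := IsScalarTower.of_algebraMap_eq fun r => by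
    rw [hAK, AlgHom.commutes, AlgHom.commutes]
  have hker : ∀ a : AA k L δ, algebraMap (AA k L δ) K a = 0 ↔ a ∈ q := by
    intro a
    rw [hAK, hψ, G2_iAC_eq, ← hQq, Ideal.mem_comap]
  obtain ⟨s, β, htrace, hmin⟩ := G2_core k L δ ψ hAK q hker
    (fun i => (hψ _).mpr (hQI (Ideal.subset_span ⟨i, rfl⟩))) hqt e he
    (hqK K (by
      ext a
      rw [RingHom.mem_ker]
      exact hker a))
  have hsum : ∑ b, (Finset.univ.filter fun i => β i = b).card = Fintype.card ι := by
    rw [← Finset.card_univ, Finset.card_eq_sum_card_fiberwise (f := β) (t := Finset.univ)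
      (fun _ _ => Finset.mem_coe.mpr (Finset.mem_univ _))]
  have hT := htr s (fun b => (Finset.univ.filter fun i => β i = b).card) hsum htrace
  obtain ⟨m, hm⟩ := hdom
  have := G2_conj δ (fun b => (Finset.univ.filter fun i => β i = b).card) hsum hmin lam.rowLen hT m
  omega

end

end Pool.Agent.Lib.MP_463376_co
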