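import Pool.Agent.Lib.MP_463376_co.I9a
import Pool.Agent.Lib.MP_463376_co.I9b
import Pool.Agent.Lib.MP_463376_co.I9z

/-! Triangularity of the Frobenius characteristic. -/

namespace Pool.Agent.Lib.MP_463376_co

open MvPolynomial RingTheory.Sequence

section
variable {ι : Type} [Fintype ι] [DecidableEq ι]

theorem fixcount_conj {s : ℕ} (nu : Fin s → ℕ) (w w' : Equiv.Perm ι) :
    (Finset.univ.filter fun φ : ι → Fin s => φ ∘ (w * w' * w⁻¹ : Equiv.Perm ι) = φ ∧
        ∀ b, (Finset.univ.filter fun i => φ i = b).card = nu b).card =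
      (Finset.univ.filter fun φ : ι → Fin s => φ ∘ w' = φ ∧
        ∀ b, (Finset.univ.filter fun i => φ i = b).card = nu b).card := by
  refine Finset.card_bij' (fun φ _ => φ ∘ w) (fun φ _ => φ ∘ (w⁻¹ : Equiv.Perm ι)) ?_ ?_ ?_ ?_
  · intro φ hφ
    simp only [Finset.mem_filter, Finset.mem_univ, true_and] at hφ ⊢
    refine ⟨?_, fun b => ?_⟩
    · funext i
      have h1 := congrFun hφ.1 (w i)
      simpa [Equiv.Perm.mul_apply] using h1
    · rw [← hφ.2 b]
      exact Finset.card_bij' (fun i _ => w i) (fun i _ => w⁻¹ i) (by simp) (by simp) (by simp)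
        (by simp)
  · intro φ hφ
    simp only [Finset.mem_filter, Finset.mem_univ, true_and] at hφ ⊢
    refine ⟨?_, fun b => ?_⟩
    · funext i
      have h1 := congrFun hφ.1 (w⁻¹ i)
      simpa [Equiv.Perm.mul_apply] using h1
    · rw [← hφ.2 b]
      exact Finset.card_bij' (fun i _ => w⁻¹ i) (fun i _ => w i) (by simp) (by simp) (by simp)
        (by simp)
  · intro φ _
    funext i
    simp
  · intro φ _
    funext i
    simp

theorem card_shape (δ : Dia ι) : δ.shape.card = Fintype.card ι := by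
  unfold YoungDiagram.card Dia.shape
  rw [Finset.card_image_of_injective, Finset.card_univ]
  intro i j h
  exact δ.inj (Prod.ext (congrArg Prod.snd h) (congrArg Prod.fst h))

theorem rowLen_transpose_shape (δ : Dia ι) (j : ℕ) :
    δ.shape.transpose.rowLen j = (Finset.univ.filter fun i : ι => (δ.c i).1 = j).card := by
  rw [YoungDiagram.rowLen_transpose, YoungDiagram.colLen_eq_card]
  have h : δ.shape.col j = (Finset.univ.filter fun i : ι => (δ.c i).1 = j).image
      fun i => ((δ.c i).2, (δ.c i).1) := by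
    ext p
    rw [YoungDiagram.mem_col_iff, ← YoungDiagram.mem_cells]
    simp only [Dia.shape, Finset.mem_image, Finset.mem_filter, Finset.mem_univ, true_and]
    constructor
    · rintro ⟨⟨i, rfl⟩, h2⟩
      exact ⟨i, h2, rfl⟩
    · rintro ⟨i, h2, rfl⟩
      exact ⟨⟨i, rfl⟩, h2⟩
  rw [h, Finset.card_image_of_injective]
  intro i j h
  exact δ.inj (Prod.ext (congrArg Prod.snd h) (congrArg Prod.fst h))

variable {L : Type} [Field L] [Algebra ℚ L] [Algebra (RR ℚ ι) L]
  [IsScalarTower ℚ (RR ℚ ι) L] [IsFractionRing (RR ℚ ι) L] {δ : Dia ι}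

theorem tri_gen (B : HomBasis ℚ L δ) (K : Type) [Field K] [CharZero K]
    (φ : MvPolynomial (Fin 2) ℚ →+* K) :
    plethOne (φ (X 1)) (frob fun w => φ (B.toGRep.ch w)) ∈
      Submodule.span K {f | ∃ lam, Dom lam δ.shape.transpose ∧ f = schur K lam} := by
  rw [plethOne_frob]
  refine frob_mem_span _ (fun lam => Dom lam δ.shape.transpose) fun lam hl hD => ?_
  obtain ⟨e, he, hf⟩ := exists_idempotent_gen ι lam hl
  have hcard : δ.shape.transpose.card = Fintype.card ι := by
    rw [← card_shape δ]
    unfold YoungDiagram.card YoungDiagram.transpose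
    exact Finset.card_map _
  have hdom : ∃ m : ℕ, ∑ i ∈ Finset.range m, lam.rowLen i <
      ∑ j ∈ Finset.range m, (Finset.univ.filter fun i : ι => (δ.c i).1 = j).card := by
    by_contra hcon
    push Not at hcon
    refine hD ⟨by rw [hl, hcard], fun m => ?_⟩
    refine le_trans (le_of_eq ?_) (hcon m)
    exact Finset.sum_congr rfl fun j _ => rowLen_transpose_shape δ j
  have htr : ∀ (s : ℕ) (nu : Fin s → ℕ), ∑ b, nu b = Fintype.card ι →
      ∑ w : Equiv.Perm ι, e w * ((Finset.univ.filter fun φ : ι → Fin s => φ ∘ w = φ ∧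
        ∀ b, (Finset.univ.filter fun i => φ i = b).card = nu b).card : ℚ) ≠ 0 →
        ∀ T : Finset (Fin s), ∑ b ∈ T, nu b ≤ ∑ i ∈ Finset.range T.card, lam.rowLen i := by
    intro s nu hnu hne
    have h1 := hf ℚ (fun w => ((Finset.univ.filter fun φ : ι → Fin s => φ ∘ w = φ ∧
        ∀ b, (Finset.univ.filter fun i => φ i = b).card = nu b).card : ℚ))
      (fun w w' => by exact_mod_cast fixcount_conj nu w w')
    rw [frob_perm (K := ℚ) nu hnu] at h1
    have h2 : hall (∏ b, hS ℚ (nu b)) (schur ℚ lam) ≠ 0 := by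
      rw [← h1]
      exact hne
    exact (young_rule ℚ nu lam h2).2
  have hk := koszul_HomBasis B e he
    (fun c hc => claimZ ℚ L δ lam hl hdom e he htr c hc)
  have hk' := congrArg φ hk
  rw [map_zero, map_sum] at hk'
  rw [← hf K (fun w => φ (B.toGRep.ch w) *
    (1 - φ (X 1) • (w.toPEquiv.toMatrix : Matrix ι ι K)).det) (fun w w' => by
      rw [GRep.ch_conj, det_conj]), ← hk']
  refine Finset.sum_congr rfl fun w _ => ?_
  rw [map_mul, map_mul, mul_assoc]
  congr 1
  · have h3 : φ.comp (C : ℚ →+* MvPolynomial (Fin 2) ℚ) = algebraMap ℚ K := RingHom.ext_rat _ _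
    exact (RingHom.congr_fun h3 (e w)).symm
  · congr 1
    rw [RingHom.map_det]
    congr 1
    ext i j
    simp only [RingHom.mapMatrix_apply, Matrix.map_apply, Matrix.sub_apply, Matrix.smul_apply,
      smul_eq_mul, map_sub, map_mul]
    congr 1
    · by_cases hij : i = j
      · subst hij
        simp
      · simp [Matrix.one_apply_ne hij]
    · congr 1
      simp only [PEquiv.toMatrix_apply]
      split_ifs <;> simp

end

end Pool.Agent.Lib.MP_463376_co
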