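import Pool.Agent.Lib.MP_463376_co.I8
import Pool.Agent.Lib.MP_463376_co.GridDefs
import Pool.Agent.Lib.MP_463376_co.G3_HB
import Pool.Agent.Lib.MP_463376_co.G3_Span
import Pool.Agent.Lib.MP_463376_co.G3_Dual
import Pool.Agent.Lib.MP_463376_co.G3_Norm
import Pool.Agent.Lib.MP_463376_co.G3_Swap

/-! PART 9: homogeneous bases and grid data (stream G3)

The definitions `torR`, `IsHomL`, `HomBasis`, `HomBasis.toGRep`, `Dia.swap` are in `G3_Defs.lean`. -/

namespace Pool.Agent.Lib.MP_463376_co

open MvPolynomial RingTheory.Sequence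

section
variable (k : Type) [Field k] [CharZero k] {ι : Type} [Fintype ι] [DecidableEq ι]
  (L : Type) [Field L] [Algebra k L] [Algebra (RR k ι) L]
  [IsScalarTower k (RR k ι) L] [IsFractionRing (RR k ι) L] (δ : Dia ι)

/-- PART 9(iv): a homogeneous basis exists (nonnegative degrees!) -/
theorem exists_homBasis : Nonempty (HomBasis k L δ) := exists_homBasis' k L δ

/-- PART 9(iv): homogeneous bases give the grid data -/
theorem HomBasis.mainData (B : HomBasis k L δ) : ∃ M : MainData k δ, M.toGRep = B.toGRep := by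
  refine ⟨{ toGRep := B.toGRep
            g := B.G
            g_hom := B.G_hom
            g_mem := B.exists_mem
            span := B.exists_span
            dual := exists_dual δ B.G fun f => ?_
            card_V := card_basis B.bas
            equiv := B.exists_equiv }, rfl⟩
  obtain ⟨a, ha⟩ := B.exists_span 0 f (by simp [Jd])
  exact ⟨a, fun σ => by simpa using ha σ⟩

/-- PART 9(i) -/
theorem HomBasis.norm (B : HomBasis k L δ) :
    ∑ w : Equiv.Perm ι, B.toGRep.ch w = ((Fintype.card ι).factorial : MvPolynomial (Fin 2) k) :=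
  B.norm'

theorem HomBasis.swap (B : HomBasis k L δ) : ∃ B' : HomBasis k L δ.swap,
    ∃ e : B'.V ≃ B.V, (∀ v, B'.deg v = ((B.deg (e v)).2, (B.deg (e v)).1)) ∧
      ∀ w v' v, B'.ρ w v' v = B.ρ w (e v') (e v) :=
  B.exists_swap

end

end Pool.Agent.Lib.MP_463376_co
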