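import Pool.Agent.Lib.MP_463376_co.I9
import Pool.Agent.Lib.MP_463376_co.I10
import Pool.Agent.Lib.MP_463376_co.FinA
import Pool.Agent.Lib.MP_463376_co.FinB

/-! final assembly -/

namespace Pool.Agent.Lib.MP_463376_co

open MvPolynomial Hs

/-- the diagram of a partition -/
def cellDia (mu : YoungDiagram) : Dia mu.cells where
  c := fun p => (p.1.2, p.1.1)
  inj := fun _ _ h => Subtype.ext (Prod.ext (congrArg Prod.snd h) (congrArg Prod.fst h))
  low := fun a p hp => by
    have h : (p.2, p.1) ∈ (mu.cells : Set (ℕ × ℕ)) :=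
      mu.isLowerSet (a := a.1) (b := (p.2, p.1)) ⟨hp.2, hp.1⟩ a.2
    exact ⟨⟨(p.2, p.1), h⟩, rfl⟩

theorem cellDia_shape (mu : YoungDiagram) : (cellDia mu).shape = mu := by
  apply YoungDiagram.ext
  ext p
  simp only [Dia.shape, cellDia, Finset.mem_image, Finset.mem_univ, true_and]
  constructor
  · rintro ⟨i, rfl⟩
    exact i.2
  · intro hp
    exact ⟨⟨p, hp⟩, rfl⟩

/-- the modified Macdonald polynomials -/
noncomputable def HMac (mu : YoungDiagram) : Sym Kqt :=
  frob fun w => toK ((main_export (cellDia mu)).choose.toGRep.ch w)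

theorem HMac_isModMac (mu : YoungDiagram) : IsModMac mu (HMac mu) := by
  have key : ∀ nu, nu = (cellDia mu).shape → IsModMac nu (HMac mu) := by
    rintro _ rfl
    exact (main_export (cellDia mu)).choose_spec
  exact key mu (cellDia_shape mu).symm

theorem HMac_main (ι : Type) [Fintype ι] [DecidableEq ι] (δ : Dia ι) :
    ∃ M : MainData ℚ δ, frob (fun w => toK (M.toGRep.ch w)) = HMac δ.shape := by
  obtain ⟨M, hM⟩ := main_export δ
  exact ⟨M, isModMac_unique _ _ _ hM (HMac_isModMac _)⟩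

theorem qq_ne_one : qq - 1 ≠ 0 := by
  rw [sub_ne_zero]
  intro h
  have h1 : (X 0 : MvPolynomial (Fin 2) ℚ) = 1 := by
    apply IsFractionRing.injective (MvPolynomial (Fin 2) ℚ) Kqt
    rw [map_one]
    exact h
  have h2 := congrArg constantCoeff h1
  simp at h2

section
variable {m : ℕ} (lam : Fin (m + 1) → YoungDiagram)
  (S : GSys ℚ m (Equiv.Perm (Fin (∑ b, (lam b).card))))
  (hS : ∀ σ : Setoid (Fin (m + 1)), frob (fun w => toK (S.ch σ w)) =
        ∏ B ∈ classesOf σ, HMac (oplus B lam))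

include hS

theorem kappa_eq : kappa HMac lam = C ((qq - 1) ^ m)⁻¹ *
    ∑ σ : Setoid (Fin (m + 1)), C ((moeb σ : ℤ) : Kqt) * frob (fun w => toK (S.ch σ w)) := by
  unfold kappa
  rw [Nat.add_sub_cancel]
  congr 1
  rw [sum_finpartition (fun P => (-1) ^ (P.card - 1) * ((P.card - 1).factorial : Sym Kqt) *
        ∏ B ∈ P, HMac (oplus B lam))]
  refine Finset.sum_congr rfl fun σ _ => ?_
  rw [hS, card_classesOf]
  congr 1
  unfold moeb
  push_cast
  simp

theorem kappa_homDeg : HomDeg (kappa HMac lam) (∑ b, (lam b).card) := by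
  rw [kappa_eq lam S hS, homDeg_iff]
  have h1 : WH (∑ σ : Setoid (Fin (m + 1)), C ((moeb σ : ℤ) : Kqt) *
      frob (fun w => toK (S.ch σ w))) (∑ b, (lam b).card) := by
    refine IsWeightedHomogeneous.sum _ _ _ fun σ _ => ?_
    have h2 := frob_wh (K := Kqt) (fun w => toK (S.ch σ w))
    rw [Fintype.card_fin] at h2
    have h3 := (isWeightedHomogeneous_C (fun i : ℕ => i + 1) ((moeb σ : ℤ) : Kqt)).mul h2
    rwa [zero_add] at h3
  have h4 := (isWeightedHomogeneous_C (fun i : ℕ => i + 1) (((qq - 1) ^ m)⁻¹)).mul h1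
  rwa [zero_add] at h4

theorem coef_positive (mu : YoungDiagram) (hmu : mu.card = ∑ b, (lam b).card) :
    ∃ p : MvPolynomial (Fin 2) ℕ, hall (kappa HMac lam) (schur Kqt mu) =
      toK (MvPolynomial.map (Nat.castRingHom ℚ) p) := by
  obtain ⟨e, he, hf⟩ := exists_idempotent (∑ b, (lam b).card) mu hmu
  obtain ⟨p, hp⟩ := S.positivity e he
  refine ⟨p, ?_⟩
  have hC : ∀ a : ℚ, algebraMap ℚ Kqt a = toK (C a) := fun a =>
    RingHom.congr_fun (RingHom.ext_rat (algebraMap ℚ Kqt) (toK.comp C)) a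
  have h1 : ∀ σ : Setoid (Fin (m + 1)), hall (frob (fun w => toK (S.ch σ w))) (schur Kqt mu) =
      toK (∑ g, C (e g) * S.ch σ g) := by
    intro σ
    rw [← hf Kqt (fun w => toK (S.ch σ w)) (fun w w' => by rw [S.ch_conj]), map_sum]
    refine Finset.sum_congr rfl fun g _ => ?_
    rw [map_mul, hC]
  rw [kappa_eq lam S hS, hall_C_mul_left, hall_sum_left]
  have h2 : ∑ σ : Setoid (Fin (m + 1)), hall (C ((moeb σ : ℤ) : Kqt) *
      frob (fun w => toK (S.ch σ w))) (schur Kqt mu) =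
      toK (∑ σ, C (moeb σ : ℚ) * ∑ g, C (e g) * S.ch σ g) := by
    rw [map_sum]
    refine Finset.sum_congr rfl fun σ _ => ?_
    rw [hall_C_mul_left, h1, map_mul]
    congr 1
    simp
  rw [h2]
  have h3 : (∑ σ, C (moeb σ : ℚ) * ∑ g, C (e g) * S.ch σ g : MvPolynomial (Fin 2) ℚ) =
      (X 0 - 1) ^ m * MvPolynomial.map (Nat.castRingHom ℚ) p := by
    have h4 : ((-1 : MvPolynomial (Fin 2) ℚ)) ^ m * (-1) ^ m = 1 := by
      rw [← mul_pow]
      simp
    calc (∑ σ, C (moeb σ : ℚ) * ∑ g, C (e g) * S.ch σ g : MvPolynomial (Fin 2) ℚ)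
        = ((-1) ^ m * (-1) ^ m) * ∑ σ, C (moeb σ : ℚ) * ∑ g, C (e g) * S.ch σ g := by
          rw [h4, one_mul]
      _ = (-1) ^ m * ((1 - X 0) ^ m * MvPolynomial.map (Nat.castRingHom ℚ) p) := by
          rw [mul_assoc, hp]
      _ = (X 0 - 1) ^ m * MvPolynomial.map (Nat.castRingHom ℚ) p := by
          rw [← mul_assoc, ← mul_pow]
          congr 2
          ring
  rw [h3, map_mul, map_pow, map_sub, map_one]
  have h5 : toK (X 0) = qq := rfl
  rw [h5, ← mul_assoc, inv_mul_cancel₀ (pow_ne_zero m qq_ne_one), one_mul]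

end

/-- FINAL ASSEMBLY -/
theorem statement_proof : Statement := by
  refine ⟨schur_linearIndependent Kqt, HMac, HMac_isModMac,
    fun mu H' h => isModMac_unique mu H' (HMac mu) h (HMac_isModMac mu), fun r lam hr => ?_⟩
  obtain ⟨m, rfl⟩ : ∃ m, r = m + 1 := ⟨r - 1, by omega⟩
  obtain ⟨S, hS⟩ := families lam HMac HMac_main
  obtain ⟨s, hs, hsum⟩ := schur_expand Kqt (kappa HMac lam) _ (kappa_homDeg lam S hS)
  choose p hp using fun (mu : YoungDiagram) (hmu : mu.card = ∑ b, (lam b).card) =>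
    coef_positive lam S hS mu hmu
  refine ⟨Finsupp.indicator s fun mu hmu => p mu (hs mu hmu), ?_⟩
  have h1 : ∑ mu ∈ (Finsupp.indicator s fun mu hmu => p mu (hs mu hmu)).support,
      C (toK (MvPolynomial.map (Nat.castRingHom ℚ)
        ((Finsupp.indicator s fun mu hmu => p mu (hs mu hmu)) mu))) * schur Kqt mu =
      ∑ mu ∈ s, C (toK (MvPolynomial.map (Nat.castRingHom ℚ)
        ((Finsupp.indicator s fun mu hmu => p mu (hs mu hmu)) mu))) * schur Kqt mu := by
    refine Finset.sum_subset (Finsupp.support_indicator_subset _ _) fun mu _ h => ?_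
    rw [Finsupp.notMem_support_iff.1 h, map_zero, map_zero, map_zero, zero_mul]
  rw [h1]
  refine hsum.trans (Finset.sum_congr rfl fun mu hmu => ?_)
  rw [Finsupp.indicator_of_mem hmu, hp mu (hs mu hmu)]

end Pool.Agent.Lib.MP_463376_co
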