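import Pool.Agent.Lib.MP_463376_co.GridDefs
import Pool.Agent.Lib.MP_463376_co.I11
import Pool.Agent.Lib.MP_463376_co.ISym

/-!
# Stream I (families): definitions

`ST k m = k[z_c, w_i]`, `c = (b, j)` (column `j` of the `b`-th diagram), `i` a row.
Everything at the level of one partition of the set `Γ` of cells is done for an arbitrary map
`κ : Γ → Q` to a finite type (the fibres of `κ` are the blocks).
-/

namespace Pool.Agent.Lib.MP_463376_co

open MvPolynomial

/-- polynomials in the column coordinates `z_c = X (inl c)` and row coordinates `w_i = X (inr i)` -/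
abbrev ST (k : Type) [Field k] (m : ℕ) : Type := MvPolynomial ((Fin (m + 1) × ℕ) ⊕ ℕ) k

/-- bidegrees of the variables -/
def wt {α β : Type} : α ⊕ β → ℤ × ℤ := Sum.elim (fun _ => (1, 0)) (fun _ => (0, 1))

/-- bihomogeneous of bidegree `(a,b)` -/
def BH {k : Type} [Field k] {α β : Type} (f : MvPolynomial (α ⊕ β) k) (a b : ℤ) : Prop :=
  IsWeightedHomogeneous wt f (a, b)

/-- elements of `SB k m = k[z_1..z_m]` that are bihomogeneous of bidegree `(a,b)`, where `z_i` has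
bidegree `(1,0)` (so only `0` if `b ≠ 0` or `a < 0`) -/
def BS {k : Type} [Field k] {m : ℕ} (f : SB k m) (a b : ℤ) : Prop :=
  IsWeightedHomogeneous (fun _ : Fin m => ((1 : ℤ), (0 : ℤ))) f (a, b)

/-- the specialisation `z_{(b,j)} ↦ z_b` (with `z_0 = 0`), `w ↦ 0` -/
noncomputable def sp (k : Type) [Field k] (m : ℕ) : ST k m →ₐ[k] SB k m :=
  aeval (Sum.elim (fun c => zeta k m c.1) (fun _ => 0))

section
variable {k : Type} [Field k] {m : ℕ} {Δ : Type}

/-- evaluation at the points `(z_{c i}, w_{r i})` -/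
noncomputable def evT (c : Δ → Fin (m + 1) × ℕ) (r : Δ → ℕ) : RR k Δ →ₐ[k] ST k m :=
  aeval (Sum.elim (fun i => X (Sum.inl (c i))) (fun i => X (Sum.inr (r i))))

variable [Fintype Δ] [DecidableEq Δ]

/-- the discriminant: product of all (ordered) differences along rows and along columns -/
noncomputable def discT (k : Type) [Field k] {m : ℕ} {Δ : Type} [Fintype Δ] [DecidableEq Δ]
    (c : Δ → Fin (m + 1) × ℕ) (r : Δ → ℕ) : ST k m :=
  (∏ i : Δ, ∏ j : Δ, if i ≠ j ∧ r i = r j then X (Sum.inl (c i)) - X (Sum.inl (c j)) else 1) *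
  (∏ i : Δ, ∏ j : Δ, if i ≠ j ∧ c i = c j then X (Sum.inr (r i)) - X (Sum.inr (r j)) else 1)

end

/-- The structure theorem for one grid, over `ST k m`: the points are indexed by `Δ`, the point with
index `i` has column `c i` and row `r i`. -/
structure BD (k : Type) [Field k] (m : ℕ) {Δ : Type} [Fintype Δ] [DecidableEq Δ]
    (c : Δ → Fin (m + 1) × ℕ) (r : Δ → ℕ) extends GRep k Δ where
  g : V → Equiv.Perm Δ → ST k m
  g_hom : ∀ v τ, BH (g v τ) (deg v).1 (deg v).2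
  g_mem : ∀ v, ∃ e : ℕ, ∃ f ∈ Jd k Δ (2 * e), ∀ τ : Equiv.Perm Δ,
    evT (c ∘ τ) (r ∘ τ) f = discT k c r ^ e * g v τ
  span : ∀ e : ℕ, ∀ f ∈ Jd k Δ (2 * e), ∃ a : V → ST k m, ∀ τ : Equiv.Perm Δ,
    evT (c ∘ τ) (r ∘ τ) f = discT k c r ^ e * ∑ v, a v * g v τ
  dual : ∃ N : ℕ, ∃ b : Equiv.Perm Δ → V → ST k m,
    (∀ τ τ' : Equiv.Perm Δ, ∑ v, b τ v * g v τ' = if τ = τ' then discT k c r ^ N else 0) ∧
    (∀ v v' : V, ∑ τ, g v τ * b τ v' = if v = v' then discT k c r ^ N else 0)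
  raise : ∃ f ∈ Jd k Δ 2, ∀ τ : Equiv.Perm Δ, evT (c ∘ τ) (r ∘ τ) f = discT k c r
  equiv : ∀ w : Equiv.Perm Δ, ∃ a : V → V → ST k m,
    (∀ v τ, g v (τ * w) = ∑ v', a v' v * g v' τ) ∧
    (∀ v' v, constantCoeff (a v' v) = ρ w v' v) ∧
    (∀ v' v, BH (a v' v) ((deg v).1 - (deg v').1) ((deg v).2 - (deg v').2))

section families
variable {k : Type} [Field k] {m : ℕ} {Γ : Type} [Fintype Γ] [DecidableEq Γ]
  {Q : Type} [Fintype Q] [DecidableEq Q]

/-- patterns: maps `Γ → Q` with the same fibre sizes as `κ` -/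
def Pat (κ : Γ → Q) : Type := {I : Γ → Q // ∃ τ : Equiv.Perm Γ, ∀ i, κ (τ i) = I i}

noncomputable instance instFintypePat (κ : Γ → Q) : Fintype (Pat κ) := by
  classical exact inferInstanceAs (Fintype {I : Γ → Q // ∃ τ : Equiv.Perm Γ, ∀ i, κ (τ i) = I i})

noncomputable instance instDecidableEqPat (κ : Γ → Q) : DecidableEq (Pat κ) :=
  Classical.decEq _

/-- a chosen ordering with the given pattern -/
noncomputable def eI {κ : Γ → Q} (I : Pat κ) : Equiv.Perm Γ := Classical.choose I.2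

omit [Fintype Γ] [DecidableEq Γ] [Fintype Q] [DecidableEq Q] in
theorem eI_spec {κ : Γ → Q} (I : Pat κ) (i : Γ) : κ (eI I i) = I.1 i := Classical.choose_spec I.2 i

/-- restriction of a permutation that preserves `κ` to a fibre of `κ` (junk otherwise) -/
noncomputable def res (κ : Γ → Q) (u : Equiv.Perm Γ) (B : Q) : Equiv.Perm {γ : Γ // κ γ = B} :=
  if h : ∀ x, κ (u x) = B ↔ κ x = B then u.subtypePerm h else 1

/-- the permutation of `Γ` glued from permutations of the fibres of `κ` -/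
def glue (κ : Γ → Q) (u : ∀ B : Q, Equiv.Perm {γ : Γ // κ γ = B}) : Equiv.Perm Γ :=
  (Equiv.sigmaFiberEquiv κ).permCongr (Equiv.Perm.sigmaCongrRight u)

variable (col : Γ → Fin (m + 1) × ℕ) (row : Γ → ℕ)

/-- the data for all blocks of `κ` -/
abbrev BDs (k : Type) [Field k] {m : ℕ} {Γ : Type} [Fintype Γ] [DecidableEq Γ]
    {Q : Type} [DecidableEq Q] (col : Γ → Fin (m + 1) × ℕ) (row : Γ → ℕ) (κ : Γ → Q) : Type 1 :=
  ∀ B : Q, BD k m (fun γ : {γ : Γ // κ γ = B} => col γ.1) (fun γ => row γ.1)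

/-- total discriminant of the blocks -/
noncomputable def DT (k : Type) [Field k] {m : ℕ} {Γ : Type} [Fintype Γ] [DecidableEq Γ]
    {Q : Type} [Fintype Q] [DecidableEq Q] (col : Γ → Fin (m + 1) × ℕ) (row : Γ → ℕ)
    (κ : Γ → Q) : ST k m :=
  ∏ B : Q, discT k (fun γ : {γ : Γ // κ γ = B} => col γ.1) (fun γ => row γ.1)

/-- product of the differences `z_c - z_{c'}` over the pairs of cells in the same block of `κ'` but
different blocks of `κ` -/
noncomputable def crossT (k : Type) [Field k] {m : ℕ} {Γ : Type} [Fintype Γ]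
    {Q Q' : Type} [DecidableEq Q] [DecidableEq Q'] (col : Γ → Fin (m + 1) × ℕ)
    (κ : Γ → Q) (κ' : Γ → Q') : ST k m :=
  ∏ γ : Γ, ∏ γ' : Γ, if κ' γ = κ' γ' ∧ κ γ ≠ κ γ' then
    X (Sum.inl (col γ)) - X (Sum.inl (col γ')) else 1

variable {col row} {κ : Γ → Q}

/-- index set of the basis of the family: a pattern and basis elements for all blocks -/
abbrev Idx (D : BDs k col row κ) : Type := Σ _ : Pat κ, ∀ B : Q, (D B).V

/-- the basis functions of the family -/
noncomputable def GF (D : BDs k col row κ) (v : Idx D) (τ : Equiv.Perm Γ) : ST k m :=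
  if ∀ i, κ (τ i) = v.1.1 i then
    ∏ B, (D B).g (v.2 B) (res κ (τ * (eI v.1)⁻¹) B) else 0

/-- their degrees -/
noncomputable def degF (D : BDs k col row κ) (v : Idx D) : ℕ × ℕ := ∑ B, (D B).deg (v.2 B)

/-- the matrix of a permutation -/
noncomputable def rhoF (D : BDs k col row κ) (w : Equiv.Perm Γ) : Matrix (Idx D) (Idx D) k :=
  fun v' v => if ∀ i, v'.1.1 (w i) = v.1.1 i then
    ∏ B, (D B).ρ (res κ (eI v'.1 * w * (eI v.1)⁻¹) B) (v'.2 B) (v.2 B) else 0

/-- the bigraded character of the family -/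
noncomputable def chF (D : BDs k col row κ) (w : Equiv.Perm Γ) : MvPolynomial (Fin 2) k :=
  ∑ v : Idx D, C (rhoF D w v v) * (X 0 ^ (degF D v).1 * X 1 ^ (degF D v).2)

end families

/-- Families over `ST k m` indexed by the set partitions of `{0,...,m}`: input of the final
specialisation step. -/
structure Fam (k : Type) [Field k] (m : ℕ) (Γ : Type) [Fintype Γ] [DecidableEq Γ] where
  B : Setoid (Fin (m + 1)) → Type
  [fB : ∀ σ, Fintype (B σ)]
  [dB : ∀ σ, DecidableEq (B σ)]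
  deg : ∀ σ, B σ → ℕ × ℕ
  G : ∀ σ, B σ → Equiv.Perm Γ → ST k m
  G_hom : ∀ σ v τ, BH (G σ v τ) (deg σ v).1 (deg σ v).2
  indep : ∀ σ (x : B σ → ST k m), (∀ τ, ∑ v, x v * G σ v τ = 0) → x = 0
  incl : ∀ π σ, π ≤ σ → ∀ v : B σ, ∃ a : B π → ST k m, ∀ τ, G σ v τ = ∑ v', a v' * G π v' τ
  loc : ∀ π σ, π ≤ σ → ∃ h : ST k m, (∃ N, sp k m h ∣ crossH k σ π ^ N) ∧
    ∀ v : B π, ∃ a : B σ → ST k m, ∀ τ, h * G π v τ = ∑ v', a v' * G σ v' τ
  ρ : ∀ σ, Equiv.Perm Γ → Matrix (B σ) (B σ) k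
  equiv : ∀ σ (w : Equiv.Perm Γ), ∃ a : B σ → B σ → ST k m,
    (∀ v τ, G σ v (τ * w) = ∑ v', a v' v * G σ v' τ) ∧
    (∀ v' v, constantCoeff (a v' v) = ρ σ w v' v) ∧
    (∀ v' v, BH (a v' v) ((deg σ v).1 - (deg σ v').1) ((deg σ v).2 - (deg σ v').2))

attribute [instance] Fam.fB Fam.dB

end Pool.Agent.Lib.MP_463376_co
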