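import Pool.Agent.Lib.MP_463376_co.I_Defs

/-! Stream I, job GR: the grading of a free `k[z]`-module with generators of given bidegrees -/

namespace Pool.Agent.Lib.MP_463376_co

open MvPolynomial

section
variable {k : Type} [Field k] {m : ℕ} {B : Type}

/-- The part of bidegree `d` of the free module `B → k[z]` whose basis vector `v` has bidegree
`deg v`. -/
def grS (k : Type) [Field k] (m : ℕ) {B : Type} (deg : B → ℕ × ℕ) (d : ℕ × ℕ) :
    Submodule k (B → SB k m) where
  carrier := {f | ∀ v, BS (f v) ((d.1 : ℤ) - (deg v).1) ((d.2 : ℤ) - (deg v).2)}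
  add_mem' := fun hf hg v => (hf v).add (hg v)
  zero_mem' := fun v => isWeightedHomogeneous_zero _ _ _
  smul_mem' := fun c f hf v =>
    (weightedHomogeneousSubmodule k (fun _ : Fin m => ((1 : ℤ), (0 : ℤ))) _).smul_mem c (hf v)

private theorem i_gr_weight (e : Fin m →₀ ℕ) :
    Finsupp.weight (fun _ : Fin m => ((1 : ℤ), (0 : ℤ))) e = ((e.degree : ℤ), (0 : ℤ)) := by
  rw [Finsupp.weight_apply, Finsupp.sum_fintype _ _ (by simp), Finsupp.degree_eq_sum]
  refine Prod.ext ?_ ?_
  · rw [Prod.fst_sum]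
    push_cast
    exact Finset.sum_congr rfl fun i _ => by simp
  · rw [Prod.snd_sum]
    exact Finset.sum_eq_zero fun i _ => by simp

private theorem i_gr_zero {g : SB k m} {a b : ℤ} (h : BS g a b) (hab : b ≠ 0 ∨ a < 0) :
    g = 0 := by
  ext e
  rw [coeff_zero]
  by_contra hne
  have h1 := h hne
  rw [i_gr_weight] at h1
  have h2 := congrArg Prod.fst h1
  have h3 := congrArg Prod.snd h1
  simp only at h2 h3
  omega

private theorem i_gr_one (e : Fin m →₀ ℕ) : Finsupp.weight (1 : Fin m → ℕ) e = e.degree := by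
  rw [Finsupp.degree_eq_weight_one]
  rfl

private theorem i_gr_nat {g : SB k m} {n : ℕ} : BS g (n : ℤ) 0 ↔ g.IsHomogeneous n := by
  constructor
  · intro h e he
    have h1 := h he
    rw [i_gr_weight] at h1
    have h2 := congrArg Prod.fst h1
    simp only at h2
    rw [i_gr_one]
    exact_mod_cast h2
  · intro h e he
    have h1 := h he
    rw [i_gr_one] at h1
    rw [i_gr_weight, h1]

private theorem i_gr_cases {g : SB k m} {d e : ℕ × ℕ}
    (h : BS g ((d.1 : ℤ) - e.1) ((d.2 : ℤ) - e.2)) :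
    (e.2 = d.2 ∧ e.1 ≤ d.1 ∧ g.IsHomogeneous (d.1 - e.1)) ∨ g = 0 := by
  by_cases h0 : e.2 = d.2 ∧ e.1 ≤ d.1
  · refine Or.inl ⟨h0.1, h0.2, i_gr_nat.1 ?_⟩
    have e1 : ((d.1 - e.1 : ℕ) : ℤ) = (d.1 : ℤ) - e.1 := by
      rw [Nat.cast_sub h0.2]
    have e2 : (d.2 : ℤ) - e.2 = 0 := by
      rw [h0.1]
      exact sub_self _
    rw [e1, ← e2]
    exact h
  · refine Or.inr (i_gr_zero h ?_)
    by_contra hn
    push Not at hn
    exact h0 ⟨by omega, by omega⟩

private theorem i_gr_of {g : SB k m} {d e : ℕ × ℕ} (h2 : e.2 = d.2) (h1 : e.1 ≤ d.1)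
    (h : g.IsHomogeneous (d.1 - e.1)) : BS g ((d.1 : ℤ) - e.1) ((d.2 : ℤ) - e.2) := by
  have e1 : ((d.1 - e.1 : ℕ) : ℤ) = (d.1 : ℤ) - e.1 := by
    rw [Nat.cast_sub h1]
  have e2 : (d.2 : ℤ) - e.2 = 0 := by
    rw [h2]
    exact sub_self _
  rw [← e1, e2]
  exact i_gr_nat.2 h

open Classical in
/-- projection to the part of bidegree `d` -/
private noncomputable def i_gr_P (k : Type) [Field k] (m : ℕ) {B : Type} (deg : B → ℕ × ℕ)
    (d : ℕ × ℕ) : (B → SB k m) →ₗ[k] (B → SB k m) :=
  LinearMap.pi fun v => if (deg v).2 = d.2 ∧ (deg v).1 ≤ d.1 then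
    (homogeneousComponent (d.1 - (deg v).1)).comp (LinearMap.proj v) else 0

private theorem i_gr_P_self {deg : B → ℕ × ℕ} {d : ℕ × ℕ} {f : B → SB k m}
    (hf : f ∈ grS k m deg d) : i_gr_P k m deg d f = f := by
  funext v
  unfold i_gr_P
  rw [LinearMap.pi_apply]
  rcases i_gr_cases (hf v) with ⟨h1, h2, h3⟩ | h0
  · rw [if_pos ⟨h1, h2⟩]
    exact homogeneousComponent_eq_self h3
  · split_ifs
    · rw [LinearMap.comp_apply, LinearMap.proj_apply, h0, map_zero]
    · rw [h0]
      rfl

private theorem i_gr_P_other {deg : B → ℕ × ℕ} {d d' : ℕ × ℕ} (hd : d' ≠ d) {f : B → SB k m}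
    (hf : f ∈ grS k m deg d') : i_gr_P k m deg d f = 0 := by
  funext v
  unfold i_gr_P
  rw [LinearMap.pi_apply, Pi.zero_apply]
  split_ifs with h
  · rw [LinearMap.comp_apply, LinearMap.proj_apply]
    rcases i_gr_cases (hf v) with ⟨h1, h2, h3⟩ | h0
    · have e1 := homogeneousComponent_of_mem (m := d.1 - (deg v).1) h3
      rw [e1, if_neg]
      intro hn
      refine hd (Prod.ext ?_ ?_)
      · omega
      · rw [← h.1, ← h1]
    · rw [h0, map_zero]
  · rfl

/-- every `f : B → k[z]` is the sum of its components: `f v` has homogeneous components of degree `n`,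
which lie in bidegree `deg v + (n, 0)`; independence: coefficientwise. -/
theorem grS_internal [Fintype B] (deg : B → ℕ × ℕ) : DirectSum.IsInternal (grS k m deg) := by
  classical
  rw [DirectSum.isInternal_submodule_iff_iSupIndep_and_iSup_eq_top]
  constructor
  · rw [iSupIndep_def]
    intro d
    rw [Submodule.disjoint_def]
    intro x hx hx'
    have hle : (⨆ (j : ℕ × ℕ) (_ : j ≠ d), grS k m deg j) ≤ LinearMap.ker (i_gr_P k m deg d) := by
      refine iSup_le fun j => iSup_le fun hj => ?_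
      intro y hy
      rw [LinearMap.mem_ker]
      exact i_gr_P_other hj hy
    have h1 := hle hx'
    rw [LinearMap.mem_ker, i_gr_P_self hx] at h1
    exact h1
  · rw [eq_top_iff]
    intro f _
    have e : f = ∑ v, ∑ n ∈ Finset.range ((f v).totalDegree + 1),
        Pi.single v (homogeneousComponent n (f v)) := by
      funext w
      rw [Finset.sum_apply]
      rw [Finset.sum_eq_single w]
      · rw [Finset.sum_apply]
        simp only [Pi.single_eq_same]
        exact (sum_homogeneousComponent (f w)).symm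
      · intro v _ hv
        rw [Finset.sum_apply]
        exact Finset.sum_eq_zero fun n _ => Pi.single_eq_of_ne (Ne.symm hv) _
      · intro h
        exact absurd (Finset.mem_univ w) h
    rw [e]
    refine Submodule.sum_mem _ fun v _ => Submodule.sum_mem _ fun n _ => ?_
    refine Submodule.mem_iSup_of_mem ((deg v).1 + n, (deg v).2) ?_
    intro w
    by_cases hw : w = v
    · subst hw
      rw [Pi.single_eq_same]
      refine i_gr_of rfl (Nat.le_add_right _ _) ?_
      have : ((deg w).1 + n, (deg w).2).1 - (deg w).1 = n := Nat.add_sub_cancel_left _ _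
      rw [this]
      exact homogeneousComponent_isHomogeneous n (f w)
    · rw [Pi.single_eq_of_ne hw]
      exact isWeightedHomogeneous_zero _ _ _

/-- only finitely many monomials `e : Fin m →₀ ℕ` have a given degree -/
theorem grS_fd [Fintype B] (deg : B → ℕ × ℕ) (d : ℕ × ℕ) :
    FiniteDimensional k (grS k m deg d) := by
  have hle : grS k m deg d ≤ Submodule.pi Set.univ
      (fun v => homogeneousSubmodule (Fin m) k (d.1 - (deg v).1)) := by
    intro f hf v _
    rcases i_gr_cases (hf v) with ⟨h1, h2, h3⟩ | h0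
    · exact h3
    · change f v ∈ homogeneousSubmodule (Fin m) k (d.1 - (deg v).1)
      rw [h0]
      exact Submodule.zero_mem _
  have hfg : (Submodule.pi Set.univ
      (fun v : B => homogeneousSubmodule (Fin m) k (d.1 - (deg v).1))).FG :=
    Submodule.fg_pi fun v => homogeneousSubmodule_fg (Fin m) k _
  have : FiniteDimensional k (Submodule.pi Set.univ
      (fun v : B => homogeneousSubmodule (Fin m) k (d.1 - (deg v).1))) :=
    Module.Finite.iff_fg.2 hfg
  exact Submodule.finiteDimensional_of_le hle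

theorem grS_X_mem (deg : B → ℕ × ℕ) (i : Fin m) (d : ℕ × ℕ) (v : B → SB k m)
    (hv : v ∈ grS k m deg d) : (X i : SB k m) • v ∈ grS k m deg (d.1 + 1, d.2) := by
  intro w
  have h1 := (isWeightedHomogeneous_X k (fun _ : Fin m => ((1 : ℤ), (0 : ℤ))) i).mul (hv w)
  rw [Pi.smul_apply, smul_eq_mul]
  have e : ((1 : ℤ), (0 : ℤ)) + ((d.1 : ℤ) - (deg w).1, (d.2 : ℤ) - (deg w).2) =
      ((((d.1 + 1, d.2) : ℕ × ℕ).1 : ℤ) - (deg w).1, (((d.1 + 1, d.2) : ℕ × ℕ).2 : ℤ) -
        (deg w).2) := by
    refine Prod.ext ?_ ?_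
    · simp only [Prod.fst_add]
      push_cast
      ring
    · simp only [Prod.snd_add, zero_add]
  unfold BS
  rw [← e]
  exact h1

/-- matrices with entries of the right degrees respect the grading -/
theorem grS_mulVec {B' : Type} [Fintype B'] (deg : B → ℕ × ℕ) (deg' : B' → ℕ × ℕ)
    (a : Matrix B B' (SB k m))
    (ha : ∀ v v', BS (a v v') (((deg' v').1 : ℤ) - (deg v).1) (((deg' v').2 : ℤ) - (deg v).2))
    (d : ℕ × ℕ) (x : B' → SB k m) (hx : x ∈ grS k m deg' d) : a.mulVec x ∈ grS k m deg d := by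
  intro v
  unfold Matrix.mulVec dotProduct
  refine (weightedHomogeneousSubmodule k (fun _ : Fin m => ((1 : ℤ), (0 : ℤ))) _).sum_mem
    fun v' _ => ?_
  have h1 := (ha v v').mul (hx v')
  have e : (((deg' v').1 : ℤ) - (deg v).1, ((deg' v').2 : ℤ) - (deg v).2) +
      ((d.1 : ℤ) - (deg' v').1, (d.2 : ℤ) - (deg' v').2) =
      ((d.1 : ℤ) - (deg v).1, (d.2 : ℤ) - (deg v).2) := by
    refine Prod.ext ?_ ?_
    · simp only [Prod.fst_add]
      ring
    · simp only [Prod.snd_add]
      ring
  rw [e] at h1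
  exact h1

end

end Pool.Agent.Lib.MP_463376_co
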