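import Pool.Agent.Lib.MP_463376_co.I_Hom
import Pool.Agent.Lib.MP_463376_co.I_Gr
import Pool.Agent.Lib.MP_463376_co.I_Cross

/-! Stream I: from families over `ST k m` to the graded system over `k[z_1..z_m]` -/

namespace Pool.Agent.Lib.MP_463376_co

open MvPolynomial

section
variable {k : Type} [Field k] {m : ℕ} {Γ : Type} [Fintype Γ] [DecidableEq Γ]

theorem Fam.ext_coeff (F : Fam k m Γ) (σ : Setoid (Fin (m + 1))) (x y : F.B σ → ST k m)
    (h : ∀ τ, ∑ v, x v * F.G σ v τ = ∑ v, y v * F.G σ v τ) : x = y := by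
  have h1 : (x - y) = 0 := by
    apply F.indep σ
    intro τ
    simp only [Pi.sub_apply, sub_mul, Finset.sum_sub_distrib, h τ, sub_self]
  exact sub_eq_zero.mp h1

theorem Fam.exists_coeff (F : Fam k m Γ) (σ : Setoid (Fin (m + 1))) :
    ∃ A : F.B ⊥ → F.B σ → ST k m,
      (∀ v τ, F.G σ v τ = ∑ v', A v' v * F.G ⊥ v' τ) ∧
      ∀ v' v, BH (A v' v) (((F.deg σ v).1 : ℤ) - (F.deg ⊥ v').1)
        (((F.deg σ v).2 : ℤ) - (F.deg ⊥ v').2) := by
  have h : ∀ v : F.B σ, ∃ c' : F.B ⊥ → ST k m, (∀ τ, F.G σ v τ = ∑ v', c' v' * F.G ⊥ v' τ) ∧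
      ∀ v', BH (c' v') (((F.deg σ v).1 : ℤ) - (F.deg ⊥ v').1)
        (((F.deg σ v).2 : ℤ) - (F.deg ⊥ v').2) := by
    intro v
    obtain ⟨c, hc⟩ := F.incl ⊥ σ bot_le v
    exact BH_coeffs (F.G σ v) _ _ (F.G_hom σ v) (F.G ⊥) (fun v' => ((F.deg ⊥ v').1 : ℤ))
      (fun v' => ((F.deg ⊥ v').2 : ℤ)) (F.G_hom ⊥) c hc
  choose c hc1 hc2 using h
  exact ⟨fun v' v => c v v', fun v τ => hc1 v τ, fun v' v => hc2 v v'⟩

theorem Fam.exists_gsys (F : Fam k m Γ) : ∃ S : GSys k m (Equiv.Perm Γ), ∀ σ w,
    S.ch σ w = ∑ v : F.B σ, C (F.ρ σ w v v) * (X 0 ^ (F.deg σ v).1 * X 1 ^ (F.deg σ v).2) := by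
  classical
  choose A hA1 hA2 using F.exists_coeff
  choose a ha1 ha2 ha3 using F.equiv
  -- relations over `ST k m`
  have R1 : ∀ π σ, ∀ P : F.B π → F.B σ → ST k m,
      (∀ v τ, F.G σ v τ = ∑ v', P v' v * F.G π v' τ) →
      ∀ v'' v, A σ v'' v = ∑ v', A π v'' v' * P v' v := by
    intro π σ P hP v'' v
    have h := F.ext_coeff ⊥ (fun v'' => A σ v'' v) (fun v'' => ∑ v', A π v'' v' * P v' v) ?_
    · exact congrFun h v''
    · intro τ
      rw [← hA1 σ v τ, hP v τ]
      simp_rw [hA1 π, Finset.mul_sum, Finset.sum_mul]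
      rw [Finset.sum_comm]
      exact Finset.sum_congr rfl fun v' _ => Finset.sum_congr rfl fun v1 _ => by ring
  have R2 : ∀ w w' : Equiv.Perm Γ, ∀ v'' v,
      a ⊥ (w * w') v'' v = ∑ v', a ⊥ w v'' v' * a ⊥ w' v' v := by
    intro w w' v'' v
    have h := F.ext_coeff ⊥ (fun v'' => a ⊥ (w * w') v'' v)
      (fun v'' => ∑ v', a ⊥ w v'' v' * a ⊥ w' v' v) ?_
    · exact congrFun h v''
    · intro τ
      rw [← ha1 ⊥ (w * w') v τ, ← mul_assoc, ha1 ⊥ w' v (τ * w)]
      simp_rw [ha1 ⊥ w, Finset.mul_sum, Finset.sum_mul]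
      rw [Finset.sum_comm]
      exact Finset.sum_congr rfl fun v' _ => Finset.sum_congr rfl fun v1 _ => by ring
  have R2' : ∀ v'' v, a ⊥ (1 : Equiv.Perm Γ) v'' v = if v'' = v then 1 else 0 := by
    intro v'' v
    have h := F.ext_coeff ⊥ (fun v'' => a ⊥ (1 : Equiv.Perm Γ) v'' v)
      (fun v'' => if v'' = v then 1 else 0) ?_
    · exact congrFun h v''
    · intro τ
      rw [← ha1 ⊥ 1 v τ, mul_one]
      simp
  have R3 : ∀ σ (w : Equiv.Perm Γ), ∀ v'' v,
      ∑ v', a ⊥ w v'' v' * A σ v' v = ∑ v', A σ v'' v' * a σ w v' v := by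
    intro σ w v'' v
    have h := F.ext_coeff ⊥ (fun v'' => ∑ v', a ⊥ w v'' v' * A σ v' v)
      (fun v'' => ∑ v', A σ v'' v' * a σ w v' v) ?_
    · exact congrFun h v''
    · intro τ
      have e1 : ∑ v'', (∑ v', a ⊥ w v'' v' * A σ v' v) * F.G ⊥ v'' τ = F.G σ v (τ * w) := by
        rw [hA1 σ v (τ * w)]
        simp_rw [ha1 ⊥ w, Finset.mul_sum, Finset.sum_mul]
        rw [Finset.sum_comm]
        exact Finset.sum_congr rfl fun v' _ => Finset.sum_congr rfl fun v1 _ => by ring
      have e2 : ∑ v'', (∑ v', A σ v'' v' * a σ w v' v) * F.G ⊥ v'' τ = F.G σ v (τ * w) := by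
        rw [ha1 σ w v τ]
        simp_rw [hA1 σ, Finset.mul_sum, Finset.sum_mul]
        rw [Finset.sum_comm]
        exact Finset.sum_congr rfl fun v' _ => Finset.sum_congr rfl fun v1 _ => by ring
      rw [e1, e2]
  have R4 : ∀ π σ, ∀ (h : ST k m) (P : F.B σ → F.B π → ST k m),
      (∀ v τ, h * F.G π v τ = ∑ v', P v' v * F.G σ v' τ) →
      ∀ v'' v, h * A π v'' v = ∑ v', A σ v'' v' * P v' v := by
    intro π σ h P hP v'' v
    have h := F.ext_coeff ⊥ (fun v'' => h * A π v'' v) (fun v'' => ∑ v', A σ v'' v' * P v' v) ?_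
    · exact congrFun h v''
    · intro τ
      have e1 : ∑ v'', h * A π v'' v * F.G ⊥ v'' τ = h * F.G π v τ := by
        rw [hA1 π v τ, Finset.mul_sum]
        exact Finset.sum_congr rfl fun v' _ => by ring
      rw [e1, hP v τ]
      simp_rw [hA1 σ, Finset.mul_sum, Finset.sum_mul]
      rw [Finset.sum_comm]
      exact Finset.sum_congr rfl fun v' _ => Finset.sum_congr rfl fun v1 _ => by ring
  have R5 : ∀ σ, ∀ (h : ST k m) (P : F.B σ → F.B ⊥ → ST k m),
      (∀ v τ, h * F.G ⊥ v τ = ∑ v', P v' v * F.G σ v' τ) →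
      ∀ v'' v, (if v'' = v then h else 0) = ∑ v', P v'' v' * A σ v' v := by
    intro σ h P hP v'' v
    have h := F.ext_coeff σ (fun v'' => if v'' = v then h else 0)
      (fun v'' => ∑ v', P v'' v' * A σ v' v) ?_
    · exact congrFun h v''
    · intro τ
      have e1 : ∑ v'', (if v'' = v then h else 0) * F.G σ v'' τ = h * F.G σ v τ := by
        simp
      rw [e1, hA1 σ v τ, Finset.mul_sum]
      have e2 : ∀ v' : F.B ⊥, h * (A σ v' v * F.G ⊥ v' τ) =
          ∑ v'' : F.B σ, P v'' v' * A σ v' v * F.G σ v'' τ := by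
        intro v'
        have : h * (A σ v' v * F.G ⊥ v' τ) = A σ v' v * (h * F.G ⊥ v' τ) := by ring
        rw [this, hP v' τ, Finset.mul_sum]
        exact Finset.sum_congr rfl fun v1 _ => by ring
      simp_rw [e2, Finset.sum_mul]
      rw [Finset.sum_comm]
  -- the specialised objects
  let bS : ∀ σ, F.B σ → (F.B ⊥ → SB k m) := fun σ v v' => sp k m (A σ v' v)
  let aS : Equiv.Perm Γ → Matrix (F.B ⊥) (F.B ⊥) (SB k m) :=
    fun g => Matrix.of fun v' v => sp k m (a ⊥ g v' v)
  have haS_one : aS 1 = 1 := by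
    ext1 v' v
    simp only [aS, Matrix.of_apply, R2', Matrix.one_apply]
    split_ifs <;> simp
  have haS_mul : ∀ w w', aS (w * w') = aS w * aS w' := by
    intro w w'
    ext1 v' v
    simp only [aS, Matrix.of_apply, Matrix.mul_apply, R2, map_sum, map_mul]
  have hact : ∀ σ (g : Equiv.Perm Γ) (v : F.B σ), (aS g).mulVec (bS σ v) =
      ∑ v', sp k m (a σ g v' v) • bS σ v' := by
    intro σ g v
    ext1 v''
    have := congrArg (sp k m) (R3 σ g v'' v)
    simp only [map_sum, map_mul] at this
    simp only [Matrix.mulVec, dotProduct, aS, bS, Matrix.of_apply, Finset.sum_apply, Pi.smul_apply,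
      smul_eq_mul]
    rw [this]
    exact Finset.sum_congr rfl fun v' _ => by ring
  refine ⟨{ V := F.B ⊥ → SB k m
            gr := grS k m (F.deg ⊥)
            internal := grS_internal _
            fd := grS_fd _
            X_mem := grS_X_mem _
            act := { toFun := fun g => Matrix.mulVecLin (aS g)
                     map_one' := by rw [haS_one, Matrix.mulVecLin_one]; rfl
                     map_mul' := fun w w' => by
                       rw [haS_mul, Matrix.mulVecLin_mul]; rfl }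
            act_gr := ?_
            M := fun σ => Submodule.span (SB k m) (Set.range (bS σ))
            anti := ?_
            act_M := ?_
            loc := ?_
            B := F.B
            deg := F.deg
            b := bS
            b_gr := ?_
            b_span := fun σ => rfl
            b_indep := ?_
            ρ := F.ρ
            act_b := ?_ }, fun σ w => rfl⟩
  · intro g d v hv
    exact grS_mulVec (F.deg ⊥) (F.deg ⊥) (aS g)
      (fun v' v => BS_sp _ _ _ (ha3 ⊥ g v' v)) d v hv
  · intro π σ h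
    refine Submodule.span_le.mpr ?_
    rintro _ ⟨v, rfl⟩
    obtain ⟨P, hP⟩ : ∃ P : F.B π → F.B σ → ST k m, ∀ v τ, F.G σ v τ = ∑ v', P v' v * F.G π v' τ := by
      choose P hP using F.incl π σ h
      exact ⟨fun v' v => P v v', hP⟩
    have h1 : bS σ v = ∑ v', sp k m (P v' v) • bS π v' := by
      ext1 v''
      have := congrArg (sp k m) (R1 π σ P hP v'' v)
      simp only [map_sum, map_mul] at this
      simp only [bS, Finset.sum_apply, Pi.smul_apply, smul_eq_mul]
      rw [this]
      exact Finset.sum_congr rfl fun v' _ => by ring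
    rw [h1]
    exact Submodule.sum_mem _ fun v' _ =>
      Submodule.smul_mem _ _ (Submodule.subset_span ⟨v', rfl⟩)
  · intro g σ v hv
    have h1 : Submodule.span (SB k m) (Set.range (bS σ)) ≤
        (Submodule.span (SB k m) (Set.range (bS σ))).comap (Matrix.mulVecLin (aS g)) := by
      refine Submodule.span_le.mpr ?_
      rintro _ ⟨v, rfl⟩
      show (aS g).mulVec (bS σ v) ∈ Submodule.span (SB k m) (Set.range (bS σ))
      rw [hact]
      exact Submodule.sum_mem _ fun v' _ =>
        Submodule.smul_mem _ _ (Submodule.subset_span ⟨v', rfl⟩)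
    exact h1 hv
  · intro π σ hπσ
    obtain ⟨h, ⟨N, q, hq⟩, hP'⟩ := F.loc π σ hπσ
    choose P hP using hP'
    have hR := R4 π σ h (fun v' v => P v v') hP
    refine ⟨N, fun v hv => ?_⟩
    have h1 : Submodule.span (SB k m) (Set.range (bS π)) ≤
        (Submodule.span (SB k m) (Set.range (bS σ))).comap
          (LinearMap.lsmul (SB k m) (F.B ⊥ → SB k m) (crossH k σ π ^ N)) := by
      refine Submodule.span_le.mpr ?_
      rintro _ ⟨v, rfl⟩
      show crossH k σ π ^ N • bS π v ∈ Submodule.span (SB k m) (Set.range (bS σ))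
      rw [hq, mul_comm, mul_smul]
      refine Submodule.smul_mem _ _ ?_
      have h2 : sp k m h • bS π v = ∑ v', sp k m (P v v') • bS σ v' := by
        ext1 v''
        have := congrArg (sp k m) (hR v'' v)
        simp only [map_sum, map_mul] at this
        simp only [bS, Finset.sum_apply, Pi.smul_apply, smul_eq_mul]
        rw [this]
        exact Finset.sum_congr rfl fun v' _ => by ring
      rw [h2]
      exact Submodule.sum_mem _ fun v' _ =>
        Submodule.smul_mem _ _ (Submodule.subset_span ⟨v', rfl⟩)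
    exact h1 hv
  · intro σ v v'
    exact BS_sp _ _ _ (hA2 σ v' v)
  · intro σ
    obtain ⟨h, ⟨N, q, hq⟩, hP'⟩ := F.loc ⊥ σ bot_le
    choose P hP using hP'
    have hR := R5 σ h (fun v' v => P v v') hP
    have hh : sp k m h ≠ 0 := by
      intro h0
      rw [h0, zero_mul] at hq
      exact pow_ne_zero N (crossH_ne_zero σ ⊥) hq
    rw [Fintype.linearIndependent_iff]
    intro x hx v
    have h1 : ∀ v' : F.B ⊥, ∑ v, x v * sp k m (A σ v' v) = 0 := by
      intro v'
      have := congrFun hx v'
      simpa only [bS, Finset.sum_apply, Pi.smul_apply, smul_eq_mul, Pi.zero_apply] using this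
    have h2 : sp k m h * x v = 0 := by
      have e : ∀ v'' : F.B σ, (if v = v'' then sp k m h else 0) =
          ∑ v', sp k m (P v' v) * sp k m (A σ v' v'') := by
        intro v''
        have := congrArg (sp k m) (hR v v'')
        simp only [map_sum, map_mul] at this
        rw [← this]
        split_ifs <;> simp
      calc sp k m h * x v = ∑ v'', (if v = v'' then sp k m h else 0) * x v'' := by simp
        _ = ∑ v'', (∑ v', sp k m (P v' v) * sp k m (A σ v' v'')) * x v'' := by
            exact Finset.sum_congr rfl fun v'' _ => by rw [e]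
        _ = ∑ v', sp k m (P v' v) * ∑ v'', x v'' * sp k m (A σ v' v'') := by
            simp_rw [Finset.sum_mul, Finset.mul_sum]
            rw [Finset.sum_comm]
            exact Finset.sum_congr rfl fun v' _ => Finset.sum_congr rfl fun v1 _ => by ring
        _ = 0 := by simp [h1]
    exact (mul_eq_zero.mp h2).resolve_left hh
  · intro σ g
    refine ⟨fun v' v => sp k m (a σ g v' v), fun v => hact σ g v, fun v' v => ?_⟩
    rw [constantCoeff_sp]
    exact ha2 σ g v' v

/-- transport along an isomorphism of groups -/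
theorem GSys.transfer {G G' : Type} [Group G] [Group G'] (e : G' ≃* G) (S : GSys k m G) :
    ∃ S' : GSys k m G', ∀ σ g', S'.ch σ g' = S.ch σ (e g') := by
  refine ⟨{ V := S.V, gr := S.gr, internal := S.internal, fd := S.fd, X_mem := S.X_mem,
            act := S.act.comp e.toMonoidHom, act_gr := fun g d v hv => S.act_gr _ d v hv,
            M := S.M, anti := S.anti, act_M := fun g σ v hv => S.act_M _ σ v hv, loc := S.loc,
            B := S.B, deg := S.deg, b := S.b, b_gr := S.b_gr, b_span := S.b_span,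
            b_indep := S.b_indep, ρ := fun σ g => S.ρ σ (e g),
            act_b := fun σ g => S.act_b σ (e g) }, fun σ g' => rfl⟩

end

end Pool.Agent.Lib.MP_463376_co
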