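import Pool.Agent.Lib.MP_463376_co.I_Defs

/-! Stream I, job GLUE: permutations preserving the fibres of `κ` -/

namespace Pool.Agent.Lib.MP_463376_co

open MvPolynomial

section
variable {Γ : Type} [Fintype Γ] [DecidableEq Γ] {Q : Type} [Fintype Q] [DecidableEq Q]

theorem sum_prod_pi {V : Q → Type} [∀ B, Fintype (V B)] {M : Type} [CommSemiring M]
    (f : ∀ B, V B → M) : ∑ v : (∀ B, V B), ∏ B, f B (v B) = ∏ B, ∑ v, f B v := by
  rw [Finset.prod_univ_sum, Fintype.piFinset_univ]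

theorem glue_apply (κ : Γ → Q) (u : ∀ B : Q, Equiv.Perm {γ : Γ // κ γ = B}) (γ : Γ) :
    glue κ u γ = (u (κ γ) ⟨γ, rfl⟩).1 := by
  rfl

theorem kappa_glue (κ : Γ → Q) (u : ∀ B : Q, Equiv.Perm {γ : Γ // κ γ = B}) (γ : Γ) :
    κ (glue κ u γ) = κ γ := by
  rw [glue_apply]
  exact (u (κ γ) ⟨γ, rfl⟩).2

theorem res_apply (κ : Γ → Q) (u : Equiv.Perm Γ) (hu : ∀ x, κ (u x) = κ x) (B : Q)
    (x : {γ : Γ // κ γ = B}) : ((res κ u B x : {γ : Γ // κ γ = B}) : Γ) = u x.1 := by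
  have h : ∀ x, κ (u x) = B ↔ κ x = B := fun x => by rw [hu x]
  unfold res
  rw [dif_pos h]
  rfl

theorem glue_res (κ : Γ → Q) (u : Equiv.Perm Γ) (hu : ∀ x, κ (u x) = κ x) :
    glue κ (fun B => res κ u B) = u := by
  ext γ
  rw [glue_apply, res_apply κ u hu]

theorem res_glue (κ : Γ → Q) (u : ∀ B : Q, Equiv.Perm {γ : Γ // κ γ = B}) (B : Q) :
    res κ (glue κ u) B = u B := by
  ext x
  rw [res_apply κ _ (kappa_glue κ u), glue_apply]
  obtain ⟨γ, hγ⟩ := x
  subst hγ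
  rfl

theorem res_mul (κ : Γ → Q) (u w : Equiv.Perm Γ) (hu : ∀ x, κ (u x) = κ x)
    (hw : ∀ x, κ (w x) = κ x) (B : Q) : res κ (u * w) B = res κ u B * res κ w B := by
  ext x
  have h : ∀ x, κ ((u * w) x) = κ x := fun x => by
    rw [Equiv.Perm.mul_apply, hu, hw]
  rw [res_apply κ _ h, Equiv.Perm.mul_apply, Equiv.Perm.mul_apply, res_apply κ _ hu,
    res_apply κ _ hw]

theorem res_one (κ : Γ → Q) (B : Q) : res κ 1 B = 1 := by
  ext x
  rw [res_apply κ 1 (fun _ => rfl)]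
  rfl

/-- sum over all orderings with pattern `I` = sum over the permutations of all blocks:
`u ↦ glue κ u * eI I` is a bijection from `∏_B Perm` to `{τ | κ ∘ τ = I}` -/
theorem sum_pattern {M : Type} [AddCommMonoid M] (κ : Γ → Q) (I : Pat κ)
    (F : (∀ B : Q, Equiv.Perm {γ : Γ // κ γ = B}) → M) :
    ∑ τ : Equiv.Perm Γ, (if ∀ i, κ (τ i) = I.1 i then
      F (fun B => res κ (τ * (eI I)⁻¹) B) else 0) =
    ∑ u : (∀ B : Q, Equiv.Perm {γ : Γ // κ γ = B}), F u := by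
  rw [← Finset.sum_filter]
  have key : ∀ τ : Equiv.Perm Γ, (∀ i, κ (τ i) = I.1 i) → ∀ x, κ ((τ * (eI I)⁻¹) x) = κ x := by
    intro τ hτ x
    have e1 : κ (τ ((eI I)⁻¹ x)) = I.1 ((eI I)⁻¹ x) := hτ _
    have e2 : κ (eI I ((eI I)⁻¹ x)) = I.1 ((eI I)⁻¹ x) := eI_spec I _
    have e3 : eI I ((eI I)⁻¹ x) = x := (eI I).apply_symm_apply x
    have e4 : κ (τ ((eI I)⁻¹ x)) = κ x := by
      refine e1.trans (e2.symm.trans ?_)
      rw [e3]
    exact e4
  refine Finset.sum_nbij' (fun τ B => res κ (τ * (eI I)⁻¹) B) (fun u => glue κ u * eI I)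
    ?_ ?_ ?_ ?_ ?_
  · intro τ _
    exact Finset.mem_univ _
  · intro u _
    rw [Finset.mem_filter]
    exact ⟨Finset.mem_univ _, fun i => (kappa_glue κ u (eI I i)).trans (eI_spec I i)⟩
  · intro τ hτ
    rw [Finset.mem_filter] at hτ
    change glue κ (fun B => res κ (τ * (eI I)⁻¹) B) * eI I = τ
    rw [glue_res κ _ (key τ hτ.2), inv_mul_cancel_right]
  · intro u _
    funext B
    change res κ (glue κ u * eI I * (eI I)⁻¹) B = u B
    rw [mul_inv_cancel_right, res_glue]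
  · intro τ _
    rfl

/-- orbit counting: the fibres of `Perm Γ → Pat κ`, `τ ↦ κ ∘ τ`, all have `∏_B |κ⁻¹ B|!` elements
(`sum_pattern` with `F = 1`) -/
theorem card_pat (κ : Γ → Q) : Fintype.card (Pat κ) *
    ∏ B : Q, (Fintype.card {γ : Γ // κ γ = B}).factorial = (Fintype.card Γ).factorial := by
  have h1 : ∀ I : Pat κ, ∑ τ : Equiv.Perm Γ, (if ∀ i, κ (τ i) = I.1 i then 1 else 0) =
      ∏ B : Q, (Fintype.card {γ : Γ // κ γ = B}).factorial := by
    intro I
    have e1 := sum_pattern (M := ℕ) κ I (fun _ => 1)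
    rw [e1]
    simp only [Finset.sum_const, smul_eq_mul, mul_one, Finset.card_univ, Fintype.card_pi,
      Fintype.card_perm]
  have h2 : ∀ τ : Equiv.Perm Γ, ∑ I : Pat κ, (if ∀ i, κ (τ i) = I.1 i then 1 else 0) = 1 := by
    intro τ
    have e1 : ∀ I : Pat κ, I ≠ (⟨fun i => κ (τ i), τ, fun _ => rfl⟩ : Pat κ) →
        (if ∀ i, κ (τ i) = I.1 i then 1 else 0) = 0 := by
      intro I hI
      refine if_neg fun h => hI ?_
      apply Subtype.ext
      funext i
      exact (h i).symm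
    refine (Fintype.sum_eq_single _ e1).trans ?_
    exact if_pos fun _ => rfl
  calc Fintype.card (Pat κ) * ∏ B : Q, (Fintype.card {γ : Γ // κ γ = B}).factorial =
      ∑ I : Pat κ, ∑ τ : Equiv.Perm Γ, (if ∀ i, κ (τ i) = I.1 i then 1 else 0) := by
        rw [Finset.sum_congr rfl (fun I _ => h1 I)]
        simp only [Finset.sum_const, smul_eq_mul, Finset.card_univ]
    _ = ∑ τ : Equiv.Perm Γ, ∑ I : Pat κ, (if ∀ i, κ (τ i) = I.1 i then 1 else 0) :=
        Finset.sum_comm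
    _ = (Fintype.card Γ).factorial := by
        rw [Finset.sum_congr rfl (fun τ _ => h2 τ)]
        simp only [Finset.sum_const, smul_eq_mul, mul_one, Finset.card_univ, Fintype.card_perm]

end

end Pool.Agent.Lib.MP_463376_co
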