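import Pool.Agent.Lib.MP_463376_co.I_Glue

/-! Stream I, job MEM: the basis functions of a family come from polynomials in the ideals -/

namespace Pool.Agent.Lib.MP_463376_co

open MvPolynomial

private theorem mem_Jd' {k : Type} [Field k] {ι : Type} {d : ℕ} {f : RR k ι} :
    f ∈ Jd k ι d ↔ ∀ i j : ι, i ≠ j → f ∈ (pI i j : Ideal (RR k ι)) ^ d := by
  unfold Jd
  simp only [Submodule.mem_iInf]

private theorem pI_rename {k : Type} [Field k] {α β : Type} (φ : α → β) (i j : α) (n : ℕ)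
    {f : RR k α} (hf : f ∈ (pI i j : Ideal (RR k α)) ^ n) :
    rename (Sum.map φ φ) f ∈ (pI (φ i) (φ j) : Ideal (RR k β)) ^ n := by
  have h1 : Ideal.map (rename (Sum.map φ φ) : RR k α →ₐ[k] RR k β).toRingHom (pI i j) ≤
      pI (φ i) (φ j) := by
    unfold pI
    rw [Ideal.map_span, Ideal.span_le]
    rintro _ ⟨g, hg, rfl⟩
    rcases hg with rfl | rfl
    · refine Ideal.subset_span (Or.inl ?_)
      show rename (Sum.map φ φ) (xx i - xx j) = _
      rw [map_sub]
      unfold xx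
      rw [rename_X, rename_X]
      rfl
    · refine Ideal.subset_span (Or.inr ?_)
      show rename (Sum.map φ φ) (yy i - yy j) = _
      rw [map_sub]
      unfold yy
      rw [rename_X, rename_X]
      rfl
  have h2 : rename (Sum.map φ φ) f ∈
      Ideal.map (rename (Sum.map φ φ) : RR k α →ₐ[k] RR k β).toRingHom
        ((pI i j : Ideal (RR k α)) ^ n) :=
    Ideal.mem_map_of_mem (rename (Sum.map φ φ) : RR k α →ₐ[k] RR k β).toRingHom hf
  rw [Ideal.map_pow] at h2
  exact Ideal.pow_right_mono h1 n h2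

section
variable {k : Type} [Field k] {m : ℕ} {Γ : Type} [Fintype Γ] [DecidableEq Γ]
  {Q : Type} [Fintype Q] [DecidableEq Q] {col : Γ → Fin (m + 1) × ℕ} {row : Γ → ℕ} {κ : Γ → Q}

/-- uniform exponents: multiply `f` of `g_mem` by a power of the polynomial of `raise` -/
theorem BD.mem_uniform {Δ : Type} [Fintype Δ] [DecidableEq Δ] {c : Δ → Fin (m + 1) × ℕ} {r : Δ → ℕ}
    (D : BD k m c r) (v : D.V) : ∃ e : ℕ, ∀ E : ℕ, e ≤ E → ∃ f ∈ Jd k Δ (2 * E),
      ∀ τ : Equiv.Perm Δ, evT (c ∘ τ) (r ∘ τ) f = discT k c r ^ E * D.g v τ := by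
  obtain ⟨e, f, hf, hfe⟩ := D.g_mem v
  obtain ⟨f2, hf2, hf2e⟩ := D.raise
  refine ⟨e, fun E hE => ⟨f * f2 ^ (E - e), ?_, fun τ => ?_⟩⟩
  · rw [mem_Jd'] at hf hf2 ⊢
    intro i j hij
    have h1 := hf i j hij
    have h2 := Ideal.pow_mem_pow (hf2 i j hij) (E - e)
    rw [← pow_mul] at h2
    have h3 := Ideal.mul_mem_mul h1 h2
    rw [← pow_add] at h3
    have h4 : 2 * e + 2 * (E - e) = 2 * E := by omega
    rwa [h4] at h3
  · rw [map_mul, map_pow, hfe, hf2e]
    have h4 : discT k c r ^ E = discT k c r ^ e * discT k c r ^ (E - e) := by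
      rw [← pow_add]
      congr 1
      omega
    rw [h4]
    ring

/-- With `E` = sum of the exponents of all blocks and `f_B ∈ Jd k _ (2E)` from `mem_uniform` take
`f = ∏ B, rename (Sum.map φ_B φ_B) f_B`, `φ_B γ = (eI v.1)⁻¹ γ`.  For `τ` with pattern `v.1` one has
`col (τ (φ_B γ)) = col (res κ (τ * (eI v.1)⁻¹) B γ)`. -/
theorem GF_mem (D : BDs k col row κ) (v : Idx D) : ∃ e : ℕ, ∃ f : RR k Γ,
    (∀ i j, i ≠ j → v.1.1 i = v.1.1 j → f ∈ (pI i j : Ideal (RR k Γ)) ^ (2 * e)) ∧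
    ∀ τ : Equiv.Perm Γ, DT k col row κ ^ e * GF D v τ =
      if ∀ i, κ (τ i) = v.1.1 i then evT (col ∘ τ) (row ∘ τ) f else 0 := by
  classical
  have hB := fun B : Q => (D B).mem_uniform (v.2 B)
  choose e he using hB
  set E : ℕ := ∑ B, e B with hE
  have hle : ∀ B, e B ≤ E := fun B =>
    Finset.single_le_sum (f := e) (fun _ _ => Nat.zero_le _) (Finset.mem_univ B)
  have hB2 := fun B : Q => he B E (hle B)
  choose f hf hfe using hB2
  set φ : ∀ B : Q, {γ : Γ // κ γ = B} → Γ := fun B γ => (eI v.1)⁻¹ γ.1 with hφ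
  refine ⟨E, ∏ B, rename (Sum.map (φ B) (φ B)) (f B), ?_, fun τ => ?_⟩
  · intro i j hij hI
    refine Ideal.mem_of_dvd _ (Finset.dvd_prod_of_mem
      (fun B => rename (Sum.map (φ B) (φ B)) (f B)) (Finset.mem_univ (v.1.1 i))) ?_
    have hi : κ (eI v.1 i) = v.1.1 i := eI_spec v.1 i
    have hj : κ (eI v.1 j) = v.1.1 i := by rw [eI_spec v.1 j, hI]
    have h1 := (mem_Jd'.1 (hf (v.1.1 i))) ⟨eI v.1 i, hi⟩ ⟨eI v.1 j, hj⟩ (by
      intro h
      exact hij ((eI v.1).injective (congrArg Subtype.val h)))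
    have h2 := pI_rename (φ (v.1.1 i)) _ _ _ h1
    have e1 : φ (v.1.1 i) ⟨eI v.1 i, hi⟩ = i := by
      simp only [hφ]
      exact (eI v.1).symm_apply_apply _
    have e2 : φ (v.1.1 i) ⟨eI v.1 j, hj⟩ = j := by
      simp only [hφ]
      exact (eI v.1).symm_apply_apply _
    rw [e1, e2] at h2
    exact h2
  · by_cases hpat : ∀ i, κ (τ i) = v.1.1 i
    · unfold GF DT
      rw [if_pos hpat, if_pos hpat, map_prod, ← Finset.prod_pow, ← Finset.prod_mul_distrib]
      refine Finset.prod_congr rfl fun B _ => ?_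
      rw [← hfe B]
      unfold evT
      rw [aeval_rename]
      congr 1
      congr 1
      have hu : ∀ x, κ ((τ * (eI v.1)⁻¹) x) = κ x := by
        intro x
        rw [Equiv.Perm.mul_apply, hpat, ← eI_spec v.1]
        exact congrArg κ ((eI v.1).apply_symm_apply x)
      funext z
      rcases z with γ | γ
      · simp only [Sum.elim_inl, Function.comp_apply, Sum.map_inl]
        rw [res_apply κ _ hu]
        rfl
      · simp only [Sum.elim_inr, Function.comp_apply, Sum.map_inr]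
        rw [res_apply κ _ hu]
        rfl
    · unfold GF
      rw [if_neg hpat, if_neg hpat, mul_zero]

end

end Pool.Agent.Lib.MP_463376_co
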