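import Mathlib

/-!
# MP_463376_co, stream J: acyclicity lemma
-/

namespace Pool.Agent.Lib.MP_463376_co

open RingTheory.Sequence Pointwise

variable {R : Type} [CommRing R]

/-- the boundaries of a complex which starts in degree `0` -/
def bdry {C : ℕ → Type} [∀ j, AddCommGroup (C j)] [∀ j, Module R (C j)]
    (d : ∀ j, C j →ₗ[R] C (j + 1)) : ∀ j, Submodule R (C j)
  | 0 => ⊥
  | j + 1 => LinearMap.range (d j)

theorem acyc_mk_eq_zero {M : Type} [AddCommGroup M] [Module R M] (x : R) (m : M) :
    (Submodule.Quotient.mk m : QuotSMulTop x M) = 0 ↔ ∃ m', x • m' = m := by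
  rw [Submodule.Quotient.mk_eq_zero]
  constructor
  · intro h
    obtain ⟨y, -, hy⟩ := (Submodule.mem_smul_pointwise_iff_exists _ _ _).1 h
    exact ⟨y, hy⟩
  · rintro ⟨y, hy⟩
    exact (Submodule.mem_smul_pointwise_iff_exists _ _ _).2 ⟨y, trivial, hy⟩

/-- The boundaries of the reduced complex come from boundaries. -/
theorem acyc_bdry_mk (x : R) (C : ℕ → Type) [∀ j, AddCommGroup (C j)] [∀ j, Module R (C j)]
    (d : ∀ j, C j →ₗ[R] C (j + 1)) (j : ℕ) (c : C j) :
    (Submodule.Quotient.mk c : QuotSMulTop x (C j)) ∈
        bdry (fun j => QuotSMulTop.map x (d j)) j ↔ ∃ b ∈ bdry d j, ∃ c', c = b + x • c' := by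
  cases j with
  | zero =>
      change (Submodule.Quotient.mk c : QuotSMulTop x (C 0)) ∈ (⊥ : Submodule R _) ↔ _
      rw [Submodule.mem_bot, acyc_mk_eq_zero]
      constructor
      · rintro ⟨c', hc'⟩
        exact ⟨0, Submodule.zero_mem _, c', by rw [zero_add, hc']⟩
      · rintro ⟨b, hb, c', hc'⟩
        have hb0 : b = 0 := hb
        exact ⟨c', by rw [hc', hb0, zero_add]⟩
  | succ j =>
      change (Submodule.Quotient.mk c : QuotSMulTop x (C (j + 1))) ∈
        LinearMap.range (QuotSMulTop.map x (d j)) ↔ _
      constructor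
      · rintro ⟨e, he⟩
        obtain ⟨e, rfl⟩ := Submodule.Quotient.mk_surjective _ e
        rw [QuotSMulTop.map_apply_mk] at he
        have h1 : (Submodule.Quotient.mk (c - d j e) : QuotSMulTop x (C (j + 1))) = 0 := by
          rw [Submodule.Quotient.mk_sub, he, sub_self]
        obtain ⟨c', hc'⟩ := (acyc_mk_eq_zero x _).1 h1
        exact ⟨d j e, ⟨e, rfl⟩, c', by rw [hc']; abel⟩
      · rintro ⟨b, ⟨e, rfl⟩, c', hc'⟩
        refine ⟨Submodule.Quotient.mk e, ?_⟩
        rw [QuotSMulTop.map_apply_mk, hc', Submodule.Quotient.mk_add]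
        have : (Submodule.Quotient.mk (x • c') : QuotSMulTop x (C (j + 1))) = 0 :=
          (acyc_mk_eq_zero x _).2 ⟨c', rfl⟩
        rw [this, add_zero]

/-- **Acyclicity lemma.** -/
theorem acyclic (rs : List R) (C : ℕ → Type) [∀ j, AddCommGroup (C j)] [∀ j, Module R (C j)]
    (d : ∀ j, C j →ₗ[R] C (j + 1)) (hd : ∀ j c, d (j + 1) (d j c) = 0)
    (hreg : ∀ j, IsWeaklyRegular (C j) rs)
    (hk : ∀ j < rs.length, ∀ x ∈ rs, ∃ K : ℕ, ∀ c, d j c = 0 → x ^ K • c ∈ bdry d j) :
    ∀ j < rs.length, ∀ c, d j c = 0 → c ∈ bdry d j := by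
  induction rs generalizing C with
  | nil => intro j hj; exact absurd hj (Nat.not_lt_zero _)
  | cons x rs ih =>
      have hx : ∀ j, IsSMulRegular (C j) x := fun j => ((isWeaklyRegular_cons_iff _ _ _).1 (hreg j)).1
      have hrs : ∀ j, IsWeaklyRegular (QuotSMulTop x (C j)) rs :=
        fun j => ((isWeaklyRegular_cons_iff _ _ _).1 (hreg j)).2
      have hx0 : ∀ j (c : C j), x • c = 0 → c = 0 := fun j c h => by
        have h1 : x • c = x • (0 : C j) := by rw [h, smul_zero]
        exact hx j h1
      have key := ih (fun j => QuotSMulTop x (C j)) (fun j => QuotSMulTop.map x (d j)) ?_ hrs ?_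
      · -- divisibility by `x`
        have hdiv : ∀ j < (x :: rs).length, ∀ c : C j, d j c = 0 → x • c ∈ bdry d j →
            c ∈ bdry d j := by
          intro j hj c hc hxc
          cases j with
          | zero =>
              have h1 : x • c = 0 := hxc
              have h2 : c = 0 := hx0 0 c h1
              rw [h2]
              exact Submodule.zero_mem _
          | succ j =>
              obtain ⟨b, hb⟩ : ∃ b, d j b = x • c := hxc
              have hj' : j < rs.length := by
                rw [List.length_cons] at hj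
                omega
              have h1 : QuotSMulTop.map x (d j) (Submodule.Quotient.mk b) = 0 := by
                rw [QuotSMulTop.map_apply_mk, hb]
                exact (acyc_mk_eq_zero x _).2 ⟨c, rfl⟩
              have h2 := (acyc_bdry_mk x C d j b).1 (key j hj' _ h1)
              obtain ⟨b1, hb1, b2, hb2⟩ := h2
              have h3 : d j b1 = 0 := by
                cases j with
                | zero =>
                    have : b1 = 0 := hb1
                    rw [this, map_zero]
                | succ j =>
                    obtain ⟨e, rfl⟩ := hb1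
                    exact hd j e
              refine ⟨b2, ?_⟩
              have h4 : x • (d j b2) = x • c := by
                rw [← hb, hb2, map_add, h3, zero_add, map_smul]
              exact hx _ h4
        intro j hj c hc
        obtain ⟨K, hK⟩ := hk j hj x List.mem_cons_self
        have h1 := hK c hc
        clear hK
        induction K with
        | zero =>
            rw [pow_zero, one_smul] at h1
            exact h1
        | succ K ihK =>
            apply ihK
            refine hdiv j hj (x ^ K • c) ?_ ?_
            · rw [map_smul, hc, smul_zero]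
            · rw [smul_smul, ← pow_succ']
              exact h1
      · intro j c
        obtain ⟨c, rfl⟩ := Submodule.Quotient.mk_surjective _ c
        change QuotSMulTop.map x (d (j + 1)) (QuotSMulTop.map x (d j) (Submodule.Quotient.mk c)) = 0
        rw [QuotSMulTop.map_apply_mk, QuotSMulTop.map_apply_mk, hd]
        rfl
      · intro j hj y hy
        obtain ⟨K1, hK1⟩ := hk j (by rw [List.length_cons]; omega) y (List.mem_cons_of_mem _ hy)
        obtain ⟨K2, hK2⟩ := hk (j + 1) (by rw [List.length_cons]; omega) y
          (List.mem_cons_of_mem _ hy)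
        refine ⟨K1 + K2, fun c hc => ?_⟩
        obtain ⟨c, rfl⟩ := Submodule.Quotient.mk_surjective _ c
        change QuotSMulTop.map x (d j) (Submodule.Quotient.mk c) = 0 at hc
        rw [QuotSMulTop.map_apply_mk] at hc
        obtain ⟨e, he⟩ := (acyc_mk_eq_zero x _).1 hc
        have h1 : d (j + 1) e = 0 := by
          apply hx0
          rw [← map_smul, he, hd]
        obtain ⟨w, hw⟩ : ∃ w, d j w = y ^ K2 • e := hK2 e h1
        have h2 : d j (y ^ K2 • c - x • w) = 0 := by
          rw [map_sub, map_smul, map_smul, hw, ← he, smul_comm, sub_self]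
        have h3 := hK1 _ h2
        have h4 : y ^ (K1 + K2) • (Submodule.Quotient.mk c : QuotSMulTop x (C j)) =
            Submodule.Quotient.mk (y ^ (K1 + K2) • c) := rfl
        change y ^ (K1 + K2) • (Submodule.Quotient.mk c : QuotSMulTop x (C j)) ∈ _
        rw [h4]
        refine (acyc_bdry_mk x C d j _).2 ⟨_, h3, y ^ K1 • w, ?_⟩
        rw [smul_sub, smul_smul, ← pow_add, smul_comm (y ^ K1) x w]
        abel

end Pool.Agent.Lib.MP_463376_co
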