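import Pool.Agent.Lib.MP_463376_co.J_Acyc

/-!
# MP_463376_co, stream J: cochains on the strict chains of a lattice
-/

namespace Pool.Agent.Lib.MP_463376_co

section basic

variable {Λ : Type} [Lattice Λ] [OrderTop Λ]

/-- the first element of a chain; the top for the empty chain -/
def hdT : List Λ → Λ
  | [] => ⊤
  | a :: _ => a

/-- strictly increasing chains below the top -/
def Str : List Λ → Prop
  | [] => True
  | a :: l => a < hdT l ∧ Str l

/-- weakly increasing chains of elements different from the top -/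
def Wk : List Λ → Prop
  | [] => True
  | a :: l => a ≤ hdT l ∧ a ≠ ⊤ ∧ Wk l

theorem Str.wk {l : List Λ} (h : Str l) : Wk l := by
  induction l with
  | nil => trivial
  | cons a l ih => exact ⟨h.1.le, (lt_of_lt_of_le h.1 le_top).ne, ih h.2⟩

variable {V : Type} [AddCommGroup V]

/-- the coboundary, evaluated at a list -/
def del : List Λ → (List Λ → V) → V
  | [], _ => 0
  | a :: l, φ => φ l - del l (fun l' => φ (a :: l'))

/-- the homotopy, evaluated at a list -/
def hmt (τ : Λ) : List Λ → (List Λ → V) → V
  | [], φ => φ [τ]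
  | a :: l, φ => φ ((a ⊓ τ) :: a :: l) - hmt τ l (fun l' => φ ((a ⊓ τ) :: l'))

theorem del_zero (l : List Λ) : del l (fun _ => (0 : V)) = 0 := by
  induction l with
  | nil => rfl
  | cons a l ih => rw [del, ih, sub_zero]

theorem del_add (l : List Λ) (φ ψ : List Λ → V) :
    del l (fun l' => φ l' + ψ l') = del l φ + del l ψ := by
  induction l generalizing φ ψ with
  | nil => exact (add_zero 0).symm
  | cons a l ih =>
      rw [del, del, del, ih (fun l' => φ (a :: l')) (fun l' => ψ (a :: l'))]
      abel

theorem del_sub (l : List Λ) (φ ψ : List Λ → V) :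
    del l (fun l' => φ l' - ψ l') = del l φ - del l ψ := by
  induction l generalizing φ ψ with
  | nil => exact (sub_zero 0).symm
  | cons a l ih =>
      rw [del, del, del, ih (fun l' => φ (a :: l')) (fun l' => ψ (a :: l'))]
      abel

theorem hmt_sub (τ : Λ) (l : List Λ) (φ ψ : List Λ → V) :
    hmt τ l (fun l' => φ l' - ψ l') = hmt τ l φ - hmt τ l ψ := by
  induction l generalizing φ ψ with
  | nil => rfl
  | cons a l ih =>
      rw [hmt, hmt, hmt, ih (fun l' => φ ((a ⊓ τ) :: l')) (fun l' => ψ ((a ⊓ τ) :: l'))]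
      abel

/-- compatibility with additive maps -/
theorem del_map {V' : Type} [AddCommGroup V'] (g : V →+ V') (l : List Λ) (φ : List Λ → V) :
    del l (fun l' => g (φ l')) = g (del l φ) := by
  induction l generalizing φ with
  | nil => exact (map_zero g).symm
  | cons a l ih => rw [del, del, map_sub, ih (fun l' => φ (a :: l'))]

theorem hmt_map {V' : Type} [AddCommGroup V'] (g : V →+ V') (τ : Λ) (l : List Λ) (φ : List Λ → V) :
    hmt τ l (fun l' => g (φ l')) = g (hmt τ l φ) := by
  induction l generalizing φ with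
  | nil => rfl
  | cons a l ih => rw [hmt, hmt, map_sub, ih (fun l' => φ ((a ⊓ τ) :: l'))]

theorem del_del (l : List Λ) (φ : List Λ → V) : del l (fun l' => del l' φ) = 0 := by
  induction l generalizing φ with
  | nil => rfl
  | cons a l ih =>
      have h : del (a :: l) (fun l' => del l' φ) =
          del l φ - del l (fun l' => φ l' - del l' (fun l'' => φ (a :: l''))) := rfl
      rw [h, del_sub, ih (fun l'' => φ (a :: l''))]
      abel

/-- the homotopy formula -/
theorem hmt_del (τ : Λ) (l : List Λ) (φ : List Λ → V) :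
    hmt τ l (fun l' => del l' φ) + del l (fun l' => hmt τ l' φ) = φ l := by
  induction l generalizing φ with
  | nil =>
      change (φ [] - 0) + 0 = φ []
      rw [sub_zero, add_zero]
  | cons a l ih =>
      have h1 : hmt τ (a :: l) (fun l' => del l' φ) =
          (φ (a :: l) - (φ ((a ⊓ τ) :: l) - del l (fun l' => φ ((a ⊓ τ) :: a :: l')))) -
            hmt τ l (fun l' => φ l' - del l' (fun l'' => φ ((a ⊓ τ) :: l''))) := rfl
      have h2 : del (a :: l) (fun l' => hmt τ l' φ) =
          hmt τ l φ - del l (fun l' => φ ((a ⊓ τ) :: a :: l') -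
            hmt τ l' (fun l'' => φ ((a ⊓ τ) :: l''))) := rfl
      have h3 := ih (fun l'' => φ ((a ⊓ τ) :: l''))
      rw [h1, h2, hmt_sub, del_sub, ← h3]
      abel

/-- the coboundary depends only on the values at strict chains -/
theorem del_congr {l : List Λ} (hl : Str l) {φ ψ : List Λ → V}
    (h : ∀ l', Str l' → hdT l ≤ hdT l' → φ l' = ψ l') : del l φ = del l ψ := by
  induction l generalizing φ ψ with
  | nil => rfl
  | cons a l ih =>
      rw [del, del, h l hl.2 hl.1.le]
      congr 1
      exact ih hl.2 fun l' h1 h2 => h (a :: l') ⟨lt_of_lt_of_le hl.1 h2, h1⟩ le_rfl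

/-- the homotopy depends only on the values at weak chains -/
theorem hmt_congr {τ : Λ} (hτ : τ ≠ ⊤) {l : List Λ} (hl : Str l) {φ ψ : List Λ → V}
    (h : ∀ l', Wk l' → hdT l ⊓ τ ≤ hdT l' → φ l' = ψ l') : hmt τ l φ = hmt τ l ψ := by
  induction l generalizing φ ψ with
  | nil => exact h [τ] ⟨le_top, hτ, trivial⟩ inf_le_right
  | cons a l ih =>
      have h0 : a ⊓ τ ≠ ⊤ := fun e => hτ (top_le_iff.1 (e ▸ inf_le_right))
      rw [hmt, hmt, h ((a ⊓ τ) :: a :: l) ⟨inf_le_left, h0, hl.wk⟩ le_rfl]
      congr 1
      exact ih hl.2 fun l' h1 h2 =>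
        h ((a ⊓ τ) :: l') ⟨le_trans (inf_le_inf_right τ hl.1.le) h2, h0, h1⟩ le_rfl

/-- the coboundary of a normalized cochain is normalized -/
theorem del_degenerate {l : List Λ} (hw : Wk l) (hs : ¬ Str l) {φ : List Λ → V}
    (hφ : ∀ l', ¬ Str l' → φ l' = 0) : del l φ = 0 := by
  induction l generalizing φ with
  | nil => rfl
  | cons a l ih =>
      cases l with
      | nil => exact absurd ⟨lt_of_le_of_ne le_top hw.2.1, trivial⟩ hs
      | cons b l =>
          by_cases hab : a = b
          · subst hab
            have h1 : del (a :: a :: l) φ =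
                φ (a :: l) - (φ (a :: l) - del l (fun l' => φ (a :: a :: l'))) := rfl
            have h2 : (fun l' => φ (a :: a :: l')) = fun _ => (0 : V) := by
              funext l'
              exact hφ _ fun h => lt_irrefl a h.1
            rw [h1, h2, del_zero]
            abel
          · have hlt : a < b := lt_of_le_of_ne hw.1 hab
            have hs' : ¬ Str (b :: l) := fun h => hs ⟨hlt, h⟩
            rw [del, hφ _ hs', ih hw.2.2 hs' fun l' h => hφ (a :: l') fun h' => h h'.2, sub_zero]

theorem del_mem {S : AddSubgroup V} (l : List Λ) {φ : List Λ → V} (h : ∀ l', φ l' ∈ S) :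
    del l φ ∈ S := by
  induction l generalizing φ with
  | nil => exact S.zero_mem
  | cons a l ih => exact S.sub_mem (h l) (ih fun l' => h _)

theorem hmt_mem {S : AddSubgroup V} (τ : Λ) (l : List Λ) {φ : List Λ → V} (h : ∀ l', φ l' ∈ S) :
    hmt τ l φ ∈ S := by
  induction l generalizing φ with
  | nil => exact h _
  | cons a l ih => exact S.sub_mem (h _) (ih fun l' => h _)

theorem del_length {l : List Λ} {φ : List Λ → V} (h : ∀ l', l'.length + 1 = l.length → φ l' = 0) :
    del l φ = 0 := by
  induction l generalizing φ with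
  | nil => rfl
  | cons a l ih =>
      rw [del, h l rfl, ih fun l' h' => h (a :: l') (by rw [List.length_cons, List.length_cons, h']),
        sub_zero]

theorem hmt_length {τ : Λ} {l : List Λ} {φ : List Λ → V}
    (h : ∀ l', l'.length = l.length + 1 → φ l' = 0) : hmt τ l φ = 0 := by
  induction l generalizing φ with
  | nil => exact h _ rfl
  | cons a l ih =>
      rw [hmt, h _ (by simp only [List.length_cons]),
        ih fun l' h' => h ((a ⊓ τ) :: l') (by rw [List.length_cons, List.length_cons, h']), sub_zero]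

end basic

section complex

variable {Λ : Type} [Lattice Λ] [OrderTop Λ] {R V : Type} [CommRing R] [AddCommGroup V] [Module R V]

open Classical in
/-- the coboundary -/
noncomputable def DD (Λ R V : Type) [Lattice Λ] [OrderTop Λ] [CommRing R] [AddCommGroup V]
    [Module R V] : (List Λ → V) →ₗ[R] (List Λ → V) where
  toFun φ l := if Str l then del l φ else 0
  map_add' φ ψ := by
    funext l
    change (if Str l then del l (fun l' => φ l' + ψ l') else 0) = _
    rw [del_add]
    by_cases h : Str l
    · simp only [if_pos h, Pi.add_apply]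
    · simp only [if_neg h, Pi.add_apply, add_zero]
  map_smul' r φ := by
    funext l
    change (if Str l then del l (fun l' => DistribSMul.toAddMonoidHom V r (φ l')) else 0) = _
    rw [del_map]
    by_cases h : Str l
    · simp only [if_pos h, Pi.smul_apply]
      rfl
    · simp only [if_neg h, Pi.smul_apply]
      exact (smul_zero r).symm

open Classical in
theorem DD_apply (φ : List Λ → V) (l : List Λ) :
    DD Λ R V φ l = if Str l then del l φ else 0 := rfl

theorem DD_str {φ : List Λ → V} {l : List Λ} (h : Str l) : DD Λ R V φ l = del l φ := if_pos h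

theorem DD_not {φ : List Λ → V} {l : List Λ} (h : ¬ Str l) : DD Λ R V φ l = 0 := if_neg h

theorem DD_DD (φ : List Λ → V) : DD Λ R V (DD Λ R V φ) = 0 := by
  funext l
  by_cases h : Str l
  · rw [DD_str h, del_congr h (ψ := fun l' => del l' φ) fun l' h' _ => DD_str h', del_del]
    rfl
  · rw [DD_not h]
    rfl

/-- the cochains of length `j` -/
def Cch (M : Λ → Submodule R V) (j : ℕ) : Submodule R (List Λ → V) where
  carrier := {φ | ∀ l, φ l ∈ M (hdT l) ∧ (¬ (Str l ∧ l.length = j) → φ l = 0)}
  add_mem' := fun {φ ψ} hφ hψ l => ⟨(M _).add_mem (hφ l).1 (hψ l).1, fun h => by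
    rw [Pi.add_apply, (hφ l).2 h, (hψ l).2 h, add_zero]⟩
  zero_mem' := fun l => ⟨(M _).zero_mem, fun _ => rfl⟩
  smul_mem' := fun r φ hφ l => ⟨(M _).smul_mem r (hφ l).1, fun h => by
    rw [Pi.smul_apply, (hφ l).2 h, smul_zero]⟩

theorem mem_Cch {M : Λ → Submodule R V} {j : ℕ} {φ : List Λ → V} :
    φ ∈ Cch M j ↔ ∀ l, φ l ∈ M (hdT l) ∧ (¬ (Str l ∧ l.length = j) → φ l = 0) := Iff.rfl

variable {M : Λ → Submodule R V}

theorem DD_mem (hM : Antitone M) {j : ℕ} {φ : List Λ → V} (hφ : φ ∈ Cch M j) :
    DD Λ R V φ ∈ Cch M (j + 1) := by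
  intro l
  by_cases h : Str l
  · rw [DD_str h]
    constructor
    · cases l with
      | nil => exact (M _).zero_mem
      | cons a l =>
          refine (M a).sub_mem (hM h.1.le (hφ l).1) ?_
          exact del_mem (S := (M a).toAddSubgroup) l fun l' => (hφ (a :: l')).1
    · intro hn
      refine del_length fun l' h' => (hφ l').2 fun h'' => hn ⟨h, ?_⟩
      rw [← h', h''.2]
  · rw [DD_not h]
    exact ⟨(M _).zero_mem, fun _ => rfl⟩

open Classical in
/-- the homotopy -/
noncomputable def HH (τ : Λ) (r : R) (φ : List Λ → V) : List Λ → V :=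
  fun l => if Str l then r • hmt τ l φ else 0

theorem HH_str {τ : Λ} {r : R} {φ : List Λ → V} {l : List Λ} (h : Str l) :
    HH τ r φ l = r • hmt τ l φ := if_pos h

theorem HH_not {τ : Λ} {r : R} {φ : List Λ → V} {l : List Λ} (h : ¬ Str l) :
    HH τ r φ l = 0 := if_neg h

theorem HH_mem {τ : Λ} {r : R} (hr : ∀ σ, ∀ v ∈ M (σ ⊓ τ), r • v ∈ M σ)
    {j : ℕ} {φ : List Λ → V} (hφ : φ ∈ Cch M (j + 1)) : HH τ r φ ∈ Cch M j := by
  intro l
  by_cases h : Str l
  · rw [HH_str h]
    constructor
    · apply hr
      cases l with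
      | nil =>
          have := (hφ [τ]).1
          rw [show hdT ([] : List Λ) ⊓ τ = τ from top_inf_eq τ]
          exact this
      | cons a l =>
          refine (M (a ⊓ τ)).sub_mem (hφ ((a ⊓ τ) :: a :: l)).1 ?_
          exact hmt_mem (S := (M (a ⊓ τ)).toAddSubgroup) τ l fun l' => (hφ ((a ⊓ τ) :: l')).1
    · intro hn
      have : hmt τ l φ = 0 := by
        refine hmt_length fun l' h' => (hφ l').2 fun h'' => hn ⟨h, ?_⟩
        have := h''.2
        omega
      rw [this, smul_zero]
  · rw [HH_not h]
    exact ⟨(M _).zero_mem, fun _ => rfl⟩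

/-- the homotopy formula for normalized cochains -/
theorem HH_formula {τ : Λ} (hτ : τ ≠ ⊤) (r : R) {j : ℕ} {φ : List Λ → V} (hφ : φ ∈ Cch M j) :
    HH τ r (DD Λ R V φ) + DD Λ R V (HH τ r φ) = r • φ := by
  have hn : ∀ l, ¬ Str l → φ l = 0 := fun l h => (hφ l).2 fun h' => h h'.1
  funext l
  rw [Pi.add_apply, Pi.smul_apply]
  by_cases h : Str l
  · rw [HH_str h, DD_str h]
    have h1 : hmt τ l (DD Λ R V φ) = hmt τ l (fun l' => del l' φ) := by
      refine hmt_congr hτ h fun l' hw _ => ?_
      by_cases hs : Str l'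
      · exact DD_str hs
      · rw [DD_not hs, del_degenerate hw hs hn]
    have h2 : del l (HH τ r φ) = del l (fun l' => r • hmt τ l' φ) :=
      del_congr h fun l' hs _ => HH_str hs
    have h3 : del l (fun l' => r • hmt τ l' φ) = r • del l (fun l' => hmt τ l' φ) :=
      del_map (DistribSMul.toAddMonoidHom V r) l fun l' => hmt τ l' φ
    rw [h1, h2, h3, ← smul_add, hmt_del]
  · rw [HH_not h, DD_not h, hn l h, smul_zero, add_zero]

end complex

end Pool.Agent.Lib.MP_463376_co
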