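import Pool.Agent.Lib.MP_463376_co.J_Chain

/-!
# MP_463376_co, stream J: the complex of cochains, finiteness and dimensions
-/

namespace Pool.Agent.Lib.MP_463376_co

section enum

variable (Λ : Type) [Lattice Λ] [OrderTop Λ] [Fintype Λ]

open Classical in
/-- the strict chains of length `j` below the top -/
noncomputable def chn : ℕ → Finset (List Λ)
  | 0 => {[]}
  | j + 1 => (chn j).biUnion fun l =>
      (Finset.univ.filter fun a => a < hdT l).image fun a => a :: l

variable {Λ}

open Classical in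
theorem mem_chn {j : ℕ} {l : List Λ} : l ∈ chn Λ j ↔ Str l ∧ l.length = j := by
  induction j generalizing l with
  | zero =>
      rw [chn, Finset.mem_singleton]
      constructor
      · rintro rfl
        exact ⟨trivial, rfl⟩
      · rintro ⟨-, h⟩
        exact List.length_eq_zero_iff.1 h
  | succ j ih =>
      rw [chn, Finset.mem_biUnion]
      constructor
      · rintro ⟨l', hl', h⟩
        obtain ⟨a, ha, rfl⟩ := Finset.mem_image.1 h
        obtain ⟨h1, h2⟩ := ih.1 hl'
        exact ⟨⟨(Finset.mem_filter.1 ha).2, h1⟩, by rw [List.length_cons, h2]⟩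
      · rintro ⟨h1, h2⟩
        cases l with
        | nil => exact absurd h2 (Nat.succ_ne_zero j).symm
        | cons a l =>
            refine ⟨l, ih.2 ⟨h1.2, Nat.succ.inj h2⟩, Finset.mem_image.2 ⟨a, ?_, rfl⟩⟩
            exact Finset.mem_filter.2 ⟨Finset.mem_univ a, h1.1⟩

open Classical in
/-- sum over the elements below -/
noncomputable def Ubel (f : Λ → ℤ) (π : Λ) : ℤ := ∑ a ∈ Finset.univ.filter (fun a => a < π), f a

open Classical in
theorem sum_chn_succ (f : Λ → ℤ) (j : ℕ) :
    ∑ l ∈ chn Λ (j + 1), f (hdT l) = ∑ l ∈ chn Λ j, Ubel f (hdT l) := by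
  rw [chn, Finset.sum_biUnion]
  · refine Finset.sum_congr rfl fun l _ => ?_
    rw [Finset.sum_image]
    · rfl
    · intro a _ b _ h
      exact (List.cons.inj h).1
  · intro l _ l' _ hne
    rw [Function.onFun, Finset.disjoint_left]
    intro x hx hx'
    obtain ⟨a, -, rfl⟩ := Finset.mem_image.1 hx
    obtain ⟨a', -, h⟩ := Finset.mem_image.1 hx'
    exact hne (List.cons.inj h).2.symm

theorem sum_chn (f : Λ → ℤ) (j : ℕ) : ∑ l ∈ chn Λ j, f (hdT l) = (Ubel^[j] f) ⊤ := by
  induction j generalizing f with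
  | zero =>
      rw [chn, Finset.sum_singleton]
      rfl
  | succ j ih => rw [sum_chn_succ, ih, Function.iterate_succ_apply]

open Classical in
theorem Ubel_iter_zero {c : Λ → ℕ} {m : ℕ} (hc : ∀ a b, a < b → c b < c a) (hm : ∀ a, c a ≤ m + 1)
    (f : Λ → ℤ) (j : ℕ) : ∀ π, m + 1 < c π + j → (Ubel^[j] f) π = 0 := by
  induction j with
  | zero =>
      intro π h
      have := hm π
      omega
  | succ j ih =>
      intro π h
      rw [Function.iterate_succ_apply']
      unfold Ubel
      refine Finset.sum_eq_zero fun a ha => ih a ?_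
      have := hc a π (Finset.mem_filter.1 ha).2
      omega

open Classical in
/-- the alternating sum over the chains, computed with a Moebius function -/
theorem alt_sum_chn {c : Λ → ℕ} {m : ℕ} (hc : ∀ a b, a < b → c b < c a) (hm : ∀ a, c a ≤ m + 1)
    (hc1 : ∀ a, 1 ≤ c a) (mo : Λ → ℤ)
    (hmo : ∀ σ, ∑ π ∈ Finset.univ.filter (fun π => σ ≤ π), mo π = if σ = ⊤ then 1 else 0)
    (f : Λ → ℤ) :
    ∑ j ∈ Finset.range (m + 1), (-1) ^ j * ∑ l ∈ chn Λ j, f (hdT l) = ∑ σ, mo σ * f σ := by
  have key : ∀ g : Λ → ℤ, ∑ σ, mo σ * g σ = g ⊤ - ∑ σ, mo σ * Ubel g σ := by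
    intro g
    have h1 : ∑ σ, mo σ * (g σ + Ubel g σ) = g ⊤ := by
      have h2 : ∀ σ, g σ + Ubel g σ = ∑ a ∈ Finset.univ.filter (fun a => a ≤ σ), g a := by
        intro σ
        unfold Ubel
        have h3 : Finset.univ.filter (fun a : Λ => a ≤ σ) =
            insert σ (Finset.univ.filter fun a => a < σ) := by
          ext a
          simp only [Finset.mem_filter, Finset.mem_univ, true_and, Finset.mem_insert]
          exact le_iff_eq_or_lt
        rw [h3, Finset.sum_insert]
        intro h
        exact lt_irrefl _ (Finset.mem_filter.1 h).2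
      simp only [h2, Finset.mul_sum]
      have h4 : ∑ σ, ∑ a ∈ Finset.univ.filter (fun a => a ≤ σ), mo σ * g a =
          ∑ a, ∑ σ ∈ Finset.univ.filter (fun σ => a ≤ σ), mo σ * g a := by
        rw [Finset.sum_comm']
        intro x y
        simp only [Finset.mem_univ, Finset.mem_filter, true_and, and_true]
      rw [h4]
      have h5 : ∀ a, ∑ σ ∈ Finset.univ.filter (fun σ => a ≤ σ), mo σ * g a =
          if a = ⊤ then g a else 0 := by
        intro a
        rw [← Finset.sum_mul, hmo a]
        split_ifs <;> simp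
      simp only [h5]
      rw [Finset.sum_ite_eq' Finset.univ ⊤ g, if_pos (Finset.mem_univ _)]
    have h6 : ∑ σ, mo σ * (g σ + Ubel g σ) = ∑ σ, mo σ * g σ + ∑ σ, mo σ * Ubel g σ := by
      rw [← Finset.sum_add_distrib]
      exact Finset.sum_congr rfl fun σ _ => mul_add _ _ _
    linarith
  have h2 : ∀ n : ℕ, ∑ σ, mo σ * f σ = ∑ j ∈ Finset.range n, (-1) ^ j * (Ubel^[j] f) ⊤ +
      (-1) ^ n * ∑ σ, mo σ * (Ubel^[n] f) σ := by
    intro n
    induction n with
    | zero => simp
    | succ n ih =>
        rw [ih, key (Ubel^[n] f), Finset.sum_range_succ, ← Function.iterate_succ_apply' Ubel n f]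
        ring
  rw [h2 (m + 1)]
  have h3 : ∑ σ, mo σ * (Ubel^[m + 1] f) σ = 0 := by
    refine Finset.sum_eq_zero fun σ _ => ?_
    rw [Ubel_iter_zero hc hm f (m + 1) σ (by have := hc1 σ; omega), mul_zero]
  rw [h3, mul_zero, add_zero]
  exact Finset.sum_congr rfl fun j _ => by rw [sum_chn]

theorem chn_empty {c : Λ → ℕ} {m : ℕ} (hc : ∀ a b, a < b → c b < c a) (hm : ∀ a, c a ≤ m + 1)
    (hc1 : ∀ a, 1 ≤ c a) : chn Λ (m + 1) = ∅ := by
  have h1 := sum_chn (fun _ : Λ => (1 : ℤ)) (m + 1)
  rw [Ubel_iter_zero hc hm _ (m + 1) ⊤ (by have := hc1 (⊤ : Λ); omega)] at h1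
  rw [Finset.sum_const, nsmul_eq_mul, mul_one] at h1
  exact Finset.card_eq_zero.1 (by exact_mod_cast h1)

end enum

section cx

variable {Λ : Type} [Lattice Λ] [OrderTop Λ] {R V : Type} [CommRing R] [AddCommGroup V] [Module R V]
  (M : Λ → Submodule R V)

open Classical in
/-- cochains as functions on the set of chains -/
noncomputable def cchEquiv [Fintype Λ] (j : ℕ) :
    Cch M j ≃ₗ[R] (∀ l : {l : List Λ // l ∈ chn Λ j}, M (hdT l.1)) where
  toFun φ l := ⟨φ.1 l.1, (φ.2 l.1).1⟩
  map_add' _ _ := rfl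
  map_smul' _ _ := rfl
  invFun g := ⟨fun l => if h : l ∈ chn Λ j then (g ⟨l, h⟩ : V) else 0, by
    intro l
    by_cases h : l ∈ chn Λ j
    · simp only [dif_pos h]
      exact ⟨(g ⟨l, h⟩).2, fun h' => absurd (mem_chn.1 h) h'⟩
    · simp only [dif_neg h]
      exact ⟨(M _).zero_mem, fun _ => trivial⟩⟩
  left_inv φ := by
    apply Subtype.ext
    funext l
    by_cases h : l ∈ chn Λ j
    · simp only [dif_pos h]
    · simp only [dif_neg h]
      exact ((φ.2 l).2 fun h' => h (mem_chn.2 h')).symm
  right_inv g := by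
    funext l
    apply Subtype.ext
    simp only [dif_pos l.2]

theorem cch_finite [Fintype Λ] (hfin : ∀ σ, Module.Finite R (M σ)) (j : ℕ) :
    Module.Finite R (Cch M j) := Module.Finite.equiv (cchEquiv M j).symm

theorem cch_projective [Fintype Λ] (hproj : ∀ σ, Module.Projective R (M σ)) (j : ℕ) :
    Module.Projective R (Cch M j) := by
  classical
  exact Module.Projective.of_equiv ((cchEquiv M j).trans
    (DFinsupp.linearEquivFunOnFintype (R := R)
      (M := fun l : {l : List Λ // l ∈ chn Λ j} => M (hdT l.1))).symm).symm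

/-- the coboundary on cochains of length `j` -/
noncomputable def dC (hM : Antitone M) (j : ℕ) : Cch M j →ₗ[R] Cch M (j + 1) :=
  (DD Λ R V).restrict fun _ hφ => DD_mem hM hφ

variable {M}

theorem dC_coe (hM : Antitone M) (j : ℕ) (φ : Cch M j) :
    (dC M hM j φ : List Λ → V) = DD Λ R V φ.1 := rfl

theorem dC_dC (hM : Antitone M) (j : ℕ) (φ : Cch M j) : dC M hM (j + 1) (dC M hM j φ) = 0 := by
  apply Subtype.ext
  exact DD_DD (R := R) φ.1

theorem mem_bdry_succ (hM : Antitone M) (j : ℕ) (φ : Cch M (j + 1)) :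
    φ ∈ bdry (dC M hM) (j + 1) ↔ ∃ ψ ∈ Cch M j, DD Λ R V ψ = φ.1 := by
  constructor
  · rintro ⟨ψ, hψ⟩
    exact ⟨ψ.1, ψ.2, congrArg Subtype.val hψ⟩
  · rintro ⟨ψ, hψ, h⟩
    exact ⟨⟨ψ, hψ⟩, Subtype.ext h⟩

theorem mem_bdry_zero (hM : Antitone M) (φ : Cch M 0) :
    φ ∈ bdry (dC M hM) 0 ↔ φ = 0 := Iff.rfl

theorem hmt_zero {Λ' V' : Type} [Lattice Λ'] [OrderTop Λ'] [AddCommGroup V'] (τ : Λ')
    (l : List Λ') : hmt τ l (0 : List Λ' → V') = 0 :=
  hmt_length fun _ _ => rfl

/-- an element which is good for `τ` kills the cohomology -/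
theorem killed (hM : Antitone M) {τ : Λ} (hτ : τ ≠ ⊤) {r : R}
    (hr : ∀ σ, ∀ v ∈ M (σ ⊓ τ), r • v ∈ M σ) (j : ℕ) (φ : Cch M j) (hφ : dC M hM j φ = 0) :
    r • φ ∈ bdry (dC M hM) j := by
  have h0 : DD Λ R V φ.1 = 0 := congrArg Subtype.val hφ
  have h1 := HH_formula hτ r φ.2
  have h2 : HH τ r (0 : List Λ → V) = 0 := by
    funext l
    by_cases h : Str l
    · rw [HH_str h, hmt_zero, smul_zero]
      rfl
    · rw [HH_not h]
      rfl
  rw [h0, h2, zero_add] at h1
  cases j with
  | zero =>
      rw [mem_bdry_zero]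
      apply Subtype.ext
      rw [Submodule.coe_smul, ← h1]
      have h3 : HH τ r φ.1 = 0 := by
        funext l
        by_cases h : Str l
        · rw [HH_str h, hmt_length fun l' h' => (φ.2 l').2 fun h'' => by
            have := h''.2
            omega, smul_zero]
          rfl
        · rw [HH_not h]
          rfl
      rw [h3, map_zero]
      rfl
  | succ j =>
      rw [mem_bdry_succ]
      exact ⟨HH τ r φ.1, HH_mem hr φ.2, h1⟩

end cx

/-- Euler characteristic of a complex which is exact in the degrees `< m` -/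
theorem euler (k : Type) [Field k] (C : ℕ → Type) [∀ j, AddCommGroup (C j)] [∀ j, Module k (C j)]
    [∀ j, FiniteDimensional k (C j)] (d : ∀ j, C j →ₗ[k] C (j + 1))
    (hd : ∀ j c, d (j + 1) (d j c) = 0) (m : ℕ)
    (hex : ∀ j < m, ∀ c, d j c = 0 → c ∈ bdry d j) :
    (Module.finrank k (C m) : ℤ) - Module.finrank k (bdry d m) =
      ∑ i ∈ Finset.range (m + 1), (-1) ^ (m + i) * (Module.finrank k (C i) : ℤ) := by
  induction m with
  | zero =>
      have h1 : Module.finrank k (bdry d 0) = 0 := finrank_bot k (C 0)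
      rw [h1]
      simp
  | succ m ih =>
      have h1 := ih fun j hj => hex j (by omega)
      have h2 : LinearMap.ker (d m) = bdry d m := by
        ext c
        rw [LinearMap.mem_ker]
        constructor
        · exact hex m (by omega) c
        · intro hc
          cases m with
          | zero =>
              have : c = 0 := hc
              rw [this, map_zero]
          | succ m =>
              obtain ⟨b, rfl⟩ := hc
              exact hd m b
      have h3 := LinearMap.finrank_range_add_finrank_ker (d m)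
      rw [h2] at h3
      have h4 : Module.finrank k (bdry d (m + 1)) = Module.finrank k (LinearMap.range (d m)) := rfl
      have h5 : (Module.finrank k (bdry d (m + 1)) : ℤ) =
          (Module.finrank k (C m) : ℤ) - Module.finrank k (bdry d m) := by
        rw [h4]
        have : (Module.finrank k (LinearMap.range (d m)) : ℤ) + Module.finrank k (bdry d m) =
          Module.finrank k (C m) := by exact_mod_cast h3
        linarith
      rw [h5, h1, Finset.sum_range_succ _ (m + 1)]
      have h6 : ∀ i, (-1 : ℤ) ^ (m + 1 + i) * (Module.finrank k (C i) : ℤ) =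
          -((-1) ^ (m + i) * (Module.finrank k (C i) : ℤ)) := by
        intro i
        rw [show m + 1 + i = (m + i) + 1 by ring, pow_succ]
        ring
      simp only [h6]
      rw [Finset.sum_neg_distrib]
      have h7 : (-1 : ℤ) ^ (m + (m + 1)) = -1 := by
        rw [show m + (m + 1) = 2 * m + 1 by ring, pow_succ, pow_mul]
        simp
      rw [h7]
      ring

end Pool.Agent.Lib.MP_463376_co
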