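import Mathlib

/-!
# MP_463376_co, stream J: definitions (graded systems of modules indexed by set partitions)
-/

namespace Pool.Agent.Lib.MP_463376_co

open MvPolynomial

/-- `k[z_1,...,z_m]` -/
abbrev SB (k : Type) [Field k] (m : ℕ) : Type := MvPolynomial (Fin m) k

/-- the coordinates `z_0 = 0, z_1, ..., z_m` -/
noncomputable def zeta (k : Type) [Field k] (m : ℕ) : Fin (m + 1) → SB k m :=
  Fin.cases 0 fun i => X i

open Classical in
/-- product of the differences `z_b - z_{b'}` with `b ~_σ b'`, not `b ~_π b'` -/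
noncomputable def crossH (k : Type) [Field k] {m : ℕ} (σ π : Setoid (Fin (m + 1))) : SB k m :=
  ∏ b, ∏ b', if σ b b' ∧ ¬ π b b' then zeta k m b - zeta k m b' else 1

/-- the Moebius number `μ(σ, 1) = (-1)^{c-1} (c-1)!`, `c` = number of classes -/
noncomputable def moeb {r : ℕ} (σ : Setoid (Fin r)) : ℤ :=
  (-1) ^ (Nat.card (Quotient σ) - 1) * ((Nat.card (Quotient σ) - 1).factorial : ℤ)

noncomputable instance instFintypeSetoidFin (r : ℕ) : Fintype (Setoid (Fin r)) := by
  classical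
  exact Fintype.ofInjective (fun s : Setoid (Fin r) => (fun a b => (s a b : Prop)))
    (fun s t h => Setoid.ext fun a b => by simpa using congrFun (congrFun h a) b)

/-- A graded system of free modules with group action, indexed by the set partitions of
`{0,...,m}` -/
structure GSys (k : Type) [Field k] (m : ℕ) (G : Type) [Group G] where
  V : Type
  [acg : AddCommGroup V]
  [modS : Module (SB k m) V]
  [modk : Module k V]
  [st : IsScalarTower k (SB k m) V]
  gr : ℕ × ℕ → Submodule k V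
  internal : DirectSum.IsInternal gr
  fd : ∀ d, FiniteDimensional k (gr d)
  X_mem : ∀ (i : Fin m) (d : ℕ × ℕ) (v : V), v ∈ gr d → (X i : SB k m) • v ∈ gr (d.1 + 1, d.2)
  act : G →* (Module.End (SB k m) V)
  act_gr : ∀ g d v, v ∈ gr d → act g v ∈ gr d
  M : Setoid (Fin (m + 1)) → Submodule (SB k m) V
  anti : Antitone M
  act_M : ∀ g σ v, v ∈ M σ → act g v ∈ M σ
  loc : ∀ π σ, π ≤ σ → ∃ N : ℕ, ∀ v ∈ M π, crossH k σ π ^ N • v ∈ M σ
  B : Setoid (Fin (m + 1)) → Type
  [fB : ∀ σ, Fintype (B σ)]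
  deg : ∀ σ, B σ → ℕ × ℕ
  b : ∀ σ, B σ → V
  b_gr : ∀ σ v, b σ v ∈ gr (deg σ v)
  b_span : ∀ σ, Submodule.span (SB k m) (Set.range (b σ)) = M σ
  b_indep : ∀ σ, LinearIndependent (SB k m) (b σ)
  ρ : ∀ σ, G → Matrix (B σ) (B σ) k
  act_b : ∀ σ g, ∃ a : B σ → B σ → SB k m, (∀ v, act g (b σ v) = ∑ v', a v' v • b σ v') ∧
    ∀ v' v, constantCoeff (a v' v) = ρ σ g v' v

attribute [instance] GSys.acg GSys.modS GSys.modk GSys.st GSys.fB

/-- bigraded character of `M_σ / (z)` -/
noncomputable def GSys.ch {k : Type} [Field k] {m : ℕ} {G : Type} [Group G] (S : GSys k m G)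
    (σ : Setoid (Fin (m + 1))) (g : G) : MvPolynomial (Fin 2) k :=
  ∑ v : S.B σ, C (S.ρ σ g v v) * (X 0 ^ (S.deg σ v).1 * X 1 ^ (S.deg σ v).2)

end Pool.Agent.Lib.MP_463376_co
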