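import Pool.Agent.Lib.MP_463376_co.J_Defs

/-!
# MP_463376_co, stream J: finite modules killed by powers of the variables
-/

namespace Pool.Agent.Lib.MP_463376_co

open MvPolynomial

/-- A quotient of `k[X_1,...,X_m]` in which every variable is nilpotent is finite over `k`. -/
private theorem fin_quotient (k : Type) [Field k] (m : ℕ) (K : ℕ) (I : Ideal (SB k m))
    (hI : ∀ i : Fin m, (X i : SB k m) ^ K ∈ I) : Module.Finite k (SB k m ⧸ I) := by
  have hint : ∀ p : SB k m, IsIntegral k (Ideal.Quotient.mk I p) := by
    intro p
    induction p using MvPolynomial.induction_on with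
    | C a =>
      have h : Ideal.Quotient.mk I (C a) = algebraMap k (SB k m ⧸ I) a := rfl
      rw [h]
      exact isIntegral_algebraMap
    | add p q hp hq =>
      rw [map_add]
      exact hp.add hq
    | mul_X p i hp =>
      rw [map_mul]
      refine hp.mul ?_
      rcases Nat.eq_zero_or_pos K with h0 | hpos
      · have h1 : Ideal.Quotient.mk I (X i) = 0 := by
          rw [Ideal.Quotient.eq_zero_iff_mem]
          have h2 := hI i
          rw [h0, pow_zero] at h2
          have h3 := I.mul_mem_left (X i) h2
          rwa [mul_one] at h3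
        rw [h1]
        exact isIntegral_zero
      · refine IsIntegral.of_pow hpos ?_
        rw [← map_pow, Ideal.Quotient.eq_zero_iff_mem.2 (hI i)]
        exact isIntegral_zero
  have : Algebra.IsIntegral k (SB k m ⧸ I) :=
    ⟨fun x => by
      obtain ⟨p, rfl⟩ := Ideal.Quotient.mk_surjective x
      exact hint p⟩
  exact Algebra.IsIntegral.finite

/-- `W` is spanned over `k` by the `X^α w`, `w` a generator and `α_i < K`. -/
theorem finite_of_killed (k : Type) [Field k] (m : ℕ) (W : Type) [AddCommGroup W]
    [Module (SB k m) W] [Module k W] [IsScalarTower k (SB k m) W] [Module.Finite (SB k m) W]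
    (K : ℕ) (hK : ∀ (i : Fin m) (w : W), (X i : SB k m) ^ K • w = 0) : Module.Finite k W := by
  set I : Ideal (SB k m) := Ideal.span (Set.range fun i : Fin m => (X i : SB k m) ^ K) with hIdef
  have hI : Module.IsTorsionBySet (SB k m) W (I : Set (SB k m)) := by
    rw [hIdef]
    refine (Module.isTorsionBySet_iff_is_torsion_by_span _).1 ?_
    rintro w ⟨_, i, rfl⟩
    exact hK i w
  let _ : Module (SB k m ⧸ I) W := hI.module
  have : IsScalarTower (SB k m) (SB k m ⧸ I) W := hI.isScalarTower
  have : IsScalarTower k (SB k m ⧸ I) W :=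
    ⟨fun a x w => by
      obtain ⟨p, rfl⟩ := Ideal.Quotient.mk_surjective x
      have h1 : a • (Ideal.Quotient.mk I p) = Ideal.Quotient.mk I (a • p) := rfl
      rw [h1]
      show (a • p) • w = a • (p • w)
      rw [smul_assoc]⟩
  have : Module.Finite (SB k m ⧸ I) W := Module.Finite.of_restrictScalars_finite (SB k m) _ _
  have : Module.Finite k (SB k m ⧸ I) :=
    fin_quotient k m K I fun i => Ideal.subset_span ⟨i, rfl⟩
  exact Module.Finite.trans (SB k m ⧸ I) W

end Pool.Agent.Lib.MP_463376_co
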