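import Pool.Agent.Lib.MP_463376_co.J_Defs

/-!
# MP_463376_co, stream J: trace on the graded pieces of a graded free module
-/

namespace Pool.Agent.Lib.MP_463376_co

open MvPolynomial

/-- monomials times a homogeneous element -/
theorem tr_monomial_mem (k : Type) [Field k] (m : ℕ) (V : Type) [AddCommGroup V]
    [Module (SB k m) V] [Module k V] [IsScalarTower k (SB k m) V]
    (gr : ℕ × ℕ → Submodule k V)
    (hX : ∀ (i : Fin m) (d : ℕ × ℕ) (v : V), v ∈ gr d → (X i : SB k m) • v ∈ gr (d.1 + 1, d.2))
    (α : Fin m →₀ ℕ) (t : k) (d : ℕ × ℕ) (v : V) (hv : v ∈ gr d) :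
    (monomial α t : SB k m) • v ∈ gr (d.1 + α.degree, d.2) := by
  induction α using Finsupp.induction_linear generalizing t d v with
  | zero =>
    have : (monomial (0 : Fin m →₀ ℕ) t : SB k m) = t • 1 := by
      rw [MvPolynomial.smul_eq_C_mul, mul_one]; rfl
    rw [this, smul_assoc, one_smul]
    simpa using (gr d).smul_mem t hv
  | add α β hα hβ =>
    have : (monomial (α + β) t : SB k m) = monomial β t * monomial α 1 := by
      rw [monomial_mul, mul_one, add_comm]
    rw [this, mul_smul]
    have h1 := hα 1 d v hv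
    have h2 := hβ t _ _ h1
    simp only [map_add] at h2 ⊢
    rwa [add_assoc] at h2
  | single i n =>
    induction n generalizing t d v with
    | zero =>
      have : (monomial (Finsupp.single i 0 : Fin m →₀ ℕ) t : SB k m) = t • 1 := by
        rw [Finsupp.single_zero, MvPolynomial.smul_eq_C_mul, mul_one]; rfl
      rw [this, smul_assoc, one_smul]
      simpa using (gr d).smul_mem t hv
    | succ n ih =>
      have : (monomial (Finsupp.single i (n + 1) : Fin m →₀ ℕ) t : SB k m) =
          monomial (Finsupp.single i n) t * X i := by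
        rw [X, monomial_mul, mul_one, ← Finsupp.single_add]
      rw [this, mul_smul]
      have h1 := hX i d v hv
      have h2 := ih t _ _ h1
      have e : d.1 + (Finsupp.single i (n + 1)).degree = d.1 + 1 + (Finsupp.single i n).degree := by
        simp; ring
      rw [e]
      exact h2

/-- The graded piece `W = gr (a, c) ⊓ span b` has the `k`-basis `X^α b_v`, `|α| + (deg v).1 = a`,
`(deg v).2 = c`; the number of monomials of degree `j` in `m` variables is `choose (j + m - 1) j`; the
coefficient of `X^α b_v` in `T (X^α b_v) = ∑ v', X^α A_{v' v} b_{v'}` is the constant coefficient of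
`A_{v v}`. -/
theorem j_trace_formula (k : Type) [Field k] (m : ℕ) (V : Type) [AddCommGroup V]
    [Module (SB k m) V] [Module k V] [IsScalarTower k (SB k m) V]
    (gr : ℕ × ℕ → Submodule k V) (hdec : DirectSum.IsInternal gr)
    (hX : ∀ (i : Fin m) (d : ℕ × ℕ) (v : V), v ∈ gr d → (X i : SB k m) • v ∈ gr (d.1 + 1, d.2))
    (B : Type) [Fintype B] (deg : B → ℕ × ℕ) (b : B → V) (hb : ∀ v, b v ∈ gr (deg v))
    (hli : LinearIndependent (SB k m) b) (T : V →ₗ[k] V) (A : B → B → SB k m)
    (hTS : ∀ (s : SB k m) (v : V), T (s • v) = s • T v)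
    (hA : ∀ v, T (b v) = ∑ v', A v' v • b v') (a c : ℕ)
    (hT : ∀ w ∈ gr (a, c) ⊓ (Submodule.span (SB k m) (Set.range b)).restrictScalars k,
      T w ∈ gr (a, c) ⊓ (Submodule.span (SB k m) (Set.range b)).restrictScalars k) :
    LinearMap.trace k ↥(gr (a, c) ⊓ (Submodule.span (SB k m) (Set.range b)).restrictScalars k)
      (T.restrict hT) =
      ∑ j ∈ Finset.range (a + 1), (Nat.choose (j + m - 1) j : k) *
        (∑ v : B, C (constantCoeff (A v v)) *
          (X 0 ^ (deg v).1 * X 1 ^ (deg v).2) : MvPolynomial (Fin 2) k).coeff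
            (Finsupp.single 0 (a - j) + Finsupp.single 1 c) := by
  classical
  set W := gr (a, c) ⊓ (Submodule.span (SB k m) (Set.range b)).restrictScalars k with hW
  -- coordinates
  have hcoord : ∀ w : W, ∃ s : B → SB k m, (w : V) = ∑ v, s v • b v := by
    intro w
    have hw : (w : V) ∈ Submodule.span (SB k m) (Set.range b) := w.2.2
    rw [Submodule.mem_span_range_iff_exists_fun] at hw
    obtain ⟨s, hs⟩ := hw
    exact ⟨s, hs.symm⟩
  -- the index set
  let I : Finset (B × (Fin m →₀ ℕ)) := (Finset.univ : Finset B).biUnion fun v =>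
    if (deg v).1 ≤ a ∧ (deg v).2 = c then
      ((Finset.univ : Finset (Fin m)).finsuppAntidiag (a - (deg v).1)).image (fun α => (v, α)) else ∅
  have hI : ∀ p : B × (Fin m →₀ ℕ), p ∈ I ↔ ((deg p.1).1 + p.2.degree = a ∧ (deg p.1).2 = c) := by
    rintro ⟨v, α⟩
    simp only [I, Finset.mem_biUnion, Finset.mem_univ, true_and]
    constructor
    · rintro ⟨v', hv'⟩
      split_ifs at hv' with hc
      · simp only [Finset.mem_image, Finset.mem_finsuppAntidiag, Prod.mk.injEq] at hv'
        obtain ⟨α', ⟨h1, _⟩, rfl, rfl⟩ := hv'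
        refine ⟨?_, hc.2⟩
        have : α'.degree = a - (deg v').1 := by rw [← h1, Finsupp.degree_eq_sum]
        omega
      · simp at hv'
    · rintro ⟨h1, h2⟩
      refine ⟨v, ?_⟩
      have h1' : (deg v).1 + α.degree = a := h1
      rw [if_pos ⟨by omega, h2⟩]
      simp only [Finset.mem_image, Finset.mem_finsuppAntidiag, Prod.mk.injEq]
      refine ⟨α, ⟨?_, by simp⟩, trivial, rfl⟩
      have h3 : α.degree = a - (deg v).1 := by omega
      rw [← h3, Finsupp.degree_eq_sum]
  -- the big family
  have hE : LinearIndependent k (fun p : B × (Fin m →₀ ℕ) => (monomial p.2 (1 : k) : SB k m) • b p.1) := by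
    have h1 := linearIndependent_smul (MvPolynomial.basisMonomials (Fin m) k).linearIndependent hli
    have h2 := h1.comp (fun p : B × (Fin m →₀ ℕ) => (p.2, p.1)) (by
      rintro ⟨x, y⟩ ⟨x', y'⟩ h
      simp only [Prod.mk.injEq] at h ⊢
      exact ⟨h.2, h.1⟩)
    have h3 : (fun p : B × (Fin m →₀ ℕ) => (monomial p.2 (1 : k) : SB k m) • b p.1) =
        ((fun p : (Fin m →₀ ℕ) × B => (MvPolynomial.basisMonomials (Fin m) k) p.1 • b p.2) ∘
          fun p => (p.2, p.1)) := by
      funext p
      simp [MvPolynomial.coe_basisMonomials]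
    rw [h3]
    exact h2
  have hEm : ∀ p : I, (monomial p.1.2 (1 : k) : SB k m) • b p.1.1 ∈ W := by
    intro p
    have hp := (hI p.1).mp p.2
    refine ⟨?_, ?_⟩
    · have := tr_monomial_mem k m V gr hX p.1.2 1 (deg p.1.1) (b p.1.1) (hb _)
      rwa [hp.1, hp.2] at this
    · exact Submodule.smul_mem _ _ (Submodule.subset_span (Set.mem_range_self p.1.1))
  let E : I → W := fun p => ⟨(monomial p.1.2 (1 : k) : SB k m) • b p.1.1, hEm p⟩
  have hEli : LinearIndependent k E := by
    apply LinearIndependent.of_comp W.subtype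
    exact hE.comp (fun p : I => p.1) Subtype.val_injective
  -- expansion of an element of the span
  have hexp : ∀ s : B → SB k m, ∑ v, s v • b v =
      ∑ v, ∑ α ∈ (s v).support, (s v).coeff α • ((monomial α (1 : k) : SB k m) • b v) := by
    intro s
    apply Finset.sum_congr rfl
    intro v _
    conv_lhs => rw [← MvPolynomial.support_sum_monomial_coeff (s v)]
    rw [Finset.sum_smul]
    apply Finset.sum_congr rfl
    intro α _
    rw [← smul_assoc]
    congr 1
    rw [MvPolynomial.smul_monomial, smul_eq_mul, mul_one]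
  -- projection to the degree `(a, c)`
  let dec := hdec.chooseDecomposition gr
  let π : V →ₗ[k] V := (gr (a, c)).subtype ∘ₗ (DirectSum.component k (ℕ × ℕ) (fun i => gr i) (a, c)) ∘ₗ
    (DirectSum.decomposeLinearEquiv gr).toLinearMap
  have hπ1 : ∀ x ∈ gr (a, c), π x = x := by
    intro x hx
    exact DirectSum.decompose_of_mem_same gr hx
  have hπ2 : ∀ d x, x ∈ gr d → d ≠ (a, c) → π x = 0 := by
    intro d x hx hd
    exact DirectSum.decompose_of_mem_ne gr hx hd
  have hπe : ∀ v α, π ((monomial α (1 : k) : SB k m) • b v) =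
      if (v, α) ∈ I then (monomial α (1 : k) : SB k m) • b v else 0 := by
    intro v α
    have h1 := tr_monomial_mem k m V gr hX α 1 (deg v) (b v) (hb _)
    split_ifs with h
    · have hp := (hI _).mp h
      simp only at hp
      rw [hp.1, hp.2] at h1
      exact hπ1 _ h1
    · apply hπ2 _ _ h1
      intro h2
      apply h
      rw [hI]
      simp only [Prod.mk.injEq] at h2
      exact h2
  have hrepr : ∀ s : B → SB k m, π (∑ v, s v • b v) =
      ∑ p ∈ I, (s p.1).coeff p.2 • ((monomial p.2 (1 : k) : SB k m) • b p.1) := by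
    intro s
    rw [hexp s, map_sum]
    let F : Finset (Fin m →₀ ℕ) := (Finset.univ.biUnion fun v => (s v).support) ∪ I.image Prod.snd
    have e1 : ∀ v, π (∑ α ∈ (s v).support, (s v).coeff α • ((monomial α (1 : k) : SB k m) • b v)) =
        ∑ α ∈ F, (if (v, α) ∈ I then (s v).coeff α • ((monomial α (1 : k) : SB k m) • b v) else 0) := by
      intro v
      rw [map_sum]
      have e2 : ∑ α ∈ (s v).support, π ((s v).coeff α • ((monomial α (1 : k) : SB k m) • b v)) =
          ∑ α ∈ (s v).support, (if (v, α) ∈ I then (s v).coeff α • ((monomial α (1 : k) : SB k m) • b v) else 0) := by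
        apply Finset.sum_congr rfl
        intro α _
        rw [map_smul, hπe]
        split_ifs <;> simp
      rw [e2]
      apply Finset.sum_subset
      · intro α hα
        exact Finset.mem_union_left _ (Finset.mem_biUnion.mpr ⟨v, Finset.mem_univ _, hα⟩)
      · intro α _ hα
        rw [MvPolynomial.notMem_support_iff] at hα
        rw [hα]
        simp
    rw [Finset.sum_congr rfl (fun v _ => e1 v)]
    rw [← Finset.sum_product' (Finset.univ : Finset B) F
      (fun v α => if (v, α) ∈ I then (s v).coeff α • ((monomial α (1 : k) : SB k m) • b v) else 0)]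
    rw [← Finset.sum_subset (s₁ := I)]
    · apply Finset.sum_congr rfl
      intro p hp
      rw [if_pos hp]
    · intro p hp
      rw [Finset.mem_product]
      exact ⟨Finset.mem_univ _, Finset.mem_union_right _ (Finset.mem_image_of_mem _ hp)⟩
    · intro p _ hp
      rw [if_neg hp]
  have hEspan : ⊤ ≤ Submodule.span k (Set.range E) := by
    intro w _
    obtain ⟨s, hs⟩ := hcoord w
    have h1 : (w : V) = ∑ p ∈ I, (s p.1).coeff p.2 • ((monomial p.2 (1 : k) : SB k m) • b p.1) := by
      rw [← hrepr s, ← hs]
      exact (hπ1 _ w.2.1).symm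
    have h2 : w = ∑ p : I, (s p.1.1).coeff p.1.2 • E p := by
      apply Subtype.ext
      rw [h1, Submodule.coe_sum]
      rw [← Finset.sum_coe_sort I]
      rfl
    rw [h2]
    exact Submodule.sum_mem _ fun p _ => Submodule.smul_mem _ _ (Submodule.subset_span ⟨p, rfl⟩)
  let bas : Module.Basis I k W := Module.Basis.mk hEli hEspan
  have hbas : ∀ p : I, (bas p : V) = (monomial p.1.2 (1 : k) : SB k m) • b p.1.1 := by
    intro p
    simp only [bas, Module.Basis.mk_apply]
    rfl
  rw [LinearMap.trace_eq_matrix_trace k bas, Matrix.trace]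
  have hdiag : ∀ p : I, Matrix.diag (LinearMap.toMatrix bas bas (T.restrict hT)) p =
      constantCoeff (A p.1.1 p.1.1) := by
    intro p
    rw [Matrix.diag_apply, LinearMap.toMatrix_apply]
    set w : W := (T.restrict hT) (bas p) with hw
    set r := bas.repr w with hr
    have h1 : (w : V) = ∑ q : I, r q • ((monomial q.1.2 (1 : k) : SB k m) • b q.1.1) := by
      conv_lhs => rw [← bas.sum_repr w]
      rw [Submodule.coe_sum]
      apply Finset.sum_congr rfl
      intro q _
      rw [Submodule.coe_smul, hbas q]
    have h2 : (w : V) = ∑ v', ((monomial p.1.2 (1 : k) : SB k m) * A v' p.1.1) • b v' := by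
      have hw' : (w : V) = T (bas p : V) := rfl
      rw [hw', hbas p, hTS, hA, Finset.smul_sum]
      apply Finset.sum_congr rfl
      intro v' _
      rw [mul_smul]
    let s1 : B → SB k m := fun v' => ∑ q : I, if q.1.1 = v' then monomial q.1.2 (r q) else 0
    have h3 : (w : V) = ∑ v', s1 v' • b v' := by
      rw [h1]
      simp only [s1, Finset.sum_smul]
      rw [Finset.sum_comm]
      apply Finset.sum_congr rfl
      intro q _
      rw [Finset.sum_eq_single q.1.1]
      · rw [if_pos rfl, ← smul_assoc, MvPolynomial.smul_monomial, smul_eq_mul, mul_one]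
      · intro v' _ hv'
        rw [if_neg (Ne.symm hv'), zero_smul]
      · intro h
        exact absurd (Finset.mem_univ _) h
    have h4 : ∀ v', s1 v' - (monomial p.1.2 (1 : k) : SB k m) * A v' p.1.1 = 0 := by
      apply Fintype.linearIndependent_iff.mp hli
      simp only [sub_smul, Finset.sum_sub_distrib]
      rw [← h3, ← h2, sub_self]
    have h5 := congrArg (coeff p.1.2) (sub_eq_zero.mp (h4 p.1.1))
    rw [show (monomial p.1.2 (1 : k) : SB k m) * A p.1.1 p.1.1 = monomial p.1.2 1 * A p.1.1 p.1.1 from rfl,
      MvPolynomial.coeff_monomial_mul'] at h5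
    simp only [le_refl, if_true, tsub_self, one_mul] at h5
    rw [MvPolynomial.constantCoeff_eq, ← h5]
    simp only [s1, MvPolynomial.coeff_sum]
    rw [Finset.sum_eq_single p]
    · rw [if_pos rfl, MvPolynomial.coeff_monomial, if_pos rfl]
    · intro q _ hq
      by_cases h6 : q.1.1 = p.1.1
      · rw [if_pos h6, MvPolynomial.coeff_monomial, if_neg]
        intro h7
        exact hq (Subtype.ext (Prod.ext h6 h7))
      · rw [if_neg h6, MvPolynomial.coeff_zero]
    · intro h
      exact absurd (Finset.mem_univ _) h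
  rw [Finset.sum_congr rfl (fun p _ => hdiag p)]
  rw [Finset.sum_coe_sort I (fun p => constantCoeff (A p.1 p.1))]
  have hL : ∑ p ∈ I, constantCoeff (A p.1 p.1) = ∑ v : B, if (deg v).1 ≤ a ∧ (deg v).2 = c then
      ((a - (deg v).1 + m - 1).choose (a - (deg v).1) : k) * constantCoeff (A v v) else 0 := by
    simp only [I]
    rw [Finset.sum_biUnion]
    · apply Finset.sum_congr rfl
      intro v _
      split_ifs with h
      · rw [Finset.sum_image (by
          intro x _ y _ hxy
          simpa using hxy)]
        simp only [Finset.sum_const, Finset.card_finsuppAntidiag_nat_eq_choose,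
          Finset.card_univ, Fintype.card_fin, nsmul_eq_mul]
        rw [add_comm m]
      · simp
    · intro v _ v' _ hvv'
      rw [Function.onFun, Finset.disjoint_left]
      intro p hp hp'
      split_ifs at hp hp'
      · simp only [Finset.mem_image] at hp hp'
        obtain ⟨α, _, rfl⟩ := hp
        obtain ⟨β, _, h⟩ := hp'
        exact hvv' (congrArg Prod.fst h).symm
      all_goals simp_all
  rw [hL]
  have hcoef : ∀ (v : B) (x y : ℕ), (C (constantCoeff (A v v)) * (X 0 ^ (deg v).1 * X 1 ^ (deg v).2) :
      MvPolynomial (Fin 2) k).coeff (Finsupp.single 0 x + Finsupp.single 1 y) =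
      if (deg v).1 = x ∧ (deg v).2 = y then constantCoeff (A v v) else 0 := by
    intro v x y
    rw [MvPolynomial.coeff_C_mul, MvPolynomial.X_pow_eq_monomial, MvPolynomial.X_pow_eq_monomial,
      MvPolynomial.monomial_mul, mul_one, MvPolynomial.coeff_monomial]
    by_cases h : (deg v).1 = x ∧ (deg v).2 = y
    · rw [if_pos h, if_pos (by rw [h.1, h.2]), mul_one]
    · rw [if_neg h, if_neg, mul_zero]
      intro h'
      apply h
      constructor
      · simpa using DFunLike.congr_fun h' 0
      · simpa using DFunLike.congr_fun h' 1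
  simp only [MvPolynomial.coeff_sum, hcoef, Finset.mul_sum]
  rw [Finset.sum_comm]
  apply Finset.sum_congr rfl
  intro v _
  split_ifs with h
  · rw [Finset.sum_eq_single (a - (deg v).1)]
    · rw [if_pos ⟨by omega, h.2⟩]
    · intro j hj hne
      rw [Finset.mem_range] at hj
      rw [if_neg, mul_zero]
      rintro ⟨h1, _⟩
      omega
    · intro h1
      exact absurd (Finset.mem_range.mpr (by omega)) h1
  · symm
    apply Finset.sum_eq_zero
    intro j hj
    rw [Finset.mem_range] at hj
    rw [if_neg, mul_zero]
    rintro ⟨h1, h2⟩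
    exact h ⟨by omega, h2⟩

end Pool.Agent.Lib.MP_463376_co
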