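import Pool.Agent.Lib.MP_463376_co.J_Pos
import Pool.Agent.Lib.MP_463376_co.J_Trace

/-!
# MP_463376_co, stream J: positivity for graded systems with group action
-/

namespace Pool.Agent.Lib.MP_463376_co

open MvPolynomial

section gsys

variable {m : ℕ} {G : Type} [Group G] [Fintype G] (S : GSys ℚ m G) (e : G → ℚ)

/-- the operator of the idempotent -/
noncomputable def gsys_E : Module.End (SB ℚ m) S.V := ∑ g, (C (e g) : SB ℚ m) • S.act g

theorem gsys_E_apply (v : S.V) : gsys_E S e v = ∑ g, (C (e g) : SB ℚ m) • S.act g v := by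
  simp [gsys_E, LinearMap.sum_apply]

omit [Fintype G] in
theorem gsys_C_smul (c : ℚ) (v : S.V) : (C c : SB ℚ m) • v = c • v := by
  have := algebraMap_smul (SB ℚ m) c v
  simpa [MvPolynomial.algebraMap_eq] using this

theorem gsys_E_idem (he : ∀ g, ∑ h, e h * e (h⁻¹ * g) = e g) (v : S.V) :
    gsys_E S e (gsys_E S e v) = gsys_E S e v := by
  rw [gsys_E_apply, gsys_E_apply]
  simp only [map_sum, map_smul, Finset.smul_sum, smul_smul]
  have h1 : ∀ g : G, ∑ h : G, ((C (e g) : SB ℚ m) * C (e h)) • (S.act g) ((S.act h) v) =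
      ∑ g' : G, (C (e g * e (g⁻¹ * g')) : SB ℚ m) • S.act g' v := by
    intro g
    refine Fintype.sum_equiv (Equiv.mulLeft g) _ _ fun h => ?_
    rw [Equiv.coe_mulLeft, inv_mul_cancel_left, map_mul (S.act), C_mul]
    rfl
  simp_rw [h1]
  rw [Finset.sum_comm]
  refine Finset.sum_congr rfl fun g _ => ?_
  rw [← Finset.sum_smul, ← map_sum, he]

theorem gsys_E_gr (d : ℕ × ℕ) (v : S.V) (hv : v ∈ S.gr d) : gsys_E S e v ∈ S.gr d := by
  rw [gsys_E_apply]
  refine Submodule.sum_mem _ fun g _ => ?_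
  rw [gsys_C_smul]
  exact Submodule.smul_mem _ _ (S.act_gr g d v hv)

theorem gsys_E_M (σ : Setoid (Fin (m + 1))) (v : S.V) (hv : v ∈ S.M σ) : gsys_E S e v ∈ S.M σ := by
  rw [gsys_E_apply]
  exact Submodule.sum_mem _ fun g _ => Submodule.smul_mem _ _ (S.act_M g σ v hv)

/-- the image of `M σ` -/
noncomputable def gsys_M (σ : Setoid (Fin (m + 1))) : Submodule (SB ℚ m) S.V :=
  (S.M σ).map (gsys_E S e)

theorem gsys_mem (he : ∀ g, ∑ h, e h * e (h⁻¹ * g) = e g) (σ : Setoid (Fin (m + 1))) (v : S.V) :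
    v ∈ gsys_M S e σ ↔ v ∈ S.M σ ∧ gsys_E S e v = v := by
  constructor
  · rintro ⟨w, hw, rfl⟩
    exact ⟨gsys_E_M S e σ w hw, gsys_E_idem S e he w⟩
  · rintro ⟨h1, h2⟩
    exact ⟨v, h1, h2⟩

omit [Fintype G] in
theorem gsys_hom0 (σ : Setoid (Fin (m + 1))) (v : S.V) (hv : v ∈ S.M σ) :
    v ∈ ⨆ d, S.gr d ⊓ (S.M σ).restrictScalars ℚ := by
  have hX : ∀ (i : Fin m) (u : S.V), u ∈ ⨆ d, S.gr d ⊓ (S.M σ).restrictScalars ℚ →
      (X i : SB ℚ m) • u ∈ ⨆ d, S.gr d ⊓ (S.M σ).restrictScalars ℚ := by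
    intro i u hu
    induction hu using Submodule.iSup_induction' with
    | mem d x hx =>
      refine Submodule.mem_iSup_of_mem (d.1 + 1, d.2) ⟨S.X_mem i d x hx.1, ?_⟩
      exact (S.M σ).smul_mem _ hx.2
    | zero => rw [smul_zero]; exact Submodule.zero_mem _
    | add x y _ _ hx hy => rw [smul_add]; exact Submodule.add_mem _ hx hy
  have hs : ∀ (s : SB ℚ m) (u : S.V), u ∈ ⨆ d, S.gr d ⊓ (S.M σ).restrictScalars ℚ →
      s • u ∈ ⨆ d, S.gr d ⊓ (S.M σ).restrictScalars ℚ := by
    intro s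
    induction s using MvPolynomial.induction_on with
    | C a =>
      intro u hu
      rw [gsys_C_smul]
      exact Submodule.smul_mem _ _ hu
    | add p q hp hq =>
      intro u hu
      rw [add_smul]
      exact Submodule.add_mem _ (hp u hu) (hq u hu)
    | mul_X p i hp =>
      intro u hu
      rw [mul_smul]
      exact hp _ (hX i u hu)
  rw [← S.b_span σ] at hv
  induction hv using Submodule.span_induction with
  | mem x hx =>
    obtain ⟨v, rfl⟩ := hx
    refine Submodule.mem_iSup_of_mem (S.deg σ v) ⟨S.b_gr σ v, ?_⟩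
    change S.b σ v ∈ S.M σ
    rw [← S.b_span σ]
    exact Submodule.subset_span ⟨v, rfl⟩
  | zero => exact Submodule.zero_mem _
  | add x y _ _ hx hy => exact Submodule.add_mem _ hx hy
  | smul s x _ hx => exact hs s x hx

theorem gsys_hom (he : ∀ g, ∑ h, e h * e (h⁻¹ * g) = e g) (σ : Setoid (Fin (m + 1))) :
    (gsys_M S e σ).restrictScalars ℚ = ⨆ d, S.gr d ⊓ (gsys_M S e σ).restrictScalars ℚ := by
  apply le_antisymm
  · intro v hv
    have hv' : v ∈ gsys_M S e σ := hv
    rw [gsys_mem S e he] at hv'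
    have h1 : ∀ u, u ∈ ⨆ d, S.gr d ⊓ (S.M σ).restrictScalars ℚ →
        gsys_E S e u ∈ ⨆ d, S.gr d ⊓ (gsys_M S e σ).restrictScalars ℚ := by
      intro u hu
      induction hu using Submodule.iSup_induction' with
      | mem d x hx =>
        refine Submodule.mem_iSup_of_mem d ⟨gsys_E_gr S e d x hx.1, ?_⟩
        exact ⟨x, hx.2, rfl⟩
      | zero => rw [map_zero]; exact Submodule.zero_mem _
      | add x y _ _ hx hy => rw [map_add]; exact Submodule.add_mem _ hx hy
    have := h1 v (gsys_hom0 S σ v hv'.1)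
    rwa [hv'.2] at this
  · exact iSup_le fun d => inf_le_right

omit [Fintype G] in
theorem gsys_finM (σ : Setoid (Fin (m + 1))) : (S.M σ).FG := by
  rw [← S.b_span σ]
  exact Submodule.fg_span (Set.finite_range _)

theorem gsys_fin (σ : Setoid (Fin (m + 1))) : Module.Finite (SB ℚ m) (gsys_M S e σ) :=
  Module.Finite.iff_fg.2 ((gsys_finM S σ).map _)

theorem gsys_proj (he : ∀ g, ∑ h, e h * e (h⁻¹ * g) = e g) (σ : Setoid (Fin (m + 1))) :
    Module.Projective (SB ℚ m) (gsys_M S e σ) := by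
  have hfree : Module.Projective (SB ℚ m) (S.M σ) := by
    rw [← S.b_span σ]
    exact Module.Projective.of_basis (Module.Basis.span (S.b_indep σ))
  have hle : gsys_M S e σ ≤ S.M σ := fun v hv => ((gsys_mem S e he σ v).1 hv).1
  let i : gsys_M S e σ →ₗ[SB ℚ m] S.M σ := Submodule.inclusion hle
  let s : S.M σ →ₗ[SB ℚ m] gsys_M S e σ :=
    (gsys_E S e).restrict (p := S.M σ) (q := gsys_M S e σ) (fun x hx => ⟨x, hx, rfl⟩)
  refine Module.Projective.of_split i s ?_
  refine LinearMap.ext fun x => Subtype.ext ?_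
  exact ((gsys_mem S e he σ x.1).1 x.2).2

/-- the Hilbert function of the image -/
theorem gsys_hilb (he : ∀ g, ∑ h, e h * e (h⁻¹ * g) = e g) (σ : Setoid (Fin (m + 1)))
    (a c : ℕ) :
    (Module.finrank ℚ ↥(S.gr (a, c) ⊓ (gsys_M S e σ).restrictScalars ℚ) : ℚ) =
      ∑ j ∈ Finset.range (a + 1), (Nat.choose (j + m - 1) j : ℚ) *
        (∑ g, C (e g) * S.ch σ g).coeff (Finsupp.single 0 (a - j) + Finsupp.single 1 c) := by
  choose aa haa hac using fun g => S.act_b σ g
  let T : S.V →ₗ[ℚ] S.V := (gsys_E S e).restrictScalars ℚ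
  let A : S.B σ → S.B σ → SB ℚ m := fun v' v => ∑ g, C (e g) * aa g v' v
  have hA : ∀ v, T (S.b σ v) = ∑ v', A v' v • S.b σ v' := by
    intro v
    change gsys_E S e (S.b σ v) = _
    rw [gsys_E_apply]
    simp_rw [haa, Finset.smul_sum, smul_smul]
    rw [Finset.sum_comm]
    refine Finset.sum_congr rfl fun v' _ => ?_
    rw [Finset.sum_smul]
  have hT : ∀ w ∈ S.gr (a, c) ⊓ (Submodule.span (SB ℚ m) (Set.range (S.b σ))).restrictScalars ℚ,
      T w ∈ S.gr (a, c) ⊓ (Submodule.span (SB ℚ m) (Set.range (S.b σ))).restrictScalars ℚ := by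
    intro w hw
    refine ⟨gsys_E_gr S e _ w hw.1, ?_⟩
    have h2 : w ∈ Submodule.span (SB ℚ m) (Set.range (S.b σ)) := hw.2
    change gsys_E S e w ∈ Submodule.span (SB ℚ m) (Set.range (S.b σ))
    rw [S.b_span σ] at h2 ⊢
    exact gsys_E_M S e σ w h2
  have key := j_trace_formula ℚ m S.V S.gr S.internal S.X_mem (S.B σ) (S.deg σ) (S.b σ) (S.b_gr σ)
    (S.b_indep σ) T A (fun s v => (gsys_E S e).map_smul s v) hA a c hT
  have hQ : (∑ v : S.B σ, C (constantCoeff (A v v)) *
          (X 0 ^ (S.deg σ v).1 * X 1 ^ (S.deg σ v).2) : MvPolynomial (Fin 2) ℚ) =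
      ∑ g, C (e g) * S.ch σ g := by
    unfold GSys.ch
    simp_rw [Finset.mul_sum]
    rw [Finset.sum_comm]
    refine Finset.sum_congr rfl fun v _ => ?_
    have : constantCoeff (A v v) = ∑ g, e g * S.ρ σ g v v := by
      simp only [A, map_sum, map_mul, constantCoeff_C, hac]
    rw [this, map_sum, Finset.sum_mul]
    refine Finset.sum_congr rfl fun g _ => ?_
    rw [C_mul, mul_assoc]
  rw [hQ] at key
  rw [← key]
  -- trace of the idempotent
  set W := S.gr (a, c) ⊓ (Submodule.span (SB ℚ m) (Set.range (S.b σ))).restrictScalars ℚ with hW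
  have := S.fd (a, c)
  have : FiniteDimensional ℚ W := Submodule.finiteDimensional_of_le (inf_le_left : W ≤ S.gr (a, c))
  let p : Submodule ℚ W := (S.gr (a, c) ⊓ (gsys_M S e σ).restrictScalars ℚ).comap W.subtype
  have hle : S.gr (a, c) ⊓ (gsys_M S e σ).restrictScalars ℚ ≤ W := by
    intro v hv
    refine ⟨hv.1, ?_⟩
    change v ∈ Submodule.span (SB ℚ m) (Set.range (S.b σ))
    rw [S.b_span σ]
    exact ((gsys_mem S e he σ v).1 hv.2).1
  have hproj : LinearMap.IsProj p (T.restrict hT) := by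
    constructor
    · intro x
      have hx := x.2
      refine ⟨gsys_E_gr S e _ x.1 hx.1, ?_⟩
      have h2 : x.1 ∈ Submodule.span (SB ℚ m) (Set.range (S.b σ)) := hx.2
      rw [S.b_span σ] at h2
      exact ⟨x.1, h2, rfl⟩
    · intro x hx
      apply Subtype.ext
      exact ((gsys_mem S e he σ x.1).1 hx.2).2
  rw [hproj.trace]
  have hfr : Module.finrank ℚ p = Module.finrank ℚ ↥(S.gr (a, c) ⊓ (gsys_M S e σ).restrictScalars ℚ) :=
    (Submodule.comapSubtypeEquivOfLe hle).finrank_eq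
  rw [hfr]

end gsys

/-- Let `E = ∑ g, e g • act g` (an idempotent of `Module.End (SB ℚ m) V`), `M' σ = M σ ⊓ {v | E v = v}`.
Apply `j_complex_positivity` to `M'`: homogeneous (a submodule spanned by homogeneous elements is
homogeneous, `E` preserves the grading), antitone, finite (noetherian), projective (direct summand of the
free module `M σ`, `Module.Projective.of_split`), `loc` is clear.  The Hilbert function: by
`j_trace_formula` the trace of `act g` on `gr (a, c) ⊓ M σ` is the coefficient sum of `S.ch σ g`, so the trace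
of `E` is that of `Q σ = ∑ g, C (e g) * S.ch σ g`; the trace of an idempotent is the dimension of its
range `gr (a, c) ⊓ M' σ` (`LinearMap.IsProj.trace`).  `hilb_int` gives integral `P σ` with
`map P σ = Q σ`. -/
theorem j_gsys_positivity {m : ℕ} {G : Type} [Group G] [Fintype G] (S : GSys ℚ m G)
    (e : G → ℚ) (he : ∀ g, ∑ h, e h * e (h⁻¹ * g) = e g) :
    ∃ p : MvPolynomial (Fin 2) ℕ,
      (-1) ^ m * ∑ σ, C (moeb σ : ℚ) * ∑ g, C (e g) * S.ch σ g =
        (1 - X 0) ^ m * MvPolynomial.map (Nat.castRingHom ℚ) p := by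
  have hint : ∀ σ, ∃ P : MvPolynomial (Fin 2) ℤ,
      MvPolynomial.map (Int.castRingHom ℚ) P = ∑ g, C (e g) * S.ch σ g := by
    intro σ
    refine hilb_int m _ (fun a c =>
      (Module.finrank ℚ ↥(S.gr (a, c) ⊓ (gsys_M S e σ).restrictScalars ℚ) : ℤ)) fun a c => ?_
    rw [← gsys_hilb S e he σ a c]
    push_cast
    rfl
  choose P hP using hint
  have hl : ∀ π σ : Setoid (Fin (m + 1)), π ≤ σ → ∃ N : ℕ, ∀ v ∈ gsys_M S e π,
      crossH ℚ σ π ^ N • v ∈ gsys_M S e σ := by
    intro π σ h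
    obtain ⟨N, hN⟩ := S.loc π σ h
    refine ⟨N, fun v hv => ?_⟩
    rw [gsys_mem S e he] at hv ⊢
    exact ⟨hN v hv.1, by rw [map_smul, hv.2]⟩
  have hh : ∀ (σ : Setoid (Fin (m + 1))) (a b : ℕ),
      (Module.finrank ℚ ↥(S.gr (a, b) ⊓ (gsys_M S e σ).restrictScalars ℚ) : ℤ) =
      ∑ j ∈ Finset.range (a + 1), (Nat.choose (j + m - 1) j : ℤ) *
        (P σ).coeff (Finsupp.single 0 (a - j) + Finsupp.single 1 b) := by
    intro σ a c
    have h1 := gsys_hilb S e he σ a c
    rw [← hP σ] at h1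
    simp only [MvPolynomial.coeff_map, eq_intCast] at h1
    exact_mod_cast h1
  obtain ⟨p, hp⟩ := j_complex_positivity ℚ m S.V S.gr S.internal S.fd S.X_mem (gsys_M S e)
    (gsys_hom S e he) (fun σ π h => Submodule.map_mono (S.anti h)) (gsys_fin S e)
    (gsys_proj S e he) hl P hh
  refine ⟨p, ?_⟩
  have h1 := congrArg (MvPolynomial.map (Int.castRingHom ℚ)) hp
  simp only [map_mul, map_pow, map_neg, map_one, map_sum, map_sub, MvPolynomial.map_X,
    MvPolynomial.map_C, hP] at h1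
  have hcomp : (Int.castRingHom ℚ).comp (Nat.castRingHom ℤ) = Nat.castRingHom ℚ :=
    Subsingleton.elim _ _
  rw [MvPolynomial.map_map, hcomp] at h1
  exact h1

end Pool.Agent.Lib.MP_463376_co
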