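import Mathlib

/-!
# MP_463376_co, stream J: Hilbert series and Hilbert functions
-/

namespace Pool.Agent.Lib.MP_463376_co

open MvPolynomial

theorem hilb_single (s : Fin 2 →₀ ℕ) : s = Finsupp.single 0 (s 0) + Finsupp.single 1 (s 1) := by
  ext i
  fin_cases i <;> simp

theorem hilb_ext {R : Type*} [CommSemiring R] {P Q : MvPolynomial (Fin 2) R}
    (h : ∀ a b : ℕ, P.coeff (Finsupp.single 0 a + Finsupp.single 1 b) =
      Q.coeff (Finsupp.single 0 a + Finsupp.single 1 b)) : P = Q := by
  ext s
  rw [hilb_single s]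
  exact h _ _

theorem hilb_coeff_zero (p : MvPolynomial (Fin 2) ℤ) (b : ℕ) :
    ((1 - X 0) * p).coeff (Finsupp.single 0 0 + Finsupp.single 1 b) =
      p.coeff (Finsupp.single 0 0 + Finsupp.single 1 b) := by
  rw [sub_mul, one_mul, coeff_sub, coeff_X_mul', if_neg, sub_zero]
  simp

theorem hilb_coeff_succ (p : MvPolynomial (Fin 2) ℤ) (a b : ℕ) :
    ((1 - X 0) * p).coeff (Finsupp.single 0 (a + 1) + Finsupp.single 1 b) =
      p.coeff (Finsupp.single 0 (a + 1) + Finsupp.single 1 b) -
      p.coeff (Finsupp.single 0 a + Finsupp.single 1 b) := by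
  rw [sub_mul, one_mul, coeff_sub, coeff_X_mul', if_pos]
  · congr 2
    ext i
    fin_cases i <;> simp
  · simp

/-- Induction on `m`: `(1 - X 0) * p` satisfies the hypothesis with `m - 1` (Pascal). -/
theorem hilb_inv (m : ℕ) (p Q : MvPolynomial (Fin 2) ℤ)
    (h : ∀ a b : ℕ, p.coeff (Finsupp.single 0 a + Finsupp.single 1 b) =
      ∑ j ∈ Finset.range (a + 1), (Nat.choose (j + m - 1) j : ℤ) *
        Q.coeff (Finsupp.single 0 (a - j) + Finsupp.single 1 b)) :
    Q = (1 - X 0) ^ m * p := by
  induction m generalizing p with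
  | zero =>
    rw [pow_zero, one_mul]
    apply hilb_ext
    intro a b
    rw [h a b, Finset.sum_range_succ']
    rw [Finset.sum_eq_zero]
    · simp
    · intro j _
      rw [Nat.choose_eq_zero_of_lt (by omega)]
      simp
  | succ m ih =>
    have h' := ih ((1 - X 0) * p) ?_
    · rw [h', pow_succ]; ring
    · intro a b
      cases a with
      | zero =>
        rw [hilb_coeff_zero, h 0 b]
        simp
      | succ a =>
        rw [hilb_coeff_succ, h (a + 1) b, h a b, Finset.sum_range_succ', Finset.sum_range_succ' _ (a + 1)]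
        have e : ∀ j ∈ Finset.range (a + 1),
            ((j + 1 + (m + 1) - 1).choose (j + 1) : ℤ) * Q.coeff (Finsupp.single 0 (a + 1 - (j + 1)) + Finsupp.single 1 b) =
            ((j + 1 + m - 1).choose (j + 1) : ℤ) * Q.coeff (Finsupp.single 0 (a + 1 - (j + 1)) + Finsupp.single 1 b) +
            ((j + (m + 1) - 1).choose j : ℤ) * Q.coeff (Finsupp.single 0 (a - j) + Finsupp.single 1 b) := by
          intro j _
          have e1 : j + 1 + (m + 1) - 1 = (j + m) + 1 := by omega
          have e2 : j + 1 + m - 1 = j + m := by omega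
          have e3 : j + (m + 1) - 1 = j + m := by omega
          have e4 : a + 1 - (j + 1) = a - j := by omega
          rw [e1, e2, e3, e4, Nat.choose_succ_succ]
          push_cast
          ring
        rw [Finset.sum_congr rfl e, Finset.sum_add_distrib]
        simp
        ring

/-- Integrality: induction on `a` (the term `j = 0` has the coefficient `1`). -/
theorem hilb_int (m : ℕ) (Q : MvPolynomial (Fin 2) ℚ) (f : ℕ → ℕ → ℤ)
    (h : ∀ a b : ℕ, (f a b : ℚ) = ∑ j ∈ Finset.range (a + 1), (Nat.choose (j + m - 1) j : ℚ) *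
        Q.coeff (Finsupp.single 0 (a - j) + Finsupp.single 1 b)) :
    ∃ P : MvPolynomial (Fin 2) ℤ, MvPolynomial.map (Int.castRingHom ℚ) P = Q := by
  have hz : ∀ a b : ℕ, ∃ z : ℤ, (z : ℚ) = Q.coeff (Finsupp.single 0 a + Finsupp.single 1 b) := by
    intro a
    induction a using Nat.strong_induction_on with
    | _ a ih =>
      intro b
      have h1 := h a b
      rw [Finset.sum_range_succ'] at h1
      have h2 : ∀ j : ℕ, ∃ z : ℤ, j ∈ Finset.range a →
          (z : ℚ) = Q.coeff (Finsupp.single 0 (a - (j + 1)) + Finsupp.single 1 b) := by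
        intro j
        by_cases hj : j ∈ Finset.range a
        · rw [Finset.mem_range] at hj
          obtain ⟨z, hz⟩ := ih (a - (j + 1)) (by omega) b
          exact ⟨z, fun _ => hz⟩
        · exact ⟨0, fun h => absurd h hj⟩
      choose z hz using h2
      refine ⟨f a b - ∑ j ∈ Finset.range a, ((j + 1 + m - 1).choose (j + 1) : ℤ) * z j, ?_⟩
      push_cast
      rw [h1]
      have e : ∑ j ∈ Finset.range a, ((j + 1 + m - 1).choose (j + 1) : ℚ) * (z j : ℚ) =
          ∑ j ∈ Finset.range a, ((j + 1 + m - 1).choose (j + 1) : ℚ) *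
            Q.coeff (Finsupp.single 0 (a - (j + 1)) + Finsupp.single 1 b) := by
        apply Finset.sum_congr rfl
        intro j hj
        rw [hz j hj]
      rw [e]
      simp
  have hz' : ∀ s : Fin 2 →₀ ℕ, ∃ z : ℤ, (z : ℚ) = Q.coeff s := by
    intro s
    rw [hilb_single s]
    exact hz _ _
  choose z hz'' using hz'
  refine ⟨∑ s ∈ Q.support, monomial s (z s), ?_⟩
  rw [map_sum]
  conv_rhs => rw [← MvPolynomial.support_sum_monomial_coeff Q]
  apply Finset.sum_congr rfl
  intro s _
  rw [map_monomial, ← hz'' s]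
  simp

end Pool.Agent.Lib.MP_463376_co
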