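import Pool.Agent.Lib.MP_463376_co.J_Defs

/-!
# MP_463376_co, stream J: Moebius function of the partition lattice
-/

namespace Pool.Agent.Lib.MP_463376_co

/-- Surjection `Quotient σ → Quotient π` which is not injective. -/
theorem card_quotient_lt {r : ℕ} {σ π : Setoid (Fin r)} (h : σ < π) :
    Nat.card (Quotient π) < Nat.card (Quotient σ) := by
  classical
  have hle : σ ≤ π := h.le
  let f : Quotient σ → Quotient π := Quotient.map' id (fun a b hab => hle hab)
  have hf : Function.Surjective f := by
    intro y
    obtain ⟨x, rfl⟩ := Quotient.exists_rep y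
    exact ⟨Quotient.mk σ x, rfl⟩
  have h1 : Nat.card (Quotient π) ≤ Nat.card (Quotient σ) :=
    Nat.card_le_card_of_surjective f hf
  refine lt_of_le_of_ne h1 fun h2 => ?_
  have h3 : Function.Injective f :=
    (Function.Surjective.bijective_of_nat_card_le hf h2.ge).1
  apply h.ne
  apply le_antisymm hle
  intro a b hab
  have h4 : f (Quotient.mk σ a) = f (Quotient.mk σ b) := Quotient.sound hab
  exact Quotient.exact (h3 h4)

/-- The maps with kernel exactly `π` are the embeddings of the quotient. -/
theorem moeb_card_ker {r : ℕ} (π : Setoid (Fin r)) (n : ℕ) :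
    Nat.card {f : Fin r → Fin n // Setoid.ker f = π} =
      n.descFactorial (Nat.card (Quotient π)) := by
  classical
  have e : {f : Fin r → Fin n // Setoid.ker f = π} ≃ (Quotient π ↪ Fin n) :=
    { toFun := fun f => ⟨Quotient.lift f.1 (fun a b hab => by
          have h : (Setoid.ker f.1) a b := by rw [f.2]; exact hab
          exact h), by
          intro x y hxy
          obtain ⟨a, rfl⟩ := Quotient.exists_rep x
          obtain ⟨b, rfl⟩ := Quotient.exists_rep y
          have h : (Setoid.ker f.1) a b := hxy
          rw [f.2] at h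
          exact Quotient.sound h⟩
      invFun := fun g => ⟨fun a => g (Quotient.mk π a), by
          apply Setoid.ext
          intro a b
          constructor
          · intro h
            exact Quotient.exact (g.injective h)
          · intro h
            exact congrArg g (Quotient.sound h)⟩
      left_inv := fun f => Subtype.ext (funext fun a => rfl)
      right_inv := fun g => by
        apply DFunLike.ext
        intro x
        obtain ⟨a, rfl⟩ := Quotient.exists_rep x
        rfl }
  rw [Nat.card_congr e, Nat.card_eq_fintype_card, Fintype.card_embedding_eq,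
    Fintype.card_fin, Nat.card_eq_fintype_card]

/-- The maps whose kernel contains `σ` are the maps on the quotient. -/
theorem moeb_card_le_ker {r : ℕ} (σ : Setoid (Fin r)) (n : ℕ) :
    Nat.card {f : Fin r → Fin n // σ ≤ Setoid.ker f} = n ^ (Nat.card (Quotient σ)) := by
  classical
  have e : {f : Fin r → Fin n // σ ≤ Setoid.ker f} ≃ (Quotient σ → Fin n) :=
    { toFun := fun f => Quotient.lift f.1 (fun a b hab => f.2 hab)
      invFun := fun g => ⟨fun a => g (Quotient.mk σ a), by
          intro a b h
          exact congrArg g (Quotient.sound h)⟩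
      left_inv := fun f => Subtype.ext (funext fun a => rfl)
      right_inv := fun g => by
        funext x
        obtain ⟨a, rfl⟩ := Quotient.exists_rep x
        rfl }
  rw [Nat.card_congr e, Nat.card_fun, Nat.card_eq_fintype_card, Fintype.card_fin]

open Classical in
theorem moeb_count {r : ℕ} (σ : Setoid (Fin r)) (n : ℕ) :
    ∑ π ∈ Finset.univ.filter (fun π : Setoid (Fin r) => σ ≤ π),
      n.descFactorial (Nat.card (Quotient π)) = n ^ (Nat.card (Quotient σ)) := by
  rw [← moeb_card_le_ker σ n]
  have h1 : Nat.card {f : Fin r → Fin n // σ ≤ Setoid.ker f} =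
      (Finset.univ.filter (fun f : Fin r → Fin n => σ ≤ Setoid.ker f)).card := by
    rw [Nat.card_eq_fintype_card, Fintype.card_subtype]
  rw [h1, Finset.card_eq_sum_card_fiberwise (f := fun f : Fin r → Fin n => Setoid.ker f)
    (t := Finset.univ.filter (fun π : Setoid (Fin r) => σ ≤ π))]
  · apply Finset.sum_congr rfl
    intro π hπ
    rw [← moeb_card_ker π n, Nat.card_eq_fintype_card, Fintype.card_subtype]
    congr 1
    ext f
    simp only [Finset.mem_filter, Finset.mem_univ, true_and]
    constructor
    · intro h
      refine ⟨?_, h⟩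
      rw [h]
      exact (Finset.mem_filter.1 hπ).2
    · exact fun h => h.2
  · intro f hf
    have h2 := Finset.mem_filter.1 (Finset.mem_coe.1 hf)
    exact Finset.mem_coe.2 (Finset.mem_filter.2 ⟨Finset.mem_univ _, h2.2⟩)

/-- Derivative of the falling factorial at `0`. -/
theorem moeb_deriv (c : ℕ) :
    (Polynomial.derivative (descPochhammer ℤ (c + 1))).eval 0 =
      (-1) ^ c * (c.factorial : ℤ) := by
  rw [descPochhammer_succ_left, Polynomial.derivative_mul, Polynomial.derivative_X, one_mul,
    Polynomial.eval_add, Polynomial.eval_mul, Polynomial.eval_X, zero_mul, add_zero,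
    Polynomial.eval_comp]
  have h := ascPochhammer_eval_neg_eq_descPochhammer ℤ (-1 : ℤ) c
  rw [neg_neg, ascPochhammer_eval_one] at h
  have h2 : (Polynomial.X - 1 : Polynomial ℤ).eval 0 = -1 := by simp
  rw [h2]
  have h3 : ((-1 : ℤ) ^ c) * (-1) ^ c = 1 := by
    rw [← mul_pow]; simp
  calc (descPochhammer ℤ c).eval (-1)
      = ((-1 : ℤ) ^ c * (-1) ^ c) * (descPochhammer ℤ c).eval (-1) := by rw [h3, one_mul]
    _ = (-1) ^ c * (c.factorial : ℤ) := by rw [h]; ring

theorem moeb_card_pos {r : ℕ} (σ : Setoid (Fin (r + 1))) : 0 < Nat.card (Quotient σ) := by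
  classical
  have : Nonempty (Quotient σ) := ⟨Quotient.mk σ 0⟩
  exact Nat.card_pos

theorem moeb_card_eq_one {r : ℕ} (σ : Setoid (Fin (r + 1))) :
    Nat.card (Quotient σ) = 1 ↔ σ = ⊤ := by
  classical
  rw [Nat.card_eq_one_iff_unique]
  constructor
  · rintro ⟨h, _⟩
    apply Setoid.ext
    intro a b
    constructor
    · intro _; trivial
    · intro _
      exact Quotient.exact (Subsingleton.elim (Quotient.mk σ a) (Quotient.mk σ b))
  · rintro rfl
    refine ⟨⟨fun x y => ?_⟩, ⟨Quotient.mk _ 0⟩⟩
    obtain ⟨a, rfl⟩ := Quotient.exists_rep x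
    obtain ⟨b, rfl⟩ := Quotient.exists_rep y
    exact Quotient.sound trivial

open Classical in
/-- For every finite type `α` (then applied to `α = Quotient σ`; the `π ≥ σ` correspond to the setoids on
`Quotient σ`, with the same number of classes, see `Setoid.correspondence`):
`∑_π (x)_{c(π)} = x^{|α|}` (falling factorials; count the maps `α → Fin x` by their kernels: the maps with
kernel `π` are the injections `Quotient π → Fin x`), an identity of polynomials in `x`
(`descPochhammer`).  Take the derivative at `x = 0`: `(x)_c' (0) = (-1)^{c-1} (c-1)!` for `c ≥ 1`. -/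
theorem sum_moeb {r : ℕ} (σ : Setoid (Fin (r + 1))) :
    ∑ π ∈ Finset.univ.filter (fun π : Setoid (Fin (r + 1)) => σ ≤ π), moeb π =
      if σ = ⊤ then 1 else 0 := by
  have hP : ∑ π ∈ Finset.univ.filter (fun π : Setoid (Fin (r + 1)) => σ ≤ π),
      descPochhammer ℤ (Nat.card (Quotient π)) =
      (Polynomial.X : Polynomial ℤ) ^ (Nat.card (Quotient σ)) := by
    apply Polynomial.eq_of_infinite_eval_eq
    apply Set.Infinite.mono (s := Set.range (fun n : ℕ => (n : ℤ)))
    · rintro _ ⟨n, rfl⟩
      change Polynomial.eval (n : ℤ) _ = Polynomial.eval (n : ℤ) _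
      rw [Polynomial.eval_finsetSum, Polynomial.eval_pow, Polynomial.eval_X]
      have h := moeb_count σ n
      have h2 : ((∑ π ∈ Finset.univ.filter (fun π : Setoid (Fin (r + 1)) => σ ≤ π),
        n.descFactorial (Nat.card (Quotient π)) : ℕ) : ℤ) =
          ((n ^ (Nat.card (Quotient σ)) : ℕ) : ℤ) := by rw [h]
      push_cast at h2
      rw [← h2]
      apply Finset.sum_congr rfl
      intro π _
      exact descPochhammer_eval_eq_descFactorial ℤ n _
    · exact Set.infinite_range_of_injective Nat.cast_injective
  have hD := congrArg (fun p => (Polynomial.derivative p).eval 0) hP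
  simp only [Polynomial.derivative_sum, Polynomial.eval_finsetSum] at hD
  have h1 : ∀ π : Setoid (Fin (r + 1)), moeb π =
      (Polynomial.derivative (descPochhammer ℤ (Nat.card (Quotient π)))).eval 0 := by
    intro π
    obtain ⟨c, hc⟩ := Nat.exists_eq_succ_of_ne_zero (moeb_card_pos π).ne'
    rw [moeb, hc, Nat.succ_eq_add_one, moeb_deriv, Nat.add_sub_cancel]
  rw [Finset.sum_congr rfl (fun π _ => h1 π), hD]
  rw [Polynomial.derivative_X_pow, Polynomial.eval_mul, Polynomial.eval_pow, Polynomial.eval_X,
    Polynomial.eval_C]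
  by_cases h : σ = ⊤
  · have h2 := (moeb_card_eq_one σ).2 h
    rw [if_pos h, h2]
    simp
  · have h2 : Nat.card (Quotient σ) ≠ 1 := fun h3 => h ((moeb_card_eq_one σ).1 h3)
    have h3 := moeb_card_pos σ
    have h4 : Nat.card (Quotient σ) - 1 ≠ 0 := by omega
    rw [if_neg h, zero_pow h4, mul_zero]

end Pool.Agent.Lib.MP_463376_co
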