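import Pool.Agent.Lib.MP_463376_co.J_Defs

/-!
# MP_463376_co, stream J: the variables are a weakly regular sequence on projective modules
-/

namespace Pool.Agent.Lib.MP_463376_co

open MvPolynomial RingTheory.Sequence

private lemma reg_take (k : Type) [Field k] (m i : ℕ) :
    Ideal.ofList ((((List.finRange m).map fun i => (X i : SB k m))).take i) =
      Ideal.span (MvPolynomial.X '' {j : Fin m | (j : ℕ) < i}) := by
  unfold Ideal.ofList
  congr 1
  ext f
  constructor
  · intro hf
    have hf' : f ∈ (((List.finRange m).map fun i => (X i : SB k m))).take i := hf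
    rw [List.mem_take_iff_getElem] at hf'
    obtain ⟨j, hj, rfl⟩ := hf'
    rw [lt_min_iff] at hj
    have hj2 : j < m := by simpa using hj.2
    refine ⟨⟨j, hj2⟩, hj.1, ?_⟩
    simp
  · rintro ⟨j, hj, rfl⟩
    show X j ∈ (((List.finRange m).map fun i => (X i : SB k m))).take i
    rw [List.mem_take_iff_getElem]
    refine ⟨j, ?_, ?_⟩
    · rw [lt_min_iff]
      exact ⟨hj, by simp⟩
    · simp

private lemma reg_mem (k : Type) [Field k] (m i : ℕ) (hi : i < m) (f : SB k m)
    (hf : (X ⟨i, hi⟩ : SB k m) * f ∈ Ideal.span (MvPolynomial.X '' {j : Fin m | (j : ℕ) < i})) :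
    f ∈ Ideal.span (MvPolynomial.X '' {j : Fin m | (j : ℕ) < i}) := by
  rw [mem_ideal_span_X_image] at hf ⊢
  intro d hd
  have h1 : Finsupp.single ⟨i, hi⟩ 1 + d ∈ ((X ⟨i, hi⟩ : SB k m) * f).support := by
    rw [mem_support_iff, coeff_X_mul]
    exact mem_support_iff.1 hd
  obtain ⟨j, hj, hjd⟩ := hf _ h1
  refine ⟨j, hj, ?_⟩
  have hj' : (j : ℕ) < i := hj
  have h2 : (⟨i, hi⟩ : Fin m) ≠ j := by
    intro h
    rw [← h] at hj'
    exact lt_irrefl _ hj'
  rw [Finsupp.add_apply, Finsupp.single_eq_of_ne' h2, zero_add] at hjd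
  exact hjd

private lemma reg_base (k : Type) [Field k] (m : ℕ) :
    IsWeaklyRegular (SB k m) ((List.finRange m).map fun i => (X i : SB k m)) := by
  constructor
  intro i hi
  have hi' : i < m := by simpa using hi
  rw [isSMulRegular_quotient_iff_mem_of_smul_mem]
  intro f hf
  rw [reg_take] at hf ⊢
  rw [smul_eq_mul, Ideal.mul_top] at hf ⊢
  have e : ((List.finRange m).map fun i => (X i : SB k m))[i] = X ⟨i, hi'⟩ := by simp
  rw [e] at hf
  exact reg_mem k m i hi' f hf

/-- For `W = S` itself: `S ⧸ (X_0, ..., X_{i-1})` is torsion free under `X_i` (a polynomial `f` is in the ideal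
of a set of variables iff each monomial of `f` contains one of these variables, see
`MvPolynomial.mem_ideal_span_X_image`).  Then for free modules, then for direct summands (or use
flatness, `Mathlib.RingTheory.Regular.Flat`, if it is there). -/
theorem weaklyRegular_vars (k : Type) [Field k] (m : ℕ) (W : Type) [AddCommGroup W]
    [Module (SB k m) W] [Module.Projective (SB k m) W] :
    IsWeaklyRegular W ((List.finRange m).map fun i => (X i : SB k m)) := by
  have h1 := (reg_base k m).isWeaklyRegular_lTensor (M₂ := W)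
  exact ((TensorProduct.rid (SB k m) W).isWeaklyRegular_congr _).1 h1

end Pool.Agent.Lib.MP_463376_co
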