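import Pool.Agent.Lib.MP_463376_co.J_Cx
import Pool.Agent.Lib.MP_463376_co.J_Reg
import Pool.Agent.Lib.MP_463376_co.J_Fin
import Pool.Agent.Lib.MP_463376_co.J_Moeb
import Pool.Agent.Lib.MP_463376_co.J_Hilb

/-!
# MP_463376_co, stream J: the complex on the partition lattice
-/

namespace Pool.Agent.Lib.MP_463376_co

open MvPolynomial

section proj

variable {k : Type} [Field k] {V : Type} [AddCommGroup V] [Module k V]
  {gr : ℕ × ℕ → Submodule k V} (hdec : DirectSum.IsInternal gr)

/-- the projection onto a graded piece -/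
noncomputable def prj (δ : ℕ × ℕ) : V →ₗ[k] V :=
  (gr δ).subtype ∘ₗ (DirectSum.component k (ℕ × ℕ) (fun i => gr i) δ) ∘ₗ
    (LinearEquiv.ofBijective (DirectSum.coeLinearMap gr) hdec).symm.toLinearMap

theorem prj_mem (δ : ℕ × ℕ) (v : V) : prj hdec δ v ∈ gr δ := Subtype.coe_prop _

theorem prj_apply {δ δ' : ℕ × ℕ} {v : V} (hv : v ∈ gr δ') :
    prj hdec δ v = if δ' = δ then v else 0 := by
  have h : (LinearEquiv.ofBijective (DirectSum.coeLinearMap gr) hdec).symm v =
      DirectSum.lof k (ℕ × ℕ) (fun i => gr i) δ' ⟨v, hv⟩ := by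
    rw [LinearEquiv.symm_apply_eq]
    exact (DirectSum.coeLinearMap_lof gr δ' ⟨v, hv⟩).symm
  change ((DirectSum.component k (ℕ × ℕ) (fun i => gr i) δ)
    ((LinearEquiv.ofBijective (DirectSum.coeLinearMap gr) hdec).symm v) : V) = _
  rw [h]
  by_cases hd : δ' = δ
  · subst hd
    rw [DirectSum.component.lof_self, if_pos rfl]
  · rw [if_neg hd, DirectSum.component.of, dif_neg hd]
    rfl

theorem prj_homog {A : Submodule k V} (hA : A = ⨆ d, gr d ⊓ A) (δ : ℕ × ℕ) {v : V} (hv : v ∈ A) :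
    prj hdec δ v ∈ A := by
  rw [hA] at hv
  refine Submodule.iSup_induction (fun d => gr d ⊓ A) (motive := fun v => prj hdec δ v ∈ A) hv
    ?_ ?_ ?_
  · intro d v hv
    rw [prj_apply hdec hv.1]
    split_ifs
    · exact hv.2
    · exact A.zero_mem
  · rw [map_zero]
    exact A.zero_mem
  · intro x y hx hy
    rw [map_add]
    exact A.add_mem hx hy

end proj

section main

variable {k : Type} [Field k] {m : ℕ} {V : Type} [AddCommGroup V]
  [Module (SB k m) V] [Module k V] [IsScalarTower k (SB k m) V]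

/-! ### The variables kill the cohomology -/

theorem crossH_dvd (σ τ : Setoid (Fin (m + 1))) : crossH k σ (σ ⊓ τ) ∣ crossH k ⊤ τ := by
  classical
  unfold crossH
  refine Finset.prod_dvd_prod_of_dvd _ _ fun b _ => Finset.prod_dvd_prod_of_dvd _ _ fun b' _ => ?_
  by_cases h : σ b b' ∧ ¬ (σ ⊓ τ) b b'
  · have h' : (⊤ : Setoid (Fin (m + 1))) b b' ∧ ¬ τ b b' :=
      ⟨trivial, fun h2 => h.2 ⟨h.1, h2⟩⟩
    rw [if_pos h, if_pos h']
  · rw [if_neg h]
    exact one_dvd _

theorem exists_pow_mem (N : Setoid (Fin (m + 1)) → ℕ) (I : Ideal (SB k m))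
    (hI : ∀ τ : Setoid (Fin (m + 1)), τ ≠ ⊤ → crossH k ⊤ τ ^ N τ ∈ I) (i : Fin m) :
    ∃ K : ℕ, (X i : SB k m) ^ K ∈ I := by
  classical
  have hrad : (X i : SB k m) ∈ I.radical := by
    rw [Ideal.radical_eq_sInf, Ideal.mem_sInf]
    rintro P ⟨hIP, hP⟩
    let τ : Setoid (Fin (m + 1)) :=
      { r := fun b b' => zeta k m b - zeta k m b' ∈ P
        iseqv := ⟨fun b => by rw [sub_self]; exact P.zero_mem,
          fun {b b'} h => by rw [← neg_sub]; exact P.neg_mem h,
          fun {a b c} h h' => by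
            have := P.add_mem h h'
            rwa [sub_add_sub_cancel] at this⟩ }
    by_cases hτ : τ = ⊤
    · have h1 : τ (Fin.succ i) 0 := by rw [hτ]; trivial
      have h2 : zeta k m (Fin.succ i) - zeta k m 0 ∈ P := h1
      have h3 : zeta k m (Fin.succ i) = X i := rfl
      have h4 : zeta k m 0 = 0 := rfl
      rwa [h3, h4, sub_zero] at h2
    · exfalso
      have h1 := hP.mem_of_pow_mem _ (hIP (hI τ hτ))
      unfold crossH at h1
      rw [hP.prod_mem_iff] at h1
      obtain ⟨b, -, h1⟩ := h1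
      rw [hP.prod_mem_iff] at h1
      obtain ⟨b', -, h1⟩ := h1
      split_ifs at h1 with hc
      · exact hc.2 h1
      · exact hP.ne_top ((Ideal.eq_top_iff_one P).2 h1)
  exact hrad

variable {M : Setoid (Fin (m + 1)) → Submodule (SB k m) V}

theorem exists_pow_kill (hanti : Antitone M)
    (hloc : ∀ π σ, π ≤ σ → ∃ N : ℕ, ∀ v ∈ M π, crossH k σ π ^ N • v ∈ M σ) (j : ℕ) (i : Fin m) :
    ∃ K : ℕ, ∀ c : Cch M j, dC M hanti j c = 0 →
      (X i : SB k m) ^ K • c ∈ bdry (dC M hanti) j := by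
  classical
  choose N hN using fun (τ σ : Setoid (Fin (m + 1))) => hloc (σ ⊓ τ) σ inf_le_left
  let I : Ideal (SB k m) :=
    { carrier := {r | ∀ c : Cch M j, dC M hanti j c = 0 → r • c ∈ bdry (dC M hanti) j}
      add_mem' := fun {r s} hr hs c hc => by
        rw [add_smul]
        exact Submodule.add_mem _ (hr c hc) (hs c hc)
      zero_mem' := fun c _ => by
        rw [zero_smul]
        exact Submodule.zero_mem _
      smul_mem' := fun r s hs c hc => by
        rw [smul_eq_mul, mul_smul]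
        exact Submodule.smul_mem _ _ (hs c hc) }
  obtain ⟨K, hK⟩ := exists_pow_mem (k := k) (m := m) (fun τ => ∑ σ, N τ σ) I (fun τ hτ c hc => by
    refine killed hanti hτ ?_ j c hc
    intro σ v hv
    obtain ⟨q, hq⟩ := crossH_dvd (k := k) σ τ
    have h1 : N τ σ ≤ ∑ σ, N τ σ :=
      Finset.single_le_sum (f := fun σ => N τ σ) (fun _ _ => Nat.zero_le _) (Finset.mem_univ σ)
    obtain ⟨e, he⟩ := Nat.exists_eq_add_of_le h1
    have h2 : crossH k ⊤ τ ^ (∑ σ, N τ σ) =
        (q ^ (∑ σ, N τ σ) * crossH k σ (σ ⊓ τ) ^ e) * crossH k σ (σ ⊓ τ) ^ N τ σ := by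
      rw [hq, mul_pow, he, pow_add (crossH k σ (σ ⊓ τ))]
      ring
    rw [h2, mul_smul]
    exact (M σ).smul_mem _ (hN τ σ v hv)) i
  exact ⟨K, hK⟩

/-! ### Graded pieces -/

/-- the graded piece of the system -/
noncomputable def Mgr (gr : ℕ × ℕ → Submodule k V) (M : Setoid (Fin (m + 1)) → Submodule (SB k m) V)
    (δ : ℕ × ℕ) (σ : Setoid (Fin (m + 1))) : Submodule k V := gr δ ⊓ (M σ).restrictScalars k

variable {gr : ℕ × ℕ → Submodule k V}

theorem Mgr_anti (hanti : Antitone M) (δ : ℕ × ℕ) : Antitone (Mgr gr M δ) :=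
  fun _ _ h => inf_le_inf_left _ fun _ hv => hanti h hv

/-- the graded piece of a cochain -/
noncomputable def PRc (hdec : DirectSum.IsInternal gr)
    (hhom : ∀ σ, (M σ).restrictScalars k = ⨆ d, gr d ⊓ (M σ).restrictScalars k)
    (δ : ℕ × ℕ) (j : ℕ) : Cch M j →ₗ[k] Cch (Mgr gr M δ) j where
  toFun c := ⟨fun l => prj hdec δ (c.1 l), fun l =>
    ⟨⟨prj_mem hdec δ _, prj_homog hdec (hhom _) δ (c.2 l).1⟩,
      fun h => by
        change prj hdec δ (c.1 l) = 0
        rw [(c.2 l).2 h, map_zero]⟩⟩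
  map_add' c c' := by
    apply Subtype.ext
    funext l
    exact map_add (prj hdec δ) _ _
  map_smul' r c := by
    apply Subtype.ext
    funext l
    exact map_smul (prj hdec δ) _ _

/-- inclusion of the graded cochains -/
noncomputable def inclc (δ : ℕ × ℕ) (j : ℕ) : Cch (Mgr gr M δ) j →ₗ[k] Cch M j where
  toFun c := ⟨c.1, fun l => ⟨(c.2 l).1.2, (c.2 l).2⟩⟩
  map_add' _ _ := rfl
  map_smul' _ _ := rfl

theorem PRc_incl (hdec : DirectSum.IsInternal gr)
    (hhom : ∀ σ, (M σ).restrictScalars k = ⨆ d, gr d ⊓ (M σ).restrictScalars k)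
    (δ : ℕ × ℕ) (j : ℕ) (c : Cch (Mgr gr M δ) j) : PRc hdec hhom δ j (inclc δ j c) = c := by
  apply Subtype.ext
  funext l
  change prj hdec δ (c.1 l) = c.1 l
  rw [prj_apply hdec (c.2 l).1.1, if_pos rfl]

theorem PRc_incl_ne (hdec : DirectSum.IsInternal gr)
    (hhom : ∀ σ, (M σ).restrictScalars k = ⨆ d, gr d ⊓ (M σ).restrictScalars k)
    {δ δ' : ℕ × ℕ} (hne : δ' ≠ δ) (j : ℕ) (c : Cch (Mgr gr M δ') j) :
    PRc hdec hhom δ j (inclc δ' j c) = 0 := by
  apply Subtype.ext
  funext l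
  change prj hdec δ (c.1 l) = 0
  rw [prj_apply hdec (c.2 l).1.1, if_neg hne]

theorem DD_prj (hdec : DirectSum.IsInternal gr) (δ : ℕ × ℕ)
    (φ : List (Setoid (Fin (m + 1))) → V) :
    DD (Setoid (Fin (m + 1))) k V (fun l => prj hdec δ (φ l)) =
      fun l => prj hdec δ (DD (Setoid (Fin (m + 1))) (SB k m) V φ l) := by
  funext l
  by_cases h : Str l
  · rw [DD_str h, DD_str h]
    exact del_map (prj hdec δ).toAddMonoidHom l φ
  · rw [DD_not h, DD_not h, map_zero]

theorem PRc_bdry (hanti : Antitone M) (hdec : DirectSum.IsInternal gr)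
    (hhom : ∀ σ, (M σ).restrictScalars k = ⨆ d, gr d ⊓ (M σ).restrictScalars k)
    (δ : ℕ × ℕ) (j : ℕ) (c : Cch M j) (hc : c ∈ bdry (dC M hanti) j) :
    PRc hdec hhom δ j c ∈ bdry (dC (Mgr gr M δ) (Mgr_anti hanti δ)) j := by
  cases j with
  | zero =>
      have h0 : c = 0 := hc
      rw [h0, map_zero]
      exact Submodule.zero_mem _
  | succ j =>
      obtain ⟨ψ, rfl⟩ := hc
      refine ⟨PRc hdec hhom δ j ψ, ?_⟩
      apply Subtype.ext
      exact DD_prj hdec δ ψ.1

theorem graded_exact (hanti : Antitone M) (hdec : DirectSum.IsInternal gr)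
    (hhom : ∀ σ, (M σ).restrictScalars k = ⨆ d, gr d ⊓ (M σ).restrictScalars k) (δ : ℕ × ℕ)
    (j : ℕ) (hex : ∀ c, dC M hanti j c = 0 → c ∈ bdry (dC M hanti) j)
    (c : Cch (Mgr gr M δ) j) (hc : dC (Mgr gr M δ) (Mgr_anti hanti δ) j c = 0) :
    c ∈ bdry (dC (Mgr gr M δ) (Mgr_anti hanti δ)) j := by
  have h0 : DD (Setoid (Fin (m + 1))) k V c.1 = 0 := congrArg Subtype.val hc
  have h1 : dC M hanti j (inclc δ j c) = 0 := Subtype.ext h0
  have h2 := PRc_bdry hanti hdec hhom δ j _ (hex _ h1)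
  rwa [PRc_incl] at h2

end main

/-- PART 11 (complex on the partition lattice). -/
theorem j_complex_positivity (k : Type) [Field k] (m : ℕ) (V : Type) [AddCommGroup V]
    [Module (SB k m) V] [Module k V] [IsScalarTower k (SB k m) V]
    (gr : ℕ × ℕ → Submodule k V) (hdec : DirectSum.IsInternal gr)
    (hfd : ∀ d, FiniteDimensional k (gr d))
    (hX : ∀ (i : Fin m) (d : ℕ × ℕ) (v : V), v ∈ gr d → (X i : SB k m) • v ∈ gr (d.1 + 1, d.2))
    (M : Setoid (Fin (m + 1)) → Submodule (SB k m) V)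
    (hhom : ∀ σ, (M σ).restrictScalars k = ⨆ d, gr d ⊓ (M σ).restrictScalars k)
    (hanti : Antitone M)
    (hfin : ∀ σ, Module.Finite (SB k m) (M σ)) (hproj : ∀ σ, Module.Projective (SB k m) (M σ))
    (hloc : ∀ π σ, π ≤ σ → ∃ N : ℕ, ∀ v ∈ M π, crossH k σ π ^ N • v ∈ M σ)
    (P : Setoid (Fin (m + 1)) → MvPolynomial (Fin 2) ℤ)
    (hP : ∀ σ (a b : ℕ), (Module.finrank k ↥(gr (a, b) ⊓ (M σ).restrictScalars k) : ℤ) =
      ∑ j ∈ Finset.range (a + 1), (Nat.choose (j + m - 1) j : ℤ) *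
        (P σ).coeff (Finsupp.single 0 (a - j) + Finsupp.single 1 b)) :
    ∃ p : MvPolynomial (Fin 2) ℕ,
      (-1) ^ m * ∑ σ, C (moeb σ) * P σ = (1 - X 0) ^ m * MvPolynomial.map (Nat.castRingHom ℤ) p := by
  classical
  -- numbers of classes
  have hc : ∀ a b : Setoid (Fin (m + 1)), a < b → Nat.card (Quotient b) < Nat.card (Quotient a) :=
    fun a b h => card_quotient_lt h
  have hm : ∀ a : Setoid (Fin (m + 1)), Nat.card (Quotient a) ≤ m + 1 := fun a => by
    have h1 := Nat.card_le_card_of_surjective (Quotient.mk a) Quotient.mk_surjective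
    have h2 : Nat.card (Fin (m + 1)) = m + 1 := by simp
    rwa [h2] at h1
  have hc1 : ∀ a : Setoid (Fin (m + 1)), 1 ≤ Nat.card (Quotient a) := fun a => moeb_card_pos a
  -- exactness
  have hlen : ((List.finRange m).map fun i => (X i : SB k m)).length = m := by
    rw [List.length_map, List.length_finRange]
  have hex : ∀ j < m, ∀ c, dC M hanti j c = 0 → c ∈ bdry (dC M hanti) j := by
    have h := acyclic ((List.finRange m).map fun i => (X i : SB k m)) (fun j => Cch M j)
      (dC M hanti) (fun j c => dC_dC hanti j c) (fun j => by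
        have := cch_projective M hproj j
        exact weaklyRegular_vars k m (Cch M j)) (fun j _ x hx => by
        obtain ⟨i, -, rfl⟩ := List.mem_map.1 hx
        exact exists_pow_kill hanti hloc j i)
    rw [hlen] at h
    exact h
  have hexg : ∀ δ : ℕ × ℕ, ∀ j < m, ∀ c, dC (Mgr gr M δ) (Mgr_anti hanti δ) j c = 0 →
      c ∈ bdry (dC (Mgr gr M δ) (Mgr_anti hanti δ)) j :=
    fun δ j hj c hc => graded_exact hanti hdec hhom δ j (hex j hj) c hc
  -- finite dimension
  have hfin' : ∀ (δ : ℕ × ℕ) (σ : Setoid (Fin (m + 1))), Module.Finite k (Mgr gr M δ σ) := by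
    intro δ σ
    have := hfd δ
    exact Submodule.finiteDimensional_of_le (inf_le_left : Mgr gr M δ σ ≤ gr δ)
  have hfinC : ∀ (δ : ℕ × ℕ) (j : ℕ), FiniteDimensional k (Cch (Mgr gr M δ) j) :=
    fun δ j => cch_finite (Mgr gr M δ) (hfin' δ) j
  -- the dimensions of the graded pieces of the cokernel
  let n : ℕ × ℕ → ℕ := fun δ => Module.finrank k (Cch (Mgr gr M δ) m) -
    Module.finrank k (bdry (dC (Mgr gr M δ) (Mgr_anti hanti δ)) m)
  have hn : ∀ δ, (n δ : ℤ) = (-1) ^ m * ∑ σ, moeb σ * (Module.finrank k (Mgr gr M δ σ) : ℤ) := by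
    intro δ
    have h1 := euler k (fun j => Cch (Mgr gr M δ) j) (dC (Mgr gr M δ) (Mgr_anti hanti δ))
      (fun j c => dC_dC _ j c) m (hexg δ)
    have h2 : Module.finrank k (bdry (dC (Mgr gr M δ) (Mgr_anti hanti δ)) m) ≤
      Module.finrank k (Cch (Mgr gr M δ) m) := Submodule.finrank_le _
    have h3 : (n δ : ℤ) = (Module.finrank k (Cch (Mgr gr M δ) m) : ℤ) -
        Module.finrank k (bdry (dC (Mgr gr M δ) (Mgr_anti hanti δ)) m) := by
      change ((Module.finrank k (Cch (Mgr gr M δ) m) -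
        Module.finrank k (bdry (dC (Mgr gr M δ) (Mgr_anti hanti δ)) m) : ℕ) : ℤ) = _
      rw [Nat.cast_sub h2]
    rw [h3, h1, ← alt_sum_chn hc hm hc1 moeb sum_moeb, Finset.mul_sum]
    refine Finset.sum_congr rfl fun i _ => ?_
    have h4 : Module.finrank k (Cch (Mgr gr M δ) i) =
        ∑ l ∈ chn (Setoid (Fin (m + 1))) i, Module.finrank k (Mgr gr M δ (hdT l)) := by
      rw [(cchEquiv (Mgr gr M δ) i).finrank_eq, Module.finrank_pi_fintype,
        ← Finset.sum_coe_sort (chn (Setoid (Fin (m + 1))) i)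
          (fun l => Module.finrank k (Mgr gr M δ (hdT l)))]
    rw [h4, pow_add]
    push_cast
    ring
  -- finitely many degrees
  have hT : {δ | n δ ≠ 0}.Finite := by
    have hchn := chn_empty hc hm hc1
    have htop : ∀ c : Cch M m, dC M hanti m c = 0 := by
      intro c
      apply Subtype.ext
      funext l
      refine ((dC M hanti m c).2 l).2 fun h => ?_
      have : l ∈ chn (Setoid (Fin (m + 1))) (m + 1) := mem_chn.2 h
      rw [hchn] at this
      exact absurd this (Finset.notMem_empty l)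
    have hCfin : Module.Finite (SB k m) (Cch M m) := cch_finite M hfin m
    choose K hK using fun i : Fin m => exists_pow_kill hanti hloc m i
    have hNfin : Module.Finite k (Cch M m ⧸ bdry (dC M hanti) m) := by
      refine finite_of_killed k m _ (∑ i, K i) fun i w => ?_
      obtain ⟨c, rfl⟩ := Submodule.Quotient.mk_surjective _ w
      obtain ⟨e, he⟩ := Nat.exists_eq_add_of_le
        (Finset.single_le_sum (f := K) (fun _ _ => Nat.zero_le _) (Finset.mem_univ i))
      have h9 : (X i : SB k m) ^ (∑ i, K i) = (X i : SB k m) ^ e * (X i : SB k m) ^ K i := by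
        rw [he, add_comm (K i) e, pow_add]
      rw [← Submodule.Quotient.mk_smul, Submodule.Quotient.mk_eq_zero, h9, mul_smul]
      exact Submodule.smul_mem _ _ (hK i c (htop c))
    have hch : ∀ δ : {δ | n δ ≠ 0}, ∃ φ : Cch (Mgr gr M δ.1) m,
        φ ∉ bdry (dC (Mgr gr M δ.1) (Mgr_anti hanti δ.1)) m := by
      rintro ⟨δ, hδ⟩
      by_contra hcon
      push Not at hcon
      have h1 : bdry (dC (Mgr gr M δ) (Mgr_anti hanti δ)) m = ⊤ :=
        (Submodule.eq_top_iff').2 hcon
      apply hδ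
      change Module.finrank k (Cch (Mgr gr M δ) m) -
        Module.finrank k (bdry (dC (Mgr gr M δ) (Mgr_anti hanti δ)) m) = 0
      rw [h1, finrank_top, Nat.sub_self]
    choose φ hφ using hch
    have hli : LinearIndependent k (fun δ : {δ | n δ ≠ 0} =>
        (Submodule.Quotient.mk (inclc δ.1 m (φ δ)) : Cch M m ⧸ bdry (dC M hanti) m)) := by
      rw [linearIndependent_iff']
      intro s g hg δ0 hδ0
      by_contra hne
      have h1 : (Submodule.Quotient.mk (∑ δ ∈ s, g δ • inclc δ.1 m (φ δ)) :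
          Cch M m ⧸ bdry (dC M hanti) m) = 0 := by
        rw [← hg]
        have h2 : ∀ t : Finset {δ | n δ ≠ 0},
            (Submodule.Quotient.mk (∑ δ ∈ t, g δ • inclc δ.1 m (φ δ)) :
              Cch M m ⧸ bdry (dC M hanti) m) =
            ∑ δ ∈ t, g δ • (Submodule.Quotient.mk (inclc δ.1 m (φ δ)) :
              Cch M m ⧸ bdry (dC M hanti) m) := by
          intro t
          induction t using Finset.induction_on with
          | empty =>
              rw [Finset.sum_empty, Finset.sum_empty]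
              rfl
          | insert a t ha ih =>
              rw [Finset.sum_insert ha, Finset.sum_insert ha, Submodule.Quotient.mk_add, ih]
              rfl
        exact h2 s
      rw [Submodule.Quotient.mk_eq_zero] at h1
      have h3 := PRc_bdry hanti hdec hhom δ0.1 m _ h1
      rw [map_sum] at h3
      have h4 : ∑ δ ∈ s, PRc hdec hhom δ0.1 m (g δ • inclc δ.1 m (φ δ)) = g δ0 • φ δ0 := by
        rw [Finset.sum_eq_single_of_mem δ0 hδ0]
        · rw [map_smul, PRc_incl]
        · intro δ _ hδ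
          rw [map_smul, PRc_incl_ne hdec hhom (fun e => hδ (Subtype.ext e)), smul_zero]
      rw [h4] at h3
      have h5 := Submodule.smul_mem _ (g δ0)⁻¹ h3
      rw [smul_smul, inv_mul_cancel₀ hne, one_smul] at h5
      exact hφ δ0 h5
    have := hli.finite_of_isNoetherian
    exact Set.toFinite _
  -- the polynomial
  let p : MvPolynomial (Fin 2) ℕ := ∑ δ ∈ hT.toFinset,
    monomial (Finsupp.single 0 δ.1 + Finsupp.single 1 δ.2) (n δ)
  have hinj : ∀ δ δ' : ℕ × ℕ, (Finsupp.single (0 : Fin 2) δ.1 + Finsupp.single 1 δ.2 =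
      Finsupp.single 0 δ'.1 + Finsupp.single 1 δ'.2) → δ = δ' := by
    intro δ δ' h
    have h0 := DFunLike.congr_fun h 0
    have h1 := DFunLike.congr_fun h 1
    simp at h0 h1
    exact Prod.ext h0 h1
  have hp : ∀ a b : ℕ, p.coeff (Finsupp.single 0 a + Finsupp.single 1 b) = n (a, b) := by
    intro a b
    change coeff _ (∑ δ ∈ hT.toFinset, _) = _
    rw [coeff_sum]
    simp only [coeff_monomial]
    by_cases hab : (a, b) ∈ hT.toFinset
    · rw [Finset.sum_eq_single_of_mem (a, b) hab]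
      · rw [if_pos rfl]
      · intro δ _ hδ
        rw [if_neg fun e => hδ (hinj δ (a, b) e)]
    · rw [Finset.sum_eq_zero]
      · rw [Set.Finite.mem_toFinset] at hab
        by_contra hne
        exact hab fun e => hne e.symm
      · intro δ hδ
        rw [if_neg]
        intro e
        exact hab (hinj δ (a, b) e ▸ hδ)
  refine ⟨p, hilb_inv m _ _ fun a b => ?_⟩
  rw [coeff_map, hp a b]
  change ((n (a, b) : ℕ) : ℤ) = _
  rw [hn (a, b)]
  have hQ : ∀ s, ((-1) ^ m * ∑ σ, C (moeb σ) * P σ : MvPolynomial (Fin 2) ℤ).coeff s =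
      (-1) ^ m * ∑ σ, moeb σ * (P σ).coeff s := by
    intro s
    have h1 : ((-1) ^ m : MvPolynomial (Fin 2) ℤ) = C ((-1) ^ m) := by
      rw [map_pow, map_neg, map_one]
    rw [h1, coeff_C_mul, coeff_sum]
    simp only [coeff_C_mul]
  simp only [hQ]
  have h2 : ∀ σ, (Module.finrank k (Mgr gr M (a, b) σ) : ℤ) =
      ∑ j ∈ Finset.range (a + 1), (Nat.choose (j + m - 1) j : ℤ) *
        (P σ).coeff (Finsupp.single 0 (a - j) + Finsupp.single 1 b) := fun σ => hP σ a b
  simp only [h2, Finset.mul_sum]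
  rw [Finset.sum_comm]
  refine Finset.sum_congr rfl fun j _ => Finset.sum_congr rfl fun σ _ => ?_
  ring

end Pool.Agent.Lib.MP_463376_co
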