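import Pool.Agent.Lib.MP_463376_co.P4f

/-!
Part 4 (homological toolkit): final statements for regular local rings.

* `regular_isDomain`, `regular_pd`: a regular local ring is a domain and all its finite modules have
  finite projective dimension.
* `regular_of_span`, `regular_of_cotangent`: criteria for regularity.
* `exists_height_one_prime_regular` (T3): for `x ∈ Frac A - A` some `a` has
  `{b | b a x ∈ A}` a prime of height one.
* `machine_regular` (Theorem 4).
-/

open CategoryTheory Abelian IsLocalRing Module RingTheory.Sequence Limits Pointwise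

universe u

namespace MP463376.P4

theorem exists_dim (A : Type u) [CommRing A] [IsRegularLocalRing A] :
    ∃ d : ℕ, ringKrullDim A = ((d : ℕ) : WithBot ℕ∞) :=
  ⟨_, (IsRegularLocalRing.spanFinrank_maximalIdeal (R := A)).symm⟩

theorem regular_isDomain (A : Type u) [CommRing A] [IsRegularLocalRing A] : IsDomain A := by
  obtain ⟨d, hd⟩ := exists_dim A
  exact (regular_main d A hd).1

theorem regular_pd (A : Type u) [CommRing A] [IsRegularLocalRing A] (M : Type u) [AddCommGroup M]
    [Module A M] [Module.Finite A M] : ∃ k, HasProjectiveDimensionLE (ModuleCat.of A M) k := by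
  obtain ⟨d, hd⟩ := exists_dim A
  exact ⟨d, (regular_main d A hd).2 M⟩

/-- `A` is regular if its maximal ideal is generated by at most `height` elements. -/
theorem regular_of_span (A : Type u) [CommRing A] [IsLocalRing A] [IsNoetherianRing A]
    (t : Finset A) (ht : Ideal.span (t : Set A) = maximalIdeal A)
    (h : (t.card : ℕ∞) ≤ (maximalIdeal A).height) : IsRegularLocalRing A := by
  apply IsRegularLocalRing.of_spanFinrank_maximalIdeal_le
  rw [← maximalIdeal_height_eq_ringKrullDim]
  have h1 : (maximalIdeal A).spanFinrank ≤ t.card := by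
    rw [← ht]
    refine (Submodule.spanFinrank_span_le_ncard_of_finite t.finite_toSet).trans ?_
    rw [Set.ncard_coe_finset]
  have h2 : ((maximalIdeal A).spanFinrank : ℕ∞) ≤ (maximalIdeal A).height :=
    le_trans (by exact_mod_cast h1) h
  exact_mod_cast h2

/-- `A` is regular if its cotangent space is spanned by at most `height` elements. -/
theorem regular_of_cotangent (A : Type u) [CommRing A] [IsLocalRing A] [IsNoetherianRing A]
    (t : Finset A) (htm : ∀ x ∈ t, x ∈ maximalIdeal A)
    (ht : maximalIdeal A ≤ Ideal.span (t : Set A) ⊔ (maximalIdeal A) ^ 2)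
    (h : (t.card : ℕ∞) ≤ (maximalIdeal A).height) : IsRegularLocalRing A := by
  refine regular_of_span A t ?_ h
  apply le_antisymm
  · rw [Ideal.span_le]
    exact htm
  · refine Submodule.le_of_le_smul_of_le_jacobson_bot (I := maximalIdeal A)
      (maximalIdeal A).fg_of_isNoetherianRing ?_ ?_
    · rw [IsLocalRing.jacobson_eq_maximalIdeal _ bot_ne_top]
    · rw [smul_eq_mul, ← pow_two]
      exact ht

/-- (T3) -/
theorem exists_height_one_prime_regular {A : Type u} [CommRing A] [IsRegularLocalRing A]
    {K : Type*} [Field K] [Algebra A K] [IsFractionRing A K] (x : K)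
    (hx : x ∉ (algebraMap A K).range) :
    ∃ a : A, ∃ q : Ideal A, q.IsPrime ∧ q.height = 1 ∧
      ∀ b, b ∈ q ↔ algebraMap A K (b * a) * x ∈ (algebraMap A K).range := by
  have := regular_isDomain A
  exact exists_height_one_prime (fun p _ => exists_pd_localization (fun M _ _ _ => regular_pd A M)
    p.primeCompl _) x hx

/-- **Theorem 4** for a regular local ring. -/
theorem machine_regular {A C : Type u} [CommRing A] [IsRegularLocalRing A] [CommRing C]
    [Algebra A C] [Module.Finite A C] (e : C ≃ₗ[A] Module.Dual A C) (n : ℕ)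
    (H : ∀ p ∈ (nonfree A C).minimalPrimes, ∃ s ≤ n, p.height ≤ (2 * (n - s) : ℕ) ∧
      ∀ Q : Ideal C, Q.IsPrime → Q.comap (algebraMap A C) = p →
        ∃ rs : List C, rs.length = n - s ∧ (∀ r ∈ rs, r ∈ Q) ∧ IsWeaklyRegular C rs ∧
          (Q ∈ associatedPrimes C (C ⧸ (Ideal.ofList rs • ⊤ : Submodule C C)) →
            p.height ≤ (n - s : ℕ))) :
    Module.Free A C :=
  machine (fun M _ _ _ => regular_pd A M) e n H

end MP463376.P4
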