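import Mathlib

/-!
Part 4 (homological toolkit), file a: elementary facts on Ext.
-/

open CategoryTheory Abelian IsLocalRing Module RingTheory.Sequence Limits Pointwise

universe u

namespace MP463376.P4

variable {R : Type u} [CommRing R]

/-- If `r` kills `N` and is regular on `M` and `Ext^i(N, M/rM) = 0` for `i < g` then
`Ext^i(N, M) = 0` for `i < g+1`. -/
lemma ext_up (N M : ModuleCat.{u} R) (r : R) (hr : r ∈ Module.annihilator R N)
    (reg : IsSMulRegular M r) (g : ℕ)
    (h : ∀ i < g, Subsingleton (Ext N (ModuleCat.of R (QuotSMulTop r M)) i)) :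
    ∀ i < g + 1, Subsingleton (Ext N M i) := by
  intro i hi
  match i with
  | 0 =>
    have : Subsingleton (N →ₗ[R] M) := by
      refine ⟨fun f f' => ?_⟩
      have key : ∀ (f : N →ₗ[R] M) (x : N), f x = 0 := by
        intro f x
        have h1 : r • f x = 0 := by
          rw [← map_smul, Module.mem_annihilator.mp hr x, map_zero]
        exact reg.right_eq_zero_of_smul h1
      ext x
      rw [key f x, key f' x]
    exact (Ext.addEquiv₀.trans ModuleCat.homAddEquiv).subsingleton
  | i + 1 =>
    let g' := (AddCommGrpCat.ofHom ((Ext.mk₀ (ModuleCat.smulShortComplex M r).f).postcomp N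
      (add_zero (i + 1))))
    have mono_g : Mono g' := by
      apply (Ext.covariant_sequence_exact₁' N reg.smulShortComplex_shortExact i (i + 1)
        rfl).mono_g ((AddCommGrpCat.isZero_of_iff_subsingleton.mpr ?_).eq_zero_of_src _)
      exact h i (by omega)
    have zero_gk : g' = 0 := Ext.postcomp_smul_id_eq_zero_of_mem_annihilator hr (i + 1)
    exact AddCommGrpCat.subsingleton_of_isZero (IsZero.of_mono_eq_zero _ zero_gk)

/-- Converse direction: if `Ext^i(N, M) = 0` for `i < g+1` then `Ext^i(N, M/rM) = 0` for
`i < g`. -/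
lemma ext_down (N M : ModuleCat.{u} R) (r : R)
    (reg : IsSMulRegular M r) (g : ℕ)
    (h : ∀ i < g + 1, Subsingleton (Ext N M i)) :
    ∀ i < g, Subsingleton (Ext N (ModuleCat.of R (QuotSMulTop r M)) i) := by
  intro i hi
  have zero1 := AddCommGrpCat.isZero_of_iff_subsingleton.mpr (h i (by omega))
  have zero2 := AddCommGrpCat.isZero_of_iff_subsingleton.mpr (h (i + 1) (by omega))
  exact AddCommGrpCat.subsingleton_of_isZero <| ShortComplex.Exact.isZero_of_both_zeros
    ((Ext.covariant_sequence_exact₃' N reg.smulShortComplex_shortExact) i (i + 1) rfl)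
    (zero1.eq_zero_of_src _) (zero2.eq_zero_of_tgt _)

/-- transport along linear equivalence in the second variable. -/
lemma ext_congr_right (N : ModuleCat.{u} R) {M M' : Type u} [AddCommGroup M] [Module R M]
    [AddCommGroup M'] [Module R M'] (e : M ≃ₗ[R] M') (i : ℕ)
    (h : Subsingleton (Ext N (ModuleCat.of R M) i)) :
    Subsingleton (Ext N (ModuleCat.of R M') i) := by
  refine ⟨fun x y => ?_⟩
  have key : ∀ x : Ext N (ModuleCat.of R M') i, x = 0 := by
    intro x
    have h1 : x = (x.comp (Ext.mk₀ (e.toModuleIso.inv)) (add_zero i)).comp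
        (Ext.mk₀ e.toModuleIso.hom) (add_zero i) := by
      rw [Ext.comp_assoc_of_second_deg_zero, Ext.mk₀_comp_mk₀, Iso.inv_hom_id, Ext.comp_mk₀_id]
    rw [h1, Subsingleton.elim (x.comp (Ext.mk₀ (e.toModuleIso.inv)) (add_zero i)) 0]
    simp
  rw [key x, key y]

/-- transport along linear equivalence in the first variable. -/
lemma ext_congr_left {N N' : Type u} [AddCommGroup N] [Module R N]
    [AddCommGroup N'] [Module R N'] (e : N ≃ₗ[R] N') (M : ModuleCat.{u} R) (i : ℕ)
    (h : Subsingleton (Ext (ModuleCat.of R N) M i)) :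
    Subsingleton (Ext (ModuleCat.of R N') M i) := by
  refine ⟨fun x y => ?_⟩
  have key : ∀ x : Ext (ModuleCat.of R N') M i, x = 0 := by
    intro x
    have h1 : x = (Ext.mk₀ (e.toModuleIso.inv)).comp ((Ext.mk₀ e.toModuleIso.hom).comp x
        (zero_add i)) (zero_add i) := by
      rw [Ext.mk₀_comp_mk₀_assoc, Iso.inv_hom_id, Ext.mk₀_id_comp]
    rw [h1, Subsingleton.elim ((Ext.mk₀ e.toModuleIso.hom).comp x (zero_add i)) 0]
    simp
  rw [key x, key y]

/-- `Ext^i(N, M) = 0` for `i < length rs` when `rs` is weakly regular on `M` and kills `N`;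
if moreover `Hom(N, M/(rs)M) = 0`, then also for `i = length rs`. -/
lemma ext_of_seq (N : ModuleCat.{u} R) (M : Type u) [AddCommGroup M] [Module R M] (rs : List R)
    (hrs : ∀ r ∈ rs, r ∈ Module.annihilator R N) (reg : IsWeaklyRegular M rs) :
    (∀ i < rs.length, Subsingleton (Ext N (ModuleCat.of R M) i)) ∧
    (Subsingleton (N →ₗ[R] (M ⧸ (Ideal.ofList rs • ⊤ : Submodule R M))) →
      ∀ i < rs.length + 1, Subsingleton (Ext N (ModuleCat.of R M) i)) := by
  induction rs generalizing M with
  | nil =>
    refine ⟨by simp, fun hs i hi => ?_⟩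
    have hi0 : i = 0 := by simpa using hi
    subst hi0
    have e : (M ⧸ (Ideal.ofList ([] : List R) • ⊤ : Submodule R M)) ≃ₗ[R] M :=
      Submodule.quotEquivOfEqBot _ (by simp)
    have : Subsingleton (N →ₗ[R] M) := by
      refine ⟨fun f f' => ?_⟩
      have := hs.elim (e.symm.toLinearMap ∘ₗ f) (e.symm.toLinearMap ∘ₗ f')
      ext x
      have h2 := LinearMap.congr_fun this x
      simpa using h2
    exact (Ext.addEquiv₀.trans ModuleCat.homAddEquiv).subsingleton
  | cons r rs ih =>
    simp only [isWeaklyRegular_cons_iff] at reg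
    have hr := hrs r (by simp)
    have ih' := ih (QuotSMulTop r M) (fun s hs => hrs s (by simp [hs])) reg.2
    refine ⟨?_, fun hs => ?_⟩
    · exact ext_up N (ModuleCat.of R M) r hr reg.1 rs.length ih'.1
    · refine ext_up N (ModuleCat.of R M) r hr reg.1 (rs.length + 1) (ih'.2 ?_)
      let e := Submodule.quotOfListConsSMulTopEquivQuotSMulTopInner M r rs
      refine ⟨fun f f' => ?_⟩
      have := hs.elim (e.symm.toLinearMap ∘ₗ f) (e.symm.toLinearMap ∘ₗ f')
      ext x
      have h2 := LinearMap.congr_fun this x
      simpa using h2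

/-- If the maximal ideal of a noetherian local ring is not associated to `M`, there is an
`M`-regular element in it. -/
lemma exists_regular [IsNoetherianRing R] (I : Ideal R) (M : Type u) [AddCommGroup M] [Module R M]
    [Module.Finite R M] (h : ∀ p ∈ associatedPrimes R M, ¬ I ≤ p) :
    ∃ r ∈ I, IsSMulRegular M r := by
  by_contra hcon
  push Not at hcon
  have hfin := associatedPrimes.finite R M
  have hsub : (I : Set R) ⊆ ⋃ p ∈ hfin.toFinset, (p : Set R) := by
    intro r hr
    have h1 := hcon r hr
    have h2 : ∃ x : M, x ≠ 0 ∧ r • x = 0 := by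
      by_contra h3
      push Not at h3
      apply h1
      intro a b hab
      by_contra hne
      have : r • (a - b) = 0 := by
        rw [smul_sub, sub_eq_zero]
        exact hab
      exact h3 (a - b) (sub_ne_zero.mpr hne) this
    obtain ⟨x, hx, hrx⟩ := h2
    have h4 : r ∈ { r : R | ∃ x : M, x ≠ 0 ∧ r • x = 0 } := ⟨x, hx, hrx⟩
    rw [← biUnion_associatedPrimes_eq_zero_divisors] at h4
    simpa using h4
  have := (Ideal.subset_union_prime (s := hfin.toFinset) (f := fun p => p) ⊥ ⊥ (by
    intro p hp _ _
    exact (hfin.mem_toFinset.mp hp).isPrime)).mp hsub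
  obtain ⟨p, hp, hle⟩ := this
  exact h p (hfin.mem_toFinset.mp hp) hle

/-- depth transfer (T5): `A` noetherian local, `C` a finite `A`-algebra, `M` a finite `C`-module:
if `Ext_C^i(C/Q, M) = 0` for all maximal ideals `Q` of `C` and all `i < g` then
`Ext_A^i(A/m, M) = 0` for `i < g`. -/
lemma ext_transfer {A C : Type u} [CommRing A] [IsLocalRing A] [IsNoetherianRing A] [CommRing C]
    [Algebra A C] [Module.Finite A C] (M : Type u) [AddCommGroup M] [Module A M] [Module C M]
    [IsScalarTower A C M] [Module.Finite C M] (g : ℕ)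
    (h : ∀ Q : Ideal C, Q.IsMaximal → ∀ i < g,
      Subsingleton (Ext (ModuleCat.of C (C ⧸ Q)) (ModuleCat.of C M) i)) :
    ∀ i < g, Subsingleton (Ext (ModuleCat.of A (A ⧸ maximalIdeal A)) (ModuleCat.of A M) i) := by
  have hCn : IsNoetherianRing C := IsNoetherianRing.of_finite A C
  induction g generalizing M with
  | zero => simp
  | succ g ih =>
    have hMf : Module.Finite A M := Module.Finite.trans C M
    -- a regular element
    obtain ⟨a, ham, hreg⟩ : ∃ a ∈ maximalIdeal A, IsSMulRegular M a := by
      apply exists_regular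
      intro p hp hle
      have hpeq : p = maximalIdeal A := by
        have := hp.isPrime
        exact le_antisymm (le_maximalIdeal this.ne_top) hle
      subst hpeq
      obtain ⟨hpp, x, hx⟩ := isAssociatedPrime_iff.mp hp
      have hx0 : x ≠ 0 := by
        rintro rfl
        apply hpp.ne_top
        rw [hx]
        simp
      obtain ⟨Q, hQ, hQle⟩ := exists_le_isAssociatedPrime_of_isNoetherianRing C x hx0
      have hQp := hQ.isPrime
      have hcomap : Q.comap (algebraMap A C) = maximalIdeal A := by
        have hprime : (Q.comap (algebraMap A C)).IsPrime := Ideal.comap_isPrime _ _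
        refine le_antisymm (le_maximalIdeal hprime.ne_top) ?_
        intro b hb
        rw [Ideal.mem_comap]
        apply hQle
        rw [Submodule.mem_colon_singleton, Submodule.mem_bot]
        rw [hx, Submodule.mem_colon_singleton, Submodule.mem_bot] at hb
        rw [algebraMap_smul, hb]
      have hQmax : Q.IsMaximal := by
        apply Ideal.isMaximal_of_isIntegral_of_isMaximal_comap (R := A) Q
        rw [hcomap]
        exact maximalIdeal.isMaximal A
      obtain ⟨-, f, hf⟩ := (isAssociatedPrime_iff_exists_injective_linearMap Q M).mp hQ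
      have h0 := h Q hQmax 0 (by omega)
      have h1 : Subsingleton ((C ⧸ Q) →ₗ[C] M) := by
        refine ⟨fun u v => ?_⟩
        have := h0.elim ((Ext.addEquiv₀.trans ModuleCat.homAddEquiv).symm u)
          ((Ext.addEquiv₀.trans ModuleCat.homAddEquiv).symm v)
        exact (Ext.addEquiv₀.trans ModuleCat.homAddEquiv).symm.injective this
      have h2 : f = 0 := Subsingleton.elim _ _
      have h3 : (1 : C ⧸ Q) = 0 := by
        apply hf
        rw [h2]
        simp
      have : Nontrivial (C ⧸ Q) := Ideal.Quotient.nontrivial_iff.mpr hQp.ne_top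
      exact one_ne_zero h3
    have hregC : IsSMulRegular M (algebraMap A C a) := by
      intro u v huv
      apply hreg
      simpa [algebraMap_smul] using huv
    have h1 := ih (QuotSMulTop (algebraMap A C a) M) (fun Q hQ =>
      ext_down (ModuleCat.of C (C ⧸ Q)) (ModuleCat.of C M) (algebraMap A C a) hregC g (h Q hQ))
    refine ext_up (ModuleCat.of A (A ⧸ maximalIdeal A)) (ModuleCat.of A M) a ?_ hreg g ?_
    · rw [Ideal.annihilator_quotient]
      exact ham
    · intro i hi
      have e : QuotSMulTop (algebraMap A C a) M ≃ₗ[A] QuotSMulTop a M := by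
        refine (Submodule.Quotient.restrictScalarsEquiv A
          ((algebraMap A C a) • (⊤ : Submodule C M))).symm.trans (Submodule.quotEquivOfEq _ _ ?_)
        ext x
        simp [Submodule.mem_smul_pointwise_iff_exists]
      exact ext_congr_right _ e i (h1 i hi)

end MP463376.P4
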