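import Pool.Agent.Lib.MP_463376_co.P4a

/-!
Part 4 (homological toolkit), file b: Auslander-Buchsbaum inequality (T2).
-/

open CategoryTheory Abelian IsLocalRing Module RingTheory.Sequence Limits Pointwise

universe u

namespace MP463376.P4

variable {R : Type u} [CommRing R]

/-- maps in `I • Hom(M, M')` act by zero on `Ext^i(N, -)` if `I` kills `N`. -/
lemma postcomp_eq_zero (N : ModuleCat.{u} R) (I : Ideal R) (hI : I ≤ Module.annihilator R N)
    {M M' : ModuleCat.{u} R} (f : M ⟶ M') (hf : f ∈ (I • ⊤ : Submodule R (M ⟶ M'))) (i : ℕ)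
    (x : Ext N M i) : x.comp (Ext.mk₀ f) (add_zero i) = 0 := by
  induction hf using Submodule.smul_induction_on' with
  | smul r hr n hn =>
    rw [Ext.mk₀_smul, Ext.comp_smul]
    have h1 : r • x = 0 := by
      have h2 : r • x = (Ext.mk₀ (r • 𝟙 N)).comp x (zero_add i) := by simp [Ext.mk₀_smul]
      have h3 : r • 𝟙 N = 0 := by
        simp [← ModuleCat.lsmul_eq_smul_id, Module.mem_annihilator_iff_lsmul_eq_zero.mp (hI hr)]
      rw [h2, h3]
      simp
    rw [← Ext.smul_comp, h1, Ext.zero_comp]
  | add f hf g hg h1 h2 =>
    rw [Ext.mk₀_add, Ext.comp_add, h1, h2, add_zero]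

lemma ext_pi (N : ModuleCat.{u} R) (n : ℕ) (i : ℕ)
    (h : Subsingleton (Ext N (ModuleCat.of R R) i)) :
    Subsingleton (Ext N (ModuleCat.of R (Fin n → R)) i) := by
  have key : ∀ x : Ext N (ModuleCat.of R (Fin n → R)) i, x = 0 := by
    intro x
    have hid : 𝟙 (ModuleCat.of R (Fin n → R)) =
        ∑ j : Fin n, (ModuleCat.ofHom (LinearMap.proj (R := R) (φ := fun _ : Fin n => R) j)) ≫
          (ModuleCat.ofHom (LinearMap.single R (fun _ : Fin n => R) j)) := by
      apply ModuleCat.hom_ext
      rw [ModuleCat.hom_sum]
      ext v j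
      simp [LinearMap.sum_apply, Pi.single_apply]
    rw [← Ext.comp_mk₀_id x, hid, Ext.mk₀_sum, Ext.comp_sum]
    apply Finset.sum_eq_zero
    intro j _
    rw [← Ext.mk₀_comp_mk₀, ← Ext.comp_assoc_of_second_deg_zero]
    rw [Subsingleton.elim (x.comp (Ext.mk₀ (ModuleCat.ofHom (LinearMap.proj j))) (add_zero i)) 0]
    simp
  exact ⟨fun x y => by rw [key x, key y]⟩

lemma exists_minimal_presentation [IsLocalRing R] (W : Type u) [AddCommGroup W] [Module R W]
    [Module.Finite R W] : ∃ (n : ℕ) (f : (Fin n → R) →ₗ[R] W), Function.Surjective f ∧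
      ∀ v ∈ LinearMap.ker f, ∀ i, v i ∈ maximalIdeal R := by
  classical
  have hex : ∃ n : ℕ, ∃ f : (Fin n → R) →ₗ[R] W, Function.Surjective f := by
    obtain ⟨n, f, hf⟩ := Module.Finite.exists_fin' R W
    exact ⟨n, f, hf⟩
  let n := Nat.find hex
  obtain ⟨f, hf⟩ := Nat.find_spec hex
  refine ⟨n, f, hf, ?_⟩
  by_contra hcon
  push Not at hcon
  obtain ⟨v, hv, j, hj⟩ := hcon
  have hunit : IsUnit (v j) := by
    by_contra hnu
    exact hj ((IsLocalRing.mem_maximalIdeal _).mpr hnu)
  obtain ⟨u, hu⟩ := hunit
  have hn : n ≠ 0 := by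
    intro h0
    have : IsEmpty (Fin n) := by rw [h0]; infer_instance
    exact this.elim j
  obtain ⟨m, hm⟩ := Nat.exists_eq_succ_of_ne_zero hn
  -- smaller presentation
  have hsmall : ∃ g : (Fin m → R) →ₗ[R] W, Function.Surjective g := by
    have e : Fin n ≃ Fin (m + 1) := finCongr hm
    let f' : (Fin (m + 1) → R) →ₗ[R] W := f ∘ₗ (LinearMap.funLeft R R e)
    have hf' : Function.Surjective f' := hf.comp (LinearMap.funLeft_surjective_of_injective R R e e.injective)
    let j' : Fin (m + 1) := e j
    let v' : Fin (m + 1) → R := v ∘ e.symm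
    have hv' : f' v' = 0 := by
      have : (LinearMap.funLeft R R e) v' = v := by
        ext i; simp [v', LinearMap.funLeft_apply]
      simp only [f', LinearMap.comp_apply, this]
      exact hv
    have hv'j : v' j' = u := by simp [v', j', hu]
    -- embedding of `Fin m → R` by inserting zero at `j'`
    let ins : (Fin m → R) →ₗ[R] (Fin (m + 1) → R) :=
      { toFun := fun w => j'.insertNth 0 w
        map_add' := by
          intro a b
          ext i
          refine Fin.succAboveCases j' ?_ ?_ i <;> simp
        map_smul' := by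
          intro c a
          ext i
          refine Fin.succAboveCases j' ?_ ?_ i <;> simp }
    refine ⟨f' ∘ₗ ins, ?_⟩
    intro w
    obtain ⟨z, hz⟩ := hf' w
    refine ⟨fun i => z (j'.succAbove i) - z j' * (↑u⁻¹ : R) * v' (j'.succAbove i), ?_⟩
    have h1 : ins (fun i => z (j'.succAbove i) - z j' * (↑u⁻¹ : R) * v' (j'.succAbove i)) =
        z - (z j' * (↑u⁻¹ : R)) • v' := by
      ext i
      refine Fin.succAboveCases j' ?_ ?_ i
      · simp [ins, hv'j, mul_assoc]
      · intro i; simp [ins]
    rw [LinearMap.comp_apply, h1, map_sub, map_smul, hv', smul_zero, sub_zero, hz]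
  have := Nat.find_min' hex hsmall
  omega

lemma subsingleton_ext_of_retract (N M M' : ModuleCat.{u} R) (a : M ⟶ M') (b : M' ⟶ M)
    (hab : a ≫ b = 𝟙 M) (i : ℕ) (h : Subsingleton (Ext N M' i)) : Subsingleton (Ext N M i) := by
  have key : ∀ x : Ext N M i, x = 0 := by
    intro x
    rw [← Ext.comp_mk₀_id x, ← hab, ← Ext.mk₀_comp_mk₀, ← Ext.comp_assoc_of_second_deg_zero]
    rw [Subsingleton.elim (x.comp (Ext.mk₀ a) (add_zero i)) 0]
    simp
  exact ⟨fun x y => by rw [key x, key y]⟩

/-- a nontrivial finite free module has `R` as a retract. -/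
lemma subsingleton_ext_of_free (N : ModuleCat.{u} R) (W : Type u) [AddCommGroup W] [Module R W]
    [Nontrivial W] [Module.Free R W] (i : ℕ) (h : Subsingleton (Ext N (ModuleCat.of R W) i)) :
    Subsingleton (Ext N (ModuleCat.of R R) i) := by
  have hne : Nonempty (Module.Free.ChooseBasisIndex R W) := by
    by_contra hcon
    rw [not_nonempty_iff] at hcon
    have : Subsingleton W := (Module.Free.chooseBasis R W).repr.toEquiv.subsingleton
    exact not_subsingleton W this
  obtain ⟨j⟩ := hne
  let b := Module.Free.chooseBasis R W
  have hR : Nontrivial R := Module.nontrivial R W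
  refine subsingleton_ext_of_retract N (ModuleCat.of R R) (ModuleCat.of R W)
    (ModuleCat.ofHom (LinearMap.toSpanSingleton R W (b j))) (ModuleCat.ofHom (b.coord j)) ?_ i h
  apply ModuleCat.hom_ext
  ext
  simp

/-- **Auslander-Buchsbaum inequality** (T2). -/
theorem ab_ineq [IsLocalRing R] [IsNoetherianRing R] (g : ℕ)
    (hg : ¬ Subsingleton (Ext (ModuleCat.of R (R ⧸ maximalIdeal R)) (ModuleCat.of R R) g))
    (hg' : ∀ i < g, Subsingleton (Ext (ModuleCat.of R (R ⧸ maximalIdeal R)) (ModuleCat.of R R) i))
    (k : ℕ) (W : Type u) [AddCommGroup W] [Module R W] [Module.Finite R W] [Nontrivial W]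
    (hk : HasProjectiveDimensionLE (ModuleCat.of R W) k) (e : ℕ)
    (he : ∀ i < e, Subsingleton (Ext (ModuleCat.of R (R ⧸ maximalIdeal R)) (ModuleCat.of R W) i)) :
    e ≤ g ∧ HasProjectiveDimensionLE (ModuleCat.of R W) (g - e) := by
  induction k generalizing W e with
  | zero =>
    have hproj : Module.Projective R W := by
      rw [HasProjectiveDimensionLE, zero_add, ← projective_iff_hasProjectiveDimensionLT_one,
        ← IsProjective.iff_projective] at hk
      exact hk
    have hfree : Module.Free R W := Module.free_of_flat_of_isLocalRing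
    refine ⟨?_, ?_⟩
    · by_contra hcon
      push Not at hcon
      exact hg (subsingleton_ext_of_free _ W g (he g hcon))
    · exact hasProjectiveDimensionLT_of_ge (ModuleCat.of R W) 1 (g - e + 1) (by omega)
  | succ k ih =>
    obtain ⟨n, f, hf, hker⟩ := exists_minimal_presentation (R := R) W
    have hS : f.shortComplexKer.ShortExact := LinearMap.shortExact_shortComplexKer hf
    have hprojF : Projective f.shortComplexKer.X₂ := by
      change Projective (ModuleCat.of R (Fin n → R))
      rw [← IsProjective.iff_projective]
      infer_instance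
    have hZ : HasProjectiveDimensionLE (ModuleCat.of R (LinearMap.ker f)) k :=
      (hS.hasProjectiveDimensionLT_X₃_iff k hprojF).mp hk
    have hF : ∀ i < g, Subsingleton (Ext (ModuleCat.of R (R ⧸ maximalIdeal R))
        (ModuleCat.of R (Fin n → R)) i) := fun i hi => ext_pi _ n i (hg' i hi)
    have hZext : ∀ i < min (e + 1) g, Subsingleton (Ext (ModuleCat.of R (R ⧸ maximalIdeal R))
        (ModuleCat.of R (LinearMap.ker f)) i) := by
      intro i hi
      have hFi := hF i (by omega)
      have key : ∀ x : Ext (ModuleCat.of R (R ⧸ maximalIdeal R))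
        (ModuleCat.of R (LinearMap.ker f)) i, x = 0 := by
        intro x
        match i, hi, hFi, x with
        | 0, hi, hFi, x =>
          have hinj := Ext.postcomp_mk₀_injective_of_mono (ModuleCat.of R (R ⧸ maximalIdeal R))
            (ModuleCat.ofHom (LinearMap.ker f).subtype) (hf := hS.mono_f)
          apply hinj
          exact hFi.elim _ _
        | i + 1, hi, hFi, x =>
          obtain ⟨y, hy⟩ := Ext.covariant_sequence_exact₁ (ModuleCat.of R (R ⧸ maximalIdeal R)) hS x
            (hFi.elim _ _) rfl
          have : y = 0 := (he i (by omega)).elim _ _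
          rw [← hy, this, Ext.zero_comp]
      exact ⟨fun x y => by rw [key x, key y]⟩
    by_cases hZ0 : Subsingleton (LinearMap.ker f)
    · -- then `W` is free
      have hinj : Function.Injective f := by
        rw [← LinearMap.ker_eq_bot]
        exact (Submodule.subsingleton_iff_eq_bot).mp hZ0
      have eW : (Fin n → R) ≃ₗ[R] W := LinearEquiv.ofBijective f ⟨hinj, hf⟩
      have hfree : Module.Free R W := Module.Free.of_equiv eW
      refine ⟨?_, ?_⟩
      · by_contra hcon
        push Not at hcon
        exact hg (subsingleton_ext_of_free _ W g (he g hcon))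
      · have : HasProjectiveDimensionLT (ModuleCat.of R W) 1 := by
          rw [← projective_iff_hasProjectiveDimensionLT_one, ← IsProjective.iff_projective]
          infer_instance
        exact hasProjectiveDimensionLT_of_ge (ModuleCat.of R W) 1 (g - e + 1) (by omega)
    · have hZnt : Nontrivial (LinearMap.ker f) := not_subsingleton_iff_nontrivial.mp hZ0
      have hih := ih (LinearMap.ker f) hZ (min (e + 1) g) hZext
      by_cases heg : e + 1 ≤ g
      · refine ⟨by omega, ?_⟩
        rw [min_eq_left heg] at hih
        have h1 : HasProjectiveDimensionLT (ModuleCat.of R (LinearMap.ker f)) (g - (e + 1) + 1) :=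
          hih.2
        have h2 : HasProjectiveDimensionLT (ModuleCat.of R W) (g - (e + 1) + 2) :=
          (hS.hasProjectiveDimensionLT_X₃_iff (g - (e + 1)) hprojF).mpr h1
        have h3 : g - (e + 1) + 2 = g - e + 1 := by omega
        rw [h3] at h2
        exact h2
      · exfalso
        rw [min_eq_right (by omega)] at hih
        have h1 : HasProjectiveDimensionLT (ModuleCat.of R (LinearMap.ker f)) 1 := by
          have := hih.2
          rw [Nat.sub_self] at this
          exact this
        rw [← projective_iff_hasProjectiveDimensionLT_one, ← IsProjective.iff_projective] at h1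
        have hZproj : Module.Projective R (LinearMap.ker f) := h1
        have hZfree : Module.Free R (LinearMap.ker f) := Module.free_of_flat_of_isLocalRing
        -- the inclusion is in `m • Hom`
        have hmem : (ModuleCat.ofHom (LinearMap.ker f).subtype) ∈
            ((maximalIdeal R) • ⊤ : Submodule R
              (ModuleCat.of R (LinearMap.ker f) ⟶ ModuleCat.of R (Fin n → R))) := by
          let b := Module.Free.chooseBasis R (LinearMap.ker f)
          have hsum : (ModuleCat.ofHom (LinearMap.ker f).subtype) =
              ∑ k, ∑ i : Fin n, ((b k : Fin n → R) i) •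
                ModuleCat.ofHom ((LinearMap.single R (fun _ : Fin n => R) i) ∘ₗ (b.coord k)) := by
            apply ModuleCat.hom_ext
            rw [ModuleCat.hom_sum]
            apply b.ext
            intro l
            ext j
            simp [ModuleCat.hom_sum, LinearMap.sum_apply, Pi.single_apply, Finsupp.single_apply]
          rw [hsum]
          refine Submodule.sum_mem _ (fun k _ => Submodule.sum_mem _ (fun i _ => ?_))
          exact Submodule.smul_mem_smul (hker (b k) (b k).2 i) trivial
        apply hg
        apply subsingleton_ext_of_free _ (LinearMap.ker f) g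
        have key : ∀ x : Ext (ModuleCat.of R (R ⧸ maximalIdeal R))
          (ModuleCat.of R (LinearMap.ker f)) g, x = 0 := by
          intro x
          have hz := postcomp_eq_zero (ModuleCat.of R (R ⧸ maximalIdeal R)) (maximalIdeal R)
            (by rw [Ideal.annihilator_quotient]) _ hmem g x
          match g, heg, x, hz with
          | 0, heg, x, hz =>
            have hinj := Ext.postcomp_mk₀_injective_of_mono (ModuleCat.of R (R ⧸ maximalIdeal R))
              (ModuleCat.ofHom (LinearMap.ker f).subtype) (hf := hS.mono_f)
            apply hinj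
            simpa using hz
          | g + 1, heg, x, hz =>
            obtain ⟨y, hy⟩ := Ext.covariant_sequence_exact₁
              (ModuleCat.of R (R ⧸ maximalIdeal R)) hS x hz rfl
            have : y = 0 := (he g (by omega)).elim _ _
            rw [← hy, this, Ext.zero_comp]
        exact ⟨fun x y => by rw [key x, key y]⟩

end MP463376.P4
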