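import Pool.Agent.Lib.MP_463376_co.P4b

/-!
Part 4 (homological toolkit), file c: depth is at most the dimension; the prime of height one (T3).
-/

open CategoryTheory Abelian IsLocalRing Module RingTheory.Sequence Limits Pointwise

universe u

namespace MP463376.P4

variable {R : Type u} [CommRing R]

/-- the depth of a noetherian local ring exists and is at most its dimension. -/
lemma exists_depth (R : Type u) [CommRing R] [IsLocalRing R] [IsNoetherianRing R] : ∃ g : ℕ,
    ¬ Subsingleton (Ext (ModuleCat.of R (R ⧸ maximalIdeal R)) (ModuleCat.of R R) g) ∧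
    (∀ i < g, Subsingleton (Ext (ModuleCat.of R (R ⧸ maximalIdeal R)) (ModuleCat.of R R) i)) ∧
    (g : ℕ∞) ≤ (maximalIdeal R).height := by
  classical
  have hfin : (maximalIdeal R).height ≠ ⊤ := Ideal.height_ne_top_of_isPrime
  obtain ⟨D, hD⟩ := ENat.ne_top_iff_exists.mp hfin
  have hex : ∃ g : ℕ, ¬ Subsingleton
      (Ext (ModuleCat.of R (R ⧸ maximalIdeal R)) (ModuleCat.of R R) g) ∧ g ≤ D := by
    by_contra hcon
    push Not at hcon
    have hv : ∀ i < D + 1, Subsingleton
        (Ext (ModuleCat.of R (R ⧸ maximalIdeal R)) (ModuleCat.of R R) i) := by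
      intro i hi
      by_contra h
      have := hcon i (not_subsingleton_iff_nontrivial.mp h)
      omega
    have hlt : (maximalIdeal R) • (⊤ : Submodule R (ModuleCat.of R R)) < ⊤ := by
      rw [lt_top_iff_ne_top]
      intro h
      have h1 : (maximalIdeal R) • (⊤ : Submodule R R) = maximalIdeal R := by
        simp
      have h2 : (maximalIdeal R) • (⊤ : Submodule R R) = ⊤ := h
      rw [h1] at h2
      exact (maximalIdeal.isMaximal R).ne_top h2
    have hsupp : Module.support R (ModuleCat.of R (R ⧸ maximalIdeal R)) =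
        PrimeSpectrum.zeroLocus (maximalIdeal R) := by
      rw [Module.support_eq_zeroLocus, Ideal.annihilator_quotient]
    obtain ⟨rs, hlen, hmem, hreg⟩ := ModuleCat.exists_isRegular_of_exists_subsingleton_ext
      (maximalIdeal R) (D + 1) (ModuleCat.of R R) hlt (ModuleCat.of R (R ⧸ maximalIdeal R))
      hsupp hv
    have h1 := ringKrullDim_add_length_eq_ringKrullDim_of_isRegular rs hreg
    rw [← maximalIdeal_height_eq_ringKrullDim (R := R), ← hD, hlen] at h1
    have hnt : Nontrivial (R ⧸ Ideal.ofList rs) := by
      apply Ideal.Quotient.nontrivial_iff.mpr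
      intro h
      apply hreg.2
      rw [h]
      simp
    have h2 : (0 : WithBot ℕ∞) ≤ ringKrullDim (R ⧸ Ideal.ofList rs) := ringKrullDim_nonneg_of_nontrivial
    have h3 : ((D + 1 : ℕ) : WithBot ℕ∞) ≤ ((D : ℕ∞) : WithBot ℕ∞) := by
      rw [← h1]
      exact le_add_of_nonneg_left h2
    have h4 : D + 1 ≤ D := by exact_mod_cast h3
    omega
  have hex' : ∃ g : ℕ, ¬ Subsingleton
      (Ext (ModuleCat.of R (R ⧸ maximalIdeal R)) (ModuleCat.of R R) g) :=
    ⟨hex.choose, hex.choose_spec.1⟩
  refine ⟨Nat.find hex', Nat.find_spec hex', fun i hi => ?_, ?_⟩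
  · by_contra h
    exact Nat.find_min hex' hi h
  · rw [← hD]
    have : Nat.find hex' ≤ hex.choose := Nat.find_min' hex' hex.choose_spec.1
    have h2 := hex.choose_spec.2
    exact_mod_cast this.trans h2

/-- a free ideal of a domain is principal. -/
lemma isPrincipal_of_free [IsDomain R] (I : Ideal R) [Module.Free R I] : I.IsPrincipal := by
  let b := Module.Free.chooseBasis R I
  have hsub : Subsingleton (Module.Free.ChooseBasisIndex R I) := by
    refine ⟨fun i j => ?_⟩
    by_contra hne
    have h1 : (b j : R) • b i - (b i : R) • b j = 0 := by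
      ext
      simp [mul_comm]
    have h2 := congrArg (fun z => b.repr z i) h1
    simp [Ne.symm hne] at h2
    exact b.ne_zero j h2
  by_cases hne : Nonempty (Module.Free.ChooseBasisIndex R I)
  · obtain ⟨i⟩ := hne
    refine ⟨⟨(b i : R), ?_⟩⟩
    apply le_antisymm
    · intro x hx
      rw [Ideal.submodule_span_eq, Ideal.mem_span_singleton']
      refine ⟨b.repr ⟨x, hx⟩ i, ?_⟩
      have h1 := b.linearCombination_repr ⟨x, hx⟩
      have hsup : b.repr ⟨x, hx⟩ = Finsupp.single i (b.repr ⟨x, hx⟩ i) := by
        ext j
        rw [Subsingleton.elim j i]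
        simp
      rw [hsup, Finsupp.linearCombination_single] at h1
      have h2 := congrArg (Subtype.val) h1
      simpa using h2
    · rw [Ideal.submodule_span_eq, Ideal.span_singleton_le_iff_mem]
      exact (b i).2
  · rw [not_nonempty_iff] at hne
    have : Subsingleton I := b.repr.toEquiv.subsingleton
    have : I = ⊥ := (Submodule.subsingleton_iff_eq_bot).mp this
    rw [this]
    exact ⟨⟨0, by simp⟩⟩

/-- (T3, local) if `m c ⊆ (b)`, `c ∉ (b)`, `b ≠ 0` in a noetherian local domain whose residue field
has finite projective dimension, then the maximal ideal is principal. -/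
theorem isPrincipal_maximalIdeal [IsLocalRing R] [IsNoetherianRing R] [IsDomain R] (k : ℕ)
    (hk : HasProjectiveDimensionLE (ModuleCat.of R (R ⧸ maximalIdeal R)) k)
    (b c : R) (hb : b ≠ 0) (hc : c ∉ Ideal.span {b})
    (hm : ∀ a ∈ maximalIdeal R, a * c ∈ Ideal.span {b}) : (maximalIdeal R).IsPrincipal := by
  have hbm : b ∈ maximalIdeal R := by
    rw [IsLocalRing.mem_maximalIdeal, mem_nonunits_iff]
    intro hu
    apply hc
    rw [Ideal.span_singleton_eq_top.mpr hu]
    trivial
  have hbreg : IsSMulRegular R b := by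
    intro x y hxy
    exact mul_left_cancel₀ hb hxy
  have hbann : b ∈ Module.annihilator R (R ⧸ maximalIdeal R) := by
    rw [Ideal.annihilator_quotient]; exact hbm
  have h0 := ext_up (ModuleCat.of R (R ⧸ maximalIdeal R)) (ModuleCat.of R R) b hbann hbreg 0
    (by simp)
  obtain ⟨g, hg1, hg2, -⟩ := exists_depth R
  have hg : g = 1 ∨ g = 0 := by
    by_contra hcon
    push Not at hcon
    have hge : 2 ≤ g := by omega
    have h1 := ext_down (ModuleCat.of R (R ⧸ maximalIdeal R)) (ModuleCat.of R R) b hbreg 1
      (fun i hi => hg2 i (by omega)) 0 (by omega)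
    have h2 : Subsingleton ((R ⧸ maximalIdeal R) →ₗ[R] (QuotSMulTop b R)) := by
      refine ⟨fun u v => ?_⟩
      have := h1.elim ((Ext.addEquiv₀.trans ModuleCat.homAddEquiv).symm u)
        ((Ext.addEquiv₀.trans ModuleCat.homAddEquiv).symm v)
      exact (Ext.addEquiv₀.trans ModuleCat.homAddEquiv).symm.injective this
    let φ : (R ⧸ maximalIdeal R) →ₗ[R] (QuotSMulTop b R) :=
      Submodule.liftQ (maximalIdeal R)
        (LinearMap.toSpanSingleton R (QuotSMulTop b R) (Submodule.Quotient.mk c)) (by
          intro a ha
          rw [LinearMap.mem_ker, LinearMap.toSpanSingleton_apply, ← Submodule.Quotient.mk_smul,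
            Submodule.Quotient.mk_eq_zero]
          have := hm a ha
          rw [← Submodule.ideal_span_singleton_smul]
          simpa using this)
    have h3 : φ = 0 := Subsingleton.elim _ _
    have h4 : φ (Submodule.Quotient.mk 1) = 0 := by rw [h3]; rfl
    rw [show φ (Submodule.Quotient.mk 1) =
      (LinearMap.toSpanSingleton R (QuotSMulTop b R) (Submodule.Quotient.mk c)) 1 from rfl,
      LinearMap.toSpanSingleton_apply, one_smul, Submodule.Quotient.mk_eq_zero,
      ← Submodule.ideal_span_singleton_smul] at h4
    apply hc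
    simpa using h4
  have hg' : g = 1 := by
    rcases hg with h | h
    · exact h
    · subst h
      exact absurd (h0 0 (by omega)) hg1
  subst hg'
  have hnt : Nontrivial (R ⧸ maximalIdeal R) :=
    Ideal.Quotient.nontrivial_iff.mpr (maximalIdeal.isMaximal R).ne_top
  have hpd := (ab_ineq 1 hg1 hg2 k (R ⧸ maximalIdeal R) hk 0 (by simp)).2
  have hS : ((maximalIdeal R).mkQ).shortComplexKer.ShortExact :=
    LinearMap.shortExact_shortComplexKer (Submodule.mkQ_surjective _)
  have hproj : Projective ((maximalIdeal R).mkQ).shortComplexKer.X₂ := by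
    change Projective (ModuleCat.of R R)
    rw [← IsProjective.iff_projective]
    infer_instance
  have h1 : HasProjectiveDimensionLT (ModuleCat.of R (LinearMap.ker (maximalIdeal R).mkQ)) 1 :=
    (hS.hasProjectiveDimensionLT_X₃_iff 0 hproj).mp hpd
  rw [← projective_iff_hasProjectiveDimensionLT_one, ← IsProjective.iff_projective] at h1
  have h2 : Module.Projective R (LinearMap.ker (maximalIdeal R).mkQ) := h1
  have h3 : Module.Projective R (maximalIdeal R) :=
    Module.Projective.of_equiv (LinearEquiv.ofEq _ _ (Submodule.ker_mkQ (maximalIdeal R)))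
  have h4 : Module.Free R (maximalIdeal R) := Module.free_of_flat_of_isLocalRing
  exact isPrincipal_of_free _

/-- (T3, global) -/
theorem exists_height_one_prime {A : Type u} [CommRing A] [IsDomain A] [IsNoetherianRing A]
    (hpd : ∀ p : Ideal A, [p.IsPrime] → ∃ k, HasProjectiveDimensionLE
      (ModuleCat.of (Localization.AtPrime p)
        (Localization.AtPrime p ⧸ maximalIdeal (Localization.AtPrime p))) k)
    {K : Type*} [Field K] [Algebra A K] [IsFractionRing A K] (x : K)
    (hx : x ∉ (algebraMap A K).range) :
    ∃ a : A, ∃ q : Ideal A, q.IsPrime ∧ q.height = 1 ∧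
      ∀ b, b ∈ q ↔ algebraMap A K (b * a) * x ∈ (algebraMap A K).range := by
  obtain ⟨c, b, hb, hxcb⟩ := IsFractionRing.div_surjective (A := A) x
  have hb0 : b ≠ 0 := nonZeroDivisors.ne_zero hb
  have hbK : algebraMap A K b ≠ 0 := by
    intro h
    exact hb0 ((IsFractionRing.injective A K) (by rw [h, map_zero]))
  have hmem : ∀ a : A, algebraMap A K a * x ∈ (algebraMap A K).range ↔
      a * c ∈ Ideal.span {b} := by
    intro a
    rw [Ideal.mem_span_singleton', ← hxcb]
    constructor
    · rintro ⟨y, hy⟩
      refine ⟨y, ?_⟩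
      apply IsFractionRing.injective A K
      rw [map_mul, map_mul, hy]
      field_simp
    · rintro ⟨y, hy⟩
      refine ⟨y, ?_⟩
      have := congrArg (algebraMap A K) hy
      rw [map_mul, map_mul] at this
      field_simp
      rw [← this]
  have hc : c ∉ Ideal.span {b} := by
    intro h
    apply hx
    have := (hmem 1).mpr (by simpa using h)
    simpa using this
  -- the cyclic module generated by `c` in `A/(b)`
  let cbar : A ⧸ Ideal.span {b} := Ideal.Quotient.mk _ c
  let M' : Submodule A (A ⧸ Ideal.span {b}) := Submodule.span A {cbar}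
  have hcM : cbar ∈ M' := Submodule.mem_span_singleton_self _
  have hcbar : (⟨cbar, hcM⟩ : M') ≠ 0 := by
    intro h
    have : cbar = 0 := congrArg Subtype.val h
    exact hc (Ideal.Quotient.eq_zero_iff_mem.mp this)
  obtain ⟨q, hq, -⟩ := exists_le_isAssociatedPrime_of_isNoetherianRing A _ hcbar
  obtain ⟨hqp, ⟨y, hyM⟩, hy⟩ := isAssociatedPrime_iff.mp hq
  obtain ⟨a, ha⟩ := Submodule.mem_span_singleton.mp hyM
  have hqmem : ∀ b', b' ∈ q ↔ b' * a * c ∈ Ideal.span {b} := by
    intro b'
    rw [hy, Submodule.mem_colon_singleton, Submodule.mem_bot]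
    rw [← Ideal.Quotient.eq_zero_iff_mem]
    constructor
    · intro h
      have h1 : b' • y = 0 := congrArg Subtype.val h
      rw [← ha, smul_smul] at h1
      rw [map_mul]
      exact h1
    · intro h
      apply Subtype.ext
      change b' • y = 0
      rw [← ha, smul_smul]
      rw [map_mul] at h
      exact h
  refine ⟨a, q, hqp, ?_, fun b' => by rw [hmem, hqmem]⟩
  -- height
  have hbq : b ∈ q := by
    rw [hqmem, mul_assoc]
    exact Ideal.mul_mem_right _ _ (Ideal.mem_span_singleton_self b)
  have hacq : a * c ∉ Ideal.span {b} := by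
    intro h
    apply hqp.ne_top
    rw [Ideal.eq_top_iff_one, hqmem, one_mul]
    exact h
  have hprinc : (maximalIdeal (Localization.AtPrime q)).IsPrincipal := by
    obtain ⟨k, hk⟩ := hpd q
    have hdom : IsDomain (Localization.AtPrime q) :=
      IsLocalization.isDomain_localization (Ideal.primeCompl_le_nonZeroDivisors q)
    have hinj : Function.Injective (algebraMap A (Localization.AtPrime q)) :=
      IsLocalization.injective _ (Ideal.primeCompl_le_nonZeroDivisors q)
    refine isPrincipal_maximalIdeal k hk (algebraMap A _ b) (algebraMap A _ (a * c)) ?_ ?_ ?_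
    · intro h
      exact hb0 (hinj (by rw [h, map_zero]))
    · intro h
      rw [Ideal.mem_span_singleton'] at h
      obtain ⟨z, hz⟩ := h
      obtain ⟨⟨z1, s⟩, hzs⟩ := IsLocalization.surj q.primeCompl z
      have h1 : algebraMap A (Localization.AtPrime q) (z1 * b) =
          algebraMap A (Localization.AtPrime q) (s * (a * c)) := by
        rw [map_mul, map_mul, ← hz, ← hzs]
        ring
      have h2 := hinj h1
      have h3 : (s : A) ∈ q := by
        rw [hqmem, mul_assoc, ← h2]
        exact Ideal.mul_mem_left _ _ (Ideal.mem_span_singleton_self b)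
      exact s.2 h3
    · intro z hz
      obtain ⟨⟨z1, s⟩, hzs⟩ := IsLocalization.mk'_surjective q.primeCompl z
      simp only at hzs
      have hz1 : z1 ∈ q := by
        rw [← hzs] at hz
        exact (IsLocalization.AtPrime.mk'_mem_maximal_iff _ q z1 s).mp hz
      rw [hqmem, mul_assoc] at hz1
      obtain ⟨w, hw⟩ := Ideal.mem_span_singleton'.mp hz1
      rw [Ideal.mem_span_singleton']
      refine ⟨IsLocalization.mk' _ w s, ?_⟩
      rw [← hzs, IsLocalization.mk'_eq_mul_mk'_one w, IsLocalization.mk'_eq_mul_mk'_one z1]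
      have h5 := congrArg (algebraMap A (Localization.AtPrime q)) hw
      rw [map_mul, map_mul] at h5
      calc _ = (algebraMap A (Localization.AtPrime q) w * algebraMap A _ b) *
          IsLocalization.mk' _ 1 s := by ring
        _ = _ := by rw [h5]; ring
  apply le_antisymm
  · have h1 : ringKrullDim (Localization.AtPrime q) = q.height :=
      IsLocalization.AtPrime.ringKrullDim_eq_height q (Localization.AtPrime q)
    have h2 := ringKrullDim_le_spanFinrank_maximalIdeal (Localization.AtPrime q)
    rw [h1] at h2
    have h3 : Submodule.spanFinrank (maximalIdeal (Localization.AtPrime q)) ≤ 1 := by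
      obtain ⟨⟨z, hz⟩⟩ := hprinc
      rw [hz]
      exact (Submodule.spanFinrank_span_le_ncard_of_finite (Set.finite_singleton z)).trans
        (by simp)
    have h4 : (q.height : WithBot ℕ∞) ≤ ((1 : ℕ) : WithBot ℕ∞) := h2.trans (by exact_mod_cast h3)
    exact_mod_cast h4
  · rw [Order.one_le_iff_ne_zero]
    intro h
    have h1 : (⊥ : Ideal A) < q := by
      rw [bot_lt_iff_ne_bot]
      rintro rfl
      exact hb0 (by simpa using hbq)
    have h2 := Ideal.height_add_one_le_of_lt_of_isPrime h1
    rw [h] at h2
    simp at h2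

end MP463376.P4
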