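import Pool.Agent.Lib.MP_463376_co.P4c

/-!
Part 4 (homological toolkit), file d: regular local rings are domains and their finite modules have
finite projective dimension (T1).
-/

open CategoryTheory Abelian IsLocalRing Module RingTheory.Sequence Limits Pointwise

universe u

namespace MP463376.P4

variable {R : Type u} [CommRing R]

lemma pd_step (x : R) (k : ℕ) {A B D : Type u} [AddCommGroup A] [AddCommGroup B] [AddCommGroup D]
    [Module R A] [Module R B] [Module R D] [Module (R ⧸ Ideal.span {x}) A]
    [Module (R ⧸ Ideal.span {x}) B] [Module (R ⧸ Ideal.span {x}) D]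
    [IsScalarTower R (R ⧸ Ideal.span {x}) A] [IsScalarTower R (R ⧸ Ideal.span {x}) B]
    [IsScalarTower R (R ⧸ Ideal.span {x}) D]
    (g1 : A →ₗ[R] B) (g2 : B →ₗ[R] D) (hex : Function.Exact g1 g2) (hinj : Function.Injective g1)
    (hsurj : Function.Surjective g2) (hB : Module.Projective (R ⧸ Ideal.span {x}) B)
    (hk : HasProjectiveDimensionLE (ModuleCat.of (R ⧸ Ideal.span {x}) D) (k + 1)) :
    HasProjectiveDimensionLE (ModuleCat.of (R ⧸ Ideal.span {x}) A) k := by
  let g1' : A →ₗ[R ⧸ Ideal.span {x}] B :=
    LinearMap.extendScalarsOfSurjective Ideal.Quotient.mk_surjective g1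
  let g2' : B →ₗ[R ⧸ Ideal.span {x}] D :=
    LinearMap.extendScalarsOfSurjective Ideal.Quotient.mk_surjective g2
  have hcomp : g2' ∘ₗ g1' = 0 := LinearMap.ext fun z => hex.apply_apply_eq_zero z
  let S := ModuleCat.shortComplexOfCompEqZero g1' g2' hcomp
  have hSe : S.ShortExact := ModuleCat.shortComplex_shortExact S hex hinj hsurj
  have hpS : Projective S.X₂ := by
    change Projective (ModuleCat.of (R ⧸ Ideal.span {x}) B)
    rw [← IsProjective.iff_projective]
    exact hB
  exact (hSe.hasProjectiveDimensionLT_X₃_iff k hpS).mp hk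

/-- change of rings for a regular element. -/
lemma pd_of_quotSMulTop [IsLocalRing R] [IsNoetherianRing R] (x : R) (hx : x ∈ maximalIdeal R)
    (hxR : IsSMulRegular R x) (k : ℕ) (M : Type u) [AddCommGroup M] [Module R M]
    [Module.Finite R M] (hxM : IsSMulRegular M x)
    (hk : HasProjectiveDimensionLE (ModuleCat.of (R ⧸ Ideal.span {x}) (QuotSMulTop x M)) k) :
    HasProjectiveDimensionLE (ModuleCat.of R M) k := by
  have hne : Nontrivial (R ⧸ Ideal.span {x}) := by
    apply Ideal.Quotient.nontrivial_iff.mpr
    intro h
    rw [Ideal.span_singleton_eq_top] at h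
    exact (IsLocalRing.mem_maximalIdeal x).mp hx h
  have hloc : IsLocalRing (R ⧸ Ideal.span {x}) :=
    IsLocalRing.of_surjective' (Ideal.Quotient.mk (Ideal.span {x})) Ideal.Quotient.mk_surjective
  induction k generalizing M with
  | zero =>
    have hproj : Module.Projective (R ⧸ Ideal.span {x}) (QuotSMulTop x M) := by
      rw [HasProjectiveDimensionLE, zero_add, ← projective_iff_hasProjectiveDimensionLT_one,
        ← IsProjective.iff_projective] at hk
      exact hk
    have hfin : Module.Finite (R ⧸ Ideal.span {x}) (QuotSMulTop x M) :=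
      Module.Finite.of_restrictScalars_finite R (R ⧸ Ideal.span {x}) (QuotSMulTop x M)
    have hfree : Module.Free (R ⧸ Ideal.span {x}) (QuotSMulTop x M) :=
      Module.free_of_flat_of_isLocalRing
    have hfp : Module.FinitePresentation R M := Module.finitePresentation_of_finite R M
    have hM : Module.Free R M := (Module.free_quotSMulTop_iff_free R M (by
      rw [IsLocalRing.jacobson_eq_maximalIdeal _ bot_ne_top]
      exact hx) hxM).mp hfree
    have : HasProjectiveDimensionLT (ModuleCat.of R M) 1 := by
      rw [← projective_iff_hasProjectiveDimensionLT_one, ← IsProjective.iff_projective]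
      infer_instance
    exact this
  | succ k ih =>
    obtain ⟨n, f, hf⟩ := Module.Finite.exists_fin' R M
    have hS : f.shortComplexKer.ShortExact := LinearMap.shortExact_shortComplexKer hf
    have hprojF : Projective f.shortComplexKer.X₂ := by
      change Projective (ModuleCat.of R (Fin n → R))
      rw [← IsProjective.iff_projective]
      infer_instance
    have hxF : IsSMulRegular (Fin n → R) x := by
      intro u v huv
      ext i
      exact hxR (congrFun huv i)
    have hxZ : IsSMulRegular (LinearMap.ker f) x := IsSMulRegular.submodule _ _ hxF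
    -- the exact sequence modulo x
    have hsurj : Function.Surjective (QuotSMulTop.map x f) := QuotSMulTop.map_surjective x hf
    have hexact : Function.Exact (QuotSMulTop.map x (LinearMap.ker f).subtype)
        (QuotSMulTop.map x f) := QuotSMulTop.map_exact x (by
          intro v; simp [LinearMap.mem_ker]) hf
    have hinj : Function.Injective (QuotSMulTop.map x (LinearMap.ker f).subtype) := by
      rw [injective_iff_map_eq_zero]
      intro z hz
      obtain ⟨z, rfl⟩ := Submodule.Quotient.mk_surjective _ z
      rw [QuotSMulTop.map_apply_mk, Submodule.Quotient.mk_eq_zero,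
        Submodule.mem_smul_pointwise_iff_exists] at hz
      obtain ⟨w, -, hw⟩ := hz
      rw [Submodule.Quotient.mk_eq_zero, Submodule.mem_smul_pointwise_iff_exists]
      have hfw : f w = 0 := by
        apply hxM
        simp only [smul_zero]
        rw [← map_smul, hw]
        exact z.2
      refine ⟨⟨w, hfw⟩, trivial, ?_⟩
      ext1
      exact hw
    have hpS : Module.Projective (R ⧸ Ideal.span {x}) (QuotSMulTop x (Fin n → R)) := inferInstance
    have h1 := pd_step x k (QuotSMulTop.map x (LinearMap.ker f).subtype) (QuotSMulTop.map x f)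
      hexact hinj hsurj hpS hk
    exact (hS.hasProjectiveDimensionLT_X₃_iff k hprojF).mpr (ih (LinearMap.ker f) hxZ h1)

/-- quotient of a regular local ring by an element outside `m^2` which is regular or at least
generic. -/
lemma regular_quotient [IsRegularLocalRing R] (x : R) (hx : x ∈ maximalIdeal R)
    (hx2 : x ∉ (maximalIdeal R) ^ 2) [IsLocalRing (R ⧸ Ideal.span {x})] :
    IsRegularLocalRing (R ⧸ Ideal.span {x}) ∧
    ringKrullDim (R ⧸ Ideal.span {x}) + 1 = ringKrullDim R := by
  classical
  obtain ⟨s, hs, hspan⟩ := Submodule.FG.exists_span_finset_card_eq_spanFinrank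
    (maximalIdeal R).fg_of_isNoetherianRing
  have hdim : (maximalIdeal R).spanFinrank = ringKrullDim R :=
    IsRegularLocalRing.spanFinrank_maximalIdeal
  -- write x as a combination
  have hxs : x ∈ Submodule.span R (s : Set R) := by rw [hspan]; exact hx
  rw [Submodule.mem_span_finset] at hxs
  obtain ⟨c, -, hc⟩ := hxs
  have hex : ∃ g ∈ s, IsUnit (c g) := by
    by_contra hcon
    push Not at hcon
    apply hx2
    rw [← hc]
    refine Submodule.sum_mem _ (fun g hg => ?_)
    rw [smul_eq_mul, pow_two]
    refine Ideal.mul_mem_mul ((IsLocalRing.mem_maximalIdeal _).mpr (hcon g hg)) ?_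
    rw [← hspan]
    exact Submodule.subset_span hg
  obtain ⟨g, hg, hu⟩ := hex
  obtain ⟨u, hu⟩ := hu
  -- maximal ideal of the quotient
  have hmax : maximalIdeal (R ⧸ Ideal.span {x}) =
      Ideal.span ((Ideal.Quotient.mk (Ideal.span {x})) '' ((s.erase g : Finset R) : Set R)) := by
    have h1 : maximalIdeal (R ⧸ Ideal.span {x}) =
        (maximalIdeal R).map (Ideal.Quotient.mk (Ideal.span {x})) := by
      symm
      apply IsLocalRing.eq_maximalIdeal
      have : ((maximalIdeal R).map (Ideal.Quotient.mk (Ideal.span {x}))).IsMaximal := by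
        refine (Ideal.map_eq_top_or_isMaximal_of_surjective _ Ideal.Quotient.mk_surjective
          (maximalIdeal.isMaximal R)).resolve_left ?_
        intro h
        have h2 := congrArg (Ideal.comap (Ideal.Quotient.mk (Ideal.span {x}))) h
        rw [Ideal.comap_map_of_surjective _ Ideal.Quotient.mk_surjective, Ideal.comap_top,
          ← RingHom.ker_eq_comap_bot, Ideal.mk_ker, sup_eq_left.mpr] at h2
        · exact (maximalIdeal.isMaximal R).ne_top h2
        · rw [Ideal.span_le]
          simpa using hx
      exact this
    rw [h1, ← hspan]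
    change Ideal.map _ (Ideal.span (s : Set R)) = _
    rw [Ideal.map_span]
    apply le_antisymm
    · rw [Ideal.span_le]
      rintro _ ⟨y, hy, rfl⟩
      by_cases hyg : y = g
      · subst hyg
        have h3 : (Ideal.Quotient.mk (Ideal.span {x})) (c y * y) =
            - ∑ z ∈ s.erase y, (Ideal.Quotient.mk (Ideal.span {x})) (c z * z) := by
          have h4 : (Ideal.Quotient.mk (Ideal.span {x})) (∑ z ∈ s, c z * z) = 0 := by
            rw [Ideal.Quotient.eq_zero_iff_mem]
            have : ∑ z ∈ s, c z * z = x := by simpa using hc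
            rw [this]
            exact Ideal.mem_span_singleton_self x
          rw [← Finset.add_sum_erase s _ hg, map_add, map_sum] at h4
          exact eq_neg_of_add_eq_zero_left h4
        have h5 : (Ideal.Quotient.mk (Ideal.span {x})) y =
            (Ideal.Quotient.mk (Ideal.span {x})) (↑u⁻¹ : R) *
              (Ideal.Quotient.mk (Ideal.span {x})) (c y * y) := by
          rw [← map_mul, ← mul_assoc, ← hu, Units.inv_mul, one_mul]
        rw [h5, h3]
        refine Ideal.mul_mem_left _ _ ((Ideal.neg_mem_iff _).mpr ?_)
        refine Submodule.sum_mem _ (fun z hz => ?_)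
        rw [map_mul]
        exact Ideal.mul_mem_left _ _ (Ideal.subset_span ⟨z, hz, rfl⟩)
      · exact Ideal.subset_span ⟨y, Finset.mem_erase.mpr ⟨hyg, hy⟩, rfl⟩
    · apply Ideal.span_mono
      rintro _ ⟨y, hy, rfl⟩
      exact ⟨y, Finset.mem_of_mem_erase hy, rfl⟩
  have hcard : (maximalIdeal (R ⧸ Ideal.span {x})).spanFinrank ≤ s.card - 1 := by
    rw [hmax]
    refine (Submodule.spanFinrank_span_le_ncard_of_finite (Set.toFinite _)).trans ?_
    refine (Set.ncard_image_le (Set.toFinite _)).trans ?_
    rw [Set.ncard_coe_finset, Finset.card_erase_of_mem hg]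
  have hspos : 0 < s.card := Finset.card_pos.mpr ⟨g, hg⟩
  have hge : ringKrullDim R ≤ ringKrullDim (R ⧸ Ideal.span {x}) + 1 := by
    have h1 := ringKrullDim_le_ringKrullDim_quotSMulTop_succ (R := R) hx
    have h : Ideal.span {x} = x • (⊤ : Ideal R) := by
      simp [← Submodule.ideal_span_singleton_smul]
    rw [ringKrullDim_eq_of_ringEquiv (Ideal.quotientEquivAlgOfEq R h).toRingEquiv]
    exact h1
  have hnoeth : IsNoetherianRing (R ⧸ Ideal.span {x}) := inferInstance
  have hle : ringKrullDim (R ⧸ Ideal.span {x}) ≤
      ((maximalIdeal (R ⧸ Ideal.span {x})).spanFinrank : WithBot ℕ∞) :=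
    ringKrullDim_le_spanFinrank_maximalIdeal _
  have hdR : ringKrullDim R = ((s.card : ℕ) : WithBot ℕ∞) := by rw [← hdim, hs]
  obtain ⟨D, hD⟩ : ∃ D : ℕ, ringKrullDim (R ⧸ Ideal.span {x}) = ((D : ℕ) : WithBot ℕ∞) := by
    have hfin : (maximalIdeal (R ⧸ Ideal.span {x})).height ≠ ⊤ := Ideal.height_ne_top_of_isPrime
    obtain ⟨D, hD⟩ := ENat.ne_top_iff_exists.mp hfin
    exact ⟨D, by rw [← maximalIdeal_height_eq_ringKrullDim, ← hD]; rfl⟩
  rw [hD, hdR] at hge
  rw [hD] at hle
  have hge' : s.card ≤ D + 1 := by exact_mod_cast hge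
  have hle' : D ≤ (maximalIdeal (R ⧸ Ideal.span {x})).spanFinrank := by exact_mod_cast hle
  refine ⟨?_, ?_⟩
  · apply IsRegularLocalRing.of_spanFinrank_maximalIdeal_le
    rw [hD]
    have : (maximalIdeal (R ⧸ Ideal.span {x})).spanFinrank ≤ D := by omega
    exact_mod_cast this
  · rw [hD, hdR]
    have : D + 1 = s.card := by omega
    exact_mod_cast this

/-- **T1**: a regular local ring is a domain and its finite modules have finite projective
dimension. -/
theorem regular_main (d : ℕ) : ∀ (R : Type u) [CommRing R] [IsRegularLocalRing R],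
    ringKrullDim R = ((d : ℕ) : WithBot ℕ∞) → IsDomain R ∧
      ∀ (M : Type u) [AddCommGroup M] [Module R M] [Module.Finite R M],
        HasProjectiveDimensionLE (ModuleCat.of R M) d := by
  induction d with
  | zero =>
    intro R _ _ hd
    have h1 : (maximalIdeal R).spanFinrank = 0 := by
      have := IsRegularLocalRing.spanFinrank_maximalIdeal (R := R)
      rw [hd] at this
      exact_mod_cast this
    have h2 : maximalIdeal R = ⊥ :=
      (Submodule.spanFinrank_eq_zero_iff_eq_bot (maximalIdeal R).fg_of_isNoetherianRing).mp h1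
    have hfield : IsField R := IsLocalRing.isField_iff_maximalIdeal_eq.mpr h2
    refine ⟨hfield.isDomain, fun M _ _ _ => ?_⟩
    let := hfield.toField
    have : Module.Projective R M := by
      have : Module.Free R M := inferInstance
      infer_instance
    have : HasProjectiveDimensionLT (ModuleCat.of R M) 1 := by
      rw [← projective_iff_hasProjectiveDimensionLT_one, ← IsProjective.iff_projective]
      infer_instance
    exact this
  | succ d ih =>
    intro R _ _ hd
    classical
    have hrank : (maximalIdeal R).spanFinrank = d + 1 := by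
      have := IsRegularLocalRing.spanFinrank_maximalIdeal (R := R)
      rw [hd] at this
      exact_mod_cast this
    have hfg : (maximalIdeal R).FG := (maximalIdeal R).fg_of_isNoetherianRing
    have hmne : maximalIdeal R ≠ ⊥ := by
      intro h
      rw [h] at hrank
      simp at hrank
    have hfin : (minimalPrimes R).Finite := minimalPrimes.finite_of_isNoetherianRing R
    obtain ⟨x, hx, hx2, hxmin⟩ : ∃ x ∈ maximalIdeal R, x ∉ (maximalIdeal R) ^ 2 ∧
        ∀ p ∈ minimalPrimes R, x ∉ p := by
      by_contra hcon
      push Not at hcon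
      have hsub : ((maximalIdeal R : Ideal R) : Set R) ⊆
          ⋃ p ∈ insert ((maximalIdeal R) ^ 2) hfin.toFinset, (p : Set R) := by
        intro x hx
        by_cases h2 : x ∈ (maximalIdeal R) ^ 2
        · simp only [Finset.mem_insert, Set.mem_iUnion]
          exact ⟨_, Or.inl rfl, h2⟩
        · obtain ⟨p, hp, hxp⟩ := hcon x hx h2
          simp only [Finset.mem_insert, Set.mem_iUnion]
          exact ⟨p, Or.inr (hfin.mem_toFinset.mpr hp), hxp⟩
      obtain ⟨p, hp, hle⟩ := (Ideal.subset_union_prime (f := fun p => p)
        ((maximalIdeal R) ^ 2) ((maximalIdeal R) ^ 2) (by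
          intro i hi hne _
          rcases Finset.mem_insert.mp hi with h | h
          · exact absurd h hne
          · exact (hfin.mem_toFinset.mp h).1.1)).mp hsub
      rcases Finset.mem_insert.mp hp with h | h
      · subst h
        apply hmne
        refine Submodule.eq_bot_of_le_smul_of_le_jacobson_bot (maximalIdeal R) _ hfg ?_ ?_
        · rw [smul_eq_mul, ← pow_two]
          exact hle
        · rw [IsLocalRing.jacobson_eq_maximalIdeal _ bot_ne_top]
      · have hpmin := hfin.mem_toFinset.mp h
        have hpp : p.IsPrime := hpmin.1.1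
        have hpeq : p = maximalIdeal R := le_antisymm (le_maximalIdeal hpp.ne_top) hle
        have h0 : (maximalIdeal R).height = 0 := by
          rw [← hpeq]
          exact Ideal.height_eq_zero_iff.mpr hpmin
        have h1 := maximalIdeal_height_eq_ringKrullDim (R := R)
        rw [hd, h0] at h1
        have h2 : (0 : ℕ) = d + 1 := by exact_mod_cast h1
        omega
    have hne : Nontrivial (R ⧸ Ideal.span {x}) := by
      apply Ideal.Quotient.nontrivial_iff.mpr
      intro h
      rw [Ideal.span_singleton_eq_top] at h
      exact (IsLocalRing.mem_maximalIdeal x).mp hx h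
    have hloc : IsLocalRing (R ⧸ Ideal.span {x}) :=
      IsLocalRing.of_surjective' (Ideal.Quotient.mk (Ideal.span {x})) Ideal.Quotient.mk_surjective
    obtain ⟨hreg, hdim⟩ := regular_quotient x hx hx2
    have hdim' : ringKrullDim (R ⧸ Ideal.span {x}) = ((d : ℕ) : WithBot ℕ∞) := by
      obtain ⟨D, hD⟩ : ∃ D : ℕ, ringKrullDim (R ⧸ Ideal.span {x}) = ((D : ℕ) : WithBot ℕ∞) := by
        have hfin : (maximalIdeal (R ⧸ Ideal.span {x})).height ≠ ⊤ :=
          Ideal.height_ne_top_of_isPrime
        obtain ⟨D, hD⟩ := ENat.ne_top_iff_exists.mp hfin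
        exact ⟨D, by rw [← maximalIdeal_height_eq_ringKrullDim, ← hD]; rfl⟩
      rw [hD, hd] at hdim
      have : D + 1 = d + 1 := by exact_mod_cast hdim
      rw [hD]
      have : D = d := by omega
      rw [this]
    obtain ⟨hdom, hpd⟩ := ih (R ⧸ Ideal.span {x}) hdim'
    have hxprime : (Ideal.span {x}).IsPrime := (Ideal.Quotient.isDomain_iff_prime _).mp hdom
    -- R is a domain
    obtain ⟨P, hPmin, hPle⟩ := Ideal.exists_minimalPrimes_le (I := (⊥ : Ideal R)) (J := Ideal.span {x}) bot_le
    have hPprime : P.IsPrime := hPmin.1.1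
    have hxP : x ∉ P := hxmin P hPmin
    have hPbot : P = ⊥ := by
      refine Submodule.eq_bot_of_le_smul_of_le_jacobson_bot (maximalIdeal R) _
        P.fg_of_isNoetherianRing ?_ ?_
      · intro y hy
        obtain ⟨z, hz⟩ := Ideal.mem_span_singleton'.mp (hPle hy)
        have hzP : z ∈ P := by
          have : z * x ∈ P := by rw [hz]; exact hy
          exact (hPprime.mem_or_mem this).resolve_right hxP
        rw [← hz, mul_comm]
        exact Submodule.smul_mem_smul hx hzP
      · rw [IsLocalRing.jacobson_eq_maximalIdeal _ bot_ne_top]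
    have hdomR : IsDomain R := by
      rw [hPbot] at hPprime
      have := (Ideal.Quotient.isDomain_iff_prime (⊥ : Ideal R)).mpr hPprime
      exact (RingEquiv.quotientBot R).symm.isDomain
    refine ⟨hdomR, fun M _ _ _ => ?_⟩
    have hx0 : x ≠ 0 := by
      rintro rfl
      exact hx2 (Ideal.zero_mem _)
    have hxR : IsSMulRegular R x := fun u v huv => mul_left_cancel₀ hx0 huv
    obtain ⟨n, f, hf⟩ := Module.Finite.exists_fin' R M
    have hS : f.shortComplexKer.ShortExact := LinearMap.shortExact_shortComplexKer hf
    have hprojF : Projective f.shortComplexKer.X₂ := by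
      change Projective (ModuleCat.of R (Fin n → R))
      rw [← IsProjective.iff_projective]
      infer_instance
    have hxF : IsSMulRegular (Fin n → R) x := by
      intro u v huv
      ext i
      exact hxR (congrFun huv i)
    have hxZ : IsSMulRegular (LinearMap.ker f) x := IsSMulRegular.submodule _ _ hxF
    have hfinq : Module.Finite (R ⧸ Ideal.span {x}) (QuotSMulTop x (LinearMap.ker f)) :=
      Module.Finite.of_restrictScalars_finite R (R ⧸ Ideal.span {x}) _
    have h1 := pd_of_quotSMulTop x hx hxR d (LinearMap.ker f) hxZ (hpd _)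
    exact (hS.hasProjectiveDimensionLT_X₃_iff d hprojF).mpr h1

end MP463376.P4
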