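import Pool.Agent.Lib.MP_463376_co.P4d

/-!
Part 4 (homological toolkit), file e: finite projective dimension over localizations (T1), the
ideal of the non-free locus, strong acyclicity (T4).
-/

open CategoryTheory Abelian IsLocalRing Module RingTheory.Sequence Limits Pointwise

universe u

namespace MP463376.P4

variable {R : Type u} [CommRing R]

/-- if all finite modules over `A` have finite projective dimension then so do all finite modules
over a localization of `A`. -/
theorem exists_pd_localization {A : Type u} [CommRing A]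
    (hA : ∀ (M : Type u) [AddCommGroup M] [Module A M] [Module.Finite A M],
      ∃ k, HasProjectiveDimensionLE (ModuleCat.of A M) k)
    (S : Submonoid A) (W : Type u) [AddCommGroup W] [Module (Localization S) W]
    [Module.Finite (Localization S) W] :
    ∃ k, HasProjectiveDimensionLE (ModuleCat.of (Localization S) W) k := by
  let : Module A W := Module.compHom W (algebraMap A (Localization S))
  have : IsScalarTower A (Localization S) W := by
    refine ⟨fun a b w => ?_⟩
    rw [Algebra.smul_def, mul_smul]
    rfl
  obtain ⟨s, hs⟩ := (Module.finite_def.mp (inferInstance : Module.Finite (Localization S) W))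
  let W0 : Submodule A W := Submodule.span A (s : Set W)
  have hfin : Module.Finite A W0 := Module.Finite.span_of_finite A s.finite_toSet
  have hloc : IsLocalizedModule S W0.subtype := by
    refine ⟨?_, ?_, ?_⟩
    · intro t
      rw [Module.End.isUnit_iff]
      have hu : IsUnit (algebraMap A (Localization S) t) := IsLocalization.map_units _ t
      obtain ⟨u, hu⟩ := hu
      constructor
      · intro x y hxy
        have h1 : (u : Localization S) • x = (u : Localization S) • y := by
          rw [hu]; exact hxy
        have := congrArg (fun z => (↑u⁻¹ : Localization S) • z) h1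
        simpa [smul_smul] using this
      · intro y
        refine ⟨(↑u⁻¹ : Localization S) • y, ?_⟩
        have : (algebraMap A (Localization S) t) • ((↑u⁻¹ : Localization S) • y) = y := by
          rw [← hu, smul_smul, Units.mul_inv, one_smul]
        exact this
    · intro w
      have hw : w ∈ Submodule.span (Localization S) (s : Set W) := by rw [hs]; trivial
      have key : ∃ t : S, (t : A) • w ∈ W0 := by
        induction hw using Submodule.span_induction with
        | mem x hx => exact ⟨1, by simpa using Submodule.subset_span hx⟩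
        | zero => exact ⟨1, by simp⟩
        | add x y _ _ h1 h2 =>
          obtain ⟨t1, h1⟩ := h1
          obtain ⟨t2, h2⟩ := h2
          refine ⟨t1 * t2, ?_⟩
          have h3 : ((t1 * t2 : S) : A) • (x + y) = (t2 : A) • ((t1 : A) • x) +
              (t1 : A) • ((t2 : A) • y) := by
            rw [smul_add, smul_smul, smul_smul, Submonoid.coe_mul, mul_comm (t2 : A)]
          rw [h3]
          exact W0.add_mem (W0.smul_mem _ h1) (W0.smul_mem _ h2)
        | smul b x _ h1 =>
          obtain ⟨t1, h1⟩ := h1
          obtain ⟨⟨a, t⟩, hb⟩ := IsLocalization.surj S b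
          refine ⟨t * t1, ?_⟩
          have h3 : ((t * t1 : S) : A) • (b • x) = a • ((t1 : A) • x) := by
            rw [← algebraMap_smul (Localization S) ((t * t1 : S) : A),
              ← algebraMap_smul (Localization S) a, ← algebraMap_smul (Localization S) (t1 : A),
              smul_smul, smul_smul, Submonoid.coe_mul, map_mul, ← hb]
            congr 1
            ring
          rw [h3]
          exact W0.smul_mem _ h1
      obtain ⟨t, ht⟩ := key
      exact ⟨(⟨(t : A) • w, ht⟩, t), rfl⟩
    · intro x y hxy
      exact ⟨1, by rw [Subtype.ext hxy]⟩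
  obtain ⟨k, hk⟩ := hA W0
  refine ⟨k, ?_⟩
  have h1 := ModuleCat.localizedModule_hasProjectiveDimensionLE k S (ModuleCat.of A W0)
  have hl2 := ModuleCat.localizedModule_isLocalizedModule (ModuleCat.of A W0) S
  let e : (ModuleCat.of A W0).localizedModule S ≃ₗ[A] W :=
    @IsLocalizedModule.linearEquiv A _ S _ _ _ _ _ _ _ _ _
      ((ModuleCat.of A W0).localizedModuleMkLinearMap S) W0.subtype hl2 hloc
  let e' := LinearEquiv.extendScalarsOfIsLocalization S (Localization S) e
  exact ModuleCat.hasProjectiveDimensionLE_of_linearEquiv (N := ModuleCat.of (Localization S) W) e' k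

/-! ### The ideal describing the non-free locus -/

/-- `a` belongs to `nonfree A W` iff `a • id_W` factors through a finite free module. -/
def nonfree (A : Type*) [CommRing A] (W : Type*) [AddCommGroup W] [Module A W] : Ideal A where
  carrier := {a | ∃ (r : ℕ) (φ : Fin r → W →ₗ[A] A) (m : Fin r → W),
    ∀ w, a • w = ∑ i, φ i w • m i}
  zero_mem' := ⟨0, fun i => 0, fun i => 0, fun w => by simp⟩
  add_mem' := by
    rintro a b ⟨r, φ, m, h⟩ ⟨s, ψ, n, h'⟩
    refine ⟨r + s, Fin.append φ ψ, Fin.append m n, fun w => ?_⟩
    rw [Fin.sum_univ_add, add_smul, h, h']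
    simp
  smul_mem' := by
    rintro c a ⟨r, φ, m, h⟩
    refine ⟨r, φ, fun i => c • m i, fun w => ?_⟩
    rw [smul_eq_mul, mul_smul, h, Finset.smul_sum]
    refine Finset.sum_congr rfl (fun i _ => ?_)
    rw [smul_comm]

lemma mem_nonfree {A : Type*} [CommRing A] {W : Type*} [AddCommGroup W] [Module A W] {a : A} :
    a ∈ nonfree A W ↔ ∃ (r : ℕ) (φ : Fin r → W →ₗ[A] A) (m : Fin r → W),
      ∀ w, a • w = ∑ i, φ i w • m i := Iff.rfl

lemma projective_of_nonfree_eq_top {A : Type*} [CommRing A] {W : Type*} [AddCommGroup W]
    [Module A W] (h : nonfree A W = ⊤) : Module.Projective A W := by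
  obtain ⟨r, φ, m, h⟩ := (Ideal.eq_top_iff_one _).mp h
  refine Module.Projective.of_split (LinearMap.pi φ) (Fintype.linearCombination A m) ?_
  ext w
  have := h w
  rw [one_smul] at this
  simp [Fintype.linearCombination_apply, ← this]

/-- the ideal of the non-free locus grows when passing to a syzygy. -/
lemma nonfree_le_ker {A : Type*} [CommRing A] {W : Type*} [AddCommGroup W] [Module A W]
    {n : ℕ} (f : (Fin n → A) →ₗ[A] W) (hf : Function.Surjective f) :
    (nonfree A W ≤ nonfree A (LinearMap.ker f)) ∧
    (∀ a ∈ nonfree A W, ∀ ζ : (LinearMap.ker f) →ₗ[A] A, ∃ η : (Fin n → A) →ₗ[A] A,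
      η ∘ₗ (LinearMap.ker f).subtype = a • ζ) := by
  have key : ∀ a ∈ nonfree A W, ∃ r : (Fin n → A) →ₗ[A] (LinearMap.ker f),
      ∀ z : LinearMap.ker f, r z = a • z := by
    rintro a ⟨r, φ, m, h⟩
    choose v hv using fun i => hf (m i)
    let σ : W →ₗ[A] (Fin n → A) := ∑ i, (φ i).smulRight (v i)
    have hσ : ∀ w, f (σ w) = a • w := by
      intro w
      simp only [σ, LinearMap.sum_apply, LinearMap.smulRight_apply, map_sum, map_smul, hv]
      exact (h w).symm
    let g : (Fin n → A) →ₗ[A] (Fin n → A) := a • LinearMap.id - σ ∘ₗ f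
    have hg : ∀ x, g x ∈ LinearMap.ker f := by
      intro x
      simp only [g, LinearMap.mem_ker, LinearMap.sub_apply, LinearMap.smul_apply,
        LinearMap.id_apply, LinearMap.comp_apply, map_sub, map_smul, hσ, sub_self]
    refine ⟨LinearMap.codRestrict _ g hg, fun z => ?_⟩
    ext1
    have hz : f (z : Fin n → A) = 0 := z.2
    simp [g, hz]
  constructor
  · intro a ha
    obtain ⟨r, hr⟩ := key a ha
    refine ⟨n, fun i => (LinearMap.proj i) ∘ₗ (LinearMap.ker f).subtype,
      fun i => r (Pi.single i 1), fun z => ?_⟩
    rw [← hr z]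
    have : (z : Fin n → A) = ∑ i, ((z : Fin n → A) i) • (Pi.single i (1 : A) : Fin n → A) := by
      ext j
      simp [Finset.sum_apply, Pi.single_apply]
    conv_lhs => rw [this]
    rw [map_sum]
    refine Finset.sum_congr rfl (fun i _ => ?_)
    rw [map_smul]
    rfl
  · intro a ha ζ
    obtain ⟨r, hr⟩ := key a ha
    refine ⟨ζ ∘ₗ r, ?_⟩
    ext z
    simp [hr]

lemma les3 (N : ModuleCat.{u} R) {A B D : Type u} [AddCommGroup A] [AddCommGroup B]
    [AddCommGroup D] [Module R A] [Module R B] [Module R D] (i : A →ₗ[R] B) (p : B →ₗ[R] D)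
    (hex : Function.Exact i p) (hi : Function.Injective i) (hp : Function.Surjective p) (n : ℕ)
    (hB : Subsingleton (Ext N (ModuleCat.of R B) n))
    (hA : Subsingleton (Ext N (ModuleCat.of R A) (n + 1))) :
    Subsingleton (Ext N (ModuleCat.of R D) n) := by
  have hcomp : p ∘ₗ i = 0 := LinearMap.ext fun z => hex.apply_apply_eq_zero z
  let S := ModuleCat.shortComplexOfCompEqZero i p hcomp
  have hS : S.ShortExact := ModuleCat.shortComplex_shortExact S hex hi hp
  have zero1 := AddCommGrpCat.isZero_of_iff_subsingleton.mpr hB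
  have zero2 := AddCommGrpCat.isZero_of_iff_subsingleton.mpr hA
  exact AddCommGrpCat.subsingleton_of_isZero <| ShortComplex.Exact.isZero_of_both_zeros
    ((Ext.covariant_sequence_exact₃' N hS) n (n + 1) rfl)
    (zero1.eq_zero_of_src _) (zero2.eq_zero_of_tgt _)

lemma subsingleton_hom_of_ext (N M : Type u) [AddCommGroup N] [Module R N] [AddCommGroup M]
    [Module R M] (h : Subsingleton (Ext (ModuleCat.of R N) (ModuleCat.of R M) 0)) :
    Subsingleton (N →ₗ[R] M) := by
  refine ⟨fun u v => ?_⟩
  have := h.elim ((Ext.addEquiv₀.trans ModuleCat.homAddEquiv).symm u)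
    ((Ext.addEquiv₀.trans ModuleCat.homAddEquiv).symm v)
  exact (Ext.addEquiv₀.trans ModuleCat.homAddEquiv).symm.injective this

lemma ext_zero_of_subsingleton_hom (N M : Type u) [AddCommGroup N] [Module R N] [AddCommGroup M]
    [Module R M] (h : Subsingleton (N →ₗ[R] M)) :
    Subsingleton (Ext (ModuleCat.of R N) (ModuleCat.of R M) 0) :=
  (Ext.addEquiv₀.trans ModuleCat.homAddEquiv).subsingleton

lemma exists_factor {A : Type*} [CommRing A] {F W X : Type*} [AddCommGroup F] [Module A F]
    [AddCommGroup W] [Module A W] [AddCommGroup X] [Module A X] (f : F →ₗ[A] W)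
    (hf : Function.Surjective f) (η : F →ₗ[A] X) (h : LinearMap.ker f ≤ LinearMap.ker η) :
    ∃ θ : W →ₗ[A] X, θ ∘ₗ f = η := by
  refine ⟨(LinearMap.ker f).liftQ η h ∘ₗ (f.quotKerEquivOfSurjective hf).symm.toLinearMap, ?_⟩
  ext v
  have : (f.quotKerEquivOfSurjective hf).symm (f v) = Submodule.Quotient.mk v := by
    rw [LinearEquiv.symm_apply_eq]
    rfl
  simp only [LinearMap.comp_apply, LinearEquiv.coe_coe, this]
  exact Submodule.liftQ_apply _ _ _

/-- **strong acyclicity** (T4) -/
theorem strong_acyclicity [IsLocalRing R] [IsNoetherianRing R] (j : ℕ) (W : Type u)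
    [AddCommGroup W] [Module R W] [Module.Finite R W]
    (hpd : HasProjectiveDimensionLE (ModuleCat.of R W) j)
    (hp : ∀ a ∈ maximalIdeal R, ∃ k : ℕ, a ^ k ∈ nonfree R W)
    (hW : ∀ i < j + 2, Subsingleton
      (Ext (ModuleCat.of R (R ⧸ maximalIdeal R)) (ModuleCat.of R (Module.Dual R W)) i))
    (hR : ∀ i < j + 1, Subsingleton
      (Ext (ModuleCat.of R (R ⧸ maximalIdeal R)) (ModuleCat.of R R) i)) :
    Module.Projective R W := by
  induction j generalizing W with
  | zero =>
    rw [HasProjectiveDimensionLE, zero_add, ← projective_iff_hasProjectiveDimensionLT_one,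
      ← IsProjective.iff_projective] at hpd
    exact hpd
  | succ j ih =>
    obtain ⟨n, f, hf⟩ := Module.Finite.exists_fin' R W
    have hS : f.shortComplexKer.ShortExact := LinearMap.shortExact_shortComplexKer hf
    have hprojF : Projective f.shortComplexKer.X₂ := by
      change Projective (ModuleCat.of R (Fin n → R))
      rw [← IsProjective.iff_projective]
      infer_instance
    have hZpd : HasProjectiveDimensionLE (ModuleCat.of R (LinearMap.ker f)) j :=
      (hS.hasProjectiveDimensionLT_X₃_iff j hprojF).mp hpd
    obtain ⟨hnf1, hnf2⟩ := nonfree_le_ker f hf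
    let Z := LinearMap.ker f
    let ρ : Module.Dual R (Fin n → R) →ₗ[R] Module.Dual R Z := Z.subtype.dualMap
    -- the sequence 0 → W* → F* → range ρ → 0
    have hexW : Function.Exact f.dualMap ρ.rangeRestrict := by
      intro η
      rw [← LinearMap.mem_ker, LinearMap.ker_rangeRestrict, LinearMap.mem_ker]
      constructor
      · intro h
        have hker : LinearMap.ker f ≤ LinearMap.ker η := by
          intro z hz
          exact LinearMap.congr_fun h ⟨z, hz⟩
        obtain ⟨θ, hθ⟩ := exists_factor f hf η hker
        exact ⟨θ, hθ⟩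
      · rintro ⟨θ, rfl⟩
        ext z
        have hz : f (z : Fin n → R) = 0 := z.2
        simp [ρ, hz]
    have hinjW : Function.Injective f.dualMap := LinearMap.dualMap_injective_of_surjective hf
    have hFdual : ∀ i < j + 2, Subsingleton (Ext (ModuleCat.of R (R ⧸ maximalIdeal R))
        (ModuleCat.of R (Module.Dual R (Fin n → R))) i) := by
      intro i hi
      have e : (Fin n → R) ≃ₗ[R] Module.Dual R (Fin n → R) := (Pi.basisFun R (Fin n)).toDualEquiv
      exact ext_congr_right _ e i (ext_pi _ n i (hR i hi))
    have hrange : ∀ i < j + 2, Subsingleton (Ext (ModuleCat.of R (R ⧸ maximalIdeal R))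
        (ModuleCat.of R (LinearMap.range ρ)) i) := by
      intro i hi
      exact les3 _ f.dualMap ρ.rangeRestrict hexW hinjW (LinearMap.surjective_rangeRestrict _) i
        (hFdual i hi) (hW (i + 1) (by omega))
    -- Hom(κ, Z*) = 0
    have hZ0 : Subsingleton ((R ⧸ maximalIdeal R) →ₗ[R] Module.Dual R Z) := by
      have h1 := subsingleton_hom_of_ext (R ⧸ maximalIdeal R) R (hR 0 (by omega))
      have key : ∀ φ : (R ⧸ maximalIdeal R) →ₗ[R] Module.Dual R Z, φ = 0 := by
        intro φ
        refine LinearMap.ext fun x => LinearMap.ext fun z => ?_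
        have := h1.elim ((Module.Dual.eval R Z z) ∘ₗ φ) 0
        exact LinearMap.congr_fun this x
      exact ⟨fun a b => by rw [key a, key b]⟩
    -- ρ is surjective
    have hE0 : Subsingleton ((R ⧸ maximalIdeal R) →ₗ[R] (Module.Dual R Z ⧸ LinearMap.range ρ)) := by
      apply subsingleton_hom_of_ext
      refine les3 _ (LinearMap.range ρ).subtype (LinearMap.range ρ).mkQ ?_
        (Submodule.injective_subtype _) (Submodule.mkQ_surjective _) 0
        (ext_zero_of_subsingleton_hom _ _ hZ0) (hrange 1 (by omega))
      intro x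
      simp
    have hρ : Function.Surjective ρ := by
      rw [← LinearMap.range_eq_top]
      by_contra hne
      have hnt : Nontrivial (Module.Dual R Z ⧸ LinearMap.range ρ) :=
        Submodule.Quotient.nontrivial_iff.mpr hne
      obtain ⟨x, hx⟩ := exists_ne (0 : Module.Dual R Z ⧸ LinearMap.range ρ)
      obtain ⟨q, hq, -⟩ := exists_le_isAssociatedPrime_of_isNoetherianRing R x hx
      have hqp := hq.isPrime
      have hqm : q = maximalIdeal R := by
        refine le_antisymm (le_maximalIdeal hqp.ne_top) ?_
        intro a ha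
        obtain ⟨k, hk⟩ := hp a ha
        apply hqp.mem_of_pow_mem k
        obtain ⟨-, y, hy⟩ := isAssociatedPrime_iff.mp hq
        rw [hy, Submodule.mem_colon_singleton, Submodule.mem_bot]
        obtain ⟨ζ, rfl⟩ := Submodule.Quotient.mk_surjective _ y
        rw [← Submodule.Quotient.mk_smul, Submodule.Quotient.mk_eq_zero]
        obtain ⟨η, hη⟩ := hnf2 _ hk ζ
        exact ⟨η, hη⟩
      subst hqm
      obtain ⟨-, g, hg⟩ := (isAssociatedPrime_iff_exists_injective_linearMap _ _).mp hq
      have h2 : g = 0 := hE0.elim _ _
      have hnt2 : Nontrivial (R ⧸ maximalIdeal R) :=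
        Ideal.Quotient.nontrivial_iff.mpr (maximalIdeal.isMaximal R).ne_top
      have h3 : (1 : R ⧸ maximalIdeal R) = 0 := by
        apply hg
        rw [h2]
        simp
      exact one_ne_zero h3
    have hZdual : ∀ i < j + 2, Subsingleton (Ext (ModuleCat.of R (R ⧸ maximalIdeal R))
        (ModuleCat.of R (Module.Dual R Z)) i) := by
      intro i hi
      have e : LinearMap.range ρ ≃ₗ[R] Module.Dual R Z :=
        (LinearEquiv.ofEq _ _ (LinearMap.range_eq_top.mpr hρ)).trans Submodule.topEquiv
      exact ext_congr_right _ e i (hrange i hi)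
    have hZproj : Module.Projective R Z := by
      refine ih Z hZpd ?_ hZdual (fun i hi => hR i (by omega))
      intro a ha
      obtain ⟨k, hk⟩ := hp a ha
      exact ⟨k, hnf1 hk⟩
    have hZfree : Module.Free R Z := Module.free_of_flat_of_isLocalRing
    -- a retraction
    let b := Module.Free.chooseBasis R Z
    choose c hc using fun i => hρ (b.coord i)
    let r : (Fin n → R) →ₗ[R] Z := ∑ i, (c i).smulRight (b i)
    have hr : ∀ z : Z, r z = z := by
      intro z
      have : ∀ i, c i (z : Fin n → R) = b.coord i z := fun i => LinearMap.congr_fun (hc i) z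
      simp only [r, LinearMap.sum_apply, LinearMap.smulRight_apply, this, Basis.coord_apply]
      exact b.sum_repr z
    have hker : LinearMap.ker f ≤ LinearMap.ker (LinearMap.id - Z.subtype ∘ₗ r) := by
      intro z hz
      have := hr ⟨z, hz⟩
      simp only at this
      rw [LinearMap.mem_ker]
      simp [this]
    obtain ⟨σ, hσ⟩ := exists_factor f hf (LinearMap.id - Z.subtype ∘ₗ r) hker
    refine Module.Projective.of_split σ f ?_
    ext w
    obtain ⟨v, rfl⟩ := hf w
    have h1 : σ (f v) = v - (r v : Fin n → R) := LinearMap.congr_fun hσ v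
    have h2 : f (r v : Fin n → R) = 0 := (r v).2
    simp [h1, h2]

end MP463376.P4
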