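import Pool.Agent.Lib.MP_463376_co.P4e

/-!
Part 4 (homological toolkit), file f: the machine (Theorem 4).
-/

open CategoryTheory Abelian IsLocalRing Module RingTheory.Sequence Limits Pointwise

universe u

namespace MP463376.P4

/-- Theorem 4, local form. -/
theorem machine_local {A C : Type u} [CommRing A] [IsLocalRing A] [IsNoetherianRing A] [CommRing C]
    [Algebra A C] [Module.Finite A C]
    (hpd : ∃ k, HasProjectiveDimensionLE (ModuleCat.of A C) k) (e : C ≃ₗ[A] Module.Dual A C)
    (m : ℕ) (hd : (maximalIdeal A).height ≤ (2 * m : ℕ))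
    (hp : ∀ a ∈ maximalIdeal A, ∃ k : ℕ, a ^ k ∈ nonfree A C)
    (H : ∀ Q : Ideal C, Q.IsMaximal → ∃ rs : List C, rs.length = m ∧ (∀ r ∈ rs, r ∈ Q) ∧
      IsWeaklyRegular C rs ∧ (Q ∈ associatedPrimes C (C ⧸ (Ideal.ofList rs • ⊤ : Submodule C C)) →
        (maximalIdeal A).height ≤ m)) :
    Module.Projective A C := by
  by_cases hC : Subsingleton C
  · have : Module.Free A C := inferInstance
    infer_instance
  have hCnt : Nontrivial C := not_subsingleton_iff_nontrivial.mp hC
  have hCn : IsNoetherianRing C := IsNoetherianRing.of_finite A C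
  obtain ⟨g, hg1, hg2, hg3⟩ := exists_depth A
  obtain ⟨k, hk⟩ := hpd
  by_cases hm : (maximalIdeal A).height ≤ m
  · -- first case
    have hext : ∀ i < m, Subsingleton
        (Ext (ModuleCat.of A (A ⧸ maximalIdeal A)) (ModuleCat.of A C) i) := by
      refine ext_transfer (A := A) (C := C) C m ?_
      intro Q hQ i hi
      obtain ⟨rs, hlen, hmem, hreg, -⟩ := H Q hQ
      refine (ext_of_seq (ModuleCat.of C (C ⧸ Q)) C rs ?_ hreg).1 i (by omega)
      intro r hr
      change r ∈ Module.annihilator C (C ⧸ Q)
      rw [Ideal.annihilator_quotient]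
      exact hmem r hr
    obtain ⟨h1, h2⟩ := ab_ineq g hg1 hg2 k C hk m hext
    have hgm : g = m := by
      have : (g : ℕ∞) ≤ m := hg3.trans hm
      have : g ≤ m := by exact_mod_cast this
      omega
    subst hgm
    rw [Nat.sub_self, HasProjectiveDimensionLE, zero_add,
      ← projective_iff_hasProjectiveDimensionLT_one, ← IsProjective.iff_projective] at h2
    exact h2
  · have hext : ∀ i < m + 1, Subsingleton
        (Ext (ModuleCat.of A (A ⧸ maximalIdeal A)) (ModuleCat.of A C) i) := by
      refine ext_transfer (A := A) (C := C) C (m + 1) ?_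
      intro Q hQ i hi
      obtain ⟨rs, hlen, hmem, hreg, hass⟩ := H Q hQ
      refine (ext_of_seq (ModuleCat.of C (C ⧸ Q)) C rs ?_ hreg).2 ?_ i (by omega)
      · intro r hr
        change r ∈ Module.annihilator C (C ⧸ Q)
        rw [Ideal.annihilator_quotient]
        exact hmem r hr
      · have key : ∀ φ : (C ⧸ Q) →ₗ[C] (C ⧸ (Ideal.ofList rs • ⊤ : Submodule C C)), φ = 0 := by
          intro φ
          by_contra hφ
          apply hm
          apply hass
          rw [AssociatedPrimes.mem_iff, isAssociatedPrime_iff]
          refine ⟨hQ.isPrime, φ (Submodule.Quotient.mk 1), ?_⟩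
          have hne : φ (Submodule.Quotient.mk 1) ≠ 0 := by
            intro h0
            apply hφ
            ext
            simpa using h0
          refine hQ.eq_of_le ?_ ?_
          · intro htop
            rw [Ideal.eq_top_iff_one, Submodule.mem_colon_singleton, one_smul] at htop
            exact hne (by simpa using htop)
          · intro q hq
            rw [Submodule.mem_colon_singleton, Submodule.mem_bot, ← map_smul,
              ← Submodule.Quotient.mk_smul]
            have : (Submodule.Quotient.mk (q • (1 : C)) : C ⧸ Q) = 0 := by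
              rw [Submodule.Quotient.mk_eq_zero]
              simpa using hq
            rw [this, map_zero]
        exact ⟨fun a b => by rw [key a, key b]⟩
    obtain ⟨h1, h2⟩ := ab_ineq g hg1 hg2 k C hk (m + 1) hext
    have hg2m : g ≤ 2 * m := by
      have : (g : ℕ∞) ≤ ((2 * m : ℕ) : ℕ∞) := hg3.trans hd
      exact_mod_cast this
    obtain ⟨j, rfl⟩ : ∃ j, m = j + 1 := ⟨m - 1, by omega⟩
    refine strong_acyclicity j C ?_ hp ?_ ?_
    · exact hasProjectiveDimensionLT_of_ge (ModuleCat.of A C) (g - (j + 1 + 1) + 1) (j + 1) (by omega)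
    · intro i hi
      exact ext_congr_right _ e i (hext i (by omega))
    · intro i hi
      exact hg2 i (by omega)

/-- elements of the ideal `nonfree` stay there under localization. -/
lemma nonfree_localization {A : Type u} [CommRing A] (S : Submonoid A) {B : Type u} [CommRing B]
    [Algebra A B] [IsLocalization S B] {W W' : Type u} [AddCommGroup W] [Module A W]
    [AddCommGroup W'] [Module A W'] [Module B W'] [IsScalarTower A B W'] (f : W →ₗ[A] W')
    [IsLocalizedModule S f] (a : A) (ha : a ∈ nonfree A W) : algebraMap A B a ∈ nonfree B W' := by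
  obtain ⟨r, φ, m, h⟩ := ha
  refine ⟨r, fun i => IsLocalizedModule.mapExtendScalars S f (Algebra.linearMap A B) B (φ i),
    fun i => f (m i), ?_⟩
  intro w
  obtain ⟨⟨w0, s⟩, hw⟩ := IsLocalizedModule.surj S f w
  have hs : IsUnit (algebraMap A B s) := IsLocalization.map_units B s
  have hw' : algebraMap A B s • w = f w0 := by
    rw [algebraMap_smul]
    exact hw
  have hinj : ∀ x y : W', algebraMap A B s • x = algebraMap A B s • y → x = y := by
    intro x y hxy
    obtain ⟨u, hu⟩ := hs
    rw [← hu] at hxy
    have := congrArg (fun z => (↑u⁻¹ : B) • z) hxy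
    simpa [smul_smul] using this
  apply hinj
  rw [smul_comm, hw', Finset.smul_sum]
  have h1 : ∀ i, (algebraMap A B s) • ((IsLocalizedModule.mapExtendScalars S f
      (Algebra.linearMap A B) B (φ i)) w • f (m i)) = f (φ i w0 • m i) := by
    intro i
    have h2 : (IsLocalizedModule.mapExtendScalars S f (Algebra.linearMap A B) B (φ i)) (f w0) =
        algebraMap A B (φ i w0) := by
      simp
    have h3 : (algebraMap A B s) • ((IsLocalizedModule.mapExtendScalars S f
      (Algebra.linearMap A B) B (φ i)) w) = algebraMap A B (φ i w0) := by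
      rw [← h2, ← hw']
      exact (map_smul _ _ _).symm
    rw [← smul_assoc, h3, algebraMap_smul, map_smul]
  rw [Finset.sum_congr rfl (fun i _ => h1 i), ← map_sum, ← h, algebraMap_smul, map_smul]

/-- conversely if the localization is projective, the ideal meets the multiplicative set. -/
lemma nonfree_of_localization {A : Type u} [CommRing A] [IsNoetherianRing A] (S : Submonoid A)
    {B : Type u} [CommRing B]
    [Algebra A B] [IsLocalization S B] {W W' : Type u} [AddCommGroup W] [Module A W]
    [Module.Finite A W]
    [AddCommGroup W'] [Module A W'] [Module B W'] [IsScalarTower A B W'] (f : W →ₗ[A] W')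
    [IsLocalizedModule S f] (h : Module.Projective B W') : ∃ s ∈ S, s ∈ nonfree A W := by
  have hfp : Module.FinitePresentation A W := Module.finitePresentation_of_finite A W
  have hfinW' : Module.Finite B W' := Module.Finite.of_isLocalizedModule S (Rₚ := B) f
  -- a finite dual basis
  obtain ⟨n, p, hp⟩ := Module.Finite.exists_fin' B W'
  obtain ⟨q, hq⟩ := Module.projective_lifting_property p LinearMap.id hp
  -- coordinates
  have hlift : ∀ i, ∃ (φ : W →ₗ[A] A) (s : S), (Algebra.linearMap A B) ∘ₗ φ =
      s • (((LinearMap.proj i ∘ₗ q).restrictScalars A) ∘ₗ f) := fun i =>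
    Module.FinitePresentation.exists_lift_of_isLocalizedModule S (Algebra.linearMap A B) _
  choose φ s hφ using hlift
  have hsurj : ∀ i, ∃ (m : W) (t : S), (t : A) • p (Pi.single i 1) = f m := by
    intro i
    obtain ⟨⟨m, t⟩, hm⟩ := IsLocalizedModule.surj S f (p (Pi.single i 1))
    exact ⟨m, t, hm⟩
  choose m t hm using hsurj
  -- common denominator
  let d : S := (∏ i, s i) * (∏ i, t i)
  have hsplit : ∀ i, ∃ c : S, (d : A) = (c : A) * ((s i : A) * (t i : A)) := by
    intro i
    obtain ⟨c1, hc1⟩ : ∃ c1 : S, ∏ i, s i = c1 * s i := by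
      classical
      exact ⟨∏ j ∈ Finset.univ.erase i, s j, by
        rw [Finset.prod_erase_mul _ _ (Finset.mem_univ i)]⟩
    obtain ⟨c2, hc2⟩ : ∃ c2 : S, ∏ i, t i = c2 * t i := by
      classical
      exact ⟨∏ j ∈ Finset.univ.erase i, t j, by
        rw [Finset.prod_erase_mul _ _ (Finset.mem_univ i)]⟩
    refine ⟨c1 * c2, ?_⟩
    have : d = c1 * c2 * (s i * t i) := by
      simp only [d, hc1, hc2]
      exact mul_mul_mul_comm _ _ _ _
    rw [this]
    simp
  choose c hc using hsplit
  let Φ : W →ₗ[A] W := ∑ i, (c i : A) • (φ i).smulRight (m i)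
  have hΦ : f ∘ₗ Φ = f ∘ₗ ((d : A) • LinearMap.id) := by
    ext w
    simp only [LinearMap.comp_apply, Φ, LinearMap.sum_apply, LinearMap.smul_apply,
      LinearMap.smulRight_apply, map_sum, map_smul, LinearMap.id_apply]
    have h1 : ∀ i, (c i : A) • φ i w • f (m i) = (d : A) • (q (f w) i • p (Pi.single i 1)) := by
      intro i
      have h2 : algebraMap A B (φ i w) = (s i : A) • (q (f w) i) := LinearMap.congr_fun (hφ i) w
      rw [← hm i, ← algebraMap_smul B (φ i w), h2, hc i]
      rw [smul_assoc, smul_comm (q (f w) i) (t i : A), smul_smul, smul_smul, mul_assoc]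
    rw [Finset.sum_congr rfl (fun i _ => h1 i), ← Finset.smul_sum]
    congr 1
    have h3 : p (q (f w)) = f w := LinearMap.congr_fun hq (f w)
    conv_rhs => rw [← h3]
    have h4 : q (f w) = ∑ i, (q (f w) i) • (Pi.single i (1 : B) : Fin n → B) := by
      ext j
      simp [Finset.sum_apply, Pi.single_apply]
    conv_rhs => rw [h4]
    rw [map_sum]
    simp only [map_smul]
  obtain ⟨u, hu⟩ := Module.Finite.exists_smul_of_comp_eq_of_isLocalizedModule S f _ _ hΦ
  refine ⟨u * d, S.mul_mem u.2 d.2, n, φ, fun i => (u : A) • (c i : A) • m i, fun w => ?_⟩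
  have h5 := LinearMap.congr_fun hu w
  have h6 : (u : A) • Φ w = (u : A) • ((d : A) • w) := h5
  rw [mul_smul, ← h6]
  simp only [Φ, LinearMap.sum_apply, LinearMap.smul_apply, LinearMap.smulRight_apply,
    Finset.smul_sum]
  refine Finset.sum_congr rfl (fun i _ => ?_)
  rw [smul_comm (c i : A) (φ i w), smul_comm (u : A) (φ i w)]

/-- **Theorem 4** (the machine). -/
theorem machine {A C : Type u} [CommRing A] [IsLocalRing A] [IsNoetherianRing A] [CommRing C]
    [Algebra A C] [Module.Finite A C]
    (hA : ∀ (M : Type u) [AddCommGroup M] [Module A M] [Module.Finite A M],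
      ∃ k, HasProjectiveDimensionLE (ModuleCat.of A M) k)
    (e : C ≃ₗ[A] Module.Dual A C) (n : ℕ)
    (H : ∀ p ∈ (nonfree A C).minimalPrimes, ∃ s ≤ n, p.height ≤ (2 * (n - s) : ℕ) ∧
      ∀ Q : Ideal C, Q.IsPrime → Q.comap (algebraMap A C) = p →
        ∃ rs : List C, rs.length = n - s ∧ (∀ r ∈ rs, r ∈ Q) ∧ IsWeaklyRegular C rs ∧
          (Q ∈ associatedPrimes C (C ⧸ (Ideal.ofList rs • ⊤ : Submodule C C)) →
            p.height ≤ (n - s : ℕ))) :
    Module.Free A C := by
  have hCn : IsNoetherianRing C := IsNoetherianRing.of_finite A C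
  by_cases htop : nonfree A C = ⊤
  · have := projective_of_nonfree_eq_top htop
    exact Module.free_of_flat_of_isLocalRing
  exfalso
  obtain ⟨p, hp⟩ := Ideal.nonempty_minimalPrimes htop
  have hpp : p.IsPrime := hp.1.1
  obtain ⟨s, hsn, hht, HQ⟩ := H p hp
  let Ap := Localization.AtPrime p
  let S := Algebra.algebraMapSubmonoid C p.primeCompl
  let Cp := Localization S
  have hloc : IsLocalizedModule p.primeCompl (IsScalarTower.toAlgHom A C Cp).toLinearMap := by
    infer_instance
  have hfin : Module.Finite Ap Cp :=
    Module.Finite.of_isLocalizedModule p.primeCompl (Rₚ := Ap)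
      (IsScalarTower.toAlgHom A C Cp).toLinearMap
  have hCpn : IsNoetherianRing Cp := IsLocalization.isNoetherianRing S Cp hCn
  have hfpC : Module.FinitePresentation A C := Module.finitePresentation_of_finite A C
  have hproj : Module.Projective Ap Cp := by
    -- self-duality
    let f : C →ₗ[A] Cp := (IsScalarTower.toAlgHom A C Cp).toLinearMap
    let g : C →ₗ[A] Module.Dual Ap Cp :=
      (IsLocalizedModule.mapExtendScalars p.primeCompl f (Algebra.linearMap A Ap) Ap) ∘ₗ
        e.toLinearMap
    have hg : IsLocalizedModule p.primeCompl g := by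
      have h1 : IsLocalizedModule p.primeCompl
          (IsLocalizedModule.mapExtendScalars p.primeCompl f (Algebra.linearMap A Ap) Ap) := by
        infer_instance
      exact IsLocalizedModule.of_linearEquiv_right _ _ e
    let e1 : Cp ≃ₗ[A] Module.Dual Ap Cp := IsLocalizedModule.linearEquiv p.primeCompl f g
    let e2 : Cp ≃ₗ[Ap] Module.Dual Ap Cp := LinearEquiv.extendScalarsOfIsLocalization
      p.primeCompl Ap e1
    have hheight : (maximalIdeal Ap).height = p.height := by
      have h1 := maximalIdeal_height_eq_ringKrullDim (R := Ap)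
      rw [IsLocalization.AtPrime.ringKrullDim_eq_height p Ap] at h1
      exact_mod_cast h1
    refine machine_local (exists_pd_localization hA p.primeCompl Cp) e2 (n - s) ?_ ?_ ?_
    · rw [hheight]; exact hht
    · -- the ideal
      have hrad := IsLocalization.AtPrime.radical_map_of_mem_minimalPrimes Ap p (nonfree A C) hp
      rw [Localization.AtPrime.map_eq_maximalIdeal] at hrad
      have hle : (nonfree A C).map (algebraMap A Ap) ≤ nonfree Ap Cp := by
        rw [Ideal.map_le_iff_le_comap]
        intro a ha
        exact nonfree_localization p.primeCompl f a ha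
      intro a ha
      rw [← hrad] at ha
      obtain ⟨k, hk⟩ := ha
      exact ⟨k, hle hk⟩
    · intro Q' hQ'
      have hint : Algebra.IsIntegral Ap Cp := Algebra.IsIntegral.of_finite Ap Cp
      have h1 : (Q'.comap (algebraMap Ap Cp)).IsMaximal :=
        Ideal.isMaximal_comap_of_isIntegral_of_isMaximal Q'
      have h2 : Q'.comap (algebraMap Ap Cp) = maximalIdeal Ap := IsLocalRing.eq_maximalIdeal h1
      have h3 : (Q'.comap (algebraMap C Cp)).comap (algebraMap A C) = p := by
        rw [Ideal.comap_comap, ← IsScalarTower.algebraMap_eq, IsScalarTower.algebraMap_eq A Ap Cp,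
          ← Ideal.comap_comap, h2]
        exact Localization.AtPrime.under_maximalIdeal
      obtain ⟨rs, hlen, hmem, hreg, hass⟩ := HQ (Q'.comap (algebraMap C Cp))
        (Ideal.comap_isPrime _ _) h3
      refine ⟨rs.map (algebraMap C Cp), by rw [List.length_map, hlen], ?_, ?_, ?_⟩
      · intro r hr
        obtain ⟨r0, hr0, rfl⟩ := List.mem_map.mp hr
        exact hmem r0 hr0
      · exact hreg.of_isLocalization Cp S
      · intro hQass
        rw [hheight]
        apply hass
        let M' : Submodule C C := (Ideal.ofList rs • ⊤ : Submodule C C)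
        have hM' : M'.localized' Cp S (Algebra.linearMap C Cp) =
            (Ideal.ofList (rs.map (algebraMap C Cp)) • ⊤ : Submodule Cp Cp) := by
          rw [Submodule.localized'_smul, Submodule.localized'_top, Ideal.localized'_eq_map,
            Ideal.map_ofList]
        rw [← hM'] at hQass
        exact Module.associatedPrimes.comap_mem_associatedPrimes_of_mem_associatedPrimes_of_isLocalizedModule_of_fg
          S (M'.toLocalizedQuotient' Cp S (Algebra.linearMap C Cp)) Q' hQass
          ((isNoetherianRing_iff_ideal_fg C).mp hCn _)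
  obtain ⟨t, ht, ht'⟩ := nonfree_of_localization p.primeCompl
    (IsScalarTower.toAlgHom A C Cp).toLinearMap hproj
  exact ht (hp.1.2 ht')

end MP463376.P4
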