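import Mathlib

/-!
# MP_463376_co: symmetric functions, modified Macdonald polynomials, cumulants

The ring of symmetric functions over a field `K` of characteristic zero is modelled as the
polynomial ring `Sym K = K[p_1, p_2, ...]` in the power sums, `X i = p_{i+1}`.
-/

namespace Pool.Agent.Lib.MP_463376_co

open MvPolynomial

/-- the field `ℚ(q,t)` -/
abbrev Kqt : Type := FractionRing (MvPolynomial (Fin 2) ℚ)

/-- `q` -/
noncomputable def qq : Kqt := algebraMap (MvPolynomial (Fin 2) ℚ) Kqt (X 0)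
/-- `t` -/
noncomputable def tt : Kqt := algebraMap (MvPolynomial (Fin 2) ℚ) Kqt (X 1)

/-- symmetric functions over `K` as polynomials in the power sums; `X i` is `p_{i+1}` -/
abbrev Sym (K : Type) [Field K] : Type := MvPolynomial ℕ K

section
variable (K : Type) [Field K]

/-- complete homogeneous symmetric functions: `(n+1) h_{n+1} = ∑_{i=0}^{n} p_{i+1} h_{n-i}` -/
noncomputable def hS : ℕ → Sym K
  | 0 => 1
  | n + 1 => C (((n + 1 : ℕ) : K)⁻¹) * ∑ i : Fin (n + 1), X (i : ℕ) * hS (n - i)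

/-- `h_m` for an integer `m` (zero for negative `m`) -/
noncomputable def hZ (m : ℤ) : Sym K := if m < 0 then 0 else hS K m.toNat

/-- Schur functions (Jacobi-Trudi) -/
noncomputable def schur (lam : YoungDiagram) : Sym K :=
  Matrix.det (Matrix.of fun i j : Fin (lam.colLen 0) =>
    hZ K ((lam.rowLen i : ℤ) - (i : ℤ) + (j : ℤ)))

variable {K}

/-- the Hall scalar product: `⟨p_λ, p_μ⟩ = δ z_λ` -/
noncomputable def hall (f g : Sym K) : K :=
  ∑ m ∈ f.support, f.coeff m * g.coeff m *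
    m.prod fun i e => ((i + 1 : ℕ) : K) ^ e * ((e.factorial : ℕ) : K)

/-- dominance order `lam ≥ mu` (for partitions of the same number) -/
def Dom (lam mu : YoungDiagram) : Prop :=
  lam.card = mu.card ∧
    ∀ m : ℕ, ∑ i ∈ Finset.range m, mu.rowLen i ≤ ∑ i ∈ Finset.range m, lam.rowLen i

/-- the plethysm `f[X(1-u)]`, i.e. `p_k ↦ (1-u^k) p_k` -/
noncomputable def plethOne (u : K) : Sym K →ₐ[K] Sym K :=
  aeval fun i => C (1 - u ^ (i + 1)) * X i

end

/-- the one-row diagram with `n` cells -/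
def rowD (n : ℕ) : YoungDiagram where
  cells := {0} ×ˢ Finset.range n
  isLowerSet := by
    rintro ⟨i, j⟩ ⟨i', j'⟩ h h'
    simp only [Finset.coe_product, Finset.coe_singleton, Finset.coe_range, Set.mem_prod,
      Set.mem_singleton_iff, Set.mem_Iio] at h' ⊢
    exact ⟨Nat.le_zero.mp (h'.1 ▸ h.1), lt_of_le_of_lt h.2 h'.2⟩

/-- `H` is the modified Macdonald polynomial of the partition `mu` -/
structure IsModMac (mu : YoungDiagram) (H : Sym Kqt) : Prop where
  tri_q : plethOne qq H ∈ Submodule.span Kqt {f | ∃ lam, Dom lam mu ∧ f = schur Kqt lam}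
  tri_t : plethOne tt H ∈ Submodule.span Kqt {f | ∃ lam, Dom lam mu.transpose ∧ f = schur Kqt lam}
  norm : hall H (schur Kqt (rowD mu.card)) = 1

/-- the partition `⊕_{b ∈ B} λ^b` (add the parts) -/
def oplus {r : ℕ} (B : Finset (Fin r)) (lam : Fin r → YoungDiagram) : YoungDiagram where
  cells := ((Finset.range (∑ b, (lam b).colLen 0)) ×ˢ (Finset.range (∑ b, (lam b).rowLen 0))).filter
    fun c => c.2 < ∑ b ∈ B, (lam b).rowLen c.1
  isLowerSet := by
    rintro ⟨i, j⟩ ⟨i', j'⟩ h h'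
    simp only [Finset.coe_filter, Finset.mem_product, Finset.mem_range, Set.mem_ofPred_eq] at h' ⊢
    refine ⟨⟨lt_of_le_of_lt h.1 h'.1.1, lt_of_le_of_lt h.2 h'.1.2⟩, ?_⟩
    refine lt_of_le_of_lt h.2 (lt_of_lt_of_le h'.2 ?_)
    exact Finset.sum_le_sum fun b _ => (lam b).rowLen_anti _ _ h.1

/-- the cumulant `κ(λ^1,...,λ^r) = (q-1)^{1-r} ∑_π (-1)^{k-1} (k-1)! u_{B_1} ... u_{B_k}` -/
noncomputable def kappa (H : YoungDiagram → Sym Kqt) {r : ℕ} (lam : Fin r → YoungDiagram) :
    Sym Kqt :=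
  C ((qq - 1) ^ (r - 1))⁻¹ *
    ∑ π : Finpartition (Finset.univ : Finset (Fin r)),
      (-1) ^ (π.parts.card - 1) * ((π.parts.card - 1).factorial : Sym Kqt) *
        ∏ B ∈ π.parts, H (oplus B lam)

/-- the power sum product `p_{cycle type of w}` -/
noncomputable def pcyc (K : Type) [Field K] {ι : Type} [Fintype ι] [DecidableEq ι]
    (w : Equiv.Perm ι) : Sym K :=
  (w.partition.parts.map fun m => (X (m - 1) : Sym K)).prod

/-- the Frobenius characteristic `(1/n!) ∑_w f(w) p_{cycle type of w}` -/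
noncomputable def frob {K : Type} [Field K] {ι : Type} [Fintype ι] [DecidableEq ι]
    (f : Equiv.Perm ι → K) : Sym K :=
  C ((((Fintype.card ι).factorial : ℕ) : K)⁻¹) * ∑ w : Equiv.Perm ι, C (f w) * pcyc K w

/-- polynomials in `q,t` with rational coefficients as elements of `ℚ(q,t)` -/
noncomputable def toK : MvPolynomial (Fin 2) ℚ →+* Kqt := algebraMap (MvPolynomial (Fin 2) ℚ) Kqt

/-- final statement -/
def Statement : Prop :=
  LinearIndependent Kqt (schur Kqt) ∧
  ∃ H : YoungDiagram → Sym Kqt, (∀ mu, IsModMac mu (H mu)) ∧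
    (∀ mu H', IsModMac mu H' → H' = H mu) ∧
    ∀ (r : ℕ) (lam : Fin r → YoungDiagram), 1 ≤ r →
      ∃ c : YoungDiagram →₀ MvPolynomial (Fin 2) ℕ,
        kappa H lam = ∑ mu ∈ c.support,
          C (toK (MvPolynomial.map (Nat.castRingHom ℚ) (c mu))) * schur Kqt mu

end Pool.Agent.Lib.MP_463376_co
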